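import Pool.Agent.Lib.H63L.FIN

/-!
# H63L, file FIN2: the plane 2-matching with `n / 3` disjoint edges
-/

set_option autoImplicit false

open H53P SimpleDraw

namespace H63L

open H38E in
/-- a plane spanning subdrawing whose components are edges and cycles, with `n / 3` disjoint edges -/
theorem perm_third {n : ℕ} (hn : 2 ≤ n) (D : SimpleDrawing n) :
    ∃ f : Equiv.Perm (Fin n), (∀ v, f v ≠ v) ∧ D.Plane (SimpleGraph.fromRel fun x y => f x = y) ∧
      ∃ S : Finset (Fin n), n ≤ 3 * S.card ∧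
        ∀ x ∈ S, ∀ y ∈ S, x ≠ y → Disjoint (D.curve x (f x)) (D.curve y (f y)) := by
  classical
  obtain ⟨f, hf, hP⟩ := perm_drawing hn D
  refine ⟨f, hf, hP, ?_⟩
  obtain ⟨S, hS1, hS2⟩ := H98P.third (f : Fin n → Fin n) f.injective hf
  refine ⟨S, ?_, ?_⟩
  · rw [Fintype.card_fin] at hS2
    exact hS2
  · intro x hx y hy hxy
    rw [Set.disjoint_iff_inter_eq_empty, ← Set.not_nonempty_iff_eq_empty]
    rintro ⟨p, hp⟩
    have a1 : (SimpleGraph.fromRel fun x y => f x = y).Adj x (f x) := by
      rw [SimpleGraph.fromRel_adj]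
      exact ⟨(hf x).symm, Or.inl rfl⟩
    have a2 : (SimpleGraph.fromRel fun x y => f x = y).Adj y (f y) := by
      rw [SimpleGraph.fromRel_adj]
      exact ⟨(hf y).symm, Or.inl rfl⟩
    have h1 : f x ≠ y := fun h => hS1 y hy x hx h.symm
    have h2 : f y ≠ x := fun h => hS1 x hx y hy h.symm
    have h3 : f x ≠ f y := fun h => hxy (f.injective h)
    obtain ⟨v, hv1, hv2, -⟩ := hP x (f x) y (f y) a1 a2 (by
      intro h
      rcases Sym2.eq_iff.1 h with h | h
      · exact hxy h.1
      · exact h2 h.1.symm) p hp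
    rcases hv1 with rfl | rfl <;> rcases hv2 with h | h
    · exact hxy h
    · exact h2 h.symm
    · exact h1 h
    · exact h3 h

end H63L
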