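import Pool.Agent.Lib.H63L.GS

/-!
# H63L, file GC2: clauses for five points (generated)
-/

set_option linter.unusedVariables false
set_option autoImplicit false

namespace H53P

variable {V : Type} {T : Table V}


theorem bz5_10505_264 : ∀ b1 b2 b4 b5 b6 b7 b9 b10 b12 b14 : Bool,
    ok5 false b1 b2 true b4 b5 b6 b7 true b9 b10 false b12 false b14 = true → False := by
  decide +kernel

theorem z5_10505_264 {p0 p1 p2 p3 p4 : V} (h : T.Ok5 p0 p1 p2 p3 p4)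
    (n0 : T.X p0 p1 p2 p3 = false) (n3 : T.X p0 p1 p2 p4 = true) (n8 : T.X p0 p4 p1 p3 = true) (n11 : T.X p0 p4 p2 p3 = false) (n13 : T.X p1 p3 p2 p4 = false) : False := by
  have h2 := h
  unfold Table.Ok5 at h2
  rw [n0, n3, n8, n11, n13] at h2
  exact bz5_10505_264 _ _ _ _ _ _ _ _ _ _ h2

theorem bz5_11529_8457 : ∀ b1 b2 b4 b5 b6 b7 b9 b12 b14 : Bool,
    ok5 true b1 b2 true b4 b5 b6 b7 true b9 false false b12 true b14 = true → False := by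
  decide +kernel

theorem z5_11529_8457 {p0 p1 p2 p3 p4 : V} (h : T.Ok5 p0 p1 p2 p3 p4)
    (n0 : T.X p0 p1 p2 p3 = true) (n3 : T.X p0 p1 p2 p4 = true) (n8 : T.X p0 p4 p1 p3 = true) (n10 : T.X p0 p3 p2 p4 = false) (n11 : T.X p0 p4 p2 p3 = false) (n13 : T.X p1 p3 p2 p4 = true) : False := by
  have h2 := h
  unfold Table.Ok5 at h2
  rw [n0, n3, n8, n10, n11, n13] at h2
  exact bz5_11529_8457 _ _ _ _ _ _ _ _ _ h2

theorem bz5_16535_16528 : ∀ b3 b5 b6 b8 b9 b10 b11 b12 b13 : Bool,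
    ok5 false false false b3 true b5 b6 true b8 b9 b10 b11 b12 b13 true = true → False := by
  decide +kernel

theorem z5_16535_16528 {p0 p1 p2 p3 p4 : V} (h : T.Ok5 p0 p1 p2 p3 p4)
    (n0 : T.X p0 p1 p2 p3 = false) (n1 : T.X p0 p2 p1 p3 = false) (n2 : T.X p0 p3 p1 p2 = false) (n4 : T.X p0 p2 p1 p4 = true) (n7 : T.X p0 p3 p1 p4 = true) (n14 : T.X p1 p4 p2 p3 = true) : False := by
  have h2 := h
  unfold Table.Ok5 at h2
  rw [n0, n1, n2, n4, n7, n14] at h2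
  exact bz5_16535_16528 _ _ _ _ _ _ _ _ _ h2

theorem bz5_16977_513 : ∀ b1 b2 b3 b5 b7 b8 b10 b11 b12 b13 : Bool,
    ok5 true b1 b2 b3 false b5 false b7 b8 true b10 b11 b12 b13 false = true → False := by
  decide +kernel

theorem z5_16977_513 {p0 p1 p2 p3 p4 : V} (h : T.Ok5 p0 p1 p2 p3 p4)
    (n0 : T.X p0 p1 p2 p3 = true) (n4 : T.X p0 p2 p1 p4 = false) (n6 : T.X p0 p1 p3 p4 = false) (n9 : T.X p0 p2 p3 p4 = true) (n14 : T.X p1 p4 p2 p3 = false) : False := by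
  have h2 := h
  unfold Table.Ok5 at h2
  rw [n0, n4, n6, n9, n14] at h2
  exact bz5_16977_513 _ _ _ _ _ _ _ _ _ _ h2

theorem bz5_17026_17026 : ∀ b0 b2 b3 b4 b5 b6 b8 b10 b11 b12 b13 : Bool,
    ok5 b0 true b2 b3 b4 b5 b6 true b8 true b10 b11 b12 b13 true = true → False := by
  decide +kernel

theorem z5_17026_17026 {p0 p1 p2 p3 p4 : V} (h : T.Ok5 p0 p1 p2 p3 p4)
    (n1 : T.X p0 p2 p1 p3 = true) (n7 : T.X p0 p3 p1 p4 = true) (n9 : T.X p0 p2 p3 p4 = true) (n14 : T.X p1 p4 p2 p3 = true) : False := by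
  have h2 := h
  unfold Table.Ok5 at h2
  rw [n1, n7, n9, n14] at h2
  exact bz5_17026_17026 _ _ _ _ _ _ _ _ _ _ _ h2

theorem bz5_17545_136 : ∀ b1 b2 b4 b5 b6 b8 b9 b11 b12 b13 : Bool,
    ok5 false b1 b2 true b4 b5 b6 true b8 b9 false b11 b12 b13 false = true → False := by
  decide +kernel

theorem z5_17545_136 {p0 p1 p2 p3 p4 : V} (h : T.Ok5 p0 p1 p2 p3 p4)
    (n0 : T.X p0 p1 p2 p3 = false) (n3 : T.X p0 p1 p2 p4 = true) (n7 : T.X p0 p3 p1 p4 = true) (n10 : T.X p0 p3 p2 p4 = false) (n14 : T.X p1 p4 p2 p3 = false) : False := by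
  have h2 := h
  unfold Table.Ok5 at h2
  rw [n0, n3, n7, n10, n14] at h2
  exact bz5_17545_136 _ _ _ _ _ _ _ _ _ _ h2

theorem bz5_18489_18433 : ∀ b1 b2 b6 b7 b8 b9 b10 b12 b13 : Bool,
    ok5 true b1 b2 false false false b6 b7 b8 b9 b10 true b12 b13 true = true → False := by
  decide +kernel

theorem z5_18489_18433 {p0 p1 p2 p3 p4 : V} (h : T.Ok5 p0 p1 p2 p3 p4)
    (n0 : T.X p0 p1 p2 p3 = true) (n3 : T.X p0 p1 p2 p4 = false) (n4 : T.X p0 p2 p1 p4 = false) (n5 : T.X p0 p4 p1 p2 = false) (n11 : T.X p0 p4 p2 p3 = true) (n14 : T.X p1 p4 p2 p3 = true) : False := by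
  have h2 := h
  unfold Table.Ok5 at h2
  rw [n0, n3, n4, n5, n11, n14] at h2
  exact bz5_18489_18433 _ _ _ _ _ _ _ _ _ h2

theorem bz5_18596_2176 : ∀ b0 b1 b3 b4 b6 b8 b9 b10 b12 b13 : Bool,
    ok5 b0 b1 false b3 b4 false b6 true b8 b9 b10 true b12 b13 false = true → False := by
  decide +kernel

theorem z5_18596_2176 {p0 p1 p2 p3 p4 : V} (h : T.Ok5 p0 p1 p2 p3 p4)
    (n2 : T.X p0 p3 p1 p2 = false) (n5 : T.X p0 p4 p1 p2 = false) (n7 : T.X p0 p3 p1 p4 = true) (n11 : T.X p0 p4 p2 p3 = true) (n14 : T.X p1 p4 p2 p3 = false) : False := by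
  have h2 := h
  unfold Table.Ok5 at h2
  rw [n2, n5, n7, n11, n14] at h2
  exact bz5_18596_2176 _ _ _ _ _ _ _ _ _ _ h2

theorem bz5_18612_18564 : ∀ b0 b1 b3 b6 b8 b9 b10 b12 b13 : Bool,
    ok5 b0 b1 true b3 false false b6 true b8 b9 b10 true b12 b13 true = true → False := by
  decide +kernel

theorem z5_18612_18564 {p0 p1 p2 p3 p4 : V} (h : T.Ok5 p0 p1 p2 p3 p4)
    (n2 : T.X p0 p3 p1 p2 = true) (n4 : T.X p0 p2 p1 p4 = false) (n5 : T.X p0 p4 p1 p2 = false) (n7 : T.X p0 p3 p1 p4 = true) (n11 : T.X p0 p4 p2 p3 = true) (n14 : T.X p1 p4 p2 p3 = true) : False := by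
  have h2 := h
  unfold Table.Ok5 at h2
  rw [n2, n4, n5, n7, n11, n14] at h2
  exact bz5_18612_18564 _ _ _ _ _ _ _ _ _ h2

theorem bz5_18706_16386 : ∀ b0 b2 b3 b5 b6 b7 b9 b10 b12 b13 : Bool,
    ok5 b0 true b2 b3 false b5 b6 b7 false b9 b10 false b12 b13 true = true → False := by
  decide +kernel

theorem z5_18706_16386 {p0 p1 p2 p3 p4 : V} (h : T.Ok5 p0 p1 p2 p3 p4)
    (n1 : T.X p0 p2 p1 p3 = true) (n4 : T.X p0 p2 p1 p4 = false) (n8 : T.X p0 p4 p1 p3 = false) (n11 : T.X p0 p4 p2 p3 = false) (n14 : T.X p1 p4 p2 p3 = true) : False := by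
  have h2 := h
  unfold Table.Ok5 at h2
  rw [n1, n4, n8, n11, n14] at h2
  exact bz5_18706_16386 _ _ _ _ _ _ _ _ _ _ h2

theorem bz5_192_192 : ∀ b0 b1 b2 b3 b4 b5 b8 b9 b10 b11 b12 b13 b14 : Bool,
    ok5 b0 b1 b2 b3 b4 b5 true true b8 b9 b10 b11 b12 b13 b14 = true → False := by
  decide +kernel

theorem z5_192_192 {p0 p1 p2 p3 p4 : V} (h : T.Ok5 p0 p1 p2 p3 p4)
    (n6 : T.X p0 p1 p3 p4 = true) (n7 : T.X p0 p3 p1 p4 = true) : False := by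
  have h2 := h
  unfold Table.Ok5 at h2
  rw [n6, n7] at h2
  exact bz5_192_192 _ _ _ _ _ _ _ _ _ _ _ _ _ h2

theorem bz5_19593_16521 : ∀ b1 b2 b4 b5 b6 b8 b9 b12 b13 : Bool,
    ok5 true b1 b2 true b4 b5 b6 true b8 b9 false false b12 b13 true = true → False := by
  decide +kernel

theorem z5_19593_16521 {p0 p1 p2 p3 p4 : V} (h : T.Ok5 p0 p1 p2 p3 p4)
    (n0 : T.X p0 p1 p2 p3 = true) (n3 : T.X p0 p1 p2 p4 = true) (n7 : T.X p0 p3 p1 p4 = true) (n10 : T.X p0 p3 p2 p4 = false) (n11 : T.X p0 p4 p2 p3 = false) (n14 : T.X p1 p4 p2 p3 = true) : False := by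
  have h2 := h
  unfold Table.Ok5 at h2
  rw [n0, n3, n7, n10, n11, n14] at h2
  exact bz5_19593_16521 _ _ _ _ _ _ _ _ _ h2

theorem bz5_2343_2336 : ∀ b3 b4 b6 b7 b9 b10 b12 b13 b14 : Bool,
    ok5 false false false b3 b4 true b6 b7 true b9 b10 true b12 b13 b14 = true → False := by
  decide +kernel

theorem z5_2343_2336 {p0 p1 p2 p3 p4 : V} (h : T.Ok5 p0 p1 p2 p3 p4)
    (n0 : T.X p0 p1 p2 p3 = false) (n1 : T.X p0 p2 p1 p3 = false) (n2 : T.X p0 p3 p1 p2 = false) (n5 : T.X p0 p4 p1 p2 = true) (n8 : T.X p0 p4 p1 p3 = true) (n11 : T.X p0 p4 p2 p3 = true) : False := by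
  have h2 := h
  unfold Table.Ok5 at h2
  rw [n0, n1, n2, n5, n8, n11] at h2
  exact bz5_2343_2336 _ _ _ _ _ _ _ _ _ h2

theorem bz5_31008_2336 : ∀ b0 b1 b2 b3 b4 b6 b7 b9 b10 : Bool,
    ok5 b0 b1 b2 b3 b4 true b6 b7 true b9 b10 true false false false = true → False := by
  decide +kernel

theorem z5_31008_2336 {p0 p1 p2 p3 p4 : V} (h : T.Ok5 p0 p1 p2 p3 p4)
    (n5 : T.X p0 p4 p1 p2 = true) (n8 : T.X p0 p4 p1 p3 = true) (n11 : T.X p0 p4 p2 p3 = true) (n12 : T.X p1 p2 p3 p4 = false) (n13 : T.X p1 p3 p2 p4 = false) (n14 : T.X p1 p4 p2 p3 = false) : False := by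
  have h2 := h
  unfold Table.Ok5 at h2
  rw [n5, n8, n11, n12, n13, n14] at h2
  exact bz5_31008_2336 _ _ _ _ _ _ _ _ _ h2

theorem bz5_4178_4178 : ∀ b0 b2 b3 b5 b7 b8 b9 b10 b11 b13 b14 : Bool,
    ok5 b0 true b2 b3 true b5 true b7 b8 b9 b10 b11 true b13 b14 = true → False := by
  decide +kernel

theorem z5_4178_4178 {p0 p1 p2 p3 p4 : V} (h : T.Ok5 p0 p1 p2 p3 p4)
    (n1 : T.X p0 p2 p1 p3 = true) (n4 : T.X p0 p2 p1 p4 = true) (n6 : T.X p0 p1 p3 p4 = true) (n12 : T.X p1 p2 p3 p4 = true) : False := by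
  have h2 := h
  unfold Table.Ok5 at h2
  rw [n1, n4, n6, n12] at h2
  exact bz5_4178_4178 _ _ _ _ _ _ _ _ _ _ _ h2

theorem bz5_4728_4672 : ∀ b0 b1 b2 b7 b8 b10 b11 b13 b14 : Bool,
    ok5 b0 b1 b2 false false false true b7 b8 true b10 b11 true b13 b14 = true → False := by
  decide +kernel

theorem z5_4728_4672 {p0 p1 p2 p3 p4 : V} (h : T.Ok5 p0 p1 p2 p3 p4)
    (n3 : T.X p0 p1 p2 p4 = false) (n4 : T.X p0 p2 p1 p4 = false) (n5 : T.X p0 p4 p1 p2 = false) (n6 : T.X p0 p1 p3 p4 = true) (n9 : T.X p0 p2 p3 p4 = true) (n12 : T.X p1 p2 p3 p4 = true) : False := by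
  have h2 := h
  unfold Table.Ok5 at h2
  rw [n3, n4, n5, n6, n9, n12] at h2
  exact bz5_4728_4672 _ _ _ _ _ _ _ _ _ h2

theorem bz5_4756_4112 : ∀ b0 b1 b3 b5 b6 b8 b10 b11 b13 b14 : Bool,
    ok5 b0 b1 false b3 true b5 b6 false b8 false b10 b11 true b13 b14 = true → False := by
  decide +kernel

theorem z5_4756_4112 {p0 p1 p2 p3 p4 : V} (h : T.Ok5 p0 p1 p2 p3 p4)
    (n2 : T.X p0 p3 p1 p2 = false) (n4 : T.X p0 p2 p1 p4 = true) (n7 : T.X p0 p3 p1 p4 = false) (n9 : T.X p0 p2 p3 p4 = false) (n12 : T.X p1 p2 p3 p4 = true) : False := by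
  have h2 := h
  unfold Table.Ok5 at h2
  rw [n2, n4, n7, n9, n12] at h2
  exact bz5_4756_4112 _ _ _ _ _ _ _ _ _ _ h2

theorem bz5_4898_34 : ∀ b0 b2 b3 b4 b6 b7 b10 b11 b13 b14 : Bool,
    ok5 b0 true b2 b3 b4 true b6 b7 false false b10 b11 false b13 b14 = true → False := by
  decide +kernel

theorem z5_4898_34 {p0 p1 p2 p3 p4 : V} (h : T.Ok5 p0 p1 p2 p3 p4)
    (n1 : T.X p0 p2 p1 p3 = true) (n5 : T.X p0 p4 p1 p2 = true) (n8 : T.X p0 p4 p1 p3 = false) (n9 : T.X p0 p2 p3 p4 = false) (n12 : T.X p1 p2 p3 p4 = false) : False := by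
  have h2 := h
  unfold Table.Ok5 at h2
  rw [n1, n5, n8, n9, n12] at h2
  exact bz5_4898_34 _ _ _ _ _ _ _ _ _ _ h2

theorem bz5_4898_4352 : ∀ b0 b2 b3 b4 b6 b7 b10 b11 b13 b14 : Bool,
    ok5 b0 false b2 b3 b4 false b6 b7 true false b10 b11 true b13 b14 = true → False := by
  decide +kernel

theorem z5_4898_4352 {p0 p1 p2 p3 p4 : V} (h : T.Ok5 p0 p1 p2 p3 p4)
    (n1 : T.X p0 p2 p1 p3 = false) (n5 : T.X p0 p4 p1 p2 = false) (n8 : T.X p0 p4 p1 p3 = true) (n9 : T.X p0 p2 p3 p4 = false) (n12 : T.X p1 p2 p3 p4 = true) : False := by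
  have h2 := h
  unfold Table.Ok5 at h2
  rw [n1, n5, n8, n9, n12] at h2
  exact bz5_4898_4352 _ _ _ _ _ _ _ _ _ _ h2

theorem bz5_5196_1088 : ∀ b0 b1 b4 b5 b7 b8 b9 b11 b13 b14 : Bool,
    ok5 b0 b1 false false b4 b5 true b7 b8 b9 true b11 false b13 b14 = true → False := by
  decide +kernel

theorem z5_5196_1088 {p0 p1 p2 p3 p4 : V} (h : T.Ok5 p0 p1 p2 p3 p4)
    (n2 : T.X p0 p3 p1 p2 = false) (n3 : T.X p0 p1 p2 p4 = false) (n6 : T.X p0 p1 p3 p4 = true) (n10 : T.X p0 p3 p2 p4 = true) (n12 : T.X p1 p2 p3 p4 = false) : False := by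
  have h2 := h
  unfold Table.Ok5 at h2
  rw [n2, n3, n6, n10, n12] at h2
  exact bz5_5196_1088 _ _ _ _ _ _ _ _ _ _ h2

theorem bz5_5228_5188 : ∀ b0 b1 b4 b7 b8 b9 b11 b13 b14 : Bool,
    ok5 b0 b1 true false b4 false true b7 b8 b9 true b11 true b13 b14 = true → False := by
  decide +kernel

theorem z5_5228_5188 {p0 p1 p2 p3 p4 : V} (h : T.Ok5 p0 p1 p2 p3 p4)
    (n2 : T.X p0 p3 p1 p2 = true) (n3 : T.X p0 p1 p2 p4 = false) (n5 : T.X p0 p4 p1 p2 = false) (n6 : T.X p0 p1 p3 p4 = true) (n10 : T.X p0 p3 p2 p4 = true) (n12 : T.X p1 p2 p3 p4 = true) : False := by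
  have h2 := h
  unfold Table.Ok5 at h2
  rw [n2, n3, n5, n6, n10, n12] at h2
  exact bz5_5228_5188 _ _ _ _ _ _ _ _ _ h2

theorem bz5_5780_4244 : ∀ b0 b1 b3 b5 b6 b8 b11 b13 b14 : Bool,
    ok5 b0 b1 true b3 true b5 b6 true b8 false false b11 true b13 b14 = true → False := by
  decide +kernel

theorem z5_5780_4244 {p0 p1 p2 p3 p4 : V} (h : T.Ok5 p0 p1 p2 p3 p4)
    (n2 : T.X p0 p3 p1 p2 = true) (n4 : T.X p0 p2 p1 p4 = true) (n7 : T.X p0 p3 p1 p4 = true) (n9 : T.X p0 p2 p3 p4 = false) (n10 : T.X p0 p3 p2 p4 = false) (n12 : T.X p1 p2 p3 p4 = true) : False := by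
  have h2 := h
  unfold Table.Ok5 at h2
  rw [n2, n4, n7, n9, n10, n12] at h2
  exact bz5_5780_4244 _ _ _ _ _ _ _ _ _ h2

theorem bz5_6241_4097 : ∀ b1 b2 b3 b4 b7 b8 b9 b10 b13 b14 : Bool,
    ok5 true b1 b2 b3 b4 false false b7 b8 b9 b10 false true b13 b14 = true → False := by
  decide +kernel

theorem z5_6241_4097 {p0 p1 p2 p3 p4 : V} (h : T.Ok5 p0 p1 p2 p3 p4)
    (n0 : T.X p0 p1 p2 p3 = true) (n5 : T.X p0 p4 p1 p2 = false) (n6 : T.X p0 p1 p3 p4 = false) (n11 : T.X p0 p4 p2 p3 = false) (n12 : T.X p1 p2 p3 p4 = true) : False := by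
  have h2 := h
  unfold Table.Ok5 at h2
  rw [n0, n5, n6, n11, n12] at h2
  exact bz5_6241_4097 _ _ _ _ _ _ _ _ _ _ h2

theorem bz5_6404_6404 : ∀ b0 b1 b3 b4 b5 b6 b7 b9 b10 b13 b14 : Bool,
    ok5 b0 b1 true b3 b4 b5 b6 b7 true b9 b10 true true b13 b14 = true → False := by
  decide +kernel

theorem z5_6404_6404 {p0 p1 p2 p3 p4 : V} (h : T.Ok5 p0 p1 p2 p3 p4)
    (n2 : T.X p0 p3 p1 p2 = true) (n8 : T.X p0 p4 p1 p3 = true) (n11 : T.X p0 p4 p2 p3 = true) (n12 : T.X p1 p2 p3 p4 = true) : False := by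
  have h2 := h
  unfold Table.Ok5 at h2
  rw [n2, n8, n11, n12] at h2
  exact bz5_6404_6404 _ _ _ _ _ _ _ _ _ _ _ h2

theorem bz5_6_6 : ∀ b0 b3 b4 b5 b6 b7 b8 b9 b10 b11 b12 b13 b14 : Bool,
    ok5 b0 true true b3 b4 b5 b6 b7 b8 b9 b10 b11 b12 b13 b14 = true → False := by
  decide +kernel

theorem z5_6_6 {p0 p1 p2 p3 p4 : V} (h : T.Ok5 p0 p1 p2 p3 p4)
    (n1 : T.X p0 p2 p1 p3 = true) (n2 : T.X p0 p3 p1 p2 = true) : False := by
  have h2 := h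
  unfold Table.Ok5 at h2
  rw [n1, n2] at h2
  exact bz5_6_6 _ _ _ _ _ _ _ _ _ _ _ _ _ h2

theorem bz5_8332_8332 : ∀ b0 b1 b4 b5 b6 b8 b9 b10 b11 b12 b14 : Bool,
    ok5 b0 b1 true true b4 b5 b6 true b8 b9 b10 b11 b12 true b14 = true → False := by
  decide +kernel

theorem z5_8332_8332 {p0 p1 p2 p3 p4 : V} (h : T.Ok5 p0 p1 p2 p3 p4)
    (n2 : T.X p0 p3 p1 p2 = true) (n3 : T.X p0 p1 p2 p4 = true) (n7 : T.X p0 p3 p1 p4 = true) (n13 : T.X p1 p3 p2 p4 = true) : False := by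
  have h2 := h
  unfold Table.Ok5 at h2
  rw [n2, n3, n7, n13] at h2
  exact bz5_8332_8332 _ _ _ _ _ _ _ _ _ _ _ h2

theorem bz5_8778_520 : ∀ b0 b2 b4 b5 b7 b8 b10 b11 b12 b14 : Bool,
    ok5 b0 false b2 true b4 b5 false b7 b8 true b10 b11 b12 false b14 = true → False := by
  decide +kernel

theorem z5_8778_520 {p0 p1 p2 p3 p4 : V} (h : T.Ok5 p0 p1 p2 p3 p4)
    (n1 : T.X p0 p2 p1 p3 = false) (n3 : T.X p0 p1 p2 p4 = true) (n6 : T.X p0 p1 p3 p4 = false) (n9 : T.X p0 p2 p3 p4 = true) (n13 : T.X p1 p3 p2 p4 = false) : False := by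
  have h2 := h
  unfold Table.Ok5 at h2
  rw [n1, n3, n6, n9, n13] at h2
  exact bz5_8778_520 _ _ _ _ _ _ _ _ _ _ h2

theorem bz5_8794_8770 : ∀ b0 b2 b5 b7 b8 b10 b11 b12 b14 : Bool,
    ok5 b0 true b2 false false b5 true b7 b8 true b10 b11 b12 true b14 = true → False := by
  decide +kernel

theorem z5_8794_8770 {p0 p1 p2 p3 p4 : V} (h : T.Ok5 p0 p1 p2 p3 p4)
    (n1 : T.X p0 p2 p1 p3 = true) (n3 : T.X p0 p1 p2 p4 = false) (n4 : T.X p0 p2 p1 p4 = false) (n6 : T.X p0 p1 p3 p4 = true) (n9 : T.X p0 p2 p3 p4 = true) (n13 : T.X p1 p3 p2 p4 = true) : False := by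
  have h2 := h
  unfold Table.Ok5 at h2
  rw [n1, n3, n4, n6, n9, n13] at h2
  exact bz5_8794_8770 _ _ _ _ _ _ _ _ _ h2

theorem bz5_9362_1040 : ∀ b0 b2 b3 b5 b6 b8 b9 b11 b12 b14 : Bool,
    ok5 b0 false b2 b3 true b5 b6 false b8 b9 true b11 b12 false b14 = true → False := by
  decide +kernel

theorem z5_9362_1040 {p0 p1 p2 p3 p4 : V} (h : T.Ok5 p0 p1 p2 p3 p4)
    (n1 : T.X p0 p2 p1 p3 = false) (n4 : T.X p0 p2 p1 p4 = true) (n7 : T.X p0 p3 p1 p4 = false) (n10 : T.X p0 p3 p2 p4 = true) (n13 : T.X p1 p3 p2 p4 = false) : False := by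
  have h2 := h
  unfold Table.Ok5 at h2
  rw [n1, n4, n7, n10, n13] at h2
  exact bz5_9362_1040 _ _ _ _ _ _ _ _ _ _ h2

theorem bz5_9508_260 : ∀ b0 b1 b3 b4 b6 b7 b9 b11 b12 b14 : Bool,
    ok5 b0 b1 true b3 b4 false b6 b7 true b9 false b11 b12 false b14 = true → False := by
  decide +kernel

theorem z5_9508_260 {p0 p1 p2 p3 p4 : V} (h : T.Ok5 p0 p1 p2 p3 p4)
    (n2 : T.X p0 p3 p1 p2 = true) (n5 : T.X p0 p4 p1 p2 = false) (n8 : T.X p0 p4 p1 p3 = true) (n10 : T.X p0 p3 p2 p4 = false) (n13 : T.X p1 p3 p2 p4 = false) : False := by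
  have h2 := h
  unfold Table.Ok5 at h2
  rw [n2, n5, n8, n10, n13] at h2
  exact bz5_9508_260 _ _ _ _ _ _ _ _ _ _ h2

theorem bz5_9508_8224 : ∀ b0 b1 b3 b4 b6 b7 b9 b11 b12 b14 : Bool,
    ok5 b0 b1 false b3 b4 true b6 b7 false b9 false b11 b12 true b14 = true → False := by
  decide +kernel

theorem z5_9508_8224 {p0 p1 p2 p3 p4 : V} (h : T.Ok5 p0 p1 p2 p3 p4)
    (n2 : T.X p0 p3 p1 p2 = false) (n5 : T.X p0 p4 p1 p2 = true) (n8 : T.X p0 p4 p1 p3 = false) (n10 : T.X p0 p3 p2 p4 = false) (n13 : T.X p1 p3 p2 p4 = true) : False := by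
  have h2 := h
  unfold Table.Ok5 at h2
  rw [n2, n5, n8, n10, n13] at h2
  exact bz5_9508_8224 _ _ _ _ _ _ _ _ _ _ h2

theorem bz5_978_530 : ∀ b0 b2 b3 b5 b10 b11 b12 b13 b14 : Bool,
    ok5 b0 true b2 b3 true b5 false false false true b10 b11 b12 b13 b14 = true → False := by
  decide +kernel

theorem z5_978_530 {p0 p1 p2 p3 p4 : V} (h : T.Ok5 p0 p1 p2 p3 p4)
    (n1 : T.X p0 p2 p1 p3 = true) (n4 : T.X p0 p2 p1 p4 = true) (n6 : T.X p0 p1 p3 p4 = false) (n7 : T.X p0 p3 p1 p4 = false) (n8 : T.X p0 p4 p1 p3 = false) (n9 : T.X p0 p2 p3 p4 = true) : False := by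
  have h2 := h
  unfold Table.Ok5 at h2
  rw [n1, n4, n6, n7, n8, n9] at h2
  exact bz5_978_530 _ _ _ _ _ _ _ _ _ h2

theorem bz5_9802_8266 : ∀ b0 b2 b4 b5 b7 b8 b11 b12 b14 : Bool,
    ok5 b0 true b2 true b4 b5 true b7 b8 false false b11 b12 true b14 = true → False := by
  decide +kernel

theorem z5_9802_8266 {p0 p1 p2 p3 p4 : V} (h : T.Ok5 p0 p1 p2 p3 p4)
    (n1 : T.X p0 p2 p1 p3 = true) (n3 : T.X p0 p1 p2 p4 = true) (n6 : T.X p0 p1 p3 p4 = true) (n9 : T.X p0 p2 p3 p4 = false) (n10 : T.X p0 p3 p2 p4 = false) (n13 : T.X p1 p3 p2 p4 = true) : False := by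
  have h2 := h
  unfold Table.Ok5 at h2
  rw [n1, n3, n6, n9, n10, n13] at h2
  exact bz5_9802_8266 _ _ _ _ _ _ _ _ _ h2

theorem bzA0_1608_8 : ∀ b0 b1 b2 b4 b5 b7 b8 b11 b12 b13 b14 : Bool,
    okA0 b0 b1 b2 true b4 b5 false b7 b8 false false b11 b12 b13 b14 = true → False := by
  decide +kernel

theorem zA0_1608_8 {p0 p1 p2 p3 p4 : V} (h : T.OkA0 p0 p1 p2 p3 p4)
    (n3 : T.X p0 p1 p2 p4 = true) (n6 : T.X p0 p1 p3 p4 = false) (n9 : T.X p0 p2 p3 p4 = false) (n10 : T.X p0 p3 p2 p4 = false) : False := by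
  have h2 := h
  unfold Table.OkA0 at h2
  rw [n3, n6, n9, n10] at h2
  exact bzA0_1608_8 _ _ _ _ _ _ _ _ _ _ _ h2

theorem bzA0_16529_16 : ∀ b1 b2 b3 b5 b6 b8 b9 b10 b11 b12 b13 : Bool,
    okA0 false b1 b2 b3 true b5 b6 false b8 b9 b10 b11 b12 b13 false = true → False := by
  decide +kernel

theorem zA0_16529_16 {p0 p1 p2 p3 p4 : V} (h : T.OkA0 p0 p1 p2 p3 p4)
    (n0 : T.X p0 p1 p2 p3 = false) (n4 : T.X p0 p2 p1 p4 = true) (n7 : T.X p0 p3 p1 p4 = false) (n14 : T.X p1 p4 p2 p3 = false) : False := by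
  have h2 := h
  unfold Table.OkA0 at h2
  rw [n0, n4, n7, n14] at h2
  exact bzA0_16529_16 _ _ _ _ _ _ _ _ _ _ _ h2

theorem bzA0_18561_2048 : ∀ b1 b2 b3 b4 b5 b6 b8 b9 b10 b12 b13 : Bool,
    okA0 false b1 b2 b3 b4 b5 b6 false b8 b9 b10 true b12 b13 false = true → False := by
  decide +kernel

theorem zA0_18561_2048 {p0 p1 p2 p3 p4 : V} (h : T.OkA0 p0 p1 p2 p3 p4)
    (n0 : T.X p0 p1 p2 p3 = false) (n7 : T.X p0 p3 p1 p4 = false) (n11 : T.X p0 p4 p2 p3 = true) (n14 : T.X p1 p4 p2 p3 = false) : False := by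
  have h2 := h
  unfold Table.OkA0 at h2
  rw [n0, n7, n11, n14] at h2
  exact bzA0_18561_2048 _ _ _ _ _ _ _ _ _ _ _ h2

theorem bzA0_18577_16528 : ∀ b1 b2 b3 b5 b6 b8 b9 b10 b12 b13 : Bool,
    okA0 false b1 b2 b3 true b5 b6 true b8 b9 b10 false b12 b13 true = true → False := by
  decide +kernel

theorem zA0_18577_16528 {p0 p1 p2 p3 p4 : V} (h : T.OkA0 p0 p1 p2 p3 p4)
    (n0 : T.X p0 p1 p2 p3 = false) (n4 : T.X p0 p2 p1 p4 = true) (n7 : T.X p0 p3 p1 p4 = true) (n11 : T.X p0 p4 p2 p3 = false) (n14 : T.X p1 p4 p2 p3 = true) : False := by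
  have h2 := h
  unfold Table.OkA0 at h2
  rw [n0, n4, n7, n11, n14] at h2
  exact bzA0_18577_16528 _ _ _ _ _ _ _ _ _ _ h2

theorem bzA0_192_192 : ∀ b0 b1 b2 b3 b4 b5 b8 b9 b10 b11 b12 b13 b14 : Bool,
    okA0 b0 b1 b2 b3 b4 b5 true true b8 b9 b10 b11 b12 b13 b14 = true → False := by
  decide +kernel

theorem zA0_192_192 {p0 p1 p2 p3 p4 : V} (h : T.OkA0 p0 p1 p2 p3 p4)
    (n6 : T.X p0 p1 p3 p4 = true) (n7 : T.X p0 p3 p1 p4 = true) : False := by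
  have h2 := h
  unfold Table.OkA0 at h2
  rw [n6, n7] at h2
  exact bzA0_192_192 _ _ _ _ _ _ _ _ _ _ _ _ _ h2

theorem bzA0_4164_68 : ∀ b0 b1 b3 b4 b5 b7 b8 b9 b10 b11 b13 b14 : Bool,
    okA0 b0 b1 true b3 b4 b5 true b7 b8 b9 b10 b11 false b13 b14 = true → False := by
  decide +kernel

theorem zA0_4164_68 {p0 p1 p2 p3 p4 : V} (h : T.OkA0 p0 p1 p2 p3 p4)
    (n2 : T.X p0 p3 p1 p2 = true) (n6 : T.X p0 p1 p3 p4 = true) (n12 : T.X p1 p2 p3 p4 = false) : False := by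
  have h2 := h
  unfold Table.OkA0 at h2
  rw [n2, n6, n12] at h2
  exact bzA0_4164_68 _ _ _ _ _ _ _ _ _ _ _ _ h2

theorem bzA0_4672_576 : ∀ b0 b1 b2 b3 b4 b5 b7 b8 b10 b11 b13 b14 : Bool,
    okA0 b0 b1 b2 b3 b4 b5 true b7 b8 true b10 b11 false b13 b14 = true → False := by
  decide +kernel

theorem zA0_4672_576 {p0 p1 p2 p3 p4 : V} (h : T.OkA0 p0 p1 p2 p3 p4)
    (n6 : T.X p0 p1 p3 p4 = true) (n9 : T.X p0 p2 p3 p4 = true) (n12 : T.X p1 p2 p3 p4 = false) : False := by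
  have h2 := h
  unfold Table.OkA0 at h2
  rw [n6, n9, n12] at h2
  exact bzA0_4672_576 _ _ _ _ _ _ _ _ _ _ _ _ h2

theorem bzA0_4708_4160 : ∀ b0 b1 b3 b4 b7 b8 b10 b11 b13 b14 : Bool,
    okA0 b0 b1 false b3 b4 false true b7 b8 false b10 b11 true b13 b14 = true → False := by
  decide +kernel

theorem zA0_4708_4160 {p0 p1 p2 p3 p4 : V} (h : T.OkA0 p0 p1 p2 p3 p4)
    (n2 : T.X p0 p3 p1 p2 = false) (n5 : T.X p0 p4 p1 p2 = false) (n6 : T.X p0 p1 p3 p4 = true) (n9 : T.X p0 p2 p3 p4 = false) (n12 : T.X p1 p2 p3 p4 = true) : False := by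
  have h2 := h
  unfold Table.OkA0 at h2
  rw [n2, n5, n6, n9, n12] at h2
  exact bzA0_4708_4160 _ _ _ _ _ _ _ _ _ _ h2

theorem bzA0_579_576 : ∀ b2 b3 b4 b5 b7 b8 b10 b11 b12 b13 b14 : Bool,
    okA0 false false b2 b3 b4 b5 true b7 b8 true b10 b11 b12 b13 b14 = true → False := by
  decide +kernel

theorem zA0_579_576 {p0 p1 p2 p3 p4 : V} (h : T.OkA0 p0 p1 p2 p3 p4)
    (n0 : T.X p0 p1 p2 p3 = false) (n1 : T.X p0 p2 p1 p3 = false) (n6 : T.X p0 p1 p3 p4 = true) (n9 : T.X p0 p2 p3 p4 = true) : False := by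
  have h2 := h
  unfold Table.OkA0 at h2
  rw [n0, n1, n6, n9] at h2
  exact bzA0_579_576 _ _ _ _ _ _ _ _ _ _ _ h2

theorem bzA0_9218_1026 : ∀ b0 b2 b3 b4 b5 b6 b7 b8 b9 b11 b12 b14 : Bool,
    okA0 b0 true b2 b3 b4 b5 b6 b7 b8 b9 true b11 b12 false b14 = true → False := by
  decide +kernel

theorem zA0_9218_1026 {p0 p1 p2 p3 p4 : V} (h : T.OkA0 p0 p1 p2 p3 p4)
    (n1 : T.X p0 p2 p1 p3 = true) (n10 : T.X p0 p3 p2 p4 = true) (n13 : T.X p1 p3 p2 p4 = false) : False := by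
  have h2 := h
  unfold Table.OkA0 at h2
  rw [n1, n10, n13] at h2
  exact bzA0_9218_1026 _ _ _ _ _ _ _ _ _ _ _ _ h2

theorem bzA0_9482_8192 : ∀ b0 b2 b4 b5 b6 b7 b9 b11 b12 b14 : Bool,
    okA0 b0 false b2 false b4 b5 b6 b7 false b9 false b11 b12 true b14 = true → False := by
  decide +kernel

theorem zA0_9482_8192 {p0 p1 p2 p3 p4 : V} (h : T.OkA0 p0 p1 p2 p3 p4)
    (n1 : T.X p0 p2 p1 p3 = false) (n3 : T.X p0 p1 p2 p4 = false) (n8 : T.X p0 p4 p1 p3 = false) (n10 : T.X p0 p3 p2 p4 = false) (n13 : T.X p1 p3 p2 p4 = true) : False := by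
  have h2 := h
  unfold Table.OkA0 at h2
  rw [n1, n3, n8, n10, n13] at h2
  exact bzA0_9482_8192 _ _ _ _ _ _ _ _ _ _ h2

theorem bzA1_1176_128 : ∀ b0 b1 b2 b5 b6 b8 b9 b11 b12 b13 b14 : Bool,
    ok5a b0 b1 b2 false false b5 b6 true b8 b9 false b11 b12 b13 b14 = true → False := by
  decide +kernel

theorem zA1_1176_128 {p0 p1 p2 p3 p4 : V} (h : T.Ok5a p0 p1 p2 p3 p4)
    (n3 : T.X p0 p1 p2 p4 = false) (n4 : T.X p0 p2 p1 p4 = false) (n7 : T.X p0 p3 p1 p4 = true) (n10 : T.X p0 p3 p2 p4 = false) : False := by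
  have h2 := h
  unfold Table.Ok5a at h2
  rw [n3, n4, n7, n10] at h2
  exact bzA1_1176_128 _ _ _ _ _ _ _ _ _ _ _ h2

theorem bzA1_16529_128 : ∀ b1 b2 b3 b5 b6 b8 b9 b10 b11 b12 b13 : Bool,
    ok5a false b1 b2 b3 false b5 b6 true b8 b9 b10 b11 b12 b13 false = true → False := by
  decide +kernel

theorem zA1_16529_128 {p0 p1 p2 p3 p4 : V} (h : T.Ok5a p0 p1 p2 p3 p4)
    (n0 : T.X p0 p1 p2 p3 = false) (n4 : T.X p0 p2 p1 p4 = false) (n7 : T.X p0 p3 p1 p4 = true) (n14 : T.X p1 p4 p2 p3 = false) : False := by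
  have h2 := h
  unfold Table.Ok5a at h2
  rw [n0, n4, n7, n14] at h2
  exact bzA1_16529_128 _ _ _ _ _ _ _ _ _ _ _ h2

theorem bzA1_18576_16 : ∀ b0 b1 b2 b3 b5 b6 b8 b9 b10 b12 b13 : Bool,
    ok5a b0 b1 b2 b3 true b5 b6 false b8 b9 b10 false b12 b13 false = true → False := by
  decide +kernel

theorem zA1_18576_16 {p0 p1 p2 p3 p4 : V} (h : T.Ok5a p0 p1 p2 p3 p4)
    (n4 : T.X p0 p2 p1 p4 = true) (n7 : T.X p0 p3 p1 p4 = false) (n11 : T.X p0 p4 p2 p3 = false) (n14 : T.X p1 p4 p2 p3 = false) : False := by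
  have h2 := h
  unfold Table.Ok5a at h2
  rw [n4, n7, n11, n14] at h2
  exact bzA1_18576_16 _ _ _ _ _ _ _ _ _ _ _ h2

theorem bzA1_306_258 : ∀ b0 b2 b3 b6 b7 b9 b10 b11 b12 b13 b14 : Bool,
    ok5a b0 true b2 b3 false false b6 b7 true b9 b10 b11 b12 b13 b14 = true → False := by
  decide +kernel

theorem zA1_306_258 {p0 p1 p2 p3 p4 : V} (h : T.Ok5a p0 p1 p2 p3 p4)
    (n1 : T.X p0 p2 p1 p3 = true) (n4 : T.X p0 p2 p1 p4 = false) (n5 : T.X p0 p4 p1 p2 = false) (n8 : T.X p0 p4 p1 p3 = true) : False := by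
  have h2 := h
  unfold Table.Ok5a at h2
  rw [n1, n4, n5, n8] at h2
  exact bzA1_306_258 _ _ _ _ _ _ _ _ _ _ _ h2

theorem bzA1_4192_96 : ∀ b0 b1 b2 b3 b4 b7 b8 b9 b10 b11 b13 b14 : Bool,
    ok5a b0 b1 b2 b3 b4 true true b7 b8 b9 b10 b11 false b13 b14 = true → False := by
  decide +kernel

theorem zA1_4192_96 {p0 p1 p2 p3 p4 : V} (h : T.Ok5a p0 p1 p2 p3 p4)
    (n5 : T.X p0 p4 p1 p2 = true) (n6 : T.X p0 p1 p3 p4 = true) (n12 : T.X p1 p2 p3 p4 = false) : False := by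
  have h2 := h
  unfold Table.Ok5a at h2
  rw [n5, n6, n12] at h2
  exact bzA1_4192_96 _ _ _ _ _ _ _ _ _ _ _ _ h2

theorem bzA1_4676_64 : ∀ b0 b1 b3 b4 b5 b7 b8 b10 b11 b13 b14 : Bool,
    ok5a b0 b1 false b3 b4 b5 true b7 b8 false b10 b11 false b13 b14 = true → False := by
  decide +kernel

theorem zA1_4676_64 {p0 p1 p2 p3 p4 : V} (h : T.Ok5a p0 p1 p2 p3 p4)
    (n2 : T.X p0 p3 p1 p2 = false) (n6 : T.X p0 p1 p3 p4 = true) (n9 : T.X p0 p2 p3 p4 = false) (n12 : T.X p1 p2 p3 p4 = false) : False := by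
  have h2 := h
  unfold Table.Ok5a at h2
  rw [n2, n6, n9, n12] at h2
  exact bzA1_4676_64 _ _ _ _ _ _ _ _ _ _ _ h2

theorem bzA1_4708_4164 : ∀ b0 b1 b3 b4 b7 b8 b10 b11 b13 b14 : Bool,
    ok5a b0 b1 true b3 b4 false true b7 b8 false b10 b11 true b13 b14 = true → False := by
  decide +kernel

theorem zA1_4708_4164 {p0 p1 p2 p3 p4 : V} (h : T.Ok5a p0 p1 p2 p3 p4)
    (n2 : T.X p0 p3 p1 p2 = true) (n5 : T.X p0 p4 p1 p2 = false) (n6 : T.X p0 p1 p3 p4 = true) (n9 : T.X p0 p2 p3 p4 = false) (n12 : T.X p1 p2 p3 p4 = true) : False := by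
  have h2 := h
  unfold Table.Ok5a at h2
  rw [n2, n5, n6, n9, n12] at h2
  exact bzA1_4708_4164 _ _ _ _ _ _ _ _ _ _ h2

theorem bzA1_48_48 : ∀ b0 b1 b2 b3 b6 b7 b8 b9 b10 b11 b12 b13 b14 : Bool,
    ok5a b0 b1 b2 b3 true true b6 b7 b8 b9 b10 b11 b12 b13 b14 = true → False := by
  decide +kernel

theorem zA1_48_48 {p0 p1 p2 p3 p4 : V} (h : T.Ok5a p0 p1 p2 p3 p4)
    (n4 : T.X p0 p2 p1 p4 = true) (n5 : T.X p0 p4 p1 p2 = true) : False := by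
  have h2 := h
  unfold Table.Ok5a at h2
  rw [n4, n5] at h2
  exact bzA1_48_48 _ _ _ _ _ _ _ _ _ _ _ _ _ h2

theorem bzA1_8450_258 : ∀ b0 b2 b3 b4 b5 b6 b7 b9 b10 b11 b12 b14 : Bool,
    ok5a b0 true b2 b3 b4 b5 b6 b7 true b9 b10 b11 b12 false b14 = true → False := by
  decide +kernel

theorem zA1_8450_258 {p0 p1 p2 p3 p4 : V} (h : T.Ok5a p0 p1 p2 p3 p4)
    (n1 : T.X p0 p2 p1 p3 = true) (n8 : T.X p0 p4 p1 p3 = true) (n13 : T.X p1 p3 p2 p4 = false) : False := by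
  have h2 := h
  unfold Table.Ok5a at h2
  rw [n1, n8, n13] at h2
  exact bzA1_8450_258 _ _ _ _ _ _ _ _ _ _ _ _ h2

theorem bzA1_9472_1280 : ∀ b0 b1 b2 b3 b4 b5 b6 b7 b9 b11 b12 b14 : Bool,
    ok5a b0 b1 b2 b3 b4 b5 b6 b7 true b9 true b11 b12 false b14 = true → False := by
  decide +kernel

theorem zA1_9472_1280 {p0 p1 p2 p3 p4 : V} (h : T.Ok5a p0 p1 p2 p3 p4)
    (n8 : T.X p0 p4 p1 p3 = true) (n10 : T.X p0 p3 p2 p4 = true) (n13 : T.X p1 p3 p2 p4 = false) : False := by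
  have h2 := h
  unfold Table.Ok5a at h2
  rw [n8, n10, n13] at h2
  exact bzA1_9472_1280 _ _ _ _ _ _ _ _ _ _ _ _ h2

theorem bzA1_9482_8448 : ∀ b0 b2 b4 b5 b6 b7 b9 b11 b12 b14 : Bool,
    ok5a b0 false b2 false b4 b5 b6 b7 true b9 false b11 b12 true b14 = true → False := by
  decide +kernel

theorem zA1_9482_8448 {p0 p1 p2 p3 p4 : V} (h : T.Ok5a p0 p1 p2 p3 p4)
    (n1 : T.X p0 p2 p1 p3 = false) (n3 : T.X p0 p1 p2 p4 = false) (n8 : T.X p0 p4 p1 p3 = true) (n10 : T.X p0 p3 p2 p4 = false) (n13 : T.X p1 p3 p2 p4 = true) : False := by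
  have h2 := h
  unfold Table.Ok5a at h2
  rw [n1, n3, n8, n10, n13] at h2
  exact bzA1_9482_8448 _ _ _ _ _ _ _ _ _ _ h2

theorem bzA2_1160_136 : ∀ b0 b1 b2 b4 b5 b6 b8 b9 b11 b12 b13 b14 : Bool,
    okA2 b0 b1 b2 true b4 b5 b6 true b8 b9 false b11 b12 b13 b14 = true → False := by
  decide +kernel

theorem zA2_1160_136 {p0 p1 p2 p3 p4 : V} (h : T.OkA2 p0 p1 p2 p3 p4)
    (n3 : T.X p0 p1 p2 p4 = true) (n7 : T.X p0 p3 p1 p4 = true) (n10 : T.X p0 p3 p2 p4 = false) : False := by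
  have h2 := h
  unfold Table.OkA2 at h2
  rw [n3, n7, n10] at h2
  exact bzA2_1160_136 _ _ _ _ _ _ _ _ _ _ _ _ h2

theorem bzA2_164_160 : ∀ b0 b1 b3 b4 b6 b8 b9 b10 b11 b12 b13 b14 : Bool,
    okA2 b0 b1 false b3 b4 true b6 true b8 b9 b10 b11 b12 b13 b14 = true → False := by
  decide +kernel

theorem zA2_164_160 {p0 p1 p2 p3 p4 : V} (h : T.OkA2 p0 p1 p2 p3 p4)
    (n2 : T.X p0 p3 p1 p2 = false) (n5 : T.X p0 p4 p1 p2 = true) (n7 : T.X p0 p3 p1 p4 = true) : False := by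
  have h2 := h
  unfold Table.OkA2 at h2
  rw [n2, n5, n7] at h2
  exact bzA2_164_160 _ _ _ _ _ _ _ _ _ _ _ _ h2

theorem bzA2_18433_2049 : ∀ b1 b2 b3 b4 b5 b6 b7 b8 b9 b10 b12 b13 : Bool,
    okA2 true b1 b2 b3 b4 b5 b6 b7 b8 b9 b10 true b12 b13 false = true → False := by
  decide +kernel

theorem zA2_18433_2049 {p0 p1 p2 p3 p4 : V} (h : T.OkA2 p0 p1 p2 p3 p4)
    (n0 : T.X p0 p1 p2 p3 = true) (n11 : T.X p0 p4 p2 p3 = true) (n14 : T.X p1 p4 p2 p3 = false) : False := by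
  have h2 := h
  unfold Table.OkA2 at h2
  rw [n0, n11, n14] at h2
  exact bzA2_18433_2049 _ _ _ _ _ _ _ _ _ _ _ _ h2

theorem bzA2_18577_16385 : ∀ b1 b2 b3 b5 b6 b8 b9 b10 b12 b13 : Bool,
    okA2 true b1 b2 b3 false b5 b6 false b8 b9 b10 false b12 b13 true = true → False := by
  decide +kernel

theorem zA2_18577_16385 {p0 p1 p2 p3 p4 : V} (h : T.OkA2 p0 p1 p2 p3 p4)
    (n0 : T.X p0 p1 p2 p3 = true) (n4 : T.X p0 p2 p1 p4 = false) (n7 : T.X p0 p3 p1 p4 = false) (n11 : T.X p0 p4 p2 p3 = false) (n14 : T.X p1 p4 p2 p3 = true) : False := by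
  have h2 := h
  unfold Table.OkA2 at h2
  rw [n0, n4, n7, n11, n14] at h2
  exact bzA2_18577_16385 _ _ _ _ _ _ _ _ _ _ h2

theorem bzA2_2306_2050 : ∀ b0 b2 b3 b4 b5 b6 b7 b9 b10 b12 b13 b14 : Bool,
    okA2 b0 true b2 b3 b4 b5 b6 b7 false b9 b10 true b12 b13 b14 = true → False := by
  decide +kernel

theorem zA2_2306_2050 {p0 p1 p2 p3 p4 : V} (h : T.OkA2 p0 p1 p2 p3 p4)
    (n1 : T.X p0 p2 p1 p3 = true) (n8 : T.X p0 p4 p1 p3 = false) (n11 : T.X p0 p4 p2 p3 = true) : False := by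
  have h2 := h
  unfold Table.OkA2 at h2
  rw [n1, n8, n11] at h2
  exact bzA2_2306_2050 _ _ _ _ _ _ _ _ _ _ _ _ h2

theorem bzA2_4196_32 : ∀ b0 b1 b3 b4 b7 b8 b9 b10 b11 b13 b14 : Bool,
    okA2 b0 b1 false b3 b4 true false b7 b8 b9 b10 b11 false b13 b14 = true → False := by
  decide +kernel

theorem zA2_4196_32 {p0 p1 p2 p3 p4 : V} (h : T.OkA2 p0 p1 p2 p3 p4)
    (n2 : T.X p0 p3 p1 p2 = false) (n5 : T.X p0 p4 p1 p2 = true) (n6 : T.X p0 p1 p3 p4 = false) (n12 : T.X p1 p2 p3 p4 = false) : False := by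
  have h2 := h
  unfold Table.OkA2 at h2
  rw [n2, n5, n6, n12] at h2
  exact bzA2_4196_32 _ _ _ _ _ _ _ _ _ _ _ h2

theorem bzA2_4704_64 : ∀ b0 b1 b2 b3 b4 b7 b8 b10 b11 b13 b14 : Bool,
    okA2 b0 b1 b2 b3 b4 false true b7 b8 false b10 b11 false b13 b14 = true → False := by
  decide +kernel

theorem zA2_4704_64 {p0 p1 p2 p3 p4 : V} (h : T.OkA2 p0 p1 p2 p3 p4)
    (n5 : T.X p0 p4 p1 p2 = false) (n6 : T.X p0 p1 p3 p4 = true) (n9 : T.X p0 p2 p3 p4 = false) (n12 : T.X p1 p2 p3 p4 = false) : False := by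
  have h2 := h
  unfold Table.OkA2 at h2
  rw [n5, n6, n9, n12] at h2
  exact bzA2_4704_64 _ _ _ _ _ _ _ _ _ _ _ h2

theorem bzA2_4708_4612 : ∀ b0 b1 b3 b4 b7 b8 b10 b11 b13 b14 : Bool,
    okA2 b0 b1 true b3 b4 false false b7 b8 true b10 b11 true b13 b14 = true → False := by
  decide +kernel

theorem zA2_4708_4612 {p0 p1 p2 p3 p4 : V} (h : T.OkA2 p0 p1 p2 p3 p4)
    (n2 : T.X p0 p3 p1 p2 = true) (n5 : T.X p0 p4 p1 p2 = false) (n6 : T.X p0 p1 p3 p4 = false) (n9 : T.X p0 p2 p3 p4 = true) (n12 : T.X p1 p2 p3 p4 = true) : False := by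
  have h2 := h
  unfold Table.OkA2 at h2
  rw [n2, n5, n6, n9, n12] at h2
  exact bzA2_4708_4612 _ _ _ _ _ _ _ _ _ _ h2

theorem bzA2_6_6 : ∀ b0 b3 b4 b5 b6 b7 b8 b9 b10 b11 b12 b13 b14 : Bool,
    okA2 b0 true true b3 b4 b5 b6 b7 b8 b9 b10 b11 b12 b13 b14 = true → False := by
  decide +kernel

theorem zA2_6_6 {p0 p1 p2 p3 p4 : V} (h : T.OkA2 p0 p1 p2 p3 p4)
    (n1 : T.X p0 p2 p1 p3 = true) (n2 : T.X p0 p3 p1 p2 = true) : False := by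
  have h2 := h
  unfold Table.OkA2 at h2
  rw [n1, n2] at h2
  exact bzA2_6_6 _ _ _ _ _ _ _ _ _ _ _ _ _ h2

theorem bzA2_8458_256 : ∀ b0 b2 b4 b5 b6 b7 b9 b10 b11 b12 b14 : Bool,
    okA2 b0 false b2 false b4 b5 b6 b7 true b9 b10 b11 b12 false b14 = true → False := by
  decide +kernel

theorem zA2_8458_256 {p0 p1 p2 p3 p4 : V} (h : T.OkA2 p0 p1 p2 p3 p4)
    (n1 : T.X p0 p2 p1 p3 = false) (n3 : T.X p0 p1 p2 p4 = false) (n8 : T.X p0 p4 p1 p3 = true) (n13 : T.X p1 p3 p2 p4 = false) : False := by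
  have h2 := h
  unfold Table.OkA2 at h2
  rw [n1, n3, n8, n13] at h2
  exact bzA2_8458_256 _ _ _ _ _ _ _ _ _ _ _ h2

theorem bzA2_9480_8 : ∀ b0 b1 b2 b4 b5 b6 b7 b9 b11 b12 b14 : Bool,
    okA2 b0 b1 b2 true b4 b5 b6 b7 false b9 false b11 b12 false b14 = true → False := by
  decide +kernel

theorem zA2_9480_8 {p0 p1 p2 p3 p4 : V} (h : T.OkA2 p0 p1 p2 p3 p4)
    (n3 : T.X p0 p1 p2 p4 = true) (n8 : T.X p0 p4 p1 p3 = false) (n10 : T.X p0 p3 p2 p4 = false) (n13 : T.X p1 p3 p2 p4 = false) : False := by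
  have h2 := h
  unfold Table.OkA2 at h2
  rw [n3, n8, n10, n13] at h2
  exact bzA2_9480_8 _ _ _ _ _ _ _ _ _ _ _ h2

theorem bzA2_9482_9224 : ∀ b0 b2 b4 b5 b6 b7 b9 b11 b12 b14 : Bool,
    okA2 b0 false b2 true b4 b5 b6 b7 false b9 true b11 b12 true b14 = true → False := by
  decide +kernel

theorem zA2_9482_9224 {p0 p1 p2 p3 p4 : V} (h : T.OkA2 p0 p1 p2 p3 p4)
    (n1 : T.X p0 p2 p1 p3 = false) (n3 : T.X p0 p1 p2 p4 = true) (n8 : T.X p0 p4 p1 p3 = false) (n10 : T.X p0 p3 p2 p4 = true) (n13 : T.X p1 p3 p2 p4 = true) : False := by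
  have h2 := h
  unfold Table.OkA2 at h2
  rw [n1, n3, n8, n10, n13] at h2
  exact bzA2_9482_9224 _ _ _ _ _ _ _ _ _ _ h2

theorem bzsp_1156_4 : ∀ b0 b1 b3 b4 b5 b6 b8 b9 b11 b12 b13 b14 : Bool,
    sp5 b0 b1 true b3 b4 b5 b6 false b8 b9 false b11 b12 b13 b14 = true → False := by
  decide +kernel

theorem zsp_1156_4 {a p0 p1 p2 p3 p4 : V} (h : T.Sp5 a p0 p1 p2 p3 p4)
    (n2 : T.alt a p0 p3 p1 p2 = true) (n7 : T.alt a p0 p3 p1 p4 = false) (n10 : T.alt a p0 p3 p2 p4 = false) : False := by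
  have h2 := h
  unfold Table.Sp5 at h2
  rw [n2, n7, n10] at h2
  exact bzsp_1156_4 _ _ _ _ _ _ _ _ _ _ _ _ h2

theorem bzsp_16528_16 : ∀ b0 b1 b2 b3 b5 b6 b8 b9 b10 b11 b12 b13 : Bool,
    sp5 b0 b1 b2 b3 true b5 b6 false b8 b9 b10 b11 b12 b13 false = true → False := by
  decide +kernel

theorem zsp_16528_16 {a p0 p1 p2 p3 p4 : V} (h : T.Sp5 a p0 p1 p2 p3 p4)
    (n4 : T.alt a p0 p2 p1 p4 = true) (n7 : T.alt a p0 p3 p1 p4 = false) (n14 : T.alt a p1 p4 p2 p3 = false) : False := by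
  have h2 := h
  unfold Table.Sp5 at h2
  rw [n4, n7, n14] at h2
  exact bzsp_16528_16 _ _ _ _ _ _ _ _ _ _ _ _ h2

theorem bzsp_18433_1 : ∀ b1 b2 b3 b4 b5 b6 b7 b8 b9 b10 b12 b13 : Bool,
    sp5 true b1 b2 b3 b4 b5 b6 b7 b8 b9 b10 false b12 b13 false = true → False := by
  decide +kernel

theorem zsp_18433_1 {a p0 p1 p2 p3 p4 : V} (h : T.Sp5 a p0 p1 p2 p3 p4)
    (n0 : T.alt a p0 p1 p2 p3 = true) (n11 : T.alt a p0 p4 p2 p3 = false) (n14 : T.alt a p1 p4 p2 p3 = false) : False := by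
  have h2 := h
  unfold Table.Sp5 at h2
  rw [n0, n11, n14] at h2
  exact bzsp_18433_1 _ _ _ _ _ _ _ _ _ _ _ _ h2

theorem bzsp_2336_32 : ∀ b0 b1 b2 b3 b4 b6 b7 b9 b10 b12 b13 b14 : Bool,
    sp5 b0 b1 b2 b3 b4 true b6 b7 false b9 b10 false b12 b13 b14 = true → False := by
  decide +kernel

theorem zsp_2336_32 {a p0 p1 p2 p3 p4 : V} (h : T.Sp5 a p0 p1 p2 p3 p4)
    (n5 : T.alt a p0 p4 p1 p2 = true) (n8 : T.alt a p0 p4 p1 p3 = false) (n11 : T.alt a p0 p4 p2 p3 = false) : False := by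
  have h2 := h
  unfold Table.Sp5 at h2
  rw [n5, n8, n11] at h2
  exact bzsp_2336_32 _ _ _ _ _ _ _ _ _ _ _ _ h2

theorem bzsp_4132_4 : ∀ b0 b1 b3 b4 b6 b7 b8 b9 b10 b11 b13 b14 : Bool,
    sp5 b0 b1 true b3 b4 false b6 b7 b8 b9 b10 b11 false b13 b14 = true → False := by
  decide +kernel

theorem zsp_4132_4 {a p0 p1 p2 p3 p4 : V} (h : T.Sp5 a p0 p1 p2 p3 p4)
    (n2 : T.alt a p0 p3 p1 p2 = true) (n5 : T.alt a p0 p4 p1 p2 = false) (n12 : T.alt a p1 p2 p3 p4 = false) : False := by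
  have h2 := h
  unfold Table.Sp5 at h2
  rw [n2, n5, n12] at h2
  exact bzsp_4132_4 _ _ _ _ _ _ _ _ _ _ _ _ h2

theorem bzsp_4672_64 : ∀ b0 b1 b2 b3 b4 b5 b7 b8 b10 b11 b13 b14 : Bool,
    sp5 b0 b1 b2 b3 b4 b5 true b7 b8 false b10 b11 false b13 b14 = true → False := by
  decide +kernel

theorem zsp_4672_64 {a p0 p1 p2 p3 p4 : V} (h : T.Sp5 a p0 p1 p2 p3 p4)
    (n6 : T.alt a p0 p1 p3 p4 = true) (n9 : T.alt a p0 p2 p3 p4 = false) (n12 : T.alt a p1 p2 p3 p4 = false) : False := by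
  have h2 := h
  unfold Table.Sp5 at h2
  rw [n6, n9, n12] at h2
  exact bzsp_4672_64 _ _ _ _ _ _ _ _ _ _ _ _ h2

theorem bzsp_530_2 : ∀ b0 b2 b3 b5 b6 b7 b8 b10 b11 b12 b13 b14 : Bool,
    sp5 b0 true b2 b3 false b5 b6 b7 b8 false b10 b11 b12 b13 b14 = true → False := by
  decide +kernel

theorem zsp_530_2 {a p0 p1 p2 p3 p4 : V} (h : T.Sp5 a p0 p1 p2 p3 p4)
    (n1 : T.alt a p0 p2 p1 p3 = true) (n4 : T.alt a p0 p2 p1 p4 = false) (n9 : T.alt a p0 p2 p3 p4 = false) : False := by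
  have h2 := h
  unfold Table.Sp5 at h2
  rw [n1, n4, n9] at h2
  exact bzsp_530_2 _ _ _ _ _ _ _ _ _ _ _ _ h2

theorem bzsp_73_1 : ∀ b1 b2 b4 b5 b7 b8 b9 b10 b11 b12 b13 b14 : Bool,
    sp5 true b1 b2 false b4 b5 false b7 b8 b9 b10 b11 b12 b13 b14 = true → False := by
  decide +kernel

theorem zsp_73_1 {a p0 p1 p2 p3 p4 : V} (h : T.Sp5 a p0 p1 p2 p3 p4)
    (n0 : T.alt a p0 p1 p2 p3 = true) (n3 : T.alt a p0 p1 p2 p4 = false) (n6 : T.alt a p0 p1 p3 p4 = false) : False := by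
  have h2 := h
  unfold Table.Sp5 at h2
  rw [n0, n3, n6] at h2
  exact bzsp_73_1 _ _ _ _ _ _ _ _ _ _ _ _ h2

theorem bzsp_8450_2 : ∀ b0 b2 b3 b4 b5 b6 b7 b9 b10 b11 b12 b14 : Bool,
    sp5 b0 true b2 b3 b4 b5 b6 b7 false b9 b10 b11 b12 false b14 = true → False := by
  decide +kernel

theorem zsp_8450_2 {a p0 p1 p2 p3 p4 : V} (h : T.Sp5 a p0 p1 p2 p3 p4)
    (n1 : T.alt a p0 p2 p1 p3 = true) (n8 : T.alt a p0 p4 p1 p3 = false) (n13 : T.alt a p1 p3 p2 p4 = false) : False := by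
  have h2 := h
  unfold Table.Sp5 at h2
  rw [n1, n8, n13] at h2
  exact bzsp_8450_2 _ _ _ _ _ _ _ _ _ _ _ _ h2

theorem bzsp_9224_8 : ∀ b0 b1 b2 b4 b5 b6 b7 b8 b9 b11 b12 b14 : Bool,
    sp5 b0 b1 b2 true b4 b5 b6 b7 b8 b9 false b11 b12 false b14 = true → False := by
  decide +kernel

theorem zsp_9224_8 {a p0 p1 p2 p3 p4 : V} (h : T.Sp5 a p0 p1 p2 p3 p4)
    (n3 : T.alt a p0 p1 p2 p4 = true) (n10 : T.alt a p0 p3 p2 p4 = false) (n13 : T.alt a p1 p3 p2 p4 = false) : False := by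
  have h2 := h
  unfold Table.Sp5 at h2
  rw [n3, n10, n13] at h2
  exact bzsp_9224_8 _ _ _ _ _ _ _ _ _ _ _ _ h2

end H53P
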