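import Pool.Agent.Lib.H63L.GS

/-!
# H63L, file GC3: clauses for five points (generated)
-/

set_option linter.unusedVariables false
set_option autoImplicit false

namespace H53P

variable {V : Type} {T : Table V}


theorem bz5_10505_2056 : ∀ b1 b2 b4 b5 b6 b7 b9 b10 b12 b14 : Bool,
    ok5 false b1 b2 true b4 b5 b6 b7 false b9 b10 true b12 false b14 = true → False := by
  decide +kernel

theorem z5_10505_2056 {p0 p1 p2 p3 p4 : V} (h : T.Ok5 p0 p1 p2 p3 p4)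
    (n0 : T.X p0 p1 p2 p3 = false) (n3 : T.X p0 p1 p2 p4 = true) (n8 : T.X p0 p4 p1 p3 = false) (n11 : T.X p0 p4 p2 p3 = true) (n13 : T.X p1 p3 p2 p4 = false) : False := by
  have h2 := h
  unfold Table.Ok5 at h2
  rw [n0, n3, n8, n11, n13] at h2
  exact bz5_10505_2056 _ _ _ _ _ _ _ _ _ _ h2

theorem bz5_11556_8484 : ∀ b0 b1 b3 b4 b6 b7 b9 b12 b14 : Bool,
    ok5 b0 b1 true b3 b4 true b6 b7 true b9 false false b12 true b14 = true → False := by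
  decide +kernel

theorem z5_11556_8484 {p0 p1 p2 p3 p4 : V} (h : T.Ok5 p0 p1 p2 p3 p4)
    (n2 : T.X p0 p3 p1 p2 = true) (n5 : T.X p0 p4 p1 p2 = true) (n8 : T.X p0 p4 p1 p3 = true) (n10 : T.X p0 p3 p2 p4 = false) (n11 : T.X p0 p4 p2 p3 = false) (n13 : T.X p1 p3 p2 p4 = true) : False := by
  have h2 := h
  unfold Table.Ok5 at h2
  rw [n2, n5, n8, n10, n11, n13] at h2
  exact bz5_11556_8484 _ _ _ _ _ _ _ _ _ h2

theorem bz5_1212_1156 : ∀ b0 b1 b6 b8 b9 b11 b12 b13 b14 : Bool,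
    ok5 b0 b1 true false false false b6 true b8 b9 true b11 b12 b13 b14 = true → False := by
  decide +kernel

theorem z5_1212_1156 {p0 p1 p2 p3 p4 : V} (h : T.Ok5 p0 p1 p2 p3 p4)
    (n2 : T.X p0 p3 p1 p2 = true) (n3 : T.X p0 p1 p2 p4 = false) (n4 : T.X p0 p2 p1 p4 = false) (n5 : T.X p0 p4 p1 p2 = false) (n7 : T.X p0 p3 p1 p4 = true) (n10 : T.X p0 p3 p2 p4 = true) : False := by
  have h2 := h
  unfold Table.Ok5 at h2
  rw [n2, n3, n4, n5, n7, n10] at h2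
  exact bz5_1212_1156 _ _ _ _ _ _ _ _ _ h2

theorem bz5_16673_16673 : ∀ b1 b2 b3 b4 b6 b7 b9 b10 b11 b12 b13 : Bool,
    ok5 true b1 b2 b3 b4 true b6 b7 true b9 b10 b11 b12 b13 true = true → False := by
  decide +kernel

theorem z5_16673_16673 {p0 p1 p2 p3 p4 : V} (h : T.Ok5 p0 p1 p2 p3 p4)
    (n0 : T.X p0 p1 p2 p3 = true) (n5 : T.X p0 p4 p1 p2 = true) (n8 : T.X p0 p4 p1 p3 = true) (n14 : T.X p1 p4 p2 p3 = true) : False := by
  have h2 := h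
  unfold Table.Ok5 at h2
  rw [n0, n5, n8, n14] at h2
  exact bz5_16673_16673 _ _ _ _ _ _ _ _ _ _ _ h2

theorem bz5_16977_16448 : ∀ b1 b2 b3 b5 b7 b8 b10 b11 b12 b13 : Bool,
    ok5 false b1 b2 b3 false b5 true b7 b8 false b10 b11 b12 b13 true = true → False := by
  decide +kernel

theorem z5_16977_16448 {p0 p1 p2 p3 p4 : V} (h : T.Ok5 p0 p1 p2 p3 p4)
    (n0 : T.X p0 p1 p2 p3 = false) (n4 : T.X p0 p2 p1 p4 = false) (n6 : T.X p0 p1 p3 p4 = true) (n9 : T.X p0 p2 p3 p4 = false) (n14 : T.X p1 p4 p2 p3 = true) : False := by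
  have h2 := h
  unfold Table.Ok5 at h2
  rw [n0, n4, n6, n9, n14] at h2
  exact bz5_16977_16448 _ _ _ _ _ _ _ _ _ _ h2

theorem bz5_17105_16913 : ∀ b1 b2 b3 b5 b8 b10 b11 b12 b13 : Bool,
    ok5 true b1 b2 b3 true b5 false false b8 true b10 b11 b12 b13 true = true → False := by
  decide +kernel

theorem z5_17105_16913 {p0 p1 p2 p3 p4 : V} (h : T.Ok5 p0 p1 p2 p3 p4)
    (n0 : T.X p0 p1 p2 p3 = true) (n4 : T.X p0 p2 p1 p4 = true) (n6 : T.X p0 p1 p3 p4 = false) (n7 : T.X p0 p3 p1 p4 = false) (n9 : T.X p0 p2 p3 p4 = true) (n14 : T.X p1 p4 p2 p3 = true) : False := by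
  have h2 := h
  unfold Table.Ok5 at h2
  rw [n0, n4, n6, n7, n9, n14] at h2
  exact bz5_17105_16913 _ _ _ _ _ _ _ _ _ h2

theorem bz5_17545_1025 : ∀ b1 b2 b4 b5 b6 b8 b9 b11 b12 b13 : Bool,
    ok5 true b1 b2 false b4 b5 b6 false b8 b9 true b11 b12 b13 false = true → False := by
  decide +kernel

theorem z5_17545_1025 {p0 p1 p2 p3 p4 : V} (h : T.Ok5 p0 p1 p2 p3 p4)
    (n0 : T.X p0 p1 p2 p3 = true) (n3 : T.X p0 p1 p2 p4 = false) (n7 : T.X p0 p3 p1 p4 = false) (n10 : T.X p0 p3 p2 p4 = true) (n14 : T.X p1 p4 p2 p3 = false) : False := by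
  have h2 := h
  unfold Table.Ok5 at h2
  rw [n0, n3, n7, n10, n14] at h2
  exact bz5_17545_1025 _ _ _ _ _ _ _ _ _ _ h2

theorem bz5_18504_18504 : ∀ b0 b1 b2 b4 b5 b7 b8 b9 b10 b12 b13 : Bool,
    ok5 b0 b1 b2 true b4 b5 true b7 b8 b9 b10 true b12 b13 true = true → False := by
  decide +kernel

theorem z5_18504_18504 {p0 p1 p2 p3 p4 : V} (h : T.Ok5 p0 p1 p2 p3 p4)
    (n3 : T.X p0 p1 p2 p4 = true) (n6 : T.X p0 p1 p3 p4 = true) (n11 : T.X p0 p4 p2 p3 = true) (n14 : T.X p1 p4 p2 p3 = true) : False := by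
  have h2 := h
  unfold Table.Ok5 at h2
  rw [n3, n6, n11, n14] at h2
  exact bz5_18504_18504 _ _ _ _ _ _ _ _ _ _ _ h2

theorem bz5_18596_16388 : ∀ b0 b1 b3 b4 b6 b8 b9 b10 b12 b13 : Bool,
    ok5 b0 b1 true b3 b4 false b6 false b8 b9 b10 false b12 b13 true = true → False := by
  decide +kernel

theorem z5_18596_16388 {p0 p1 p2 p3 p4 : V} (h : T.Ok5 p0 p1 p2 p3 p4)
    (n2 : T.X p0 p3 p1 p2 = true) (n5 : T.X p0 p4 p1 p2 = false) (n7 : T.X p0 p3 p1 p4 = false) (n11 : T.X p0 p4 p2 p3 = false) (n14 : T.X p1 p4 p2 p3 = true) : False := by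
  have h2 := h
  unfold Table.Ok5 at h2
  rw [n2, n5, n7, n11, n14] at h2
  exact bz5_18596_16388 _ _ _ _ _ _ _ _ _ _ h2

theorem bz5_18706_16640 : ∀ b0 b2 b3 b5 b6 b7 b9 b10 b12 b13 : Bool,
    ok5 b0 false b2 b3 false b5 b6 b7 true b9 b10 false b12 b13 true = true → False := by
  decide +kernel

theorem z5_18706_16640 {p0 p1 p2 p3 p4 : V} (h : T.Ok5 p0 p1 p2 p3 p4)
    (n1 : T.X p0 p2 p1 p3 = false) (n4 : T.X p0 p2 p1 p4 = false) (n8 : T.X p0 p4 p1 p3 = true) (n11 : T.X p0 p4 p2 p3 = false) (n14 : T.X p1 p4 p2 p3 = true) : False := by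
  have h2 := h
  unfold Table.Ok5 at h2
  rw [n1, n4, n8, n11, n14] at h2
  exact bz5_18706_16640 _ _ _ _ _ _ _ _ _ _ h2

theorem bz5_18706_272 : ∀ b0 b2 b3 b5 b6 b7 b9 b10 b12 b13 : Bool,
    ok5 b0 false b2 b3 true b5 b6 b7 true b9 b10 false b12 b13 false = true → False := by
  decide +kernel

theorem z5_18706_272 {p0 p1 p2 p3 p4 : V} (h : T.Ok5 p0 p1 p2 p3 p4)
    (n1 : T.X p0 p2 p1 p3 = false) (n4 : T.X p0 p2 p1 p4 = true) (n8 : T.X p0 p4 p1 p3 = true) (n11 : T.X p0 p4 p2 p3 = false) (n14 : T.X p1 p4 p2 p3 = false) : False := by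
  have h2 := h
  unfold Table.Ok5 at h2
  rw [n1, n4, n8, n11, n14] at h2
  exact bz5_18706_272 _ _ _ _ _ _ _ _ _ _ h2

theorem bz5_24_24 : ∀ b0 b1 b2 b5 b6 b7 b8 b9 b10 b11 b12 b13 b14 : Bool,
    ok5 b0 b1 b2 true true b5 b6 b7 b8 b9 b10 b11 b12 b13 b14 = true → False := by
  decide +kernel

theorem z5_24_24 {p0 p1 p2 p3 p4 : V} (h : T.Ok5 p0 p1 p2 p3 p4)
    (n3 : T.X p0 p1 p2 p4 = true) (n4 : T.X p0 p2 p1 p4 = true) : False := by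
  have h2 := h
  unfold Table.Ok5 at h2
  rw [n3, n4] at h2
  exact bz5_24_24 _ _ _ _ _ _ _ _ _ _ _ _ _ h2

theorem bz5_2560_2560 : ∀ b0 b1 b2 b3 b4 b5 b6 b7 b8 b10 b12 b13 b14 : Bool,
    ok5 b0 b1 b2 b3 b4 b5 b6 b7 b8 true b10 true b12 b13 b14 = true → False := by
  decide +kernel

theorem z5_2560_2560 {p0 p1 p2 p3 p4 : V} (h : T.Ok5 p0 p1 p2 p3 p4)
    (n9 : T.X p0 p2 p3 p4 = true) (n11 : T.X p0 p4 p2 p3 = true) : False := by
  have h2 := h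
  unfold Table.Ok5 at h2
  rw [n9, n11] at h2
  exact bz5_2560_2560 _ _ _ _ _ _ _ _ _ _ _ _ _ h2

theorem bz5_26889_2313 : ∀ b1 b2 b4 b5 b6 b7 b9 b10 b12 : Bool,
    ok5 true b1 b2 true b4 b5 b6 b7 true b9 b10 true b12 false false = true → False := by
  decide +kernel

theorem z5_26889_2313 {p0 p1 p2 p3 p4 : V} (h : T.Ok5 p0 p1 p2 p3 p4)
    (n0 : T.X p0 p1 p2 p3 = true) (n3 : T.X p0 p1 p2 p4 = true) (n8 : T.X p0 p4 p1 p3 = true) (n11 : T.X p0 p4 p2 p3 = true) (n13 : T.X p1 p3 p2 p4 = false) (n14 : T.X p1 p4 p2 p3 = false) : False := by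
  have h2 := h
  unfold Table.Ok5 at h2
  rw [n0, n3, n8, n11, n13, n14] at h2
  exact bz5_26889_2313 _ _ _ _ _ _ _ _ _ h2

theorem bz5_320_320 : ∀ b0 b1 b2 b3 b4 b5 b7 b9 b10 b11 b12 b13 b14 : Bool,
    ok5 b0 b1 b2 b3 b4 b5 true b7 true b9 b10 b11 b12 b13 b14 = true → False := by
  decide +kernel

theorem z5_320_320 {p0 p1 p2 p3 p4 : V} (h : T.Ok5 p0 p1 p2 p3 p4)
    (n6 : T.X p0 p1 p3 p4 = true) (n8 : T.X p0 p4 p1 p3 = true) : False := by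
  have h2 := h
  unfold Table.Ok5 at h2
  rw [n6, n8] at h2
  exact bz5_320_320 _ _ _ _ _ _ _ _ _ _ _ _ _ h2

theorem bz5_4580_4132 : ∀ b0 b1 b3 b4 b9 b10 b11 b13 b14 : Bool,
    ok5 b0 b1 true b3 b4 true false false false b9 b10 b11 true b13 b14 = true → False := by
  decide +kernel

theorem z5_4580_4132 {p0 p1 p2 p3 p4 : V} (h : T.Ok5 p0 p1 p2 p3 p4)
    (n2 : T.X p0 p3 p1 p2 = true) (n5 : T.X p0 p4 p1 p2 = true) (n6 : T.X p0 p1 p3 p4 = false) (n7 : T.X p0 p3 p1 p4 = false) (n8 : T.X p0 p4 p1 p3 = false) (n12 : T.X p1 p2 p3 p4 = true) : False := by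
  have h2 := h
  unfold Table.Ok5 at h2
  rw [n2, n5, n6, n7, n8, n12] at h2
  exact bz5_4580_4132 _ _ _ _ _ _ _ _ _ h2

theorem bz5_4756_20 : ∀ b0 b1 b3 b5 b6 b8 b10 b11 b13 b14 : Bool,
    ok5 b0 b1 true b3 true b5 b6 false b8 false b10 b11 false b13 b14 = true → False := by
  decide +kernel

theorem z5_4756_20 {p0 p1 p2 p3 p4 : V} (h : T.Ok5 p0 p1 p2 p3 p4)
    (n2 : T.X p0 p3 p1 p2 = true) (n4 : T.X p0 p2 p1 p4 = true) (n7 : T.X p0 p3 p1 p4 = false) (n9 : T.X p0 p2 p3 p4 = false) (n12 : T.X p1 p2 p3 p4 = false) : False := by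
  have h2 := h
  unfold Table.Ok5 at h2
  rw [n2, n4, n7, n9, n12] at h2
  exact bz5_4756_20 _ _ _ _ _ _ _ _ _ _ h2

theorem bz5_4756_4224 : ∀ b0 b1 b3 b5 b6 b8 b10 b11 b13 b14 : Bool,
    ok5 b0 b1 false b3 false b5 b6 true b8 false b10 b11 true b13 b14 = true → False := by
  decide +kernel

theorem z5_4756_4224 {p0 p1 p2 p3 p4 : V} (h : T.Ok5 p0 p1 p2 p3 p4)
    (n2 : T.X p0 p3 p1 p2 = false) (n4 : T.X p0 p2 p1 p4 = false) (n7 : T.X p0 p3 p1 p4 = true) (n9 : T.X p0 p2 p3 p4 = false) (n12 : T.X p1 p2 p3 p4 = true) : False := by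
  have h2 := h
  unfold Table.Ok5 at h2
  rw [n2, n4, n7, n9, n12] at h2
  exact bz5_4756_4224 _ _ _ _ _ _ _ _ _ _ h2

theorem bz5_4898_544 : ∀ b0 b2 b3 b4 b6 b7 b10 b11 b13 b14 : Bool,
    ok5 b0 false b2 b3 b4 true b6 b7 false true b10 b11 false b13 b14 = true → False := by
  decide +kernel

theorem z5_4898_544 {p0 p1 p2 p3 p4 : V} (h : T.Ok5 p0 p1 p2 p3 p4)
    (n1 : T.X p0 p2 p1 p3 = false) (n5 : T.X p0 p4 p1 p2 = true) (n8 : T.X p0 p4 p1 p3 = false) (n9 : T.X p0 p2 p3 p4 = true) (n12 : T.X p1 p2 p3 p4 = false) : False := by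
  have h2 := h
  unfold Table.Ok5 at h2
  rw [n1, n5, n8, n9, n12] at h2
  exact bz5_4898_544 _ _ _ _ _ _ _ _ _ _ h2

theorem bz5_4902_4896 : ∀ b0 b3 b4 b6 b7 b10 b11 b13 b14 : Bool,
    ok5 b0 false false b3 b4 true b6 b7 true true b10 b11 true b13 b14 = true → False := by
  decide +kernel

theorem z5_4902_4896 {p0 p1 p2 p3 p4 : V} (h : T.Ok5 p0 p1 p2 p3 p4)
    (n1 : T.X p0 p2 p1 p3 = false) (n2 : T.X p0 p3 p1 p2 = false) (n5 : T.X p0 p4 p1 p2 = true) (n8 : T.X p0 p4 p1 p3 = true) (n9 : T.X p0 p2 p3 p4 = true) (n12 : T.X p1 p2 p3 p4 = true) : False := by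
  have h2 := h
  unfold Table.Ok5 at h2
  rw [n1, n2, n5, n8, n9, n12] at h2
  exact bz5_4902_4896 _ _ _ _ _ _ _ _ _ h2

theorem bz5_5196_4104 : ∀ b0 b1 b4 b5 b7 b8 b9 b11 b13 b14 : Bool,
    ok5 b0 b1 false true b4 b5 false b7 b8 b9 false b11 true b13 b14 = true → False := by
  decide +kernel

theorem z5_5196_4104 {p0 p1 p2 p3 p4 : V} (h : T.Ok5 p0 p1 p2 p3 p4)
    (n2 : T.X p0 p3 p1 p2 = false) (n3 : T.X p0 p1 p2 p4 = true) (n6 : T.X p0 p1 p3 p4 = false) (n10 : T.X p0 p3 p2 p4 = false) (n12 : T.X p1 p2 p3 p4 = true) : False := by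
  have h2 := h
  unfold Table.Ok5 at h2
  rw [n2, n3, n6, n10, n12] at h2
  exact bz5_5196_4104 _ _ _ _ _ _ _ _ _ _ h2

theorem bz5_5280_5280 : ∀ b0 b1 b2 b3 b4 b6 b8 b9 b11 b13 b14 : Bool,
    ok5 b0 b1 b2 b3 b4 true b6 true b8 b9 true b11 true b13 b14 = true → False := by
  decide +kernel

theorem z5_5280_5280 {p0 p1 p2 p3 p4 : V} (h : T.Ok5 p0 p1 p2 p3 p4)
    (n5 : T.X p0 p4 p1 p2 = true) (n7 : T.X p0 p3 p1 p4 = true) (n10 : T.X p0 p3 p2 p4 = true) (n12 : T.X p1 p2 p3 p4 = true) : False := by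
  have h2 := h
  unfold Table.Ok5 at h2
  rw [n5, n7, n10, n12] at h2
  exact bz5_5280_5280 _ _ _ _ _ _ _ _ _ _ _ h2

theorem bz5_6241_33 : ∀ b1 b2 b3 b4 b7 b8 b9 b10 b13 b14 : Bool,
    ok5 true b1 b2 b3 b4 true false b7 b8 b9 b10 false false b13 b14 = true → False := by
  decide +kernel

theorem z5_6241_33 {p0 p1 p2 p3 p4 : V} (h : T.Ok5 p0 p1 p2 p3 p4)
    (n0 : T.X p0 p1 p2 p3 = true) (n5 : T.X p0 p4 p1 p2 = true) (n6 : T.X p0 p1 p3 p4 = false) (n11 : T.X p0 p4 p2 p3 = false) (n12 : T.X p1 p2 p3 p4 = false) : False := by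
  have h2 := h
  unfold Table.Ok5 at h2
  rw [n0, n5, n6, n11, n12] at h2
  exact bz5_6241_33 _ _ _ _ _ _ _ _ _ _ h2

theorem bz5_6241_6144 : ∀ b1 b2 b3 b4 b7 b8 b9 b10 b13 b14 : Bool,
    ok5 false b1 b2 b3 b4 false false b7 b8 b9 b10 true true b13 b14 = true → False := by
  decide +kernel

theorem z5_6241_6144 {p0 p1 p2 p3 p4 : V} (h : T.Ok5 p0 p1 p2 p3 p4)
    (n0 : T.X p0 p1 p2 p3 = false) (n5 : T.X p0 p4 p1 p2 = false) (n6 : T.X p0 p1 p3 p4 = false) (n11 : T.X p0 p4 p2 p3 = true) (n12 : T.X p1 p2 p3 p4 = true) : False := by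
  have h2 := h
  unfold Table.Ok5 at h2
  rw [n0, n5, n6, n11, n12] at h2
  exact bz5_6241_6144 _ _ _ _ _ _ _ _ _ _ h2

theorem bz5_6497_6177 : ∀ b1 b2 b3 b4 b7 b9 b10 b13 b14 : Bool,
    ok5 true b1 b2 b3 b4 true false b7 false b9 b10 true true b13 b14 = true → False := by
  decide +kernel

theorem z5_6497_6177 {p0 p1 p2 p3 p4 : V} (h : T.Ok5 p0 p1 p2 p3 p4)
    (n0 : T.X p0 p1 p2 p3 = true) (n5 : T.X p0 p4 p1 p2 = true) (n6 : T.X p0 p1 p3 p4 = false) (n8 : T.X p0 p4 p1 p3 = false) (n11 : T.X p0 p4 p2 p3 = true) (n12 : T.X p1 p2 p3 p4 = true) : False := by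
  have h2 := h
  unfold Table.Ok5 at h2
  rw [n0, n5, n6, n8, n11, n12] at h2
  exact bz5_6497_6177 _ _ _ _ _ _ _ _ _ h2

theorem bz5_8506_8450 : ∀ b0 b2 b6 b7 b9 b10 b11 b12 b14 : Bool,
    ok5 b0 true b2 false false false b6 b7 true b9 b10 b11 b12 true b14 = true → False := by
  decide +kernel

theorem z5_8506_8450 {p0 p1 p2 p3 p4 : V} (h : T.Ok5 p0 p1 p2 p3 p4)
    (n1 : T.X p0 p2 p1 p3 = true) (n3 : T.X p0 p1 p2 p4 = false) (n4 : T.X p0 p2 p1 p4 = false) (n5 : T.X p0 p4 p1 p2 = false) (n8 : T.X p0 p4 p1 p3 = true) (n13 : T.X p1 p3 p2 p4 = true) : False := by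
  have h2 := h
  unfold Table.Ok5 at h2
  rw [n1, n3, n4, n5, n8, n13] at h2
  exact bz5_8506_8450 _ _ _ _ _ _ _ _ _ h2

theorem bz5_8778_8256 : ∀ b0 b2 b4 b5 b7 b8 b10 b11 b12 b14 : Bool,
    ok5 b0 false b2 false b4 b5 true b7 b8 false b10 b11 b12 true b14 = true → False := by
  decide +kernel

theorem z5_8778_8256 {p0 p1 p2 p3 p4 : V} (h : T.Ok5 p0 p1 p2 p3 p4)
    (n1 : T.X p0 p2 p1 p3 = false) (n3 : T.X p0 p1 p2 p4 = false) (n6 : T.X p0 p1 p3 p4 = true) (n9 : T.X p0 p2 p3 p4 = false) (n13 : T.X p1 p3 p2 p4 = true) : False := by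
  have h2 := h
  unfold Table.Ok5 at h2
  rw [n1, n3, n6, n9, n13] at h2
  exact bz5_8778_8256 _ _ _ _ _ _ _ _ _ _ h2

theorem bz5_8976_8976 : ∀ b0 b1 b2 b3 b5 b6 b7 b10 b11 b12 b14 : Bool,
    ok5 b0 b1 b2 b3 true b5 b6 b7 true true b10 b11 b12 true b14 = true → False := by
  decide +kernel

theorem z5_8976_8976 {p0 p1 p2 p3 p4 : V} (h : T.Ok5 p0 p1 p2 p3 p4)
    (n4 : T.X p0 p2 p1 p4 = true) (n8 : T.X p0 p4 p1 p3 = true) (n9 : T.X p0 p2 p3 p4 = true) (n13 : T.X p1 p3 p2 p4 = true) : False := by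
  have h2 := h
  unfold Table.Ok5 at h2
  rw [n4, n8, n9, n13] at h2
  exact bz5_8976_8976 _ _ _ _ _ _ _ _ _ _ _ h2

theorem bz5_9362_8208 : ∀ b0 b2 b3 b5 b6 b8 b9 b11 b12 b14 : Bool,
    ok5 b0 false b2 b3 true b5 b6 false b8 b9 false b11 b12 true b14 = true → False := by
  decide +kernel

theorem z5_9362_8208 {p0 p1 p2 p3 p4 : V} (h : T.Ok5 p0 p1 p2 p3 p4)
    (n1 : T.X p0 p2 p1 p3 = false) (n4 : T.X p0 p2 p1 p4 = true) (n7 : T.X p0 p3 p1 p4 = false) (n10 : T.X p0 p3 p2 p4 = false) (n13 : T.X p1 p3 p2 p4 = true) : False := by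
  have h2 := h
  unfold Table.Ok5 at h2
  rw [n1, n4, n7, n10, n13] at h2
  exact bz5_9362_8208 _ _ _ _ _ _ _ _ _ _ h2

theorem bz5_9508_1056 : ∀ b0 b1 b3 b4 b6 b7 b9 b11 b12 b14 : Bool,
    ok5 b0 b1 false b3 b4 true b6 b7 false b9 true b11 b12 false b14 = true → False := by
  decide +kernel

theorem z5_9508_1056 {p0 p1 p2 p3 p4 : V} (h : T.Ok5 p0 p1 p2 p3 p4)
    (n2 : T.X p0 p3 p1 p2 = false) (n5 : T.X p0 p4 p1 p2 = true) (n8 : T.X p0 p4 p1 p3 = false) (n10 : T.X p0 p3 p2 p4 = true) (n13 : T.X p1 p3 p2 p4 = false) : False := by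
  have h2 := h
  unfold Table.Ok5 at h2
  rw [n2, n5, n8, n10, n13] at h2
  exact bz5_9508_1056 _ _ _ _ _ _ _ _ _ _ h2

theorem bz5_9516_9476 : ∀ b0 b1 b4 b6 b7 b9 b11 b12 b14 : Bool,
    ok5 b0 b1 true false b4 false b6 b7 true b9 true b11 b12 true b14 = true → False := by
  decide +kernel

theorem z5_9516_9476 {p0 p1 p2 p3 p4 : V} (h : T.Ok5 p0 p1 p2 p3 p4)
    (n2 : T.X p0 p3 p1 p2 = true) (n3 : T.X p0 p1 p2 p4 = false) (n5 : T.X p0 p4 p1 p2 = false) (n8 : T.X p0 p4 p1 p3 = true) (n10 : T.X p0 p3 p2 p4 = true) (n13 : T.X p1 p3 p2 p4 = true) : False := by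
  have h2 := h
  unfold Table.Ok5 at h2
  rw [n2, n3, n5, n8, n10, n13] at h2
  exact bz5_9516_9476 _ _ _ _ _ _ _ _ _ h2

theorem bz5_9874_8338 : ∀ b0 b2 b3 b5 b6 b8 b11 b12 b14 : Bool,
    ok5 b0 true b2 b3 true b5 b6 true b8 false false b11 b12 true b14 = true → False := by
  decide +kernel

theorem z5_9874_8338 {p0 p1 p2 p3 p4 : V} (h : T.Ok5 p0 p1 p2 p3 p4)
    (n1 : T.X p0 p2 p1 p3 = true) (n4 : T.X p0 p2 p1 p4 = true) (n7 : T.X p0 p3 p1 p4 = true) (n9 : T.X p0 p2 p3 p4 = false) (n10 : T.X p0 p3 p2 p4 = false) (n13 : T.X p1 p3 p2 p4 = true) : False := by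
  have h2 := h
  unfold Table.Ok5 at h2
  rw [n1, n4, n7, n9, n10, n13] at h2
  exact bz5_9874_8338 _ _ _ _ _ _ _ _ _ h2

theorem bzA0_16642_16640 : ∀ b0 b2 b3 b4 b5 b6 b7 b9 b10 b11 b12 b13 : Bool,
    okA0 b0 false b2 b3 b4 b5 b6 b7 true b9 b10 b11 b12 b13 true = true → False := by
  decide +kernel

theorem zA0_16642_16640 {p0 p1 p2 p3 p4 : V} (h : T.OkA0 p0 p1 p2 p3 p4)
    (n1 : T.X p0 p2 p1 p3 = false) (n8 : T.X p0 p4 p1 p3 = true) (n14 : T.X p1 p4 p2 p3 = true) : False := by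
  have h2 := h
  unfold Table.OkA0 at h2
  rw [n1, n8, n14] at h2
  exact bzA0_16642_16640 _ _ _ _ _ _ _ _ _ _ _ _ h2

theorem bzA0_18576_128 : ∀ b0 b1 b2 b3 b5 b6 b8 b9 b10 b12 b13 : Bool,
    okA0 b0 b1 b2 b3 false b5 b6 true b8 b9 b10 false b12 b13 false = true → False := by
  decide +kernel

theorem zA0_18576_128 {p0 p1 p2 p3 p4 : V} (h : T.OkA0 p0 p1 p2 p3 p4)
    (n4 : T.X p0 p2 p1 p4 = false) (n7 : T.X p0 p3 p1 p4 = true) (n11 : T.X p0 p4 p2 p3 = false) (n14 : T.X p1 p4 p2 p3 = false) : False := by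
  have h2 := h
  unfold Table.OkA0 at h2
  rw [n4, n7, n11, n14] at h2
  exact bzA0_18576_128 _ _ _ _ _ _ _ _ _ _ _ h2

theorem bzA0_18577_18433 : ∀ b1 b2 b3 b5 b6 b8 b9 b10 b12 b13 : Bool,
    okA0 true b1 b2 b3 false b5 b6 false b8 b9 b10 true b12 b13 true = true → False := by
  decide +kernel

theorem zA0_18577_18433 {p0 p1 p2 p3 p4 : V} (h : T.OkA0 p0 p1 p2 p3 p4)
    (n0 : T.X p0 p1 p2 p3 = true) (n4 : T.X p0 p2 p1 p4 = false) (n7 : T.X p0 p3 p1 p4 = false) (n11 : T.X p0 p4 p2 p3 = true) (n14 : T.X p1 p4 p2 p3 = true) : False := by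
  have h2 := h
  unfold Table.OkA0 at h2
  rw [n0, n4, n7, n11, n14] at h2
  exact bzA0_18577_18433 _ _ _ _ _ _ _ _ _ _ h2

theorem bzA0_2081_33 : ∀ b1 b2 b3 b4 b6 b7 b8 b9 b10 b12 b13 b14 : Bool,
    okA0 true b1 b2 b3 b4 true b6 b7 b8 b9 b10 false b12 b13 b14 = true → False := by
  decide +kernel

theorem zA0_2081_33 {p0 p1 p2 p3 p4 : V} (h : T.OkA0 p0 p1 p2 p3 p4)
    (n0 : T.X p0 p1 p2 p3 = true) (n5 : T.X p0 p4 p1 p2 = true) (n11 : T.X p0 p4 p2 p3 = false) : False := by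
  have h2 := h
  unfold Table.OkA0 at h2
  rw [n0, n5, n11] at h2
  exact bzA0_2081_33 _ _ _ _ _ _ _ _ _ _ _ _ h2

theorem bzA0_290_34 : ∀ b0 b2 b3 b4 b6 b7 b9 b10 b11 b12 b13 b14 : Bool,
    okA0 b0 true b2 b3 b4 true b6 b7 false b9 b10 b11 b12 b13 b14 = true → False := by
  decide +kernel

theorem zA0_290_34 {p0 p1 p2 p3 p4 : V} (h : T.OkA0 p0 p1 p2 p3 p4)
    (n1 : T.X p0 p2 p1 p3 = true) (n5 : T.X p0 p4 p1 p2 = true) (n8 : T.X p0 p4 p1 p3 = false) : False := by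
  have h2 := h
  unfold Table.OkA0 at h2
  rw [n1, n5, n8] at h2
  exact bzA0_290_34 _ _ _ _ _ _ _ _ _ _ _ _ h2

theorem bzA0_3_3 : ∀ b2 b3 b4 b5 b6 b7 b8 b9 b10 b11 b12 b13 b14 : Bool,
    okA0 true true b2 b3 b4 b5 b6 b7 b8 b9 b10 b11 b12 b13 b14 = true → False := by
  decide +kernel

theorem zA0_3_3 {p0 p1 p2 p3 p4 : V} (h : T.OkA0 p0 p1 p2 p3 p4)
    (n0 : T.X p0 p1 p2 p3 = true) (n1 : T.X p0 p2 p1 p3 = true) : False := by
  have h2 := h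
  unfold Table.OkA0 at h2
  rw [n0, n1] at h2
  exact bzA0_3_3 _ _ _ _ _ _ _ _ _ _ _ _ _ h2

theorem bzA0_4192_96 : ∀ b0 b1 b2 b3 b4 b7 b8 b9 b10 b11 b13 b14 : Bool,
    okA0 b0 b1 b2 b3 b4 true true b7 b8 b9 b10 b11 false b13 b14 = true → False := by
  decide +kernel

theorem zA0_4192_96 {p0 p1 p2 p3 p4 : V} (h : T.OkA0 p0 p1 p2 p3 p4)
    (n5 : T.X p0 p4 p1 p2 = true) (n6 : T.X p0 p1 p3 p4 = true) (n12 : T.X p1 p2 p3 p4 = false) : False := by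
  have h2 := h
  unfold Table.OkA0 at h2
  rw [n5, n6, n12] at h2
  exact bzA0_4192_96 _ _ _ _ _ _ _ _ _ _ _ _ h2

theorem bzA0_4708_0 : ∀ b0 b1 b3 b4 b7 b8 b10 b11 b13 b14 : Bool,
    okA0 b0 b1 false b3 b4 false false b7 b8 false b10 b11 false b13 b14 = true → False := by
  decide +kernel

theorem zA0_4708_0 {p0 p1 p2 p3 p4 : V} (h : T.OkA0 p0 p1 p2 p3 p4)
    (n2 : T.X p0 p3 p1 p2 = false) (n5 : T.X p0 p4 p1 p2 = false) (n6 : T.X p0 p1 p3 p4 = false) (n9 : T.X p0 p2 p3 p4 = false) (n12 : T.X p1 p2 p3 p4 = false) : False := by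
  have h2 := h
  unfold Table.OkA0 at h2
  rw [n2, n5, n6, n9, n12] at h2
  exact bzA0_4708_0 _ _ _ _ _ _ _ _ _ _ h2

theorem bzA0_4708_4608 : ∀ b0 b1 b3 b4 b7 b8 b10 b11 b13 b14 : Bool,
    okA0 b0 b1 false b3 b4 false false b7 b8 true b10 b11 true b13 b14 = true → False := by
  decide +kernel

theorem zA0_4708_4608 {p0 p1 p2 p3 p4 : V} (h : T.OkA0 p0 p1 p2 p3 p4)
    (n2 : T.X p0 p3 p1 p2 = false) (n5 : T.X p0 p4 p1 p2 = false) (n6 : T.X p0 p1 p3 p4 = false) (n9 : T.X p0 p2 p3 p4 = true) (n12 : T.X p1 p2 p3 p4 = true) : False := by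
  have h2 := h
  unfold Table.OkA0 at h2
  rw [n2, n5, n6, n9, n12] at h2
  exact bzA0_4708_4608 _ _ _ _ _ _ _ _ _ _ h2

theorem bzA0_656_640 : ∀ b0 b1 b2 b3 b5 b6 b8 b10 b11 b12 b13 b14 : Bool,
    okA0 b0 b1 b2 b3 false b5 b6 true b8 true b10 b11 b12 b13 b14 = true → False := by
  decide +kernel

theorem zA0_656_640 {p0 p1 p2 p3 p4 : V} (h : T.OkA0 p0 p1 p2 p3 p4)
    (n4 : T.X p0 p2 p1 p4 = false) (n7 : T.X p0 p3 p1 p4 = true) (n9 : T.X p0 p2 p3 p4 = true) : False := by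
  have h2 := h
  unfold Table.OkA0 at h2
  rw [n4, n7, n9] at h2
  exact bzA0_656_640 _ _ _ _ _ _ _ _ _ _ _ _ h2

theorem bzA0_9226_8 : ∀ b0 b2 b4 b5 b6 b7 b8 b9 b11 b12 b14 : Bool,
    okA0 b0 false b2 true b4 b5 b6 b7 b8 b9 false b11 b12 false b14 = true → False := by
  decide +kernel

theorem zA0_9226_8 {p0 p1 p2 p3 p4 : V} (h : T.OkA0 p0 p1 p2 p3 p4)
    (n1 : T.X p0 p2 p1 p3 = false) (n3 : T.X p0 p1 p2 p4 = true) (n10 : T.X p0 p3 p2 p4 = false) (n13 : T.X p1 p3 p2 p4 = false) : False := by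
  have h2 := h
  unfold Table.OkA0 at h2
  rw [n1, n3, n10, n13] at h2
  exact bzA0_9226_8 _ _ _ _ _ _ _ _ _ _ _ h2

theorem bzA0_9482_8202 : ∀ b0 b2 b4 b5 b6 b7 b9 b11 b12 b14 : Bool,
    okA0 b0 true b2 true b4 b5 b6 b7 false b9 false b11 b12 true b14 = true → False := by
  decide +kernel

theorem zA0_9482_8202 {p0 p1 p2 p3 p4 : V} (h : T.OkA0 p0 p1 p2 p3 p4)
    (n1 : T.X p0 p2 p1 p3 = true) (n3 : T.X p0 p1 p2 p4 = true) (n8 : T.X p0 p4 p1 p3 = false) (n10 : T.X p0 p3 p2 p4 = false) (n13 : T.X p1 p3 p2 p4 = true) : False := by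
  have h2 := h
  unfold Table.OkA0 at h2
  rw [n1, n3, n8, n10, n13] at h2
  exact bzA0_9482_8202 _ _ _ _ _ _ _ _ _ _ h2

theorem bzA1_1608_64 : ∀ b0 b1 b2 b4 b5 b7 b8 b11 b12 b13 b14 : Bool,
    ok5a b0 b1 b2 false b4 b5 true b7 b8 false false b11 b12 b13 b14 = true → False := by
  decide +kernel

theorem zA1_1608_64 {p0 p1 p2 p3 p4 : V} (h : T.Ok5a p0 p1 p2 p3 p4)
    (n3 : T.X p0 p1 p2 p4 = false) (n6 : T.X p0 p1 p3 p4 = true) (n9 : T.X p0 p2 p3 p4 = false) (n10 : T.X p0 p3 p2 p4 = false) : False := by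
  have h2 := h
  unfold Table.Ok5a at h2
  rw [n3, n6, n9, n10] at h2
  exact bzA1_1608_64 _ _ _ _ _ _ _ _ _ _ _ h2

theorem bzA1_18449_2048 : ∀ b1 b2 b3 b5 b6 b7 b8 b9 b10 b12 b13 : Bool,
    ok5a false b1 b2 b3 false b5 b6 b7 b8 b9 b10 true b12 b13 false = true → False := by
  decide +kernel

theorem zA1_18449_2048 {p0 p1 p2 p3 p4 : V} (h : T.Ok5a p0 p1 p2 p3 p4)
    (n0 : T.X p0 p1 p2 p3 = false) (n4 : T.X p0 p2 p1 p4 = false) (n11 : T.X p0 p4 p2 p3 = true) (n14 : T.X p1 p4 p2 p3 = false) : False := by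
  have h2 := h
  unfold Table.Ok5a at h2
  rw [n0, n4, n11, n14] at h2
  exact bzA1_18449_2048 _ _ _ _ _ _ _ _ _ _ _ h2

theorem bzA1_18577_16384 : ∀ b1 b2 b3 b5 b6 b8 b9 b10 b12 b13 : Bool,
    ok5a false b1 b2 b3 false b5 b6 false b8 b9 b10 false b12 b13 true = true → False := by
  decide +kernel

theorem zA1_18577_16384 {p0 p1 p2 p3 p4 : V} (h : T.Ok5a p0 p1 p2 p3 p4)
    (n0 : T.X p0 p1 p2 p3 = false) (n4 : T.X p0 p2 p1 p4 = false) (n7 : T.X p0 p3 p1 p4 = false) (n11 : T.X p0 p4 p2 p3 = false) (n14 : T.X p1 p4 p2 p3 = true) : False := by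
  have h2 := h
  unfold Table.Ok5a at h2
  rw [n0, n4, n7, n11, n14] at h2
  exact bzA1_18577_16384 _ _ _ _ _ _ _ _ _ _ h2

theorem bzA1_192_192 : ∀ b0 b1 b2 b3 b4 b5 b8 b9 b10 b11 b12 b13 b14 : Bool,
    ok5a b0 b1 b2 b3 b4 b5 true true b8 b9 b10 b11 b12 b13 b14 = true → False := by
  decide +kernel

theorem zA1_192_192 {p0 p1 p2 p3 p4 : V} (h : T.Ok5a p0 p1 p2 p3 p4)
    (n6 : T.X p0 p1 p3 p4 = true) (n7 : T.X p0 p3 p1 p4 = true) : False := by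
  have h2 := h
  unfold Table.Ok5a at h2
  rw [n6, n7] at h2
  exact bzA1_192_192 _ _ _ _ _ _ _ _ _ _ _ _ _ h2

theorem bzA1_4196_4 : ∀ b0 b1 b3 b4 b7 b8 b9 b10 b11 b13 b14 : Bool,
    ok5a b0 b1 true b3 b4 false false b7 b8 b9 b10 b11 false b13 b14 = true → False := by
  decide +kernel

theorem zA1_4196_4 {p0 p1 p2 p3 p4 : V} (h : T.Ok5a p0 p1 p2 p3 p4)
    (n2 : T.X p0 p3 p1 p2 = true) (n5 : T.X p0 p4 p1 p2 = false) (n6 : T.X p0 p1 p3 p4 = false) (n12 : T.X p1 p2 p3 p4 = false) : False := by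
  have h2 := h
  unfold Table.Ok5a at h2
  rw [n2, n5, n6, n12] at h2
  exact bzA1_4196_4 _ _ _ _ _ _ _ _ _ _ _ h2

theorem bzA1_4704_512 : ∀ b0 b1 b2 b3 b4 b7 b8 b10 b11 b13 b14 : Bool,
    ok5a b0 b1 b2 b3 b4 false false b7 b8 true b10 b11 false b13 b14 = true → False := by
  decide +kernel

theorem zA1_4704_512 {p0 p1 p2 p3 p4 : V} (h : T.Ok5a p0 p1 p2 p3 p4)
    (n5 : T.X p0 p4 p1 p2 = false) (n6 : T.X p0 p1 p3 p4 = false) (n9 : T.X p0 p2 p3 p4 = true) (n12 : T.X p1 p2 p3 p4 = false) : False := by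
  have h2 := h
  unfold Table.Ok5a at h2
  rw [n5, n6, n9, n12] at h2
  exact bzA1_4704_512 _ _ _ _ _ _ _ _ _ _ _ h2

theorem bzA1_4708_4640 : ∀ b0 b1 b3 b4 b7 b8 b10 b11 b13 b14 : Bool,
    ok5a b0 b1 false b3 b4 true false b7 b8 true b10 b11 true b13 b14 = true → False := by
  decide +kernel

theorem zA1_4708_4640 {p0 p1 p2 p3 p4 : V} (h : T.Ok5a p0 p1 p2 p3 p4)
    (n2 : T.X p0 p3 p1 p2 = false) (n5 : T.X p0 p4 p1 p2 = true) (n6 : T.X p0 p1 p3 p4 = false) (n9 : T.X p0 p2 p3 p4 = true) (n12 : T.X p1 p2 p3 p4 = true) : False := by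
  have h2 := h
  unfold Table.Ok5a at h2
  rw [n2, n5, n6, n9, n12] at h2
  exact bzA1_4708_4640 _ _ _ _ _ _ _ _ _ _ h2

theorem bzA1_584_520 : ∀ b0 b1 b2 b4 b5 b7 b8 b10 b11 b12 b13 b14 : Bool,
    ok5a b0 b1 b2 true b4 b5 false b7 b8 true b10 b11 b12 b13 b14 = true → False := by
  decide +kernel

theorem zA1_584_520 {p0 p1 p2 p3 p4 : V} (h : T.Ok5a p0 p1 p2 p3 p4)
    (n3 : T.X p0 p1 p2 p4 = true) (n6 : T.X p0 p1 p3 p4 = false) (n9 : T.X p0 p2 p3 p4 = true) : False := by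
  have h2 := h
  unfold Table.Ok5a at h2
  rw [n3, n6, n9] at h2
  exact bzA1_584_520 _ _ _ _ _ _ _ _ _ _ _ _ h2

theorem bzA1_8456_264 : ∀ b0 b1 b2 b4 b5 b6 b7 b9 b10 b11 b12 b14 : Bool,
    ok5a b0 b1 b2 true b4 b5 b6 b7 true b9 b10 b11 b12 false b14 = true → False := by
  decide +kernel

theorem zA1_8456_264 {p0 p1 p2 p3 p4 : V} (h : T.Ok5a p0 p1 p2 p3 p4)
    (n3 : T.X p0 p1 p2 p4 = true) (n8 : T.X p0 p4 p1 p3 = true) (n13 : T.X p1 p3 p2 p4 = false) : False := by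
  have h2 := h
  unfold Table.Ok5a at h2
  rw [n3, n8, n13] at h2
  exact bzA1_8456_264 _ _ _ _ _ _ _ _ _ _ _ _ h2

theorem bzA1_9482_0 : ∀ b0 b2 b4 b5 b6 b7 b9 b11 b12 b14 : Bool,
    ok5a b0 false b2 false b4 b5 b6 b7 false b9 false b11 b12 false b14 = true → False := by
  decide +kernel

theorem zA1_9482_0 {p0 p1 p2 p3 p4 : V} (h : T.Ok5a p0 p1 p2 p3 p4)
    (n1 : T.X p0 p2 p1 p3 = false) (n3 : T.X p0 p1 p2 p4 = false) (n8 : T.X p0 p4 p1 p3 = false) (n10 : T.X p0 p3 p2 p4 = false) (n13 : T.X p1 p3 p2 p4 = false) : False := by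
  have h2 := h
  unfold Table.Ok5a at h2
  rw [n1, n3, n8, n10, n13] at h2
  exact bzA1_9482_0 _ _ _ _ _ _ _ _ _ _ h2

theorem bzA1_9482_9216 : ∀ b0 b2 b4 b5 b6 b7 b9 b11 b12 b14 : Bool,
    ok5a b0 false b2 false b4 b5 b6 b7 false b9 true b11 b12 true b14 = true → False := by
  decide +kernel

theorem zA1_9482_9216 {p0 p1 p2 p3 p4 : V} (h : T.Ok5a p0 p1 p2 p3 p4)
    (n1 : T.X p0 p2 p1 p3 = false) (n3 : T.X p0 p1 p2 p4 = false) (n8 : T.X p0 p4 p1 p3 = false) (n10 : T.X p0 p3 p2 p4 = true) (n13 : T.X p1 p3 p2 p4 = true) : False := by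
  have h2 := h
  unfold Table.Ok5a at h2
  rw [n1, n3, n8, n10, n13] at h2
  exact bzA1_9482_9216 _ _ _ _ _ _ _ _ _ _ h2

theorem bzA2_1176_1024 : ∀ b0 b1 b2 b5 b6 b8 b9 b11 b12 b13 b14 : Bool,
    okA2 b0 b1 b2 false false b5 b6 false b8 b9 true b11 b12 b13 b14 = true → False := by
  decide +kernel

theorem zA2_1176_1024 {p0 p1 p2 p3 p4 : V} (h : T.OkA2 p0 p1 p2 p3 p4)
    (n3 : T.X p0 p1 p2 p4 = false) (n4 : T.X p0 p2 p1 p4 = false) (n7 : T.X p0 p3 p1 p4 = false) (n10 : T.X p0 p3 p2 p4 = true) : False := by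
  have h2 := h
  unfold Table.OkA2 at h2
  rw [n3, n4, n7, n10] at h2
  exact bzA2_1176_1024 _ _ _ _ _ _ _ _ _ _ _ h2

theorem bzA2_16401_17 : ∀ b1 b2 b3 b5 b6 b7 b8 b9 b10 b11 b12 b13 : Bool,
    okA2 true b1 b2 b3 true b5 b6 b7 b8 b9 b10 b11 b12 b13 false = true → False := by
  decide +kernel

theorem zA2_16401_17 {p0 p1 p2 p3 p4 : V} (h : T.OkA2 p0 p1 p2 p3 p4)
    (n0 : T.X p0 p1 p2 p3 = true) (n4 : T.X p0 p2 p1 p4 = true) (n14 : T.X p1 p4 p2 p3 = false) : False := by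
  have h2 := h
  unfold Table.OkA2 at h2
  rw [n0, n4, n14] at h2
  exact bzA2_16401_17 _ _ _ _ _ _ _ _ _ _ _ _ h2

theorem bzA2_180_4 : ∀ b0 b1 b3 b6 b8 b9 b10 b11 b12 b13 b14 : Bool,
    okA2 b0 b1 true b3 false false b6 false b8 b9 b10 b11 b12 b13 b14 = true → False := by
  decide +kernel

theorem zA2_180_4 {p0 p1 p2 p3 p4 : V} (h : T.OkA2 p0 p1 p2 p3 p4)
    (n2 : T.X p0 p3 p1 p2 = true) (n4 : T.X p0 p2 p1 p4 = false) (n5 : T.X p0 p4 p1 p2 = false) (n7 : T.X p0 p3 p1 p4 = false) : False := by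
  have h2 := h
  unfold Table.OkA2 at h2
  rw [n2, n4, n5, n7] at h2
  exact bzA2_180_4 _ _ _ _ _ _ _ _ _ _ _ h2

theorem bzA2_18448_2064 : ∀ b0 b1 b2 b3 b5 b6 b7 b8 b9 b10 b12 b13 : Bool,
    okA2 b0 b1 b2 b3 true b5 b6 b7 b8 b9 b10 true b12 b13 false = true → False := by
  decide +kernel

theorem zA2_18448_2064 {p0 p1 p2 p3 p4 : V} (h : T.OkA2 p0 p1 p2 p3 p4)
    (n4 : T.X p0 p2 p1 p4 = true) (n11 : T.X p0 p4 p2 p3 = true) (n14 : T.X p1 p4 p2 p3 = false) : False := by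
  have h2 := h
  unfold Table.OkA2 at h2
  rw [n4, n11, n14] at h2
  exact bzA2_18448_2064 _ _ _ _ _ _ _ _ _ _ _ _ h2

theorem bzA2_18577_16400 : ∀ b1 b2 b3 b5 b6 b8 b9 b10 b12 b13 : Bool,
    okA2 false b1 b2 b3 true b5 b6 false b8 b9 b10 false b12 b13 true = true → False := by
  decide +kernel

theorem zA2_18577_16400 {p0 p1 p2 p3 p4 : V} (h : T.OkA2 p0 p1 p2 p3 p4)
    (n0 : T.X p0 p1 p2 p3 = false) (n4 : T.X p0 p2 p1 p4 = true) (n7 : T.X p0 p3 p1 p4 = false) (n11 : T.X p0 p4 p2 p3 = false) (n14 : T.X p1 p4 p2 p3 = true) : False := by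
  have h2 := h
  unfold Table.OkA2 at h2
  rw [n0, n4, n7, n11, n14] at h2
  exact bzA2_18577_16400 _ _ _ _ _ _ _ _ _ _ h2

theorem bzA2_2307_256 : ∀ b2 b3 b4 b5 b6 b7 b9 b10 b12 b13 b14 : Bool,
    okA2 false false b2 b3 b4 b5 b6 b7 true b9 b10 false b12 b13 b14 = true → False := by
  decide +kernel

theorem zA2_2307_256 {p0 p1 p2 p3 p4 : V} (h : T.OkA2 p0 p1 p2 p3 p4)
    (n0 : T.X p0 p1 p2 p3 = false) (n1 : T.X p0 p2 p1 p3 = false) (n8 : T.X p0 p4 p1 p3 = true) (n11 : T.X p0 p4 p2 p3 = false) : False := by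
  have h2 := h
  unfold Table.OkA2 at h2
  rw [n0, n1, n8, n11] at h2
  exact bzA2_2307_256 _ _ _ _ _ _ _ _ _ _ _ h2

theorem bzA2_40_40 : ∀ b0 b1 b2 b4 b6 b7 b8 b9 b10 b11 b12 b13 b14 : Bool,
    okA2 b0 b1 b2 true b4 true b6 b7 b8 b9 b10 b11 b12 b13 b14 = true → False := by
  decide +kernel

theorem zA2_40_40 {p0 p1 p2 p3 p4 : V} (h : T.OkA2 p0 p1 p2 p3 p4)
    (n3 : T.X p0 p1 p2 p4 = true) (n5 : T.X p0 p4 p1 p2 = true) : False := by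
  have h2 := h
  unfold Table.OkA2 at h2
  rw [n3, n5] at h2
  exact bzA2_40_40 _ _ _ _ _ _ _ _ _ _ _ _ _ h2

theorem bzA2_4640_544 : ∀ b0 b1 b2 b3 b4 b6 b7 b8 b10 b11 b13 b14 : Bool,
    okA2 b0 b1 b2 b3 b4 true b6 b7 b8 true b10 b11 false b13 b14 = true → False := by
  decide +kernel

theorem zA2_4640_544 {p0 p1 p2 p3 p4 : V} (h : T.OkA2 p0 p1 p2 p3 p4)
    (n5 : T.X p0 p4 p1 p2 = true) (n9 : T.X p0 p2 p3 p4 = true) (n12 : T.X p1 p2 p3 p4 = false) : False := by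
  have h2 := h
  unfold Table.OkA2 at h2
  rw [n5, n9, n12] at h2
  exact bzA2_4640_544 _ _ _ _ _ _ _ _ _ _ _ _ h2

theorem bzA2_4708_4096 : ∀ b0 b1 b3 b4 b7 b8 b10 b11 b13 b14 : Bool,
    okA2 b0 b1 false b3 b4 false false b7 b8 false b10 b11 true b13 b14 = true → False := by
  decide +kernel

theorem zA2_4708_4096 {p0 p1 p2 p3 p4 : V} (h : T.OkA2 p0 p1 p2 p3 p4)
    (n2 : T.X p0 p3 p1 p2 = false) (n5 : T.X p0 p4 p1 p2 = false) (n6 : T.X p0 p1 p3 p4 = false) (n9 : T.X p0 p2 p3 p4 = false) (n12 : T.X p1 p2 p3 p4 = true) : False := by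
  have h2 := h
  unfold Table.OkA2 at h2
  rw [n2, n5, n6, n9, n12] at h2
  exact bzA2_4708_4096 _ _ _ _ _ _ _ _ _ _ h2

theorem bzA2_4708_4672 : ∀ b0 b1 b3 b4 b7 b8 b10 b11 b13 b14 : Bool,
    okA2 b0 b1 false b3 b4 false true b7 b8 true b10 b11 true b13 b14 = true → False := by
  decide +kernel

theorem zA2_4708_4672 {p0 p1 p2 p3 p4 : V} (h : T.OkA2 p0 p1 p2 p3 p4)
    (n2 : T.X p0 p3 p1 p2 = false) (n5 : T.X p0 p4 p1 p2 = false) (n6 : T.X p0 p1 p3 p4 = true) (n9 : T.X p0 p2 p3 p4 = true) (n12 : T.X p1 p2 p3 p4 = true) : False := by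
  have h2 := h
  unfold Table.OkA2 at h2
  rw [n2, n5, n6, n9, n12] at h2
  exact bzA2_4708_4672 _ _ _ _ _ _ _ _ _ _ h2

theorem bzA2_9226_1024 : ∀ b0 b2 b4 b5 b6 b7 b8 b9 b11 b12 b14 : Bool,
    okA2 b0 false b2 false b4 b5 b6 b7 b8 b9 true b11 b12 false b14 = true → False := by
  decide +kernel

theorem zA2_9226_1024 {p0 p1 p2 p3 p4 : V} (h : T.OkA2 p0 p1 p2 p3 p4)
    (n1 : T.X p0 p2 p1 p3 = false) (n3 : T.X p0 p1 p2 p4 = false) (n10 : T.X p0 p3 p2 p4 = true) (n13 : T.X p1 p3 p2 p4 = false) : False := by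
  have h2 := h
  unfold Table.OkA2 at h2
  rw [n1, n3, n10, n13] at h2
  exact bzA2_9226_1024 _ _ _ _ _ _ _ _ _ _ _ h2

theorem bzA2_9482_8192 : ∀ b0 b2 b4 b5 b6 b7 b9 b11 b12 b14 : Bool,
    okA2 b0 false b2 false b4 b5 b6 b7 false b9 false b11 b12 true b14 = true → False := by
  decide +kernel

theorem zA2_9482_8192 {p0 p1 p2 p3 p4 : V} (h : T.OkA2 p0 p1 p2 p3 p4)
    (n1 : T.X p0 p2 p1 p3 = false) (n3 : T.X p0 p1 p2 p4 = false) (n8 : T.X p0 p4 p1 p3 = false) (n10 : T.X p0 p3 p2 p4 = false) (n13 : T.X p1 p3 p2 p4 = true) : False := by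
  have h2 := h
  unfold Table.OkA2 at h2
  rw [n1, n3, n8, n10, n13] at h2
  exact bzA2_9482_8192 _ _ _ _ _ _ _ _ _ _ h2

theorem bzsp_1156_128 : ∀ b0 b1 b3 b4 b5 b6 b8 b9 b11 b12 b13 b14 : Bool,
    sp5 b0 b1 false b3 b4 b5 b6 true b8 b9 false b11 b12 b13 b14 = true → False := by
  decide +kernel

theorem zsp_1156_128 {a p0 p1 p2 p3 p4 : V} (h : T.Sp5 a p0 p1 p2 p3 p4)
    (n2 : T.alt a p0 p3 p1 p2 = false) (n7 : T.alt a p0 p3 p1 p4 = true) (n10 : T.alt a p0 p3 p2 p4 = false) : False := by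
  have h2 := h
  unfold Table.Sp5 at h2
  rw [n2, n7, n10] at h2
  exact bzsp_1156_128 _ _ _ _ _ _ _ _ _ _ _ _ h2

theorem bzsp_16528_128 : ∀ b0 b1 b2 b3 b5 b6 b8 b9 b10 b11 b12 b13 : Bool,
    sp5 b0 b1 b2 b3 false b5 b6 true b8 b9 b10 b11 b12 b13 false = true → False := by
  decide +kernel

theorem zsp_16528_128 {a p0 p1 p2 p3 p4 : V} (h : T.Sp5 a p0 p1 p2 p3 p4)
    (n4 : T.alt a p0 p2 p1 p4 = false) (n7 : T.alt a p0 p3 p1 p4 = true) (n14 : T.alt a p1 p4 p2 p3 = false) : False := by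
  have h2 := h
  unfold Table.Sp5 at h2
  rw [n4, n7, n14] at h2
  exact bzsp_16528_128 _ _ _ _ _ _ _ _ _ _ _ _ h2

theorem bzsp_18433_2048 : ∀ b1 b2 b3 b4 b5 b6 b7 b8 b9 b10 b12 b13 : Bool,
    sp5 false b1 b2 b3 b4 b5 b6 b7 b8 b9 b10 true b12 b13 false = true → False := by
  decide +kernel

theorem zsp_18433_2048 {a p0 p1 p2 p3 p4 : V} (h : T.Sp5 a p0 p1 p2 p3 p4)
    (n0 : T.alt a p0 p1 p2 p3 = false) (n11 : T.alt a p0 p4 p2 p3 = true) (n14 : T.alt a p1 p4 p2 p3 = false) : False := by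
  have h2 := h
  unfold Table.Sp5 at h2
  rw [n0, n11, n14] at h2
  exact bzsp_18433_2048 _ _ _ _ _ _ _ _ _ _ _ _ h2

theorem bzsp_2336_256 : ∀ b0 b1 b2 b3 b4 b6 b7 b9 b10 b12 b13 b14 : Bool,
    sp5 b0 b1 b2 b3 b4 false b6 b7 true b9 b10 false b12 b13 b14 = true → False := by
  decide +kernel

theorem zsp_2336_256 {a p0 p1 p2 p3 p4 : V} (h : T.Sp5 a p0 p1 p2 p3 p4)
    (n5 : T.alt a p0 p4 p1 p2 = false) (n8 : T.alt a p0 p4 p1 p3 = true) (n11 : T.alt a p0 p4 p2 p3 = false) : False := by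
  have h2 := h
  unfold Table.Sp5 at h2
  rw [n5, n8, n11] at h2
  exact bzsp_2336_256 _ _ _ _ _ _ _ _ _ _ _ _ h2

theorem bzsp_4132_32 : ∀ b0 b1 b3 b4 b6 b7 b8 b9 b10 b11 b13 b14 : Bool,
    sp5 b0 b1 false b3 b4 true b6 b7 b8 b9 b10 b11 false b13 b14 = true → False := by
  decide +kernel

theorem zsp_4132_32 {a p0 p1 p2 p3 p4 : V} (h : T.Sp5 a p0 p1 p2 p3 p4)
    (n2 : T.alt a p0 p3 p1 p2 = false) (n5 : T.alt a p0 p4 p1 p2 = true) (n12 : T.alt a p1 p2 p3 p4 = false) : False := by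
  have h2 := h
  unfold Table.Sp5 at h2
  rw [n2, n5, n12] at h2
  exact bzsp_4132_32 _ _ _ _ _ _ _ _ _ _ _ _ h2

theorem bzsp_4672_512 : ∀ b0 b1 b2 b3 b4 b5 b7 b8 b10 b11 b13 b14 : Bool,
    sp5 b0 b1 b2 b3 b4 b5 false b7 b8 true b10 b11 false b13 b14 = true → False := by
  decide +kernel

theorem zsp_4672_512 {a p0 p1 p2 p3 p4 : V} (h : T.Sp5 a p0 p1 p2 p3 p4)
    (n6 : T.alt a p0 p1 p3 p4 = false) (n9 : T.alt a p0 p2 p3 p4 = true) (n12 : T.alt a p1 p2 p3 p4 = false) : False := by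
  have h2 := h
  unfold Table.Sp5 at h2
  rw [n6, n9, n12] at h2
  exact bzsp_4672_512 _ _ _ _ _ _ _ _ _ _ _ _ h2

theorem bzsp_530_16 : ∀ b0 b2 b3 b5 b6 b7 b8 b10 b11 b12 b13 b14 : Bool,
    sp5 b0 false b2 b3 true b5 b6 b7 b8 false b10 b11 b12 b13 b14 = true → False := by
  decide +kernel

theorem zsp_530_16 {a p0 p1 p2 p3 p4 : V} (h : T.Sp5 a p0 p1 p2 p3 p4)
    (n1 : T.alt a p0 p2 p1 p3 = false) (n4 : T.alt a p0 p2 p1 p4 = true) (n9 : T.alt a p0 p2 p3 p4 = false) : False := by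
  have h2 := h
  unfold Table.Sp5 at h2
  rw [n1, n4, n9] at h2
  exact bzsp_530_16 _ _ _ _ _ _ _ _ _ _ _ _ h2

theorem bzsp_73_8 : ∀ b1 b2 b4 b5 b7 b8 b9 b10 b11 b12 b13 b14 : Bool,
    sp5 false b1 b2 true b4 b5 false b7 b8 b9 b10 b11 b12 b13 b14 = true → False := by
  decide +kernel

theorem zsp_73_8 {a p0 p1 p2 p3 p4 : V} (h : T.Sp5 a p0 p1 p2 p3 p4)
    (n0 : T.alt a p0 p1 p2 p3 = false) (n3 : T.alt a p0 p1 p2 p4 = true) (n6 : T.alt a p0 p1 p3 p4 = false) : False := by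
  have h2 := h
  unfold Table.Sp5 at h2
  rw [n0, n3, n6] at h2
  exact bzsp_73_8 _ _ _ _ _ _ _ _ _ _ _ _ h2

theorem bzsp_8450_256 : ∀ b0 b2 b3 b4 b5 b6 b7 b9 b10 b11 b12 b14 : Bool,
    sp5 b0 false b2 b3 b4 b5 b6 b7 true b9 b10 b11 b12 false b14 = true → False := by
  decide +kernel

theorem zsp_8450_256 {a p0 p1 p2 p3 p4 : V} (h : T.Sp5 a p0 p1 p2 p3 p4)
    (n1 : T.alt a p0 p2 p1 p3 = false) (n8 : T.alt a p0 p4 p1 p3 = true) (n13 : T.alt a p1 p3 p2 p4 = false) : False := by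
  have h2 := h
  unfold Table.Sp5 at h2
  rw [n1, n8, n13] at h2
  exact bzsp_8450_256 _ _ _ _ _ _ _ _ _ _ _ _ h2

theorem bzsp_9224_1024 : ∀ b0 b1 b2 b4 b5 b6 b7 b8 b9 b11 b12 b14 : Bool,
    sp5 b0 b1 b2 false b4 b5 b6 b7 b8 b9 true b11 b12 false b14 = true → False := by
  decide +kernel

theorem zsp_9224_1024 {a p0 p1 p2 p3 p4 : V} (h : T.Sp5 a p0 p1 p2 p3 p4)
    (n3 : T.alt a p0 p1 p2 p4 = false) (n10 : T.alt a p0 p3 p2 p4 = true) (n13 : T.alt a p1 p3 p2 p4 = false) : False := by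
  have h2 := h
  unfold Table.Sp5 at h2
  rw [n3, n10, n13] at h2
  exact bzsp_9224_1024 _ _ _ _ _ _ _ _ _ _ _ _ h2

end H53P
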