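import Pool.Agent.Lib.H63L.GS

/-!
# H63L, file GC4: clauses for five points (generated)
-/

set_option linter.unusedVariables false
set_option autoImplicit false

namespace H53P

variable {V : Type} {T : Table V}


theorem bz5_10274_10274 : ∀ b0 b2 b3 b4 b6 b7 b8 b9 b10 b12 b14 : Bool,
    ok5 b0 true b2 b3 b4 true b6 b7 b8 b9 b10 true b12 true b14 = true → False := by
  decide +kernel

theorem z5_10274_10274 {p0 p1 p2 p3 p4 : V} (h : T.Ok5 p0 p1 p2 p3 p4)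
    (n1 : T.X p0 p2 p1 p3 = true) (n5 : T.X p0 p4 p1 p2 = true) (n11 : T.X p0 p4 p2 p3 = true) (n13 : T.X p1 p3 p2 p4 = true) : False := by
  have h2 := h
  unfold Table.Ok5 at h2
  rw [n1, n5, n11, n13] at h2
  exact bz5_10274_10274 _ _ _ _ _ _ _ _ _ _ _ h2

theorem bz5_10505_8193 : ∀ b1 b2 b4 b5 b6 b7 b9 b10 b12 b14 : Bool,
    ok5 true b1 b2 false b4 b5 b6 b7 false b9 b10 false b12 true b14 = true → False := by
  decide +kernel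

theorem z5_10505_8193 {p0 p1 p2 p3 p4 : V} (h : T.Ok5 p0 p1 p2 p3 p4)
    (n0 : T.X p0 p1 p2 p3 = true) (n3 : T.X p0 p1 p2 p4 = false) (n8 : T.X p0 p4 p1 p3 = false) (n11 : T.X p0 p4 p2 p3 = false) (n13 : T.X p1 p3 p2 p4 = true) : False := by
  have h2 := h
  unfold Table.Ok5 at h2
  rw [n0, n3, n8, n11, n13] at h2
  exact bz5_10505_8193 _ _ _ _ _ _ _ _ _ _ h2

theorem bz5_12288_12288 : ∀ b0 b1 b2 b3 b4 b5 b6 b7 b8 b9 b10 b11 b14 : Bool,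
    ok5 b0 b1 b2 b3 b4 b5 b6 b7 b8 b9 b10 b11 true true b14 = true → False := by
  decide +kernel

theorem z5_12288_12288 {p0 p1 p2 p3 p4 : V} (h : T.Ok5 p0 p1 p2 p3 p4)
    (n12 : T.X p1 p2 p3 p4 = true) (n13 : T.X p1 p3 p2 p4 = true) : False := by
  have h2 := h
  unfold Table.Ok5 at h2
  rw [n12, n13] at h2
  exact bz5_12288_12288 _ _ _ _ _ _ _ _ _ _ _ _ _ h2

theorem bz5_1536_1536 : ∀ b0 b1 b2 b3 b4 b5 b6 b7 b8 b11 b12 b13 b14 : Bool,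
    ok5 b0 b1 b2 b3 b4 b5 b6 b7 b8 true true b11 b12 b13 b14 = true → False := by
  decide +kernel

theorem z5_1536_1536 {p0 p1 p2 p3 p4 : V} (h : T.Ok5 p0 p1 p2 p3 p4)
    (n9 : T.X p0 p2 p3 p4 = true) (n10 : T.X p0 p3 p2 p4 = true) : False := by
  have h2 := h
  unfold Table.Ok5 at h2
  rw [n9, n10] at h2
  exact bz5_1536_1536 _ _ _ _ _ _ _ _ _ _ _ _ _ h2

theorem bz5_16977_16896 : ∀ b1 b2 b3 b5 b7 b8 b10 b11 b12 b13 : Bool,
    ok5 false b1 b2 b3 false b5 false b7 b8 true b10 b11 b12 b13 true = true → False := by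
  decide +kernel

theorem z5_16977_16896 {p0 p1 p2 p3 p4 : V} (h : T.Ok5 p0 p1 p2 p3 p4)
    (n0 : T.X p0 p1 p2 p3 = false) (n4 : T.X p0 p2 p1 p4 = false) (n6 : T.X p0 p1 p3 p4 = false) (n9 : T.X p0 p2 p3 p4 = true) (n14 : T.X p1 p4 p2 p3 = true) : False := by
  have h2 := h
  unfold Table.Ok5 at h2
  rw [n0, n4, n6, n9, n14] at h2
  exact bz5_16977_16896 _ _ _ _ _ _ _ _ _ _ h2

theorem bz5_16977_17 : ∀ b1 b2 b3 b5 b7 b8 b10 b11 b12 b13 : Bool,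
    ok5 true b1 b2 b3 true b5 false b7 b8 false b10 b11 b12 b13 false = true → False := by
  decide +kernel

theorem z5_16977_17 {p0 p1 p2 p3 p4 : V} (h : T.Ok5 p0 p1 p2 p3 p4)
    (n0 : T.X p0 p1 p2 p3 = true) (n4 : T.X p0 p2 p1 p4 = true) (n6 : T.X p0 p1 p3 p4 = false) (n9 : T.X p0 p2 p3 p4 = false) (n14 : T.X p1 p4 p2 p3 = false) : False := by
  have h2 := h
  unfold Table.Ok5 at h2
  rw [n0, n4, n6, n9, n14] at h2
  exact bz5_16977_17 _ _ _ _ _ _ _ _ _ _ h2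

theorem bz5_17428_17428 : ∀ b0 b1 b3 b5 b6 b7 b8 b9 b11 b12 b13 : Bool,
    ok5 b0 b1 true b3 true b5 b6 b7 b8 b9 true b11 b12 b13 true = true → False := by
  decide +kernel

theorem z5_17428_17428 {p0 p1 p2 p3 p4 : V} (h : T.Ok5 p0 p1 p2 p3 p4)
    (n2 : T.X p0 p3 p1 p2 = true) (n4 : T.X p0 p2 p1 p4 = true) (n10 : T.X p0 p3 p2 p4 = true) (n14 : T.X p1 p4 p2 p3 = true) : False := by
  have h2 := h
  unfold Table.Ok5 at h2
  rw [n2, n4, n10, n14] at h2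
  exact bz5_17428_17428 _ _ _ _ _ _ _ _ _ _ _ h2

theorem bz5_17545_16392 : ∀ b1 b2 b4 b5 b6 b8 b9 b11 b12 b13 : Bool,
    ok5 false b1 b2 true b4 b5 b6 false b8 b9 false b11 b12 b13 true = true → False := by
  decide +kernel

theorem z5_17545_16392 {p0 p1 p2 p3 p4 : V} (h : T.Ok5 p0 p1 p2 p3 p4)
    (n0 : T.X p0 p1 p2 p3 = false) (n3 : T.X p0 p1 p2 p4 = true) (n7 : T.X p0 p3 p1 p4 = false) (n10 : T.X p0 p3 p2 p4 = false) (n14 : T.X p1 p4 p2 p3 = true) : False := by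
  have h2 := h
  unfold Table.Ok5 at h2
  rw [n0, n3, n7, n10, n14] at h2
  exact bz5_17545_16392 _ _ _ _ _ _ _ _ _ _ h2

theorem bz5_18596_160 : ∀ b0 b1 b3 b4 b6 b8 b9 b10 b12 b13 : Bool,
    ok5 b0 b1 false b3 b4 true b6 true b8 b9 b10 false b12 b13 false = true → False := by
  decide +kernel

theorem z5_18596_160 {p0 p1 p2 p3 p4 : V} (h : T.Ok5 p0 p1 p2 p3 p4)
    (n2 : T.X p0 p3 p1 p2 = false) (n5 : T.X p0 p4 p1 p2 = true) (n7 : T.X p0 p3 p1 p4 = true) (n11 : T.X p0 p4 p2 p3 = false) (n14 : T.X p1 p4 p2 p3 = false) : False := by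
  have h2 := h
  unfold Table.Ok5 at h2
  rw [n2, n5, n7, n11, n14] at h2
  exact bz5_18596_160 _ _ _ _ _ _ _ _ _ _ h2

theorem bz5_18596_16416 : ∀ b0 b1 b3 b4 b6 b8 b9 b10 b12 b13 : Bool,
    ok5 b0 b1 false b3 b4 true b6 false b8 b9 b10 false b12 b13 true = true → False := by
  decide +kernel

theorem z5_18596_16416 {p0 p1 p2 p3 p4 : V} (h : T.Ok5 p0 p1 p2 p3 p4)
    (n2 : T.X p0 p3 p1 p2 = false) (n5 : T.X p0 p4 p1 p2 = true) (n7 : T.X p0 p3 p1 p4 = false) (n11 : T.X p0 p4 p2 p3 = false) (n14 : T.X p1 p4 p2 p3 = true) : False := by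
  have h2 := h
  unfold Table.Ok5 at h2
  rw [n2, n5, n7, n11, n14] at h2
  exact bz5_18596_16416 _ _ _ _ _ _ _ _ _ _ h2

theorem bz5_18706_2050 : ∀ b0 b2 b3 b5 b6 b7 b9 b10 b12 b13 : Bool,
    ok5 b0 true b2 b3 false b5 b6 b7 false b9 b10 true b12 b13 false = true → False := by
  decide +kernel

theorem z5_18706_2050 {p0 p1 p2 p3 p4 : V} (h : T.Ok5 p0 p1 p2 p3 p4)
    (n1 : T.X p0 p2 p1 p3 = true) (n4 : T.X p0 p2 p1 p4 = false) (n8 : T.X p0 p4 p1 p3 = false) (n11 : T.X p0 p4 p2 p3 = true) (n14 : T.X p1 p4 p2 p3 = false) : False := by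
  have h2 := h
  unfold Table.Ok5 at h2
  rw [n1, n4, n8, n11, n14] at h2
  exact bz5_18706_2050 _ _ _ _ _ _ _ _ _ _ h2

theorem bz5_18881_18433 : ∀ b1 b2 b3 b4 b5 b9 b10 b12 b13 : Bool,
    ok5 true b1 b2 b3 b4 b5 false false false b9 b10 true b12 b13 true = true → False := by
  decide +kernel

theorem z5_18881_18433 {p0 p1 p2 p3 p4 : V} (h : T.Ok5 p0 p1 p2 p3 p4)
    (n0 : T.X p0 p1 p2 p3 = true) (n6 : T.X p0 p1 p3 p4 = false) (n7 : T.X p0 p3 p1 p4 = false) (n8 : T.X p0 p4 p1 p3 = false) (n11 : T.X p0 p4 p2 p3 = true) (n14 : T.X p1 p4 p2 p3 = true) : False := by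
  have h2 := h
  unfold Table.Ok5 at h2
  rw [n0, n6, n7, n8, n11, n14] at h2
  exact bz5_18881_18433 _ _ _ _ _ _ _ _ _ h2

theorem bz5_28745_73 : ∀ b1 b2 b4 b5 b7 b8 b9 b10 b11 : Bool,
    ok5 true b1 b2 true b4 b5 true b7 b8 b9 b10 b11 false false false = true → False := by
  decide +kernel

theorem z5_28745_73 {p0 p1 p2 p3 p4 : V} (h : T.Ok5 p0 p1 p2 p3 p4)
    (n0 : T.X p0 p1 p2 p3 = true) (n3 : T.X p0 p1 p2 p4 = true) (n6 : T.X p0 p1 p3 p4 = true) (n12 : T.X p1 p2 p3 p4 = false) (n13 : T.X p1 p3 p2 p4 = false) (n14 : T.X p1 p4 p2 p3 = false) : False := by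
  have h2 := h
  unfold Table.Ok5 at h2
  rw [n0, n3, n6, n12, n13, n14] at h2
  exact bz5_28745_73 _ _ _ _ _ _ _ _ _ h2

theorem bz5_3072_3072 : ∀ b0 b1 b2 b3 b4 b5 b6 b7 b8 b9 b12 b13 b14 : Bool,
    ok5 b0 b1 b2 b3 b4 b5 b6 b7 b8 b9 true true b12 b13 b14 = true → False := by
  decide +kernel

theorem z5_3072_3072 {p0 p1 p2 p3 p4 : V} (h : T.Ok5 p0 p1 p2 p3 p4)
    (n10 : T.X p0 p3 p2 p4 = true) (n11 : T.X p0 p4 p2 p3 = true) : False := by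
  have h2 := h
  unfold Table.Ok5 at h2
  rw [n10, n11] at h2
  exact bz5_3072_3072 _ _ _ _ _ _ _ _ _ _ _ _ _ h2

theorem bz5_384_384 : ∀ b0 b1 b2 b3 b4 b5 b6 b9 b10 b11 b12 b13 b14 : Bool,
    ok5 b0 b1 b2 b3 b4 b5 b6 true true b9 b10 b11 b12 b13 b14 = true → False := by
  decide +kernel

theorem z5_384_384 {p0 p1 p2 p3 p4 : V} (h : T.Ok5 p0 p1 p2 p3 p4)
    (n7 : T.X p0 p3 p1 p4 = true) (n8 : T.X p0 p4 p1 p3 = true) : False := by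
  have h2 := h
  unfold Table.Ok5 at h2
  rw [n7, n8] at h2
  exact bz5_384_384 _ _ _ _ _ _ _ _ _ _ _ _ _ h2

theorem bz5_40_40 : ∀ b0 b1 b2 b4 b6 b7 b8 b9 b10 b11 b12 b13 b14 : Bool,
    ok5 b0 b1 b2 true b4 true b6 b7 b8 b9 b10 b11 b12 b13 b14 = true → False := by
  decide +kernel

theorem z5_40_40 {p0 p1 p2 p3 p4 : V} (h : T.Ok5 p0 p1 p2 p3 p4)
    (n3 : T.X p0 p1 p2 p4 = true) (n5 : T.X p0 p4 p1 p2 = true) : False := by
  have h2 := h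
  unfold Table.Ok5 at h2
  rw [n3, n5] at h2
  exact bz5_40_40 _ _ _ _ _ _ _ _ _ _ _ _ _ h2

theorem bz5_4617_4617 : ∀ b1 b2 b4 b5 b6 b7 b8 b10 b11 b13 b14 : Bool,
    ok5 true b1 b2 true b4 b5 b6 b7 b8 true b10 b11 true b13 b14 = true → False := by
  decide +kernel

theorem z5_4617_4617 {p0 p1 p2 p3 p4 : V} (h : T.Ok5 p0 p1 p2 p3 p4)
    (n0 : T.X p0 p1 p2 p3 = true) (n3 : T.X p0 p1 p2 p4 = true) (n9 : T.X p0 p2 p3 p4 = true) (n12 : T.X p1 p2 p3 p4 = true) : False := by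
  have h2 := h
  unfold Table.Ok5 at h2
  rw [n0, n3, n9, n12] at h2
  exact bz5_4617_4617 _ _ _ _ _ _ _ _ _ _ _ h2

theorem bz5_4756_516 : ∀ b0 b1 b3 b5 b6 b8 b10 b11 b13 b14 : Bool,
    ok5 b0 b1 true b3 false b5 b6 false b8 true b10 b11 false b13 b14 = true → False := by
  decide +kernel

theorem z5_4756_516 {p0 p1 p2 p3 p4 : V} (h : T.Ok5 p0 p1 p2 p3 p4)
    (n2 : T.X p0 p3 p1 p2 = true) (n4 : T.X p0 p2 p1 p4 = false) (n7 : T.X p0 p3 p1 p4 = false) (n9 : T.X p0 p2 p3 p4 = true) (n12 : T.X p1 p2 p3 p4 = false) : False := by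
  have h2 := h
  unfold Table.Ok5 at h2
  rw [n2, n4, n7, n9, n12] at h2
  exact bz5_4756_516 _ _ _ _ _ _ _ _ _ _ h2

theorem bz5_4758_4752 : ∀ b0 b3 b5 b6 b8 b10 b11 b13 b14 : Bool,
    ok5 b0 false false b3 true b5 b6 true b8 true b10 b11 true b13 b14 = true → False := by
  decide +kernel

theorem z5_4758_4752 {p0 p1 p2 p3 p4 : V} (h : T.Ok5 p0 p1 p2 p3 p4)
    (n1 : T.X p0 p2 p1 p3 = false) (n2 : T.X p0 p3 p1 p2 = false) (n4 : T.X p0 p2 p1 p4 = true) (n7 : T.X p0 p3 p1 p4 = true) (n9 : T.X p0 p2 p3 p4 = true) (n12 : T.X p1 p2 p3 p4 = true) : False := by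
  have h2 := h
  unfold Table.Ok5 at h2
  rw [n1, n2, n4, n7, n9, n12] at h2
  exact bz5_4758_4752 _ _ _ _ _ _ _ _ _ h2

theorem bz5_4898_768 : ∀ b0 b2 b3 b4 b6 b7 b10 b11 b13 b14 : Bool,
    ok5 b0 false b2 b3 b4 false b6 b7 true true b10 b11 false b13 b14 = true → False := by
  decide +kernel

theorem z5_4898_768 {p0 p1 p2 p3 p4 : V} (h : T.Ok5 p0 p1 p2 p3 p4)
    (n1 : T.X p0 p2 p1 p3 = false) (n5 : T.X p0 p4 p1 p2 = false) (n8 : T.X p0 p4 p1 p3 = true) (n9 : T.X p0 p2 p3 p4 = true) (n12 : T.X p1 p2 p3 p4 = false) : False := by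
  have h2 := h
  unfold Table.Ok5 at h2
  rw [n1, n5, n8, n9, n12] at h2
  exact bz5_4898_768 _ _ _ _ _ _ _ _ _ _ h2

theorem bz5_5196_12 : ∀ b0 b1 b4 b5 b7 b8 b9 b11 b13 b14 : Bool,
    ok5 b0 b1 true true b4 b5 false b7 b8 b9 false b11 false b13 b14 = true → False := by
  decide +kernel

theorem z5_5196_12 {p0 p1 p2 p3 p4 : V} (h : T.Ok5 p0 p1 p2 p3 p4)
    (n2 : T.X p0 p3 p1 p2 = true) (n3 : T.X p0 p1 p2 p4 = true) (n6 : T.X p0 p1 p3 p4 = false) (n10 : T.X p0 p3 p2 p4 = false) (n12 : T.X p1 p2 p3 p4 = false) : False := by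
  have h2 := h
  unfold Table.Ok5 at h2
  rw [n2, n3, n6, n10, n12] at h2
  exact bz5_5196_12 _ _ _ _ _ _ _ _ _ _ h2

theorem bz5_5196_5120 : ∀ b0 b1 b4 b5 b7 b8 b9 b11 b13 b14 : Bool,
    ok5 b0 b1 false false b4 b5 false b7 b8 b9 true b11 true b13 b14 = true → False := by
  decide +kernel

theorem z5_5196_5120 {p0 p1 p2 p3 p4 : V} (h : T.Ok5 p0 p1 p2 p3 p4)
    (n2 : T.X p0 p3 p1 p2 = false) (n3 : T.X p0 p1 p2 p4 = false) (n6 : T.X p0 p1 p3 p4 = false) (n10 : T.X p0 p3 p2 p4 = true) (n12 : T.X p1 p2 p3 p4 = true) : False := by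
  have h2 := h
  unfold Table.Ok5 at h2
  rw [n2, n3, n6, n10, n12] at h2
  exact bz5_5196_5120 _ _ _ _ _ _ _ _ _ _ h2

theorem bz5_5324_5132 : ∀ b0 b1 b4 b5 b8 b9 b11 b13 b14 : Bool,
    ok5 b0 b1 true true b4 b5 false false b8 b9 true b11 true b13 b14 = true → False := by
  decide +kernel

theorem z5_5324_5132 {p0 p1 p2 p3 p4 : V} (h : T.Ok5 p0 p1 p2 p3 p4)
    (n2 : T.X p0 p3 p1 p2 = true) (n3 : T.X p0 p1 p2 p4 = true) (n6 : T.X p0 p1 p3 p4 = false) (n7 : T.X p0 p3 p1 p4 = false) (n10 : T.X p0 p3 p2 p4 = true) (n12 : T.X p1 p2 p3 p4 = true) : False := by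
  have h2 := h
  unfold Table.Ok5 at h2
  rw [n2, n3, n6, n7, n10, n12] at h2
  exact bz5_5324_5132 _ _ _ _ _ _ _ _ _ h2

theorem bz5_6241_96 : ∀ b1 b2 b3 b4 b7 b8 b9 b10 b13 b14 : Bool,
    ok5 false b1 b2 b3 b4 true true b7 b8 b9 b10 false false b13 b14 = true → False := by
  decide +kernel

theorem z5_6241_96 {p0 p1 p2 p3 p4 : V} (h : T.Ok5 p0 p1 p2 p3 p4)
    (n0 : T.X p0 p1 p2 p3 = false) (n5 : T.X p0 p4 p1 p2 = true) (n6 : T.X p0 p1 p3 p4 = true) (n11 : T.X p0 p4 p2 p3 = false) (n12 : T.X p1 p2 p3 p4 = false) : False := by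
  have h2 := h
  unfold Table.Ok5 at h2
  rw [n0, n5, n6, n11, n12] at h2
  exact bz5_6241_96 _ _ _ _ _ _ _ _ _ _ h2

theorem bz5_6245_6240 : ∀ b1 b3 b4 b7 b8 b9 b10 b13 b14 : Bool,
    ok5 false b1 false b3 b4 true true b7 b8 b9 b10 true true b13 b14 = true → False := by
  decide +kernel

theorem z5_6245_6240 {p0 p1 p2 p3 p4 : V} (h : T.Ok5 p0 p1 p2 p3 p4)
    (n0 : T.X p0 p1 p2 p3 = false) (n2 : T.X p0 p3 p1 p2 = false) (n5 : T.X p0 p4 p1 p2 = true) (n6 : T.X p0 p1 p3 p4 = true) (n11 : T.X p0 p4 p2 p3 = true) (n12 : T.X p1 p2 p3 p4 = true) : False := by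
  have h2 := h
  unfold Table.Ok5 at h2
  rw [n0, n2, n5, n6, n11, n12] at h2
  exact bz5_6245_6240 _ _ _ _ _ _ _ _ _ h2

theorem bz5_6753_4193 : ∀ b1 b2 b3 b4 b7 b8 b10 b13 b14 : Bool,
    ok5 true b1 b2 b3 b4 true true b7 b8 false b10 false true b13 b14 = true → False := by
  decide +kernel

theorem z5_6753_4193 {p0 p1 p2 p3 p4 : V} (h : T.Ok5 p0 p1 p2 p3 p4)
    (n0 : T.X p0 p1 p2 p3 = true) (n5 : T.X p0 p4 p1 p2 = true) (n6 : T.X p0 p1 p3 p4 = true) (n9 : T.X p0 p2 p3 p4 = false) (n11 : T.X p0 p4 p2 p3 = false) (n12 : T.X p1 p2 p3 p4 = true) : False := by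
  have h2 := h
  unfold Table.Ok5 at h2
  rw [n0, n5, n6, n9, n11, n12] at h2
  exact bz5_6753_4193 _ _ _ _ _ _ _ _ _ h2

theorem bz5_8778_10 : ∀ b0 b2 b4 b5 b7 b8 b10 b11 b12 b14 : Bool,
    ok5 b0 true b2 true b4 b5 false b7 b8 false b10 b11 b12 false b14 = true → False := by
  decide +kernel

theorem z5_8778_10 {p0 p1 p2 p3 p4 : V} (h : T.Ok5 p0 p1 p2 p3 p4)
    (n1 : T.X p0 p2 p1 p3 = true) (n3 : T.X p0 p1 p2 p4 = true) (n6 : T.X p0 p1 p3 p4 = false) (n9 : T.X p0 p2 p3 p4 = false) (n13 : T.X p1 p3 p2 p4 = false) : False := by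
  have h2 := h
  unfold Table.Ok5 at h2
  rw [n1, n3, n6, n9, n13] at h2
  exact bz5_8778_10 _ _ _ _ _ _ _ _ _ _ h2

theorem bz5_8778_8704 : ∀ b0 b2 b4 b5 b7 b8 b10 b11 b12 b14 : Bool,
    ok5 b0 false b2 false b4 b5 false b7 b8 true b10 b11 b12 true b14 = true → False := by
  decide +kernel

theorem z5_8778_8704 {p0 p1 p2 p3 p4 : V} (h : T.Ok5 p0 p1 p2 p3 p4)
    (n1 : T.X p0 p2 p1 p3 = false) (n3 : T.X p0 p1 p2 p4 = false) (n6 : T.X p0 p1 p3 p4 = false) (n9 : T.X p0 p2 p3 p4 = true) (n13 : T.X p1 p3 p2 p4 = true) : False := by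
  have h2 := h
  unfold Table.Ok5 at h2
  rw [n1, n3, n6, n9, n13] at h2
  exact bz5_8778_8704 _ _ _ _ _ _ _ _ _ _ h2

theorem bz5_9281_9281 : ∀ b1 b2 b3 b4 b5 b7 b8 b9 b11 b12 b14 : Bool,
    ok5 true b1 b2 b3 b4 b5 true b7 b8 b9 true b11 b12 true b14 = true → False := by
  decide +kernel

theorem z5_9281_9281 {p0 p1 p2 p3 p4 : V} (h : T.Ok5 p0 p1 p2 p3 p4)
    (n0 : T.X p0 p1 p2 p3 = true) (n6 : T.X p0 p1 p3 p4 = true) (n10 : T.X p0 p3 p2 p4 = true) (n13 : T.X p1 p3 p2 p4 = true) : False := by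
  have h2 := h
  unfold Table.Ok5 at h2
  rw [n0, n6, n10, n13] at h2
  exact bz5_9281_9281 _ _ _ _ _ _ _ _ _ _ _ h2

theorem bz5_9362_8320 : ∀ b0 b2 b3 b5 b6 b8 b9 b11 b12 b14 : Bool,
    ok5 b0 false b2 b3 false b5 b6 true b8 b9 false b11 b12 true b14 = true → False := by
  decide +kernel

theorem z5_9362_8320 {p0 p1 p2 p3 p4 : V} (h : T.Ok5 p0 p1 p2 p3 p4)
    (n1 : T.X p0 p2 p1 p3 = false) (n4 : T.X p0 p2 p1 p4 = false) (n7 : T.X p0 p3 p1 p4 = true) (n10 : T.X p0 p3 p2 p4 = false) (n13 : T.X p1 p3 p2 p4 = true) : False := by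
  have h2 := h
  unfold Table.Ok5 at h2
  rw [n1, n4, n7, n10, n13] at h2
  exact bz5_9362_8320 _ _ _ _ _ _ _ _ _ _ h2

theorem bz5_9508_1280 : ∀ b0 b1 b3 b4 b6 b7 b9 b11 b12 b14 : Bool,
    ok5 b0 b1 false b3 b4 false b6 b7 true b9 true b11 b12 false b14 = true → False := by
  decide +kernel

theorem z5_9508_1280 {p0 p1 p2 p3 p4 : V} (h : T.Ok5 p0 p1 p2 p3 p4)
    (n2 : T.X p0 p3 p1 p2 = false) (n5 : T.X p0 p4 p1 p2 = false) (n8 : T.X p0 p4 p1 p3 = true) (n10 : T.X p0 p3 p2 p4 = true) (n13 : T.X p1 p3 p2 p4 = false) : False := by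
  have h2 := h
  unfold Table.Ok5 at h2
  rw [n2, n5, n8, n10, n13] at h2
  exact bz5_9508_1280 _ _ _ _ _ _ _ _ _ _ h2

theorem bz5_9636_9252 : ∀ b0 b1 b3 b4 b6 b9 b11 b12 b14 : Bool,
    ok5 b0 b1 true b3 b4 true b6 false false b9 true b11 b12 true b14 = true → False := by
  decide +kernel

theorem z5_9636_9252 {p0 p1 p2 p3 p4 : V} (h : T.Ok5 p0 p1 p2 p3 p4)
    (n2 : T.X p0 p3 p1 p2 = true) (n5 : T.X p0 p4 p1 p2 = true) (n7 : T.X p0 p3 p1 p4 = false) (n8 : T.X p0 p4 p1 p3 = false) (n10 : T.X p0 p3 p2 p4 = true) (n13 : T.X p1 p3 p2 p4 = true) : False := by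
  have h2 := h
  unfold Table.Ok5 at h2
  rw [n2, n5, n7, n8, n10, n13] at h2
  exact bz5_9636_9252 _ _ _ _ _ _ _ _ _ h2

theorem bzA0_18448_2064 : ∀ b0 b1 b2 b3 b5 b6 b7 b8 b9 b10 b12 b13 : Bool,
    okA0 b0 b1 b2 b3 true b5 b6 b7 b8 b9 b10 true b12 b13 false = true → False := by
  decide +kernel

theorem zA0_18448_2064 {p0 p1 p2 p3 p4 : V} (h : T.OkA0 p0 p1 p2 p3 p4)
    (n4 : T.X p0 p2 p1 p4 = true) (n11 : T.X p0 p4 p2 p3 = true) (n14 : T.X p1 p4 p2 p3 = false) : False := by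
  have h2 := h
  unfold Table.OkA0 at h2
  rw [n4, n11, n14] at h2
  exact bzA0_18448_2064 _ _ _ _ _ _ _ _ _ _ _ _ h2

theorem bzA0_18577_16384 : ∀ b1 b2 b3 b5 b6 b8 b9 b10 b12 b13 : Bool,
    okA0 false b1 b2 b3 false b5 b6 false b8 b9 b10 false b12 b13 true = true → False := by
  decide +kernel

theorem zA0_18577_16384 {p0 p1 p2 p3 p4 : V} (h : T.OkA0 p0 p1 p2 p3 p4)
    (n0 : T.X p0 p1 p2 p3 = false) (n4 : T.X p0 p2 p1 p4 = false) (n7 : T.X p0 p3 p1 p4 = false) (n11 : T.X p0 p4 p2 p3 = false) (n14 : T.X p1 p4 p2 p3 = true) : False := by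
  have h2 := h
  unfold Table.OkA0 at h2
  rw [n0, n4, n7, n11, n14] at h2
  exact bzA0_18577_16384 _ _ _ _ _ _ _ _ _ _ h2

theorem bzA0_18577_18560 : ∀ b1 b2 b3 b5 b6 b8 b9 b10 b12 b13 : Bool,
    okA0 false b1 b2 b3 false b5 b6 true b8 b9 b10 true b12 b13 true = true → False := by
  decide +kernel

theorem zA0_18577_18560 {p0 p1 p2 p3 p4 : V} (h : T.OkA0 p0 p1 p2 p3 p4)
    (n0 : T.X p0 p1 p2 p3 = false) (n4 : T.X p0 p2 p1 p4 = false) (n7 : T.X p0 p3 p1 p4 = true) (n11 : T.X p0 p4 p2 p3 = true) (n14 : T.X p1 p4 p2 p3 = true) : False := by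
  have h2 := h
  unfold Table.OkA0 at h2
  rw [n0, n4, n7, n11, n14] at h2
  exact bzA0_18577_18560 _ _ _ _ _ _ _ _ _ _ h2

theorem bzA0_2085_2048 : ∀ b1 b3 b4 b6 b7 b8 b9 b10 b12 b13 b14 : Bool,
    okA0 false b1 false b3 b4 false b6 b7 b8 b9 b10 true b12 b13 b14 = true → False := by
  decide +kernel

theorem zA0_2085_2048 {p0 p1 p2 p3 p4 : V} (h : T.OkA0 p0 p1 p2 p3 p4)
    (n0 : T.X p0 p1 p2 p3 = false) (n2 : T.X p0 p3 p1 p2 = false) (n5 : T.X p0 p4 p1 p2 = false) (n11 : T.X p0 p4 p2 p3 = true) : False := by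
  have h2 := h
  unfold Table.OkA0 at h2
  rw [n0, n2, n5, n11] at h2
  exact bzA0_2085_2048 _ _ _ _ _ _ _ _ _ _ _ h2

theorem bzA0_294_256 : ∀ b0 b3 b4 b6 b7 b9 b10 b11 b12 b13 b14 : Bool,
    okA0 b0 false false b3 b4 false b6 b7 true b9 b10 b11 b12 b13 b14 = true → False := by
  decide +kernel

theorem zA0_294_256 {p0 p1 p2 p3 p4 : V} (h : T.OkA0 p0 p1 p2 p3 p4)
    (n1 : T.X p0 p2 p1 p3 = false) (n2 : T.X p0 p3 p1 p2 = false) (n5 : T.X p0 p4 p1 p2 = false) (n8 : T.X p0 p4 p1 p3 = true) : False := by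
  have h2 := h
  unfold Table.OkA0 at h2
  rw [n1, n2, n5, n8] at h2
  exact bzA0_294_256 _ _ _ _ _ _ _ _ _ _ _ h2

theorem bzA0_40_40 : ∀ b0 b1 b2 b4 b6 b7 b8 b9 b10 b11 b12 b13 b14 : Bool,
    okA0 b0 b1 b2 true b4 true b6 b7 b8 b9 b10 b11 b12 b13 b14 = true → False := by
  decide +kernel

theorem zA0_40_40 {p0 p1 p2 p3 p4 : V} (h : T.OkA0 p0 p1 p2 p3 p4)
    (n3 : T.X p0 p1 p2 p4 = true) (n5 : T.X p0 p4 p1 p2 = true) : False := by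
  have h2 := h
  unfold Table.OkA0 at h2
  rw [n3, n5] at h2
  exact bzA0_40_40 _ _ _ _ _ _ _ _ _ _ _ _ _ h2

theorem bzA0_4612_516 : ∀ b0 b1 b3 b4 b5 b6 b7 b8 b10 b11 b13 b14 : Bool,
    okA0 b0 b1 true b3 b4 b5 b6 b7 b8 true b10 b11 false b13 b14 = true → False := by
  decide +kernel

theorem zA0_4612_516 {p0 p1 p2 p3 p4 : V} (h : T.OkA0 p0 p1 p2 p3 p4)
    (n2 : T.X p0 p3 p1 p2 = true) (n9 : T.X p0 p2 p3 p4 = true) (n12 : T.X p1 p2 p3 p4 = false) : False := by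
  have h2 := h
  unfold Table.OkA0 at h2
  rw [n2, n9, n12] at h2
  exact bzA0_4612_516 _ _ _ _ _ _ _ _ _ _ _ _ h2

theorem bzA0_4708_4100 : ∀ b0 b1 b3 b4 b7 b8 b10 b11 b13 b14 : Bool,
    okA0 b0 b1 true b3 b4 false false b7 b8 false b10 b11 true b13 b14 = true → False := by
  decide +kernel

theorem zA0_4708_4100 {p0 p1 p2 p3 p4 : V} (h : T.OkA0 p0 p1 p2 p3 p4)
    (n2 : T.X p0 p3 p1 p2 = true) (n5 : T.X p0 p4 p1 p2 = false) (n6 : T.X p0 p1 p3 p4 = false) (n9 : T.X p0 p2 p3 p4 = false) (n12 : T.X p1 p2 p3 p4 = true) : False := by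
  have h2 := h
  unfold Table.OkA0 at h2
  rw [n2, n5, n6, n9, n12] at h2
  exact bzA0_4708_4100 _ _ _ _ _ _ _ _ _ _ h2

theorem bzA0_720_16 : ∀ b0 b1 b2 b3 b5 b8 b10 b11 b12 b13 b14 : Bool,
    okA0 b0 b1 b2 b3 true b5 false false b8 false b10 b11 b12 b13 b14 = true → False := by
  decide +kernel

theorem zA0_720_16 {p0 p1 p2 p3 p4 : V} (h : T.OkA0 p0 p1 p2 p3 p4)
    (n4 : T.X p0 p2 p1 p4 = true) (n6 : T.X p0 p1 p3 p4 = false) (n7 : T.X p0 p3 p1 p4 = false) (n9 : T.X p0 p2 p3 p4 = false) : False := by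
  have h2 := h
  unfold Table.OkA0 at h2
  rw [n4, n6, n7, n9] at h2
  exact bzA0_720_16 _ _ _ _ _ _ _ _ _ _ _ h2

theorem bzA0_8456_264 : ∀ b0 b1 b2 b4 b5 b6 b7 b9 b10 b11 b12 b14 : Bool,
    okA0 b0 b1 b2 true b4 b5 b6 b7 true b9 b10 b11 b12 false b14 = true → False := by
  decide +kernel

theorem zA0_8456_264 {p0 p1 p2 p3 p4 : V} (h : T.OkA0 p0 p1 p2 p3 p4)
    (n3 : T.X p0 p1 p2 p4 = true) (n8 : T.X p0 p4 p1 p3 = true) (n13 : T.X p1 p3 p2 p4 = false) : False := by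
  have h2 := h
  unfold Table.OkA0 at h2
  rw [n3, n8, n13] at h2
  exact bzA0_8456_264 _ _ _ _ _ _ _ _ _ _ _ _ h2

theorem bzA0_9474_256 : ∀ b0 b2 b3 b4 b5 b6 b7 b9 b11 b12 b14 : Bool,
    okA0 b0 false b2 b3 b4 b5 b6 b7 true b9 false b11 b12 false b14 = true → False := by
  decide +kernel

theorem zA0_9474_256 {p0 p1 p2 p3 p4 : V} (h : T.OkA0 p0 p1 p2 p3 p4)
    (n1 : T.X p0 p2 p1 p3 = false) (n8 : T.X p0 p4 p1 p3 = true) (n10 : T.X p0 p3 p2 p4 = false) (n13 : T.X p1 p3 p2 p4 = false) : False := by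
  have h2 := h
  unfold Table.OkA0 at h2
  rw [n1, n8, n10, n13] at h2
  exact bzA0_9474_256 _ _ _ _ _ _ _ _ _ _ _ h2

theorem bzA0_9482_9224 : ∀ b0 b2 b4 b5 b6 b7 b9 b11 b12 b14 : Bool,
    okA0 b0 false b2 true b4 b5 b6 b7 false b9 true b11 b12 true b14 = true → False := by
  decide +kernel

theorem zA0_9482_9224 {p0 p1 p2 p3 p4 : V} (h : T.OkA0 p0 p1 p2 p3 p4)
    (n1 : T.X p0 p2 p1 p3 = false) (n3 : T.X p0 p1 p2 p4 = true) (n8 : T.X p0 p4 p1 p3 = false) (n10 : T.X p0 p3 p2 p4 = true) (n13 : T.X p1 p3 p2 p4 = true) : False := by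
  have h2 := h
  unfold Table.OkA0 at h2
  rw [n1, n3, n8, n10, n13] at h2
  exact bzA0_9482_9224 _ _ _ _ _ _ _ _ _ _ h2

theorem bzA1_1037_1032 : ∀ b1 b4 b5 b6 b7 b8 b9 b11 b12 b13 b14 : Bool,
    ok5a false b1 false true b4 b5 b6 b7 b8 b9 true b11 b12 b13 b14 = true → False := by
  decide +kernel

theorem zA1_1037_1032 {p0 p1 p2 p3 p4 : V} (h : T.Ok5a p0 p1 p2 p3 p4)
    (n0 : T.X p0 p1 p2 p3 = false) (n2 : T.X p0 p3 p1 p2 = false) (n3 : T.X p0 p1 p2 p4 = true) (n10 : T.X p0 p3 p2 p4 = true) : False := by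
  have h2 := h
  unfold Table.Ok5a at h2
  rw [n0, n2, n3, n10] at h2
  exact bzA1_1037_1032 _ _ _ _ _ _ _ _ _ _ _ h2

theorem bzA1_16401_17 : ∀ b1 b2 b3 b5 b6 b7 b8 b9 b10 b11 b12 b13 : Bool,
    ok5a true b1 b2 b3 true b5 b6 b7 b8 b9 b10 b11 b12 b13 false = true → False := by
  decide +kernel

theorem zA1_16401_17 {p0 p1 p2 p3 p4 : V} (h : T.Ok5a p0 p1 p2 p3 p4)
    (n0 : T.X p0 p1 p2 p3 = true) (n4 : T.X p0 p2 p1 p4 = true) (n14 : T.X p1 p4 p2 p3 = false) : False := by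
  have h2 := h
  unfold Table.Ok5a at h2
  rw [n0, n4, n14] at h2
  exact bzA1_16401_17 _ _ _ _ _ _ _ _ _ _ _ _ h2

theorem bzA1_18560_2176 : ∀ b0 b1 b2 b3 b4 b5 b6 b8 b9 b10 b12 b13 : Bool,
    ok5a b0 b1 b2 b3 b4 b5 b6 true b8 b9 b10 true b12 b13 false = true → False := by
  decide +kernel

theorem zA1_18560_2176 {p0 p1 p2 p3 p4 : V} (h : T.Ok5a p0 p1 p2 p3 p4)
    (n7 : T.X p0 p3 p1 p4 = true) (n11 : T.X p0 p4 p2 p3 = true) (n14 : T.X p1 p4 p2 p3 = false) : False := by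
  have h2 := h
  unfold Table.Ok5a at h2
  rw [n7, n11, n14] at h2
  exact bzA1_18560_2176 _ _ _ _ _ _ _ _ _ _ _ _ h2

theorem bzA1_18577_16513 : ∀ b1 b2 b3 b5 b6 b8 b9 b10 b12 b13 : Bool,
    ok5a true b1 b2 b3 false b5 b6 true b8 b9 b10 false b12 b13 true = true → False := by
  decide +kernel

theorem zA1_18577_16513 {p0 p1 p2 p3 p4 : V} (h : T.Ok5a p0 p1 p2 p3 p4)
    (n0 : T.X p0 p1 p2 p3 = true) (n4 : T.X p0 p2 p1 p4 = false) (n7 : T.X p0 p3 p1 p4 = true) (n11 : T.X p0 p4 p2 p3 = false) (n14 : T.X p1 p4 p2 p3 = true) : False := by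
  have h2 := h
  unfold Table.Ok5a at h2
  rw [n0, n4, n7, n11, n14] at h2
  exact bzA1_18577_16513 _ _ _ _ _ _ _ _ _ _ h2

theorem bzA1_2305_257 : ∀ b1 b2 b3 b4 b5 b6 b7 b9 b10 b12 b13 b14 : Bool,
    ok5a true b1 b2 b3 b4 b5 b6 b7 true b9 b10 false b12 b13 b14 = true → False := by
  decide +kernel

theorem zA1_2305_257 {p0 p1 p2 p3 p4 : V} (h : T.Ok5a p0 p1 p2 p3 p4)
    (n0 : T.X p0 p1 p2 p3 = true) (n8 : T.X p0 p4 p1 p3 = true) (n11 : T.X p0 p4 p2 p3 = false) : False := by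
  have h2 := h
  unfold Table.Ok5a at h2
  rw [n0, n8, n11] at h2
  exact bzA1_2305_257 _ _ _ _ _ _ _ _ _ _ _ _ h2

theorem bzA1_292_260 : ∀ b0 b1 b3 b4 b6 b7 b9 b10 b11 b12 b13 b14 : Bool,
    ok5a b0 b1 true b3 b4 false b6 b7 true b9 b10 b11 b12 b13 b14 = true → False := by
  decide +kernel

theorem zA1_292_260 {p0 p1 p2 p3 p4 : V} (h : T.Ok5a p0 p1 p2 p3 p4)
    (n2 : T.X p0 p3 p1 p2 = true) (n5 : T.X p0 p4 p1 p2 = false) (n8 : T.X p0 p4 p1 p3 = true) : False := by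
  have h2 := h
  unfold Table.Ok5a at h2
  rw [n2, n5, n8] at h2
  exact bzA1_292_260 _ _ _ _ _ _ _ _ _ _ _ _ h2

theorem bzA1_4612_516 : ∀ b0 b1 b3 b4 b5 b6 b7 b8 b10 b11 b13 b14 : Bool,
    ok5a b0 b1 true b3 b4 b5 b6 b7 b8 true b10 b11 false b13 b14 = true → False := by
  decide +kernel

theorem zA1_4612_516 {p0 p1 p2 p3 p4 : V} (h : T.Ok5a p0 p1 p2 p3 p4)
    (n2 : T.X p0 p3 p1 p2 = true) (n9 : T.X p0 p2 p3 p4 = true) (n12 : T.X p1 p2 p3 p4 = false) : False := by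
  have h2 := h
  unfold Table.Ok5a at h2
  rw [n2, n9, n12] at h2
  exact bzA1_4612_516 _ _ _ _ _ _ _ _ _ _ _ _ h2

theorem bzA1_4708_4096 : ∀ b0 b1 b3 b4 b7 b8 b10 b11 b13 b14 : Bool,
    ok5a b0 b1 false b3 b4 false false b7 b8 false b10 b11 true b13 b14 = true → False := by
  decide +kernel

theorem zA1_4708_4096 {p0 p1 p2 p3 p4 : V} (h : T.Ok5a p0 p1 p2 p3 p4)
    (n2 : T.X p0 p3 p1 p2 = false) (n5 : T.X p0 p4 p1 p2 = false) (n6 : T.X p0 p1 p3 p4 = false) (n9 : T.X p0 p2 p3 p4 = false) (n12 : T.X p1 p2 p3 p4 = true) : False := by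
  have h2 := h
  unfold Table.Ok5a at h2
  rw [n2, n5, n6, n9, n12] at h2
  exact bzA1_4708_4096 _ _ _ _ _ _ _ _ _ _ h2

theorem bzA1_4708_4672 : ∀ b0 b1 b3 b4 b7 b8 b10 b11 b13 b14 : Bool,
    ok5a b0 b1 false b3 b4 false true b7 b8 true b10 b11 true b13 b14 = true → False := by
  decide +kernel

theorem zA1_4708_4672 {p0 p1 p2 p3 p4 : V} (h : T.Ok5a p0 p1 p2 p3 p4)
    (n2 : T.X p0 p3 p1 p2 = false) (n5 : T.X p0 p4 p1 p2 = false) (n6 : T.X p0 p1 p3 p4 = true) (n9 : T.X p0 p2 p3 p4 = true) (n12 : T.X p1 p2 p3 p4 = true) : False := by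
  have h2 := h
  unfold Table.Ok5a at h2
  rw [n2, n5, n6, n9, n12] at h2
  exact bzA1_4708_4672 _ _ _ _ _ _ _ _ _ _ h2

theorem bzA1_9218_1026 : ∀ b0 b2 b3 b4 b5 b6 b7 b8 b9 b11 b12 b14 : Bool,
    ok5a b0 true b2 b3 b4 b5 b6 b7 b8 b9 true b11 b12 false b14 = true → False := by
  decide +kernel

theorem zA1_9218_1026 {p0 p1 p2 p3 p4 : V} (h : T.Ok5a p0 p1 p2 p3 p4)
    (n1 : T.X p0 p2 p1 p3 = true) (n10 : T.X p0 p3 p2 p4 = true) (n13 : T.X p1 p3 p2 p4 = false) : False := by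
  have h2 := h
  unfold Table.Ok5a at h2
  rw [n1, n10, n13] at h2
  exact bzA1_9218_1026 _ _ _ _ _ _ _ _ _ _ _ _ h2

theorem bzA1_9482_8194 : ∀ b0 b2 b4 b5 b6 b7 b9 b11 b12 b14 : Bool,
    ok5a b0 true b2 false b4 b5 b6 b7 false b9 false b11 b12 true b14 = true → False := by
  decide +kernel

theorem zA1_9482_8194 {p0 p1 p2 p3 p4 : V} (h : T.Ok5a p0 p1 p2 p3 p4)
    (n1 : T.X p0 p2 p1 p3 = true) (n3 : T.X p0 p1 p2 p4 = false) (n8 : T.X p0 p4 p1 p3 = false) (n10 : T.X p0 p3 p2 p4 = false) (n13 : T.X p1 p3 p2 p4 = true) : False := by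
  have h2 := h
  unfold Table.Ok5a at h2
  rw [n1, n3, n8, n10, n13] at h2
  exact bzA1_9482_8194 _ _ _ _ _ _ _ _ _ _ h2

theorem bzA2_1536_1536 : ∀ b0 b1 b2 b3 b4 b5 b6 b7 b8 b11 b12 b13 b14 : Bool,
    okA2 b0 b1 b2 b3 b4 b5 b6 b7 b8 true true b11 b12 b13 b14 = true → False := by
  decide +kernel

theorem zA2_1536_1536 {p0 p1 p2 p3 p4 : V} (h : T.OkA2 p0 p1 p2 p3 p4)
    (n9 : T.X p0 p2 p3 p4 = true) (n10 : T.X p0 p3 p2 p4 = true) : False := by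
  have h2 := h
  unfold Table.OkA2 at h2
  rw [n9, n10] at h2
  exact bzA2_1536_1536 _ _ _ _ _ _ _ _ _ _ _ _ _ h2

theorem bzA2_16513_129 : ∀ b1 b2 b3 b4 b5 b6 b8 b9 b10 b11 b12 b13 : Bool,
    okA2 true b1 b2 b3 b4 b5 b6 true b8 b9 b10 b11 b12 b13 false = true → False := by
  decide +kernel

theorem zA2_16513_129 {p0 p1 p2 p3 p4 : V} (h : T.OkA2 p0 p1 p2 p3 p4)
    (n0 : T.X p0 p1 p2 p3 = true) (n7 : T.X p0 p3 p1 p4 = true) (n14 : T.X p1 p4 p2 p3 = false) : False := by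
  have h2 := h
  unfold Table.OkA2 at h2
  rw [n0, n7, n14] at h2
  exact bzA2_16513_129 _ _ _ _ _ _ _ _ _ _ _ _ h2

theorem bzA2_18560_2176 : ∀ b0 b1 b2 b3 b4 b5 b6 b8 b9 b10 b12 b13 : Bool,
    okA2 b0 b1 b2 b3 b4 b5 b6 true b8 b9 b10 true b12 b13 false = true → False := by
  decide +kernel

theorem zA2_18560_2176 {p0 p1 p2 p3 p4 : V} (h : T.OkA2 p0 p1 p2 p3 p4)
    (n7 : T.X p0 p3 p1 p4 = true) (n11 : T.X p0 p4 p2 p3 = true) (n14 : T.X p1 p4 p2 p3 = false) : False := by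
  have h2 := h
  unfold Table.OkA2 at h2
  rw [n7, n11, n14] at h2
  exact bzA2_18560_2176 _ _ _ _ _ _ _ _ _ _ _ _ h2

theorem bzA2_18577_16512 : ∀ b1 b2 b3 b5 b6 b8 b9 b10 b12 b13 : Bool,
    okA2 false b1 b2 b3 false b5 b6 true b8 b9 b10 false b12 b13 true = true → False := by
  decide +kernel

theorem zA2_18577_16512 {p0 p1 p2 p3 p4 : V} (h : T.OkA2 p0 p1 p2 p3 p4)
    (n0 : T.X p0 p1 p2 p3 = false) (n4 : T.X p0 p2 p1 p4 = false) (n7 : T.X p0 p3 p1 p4 = true) (n11 : T.X p0 p4 p2 p3 = false) (n14 : T.X p1 p4 p2 p3 = true) : False := by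
  have h2 := h
  unfold Table.OkA2 at h2
  rw [n0, n4, n7, n11, n14] at h2
  exact bzA2_18577_16512 _ _ _ _ _ _ _ _ _ _ h2

theorem bzA2_2625_64 : ∀ b1 b2 b3 b4 b5 b7 b8 b10 b12 b13 b14 : Bool,
    okA2 false b1 b2 b3 b4 b5 true b7 b8 false b10 false b12 b13 b14 = true → False := by
  decide +kernel

theorem zA2_2625_64 {p0 p1 p2 p3 p4 : V} (h : T.OkA2 p0 p1 p2 p3 p4)
    (n0 : T.X p0 p1 p2 p3 = false) (n6 : T.X p0 p1 p3 p4 = true) (n9 : T.X p0 p2 p3 p4 = false) (n11 : T.X p0 p4 p2 p3 = false) : False := by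
  have h2 := h
  unfold Table.OkA2 at h2
  rw [n0, n6, n9, n11] at h2
  exact bzA2_2625_64 _ _ _ _ _ _ _ _ _ _ _ h2

theorem bzA2_384_384 : ∀ b0 b1 b2 b3 b4 b5 b6 b9 b10 b11 b12 b13 b14 : Bool,
    okA2 b0 b1 b2 b3 b4 b5 b6 true true b9 b10 b11 b12 b13 b14 = true → False := by
  decide +kernel

theorem zA2_384_384 {p0 p1 p2 p3 p4 : V} (h : T.OkA2 p0 p1 p2 p3 p4)
    (n7 : T.X p0 p3 p1 p4 = true) (n8 : T.X p0 p4 p1 p3 = true) : False := by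
  have h2 := h
  unfold Table.OkA2 at h2
  rw [n7, n8] at h2
  exact bzA2_384_384 _ _ _ _ _ _ _ _ _ _ _ _ _ h2

theorem bzA2_4644_4 : ∀ b0 b1 b3 b4 b6 b7 b8 b10 b11 b13 b14 : Bool,
    okA2 b0 b1 true b3 b4 false b6 b7 b8 false b10 b11 false b13 b14 = true → False := by
  decide +kernel

theorem zA2_4644_4 {p0 p1 p2 p3 p4 : V} (h : T.OkA2 p0 p1 p2 p3 p4)
    (n2 : T.X p0 p3 p1 p2 = true) (n5 : T.X p0 p4 p1 p2 = false) (n9 : T.X p0 p2 p3 p4 = false) (n12 : T.X p1 p2 p3 p4 = false) : False := by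
  have h2 := h
  unfold Table.OkA2 at h2
  rw [n2, n5, n9, n12] at h2
  exact bzA2_4644_4 _ _ _ _ _ _ _ _ _ _ _ h2

theorem bzA2_4708_4132 : ∀ b0 b1 b3 b4 b7 b8 b10 b11 b13 b14 : Bool,
    okA2 b0 b1 true b3 b4 true false b7 b8 false b10 b11 true b13 b14 = true → False := by
  decide +kernel

theorem zA2_4708_4132 {p0 p1 p2 p3 p4 : V} (h : T.OkA2 p0 p1 p2 p3 p4)
    (n2 : T.X p0 p3 p1 p2 = true) (n5 : T.X p0 p4 p1 p2 = true) (n6 : T.X p0 p1 p3 p4 = false) (n9 : T.X p0 p2 p3 p4 = false) (n12 : T.X p1 p2 p3 p4 = true) : False := by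
  have h2 := h
  unfold Table.OkA2 at h2
  rw [n2, n5, n6, n9, n12] at h2
  exact bzA2_4708_4132 _ _ _ _ _ _ _ _ _ _ h2

theorem bzA2_48_48 : ∀ b0 b1 b2 b3 b6 b7 b8 b9 b10 b11 b12 b13 b14 : Bool,
    okA2 b0 b1 b2 b3 true true b6 b7 b8 b9 b10 b11 b12 b13 b14 = true → False := by
  decide +kernel

theorem zA2_48_48 {p0 p1 p2 p3 p4 : V} (h : T.OkA2 p0 p1 p2 p3 p4)
    (n4 : T.X p0 p2 p1 p4 = true) (n5 : T.X p0 p4 p1 p2 = true) : False := by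
  have h2 := h
  unfold Table.OkA2 at h2
  rw [n4, n5] at h2
  exact bzA2_48_48 _ _ _ _ _ _ _ _ _ _ _ _ _ h2

theorem bzA2_8202_10 : ∀ b0 b2 b4 b5 b6 b7 b8 b9 b10 b11 b12 b14 : Bool,
    okA2 b0 true b2 true b4 b5 b6 b7 b8 b9 b10 b11 b12 false b14 = true → False := by
  decide +kernel

theorem zA2_8202_10 {p0 p1 p2 p3 p4 : V} (h : T.OkA2 p0 p1 p2 p3 p4)
    (n1 : T.X p0 p2 p1 p3 = true) (n3 : T.X p0 p1 p2 p4 = true) (n13 : T.X p1 p3 p2 p4 = false) : False := by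
  have h2 := h
  unfold Table.OkA2 at h2
  rw [n1, n3, n13] at h2
  exact bzA2_8202_10 _ _ _ _ _ _ _ _ _ _ _ _ h2

theorem bzA2_9472_1280 : ∀ b0 b1 b2 b3 b4 b5 b6 b7 b9 b11 b12 b14 : Bool,
    okA2 b0 b1 b2 b3 b4 b5 b6 b7 true b9 true b11 b12 false b14 = true → False := by
  decide +kernel

theorem zA2_9472_1280 {p0 p1 p2 p3 p4 : V} (h : T.OkA2 p0 p1 p2 p3 p4)
    (n8 : T.X p0 p4 p1 p3 = true) (n10 : T.X p0 p3 p2 p4 = true) (n13 : T.X p1 p3 p2 p4 = false) : False := by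
  have h2 := h
  unfold Table.OkA2 at h2
  rw [n8, n10, n13] at h2
  exact bzA2_9472_1280 _ _ _ _ _ _ _ _ _ _ _ _ h2

theorem bzA2_9482_8450 : ∀ b0 b2 b4 b5 b6 b7 b9 b11 b12 b14 : Bool,
    okA2 b0 true b2 false b4 b5 b6 b7 true b9 false b11 b12 true b14 = true → False := by
  decide +kernel

theorem zA2_9482_8450 {p0 p1 p2 p3 p4 : V} (h : T.OkA2 p0 p1 p2 p3 p4)
    (n1 : T.X p0 p2 p1 p3 = true) (n3 : T.X p0 p1 p2 p4 = false) (n8 : T.X p0 p4 p1 p3 = true) (n10 : T.X p0 p3 p2 p4 = false) (n13 : T.X p1 p3 p2 p4 = true) : False := by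
  have h2 := h
  unfold Table.OkA2 at h2
  rw [n1, n3, n8, n10, n13] at h2
  exact bzA2_9482_8450 _ _ _ _ _ _ _ _ _ _ h2

theorem bzsp_1156_1024 : ∀ b0 b1 b3 b4 b5 b6 b8 b9 b11 b12 b13 b14 : Bool,
    sp5 b0 b1 false b3 b4 b5 b6 false b8 b9 true b11 b12 b13 b14 = true → False := by
  decide +kernel

theorem zsp_1156_1024 {a p0 p1 p2 p3 p4 : V} (h : T.Sp5 a p0 p1 p2 p3 p4)
    (n2 : T.alt a p0 p3 p1 p2 = false) (n7 : T.alt a p0 p3 p1 p4 = false) (n10 : T.alt a p0 p3 p2 p4 = true) : False := by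
  have h2 := h
  unfold Table.Sp5 at h2
  rw [n2, n7, n10] at h2
  exact bzsp_1156_1024 _ _ _ _ _ _ _ _ _ _ _ _ h2

theorem bzsp_16528_16384 : ∀ b0 b1 b2 b3 b5 b6 b8 b9 b10 b11 b12 b13 : Bool,
    sp5 b0 b1 b2 b3 false b5 b6 false b8 b9 b10 b11 b12 b13 true = true → False := by
  decide +kernel

theorem zsp_16528_16384 {a p0 p1 p2 p3 p4 : V} (h : T.Sp5 a p0 p1 p2 p3 p4)
    (n4 : T.alt a p0 p2 p1 p4 = false) (n7 : T.alt a p0 p3 p1 p4 = false) (n14 : T.alt a p1 p4 p2 p3 = true) : False := by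
  have h2 := h
  unfold Table.Sp5 at h2
  rw [n4, n7, n14] at h2
  exact bzsp_16528_16384 _ _ _ _ _ _ _ _ _ _ _ _ h2

theorem bzsp_18433_16384 : ∀ b1 b2 b3 b4 b5 b6 b7 b8 b9 b10 b12 b13 : Bool,
    sp5 false b1 b2 b3 b4 b5 b6 b7 b8 b9 b10 false b12 b13 true = true → False := by
  decide +kernel

theorem zsp_18433_16384 {a p0 p1 p2 p3 p4 : V} (h : T.Sp5 a p0 p1 p2 p3 p4)
    (n0 : T.alt a p0 p1 p2 p3 = false) (n11 : T.alt a p0 p4 p2 p3 = false) (n14 : T.alt a p1 p4 p2 p3 = true) : False := by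
  have h2 := h
  unfold Table.Sp5 at h2
  rw [n0, n11, n14] at h2
  exact bzsp_18433_16384 _ _ _ _ _ _ _ _ _ _ _ _ h2

theorem bzsp_2336_2048 : ∀ b0 b1 b2 b3 b4 b6 b7 b9 b10 b12 b13 b14 : Bool,
    sp5 b0 b1 b2 b3 b4 false b6 b7 false b9 b10 true b12 b13 b14 = true → False := by
  decide +kernel

theorem zsp_2336_2048 {a p0 p1 p2 p3 p4 : V} (h : T.Sp5 a p0 p1 p2 p3 p4)
    (n5 : T.alt a p0 p4 p1 p2 = false) (n8 : T.alt a p0 p4 p1 p3 = false) (n11 : T.alt a p0 p4 p2 p3 = true) : False := by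
  have h2 := h
  unfold Table.Sp5 at h2
  rw [n5, n8, n11] at h2
  exact bzsp_2336_2048 _ _ _ _ _ _ _ _ _ _ _ _ h2

theorem bzsp_4132_4096 : ∀ b0 b1 b3 b4 b6 b7 b8 b9 b10 b11 b13 b14 : Bool,
    sp5 b0 b1 false b3 b4 false b6 b7 b8 b9 b10 b11 true b13 b14 = true → False := by
  decide +kernel

theorem zsp_4132_4096 {a p0 p1 p2 p3 p4 : V} (h : T.Sp5 a p0 p1 p2 p3 p4)
    (n2 : T.alt a p0 p3 p1 p2 = false) (n5 : T.alt a p0 p4 p1 p2 = false) (n12 : T.alt a p1 p2 p3 p4 = true) : False := by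
  have h2 := h
  unfold Table.Sp5 at h2
  rw [n2, n5, n12] at h2
  exact bzsp_4132_4096 _ _ _ _ _ _ _ _ _ _ _ _ h2

theorem bzsp_4672_4096 : ∀ b0 b1 b2 b3 b4 b5 b7 b8 b10 b11 b13 b14 : Bool,
    sp5 b0 b1 b2 b3 b4 b5 false b7 b8 false b10 b11 true b13 b14 = true → False := by
  decide +kernel

theorem zsp_4672_4096 {a p0 p1 p2 p3 p4 : V} (h : T.Sp5 a p0 p1 p2 p3 p4)
    (n6 : T.alt a p0 p1 p3 p4 = false) (n9 : T.alt a p0 p2 p3 p4 = false) (n12 : T.alt a p1 p2 p3 p4 = true) : False := by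
  have h2 := h
  unfold Table.Sp5 at h2
  rw [n6, n9, n12] at h2
  exact bzsp_4672_4096 _ _ _ _ _ _ _ _ _ _ _ _ h2

theorem bzsp_530_512 : ∀ b0 b2 b3 b5 b6 b7 b8 b10 b11 b12 b13 b14 : Bool,
    sp5 b0 false b2 b3 false b5 b6 b7 b8 true b10 b11 b12 b13 b14 = true → False := by
  decide +kernel

theorem zsp_530_512 {a p0 p1 p2 p3 p4 : V} (h : T.Sp5 a p0 p1 p2 p3 p4)
    (n1 : T.alt a p0 p2 p1 p3 = false) (n4 : T.alt a p0 p2 p1 p4 = false) (n9 : T.alt a p0 p2 p3 p4 = true) : False := by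
  have h2 := h
  unfold Table.Sp5 at h2
  rw [n1, n4, n9] at h2
  exact bzsp_530_512 _ _ _ _ _ _ _ _ _ _ _ _ h2

theorem bzsp_73_64 : ∀ b1 b2 b4 b5 b7 b8 b9 b10 b11 b12 b13 b14 : Bool,
    sp5 false b1 b2 false b4 b5 true b7 b8 b9 b10 b11 b12 b13 b14 = true → False := by
  decide +kernel

theorem zsp_73_64 {a p0 p1 p2 p3 p4 : V} (h : T.Sp5 a p0 p1 p2 p3 p4)
    (n0 : T.alt a p0 p1 p2 p3 = false) (n3 : T.alt a p0 p1 p2 p4 = false) (n6 : T.alt a p0 p1 p3 p4 = true) : False := by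
  have h2 := h
  unfold Table.Sp5 at h2
  rw [n0, n3, n6] at h2
  exact bzsp_73_64 _ _ _ _ _ _ _ _ _ _ _ _ h2

theorem bzsp_8450_8192 : ∀ b0 b2 b3 b4 b5 b6 b7 b9 b10 b11 b12 b14 : Bool,
    sp5 b0 false b2 b3 b4 b5 b6 b7 false b9 b10 b11 b12 true b14 = true → False := by
  decide +kernel

theorem zsp_8450_8192 {a p0 p1 p2 p3 p4 : V} (h : T.Sp5 a p0 p1 p2 p3 p4)
    (n1 : T.alt a p0 p2 p1 p3 = false) (n8 : T.alt a p0 p4 p1 p3 = false) (n13 : T.alt a p1 p3 p2 p4 = true) : False := by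
  have h2 := h
  unfold Table.Sp5 at h2
  rw [n1, n8, n13] at h2
  exact bzsp_8450_8192 _ _ _ _ _ _ _ _ _ _ _ _ h2

theorem bzsp_9224_8192 : ∀ b0 b1 b2 b4 b5 b6 b7 b8 b9 b11 b12 b14 : Bool,
    sp5 b0 b1 b2 false b4 b5 b6 b7 b8 b9 false b11 b12 true b14 = true → False := by
  decide +kernel

theorem zsp_9224_8192 {a p0 p1 p2 p3 p4 : V} (h : T.Sp5 a p0 p1 p2 p3 p4)
    (n3 : T.alt a p0 p1 p2 p4 = false) (n10 : T.alt a p0 p3 p2 p4 = false) (n13 : T.alt a p1 p3 p2 p4 = true) : False := by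
  have h2 := h
  unfold Table.Sp5 at h2
  rw [n3, n10, n13] at h2
  exact bzsp_9224_8192 _ _ _ _ _ _ _ _ _ _ _ _ h2

end H53P
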