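import Pool.Agent.Lib.H63L.GC1
import Pool.Agent.Lib.H63L.GC2
import Pool.Agent.Lib.H63L.GC3
import Pool.Agent.Lib.H63L.GC4

/-!
# H63L, generated lemma GV: reversing an edge reverses the order of the rays

Generated resolution proofs.
-/

set_option linter.unusedVariables false
set_option autoImplicit false

namespace H53P

section

variable {V : Type} {T : Table V}


end

variable {V : Type} (T : Table V)

include T

theorem fl_rv {p x y w z : V} (hN : [p, x, y, w, z].Nodup) (h0 : T.X p w x y = true) (h1 : T.X p z x y = true)
    (h2 : T.bfo p x y w z = true) (h3 : T.bfo p y x z w = false) : False := by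
  have B19 : T.bfo p x y w z = (bif T.alt p x y w z then T.X p w x z else T.alt p x z y w) :=
    T.bfo_eq rfl rfl (T.as2 p x z w y)
  have B20 : T.bfo p y x z w = (bif T.alt p x y w z then T.X p z y w else T.alt p x z y w) :=
    T.bfo_eq (T.as3 p y x z w) rfl (T.as5 p y w z x)
  have k0 : T.Ok5 p x y w z := T.n5 hN (.cons_cons _ (.cons_cons _ (.cons_cons _ (.cons_cons _ (.cons_cons _ (List.nil_sublist _))))))
  have g6 := T.q12 p x y z
  have g14 := T.q02 x y w z
  have g95 := fun ha : T.alt p x y w z = true => zA0_18576_128 (T.okA0 k0 ha)
  have g107 := fun ha : T.alt p x y w z = true => zA0_4132_36 (T.okA0 k0 ha)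
  have g367 : T.X p w x y = true := h0
  have g368 : T.X p z x y = true := h1
  have g370 := it2 B19
  have g372 := it4 B19
  have g373 : T.bfo p x y w z = true := h2
  have g374 := it1 B20
  have g376 := it3 B20
  have g378 : T.bfo p y x z w = false := h3
  have s382 := fun (n0 : T.X p y x z = true) => g6 n0 g368
  have w382 := bf s382
  have s383 : T.alt p x y w z = false → False := fun n0 => by
    have u0 := bt fun t => g372 g373 n0 t
    exact g376 g378 n0 u0
  have w383 := bt s383
  have s386 := fun (n0 : T.X x y w z = false) => g107 w383 g367 g368 n0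
  have w386 := bt s386
  have s387 := fun (n0 : T.X p w x z = false) => g370 g373 w383 n0
  have w387 := bt s387
  have s388 := fun (n0 : T.X p z y w = true) => g374 g378 w383 n0
  have w388 := bf s388
  have s390 := fun (n0 : T.X x z y w = true) => g14 w386 n0
  have w390 := bf s390
  exact g95 w383 w382 w387 w388 w390

end H53P
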