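import Pool.Agent.Lib.H63L.A6

/-!
# H63L, file V2: two free rays (abstract form)

The descent of A5 works as long as the arc does not contain the free ray `z0`. From a first crossing two descents
start, in the two directions of the edge, and their arcs are disjoint.
-/

set_option autoImplicit false

namespace H63L

open H97B

variable {α : Type} [LinearOrder α] {cr : α → α → α → Prop} {nx : α → α → α → α → Prop}
  {be : α → α → α → α → Prop} {lt : α → α → α → α → α → Prop}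

/-- One step of the descent; all rays of `U` different from `z0` are crossed, and `z0` is not in the arc. -/
theorem state_step2 (h : Fan cr nx be lt) {U : Finset α} {F : Finset (α × α)}
    (hsw : ∀ a b, (a, b) ∈ F → (b, a) ∈ F) (hFU : ∀ a b, (a, b) ∈ F → a ∈ U ∧ a ≠ b)
    (hpl : ∀ a b c d, (a, b) ∈ F → (c, d) ∈ F → ¬ SameE a b c d → nx a b c d)
    {z0 : α} (hall : ∀ z ∈ U, z ≠ z0 → ∃ a b, (a, b) ∈ F ∧ cr a b z) {a b r s : α}
    (hs : State cr be lt U F a b r s) (hz0 : ¬ In a r s z0) :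
    ∃ a' b' r' s', State cr be lt U F a' b' r' s' ∧
      (∀ y, In a' r' s' y → In a r s y) ∧ ∃ t ∈ U, In a r s t ∧ ¬ In a' r' s' t := by
  classical
  obtain ⟨b1, b2, hb1, hb2, hb3, hb4⟩ := hs.blk
  obtain ⟨c0, d0, hc1, hc2, hc3⟩ := first_edge h hpl (r := s) ⟨b1, b2, hb1, hb2⟩
  have hsw' : ∀ {x y z w : α}, SameE x y z w → SameE y x z w := by
    rintro x y z w (⟨h1, h2⟩ | ⟨h1, h2⟩)
    · exact Or.inr ⟨h2, h1⟩
    · exact Or.inl ⟨h2, h1⟩
  have hsy' : ∀ {x y z w : α}, SameE x y z w → SameE z w x y := by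
    rintro x y z w (⟨h1, h2⟩ | ⟨h1, h2⟩)
    · exact Or.inl ⟨h1.symm, h2.symm⟩
    · exact Or.inr ⟨h2.symm, h1.symm⟩
  have has : a ≠ s := by
    rcases hs.sab with h1 | h1
    · rw [h1]
      exact (hFU a b hs.mem).2
    · exact (h.cne h1.1).2.1.symm
  have har : a ≠ r := (h.cne hs.rab).2.1.symm
  -- the configuration of a first edge
  have mkc : ∀ c d, (c, d) ∈ F → cr c d s →
      (∀ c' d', (c', d') ∈ F → cr c' d' s → ¬ SameE c d c' d' → ¬ lt s c' d' c d) →
      Cfg cr nx be lt a b r s c d := by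
    intro c d hcd hcs hf
    have diff : ¬ SameE a b c d := by
      intro hsame
      by_cases hsb : s = b
      · have h1 := h.cne hcs
        rcases hsame with ⟨h2, h3⟩ | ⟨h2, h3⟩
        · exact h1.2.2 (hsb.trans h3)
        · exact h1.2.1 (hsb.trans h3)
      · have hab : cr a b s := by
          rcases hs.sab with h1 | h1
          · exact absurd h1 hsb
          · exact h1.1
        have hl := hb4 hsb
        rcases hsame with ⟨h2, h3⟩ | ⟨h2, h3⟩
        · subst h2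
          subst h3
          exact hf b1 b2 hb1 hb2 hb3 hl
        · subst h2
          subst h3
          have hl2 := h.lts2 hab hb2 (hpl _ _ _ _ hs.mem hb1 hb3) hb3 hl
          exact hf b1 b2 hb1 hb2 (fun h5 => hb3 (hsw' h5)) hl2
    have hnx : nx a b c d := hpl _ _ _ _ hs.mem hcd diff
    refine ⟨(hFU a b hs.mem).2, (hFU c d hcd).2, hs.rab, hs.rs, hs.sab, hcs, hnx, diff, ?_, ?_,
      hs.nob c (hFU c d hcd).1, hs.nob d (hFU d c (hsw c d hcd)).1⟩
    · intro hsb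
      have hab : cr a b s := by
        rcases hs.sab with h1 | h1
        · exact absurd h1 hsb
        · exact h1.1
      rcases h.ltt hab hcs hnx diff with h1 | h1
      · exact absurd h1 (hf a b hs.mem hab fun h5 => diff (hsy' h5))
      · exact h1
    · intro hcr
      exact hs.free c d hcd hcr diff
  -- the first property for the reversed edge
  have frev : ∀ c d, (c, d) ∈ F → cr c d s →
      (∀ c' d', (c', d') ∈ F → cr c' d' s → ¬ SameE c d c' d' → ¬ lt s c' d' c d) →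
      (∀ c' d', (c', d') ∈ F → cr c' d' s → ¬ SameE d c c' d' → ¬ lt s c' d' d c) := by
    intro c d hcd hcs hf c' d' h1 h2 h3 h4
    have h5 := h.lts2 (h.crs hcs) h2 (hpl _ _ _ _ (hsw c d hcd) h1 h3) h3 h4
    exact hf c' d' h1 h2 (fun h6 => h3 (hsw' h6)) h5
  -- the main step
  have key : ∀ c d, (c, d) ∈ F → cr c d s →
      (∀ c' d', (c', d') ∈ F → cr c' d' s → ¬ SameE c d c' d' → ¬ lt s c' d' c d) →
      In a r s c → ¬ In a r s d →
      ∃ a' b' r' s', State cr be lt U F a' b' r' s' ∧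
        (∀ y, In a' r' s' y → In a r s y) ∧ ∃ t ∈ U, In a r s t ∧ ¬ In a' r' s' t := by
    intro c d hcd hcs hf hic hid
    have hcfg := mkc c d hcd hcs hf
    obtain ⟨r', t, hst, hr', ht⟩ := state_of_first (U := U) h (hsw c d hcd) (h.crs hcs) hs.sU
      (hFU c d hcd).1 (frev c d hcd hcs hf) (hall c (hFU c d hcd).1 (fun e => hz0 (e ▸ hic)))
    have h1 : r' = s ∨ In a r s r' := by
      rcases hr' with h2 | ⟨h2, h3, h4⟩
      · exact Or.inl h2
      · exact Or.inr (h.fact2 hcfg hic hid h3 h2 h4 (hs.nob r' hst.rU))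
    have h2 : In a r s t := by
      rcases ht with h3 | ⟨h3, h4, h5⟩
      · rw [h3]
        exact hic
      · exact h.fact2 hcfg hic hid h4 h3 h5 (hs.nob t hst.sU)
    refine ⟨d, c, r', t, hst, fun y hy => ?_, t, hst.sU, h2, fun h3 => h3.2.2.1 rfl⟩
    exact arc_sub hs.rs has har hid (h.cne hcs).2.2.symm h1 h2 hst.rs hy
  rcases h.fact1 (mkc c0 d0 hc1 hc2 hc3) with ⟨h1, h2⟩ | ⟨h1, h2⟩
  · exact key c0 d0 hc1 hc2 hc3 h1 h2
  · exact key d0 c0 (hsw c0 d0 hc1) (h.crs hc2) (frev c0 d0 hc1 hc2 hc3) h1 h2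

/-- there is no state whose arc avoids `z0` -/
theorem no_state (h : Fan cr nx be lt) {U : Finset α} {F : Finset (α × α)}
    (hsw : ∀ a b, (a, b) ∈ F → (b, a) ∈ F) (hFU : ∀ a b, (a, b) ∈ F → a ∈ U ∧ a ≠ b)
    (hpl : ∀ a b c d, (a, b) ∈ F → (c, d) ∈ F → ¬ SameE a b c d → nx a b c d)
    {z0 : α} (hall : ∀ z ∈ U, z ≠ z0 → ∃ a b, (a, b) ∈ F ∧ cr a b z) {a b r s : α}
    (hs : State cr be lt U F a b r s) (hz0 : ¬ In a r s z0) : False := by
  classical
  have hno : ∀ (n : ℕ) (a b r s : α), State cr be lt U F a b r s → ¬ In a r s z0 →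
      (U.filter fun y => In a r s y).card = n → False := by
    intro n
    induction n using Nat.strong_induction_on with
    | _ n ih =>
      intro a b r s hs hz0 hn
      obtain ⟨a', b', r', s', hs', hsub, t, htU, ht1, ht2⟩ := state_step2 h hsw hFU hpl hall hs hz0
      refine ih _ ?_ a' b' r' s' hs' (fun h1 => hz0 (hsub _ h1)) rfl
      rw [← hn]
      refine Finset.card_lt_card ?_
      rw [Finset.ssubset_iff_of_subset]
      · exact ⟨t, Finset.mem_filter.2 ⟨htU, ht1⟩, fun h => ht2 (Finset.mem_filter.1 h).2⟩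
      · intro y hy
        obtain ⟨hy1, hy2⟩ := Finset.mem_filter.1 hy
        exact Finset.mem_filter.2 ⟨hy1, hsub y hy2⟩
  exact hno _ a b r s hs hz0 rfl

/-- a point of the arc from `r` to `s` without `a` is, on its side of `a, b`, behind `r` or behind `s` -/
theorem arc_side {a b r s x : α} (ab : a ≠ b) (ra : r ≠ a) (rb : r ≠ b) (rs : r ≠ s) (sa : s ≠ a)
    (hs : s = b ∨ (¬ Alt a b r s → Alt a s r b)) (xb : x ≠ b) (hx : In a r s x) :
    (¬ Alt a b r x ∧ Alt a x r b) ∨ (s ≠ b ∧ ¬ Alt a b s x ∧ Alt a x s b) := by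
  unfold In Alt H97B.Btw at *
  grind (splits := 60)

theorem side_contra {a b u v x : α} (ab : a ≠ b) (ua : u ≠ a) (ub : u ≠ b) (va : v ≠ a) (vb : v ≠ b)
    (xa : x ≠ a) (xb : x ≠ b) (xu : x ≠ u) (xv : x ≠ v)
    (hu : ¬ Alt a b u x) (hu' : Alt a x u b) (hv : ¬ Alt b a v x) (hv' : Alt b x v a)
    (huv : v = u ∨ (¬ Alt a b v u → Alt a u v b)) : False := by
  unfold Alt H97B.Btw at *
  grind (splits := 60)

/-- TWO FREE RAYS. -/
theorem two_rays (h : Fan cr nx be lt)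
    (hm : ∀ {x y w z}, cr x y w → cr x y z → w ≠ z → be x y w z → ¬ Alt x y w z → Alt x z w y)
    (hrv : ∀ {x y w z}, cr x y w → cr x y z → w ≠ z → be x y w z → be y x z w)
    {U : Finset α} (hU : 2 ≤ U.card) {F : Finset (α × α)}
    (hsw : ∀ a b, (a, b) ∈ F → (b, a) ∈ F) (hFU : ∀ a b, (a, b) ∈ F → a ∈ U ∧ a ≠ b)
    (hpl : ∀ a b c d, (a, b) ∈ F → (c, d) ∈ F → ¬ SameE a b c d → nx a b c d) :
    ∃ z ∈ U, ∃ z' ∈ U, z ≠ z' ∧ (∀ a b, (a, b) ∈ F → ¬ cr a b z) ∧ ∀ a b, (a, b) ∈ F → ¬ cr a b z' := by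
  classical
  obtain ⟨z0, hz0, hf0⟩ := free_ray h (Finset.card_pos.1 (by omega)) hsw hFU hpl
  by_contra hcon
  have hall : ∀ z ∈ U, z ≠ z0 → ∃ a b, (a, b) ∈ F ∧ cr a b z := by
    intro z hz hne
    by_contra h1
    push Not at h1
    exact hcon ⟨z, hz, z0, hz0, hne, h1, hf0⟩
  obtain ⟨z, hz, hzne⟩ : ∃ z ∈ U, z ≠ z0 := by
    by_contra h1
    push Not at h1
    have h2 : U ⊆ {z0} := fun y hy => Finset.mem_singleton.2 (h1 y hy)
    have h3 := Finset.card_le_card h2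
    rw [Finset.card_singleton] at h3
    omega
  obtain ⟨a, b, hab, hcr, hfree⟩ := first_edge h hpl (hall z hz hzne)
  have haU : a ∈ U := (hFU a b hab).1
  have hbU : b ∈ U := (hFU b a (hsw a b hab)).1
  have hne : a ≠ b := (hFU a b hab).2
  have hcr' : cr b a z := h.crs hcr
  have hsw' : ∀ {x y z w : α}, SameE x y z w → SameE y x z w := by
    rintro x y z w (⟨h1, h2⟩ | ⟨h1, h2⟩)
    · exact Or.inr ⟨h2, h1⟩
    · exact Or.inl ⟨h2, h1⟩
  have hfree' : ∀ c d, (c, d) ∈ F → cr c d z → ¬ SameE b a c d → ¬ lt z c d b a := by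
    intro c d h1 h2 h3 h4
    exact hfree c d h1 h2 (fun h5 => h3 (hsw' h5))
      (h.lts2 hcr' h2 (hpl _ _ _ _ (hsw a b hab) h1 h3) h3 h4)
  -- a state in direction `b`, if `b` is not free
  have dir1 : b ≠ z0 → ∃ r s, State cr be lt U F a b r s ∧ (r = z ∨ (cr a b r ∧ r ≠ z ∧ be a b z r)) ∧
      (s = b ∨ (cr a b s ∧ s ≠ z ∧ be a b z s)) := fun hb =>
    state_of_first h hab hcr hz hbU hfree (hall b hbU hb)
  have dir2 : a ≠ z0 → ∃ r s, State cr be lt U F b a r s ∧ (r = z ∨ (cr b a r ∧ r ≠ z ∧ be b a z r)) ∧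
      (s = a ∨ (cr b a s ∧ s ≠ z ∧ be b a z s)) := fun ha =>
    state_of_first h (hsw a b hab) hcr' hz haU hfree' (hall a haU ha)
  by_cases hb : b = z0
  · obtain ⟨r, s, hs, -, -⟩ := dir2 (fun e => hne (e.trans hb.symm))
    exact no_state h hsw hFU hpl hall hs (fun h1 => h1.1 hb.symm)
  by_cases ha : a = z0
  · obtain ⟨r, s, hs, -, -⟩ := dir1 hb
    exact no_state h hsw hFU hpl hall hs (fun h1 => h1.1 ha.symm)
  obtain ⟨r1, s1, hs1, hr1, ht1⟩ := dir1 hb
  obtain ⟨r2, s2, hs2, hr2, ht2⟩ := dir2 ha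
  have i1 : In a r1 s1 z0 := by
    by_contra h1
    exact no_state h hsw hFU hpl hall hs1 h1
  have i2 : In b r2 s2 z0 := by
    by_contra h1
    exact no_state h hsw hFU hpl hall hs2 h1
  -- positions along the edge
  have ge1 : ∀ u, (u = z ∨ (cr a b u ∧ u ≠ z ∧ be a b z u)) → ∀ v, (v = z ∨ (cr b a v ∧ v ≠ z ∧ be b a z v)) →
      v = u ∨ (¬ Alt a b v u → Alt a u v b) := by
    intro u hu v hv
    have hv' : v = z ∨ (cr a b v ∧ v ≠ z ∧ be a b v z) := by
      rcases hv with hv | ⟨v1, v2, v3⟩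
      · exact Or.inl hv
      · exact Or.inr ⟨h.crs v1, v2, hrv hcr' v1 v2.symm v3⟩
    rcases hu with rfl | ⟨u1, u2, u3⟩ <;> rcases hv' with rfl | ⟨v1, v2, v3⟩
    · exact Or.inl rfl
    · exact Or.inr fun h1 => hm v1 hcr v2 v3 h1
    · exact Or.inr fun h1 => hm hcr u1 u2.symm u3 h1
    · have hvu : v ≠ u := by
        rintro rfl
        exact h.bea hcr u1 u2.symm u3 v3
      exact Or.inr fun h1 => hm v1 u1 hvu (h.betr v1 hcr u1 v2 u2.symm hvu v3 u3) h1
  have c1 := h.cne hs1.rab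
  have c2 := h.cne hs2.rab
  have s1a : s1 ≠ a := by
    rcases hs1.sab with h1 | h1
    · rw [h1]
      exact hne.symm
    · exact (h.cne h1.1).2.1
  have s2b : s2 ≠ b := by
    rcases hs2.sab with h1 | h1
    · rw [h1]
      exact hne
    · exact (h.cne h1.1).2.1
  have side1 := arc_side hne c1.2.1 c1.2.2 hs1.rs s1a (by
    rcases hs1.sab with h1 | h1
    · exact Or.inl h1
    · exact Or.inr fun h2 => hm hs1.rab h1.1 hs1.rs h1.2 h2) (Ne.symm hb) i1
  have side2 := arc_side hne.symm c2.2.1 c2.2.2 hs2.rs s2b (by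
    rcases hs2.sab with h1 | h1
    · exact Or.inl h1
    · exact Or.inr fun h2 => hm hs2.rab h1.1 hs2.rs h1.2 h2) (Ne.symm ha) i2
  have fin : ∀ u, (u = z ∨ (cr a b u ∧ u ≠ z ∧ be a b z u)) → z0 ≠ u → ¬ Alt a b u z0 → Alt a z0 u b →
      ∀ v, (v = z ∨ (cr b a v ∧ v ≠ z ∧ be b a z v)) → z0 ≠ v → ¬ Alt b a v z0 → Alt b z0 v a → False := by
    intro u hu zu hu1 hu2 v hv zv hv1 hv2
    have u' : u ≠ a ∧ u ≠ b := by
      rcases hu with rfl | hu
      · exact (h.cne hcr).2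
      · exact (h.cne hu.1).2
    have v' : v ≠ a ∧ v ≠ b := by
      rcases hv with rfl | hv
      · exact (h.cne hcr).2
      · exact (h.cne (h.crs hv.1)).2
    exact side_contra hne u'.1 u'.2 v'.1 v'.2 (Ne.symm ha) (Ne.symm hb) zu zv hu1 hu2 hv1 hv2
      (ge1 u hu v hv)
  rcases side1 with ⟨p1, p2⟩ | ⟨p0, p1, p2⟩ <;> rcases side2 with ⟨q1, q2⟩ | ⟨q0, q1, q2⟩
  · exact fin r1 hr1 i1.2.1 p1 p2 r2 hr2 i2.2.1 q1 q2
  · exact fin r1 hr1 i1.2.1 p1 p2 s2 (Or.inr (ht2.resolve_left q0)) i2.2.2.1 q1 q2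
  · exact fin s1 (Or.inr (ht1.resolve_left p0)) i1.2.2.1 p1 p2 r2 hr2 i2.2.1 q1 q2
  · exact fin s1 (Or.inr (ht1.resolve_left p0)) i1.2.2.1 p1 p2 s2 (Or.inr (ht2.resolve_left q0))
      i2.2.2.1 q1 q2

end H63L
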