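import Pool.Agent.Lib.H63L.P0
import Pool.Agent.Lib.H63L.V2
import Pool.Agent.Lib.H63L.GV
import Pool.Agent.Lib.H98Z.S3

/-!
# H63L, file V3: two free rays in tables (hypothesis `V2` of H98Z)
-/

set_option autoImplicit false

namespace H53P

open H63L H98P

variable {V : Type} {T : Table V} {p : V}

theorem fbe_rev {x y w z : Al p} (h1 : cr T p x y w) (h2 : cr T p x y z) (hwz : w ≠ z)
    (h : fbe T p x y w z) : fbe T p y x z w := by
  have d1 := cr_ne h1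
  have d2 := cr_ne h2
  unfold fbe at *
  apply bt
  intro h3
  exact fl_rv T (nd5 d1.1 d1.2.1.symm d2.2.1.symm d1.2.2.symm d2.2.2.symm hwz) h1 h2 h h3

theorem fbe_mono {ρ : V → ℝ} (hρ : T.Ord p ρ) {x y w z : Al p} (h1 : cr T p x y w) (h2 : cr T p x y z)
    (hwz : w ≠ z) (h : fbe T p x y w z) :
    letI := alOrd hρ
    (¬ H97B.Alt x y w z → H97B.Alt x z w y) := by
  letI := alOrd hρ
  intro h3
  have d1 := cr_ne h1
  have d2 := cr_ne h2
  rw [al_alt hρ d1.1 d1.2.1.symm d2.2.1.symm d1.2.2.symm d2.2.2.symm hwz, Bool.not_eq_true] at h3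
  rw [al_alt hρ d2.2.1.symm d1.2.1.symm d1.1 hwz.symm d2.2.2 d1.2.2]
  unfold fbe Table.bfo at h
  rw [h3] at h
  simpa using h

variable [DecidableEq V]

/-- two free rays at every vertex of `W` -/
theorem v2_table (T : Table V) {W : Finset V} (hW : 3 ≤ W.card) {p : V} (hp : p ∈ W) :
    H98Z.V2 (crossT T) W p := by
  classical
  intro F hF hpl
  obtain ⟨q, hq, hqp⟩ : ∃ q ∈ W, q ≠ p := by
    by_contra hn
    push Not at hn
    have h1 : W ⊆ {p} := fun q hq => Finset.mem_singleton.2 (hn q hq)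
    have h2 := Finset.card_le_card h1
    rw [Finset.card_singleton] at h2
    omega
  obtain ⟨ρ, hρ, -⟩ := T.ord_exists hqp.symm
  letI := alOrd hρ
  obtain ⟨U, hUe⟩ : ∃ U, U = (W.erase p).subtype (fun x => x ≠ p) := ⟨_, rfl⟩
  have hU : 2 ≤ U.card := by
    rw [hUe, Finset.card_subtype, Finset.filter_true_of_mem (fun x hx => (Finset.mem_erase.1 hx).1),
      Finset.card_erase_of_mem hp]
    omega
  have hF' : ∀ a b : V, s(a, b) ∈ F → a ∈ W.erase p ∧ b ∈ W.erase p ∧ a ≠ b := by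
    intro a b h
    have h1 := hF h
    unfold LW at h1
    rw [Finset.mem_filter, Finset.mk_mem_sym2_iff, Sym2.mk_isDiag_iff] at h1
    exact ⟨h1.1.1, h1.1.2, h1.2⟩
  obtain ⟨F', hF'e⟩ : ∃ F' : Finset (Al p × Al p),
      F' = (U ×ˢ U).filter (fun e => s(e.1.1, e.2.1) ∈ F) := ⟨_, rfl⟩
  have m : ∀ a b : Al p, (a, b) ∈ F' ↔ (a ∈ U ∧ b ∈ U) ∧ s(a.1, b.1) ∈ F := by
    intro a b
    rw [hF'e, Finset.mem_filter, Finset.mem_product]
  have g1 : ∀ a b, (a, b) ∈ F' → (b, a) ∈ F' := by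
    intro a b h
    rw [m] at h ⊢
    refine ⟨⟨h.1.2, h.1.1⟩, ?_⟩
    rw [Sym2.eq_swap]
    exact h.2
  have g2 : ∀ a b, (a, b) ∈ F' → a ∈ U ∧ a ≠ b := by
    intro a b h
    rw [m] at h
    refine ⟨h.1.1, ?_⟩
    intro hab
    exact (hF' _ _ h.2).2.2 (congrArg Subtype.val hab)
  have g3 : ∀ a b c d, (a, b) ∈ F' → (c, d) ∈ F' → ¬ SameE a b c d → fnx T p a b c d := by
    intro a b c d h1 h2 _
    rw [m] at h1 h2
    unfold fnx
    rw [← Bool.not_eq_true, ← crossT_mk]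
    exact hpl _ h1.2 _ h2.2
  have fin : ∀ z : Al p, z ∈ U → (∀ a b, (a, b) ∈ F' → ¬ cr T p a b z) →
      z.1 ∈ W.erase p ∧ ∀ f ∈ F, ¬ crossT T s(p, z.1) f := by
    intro z hz hfree
    rw [hUe, Finset.mem_subtype] at hz
    refine ⟨hz, ?_⟩
    intro f hf
    induction f using Sym2.ind with
    | _ a b =>
      have h1 := hF' a b hf
      have ha := (Finset.mem_erase.1 h1.1).1
      have hb := (Finset.mem_erase.1 h1.2.1).1
      rw [crossT_mk]
      intro h2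
      refine hfree ⟨a, ha⟩ ⟨b, hb⟩ ?_ h2
      rw [m, hUe]
      exact ⟨⟨Finset.mem_subtype.2 h1.1, Finset.mem_subtype.2 h1.2.1⟩, hf⟩
  obtain ⟨z, hz, z', hz', hzz, k1, k2⟩ := two_rays (al_fan hρ)
    (fun h1 h2 h3 h4 => fbe_mono hρ h1 h2 h3 h4) (fun h1 h2 h3 h4 => fbe_rev h1 h2 h3 h4) hU g1 g2 g3
  have r1 := fin z hz k1
  have r2 := fin z' hz' k2
  exact ⟨z.1, r1.1, z'.1, r2.1, fun e => hzz (Subtype.ext e), r1.2, r2.2⟩

end H53P
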