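import Pool.Agent.Lib.H98P.F2

/-!
# H63L, file W0: plane fractional matchings with given degrees (topological half)
-/

set_option autoImplicit false

namespace H98P

open Finset

variable {V : Type*} [Fintype V] [DecidableEq V]

/-- generic degree vectors -/
theorem weighted_gen {cross : Sym2 V → Sym2 V → Prop} (hsymm : ∀ e f, cross e f → cross f e)
    (hadj : ∀ u v w, ¬ cross s(u, v) s(u, w))
    (hvis : ∀ W : Finset V, 3 ≤ W.card → ∃ p, Pole cross W p) (hn : 3 ≤ Fintype.card V) (b : V → ℝ)
    (hpos : ∀ v, 0 < b v) (htri : ∀ u, b u < ∑ v ∈ univ.erase u, b v)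
    (hgen : Gen (deg (V := V)) (Fintype.card V) b) :
    ∃ P : Finset (Sym2 V), (∀ e ∈ P, ¬ e.IsDiag) ∧ Plane cross P ∧
      ∃ w : Sym2 V → ℝ, (∀ e ∈ P, 0 ≤ w e) ∧ ∀ v, ∑ e ∈ P with v ∈ e, w e = b v := by
  classical
  obtain ⟨c, hc1, hc2⟩ := chains (X := Option V) (cross := crossO cross) (crossO_symm hsymm)
    (crossO_adj hadj) (poleO hvis)
  have h2 : 2 ≤ (univ : Finset (Option V)).card := by
    rw [Finset.card_univ, Fintype.card_option]
    omega
  have hodd := odd_door c (fun W σ h => ⟨(hc1 W σ h).1, (hc1 W σ h).2.2⟩) (hc2 univ h2) b hpos htri hgen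
  have hex : ∃ σ, door deg (Fintype.card V) b σ * c (univ.erase none) σ ≠ 0 := by
    by_contra hcon
    push Not at hcon
    rw [Finset.sum_eq_zero fun σ _ => hcon σ] at hodd
    exact zero_ne_one hodd
  obtain ⟨σ, hσ⟩ := hex
  have hd : door deg (Fintype.card V) b σ ≠ 0 := left_ne_zero_of_mul hσ
  have hc : c (univ.erase none) σ ≠ 0 := right_ne_zero_of_mul hσ
  have hcone : InCone deg σ b := by
    by_contra hcon
    apply hd
    unfold door
    rw [if_neg fun h => hcon h.2]
  exact toV σ (hc1 _ _ hc).1 (hc1 _ _ hc).2.1 b hcone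

/-- the degree vectors of the weights bounded by `R` on plane sets -/
def Kset (cross : Sym2 V → Sym2 V → Prop) (R : ℝ) : Set (V → ℝ) :=
  ⋃ P : {P : Finset (Sym2 V) // (∀ e ∈ P, ¬ e.IsDiag) ∧ Plane cross P},
    (fun (w : Sym2 V → ℝ) (v : V) => ∑ e ∈ P.1 with v ∈ e, w e) '' Set.Icc (fun _ => 0) (fun _ => R)

theorem Kset_closed (cross : Sym2 V → Sym2 V → Prop) (R : ℝ) : IsClosed (Kset cross R) := by
  classical
  apply IsCompact.isClosed
  unfold Kset
  haveI : Finite {P : Finset (Sym2 V) // (∀ e ∈ P, ¬ e.IsDiag) ∧ Plane cross P} := inferInstance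
  refine isCompact_iUnion fun P => ?_
  refine IsCompact.image isCompact_Icc ?_
  refine continuous_pi fun v => ?_
  exact continuous_finset_sum _ fun e _ => continuous_apply e

/-- THE WEIGHTED THEOREM: every degree vector with `b u ≤ ∑ v ≠ u, b v` is the degree vector of
nonnegative weights on a plane set of edges. -/
theorem weighted {cross : Sym2 V → Sym2 V → Prop} (hsymm : ∀ e f, cross e f → cross f e)
    (hadj : ∀ u v w, ¬ cross s(u, v) s(u, w))
    (hvis : ∀ W : Finset V, 3 ≤ W.card → ∃ p, Pole cross W p) (hn : 3 ≤ Fintype.card V) (b : V → ℝ)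
    (h0 : ∀ v, 0 ≤ b v) (h1 : ∀ u, b u ≤ ∑ v ∈ univ.erase u, b v) :
    ∃ P : Finset (Sym2 V), (∀ e ∈ P, ¬ e.IsDiag) ∧ Plane cross P ∧
      ∃ w : Sym2 V → ℝ, (∀ e, 0 ≤ w e) ∧ ∀ v, ∑ e ∈ P with v ∈ e, w e = b v := by
  classical
  obtain ⟨R, hR⟩ : ∃ R : ℝ, R = ∑ v, b v + 2 := ⟨_, rfl⟩
  have hn' : (3 : ℝ) ≤ (Fintype.card V : ℝ) := by exact_mod_cast hn
  have key : b ∈ closure (Kset cross R) := by
    rw [Metric.mem_closure_iff]
    intro ε hε
    obtain ⟨δ, hδ⟩ : ∃ δ : ℝ, δ = min (ε / 3) 1 := ⟨_, rfl⟩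
    have hδ0 : 0 < δ := by rw [hδ]; exact lt_min (by linarith) one_pos
    have hδ1 : δ ≤ 1 := by rw [hδ]; exact min_le_right _ _
    have hδε : δ ≤ ε / 3 := by rw [hδ]; exact min_le_left _ _
    have hU : IsOpen {x : V → ℝ | ∀ v, |x v - (b v + δ)| < δ / 6} := by
      rw [Set.ofPred_forall]
      refine isOpen_iInter_of_finite fun v => ?_
      exact isOpen_lt (by fun_prop) continuous_const
    have hne : {x : V → ℝ | ∀ v, |x v - (b v + δ)| < δ / 6}.Nonempty := by
      refine ⟨fun v => b v + δ, fun v => ?_⟩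
      rw [sub_self, abs_zero]
      linarith
    obtain ⟨x, hx, hgen⟩ := exists_gen (deg (V := V)) _ hU hne
    rw [Module.finrank_fintype_fun_eq_card] at hgen
    have hx1 : ∀ v, b v + δ - δ / 6 < x v ∧ x v < b v + δ + δ / 6 := by
      intro v
      have h2 := abs_lt.1 (hx v)
      constructor <;> linarith [h2.1, h2.2]
    have hpos : ∀ v, 0 < x v := fun v => by linarith [(hx1 v).1, h0 v]
    have htri : ∀ u, x u < ∑ v ∈ univ.erase u, x v := by
      intro u
      have h2 : ∑ v ∈ univ.erase u, (b v + (δ - δ / 6)) ≤ ∑ v ∈ univ.erase u, x v :=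
        Finset.sum_le_sum fun v _ => by linarith [(hx1 v).1]
      rw [Finset.sum_add_distrib, Finset.sum_const, Finset.card_erase_of_mem (Finset.mem_univ u),
        Finset.card_univ, nsmul_eq_mul, Nat.cast_sub (by omega)] at h2
      push_cast at h2
      have h3 := (hx1 u).2
      have h4 := h1 u
      nlinarith
    obtain ⟨P, hP1, hP2, w, hw1, hw2⟩ := weighted_gen hsymm hadj hvis hn x hpos htri hgen
    refine ⟨x, ?_, ?_⟩
    · unfold Kset
      rw [Set.mem_iUnion]
      refine ⟨⟨P, hP1, hP2⟩, fun e => if e ∈ P then w e else 0, ⟨?_, ?_⟩, ?_⟩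
      · intro e
        by_cases he : e ∈ P
        · simp only [he, if_true]
          exact hw1 e he
        · simp only [he, if_false]
          exact le_refl _
      · intro e
        have hRp : 0 ≤ R := by
          rw [hR]
          have := Finset.sum_nonneg (s := (univ : Finset V)) (f := b) fun v _ => h0 v
          linarith
        by_cases he : e ∈ P
        · simp only [he, if_true]
          induction e using Sym2.ind with
          | _ u v =>
            have h5 : w s(u, v) ≤ ∑ e ∈ P with u ∈ e, w e :=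
              Finset.single_le_sum (f := w) (fun e he => hw1 e (Finset.mem_filter.1 he).1)
                (Finset.mem_filter.2 ⟨he, Sym2.mem_mk_left _ _⟩)
            rw [hw2] at h5
            have h6 : b u ≤ ∑ v, b v := Finset.single_le_sum (f := b) (fun v _ => h0 v) (Finset.mem_univ u)
            rw [hR]
            linarith [(hx1 u).2]
        · simp only [he, if_false]
          exact hRp
      · funext v
        show ∑ e ∈ P with v ∈ e, (if e ∈ P then w e else 0) = x v
        rw [← hw2 v]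
        refine Finset.sum_congr rfl fun e he => ?_
        rw [if_pos (Finset.mem_filter.1 he).1]
    · rw [dist_pi_lt_iff hε]
      intro v
      rw [Real.dist_eq, abs_sub_comm, abs_lt]
      constructor <;> linarith [(hx1 v).1, (hx1 v).2]
  rw [(Kset_closed cross R).closure_eq] at key
  unfold Kset at key
  rw [Set.mem_iUnion] at key
  obtain ⟨P, w, hw, hwb⟩ := key
  exact ⟨P.1, P.2.1, P.2.2, w, fun e => hw.1 e, fun v => congrFun hwb v⟩

end H98P
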