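import Pool.Agent.Lib.H63L.P0
import Pool.Agent.Lib.H63L.W0

/-!
# H63L, file FIN: plane 2-matchings, plane fractional matchings and `n / 3` pairwise disjoint edges
in every simple drawing of `K_n`
-/

set_option autoImplicit false

open H53P SimpleDraw

namespace H63L

/-- a choice of the two ends of an unordered pair -/
noncomputable def ends {X : Type} (e : Sym2 X) : X × X := Quot.out e

theorem ends_mk {X : Type} (e : Sym2 X) : s((ends e).1, (ends e).2) = e := Quot.out_eq e

theorem table_poles {V : Type} [DecidableEq V] (T : Table V) :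
    ∀ W : Finset V, 3 ≤ W.card → ∃ p, H98P.Pole (crossT T) W p := by
  intro W hW
  obtain ⟨p, hp⟩ : W.Nonempty := by
    rw [← Finset.card_pos]
    omega
  exact ⟨p, pole_table T (by omega) hp⟩

/-- non-crossing edges of a plane graph in the table form a plane subdrawing -/
theorem plane_of_table {n : ℕ} (D : SimpleDrawing n) (G : SimpleGraph (Fin n))
    (h : ∀ i j k l, G.Adj i j → G.Adj k l → (table D).X i j k l = false) : D.Plane G := by
  intro i j k l hij hkl hne p hp
  have h1 : X D i j k l = false := h i j k l hij hkl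
  by_contra hcon
  push Not at hcon
  have hv : ∀ v, (v = i ∨ v = j) → (v = k ∨ v = l) → False := by
    intro v h2 h3
    have hs := D.inter i j k l hij.ne hkl.ne hne
    have ha : D.pt v ∈ D.curve i j ∩ D.curve k l := by
      constructor
      · obtain ⟨γ, -, -, g0, g1, gi⟩ := D.arc i j hij.ne
        rw [← gi]
        rcases h2 with rfl | rfl
        · exact ⟨0, Set.left_mem_Icc.2 zero_le_one, g0⟩
        · exact ⟨1, Set.right_mem_Icc.2 zero_le_one, g1⟩
      · obtain ⟨γ, -, -, g0, g1, gi⟩ := D.arc k l hkl.ne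
        rw [← gi]
        rcases h3 with rfl | rfl
        · exact ⟨0, Set.left_mem_Icc.2 zero_le_one, g0⟩
        · exact ⟨1, Set.right_mem_Icc.2 zero_le_one, g1⟩
    exact hcon v h2 h3 (hs hp ha)
  unfold X at h1
  rw [decide_eq_false_iff_not] at h1
  exact h1 ⟨hij.ne, hkl.ne, fun e => hv i (Or.inl rfl) (Or.inl e), fun e => hv i (Or.inl rfl) (Or.inr e),
    fun e => hv j (Or.inr rfl) (Or.inl e), fun e => hv j (Or.inr rfl) (Or.inr e), ⟨p, hp⟩⟩

/-- PART 1: a plane spanning subdrawing whose components are edges and cycles -/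
theorem perm_drawing {n : ℕ} (hn : 2 ≤ n) (D : SimpleDrawing n) :
    ∃ f : Equiv.Perm (Fin n), (∀ v, f v ≠ v) ∧ D.Plane (SimpleGraph.fromRel fun x y => f x = y) := by
  classical
  rcases Nat.lt_or_ge n 3 with h3 | h3
  · have h2 : n = 2 := by omega
    subst h2
    refine ⟨Equiv.swap 0 1, by decide, ?_⟩
    intro i j k l hij hkl hne
    exact absurd (by
      have h1 := hij.ne
      have h2 := hkl.ne
      revert i j k l
      decide) hne
  · obtain ⟨P, f, hP, hd, hf, hfP⟩ := H98P.exists_inj (crossT_symm (table D)) (crossT_adj (table D))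
      (table_poles (table D)) (by rw [Fintype.card_fin]; exact h3)
    have hb : Function.Bijective f := Finite.injective_iff_bijective.1 hf
    refine ⟨Equiv.ofBijective f hb, ?_, ?_⟩
    · intro v h
      have h1 : f v = v := h
      apply hd _ (hfP v)
      rw [Sym2.mk_isDiag_iff]
      exact h1.symm
    · apply plane_of_table
      have hm : ∀ i j, (SimpleGraph.fromRel fun x y => Equiv.ofBijective f hb x = y).Adj i j →
          s(i, j) ∈ P := by
        intro i j h
        rw [SimpleGraph.fromRel_adj] at h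
        rcases h.2 with h2 | h2
        · have h4 : f i = j := h2
          rw [← h4]
          exact hfP i
        · have h4 : f j = i := h2
          rw [← h4, Sym2.eq_swap]
          exact hfP j
      intro i j k l hij hkl
      rw [← Bool.not_eq_true, ← crossT_mk]
      exact hP _ (hm i j hij) _ (hm k l hkl)

open H38E in
/-- PART 2: `n / 3` pairwise disjoint edges -/
theorem third_drawing {n : ℕ} (hn : 2 ≤ n) (D : SimpleDrawing n) :
    ∃ S : Finset (Fin n × Fin n), (∀ e ∈ S, e.1 ≠ e.2) ∧
      (∀ e ∈ S, ∀ f ∈ S, e ≠ f → Disjoint (D.curve e.1 e.2) (D.curve f.1 f.2)) ∧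
      n ≤ 3 * S.card := by
  classical
  rcases Nat.lt_or_ge n 3 with h3 | h3
  · refine ⟨{(⟨0, by omega⟩, ⟨1, by omega⟩)}, ?_, ?_, ?_⟩
    · intro e he
      rw [Finset.mem_singleton.1 he]
      intro h
      have := congrArg Fin.val h
      simp at this
    · intro e he f hf hef
      exact absurd ((Finset.mem_singleton.1 he).trans (Finset.mem_singleton.1 hf).symm) hef
    · rw [Finset.card_singleton]
      omega
  · obtain ⟨M, hM1, hM2, hM3, hM4⟩ := table_third (table D) (by rw [Fintype.card_fin]; exact h3)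
    rw [Fintype.card_fin] at hM4
    have hinj : Function.Injective (ends (X := Fin n)) := by
      intro e f h
      rw [← ends_mk e, ← ends_mk f, h]
    have hm : ∀ e : Fin n × Fin n, e ∈ M.image ends → s(e.1, e.2) ∈ M := by
      intro e he
      obtain ⟨g, hg, rfl⟩ := Finset.mem_image.1 he
      rw [ends_mk]
      exact hg
    have hs : ∀ e ∈ M.image ends, ∀ f ∈ M.image ends, e ≠ f → s(e.1, e.2) ≠ s(f.1, f.2) := by
      intro e he f hf hef
      obtain ⟨g, hg, rfl⟩ := Finset.mem_image.1 he
      obtain ⟨g', hg', rfl⟩ := Finset.mem_image.1 hf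
      rw [ends_mk, ends_mk]
      exact fun h => hef (by rw [h])
    have hne : ∀ e ∈ M.image ends, e.1 ≠ e.2 := by
      intro e he h
      exact hM1 _ (hm e he) (by rw [Sym2.mk_isDiag_iff]; exact h)
    have hTM : TM (table D) (M.image ends) := by
      refine ⟨hne, ?_, ?_⟩
      · intro e he f hf hef
        have h1 := hM2 _ (hm e he) _ (hm f hf) (hs e he f hf hef)
        have a1 := h1 e.1 (Sym2.mem_mk_left _ _)
        have a2 := h1 e.2 (Sym2.mem_mk_right _ _)
        rw [Sym2.mem_iff, not_or] at a1 a2
        exact ⟨a1.1, a1.2, a2.1, a2.2⟩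
      · intro e he f hf
        have h1 := hM3 _ (hm e he) _ (hm f hf)
        rw [crossT_mk, Bool.not_eq_true] at h1
        exact h1
    refine ⟨M.image ends, hne, H63P.fin_disj D hTM, ?_⟩
    rw [Finset.card_image_of_injective _ hinj]
    exact hM4

/-- PART 3: plane fractional matchings with given degrees -/
theorem weighted_drawing {n : ℕ} (hn : 3 ≤ n) (D : SimpleDrawing n) (b : Fin n → ℝ)
    (h0 : ∀ v, 0 ≤ b v) (h1 : ∀ u, b u ≤ ∑ v ∈ Finset.univ.erase u, b v) :
    ∃ w : Fin n → Fin n → ℝ, (∀ i j, 0 ≤ w i j) ∧ (∀ i j, w i j = w j i) ∧ (∀ i, w i i = 0) ∧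
      (∀ i, ∑ j, w i j = b i) ∧ D.Plane (SimpleGraph.fromRel fun x y => w x y ≠ 0) := by
  classical
  obtain ⟨P, hd, hP, w, hw0, hwb⟩ := H98P.weighted (crossT_symm (table D)) (crossT_adj (table D))
      (table_poles (table D)) (by rw [Fintype.card_fin]; exact hn) b h0 h1
  refine ⟨fun i j => if s(i, j) ∈ P then w s(i, j) else 0, ?_, ?_, ?_, ?_, ?_⟩
  · intro i j
    by_cases h : s(i, j) ∈ P
    · simp only [h, if_true]
      exact hw0 _
    · simp only [h, if_false]
      exact le_refl _
  · intro i j
    simp only [Sym2.eq_swap]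
  · intro i
    have h : s(i, i) ∉ P := fun h => hd _ h (by rw [Sym2.mk_isDiag_iff])
    simp only [h, if_false]
  · intro i
    rw [← hwb i]
    have hset : (P.filter fun e => i ∈ e) = (Finset.univ.filter fun j => s(i, j) ∈ P).image
        fun j => s(i, j) := by
      ext e
      rw [Finset.mem_filter, Finset.mem_image]
      constructor
      · rintro ⟨h2, h3⟩
        obtain ⟨j, rfl⟩ := Sym2.mem_iff_exists.1 h3
        exact ⟨j, Finset.mem_filter.2 ⟨Finset.mem_univ _, h2⟩, rfl⟩
      · rintro ⟨j, h2, rfl⟩
        exact ⟨(Finset.mem_filter.1 h2).2, Sym2.mem_mk_left _ _⟩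
    rw [hset, Finset.sum_image, ← Finset.sum_filter]
    intro j _ k _ h
    exact Sym2.congr_right.1 h
  · apply plane_of_table
    have hm : ∀ i j, (SimpleGraph.fromRel fun x y => (if s(x, y) ∈ P then w s(x, y) else 0) ≠ 0).Adj i j →
        s(i, j) ∈ P := by
      intro i j h
      rw [SimpleGraph.fromRel_adj] at h
      rcases h.2 with h2 | h2
      · by_contra h4
        exact h2 (if_neg h4)
      · by_contra h4
        rw [Sym2.eq_swap] at h4
        exact h2 (if_neg h4)
    intro i j k l hij hkl
    rw [← Bool.not_eq_true, ← crossT_mk]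
    exact hP _ (hm i j hij) _ (hm k l hkl)

end H63L
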