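import Pool.Agent.Lib.H63L.FN
import Pool.Agent.Lib.H98P.F2
import Pool.Agent.Lib.H63P.FIN

/-!
# H63L, file P0: every vertex is a pole; plane matchings with `n / 3` edges
-/

set_option autoImplicit false

namespace H53P

open H63L H98P

variable {V : Type}

/-- crossings of a table as a relation on unordered pairs -/
def crossT (T : Table V) (e f : Sym2 V) : Prop :=
  ∃ a b c d, e = s(a, b) ∧ f = s(c, d) ∧ T.X a b c d = true

/-- PROOF. `T.xs4`. -/
theorem crossT_symm (T : Table V) (e f : Sym2 V) (h : crossT T e f) : crossT T f e := by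
  obtain ⟨a, b, c, d, h1, h2, h3⟩ := h
  exact ⟨c, d, a, b, h2, h1, by rw [T.xs4]; exact h3⟩

/-- PROOF. `Sym2.eq_iff`, `T.xs1`, `T.xs2`, `T.xs3`. -/
theorem crossT_mk (T : Table V) (a b c d : V) : crossT T s(a, b) s(c, d) ↔ T.X a b c d = true := by
  constructor
  · rintro ⟨a', b', c', d', h1, h2, h3⟩
    rw [Sym2.eq_iff] at h1 h2
    rcases h1 with ⟨rfl, rfl⟩ | ⟨rfl, rfl⟩ <;> rcases h2 with ⟨rfl, rfl⟩ | ⟨rfl, rfl⟩
    · exact h3
    · rw [T.xs2]; exact h3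
    · rw [T.xs1]; exact h3
    · rw [T.xs3]; exact h3
  · intro h
    exact ⟨a, b, c, d, rfl, rfl, h⟩

theorem crossT_adj (T : Table V) (u v w : V) : ¬ crossT T s(u, v) s(u, w) := by
  rw [crossT_mk]
  intro h
  exact (T.ne _ _ _ _ h).2.2.1 rfl

variable [DecidableEq V]

/-- every vertex of `W` is a pole -/
theorem pole_table (T : Table V) {W : Finset V} (hW : 2 ≤ W.card) {p : V} (hp : p ∈ W) :
    Pole (crossT T) W p := by
  classical
  refine ⟨hp, ?_⟩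
  intro F hF hpl
  obtain ⟨q, hq, hqp⟩ : ∃ q ∈ W, q ≠ p := by
    by_contra hn
    push Not at hn
    have h1 : W ⊆ {p} := fun q hq => Finset.mem_singleton.2 (hn q hq)
    have h2 := Finset.card_le_card h1
    rw [Finset.card_singleton] at h2
    omega
  obtain ⟨ρ, hρ, -⟩ := T.ord_exists hqp.symm
  letI := alOrd hρ
  have hU : ((W.erase p).subtype (fun x => x ≠ p)).Nonempty :=
    ⟨⟨q, hqp⟩, by rw [Finset.mem_subtype]; exact Finset.mem_erase.2 ⟨hqp, hq⟩⟩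
  obtain ⟨U, hUe⟩ : ∃ U, U = (W.erase p).subtype (fun x => x ≠ p) := ⟨_, rfl⟩
  rw [← hUe] at hU
  have hF' : ∀ a b : V, s(a, b) ∈ F → a ∈ W.erase p ∧ b ∈ W.erase p ∧ a ≠ b := by
    intro a b h
    have h1 := hF h
    unfold LW at h1
    rw [Finset.mem_filter, Finset.mk_mem_sym2_iff, Sym2.mk_isDiag_iff] at h1
    exact ⟨h1.1.1, h1.1.2, h1.2⟩
  obtain ⟨F', hF'e⟩ : ∃ F' : Finset (Al p × Al p),
      F' = (U ×ˢ U).filter (fun e => s(e.1.1, e.2.1) ∈ F) := ⟨_, rfl⟩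
  have m : ∀ a b : Al p, (a, b) ∈ F' ↔ (a ∈ U ∧ b ∈ U) ∧ s(a.1, b.1) ∈ F := by
    intro a b
    rw [hF'e, Finset.mem_filter, Finset.mem_product]
  have g1 : ∀ a b, (a, b) ∈ F' → (b, a) ∈ F' := by
    intro a b h
    rw [m] at h ⊢
    refine ⟨⟨h.1.2, h.1.1⟩, ?_⟩
    rw [Sym2.eq_swap]
    exact h.2
  have g2 : ∀ a b, (a, b) ∈ F' → a ∈ U ∧ a ≠ b := by
    intro a b h
    rw [m] at h
    refine ⟨h.1.1, ?_⟩
    intro hab
    exact (hF' _ _ h.2).2.2 (congrArg Subtype.val hab)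
  have g3 : ∀ a b c d, (a, b) ∈ F' → (c, d) ∈ F' → ¬ SameE a b c d → fnx T p a b c d := by
    intro a b c d h1 h2 _
    rw [m] at h1 h2
    unfold fnx
    rw [← Bool.not_eq_true, ← crossT_mk]
    exact hpl _ h1.2 _ h2.2
  obtain ⟨z, hz, hfree⟩ := free_ray (al_fan hρ) hU g1 g2 g3
  rw [hUe, Finset.mem_subtype] at hz
  refine ⟨z.1, hz, ?_⟩
  intro f hf
  induction f using Sym2.ind with
  | _ a b =>
    have h1 := hF' a b hf
    have ha := (Finset.mem_erase.1 h1.1).1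
    have hb := (Finset.mem_erase.1 h1.2.1).1
    rw [crossT_mk]
    intro h2
    refine hfree ⟨a, ha⟩ ⟨b, hb⟩ ?_ h2
    rw [m, hUe]
    exact ⟨⟨Finset.mem_subtype.2 h1.1, Finset.mem_subtype.2 h1.2.1⟩, hf⟩

/-- a plane matching with at least `n / 3` edges in every table -/
theorem table_third [Fintype V] (T : Table V) (hn : 3 ≤ Fintype.card V) :
    ∃ M : Finset (Sym2 V), (∀ e ∈ M, ¬ e.IsDiag) ∧
      (∀ e ∈ M, ∀ f ∈ M, e ≠ f → ∀ v, v ∈ e → v ∉ f) ∧
      Plane (crossT T) M ∧ Fintype.card V ≤ 3 * M.card := by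
  refine plane_matching (crossT_symm T) (crossT_adj T) ?_ hn
  intro W hW
  obtain ⟨p, hp⟩ : W.Nonempty := by
    rw [← Finset.card_pos]
    omega
  exact ⟨p, pole_table T (by omega) hp⟩

end H53P
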