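import Pool.Agent.Lib.H63L.Defs

/-!
# H63L, chunk A1 (M): the first edge on a ray

`F` is a finite set of ordered pairs (each edge may occur in both directions), pairwise without crossing. On a
crossed ray `r` there is a first edge of `F`.
-/

set_option autoImplicit false

namespace H63L

open H97B

variable {α : Type} [LinearOrder α] {cr : α → α → α → Prop} {nx : α → α → α → α → Prop}
  {be : α → α → α → α → Prop} {lt : α → α → α → α → α → Prop}

private theorem a1_min {β : Type*} [DecidableEq β] (R : β → β → Prop) (s : Finset β)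
    (hne : s.Nonempty) (hirr : ∀ a ∈ s, ¬ R a a)
    (htr : ∀ a ∈ s, ∀ b ∈ s, ∀ c ∈ s, R a b → R b c → R a c) :
    ∃ m ∈ s, ∀ y ∈ s, ¬ R y m := by
  classical
  induction s using Finset.induction_on with
  | empty => exact absurd hne Finset.not_nonempty_empty
  | insert a s ha ih =>
    by_cases hs : s.Nonempty
    · obtain ⟨m, hm, hmax⟩ := ih hs (fun b hb => hirr b (Finset.mem_insert_of_mem hb))
        (fun b hb c hc d hd => htr b (Finset.mem_insert_of_mem hb) c (Finset.mem_insert_of_mem hc) d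
          (Finset.mem_insert_of_mem hd))
      by_cases h : R a m
      · refine ⟨a, Finset.mem_insert_self a s, fun y hy hya => ?_⟩
        rcases Finset.mem_insert.1 hy with rfl | hy'
        · exact hirr y hy hya
        · exact hmax y hy' (htr y hy a (Finset.mem_insert_self a s) m
            (Finset.mem_insert_of_mem hm) hya h)
      · refine ⟨m, Finset.mem_insert_of_mem hm, fun y hy hym => ?_⟩
        rcases Finset.mem_insert.1 hy with rfl | hy'
        · exact h hym
        · exact hmax y hy' hym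
    · rw [Finset.not_nonempty_iff_eq_empty] at hs
      subst hs
      refine ⟨a, Finset.mem_insert_self a _, fun y hy hya => ?_⟩
      rcases Finset.mem_insert.1 hy with rfl | hy'
      · exact hirr y hy hya
      · exact absurd hy' (Finset.notMem_empty y)

omit [LinearOrder α] in
private theorem a1_same {a b c d : α} (h : SameE a b c d) : SameE c d a b := by
  rcases h with ⟨h1, h2⟩ | ⟨h1, h2⟩
  · exact Or.inl ⟨h1.symm, h2.symm⟩
  · exact Or.inr ⟨h2.symm, h1.symm⟩

/-- Chunk A1 (M). PROOF. On the finite set `S` of all `e ∈ F` with `cr e.1 e.2 r` let `R f e` be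
`¬ SameE e.1 e.2 f.1 f.2 ∧ lt r f.1 f.2 e.1 e.2`. `R` is irreflexive (`SameE x y x y`) and transitive on `S`: let
`R f e`, `R e g`. If `f`, `g` are the same edge, then (`lts1`, `lts2`) `lt r e f` and `lt r f e` (after swapping
ends), against `lta`. Otherwise `ltt` gives `lt r f g` or `lt r g f`; the second one contradicts `lt3`. A finite
nonempty set with an irreflexive transitive relation has a minimal element (`H63P.ca_max` in
`Pool/Agent/Lib/H63P/CA.lean`, copy it, or `Finset.exists_minimal` / strong induction). -/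
theorem first_edge (h : Fan cr nx be lt) {F : Finset (α × α)} {r : α}
    (hpl : ∀ a b c d, (a, b) ∈ F → (c, d) ∈ F → ¬ SameE a b c d → nx a b c d)
    (hr : ∃ a b, (a, b) ∈ F ∧ cr a b r) :
    ∃ a b, (a, b) ∈ F ∧ cr a b r ∧
      ∀ c d, (c, d) ∈ F → cr c d r → ¬ SameE a b c d → ¬ lt r c d a b := by
  classical
  obtain ⟨a0, b0, h0, hr0⟩ := hr
  obtain ⟨S, hS⟩ : ∃ S : Finset (α × α), ∀ e, e ∈ S ↔ e ∈ F ∧ cr e.1 e.2 r :=
    ⟨F.filter fun e => cr e.1 e.2 r, fun e => Finset.mem_filter⟩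
  obtain ⟨⟨a, b⟩, hm, hmin⟩ := a1_min
    (fun f e : α × α => ¬ SameE e.1 e.2 f.1 f.2 ∧ lt r f.1 f.2 e.1 e.2) S
    ⟨(a0, b0), (hS _).2 ⟨h0, hr0⟩⟩
    (fun e _ he => he.1 (Or.inl ⟨rfl, rfl⟩)) (by
      rintro ⟨f1, f2⟩ hf ⟨e1, e2⟩ he ⟨g1, g2⟩ hg ⟨n1, l1⟩ ⟨n2, l2⟩
      obtain ⟨hf1, hf2⟩ := (hS _).1 hf
      obtain ⟨he1, he2⟩ := (hS _).1 he
      obtain ⟨hg1, hg2⟩ := (hS _).1 hg
      change cr f1 f2 r at hf2
      change cr e1 e2 r at he2
      change cr g1 g2 r at hg2
      change ¬ SameE e1 e2 f1 f2 at n1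
      change lt r f1 f2 e1 e2 at l1
      change ¬ SameE g1 g2 e1 e2 at n2
      change lt r e1 e2 g1 g2 at l2
      have n1' : ¬ SameE f1 f2 e1 e2 := fun hh => n1 (a1_same hh)
      have n2' : ¬ SameE e1 e2 g1 g2 := fun hh => n2 (a1_same hh)
      have x1 : nx f1 f2 e1 e2 := hpl _ _ _ _ hf1 he1 n1'
      have x2 : nx g1 g2 e1 e2 := hpl _ _ _ _ hg1 he1 n2
      by_cases hfg : SameE g1 g2 f1 f2
      · exfalso
        rcases hfg with ⟨q1, q2⟩ | ⟨q1, q2⟩
        · subst q1
          subst q2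
          exact h.lta hf2 he2 x1 n1' l1 l2
        · have l3 : lt r e1 e2 g2 g1 := h.lts2 hg2 he2 x2 n2 l2
          subst q1
          subst q2
          exact h.lta hf2 he2 x1 n1' l1 l3
      · have n3 : ¬ SameE f1 f2 g1 g2 := fun hh => hfg (a1_same hh)
        refine ⟨hfg, ?_⟩
        rcases h.ltt hf2 hg2 (hpl _ _ _ _ hf1 hg1 n3) n3 with l3 | l3
        · exact l3
        · exact absurd l3 (h.lt3 hf2 he2 hg2 x1 (hpl _ _ _ _ he1 hg1 n2')
            (hpl _ _ _ _ hg1 hf1 hfg) n1' n2' hfg l1 l2))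
  obtain ⟨m1, m2⟩ := (hS _).1 hm
  exact ⟨a, b, m1, m2, fun c d hcd hc hne hl => hmin (c, d) ((hS _).2 ⟨hcd, hc⟩) ⟨hne, hl⟩⟩

end H63L
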