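import Pool.Agent.Lib.H63L.Defs

/-!
# H63L, chunk A2 (M): walking along an edge

`r` crosses `ab`; we walk along `ab` from `r` towards `b` to the first ray `s` (or the end `s = b`) with the
property `P`; `r'` is the ray before `s` (or `r' = r`).
-/

set_option autoImplicit false

namespace H63L

open H97B

variable {α : Type} [LinearOrder α] {cr : α → α → α → Prop} {nx : α → α → α → α → Prop}
  {be : α → α → α → α → Prop} {lt : α → α → α → α → α → Prop}

private theorem a2_least (T : Finset α) (R : α → α → Prop)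
    (tot : ∀ x ∈ T, ∀ y ∈ T, x ≠ y → R x y ∨ R y x)
    (tr : ∀ x ∈ T, ∀ y ∈ T, ∀ z ∈ T, x ≠ y → y ≠ z → x ≠ z → R x y → R y z → R x z) :
    ∀ S : Finset α, S ⊆ T → S.Nonempty → ∃ m ∈ S, ∀ x ∈ S, x ≠ m → R m x := by
  intro S
  induction S using Finset.induction_on with
  | empty => intro _ h; exact absurd h (by simp)
  | insert u S hu ih =>
    intro hST _
    have huT : u ∈ T := hST (Finset.mem_insert_self u S)
    have hS : S ⊆ T := fun x hx => hST (Finset.mem_insert_of_mem hx)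
    rcases S.eq_empty_or_nonempty with hS0 | hS0
    · refine ⟨u, Finset.mem_insert_self u S, fun x hx hxu => ?_⟩
      rcases Finset.mem_insert.1 hx with h | h
      · exact absurd h hxu
      · rw [hS0] at h
        exact absurd h (by simp)
    · obtain ⟨m, hm, hmin⟩ := ih hS hS0
      have hum : u ≠ m := fun h => hu (h ▸ hm)
      rcases tot u huT m (hS hm) hum with h1 | h1
      · refine ⟨u, Finset.mem_insert_self u S, fun x hx hxu => ?_⟩
        rcases Finset.mem_insert.1 hx with h | h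
        · exact absurd h hxu
        · by_cases hxm : x = m
          · rw [hxm]; exact h1
          · exact tr u huT m (hS hm) x (hS h) hum (Ne.symm hxm) (Ne.symm hxu) h1 (hmin x h hxm)
      · refine ⟨m, Finset.mem_insert_of_mem hm, fun x hx hxm => ?_⟩
        rcases Finset.mem_insert.1 hx with h | h
        · rw [h]; exact h1
        · exact hmin x h hxm

/-- Chunk A2 (M). PROOF. `Z` = the set of all `x ∈ U` with `x ≠ r`, `cr a b x`, `be a b r x`; on `Z ∪ {r}` the relation
`be a b` is a strict linear order (`bet`, `bea`, `betr`; for `x, y, z ∈ Z ∪ {r}` pairwise different) and `r` is its least element. If some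
`x ∈ Z` has `P x`, let `s` be the `be a b`-least such element (finite set), otherwise `s = b`. Let `r'` be the
`be a b`-greatest element of `{r} ∪ {x ∈ Z | x before s}` (resp. `{r} ∪ Z` if `s = b`). Then `¬ P r'` if `r' ≠ r`
(`s` was least; all elements of `Z` have `¬ P` if `s = b`), `be a b r' s` (if `s ≠ b`), and `NoB` for every `x ∈ U`: if
`x ≠ r'`, `x ≠ s`, `cr a b x`, `be a b r' x`, then `x ∈ Z` (`betr` if `r' ≠ r`; `x ≠ r` by `bea`), so if `s = b` the choice of `r'` is contradicted,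
and if `s ≠ b`, `be a b x s` is impossible for the same reason. -/
theorem walk (h : Fan cr nx be lt) {U : Finset α} {a b r : α} (hr : cr a b r) (hrU : r ∈ U)
    (hb : b ∈ U) (P : α → Prop) (hP : P b) :
    ∃ r' s, r' ∈ U ∧ s ∈ U ∧ cr a b r' ∧ (r' = r ∨ (r' ≠ r ∧ be a b r r' ∧ ¬ P r')) ∧ r' ≠ s ∧ r ≠ s ∧
      (s = b ∨ (cr a b s ∧ be a b r' s ∧ be a b r s)) ∧ P s ∧ ∀ x ∈ U, NoB cr be a b r' s x := by
  classical
  set T : Finset α := U.filter (fun x => x = r ∨ (x ≠ r ∧ cr a b x ∧ be a b r x)) with hT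
  have memT : ∀ x, x ∈ T ↔ x ∈ U ∧ (x = r ∨ (x ≠ r ∧ cr a b x ∧ be a b r x)) := by
    intro x; rw [hT, Finset.mem_filter]
  have crT : ∀ x ∈ T, cr a b x := by
    intro x hx
    rcases ((memT x).1 hx).2 with h1 | h1
    · rw [h1]; exact hr
    · exact h1.2.1
  have rT : r ∈ T := (memT r).2 ⟨hrU, Or.inl rfl⟩
  have tot : ∀ x ∈ T, ∀ y ∈ T, x ≠ y → be a b x y ∨ be a b y x := fun x hx y hy hxy =>
    h.bet (crT x hx) (crT y hy) hxy
  have tr : ∀ x ∈ T, ∀ y ∈ T, ∀ z ∈ T, x ≠ y → y ≠ z → x ≠ z → be a b x y → be a b y z →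
      be a b x z := fun x hx y hy z hz h1 h2 h3 h4 h5 =>
    h.betr (crT x hx) (crT y hy) (crT z hz) h1 h2 h3 h4 h5
  -- a point of `U` after `r'` on the edge is in `T`
  have key : ∀ r' ∈ T, ∀ x ∈ U, x ≠ r' → cr a b x → be a b r' x → x ∈ T := by
    intro r' hr' x hx hxr' hcx hbx
    rw [memT]
    refine ⟨hx, ?_⟩
    by_cases hxr : x = r
    · exact Or.inl hxr
    · refine Or.inr ⟨hxr, hcx, ?_⟩
      by_cases hrr : r' = r
      · rw [← hrr]; exact hbx
      · rcases ((memT r').1 hr').2 with h1 | h1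
        · exact absurd h1 hrr
        · exact h.betr hr (crT r' hr') hcx (Ne.symm hrr) (Ne.symm hxr') (Ne.symm hxr) h1.2.2 hbx
  by_cases hZ : (T.filter (fun x => x ≠ r ∧ P x)).Nonempty
  · obtain ⟨s, hs, hsmin⟩ := a2_least T (be a b) tot tr _ (Finset.filter_subset _ _) hZ
    rw [Finset.mem_filter] at hs
    obtain ⟨hsT, hsr, hPs⟩ := hs
    have hbrs : be a b r s := by
      rcases ((memT s).1 hsT).2 with h1 | h1
      · exact absurd h1 hsr
      · exact h1.2.2
    have hY : (T.filter (fun x => x ≠ s ∧ be a b x s)).Nonempty :=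
      ⟨r, Finset.mem_filter.2 ⟨rT, Ne.symm hsr, hbrs⟩⟩
    obtain ⟨r', hr', hmax⟩ := a2_least T (fun x y => be a b y x)
      (fun x hx y hy hxy => (tot x hx y hy hxy).symm)
      (fun x hx y hy z hz h1 h2 h3 h4 h5 => tr z hz y hy x hx (Ne.symm h2) (Ne.symm h1)
        (Ne.symm h3) h5 h4) _ (Finset.filter_subset _ _) hY
    rw [Finset.mem_filter] at hr'
    obtain ⟨hr'T, hr's, hbr's⟩ := hr'
    refine ⟨r', s, ((memT r').1 hr'T).1, ((memT s).1 hsT).1, crT r' hr'T, ?_, hr's, Ne.symm hsr,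
      Or.inr ⟨crT s hsT, hbr's, hbrs⟩, hPs, ?_⟩
    · by_cases hrr : r' = r
      · exact Or.inl hrr
      · refine Or.inr ⟨hrr, ?_, ?_⟩
        · rcases ((memT r').1 hr'T).2 with h1 | h1
          · exact absurd h1 hrr
          · exact h1.2.2
        · intro hPr'
          have h1 := hsmin r' (Finset.mem_filter.2 ⟨hr'T, hrr, hPr'⟩) hr's
          exact h.bea (crT r' hr'T) (crT s hsT) hr's hbr's h1
    · intro x hx hxr' hxs hcx hbx
      refine ⟨(h.cne (crT s hsT)).2.2, fun hbxs => ?_⟩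
      have hxT := key r' hr'T x hx hxr' hcx hbx
      have h1 := hmax x (Finset.mem_filter.2 ⟨hxT, hxs, hbxs⟩) hxr'
      exact h.bea (crT r' hr'T) hcx (Ne.symm hxr') hbx h1
  · obtain ⟨r', hr'T, hmax⟩ := a2_least T (fun x y => be a b y x)
      (fun x hx y hy hxy => (tot x hx y hy hxy).symm)
      (fun x hx y hy z hz h1 h2 h3 h4 h5 => tr z hz y hy x hx (Ne.symm h2) (Ne.symm h1)
        (Ne.symm h3) h5 h4) T (Finset.Subset.refl _) ⟨r, rT⟩
    refine ⟨r', b, ((memT r').1 hr'T).1, hb, crT r' hr'T, ?_, (h.cne (crT r' hr'T)).2.2,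
      (h.cne hr).2.2, Or.inl rfl, hP, ?_⟩
    · by_cases hrr : r' = r
      · exact Or.inl hrr
      · refine Or.inr ⟨hrr, ?_, ?_⟩
        · rcases ((memT r').1 hr'T).2 with h1 | h1
          · exact absurd h1 hrr
          · exact h1.2.2
        · intro hPr'
          exact hZ ⟨r', Finset.mem_filter.2 ⟨hr'T, hrr, hPr'⟩⟩
    · intro x hx hxr' _ hcx hbx
      exfalso
      have hxT := key r' hr'T x hx hxr' hcx hbx
      have h1 := hmax x hxT hxr'
      exact h.bea (crT r' hr'T) hcx (Ne.symm hxr') hbx h1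

end H63L
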