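import Pool.Agent.Lib.H63L.Defs

/-!
# H63L, chunk A3 (M): the new arc is contained in the old one (cyclic order only)
-/

set_option autoImplicit false

namespace H63L

open H97B

variable {α : Type} [LinearOrder α] {cr : α → α → α → Prop} {nx : α → α → α → α → Prop}
  {be : α → α → α → α → Prop} {lt : α → α → α → α → α → Prop}

/-- Chunk A3 (M). The old arc `I = In a r s` (from `r` to `s`, without `a`). `dc` is an edge with `c ∈ I`,
`d ∉ I`, `d ≠ s` (`d = r` or `d = a` is allowed) which crosses the ray `s`; `r'` is `s` or a ray of `I` which crosses
`dc` after `s`; `t` is a later ray of `I` or `t = c`. Then the new arc `In d r' t` is in `I`, and it does not contain `t ∈ I`.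
PROOF. Cyclic order only. Cut the circle at `r` (all of `α` in the linear order that starts at `r`, in the direction in which `I`
comes first): `r < I < s <` the rest. `d` is `r` or beyond `s`. The points `r'`, `t` are in `I ∪ {s}`, so the arc
`In d r' t` (from `r'` to `t` without `d`) is the set of points strictly between `r'` and `t` in this linear order,
which is contained in `I`. (The hypotheses on `cr`, `be` are not needed for this.) In Lean: unfold `In`, `Alt`, `Btw`; all points are
compared in the given linear order (`lt_trichotomy`), or first prove the lemma for an abstract cut. -/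
theorem arc_sub {a r s d r' t y : α} (hrs : r ≠ s) (has : a ≠ s) (har : a ≠ r)
    (hd : ¬ In a r s d) (hds : d ≠ s) (hr' : r' = s ∨ In a r s r') (ht : In a r s t) (hrt : r' ≠ t)
    (hy : In d r' t y) : In a r s y := by
  unfold In Alt H97B.Btw at *
  grind (splits := 60)

end H63L
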