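import Pool.Agent.Lib.H63L.A1
import Pool.Agent.Lib.H63L.A2
import Pool.Agent.Lib.H63L.A3

/-!
# H63L, chunk A4 (M): states of the descent
-/

set_option autoImplicit false

namespace H63L

open H97B

variable {α : Type} [LinearOrder α] {cr : α → α → α → Prop} {nx : α → α → α → α → Prop}
  {be : α → α → α → α → Prop} {lt : α → α → α → α → α → Prop}

/-- A state of the descent: `ab ∈ F` crosses the ray `r`, no edge of `F` crosses `r` before `ab`; `s` is the next ray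
of `U` on `ab` towards `b`, or `s = b`; some edge of `F` crosses `s` (before `ab`, if `s ≠ b`). -/
structure State (cr : α → α → α → Prop) (be : α → α → α → α → Prop) (lt : α → α → α → α → α → Prop)
    (U : Finset α) (F : Finset (α × α)) (a b r s : α) : Prop where
  mem : (a, b) ∈ F
  rab : cr a b r
  rU : r ∈ U
  sU : s ∈ U
  rs : r ≠ s
  sab : s = b ∨ (cr a b s ∧ be a b r s)
  free : ∀ c d, (c, d) ∈ F → cr c d r → ¬ SameE a b c d → ¬ lt r c d a b
  nob : ∀ x ∈ U, NoB cr be a b r s x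
  blk : ∃ c d, (c, d) ∈ F ∧ cr c d s ∧ ¬ SameE a b c d ∧ (s ≠ b → lt s c d a b)

/-- Chunk A4 (M). From a first edge to a state. `ab ∈ F` crosses `r`, no edge of `F` is before `ab` on `r`,
and the ray `b` is crossed by `F`. PROOF. `walk` (A2) with `P x` = (some `(c, d) ∈ F` with `cr c d x`, `¬ SameE a b c d` and
(`x ≠ b → lt x c d a b`)); `P b`: an edge of `F` crossing `b` is not `ab` (`cne`). The ray `r'` of `walk` is free: `r' = r` by
hypothesis, otherwise `¬ P r'` (and `r' ≠ b` by `cne`). -/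
theorem state_of_first (h : Fan cr nx be lt) {U : Finset α} {F : Finset (α × α)} {a b r : α}
    (hab : (a, b) ∈ F) (hr : cr a b r) (hrU : r ∈ U) (hbU : b ∈ U)
    (hfree : ∀ c d, (c, d) ∈ F → cr c d r → ¬ SameE a b c d → ¬ lt r c d a b)
    (hblk : ∃ c d, (c, d) ∈ F ∧ cr c d b) :
    ∃ r' s, State cr be lt U F a b r' s ∧ (r' = r ∨ (cr a b r' ∧ r' ≠ r ∧ be a b r r')) ∧
      (s = b ∨ (cr a b s ∧ s ≠ r ∧ be a b r s)) := by
  have hPb : ∃ c d, (c, d) ∈ F ∧ cr c d b ∧ ¬ SameE a b c d ∧ (b ≠ b → lt b c d a b) := by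
    obtain ⟨c, d, hcd, hc⟩ := hblk
    refine ⟨c, d, hcd, hc, ?_, fun hb => absurd rfl hb⟩
    rintro (⟨_, h2⟩ | ⟨_, h2⟩)
    · exact (h.cne hc).2.2 h2
    · exact (h.cne hc).2.1 h2
  obtain ⟨r', s, h1, h2, h3, h4, h5, h6, h7, h8, h9⟩ := walk h hr hrU hbU
    (fun x => ∃ c d, (c, d) ∈ F ∧ cr c d x ∧ ¬ SameE a b c d ∧ (x ≠ b → lt x c d a b)) hPb
  refine ⟨r', s, ⟨hab, h3, h1, h2, h5, ?_, ?_, h9, h8⟩, ?_, ?_⟩
  · rcases h7 with h7 | ⟨h7, h7', _⟩
    · exact Or.inl h7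
    · exact Or.inr ⟨h7, h7'⟩
  · intro c d hcd hc hne hl
    rcases h4 with h4 | ⟨_, _, h4⟩
    · subst h4
      exact hfree c d hcd hc hne hl
    · exact h4 ⟨c, d, hcd, hc, hne, fun _ => hl⟩
  · rcases h4 with h4 | ⟨h4, h4', _⟩
    · exact Or.inl h4
    · exact Or.inr ⟨h3, h4, h4'⟩
  · rcases h7 with h7 | ⟨h7, _, h7'⟩
    · exact Or.inl h7
    · exact Or.inr ⟨h7, fun hh => h6 hh.symm, h7'⟩

end H63L
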