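import Pool.Agent.Lib.H63L.A4

/-!
# H63L, chunk A5 (M/L): one step of the descent
-/

set_option autoImplicit false

namespace H63L

open H97B

variable {α : Type} [LinearOrder α] {cr : α → α → α → Prop} {nx : α → α → α → α → Prop}
  {be : α → α → α → α → Prop} {lt : α → α → α → α → α → Prop}

/-- Chunk A5 (M/L). One step: the arc becomes smaller. PROOF. Let `k = (c, d)` be the first edge of `F` on the ray
`s` (`first_edge`, `blk`). It is not `ab`: if `s = b` by `cne`; if `s ≠ b`: for the edge `(c', d')` of `blk` we have `lt s c' d' a b`, so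
`ab` is not first (if `k` is the same edge as `ab`, transfer `lt` with `lts2`). For `s ≠ b`: `ltt` gives `lt s c d a b` or `lt s a b c d`, the second one is impossible
(`k` is first). So `Cfg cr nx be lt a b r s c d` holds (`rlt` from `free`, `nbc`, `nbd` from `nob`, `c, d ∈ U`).
By `fact1` exactly one end is in `In a r s`; exchanging `c`, `d` (`crs`, `nxs`, `nxr`, `lts1`, `hsw`) we may assume
`In a r s c`, `¬ In a r s d`. `state_of_first` for the edge `(d, c) ∈ F` and the ray `s` (free for `k`; the ray `c` is crossed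
by `hall`) gives a state `(d, c; r', t)` with `r' = s` or `r'` after `s`, `t = c` or `t` after `s` on `dc`. By `fact2`
(`nob`) `r' = s ∨ In a r s r'`, and `In a r s t`. By `arc_sub` the set `{y ∈ U | In d r' t y}` is contained in
`{y ∈ U | In a r s y}`; `t` is in the second set and not in the first, so the number of elements drops. -/
theorem state_step (h : Fan cr nx be lt) {U : Finset α} {F : Finset (α × α)}
    (hsw : ∀ a b, (a, b) ∈ F → (b, a) ∈ F) (hFU : ∀ a b, (a, b) ∈ F → a ∈ U ∧ a ≠ b)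
    (hpl : ∀ a b c d, (a, b) ∈ F → (c, d) ∈ F → ¬ SameE a b c d → nx a b c d)
    (hall : ∀ z ∈ U, ∃ a b, (a, b) ∈ F ∧ cr a b z) {a b r s : α} (hs : State cr be lt U F a b r s) :
    ∃ a' b' r' s', State cr be lt U F a' b' r' s' ∧
      (∀ y, In a' r' s' y → In a r s y) ∧ ∃ t ∈ U, In a r s t ∧ ¬ In a' r' s' t := by
  classical
  obtain ⟨b1, b2, hb1, hb2, hb3, hb4⟩ := hs.blk
  obtain ⟨c0, d0, hc1, hc2, hc3⟩ := first_edge h hpl (r := s) ⟨b1, b2, hb1, hb2⟩
  have hsw' : ∀ {x y z w : α}, SameE x y z w → SameE y x z w := by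
    rintro x y z w (⟨h1, h2⟩ | ⟨h1, h2⟩)
    · exact Or.inr ⟨h2, h1⟩
    · exact Or.inl ⟨h2, h1⟩
  have hsy' : ∀ {x y z w : α}, SameE x y z w → SameE z w x y := by
    rintro x y z w (⟨h1, h2⟩ | ⟨h1, h2⟩)
    · exact Or.inl ⟨h1.symm, h2.symm⟩
    · exact Or.inr ⟨h2.symm, h1.symm⟩
  have has : a ≠ s := by
    rcases hs.sab with h1 | h1
    · rw [h1]
      exact (hFU a b hs.mem).2
    · exact (h.cne h1.1).2.1.symm
  have har : a ≠ r := (h.cne hs.rab).2.1.symm
  -- the configuration of a first edge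
  have mkc : ∀ c d, (c, d) ∈ F → cr c d s →
      (∀ c' d', (c', d') ∈ F → cr c' d' s → ¬ SameE c d c' d' → ¬ lt s c' d' c d) →
      Cfg cr nx be lt a b r s c d := by
    intro c d hcd hcs hf
    have diff : ¬ SameE a b c d := by
      intro hsame
      by_cases hsb : s = b
      · have h1 := h.cne hcs
        rcases hsame with ⟨h2, h3⟩ | ⟨h2, h3⟩
        · exact h1.2.2 (hsb.trans h3)
        · exact h1.2.1 (hsb.trans h3)
      · have hab : cr a b s := by
          rcases hs.sab with h1 | h1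
          · exact absurd h1 hsb
          · exact h1.1
        have hl := hb4 hsb
        rcases hsame with ⟨h2, h3⟩ | ⟨h2, h3⟩
        · subst h2
          subst h3
          exact hf b1 b2 hb1 hb2 hb3 hl
        · subst h2
          subst h3
          have hl2 := h.lts2 hab hb2 (hpl _ _ _ _ hs.mem hb1 hb3) hb3 hl
          exact hf b1 b2 hb1 hb2 (fun h5 => hb3 (hsw' h5)) hl2
    have hnx : nx a b c d := hpl _ _ _ _ hs.mem hcd diff
    refine ⟨(hFU a b hs.mem).2, (hFU c d hcd).2, hs.rab, hs.rs, hs.sab, hcs, hnx, diff, ?_, ?_,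
      hs.nob c (hFU c d hcd).1, hs.nob d (hFU d c (hsw c d hcd)).1⟩
    · intro hsb
      have hab : cr a b s := by
        rcases hs.sab with h1 | h1
        · exact absurd h1 hsb
        · exact h1.1
      rcases h.ltt hab hcs hnx diff with h1 | h1
      · exact absurd h1 (hf a b hs.mem hab fun h5 => diff (hsy' h5))
      · exact h1
    · intro hcr
      exact hs.free c d hcd hcr diff
  -- the first property for the reversed edge
  have frev : ∀ c d, (c, d) ∈ F → cr c d s →
      (∀ c' d', (c', d') ∈ F → cr c' d' s → ¬ SameE c d c' d' → ¬ lt s c' d' c d) →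
      (∀ c' d', (c', d') ∈ F → cr c' d' s → ¬ SameE d c c' d' → ¬ lt s c' d' d c) := by
    intro c d hcd hcs hf c' d' h1 h2 h3 h4
    have h5 := h.lts2 (h.crs hcs) h2 (hpl _ _ _ _ (hsw c d hcd) h1 h3) h3 h4
    exact hf c' d' h1 h2 (fun h6 => h3 (hsw' h6)) h5
  -- the main step
  have key : ∀ c d, (c, d) ∈ F → cr c d s →
      (∀ c' d', (c', d') ∈ F → cr c' d' s → ¬ SameE c d c' d' → ¬ lt s c' d' c d) →
      In a r s c → ¬ In a r s d →
      ∃ a' b' r' s', State cr be lt U F a' b' r' s' ∧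
        (∀ y, In a' r' s' y → In a r s y) ∧ ∃ t ∈ U, In a r s t ∧ ¬ In a' r' s' t := by
    intro c d hcd hcs hf hic hid
    have hcfg := mkc c d hcd hcs hf
    obtain ⟨r', t, hst, hr', ht⟩ := state_of_first (U := U) h (hsw c d hcd) (h.crs hcs) hs.sU
      (hFU c d hcd).1 (frev c d hcd hcs hf) (hall c (hFU c d hcd).1)
    have h1 : r' = s ∨ In a r s r' := by
      rcases hr' with h2 | ⟨h2, h3, h4⟩
      · exact Or.inl h2
      · exact Or.inr (h.fact2 hcfg hic hid h3 h2 h4 (hs.nob r' hst.rU))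
    have h2 : In a r s t := by
      rcases ht with h3 | ⟨h3, h4, h5⟩
      · rw [h3]
        exact hic
      · exact h.fact2 hcfg hic hid h4 h3 h5 (hs.nob t hst.sU)
    refine ⟨d, c, r', t, hst, fun y hy => ?_, t, hst.sU, h2, fun h3 => h3.2.2.1 rfl⟩
    exact arc_sub hs.rs has har hid (h.cne hcs).2.2.symm h1 h2 hst.rs hy
  rcases h.fact1 (mkc c0 d0 hc1 hc2 hc3) with ⟨h1, h2⟩ | ⟨h1, h2⟩
  · exact key c0 d0 hc1 hc2 hc3 h1 h2
  · exact key d0 c0 (hsw c0 d0 hc1) (h.crs hc2) (frev c0 d0 hc1 hc2 hc3) h1 h2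

end H63L
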