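import Pool.Agent.Lib.H63L.A5

/-!
# H63L, chunk A6 (S): the free ray lemma in abstract form
-/

set_option autoImplicit false

namespace H63L

open H97B

variable {α : Type} [LinearOrder α] {cr : α → α → α → Prop} {nx : α → α → α → α → Prop}
  {be : α → α → α → α → Prop} {lt : α → α → α → α → α → Prop}

/-- Chunk A6 (S). THE FREE RAY LEMMA. PROOF. Suppose every ray of `U` is crossed (`hall`). Take `z ∈ U`, the first
edge `(a, b)` on `z` (`first_edge`), a state (`state_of_first`). `state_step` can be repeated for ever, but the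
cardinality of `{y ∈ U | In a r s y}` (classical filter) drops each time: contradiction (strong induction on this cardinality:
there is no state). -/
theorem free_ray (h : Fan cr nx be lt) {U : Finset α} (hU : U.Nonempty) {F : Finset (α × α)}
    (hsw : ∀ a b, (a, b) ∈ F → (b, a) ∈ F) (hFU : ∀ a b, (a, b) ∈ F → a ∈ U ∧ a ≠ b)
    (hpl : ∀ a b c d, (a, b) ∈ F → (c, d) ∈ F → ¬ SameE a b c d → nx a b c d) :
    ∃ z ∈ U, ∀ a b, (a, b) ∈ F → ¬ cr a b z := by
  classical
  by_contra hcon
  push Not at hcon
  have hall : ∀ z ∈ U, ∃ a b, (a, b) ∈ F ∧ cr a b z := hcon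
  obtain ⟨z, hz⟩ := hU
  have hstate : ∃ a b r s, State cr be lt U F a b r s := by
    obtain ⟨a, b, hab, hcr, hfree⟩ := first_edge h hpl (hall z hz)
    have hbU : b ∈ U := (hFU b a (hsw a b hab)).1
    obtain ⟨r', s, hs, -, -⟩ := state_of_first h hab hcr hz hbU hfree (hall b hbU)
    exact ⟨a, b, r', s, hs⟩
  obtain ⟨a, b, r, s, hs⟩ := hstate
  have hno : ∀ (n : ℕ) (a b r s : α), State cr be lt U F a b r s →
      (U.filter fun y => In a r s y).card = n → False := by
    intro n
    induction n using Nat.strong_induction_on with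
    | _ n ih =>
      intro a b r s hs hn
      obtain ⟨a', b', r', s', hs', hsub, t, htU, ht1, ht2⟩ := state_step h hsw hFU hpl hall hs
      refine ih _ ?_ a' b' r' s' hs' rfl
      rw [← hn]
      refine Finset.card_lt_card ?_
      rw [Finset.ssubset_iff_of_subset]
      · exact ⟨t, Finset.mem_filter.2 ⟨htU, ht1⟩, fun h => ht2 (Finset.mem_filter.1 h).2⟩
      · intro y hy
        obtain ⟨hy1, hy2⟩ := Finset.mem_filter.1 hy
        exact Finset.mem_filter.2 ⟨hy1, hsub y hy2⟩
  exact hno _ a b r s hs rfl

end H63L
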