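import Pool.Agent.Lib.H97B.B0

/-!
# H63L: the free ray (visibility) lemma for crossing tables, abstract definitions

See `PROOF.md` in this folder. `α`: the vertices other than the pole, linearly ordered by the rotation at the
pole (cut at one place). `cr x y z`: the edge `xy` crosses the ray `z`. `nx a b c d`: the edges `ab`, `cd` do not
cross. `be x y w z`: both rays `w`, `z` cross the edge `xy`, and from `x` the ray `w` comes before the ray `z`.
`lt r c d a b`: the edges `cd` and `ab` (which do not cross) both cross the ray `r`, and seen from the pole `cd`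
comes before `ab`. `H97B.Alt x y z w`: the pairs `xy`, `zw` alternate in the cyclic order.
-/

set_option autoImplicit false

namespace H63L

open H97B

variable {α : Type} [LinearOrder α]

/-- `x` is in the open arc from `r` to `s` which does not contain `a`. -/
def In (a r s x : α) : Prop := x ≠ a ∧ x ≠ r ∧ x ≠ s ∧ Alt r s x a

/-- The ray `x` does not cross the edge `ab` strictly between the rays `r` and `s` (`s = b` is allowed). -/
def NoB (cr : α → α → α → Prop) (be : α → α → α → α → Prop) (a b r s x : α) : Prop :=
  x ≠ r → x ≠ s → cr a b x → be a b r x → s ≠ b ∧ ¬ be a b x s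

/-- The same edge. -/
def SameE (a b c d : α) : Prop := (a = c ∧ b = d) ∨ (a = d ∧ b = c)

/-- The data of one step: `r` crosses `ab`, `s` is a later ray on `ab` or the end `b`; `cd` does not cross `ab`,
crosses the ray `s` (before `ab`, if `s ≠ b`), and does not cross the ray `r` before `ab`; no end of `cd` is a ray
crossing `ab` between `r` and `s`. -/
structure Cfg (cr : α → α → α → Prop) (nx : α → α → α → α → Prop) (be : α → α → α → α → Prop)
    (lt : α → α → α → α → α → Prop) (a b r s c d : α) : Prop where
  ab : a ≠ b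
  cd : c ≠ d
  rab : cr a b r
  rs : r ≠ s
  sab : s = b ∨ (cr a b s ∧ be a b r s)
  scd : cr c d s
  nx : nx a b c d
  diff : ¬ SameE a b c d
  slt : s ≠ b → lt s c d a b
  rlt : cr c d r → ¬ lt r c d a b
  nbc : NoB cr be a b r s c
  nbd : NoB cr be a b r s d

/-- The finite facts used in the free ray lemma. -/
structure Fan (cr : α → α → α → Prop) (nx : α → α → α → α → Prop) (be : α → α → α → α → Prop)
    (lt : α → α → α → α → α → Prop) : Prop where
  /-- `xy` and `yx` are the same edge -/
  crs : ∀ {x y z}, cr x y z → cr y x z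
  cne : ∀ {x y z}, cr x y z → x ≠ y ∧ z ≠ x ∧ z ≠ y
  nxs : ∀ {a b c d}, nx a b c d → nx c d a b
  nxr : ∀ {a b c d}, nx a b c d → nx b a c d
  /-- the order of the rays along an edge -/
  bet : ∀ {x y w z}, cr x y w → cr x y z → w ≠ z → be x y w z ∨ be x y z w
  bea : ∀ {x y w z}, cr x y w → cr x y z → w ≠ z → be x y w z → ¬ be x y z w
  betr : ∀ {x y u w z}, cr x y u → cr x y w → cr x y z → u ≠ w → w ≠ z → u ≠ z →
    be x y u w → be x y w z → be x y u z
  /-- the order of the edges along a ray -/
  lts1 : ∀ {r a b c d}, cr a b r → cr c d r → nx a b c d → ¬ SameE a b c d → lt r c d a b → lt r d c a b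
  lts2 : ∀ {r a b c d}, cr a b r → cr c d r → nx a b c d → ¬ SameE a b c d → lt r c d a b → lt r c d b a
  ltt : ∀ {r a b c d}, cr a b r → cr c d r → nx a b c d → ¬ SameE a b c d →
    lt r a b c d ∨ lt r c d a b
  lta : ∀ {r a b c d}, cr a b r → cr c d r → nx a b c d → ¬ SameE a b c d →
    lt r a b c d → ¬ lt r c d a b
  lt3 : ∀ {r a b c d e f}, cr a b r → cr c d r → cr e f r → nx a b c d → nx c d e f → nx e f a b →
    ¬ SameE a b c d → ¬ SameE c d e f → ¬ SameE e f a b →
    lt r a b c d → lt r c d e f → ¬ lt r e f a b
  /-- FACT 1: exactly one end of `cd` is in the arc -/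
  fact1 : ∀ {a b r s c d}, Cfg cr nx be lt a b r s c d →
    (In a r s c ∧ ¬ In a r s d) ∨ (In a r s d ∧ ¬ In a r s c)
  /-- FACT 2: the rays crossing `dc` after `s` are in the arc -/
  fact2 : ∀ {a b r s c d x}, Cfg cr nx be lt a b r s c d → In a r s c → ¬ In a r s d →
    x ≠ s → cr d c x → be d c s x → NoB cr be a b r s x → In a r s x

end H63L
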