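import Pool.Agent.Lib.H63L.FL

/-!
# H63L, chunk F0: the open arc, order free
-/

set_option autoImplicit false

namespace H53P

open H63L

variable {V : Type} {T : Table V} {p : V}

/-- the open arc from `r` to `s` not containing `a` -/
def fin' (T : Table V) (p : V) (a r s x : Al p) : Prop :=
  x ≠ a ∧ x ≠ r ∧ x ≠ s ∧ T.alt p r.1 s.1 x.1 a.1 = true

/-- PROOF. `al_alt hρ`. -/
theorem in_fin {ρ : V → ℝ} (hρ : T.Ord p ρ) {a r s x : Al p} (rs : r ≠ s) (ar : a ≠ r) (as : a ≠ s) :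
    letI := alOrd hρ
    (H63L.In a r s x ↔ fin' T p a r s x) := by
  letI := alOrd hρ
  unfold H63L.In fin'
  constructor
  · rintro ⟨h1, h2, h3, h4⟩
    exact ⟨h1, h2, h3, (al_alt hρ rs h2.symm ar.symm h3.symm as.symm h1).1 h4⟩
  · rintro ⟨h1, h2, h3, h4⟩
    exact ⟨h1, h2, h3, (al_alt hρ rs h2.symm ar.symm h3.symm as.symm h1).2 h4⟩

/-- In a configuration `r`, `s` are different from `a`, `b` and from the ends of `cd` ... PROOF. `cr_ne`. -/
theorem cfg_ne {a b r s c d : Al p} (h : Cfg (cr T p) (fnx T p) (fbe T p) (flt T p) a b r s c d) :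
    r ≠ a ∧ r ≠ b ∧ s ≠ a ∧ s ≠ c ∧ s ≠ d := by
  have h1 := cr_ne h.rab
  have h2 := cr_ne h.scd
  refine ⟨h1.2.1, h1.2.2, ?_, h2.2.1, h2.2.2⟩
  rcases h.sab with h3 | h3
  · rw [h3]
    exact h1.1.symm
  · exact (cr_ne h3.1).2.1

/-- The clause form of `NoB`, `s ≠ b`. PROOF. `be a b r x` fails: then `be a b x r` (`fbe_t`). Otherwise
`¬ be a b x s`, and `be a b s x` (`fbe_t`). -/
theorem nob_s {a b r s x : Al p} (h : NoB (cr T p) (fbe T p) a b r s x) (hr : cr T p a b r) (hs : cr T p a b s)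
    (xr : x ≠ r) (xs : x ≠ s) (h1 : T.X p x.1 a.1 b.1 = true) (h2 : T.bfo p a.1 b.1 x.1 r.1 = false)
    (h3 : T.bfo p a.1 b.1 s.1 x.1 = false) : False := by
  have hx : cr T p a b x := h1
  have e1 : ¬ fbe T p a b x r := by
    intro h4
    unfold fbe at h4
    rw [h2] at h4
    cases h4
  have e2 : ¬ fbe T p a b s x := by
    intro h4
    unfold fbe at h4
    rw [h3] at h4
    cases h4
  have e3 : fbe T p a b r x := (fbe_t hr hx xr.symm).resolve_right e1
  have e4 : fbe T p a b x s := (fbe_t hs hx xs.symm).resolve_left e2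
  exact (h xr xs hx e3).2 e4

/-- The clause form of `NoB`, `s = b`. -/
theorem nob_b {a b r x : Al p} (h : NoB (cr T p) (fbe T p) a b r b x) (hr : cr T p a b r)
    (xr : x ≠ r) (xb : x ≠ b) (h1 : T.X p x.1 a.1 b.1 = true) (h2 : T.bfo p a.1 b.1 x.1 r.1 = false) : False := by
  have hx : cr T p a b x := h1
  have e1 : ¬ fbe T p a b x r := by
    intro h4
    unfold fbe at h4
    rw [h2] at h4
    cases h4
  have e3 : fbe T p a b r x := (fbe_t hr hx xr.symm).resolve_right e1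
  exact (h xr xb hx e3).1 rfl

end H53P
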