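import Pool.Agent.Lib.H63L.GC1
import Pool.Agent.Lib.H63L.GC2
import Pool.Agent.Lib.H63L.GC3
import Pool.Agent.Lib.H63L.GC4

/-!
# H63L, generated lemmas G1: FACT 1

Generated resolution proofs (every line is a unit propagation).
-/

set_option linter.unusedVariables false
set_option autoImplicit false

namespace H53P

variable {V : Type} (T : Table V)

include T


theorem f1_bar {p a b r : V} (hN : [p, a, b, r].Nodup) (h0 : T.X p r a b = true) (h1 : T.X p b a r = true) : False := by
  have g3 := T.q12 p a b r
  have g4 : T.X p r a b = true := h0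
  have g5 : T.X p b a r = true := h1
  have s7 := fun (n0 : T.X p b a r = true) => g3 n0 g4
  have w7 := bf s7
  exact bcontra g5 w7

theorem f1_bad {p a b r d : V} (hN : [p, a, b, r, d].Nodup) (h0 : T.X p r a b = true) (h1 : T.X p b a d = true)
    (h2 : T.X p r a d = true → T.lto p r d a a b = true → False)
    (h3 : T.X p d a b = true → T.bfo p a b d r = false → False) (h4 : T.alt p r b d a = false) : False := by
  obtain ⟨v19, e19⟩ : ∃ v : Bool, v = (T.X p a r d ^^ T.X a b r d) := ⟨_, rfl⟩
  obtain ⟨v20, e20⟩ : ∃ v : Bool, v = (v19 ^^ T.X p b r d) := ⟨_, rfl⟩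
  have B21 : T.bfo p d a b r = (bif T.alt p a d b r then T.X p b r d else T.alt p a b r d) :=
    T.bfo_eq (T.as1 p d a b r) (T.xs2 p b d r) (T.as7 p d r b a)
  obtain ⟨v22, e22⟩ : ∃ v : Bool, v = (T.X p b a d && T.bfo p d a b r) := ⟨_, rfl⟩
  have L23 : T.lto p r d a a b = (v20 ^^ v22) :=
    T.lto_eqa (T.xs6 d r p a) (T.xs6 d r a b) (T.xs7 d r b p) (T.xs2 p b d a) e19 e20 e22
  have B24 : T.bfo p a b d r = (bif T.alt p a b r d then T.X p d a r else T.alt p a r b d) :=
    T.bfo_eq (T.as2 p a b d r) rfl (T.as2 p a r d b)
  have k0 : T.Ok5 p a b r d := T.n5 hN (.cons_cons _ (.cons_cons _ (.cons_cons _ (.cons_cons _ (.cons_cons _ (List.nil_sublist _))))))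
  have g2 := T.q02 p a b r
  have g3 := T.q12 p a b r
  have g4 := T.q01 p a b d
  have g6 := T.q12 p a b d
  have g7 := T.q01 p a r d
  have g9 := T.q12 p a r d
  have g10 := T.q01 p b r d
  have g13 := T.q01 a b r d
  have g14 := T.q02 a b r d
  have g16 := T.ae1 k0
  have g31 := fun ha : T.alt p a r b d = true => zA1_9482_0 (T.okA1 k0 ha)
  have g43 := fun ha : T.alt p a r b d = true => zA1_4196_4 (T.okA1 k0 ha)
  have g64 := fun ha : T.alt p a r b d = true => zA1_292_260 (T.okA1 k0 ha)
  have g66 := fun ha : T.alt p a r b d = true => zA1_1168_1040 (T.okA1 k0 ha)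
  have g86 := fun ha : T.alt p a b r d = true => zA0_16642_16640 (T.okA0 k0 ha)
  have g99 := fun ha : T.alt p a b r d = true => zA0_16529_16 (T.okA0 k0 ha)
  have g110 := fun ha : T.alt p a b r d = true => zA0_4612_516 (T.okA0 k0 ha)
  have g115 := fun ha : T.alt p a b r d = true => zA0_4708_4100 (T.okA0 k0 ha)
  have g223 := z5_4756_20 k0
  have g230 := z5_9362_8208 k0
  have g367 : T.X p r a b = true := h0
  have g368 : T.X p b a d = true := h1
  have g370 := xr2 e19
  have g372 := xr4 e19
  have g373 := xr1 e20
  have g374 := xr2 e20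
  have g375 := xr3 e20
  have g379 := it3 B21
  have g380 := it4 B21
  have g381 := an0 e22
  have g383 := an2 e22
  have g386 := xr3 L23
  have g387 := xr4 L23
  have g388 := fun (n0 : T.X p r a d = true) (n1 : T.lto p r d a a b = true) => h2 n0 n1
  have g390 := it2 B24
  have g391 := it3 B24
  have g394 : T.alt p a d b r = false := ((T.as7 p r b d a).symm.trans h4)
  have s395 := fun (n0 : T.X p a b r = true) => g2 n0 g367
  have w395 := bf s395
  have s396 := fun (n0 : T.X p b a r = true) => g3 n0 g367
  have w396 := bf s396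
  have s397 := fun (n0 : T.X p a b d = true) => g4 n0 g368
  have w397 := bf s397
  have s398 := fun (n0 : T.X p d a b = true) => g6 g368 n0
  have w398 := bf s398
  have s399 := fun (n0 : v22 = false) (n1 : T.bfo p d a b r = true) => g381 n0 g368 n1
  have s400 : T.alt p a b r d = true → T.X p r a d = false → T.bfo p a b d r = true → False := fun n0 n1 n2 => by
    have u0 := bt fun t => g99 n0 w395 g368 n1 t
    have u1 := bt fun t => g390 n2 n0 t
    exact g86 n0 w396 u1 u0
  have s401 : T.X p r a d = false → T.bfo p a b d r = true → False := fun n0 n1 => by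
    have u0 := bf fun t => s400 t n0 n1
    have u1 := bt fun t => g16 u0 t g394
    have u2 := bf fun t => g64 u1 g367 w398 t
    have u3 := bf fun t => g66 u1 g368 n0 t
    have u4 := bf fun t => g230 w396 g368 n0 u3 t
    exact g31 u1 w396 w397 u2 u3 u4
  have s402 : T.bfo p a b d r = true → False := fun n0 => by
    have u0 := bt fun t => s401 t n0
    have u1 := bf fun t => g7 t u0
    have u2 := bf fun t => g9 u0 t
    have u3 := bf fun t => g388 u0 t
    have u4 := bf fun t => g390 n0 t u2
    have u5 := bt fun t => g16 u4 t g394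
    have u6 := bf fun t => g380 t g394 u4
    have u7 := bt fun t => g43 u5 g367 w398 u1 t
    have u8 := bf fun t => g383 t u6
    have u9 := bf fun t => g13 u7 t
    have u10 := bt fun t => g372 t u1 u7
    have u11 := bf fun t => g386 u3 t u8
    have u12 := bt fun t => g31 u5 w396 w397 u2 t u9
    have u13 := bt fun t => g375 u11 u10 t
    exact g10 u13 u12
  have w402 := bf s402
  have s403 : T.alt p a b r d = false → False := fun n0 => by
    have u0 := bt fun t => g16 n0 t g394
    exact g391 w402 n0 u0
  have w403 := bt s403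
  have s406 := fun (n0 : T.bfo p d a b r = false) => g379 n0 g394 w403
  have w406 := bt s406
  have s407 := fun (n0 : v22 = false) => s399 n0 w406
  have w407 := bt s407
  have s408 : v19 = true → T.X p r a d = true → False := fun n0 n1 => by
    have u0 := bf fun t => g388 n1 t
    have u1 := bt fun t => g387 u0 t w407
    have u2 := bf fun t => g7 t n1
    have u3 := bt fun t => g370 n0 u2 t
    have u4 := bf fun t => g373 u1 n0 t
    exact g115 w403 g367 w398 u2 u4 u3
  have s409 : T.X p r a d = true → False := fun n0 => by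
    have u0 := bf fun t => g7 t n0
    have u1 := bf fun t => g388 n0 t
    have u2 := bt fun t => g387 u1 t w407
    have u3 := bf fun t => s408 t n0
    have u4 := bf fun t => g372 u3 u0 t
    have u5 := bt fun t => g374 u2 u3 t
    exact g110 w403 g367 u5 u4
  have w409 := bf s409
  have s410 := fun (n0 : T.X a d b r = false) => g99 w403 w395 g368 w409 n0
  have w410 := bt s410
  have s411 := fun (n0 : T.X a b r d = true) => g14 n0 w410
  have w411 := bf s411
  have s416 := fun (n0 : T.X p b r d = false) => g223 g367 g368 w409 n0 w411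
  have w416 := bt s416
  exact g110 w403 g367 w416 w411

theorem f1_brd {p a b r d : V} (hN : [p, a, b, r, d].Nodup) (h0 : T.X p r a b = true) (h1 : T.X p b r d = true)
    (h2 : T.X a b r d = false) (h3 : T.X p d a b = true → T.bfo p a b d r = false → False)
    (h4 : T.alt p r b d a = false) : False := by
  have B19 : T.bfo p a b d r = (bif T.alt p a b r d then T.X p d a r else T.alt p a r b d) :=
    T.bfo_eq (T.as2 p a b d r) rfl (T.as2 p a r d b)
  have k0 : T.Ok5 p a b r d := T.n5 hN (.cons_cons _ (.cons_cons _ (.cons_cons _ (.cons_cons _ (.cons_cons _ (List.nil_sublist _))))))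
  have g16 := T.ae1 k0
  have g55 := fun ha : T.alt p a r b d = true => zA1_4612_516 (T.okA1 k0 ha)
  have g110 := fun ha : T.alt p a b r d = true => zA0_4612_516 (T.okA0 k0 ha)
  have g367 : T.X p r a b = true := h0
  have g368 : T.X p b r d = true := h1
  have g369 : T.X a b r d = false := h2
  have g375 : T.alt p a d b r = false := ((T.as7 p r b d a).symm.trans h4)
  have s380 := fun (n0 : T.alt p a r b d = true) => g55 n0 g367 g368 g369
  have w380 := bf s380
  have s381 := fun (n0 : T.alt p a b r d = true) => g110 n0 g367 g368 g369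
  have w381 := bf s381
  have s382 := fun (n0 : T.alt p a d b r = false) => g16 w381 w380 n0
  have w382 := bt s382
  exact bcontra w382 g375

theorem f1_bcd {p a b r c d : V} (hN : [p, a, b, r, c, d].Nodup) (h0 : T.X p r a b = true)
    (h1 : T.X p b c d = true) (h2 : T.X a b c d = false)
    (h3 : T.X p r c d = true → T.lto p r c d a b = true → False)
    (h4 : T.X p c a b = true → T.bfo p a b c r = false → False)
    (h5 : T.X p d a b = true → T.bfo p a b d r = false → False)
    (h6 : T.alt p r b c a = false → T.alt p r b d a = true → False)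
    (h7 : T.alt p r b c a = true → T.alt p r b d a = false → False) : False := by
  obtain ⟨v61, e61⟩ : ∃ v : Bool, v = (T.X p a r c ^^ T.X a b r c) := ⟨_, rfl⟩
  obtain ⟨v62, e62⟩ : ∃ v : Bool, v = (v61 ^^ T.X p b r c) := ⟨_, rfl⟩
  have B63 : T.bfo p c d a r = (bif T.alt p a r c d then T.X p a r c else T.alt p a d r c) :=
    T.bfo_eq (T.as4 p c d a r) (T.xs2 p a c r) (T.as6 p c r a d)
  obtain ⟨v64, e64⟩ : ∃ v : Bool, v = (T.X p a c d && T.bfo p c d a r) := ⟨_, rfl⟩
  have B65 : T.bfo p c d b r = (bif T.alt p b r c d then T.X p b r c else T.alt p b d r c) :=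
    T.bfo_eq (T.as4 p c d b r) (T.xs2 p b c r) (T.as6 p c r b d)
  obtain ⟨v66, e66⟩ : ∃ v : Bool, v = (T.X p b c d && T.bfo p c d b r) := ⟨_, rfl⟩
  obtain ⟨v67, e67⟩ : ∃ v : Bool, v = (v62 ^^ v64) := ⟨_, rfl⟩
  have L68 : T.lto p r c d a b = (v67 ^^ v66) :=
    T.lto_eq (T.xs6 c r p a) (T.xs6 c r a b) (T.xs7 c r b p) rfl rfl e61 e62 e64 e67 e66
  have B69 : T.bfo p a b c r = (bif T.alt p a b r c then T.X p c a r else T.alt p a r b c) :=
    T.bfo_eq (T.as2 p a b c r) rfl (T.as2 p a r c b)
  have B70 : T.bfo p a b d r = (bif T.alt p a b r d then T.X p d a r else T.alt p a r b d) :=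
    T.bfo_eq (T.as2 p a b d r) rfl (T.as2 p a r d b)
  have k0 : T.Ok5 p a b r c := T.n5 hN (.cons_cons _ (.cons_cons _ (.cons_cons _ (.cons_cons _ (.cons_cons _ (List.nil_sublist _))))))
  have k1 : T.Ok5 p a b r d := T.n5 hN (.cons_cons _ (.cons_cons _ (.cons_cons _ (.cons_cons _ (.cons _ (.cons_cons _ (List.nil_sublist _)))))))
  have k2 : T.Ok5 p a b c d := T.n5 hN (.cons_cons _ (.cons_cons _ (.cons_cons _ (.cons _ (.cons_cons _ (.cons_cons _ (List.nil_sublist _)))))))
  have k3 : T.Ok5 p a r c d := T.n5 hN (.cons_cons _ (.cons_cons _ (.cons _ (.cons_cons _ (.cons_cons _ (.cons_cons _ (List.nil_sublist _)))))))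
  have k4 : T.Ok5 p b r c d := T.n5 hN (.cons_cons _ (.cons _ (.cons_cons _ (.cons_cons _ (.cons_cons _ (.cons_cons _ (List.nil_sublist _)))))))
  have k5 : T.Ok5 a b r c d := T.n5 hN (.cons _ (.cons_cons _ (.cons_cons _ (.cons_cons _ (.cons_cons _ (.cons_cons _ (List.nil_sublist _)))))))
  have sp0 : T.Sp5 p a b r c d := T.sp5 hN (.cons_cons _ (.cons_cons _ (.cons_cons _ (.cons_cons _ (.cons_cons _ (.cons_cons _ (List.nil_sublist _)))))))
  have g2 := T.q02 p a b r
  have g3 := T.q12 p a b r
  have g4 := T.q01 p a b c
  have g6 := T.q12 p a b c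
  have g7 := T.q01 p a b d
  have g8 := T.q02 p a b d
  have g10 := T.q01 p a r c
  have g11 := T.q02 p a r c
  have g12 := T.q12 p a r c
  have g14 := T.q02 p a r d
  have g15 := T.q12 p a r d
  have g16 := T.q01 p a c d
  have g17 := T.q02 p a c d
  have g19 := T.q01 p b r c
  have g20 := T.q02 p b r c
  have g21 := T.q12 p b r c
  have g22 := T.q01 p b r d
  have g23 := T.q02 p b r d
  have g25 := T.q01 p b c d
  have g26 := T.q02 p b c d
  have g28 := T.q01 p r c d
  have g29 := T.q02 p r c d
  have g30 := T.q12 p r c d
  have g31 := T.q01 a b r c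
  have g32 := T.q02 a b r c
  have g34 := T.q01 a b r d
  have g35 := T.q02 a b r d
  have g40 := T.q01 a r c d
  have g41 := T.q02 a r c d
  have g42 := T.q12 a r c d
  have g43 := T.q01 b r c d
  have g44 := T.q02 b r c d
  have g46 := T.ae1 k0
  have g47 := T.ae01 k0
  have g48 := T.ae02 k0
  have g49 := T.ae12 k0
  have g60 := fun ha : T.alt p a r b c = true => zA1_2307_2048 (T.okA1 k0 ha)
  have g61 := fun ha : T.alt p a r b c = true => zA1_9482_0 (T.okA1 k0 ha)
  have g66 := fun ha : T.alt p a r b c = true => zA1_18576_16 (T.okA1 k0 ha)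
  have g73 := fun ha : T.alt p a r b c = true => zA1_4196_4 (T.okA1 k0 ha)
  have g85 := fun ha : T.alt p a r b c = true => zA1_4612_516 (T.okA1 k0 ha)
  have g94 := fun ha : T.alt p a r b c = true => zA1_292_260 (T.okA1 k0 ha)
  have g105 := fun ha : T.alt p a r b c = true => zA1_4708_4132 (T.okA1 k0 ha)
  have g106 := fun ha : T.alt p a r b c = true => zA1_4708_4164 (T.okA1 k0 ha)
  have g116 := fun ha : T.alt p a b r c = true => zA0_16642_16640 (T.okA0 k0 ha)
  have g127 := fun ha : T.alt p a b r c = true => zA0_9474_256 (T.okA0 k0 ha)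
  have g129 := fun ha : T.alt p a b r c = true => zA0_16529_16 (T.okA0 k0 ha)
  have g130 := fun ha : T.alt p a b r c = true => zA0_9226_8 (T.okA0 k0 ha)
  have g136 := fun ha : T.alt p a b r c = true => zA0_18561_2048 (T.okA0 k0 ha)
  have g137 := fun ha : T.alt p a b r c = true => zA0_4132_36 (T.okA0 k0 ha)
  have g139 := fun ha : T.alt p a b r c = true => zA0_4164_68 (T.okA0 k0 ha)
  have g140 := fun ha : T.alt p a b r c = true => zA0_4612_516 (T.okA0 k0 ha)
  have g145 := fun ha : T.alt p a b r c = true => zA0_4708_4100 (T.okA0 k0 ha)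
  have g151 := fun ha : T.alt p a b r c = true => zA0_579_576 (T.okA0 k0 ha)
  have g175 := fun ha : T.alt p a c b r = true => zA2_8228_8196 (T.okA2 k0 ha)
  have g186 := fun ha : T.alt p a c b r = true => zA2_4644_4 (T.okA2 k0 ha)
  have g199 := fun ha : T.alt p a c b r = true => zA2_18448_2064 (T.okA2 k0 ha)
  have g205 := fun ha : T.alt p a c b r = true => zA2_180_4 (T.okA2 k0 ha)
  have g217 := fun ha : T.alt p a c b r = true => zA2_4164_68 (T.okA2 k0 ha)
  have g218 := fun ha : T.alt p a c b r = true => zA2_9472_1280 (T.okA2 k0 ha)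
  have g225 := fun ha : T.alt p a c b r = true => zA2_4708_4612 (T.okA2 k0 ha)
  have g227 := T.ae1 k1
  have g228 := T.ae01 k1
  have g229 := T.ae02 k1
  have g230 := T.ae12 k1
  have g241 := fun ha : T.alt p a r b d = true => zA1_2307_2048 (T.okA1 k1 ha)
  have g242 := fun ha : T.alt p a r b d = true => zA1_9482_0 (T.okA1 k1 ha)
  have g254 := fun ha : T.alt p a r b d = true => zA1_4196_4 (T.okA1 k1 ha)
  have g266 := fun ha : T.alt p a r b d = true => zA1_4612_516 (T.okA1 k1 ha)
  have g272 := fun ha : T.alt p a r b d = true => zA1_9482_8448 (T.okA1 k1 ha)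
  have g275 := fun ha : T.alt p a r b d = true => zA1_292_260 (T.okA1 k1 ha)
  have g297 := fun ha : T.alt p a b r d = true => zA0_16642_16640 (T.okA0 k1 ha)
  have g308 := fun ha : T.alt p a b r d = true => zA0_9474_256 (T.okA0 k1 ha)
  have g310 := fun ha : T.alt p a b r d = true => zA0_16529_16 (T.okA0 k1 ha)
  have g317 := fun ha : T.alt p a b r d = true => zA0_18561_2048 (T.okA0 k1 ha)
  have g320 := fun ha : T.alt p a b r d = true => zA0_4164_68 (T.okA0 k1 ha)
  have g321 := fun ha : T.alt p a b r d = true => zA0_4612_516 (T.okA0 k1 ha)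
  have g356 := fun ha : T.alt p a d b r = true => zA2_8228_8196 (T.okA2 k1 ha)
  have g367 := fun ha : T.alt p a d b r = true => zA2_4644_4 (T.okA2 k1 ha)
  have g369 := fun ha : T.alt p a d b r = true => zA2_8458_256 (T.okA2 k1 ha)
  have g386 := fun ha : T.alt p a d b r = true => zA2_180_4 (T.okA2 k1 ha)
  have g398 := fun ha : T.alt p a d b r = true => zA2_4164_68 (T.okA2 k1 ha)
  have g408 := T.ae1 k2
  have g409 := T.ae01 k2
  have g410 := T.ae02 k2
  have g411 := T.ae12 k2
  have g431 := fun ha : T.alt p a c b d = true => zA1_4704_512 (T.okA1 k2 ha)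
  have g447 := fun ha : T.alt p a c b d = true => zA1_4612_516 (T.okA1 k2 ha)
  have g460 := fun ha : T.alt p a c b d = true => zA1_2305_257 (T.okA1 k2 ha)
  have g492 := fun ha : T.alt p a b c d = true => zA0_9226_8 (T.okA0 k2 ha)
  have g500 := fun ha : T.alt p a b c d = true => zA0_4672_576 (T.okA0 k2 ha)
  have g502 := fun ha : T.alt p a b c d = true => zA0_4612_516 (T.okA0 k2 ha)
  have g504 := fun ha : T.alt p a b c d = true => zA0_4640_544 (T.okA0 k2 ha)
  have g537 := fun ha : T.alt p a d b c = true => zA2_8228_8196 (T.okA2 k2 ha)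
  have g541 := fun ha : T.alt p a d b c = true => zA2_18577_0 (T.okA2 k2 ha)
  have g546 := fun ha : T.alt p a d b c = true => zA2_9474_2 (T.okA2 k2 ha)
  have g549 := fun ha : T.alt p a d b c = true => zA2_4676_512 (T.okA2 k2 ha)
  have g550 := fun ha : T.alt p a d b c = true => zA2_8458_256 (T.okA2 k2 ha)
  have g565 := fun ha : T.alt p a d b c = true => zA2_4640_544 (T.okA2 k2 ha)
  have g575 := fun ha : T.alt p a d b c = true => zA2_577_513 (T.okA2 k2 ha)
  have g578 := fun ha : T.alt p a d b c = true => zA2_1160_136 (T.okA2 k2 ha)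
  have g579 := fun ha : T.alt p a d b c = true => zA2_4164_68 (T.okA2 k2 ha)
  have g589 := T.ae1 k3
  have g590 := T.ae01 k3
  have g591 := T.ae02 k3
  have g592 := T.ae12 k3
  have g600 := fun ha : T.alt p a c r d = true => zA1_16420_16416 (T.okA1 k3 ha)
  have g603 := fun ha : T.alt p a c r d = true => zA1_2307_2048 (T.okA1 k3 ha)
  have g611 := fun ha : T.alt p a c r d = true => zA1_4644_32 (T.okA1 k3 ha)
  have g614 := fun ha : T.alt p a c r d = true => zA1_4676_64 (T.okA1 k3 ha)
  have g617 := fun ha : T.alt p a c r d = true => zA1_18561_1 (T.okA1 k3 ha)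
  have g620 := fun ha : T.alt p a c r d = true => zA1_18449_2048 (T.okA1 k3 ha)
  have g633 := fun ha : T.alt p a c r d = true => zA1_1608_64 (T.okA1 k3 ha)
  have g636 := fun ha : T.alt p a c r d = true => zA1_1176_128 (T.okA1 k3 ha)
  have g663 := fun ha : T.alt p a r c d = true => zA0_4708_0 (T.okA0 k3 ha)
  have g673 := fun ha : T.alt p a r c d = true => zA0_9226_8 (T.okA0 k3 ha)
  have g688 := fun ha : T.alt p a r c d = true => zA0_4708_4100 (T.okA0 k3 ha)
  have g693 := fun ha : T.alt p a r c d = true => zA0_4708_4128 (T.okA0 k3 ha)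
  have g700 := fun ha : T.alt p a r c d = true => zA0_2081_33 (T.okA0 k3 ha)
  have g718 := fun ha : T.alt p a d r c = true => zA2_8228_8196 (T.okA2 k3 ha)
  have g721 := fun ha : T.alt p a d r c = true => zA2_1176_1024 (T.okA2 k3 ha)
  have g722 := fun ha : T.alt p a d r c = true => zA2_18577_0 (T.okA2 k3 ha)
  have g727 := fun ha : T.alt p a d r c = true => zA2_9474_2 (T.okA2 k3 ha)
  have g729 := fun ha : T.alt p a d r c = true => zA2_4644_4 (T.okA2 k3 ha)
  have g730 := fun ha : T.alt p a d r c = true => zA2_4676_512 (T.okA2 k3 ha)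
  have g732 := fun ha : T.alt p a d r c = true => zA2_4704_64 (T.okA2 k3 ha)
  have g735 := fun ha : T.alt p a d r c = true => zA2_9480_8 (T.okA2 k3 ha)
  have g740 := fun ha : T.alt p a d r c = true => zA2_18433_2049 (T.okA2 k3 ha)
  have g751 := fun ha : T.alt p a d r c = true => zA2_2625_64 (T.okA2 k3 ha)
  have g756 := fun ha : T.alt p a d r c = true => zA2_577_513 (T.okA2 k3 ha)
  have g770 := T.ae1 k4
  have g771 := T.ae01 k4
  have g772 := T.ae02 k4
  have g773 := T.ae12 k4
  have g784 := fun ha : T.alt p b c r d = true => zA1_2307_2048 (T.okA1 k4 ha)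
  have g795 := fun ha : T.alt p b c r d = true => zA1_4676_64 (T.okA1 k4 ha)
  have g798 := fun ha : T.alt p b c r d = true => zA1_18561_1 (T.okA1 k4 ha)
  have g801 := fun ha : T.alt p b c r d = true => zA1_18449_2048 (T.okA1 k4 ha)
  have g803 := fun ha : T.alt p b c r d = true => zA1_9224_1032 (T.okA1 k4 ha)
  have g811 := fun ha : T.alt p b c r d = true => zA1_294_32 (T.okA1 k4 ha)
  have g814 := fun ha : T.alt p b c r d = true => zA1_1608_64 (T.okA1 k4 ha)
  have g823 := fun ha : T.alt p b c r d = true => zA1_4192_96 (T.okA1 k4 ha)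
  have g913 := fun ha : T.alt p b d r c = true => zA2_4704_64 (T.okA2 k4 ha)
  have g916 := fun ha : T.alt p b d r c = true => zA2_9480_8 (T.okA2 k4 ha)
  have g919 := fun ha : T.alt p b d r c = true => zA2_9226_1024 (T.okA2 k4 ha)
  have g921 := fun ha : T.alt p b d r c = true => zA2_18433_2049 (T.okA2 k4 ha)
  have g922 := fun ha : T.alt p b d r c = true => zA2_16401_17 (T.okA2 k4 ha)
  have g932 := fun ha : T.alt p b d r c = true => zA2_2625_64 (T.okA2 k4 ha)
  have g974 := z5_4898_768 k0
  have g978 := z5_16977_80 k0
  have g985 := z5_18596_2052 k0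
  have g991 := z5_9508_8196 k0
  have g1001 := z5_8778_520 k0
  have g1002 := z5_8778_8704 k0
  have g1020 := z5_4580_4132 k0
  have g1025 := z5_4756_516 k0
  have g1029 := z5_18596_16388 k0
  have g1032 := z5_9508_260 k0
  have g1040 := z5_7716_4132 k0
  have g1160 := z5_6241_6144 k1
  have g1161 := z5_9508_8196 k1
  have g1195 := z5_4756_516 k1
  have g1199 := z5_18596_16388 k1
  have g1202 := z5_9508_260 k1
  have g1227 := z5_6404_6404 k1
  have g1313 := z5_4898_544 k2
  have g1314 := z5_4898_768 k2
  have g1332 := z5_6241_33 k2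
  have g1341 := z5_8778_520 k2
  have g1364 := z5_5196_12 k2
  have g1365 := z5_4756_516 k2
  have g1481 := z5_10505_10240 k3
  have g1482 := z5_4898_4098 k3
  have g1483 := z5_4898_544 k3
  have g1500 := z5_6241_6144 k3
  have g1507 := z5_18596_160 k3
  have g1515 := z5_6241_4097 k3
  have g1516 := z5_8778_10 k3
  have g1524 := z5_4679_4672 k3
  have g1526 := z5_3657_73 k3
  have g1536 := z5_4756_4112 k3
  have g1540 := z5_18596_16416 k3
  have g1544 := z5_9508_8224 k3
  have g1566 := z5_612_612 k3
  have g1568 := z5_18504_18504 k3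
  have g1615 := z5_5228_5188 k3
  have g1652 := z5_4898_4098 k4
  have g1658 := z5_16977_80 k4
  have g1690 := z5_5196_1088 k4
  have g1706 := z5_4756_4112 k4
  have g1738 := z5_18504_18504 k4
  have g1751 := z5_6249_6209 k4
  have g1804 := z5_1536_1536 k5
  have g1805 := z5_12288_12288 k5
  have g1809 := z5_48_48 k5
  have g1824 := z5_4898_768 k5
  have g1832 := z5_16977_16896 k5
  have g1836 := z5_16977_513 k5
  have g1840 := z5_6241_6144 k5
  have g1842 := z5_6241_33 k5
  have g1844 := z5_16977_17 k5
  have g1846 := z5_5196_4104 k5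
  have g1851 := z5_8778_520 k5
  have g1855 := z5_6241_4097 k5
  have g1858 := z5_9362_8320 k5
  have g1878 := z5_4756_4224 k5
  have g1972 := zsp_73_1 sp0
  have g1973 := zsp_73_64 sp0
  have g1974 := zsp_73_8 sp0
  have g1975 := zsp_530_530 sp0
  have g1976 := zsp_530_2 sp0
  have g1977 := zsp_530_512 sp0
  have g1978 := zsp_530_16 sp0
  have g1984 := zsp_2336_32 sp0
  have g1985 := zsp_2336_2048 sp0
  have g1986 := zsp_2336_256 sp0
  have g1987 := zsp_4132_4132 sp0
  have g1989 := zsp_4132_4096 sp0
  have g1991 := zsp_8450_8450 sp0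
  have g1992 := zsp_8450_2 sp0
  have g1993 := zsp_8450_8192 sp0
  have g1994 := zsp_8450_256 sp0
  have g1996 := zsp_16528_16 sp0
  have g1997 := zsp_16528_16384 sp0
  have g1999 := zsp_18433_18433 sp0
  have g2000 := zsp_18433_1 sp0
  have g2001 := zsp_18433_16384 sp0
  have g2002 := zsp_18433_2048 sp0
  have g2004 := zsp_9224_8 sp0
  have g2005 := zsp_9224_8192 sp0
  have g2006 := zsp_9224_1024 sp0
  have g2008 := zsp_4672_64 sp0
  have g2009 := zsp_4672_4096 sp0
  have g2010 := zsp_4672_512 sp0
  have g2011 : T.X p r a b = true := h0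
  have g2012 : T.X p b c d = true := h1
  have g2013 : T.X a b c d = false := h2
  have g2014 := xr1 e61
  have g2015 := xr2 e61
  have g2016 := xr3 e61
  have g2017 := xr4 e61
  have g2018 := xr1 e62
  have g2019 := xr2 e62
  have g2020 := xr3 e62
  have g2021 := xr4 e62
  have g2022 := it1 B63
  have g2023 := it2 B63
  have g2024 := it3 B63
  have g2025 := it4 B63
  have g2026 := an0 e64
  have g2027 := an1 e64
  have g2028 := an2 e64
  have g2029 := it1 B65
  have g2031 := it3 B65
  have g2032 := it4 B65
  have g2033 := an0 e66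
  have g2035 := an2 e66
  have g2036 := xr1 e67
  have g2037 := xr2 e67
  have g2038 := xr3 e67
  have g2039 := xr4 e67
  have g2040 := xr1 L68
  have g2041 := xr2 L68
  have g2042 := xr3 L68
  have g2043 := xr4 L68
  have g2044 := fun (n0 : T.X p r c d = true) (n1 : T.lto p r c d a b = true) => h3 n0 n1
  have g2045 := it1 B69
  have g2046 := it2 B69
  have g2047 := it3 B69
  have g2048 := it4 B69
  have g2049 := fun (n0 : T.X p c a b = true) (n1 : T.bfo p a b c r = false) => h4 n0 n1
  have g2050 := it1 B70
  have g2051 := it2 B70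
  have g2052 := it3 B70
  have g2053 := it4 B70
  have g2054 := fun (n0 : T.X p d a b = true) (n1 : T.bfo p a b d r = false) => h5 n0 n1
  have g2055 := fun (n0 : T.alt p a c b r = false) (n1 : T.alt p a d b r = true) => h6 ((T.as7 p r b c a).trans n0) ((T.as7 p r b d a).trans n1)
  have g2056 := fun (n0 : T.alt p a c b r = true) (n1 : T.alt p a d b r = false) => h7 ((T.as7 p r b c a).trans n0) ((T.as7 p r b d a).trans n1)
  have s2057 := fun (n0 : T.X p a b r = true) => g2 n0 g2011
  have w2057 := bf s2057
  have s2058 := fun (n0 : T.X p b a r = true) => g3 n0 g2011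
  have w2058 := bf s2058
  have s2059 := fun (n0 : T.X p c b d = true) => g25 g2012 n0
  have w2059 := bf s2059
  have s2060 := fun (n0 : T.X p d b c = true) => g26 g2012 n0
  have w2060 := bf s2060
  have s2061 := fun (n0 : v66 = false) (n1 : T.bfo p c d b r = true) => g2033 n0 g2012 n1
  have s2062 : T.X p b r c = true → v64 = true → T.bfo p c d b r = false → T.bfo p a b c r = true → False := fun n0 n1 n2 n3 => by
    have u0 := bt fun t => g2027 n1 t
    have u1 := bf fun t => g500 t u0 g2012 g2013
    have u2 := bt fun t => g2028 n1 t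
    have u3 := bf fun t => g19 n0 t
    have u4 := bf fun t => g2029 n2 t n0
    have u5 := bf fun t => g2031 n2 u4 t
    have u6 := bf fun t => g2010 u1 t u4
    have u7 := bt fun t => g2025 u2 u6 t
    have u8 := bt fun t => g2002 t u7 u5
    have u9 := bt fun t => g140 u8 g2011 n0 t
    have u10 := bt fun t => g2046 n3 u8 t
    have u11 := bf fun t => g31 u9 t
    exact g127 u8 w2058 u10 u3 u11
  have s2063 : T.alt p b r c d = false → T.alt p b d r c = false → T.X p b r c = false → T.bfo p c d a r = true → T.X p a c d = true → T.X p r c d = false → T.bfo p a b c r = true → T.bfo p a b d r = true → False := fun n0 n1 n2 n3 n4 n5 n6 n7 => by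
    have u0 := bf fun t => g500 t n4 g2012 g2013
    have u1 := bf fun t => g2010 u0 t n0
    have u2 := bt fun t => g770 n0 t n1
    have u3 := bt fun t => g2025 n3 u1 t
    have u4 := bf fun t => g592 t u3
    have u5 := bt fun t => g2002 t u3 n1
    have u6 := bt fun t => g2005 t u4 u2
    have u7 := bf fun t => g47 u5 t
    have u8 := bt fun t => g2046 n6 u5 t
    have u9 := bt fun t => g2051 n7 u6 t
    have u10 := bt fun t => g1993 u7 t u2
    have u11 := bf fun t => g11 t u8
    have u12 := bf fun t => g12 t u8
    have u13 := bf fun t => g116 u5 w2058 u8 t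
    have u14 := bf fun t => g15 t u9
    have u15 := bf fun t => g297 u6 w2058 u9 t
    have u16 := bf fun t => g579 u10 t n4 g2013
    have u17 := bt fun t => g751 u3 u11 n4 n5 t
    have u18 := bf fun t => g985 g2011 u16 u12 t u13
    have u19 := bf fun t => g317 u6 w2057 u14 t u15
    have u20 := bt fun t => g784 u2 n2 t w2060 u17
    have u21 := bt fun t => g795 u2 u18 g2012 n5 t
    exact g1652 u20 u19 w2060 n5 u21
  have s2064 : T.alt p b d r c = false → T.X p b r c = false → T.bfo p c d a r = true → T.X p a c d = true → T.X p r c d = false → T.bfo p a b c r = true → T.bfo p a b d r = true → False := fun n0 n1 n2 n3 n4 n5 n6 => by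
    have u0 := bf fun t => g500 t n3 g2012 g2013
    have u1 := bt fun t => s2063 t n0 n1 n2 n3 n4 n5 n6
    have u2 := bf fun t => g771 u1 t
    have u3 := bt fun t => g2009 u0 t u1
    have u4 := bf fun t => g590 u3 t
    have u5 := bf fun t => g591 u3 t
    have u6 := bf fun t => g2004 t u4 u2
    have u7 := bf fun t => g2000 t u5 n0
    have u8 := bt fun t => g2053 n6 u6 t
    have u9 := bt fun t => g2048 n5 u7 t
    exact g1975 u9 u8 u3
  have s2065 : T.alt p b d r c = true → T.bfo p c d b r = false → False := fun n0 n1 => by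
    have u0 := bf fun t => g772 t n0
    exact g2031 n1 u0 n0
  have s2066 : T.alt p a d r c = false → T.X p b r c = false → T.alt p b c r d = true → T.bfo p c d a r = true → T.alt p b d r c = false → T.X p r c d = false → T.bfo p a b c r = true → T.bfo p a b d r = true → False := fun n0 n1 n2 n3 n4 n5 n6 n7 => by
    have u0 := bt fun t => g2025 n3 t n0
    have u1 := bf fun t => g2000 t n0 n4
    have u2 := bf fun t => g590 u0 t
    have u3 := bt fun t => g2023 n3 u0 t
    have u4 := bt fun t => g2048 n6 u1 t
    have u5 := bt fun t => g2005 t u2 n2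
    have u6 := bf fun t => g11 u3 t
    have u7 := bf fun t => g60 u4 w2057 w2058 u6 t
    have u8 := bt fun t => g2051 n7 u5 t
    have u9 := bt fun t => g795 n2 u7 g2012 n5 t
    have u10 := bt fun t => g700 u0 u3 u8 t
    have u11 := bf fun t => g44 u9 t
    have u12 := bf fun t => g1706 u7 t w2059 n5 u9
    exact g801 n2 n1 u12 u10 u11
  have s2067 : T.X p b r c = false → T.alt p b c r d = true → T.bfo p c d a r = true → T.alt p b d r c = false → v67 = true → T.X p r c d = false → T.bfo p a b c r = true → T.bfo p a b d r = true → False := fun n0 n1 n2 n3 n4 n5 n6 n7 => by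
    have u0 := bf fun t => s2064 n3 n0 n2 t n5 n6 n7
    have u1 := bf fun t => g2027 t u0
    have u2 := bt fun t => g2037 n4 t u1
    have u3 := bt fun t => g2019 u2 t n0
    have u4 := bt fun t => s2066 t n0 n1 n2 n3 n5 n6 n7
    have u5 := bf fun t => g592 t u4
    have u6 := bt fun t => g2002 t u4 n3
    have u7 := bt fun t => g2005 t u5 n1
    have u8 := bf fun t => g47 u6 t
    have u9 := bt fun t => g2046 n6 u6 t
    have u10 := bt fun t => g2051 n7 u7 t
    have u11 := bt fun t => g1993 u8 t n1
    have u12 := bf fun t => g11 t u9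
    have u13 := bf fun t => g12 t u9
    have u14 := bf fun t => g116 u6 w2058 u9 t
    have u15 := bf fun t => g15 t u10
    have u16 := bf fun t => g297 u7 w2058 u10 t
    have u17 := bt fun t => g549 u11 t u0 g2012 g2013
    have u18 := bt fun t => g2015 u3 u12 t
    have u19 := bf fun t => g136 u6 w2057 u13 t u14
    have u20 := bf fun t => g317 u7 w2057 u15 t u16
    have u21 := bt fun t => g1040 g2011 u17 n0 t u19 u18
    have u22 := bt fun t => g795 n1 u19 g2012 n5 t
    exact g1652 u21 u20 w2060 n5 u22
  have s2068 : T.alt p a b r c = true → v61 = false → T.X p b r c = true → False := fun n0 n1 n2 => by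
    have u0 := bt fun t => g140 n0 g2011 n2 t
    have u1 := bf fun t => g151 n0 w2057 w2058 t n2
    exact g2017 n1 u1 u0
  have s2069 : T.alt p b r c d = false → T.bfo p c d a r = true → T.bfo p c d b r = false → v67 = true → T.X p r c d = false → T.bfo p a b c r = true → T.bfo p a b d r = true → False := fun n0 n1 n2 n3 n4 n5 n6 => by
    have u0 := bf fun t => s2065 t n2
    have u1 := bt fun t => g770 n0 t u0
    have u2 := bt fun t => s2067 t u1 n1 u0 n3 n4 n5 n6
    have u3 := bf fun t => g19 u2 t
    have u4 := bf fun t => g20 u2 t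
    have u5 := bf fun t => s2062 u2 t n2 n5
    have u6 := bf fun t => g811 u1 u3 u4 t w2060
    have u7 := bt fun t => g795 u1 u4 g2012 n4 t
    have u8 := bt fun t => g2037 n3 t u5
    have u9 := bf fun t => g44 u7 t
    have u10 := bf fun t => g1706 u4 t w2059 n4 u7
    have u11 := bf fun t => g2018 u8 t u2
    have u12 := bt fun t => g798 u1 u2 w2059 t u9
    have u13 := bt fun t => g1751 u2 t u6 g2012 u12 u7
    have u14 := bf fun t => s2068 t u11 u2
    have u15 := bf fun t => g2002 u14 t u0
    have u16 := bt fun t => g2025 n1 t u15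
    have u17 := bf fun t => g590 u16 t
    have u18 := bt fun t => g2010 t u16 n0
    have u19 := bt fun t => g2005 t u17 u1
    have u20 := bf fun t => g504 u18 t g2012 g2013
    have u21 := bt fun t => g2051 n6 u19 t
    have u22 := bt fun t => g321 u19 g2011 u13 t
    have u23 := bt fun t => g1202 g2011 u20 u21 u10 t
    exact g34 u22 u23
  have s2070 : T.alt p a d r c = false → T.alt p b c r d = false → T.bfo p c d a r = true → T.alt p b d r c = false → T.bfo p a b c r = true → T.bfo p a b d r = true → False := fun n0 n1 n2 n3 n4 n5 => by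
    have u0 := bt fun t => g2025 n2 t n0
    have u1 := bf fun t => g2000 t n0 n3
    have u2 := bf fun t => g590 u0 t
    have u3 := bt fun t => g2048 n4 u1 t
    have u4 := bf fun t => g2004 t u2 n1
    have u5 := bf fun t => g1975 u3 t u0
    exact g2053 n5 u4 u5
  have s2071 : T.alt p b c r d = false → T.bfo p c d a r = true → T.bfo p a b d r = true → T.alt p b d r c = false → T.bfo p a b c r = true → False := fun n0 n1 n2 n3 n4 => by
    have u0 := bt fun t => s2070 t n0 n1 n3 n4 n2
    have u1 := bf fun t => g591 t u0
    have u2 := bf fun t => g592 t u0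
    have u3 := bt fun t => g2002 t u0 n3
    have u4 := bf fun t => g2004 t u2 n0
    have u5 := bf fun t => g47 u3 t
    have u6 := bt fun t => g2053 n2 u4 t
    exact g1978 u5 u6 u1
  have s2072 : T.bfo p c d a r = true → T.bfo p c d b r = false → v67 = true → T.X p r c d = false → T.bfo p a b c r = true → T.bfo p a b d r = true → False := fun n0 n1 n2 n3 n4 n5 => by
    have u0 := bf fun t => s2065 t n1
    have u1 := bt fun t => s2069 t n0 n1 n2 n3 n4 n5
    have u2 := bf fun t => g771 u1 t
    exact s2071 u2 n0 n5 u0 n4
  have s2073 : T.alt p a d r c = true → T.bfo p c d a r = false → False := fun n0 n1 => by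
    have u0 := bf fun t => g591 t n0
    exact g2024 n1 u0 n0
  have s2074 : T.X p d a r = true → T.X p d r c = false → v61 = true → T.X p r b d = false → T.X b d r c = false → T.X p c a r = false → T.alt p a r b d = true → T.alt p a c r d = true → T.X p r c d = false → False := fun n0 n1 n2 n3 n4 n5 n6 n7 n8 => by
    have u0 := bt fun t => g275 n6 g2011 t n0
    have u1 := bf fun t => g600 n7 n5 n0 t
    have u2 := bt fun t => g611 n7 n5 n0 n8 t
    have u3 := bf fun t => g1507 n5 n0 t n1 u1
    have u4 := bf fun t => g8 t u0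
    have u5 := bf fun t => g617 n7 t u3 n1 u1
    have u6 := bf fun t => g272 n6 w2058 u4 n0 n3 t
    have u7 := bt fun t => g2015 n2 u5 t
    exact g1836 u7 u6 g2013 u2 n4
  have s2075 : T.X p b r c = false → T.alt p a c b d = true → T.alt p a r b d = true → T.alt p a c r d = true → T.alt p b c r d = true → T.alt p a r b c = true → v62 = true → T.X p r c d = false → False := fun n0 n1 n2 n3 n4 n5 n6 n7 => by
    have u0 := bf fun t => g447 n1 t g2012 g2013
    have u1 := bf fun t => g94 n5 g2011 u0 t
    have u2 := bf fun t => g60 n5 w2057 w2058 u1 t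
    have u3 := bt fun t => g795 n4 u2 g2012 n7 t
    have u4 := bf fun t => g1706 u2 t w2059 n7 u3
    have u5 := bf fun t => g44 u3 t
    have u6 := bt fun t => g2019 n6 t n0
    have u7 := bf fun t => g801 n4 n0 u4 t u5
    have u8 := bf fun t => s2074 t u7 u6 u4 u5 u1 n2 n3 n7
    have u9 := bf fun t => g241 n2 w2057 w2058 u8 t
    have u10 := bf fun t => g1652 t u9 w2060 n7 u3
    have u11 := bf fun t => g991 g2011 u0 u1 u10 t
    have u12 := bt fun t => g61 n5 w2058 t u1 u10 u11
    have u13 := bf fun t => g4 u12 t
    have u14 := bf fun t => g460 n1 u12 t w2060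
    have u15 := bf fun t => g1313 u13 t u14 g2012 g2013
    have u16 := bt fun t => g431 n1 u15 t g2012 g2013
    have u17 := bf fun t => g1161 g2011 u15 u8 u4 t
    have u18 := bf fun t => g16 u16 t
    have u19 := bt fun t => g614 n3 u1 u16 n7 t
    have u20 := bf fun t => g1836 t u17 g2013 u19 u5
    have u21 := bf fun t => g41 u19 t
    have u22 := bt fun t => g2015 u6 t u20
    exact g617 n3 u22 u18 u7 u21
  have s2076 : T.alt p a r c d = false → T.alt p b c r d = true → T.alt p a r b c = true → T.alt p a d r c = false → v62 = true → T.X p r c d = false → False := fun n0 n1 n2 n3 n4 n5 => by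
    have u0 := bf fun t => g49 n2 t
    have u1 := bf fun t => g2055 u0 t
    have u2 := bf fun t => g1986 u1 t n3
    have u3 := bf fun t => g1989 u0 u1 t
    have u4 := bf fun t => g2008 t n0 u3
    have u5 := bt fun t => g589 n0 t n3
    have u6 := bt fun t => g1976 n2 t n0
    have u7 := bt fun t => g408 u4 t u2
    have u8 := bf fun t => g447 u7 t g2012 g2013
    have u9 := bf fun t => g94 n2 g2011 u8 t
    have u10 := bf fun t => g60 n2 w2057 w2058 u9 t
    have u11 := bt fun t => g795 n1 u10 g2012 n5 t
    have u12 := bf fun t => g44 u11 t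
    have u13 := bt fun t => s2075 t u7 u6 u5 n1 n2 n4 n5
    have u14 := bf fun t => g19 u13 t
    have u15 := bt fun t => g85 n2 g2011 u13 t
    have u16 := bt fun t => g798 n1 u13 w2059 t u12
    have u17 := bf fun t => g811 n1 u14 u10 t w2060
    have u18 := bf fun t => g32 u15 t
    have u19 := bt fun t => g1751 u13 t u17 g2012 u16 u11
    have u20 := bt fun t => g266 u6 g2011 u19 t
    have u21 := bf fun t => g35 u20 t
    have u22 := bt fun t => g1846 u18 u20 g2013 t u11
    have u23 := bt fun t => g1855 u15 u21 g2013 t u11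
    exact g42 u22 u23
  have s2077 : v67 = true → T.lto p r c d a b = true → T.bfo p a b c r = true → T.bfo p a b d r = true → False := fun n0 n1 n2 n3 => by
    have u0 := bf fun t => g2044 t n1
    have u1 := bf fun t => g2040 n1 n0 t
    have u2 := bf fun t => s2061 u1 t
    have u3 := bf fun t => s2065 t u2
    have u4 := bf fun t => s2072 t u2 n0 u0 n2 n3
    have u5 := bf fun t => g2028 t u4
    have u6 := bt fun t => g2037 n0 t u5
    have u7 := bf fun t => s2073 t u4
    have u8 := bf fun t => g2000 t u7 u3
    have u9 := bt fun t => g2048 n2 u8 t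
    have u10 := bf fun t => g49 u9 t
    have u11 := bf fun t => g2055 u10 t
    have u12 := bf fun t => g1989 u10 u11 t
    have u13 := bt fun t => g770 u12 t u3
    have u14 := bt fun t => s2076 t u13 u9 u7 u6 u0
    have u15 := bf fun t => g590 u14 t
    have u16 := bf fun t => g2022 u4 u14 t
    have u17 := bt fun t => g2010 t u14 u12
    have u18 := bt fun t => g2005 t u15 u13
    have u19 := bf fun t => g500 u17 t g2012 g2013
    have u20 := bf fun t => g502 u17 t g2012 g2013
    have u21 := bf fun t => g504 u17 t g2012 g2013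
    have u22 := bt fun t => g2051 n3 u18 t
    have u23 := bf fun t => g94 u9 g2011 u20 t
    have u24 := bt fun t => g73 u9 g2011 u20 u16 t
    have u25 := bf fun t => g693 u14 u23 u22 u19 u0 t
    have u26 := bf fun t => g60 u9 w2057 w2058 u23 t
    have u27 := bt fun t => g795 u13 u26 g2012 u0 t
    have u28 := bf fun t => g44 u27 t
    have u29 := bf fun t => g1706 u26 t w2059 u0 u27
    have u30 := bf fun t => g1844 u24 t g2013 u25 u28
    exact g1202 g2011 u21 u22 u29 u30
  have s2078 : T.alt p b c r d = true → T.bfo p c d b r = true → False := fun n0 n1 => by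
    have u0 := bf fun t => g771 t n0
    have u1 := bf fun t => g773 n0 t
    exact g2032 n1 u0 u1
  have s2079 : T.alt p a r c d = true → T.alt p a d r c = false → T.lto p r c d a b = true → T.bfo p a b c r = true → T.bfo p a b d r = true → False := fun n0 n1 n2 n3 n4 => by
    have u0 := bf fun t => s2077 t n2 n3 n4
    have u1 := bt fun t => g2041 n2 u0 t
    have u2 := bt fun t => g2035 u1 t
    have u3 := bf fun t => s2078 t u2
    have u4 := bf fun t => g2044 t n2
    have u5 := bf fun t => g590 n0 t
    have u6 := bf fun t => g2004 t u5 u3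
    have u7 := bt fun t => g2053 n4 u6 t
    have u8 := bf fun t => g230 u7 t
    have u9 := bf fun t => g1975 t u7 n0
    have u10 := bf fun t => g2056 t u8
    have u11 := bt fun t => g46 t u9 u10
    have u12 := bt fun t => g2000 u11 n1 t
    have u13 := bt fun t => g2046 n3 u11 t
    have u14 := bt fun t => g1972 u11 u6 t
    have u15 := bf fun t => g12 t u13
    have u16 := bf fun t => g116 u11 w2058 u13 t
    have u17 := bf fun t => g500 u14 t g2012 g2013
    have u18 := bf fun t => g502 u14 t g2012 g2013
    have u19 := bf fun t => g504 u14 t g2012 g2013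
    have u20 := bf fun t => g129 u11 w2057 t u15 u16
    have u21 := bf fun t => g985 g2011 u18 u15 t u16
    have u22 := bf fun t => g275 u7 g2011 u19 t
    have u23 := bf fun t => g241 u7 w2057 w2058 u22 t
    have u24 := bf fun t => g688 n0 u13 u22 u17 u4 t
    have u25 := bt fun t => g913 u12 u23 g2012 u4 t
    have u26 := bf fun t => g1706 u21 t w2059 u4 u25
    have u27 := bf fun t => g1161 g2011 u19 u22 u26 t
    have u28 := bf fun t => g1878 u16 u27 t u24 u25
    have u29 := bt fun t => g242 u7 w2058 t u22 u26 u27
    exact g1341 u20 u29 u17 g2012 u28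
  have s2080 : T.alt p a d r c = false → T.lto p r c d a b = true → T.bfo p a b c r = true → T.bfo p a b d r = true → False := fun n0 n1 n2 n3 => by
    have u0 := bf fun t => s2077 t n1 n2 n3
    have u1 := bt fun t => g2041 n1 u0 t
    have u2 := bt fun t => g2035 u1 t
    have u3 := bf fun t => s2078 t u2
    have u4 := bf fun t => g2044 t n1
    have u5 := bf fun t => s2079 t n0 n1 n2 n3
    have u6 := bt fun t => g589 u5 t n0
    have u7 := bt fun t => g2006 t u6 u3
    have u8 := bf fun t => g228 u7 t
    have u9 := bf fun t => g229 u7 t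
    have u10 := bt fun t => g2051 n3 u7 t
    have u11 := bf fun t => g1976 t u8 u5
    have u12 := bf fun t => g2056 t u9
    have u13 := bf fun t => g15 t u10
    have u14 := bf fun t => g297 u7 w2058 u10 t
    have u15 := bt fun t => g46 t u11 u12
    have u16 := bf fun t => g317 u7 w2057 u13 t u14
    have u17 := bt fun t => g2000 u15 n0 t
    have u18 := bt fun t => g2046 n2 u15 t
    have u19 := bt fun t => g913 u17 u16 g2012 u4 t
    have u20 := bf fun t => g11 t u18
    have u21 := bf fun t => g12 t u18
    have u22 := bf fun t => g116 u15 w2058 u18 t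
    have u23 := bf fun t => g1652 t u16 w2060 u4 u19
    have u24 := bf fun t => g129 u15 w2057 t u21 u22
    have u25 := bt fun t => g127 u15 w2058 u18 u23 t
    have u26 := bf fun t => g31 t u25
    have u27 := bf fun t => g1025 g2011 u24 u21 t u26
    have u28 := bf fun t => g1840 u26 u14 g2013 t u19
    have u29 := bt fun t => g932 u17 u27 g2012 u4 t
    exact g620 u6 u20 u13 u29 u28
  have s2081 : T.X p c a r = true → T.X b d r c = false → T.X p d a r = false → T.alt p a d b c = true → T.alt p a r b c = true → T.alt p b d r c = true → T.alt p a d r c = true → T.X p r c d = false → False := fun n0 n1 n2 n3 n4 n5 n6 n7 => by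
    have u0 := bf fun t => g565 n3 t g2012 g2013
    have u1 := bf fun t => g11 t n0
    have u2 := bt fun t => g94 n4 g2011 t n0
    have u3 := bt fun t => g729 n6 n0 n2 n7 t
    have u4 := bf fun t => g579 n3 u2 t g2013
    have u5 := bf fun t => g1500 u1 n2 u4 t u3
    have u6 := bt fun t => g932 n5 t g2012 n7 u5
    have u7 := bt fun t => g85 n4 g2011 u6 t
    have u8 := bf fun t => g922 n5 u6 t n1
    have u9 := bt fun t => g1836 u7 t g2013 u3 n1
    exact g1161 g2011 u0 n2 u8 u9
  have s2082 : T.lto p r c d a b = true → T.bfo p a b c r = true → T.bfo p a b d r = true → False := fun n0 n1 n2 => by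
    have u0 := bf fun t => g2044 t n0
    have u1 := bf fun t => s2077 t n0 n1 n2
    have u2 := bt fun t => g2041 n0 u1 t
    have u3 := bt fun t => g2035 u2 t
    have u4 := bf fun t => s2078 t u3
    have u5 := bt fun t => s2080 t n0 n1 n2
    have u6 := bf fun t => g591 t u5
    have u7 := bf fun t => g592 t u5
    have u8 := bt fun t => s2073 u5 t
    have u9 := bf fun t => g2004 t u7 u4
    have u10 := bt fun t => s2071 u4 u8 n2 t n1
    have u11 := bt fun t => g2053 n2 u9 t
    have u12 := bf fun t => g230 u11 t
    have u13 := bt fun t => g1978 t u11 u6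
    have u14 := bt fun t => g1985 u12 t u5
    have u15 := bf fun t => g565 u14 t g2012 g2013
    have u16 := bf fun t => g275 u11 g2011 u15 t
    have u17 := bf fun t => g241 u11 w2057 w2058 u16 t
    have u18 := bt fun t => g913 u10 u17 g2012 u0 t
    have u19 := bf fun t => g43 u18 t
    have u20 := bf fun t => g44 u18 t
    have u21 := bf fun t => g1652 t u17 w2060 u0 u18
    have u22 := bf fun t => s2081 t u20 u16 u14 u13 u10 u5 u0
    have u23 := bf fun t => g60 u13 w2057 w2058 u22 t
    have u24 := bf fun t => g1706 u23 t w2059 u0 u18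
    have u25 := bf fun t => g1161 g2011 u15 u16 u24 t
    have u26 := bt fun t => g242 u11 w2058 t u16 u24 u25
    have u27 := bf fun t => g7 u26 t
    have u28 := bf fun t => g578 u14 u26 t w2059
    have u29 := bf fun t => g1365 t u27 u28 g2012 g2013
    have u30 := bt fun t => g549 u14 u29 t g2012 g2013
    have u31 := bf fun t => g991 g2011 u29 u22 u21 t
    have u32 := bf fun t => g17 u30 t
    have u33 := bt fun t => g732 u5 u16 u30 u0 t
    have u34 := bf fun t => g1851 u31 t g2013 u33 u19
    have u35 := bf fun t => g40 u33 t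
    have u36 := bf fun t => g266 u11 g2011 t u34
    have u37 := bt fun t => g254 u11 g2011 u15 t u34
    have u38 := bf fun t => g919 u10 u21 u36 t u19
    exact g735 u5 u37 u32 u38 u35
  have s2083 : T.alt p a d r c = true → T.X p r c d = false → T.alt p b d r c = true → T.alt p b c r d = false → T.bfo p a b c r = true → T.bfo p a b d r = true → False := fun n0 n1 n2 n3 n4 n5 => by
    have u0 := bf fun t => g592 t n0
    have u1 := bf fun t => g1999 t n0 n2
    have u2 := bf fun t => g2004 t u0 n3
    have u3 := bt fun t => g2048 n4 u1 t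
    have u4 := bt fun t => g2053 n5 u2 t
    have u5 := bt fun t => g1992 u3 t n3
    have u6 := bf fun t => g565 u5 t g2012 g2013
    have u7 := bf fun t => g275 u4 g2011 u6 t
    have u8 := bf fun t => g241 u4 w2057 w2058 u7 t
    have u9 := bt fun t => g913 n2 u8 g2012 n1 t
    have u10 := bf fun t => g43 u9 t
    have u11 := bf fun t => g44 u9 t
    have u12 := bf fun t => g1652 t u8 w2060 n1 u9
    have u13 := bf fun t => s2081 t u11 u7 u5 u3 n2 n0 n1
    have u14 := bf fun t => g60 u3 w2057 w2058 u13 t
    have u15 := bf fun t => g1706 u14 t w2059 n1 u9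
    have u16 := bf fun t => g1161 g2011 u6 u7 u15 t
    have u17 := bt fun t => g242 u4 w2058 t u7 u15 u16
    have u18 := bf fun t => g7 u17 t
    have u19 := bf fun t => g578 u5 u17 t w2059
    have u20 := bf fun t => g1365 t u18 u19 g2012 g2013
    have u21 := bt fun t => g549 u5 u20 t g2012 g2013
    have u22 := bf fun t => g991 g2011 u20 u13 u12 t
    have u23 := bf fun t => g17 u21 t
    have u24 := bt fun t => g732 n0 u7 u21 n1 t
    have u25 := bf fun t => g1851 u22 t g2013 u24 u10
    have u26 := bf fun t => g40 u24 t
    have u27 := bf fun t => g266 u4 g2011 t u25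
    have u28 := bt fun t => g254 u4 g2011 u6 t u25
    have u29 := bf fun t => g919 n2 u12 u27 t u10
    exact g735 n0 u28 u23 u29 u26
  have s2084 : T.bfo p c d a r = true → T.X p a r c = false → T.alt p a d r c = false → False := fun n0 n1 n2 => by
    have u0 := bt fun t => g2025 n0 t n2
    exact g2023 n0 u0 n1
  have s2085 : T.alt p a r c d = true → T.X p c b r = false → T.X p b a c = false → T.X a c b r = false → T.X p c a r = true → T.alt p a r b c = false → T.X p r c d = false → T.alt p b d r c = true → False := fun n0 n1 n2 n3 n4 n5 n6 n7 => by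
    have u0 := bf fun t => g772 t n7
    have u1 := bt fun t => g2010 t n0 u0
    have u2 := bt fun t => g1977 n5 t n0
    have u3 := bf fun t => g500 u1 t g2012 g2013
    have u4 := bf fun t => g504 u1 t g2012 g2013
    have u5 := bf fun t => g275 u2 g2011 u4 t
    have u6 := bf fun t => g241 u2 w2057 w2058 u5 t
    have u7 := bf fun t => g688 n0 n4 u5 u3 n6 t
    have u8 := bt fun t => g913 n7 u6 g2012 n6 t
    have u9 := bf fun t => g1706 n1 t w2059 n6 u8
    have u10 := bf fun t => g1161 g2011 u4 u5 u9 t
    have u11 := bt fun t => g242 u2 w2058 t u5 u9 u10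
    have u12 := bf fun t => g1878 n3 u10 t u7 u8
    exact g492 u1 n2 u11 w2059 u12
  have s2086 : T.X p r c d = false → T.alt p b d r c = true → T.alt p b c r d = false → T.bfo p a b c r = true → T.bfo p a b d r = true → False := fun n0 n1 n2 n3 n4 => by
    have u0 := bf fun t => s2082 t n3 n4
    have u1 := bt fun t => s2065 n1 t
    have u2 := bt fun t => s2061 t u1
    have u3 := bt fun t => g2043 u0 t u2
    have u4 := bf fun t => s2083 t n0 n1 n2 n3 n4
    have u5 := bt fun t => g2001 t u4 n1
    have u6 := bf fun t => g47 u5 t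
    have u7 := bt fun t => g2046 n3 u5 t
    have u8 := bf fun t => g11 t u7
    have u9 := bf fun t => g12 t u7
    have u10 := bf fun t => g116 u5 w2058 u7 t
    have u11 := bf fun t => g129 u5 w2057 t u9 u10
    have u12 := bf fun t => g136 u5 w2057 u9 t u10
    have u13 := bf fun t => s2084 t u8 u4
    have u14 := bf fun t => g2028 t u13
    have u15 := bt fun t => g2037 u3 t u14
    have u16 := bf fun t => s2085 t u12 u11 u10 u7 u6 n0 n1
    have u17 := bt fun t => g589 u16 t u4
    have u18 := bt fun t => g2006 t u17 n2
    have u19 := bt fun t => g2051 n4 u18 t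
    have u20 := bf fun t => g15 t u19
    have u21 := bf fun t => g297 u18 w2058 u19 t
    have u22 := bf fun t => g317 u18 w2057 u20 t u21
    have u23 := bt fun t => g913 n1 u22 g2012 n0 t
    have u24 := bf fun t => g1652 t u22 w2060 n0 u23
    have u25 := bt fun t => g127 u5 w2058 u7 u24 t
    have u26 := bf fun t => g31 t u25
    have u27 := bf fun t => g1025 g2011 u11 u9 t u26
    have u28 := bf fun t => g2015 t u8 u26
    exact g2019 u15 u28 u27
  have s2087 : T.X a r b c = true → T.X p a b c = false → v62 = true → T.X p a r c = false → False := fun n0 n1 n2 n3 => by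
    have u0 := bf fun t => g31 t n0
    have u1 := bf fun t => g1002 w2058 n1 n3 t n0
    have u2 := bf fun t => g2015 t n3 u0
    exact g2019 n2 u2 u1
  have s2088 : T.alt p a r b c = false → T.alt p a b c d = false → T.X p c a r = true → T.alt p b d r c = true → T.alt p b c r d = false → T.bfo p a b c r = true → T.bfo p a b d r = true → False := fun n0 n1 n2 n3 n4 n5 n6 => by
    have u0 := bf fun t => g11 t n2
    have u1 := bt fun t => s2086 t n3 n4 n5 n6
    have u2 := bf fun t => s2082 t n5 n6
    have u3 := bt fun t => s2065 n3 t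
    have u4 := bt fun t => s2061 t u3
    have u5 := bt fun t => g2043 u2 t u4
    have u6 := bf fun t => g1994 n0 t n4
    have u7 := bt fun t => g2048 n5 t n0
    have u8 := bt fun t => g408 n1 t u6
    have u9 := bf fun t => g1999 u7 t n3
    have u10 := bt fun t => g1972 u7 t n1
    have u11 := bf fun t => g447 u8 t g2012 g2013
    have u12 := bf fun t => s2084 t u0 u9
    have u13 := bt fun t => g2051 n6 u10 t
    have u14 := bf fun t => g2028 t u12
    have u15 := bf fun t => g1566 n2 u13 t u1
    have u16 := bt fun t => g2037 u5 t u14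
    have u17 := bt fun t => g431 u8 t u15 g2012 g2013
    have u18 := bf fun t => g1332 t u17 u15 w2060 g2013
    have u19 := bf fun t => s2087 t u18 u16 u0
    have u20 := bt fun t => g127 u7 w2058 n2 t u19
    have u21 := bf fun t => g19 t u20
    have u22 := bf fun t => g145 u7 g2011 u11 u0 u21 t
    have u23 := bt fun t => g2019 u16 t u21
    exact g2015 u23 u0 u22
  have s2089 : T.X a b r c = false → v62 = true → T.X p b a c = false → T.X p c a r = true → False := fun n0 n1 n2 n3 => by
    have u0 := bf fun t => g12 t n3
    have u1 := bf fun t => g11 t n3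
    have u2 := bf fun t => g1025 g2011 n2 u0 t n0
    have u3 := bf fun t => g2015 t u1 n0
    exact g2019 n1 u3 u2
  have s2090 : T.alt p a r b c = true → T.X p c a r = true → v67 = true → T.alt p b c r d = false → False := fun n0 n1 n2 n3 => by
    have u0 := bf fun t => g11 t n1
    have u1 := bt fun t => g1992 n0 t n3
    have u2 := bt fun t => g94 n0 g2011 t n1
    have u3 := bf fun t => g6 t u2
    have u4 := bf fun t => g579 u1 u2 t g2013
    have u5 := bf fun t => g2027 t u4
    have u6 := bt fun t => g2037 n2 t u5
    have u7 := bt fun t => s2089 t u6 u3 n1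
    have u8 := bt fun t => g2017 t u0 u7
    have u9 := bt fun t => g105 n0 g2011 u2 u0 t u7
    exact g2018 u6 u8 u9
  have s2091 : T.X p c a r = true → T.alt p b d r c = true → T.alt p b c r d = false → T.bfo p a b c r = true → T.bfo p a b d r = true → False := fun n0 n1 n2 n3 n4 => by
    have u0 := bf fun t => s2082 t n3 n4
    have u1 := bt fun t => s2065 n1 t
    have u2 := bt fun t => s2061 t u1
    have u3 := bt fun t => g2043 u0 t u2
    have u4 := bf fun t => g11 t n0
    have u5 := bf fun t => g12 t n0
    have u6 := bf fun t => s2090 t n0 u3 n2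
    have u7 := bt fun t => g2048 n3 t u6
    have u8 := bt fun t => s2088 u6 t n0 n1 n2 n3 n4
    have u9 := bf fun t => g116 u7 w2058 n0 t
    have u10 := bf fun t => g129 u7 w2057 t u5 u9
    have u11 := bf fun t => g500 u8 t g2012 g2013
    have u12 := bf fun t => g502 u8 t g2012 g2013
    have u13 := bf fun t => g2027 t u11
    have u14 := bt fun t => g2037 u3 t u13
    have u15 := bt fun t => s2089 t u14 u10 n0
    have u16 := bt fun t => g2017 t u4 u15
    have u17 := bt fun t => g145 u7 g2011 u12 u4 t u15
    exact g2018 u14 u16 u17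
  have s2092 : v64 = false → T.X p a r c = false → T.alt p a d b c = true → T.alt p a d r c = true → T.alt p a r b c = true → T.X p c a r = false → T.X p r c d = true → v67 = true → False := fun n0 n1 n2 n3 n4 n5 n6 n7 => by
    have u0 := bf fun t => g565 n2 t g2012 g2013
    have u1 := bt fun t => s2073 n3 t
    have u2 := bf fun t => g28 n6 t
    have u3 := bt fun t => g2037 n7 t n0
    have u4 := bf fun t => g2026 n0 t u1
    have u5 := bt fun t => g549 n2 t u4 g2012 g2013
    have u6 := bf fun t => g575 n2 t u4 g2012
    have u7 := bf fun t => g1364 u5 t u4 w2059 g2013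
    have u8 := bt fun t => g730 n3 n5 u4 n6 t
    have u9 := bf fun t => g6 t u5
    have u10 := bf fun t => g537 n2 u5 u0 t
    have u11 := bf fun t => s2087 t u6 u3 n1
    have u12 := bf fun t => g550 n2 u9 u7 t u10
    have u13 := bf fun t => g40 u8 t
    have u14 := bt fun t => g61 n4 w2058 u6 n5 t u11
    have u15 := bf fun t => g727 n3 t u12 u2 u13
    have u16 := bf fun t => g19 t u14
    have u17 := bf fun t => g1020 g2011 u5 n1 u15 n5 t
    have u18 := bt fun t => g2019 u3 t u16
    exact g2015 u18 n1 u17
  have s2093 : T.X p a r c = false → v67 = true → T.alt p a d b c = true → T.alt p a d r c = true → T.alt p a r b c = true → T.X p c a r = false → T.X p r c d = true → False := fun n0 n1 n2 n3 n4 n5 n6 => by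
    have u0 := bt fun t => s2092 t n0 n2 n3 n4 n5 n6 n1
    have u1 := bt fun t => g2027 u0 t
    have u2 := bf fun t => g2036 n1 t u0
    have u3 := bf fun t => g579 n2 t u1 g2013
    have u4 := bt fun t => g73 n4 g2011 u3 n0 t
    have u5 := bf fun t => g31 u4 t
    have u6 := bt fun t => g2017 t n0 u4
    have u7 := bt fun t => g2020 u2 u6 t
    have u8 := bf fun t => g19 u7 t
    have u9 := bf fun t => g1001 w2058 t n0 u7 u5
    exact g61 n4 w2058 u9 n5 u8 u5
  have s2094 : T.X a b r c = true → v62 = false → T.X p c a b = false → T.X p a r c = true → T.alt p a r b c = true → False := fun n0 n1 n2 n3 n4 => by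
    have u0 := bf fun t => g2014 t n3 n0
    have u1 := bt fun t => g106 n4 g2011 n2 n3 t n0
    exact g2021 n1 u0 u1
  have s2095 : T.alt p b d r c = true → T.alt p b c r d = false → T.bfo p a b c r = true → T.bfo p a b d r = true → False := fun n0 n1 n2 n3 => by
    have u0 := bf fun t => s2082 t n2 n3
    have u1 := bt fun t => s2065 n0 t
    have u2 := bt fun t => s2061 t u1
    have u3 := bt fun t => g2043 u0 t u2
    have u4 := bt fun t => s2086 t n0 n1 n2 n3
    have u5 := bf fun t => s2091 t n0 n1 n2 n3
    have u6 := bf fun t => g2046 n2 t u5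
    have u7 := bt fun t => g2048 n2 u6 t
    have u8 := bt fun t => g2001 u6 t n0
    have u9 := bt fun t => g1992 u7 t n1
    have u10 := bf fun t => g60 u7 w2057 w2058 u5 t
    have u11 := bt fun t => s2073 u8 t
    have u12 := bt fun t => s2093 t u3 u9 u8 u7 u5 u4
    have u13 := bf fun t => g10 u12 t
    have u14 := bt fun t => g756 u8 u12 t u4
    have u15 := bt fun t => g2026 t u14 u11
    have u16 := bf fun t => g579 u9 t u14 g2013
    have u17 := bf fun t => g2036 u3 t u15
    have u18 := bf fun t => g1029 g2011 u16 u13 u10 t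
    have u19 := bf fun t => g66 u7 t u13 u10 u18
    have u20 := bf fun t => s2094 t u17 u16 u12 u7
    have u21 := bf fun t => g1025 g2011 u19 u13 t u20
    have u22 := bt fun t => g2016 t u12 u20
    exact g2020 u17 u22 u21
  have s2096 : T.alt p b c r d = false → T.bfo p a b c r = true → T.bfo p a b d r = true → False := fun n0 n1 n2 => by
    have u0 := bf fun t => s2095 t n0 n1 n2
    have u1 := bt fun t => g770 t n0 u0
    have u2 := bf fun t => s2071 n0 t n2 u0 n1
    have u3 := bf fun t => s2073 t u2
    have u4 := bf fun t => g2000 t u3 u0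
    have u5 := bt fun t => g2048 n1 u4 t
    have u6 := bf fun t => g49 u5 t
    have u7 := bf fun t => g2055 u6 t
    exact g1989 u6 u7 u1
  have s2097 : T.X p a r c = true → T.X p c b r = false → v62 = false → T.bfo p c d a r = false → T.alt p a d b c = false → T.alt p a r b c = true → T.alt p b r c d = false → False := fun n0 n1 n2 n3 n4 n5 n6 => by
    have u0 := bf fun t => g10 n0 t
    have u1 := bf fun t => g2022 n3 t n0
    have u2 := bf fun t => g2008 t u1 n6
    have u3 := bt fun t => g408 u2 t n4
    have u4 := bf fun t => g447 u3 t g2012 g2013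
    have u5 := bf fun t => g1029 g2011 u4 u0 n1 t
    have u6 := bf fun t => s2094 t n2 u4 n0 n5
    have u7 := bf fun t => g66 n5 t u0 n1 u5
    have u8 := bf fun t => g1025 g2011 u7 u0 t u6
    have u9 := bt fun t => g2016 t n0 u6
    exact g2020 n2 u9 u8
  have s2098 : T.X p c a b = true → T.alt p a d b c = false → False := fun n0 n1 => by
    have u0 := bf fun t => g447 t n0 g2012 g2013
    have u1 := bf fun t => g502 t n0 g2012 g2013
    exact g408 u1 u0 n1
  have s2099 : T.X p c a r = false → v62 = false → T.bfo p c d a r = false → T.alt p a d b c = false → T.alt p a r b c = true → T.alt p b r c d = false → False := fun n0 n1 n2 n3 n4 n5 => by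
    have u0 := bf fun t => s2098 t n3
    have u1 := bf fun t => g60 n4 w2057 w2058 n0 t
    have u2 := bf fun t => s2097 t u1 n1 n2 n3 n4 n5
    have u3 := bt fun t => g73 n4 g2011 u0 u2 t
    have u4 := bf fun t => g31 u3 t
    have u5 := bt fun t => g2017 t u2 u3
    have u6 := bt fun t => g2020 n1 u5 t
    have u7 := bf fun t => g19 u6 t
    have u8 := bf fun t => g1001 w2058 t u2 u6 u4
    exact g61 n4 w2058 u8 n0 u7 u4
  have s2100 : T.bfo p c d a r = false → T.alt p a d b c = false → T.alt p a r b c = true → v67 = false → T.alt p b r c d = false → False := fun n0 n1 n2 n3 n4 => by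
    have u0 := bf fun t => s2098 t n1
    have u1 := bf fun t => g94 n2 g2011 u0 t
    have u2 := bf fun t => g2028 t n0
    have u3 := bt fun t => s2099 u1 t n0 n1 n2 n4
    exact g2038 n3 u3 u2
  have s2101 : T.alt p a r b c = true → T.bfo p a b c r = true → T.bfo p a b d r = true → False := fun n0 n1 n2 => by
    have u0 := bf fun t => s2082 t n1 n2
    have u1 := bt fun t => s2096 t n1 n2
    have u2 := bf fun t => s2078 u1 t
    have u3 := bf fun t => g2035 t u2
    have u4 := bf fun t => g2042 u0 t u3
    have u5 := bf fun t => g773 u1 t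
    have u6 := bf fun t => g771 t u1
    have u7 := bf fun t => g47 t n0
    have u8 := bf fun t => g1991 n0 t u1
    have u9 := bf fun t => g2002 u7 t u5
    have u10 := bf fun t => s2098 t u8
    have u11 := bt fun t => s2100 t u8 n0 u4 u6
    have u12 := bt fun t => g2025 u11 t u9
    have u13 := bt fun t => s2084 u11 t u9
    have u14 := bf fun t => g590 u12 t
    have u15 := bt fun t => g2010 t u12 u6
    have u16 := bt fun t => g2005 t u14 u1
    have u17 := bf fun t => g500 u15 t g2012 g2013
    have u18 := bt fun t => g2051 n2 u16 t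
    have u19 := bf fun t => g2027 t u17
    have u20 := bt fun t => g700 u12 u13 u18 t
    have u21 := bf fun t => g2038 u4 t u19
    have u22 := bf fun t => g29 t u20
    have u23 := bf fun t => s2094 t u21 u10 u13 n0
    have u24 := bt fun t => s2066 u9 t u1 u11 u5 u22 n1 n2
    exact g85 n0 g2011 u24 u23
  have s2102 : v64 = false → T.bfo p c d a r = true → T.X p c a r = true → T.alt p a b r c = true → T.alt p a d b c = true → v67 = false → False := fun n0 n1 n2 n3 n4 n5 => by
    have u0 := bf fun t => g11 t n2
    have u1 := bf fun t => g2026 n0 t n1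
    have u2 := bf fun t => g2038 n5 t n0
    have u3 := bt fun t => g549 n4 t u1 g2012 g2013
    have u4 := bt fun t => g137 n3 g2011 u3 t
    have u5 := bf fun t => g31 u4 t
    have u6 := bt fun t => g2017 t u0 u4
    have u7 := bt fun t => g127 n3 w2058 n2 t u5
    have u8 := bt fun t => g2020 u2 u6 t
    exact g19 u8 u7
  have s2103 : T.bfo p a b c r = true → T.bfo p a b d r = true → False := fun n0 n1 => by
    have u0 := bf fun t => s2082 t n0 n1
    have u1 := bt fun t => s2096 t n0 n1
    have u2 := bf fun t => g773 u1 t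
    have u3 := bf fun t => s2078 u1 t
    have u4 := bf fun t => g2035 t u3
    have u5 := bf fun t => g2042 u0 t u4
    have u6 := bf fun t => s2101 t n0 n1
    have u7 := bt fun t => g1993 u6 t u1
    have u8 := bt fun t => g2048 n0 t u6
    have u9 := bf fun t => g410 t u7
    have u10 := bt fun t => g2000 u8 t u2
    have u11 := bt fun t => g2046 n0 u8 t
    have u12 := bt fun t => g1972 u8 t u9
    have u13 := bt fun t => s2073 u10 t
    have u14 := bt fun t => g2051 n1 u12 t
    have u15 := bt fun t => s2102 t u13 u11 u8 u7 u5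
    have u16 := bt fun t => g2027 u15 t
    have u17 := bf fun t => s2062 t u15 u3 n0
    have u18 := bf fun t => g1566 u11 u14 u16 t
    exact s2064 u2 u17 u13 u16 u18 n0 n1
  have s2104 : T.X p b r d = true → T.X p d a r = true → T.alt p a b r d = true → False := fun n0 n1 n2 => by
    have u0 := bf fun t => g297 n2 w2058 n1 t
    have u1 := bf fun t => g15 t n1
    have u2 := bf fun t => g310 n2 w2057 t u1 u0
    have u3 := bf fun t => g22 n0 t
    have u4 := bt fun t => g1195 g2011 u2 u1 n0 t
    have u5 := bt fun t => g308 n2 w2058 n1 u3 t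
    exact g34 u4 u5
  have s2105 : T.alt p b c r d = true → T.alt p a r b c = false → T.bfo p a b d r = true → False := fun n0 n1 n2 => by
    have u0 := bf fun t => s2103 t n2
    have u1 := bf fun t => g2049 t u0
    have u2 := bf fun t => g773 n0 t
    have u3 := bf fun t => s2078 n0 t
    have u4 := bt fun t => g1993 n1 t n0
    have u5 := bf fun t => g2035 t u3
    have u6 := bf fun t => g410 t u4
    have u7 := bf fun t => g411 t u4
    have u8 := bt fun t => g549 u4 u1 t g2012 g2013
    have u9 := bf fun t => g1996 t u7 u2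
    have u10 := bf fun t => g16 u8 t
    have u11 := bf fun t => g17 u8 t
    have u12 := bt fun t => g2053 n2 t u9
    have u13 := bf fun t => g229 u12 t
    have u14 := bt fun t => g2051 n2 u12 t
    have u15 := bt fun t => g1974 t u12 u6
    have u16 := bt fun t => g1986 u13 u4 t
    have u17 := bf fun t => g14 t u14
    have u18 := bf fun t => g15 t u14
    have u19 := bf fun t => g2045 u0 u15 t
    have u20 := bt fun t => s2073 u16 t
    have u21 := bf fun t => g721 u16 u17 u18 u10 t
    have u22 := bt fun t => g2026 t u8 u20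
    have u23 := bf fun t => g1544 u19 u14 u11 u21 t
    have u24 := bf fun t => g727 u16 t u11 u21 u23
    have u25 := bf fun t => s2104 t u14 u12
    have u26 := bt fun t => g814 n0 u25 g2012 t u21
    have u27 := bt fun t => g1483 u24 u14 u11 u26 t
    have u28 := bt fun t => g1524 t u24 u19 u8 u26 u27
    have u29 := bt fun t => g139 u15 g2011 u28 t
    have u30 := bf fun t => g2014 t u28 u29
    have u31 := bf fun t => g151 u15 w2057 w2058 u28 t
    have u32 := bf fun t => g2019 t u30 u31
    have u33 := bf fun t => g2044 u26 t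
    have u34 := bt fun t => g2039 t u32 u22
    exact g2042 u33 u34 u5
  have s2106 : T.X p b r c = false → v62 = true → T.X p a r c = false → T.alt p a b r c = true → T.X p c a b = false → False := fun n0 n1 n2 n3 n4 => by
    have u0 := bt fun t => g2019 n1 t n0
    have u1 := bf fun t => g145 n3 g2011 n4 n2 n0 t
    exact g2015 u0 n2 u1
  have s2107 : v62 = true → T.X p a r c = false → T.X p c a b = false → T.alt p a b r c = true → False := fun n0 n1 n2 n3 => by
    have u0 := bt fun t => s2106 t n0 n1 n3 n2
    have u1 := bf fun t => g2018 n0 t u0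
    exact s2068 n3 u1 u0
  have s2108 : T.alt p a b r d = true → T.X p d a r = true → T.X p r c d = true → T.alt p b c r d = false → T.alt p a r b c = false → T.bfo p a b c r = false → False := fun n0 n1 n2 n3 n4 n5 => by
    have u0 := bf fun t => g15 t n1
    have u1 := bf fun t => g14 t n1
    have u2 := bf fun t => g2044 n2 t
    have u3 := bf fun t => g29 n2 t
    have u4 := bf fun t => g28 n2 t
    have u5 := bf fun t => g1994 n4 t n3
    have u6 := bf fun t => g2049 t n5
    have u7 := bf fun t => g228 n0 t
    have u8 := bf fun t => g229 n0 t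
    have u9 := bt fun t => g2004 n0 t n3
    have u10 := bf fun t => g1977 n4 u7 t
    have u11 := bf fun t => g2056 t u8
    have u12 := bf fun t => g1985 u8 u5 t
    have u13 := bf fun t => g636 u9 u1 u0 t u4
    have u14 := bf fun t => g1989 u11 u8 t
    have u15 := bt fun t => g46 t n4 u11
    have u16 := bf fun t => g2025 t u10 u12
    have u17 := bt fun t => g770 u14 n3 t
    have u18 := bf fun t => g2045 n5 u15 t
    have u19 := bf fun t => g2028 t u16
    have u20 := bt fun t => s2065 u17 t
    have u21 := bf fun t => g1540 u18 n1 u13 u3 t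
    have u22 := bt fun t => s2061 t u20
    have u23 := bf fun t => g617 u9 t u13 u3 u21
    have u24 := bt fun t => g2043 u2 t u22
    have u25 := bt fun t => g2037 u24 t u19
    exact s2107 u25 u23 u6 u15
  have s2109 : T.X p d a r = true → T.X p r c d = true → T.alt p a r b c = false → T.bfo p a b d r = true → False := fun n0 n1 n2 n3 => by
    have u0 := bf fun t => s2105 t n2 n3
    have u1 := bf fun t => s2103 t n3
    have u2 := bf fun t => s2108 t n0 n1 u0 n2 u1
    have u3 := bt fun t => g2053 n3 u2 t
    have u4 := bf fun t => g230 u3 t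
    have u5 := bt fun t => g1978 n2 u3 t
    have u6 := bt fun t => g275 u3 g2011 t n0
    have u7 := bf fun t => g2056 t u4
    have u8 := bf fun t => g504 t u6 g2012 g2013
    have u9 := bf fun t => g1989 u7 u4 t
    exact g2010 u8 u5 u9
  have s2110 : v62 = true → T.alt p a b r c = true → T.X p c a b = false → False := fun n0 n1 n2 => by
    have u0 := bt fun t => s2107 n0 t n2 n1
    have u1 := bf fun t => g151 n1 w2057 w2058 u0 t
    have u2 := bt fun t => g139 n1 g2011 u0 t
    have u3 := bf fun t => g2014 t u0 u2
    exact g2019 n0 u3 u1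
  have s2111 : T.X p r c d = true → T.alt p a r b c = false → T.bfo p a b d r = true → False := fun n0 n1 n2 => by
    have u0 := bf fun t => s2105 t n1 n2
    have u1 := bf fun t => s2103 t n2
    have u2 := bf fun t => g2049 t u1
    have u3 := bf fun t => g2044 n0 t
    have u4 := bf fun t => s2109 t n0 n1 n2
    have u5 := bf fun t => g2051 n2 t u4
    have u6 := bt fun t => g2053 n2 u5 t
    have u7 := bf fun t => g230 u6 t
    have u8 := bt fun t => g1978 n1 u6 t
    have u9 := bf fun t => g2056 t u7
    have u10 := bf fun t => g1989 u9 u7 t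
    have u11 := bt fun t => g46 t n1 u9
    have u12 := bt fun t => g770 u10 u0 t
    have u13 := bt fun t => g2010 t u8 u10
    have u14 := bt fun t => s2065 u12 t
    have u15 := bf fun t => g500 u13 t g2012 g2013
    have u16 := bt fun t => s2061 t u14
    have u17 := bf fun t => g2027 t u15
    have u18 := bt fun t => g2043 u3 t u16
    have u19 := bt fun t => g2037 u18 t u17
    exact s2110 u19 u11 u2
  have s2112 : T.X p d a r = false → T.alt p a b r c = true → T.alt p a r b c = false → T.bfo p a b d r = true → False := fun n0 n1 n2 n3 => by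
    have u0 := bf fun t => s2105 t n2 n3
    have u1 := bf fun t => g48 n1 t
    have u2 := bf fun t => g2055 u1 t
    have u3 := bf fun t => g1989 u1 u2 t
    have u4 := bt fun t => g770 u3 u0 t
    have u5 := bf fun t => s2103 t n3
    have u6 := bf fun t => g2045 u5 n1 t
    have u7 := bf fun t => s2111 t n2 n3
    have u8 := bf fun t => g2049 t u5
    have u9 := bf fun t => g2051 n3 t n0
    have u10 := bt fun t => g2053 n3 u9 t
    have u11 := bt fun t => g1972 n1 u9 t
    have u12 := bt fun t => g1978 n2 u10 t
    have u13 := bf fun t => g241 u10 w2057 w2058 n0 t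
    have u14 := bf fun t => g500 u11 t g2012 g2013
    have u15 := bf fun t => g504 u11 t g2012 g2013
    have u16 := bt fun t => g663 u12 u6 n0 u14 u7 t
    have u17 := bt fun t => g913 u4 u13 g2012 u7 t
    have u18 := bf fun t => g40 u16 t
    have u19 := bf fun t => g43 u17 t
    have u20 := bf fun t => g1652 t u13 w2060 u7 u17
    have u21 := bf fun t => g991 g2011 u8 u6 u20 t
    have u22 := bf fun t => g1851 u21 t g2013 u16 u19
    have u23 := bf fun t => g266 u10 g2011 t u22
    have u24 := bt fun t => g254 u10 g2011 u15 t u22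
    have u25 := bf fun t => g919 u4 u20 u23 t u19
    have u26 := bf fun t => g1516 t u24 u14 u7 u18
    exact g673 u12 u26 u24 u25 u18
  have s2113 : T.alt p a b r d = false → T.X p d a r = true → T.alt p a b r c = true → T.bfo p a b d r = true → False := fun n0 n1 n2 n3 => by
    have u0 := bt fun t => g2053 n3 n0 t
    have u1 := bt fun t => g1972 n2 n0 t
    have u2 := bt fun t => g275 u0 g2011 t n1
    exact g504 u1 u2 g2012 g2013
  have s2114 : T.alt p a b r c = true → T.alt p a r b c = false → T.bfo p a b d r = true → False := fun n0 n1 n2 => by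
    have u0 := bf fun t => s2111 t n1 n2
    have u1 := bf fun t => s2105 t n1 n2
    have u2 := bf fun t => s2103 t n2
    have u3 := bf fun t => g48 n0 t
    have u4 := bf fun t => g2045 u2 n0 t
    have u5 := bf fun t => g2055 u3 t
    have u6 := bf fun t => g1989 u3 u5 t
    have u7 := bt fun t => g770 u6 u1 t
    have u8 := bt fun t => s2112 t n0 n1 n2
    have u9 := bf fun t => g15 t u8
    have u10 := bt fun t => s2113 t u8 n0 n2
    have u11 := bt fun t => g2004 u10 t u1
    have u12 := bf fun t => g297 u10 w2058 u8 t
    have u13 := bf fun t => g600 u11 u4 u8 t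
    have u14 := bf fun t => g317 u10 w2057 u9 t u12
    have u15 := bt fun t => g913 u7 u14 g2012 u0 t
    have u16 := bf fun t => g1855 t u12 g2013 u13 u15
    have u17 := bf fun t => g139 n0 g2011 t u16
    have u18 := bf fun t => g140 n0 g2011 t u16
    have u19 := bf fun t => g620 u11 u17 u9 t u13
    exact g932 u7 u18 g2012 u0 u19
  have s2115 : T.alt p a d b r = true → T.bfo p a b d r = true → False := fun n0 n1 => by
    have u0 := bf fun t => g229 t n0
    have u1 := bf fun t => g230 t n0
    exact g2053 n1 u0 u1
  have s2116 : T.alt p a b r c = false → T.bfo p a b d r = true → False := fun n0 n1 => by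
    have u0 := bf fun t => s2115 t n1
    have u1 := bf fun t => g2056 t u0
    have u2 := bf fun t => s2103 t n1
    have u3 := bf fun t => g2047 u2 n0 t
    exact g46 n0 u3 u1
  have s2117 : T.bfo p a b d r = true → False := fun n0 => by
    have u0 := bt fun t => s2116 t n0
    have u1 := bf fun t => g47 u0 t
    exact s2114 u0 u1 n0
  have w2117 := bf s2117
  have s2118 := fun (n0 : T.X p d a b = true) => g2054 n0 w2117
  have w2118 := bf s2118
  have s2119 : T.alt p a b r d = false → T.alt p a d b r = false → False := fun n0 n1 => by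
    have u0 := bf fun t => g2052 w2117 n0 t
    exact g227 n0 u0 n1
  have s2120 : T.X a b r c = false → T.X a d r c = false → T.X p r a d = false → T.alt p a c r d = true → T.alt p b d r c = true → T.X p r c d = false → T.alt p a b r c = true → False := fun n0 n1 n2 n3 n4 n5 n6 => by
    have u0 := bf fun t => g139 n6 g2011 t n0
    have u1 := bf fun t => g140 n6 g2011 t n0
    have u2 := bf fun t => g620 n3 u0 n2 t n1
    exact g932 n4 u1 g2012 n5 u2
  have s2121 : T.X b r c d = true → T.X a b r c = true → T.X a r c d = true → False := fun n0 n1 n2 => by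
    have u0 := bf fun t => g41 n2 t
    have u1 := bf fun t => g44 n0 t
    have u2 := bt fun t => g1855 n1 t g2013 u0 n0
    have u3 := bt fun t => g1836 n1 t g2013 n2 u1
    exact g1809 u3 u2
  have s2122 : T.alt p b d r c = true → T.X p r c d = false → T.X p c a r = false → T.alt p a b r c = true → T.alt p a b r d = true → False := fun n0 n1 n2 n3 n4 => by
    have u0 := bf fun t => g228 n4 t
    have u1 := bf fun t => g773 t n0
    have u2 := bt fun t => g1997 u0 t n0
    have u3 := bt fun t => g2004 n4 t u1
    have u4 := bt fun t => g431 u2 w2118 t g2012 g2013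
    have u5 := bf fun t => g16 u4 t
    have u6 := bt fun t => g614 u3 n2 u4 n1 t
    have u7 := bf fun t => g1536 n2 t u5 n1 u6
    have u8 := bf fun t => g41 u6 t
    have u9 := bt fun t => s2120 t u8 u7 u3 n0 n1 n3
    have u10 := bf fun t => s2121 t u9 u6
    have u11 := bf fun t => g1842 u9 t g2013 u8 u10
    have u12 := bt fun t => g913 n0 t g2012 n1 u10
    exact g317 n4 w2057 u7 u12 u11
  have s2123 : T.X b r c d = false → T.alt p b c r d = true → T.X p r c d = false → T.bfo p a b c r = false → T.alt p a b r c = true → T.alt p a b r d = true → False := fun n0 n1 n2 n3 n4 n5 => by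
    have u0 := bf fun t => g2045 n3 n4 t
    have u1 := bf fun t => s2122 t n2 u0 n4 n5
    have u2 := bt fun t => g2000 n4 t u1
    have u3 := bf fun t => g2050 w2117 n5 t
    have u4 := bf fun t => g2049 t n3
    have u5 := bf fun t => g47 n4 t
    have u6 := bt fun t => g1993 u5 t n1
    have u7 := bt fun t => g549 u6 u4 t g2012 g2013
    have u8 := bt fun t => g732 u2 u3 u7 n2 t
    have u9 := bf fun t => g16 u7 t
    have u10 := bf fun t => g1536 u0 t u9 n2 u8
    have u11 := bt fun t => g795 n1 t g2012 n2 n0
    have u12 := bf fun t => g823 n1 t g2012 n0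
    have u13 := bf fun t => g21 t u11
    have u14 := bf fun t => g1199 g2011 w2118 u10 u12 t
    have u15 := bf fun t => g991 g2011 u4 u0 u13 t
    have u16 := bf fun t => g130 n4 w2058 t u13 u15
    have u17 := bf fun t => g310 n5 w2057 t u10 u14
    have u18 := bf fun t => g1824 u15 u14 t u8 n0
    exact g541 u6 u16 u17 u9 w2060 u18
  have s2124 : T.X p r c d = false → T.bfo p a b c r = false → T.alt p a b r c = true → T.alt p a c b r = false → False := fun n0 n1 n2 n3 => by
    have u0 := bf fun t => g2045 n1 n2 t
    have u1 := bf fun t => g2049 t n1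
    have u2 := bf fun t => g47 n2 t
    have u3 := bf fun t => g2055 n3 t
    have u4 := bt fun t => s2119 t u3
    have u5 := bf fun t => g2050 w2117 u4 t
    have u6 := bf fun t => g1989 n3 u3 t
    have u7 := bf fun t => s2122 t n0 u0 n2 u4
    have u8 := bt fun t => g770 u6 t u7
    have u9 := bt fun t => g2000 n2 t u7
    have u10 := bt fun t => g1993 u2 t u8
    have u11 := bt fun t => g549 u10 u1 t g2012 g2013
    have u12 := bf fun t => g16 u11 t
    have u13 := bt fun t => g732 u9 u5 u11 n0 t
    have u14 := bf fun t => g1536 u0 t u12 n0 u13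
    have u15 := bf fun t => g41 u13 t
    have u16 := bt fun t => s2123 t u8 n0 n1 n2 u4
    have u17 := bf fun t => g44 u16 t
    have u18 := bf fun t => s2121 u16 t u13
    have u19 := bf fun t => g139 n2 g2011 t u18
    have u20 := bf fun t => g140 n2 g2011 t u18
    have u21 := bt fun t => g722 u9 u19 u14 u12 t u15
    have u22 := bf fun t => g1658 u20 t g2012 n0 u17
    exact g801 u8 u20 u22 u21 u17
  have s2125 : T.alt p b d r c = false → T.lto p r c d a b = false → T.X p c a b = false → T.alt p a b r c = true → T.alt p b r c d = false → False := fun n0 n1 n2 n3 n4 => by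
    have u0 := bf fun t => s2110 t n3 n2
    have u1 := bf fun t => g47 n3 t
    have u2 := bt fun t => g770 n4 t n0
    have u3 := bt fun t => g2000 n3 t n0
    have u4 := bf fun t => g2032 t n4 n0
    have u5 := bt fun t => g1993 u1 t u2
    have u6 := bt fun t => s2073 u3 t
    have u7 := bf fun t => g2035 t u4
    have u8 := bt fun t => g549 u5 n2 t g2012 g2013
    have u9 := bt fun t => g2026 t u8 u6
    have u10 := bf fun t => g2042 n1 t u7
    exact g2039 u10 u0 u9
  have s2126 : T.bfo p a b c r = false → T.alt p a b r c = true → T.alt p a c b r = false → False := fun n0 n1 n2 => by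
    have u0 := bf fun t => g47 n1 t
    have u1 := bf fun t => g2055 n2 t
    have u2 := bt fun t => s2119 t u1
    have u3 := bf fun t => g228 u2 t
    have u4 := bf fun t => g1977 u0 u3 t
    have u5 := bf fun t => g1989 n2 u1 t
    have u6 := bf fun t => g2049 t n0
    have u7 := bf fun t => s2110 t n1 u6
    have u8 := bt fun t => s2124 t n0 n1 n2
    have u9 := bf fun t => g2044 u8 t
    have u10 := bt fun t => s2125 t u9 u6 n1 u5
    have u11 := bt fun t => s2065 u10 t
    have u12 := bf fun t => g1999 n1 t u10
    have u13 := bt fun t => s2061 t u11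
    have u14 := bf fun t => g2025 t u4 u12
    have u15 := bt fun t => g2043 u9 t u13
    have u16 := bf fun t => g2028 t u14
    exact g2037 u15 u7 u16
  have s2127 : T.alt p b d r c = true → T.lto p r c d a b = false → T.alt p a b r c = true → T.alt p a r b d = false → False := fun n0 n1 n2 n3 => by
    have u0 := bf fun t => g47 n2 t
    have u1 := bf fun t => g1977 u0 n3 t
    have u2 := bt fun t => s2065 n0 t
    have u3 := bf fun t => g1999 n2 t n0
    have u4 := bt fun t => g1997 n3 t n0
    have u5 := bt fun t => s2061 t u2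
    have u6 := bf fun t => g2025 t u1 u3
    have u7 := bf fun t => g447 u4 t g2012 g2013
    have u8 := bt fun t => g2043 n1 t u5
    have u9 := bf fun t => g2028 t u6
    have u10 := bf fun t => s2110 t n2 u7
    exact g2037 u8 u10 u9
  have s2128 : T.lto p r c d a b = false → T.alt p a b r c = true → T.alt p a c b r = false → False := fun n0 n1 n2 => by
    have u0 := bt fun t => s2126 t n1 n2
    have u1 := bt fun t => g2046 u0 n1 t
    have u2 := bf fun t => g47 n1 t
    have u3 := bf fun t => g2055 n2 t
    have u4 := bt fun t => s2119 t u3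
    have u5 := bf fun t => g228 u4 t
    have u6 := bf fun t => g1989 n2 u3 t
    have u7 := bf fun t => s2127 t n0 n1 u5
    have u8 := bt fun t => g770 u6 t u7
    have u9 := bt fun t => g2000 n1 t u7
    have u10 := bf fun t => g2032 t u6 u7
    have u11 := bt fun t => s2125 u7 n0 t n1 u6
    have u12 := bt fun t => g1993 u2 t u8
    have u13 := bt fun t => s2073 u9 t
    have u14 := bf fun t => g2035 t u10
    have u15 := bf fun t => g579 u12 u11 t g2013
    have u16 := bf fun t => g2042 n0 t u14
    have u17 := bf fun t => g2027 t u15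
    exact s2102 u17 u13 u1 n1 u12 u16
  have s2129 : T.alt p b d r c = false → T.alt p a b r c = true → T.alt p a c b r = false → False := fun n0 n1 n2 => by
    have u0 := bt fun t => s2128 t n1 n2
    have u1 := bf fun t => g2044 t u0
    have u2 := bt fun t => s2126 t n1 n2
    have u3 := bt fun t => g2046 u2 n1 t
    have u4 := bf fun t => g12 t u3
    have u5 := bf fun t => g116 n1 w2058 u3 t
    have u6 := bf fun t => g136 n1 w2057 u4 t u5
    have u7 := bf fun t => g47 n1 t
    have u8 := bf fun t => g2055 n2 t
    have u9 := bt fun t => s2119 t u8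
    have u10 := bf fun t => g2050 w2117 u9 t
    have u11 := bf fun t => g1989 n2 u8 t
    have u12 := bt fun t => g770 u11 t n0
    have u13 := bt fun t => g2000 n1 t n0
    have u14 := bt fun t => g1993 u7 t u12
    have u15 := bt fun t => g795 u12 u6 g2012 u1 t
    have u16 := bf fun t => g718 u13 u3 u10 t
    have u17 := bt fun t => g729 u13 u3 u10 u1 t
    have u18 := bf fun t => s2121 u15 t u17
    have u19 := bf fun t => g1846 u5 t g2013 u16 u15
    have u20 := bf fun t => g137 n1 g2011 t u18
    have u21 := bf fun t => g320 u9 g2011 t u19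
    have u22 := bf fun t => g321 u9 g2011 t u19
    have u23 := bt fun t => g549 u14 u20 t g2012 g2013
    have u24 := bf fun t => g1615 u3 u21 u10 u23 t u17
    exact g814 u12 u22 g2012 u1 u24
  have s2130 : T.alt p a b r c = true → T.alt p a c b r = false → False := fun n0 n1 => by
    have u0 := bf fun t => g2055 n1 t
    have u1 := bt fun t => s2119 t u0
    have u2 := bf fun t => g228 u1 t
    have u3 := bt fun t => s2126 t n0 n1
    have u4 := bt fun t => g2046 u3 n0 t
    have u5 := bf fun t => g11 t u4
    have u6 := bf fun t => g12 t u4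
    have u7 := bf fun t => g116 n0 w2058 u4 t
    have u8 := bf fun t => g129 n0 w2057 t u6 u7
    have u9 := bf fun t => g1314 u8 w2118 t g2012 g2013
    have u10 := bt fun t => s2128 t n0 n1
    have u11 := bf fun t => g2044 t u10
    have u12 := bt fun t => s2129 t n0 n1
    have u13 := bf fun t => g773 t u12
    have u14 := bt fun t => g1997 u2 t u12
    have u15 := bt fun t => g2004 u1 t u13
    have u16 := bf fun t => g447 u14 t g2012 g2013
    have u17 := bf fun t => g603 u15 u5 u6 u9 t
    have u18 := bt fun t => g932 u12 t g2012 u11 u17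
    have u19 := bf fun t => g19 u18 t
    have u20 := bt fun t => g974 w2058 u16 u4 u18 t
    have u21 := bt fun t => g127 n0 w2058 u4 u19 t
    exact g31 u20 u21
  have s2131 : T.X p r c d = false → T.alt p a c b r = false → False := fun n0 n1 => by
    have u0 := bf fun t => s2130 t n1
    have u1 := bt fun t => g46 u0 t n1
    have u2 := bf fun t => g2055 n1 t
    have u3 := bt fun t => s2119 t u2
    have u4 := bt fun t => g1974 u0 u3 t
    have u5 := bf fun t => g502 u4 t g2012 g2013
    have u6 := bf fun t => g94 u1 g2011 u5 t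
    have u7 := bf fun t => g60 u1 w2057 w2058 u6 t
    have u8 := bf fun t => g410 u4 t
    have u9 := bt fun t => g1992 u1 u8 t
    have u10 := bf fun t => g1989 n1 u2 t
    have u11 := bt fun t => g2008 u4 t u10
    have u12 := bf fun t => g500 u4 t g2012 g2013
    have u13 := bf fun t => g2050 w2117 u3 t
    have u14 := bt fun t => g663 u11 u6 u13 u12 n0 t
    have u15 := bt fun t => g795 u9 u7 g2012 n0 t
    have u16 := bf fun t => g44 u15 t
    have u17 := bf fun t => s2121 u15 t u14
    have u18 := bf fun t => g1706 u7 t w2059 n0 u15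
    have u19 := bf fun t => g85 u1 g2011 t u17
    have u20 := bt fun t => g73 u1 g2011 u5 t u17
    have u21 := bf fun t => g801 u9 u19 u18 t u16
    exact g1515 u20 u13 u12 u21 u14
  have s2132 : T.X p a r c = true → T.alt p a r b c = true → v62 = false → T.X p c a b = false → False := fun n0 n1 n2 n3 => by
    have u0 := bf fun t => s2094 t n2 n3 n0 n1
    have u1 := bf fun t => g85 n1 g2011 t u0
    have u2 := bt fun t => g2016 t n0 u0
    exact g2020 n2 u2 u1
  have s2133 : T.alt p a c b r = false → T.alt p a d b r = false → False := fun n0 n1 => by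
    have u0 := bf fun t => g1989 n0 n1 t
    have u1 := bt fun t => s2119 t n1
    have u2 := bf fun t => g228 u1 t
    have u3 := bf fun t => s2130 t n0
    have u4 := bt fun t => g1974 u3 u1 t
    have u5 := bt fun t => g46 u3 t n0
    have u6 := bf fun t => g409 u4 t
    have u7 := bf fun t => g410 u4 t
    have u8 := bf fun t => g500 u4 t g2012 g2013
    have u9 := bf fun t => g502 u4 t g2012 g2013
    have u10 := bf fun t => g1997 u2 u6 t
    have u11 := bf fun t => g1985 n1 u7 t
    have u12 := bf fun t => g2027 t u8
    have u13 := bf fun t => g2032 t u0 u10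
    have u14 := bf fun t => g2035 t u13
    have u15 := bt fun t => s2131 t n0
    have u16 := bf fun t => g2044 u15 t
    have u17 := bf fun t => g2042 u16 t u14
    have u18 := bf fun t => g2038 u17 t u12
    have u19 := bt fun t => s2100 t u7 u5 u17 u0
    have u20 := bt fun t => s2084 u19 t u11
    exact s2132 u20 u5 u18 u9
  have s2134 : T.alt p a c b r = false → False := fun n0 => by
    have u0 := bf fun t => g2055 n0 t
    exact s2133 n0 u0
  have w2134 := bt s2134
  have s2135 := fun (n0 : T.alt p a b r c = true) => g48 n0 w2134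
  have w2135 := bf s2135
  have s2136 := fun (n0 : T.alt p a r b c = true) => g49 n0 w2134
  have w2136 := bf s2136
  have s2137 := fun (n0 : T.alt p a d b r = false) => g2056 w2134 n0
  have w2137 := bt s2137
  have s2138 := fun (n0 : T.bfo p a b c r = true) => g2048 n0 w2135 w2136
  have w2138 := bf s2138
  have s2139 := fun (n0 : T.alt p a b r d = true) => g229 n0 w2137
  have w2139 := bf s2139
  have s2140 := fun (n0 : T.alt p a r b d = true) => g230 n0 w2137
  have w2140 := bf s2140
  have s2141 := fun (n0 : T.alt p b r c d = true) => g1987 w2134 w2137 n0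
  have w2141 := bf s2141
  have s2142 := fun (n0 : T.X a r b d = true) => g356 w2137 g2011 w2118 n0
  have w2142 := bf s2142
  have s2143 := fun (n0 : T.X p c a b = true) => g2049 n0 w2138
  have w2143 := bf s2143
  have s2144 := fun (n0 : T.alt p a b c d = true) => g1973 w2135 w2139 n0
  have w2144 := bf s2144
  have s2145 := fun (n0 : T.alt p a r c d = true) => g1977 w2136 w2140 n0
  have w2145 := bf s2145
  have s2146 := fun (n0 : T.X a r b c = true) => g175 w2134 g2011 w2143 n0
  have w2146 := bf s2146
  have s2147 : T.X p a c d = false → False := fun n0 => by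
    have u0 := bf fun t => g431 t w2118 n0 g2012 g2013
    have u1 := bf fun t => g549 t w2143 n0 g2012 g2013
    exact g408 w2144 u0 u1
  have w2147 := bt s2147
  have s2148 := fun (n0 : T.X p c a d = true) => g16 w2147 n0
  have w2148 := bf s2148
  have s2149 := fun (n0 : T.X p d a c = true) => g17 w2147 n0
  have w2149 := bf s2149
  have s2150 : T.alt p b d r c = false → T.lto p r c d a b = false → v62 = true → False := fun n0 n1 n2 => by
    have u0 := bf fun t => g2002 w2135 t n0
    have u1 := bf fun t => g2032 t w2141 n0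
    have u2 := bf fun t => g2025 t w2145 u0
    have u3 := bf fun t => g2035 t u1
    have u4 := bf fun t => g2028 t u2
    have u5 := bf fun t => g2042 n1 t u3
    exact g2038 u5 n2 u4
  have s2151 : T.lto p r c d a b = false → v62 = true → False := fun n0 n1 => by
    have u0 := bt fun t => s2150 t n0 n1
    have u1 := bt fun t => s2065 u0 t
    have u2 := bt fun t => g2001 w2135 t u0
    have u3 := bt fun t => s2061 t u1
    have u4 := bt fun t => s2073 u2 t
    have u5 := bt fun t => g2043 n0 t u3
    have u6 := bt fun t => g2026 t w2147 u4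
    exact g2036 u5 n1 u6
  have s2152 : T.X b r c d = false → T.X p d r c = false → T.alt p b d r c = true → T.X p a r c = true → False := fun n0 n1 n2 n3 => by
    have u0 := bt fun t => g217 w2134 g2011 n3 t
    have u1 := bf fun t => g2014 t n3 u0
    have u2 := bf fun t => g10 n3 t
    have u3 := bt fun t => g205 w2134 g2011 t w2143 u2
    have u4 := bf fun t => g32 u0 t
    have u5 := bt fun t => g978 w2057 u3 n3 t u4
    have u6 := bt fun t => g2021 t u1 u5
    have u7 := bt fun t => s2151 t u6
    have u8 := bf fun t => g2044 t u7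
    have u9 := bf fun t => g199 w2134 u3 t u4
    have u10 := bt fun t => g913 n2 t g2012 u8 n0
    have u11 := bf fun t => g23 t u10
    have u12 := bt fun t => g367 w2137 g2011 w2118 u11 t
    have u13 := bf fun t => g1690 u9 u11 g2012 t n0
    have u14 := bt fun t => g1160 w2057 w2118 t u10 u12
    exact g1526 n3 u14 w2147 u8 u13 n1
  have s2153 : T.X b r c d = true → T.alt p a d r c = true → T.X p a r c = true → False := fun n0 n1 n2 => by
    have u0 := bt fun t => g217 w2134 g2011 n2 t
    have u1 := bf fun t => g2014 t n2 u0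
    have u2 := bf fun t => g10 n2 t
    have u3 := bt fun t => g205 w2134 g2011 t w2143 u2
    have u4 := bf fun t => g32 u0 t
    have u5 := bt fun t => g978 w2057 u3 n2 t u4
    have u6 := bt fun t => g2021 t u1 u5
    have u7 := bt fun t => s2151 t u6
    have u8 := bf fun t => g2044 t u7
    have u9 := bf fun t => g199 w2134 u3 t u4
    have u10 := bf fun t => s2121 n0 u0 t
    have u11 := bf fun t => g1706 u9 t w2059 u8 n0
    have u12 := bt fun t => g732 n1 t w2147 u8 u10
    exact g1202 g2011 w2118 u12 u11 w2142
  have s2154 : T.alt p b d r c = true → T.X p a r c = true → False := fun n0 n1 => by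
    have u0 := bt fun t => g217 w2134 g2011 n1 t
    have u1 := bf fun t => g2014 t n1 u0
    have u2 := bf fun t => g10 n1 t
    have u3 := bt fun t => g205 w2134 g2011 t w2143 u2
    have u4 := bf fun t => g32 u0 t
    have u5 := bt fun t => g978 w2057 u3 n1 t u4
    have u6 := bt fun t => g2021 t u1 u5
    have u7 := bt fun t => s2151 t u6
    have u8 := bf fun t => g2044 t u7
    have u9 := bt fun t => g2001 w2135 t n0
    have u10 := bf fun t => s2153 t u9 n1
    have u11 := bt fun t => g913 n0 t g2012 u8 u10
    have u12 := bt fun t => s2152 u10 t n0 n1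
    have u13 := bf fun t => g23 t u11
    have u14 := bt fun t => g740 u9 n1 u12 t
    have u15 := bt fun t => g367 w2137 g2011 w2118 u13 t
    have u16 := bf fun t => g1568 t w2147 u12 u14
    exact g1160 w2057 w2118 u16 u11 u15
  have s2155 : T.X p a r c = true → False := fun n0 => by
    have u0 := bf fun t => g10 n0 t
    have u1 := bf fun t => g11 n0 t
    have u2 := bt fun t => g217 w2134 g2011 n0 t
    have u3 := bt fun t => g205 w2134 g2011 t w2143 u0
    have u4 := bf fun t => g32 u2 t
    have u5 := bf fun t => g2014 t n0 u2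
    have u6 := bf fun t => g199 w2134 u3 t u4
    have u7 := bt fun t => g978 w2057 u3 n0 t u4
    have u8 := bt fun t => g2021 t u5 u7
    have u9 := bt fun t => s2151 t u8
    have u10 := bf fun t => g2044 t u9
    have u11 := bf fun t => s2154 t n0
    have u12 := bt fun t => g770 w2141 t u11
    have u13 := bt fun t => g2005 w2139 t u12
    have u14 := bt fun t => g795 u12 u6 g2012 u10 t
    have u15 := bt fun t => g614 u13 u1 w2147 u10 t
    exact s2121 u14 u2 u15
  have w2155 := bf s2155
  have s2158 : T.X p c a r = true → False := fun n0 => by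
    have u0 := bf fun t => g218 w2134 n0 t w2146
    exact g1032 g2011 w2143 n0 u0 w2146
  have w2158 := bf s2158
  have s2159 : T.X p r c d = false → T.alt p b c r d = true → False := fun n0 n1 => by
    have u0 := bt fun t => g2005 w2139 t n1
    have u1 := bt fun t => g1993 w2136 t n1
    have u2 := bt fun t => g614 u0 w2158 w2147 n0 t
    have u3 := bf fun t => g40 u2 t
    have u4 := bf fun t => g1536 w2158 t w2148 n0 u2
    have u5 := bt fun t => g386 w2137 g2011 t w2118 u4
    have u6 := bf fun t => g7 t u5
    have u7 := bf fun t => g369 w2137 w2058 u6 t w2142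
    have u8 := bf fun t => g1482 t u7 w2149 n0 u2
    have u9 := bt fun t => g205 w2134 g2011 t w2143 u8
    have u10 := bt fun t => g546 u1 u9 w2149 w2059 t
    have u11 := bf fun t => g1858 w2146 w2142 u10 u3 t
    have u12 := bf fun t => g1851 w2146 t g2013 u2 u11
    have u13 := bf fun t => g398 w2137 g2011 t u12
    have u14 := bt fun t => g367 w2137 g2011 w2118 t u12
    have u15 := bt fun t => g633 u0 u13 w2147 n0 t
    exact g803 n1 u14 u15 u11
  have s2160 : T.X a b r c = true → v62 = false → False := fun n0 n1 => by
    have u0 := bt fun t => g2017 t w2155 n0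
    have u1 := bf fun t => g225 w2134 g2011 w2143 w2155 t n0
    exact g2020 n1 u0 u1
  have s2161 : v62 = false → False := fun n0 => by
    have u0 := bf fun t => s2160 t n0
    have u1 := bt fun t => g186 w2134 g2011 w2143 t u0
    have u2 := bf fun t => g2015 t w2155 u0
    exact g2021 n0 u2 u1
  have w2161 := bt s2161
  have s2162 := fun (n0 : T.lto p r c d a b = false) => s2151 n0 w2161
  have w2162 := bt s2162
  have s2163 := fun (n0 : T.X p r c d = true) => g2044 n0 w2162
  have w2163 := bf s2163
  have s2164 := fun (n0 : T.alt p b c r d = true) => s2159 w2163 n0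
  have w2164 := bf s2164
  have s2165 := fun (n0 : T.alt p a d b c = true) => g1994 w2136 n0 w2164
  have w2165 := bf s2165
  have s2166 := fun (n0 : T.alt p b d r c = false) => g770 w2141 w2164 n0
  have w2166 := bt s2166
  have s2169 := fun (n0 : T.alt p a d r c = false) => g1984 w2137 w2165 n0
  have w2169 := bt s2169
  have s2172 := fun (n0 : T.X p d r c = false) => g751 w2169 w2155 w2147 w2163 n0
  have w2172 := bt s2172
  have s2175 := fun (n0 : T.X p c r d = true) => g30 n0 w2172
  have w2175 := bf s2175
  have s2181 : T.X a b r c = false → False := fun n0 => by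
    have u0 := bt fun t => g186 w2134 g2011 w2143 t n0
    have u1 := bt fun t => g921 w2166 u0 w2172 t
    have u2 := bf fun t => g44 t u1
    have u3 := bf fun t => g1738 t g2012 w2172 u1
    have u4 := bf fun t => g1832 n0 w2142 g2013 t u1
    have u5 := bt fun t => g913 w2166 t g2012 w2163 u2
    have u6 := bt fun t => g367 w2137 g2011 w2118 u3 t
    have u7 := bt fun t => g732 w2169 t w2147 w2163 u4
    exact g1227 g2011 u7 u5 u6
  have w2181 := bt s2181
  have s2182 := fun (n0 : T.X a c b r = true) => g32 w2181 n0
  have w2182 := bf s2182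
  have s2186 : T.X p a r d = true → False := fun n0 => by
    have u0 := bf fun t => g14 n0 t
    have u1 := bt fun t => g735 w2169 n0 w2149 w2175 t
    have u2 := bt fun t => g732 w2169 u0 w2147 w2163 t
    exact g1804 u2 u1
  have w2186 := bf s2186
  have s2187 := fun (n0 : T.X a c r d = true) => g1481 w2155 w2186 w2149 w2172 n0
  have w2187 := bf s2187
  have s2188 : T.X a b r d = true → False := fun n0 => by
    have u0 := bf fun t => g1160 w2057 w2118 w2186 t n0
    have u1 := bf fun t => g1846 w2182 n0 g2013 w2187 t
    exact g913 w2166 u0 g2012 w2163 u1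
  have w2188 := bf s2188
  have s2189 := fun (n0 : T.X p b r d = false) => g367 w2137 g2011 w2118 n0 w2188
  have w2189 := bt s2189
  have s2191 := fun (n0 : T.X p d b r = true) => g23 w2189 n0
  have w2191 := bf s2191
  have s2192 := fun (n0 : T.X b c r d = false) => g916 w2166 w2189 w2060 w2175 n0
  have w2192 := bt s2192
  have s2196 := fun (n0 : T.X b r c d = false) => g913 w2166 w2191 g2012 w2163 n0
  have w2196 := bt s2196
  exact g1805 w2196 w2192

theorem f1_sar {p a b r s : V} (hN : [p, a, b, r, s].Nodup) (h0 : T.X p r a b = true) (h1 : T.X p s a b = true)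
    (h2 : T.bfo p a b r s = true) (h3 : T.X p s a r = true) (h4 : T.lto p s r a a b = true) : False := by
  have B19 : T.bfo p a b r s = (bif T.alt p a b r s then T.X p r a s else T.alt p a s b r) :=
    T.bfo_eq rfl rfl (T.as2 p a s r b)
  obtain ⟨v20, e20⟩ : ∃ v : Bool, v = (T.X p a r s ^^ T.X a b r s) := ⟨_, rfl⟩
  obtain ⟨v21, e21⟩ : ∃ v : Bool, v = (v20 ^^ T.X p b r s) := ⟨_, rfl⟩
  have B22 : T.bfo p r a b s = (bif T.alt p a r b s then T.X p b r s else T.alt p a b r s) :=
    T.bfo_eq (T.as1 p r a b s) rfl (T.as5 p r s b a)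
  obtain ⟨v23, e23⟩ : ∃ v : Bool, v = (T.X p b a r && T.bfo p r a b s) := ⟨_, rfl⟩
  have L24 : T.lto p s r a a b = (v21 ^^ v23) :=
    T.lto_eqa (T.xs4 r s p a) (T.xs4 r s a b) (T.xs5 r s b p) (T.xs2 p b r a) e20 e21 e23
  have k0 : T.Ok5 p a b r s := T.n5 hN (.cons_cons _ (.cons_cons _ (.cons_cons _ (.cons_cons _ (.cons_cons _ (List.nil_sublist _))))))
  have g3 := T.q12 p a b r
  have g5 := T.q02 p a b s
  have g8 := T.q02 p a r s
  have g9 := T.q12 p a r s
  have g13 := T.q01 a b r s
  have g158 := fun ha : T.alt p a s b r = true => zA2_8458_256 (T.okA2 k0 ha)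
  have g248 := z5_8778_8704 k0
  have g367 : T.X p r a b = true := h0
  have g368 : T.X p s a b = true := h1
  have g370 := it2 B19
  have g372 := it4 B19
  have g373 : T.bfo p a b r s = true := h2
  have g374 : T.X p s a r = true := h3
  have g376 := xr2 e20
  have g380 := xr2 e21
  have g388 := an1 e23
  have g391 := xr2 L24
  have g394 : T.lto p s r a a b = true := h4
  have s396 := fun (n0 : T.X p b a r = true) => g3 n0 g367
  have w396 := bf s396
  have s397 := fun (n0 : T.X p a b s = true) => g5 n0 g368
  have w397 := bf s397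
  have s399 := fun (n0 : T.X p a r s = true) => g8 n0 g374
  have w399 := bf s399
  have s400 := fun (n0 : T.X p r a s = true) => g9 n0 g374
  have w400 := bf s400
  have s401 := fun (n0 : T.alt p a b r s = true) => g370 g373 n0 w400
  have w401 := bf s401
  have s402 := fun (n0 : T.alt p a s b r = false) => g372 g373 w401 n0
  have w402 := bt s402
  have s405 := fun (n0 : T.X a r b s = false) => g158 w402 w396 w397 g374 n0
  have w405 := bt s405
  have s407 := fun (n0 : T.X a b r s = true) => g13 n0 w405
  have w407 := bf s407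
  have s409 := fun (n0 : T.X p b r s = true) => g248 w396 w397 w399 n0 w405
  have w409 := bf s409
  have s410 := fun (n0 : v20 = true) => g376 n0 w399 w407
  have w410 := bf s410
  have s411 := fun (n0 : v21 = true) => g380 n0 w410 w409
  have w411 := bf s411
  have s413 := fun (n0 : v23 = true) => g388 n0 w396
  have w413 := bf s413
  have s414 := fun (n0 : T.lto p s r a a b = true) => g391 n0 w411 w413
  have w414 := bf s414
  exact bcontra g394 w414

theorem f1_sbr {p a b r s : V} (hN : [p, a, b, r, s].Nodup) (h0 : T.X p r a b = true) (h1 : T.X p s a b = true)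
    (h2 : T.bfo p a b r s = true) (h3 : T.X p s b r = true) (h4 : T.lto p s r b a b = true)
    (h5 : T.alt p r s b a = false) : False := by
  have B19 : T.bfo p a b r s = (bif T.alt p a b r s then T.X p r a s else T.alt p a s b r) :=
    T.bfo_eq rfl rfl (T.as2 p a s r b)
  obtain ⟨v20, e20⟩ : ∃ v : Bool, v = (T.X p a r s ^^ T.X a b r s) := ⟨_, rfl⟩
  obtain ⟨v21, e21⟩ : ∃ v : Bool, v = (v20 ^^ T.X p b r s) := ⟨_, rfl⟩
  have B22 : T.bfo p r b a s = (bif T.alt p a s b r then T.X p a r s else T.alt p a b r s) :=
    T.bfo_eq (T.as6 p r b a s) rfl (T.as4 p r s a b)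
  obtain ⟨v23, e23⟩ : ∃ v : Bool, v = (T.X p a b r && T.bfo p r b a s) := ⟨_, rfl⟩
  have L24 : T.lto p s r b a b = (v21 ^^ v23) :=
    T.lto_eqb (T.xs4 r s p a) (T.xs4 r s a b) (T.xs5 r s b p) (T.xs2 p a r b) e20 e21 e23
  have k0 : T.Ok5 p a b r s := T.n5 hN (.cons_cons _ (.cons_cons _ (.cons_cons _ (.cons_cons _ (.cons_cons _ (List.nil_sublist _))))))
  have g2 := T.q02 p a b r
  have g11 := T.q02 p b r s
  have g187 := fun ha : T.alt p a s b r = true => zA2_4164_68 (T.okA2 k0 ha)
  have g193 := fun ha : T.alt p a s b r = true => zA2_4708_4132 (T.okA2 k0 ha)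
  have g367 : T.X p r a b = true := h0
  have g368 : T.X p s a b = true := h1
  have g372 := it4 B19
  have g373 : T.bfo p a b r s = true := h2
  have g374 : T.X p s b r = true := h3
  have g375 := xr1 e20
  have g376 := xr2 e20
  have g380 := xr2 e21
  have g388 := an1 e23
  have g391 := xr2 L24
  have g394 : T.lto p s r b a b = true := h4
  have g395 : T.alt p a b r s = false := ((T.as5 p r s b a).symm.trans h5)
  have s396 := fun (n0 : T.X p a b r = true) => g2 n0 g367
  have w396 := bf s396
  have s400 := fun (n0 : T.X p b r s = true) => g11 n0 g374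
  have w400 := bf s400
  have s402 := fun (n0 : v21 = true) (n1 : v20 = false) => g380 n0 n1 w400
  have s404 := fun (n0 : v23 = true) => g388 n0 w396
  have w404 := bf s404
  have s405 := fun (n0 : T.lto p s r b a b = true) (n1 : v21 = false) => g391 n0 n1 w404
  have s407 := fun (n0 : v21 = false) => s405 g394 n0
  have w407 := bt s407
  have s408 := fun (n0 : v20 = false) => s402 w407 n0
  have w408 := bt s408
  have s409 := fun (n0 : T.alt p a s b r = false) => g372 g373 g395 n0
  have w409 := bt s409
  have s411 : T.X p a r s = true → False := fun n0 => by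
    have u0 := bt fun t => g187 w409 g367 n0 t
    exact g375 w408 n0 u0
  have w411 := bf s411
  have s412 := fun (n0 : T.X a b r s = true) => g193 w409 g367 g368 w411 w400 n0
  have w412 := bf s412
  exact g376 w408 w411 w412

theorem f1_sad {p a b r s d : V} (hN : [p, a, b, r, s, d].Nodup) (h0 : T.X p r a b = true)
    (h1 : T.X p s a b = true) (h2 : T.bfo p a b r s = true) (h3 : T.X p s a d = true)
    (h4 : T.lto p s d a a b = true) (h5 : T.X p r a d = true → T.lto p r d a a b = true → False)
    (h6 : T.X p d a b = true → T.bfo p a b d r = false → T.bfo p a b s d = false → False)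
    (h7 : T.alt p r s d a = false) : False := by
  have B61 : T.bfo p a b r s = (bif T.alt p a b r s then T.X p r a s else T.alt p a s b r) :=
    T.bfo_eq rfl rfl (T.as2 p a s r b)
  obtain ⟨v62, e62⟩ : ∃ v : Bool, v = (T.X p a s d ^^ T.X a b s d) := ⟨_, rfl⟩
  obtain ⟨v63, e63⟩ : ∃ v : Bool, v = (v62 ^^ T.X p b s d) := ⟨_, rfl⟩
  have B64 : T.bfo p d a b s = (bif T.alt p a d b s then T.X p b s d else T.alt p a b s d) :=
    T.bfo_eq (T.as1 p d a b s) (T.xs2 p b d s) (T.as7 p d s b a)
  obtain ⟨v65, e65⟩ : ∃ v : Bool, v = (T.X p b a d && T.bfo p d a b s) := ⟨_, rfl⟩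
  have L66 : T.lto p s d a a b = (v63 ^^ v65) :=
    T.lto_eqa (T.xs6 d s p a) (T.xs6 d s a b) (T.xs7 d s b p) (T.xs2 p b d a) e62 e63 e65
  obtain ⟨v67, e67⟩ : ∃ v : Bool, v = (T.X p a r d ^^ T.X a b r d) := ⟨_, rfl⟩
  obtain ⟨v68, e68⟩ : ∃ v : Bool, v = (v67 ^^ T.X p b r d) := ⟨_, rfl⟩
  have B69 : T.bfo p d a b r = (bif T.alt p a d b r then T.X p b r d else T.alt p a b r d) :=
    T.bfo_eq (T.as1 p d a b r) (T.xs2 p b d r) (T.as7 p d r b a)
  obtain ⟨v70, e70⟩ : ∃ v : Bool, v = (T.X p b a d && T.bfo p d a b r) := ⟨_, rfl⟩
  have L71 : T.lto p r d a a b = (v68 ^^ v70) :=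
    T.lto_eqa (T.xs6 d r p a) (T.xs6 d r a b) (T.xs7 d r b p) (T.xs2 p b d a) e67 e68 e70
  have B72 : T.bfo p a b d r = (bif T.alt p a b r d then T.X p d a r else T.alt p a r b d) :=
    T.bfo_eq (T.as2 p a b d r) rfl (T.as2 p a r d b)
  have B73 : T.bfo p a b s d = (bif T.alt p a b s d then T.X p s a d else T.alt p a d b s) :=
    T.bfo_eq rfl rfl (T.as2 p a d s b)
  have k0 : T.Ok5 p a b r s := T.n5 hN (.cons_cons _ (.cons_cons _ (.cons_cons _ (.cons_cons _ (.cons_cons _ (List.nil_sublist _))))))
  have k1 : T.Ok5 p a b r d := T.n5 hN (.cons_cons _ (.cons_cons _ (.cons_cons _ (.cons_cons _ (.cons _ (.cons_cons _ (List.nil_sublist _)))))))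
  have k2 : T.Ok5 p a b s d := T.n5 hN (.cons_cons _ (.cons_cons _ (.cons_cons _ (.cons _ (.cons_cons _ (.cons_cons _ (List.nil_sublist _)))))))
  have k3 : T.Ok5 p a r s d := T.n5 hN (.cons_cons _ (.cons_cons _ (.cons _ (.cons_cons _ (.cons_cons _ (.cons_cons _ (List.nil_sublist _)))))))
  have k4 : T.Ok5 p b r s d := T.n5 hN (.cons_cons _ (.cons _ (.cons_cons _ (.cons_cons _ (.cons_cons _ (.cons_cons _ (List.nil_sublist _)))))))
  have k5 : T.Ok5 a b r s d := T.n5 hN (.cons _ (.cons_cons _ (.cons_cons _ (.cons_cons _ (.cons_cons _ (.cons_cons _ (List.nil_sublist _)))))))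
  have sp0 : T.Sp5 p a b r s d := T.sp5 hN (.cons_cons _ (.cons_cons _ (.cons_cons _ (.cons_cons _ (.cons_cons _ (.cons_cons _ (List.nil_sublist _)))))))
  have g2 := T.q02 p a b r
  have g3 := T.q12 p a b r
  have g5 := T.q02 p a b s
  have g6 := T.q12 p a b s
  have g7 := T.q01 p a b d
  have g8 := T.q02 p a b d
  have g9 := T.q12 p a b d
  have g10 := T.q01 p a r s
  have g12 := T.q12 p a r s
  have g13 := T.q01 p a r d
  have g14 := T.q02 p a r d
  have g16 := T.q01 p a s d
  have g18 := T.q12 p a s d
  have g22 := T.q01 p b r d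
  have g23 := T.q02 p b r d
  have g28 := T.q01 p r s d
  have g34 := T.q01 a b r d
  have g35 := T.q02 a b r d
  have g38 := T.q02 a b s d
  have g47 := T.ae01 k0
  have g137 := fun ha : T.alt p a b r s = true => zA0_4132_36 (T.okA0 k0 ha)
  have g155 := fun ha : T.alt p a b r s = true => zA0_656_640 (T.okA0 k0 ha)
  have g227 := T.ae1 k1
  have g229 := T.ae02 k1
  have g241 := fun ha : T.alt p a r b d = true => zA1_2307_2048 (T.okA1 k1 ha)
  have g242 := fun ha : T.alt p a r b d = true => zA1_9482_0 (T.okA1 k1 ha)
  have g247 := fun ha : T.alt p a r b d = true => zA1_18576_16 (T.okA1 k1 ha)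
  have g254 := fun ha : T.alt p a r b d = true => zA1_4196_4 (T.okA1 k1 ha)
  have g275 := fun ha : T.alt p a r b d = true => zA1_292_260 (T.okA1 k1 ha)
  have g308 := fun ha : T.alt p a b r d = true => zA0_9474_256 (T.okA0 k1 ha)
  have g310 := fun ha : T.alt p a b r d = true => zA0_16529_16 (T.okA0 k1 ha)
  have g318 := fun ha : T.alt p a b r d = true => zA0_4132_36 (T.okA0 k1 ha)
  have g320 := fun ha : T.alt p a b r d = true => zA0_4164_68 (T.okA0 k1 ha)
  have g321 := fun ha : T.alt p a b r d = true => zA0_4612_516 (T.okA0 k1 ha)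
  have g326 := fun ha : T.alt p a b r d = true => zA0_4708_4100 (T.okA0 k1 ha)
  have g333 := fun ha : T.alt p a b r d = true => zA0_720_16 (T.okA0 k1 ha)
  have g336 := fun ha : T.alt p a b r d = true => zA0_656_640 (T.okA0 k1 ha)
  have g337 := fun ha : T.alt p a b r d = true => zA0_420_36 (T.okA0 k1 ha)
  have g356 := fun ha : T.alt p a d b r = true => zA2_8228_8196 (T.okA2 k1 ha)
  have g367 := fun ha : T.alt p a d b r = true => zA2_4644_4 (T.okA2 k1 ha)
  have g386 := fun ha : T.alt p a d b r = true => zA2_180_4 (T.okA2 k1 ha)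
  have g408 := T.ae1 k2
  have g432 := fun ha : T.alt p a s b d = true => zA1_16529_128 (T.okA1 k2 ha)
  have g455 := fun ha : T.alt p a s b d = true => zA1_1176_128 (T.okA1 k2 ha)
  have g467 := fun ha : T.alt p a s b d = true => zA1_4708_4132 (T.okA1 k2 ha)
  have g507 := fun ha : T.alt p a b s d = true => zA0_4708_4100 (T.okA0 k2 ha)
  have g517 := fun ha : T.alt p a b s d = true => zA0_656_640 (T.okA0 k2 ha)
  have g548 := fun ha : T.alt p a d b s = true => zA2_4644_4 (T.okA2 k2 ha)
  have g558 := fun ha : T.alt p a d b s = true => zA2_16528_144 (T.okA2 k2 ha)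
  have g585 := fun ha : T.alt p a d b s = true => zA2_4708_4132 (T.okA2 k2 ha)
  have g636 := fun ha : T.alt p a s r d = true => zA1_1176_128 (T.okA1 k3 ha)
  have g662 := fun ha : T.alt p a r s d = true => zA0_2085_2048 (T.okA0 k3 ha)
  have g696 := fun ha : T.alt p a r s d = true => zA0_290_34 (T.okA0 k3 ha)
  have g876 := fun ha : T.alt p b r s d = true => zA0_720_16 (T.okA0 k4 ha)
  have g935 := fun ha : T.alt p b d r s = true => zA2_2307_256 (T.okA2 k4 ha)
  have g1060 := z5_5280_5280 k0
  have g1160 := z5_6241_6144 k1
  have g1171 := z5_8778_520 k1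
  have g1199 := z5_18596_16388 k1
  have g1280 := z5_4788_4740 k1
  have g1313 := z5_4898_544 k2
  have g1341 := z5_8778_520 k2
  have g1359 := z5_1212_1156 k2
  have g1380 := z5_7716_4132 k2
  have g1394 := z5_8332_8332 k2
  have g1400 := z5_5280_5280 k2
  have g1808 := z5_40_40 k5
  have g1971 := zsp_73_73 sp0
  have g1973 := zsp_73_64 sp0
  have g1978 := zsp_530_16 sp0
  have g1980 := zsp_1156_4 sp0
  have g1984 := zsp_2336_32 sp0
  have g1986 := zsp_2336_256 sp0
  have g1988 := zsp_4132_4 sp0
  have g2000 := zsp_18433_1 sp0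
  have g2011 : T.X p r a b = true := h0
  have g2012 : T.X p s a b = true := h1
  have g2014 := it2 B61
  have g2016 := it4 B61
  have g2017 : T.bfo p a b r s = true := h2
  have g2018 : T.X p s a d = true := h3
  have g2020 := xr2 e62
  have g2022 := xr4 e62
  have g2023 := xr1 e63
  have g2024 := xr2 e63
  have g2026 := xr4 e63
  have g2027 := it1 B64
  have g2031 := an0 e65
  have g2032 := an1 e65
  have g2034 := xr1 L66
  have g2035 := xr2 L66
  have g2038 : T.lto p s d a a b = true := h4
  have g2040 := xr2 e67
  have g2042 := xr4 e67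
  have g2043 := xr1 e68
  have g2044 := xr2 e68
  have g2045 := xr3 e68
  have g2046 := xr4 e68
  have g2049 := it3 B69
  have g2050 := it4 B69
  have g2051 := an0 e70
  have g2052 := an1 e70
  have g2053 := an2 e70
  have g2056 := xr3 L71
  have g2057 := xr4 L71
  have g2058 := fun (n0 : T.X p r a d = true) (n1 : T.lto p r d a a b = true) => h5 n0 n1
  have g2068 : T.alt p a d r s = false := ((T.as5 p r s d a).symm.trans h7)
  have s2069 := fun (n0 : T.X p a b r = true) => g2 n0 g2011
  have w2069 := bf s2069
  have s2070 := fun (n0 : T.X p b a r = true) => g3 n0 g2011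
  have w2070 := bf s2070
  have s2071 := fun (n0 : T.X p a b s = true) => g5 n0 g2012
  have w2071 := bf s2071
  have s2072 := fun (n0 : T.X p b a s = true) => g6 n0 g2012
  have w2072 := bf s2072
  have s2073 := fun (n0 : T.X p a s d = true) => g16 n0 g2018
  have w2073 := bf s2073
  have s2074 := fun (n0 : T.X p d a s = true) => g18 g2018 n0
  have w2074 := bf s2074
  have s2075 := fun (n0 : v62 = true) (n1 : T.X a b s d = false) => g2020 n0 w2073 n1
  have s2076 := fun (n0 : v62 = false) (n1 : T.X a b s d = true) => g2022 n0 w2073 n1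
  have s2078 : T.X p a b d = true → False := fun n0 => by
    have u0 := bf fun t => g7 n0 t
    have u1 := bf fun t => g8 n0 t
    have u2 := bf fun t => g1394 g2012 n0 g2018 t
    have u3 := bf fun t => g1341 w2072 n0 w2073 t u2
    have u4 := bf fun t => g2032 t u0
    have u5 := bf fun t => g2052 t u0
    have u6 := bt fun t => g2035 g2038 t u4
    have u7 := bt fun t => g2024 u6 t u3
    have u8 := bt fun t => s2075 u7 t
    have u9 := bf fun t => g38 u8 t
    have u10 := bf fun t => g507 t g2012 u1 w2073 u3 u8
    have u11 := bf fun t => g432 t w2071 u0 g2018 u9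
    have u12 := bt fun t => g408 u10 u11 t
    have u13 := bt fun t => g1986 t u12 g2068
    have u14 := bf fun t => g356 u13 g2011 u1 t
    have u15 := bt fun t => g386 u13 g2011 u0 u1 t
    have u16 := bf fun t => g13 t u15
    have u17 := bf fun t => g2058 u15 t
    have u18 := bf fun t => g1171 w2070 n0 u16 t u14
    have u19 := bf fun t => g2056 u17 t u5
    have u20 := bt fun t => g367 u13 g2011 u1 u18 t
    have u21 := bf fun t => g2045 u19 t u18
    exact g2042 u21 u16 u20
  have w2078 := bf s2078
  have s2079 : T.alt p a d b s = true → T.X p b a d = true → False := fun n0 n1 => by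
    have u0 := bf fun t => g9 n1 t
    have u1 := bt fun t => g558 n0 n1 g2018 t
    have u2 := bf fun t => g38 t u1
    have u3 := bf fun t => s2075 t u2
    have u4 := bt fun t => g548 n0 g2012 u0 t u2
    have u5 := bt fun t => g2026 t u3 u4
    have u6 := bt fun t => g2027 t n0 u4
    have u7 := bf fun t => g2034 g2038 u5 t
    exact g2031 u7 n1 u6
  have s2081 : T.alt p a b r d = true → T.X p a r d = true → T.X p b a d = true → False := fun n0 n1 n2 => by
    have u0 := bf fun t => g13 n1 t
    have u1 := bt fun t => g310 n0 w2069 n2 u0 t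
    have u2 := bt fun t => g320 n0 g2011 n1 t
    exact g1808 u2 u1
  have s2082 : T.X p a r d = true → T.X p b a d = true → False := fun n0 n1 => by
    have u0 := bf fun t => s2079 t n1
    have u1 := bf fun t => g1984 t u0 g2068
    have u2 := bf fun t => g9 n1 t
    have u3 := bf fun t => g13 n0 t
    have u4 := bf fun t => g14 n0 t
    have u5 := bf fun t => s2081 t n0 n1
    have u6 := bt fun t => g227 u5 t u1
    have u7 := bf fun t => g241 u6 w2069 w2070 u4 t
    have u8 := bf fun t => g1199 g2011 u2 u3 u7 t
    exact g247 u6 n1 u3 u7 u8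
  have s2083 : T.X p r a d = false → T.alt p a b r d = true → T.X p b a d = true → False := fun n0 n1 n2 => by
    have u0 := bf fun t => s2082 t n2
    have u1 := bf fun t => g9 n2 t
    have u2 := bt fun t => g310 n1 w2069 n2 n0 t
    have u3 := bt fun t => g333 n1 n2 u0 n0 t
    have u4 := bt fun t => g1199 g2011 u1 n0 t u2
    exact g23 u3 u4
  have s2084 : T.X a b r d = false → v68 = true → T.alt p a b r d = true → T.X p a r d = false → False := fun n0 n1 n2 n3 => by
    have u0 := bf fun t => g2040 t n3 n0
    have u1 := bf fun t => g321 n2 g2011 t n0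
    exact g2044 n1 u0 u1
  have s2085 : T.alt p a b r d = true → T.X p b a d = true → False := fun n0 n1 => by
    have u0 := bf fun t => s2082 t n1
    have u1 := bf fun t => s2079 t n1
    have u2 := bf fun t => g1984 t u1 g2068
    have u3 := bf fun t => g9 n1 t
    have u4 := bt fun t => g2049 t u2 n0
    have u5 := bt fun t => g2051 t n1 u4
    have u6 := bt fun t => s2083 t n0 n1
    have u7 := bf fun t => g2058 u6 t
    have u8 := bt fun t => g2057 u7 t u5
    have u9 := bt fun t => s2084 t u8 n0 u0
    have u10 := bt fun t => g2042 t u0 u9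
    have u11 := bt fun t => g326 n0 g2011 u3 u0 t u9
    exact g2043 u8 u10 u11
  have s2086 : T.X p b a d = true → False := fun n0 => by
    have u0 := bf fun t => g9 n0 t
    have u1 := bf fun t => s2079 t n0
    have u2 := bf fun t => g1984 t u1 g2068
    have u3 := bf fun t => s2082 t n0
    have u4 := bf fun t => s2085 t n0
    have u5 := bt fun t => g227 u4 t u2
    have u6 := bf fun t => g2050 t u2 u4
    have u7 := bt fun t => g254 u5 g2011 u0 u3 t
    have u8 := bf fun t => g275 u5 g2011 u0 t
    have u9 := bf fun t => g2053 t u6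
    have u10 := bf fun t => g34 u7 t
    have u11 := bf fun t => g35 u7 t
    have u12 := bf fun t => g1160 w2069 u0 u3 t u7
    have u13 := bt fun t => g2042 t u3 u7
    have u14 := bt fun t => g242 u5 w2070 w2078 u8 t u10
    have u15 := bt fun t => g247 u5 n0 t u12 u11
    have u16 := bf fun t => g22 t u14
    have u17 := bf fun t => g2058 u15 t
    have u18 := bt fun t => g2045 t u13 u16
    exact g2056 u17 u18 u9
  have w2086 := bf s2086
  have s2087 := fun (n0 : v65 = true) => g2032 n0 w2086
  have w2087 := bf s2087
  have s2088 := fun (n0 : v70 = true) => g2052 n0 w2086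
  have w2088 := bf s2088
  have s2089 := fun (n0 : v63 = false) => g2035 g2038 n0 w2087
  have w2089 := bt s2089
  have s2090 : T.X p b s d = false → T.alt p a b s d = true → T.X p d a b = false → False := fun n0 n1 n2 => by
    have u0 := bf fun t => g507 n1 g2012 n2 w2073 n0 t
    have u1 := bt fun t => g2024 w2089 t n0
    exact s2075 u1 u0
  have s2091 : T.X p d a b = false → T.alt p a d b s = false → False := fun n0 n1 => by
    have u0 := bf fun t => g1359 g2012 w2078 w2086 n0 g2018 t
    have u1 := bf fun t => g455 t w2078 w2086 g2018 u0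
    have u2 := bt fun t => g408 t u1 n1
    have u3 := bf fun t => g517 u2 w2086 g2018 t
    exact s2090 u3 u2 n0
  have s2092 : T.X p r a d = true → v67 = true → T.alt p a b r d = true → False := fun n0 n1 n2 => by
    have u0 := bf fun t => g336 n2 w2086 n0 t
    have u1 := bf fun t => g2058 n0 t
    have u2 := bt fun t => g2045 t n1 u0
    exact g2056 u1 u2 w2088
  have s2093 : T.X p b s d = false → T.X p a r d = false → T.alt p a b r d = true → False := fun n0 n1 n2 => by
    have u0 := bf fun t => g229 n2 t
    have u1 := bf fun t => g1986 u0 t g2068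
    have u2 := bt fun t => s2091 t u1
    have u3 := bt fun t => g318 n2 g2011 u2 t
    have u4 := bf fun t => g34 u3 t
    have u5 := bt fun t => g2042 t n1 u3
    have u6 := bf fun t => s2092 t u5 n2
    have u7 := bt fun t => g337 n2 g2011 u2 u6 t
    have u8 := bt fun t => g308 n2 w2070 u7 t u4
    have u9 := bt fun t => g2024 w2089 t n0
    have u10 := bt fun t => s2075 u9 t
    have u11 := bf fun t => g1400 u2 g2018 t u10
    have u12 := bf fun t => g467 t g2012 u2 w2073 n0 u10
    have u13 := bt fun t => g408 t u12 u1
    have u14 := bf fun t => g1971 t n2 u13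
    have u15 := bt fun t => g2016 g2017 u14 t
    have u16 := bt fun t => g1988 u15 u0 t
    have u17 := bt fun t => g1980 u15 u12 t
    have u18 := bt fun t => g876 u16 u8 n0 u11 t
    have u19 := bt fun t => g636 u17 n1 u6 g2018 t
    exact g28 u18 u19
  have s2094 : T.X p b s d = true → T.X p d a b = true → False := fun n0 n1 => by
    have u0 := bt fun t => g1313 w2072 n1 w2074 n0 t
    have u1 := bf fun t => g2023 w2089 t n0
    exact s2076 u1 u0
  have s2095 : T.alt p a b r d = true → False := fun n0 => by
    have u0 := bf fun t => g229 n0 t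
    have u1 := bf fun t => g1986 u0 t g2068
    have u2 := bt fun t => s2091 t u1
    have u3 := bf fun t => s2094 t u2
    have u4 := bt fun t => s2093 u3 t n0
    have u5 := bf fun t => g13 u4 t
    have u6 := bf fun t => g14 u4 t
    exact g337 n0 g2011 u2 u5 u6
  have w2095 := bf s2095
  have s2096 : T.X a b r d = false → T.X p d a b = false → False := fun n0 n1 => by
    have u0 := bt fun t => s2091 n1 t
    have u1 := bt fun t => g1986 t u0 g2068
    have u2 := bt fun t => g386 u1 g2011 w2086 n1 t
    have u3 := bf fun t => g2058 u2 t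
    have u4 := bf fun t => g2056 u3 t w2088
    have u5 := bf fun t => g13 t u2
    have u6 := bf fun t => g2040 t u5 n0
    have u7 := bt fun t => g367 u1 g2011 n1 t n0
    exact g2046 u4 u6 u7
  have s2097 : T.alt p a d b r = true → T.X p d a b = false → False := fun n0 n1 => by
    have u0 := bt fun t => g386 n0 g2011 w2086 n1 t
    have u1 := bf fun t => g13 t u0
    have u2 := bf fun t => g2058 u0 t
    have u3 := bf fun t => g2056 u2 t w2088
    have u4 := bt fun t => s2096 t n1
    have u5 := bf fun t => g1280 g2011 w2086 n1 u0 t u4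
    have u6 := bt fun t => g2042 t u1 u4
    exact g2045 u3 u6 u5
  have s2098 : T.X p d a b = false → False := fun n0 => by
    have u0 := bt fun t => s2091 n0 t
    have u1 := bt fun t => g1986 t u0 g2068
    exact s2097 u1 n0
  have w2098 := bt s2098
  have s2099 := fun (n0 : T.X p b s d = true) => s2094 n0 w2098
  have w2099 := bf s2099
  have s2100 := fun (n0 : v62 = false) => g2024 w2089 n0 w2099
  have w2100 := bt s2100
  have s2101 := fun (n0 : T.X a b s d = false) => s2075 w2100 n0
  have w2101 := bt s2101
  have s2104 := fun (n0 : T.X p s b d = true) => g1400 w2098 g2018 n0 w2101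
  have w2104 := bf s2104
  have s2105 := fun (n0 : T.alt p a s b d = true) => g467 n0 g2012 w2098 w2073 w2099 w2101
  have w2105 := bf s2105
  have s2106 := fun (n0 : T.X p d b s = false) => g1380 g2012 w2098 w2099 w2104 n0 w2101
  have w2106 := bt s2106
  have s2107 := fun (n0 : T.alt p a d b s = true) => g585 n0 g2012 w2098 w2073 w2099 w2101
  have w2107 := bf s2107
  have s2108 := fun (n0 : T.alt p a b s d = false) => g408 n0 w2105 w2107
  have w2108 := bt s2108
  have s2109 := fun (n0 : T.alt p a d b r = true) => g1984 n0 w2107 g2068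
  have w2109 := bf s2109
  have s2110 := fun (n0 : T.alt p a b r s = false) => g1973 n0 w2095 w2108
  have w2110 := bt s2110
  have s2113 := fun (n0 : T.alt p a r b d = false) => g227 w2095 n0 w2109
  have w2113 := bt s2113
  have s2115 := fun (n0 : T.alt p a r b s = true) => g47 w2110 n0
  have w2115 := bf s2115
  have s2117 := fun (n0 : T.X a b r s = false) => g137 w2110 g2011 g2012 n0
  have w2117 := bt s2117
  have s2118 := fun (n0 : T.alt p b d r s = false) => g2000 w2110 g2068 n0
  have w2118 := bt s2118
  have s2119 := fun (n0 : T.X p r a s = false) => g2014 g2017 w2110 n0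
  have w2119 := bt s2119
  have s2121 := fun (n0 : T.alt p a r s d = false) => g1978 w2115 w2113 n0
  have w2121 := bt s2121
  have s2127 := fun (n0 : T.X p a r s = true) => g10 n0 w2119
  have w2127 := bf s2127
  have s2128 := fun (n0 : T.X p s a r = true) => g12 w2119 n0
  have w2128 := bf s2128
  have s2130 := fun (n0 : T.X p b r s = true) => g155 w2110 w2072 w2119 n0
  have w2130 := bf s2130
  have s2131 := fun (n0 : T.X p r b s = true) => g1060 g2012 w2119 n0 w2117
  have w2131 := bf s2131
  have s2132 := fun (n0 : T.X p d a r = true) => g696 w2121 w2119 n0 w2074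
  have w2132 := bf s2132
  have s2133 := fun (n0 : T.X p d r s = false) => g935 w2118 w2130 w2131 w2106 n0
  have w2133 := bt s2133
  exact g662 w2121 w2127 w2128 w2132 w2133

theorem f1_sbd {p a b r s d : V} (hN : [p, a, b, r, s, d].Nodup) (h0 : T.X p r a b = true)
    (h1 : T.X p s a b = true) (h2 : T.bfo p a b r s = true) (h3 : T.X p s b d = true)
    (h4 : T.lto p s d b a b = true) (h5 : T.X p r b d = true → T.lto p r d b a b = true → False)
    (h6 : T.X p d a b = true → T.bfo p a b d r = false → T.bfo p a b s d = false → False)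
    (h7 : T.alt p r s b a = false → T.alt p r s d a = true → False)
    (h8 : T.alt p r s b a = true → T.alt p r s d a = false → False) : False := by
  have B61 : T.bfo p a b r s = (bif T.alt p a b r s then T.X p r a s else T.alt p a s b r) :=
    T.bfo_eq rfl rfl (T.as2 p a s r b)
  obtain ⟨v62, e62⟩ : ∃ v : Bool, v = (T.X p a s d ^^ T.X a b s d) := ⟨_, rfl⟩
  obtain ⟨v63, e63⟩ : ∃ v : Bool, v = (v62 ^^ T.X p b s d) := ⟨_, rfl⟩
  have B64 : T.bfo p d b a s = (bif T.alt p a s b d then T.X p a s d else T.alt p a b s d) :=
    T.bfo_eq (T.as6 p d b a s) (T.xs2 p a d s) (T.as6 p d s a b)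
  obtain ⟨v65, e65⟩ : ∃ v : Bool, v = (T.X p a b d && T.bfo p d b a s) := ⟨_, rfl⟩
  have L66 : T.lto p s d b a b = (v63 ^^ v65) :=
    T.lto_eqb (T.xs6 d s p a) (T.xs6 d s a b) (T.xs7 d s b p) (T.xs2 p a d b) e62 e63 e65
  obtain ⟨v67, e67⟩ : ∃ v : Bool, v = (T.X p a r d ^^ T.X a b r d) := ⟨_, rfl⟩
  obtain ⟨v68, e68⟩ : ∃ v : Bool, v = (v67 ^^ T.X p b r d) := ⟨_, rfl⟩
  have B69 : T.bfo p d b a r = (bif T.alt p a r b d then T.X p a r d else T.alt p a b r d) :=
    T.bfo_eq (T.as6 p d b a r) (T.xs2 p a d r) (T.as6 p d r a b)
  obtain ⟨v70, e70⟩ : ∃ v : Bool, v = (T.X p a b d && T.bfo p d b a r) := ⟨_, rfl⟩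
  have L71 : T.lto p r d b a b = (v68 ^^ v70) :=
    T.lto_eqb (T.xs6 d r p a) (T.xs6 d r a b) (T.xs7 d r b p) (T.xs2 p a d b) e67 e68 e70
  have B72 : T.bfo p a b d r = (bif T.alt p a b r d then T.X p d a r else T.alt p a r b d) :=
    T.bfo_eq (T.as2 p a b d r) rfl (T.as2 p a r d b)
  have B73 : T.bfo p a b s d = (bif T.alt p a b s d then T.X p s a d else T.alt p a d b s) :=
    T.bfo_eq rfl rfl (T.as2 p a d s b)
  have k0 : T.Ok5 p a b r s := T.n5 hN (.cons_cons _ (.cons_cons _ (.cons_cons _ (.cons_cons _ (.cons_cons _ (List.nil_sublist _))))))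
  have k1 : T.Ok5 p a b r d := T.n5 hN (.cons_cons _ (.cons_cons _ (.cons_cons _ (.cons_cons _ (.cons _ (.cons_cons _ (List.nil_sublist _)))))))
  have k2 : T.Ok5 p a b s d := T.n5 hN (.cons_cons _ (.cons_cons _ (.cons_cons _ (.cons _ (.cons_cons _ (.cons_cons _ (List.nil_sublist _)))))))
  have k3 : T.Ok5 p a r s d := T.n5 hN (.cons_cons _ (.cons_cons _ (.cons _ (.cons_cons _ (.cons_cons _ (.cons_cons _ (List.nil_sublist _)))))))
  have sp0 : T.Sp5 p a b r s d := T.sp5 hN (.cons_cons _ (.cons_cons _ (.cons_cons _ (.cons_cons _ (.cons_cons _ (.cons_cons _ (List.nil_sublist _)))))))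
  have g2 := T.q02 p a b r
  have g3 := T.q12 p a b r
  have g5 := T.q02 p a b s
  have g6 := T.q12 p a b s
  have g7 := T.q01 p a b d
  have g8 := T.q02 p a b d
  have g13 := T.q01 p a r d
  have g14 := T.q02 p a r d
  have g15 := T.q12 p a r d
  have g22 := T.q01 p b r d
  have g25 := T.q01 p b s d
  have g27 := T.q12 p b s d
  have g34 := T.q01 a b r d
  have g37 := T.q01 a b s d
  have g47 := T.ae01 k0
  have g227 := T.ae1 k1
  have g229 := T.ae02 k1
  have g230 := T.ae12 k1
  have g241 := fun ha : T.alt p a r b d = true => zA1_2307_2048 (T.okA1 k1 ha)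
  have g242 := fun ha : T.alt p a r b d = true => zA1_9482_0 (T.okA1 k1 ha)
  have g247 := fun ha : T.alt p a r b d = true => zA1_18576_16 (T.okA1 k1 ha)
  have g254 := fun ha : T.alt p a r b d = true => zA1_4196_4 (T.okA1 k1 ha)
  have g275 := fun ha : T.alt p a r b d = true => zA1_292_260 (T.okA1 k1 ha)
  have g287 := fun ha : T.alt p a r b d = true => zA1_4708_4164 (T.okA1 k1 ha)
  have g308 := fun ha : T.alt p a b r d = true => zA0_9474_256 (T.okA0 k1 ha)
  have g318 := fun ha : T.alt p a b r d = true => zA0_4132_36 (T.okA0 k1 ha)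
  have g320 := fun ha : T.alt p a b r d = true => zA0_4164_68 (T.okA0 k1 ha)
  have g326 := fun ha : T.alt p a b r d = true => zA0_4708_4100 (T.okA0 k1 ha)
  have g330 := fun ha : T.alt p a b r d = true => zA0_1608_8 (T.okA0 k1 ha)
  have g332 := fun ha : T.alt p a b r d = true => zA0_579_576 (T.okA0 k1 ha)
  have g337 := fun ha : T.alt p a b r d = true => zA0_420_36 (T.okA0 k1 ha)
  have g339 := fun ha : T.alt p a b r d = true => zA0_8456_264 (T.okA0 k1 ha)
  have g356 := fun ha : T.alt p a d b r = true => zA2_8228_8196 (T.okA2 k1 ha)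
  have g358 := fun ha : T.alt p a d b r = true => zA2_384_384 (T.okA2 k1 ha)
  have g367 := fun ha : T.alt p a d b r = true => zA2_4644_4 (T.okA2 k1 ha)
  have g373 := fun ha : T.alt p a d b r = true => zA2_9480_8 (T.okA2 k1 ha)
  have g386 := fun ha : T.alt p a d b r = true => zA2_180_4 (T.okA2 k1 ha)
  have g408 := T.ae1 k2
  have g441 := fun ha : T.alt p a s b d = true => zA1_9224_1032 (T.okA1 k2 ha)
  have g456 := fun ha : T.alt p a s b d = true => zA1_292_260 (T.okA1 k2 ha)
  have g467 := fun ha : T.alt p a s b d = true => zA1_4708_4132 (T.okA1 k2 ha)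
  have g468 := fun ha : T.alt p a s b d = true => zA1_4708_4164 (T.okA1 k2 ha)
  have g499 := fun ha : T.alt p a b s d = true => zA0_4132_36 (T.okA0 k2 ha)
  have g507 := fun ha : T.alt p a b s d = true => zA0_4708_4100 (T.okA0 k2 ha)
  have g516 := fun ha : T.alt p a b s d = true => zA0_1096_1088 (T.okA0 k2 ha)
  have g537 := fun ha : T.alt p a d b s = true => zA2_8228_8196 (T.okA2 k2 ha)
  have g557 := fun ha : T.alt p a d b s = true => zA2_9226_1024 (T.okA2 k2 ha)
  have g570 := fun ha : T.alt p a d b s = true => zA2_2625_64 (T.okA2 k2 ha)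
  have g591 := T.ae02 k3
  have g1144 := z5_4898_768 k1
  have g1149 := z5_5196_68 k1
  have g1161 := z5_9508_8196 k1
  have g1171 := z5_8778_520 k1
  have g1194 := z5_5196_12 k1
  have g1195 := z5_4756_516 k1
  have g1199 := z5_18596_16388 k1
  have g1212 := z5_4728_4672 k1
  have g1278 := z5_5708_4172 k1
  have g1328 := z5_6241_96 k2
  have g1383 := z5_9672_9224 k2
  have g1394 := z5_8332_8332 k2
  have g1400 := z5_5280_5280 k2
  have g1972 := zsp_73_1 sp0
  have g1973 := zsp_73_64 sp0
  have g1974 := zsp_73_8 sp0
  have g1978 := zsp_530_16 sp0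
  have g1985 := zsp_2336_2048 sp0
  have g1986 := zsp_2336_256 sp0
  have g1996 := zsp_16528_16 sp0
  have g1998 := zsp_16528_128 sp0
  have g2001 := zsp_18433_16384 sp0
  have g2011 : T.X p r a b = true := h0
  have g2012 : T.X p s a b = true := h1
  have g2018 : T.X p s b d = true := h3
  have g2019 := xr1 e62
  have g2020 := xr2 e62
  have g2021 := xr3 e62
  have g2024 := xr2 e63
  have g2025 := xr3 e63
  have g2027 := it1 B64
  have g2031 := an0 e65
  have g2032 := an1 e65
  have g2034 := xr1 L66
  have g2035 := xr2 L66
  have g2038 : T.lto p s d b a b = true := h4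
  have g2039 := xr1 e67
  have g2040 := xr2 e67
  have g2041 := xr3 e67
  have g2042 := xr4 e67
  have g2044 := xr2 e68
  have g2045 := xr3 e68
  have g2049 := it3 B69
  have g2050 := it4 B69
  have g2051 := an0 e70
  have g2052 := an1 e70
  have g2053 := an2 e70
  have g2056 := xr3 L71
  have g2057 := xr4 L71
  have g2058 := fun (n0 : T.X p r b d = true) (n1 : T.lto p r d b a b = true) => h5 n0 n1
  have g2060 := it2 B72
  have g2062 := it4 B72
  have g2064 := it2 B73
  have g2067 := fun (n0 : T.X p d a b = true) (n1 : T.bfo p a b d r = false) (n2 : T.bfo p a b s d = false) => h6 n0 n1 n2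
  have g2068 := fun (n0 : T.alt p a b r s = false) (n1 : T.alt p a d r s = true) => h7 ((T.as5 p r s b a).trans n0) ((T.as5 p r s d a).trans n1)
  have g2069 := fun (n0 : T.alt p a b r s = true) (n1 : T.alt p a d r s = false) => h8 ((T.as5 p r s b a).trans n0) ((T.as5 p r s d a).trans n1)
  have s2070 := fun (n0 : T.X p a b r = true) => g2 n0 g2011
  have w2070 := bf s2070
  have s2071 := fun (n0 : T.X p b a r = true) => g3 n0 g2011
  have w2071 := bf s2071
  have s2072 := fun (n0 : T.X p a b s = true) => g5 n0 g2012
  have w2072 := bf s2072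
  have s2073 := fun (n0 : T.X p b a s = true) => g6 n0 g2012
  have w2073 := bf s2073
  have s2074 := fun (n0 : T.X p b s d = true) => g25 n0 g2018
  have w2074 := bf s2074
  have s2075 := fun (n0 : T.X p d b s = true) => g27 g2018 n0
  have w2075 := bf s2075
  have s2076 := fun (n0 : v63 = true) (n1 : v62 = false) => g2024 n0 n1 w2074
  have s2077 := fun (n0 : v63 = false) (n1 : v62 = true) => g2025 n0 n1 w2074
  have s2078 : T.alt p a s b d = true → T.X p a s d = true → T.X p a b d = true → False := fun n0 n1 n2 => by
    have u0 := bf fun t => g8 n2 t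
    have u1 := bt fun t => g2027 t n0 n1
    have u2 := bf fun t => g468 n0 g2012 u0 n1 w2074 t
    have u3 := bt fun t => g2031 t n2 u1
    have u4 := bt fun t => g2021 t n1 u2
    have u5 := bf fun t => g2034 g2038 t u3
    exact s2077 u5 u4
  have s2079 : T.alt p a s b d = false → T.X p a r d = true → T.alt p a b r s = false → T.X p a b d = true → False := fun n0 n1 n2 n3 => by
    have u0 := bf fun t => g2068 n2 t
    have u1 := bf fun t => g7 n3 t
    have u2 := bf fun t => g8 n3 t
    have u3 := bf fun t => g13 n1 t
    have u4 := bf fun t => g386 t g2011 u1 u2 u3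
    have u5 := bf fun t => g1986 u4 t u0
    have u6 := bf fun t => g2001 n2 u0 t
    have u7 := bt fun t => g408 t n0 u5
    have u8 := bf fun t => g1996 t n0 u6
    have u9 := bt fun t => g1973 n2 t u7
    have u10 := bt fun t => g320 u9 g2011 n1 t
    have u11 := bf fun t => g332 u9 w2070 w2071 n1 t
    have u12 := bt fun t => g2049 t u8 u9
    have u13 := bf fun t => g2039 t n1 u10
    have u14 := bt fun t => g1278 g2011 n3 n1 u11 t u10
    have u15 := bt fun t => g2051 t n3 u12
    have u16 := bf fun t => g2044 t u13 u11
    have u17 := bf fun t => g2058 u14 t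
    exact g2057 u17 u16 u15
  have s2080 : T.alt p a s b d = true → T.X p a b d = true → False := fun n0 n1 => by
    have u0 := bf fun t => g8 n1 t
    have u1 := bf fun t => g456 n0 g2012 u0 t
    have u2 := bt fun t => g441 n0 n1 g2018 t
    have u3 := bf fun t => s2078 n0 t n1
    have u4 := bf fun t => g1394 g2012 n1 t u2
    exact g1383 n1 u3 u4 u1 g2018 u2
  have s2081 : T.X p b r d = true → T.X p d a r = false → T.X p a r d = false → T.X p a b d = true → False := fun n0 n1 n2 n3 => by
    have u0 := bf fun t => g8 n3 t
    have u1 := bf fun t => g22 n0 t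
    have u2 := bt fun t => g1171 w2071 n3 n2 n0 t
    exact g1161 g2011 u0 n1 u1 u2
  have s2083 : T.X p r b d = false → T.X p d a r = false → T.alt p a b r s = false → T.X p a b d = true → False := fun n0 n1 n2 n3 => by
    have u0 := bf fun t => s2080 t n3
    have u1 := bf fun t => s2079 u0 t n2 n3
    have u2 := bf fun t => s2081 t n1 u1 n3
    have u3 := bf fun t => g2068 n2 t
    have u4 := bf fun t => g2001 n2 u3 t
    have u5 := bf fun t => g1996 t u0 u4
    have u6 := bf fun t => g8 n3 t
    have u7 := bf fun t => g1161 g2011 u6 n1 n0 t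
    have u8 := bf fun t => g330 t n3 u1 u2 n0
    have u9 := bf fun t => g373 t n3 n1 n0 u7
    exact g227 u8 u5 u9
  have s2084 : T.alt p a b r d = true → T.X p d a r = false → T.alt p a b r s = false → T.X p a b d = true → False := fun n0 n1 n2 n3 => by
    have u0 := bt fun t => s2083 t n1 n2 n3
    have u1 := bf fun t => g2058 u0 t
    have u2 := bf fun t => s2080 t n3
    have u3 := bf fun t => s2079 u2 t n2 n3
    have u4 := bf fun t => s2081 t n1 u3 n3
    have u5 := bf fun t => g2068 n2 t
    have u6 := bf fun t => g2001 n2 u5 t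
    have u7 := bf fun t => g1996 t u2 u6
    have u8 := bf fun t => g8 n3 t
    have u9 := bt fun t => g2049 t u7 n0
    have u10 := bf fun t => g326 n0 g2011 u8 u3 u4 t
    have u11 := bt fun t => g2051 t n3 u9
    have u12 := bf fun t => g2040 t u3 u10
    have u13 := bt fun t => g2057 u1 t u11
    exact g2044 u13 u12 u4
  have s2085 : T.X p d a r = false → T.alt p a b r s = false → T.X p a b d = true → False := fun n0 n1 n2 => by
    have u0 := bf fun t => s2080 t n2
    have u1 := bf fun t => s2079 u0 t n1 n2
    have u2 := bf fun t => g2068 n1 t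
    have u3 := bf fun t => g2001 n1 u2 t
    have u4 := bf fun t => g1996 t u0 u3
    have u5 := bf fun t => g8 n2 t
    have u6 := bf fun t => s2081 t n0 u1 n2
    have u7 := bt fun t => s2083 t n0 n1 n2
    have u8 := bf fun t => g2058 u7 t
    have u9 := bf fun t => s2084 t n0 n1 n2
    have u10 := bt fun t => g227 u9 u4 t
    have u11 := bf fun t => g2050 t u4 u9
    have u12 := bt fun t => g367 u10 g2011 u5 u6 t
    have u13 := bf fun t => g2053 t u11
    have u14 := bt fun t => g2042 t u1 u12
    have u15 := bf fun t => g2056 u8 t u13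
    exact g2045 u15 u14 u6
  have s2087 : T.alt p a b r s = false → T.X p a b d = true → False := fun n0 n1 => by
    have u0 := bf fun t => s2080 t n1
    have u1 := bf fun t => g8 n1 t
    have u2 := bf fun t => g7 n1 t
    have u3 := bt fun t => s2085 t n0 n1
    have u4 := bf fun t => s2079 u0 t n0 n1
    have u5 := bf fun t => g15 t u3
    have u6 := bf fun t => g275 t g2011 u1 u3
    have u7 := bf fun t => g386 t g2011 u2 u1 u5
    have u8 := bt fun t => g227 t u6 u7
    have u9 := bt fun t => g339 u8 n1 u3 t
    have u10 := bt fun t => g2049 t u6 u8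
    have u11 := bf fun t => g34 t u9
    have u12 := bt fun t => g2051 t n1 u10
    have u13 := bf fun t => g1195 g2011 u2 u5 t u11
    have u14 := bf fun t => g2040 t u4 u11
    have u15 := bt fun t => g1194 g2011 n1 u4 t u11
    have u16 := bf fun t => g2044 t u14 u13
    have u17 := bf fun t => g2058 u15 t
    exact g2057 u17 u16 u12
  have s2088 : T.X p b r d = true → T.X p a r d = false → T.X p a b d = true → False := fun n0 n1 n2 => by
    have u0 := bf fun t => g8 n2 t
    have u1 := bt fun t => g1171 w2071 n2 n1 n0 t
    have u2 := bt fun t => s2081 n0 t n1 n2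
    have u3 := bt fun t => g1144 w2071 u0 u2 n0 t
    exact g34 u3 u1
  have s2089 : T.alt p a b r d = true → T.X p a r d = false → T.X p a b d = true → False := fun n0 n1 n2 => by
    have u0 := bf fun t => s2088 t n1 n2
    have u1 := bt fun t => s2087 t n2
    have u2 := bf fun t => g47 u1 t
    have u3 := bt fun t => g2069 u1 t
    have u4 := bf fun t => g591 t u3
    have u5 := bf fun t => g1978 u2 t u4
    have u6 := bf fun t => g8 n2 t
    have u7 := bt fun t => g2049 t u5 n0
    have u8 := bf fun t => g326 n0 g2011 u6 n1 u0 t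
    have u9 := bt fun t => g330 n0 n2 n1 u0 t
    have u10 := bt fun t => g2051 t n2 u7
    have u11 := bf fun t => g2040 t n1 u8
    have u12 := bf fun t => g2058 u9 t
    have u13 := bf fun t => g2044 t u11 u0
    exact g2057 u12 u13 u10
  have s2090 : T.X p a r d = false → T.X p a b d = true → False := fun n0 n1 => by
    have u0 := bt fun t => s2087 t n1
    have u1 := bf fun t => g47 u0 t
    have u2 := bt fun t => g2069 u0 t
    have u3 := bf fun t => g591 t u2
    have u4 := bf fun t => g1978 u1 t u3
    have u5 := bf fun t => g8 n1 t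
    have u6 := bf fun t => g7 n1 t
    have u7 := bf fun t => s2088 t n0 n1
    have u8 := bf fun t => s2089 t n0 n1
    have u9 := bt fun t => g227 u8 u4 t
    have u10 := bf fun t => g2050 t u4 u8
    have u11 := bf fun t => g356 u9 g2011 u5 t
    have u12 := bt fun t => g367 u9 g2011 u5 u7 t
    have u13 := bt fun t => g386 u9 g2011 u6 u5 t
    have u14 := bf fun t => g2053 t u10
    have u15 := bt fun t => g2042 t n0 u12
    have u16 := bt fun t => g2045 t u15 u7
    have u17 := bf fun t => g358 u9 u13 t
    have u18 := bt fun t => g373 u9 n1 u17 t u11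
    have u19 := bt fun t => g2056 t u16 u14
    exact g2058 u18 u19
  have s2091 : T.X p a b d = true → False := fun n0 => by
    have u0 := bf fun t => g7 n0 t
    have u1 := bf fun t => g8 n0 t
    have u2 := bt fun t => s2087 t n0
    have u3 := bf fun t => g47 u2 t
    have u4 := bt fun t => g2069 u2 t
    have u5 := bf fun t => g591 t u4
    have u6 := bf fun t => g1978 u3 t u5
    have u7 := bt fun t => s2090 t n0
    have u8 := bf fun t => g13 u7 t
    have u9 := bf fun t => g386 t g2011 u0 u1 u8
    have u10 := bt fun t => g227 t u6 u9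
    have u11 := bt fun t => g320 u10 g2011 u7 t
    have u12 := bf fun t => g332 u10 w2070 w2071 u7 t
    have u13 := bt fun t => g2049 t u6 u10
    have u14 := bf fun t => g2039 t u7 u11
    have u15 := bt fun t => g1278 g2011 n0 u7 u12 t u11
    have u16 := bt fun t => g2051 t n0 u13
    have u17 := bf fun t => g2044 t u14 u12
    have u18 := bf fun t => g2058 u15 t
    exact g2057 u18 u17 u16
  have w2091 := bf s2091
  have s2092 := fun (n0 : v65 = true) => g2032 n0 w2091
  have w2092 := bf s2092
  have s2093 := fun (n0 : v70 = true) => g2052 n0 w2091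
  have w2093 := bf s2093
  have s2094 := fun (n0 : v63 = false) => g2035 g2038 n0 w2092
  have w2094 := bt s2094
  have s2095 := fun (n0 : v62 = false) => s2076 w2094 n0
  have w2095 := bt s2095
  have s2096 : T.X p a s d = false → T.alt p a b s d = true → T.X p d a b = false → False := fun n0 n1 n2 => by
    have u0 := bf fun t => g507 n1 g2012 n2 n0 w2074 t
    exact g2020 w2095 n0 u0
  have s2097 : T.alt p a b s d = true → T.X p d a b = false → False := fun n0 n1 => by
    have u0 := bf fun t => g516 n0 w2091 t g2018
    exact s2096 u0 n0 n1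
  have s2098 : T.alt p a d b s = true → T.X p d a b = false → False := fun n0 n1 => by
    have u0 := bf fun t => g537 n0 g2012 n1 t
    exact g557 n0 w2073 w2091 g2018 u0
  have s2099 : T.alt p a b r d = true → T.X p d a b = false → False := fun n0 n1 => by
    have u0 := bf fun t => s2098 t n1
    have u1 := bf fun t => s2097 t n1
    have u2 := bf fun t => g229 n0 t
    have u3 := bt fun t => g1974 t n0 u1
    have u4 := bf fun t => g1985 u2 u0 t
    exact g2069 u3 u4
  have s2100 : T.alt p a r b d = true → T.X p d a b = false → T.X p a r d = false → False := fun n0 n1 n2 => by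
    have u0 := bt fun t => g254 n0 g2011 n1 n2 t
    have u1 := bf fun t => g275 n0 g2011 n1 t
    have u2 := bf fun t => g34 u0 t
    have u3 := bt fun t => g2042 t n2 u0
    have u4 := bt fun t => g242 n0 w2071 w2091 u1 t u2
    have u5 := bf fun t => g22 t u4
    have u6 := bf fun t => g2058 u4 t
    have u7 := bt fun t => g2045 t u3 u5
    exact g2056 u6 u7 w2093
  have s2101 : T.X p d a b = false → T.X p a r d = false → False := fun n0 n1 => by
    have u0 := bf fun t => s2097 t n0
    have u1 := bf fun t => s2098 t n0
    have u2 := bt fun t => g408 u0 t u1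
    have u3 := bf fun t => s2099 t n0
    have u4 := bf fun t => g1972 t u3 u0
    have u5 := bf fun t => g2068 u4 t
    have u6 := bf fun t => g2001 u4 u5 t
    have u7 := bt fun t => g1998 t u2 u6
    exact s2100 u7 n0 n1
  have s2102 : T.X p r b d = true → v67 = true → False := fun n0 n1 => by
    have u0 := bf fun t => g22 t n0
    have u1 := bf fun t => g2058 n0 t
    have u2 := bt fun t => g2045 t n1 u0
    exact g2056 u1 u2 w2093
  have s2103 : T.alt p a b s d = true → T.bfo p a b s d = true → T.X p d a b = true → False := fun n0 n1 n2 => by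
    have u0 := bt fun t => g499 n0 g2012 n2 t
    have u1 := bt fun t => g2064 n1 n0 t
    exact g1400 n2 u1 g2018 u0
  have s2104 : T.alt p a d b s = true → False := fun n0 => by
    have u0 := bt fun t => g557 n0 w2073 w2091 g2018 t
    have u1 := bf fun t => g570 n0 w2072 t w2074 w2075
    have u2 := bf fun t => g37 t u0
    exact g2020 w2095 u1 u2
  have w2104 := bf s2104
  have s2105 : T.alt p a b r d = true → T.X p a r d = false → False := fun n0 n1 => by
    have u0 := bt fun t => s2101 t n1
    have u1 := bf fun t => g229 n0 t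
    have u2 := bt fun t => g318 n0 g2011 u0 t
    have u3 := bf fun t => g1985 u1 w2104 t
    have u4 := bf fun t => g34 u2 t
    have u5 := bt fun t => g2042 t n1 u2
    have u6 := bf fun t => g2069 t u3
    have u7 := bf fun t => s2102 t u5
    have u8 := bt fun t => g1974 u6 n0 t
    have u9 := bf fun t => g308 n0 w2071 t u7 u4
    have u10 := bf fun t => s2103 u8 t u0
    have u11 := bf fun t => g2060 t n0 u9
    exact g2067 u0 u11 u10
  have s2107 : T.X p a s d = true → T.X p d a b = true → False := fun n0 n1 => by
    have u0 := bt fun t => g1328 w2072 n1 n0 w2075 t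
    exact g2019 w2095 n0 u0
  have s2108 : T.X p a r d = false → False := fun n0 => by
    have u0 := bt fun t => s2101 t n0
    have u1 := bf fun t => s2105 t n0
    have u2 := bf fun t => s2107 t u0
    have u3 := bt fun t => g2020 w2095 u2 t
    have u4 := bf fun t => g467 t g2012 u0 u2 w2074 u3
    have u5 := bf fun t => g1400 u0 t g2018 u3
    have u6 := bt fun t => g408 t u4 w2104
    have u7 := bf fun t => g2064 t u6 u5
    have u8 := bt fun t => g1973 t u1 u6
    have u9 := bt fun t => g2067 u0 t u7
    have u10 := bt fun t => g2069 u8 t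
    have u11 := bt fun t => g2062 u9 u1 t
    have u12 := bt fun t => g1985 t w2104 u10
    exact g230 u11 u12
  have w2108 := bt s2108
  have s2109 := fun (n0 : T.X p r a d = true) => g13 w2108 n0
  have w2109 := bf s2109
  have s2110 := fun (n0 : T.X p d a r = true) => g14 w2108 n0
  have w2110 := bf s2110
  have s2111 : T.X a b r d = true → T.X p d a b = false → False := fun n0 n1 => by
    have u0 := bf fun t => s2097 t n1
    have u1 := bt fun t => g408 u0 t w2104
    have u2 := bf fun t => s2099 t n1
    have u3 := bf fun t => g1972 t u2 u0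
    have u4 := bf fun t => g2068 u3 t
    have u5 := bf fun t => g2001 u3 u4 t
    have u6 := bt fun t => g1998 t u1 u5
    have u7 := bf fun t => g241 u6 w2070 w2071 w2110 t
    have u8 := bf fun t => g1199 g2011 n1 w2109 u7 t
    have u9 := bf fun t => g247 u6 t w2109 u7 u8
    have u10 := bf fun t => g1212 w2091 u9 n1 w2108 t n0
    exact g287 u6 g2011 n1 w2108 u10 n0
  have s2112 : T.X a b r d = false → False := fun n0 => by
    have u0 := bt fun t => g2041 t w2108 n0
    have u1 := bt fun t => g1149 g2011 w2091 w2108 t n0
    exact s2102 u1 u0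
  have w2112 := bt s2112
  have s2116 := fun (n0 : T.X p d a b = false) => s2111 w2112 n0
  have w2116 := bt s2116
  have s2119 := fun (n0 : T.X p a s d = true) => s2107 n0 w2116
  have w2119 := bf s2119
  have s2120 := fun (n0 : T.alt p a b r d = true) => g337 n0 g2011 w2116 w2109 w2110
  have w2120 := bf s2120
  have s2122 := fun (n0 : T.X a b s d = false) => g2020 w2095 w2119 n0
  have w2122 := bt s2122
  have s2127 := fun (n0 : T.alt p a s b d = true) => g467 n0 g2012 w2116 w2119 w2074 w2122
  have w2127 := bf s2127
  have s2129 := fun (n0 : T.alt p a b s d = false) => g408 n0 w2127 w2104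
  have w2129 := bt s2129
  have s2130 := fun (n0 : T.alt p a b r s = false) => g1973 n0 w2120 w2129
  have w2130 := bt s2130
  have s2132 := fun (n0 : T.bfo p a b s d = true) => s2103 w2129 n0 w2116
  have w2132 := bf s2132
  have s2133 := fun (n0 : T.alt p a r b s = true) => g47 w2130 n0
  have w2133 := bf s2133
  have s2137 := fun (n0 : T.alt p a d r s = false) => g2069 w2130 n0
  have w2137 := bt s2137
  have s2138 := fun (n0 : T.bfo p a b d r = false) => g2067 w2116 n0 w2132
  have w2138 := bt s2138
  have s2150 := fun (n0 : T.alt p a r s d = true) => g591 n0 w2137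
  have w2150 := bf s2150
  have s2153 := fun (n0 : T.alt p a r b d = false) => g2062 w2138 w2120 n0
  have w2153 := bt s2153
  exact g1978 w2133 w2153 w2150

theorem f1_srd {p a b r s d : V} (hN : [p, a, b, r, s, d].Nodup) (h0 : T.X p r a b = true)
    (h1 : T.X p s a b = true) (h2 : T.bfo p a b r s = true) (h3 : T.X p s r d = true) (h4 : T.X a b r d = false)
    (h5 : T.lto p s r d a b = true)
    (h6 : T.X p d a b = true → T.bfo p a b d r = false → T.bfo p a b s d = false → False)
    (h7 : T.alt p r s d a = false) : False := by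
  have B61 : T.bfo p a b r s = (bif T.alt p a b r s then T.X p r a s else T.alt p a s b r) :=
    T.bfo_eq rfl rfl (T.as2 p a s r b)
  obtain ⟨v62, e62⟩ : ∃ v : Bool, v = (T.X p a r s ^^ T.X a b r s) := ⟨_, rfl⟩
  obtain ⟨v63, e63⟩ : ∃ v : Bool, v = (v62 ^^ T.X p b r s) := ⟨_, rfl⟩
  have B64 : T.bfo p r d a s = (bif T.alt p a s r d then T.X p a r s else T.alt p a d r s) :=
    T.bfo_eq (T.as4 p r d a s) rfl (T.as4 p r s a d)
  obtain ⟨v65, e65⟩ : ∃ v : Bool, v = (T.X p a r d && T.bfo p r d a s) := ⟨_, rfl⟩
  have B66 : T.bfo p r d b s = (bif T.alt p b s r d then T.X p b r s else T.alt p b d r s) :=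
    T.bfo_eq (T.as4 p r d b s) rfl (T.as4 p r s b d)
  obtain ⟨v67, e67⟩ : ∃ v : Bool, v = (T.X p b r d && T.bfo p r d b s) := ⟨_, rfl⟩
  obtain ⟨v68, e68⟩ : ∃ v : Bool, v = (v63 ^^ v65) := ⟨_, rfl⟩
  have L69 : T.lto p s r d a b = (v68 ^^ v67) :=
    T.lto_eq (T.xs4 r s p a) (T.xs4 r s a b) (T.xs5 r s b p) rfl rfl e62 e63 e65 e68 e67
  have B70 : T.bfo p a b d r = (bif T.alt p a b r d then T.X p d a r else T.alt p a r b d) :=
    T.bfo_eq (T.as2 p a b d r) rfl (T.as2 p a r d b)
  have B71 : T.bfo p a b s d = (bif T.alt p a b s d then T.X p s a d else T.alt p a d b s) :=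
    T.bfo_eq rfl rfl (T.as2 p a d s b)
  have k0 : T.Ok5 p a b r s := T.n5 hN (.cons_cons _ (.cons_cons _ (.cons_cons _ (.cons_cons _ (.cons_cons _ (List.nil_sublist _))))))
  have k1 : T.Ok5 p a b r d := T.n5 hN (.cons_cons _ (.cons_cons _ (.cons_cons _ (.cons_cons _ (.cons _ (.cons_cons _ (List.nil_sublist _)))))))
  have k2 : T.Ok5 p a b s d := T.n5 hN (.cons_cons _ (.cons_cons _ (.cons_cons _ (.cons _ (.cons_cons _ (.cons_cons _ (List.nil_sublist _)))))))
  have k3 : T.Ok5 p a r s d := T.n5 hN (.cons_cons _ (.cons_cons _ (.cons _ (.cons_cons _ (.cons_cons _ (.cons_cons _ (List.nil_sublist _)))))))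
  have k4 : T.Ok5 p b r s d := T.n5 hN (.cons_cons _ (.cons _ (.cons_cons _ (.cons_cons _ (.cons_cons _ (.cons_cons _ (List.nil_sublist _)))))))
  have k5 : T.Ok5 a b r s d := T.n5 hN (.cons _ (.cons_cons _ (.cons_cons _ (.cons_cons _ (.cons_cons _ (.cons_cons _ (List.nil_sublist _)))))))
  have sp0 : T.Sp5 p a b r s d := T.sp5 hN (.cons_cons _ (.cons_cons _ (.cons_cons _ (.cons_cons _ (.cons_cons _ (.cons_cons _ (List.nil_sublist _)))))))
  have g2 := T.q02 p a b r
  have g5 := T.q02 p a b s
  have g6 := T.q12 p a b s
  have g7 := T.q01 p a b d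
  have g8 := T.q02 p a b d
  have g10 := T.q01 p a r s
  have g13 := T.q01 p a r d
  have g20 := T.q02 p b r s
  have g22 := T.q01 p b r d
  have g24 := T.q12 p b r d
  have g27 := T.q12 p b s d
  have g28 := T.q01 p r s d
  have g30 := T.q12 p r s d
  have g32 := T.q02 a b r s
  have g43 := T.q01 b r s d
  have g45 := T.q12 b r s d
  have g47 := T.ae01 k0
  have g49 := T.ae12 k0
  have g125 := fun ha : T.alt p a b r s = true => zA0_18576_128 (T.okA0 k0 ha)
  have g137 := fun ha : T.alt p a b r s = true => zA0_4132_36 (T.okA0 k0 ha)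
  have g155 := fun ha : T.alt p a b r s = true => zA0_656_640 (T.okA0 k0 ha)
  have g203 := fun ha : T.alt p a s b r = true => zA2_4640_544 (T.okA2 k0 ha)
  have g217 := fun ha : T.alt p a s b r = true => zA2_4164_68 (T.okA2 k0 ha)
  have g223 := fun ha : T.alt p a s b r = true => zA2_4708_4132 (T.okA2 k0 ha)
  have g227 := T.ae1 k1
  have g254 := fun ha : T.alt p a r b d = true => zA1_4196_4 (T.okA1 k1 ha)
  have g266 := fun ha : T.alt p a r b d = true => zA1_4612_516 (T.okA1 k1 ha)
  have g318 := fun ha : T.alt p a b r d = true => zA0_4132_36 (T.okA0 k1 ha)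
  have g320 := fun ha : T.alt p a b r d = true => zA0_4164_68 (T.okA0 k1 ha)
  have g321 := fun ha : T.alt p a b r d = true => zA0_4612_516 (T.okA0 k1 ha)
  have g367 := fun ha : T.alt p a d b r = true => zA2_4644_4 (T.okA2 k1 ha)
  have g384 := fun ha : T.alt p a d b r = true => zA2_4640_544 (T.okA2 k1 ha)
  have g398 := fun ha : T.alt p a d b r = true => zA2_4164_68 (T.okA2 k1 ha)
  have g408 := T.ae1 k2
  have g410 := T.ae02 k2
  have g422 := fun ha : T.alt p a s b d = true => zA1_2307_2048 (T.okA1 k2 ha)
  have g451 := fun ha : T.alt p a s b d = true => zA1_9482_9216 (T.okA1 k2 ha)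
  have g456 := fun ha : T.alt p a s b d = true => zA1_292_260 (T.okA1 k2 ha)
  have g499 := fun ha : T.alt p a b s d = true => zA0_4132_36 (T.okA0 k2 ha)
  have g537 := fun ha : T.alt p a d b s = true => zA2_8228_8196 (T.okA2 k2 ha)
  have g557 := fun ha : T.alt p a d b s = true => zA2_9226_1024 (T.okA2 k2 ha)
  have g589 := T.ae1 k3
  have g624 := fun ha : T.alt p a s r d = true => zA1_9218_1026 (T.okA1 k3 ha)
  have g687 := fun ha : T.alt p a r s d = true => zA0_9218_1026 (T.okA0 k3 ha)
  have g772 := T.ae02 k4
  have g773 := T.ae12 k4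
  have g798 := fun ha : T.alt p b s r d = true => zA1_18561_1 (T.okA1 k4 ha)
  have g803 := fun ha : T.alt p b s r d = true => zA1_9224_1032 (T.okA1 k4 ha)
  have g844 := fun ha : T.alt p b r s d = true => zA0_4708_0 (T.okA0 k4 ha)
  have g852 := fun ha : T.alt p b r s d = true => zA0_9480_1024 (T.okA0 k4 ha)
  have g876 := fun ha : T.alt p b r s d = true => zA0_720_16 (T.okA0 k4 ha)
  have g878 := fun ha : T.alt p b r s d = true => zA0_1096_1088 (T.okA0 k4 ha)
  have g899 := fun ha : T.alt p b d r s = true => zA2_8228_8196 (T.okA2 k4 ha)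
  have g919 := fun ha : T.alt p b d r s = true => zA2_9226_1024 (T.okA2 k4 ha)
  have g935 := fun ha : T.alt p b d r s = true => zA2_2307_256 (T.okA2 k4 ha)
  have g1056 := z5_612_612 k0
  have g1060 := z5_5280_5280 k0
  have g1147 := z5_4756_20 k1
  have g1149 := z5_5196_68 k1
  have g1159 := z5_6241_2112 k1
  have g1194 := z5_5196_12 k1
  have g1195 := z5_4756_516 k1
  have g1685 := z5_6241_4097 k4
  have g1701 := z5_10505_8193 k4
  have g1795 := z5_9636_9252 k4
  have g1817 := z5_17545_1025 k5
  have g1860 := z5_5196_1088 k5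
  have g1972 := zsp_73_1 sp0
  have g1973 := zsp_73_64 sp0
  have g1977 := zsp_530_512 sp0
  have g1979 := zsp_1156_1156 sp0
  have g1981 := zsp_1156_1024 sp0
  have g1984 := zsp_2336_32 sp0
  have g1986 := zsp_2336_256 sp0
  have g1988 := zsp_4132_4 sp0
  have g1994 := zsp_8450_256 sp0
  have g1996 := zsp_16528_16 sp0
  have g2000 := zsp_18433_1 sp0
  have g2001 := zsp_18433_16384 sp0
  have g2006 := zsp_9224_1024 sp0
  have g2010 := zsp_4672_512 sp0
  have g2011 : T.X p r a b = true := h0
  have g2012 : T.X p s a b = true := h1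
  have g2014 := it2 B61
  have g2016 := it4 B61
  have g2017 : T.bfo p a b r s = true := h2
  have g2018 : T.X p s r d = true := h3
  have g2019 : T.X a b r d = false := h4
  have g2020 := xr1 e62
  have g2021 := xr2 e62
  have g2023 := xr4 e62
  have g2024 := xr1 e63
  have g2025 := xr2 e63
  have g2029 := it2 B64
  have g2031 := it4 B64
  have g2033 := an1 e65
  have g2034 := an2 e65
  have g2036 := it2 B66
  have g2040 := an1 e67
  have g2041 := an2 e67
  have g2043 := xr2 e68
  have g2047 := xr2 L69
  have g2050 : T.lto p s r d a b = true := h5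
  have g2060 : T.alt p a d r s = false := ((T.as5 p r s d a).symm.trans h7)
  have s2061 := fun (n0 : T.X p a b r = true) => g2 n0 g2011
  have w2061 := bf s2061
  have s2063 := fun (n0 : T.X p a b s = true) => g5 n0 g2012
  have w2063 := bf s2063
  have s2064 := fun (n0 : T.X p b a s = true) => g6 n0 g2012
  have w2064 := bf s2064
  have s2065 := fun (n0 : T.X p r s d = true) => g28 n0 g2018
  have w2065 := bf s2065
  have s2066 := fun (n0 : T.X p d r s = true) => g30 g2018 n0
  have w2066 := bf s2066
  have s2067 : T.X p a r d = true → T.X p a r s = true → T.X p b a d = false → False := fun n0 n1 n2 => by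
    have u0 := bf fun t => g1056 g2011 g2012 n1 t
    have u1 := bf fun t => g10 n1 t
    have u2 := bf fun t => g2014 g2017 t u1
    have u3 := bt fun t => g2016 g2017 u2 t
    have u4 := bt fun t => g217 u3 g2011 n1 t
    have u5 := bf fun t => g2020 t n1 u4
    have u6 := bf fun t => g2025 t u5 u0
    have u7 := bf fun t => g13 n0 t
    have u8 := bf fun t => g320 t g2011 n0 g2019
    have u9 := bf fun t => g398 t g2011 n0 g2019
    have u10 := bf fun t => g1195 g2011 n2 u7 t g2019
    have u11 := bf fun t => g1973 u2 u8 t
    have u12 := bf fun t => g1986 u9 t g2060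
    have u13 := bf fun t => g2040 t u10
    have u14 := bt fun t => g408 u11 t u12
    have u15 := bt fun t => g2047 g2050 t u13
    have u16 := bf fun t => g1979 u3 u14 t
    have u17 := bt fun t => g2043 u15 u6 t
    have u18 := bf fun t => g2031 t u16 g2060
    exact g2034 u17 u18
  have s2068 : T.X p a r s = true → T.X p a b d = true → False := fun n0 n1 => by
    have u0 := bf fun t => g7 n1 t
    have u1 := bf fun t => g10 n0 t
    have u2 := bf fun t => g1056 g2011 g2012 n0 t
    have u3 := bf fun t => g2014 g2017 t u1
    have u4 := bt fun t => g2016 g2017 u3 t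
    have u5 := bt fun t => g217 u4 g2011 n0 t
    have u6 := bf fun t => g2020 t n0 u5
    have u7 := bf fun t => g2025 t u6 u2
    have u8 := bf fun t => s2067 t n0 u0
    have u9 := bt fun t => g1194 g2011 n1 u8 t g2019
    have u10 := bf fun t => g2033 t u8
    have u11 := bf fun t => g22 t u9
    have u12 := bf fun t => g2043 t u7 u10
    have u13 := bf fun t => g2040 t u11
    exact g2047 g2050 u12 u13
  have s2069 : T.alt p a b r s = false → T.X p a r d = true → T.X p a b d = true → False := fun n0 n1 n2 => by
    have u0 := bf fun t => g7 n2 t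
    have u1 := bf fun t => g13 n1 t
    have u2 := bf fun t => g1195 g2011 u0 u1 t g2019
    have u3 := bf fun t => g2040 t u2
    have u4 := bt fun t => g2047 g2050 t u3
    have u5 := bf fun t => g320 t g2011 n1 g2019
    have u6 := bf fun t => g398 t g2011 n1 g2019
    have u7 := bt fun t => g227 u5 t u6
    have u8 := bf fun t => s2068 t n2
    have u9 := bf fun t => g8 n2 t
    have u10 := bf fun t => g2001 n0 g2060 t
    have u11 := bt fun t => g2016 g2017 n0 t
    have u12 := bt fun t => g1996 u7 t u10
    have u13 := bt fun t => g1988 u11 u6 t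
    have u14 := bf fun t => g456 u12 g2012 u9 t
    have u15 := bf fun t => g1979 u11 u12 t
    have u16 := bf fun t => g422 u12 w2063 w2064 u14 t
    have u17 := bf fun t => g2031 t u15 g2060
    have u18 := bt fun t => g852 u13 u2 u16 g2018 t
    have u19 := bf fun t => g1701 t u2 u16 w2066 u18
    have u20 := bf fun t => g2034 t u17
    have u21 := bf fun t => g223 u11 g2011 g2012 u8 u19 t
    have u22 := bt fun t => g2043 u4 t u20
    have u23 := bf fun t => g2021 t u8 u21
    exact g2025 u22 u23 u19
  have s2070 : T.X p a r d = true → T.X p a b d = true → False := fun n0 n1 => by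
    have u0 := bf fun t => g8 n1 t
    have u1 := bf fun t => g7 n1 t
    have u2 := bf fun t => g13 n0 t
    have u3 := bf fun t => g1159 w2061 u0 n0 t g2019
    have u4 := bf fun t => g1195 g2011 u1 u2 t g2019
    have u5 := bt fun t => s2069 t n0 n1
    have u6 := bt fun t => g137 u5 g2011 g2012 t
    have u7 := bt fun t => g2000 u5 g2060 t
    have u8 := bt fun t => g2014 g2017 u5 t
    have u9 := bf fun t => g32 u6 t
    have u10 := bt fun t => g125 u5 w2064 u8 t u9
    have u11 := bf fun t => g1060 g2012 u8 t u6
    have u12 := bf fun t => g899 u7 u10 u3 t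
    exact g919 u7 u11 u4 g2018 u12
  have s2071 : T.alt p a s b r = true → T.X p a b d = true → False := fun n0 n1 => by
    have u0 := bf fun t => s2070 t n1
    have u1 := bf fun t => g2033 t u0
    have u2 := bt fun t => g1194 g2011 n1 u0 t g2019
    have u3 := bf fun t => g22 t u2
    have u4 := bf fun t => g2040 t u3
    have u5 := bt fun t => g2047 g2050 t u4
    have u6 := bt fun t => g2043 u5 t u1
    have u7 := bf fun t => g8 n1 t
    have u8 := bf fun t => g367 t g2011 u7 u3 g2019
    have u9 := bf fun t => s2068 t n1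
    have u10 := bt fun t => g1988 n0 u8 t
    have u11 := bf fun t => g878 u10 u3 t g2018
    have u12 := bt fun t => g876 u10 u2 u11 t w2065
    have u13 := bf fun t => g27 u12 t
    have u14 := bt fun t => g852 u10 u3 u13 g2018 t
    have u15 := bf fun t => g1701 t u3 u13 w2066 u14
    have u16 := bf fun t => g223 n0 g2011 g2012 u9 u15 t
    have u17 := bt fun t => g2025 u6 t u15
    exact g2021 u17 u9 u16
  have s2072 : T.X p a r d = false → T.X p a b d = true → False := fun n0 n1 => by
    have u0 := bt fun t => g1194 g2011 n1 n0 t g2019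
    have u1 := bf fun t => g22 t u0
    have u2 := bf fun t => g24 u0 t
    have u3 := bf fun t => s2071 t n1
    have u4 := bt fun t => g2016 g2017 t u3
    have u5 := bt fun t => g137 u4 g2011 g2012 t
    have u6 := bt fun t => g2000 u4 g2060 t
    have u7 := bt fun t => g2014 g2017 u4 t
    have u8 := bf fun t => g32 u5 t
    have u9 := bt fun t => g125 u4 w2064 u7 t u8
    have u10 := bf fun t => g1060 g2012 u7 t u5
    have u11 := bf fun t => g899 u6 u9 u2 t
    exact g919 u6 u10 u1 g2018 u11
  have s2073 : T.X p a b d = true → False := fun n0 => by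
    have u0 := bf fun t => s2070 t n0
    exact s2072 u0 n0
  have w2073 := bf s2073
  have s2074 : T.X p a r d = true → T.X a b r s = true → T.alt p a s b r = true → T.X p b r d = false → False := fun n0 n1 n2 n3 => by
    have u0 := bf fun t => g13 n0 t
    have u1 := bf fun t => g398 t g2011 n0 g2019
    have u2 := bt fun t => g1149 g2011 w2073 n0 t g2019
    have u3 := bf fun t => g1147 g2011 t u0 n3 g2019
    have u4 := bt fun t => g1988 n2 u1 t
    have u5 := bf fun t => g24 u2 t
    have u6 := bf fun t => s2067 n0 t u3
    have u7 := bf fun t => g878 u4 n3 t g2018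
    have u8 := bt fun t => g223 n2 g2011 g2012 u6 t n1
    have u9 := bf fun t => g20 u8 t
    have u10 := bf fun t => g1685 u8 u5 u7 w2066 t
    exact g844 u4 u9 u5 u7 w2065 u10
  have s2075 : T.X p a r s = true → v63 = true → T.X a b r s = true → False := fun n0 n1 n2 => by
    have u0 := bf fun t => g1056 g2011 g2012 n0 t
    have u1 := bf fun t => g2020 t n0 n2
    exact g2025 n1 u1 u0
  have s2076 : T.X a b r s = true → T.alt p a s b r = true → T.X p b r d = false → False := fun n0 n1 n2 => by
    have u0 := bf fun t => g2040 t n2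
    have u1 := bt fun t => g2047 g2050 t u0
    have u2 := bf fun t => s2074 t n0 n1 n2
    have u3 := bf fun t => g2033 t u2
    have u4 := bt fun t => g2043 u1 t u3
    have u5 := bf fun t => s2075 t u4 n0
    have u6 := bt fun t => g2023 t u5 n0
    have u7 := bt fun t => g223 n1 g2011 g2012 u5 t n0
    exact g2024 u4 u6 u7
  have s2077 : T.alt p a s b r = true → T.X p b r d = false → False := fun n0 n1 => by
    have u0 := bf fun t => g2040 t n1
    have u1 := bt fun t => g2047 g2050 t u0
    have u2 := bf fun t => s2076 t n0 n1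
    have u3 := bf fun t => g217 n0 g2011 t u2
    have u4 := bf fun t => g2021 t u3 u2
    have u5 := bf fun t => g203 n0 g2012 t u2
    have u6 := bf fun t => g2025 t u4 u5
    have u7 := bt fun t => g2043 u1 u6 t
    have u8 := bt fun t => g2034 u7 t
    have u9 := bt fun t => g2031 u8 t g2060
    exact g2029 u8 u9 u3
  have s2078 : T.alt p a r s d = true → T.X p b r d = false → False := fun n0 n1 => by
    have u0 := bf fun t => s2077 t n1
    have u1 := bt fun t => g2016 g2017 t u0
    have u2 := bt fun t => g2000 u1 g2060 t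
    have u3 := bt fun t => g137 u1 g2011 g2012 t
    have u4 := bf fun t => g32 u3 t
    have u5 := bt fun t => g2014 g2017 u1 t
    have u6 := bt fun t => g125 u1 w2064 u5 t u4
    have u7 := bf fun t => g1060 g2012 u5 t u3
    have u8 := bt fun t => g919 u2 u7 n1 g2018 t
    have u9 := bt fun t => g899 u2 u6 t u8
    have u10 := bf fun t => g24 t u9
    have u11 := bf fun t => g1149 g2011 w2073 t u10 g2019
    have u12 := bf fun t => g43 t u8
    have u13 := bf fun t => g772 t u2
    have u14 := bf fun t => g47 u1 t
    have u15 := bt fun t => g1977 u14 t n0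
    have u16 := bt fun t => g2010 t n0 u13
    have u17 := bt fun t => g687 n0 u5 g2018 t
    have u18 := bt fun t => g254 u15 g2011 t u11 g2019
    have u19 := bf fun t => g1860 u4 g2019 t u17 u12
    exact g499 u16 g2012 u18 u19
  have s2079 : T.X p b r d = false → False := fun n0 => by
    have u0 := bf fun t => s2077 t n0
    have u1 := bt fun t => g2016 g2017 t u0
    have u2 := bt fun t => g137 u1 g2011 g2012 t
    have u3 := bt fun t => g2000 u1 g2060 t
    have u4 := bt fun t => g2014 g2017 u1 t
    have u5 := bf fun t => g32 u2 t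
    have u6 := bf fun t => g773 t u3
    have u7 := bt fun t => g125 u1 w2064 u4 t u5
    have u8 := bf fun t => g155 u1 w2064 u4 t
    have u9 := bf fun t => g1060 g2012 u4 t u2
    have u10 := bf fun t => g935 u3 u8 u9 t w2066
    have u11 := bt fun t => g919 u3 u9 n0 g2018 t
    have u12 := bf fun t => g45 u11 t
    have u13 := bt fun t => g899 u3 u7 t u11
    have u14 := bt fun t => g1795 u7 u13 t u10 g2018 u11
    have u15 := bf fun t => s2078 t n0
    have u16 := bt fun t => g589 u15 t g2060
    have u17 := bt fun t => g2006 t u16 u6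
    have u18 := bt fun t => g1981 u0 t u16
    have u19 := bt fun t => g624 u16 u4 g2018 t
    have u20 := bf fun t => g318 u17 g2011 t g2019
    have u21 := bf fun t => g456 u18 g2012 u20 t
    have u22 := bt fun t => g1817 u2 g2019 t u19 u12
    exact g451 u18 w2064 w2073 u21 u14 u22
  have w2079 := bt s2079
  have s2080 := fun (n0 : T.X p r b d = true) => g22 w2079 n0
  have w2080 := bf s2080
  have s2082 := fun (n0 : T.alt p a r b d = true) => g266 n0 g2011 w2079 g2019
  have w2082 := bf s2082
  have s2083 := fun (n0 : T.alt p a b r d = true) => g321 n0 g2011 w2079 g2019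
  have w2083 := bf s2083
  have s2084 := fun (n0 : T.X p a r d = true) => g1149 g2011 w2073 n0 w2080 g2019
  have w2084 := bf s2084
  have s2086 := fun (n0 : T.alt p a d b r = false) => g227 w2083 w2082 n0
  have w2086 := bt s2086
  have s2087 := fun (n0 : v65 = true) => g2033 n0 w2084
  have w2087 := bf s2087
  have s2090 := fun (n0 : T.X p d a b = true) => g384 w2086 n0 w2079 g2019
  have w2090 := bf s2090
  have s2091 := fun (n0 : T.alt p a d b s = false) => g1984 w2086 n0 g2060
  have w2091 := bt s2091
  have s2092 := fun (n0 : T.alt p a b s d = true) => g410 n0 w2091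
  have w2092 := bf s2092
  have s2094 := fun (n0 : T.X a s b d = true) => g537 w2091 g2012 w2090 n0
  have w2094 := bf s2094
  have s2096 := fun (n0 : T.X p s b d = true) => g557 w2091 w2064 w2073 n0 w2094
  have w2096 := bf s2096
  have s2097 := fun (n0 : T.alt p a b r s = true) => g1972 n0 w2083 w2092
  have w2097 := bf s2097
  have s2100 := fun (n0 : T.alt p a s b r = false) => g2016 g2017 w2097 n0
  have w2100 := bt s2100
  have s2101 := fun (n0 : T.alt p a r b s = true) => g49 n0 w2100
  have w2101 := bf s2101
  have s2105 := fun (n0 : T.alt p b s r d = false) => g1994 w2101 w2091 n0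
  have w2105 := bt s2105
  have s2106 := fun (n0 : T.X b s r d = false) => g803 w2105 w2079 g2018 n0
  have w2106 := bt s2106
  have s2108 := fun (n0 : T.X b d r s = true) => g45 w2106 n0
  have w2108 := bf s2108
  have s2109 := fun (n0 : T.X p b r s = true) => g798 w2105 n0 w2096 w2066 w2108
  have w2109 := bf s2109
  have s2111 := fun (n0 : T.bfo p r d b s = true) => g2036 n0 w2105 w2109
  have w2111 := bf s2111
  have s2115 := fun (n0 : v67 = true) => g2041 n0 w2111
  have w2115 := bf s2115
  have s2116 := fun (n0 : v68 = false) => g2047 g2050 n0 w2115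
  have w2116 := bt s2116
  have s2117 := fun (n0 : v63 = false) => g2043 w2116 n0 w2087
  have w2117 := bt s2117
  have s2118 := fun (n0 : v62 = false) => g2025 w2117 n0 w2109
  have w2118 := bt s2118
  have s2119 : T.X a b r s = true → False := fun n0 => by
    have u0 := bt fun t => g223 w2100 g2011 g2012 t w2109 n0
    exact s2075 u0 w2117 n0
  have w2119 := bf s2119
  have s2120 := fun (n0 : T.X p a r s = true) => g217 w2100 g2011 n0 w2119
  have w2120 := bf s2120
  exact g2021 w2118 w2120 w2119

theorem f1_scd {p a b r s c d : V} (hN : [p, a, b, r, s, c, d].Nodup) (h0 : T.X p r a b = true)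
    (h1 : T.X p s a b = true) (h2 : T.bfo p a b r s = true) (h3 : T.X p s c d = true) (h4 : T.X a b c d = false)
    (h5 : T.lto p s c d a b = true) (h6 : T.X p r c d = true → T.lto p r c d a b = true → False)
    (h7 : T.X p c a b = true → T.bfo p a b c r = false → T.bfo p a b s c = false → False)
    (h8 : T.X p d a b = true → T.bfo p a b d r = false → T.bfo p a b s d = false → False)
    (h9 : T.alt p r s c a = false → T.alt p r s d a = true → False)
    (h10 : T.alt p r s c a = true → T.alt p r s d a = false → False) : False := by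
  have B151 : T.bfo p a b r s = (bif T.alt p a b r s then T.X p r a s else T.alt p a s b r) :=
    T.bfo_eq rfl rfl (T.as2 p a s r b)
  obtain ⟨v152, e152⟩ : ∃ v : Bool, v = (T.X p a s c ^^ T.X a b s c) := ⟨_, rfl⟩
  obtain ⟨v153, e153⟩ : ∃ v : Bool, v = (v152 ^^ T.X p b s c) := ⟨_, rfl⟩
  have B154 : T.bfo p c d a s = (bif T.alt p a s c d then T.X p a s c else T.alt p a d s c) :=
    T.bfo_eq (T.as4 p c d a s) (T.xs2 p a c s) (T.as6 p c s a d)
  obtain ⟨v155, e155⟩ : ∃ v : Bool, v = (T.X p a c d && T.bfo p c d a s) := ⟨_, rfl⟩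
  have B156 : T.bfo p c d b s = (bif T.alt p b s c d then T.X p b s c else T.alt p b d s c) :=
    T.bfo_eq (T.as4 p c d b s) (T.xs2 p b c s) (T.as6 p c s b d)
  obtain ⟨v157, e157⟩ : ∃ v : Bool, v = (T.X p b c d && T.bfo p c d b s) := ⟨_, rfl⟩
  obtain ⟨v158, e158⟩ : ∃ v : Bool, v = (v153 ^^ v155) := ⟨_, rfl⟩
  have L159 : T.lto p s c d a b = (v158 ^^ v157) :=
    T.lto_eq (T.xs6 c s p a) (T.xs6 c s a b) (T.xs7 c s b p) rfl rfl e152 e153 e155 e158 e157
  obtain ⟨v160, e160⟩ : ∃ v : Bool, v = (T.X p a r c ^^ T.X a b r c) := ⟨_, rfl⟩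
  obtain ⟨v161, e161⟩ : ∃ v : Bool, v = (v160 ^^ T.X p b r c) := ⟨_, rfl⟩
  have B162 : T.bfo p c d a r = (bif T.alt p a r c d then T.X p a r c else T.alt p a d r c) :=
    T.bfo_eq (T.as4 p c d a r) (T.xs2 p a c r) (T.as6 p c r a d)
  obtain ⟨v163, e163⟩ : ∃ v : Bool, v = (T.X p a c d && T.bfo p c d a r) := ⟨_, rfl⟩
  have B164 : T.bfo p c d b r = (bif T.alt p b r c d then T.X p b r c else T.alt p b d r c) :=
    T.bfo_eq (T.as4 p c d b r) (T.xs2 p b c r) (T.as6 p c r b d)
  obtain ⟨v165, e165⟩ : ∃ v : Bool, v = (T.X p b c d && T.bfo p c d b r) := ⟨_, rfl⟩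
  obtain ⟨v166, e166⟩ : ∃ v : Bool, v = (v161 ^^ v163) := ⟨_, rfl⟩
  have L167 : T.lto p r c d a b = (v166 ^^ v165) :=
    T.lto_eq (T.xs6 c r p a) (T.xs6 c r a b) (T.xs7 c r b p) rfl rfl e160 e161 e163 e166 e165
  have B168 : T.bfo p a b c r = (bif T.alt p a b r c then T.X p c a r else T.alt p a r b c) :=
    T.bfo_eq (T.as2 p a b c r) rfl (T.as2 p a r c b)
  have B169 : T.bfo p a b s c = (bif T.alt p a b s c then T.X p s a c else T.alt p a c b s) :=
    T.bfo_eq rfl rfl (T.as2 p a c s b)
  have B170 : T.bfo p a b d r = (bif T.alt p a b r d then T.X p d a r else T.alt p a r b d) :=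
    T.bfo_eq (T.as2 p a b d r) rfl (T.as2 p a r d b)
  have B171 : T.bfo p a b s d = (bif T.alt p a b s d then T.X p s a d else T.alt p a d b s) :=
    T.bfo_eq rfl rfl (T.as2 p a d s b)
  have k0 : T.Ok5 p a b r s := T.n5 hN (.cons_cons _ (.cons_cons _ (.cons_cons _ (.cons_cons _ (.cons_cons _ (List.nil_sublist _))))))
  have k1 : T.Ok5 p a b r c := T.n5 hN (.cons_cons _ (.cons_cons _ (.cons_cons _ (.cons_cons _ (.cons _ (.cons_cons _ (List.nil_sublist _)))))))
  have k2 : T.Ok5 p a b r d := T.n5 hN (.cons_cons _ (.cons_cons _ (.cons_cons _ (.cons_cons _ (.cons _ (.cons _ (.cons_cons _ (List.nil_sublist _))))))))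
  have k3 : T.Ok5 p a b s c := T.n5 hN (.cons_cons _ (.cons_cons _ (.cons_cons _ (.cons _ (.cons_cons _ (.cons_cons _ (List.nil_sublist _)))))))
  have k4 : T.Ok5 p a b s d := T.n5 hN (.cons_cons _ (.cons_cons _ (.cons_cons _ (.cons _ (.cons_cons _ (.cons _ (.cons_cons _ (List.nil_sublist _))))))))
  have k5 : T.Ok5 p a b c d := T.n5 hN (.cons_cons _ (.cons_cons _ (.cons_cons _ (.cons _ (.cons _ (.cons_cons _ (.cons_cons _ (List.nil_sublist _))))))))
  have k6 : T.Ok5 p a r s c := T.n5 hN (.cons_cons _ (.cons_cons _ (.cons _ (.cons_cons _ (.cons_cons _ (.cons_cons _ (List.nil_sublist _)))))))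
  have k7 : T.Ok5 p a r s d := T.n5 hN (.cons_cons _ (.cons_cons _ (.cons _ (.cons_cons _ (.cons_cons _ (.cons _ (.cons_cons _ (List.nil_sublist _))))))))
  have k8 : T.Ok5 p a r c d := T.n5 hN (.cons_cons _ (.cons_cons _ (.cons _ (.cons_cons _ (.cons _ (.cons_cons _ (.cons_cons _ (List.nil_sublist _))))))))
  have k9 : T.Ok5 p a s c d := T.n5 hN (.cons_cons _ (.cons_cons _ (.cons _ (.cons _ (.cons_cons _ (.cons_cons _ (.cons_cons _ (List.nil_sublist _))))))))
  have k10 : T.Ok5 p b r s c := T.n5 hN (.cons_cons _ (.cons _ (.cons_cons _ (.cons_cons _ (.cons_cons _ (.cons_cons _ (List.nil_sublist _)))))))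
  have k11 : T.Ok5 p b r s d := T.n5 hN (.cons_cons _ (.cons _ (.cons_cons _ (.cons_cons _ (.cons_cons _ (.cons _ (.cons_cons _ (List.nil_sublist _))))))))
  have k12 : T.Ok5 p b r c d := T.n5 hN (.cons_cons _ (.cons _ (.cons_cons _ (.cons_cons _ (.cons _ (.cons_cons _ (.cons_cons _ (List.nil_sublist _))))))))
  have k13 : T.Ok5 p b s c d := T.n5 hN (.cons_cons _ (.cons _ (.cons_cons _ (.cons _ (.cons_cons _ (.cons_cons _ (.cons_cons _ (List.nil_sublist _))))))))
  have k14 : T.Ok5 p r s c d := T.n5 hN (.cons_cons _ (.cons _ (.cons _ (.cons_cons _ (.cons_cons _ (.cons_cons _ (.cons_cons _ (List.nil_sublist _))))))))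
  have k15 : T.Ok5 a b r s c := T.n5 hN (.cons _ (.cons_cons _ (.cons_cons _ (.cons_cons _ (.cons_cons _ (.cons_cons _ (List.nil_sublist _)))))))
  have k16 : T.Ok5 a b r s d := T.n5 hN (.cons _ (.cons_cons _ (.cons_cons _ (.cons_cons _ (.cons_cons _ (.cons _ (.cons_cons _ (List.nil_sublist _))))))))
  have k17 : T.Ok5 a b r c d := T.n5 hN (.cons _ (.cons_cons _ (.cons_cons _ (.cons_cons _ (.cons _ (.cons_cons _ (.cons_cons _ (List.nil_sublist _))))))))
  have k18 : T.Ok5 a b s c d := T.n5 hN (.cons _ (.cons_cons _ (.cons_cons _ (.cons _ (.cons_cons _ (.cons_cons _ (.cons_cons _ (List.nil_sublist _))))))))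
  have k19 : T.Ok5 a r s c d := T.n5 hN (.cons _ (.cons_cons _ (.cons _ (.cons_cons _ (.cons_cons _ (.cons_cons _ (.cons_cons _ (List.nil_sublist _))))))))
  have k20 : T.Ok5 b r s c d := T.n5 hN (.cons _ (.cons _ (.cons_cons _ (.cons_cons _ (.cons_cons _ (.cons_cons _ (.cons_cons _ (List.nil_sublist _))))))))
  have sp0 : T.Sp5 p a b r s c := T.sp5 hN (.cons_cons _ (.cons_cons _ (.cons_cons _ (.cons_cons _ (.cons_cons _ (.cons_cons _ (List.nil_sublist _)))))))
  have sp1 : T.Sp5 p a b r s d := T.sp5 hN (.cons_cons _ (.cons_cons _ (.cons_cons _ (.cons_cons _ (.cons_cons _ (.cons _ (.cons_cons _ (List.nil_sublist _))))))))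
  have sp2 : T.Sp5 p a b r c d := T.sp5 hN (.cons_cons _ (.cons_cons _ (.cons_cons _ (.cons_cons _ (.cons _ (.cons_cons _ (.cons_cons _ (List.nil_sublist _))))))))
  have sp3 : T.Sp5 p a b s c d := T.sp5 hN (.cons_cons _ (.cons_cons _ (.cons_cons _ (.cons _ (.cons_cons _ (.cons_cons _ (.cons_cons _ (List.nil_sublist _))))))))
  have sp4 : T.Sp5 p a r s c d := T.sp5 hN (.cons_cons _ (.cons_cons _ (.cons _ (.cons_cons _ (.cons_cons _ (.cons_cons _ (.cons_cons _ (List.nil_sublist _))))))))
  have sp5 : T.Sp5 p b r s c d := T.sp5 hN (.cons_cons _ (.cons _ (.cons_cons _ (.cons_cons _ (.cons_cons _ (.cons_cons _ (.cons_cons _ (List.nil_sublist _))))))))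
  have g2 := T.q02 p a b r
  have g3 := T.q12 p a b r
  have g5 := T.q02 p a b s
  have g6 := T.q12 p a b s
  have g7 := T.q01 p a b c
  have g8 := T.q02 p a b c
  have g9 := T.q12 p a b c
  have g10 := T.q01 p a b d
  have g11 := T.q02 p a b d
  have g12 := T.q12 p a b d
  have g13 := T.q01 p a r s
  have g15 := T.q12 p a r s
  have g16 := T.q01 p a r c
  have g17 := T.q02 p a r c
  have g18 := T.q12 p a r c
  have g19 := T.q01 p a r d
  have g20 := T.q02 p a r d
  have g21 := T.q12 p a r d
  have g22 := T.q01 p a s c
  have g24 := T.q12 p a s c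
  have g25 := T.q01 p a s d
  have g27 := T.q12 p a s d
  have g28 := T.q01 p a c d
  have g29 := T.q02 p a c d
  have g30 := T.q12 p a c d
  have g32 := T.q02 p b r s
  have g34 := T.q01 p b r c
  have g35 := T.q02 p b r c
  have g36 := T.q12 p b r c
  have g37 := T.q01 p b r d
  have g38 := T.q02 p b r d
  have g40 := T.q01 p b s c
  have g42 := T.q12 p b s c
  have g45 := T.q12 p b s d
  have g46 := T.q01 p b c d
  have g47 := T.q02 p b c d
  have g48 := T.q12 p b c d
  have g49 := T.q01 p r s c
  have g51 := T.q12 p r s c
  have g52 := T.q01 p r s d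
  have g54 := T.q12 p r s d
  have g55 := T.q01 p r c d
  have g56 := T.q02 p r c d
  have g57 := T.q12 p r c d
  have g58 := T.q01 p s c d
  have g59 := T.q02 p s c d
  have g62 := T.q02 a b r s
  have g64 := T.q01 a b r c
  have g65 := T.q02 a b r c
  have g67 := T.q01 a b r d
  have g68 := T.q02 a b r d
  have g70 := T.q01 a b s c
  have g71 := T.q02 a b s c
  have g72 := T.q12 a b s c
  have g73 := T.q01 a b s d
  have g74 := T.q02 a b s d
  have g79 := T.q01 a r s c
  have g80 := T.q02 a r s c
  have g81 := T.q12 a r s c
  have g82 := T.q01 a r s d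
  have g83 := T.q02 a r s d
  have g85 := T.q01 a r c d
  have g86 := T.q02 a r c d
  have g88 := T.q01 a s c d
  have g89 := T.q02 a s c d
  have g90 := T.q12 a s c d
  have g91 := T.q01 b r s c
  have g97 := T.q01 b r c d
  have g98 := T.q02 b r c d
  have g99 := T.q12 b r c d
  have g100 := T.q01 b s c d
  have g101 := T.q02 b s c d
  have g103 := T.q01 r s c d
  have g104 := T.q02 r s c d
  have g107 := T.ae01 k0
  have g108 := T.ae02 k0
  have g109 := T.ae12 k0
  have g185 := fun ha : T.alt p a b r s = true => zA0_18576_128 (T.okA0 k0 ha)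
  have g197 := fun ha : T.alt p a b r s = true => zA0_4132_36 (T.okA0 k0 ha)
  have g215 := fun ha : T.alt p a b r s = true => zA0_656_640 (T.okA0 k0 ha)
  have g238 := fun ha : T.alt p a s b r = true => zA2_1176_1024 (T.okA2 k0 ha)
  have g248 := fun ha : T.alt p a s b r = true => zA2_8458_256 (T.okA2 k0 ha)
  have g271 := fun ha : T.alt p a s b r = true => zA2_2307_256 (T.okA2 k0 ha)
  have g287 := T.ae1 k1
  have g288 := T.ae01 k1
  have g289 := T.ae02 k1
  have g290 := T.ae12 k1
  have g301 := fun ha : T.alt p a r b c = true => zA1_2307_2048 (T.okA1 k1 ha)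
  have g302 := fun ha : T.alt p a r b c = true => zA1_9482_0 (T.okA1 k1 ha)
  have g311 := fun ha : T.alt p a r b c = true => zA1_16529_128 (T.okA1 k1 ha)
  have g314 := fun ha : T.alt p a r b c = true => zA1_4196_4 (T.okA1 k1 ha)
  have g326 := fun ha : T.alt p a r b c = true => zA1_4612_516 (T.okA1 k1 ha)
  have g335 := fun ha : T.alt p a r b c = true => zA1_292_260 (T.okA1 k1 ha)
  have g336 := fun ha : T.alt p a r b c = true => zA1_584_520 (T.okA1 k1 ha)
  have g340 := fun ha : T.alt p a r b c = true => zA1_4192_96 (T.okA1 k1 ha)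
  have g346 := fun ha : T.alt p a r b c = true => zA1_4708_4132 (T.okA1 k1 ha)
  have g347 := fun ha : T.alt p a r b c = true => zA1_4708_4164 (T.okA1 k1 ha)
  have g357 := fun ha : T.alt p a b r c = true => zA0_16642_16640 (T.okA0 k1 ha)
  have g366 := fun ha : T.alt p a b r c = true => zA0_18576_128 (T.okA0 k1 ha)
  have g368 := fun ha : T.alt p a b r c = true => zA0_9474_256 (T.okA0 k1 ha)
  have g369 := fun ha : T.alt p a b r c = true => zA0_9480_1024 (T.okA0 k1 ha)
  have g370 := fun ha : T.alt p a b r c = true => zA0_16529_16 (T.okA0 k1 ha)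
  have g371 := fun ha : T.alt p a b r c = true => zA0_9226_8 (T.okA0 k1 ha)
  have g377 := fun ha : T.alt p a b r c = true => zA0_18561_2048 (T.okA0 k1 ha)
  have g378 := fun ha : T.alt p a b r c = true => zA0_4132_36 (T.okA0 k1 ha)
  have g380 := fun ha : T.alt p a b r c = true => zA0_4164_68 (T.okA0 k1 ha)
  have g381 := fun ha : T.alt p a b r c = true => zA0_4612_516 (T.okA0 k1 ha)
  have g386 := fun ha : T.alt p a b r c = true => zA0_4708_4100 (T.okA0 k1 ha)
  have g392 := fun ha : T.alt p a b r c = true => zA0_579_576 (T.okA0 k1 ha)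
  have g396 := fun ha : T.alt p a b r c = true => zA0_656_640 (T.okA0 k1 ha)
  have g397 := fun ha : T.alt p a b r c = true => zA0_420_36 (T.okA0 k1 ha)
  have g416 := fun ha : T.alt p a c b r = true => zA2_8228_8196 (T.okA2 k1 ha)
  have g427 := fun ha : T.alt p a c b r = true => zA2_4644_4 (T.okA2 k1 ha)
  have g440 := fun ha : T.alt p a c b r = true => zA2_18448_2064 (T.okA2 k1 ha)
  have g446 := fun ha : T.alt p a c b r = true => zA2_180_4 (T.okA2 k1 ha)
  have g448 := fun ha : T.alt p a c b r = true => zA2_18577_18432 (T.okA2 k1 ha)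
  have g452 := fun ha : T.alt p a c b r = true => zA2_2307_256 (T.okA2 k1 ha)
  have g458 := fun ha : T.alt p a c b r = true => zA2_4164_68 (T.okA2 k1 ha)
  have g459 := fun ha : T.alt p a c b r = true => zA2_9472_1280 (T.okA2 k1 ha)
  have g464 := fun ha : T.alt p a c b r = true => zA2_4708_4132 (T.okA2 k1 ha)
  have g466 := fun ha : T.alt p a c b r = true => zA2_4708_4612 (T.okA2 k1 ha)
  have g468 := T.ae1 k2
  have g469 := T.ae01 k2
  have g470 := T.ae02 k2
  have g471 := T.ae12 k2
  have g482 := fun ha : T.alt p a r b d = true => zA1_2307_2048 (T.okA1 k2 ha)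
  have g483 := fun ha : T.alt p a r b d = true => zA1_9482_0 (T.okA1 k2 ha)
  have g495 := fun ha : T.alt p a r b d = true => zA1_4196_4 (T.okA1 k2 ha)
  have g516 := fun ha : T.alt p a r b d = true => zA1_292_260 (T.okA1 k2 ha)
  have g538 := fun ha : T.alt p a b r d = true => zA0_16642_16640 (T.okA0 k2 ha)
  have g549 := fun ha : T.alt p a b r d = true => zA0_9474_256 (T.okA0 k2 ha)
  have g551 := fun ha : T.alt p a b r d = true => zA0_16529_16 (T.okA0 k2 ha)
  have g558 := fun ha : T.alt p a b r d = true => zA0_18561_2048 (T.okA0 k2 ha)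
  have g559 := fun ha : T.alt p a b r d = true => zA0_4132_36 (T.okA0 k2 ha)
  have g561 := fun ha : T.alt p a b r d = true => zA0_4164_68 (T.okA0 k2 ha)
  have g562 := fun ha : T.alt p a b r d = true => zA0_4612_516 (T.okA0 k2 ha)
  have g567 := fun ha : T.alt p a b r d = true => zA0_4708_4100 (T.okA0 k2 ha)
  have g577 := fun ha : T.alt p a b r d = true => zA0_656_640 (T.okA0 k2 ha)
  have g578 := fun ha : T.alt p a b r d = true => zA0_420_36 (T.okA0 k2 ha)
  have g580 := fun ha : T.alt p a b r d = true => zA0_8456_264 (T.okA0 k2 ha)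
  have g597 := fun ha : T.alt p a d b r = true => zA2_8228_8196 (T.okA2 k2 ha)
  have g608 := fun ha : T.alt p a d b r = true => zA2_4644_4 (T.okA2 k2 ha)
  have g614 := fun ha : T.alt p a d b r = true => zA2_9480_8 (T.okA2 k2 ha)
  have g626 := fun ha : T.alt p a d b r = true => zA2_18577_16400 (T.okA2 k2 ha)
  have g627 := fun ha : T.alt p a d b r = true => zA2_180_4 (T.okA2 k2 ha)
  have g640 := fun ha : T.alt p a d b r = true => zA2_9472_1280 (T.okA2 k2 ha)
  have g649 := T.ae1 k3
  have g650 := T.ae01 k3
  have g651 := T.ae02 k3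
  have g652 := T.ae12 k3
  have g663 := fun ha : T.alt p a s b c = true => zA1_2307_2048 (T.okA1 k3 ha)
  have g664 := fun ha : T.alt p a s b c = true => zA1_9482_0 (T.okA1 k3 ha)
  have g673 := fun ha : T.alt p a s b c = true => zA1_16529_128 (T.okA1 k3 ha)
  have g676 := fun ha : T.alt p a s b c = true => zA1_4196_4 (T.okA1 k3 ha)
  have g686 := fun ha : T.alt p a s b c = true => zA1_9472_1280 (T.okA1 k3 ha)
  have g688 := fun ha : T.alt p a s b c = true => zA1_4612_516 (T.okA1 k3 ha)
  have g697 := fun ha : T.alt p a s b c = true => zA1_292_260 (T.okA1 k3 ha)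
  have g702 := fun ha : T.alt p a s b c = true => zA1_4192_96 (T.okA1 k3 ha)
  have g708 := fun ha : T.alt p a s b c = true => zA1_4708_4132 (T.okA1 k3 ha)
  have g709 := fun ha : T.alt p a s b c = true => zA1_4708_4164 (T.okA1 k3 ha)
  have g728 := fun ha : T.alt p a b s c = true => zA0_18576_128 (T.okA0 k3 ha)
  have g730 := fun ha : T.alt p a b s c = true => zA0_9474_256 (T.okA0 k3 ha)
  have g731 := fun ha : T.alt p a b s c = true => zA0_9480_1024 (T.okA0 k3 ha)
  have g739 := fun ha : T.alt p a b s c = true => zA0_18561_2048 (T.okA0 k3 ha)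
  have g740 := fun ha : T.alt p a b s c = true => zA0_4132_36 (T.okA0 k3 ha)
  have g742 := fun ha : T.alt p a b s c = true => zA0_4164_68 (T.okA0 k3 ha)
  have g743 := fun ha : T.alt p a b s c = true => zA0_4612_516 (T.okA0 k3 ha)
  have g748 := fun ha : T.alt p a b s c = true => zA0_4708_4100 (T.okA0 k3 ha)
  have g754 := fun ha : T.alt p a b s c = true => zA0_579_576 (T.okA0 k3 ha)
  have g758 := fun ha : T.alt p a b s c = true => zA0_656_640 (T.okA0 k3 ha)
  have g759 := fun ha : T.alt p a b s c = true => zA0_420_36 (T.okA0 k3 ha)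
  have g778 := fun ha : T.alt p a c b s = true => zA2_8228_8196 (T.okA2 k3 ha)
  have g789 := fun ha : T.alt p a c b s = true => zA2_4644_4 (T.okA2 k3 ha)
  have g798 := fun ha : T.alt p a c b s = true => zA2_9226_1024 (T.okA2 k3 ha)
  have g806 := fun ha : T.alt p a c b s = true => zA2_4640_544 (T.okA2 k3 ha)
  have g811 := fun ha : T.alt p a c b s = true => zA2_2625_64 (T.okA2 k3 ha)
  have g814 := fun ha : T.alt p a c b s = true => zA2_2307_256 (T.okA2 k3 ha)
  have g820 := fun ha : T.alt p a c b s = true => zA2_4164_68 (T.okA2 k3 ha)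
  have g826 := fun ha : T.alt p a c b s = true => zA2_4708_4132 (T.okA2 k3 ha)
  have g828 := fun ha : T.alt p a c b s = true => zA2_4708_4612 (T.okA2 k3 ha)
  have g830 := T.ae1 k4
  have g831 := T.ae01 k4
  have g832 := T.ae02 k4
  have g833 := T.ae12 k4
  have g844 := fun ha : T.alt p a s b d = true => zA1_2307_2048 (T.okA1 k4 ha)
  have g854 := fun ha : T.alt p a s b d = true => zA1_16529_128 (T.okA1 k4 ha)
  have g857 := fun ha : T.alt p a s b d = true => zA1_4196_4 (T.okA1 k4 ha)
  have g869 := fun ha : T.alt p a s b d = true => zA1_4612_516 (T.okA1 k4 ha)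
  have g878 := fun ha : T.alt p a s b d = true => zA1_292_260 (T.okA1 k4 ha)
  have g909 := fun ha : T.alt p a b s d = true => zA0_18576_128 (T.okA0 k4 ha)
  have g911 := fun ha : T.alt p a b s d = true => zA0_9474_256 (T.okA0 k4 ha)
  have g921 := fun ha : T.alt p a b s d = true => zA0_4132_36 (T.okA0 k4 ha)
  have g923 := fun ha : T.alt p a b s d = true => zA0_4164_68 (T.okA0 k4 ha)
  have g924 := fun ha : T.alt p a b s d = true => zA0_4612_516 (T.okA0 k4 ha)
  have g939 := fun ha : T.alt p a b s d = true => zA0_656_640 (T.okA0 k4 ha)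
  have g940 := fun ha : T.alt p a b s d = true => zA0_420_36 (T.okA0 k4 ha)
  have g959 := fun ha : T.alt p a d b s = true => zA2_8228_8196 (T.okA2 k4 ha)
  have g963 := fun ha : T.alt p a d b s = true => zA2_18577_0 (T.okA2 k4 ha)
  have g970 := fun ha : T.alt p a d b s = true => zA2_4644_4 (T.okA2 k4 ha)
  have g979 := fun ha : T.alt p a d b s = true => zA2_9226_1024 (T.okA2 k4 ha)
  have g987 := fun ha : T.alt p a d b s = true => zA2_4640_544 (T.okA2 k4 ha)
  have g989 := fun ha : T.alt p a d b s = true => zA2_180_4 (T.okA2 k4 ha)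
  have g992 := fun ha : T.alt p a d b s = true => zA2_2625_64 (T.okA2 k4 ha)
  have g1001 := fun ha : T.alt p a d b s = true => zA2_4164_68 (T.okA2 k4 ha)
  have g1011 := T.ae1 k5
  have g1012 := T.ae01 k5
  have g1013 := T.ae02 k5
  have g1014 := T.ae12 k5
  have g1022 := fun ha : T.alt p a c b d = true => zA1_16420_16416 (T.okA1 k5 ha)
  have g1031 := fun ha : T.alt p a c b d = true => zA1_18576_16 (T.okA1 k5 ha)
  have g1033 := fun ha : T.alt p a c b d = true => zA1_4644_32 (T.okA1 k5 ha)
  have g1034 := fun ha : T.alt p a c b d = true => zA1_4704_512 (T.okA1 k5 ha)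
  have g1035 := fun ha : T.alt p a c b d = true => zA1_16529_128 (T.okA1 k5 ha)
  have g1036 := fun ha : T.alt p a c b d = true => zA1_4676_64 (T.okA1 k5 ha)
  have g1038 := fun ha : T.alt p a c b d = true => zA1_4196_4 (T.okA1 k5 ha)
  have g1041 := fun ha : T.alt p a c b d = true => zA1_18577_16384 (T.okA1 k5 ha)
  have g1050 := fun ha : T.alt p a c b d = true => zA1_4612_516 (T.okA1 k5 ha)
  have g1064 := fun ha : T.alt p a c b d = true => zA1_4192_96 (T.okA1 k5 ha)
  have g1084 := fun ha : T.alt p a b c d = true => zA0_2085_2048 (T.okA0 k5 ha)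
  have g1085 := fun ha : T.alt p a b c d = true => zA0_4708_0 (T.okA0 k5 ha)
  have g1093 := fun ha : T.alt p a b c d = true => zA0_9480_1024 (T.okA0 k5 ha)
  have g1094 := fun ha : T.alt p a b c d = true => zA0_16529_16 (T.okA0 k5 ha)
  have g1100 := fun ha : T.alt p a b c d = true => zA0_18577_16384 (T.okA0 k5 ha)
  have g1102 := fun ha : T.alt p a b c d = true => zA0_4132_36 (T.okA0 k5 ha)
  have g1103 := fun ha : T.alt p a b c d = true => zA0_4672_576 (T.okA0 k5 ha)
  have g1104 := fun ha : T.alt p a b c d = true => zA0_4164_68 (T.okA0 k5 ha)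
  have g1105 := fun ha : T.alt p a b c d = true => zA0_4612_516 (T.okA0 k5 ha)
  have g1106 := fun ha : T.alt p a b c d = true => zA0_4192_96 (T.okA0 k5 ha)
  have g1107 := fun ha : T.alt p a b c d = true => zA0_4640_544 (T.okA0 k5 ha)
  have g1111 := fun ha : T.alt p a b c d = true => zA0_294_256 (T.okA0 k5 ha)
  have g1119 := fun ha : T.alt p a b c d = true => zA0_1096_1088 (T.okA0 k5 ha)
  have g1120 := fun ha : T.alt p a b c d = true => zA0_656_640 (T.okA0 k5 ha)
  have g1127 := fun ha : T.alt p a b c d = true => zA0_18577_16528 (T.okA0 k5 ha)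
  have g1143 := fun ha : T.alt p a d b c = true => zA2_1176_1024 (T.okA2 k5 ha)
  have g1144 := fun ha : T.alt p a d b c = true => zA2_18577_0 (T.okA2 k5 ha)
  have g1151 := fun ha : T.alt p a d b c = true => zA2_4644_4 (T.okA2 k5 ha)
  have g1152 := fun ha : T.alt p a d b c = true => zA2_4676_512 (T.okA2 k5 ha)
  have g1153 := fun ha : T.alt p a d b c = true => zA2_8458_256 (T.okA2 k5 ha)
  have g1154 := fun ha : T.alt p a d b c = true => zA2_4704_64 (T.okA2 k5 ha)
  have g1156 := fun ha : T.alt p a d b c = true => zA2_4196_32 (T.okA2 k5 ha)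
  have g1168 := fun ha : T.alt p a d b c = true => zA2_4640_544 (T.okA2 k5 ha)
  have g1170 := fun ha : T.alt p a d b c = true => zA2_180_4 (T.okA2 k5 ha)
  have g1173 := fun ha : T.alt p a d b c = true => zA2_2625_64 (T.okA2 k5 ha)
  have g1179 := fun ha : T.alt p a d b c = true => zA2_2306_2050 (T.okA2 k5 ha)
  have g1182 := fun ha : T.alt p a d b c = true => zA2_4164_68 (T.okA2 k5 ha)
  have g1194 := T.ae02 k6
  have g1195 := T.ae12 k6
  have g1214 := fun ha : T.alt p a s r c = true => zA1_4644_32 (T.okA1 k6 ha)
  have g1216 := fun ha : T.alt p a s r c = true => zA1_16529_128 (T.okA1 k6 ha)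
  have g1219 := fun ha : T.alt p a s r c = true => zA1_4196_4 (T.okA1 k6 ha)
  have g1239 := fun ha : T.alt p a s r c = true => zA1_1176_128 (T.okA1 k6 ha)
  have g1265 := fun ha : T.alt p a r s c = true => zA0_2085_2048 (T.okA0 k6 ha)
  have g1266 := fun ha : T.alt p a r s c = true => zA0_4708_0 (T.okA0 k6 ha)
  have g1271 := fun ha : T.alt p a r s c = true => zA0_18576_128 (T.okA0 k6 ha)
  have g1278 := fun ha : T.alt p a r s c = true => zA0_8458_2 (T.okA0 k6 ha)
  have g1299 := fun ha : T.alt p a r s c = true => zA0_290_34 (T.okA0 k6 ha)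
  have g1324 := fun ha : T.alt p a c r s = true => zA2_1176_1024 (T.okA2 k6 ha)
  have g1330 := fun ha : T.alt p a c r s = true => zA2_9474_2 (T.okA2 k6 ha)
  have g1358 := fun ha : T.alt p a c r s = true => zA2_164_160 (T.okA2 k6 ha)
  have g1375 := T.ae02 k7
  have g1376 := T.ae12 k7
  have g1387 := fun ha : T.alt p a s r d = true => zA1_2307_2048 (T.okA1 k7 ha)
  have g1389 := fun ha : T.alt p a s r d = true => zA1_40_40 (T.okA1 k7 ha)
  have g1395 := fun ha : T.alt p a s r d = true => zA1_4644_32 (T.okA1 k7 ha)
  have g1397 := fun ha : T.alt p a s r d = true => zA1_16529_128 (T.okA1 k7 ha)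
  have g1402 := fun ha : T.alt p a s r d = true => zA1_48_48 (T.okA1 k7 ha)
  have g1416 := fun ha : T.alt p a s r d = true => zA1_9482_9216 (T.okA1 k7 ha)
  have g1420 := fun ha : T.alt p a s r d = true => zA1_1176_128 (T.okA1 k7 ha)
  have g1437 := fun ha : T.alt p a r s d = true => zA0_192_192 (T.okA0 k7 ha)
  have g1446 := fun ha : T.alt p a r s d = true => zA0_2085_2048 (T.okA0 k7 ha)
  have g1447 := fun ha : T.alt p a r s d = true => zA0_4708_0 (T.okA0 k7 ha)
  have g1452 := fun ha : T.alt p a r s d = true => zA0_18576_128 (T.okA0 k7 ha)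
  have g1459 := fun ha : T.alt p a r s d = true => zA0_8458_2 (T.okA0 k7 ha)
  have g1480 := fun ha : T.alt p a r s d = true => zA0_290_34 (T.okA0 k7 ha)
  have g1505 := fun ha : T.alt p a d r s = true => zA2_1176_1024 (T.okA2 k7 ha)
  have g1539 := fun ha : T.alt p a d r s = true => zA2_164_160 (T.okA2 k7 ha)
  have g1554 := T.ae1 k8
  have g1555 := T.ae01 k8
  have g1556 := T.ae02 k8
  have g1557 := T.ae12 k8
  have g1565 := fun ha : T.alt p a c r d = true => zA1_16420_16416 (T.okA1 k8 ha)
  have g1568 := fun ha : T.alt p a c r d = true => zA1_2307_2048 (T.okA1 k8 ha)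
  have g1576 := fun ha : T.alt p a c r d = true => zA1_4644_32 (T.okA1 k8 ha)
  have g1578 := fun ha : T.alt p a c r d = true => zA1_16529_128 (T.okA1 k8 ha)
  have g1579 := fun ha : T.alt p a c r d = true => zA1_4676_64 (T.okA1 k8 ha)
  have g1582 := fun ha : T.alt p a c r d = true => zA1_18561_1 (T.okA1 k8 ha)
  have g1584 := fun ha : T.alt p a c r d = true => zA1_18577_16384 (T.okA1 k8 ha)
  have g1585 := fun ha : T.alt p a c r d = true => zA1_18449_2048 (T.okA1 k8 ha)
  have g1598 := fun ha : T.alt p a c r d = true => zA1_1608_64 (T.okA1 k8 ha)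
  have g1601 := fun ha : T.alt p a c r d = true => zA1_1176_128 (T.okA1 k8 ha)
  have g1607 := fun ha : T.alt p a c r d = true => zA1_4192_96 (T.okA1 k8 ha)
  have g1614 := fun ha : T.alt p a c r d = true => zA1_4708_4164 (T.okA1 k8 ha)
  have g1627 := fun ha : T.alt p a r c d = true => zA0_2085_2048 (T.okA0 k8 ha)
  have g1628 := fun ha : T.alt p a r c d = true => zA0_4708_0 (T.okA0 k8 ha)
  have g1655 := fun ha : T.alt p a r c d = true => zA0_4708_4160 (T.okA0 k8 ha)
  have g1657 := fun ha : T.alt p a r c d = true => zA0_1608_8 (T.okA0 k8 ha)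
  have g1658 := fun ha : T.alt p a r c d = true => zA0_4708_4128 (T.okA0 k8 ha)
  have g1665 := fun ha : T.alt p a r c d = true => zA0_2081_33 (T.okA0 k8 ha)
  have g1667 := fun ha : T.alt p a r c d = true => zA0_18448_2064 (T.okA0 k8 ha)
  have g1683 := fun ha : T.alt p a d r c = true => zA2_8228_8196 (T.okA2 k8 ha)
  have g1686 := fun ha : T.alt p a d r c = true => zA2_1176_1024 (T.okA2 k8 ha)
  have g1687 := fun ha : T.alt p a d r c = true => zA2_18577_0 (T.okA2 k8 ha)
  have g1692 := fun ha : T.alt p a d r c = true => zA2_9474_2 (T.okA2 k8 ha)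
  have g1694 := fun ha : T.alt p a d r c = true => zA2_4644_4 (T.okA2 k8 ha)
  have g1697 := fun ha : T.alt p a d r c = true => zA2_4704_64 (T.okA2 k8 ha)
  have g1704 := fun ha : T.alt p a d r c = true => zA2_16528_144 (T.okA2 k8 ha)
  have g1705 := fun ha : T.alt p a d r c = true => zA2_18433_2049 (T.okA2 k8 ha)
  have g1706 := fun ha : T.alt p a d r c = true => zA2_16401_17 (T.okA2 k8 ha)
  have g1713 := fun ha : T.alt p a d r c = true => zA2_180_4 (T.okA2 k8 ha)
  have g1716 := fun ha : T.alt p a d r c = true => zA2_2625_64 (T.okA2 k8 ha)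
  have g1720 := fun ha : T.alt p a d r c = true => zA2_164_160 (T.okA2 k8 ha)
  have g1735 := T.ae1 k9
  have g1736 := T.ae01 k9
  have g1737 := T.ae02 k9
  have g1738 := T.ae12 k9
  have g1750 := fun ha : T.alt p a c s d = true => zA1_9482_0 (T.okA1 k9 ha)
  have g1755 := fun ha : T.alt p a c s d = true => zA1_18576_16 (T.okA1 k9 ha)
  have g1758 := fun ha : T.alt p a c s d = true => zA1_4704_512 (T.okA1 k9 ha)
  have g1775 := fun ha : T.alt p a c s d = true => zA1_9482_8194 (T.okA1 k9 ha)
  have g1784 := fun ha : T.alt p a c s d = true => zA1_584_520 (T.okA1 k9 ha)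
  have g1787 := fun ha : T.alt p a c s d = true => zA1_2305_257 (T.okA1 k9 ha)
  have g1797 := fun ha : T.alt p a c s d = true => zA1_4708_4672 (T.okA1 k9 ha)
  have g1818 := fun ha : T.alt p a s c d = true => zA0_16529_16 (T.okA0 k9 ha)
  have g1821 := fun ha : T.alt p a s c d = true => zA0_8458_2 (T.okA0 k9 ha)
  have g1822 := fun ha : T.alt p a s c d = true => zA0_18449_1 (T.okA0 k9 ha)
  have g1827 := fun ha : T.alt p a s c d = true => zA0_4672_576 (T.okA0 k9 ha)
  have g1829 := fun ha : T.alt p a s c d = true => zA0_4612_516 (T.okA0 k9 ha)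
  have g1831 := fun ha : T.alt p a s c d = true => zA0_4640_544 (T.okA0 k9 ha)
  have g1840 := fun ha : T.alt p a s c d = true => zA0_579_576 (T.okA0 k9 ha)
  have g1846 := fun ha : T.alt p a s c d = true => zA0_2081_33 (T.okA0 k9 ha)
  have g1868 := fun ha : T.alt p a d s c = true => zA2_18577_0 (T.okA2 k9 ha)
  have g1873 := fun ha : T.alt p a d s c = true => zA2_9474_2 (T.okA2 k9 ha)
  have g1876 := fun ha : T.alt p a d s c = true => zA2_4676_512 (T.okA2 k9 ha)
  have g1900 := fun ha : T.alt p a d s c = true => zA2_2307_256 (T.okA2 k9 ha)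
  have g1902 := fun ha : T.alt p a d s c = true => zA2_577_513 (T.okA2 k9 ha)
  have g1905 := fun ha : T.alt p a d s c = true => zA2_1160_136 (T.okA2 k9 ha)
  have g1917 := T.ae01 k10
  have g1918 := T.ae02 k10
  have g1964 := fun ha : T.alt p b s r c = true => zA1_292_260 (T.okA1 k10 ha)
  have g2015 := fun ha : T.alt p b r s c = true => zA0_4708_4100 (T.okA0 k10 ha)
  have g2022 := fun ha : T.alt p b r s c = true => zA0_720_16 (T.okA0 k10 ha)
  have g2045 := fun ha : T.alt p b c r s = true => zA2_8228_8196 (T.okA2 k10 ha)
  have g2062 := fun ha : T.alt p b c r s = true => zA2_9480_8 (T.okA2 k10 ha)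
  have g2081 := fun ha : T.alt p b c r s = true => zA2_2307_256 (T.okA2 k10 ha)
  have g2098 := T.ae01 k11
  have g2099 := T.ae02 k11
  have g2100 := T.ae12 k11
  have g2112 := fun ha : T.alt p b s r d = true => zA1_9482_0 (T.okA1 k11 ha)
  have g2145 := fun ha : T.alt p b s r d = true => zA1_292_260 (T.okA1 k11 ha)
  have g2180 := fun ha : T.alt p b r s d = true => zA0_16529_16 (T.okA0 k11 ha)
  have g2196 := fun ha : T.alt p b r s d = true => zA0_4708_4100 (T.okA0 k11 ha)
  have g2237 := fun ha : T.alt p b d r s = true => zA2_4644_4 (T.okA2 k11 ha)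
  have g2259 := fun ha : T.alt p b d r s = true => zA2_2625_64 (T.okA2 k11 ha)
  have g2262 := fun ha : T.alt p b d r s = true => zA2_2307_256 (T.okA2 k11 ha)
  have g2278 := T.ae1 k12
  have g2279 := T.ae01 k12
  have g2280 := T.ae02 k12
  have g2281 := T.ae12 k12
  have g2289 := fun ha : T.alt p b c r d = true => zA1_16420_16416 (T.okA1 k12 ha)
  have g2292 := fun ha : T.alt p b c r d = true => zA1_2307_2048 (T.okA1 k12 ha)
  have g2303 := fun ha : T.alt p b c r d = true => zA1_4676_64 (T.okA1 k12 ha)
  have g2306 := fun ha : T.alt p b c r d = true => zA1_18561_1 (T.okA1 k12 ha)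
  have g2308 := fun ha : T.alt p b c r d = true => zA1_18577_16384 (T.okA1 k12 ha)
  have g2309 := fun ha : T.alt p b c r d = true => zA1_18449_2048 (T.okA1 k12 ha)
  have g2312 := fun ha : T.alt p b c r d = true => zA1_8202_10 (T.okA1 k12 ha)
  have g2313 := fun ha : T.alt p b c r d = true => zA1_9218_1026 (T.okA1 k12 ha)
  have g2319 := fun ha : T.alt p b c r d = true => zA1_294_32 (T.okA1 k12 ha)
  have g2322 := fun ha : T.alt p b c r d = true => zA1_1608_64 (T.okA1 k12 ha)
  have g2330 := fun ha : T.alt p b c r d = true => zA1_2305_257 (T.okA1 k12 ha)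
  have g2352 := fun ha : T.alt p b r c d = true => zA0_4708_0 (T.okA0 k12 ha)
  have g2360 := fun ha : T.alt p b r c d = true => zA0_9480_1024 (T.okA0 k12 ha)
  have g2363 := fun ha : T.alt p b r c d = true => zA0_9482_8192 (T.okA0 k12 ha)
  have g2367 := fun ha : T.alt p b r c d = true => zA0_18577_16384 (T.okA0 k12 ha)
  have g2368 := fun ha : T.alt p b r c d = true => zA0_18561_2048 (T.okA0 k12 ha)
  have g2381 := fun ha : T.alt p b r c d = true => zA0_1608_8 (T.okA0 k12 ha)
  have g2384 := fun ha : T.alt p b r c d = true => zA0_720_16 (T.okA0 k12 ha)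
  have g2389 := fun ha : T.alt p b r c d = true => zA0_2081_33 (T.okA0 k12 ha)
  have g2391 := fun ha : T.alt p b r c d = true => zA0_18448_2064 (T.okA0 k12 ha)
  have g2416 := fun ha : T.alt p b d r c = true => zA2_9474_2 (T.okA2 k12 ha)
  have g2418 := fun ha : T.alt p b d r c = true => zA2_4644_4 (T.okA2 k12 ha)
  have g2419 := fun ha : T.alt p b d r c = true => zA2_4676_512 (T.okA2 k12 ha)
  have g2421 := fun ha : T.alt p b d r c = true => zA2_4704_64 (T.okA2 k12 ha)
  have g2422 := fun ha : T.alt p b d r c = true => zA2_4708_4096 (T.okA2 k12 ha)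
  have g2427 := fun ha : T.alt p b d r c = true => zA2_9226_1024 (T.okA2 k12 ha)
  have g2429 := fun ha : T.alt p b d r c = true => zA2_18433_2049 (T.okA2 k12 ha)
  have g2430 := fun ha : T.alt p b d r c = true => zA2_16401_17 (T.okA2 k12 ha)
  have g2438 := fun ha : T.alt p b d r c = true => zA2_18577_16385 (T.okA2 k12 ha)
  have g2440 := fun ha : T.alt p b d r c = true => zA2_2625_64 (T.okA2 k12 ha)
  have g2445 := fun ha : T.alt p b d r c = true => zA2_577_513 (T.okA2 k12 ha)
  have g2446 := fun ha : T.alt p b d r c = true => zA2_2306_2050 (T.okA2 k12 ha)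
  have g2459 := T.ae1 k13
  have g2460 := T.ae01 k13
  have g2461 := T.ae02 k13
  have g2462 := T.ae12 k13
  have g2470 := fun ha : T.alt p b c s d = true => zA1_16420_16416 (T.okA1 k13 ha)
  have g2474 := fun ha : T.alt p b c s d = true => zA1_9482_0 (T.okA1 k13 ha)
  have g2479 := fun ha : T.alt p b c s d = true => zA1_18576_16 (T.okA1 k13 ha)
  have g2482 := fun ha : T.alt p b c s d = true => zA1_4704_512 (T.okA1 k13 ha)
  have g2498 := fun ha : T.alt p b c s d = true => zA1_4612_516 (T.okA1 k13 ha)
  have g2499 := fun ha : T.alt p b c s d = true => zA1_9482_8194 (T.okA1 k13 ha)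
  have g2508 := fun ha : T.alt p b c s d = true => zA1_584_520 (T.okA1 k13 ha)
  have g2511 := fun ha : T.alt p b c s d = true => zA1_2305_257 (T.okA1 k13 ha)
  have g2540 := fun ha : T.alt p b s c d = true => zA0_9474_256 (T.okA0 k13 ha)
  have g2542 := fun ha : T.alt p b s c d = true => zA0_16529_16 (T.okA0 k13 ha)
  have g2545 := fun ha : T.alt p b s c d = true => zA0_8458_2 (T.okA0 k13 ha)
  have g2551 := fun ha : T.alt p b s c d = true => zA0_4672_576 (T.okA0 k13 ha)
  have g2553 := fun ha : T.alt p b s c d = true => zA0_4612_516 (T.okA0 k13 ha)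
  have g2555 := fun ha : T.alt p b s c d = true => zA0_4640_544 (T.okA0 k13 ha)
  have g2559 := fun ha : T.alt p b s c d = true => zA0_294_256 (T.okA0 k13 ha)
  have g2564 := fun ha : T.alt p b s c d = true => zA0_579_576 (T.okA0 k13 ha)
  have g2566 := fun ha : T.alt p b s c d = true => zA0_290_34 (T.okA0 k13 ha)
  have g2568 := fun ha : T.alt p b s c d = true => zA0_656_640 (T.okA0 k13 ha)
  have g2570 := fun ha : T.alt p b s c d = true => zA0_2081_33 (T.okA0 k13 ha)
  have g2578 := fun ha : T.alt p b s c d = true => zA0_9482_8202 (T.okA0 k13 ha)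
  have g2600 := fun ha : T.alt p b d s c = true => zA2_4676_512 (T.okA2 k13 ha)
  have g2616 := fun ha : T.alt p b d s c = true => zA2_4640_544 (T.okA2 k13 ha)
  have g2626 := fun ha : T.alt p b d s c = true => zA2_577_513 (T.okA2 k13 ha)
  have g2640 := T.ae1 k14
  have g2641 := T.ae01 k14
  have g2642 := T.ae02 k14
  have g2663 := fun ha : T.alt p r c s d = true => zA1_4704_512 (T.okA1 k14 ha)
  have g2672 := fun ha : T.alt p r c s d = true => zA1_8450_258 (T.okA1 k14 ha)
  have g2689 := fun ha : T.alt p r c s d = true => zA1_584_520 (T.okA1 k14 ha)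
  have g2781 := fun ha : T.alt p r d s c = true => zA2_4676_512 (T.okA2 k14 ha)
  have g2790 := fun ha : T.alt p r d s c = true => zA2_16528_144 (T.okA2 k14 ha)
  have g2807 := fun ha : T.alt p r d s c = true => zA2_577_513 (T.okA2 k14 ha)
  have g2927 := z5_6404_6404 k0
  have g2930 := z5_5280_5280 k0
  have g3014 := z5_4898_768 k1
  have g3015 := z5_4898_4352 k1
  have g3017 := z5_4756_20 k1
  have g3018 := z5_16977_80 k1
  have g3025 := z5_18596_2052 k1
  have g3030 := z5_6241_6144 k1
  have g3031 := z5_9508_8196 k1
  have g3035 := z5_8778_8256 k1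
  have g3041 := z5_8778_520 k1
  have g3042 := z5_8778_8704 k1
  have g3043 := z5_9362_1040 k1
  have g3064 := z5_5196_12 k1
  have g3069 := z5_18596_16388 k1
  have g3072 := z5_9508_260 k1
  have g3096 := z5_612_612 k1
  have g3097 := z5_6404_6404 k1
  have g3153 := z5_5780_4244 k1
  have g3187 := z5_4756_20 k2
  have g3189 := z5_5196_68 k2
  have g3195 := z5_18596_2052 k2
  have g3200 := z5_6241_6144 k2
  have g3201 := z5_9508_8196 k2
  have g3209 := z5_10505_2056 k2
  have g3213 := z5_9362_1040 k2
  have g3235 := z5_4756_516 k2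
  have g3239 := z5_18596_16388 k2
  have g3242 := z5_9508_260 k2
  have g3250 := z5_7716_4132 k2
  have g3267 := z5_6404_6404 k2
  have g3270 := z5_5280_5280 k2
  have g3348 := z5_17545_136 k3
  have g3353 := z5_4898_544 k3
  have g3355 := z5_4898_4352 k3
  have g3365 := z5_18596_2052 k3
  have g3370 := z5_6241_6144 k3
  have g3371 := z5_9508_8196 k3
  have g3375 := z5_8778_8256 k3
  have g3380 := z5_16977_16448 k3
  have g3409 := z5_18596_16388 k3
  have g3420 := z5_7716_4132 k3
  have g3436 := z5_612_612 k3
  have g3437 := z5_6404_6404 k3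
  have g3440 := z5_5280_5280 k3
  have g3487 := z5_5324_5132 k3
  have g3525 := z5_4898_4352 k4
  have g3540 := z5_6241_6144 k4
  have g3558 := z5_9362_8320 k4
  have g3569 := z5_1212_1156 k4
  have g3579 := z5_18596_16388 k4
  have g3590 := z5_7716_4132 k4
  have g3607 := z5_6404_6404 k4
  have g3610 := z5_5280_5280 k4
  have g3689 := z5_17545_16392 k5
  have g3694 := z5_4898_768 k5
  have g3696 := z5_4898_34 k5
  have g3697 := z5_4756_20 k5
  have g3698 := z5_16977_80 k5
  have g3702 := z5_16977_16896 k5
  have g3706 := z5_16977_513 k5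
  have g3708 := z5_6241_96 k5
  have g3709 := z5_6241_2112 k5
  have g3730 := z5_5196_1088 k5
  have g3744 := z5_5196_12 k5
  have g3747 := z5_4756_640 k5
  have g3862 := z5_4898_4098 k6
  have g3866 := z5_4898_34 k6
  have g3882 := z5_6241_33 k6
  have g3913 := z5_18706_16386 k6
  have g3924 := z5_9508_8224 k6
  have g3950 := z5_5280_5280 k6
  have g4032 := z5_4898_4098 k7
  have g4036 := z5_4898_34 k7
  have g4052 := z5_6241_33 k7
  have g4083 := z5_18706_16386 k7
  have g4120 := z5_5280_5280 k7
  have g4182 := z5_24_24 k8
  have g4202 := z5_4898_4098 k8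
  have g4203 := z5_4898_544 k8
  have g4206 := z5_4898_34 k8
  have g4208 := z5_16977_80 k8
  have g4213 := z5_5196_5120 k8
  have g4219 := z5_6241_2112 k8
  have g4220 := z5_6241_6144 k8
  have g4224 := z5_16977_17 k8
  have g4225 := z5_8778_8256 k8
  have g4226 := z5_5196_4104 k8
  have g4227 := z5_18596_160 k8
  have g4232 := z5_8778_8704 k8
  have g4233 := z5_9362_1040 k8
  have g4235 := z5_6241_4097 k8
  have g4237 := z5_8778_66 k8
  have g4244 := z5_4679_4672 k8
  have g4256 := z5_4756_4112 k8
  have g4263 := z5_9508_1056 k8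
  have g4286 := z5_612_612 k8
  have g4290 := z5_5280_5280 k8
  have g4301 := z5_6249_6209 k8
  have g4310 := z5_19025_16465 k8
  have g4319 := z5_8794_8770 k8
  have g4382 := z5_16977_16896 k9
  have g4384 := z5_9362_8208 k9
  have g4386 := z5_16977_513 k9
  have g4392 := z5_6241_33 k9
  have g4396 := z5_5196_4104 k9
  have g4401 := z5_8778_520 k9
  have g4402 := z5_8778_8704 k9
  have g4405 := z5_6241_4097 k9
  have g4409 := z5_18706_272 k9
  have g4414 := z5_4679_4672 k9
  have g4421 := z5_10505_8193 k9
  have g4425 := z5_4756_516 k9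
  have g4432 := z5_9508_260 k9
  have g4442 := z5_4728_4672 k9
  have g4446 := z5_4617_4617 k9
  have g4451 := z5_4178_4178 k9
  have g4456 := z5_612_612 k9
  have g4565 := z5_8778_8256 k10
  have g4731 := z5_9508_8196 k11
  have g4795 := z5_17428_17428 k11
  have g4882 := z5_4898_4098 k12
  have g4888 := z5_16977_80 k12
  have g4915 := z5_6241_4097 k12
  have g4917 := z5_8778_66 k12
  have g4936 := z5_4756_4112 k12
  have g4940 := z5_18596_16416 k12
  have g4968 := z5_18504_18504 k12
  have g4990 := z5_19025_16465 k12
  have g5008 := z5_9874_8338 k12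
  have g5066 := z5_16977_513 k13
  have g5071 := z5_9508_8196 k13
  have g5082 := z5_8778_8704 k13
  have g5085 := z5_6241_4097 k13
  have g5101 := z5_10505_8193 k13
  have g5122 := z5_4728_4672 k13
  have g5126 := z5_4617_4617 k13
  have g5201 := z5_3_3 k14
  have g5255 := z5_6241_4097 k14
  have g5301 := z5_4178_4178 k14
  have g5400 := z5_10505_257 k15
  have g5409 := z5_6241_2112 k15
  have g5427 := z5_8778_66 k15
  have g5551 := z5_384_384 k16
  have g5579 := z5_6241_2112 k16
  have g5595 := z5_6241_4097 k16
  have g5732 := z5_4898_4098 k17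
  have g5733 := z5_4898_544 k17
  have g5734 := z5_4898_768 k17
  have g5742 := z5_16977_16896 k17
  have g5746 := z5_16977_513 k17
  have g5754 := z5_16977_17 k17
  have g5756 := z5_5196_4104 k17
  have g5758 := z5_18706_16640 k17
  have g5761 := z5_8778_520 k17
  have g5762 := z5_8778_8704 k17
  have g5765 := z5_6241_4097 k17
  have g5781 := z5_10505_8193 k17
  have g5784 := z5_5196_12 k17
  have g5787 := z5_4756_640 k17
  have g5795 := z5_9508_1280 k17
  have g5806 := z5_4617_4617 k17
  have g5889 := z5_48_48 k18
  have g5916 := z5_16977_513 k18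
  have g5926 := z5_5196_4104 k18
  have g5931 := z5_8778_520 k18
  have g5935 := z5_6241_4097 k18
  have g5938 := z5_9362_8320 k18
  have g5976 := z5_4617_4617 k18
  have g6007 := z5_11529_8457 k18
  have g6015 := z5_4758_4752 k18
  have g6062 := z5_2560_2560 k19
  have g6086 := z5_16977_513 k19
  have g6125 := z5_4756_516 k19
  have g6271 := z5_8778_520 k20
  have g6391 := zsp_73_73 sp0
  have g6392 := zsp_73_1 sp0
  have g6393 := zsp_73_64 sp0
  have g6394 := zsp_73_8 sp0
  have g6398 := zsp_530_16 sp0
  have g6399 := zsp_1156_1156 sp0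
  have g6400 := zsp_1156_4 sp0
  have g6401 := zsp_1156_1024 sp0
  have g6402 := zsp_1156_128 sp0
  have g6404 := zsp_2336_32 sp0
  have g6405 := zsp_2336_2048 sp0
  have g6406 := zsp_2336_256 sp0
  have g6408 := zsp_4132_4 sp0
  have g6409 := zsp_4132_4096 sp0
  have g6413 := zsp_8450_8192 sp0
  have g6414 := zsp_8450_256 sp0
  have g6416 := zsp_16528_16 sp0
  have g6418 := zsp_16528_128 sp0
  have g6420 := zsp_18433_1 sp0
  have g6421 := zsp_18433_16384 sp0
  have g6425 := zsp_9224_8192 sp0
  have g6428 := zsp_4672_64 sp0
  have g6431 := zsp_73_73 sp1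
  have g6432 := zsp_73_1 sp1
  have g6433 := zsp_73_64 sp1
  have g6434 := zsp_73_8 sp1
  have g6436 := zsp_530_2 sp1
  have g6438 := zsp_530_16 sp1
  have g6440 := zsp_1156_4 sp1
  have g6444 := zsp_2336_32 sp1
  have g6445 := zsp_2336_2048 sp1
  have g6446 := zsp_2336_256 sp1
  have g6448 := zsp_4132_4 sp1
  have g6449 := zsp_4132_4096 sp1
  have g6453 := zsp_8450_8192 sp1
  have g6454 := zsp_8450_256 sp1
  have g6456 := zsp_16528_16 sp1
  have g6457 := zsp_16528_16384 sp1
  have g6460 := zsp_18433_1 sp1
  have g6461 := zsp_18433_16384 sp1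
  have g6462 := zsp_18433_2048 sp1
  have g6464 := zsp_9224_8 sp1
  have g6468 := zsp_4672_64 sp1
  have g6471 := zsp_73_73 sp2
  have g6472 := zsp_73_1 sp2
  have g6473 := zsp_73_64 sp2
  have g6474 := zsp_73_8 sp2
  have g6475 := zsp_530_530 sp2
  have g6476 := zsp_530_2 sp2
  have g6477 := zsp_530_512 sp2
  have g6478 := zsp_530_16 sp2
  have g6480 := zsp_1156_4 sp2
  have g6481 := zsp_1156_1024 sp2
  have g6482 := zsp_1156_128 sp2
  have g6483 := zsp_2336_2336 sp2
  have g6484 := zsp_2336_32 sp2
  have g6485 := zsp_2336_2048 sp2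
  have g6486 := zsp_2336_256 sp2
  have g6488 := zsp_4132_4 sp2
  have g6489 := zsp_4132_4096 sp2
  have g6490 := zsp_4132_32 sp2
  have g6492 := zsp_8450_2 sp2
  have g6493 := zsp_8450_8192 sp2
  have g6494 := zsp_8450_256 sp2
  have g6496 := zsp_16528_16 sp2
  have g6497 := zsp_16528_16384 sp2
  have g6498 := zsp_16528_128 sp2
  have g6499 := zsp_18433_18433 sp2
  have g6500 := zsp_18433_1 sp2
  have g6501 := zsp_18433_16384 sp2
  have g6502 := zsp_18433_2048 sp2
  have g6503 := zsp_9224_9224 sp2
  have g6504 := zsp_9224_8 sp2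
  have g6505 := zsp_9224_8192 sp2
  have g6507 := zsp_4672_4672 sp2
  have g6508 := zsp_4672_64 sp2
  have g6509 := zsp_4672_4096 sp2
  have g6510 := zsp_4672_512 sp2
  have g6511 := zsp_73_73 sp3
  have g6512 := zsp_73_1 sp3
  have g6513 := zsp_73_64 sp3
  have g6514 := zsp_73_8 sp3
  have g6515 := zsp_530_530 sp3
  have g6516 := zsp_530_2 sp3
  have g6517 := zsp_530_512 sp3
  have g6518 := zsp_530_16 sp3
  have g6520 := zsp_1156_4 sp3
  have g6521 := zsp_1156_1024 sp3
  have g6522 := zsp_1156_128 sp3
  have g6523 := zsp_2336_2336 sp3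
  have g6524 := zsp_2336_32 sp3
  have g6525 := zsp_2336_2048 sp3
  have g6526 := zsp_2336_256 sp3
  have g6527 := zsp_4132_4132 sp3
  have g6528 := zsp_4132_4 sp3
  have g6529 := zsp_4132_4096 sp3
  have g6530 := zsp_4132_32 sp3
  have g6532 := zsp_8450_2 sp3
  have g6533 := zsp_8450_8192 sp3
  have g6534 := zsp_8450_256 sp3
  have g6535 := zsp_16528_16528 sp3
  have g6536 := zsp_16528_16 sp3
  have g6537 := zsp_16528_16384 sp3
  have g6538 := zsp_16528_128 sp3
  have g6539 := zsp_18433_18433 sp3
  have g6540 := zsp_18433_1 sp3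
  have g6541 := zsp_18433_16384 sp3
  have g6542 := zsp_18433_2048 sp3
  have g6544 := zsp_9224_8 sp3
  have g6545 := zsp_9224_8192 sp3
  have g6546 := zsp_9224_1024 sp3
  have g6547 := zsp_4672_4672 sp3
  have g6548 := zsp_4672_64 sp3
  have g6549 := zsp_4672_4096 sp3
  have g6550 := zsp_4672_512 sp3
  have g6552 := zsp_73_1 sp4
  have g6557 := zsp_530_512 sp4
  have g6560 := zsp_1156_4 sp4
  have g6561 := zsp_1156_1024 sp4
  have g6562 := zsp_1156_128 sp4
  have g6564 := zsp_2336_32 sp4
  have g6565 := zsp_2336_2048 sp4
  have g6566 := zsp_2336_256 sp4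
  have g6569 := zsp_4132_4096 sp4
  have g6572 := zsp_8450_2 sp4
  have g6574 := zsp_8450_256 sp4
  have g6576 := zsp_16528_16 sp4
  have g6582 := zsp_18433_2048 sp4
  have g6584 := zsp_9224_8 sp4
  have g6587 := zsp_4672_4672 sp4
  have g6588 := zsp_4672_64 sp4
  have g6589 := zsp_4672_4096 sp4
  have g6590 := zsp_4672_512 sp4
  have g6597 := zsp_530_512 sp5
  have g6600 := zsp_1156_4 sp5
  have g6602 := zsp_1156_128 sp5
  have g6604 := zsp_2336_32 sp5
  have g6605 := zsp_2336_2048 sp5
  have g6606 := zsp_2336_256 sp5
  have g6608 := zsp_4132_4 sp5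
  have g6612 := zsp_8450_2 sp5
  have g6614 := zsp_8450_256 sp5
  have g6617 := zsp_16528_16384 sp5
  have g6618 := zsp_16528_128 sp5
  have g6625 := zsp_9224_8192 sp5
  have g6626 := zsp_9224_1024 sp5
  have g6628 := zsp_4672_64 sp5
  have g6630 := zsp_4672_512 sp5
  have g6631 : T.X p r a b = true := h0
  have g6632 : T.X p s a b = true := h1
  have g6634 := it2 B151
  have g6636 := it4 B151
  have g6637 : T.bfo p a b r s = true := h2
  have g6638 : T.X p s c d = true := h3
  have g6639 : T.X a b c d = false := h4
  have g6640 := xr1 e152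
  have g6641 := xr2 e152
  have g6642 := xr3 e152
  have g6643 := xr4 e152
  have g6644 := xr1 e153
  have g6645 := xr2 e153
  have g6646 := xr3 e153
  have g6647 := xr4 e153
  have g6648 := it1 B154
  have g6649 := it2 B154
  have g6650 := it3 B154
  have g6651 := it4 B154
  have g6652 := an0 e155
  have g6653 := an1 e155
  have g6654 := an2 e155
  have g6655 := it1 B156
  have g6656 := it2 B156
  have g6657 := it3 B156
  have g6658 := it4 B156
  have g6659 := an0 e157
  have g6660 := an1 e157
  have g6661 := an2 e157
  have g6662 := xr1 e158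
  have g6663 := xr2 e158
  have g6664 := xr3 e158
  have g6666 := xr1 L159
  have g6667 := xr2 L159
  have g6670 : T.lto p s c d a b = true := h5
  have g6671 := xr1 e160
  have g6672 := xr2 e160
  have g6673 := xr3 e160
  have g6674 := xr4 e160
  have g6675 := xr1 e161
  have g6676 := xr2 e161
  have g6677 := xr3 e161
  have g6678 := xr4 e161
  have g6680 := it2 B162
  have g6681 := it3 B162
  have g6682 := it4 B162
  have g6683 := an0 e163
  have g6684 := an1 e163
  have g6685 := an2 e163
  have g6686 := it1 B164
  have g6687 := it2 B164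
  have g6688 := it3 B164
  have g6689 := it4 B164
  have g6690 := an0 e165
  have g6691 := an1 e165
  have g6692 := an2 e165
  have g6693 := xr1 e166
  have g6694 := xr2 e166
  have g6695 := xr3 e166
  have g6696 := xr4 e166
  have g6699 := xr3 L167
  have g6700 := xr4 L167
  have g6701 := fun (n0 : T.X p r c d = true) (n1 : T.lto p r c d a b = true) => h6 n0 n1
  have g6702 := it1 B168
  have g6703 := it2 B168
  have g6704 := it3 B168
  have g6705 := it4 B168
  have g6706 := it1 B169
  have g6707 := it2 B169
  have g6708 := it3 B169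
  have g6709 := it4 B169
  have g6710 := fun (n0 : T.X p c a b = true) (n1 : T.bfo p a b c r = false) (n2 : T.bfo p a b s c = false) => h7 n0 n1 n2
  have g6711 := it1 B170
  have g6712 := it2 B170
  have g6713 := it3 B170
  have g6714 := it4 B170
  have g6715 := it1 B171
  have g6716 := it2 B171
  have g6717 := it3 B171
  have g6718 := it4 B171
  have g6719 := fun (n0 : T.X p d a b = true) (n1 : T.bfo p a b d r = false) (n2 : T.bfo p a b s d = false) => h8 n0 n1 n2
  have g6720 := fun (n0 : T.alt p a c r s = false) (n1 : T.alt p a d r s = true) => h9 ((T.as5 p r s c a).trans n0) ((T.as5 p r s d a).trans n1)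
  have g6721 := fun (n0 : T.alt p a c r s = true) (n1 : T.alt p a d r s = false) => h10 ((T.as5 p r s c a).trans n0) ((T.as5 p r s d a).trans n1)
  have s6722 := fun (n0 : T.X p a b r = true) => g2 n0 g6631
  have w6722 := bf s6722
  have s6723 := fun (n0 : T.X p b a r = true) => g3 n0 g6631
  have w6723 := bf s6723
  have s6724 := fun (n0 : T.X p a b s = true) => g5 n0 g6632
  have w6724 := bf s6724
  have s6725 := fun (n0 : T.X p b a s = true) => g6 n0 g6632
  have w6725 := bf s6725
  have s6726 := fun (n0 : T.X p c s d = true) => g58 g6638 n0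
  have w6726 := bf s6726
  have s6727 := fun (n0 : T.X p d s c = true) => g59 g6638 n0
  have w6727 := bf s6727
  have s6731 : T.alt p a s c d = false → T.alt p r s c d = true → T.bfo p c d a s = true → False := fun n0 n1 n2 => by
    have u0 := bf fun t => g2642 n1 t
    have u1 := bt fun t => g6651 n2 n0 t
    have u2 := bt fun t => g6589 t n0 n1
    have u3 := bt fun t => g6582 t u1 u0
    have u4 := bf fun t => g1556 u2 t
    have u5 := bf fun t => g1194 u3 t
    have u6 := bt fun t => g6565 t u4 u1
    exact g6720 u5 u6
  have s6735 : T.X p a r c = true → T.X p b r c = true → v160 = true → T.bfo p a b c r = true → False := fun n0 n1 n2 n3 => by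
    have u0 := bf fun t => g6671 n2 n0 t
    have u1 := bf fun t => g392 t w6722 w6723 n0 n1
    have u2 := bf fun t => g326 t g6631 n1 u0
    exact g6705 n3 u1 u2
  have s6736 : T.alt p a b r c = false → T.X p a b c = false → T.X a r b c = false → T.alt p a d r c = true → T.X p r b c = false → T.X p a c d = true → T.bfo p a b c r = true → False := fun n0 n1 n2 n3 n4 n5 n6 => by
    have u0 := bt fun t => g6705 n6 n0 t
    have u1 := bt fun t => g6502 n0 n3 t
    have u2 := bt fun t => g302 u0 w6723 n1 t n4 n2
    have u3 := bf fun t => g2281 t u1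
    have u4 := bt fun t => g3072 g6631 t u2 n4 n2
    have u5 := bt fun t => g6492 u0 t u3
    exact g1182 u5 u4 n5 g6639
  have s6737 : T.X p a b c = false → T.X a r b c = false → T.bfo p a b c r = true → T.alt p a d r c = true → T.X p r b c = false → T.X p a c d = true → False := fun n0 n1 n2 n3 n4 n5 => by
    have u0 := bt fun t => s6736 t n0 n1 n3 n4 n5 n2
    have u1 := bt fun t => g6703 n2 u0 t
    exact g368 u0 w6723 u1 n4 n1
  have s6738 : v160 = true → v161 = false → T.bfo p c d a r = true → T.X p a c d = true → T.bfo p a b c r = true → False := fun n0 n1 n2 n3 n4 => by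
    have u0 := bt fun t => g6677 n1 n0 t
    have u1 := bf fun t => g34 u0 t
    have u2 := bf fun t => s6735 t u0 n0 n4
    have u3 := bf fun t => g6680 n2 t u2
    have u4 := bt fun t => g6672 n0 u2 t
    have u5 := bt fun t => g6682 n2 u3 t
    have u6 := bf fun t => g64 u4 t
    have u7 := bf fun t => g3041 w6723 t u2 u0 u6
    exact s6737 u7 u6 n4 u5 u1 n3
  have s6739 : T.X p a r c = false → T.X p c a b = false → T.alt p a r b c = true → v160 = false → False := fun n0 n1 n2 n3 => by
    have u0 := bf fun t => g6674 n3 n0 t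
    exact g314 n2 g6631 n1 n0 u0
  have s6741 : T.alt p a r b c = true → T.alt p b c r d = false → T.X p b r c = false → v160 = false → T.X p a c d = true → False := fun n0 n1 n2 n3 n4 => by
    have u0 := bt fun t => g6492 n0 t n1
    have u1 := bf fun t => g1182 u0 t n4 g6639
    have u2 := bt fun t => s6739 t u1 n0 n3
    have u3 := bt fun t => g6673 n3 u2 t
    exact g347 n0 g6631 u1 u2 n2 u3
  have s6742 : v163 = true → T.bfo p c d b r = true → v166 = true → T.bfo p a b c r = true → False := fun n0 n1 n2 n3 => by
    have u0 := bt fun t => g6684 n0 t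
    have u1 := bt fun t => g6685 n0 t
    have u2 := bf fun t => g6693 n2 t n0
    have u3 := bf fun t => s6738 t u2 u1 u0 n3
    have u4 := bf fun t => g6678 u2 u3 t
    have u5 := bf fun t => g6687 n1 t u4
    have u6 := bt fun t => g6689 n1 u5 t
    have u7 := bf fun t => g2281 t u6
    have u8 := bf fun t => s6741 t u7 u4 u3 u0
    have u9 := bt fun t => g6705 n3 t u8
    have u10 := bf fun t => g6499 u9 t u6
    have u11 := bt fun t => g6703 n3 u9 t
    have u12 := bt fun t => g6682 u1 t u10
    have u13 := bf fun t => g17 t u11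
    exact g6680 u1 u12 u13
  have s6743 : v160 = false → T.X p a r c = false → v161 = true → T.bfo p a b c r = true → False := fun n0 n1 n2 n3 => by
    have u0 := bt fun t => g6676 n2 n0 t
    have u1 := bf fun t => g6674 n0 n1 t
    have u2 := bf fun t => g326 t g6631 u0 u1
    have u3 := bf fun t => g381 t g6631 u0 u1
    exact g6705 n3 u3 u2
  have s6750 : T.alt p b c r d = true → T.bfo p c d b r = true → False := fun n0 n1 => by
    have u0 := bf fun t => g2279 t n0
    have u1 := bf fun t => g2281 n0 t
    exact g6689 n1 u0 u1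
  have s6752 : T.alt p a r b c = true → T.alt p a d b c = true → T.bfo p c d b r = false → T.bfo p a b d r = true → False := fun n0 n1 n2 n3 => by
    have u0 := bf fun t => g1014 t n1
    have u1 := bf fun t => g1013 t n1
    have u2 := bf fun t => g288 t n0
    have u3 := bf fun t => g290 n0 t
    have u4 := bf fun t => g6474 u2 t u1
    have u5 := bt fun t => g6714 n3 u4 t
    have u6 := bf fun t => g471 u5 t
    have u7 := bt fun t => g6496 u5 u0 t
    have u8 := bf fun t => g6489 u3 u6 t
    exact g6688 n2 u8 u7
  have s6753 : T.alt p a d s c = true → T.X a d b r = false → T.X p r a d = false → T.X p a r d = false → T.X p c b r = false → T.X p b a c = false → T.X a c b r = false → T.alt p a b r d = true → T.X p c a r = true → T.alt p a c b r = false → T.alt p b c r d = true → T.alt p a d b c = true → T.X p r c d = false → T.bfo p a b s c = true → T.bfo p a b s d = true → False := fun n0 n1 n2 n3 n4 n5 n6 n7 n8 n9 n10 n11 n12 n13 n14 => by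
    have u0 := bf fun t => g558 n7 w6722 n2 t n1
    have u1 := bf fun t => g551 n7 w6722 t n2 n1
    have u2 := bf fun t => g470 n7 t
    have u3 := bf fun t => g18 t n8
    have u4 := bf fun t => g17 t n8
    have u5 := bf fun t => g1014 t n11
    have u6 := bf fun t => g6481 n9 u5 t
    have u7 := bf fun t => g1013 t n11
    have u8 := bf fun t => g1737 t n0
    have u9 := bf fun t => g1738 t n0
    have u10 := bf fun t => g6523 t n11 n0
    have u11 := bf fun t => g6549 u7 u8 t
    have u12 := bf fun t => g6520 t u5 u9
    have u13 := bt fun t => g6718 n14 t u10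
    have u14 := bt fun t => g6709 n13 t u12
    have u15 := bf fun t => g831 u13 t
    have u16 := bt fun t => g6716 n14 u13 t
    have u17 := bf fun t => g6431 t n7 u13
    have u18 := bf fun t => g650 u14 t
    have u19 := bf fun t => g6539 u14 n0 t
    have u20 := bt fun t => g6707 n13 u14 t
    have u21 := bf fun t => g939 u13 u1 u16 t
    have u22 := bt fun t => g6636 g6637 u17 t
    have u23 := bf fun t => g6658 t u11 u19
    have u24 := bf fun t => g22 t u20
    have u25 := bf fun t => g758 u14 n5 u20 t
    have u26 := bt fun t => g6448 u22 u2 t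
    have u27 := bt fun t => g6400 u22 u18 t
    have u28 := bt fun t => g6440 u22 u15 t
    have u29 := bt fun t => g6408 u22 n9 t
    have u30 := bf fun t => g6661 t u23
    have u31 := bt fun t => g1239 u27 u4 u3 u20 t
    have u32 := bt fun t => g6576 u28 u6 t
    have u33 := bt fun t => g1420 u28 n3 n2 u16 t
    have u34 := bt fun t => g6667 g6670 t u30
    have u35 := bf fun t => g49 t u31
    have u36 := bf fun t => g51 u31 t
    have u37 := bf fun t => g3950 n8 u20 u31 t
    have u38 := bf fun t => g52 t u33
    have u39 := bt fun t => g1214 u27 t n8 u35 u37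
    have u40 := bt fun t => g2781 u32 u36 n12 g6638 t
    have u41 := bf fun t => g3882 t n8 u24 u36 u37
    have u42 := bt fun t => g271 u22 w6722 w6723 u39 t
    have u43 := bf fun t => g104 u40 t
    have u44 := bt fun t => g1216 u27 u41 u3 u20 t
    have u45 := bt fun t => g1397 u28 u41 n2 u16 t
    have u46 := bf fun t => g2927 g6631 u39 u42 t
    have u47 := bf fun t => g2015 u29 u42 n4 u25 u35 t
    have u48 := bf fun t => g2196 u26 u42 u0 u21 u38 t
    have u49 := bf fun t => g2790 u32 u33 t u43
    have u50 := bf fun t => g5409 u46 n6 t u44 u47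
    have u51 := bf fun t => g5579 u46 n1 t u45 u48
    have u52 := bf fun t => g6641 t u24 u50
    have u53 := bf fun t => g921 u13 g6632 t u51
    have u54 := bf fun t => g6645 t u52 u25
    have u55 := bt fun t => g6663 u34 u54 t
    have u56 := bt fun t => g6653 u55 t
    have u57 := bt fun t => g1154 n11 u53 u56 t g6639
    have u58 := bf fun t => g4225 u3 n3 u56 n12 t
    have u59 := bt fun t => g2303 n10 n4 u57 n12 t
    have u60 := bt fun t => g2322 n10 t u57 n12 u49
    have u61 := bf fun t => g5756 n6 t g6639 u58 u59
    exact g562 n7 g6631 u60 u61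
  have s6754 : T.alt p a d b c = true → T.bfo p c d b r = false → T.X p r c d = false → T.bfo p a b c r = true → T.bfo p a b s c = true → T.bfo p a b d r = true → T.bfo p a b s d = true → False := fun n0 n1 n2 n3 n4 n5 n6 => by
    have u0 := bf fun t => g1013 t n0
    have u1 := bf fun t => s6752 t n0 n1 n5
    have u2 := bt fun t => g6705 n3 t u1
    have u3 := bt fun t => g6494 u1 n0 t
    have u4 := bf fun t => g289 u2 t
    have u5 := bt fun t => g6703 n3 u2 t
    have u6 := bt fun t => g6472 u2 t u0
    have u7 := bf fun t => g2281 u3 t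
    have u8 := bf fun t => g17 t u5
    have u9 := bf fun t => g18 t u5
    have u10 := bf fun t => g357 u2 w6723 u5 t
    have u11 := bf fun t => g469 u6 t
    have u12 := bt fun t => g6712 n5 u6 t
    have u13 := bt fun t => g6500 u2 t u7
    have u14 := bf fun t => g370 u2 w6722 t u9 u10
    have u15 := bf fun t => g377 u2 w6722 u9 t u10
    have u16 := bf fun t => g20 t u12
    have u17 := bf fun t => g21 t u12
    have u18 := bf fun t => g538 u6 w6723 u12 t
    have u19 := bf fun t => s6753 t u18 u17 u16 u15 u14 u10 u6 u5 u4 u3 n0 n2 n4 n6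
    have u20 := bt fun t => g6566 t u13 u19
    have u21 := bt fun t => g6526 t n0 u19
    have u22 := bf fun t => g1375 t u20
    have u23 := bt fun t => g6720 t u20
    have u24 := bf fun t => g832 t u21
    have u25 := bf fun t => g6436 t u11 u22
    have u26 := bt fun t => g6405 u4 t u23
    have u27 := bt fun t => g6434 t u6 u24
    have u28 := bt fun t => g6414 u25 u26 t
    have u29 := bt fun t => g197 u27 g6631 g6632 t
    have u30 := bt fun t => g6634 g6637 u27 t
    have u31 := bf fun t => g62 u29 t
    have u32 := bf fun t => g15 u30 t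
    have u33 := bt fun t => g185 u27 w6725 u30 t u31
    have u34 := bf fun t => g1358 u23 u32 u5 t
    have u35 := bf fun t => g1964 u28 u33 u15 t
    have u36 := bf fun t => g1324 u23 u8 u9 u34 t
    have u37 := bf fun t => g814 u26 w6724 w6725 t u35
    have u38 := bt fun t => g1330 u23 u30 u37 u36 t
    exact g3924 u32 u5 u37 u36 u38
  have s6755 : T.alt p b r c d = false → T.alt p b c r d = false → T.bfo p c d b r = false → False := fun n0 n1 n2 => by
    have u0 := bf fun t => g6688 n2 n0 t
    exact g2278 n0 n1 u0
  have s6756 : T.alt p a d b r = true → T.bfo p a b d r = true → False := fun n0 n1 => by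
    have u0 := bf fun t => g470 t n0
    have u1 := bf fun t => g471 t n0
    exact g6714 n1 u0 u1
  have s6757 : T.alt p a b s d = true → T.alt p a b c d = false → T.alt p a r b d = true → T.alt p a b r d = false → T.alt p a r b c = true → T.alt p b c r d = true → T.X p r c d = false → T.bfo p a b s c = true → False := fun n0 n1 n2 n3 n4 n5 n6 n7 => by
    have u0 := bf fun t => g831 n0 t
    have u1 := bt fun t => g6514 t n0 n1
    have u2 := bt fun t => g6433 t n3 n0
    have u3 := bt fun t => g6456 n2 u0 t
    have u4 := bt fun t => g6707 n7 u1 t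
    have u5 := bf fun t => g107 u2 t
    have u6 := bt fun t => g6634 g6637 u2 t
    have u7 := bf fun t => g2100 t u3
    have u8 := bf fun t => g22 t u4
    have u9 := bf fun t => g24 u4 t
    have u10 := bt fun t => g6398 u5 n4 t
    have u11 := bf fun t => g15 u6 t
    have u12 := bt fun t => g6618 u7 n5 t
    have u13 := bf fun t => g1299 u10 u6 t u9
    have u14 := bf fun t => g2807 u12 t n6 g6638
    have u15 := bt fun t => g1266 u10 u11 u13 u8 u14 t
    exact g3862 u6 u13 u9 u14 u15
  have s6758 : T.alt p a b r d = false → T.alt p a r b c = true → T.alt p a b r c = false → T.alt p b c r d = true → T.X p r c d = false → T.bfo p a b s c = true → T.bfo p a b d r = true → T.bfo p a b s d = true → False := fun n0 n1 n2 n3 n4 n5 n6 n7 => by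
    have u0 := bf fun t => s6756 t n6
    have u1 := bt fun t => g6714 n6 n0 t
    have u2 := bf fun t => g6473 n2 n0 t
    have u3 := bf fun t => s6757 t u2 u1 n0 n1 n3 n4 n5
    have u4 := bt fun t => g6718 n7 u3 t
    have u5 := bf fun t => g6432 t n0 u3
    have u6 := bf fun t => g833 t u4
    have u7 := bt fun t => g6446 u0 u4 t
    have u8 := bt fun t => g6636 g6637 u5 t
    have u9 := bf fun t => g1376 t u7
    exact g6440 u8 u6 u9
  have s6759 : T.alt p a b r s = false → T.alt p a b r c = false → T.alt p a c b r = false → T.bfo p a b s c = true → False := fun n0 n1 n2 n3 => by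
    have u0 := bt fun t => g6636 g6637 n0 t
    have u1 := bf fun t => g6393 n0 n1 t
    have u2 := bf fun t => g109 t u0
    have u3 := bt fun t => g6408 u0 n2 t
    have u4 := bt fun t => g6709 n3 u1 t
    have u5 := bt fun t => g6414 u2 u4 t
    exact g1917 u3 u5
  have s6761 : T.alt p a c b r = true → T.bfo p a b c r = true → False := fun n0 n1 => by
    have u0 := bf fun t => g289 t n0
    have u1 := bf fun t => g290 t n0
    exact g6705 n1 u0 u1
  have s6762 : T.alt p a b r c = false → T.X p r c d = false → T.bfo p a b c r = true → T.bfo p a b s c = true → T.bfo p a b d r = true → T.bfo p a b s d = true → False := fun n0 n1 n2 n3 n4 n5 => by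
    have u0 := bf fun t => s6756 t n4
    have u1 := bf fun t => s6761 t n2
    have u2 := bf fun t => g6489 u1 u0 t
    have u3 := bt fun t => g6705 n2 n0 t
    have u4 := bt fun t => s6759 t n0 u1 n3
    have u5 := bf fun t => g107 u4 t
    have u6 := bf fun t => g108 u4 t
    have u7 := bt fun t => g6392 u4 n0 t
    have u8 := bt fun t => g6634 g6637 u4 t
    have u9 := bt fun t => g6398 u5 u3 t
    have u10 := bf fun t => g6449 u6 u0 t
    have u11 := bf fun t => g651 u7 t
    have u12 := bf fun t => g15 u8 t
    have u13 := bf fun t => g1194 u9 t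
    have u14 := bf fun t => g6413 u5 u11 t
    have u15 := bf fun t => g6720 u13 t
    have u16 := bf fun t => g6446 u0 t u15
    have u17 := bt fun t => g6718 n5 t u16
    have u18 := bt fun t => g6716 n5 u17 t
    have u19 := bf fun t => g6431 u4 t u17
    have u20 := bt fun t => g6468 u17 t u10
    have u21 := bf fun t => g25 t u18
    have u22 := bf fun t => g27 u18 t
    have u23 := bf fun t => s6758 u19 u3 n0 t n1 n3 n4 n5
    have u24 := bf fun t => g1480 u20 u8 t u22
    have u25 := bt fun t => g2278 u2 u23 t
    have u26 := bt fun t => g6614 u14 u25 t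
    have u27 := bf fun t => g2689 u26 t n1 g6638
    have u28 := bt fun t => g1447 u20 u12 u24 u21 u27 t
    exact g4032 u8 u24 u22 u27 u28
  have s6763 : T.alt p a b r s = true → T.X p c a r = true → T.alt p a b r c = true → T.alt p a c b r = false → T.bfo p a b s c = true → False := fun n0 n1 n2 n3 n4 => by
    have u0 := bf fun t => g357 n2 w6723 n1 t
    have u1 := bf fun t => g18 t n1
    have u2 := bf fun t => g377 n2 w6722 u1 t u0
    have u3 := bf fun t => g17 t n1
    have u4 := bf fun t => g107 n0 t
    have u5 := bt fun t => g197 n0 g6631 g6632 t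
    have u6 := bf fun t => g6391 n0 n2 t
    have u7 := bt fun t => g6634 g6637 n0 t
    have u8 := bf fun t => g62 u5 t
    have u9 := bt fun t => g6709 n4 u6 t
    have u10 := bf fun t => g15 u7 t
    have u11 := bt fun t => g185 n0 w6725 u7 t u8
    have u12 := bt fun t => g6406 n3 u9 t
    have u13 := bt fun t => g6414 u4 u9 t
    have u14 := bf fun t => g1358 u12 u10 n1 t
    have u15 := bf fun t => g1964 u13 u11 u2 t
    have u16 := bf fun t => g1324 u12 u3 u1 u14 t
    have u17 := bf fun t => g814 u9 w6724 w6725 t u15
    have u18 := bt fun t => g1330 u12 u7 u17 u16 t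
    exact g3924 u10 n1 u17 u16 u18
  have s6764 : T.alt p b d r c = true → v153 = false → T.X p c a b = false → T.X a d b r = false → T.X p d r s = false → T.X p r a d = false → T.alt p a s c d = false → T.alt p a b r d = true → T.X p s r c = true → T.alt p a d r s = false → T.alt p b s r c = false → T.X p a r c = false → T.alt p a b r c = true → T.X p r c d = false → False := fun n0 n1 n2 n3 n4 n5 n6 n7 n8 n9 n10 n11 n12 n13 => by
    have u0 := bf fun t => g558 n7 w6722 n5 t n3
    have u1 := bf fun t => g551 n7 w6722 t n5 n3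
    have u2 := bf fun t => g2281 t n0
    have u3 := bf fun t => g6499 n12 t n0
    have u4 := bt fun t => g6614 n10 n0 t
    have u5 := bt fun t => g6504 n7 t u2
    have u6 := bf fun t => g6565 n9 u3 t
    have u7 := bt fun t => g2663 u4 n4 n13 g6638 t
    have u8 := bf fun t => g6651 t n6 u6
    have u9 := bf fun t => g103 u7 t
    have u10 := bf fun t => g6654 t u8
    have u11 := bf fun t => g2672 u4 n8 t u9
    have u12 := bf fun t => g6663 t n1 u10
    have u13 := bt fun t => g6667 g6670 u12 t
    have u14 := bt fun t => g6660 u13 t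
    have u15 := bf fun t => g3747 n2 u1 t u14 g6639
    have u16 := bt fun t => g2440 n0 t u14 n13 u11
    have u17 := bt fun t => g2421 n0 u0 u14 n13 t
    have u18 := bf fun t => g1584 u5 n11 n5 u15 u11 t
    have u19 := bt fun t => g381 n12 g6631 u16 t
    exact g5765 u19 n3 g6639 u18 u17
  have s6765 : T.X p r c d = false → T.bfo p a b c r = true → T.bfo p a b s c = true → T.bfo p a b d r = true → T.bfo p a b s d = true → False := fun n0 n1 n2 n3 n4 => by
    have u0 := bf fun t => s6756 t n3
    have u1 := bf fun t => s6761 t n1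
    have u2 := bf fun t => g6489 u1 u0 t
    have u3 := bt fun t => s6762 t n0 n1 n2 n3 n4
    have u4 := bf fun t => g288 u3 t
    have u5 := bt fun t => g6703 n1 u3 t
    have u6 := bf fun t => g17 t u5
    have u7 := bf fun t => g18 t u5
    have u8 := bf fun t => g357 u3 w6723 u5 t
    have u9 := bf fun t => g370 u3 w6722 t u7 u8
    have u10 := bf fun t => g377 u3 w6722 u7 t u8
    have u11 := bf fun t => s6763 t u5 u3 u1 n2
    have u12 := bt fun t => g6636 g6637 u11 t
    have u13 := bt fun t => g6394 u11 u3 t
    have u14 := bf fun t => g109 t u12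
    have u15 := bt fun t => g6448 u12 u0 t
    have u16 := bt fun t => g6408 u12 u1 t
    have u17 := bf fun t => g650 u13 t
    have u18 := bt fun t => g6707 n2 u13 t
    have u19 := bf fun t => g2098 u15 t
    have u20 := bf fun t => g2099 u15 t
    have u21 := bf fun t => g1917 u16 t
    have u22 := bt fun t => g6400 u12 u17 t
    have u23 := bf fun t => g22 t u18
    have u24 := bf fun t => g24 u18 t
    have u25 := bf fun t => g758 u13 u9 u18 t
    have u26 := bf fun t => g6454 u14 t u19
    have u27 := bf fun t => g6462 u11 t u20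
    have u28 := bt fun t => g1239 u22 u6 u7 u18 t
    have u29 := bt fun t => g6718 n4 t u26
    have u30 := bf fun t => g49 t u28
    have u31 := bf fun t => g51 u28 t
    have u32 := bf fun t => g3950 u5 u18 u28 t
    have u33 := bf fun t => g831 u29 t
    have u34 := bt fun t => g6716 n4 u29 t
    have u35 := bt fun t => g6433 u11 t u29
    have u36 := bt fun t => g1214 u22 t u5 u30 u32
    have u37 := bf fun t => g3882 t u5 u23 u31 u32
    have u38 := bf fun t => g3866 t u5 u24 u30 u32
    have u39 := bt fun t => g6440 u12 u33 t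
    have u40 := bf fun t => g6517 u17 u33 t
    have u41 := bf fun t => g27 u34 t
    have u42 := bt fun t => g6712 n3 u35 t
    have u43 := bt fun t => g271 u12 w6722 w6723 u36 t
    have u44 := bt fun t => g1216 u22 u37 u7 u18 t
    have u45 := bf fun t => g1402 u39 t u42
    have u46 := bf fun t => g1387 u39 u37 u38 u41 t
    have u47 := bf fun t => g538 u35 w6723 u42 t
    have u48 := bf fun t => g2927 g6631 u36 u43 t
    have u49 := bf fun t => g2015 u16 u43 u10 u25 u30 t
    have u50 := bf fun t => g5409 u48 u8 t u44 u49
    have u51 := bf fun t => g6641 t u23 u50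
    have u52 := bf fun t => g740 u13 g6632 t u50
    have u53 := bf fun t => g6645 t u51 u25
    have u54 := bf fun t => s6764 t u53 u52 u47 u46 u45 u40 u35 u28 u27 u21 u6 u3 n0
    have u55 := bt fun t => g2278 u2 t u54
    have u56 := bf fun t => g6689 t u2 u54
    have u57 := bt fun t => g6493 u4 t u55
    exact s6754 u57 u56 n0 n1 n2 n3 n4
  have s6766 : T.alt p a b r c = true → T.bfo p a b c r = true → T.bfo p a b s c = true → T.bfo p a b d r = true → T.bfo p a b s d = true → False := fun n0 n1 n2 n3 n4 => by
    have u0 := bt fun t => s6765 t n1 n2 n3 n4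
    have u1 := bf fun t => s6761 t n1
    have u2 := bf fun t => s6756 t n3
    have u3 := bt fun t => g6703 n1 n0 t
    have u4 := bf fun t => g17 t u3
    have u5 := bf fun t => g18 t u3
    have u6 := bf fun t => s6763 t u3 n0 u1 n2
    have u7 := bt fun t => g6636 g6637 u6 t
    have u8 := bt fun t => g6394 u6 n0 t
    have u9 := bf fun t => g109 t u7
    have u10 := bt fun t => g6448 u7 u2 t
    have u11 := bf fun t => g650 u8 t
    have u12 := bt fun t => g6707 n2 u8 t
    have u13 := bf fun t => g2098 u10 t
    have u14 := bt fun t => g6400 u7 u11 t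
    have u15 := bf fun t => g22 t u12
    have u16 := bf fun t => g24 u12 t
    have u17 := bf fun t => g6454 u9 t u13
    have u18 := bt fun t => g1239 u14 u4 u5 u12 t
    have u19 := bt fun t => g6718 n4 t u17
    have u20 := bf fun t => g49 t u18
    have u21 := bf fun t => g51 u18 t
    have u22 := bf fun t => g3950 u3 u12 u18 t
    have u23 := bf fun t => g831 u19 t
    have u24 := bt fun t => g6716 n4 u19 t
    have u25 := bt fun t => g6433 u6 t u19
    have u26 := bf fun t => g3882 t u3 u15 u21 u22
    have u27 := bf fun t => g3866 t u3 u16 u20 u22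
    have u28 := bt fun t => g6440 u7 u23 t
    have u29 := bf fun t => g6517 u11 u23 t
    have u30 := bf fun t => g27 u24 t
    have u31 := bt fun t => g6712 n3 u25 t
    have u32 := bt fun t => g1216 u14 u26 u5 u12 t
    have u33 := bf fun t => g1389 u28 t u31
    have u34 := bf fun t => g1402 u28 t u31
    have u35 := bt fun t => g1420 u28 u33 u34 u24 t
    have u36 := bf fun t => g4286 u3 u31 t u0
    have u37 := bf fun t => g5301 u18 u35 u0 t
    have u38 := bf fun t => g1416 u28 u27 u33 u30 u35 t
    have u39 := bf fun t => g4232 u5 u33 u36 u0 t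
    have u40 := bf fun t => g6125 u32 u38 u39 t u37
    have u41 := bf fun t => g1876 t u16 u36 g6638 u40
    have u42 := bf fun t => g1758 t u30 u36 g6638 u40
    exact g1735 u29 u42 u41
  have s6767 : T.X p r a d = false → T.alt p a r s d = true → T.X p s a d = true → T.X p r a s = true → False := fun n0 n1 n2 n3 => by
    have u0 := bf fun t => g15 n3 t
    have u1 := bf fun t => g13 t n3
    have u2 := bf fun t => g27 n2 t
    have u3 := bf fun t => g1480 n1 n3 t u2
    have u4 := bf fun t => g1446 n1 u1 u0 u3 t
    have u5 := bt fun t => g1452 n1 n0 n2 u4 t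
    exact g4083 n3 n0 u2 u4 u5
  have s6768 : v160 = false → T.X a c r s = false → T.X p a r c = false → T.X p c b s = false → T.X b s r c = false → T.X p s a c = true → T.alt p a b s c = true → T.X a b r s = true → T.alt p a r b c = true → False := fun n0 n1 n2 n3 n4 n5 n6 n7 n8 => by
    have u0 := bf fun t => g6674 n0 n2 t
    have u1 := bt fun t => s6739 n2 t n8 n0
    have u2 := bf fun t => g5400 n7 u0 t n1 n4
    have u3 := bf fun t => g9 t u1
    exact g728 n6 u3 n5 n3 u2
  have s6769 : T.alt p a d r c = false → v161 = true → T.alt p a r c d = false → T.alt p a b r c = false → T.lto p r c d a b = false → T.alt p b r c d = false → False := fun n0 n1 n2 n3 n4 n5 => by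
    have u0 := bf fun t => g6501 n3 n0 t
    have u1 := bf fun t => g6682 t n2 n0
    have u2 := bf fun t => g6689 t n5 u0
    have u3 := bf fun t => g6685 t u1
    have u4 := bf fun t => g6692 t u2
    have u5 := bt fun t => g6695 t n1 u3
    exact g6699 n4 u5 u4
  have s6770 : v165 = false → T.bfo p c d b r = true → T.alt p a d b c = true → T.alt p b d r c = true → T.X p r b c = true → T.X p b a c = true → v161 = true → T.X p c b r = false → T.X p r c d = true → False := fun n0 n1 n2 n3 n4 n5 n6 n7 n8 => by
    have u0 := bf fun t => g6701 n8 t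
    have u1 := bf fun t => g55 n8 t
    have u2 := bf fun t => g6690 n0 t n1
    have u3 := bf fun t => g6699 u0 t n0
    have u4 := bt fun t => g2419 n3 n7 u2 n8 t
    have u5 := bt fun t => g6695 u3 n6 t
    have u6 := bf fun t => g97 u4 t
    have u7 := bt fun t => g6684 u5 t
    have u8 := bt fun t => g2416 n3 n4 t u1 u6
    have u9 := bf fun t => g29 u7 t
    exact g1179 n2 n5 u9 u8
  have s6771 : T.X p a r c = false → T.alt p a r c d = false → T.X p c b s = false → T.X b s r c = false → T.X p s a c = true → T.alt p a r s c = true → T.X p r a s = true → T.alt p a b s c = true → T.X a b r s = true → T.alt p a b r c = false → T.X p r c d = true → T.bfo p a b c r = true → T.alt p a d b r = false → False := fun n0 n1 n2 n3 n4 n5 n6 n7 n8 n9 n10 n11 n12 => by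
    have u0 := bf fun t => g15 n6 t
    have u1 := bf fun t => g13 t n6
    have u2 := bf fun t => g24 n4 t
    have u3 := bf fun t => g1299 n5 n6 t u2
    have u4 := bf fun t => g1265 n5 u1 u0 u3 t
    have u5 := bt fun t => g6705 n11 n9 t
    have u6 := bf fun t => g301 u5 w6722 w6723 u3 t
    have u7 := bf fun t => g22 t n4
    have u8 := bf fun t => g650 n7 t
    have u9 := bt fun t => g6416 u5 u8 t
    have u10 := bf fun t => g6701 n10 t
    have u11 := bf fun t => s6761 t n11
    have u12 := bf fun t => g6489 u11 n12 t
    have u13 := bt fun t => g1278 n5 n6 n0 u2 t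
    have u14 := bf fun t => g79 t u13
    have u15 := bf fun t => g81 u13 t
    have u16 := bt fun t => g1266 n5 u0 u3 u7 t u14
    have u17 := bt fun t => g1271 n5 t n4 u4 u15
    have u18 := bf fun t => g49 u16 t
    have u19 := bf fun t => g2062 u9 t n2 u18 n3
    have u20 := bt fun t => s6768 t u15 n0 n2 n3 n4 n7 n8 u5
    have u21 := bt fun t => g6677 t u20 u19
    have u22 := bt fun t => g6672 u20 n0 t
    have u23 := bf fun t => g65 u22 t
    have u24 := bf fun t => g346 u5 g6631 t n0 u19 u22
    have u25 := bt fun t => g311 u5 w6722 t u17 u23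
    have u26 := bt fun t => g3153 g6631 u25 u17 u19 t u22
    have u27 := bt fun t => s6769 t u21 n1 n9 u10 u12
    have u28 := bt fun t => g6502 n9 u27 t
    have u29 := bt fun t => g6485 n12 t u27
    have u30 := bt fun t => g6681 t n1 u27
    have u31 := bt fun t => g6688 t u12 u28
    have u32 := bt fun t => s6770 t u31 u29 u28 u26 u25 u21 u6 n10
    have u33 := bt fun t => g6691 u32 t
    have u34 := bt fun t => g6700 u10 t u32
    have u35 := bt fun t => g1152 u29 u24 t u33 g6639
    have u36 := bf fun t => s6742 t u31 u34 n11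
    exact g6683 u36 u35 u30
  have s6772 : T.bfo p a b c r = true → T.bfo p a b s c = true → T.bfo p a b d r = true → T.bfo p a b s d = true → False := fun n0 n1 n2 n3 => by
    have u0 := bf fun t => s6756 t n2
    have u1 := bf fun t => s6761 t n0
    have u2 := bf fun t => g6489 u1 u0 t
    have u3 := bt fun t => s6765 t n0 n1 n2 n3
    have u4 := bf fun t => s6766 t n0 n1 n2 n3
    have u5 := bt fun t => g6705 n0 u4 t
    have u6 := bt fun t => s6759 t u4 u1 n1
    have u7 := bf fun t => g107 u6 t
    have u8 := bt fun t => g197 u6 g6631 g6632 t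
    have u9 := bt fun t => g6392 u6 u4 t
    have u10 := bt fun t => g6634 g6637 u6 t
    have u11 := bt fun t => g6398 u7 u5 t
    have u12 := bf fun t => g62 u8 t
    have u13 := bf fun t => g650 u9 t
    have u14 := bt fun t => g6707 n1 u9 t
    have u15 := bf fun t => g13 t u10
    have u16 := bf fun t => g15 u10 t
    have u17 := bt fun t => g185 u6 w6725 u10 t u12
    have u18 := bf fun t => g215 u6 w6725 u10 t
    have u19 := bf fun t => g2930 g6632 u10 t u8
    have u20 := bf fun t => g1194 u11 t
    have u21 := bt fun t => g6416 u5 u13 t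
    have u22 := bf fun t => g24 u14 t
    have u23 := bf fun t => g6720 u20 t
    have u24 := bf fun t => g1299 u11 u10 t u22
    have u25 := bf fun t => g6446 u0 t u23
    have u26 := bf fun t => g301 u5 w6722 w6723 u24 t
    have u27 := bf fun t => g1265 u11 u15 u16 u24 t
    have u28 := bt fun t => g6718 n3 t u25
    have u29 := bf fun t => g2045 u21 u17 u26 t
    have u30 := bf fun t => g2081 u21 u18 u19 t u27
    have u31 := bf fun t => g6511 u9 u28 t
    have u32 := bf fun t => g6510 u31 t u2
    have u33 := bt fun t => s6771 t u32 u30 u29 u14 u11 u10 u9 u8 u4 u3 n0 u0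
    have u34 := bf fun t => g16 u33 t
    have u35 := bt fun t => g1271 u11 u34 u14 u27 t
    exact g3913 u10 u34 u22 u27 u35
  have s6773 : T.alt p a b r s = true → T.alt p a r b d = true → T.alt p a c b r = true → T.alt p a b r c = false → False := fun n0 n1 n2 n3 => by
    have u0 := bf fun t => g107 n0 t
    have u1 := bt fun t => g6392 n0 n3 t
    have u2 := bt fun t => g6438 u0 n1 t
    have u3 := bf fun t => g651 u1 t
    have u4 := bf fun t => g1375 u2 t
    have u5 := bt fun t => g6404 n2 u3 t
    exact g6721 u5 u4
  have s6774 : T.alt p a b c d = false → T.alt p a r b c = false → T.alt p a b r c = false → T.alt p a d b r = false → T.bfo p a b s d = true → False := fun n0 n1 n2 n3 n4 => by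
    have u0 := bt fun t => g287 n2 n1 t
    have u1 := bt fun t => g6488 u0 n3 t
    have u2 := bt fun t => g6509 n0 t u1
    have u3 := bf fun t => g6474 n2 t n0
    have u4 := bt fun t => g6477 n1 t u2
    have u5 := bf fun t => s6773 t u4 u0 n2
    have u6 := bt fun t => g6636 g6637 u5 t
    have u7 := bf fun t => g6433 u5 u3 t
    have u8 := bf fun t => g109 t u6
    have u9 := bt fun t => g6448 u6 n3 t
    have u10 := bt fun t => g6718 n4 u7 t
    have u11 := bf fun t => g2098 u9 t
    exact g6454 u8 u10 u11
  have s6775 : T.alt p a b r s = false → T.X p a c d = false → T.X p c a d = false → T.alt p a b r d = true → T.alt p a c b d = false → T.alt p a b r c = false → T.bfo p a b s c = true → T.bfo p a b s d = true → False := fun n0 n1 n2 n3 n4 n5 n6 n7 => by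
    have u0 := bf fun t => g6393 n0 n5 t
    have u1 := bt fun t => g6434 n0 n3 t
    have u2 := bt fun t => g6709 n6 u0 t
    have u3 := bt fun t => g6716 n7 u1 t
    have u4 := bt fun t => g6520 u2 n4 t
    have u5 := bf fun t => g27 u3 t
    have u6 := bt fun t => g1755 u4 u3 n2 w6727 t
    have u7 := bt fun t => g1758 u4 u5 n1 g6638 t
    exact g6062 u7 u6
  have s6776 : T.X p a c d = false → T.X p c a d = false → T.X p d a r = true → T.alt p a b r d = true → T.alt p a c b d = false → T.alt p a d b c = false → T.alt p a b r c = false → T.bfo p a b s c = true → T.alt p a d b r = false → T.bfo p a b s d = true → False := fun n0 n1 n2 n3 n4 n5 n6 n7 n8 n9 => by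
    have u0 := bt fun t => s6775 t n0 n1 n3 n4 n6 n7 n9
    have u1 := bt fun t => g6392 u0 n6 t
    have u2 := bt fun t => g6634 g6637 u0 t
    have u3 := bf fun t => g6431 u0 n3 t
    have u4 := bt fun t => g6707 n7 u1 t
    have u5 := bf fun t => g15 u2 t
    have u6 := bt fun t => g6718 n9 u3 t
    have u7 := bf fun t => g22 t u4
    have u8 := bf fun t => g24 u4 t
    have u9 := bt fun t => g6524 u6 n5 t
    have u10 := bt fun t => g6446 n8 u6 t
    have u11 := bt fun t => g1876 u9 u8 n0 g6638 t
    have u12 := bf fun t => g1539 u10 u5 n2 t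
    have u13 := bf fun t => g89 u11 t
    exact g1868 u9 u7 u12 n1 w6727 u13
  have s6777 : T.alt p a b r s = true → T.X p d a b = false → T.X p d a r = true → T.alt p a b r d = true → T.alt p a d b r = false → T.bfo p a b s d = true → False := fun n0 n1 n2 n3 n4 n5 => by
    have u0 := bf fun t => g538 n3 w6723 n2 t
    have u1 := bf fun t => g21 t n2
    have u2 := bf fun t => g551 n3 w6722 t u1 u0
    have u3 := bt fun t => g6634 g6637 n0 t
    have u4 := bf fun t => g6431 n0 n3 t
    have u5 := bf fun t => g15 u3 t
    have u6 := bt fun t => g6718 n5 u4 t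
    have u7 := bt fun t => g6446 n4 u6 t
    have u8 := bt fun t => g989 u6 g6632 u2 n1 t
    exact g1539 u7 u5 n2 u8
  have s6778 : T.X p b r c = false → v161 = false → T.X p c a b = false → T.X p a r c = false → T.alt p a c b r = true → False := fun n0 n1 n2 n3 n4 => by
    have u0 := bt fun t => g427 n4 g6631 n2 n0 t
    have u1 := bf fun t => g6677 n1 t n0
    exact g6674 u1 n3 u0
  have s6779 : v161 = false → T.X p c a b = false → T.alt p a c b r = true → T.X p a r c = false → False := fun n0 n1 n2 n3 => by
    have u0 := bt fun t => s6778 t n0 n1 n3 n2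
    have u1 := bf fun t => g466 n2 g6631 n1 n3 u0 t
    have u2 := bt fun t => g6678 n0 t u0
    exact g6672 u2 n3 u1
  have s6780 : T.X p c a r = false → T.X p r c d = true → T.X p d a r = true → T.alt p a b c d = true → T.alt p a d b c = false → T.alt p a c b r = true → T.alt p a b r c = false → T.bfo p a b s c = true → T.alt p a d b r = false → T.bfo p a b s d = true → False := fun n0 n1 n2 n3 n4 n5 n6 n7 n8 n9 => by
    have u0 := bf fun t => g6701 n1 t
    have u1 := bf fun t => g56 n1 t
    have u2 := bt fun t => g6488 n5 n8 t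
    have u3 := bf fun t => g2280 u2 t
    have u4 := bf fun t => g6502 n6 t u3
    have u5 := bf fun t => g6507 n3 t u2
    have u6 := bf fun t => g6682 t u5 u4
    have u7 := bf fun t => g6685 t u6
    have u8 := bf fun t => g1012 n3 t
    have u9 := bt fun t => g6480 n5 u8 t
    have u10 := bt fun t => g6473 n6 t n3
    have u11 := bf fun t => g1565 u9 n0 n2 t
    have u12 := bf fun t => g4227 n0 n2 t u1 u11
    have u13 := bf fun t => g1582 u9 t u12 u1 u11
    have u14 := bt fun t => s6776 t u12 n2 u10 u8 n4 n6 n7 n8 n9
    have u15 := bf fun t => g1103 n3 u14 t g6639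
    have u16 := bf fun t => g1104 n3 t u14 g6639
    have u17 := bf fun t => g6691 t u15
    have u18 := bf fun t => g6699 u0 t u17
    have u19 := bf fun t => g6695 u18 t u7
    exact s6779 u19 u16 n5 u13
  have s6781 : T.X p r c d = true → T.X p d a r = true → T.alt p a b c d = true → T.alt p a d b c = false → T.alt p a c b r = true → T.alt p a b r c = false → T.bfo p a b s c = true → T.alt p a d b r = false → T.bfo p a b s d = true → False := fun n0 n1 n2 n3 n4 n5 n6 n7 n8 => by
    have u0 := bf fun t => g21 t n1
    have u1 := bf fun t => g20 t n1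
    have u2 := bf fun t => g1012 n2 t
    have u3 := bt fun t => g6480 n4 u2 t
    have u4 := bt fun t => g6473 n5 t n2
    have u5 := bf fun t => g55 n0 t
    have u6 := bt fun t => s6780 t n0 n1 n2 n3 n4 n5 n6 n7 n8
    have u7 := bf fun t => g4286 u6 n1 t n0
    have u8 := bf fun t => g1601 u3 u1 u0 t u5
    exact s6776 u7 u8 n1 u4 u2 n3 n5 n6 n7 n8
  have s6782 : T.X b s r c = true → T.X a b r s = false → T.X p r s c = false → T.X a c r s = true → T.X p r b s = false → T.X p a s c = false → T.X a c b r = false → T.X p b r c = false → v153 = true → False := fun n0 n1 n2 n3 n4 n5 n6 n7 n8 => by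
    have u0 := bf fun t => g91 t n0
    have u1 := bf fun t => g4565 n4 n7 t n2 n0
    have u2 := bf fun t => g5409 n1 n6 t n3 u0
    have u3 := bt fun t => g6645 n8 t u1
    exact g6641 u3 n5 u2
  have s6783 : T.X p a c d = false → T.X p d a r = true → T.alt p a b c d = true → T.alt p a d b c = false → T.alt p a c b r = true → T.alt p a b r c = false → T.bfo p a b s c = true → T.alt p a d b r = false → T.bfo p a b s d = true → False := fun n0 n1 n2 n3 n4 n5 n6 n7 n8 => by
    have u0 := bf fun t => s6781 t n1 n2 n3 n4 n5 n6 n7 n8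
    have u1 := bt fun t => g6473 n5 t n2
    have u2 := bf fun t => g538 u1 w6723 n1 t
    have u3 := bf fun t => g21 t n1
    have u4 := bf fun t => g551 u1 w6722 t u3 u2
    have u5 := bf fun t => g20 t n1
    have u6 := bf fun t => g1012 n2 t
    have u7 := bt fun t => g6480 n4 u6 t
    have u8 := bt fun t => g6488 n4 n7 t
    have u9 := bf fun t => g2280 u8 t
    have u10 := bf fun t => g6653 t n0
    have u11 := bt fun t => s6776 n0 t n1 u1 u6 n3 n5 n6 n7 n8
    have u12 := bf fun t => g30 u11 t
    have u13 := bf fun t => g1120 n2 u4 u11 t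
    have u14 := bt fun t => g1601 u7 u5 u3 u11 t
    have u15 := bf fun t => g6660 t u13
    have u16 := bf fun t => g4290 n1 u11 u14 t
    have u17 := bt fun t => g6667 g6670 t u15
    have u18 := bt fun t => g1576 u7 t n1 u0 u16
    have u19 := bf fun t => g4206 t n1 u12 u0 u16
    have u20 := bt fun t => g6663 u17 t u10
    have u21 := bt fun t => g452 n4 w6722 w6723 u18 t
    have u22 := bf fun t => g35 t u21
    have u23 := bf fun t => g3097 g6631 u18 u21 t
    have u24 := bf fun t => g3017 g6631 t u19 u22 u23
    have u25 := bt fun t => g427 n4 g6631 t u22 u23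
    have u26 := bf fun t => g448 n4 w6722 u24 u19 u21 t
    have u27 := bf fun t => g1102 n2 u25 t g6639
    have u28 := bf fun t => s6777 t u27 n1 u1 n7 n8
    have u29 := bt fun t => g6636 g6637 u28 t
    have u30 := bf fun t => g6393 u28 n5 t
    have u31 := bt fun t => g6434 u28 u1 t
    have u32 := bf fun t => g109 t u29
    have u33 := bt fun t => g6709 n6 u30 t
    have u34 := bf fun t => g831 u31 t
    have u35 := bt fun t => g6716 n8 u31 t
    have u36 := bf fun t => g652 t u33
    have u37 := bt fun t => g6414 u32 u33 t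
    have u38 := bt fun t => g6520 u33 u6 t
    have u39 := bt fun t => g6440 u29 u34 t
    have u40 := bf fun t => g25 t u35
    have u41 := bf fun t => g27 u35 t
    have u42 := bt fun t => g6400 u29 u36 t
    have u43 := bt fun t => g6612 u37 u9 t
    have u44 := bt fun t => g1758 u38 u41 n0 g6638 t
    have u45 := bt fun t => g1420 u39 u5 u3 u35 t
    have u46 := bf fun t => g2689 u43 t u0 g6638
    have u47 := bf fun t => g88 u44 t
    have u48 := bf fun t => g4405 t u41 n0 w6727 u44
    have u49 := bf fun t => g54 u45 t
    have u50 := bf fun t => g4120 n1 u35 u45 t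
    have u51 := bf fun t => g4036 t n1 u41 u46 u50
    have u52 := bt fun t => g1395 u39 t n1 u46 u50
    have u53 := bt fun t => g1750 u38 t u40 u12 w6726 u47
    have u54 := bf fun t => g4052 t n1 u40 u49 u50
    have u55 := bt fun t => g2663 u43 u49 u0 g6638 t
    have u56 := bf fun t => g238 u29 w6724 w6725 u51 t
    have u57 := bf fun t => g1416 u39 u51 u5 u41 u45 t
    have u58 := bt fun t => g271 u29 w6722 w6723 u52 t
    have u59 := bt fun t => g248 u29 w6723 w6724 u52 t
    have u60 := bt fun t => g1216 u42 u54 u19 u53 t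
    have u61 := bf fun t => g104 u55 t
    have u62 := bf fun t => g5255 t u49 u0 w6727 u55
    have u63 := bf fun t => g6086 t u57 u16 u44 u61
    have u64 := bf fun t => g2927 g6631 u52 u58 t
    have u65 := bf fun t => s6782 t u64 u62 u60 u56 u48 u26 u22 u20
    have u66 := bf fun t => g5427 u59 u23 t u63 u65
    have u67 := bf fun t => g6641 t u48 u66
    have u68 := bf fun t => g806 u33 u25 t u66
    exact g6645 u20 u67 u68
  have s6784 : T.alt p a b r c = false → T.bfo p a b s c = true → T.bfo p a b d r = true → T.bfo p a b s d = true → False := fun n0 n1 n2 n3 => by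
    have u0 := bf fun t => s6772 t n1 n2 n3
    have u1 := bf fun t => s6756 t n2
    have u2 := bf fun t => g6704 u0 n0 t
    have u3 := bt fun t => g287 n0 u2 t
    have u4 := bt fun t => g6488 u3 u1 t
    have u5 := bf fun t => g2279 u4 t
    have u6 := bf fun t => g6494 u2 t u5
    have u7 := bt fun t => s6774 t u2 n0 u1 n3
    have u8 := bf fun t => g1012 u7 t
    have u9 := bt fun t => g6473 n0 t u7
    have u10 := bt fun t => g6480 u3 u8 t
    have u11 := bt fun t => g6712 n2 u9 t
    have u12 := bf fun t => g20 t u11
    have u13 := bf fun t => s6781 t u11 u7 u6 u3 n0 n1 u1 n3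
    have u14 := bt fun t => s6783 t u11 u7 u6 u3 n0 n1 u1 n3
    have u15 := bf fun t => g29 u14 t
    have u16 := bf fun t => g1104 u7 t u14 g6639
    have u17 := bt fun t => g1598 u10 u12 u14 u13 t
    have u18 := bt fun t => g1607 u10 u11 u14 t
    have u19 := bf fun t => g416 u3 g6631 u16 t
    have u20 := bf fun t => g85 u18 t
    have u21 := bt fun t => g4263 t u11 u15 u17 u20
    have u22 := bt fun t => g3072 g6631 u16 u21 t u19
    exact g459 u3 u21 u22 u19
  have s6785 : T.alt p a b r s = false → T.alt p a b r d = false → T.alt p a d b r = false → T.bfo p a b s d = true → False := fun n0 n1 n2 n3 => by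
    have u0 := bt fun t => g6636 g6637 n0 t
    have u1 := bf fun t => g6433 n0 n1 t
    have u2 := bf fun t => g109 t u0
    have u3 := bt fun t => g6448 u0 n2 t
    have u4 := bt fun t => g6718 n3 u1 t
    have u5 := bf fun t => g2098 u3 t
    exact g6454 u2 u4 u5
  have s6786 : T.alt p a b c d = true → T.alt p a b r c = true → T.bfo p a b s c = true → T.alt p a d b r = false → T.bfo p a b s d = true → False := fun n0 n1 n2 n3 n4 => by
    have u0 := bf fun t => g289 n1 t
    have u1 := bf fun t => g6489 u0 n3 t
    have u2 := bf fun t => g288 n1 t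
    have u3 := bt fun t => g6508 n0 t u1
    have u4 := bf fun t => g6471 n1 t n0
    have u5 := bt fun t => g6477 u2 t u3
    have u6 := bt fun t => s6785 t u4 n3 n4
    have u7 := bf fun t => g107 u6 t
    have u8 := bf fun t => g6391 u6 n1 t
    have u9 := bt fun t => g6438 u7 u5 t
    have u10 := bt fun t => g6709 n2 u8 t
    have u11 := bf fun t => g1375 u9 t
    have u12 := bt fun t => g6406 u0 u10 t
    exact g6721 u12 u11
  have s6787 : T.alt p a b r s = true → T.X p d a r = true → T.alt p a b r d = true → T.alt p a d b r = false → T.bfo p a b s d = true → False := fun n0 n1 n2 n3 n4 => by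
    have u0 := bf fun t => g538 n2 w6723 n1 t
    have u1 := bf fun t => g21 t n1
    have u2 := bf fun t => g558 n2 w6722 u1 t u0
    have u3 := bf fun t => g20 t n1
    have u4 := bf fun t => g107 n0 t
    have u5 := bt fun t => g197 n0 g6631 g6632 t
    have u6 := bt fun t => g6634 g6637 n0 t
    have u7 := bf fun t => g6431 n0 n2 t
    have u8 := bt fun t => s6777 n0 t n1 n2 n3 n4
    have u9 := bf fun t => g62 u5 t
    have u10 := bf fun t => g15 u6 t
    have u11 := bt fun t => g185 n0 w6725 u6 t u9
    have u12 := bf fun t => g2930 g6632 u6 t u5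
    have u13 := bt fun t => g6718 n4 u7 t
    have u14 := bt fun t => g559 n2 g6631 u8 t
    have u15 := bt fun t => g6446 n3 u13 t
    have u16 := bt fun t => g6454 u4 u13 t
    have u17 := bf fun t => g67 u14 t
    have u18 := bf fun t => g1539 u15 u10 n1 t
    have u19 := bf fun t => g2145 u16 u11 u2 t
    have u20 := bt fun t => g549 n2 w6723 n1 t u17
    have u21 := bf fun t => g1505 u15 u3 u1 u18 t
    have u22 := bf fun t => g37 t u20
    have u23 := bf fun t => g4731 u11 u2 u19 u21 t
    exact g2112 u16 u12 u22 u19 u21 u23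
  have s6788 : T.X p r c d = false → T.X p a c d = true → T.X p r a c = true → T.X p d a r = true → False := fun n0 n1 n2 n3 => by
    have u0 := bf fun t => g29 n1 t
    have u1 := bf fun t => g20 t n3
    have u2 := bt fun t => g4206 n2 n3 u0 n0 t
    have u3 := bt fun t => g4237 n2 u1 n1 n0 t
    exact g85 u2 u3
  have s6789 : T.X a b r d = true → T.X p d a b = false → T.X p d a r = true → T.alt p a b r d = true → False := fun n0 n1 n2 n3 => by
    have u0 := bf fun t => g20 t n2
    have u1 := bf fun t => g67 n0 t
    have u2 := bt fun t => g567 n3 g6631 n1 u0 t n0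
    have u3 := bt fun t => g549 n3 w6723 n2 t u1
    exact g37 u2 u3
  have s6790 : T.X a r b d = false → T.X p d a b = false → T.X p s b r = true → T.X p s r d = true → T.X p s a d = true → T.alt p b r s d = true → T.X p d a r = true → T.alt p a b r d = true → False := fun n0 n1 n2 n3 n4 n5 n6 n7 => by
    have u0 := bf fun t => g32 t n2
    have u1 := bf fun t => g538 n7 w6723 n6 t
    have u2 := bf fun t => g21 t n6
    have u3 := bf fun t => g551 n7 w6722 t u2 u1
    have u4 := bf fun t => g580 n7 t n6 n0
    have u5 := bt fun t => g549 n7 w6723 n6 t n0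
    have u6 := bf fun t => g3569 g6632 u4 u3 n1 n4 t
    have u7 := bf fun t => g4795 n2 u5 n3 t
    exact g2180 n5 u0 u5 u6 u7
  have s6791 : T.X p b r c = false → v161 = true → T.X p c a b = false → T.X p a r c = false → T.alt p a b r c = true → False := fun n0 n1 n2 n3 n4 => by
    have u0 := bf fun t => g386 n4 g6631 n2 n3 n0 t
    have u1 := bt fun t => g6676 n1 t n0
    exact g6672 u1 n3 u0
  have s6792 : v161 = true → T.X p c a b = false → T.alt p a b r c = true → T.X p a r c = false → False := fun n0 n1 n2 n3 => by
    have u0 := bt fun t => s6791 t n0 n1 n3 n2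
    have u1 := bt fun t => g381 n2 g6631 u0 t
    have u2 := bf fun t => g6675 n0 t u0
    exact g6674 u2 n3 u1
  have s6793 : T.X p c a b = false → v163 = false → T.bfo p c d b r = true → T.alt p a c b d = true → T.lto p r c d a b = false → T.X p a c d = true → T.X p a r c = false → T.alt p a b r c = true → False := fun n0 n1 n2 n3 n4 n5 n6 n7 => by
    have u0 := bt fun t => g1036 n3 n0 n5 t g6639
    have u1 := bt fun t => g6690 t u0 n2
    have u2 := bt fun t => g6700 n4 t u1
    have u3 := bt fun t => g6694 u2 t n1
    exact s6792 u3 n0 n7 n6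
  have s6794 : T.X p a c d = true → T.X p r a c = true → T.X p d a r = true → T.alt p a b c d = false → T.alt p a b r c = true → T.alt p a d b r = false → False := fun n0 n1 n2 n3 n4 n5 => by
    have u0 := bf fun t => g16 t n1
    have u1 := bf fun t => g21 t n2
    have u2 := bf fun t => g20 t n2
    have u3 := bf fun t => g289 n4 t
    have u4 := bf fun t => g6489 u3 n5 t
    have u5 := bf fun t => g6510 n3 t u4
    have u6 := bf fun t => g29 n0 t
    have u7 := bt fun t => s6788 t n0 n1 n2
    have u8 := bf fun t => g4319 n1 u2 u1 n0 u7 t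
    have u9 := bf fun t => g55 u7 t
    have u10 := bf fun t => g6701 u7 t
    have u11 := bf fun t => g1692 t n1 u6 u9 u8
    have u12 := bf fun t => g6486 n5 t u11
    have u13 := bt fun t => g6500 n4 u11 t
    have u14 := bf fun t => g6682 t u5 u11
    have u15 := bt fun t => g1011 n3 t u12
    have u16 := bt fun t => g6688 t u4 u13
    have u17 := bf fun t => g6685 t u14
    have u18 := bt fun t => s6793 t u17 u16 u15 u10 n0 u0 n4
    have u19 := bf fun t => g9 t u18
    have u20 := bt fun t => g378 n4 g6631 u18 t
    have u21 := bf fun t => g1050 u15 u18 t g6639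
    have u22 := bf fun t => g396 n4 u19 n1 t
    have u23 := bt fun t => g6674 t u0 u20
    have u24 := bf fun t => g6691 t u21
    have u25 := bt fun t => g6677 t u23 u22
    have u26 := bf fun t => g6699 u10 t u24
    exact g6695 u26 u25 u17
  have s6795 : T.X p c a b = true → T.X p a c d = false → T.X p d a b = false → T.X p b a d = false → T.X p d a r = true → T.alt p a b c d = false → T.X p c a r = false → T.alt p a d b r = false → False := fun n0 n1 n2 n3 n4 n5 n6 n7 => by
    have u0 := bf fun t => g1038 t n0 n2 n1 g6639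
    have u1 := bt fun t => g1011 n5 u0 t
    have u2 := bt fun t => g6486 n7 u1 t
    have u3 := bt fun t => g1170 u1 n0 n3 n2 t
    exact g1720 u2 n6 n4 u3
  have s6796 : T.X p b s c = false → v153 = true → T.X p c a b = false → T.X p a s c = false → T.alt p a b s c = true → False := fun n0 n1 n2 n3 n4 => by
    have u0 := bf fun t => g748 n4 g6632 n2 n3 n0 t
    have u1 := bt fun t => g6645 n1 t n0
    exact g6641 u1 n3 u0
  have s6797 : T.alt p a d b c = true → T.X p c a b = false → T.X p a c d = false → T.X p b s d = false → T.X p a s c = false → T.alt p a b s c = true → False := fun n0 n1 n2 n3 n4 n5 => by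
    have u0 := bf fun t => g6653 t n2
    have u1 := bf fun t => g650 n5 t
    have u2 := bt fun t => g6534 u1 n0 t
    have u3 := bf fun t => g1152 n0 n1 n2 t g6639
    have u4 := bf fun t => g6660 t u3
    have u5 := bt fun t => g6667 g6670 t u4
    have u6 := bt fun t => g6663 u5 t u0
    have u7 := bt fun t => s6796 t u6 n1 n4 n5
    have u8 := bf fun t => g40 u7 t
    have u9 := bf fun t => g2511 u2 u7 t w6727
    have u10 := bf fun t => g5101 u7 n3 u9 w6727 t
    exact g2474 u2 u8 n3 u9 w6726 u10
  have s6798 : T.bfo p a b s c = true → T.bfo p a b d r = true → T.bfo p a b s d = true → False := fun n0 n1 n2 => by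
    have u0 := bf fun t => s6756 t n1
    have u1 := bf fun t => s6772 t n0 n1 n2
    have u2 := bt fun t => s6784 t n0 n1 n2
    have u3 := bf fun t => g289 u2 t
    have u4 := bf fun t => g6702 u1 u2 t
    have u5 := bf fun t => g6489 u3 u0 t
    have u6 := bf fun t => s6786 t u2 n0 u0 n2
    have u7 := bt fun t => g6472 u2 t u6
    have u8 := bf fun t => g6510 u6 t u5
    have u9 := bt fun t => g6712 n1 u7 t
    have u10 := bf fun t => g20 t u9
    have u11 := bf fun t => g21 t u9
    have u12 := bf fun t => g538 u7 w6723 u9 t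
    have u13 := bf fun t => g551 u7 w6722 t u11 u12
    have u14 := bf fun t => g558 u7 w6722 u11 t u12
    have u15 := bf fun t => s6787 t u9 u7 u0 n2
    have u16 := bt fun t => g6636 g6637 u15 t
    have u17 := bt fun t => g6394 u15 u2 t
    have u18 := bt fun t => g6434 u15 u7 t
    have u19 := bt fun t => g6448 u16 u0 t
    have u20 := bf fun t => g650 u17 t
    have u21 := bf fun t => g651 u17 t
    have u22 := bt fun t => g6707 n0 u17 t
    have u23 := bf fun t => g831 u18 t
    have u24 := bt fun t => g6716 n2 u18 t
    have u25 := bt fun t => g6400 u16 u20 t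
    have u26 := bf fun t => g22 t u22
    have u27 := bt fun t => g6440 u16 u23 t
    have u28 := bf fun t => g25 t u24
    have u29 := bf fun t => g27 u24 t
    have u30 := bf fun t => g939 u18 u13 u24 t
    have u31 := bt fun t => g1420 u27 u10 u11 u24 t
    have u32 := bf fun t => g52 t u31
    have u33 := bf fun t => g54 u31 t
    have u34 := bf fun t => g4120 u9 u24 u31 t
    have u35 := bf fun t => g4052 t u9 u28 u33 u34
    have u36 := bt fun t => g1395 u27 t u9 u32 u34
    have u37 := bt fun t => g1397 u27 u35 u11 u24 t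
    have u38 := bt fun t => g1219 u25 u36 u4 u26 t
    have u39 := bt fun t => g271 u16 w6722 w6723 u36 t
    have u40 := bf fun t => g80 u38 t
    have u41 := bf fun t => g2927 g6631 u36 u39 t
    have u42 := bf fun t => g2196 u19 u39 u14 u30 u32 t
    have u43 := bt fun t => g1216 u25 u35 t u22 u40
    have u44 := bf fun t => g5579 u41 u12 t u37 u42
    have u45 := bf fun t => g16 t u43
    have u46 := bf fun t => g921 u18 g6632 t u44
    have u47 := bf fun t => s6794 t u43 u9 u6 u2 u0
    have u48 := bf fun t => s6795 t u47 u46 u13 u9 u6 u4 u0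
    have u49 := bf fun t => s6797 t u48 u47 u30 u26 u17
    have u50 := bf fun t => g6485 u0 u49 t
    have u51 := bt fun t => g1011 u6 t u49
    have u52 := bt fun t => g1554 u8 t u50
    have u53 := bt fun t => g6522 u21 u51 t
    have u54 := bf fun t => g1565 u52 u4 u9 t
    have u55 := bt fun t => g1758 u53 u29 u47 g6638 t
    have u56 := bf fun t => g1578 u52 u45 u11 t u54
    have u57 := bf fun t => g89 u55 t
    exact g1755 u53 u24 u56 w6727 u57
  have s6800 : T.alt p a d b c = true → T.X p a c d = false → T.X p b s d = false → T.alt p a d b s = false → T.alt p a b s c = true → T.X p c a b = false → False := fun n0 n1 n2 n3 n4 n5 => by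
    have u0 := bt fun t => g6526 n3 n0 t
    have u1 := bt fun t => s6797 n0 n5 n1 n2 t n4
    exact g1902 u0 u1 n1 g6638
  have s6801 : T.X p a c d = false → T.X p b s d = false → T.X p s a d = true → T.alt p a d b s = false → T.X p s a c = false → T.alt p a b s c = true → T.alt p a b c d = false → T.X p c a b = false → False := fun n0 n1 n2 n3 n4 n5 n6 n7 => by
    have u0 := bf fun t => g27 n2 t
    have u1 := bf fun t => g25 t n2
    have u2 := bf fun t => g651 n5 t
    have u3 := bf fun t => g4402 n4 u1 n0 g6638 t
    have u4 := bf fun t => s6800 t n0 n1 n3 n5 n7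
    have u5 := bt fun t => g1011 n6 t u4
    have u6 := bt fun t => g6522 u2 u5 t
    have u7 := bt fun t => g1758 u6 u0 n0 g6638 t
    have u8 := bt fun t => g1750 u6 n4 u1 t w6726 u3
    have u9 := bf fun t => g89 u7 t
    exact g4409 n4 n2 u8 w6727 u9
  have s6802 : T.alt p a b c d = false → T.X p c a b = false → T.alt p a b r c = true → T.bfo p a b d r = true → T.bfo p a b s d = true → False := fun n0 n1 n2 n3 n4 => by
    have u0 := bf fun t => s6756 t n3
    have u1 := bf fun t => g289 n2 t
    have u2 := bf fun t => g6489 u1 u0 t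
    have u3 := bf fun t => s6798 t n3 n4
    have u4 := bt fun t => g6472 n2 t n0
    have u5 := bf fun t => g6510 n0 t u2
    have u6 := bt fun t => g6712 n3 u4 t
    have u7 := bf fun t => g20 t u6
    have u8 := bf fun t => g21 t u6
    have u9 := bf fun t => g538 u4 w6723 u6 t
    have u10 := bf fun t => s6787 t u6 u4 u0 n4
    have u11 := bf fun t => g551 u4 w6722 t u8 u9
    have u12 := bf fun t => g558 u4 w6722 u8 t u9
    have u13 := bt fun t => g6636 g6637 u10 t
    have u14 := bt fun t => g6394 u10 n2 t
    have u15 := bt fun t => g6434 u10 u4 t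
    have u16 := bt fun t => g6448 u13 u0 t
    have u17 := bf fun t => g650 u14 t
    have u18 := bf fun t => g651 u14 t
    have u19 := bf fun t => g6706 u3 u14 t
    have u20 := bf fun t => g831 u15 t
    have u21 := bf fun t => g832 u15 t
    have u22 := bt fun t => g6716 n4 u15 t
    have u23 := bf fun t => g6405 u1 u18 t
    have u24 := bt fun t => g6440 u13 u20 t
    have u25 := bf fun t => g6517 u17 u20 t
    have u26 := bf fun t => g6445 u0 u21 t
    have u27 := bf fun t => g25 t u22
    have u28 := bf fun t => g939 u15 u11 u22 t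
    have u29 := bt fun t => g1420 u24 u7 u8 u22 t
    have u30 := bf fun t => g52 t u29
    have u31 := bf fun t => g54 u29 t
    have u32 := bf fun t => g4120 u6 u22 u29 t
    have u33 := bf fun t => g4052 t u6 u27 u31 u32
    have u34 := bt fun t => g1395 u24 t u6 u30 u32
    have u35 := bt fun t => g1397 u24 u33 u8 u22 t
    have u36 := bt fun t => g271 u13 w6722 w6723 u34 t
    have u37 := bf fun t => g2927 g6631 u34 u36 t
    have u38 := bf fun t => g2196 u16 u36 u12 u28 u30 t
    have u39 := bf fun t => g5579 u37 u9 t u35 u38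
    have u40 := bf fun t => g921 u15 g6632 t u39
    have u41 := bf fun t => s6789 t u40 u6 u4
    have u42 := bf fun t => g3235 g6631 u11 u8 t u41
    have u43 := bt fun t => s6801 t u28 u22 u21 u19 u14 n0 n1
    have u44 := bf fun t => g28 u43 t
    have u45 := bf fun t => g29 u43 t
    have u46 := bf fun t => s6794 u43 t u6 n0 n2 u0
    have u47 := bf fun t => g4384 u19 u22 u44 w6726 t
    have u48 := bf fun t => g1750 t u19 u27 u45 w6726 u47
    have u49 := bt fun t => g1735 u25 u48 t
    have u50 := bf fun t => g6562 u23 t u48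
    have u51 := bt fun t => g6525 u21 t u49
    have u52 := bt fun t => g6565 u26 t u49
    have u53 := bt fun t => g6504 u4 u50 t
    have u54 := bt fun t => g1154 u51 u40 u43 t g6639
    have u55 := bt fun t => g6681 t u5 u52
    have u56 := bf fun t => g1686 u52 u7 u8 u44 t
    have u57 := bf fun t => s6750 u53 t
    have u58 := bt fun t => g2322 u53 u42 u54 t u56
    have u59 := bt fun t => g6683 t u43 u55
    have u60 := bf fun t => g6692 t u57
    have u61 := bf fun t => g6701 u58 t
    have u62 := bt fun t => g4203 u46 u6 u45 u58 t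
    have u63 := bf fun t => g4286 t u6 u43 u58
    have u64 := bf fun t => g6699 u61 t u60
    have u65 := bt fun t => g4244 t u46 u63 u43 u58 u62
    have u66 := bt fun t => g6696 u64 t u59
    have u67 := bf fun t => g392 n2 w6722 w6723 u65 t
    have u68 := bt fun t => g380 n2 g6631 u65 t
    have u69 := bt fun t => g6676 u66 t u67
    exact g6671 u69 u65 u68
  have s6803 : T.X p a c d = true → T.X p d b s = false → v158 = true → T.alt p a s c d = true → T.alt p a s b c = true → T.X p s a d = true → T.alt p a b c d = true → T.X p c a b = false → False := fun n0 n1 n2 n3 n4 n5 n6 n7 => by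
    have u0 := bf fun t => g1013 n6 t
    have u1 := bt fun t => g6532 n4 u0 t
    have u2 := bf fun t => g697 n4 g6632 n7 t
    have u3 := bf fun t => g1103 n6 n0 t g6639
    have u4 := bt fun t => g1827 n3 n0 g6638 t
    have u5 := bt fun t => g2482 u1 n1 u3 g6638 t
    have u6 := bf fun t => g4451 t n5 n0 u4
    have u7 := bt fun t => g4414 t u6 u2 n0 g6638 u4
    have u8 := bf fun t => g5085 t n1 u3 w6727 u5
    have u9 := bt fun t => g6648 t n3 u7
    have u10 := bf fun t => g709 n4 g6632 n7 u7 u8 t
    have u11 := bt fun t => g6652 t n0 u9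
    have u12 := bt fun t => g6642 t u7 u10
    have u13 := bf fun t => g6662 n2 t u11
    exact g6646 u13 u12 u8
  have s6805 : v161 = true → T.X p c a b = false → T.alt p a b r c = true → False := fun n0 n1 n2 => by
    have u0 := bt fun t => s6792 n0 n1 n2 t
    have u1 := bf fun t => g392 n2 w6722 w6723 u0 t
    have u2 := bt fun t => g380 n2 g6631 u0 t
    have u3 := bt fun t => g6676 n0 t u1
    exact g6671 u3 u0 u2
  have s6806 : T.X p c a b = false → T.alt p a b r c = true → T.bfo p a b d r = true → T.bfo p a b s d = true → False := fun n0 n1 n2 n3 => by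
    have u0 := bf fun t => s6756 t n2
    have u1 := bf fun t => g289 n1 t
    have u2 := bf fun t => g6489 u1 u0 t
    have u3 := bf fun t => g288 n1 t
    have u4 := bf fun t => s6798 t n2 n3
    have u5 := bt fun t => s6802 t n0 n1 n2 n3
    have u6 := bf fun t => g1012 u5 t
    have u7 := bf fun t => g1013 u5 t
    have u8 := bt fun t => g6508 u5 t u2
    have u9 := bf fun t => g6471 n1 t u5
    have u10 := bf fun t => g6485 u0 u7 t
    have u11 := bf fun t => g6493 u3 u7 t
    have u12 := bt fun t => g6477 u3 t u8
    have u13 := bt fun t => s6785 t u9 u0 n3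
    have u14 := bt fun t => g6500 n1 u10 t
    have u15 := bt fun t => s6755 u2 u11 t
    have u16 := bf fun t => g107 u13 t
    have u17 := bt fun t => g197 u13 g6631 g6632 t
    have u18 := bf fun t => g6391 u13 n1 t
    have u19 := bt fun t => g6634 g6637 u13 t
    have u20 := bt fun t => g6432 u13 u9 t
    have u21 := bt fun t => g6438 u16 u12 t
    have u22 := bf fun t => g6708 u4 u18 t
    have u23 := bf fun t => g13 t u19
    have u24 := bf fun t => g15 u19 t
    have u25 := bf fun t => g215 u13 w6725 u19 t
    have u26 := bf fun t => g2930 g6632 u19 t u17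
    have u27 := bf fun t => g831 u20 t
    have u28 := bf fun t => g832 u20 t
    have u29 := bt fun t => g6716 n3 u20 t
    have u30 := bf fun t => g1437 u21 t u29
    have u31 := bt fun t => g649 u18 t u22
    have u32 := bf fun t => g6413 u16 u22 t
    have u33 := bt fun t => g6456 u12 u27 t
    have u34 := bf fun t => g6537 u27 u6 t
    have u35 := bf fun t => g6529 u22 u28 t
    have u36 := bf fun t => g27 u29 t
    have u37 := bt fun t => s6767 t u21 u29 u19
    have u38 := bt fun t => g6516 u31 u27 t
    have u39 := bt fun t => g6614 u32 u14 t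
    have u40 := bf fun t => g6658 t u35 u34
    have u41 := bf fun t => g1480 u21 u19 t u36
    have u42 := bf fun t => g19 t u37
    have u43 := bf fun t => g6661 t u40
    have u44 := bf fun t => g1446 u21 u23 u24 u41 t
    have u45 := bt fun t => g1459 u21 u19 u42 u36 t
    have u46 := bt fun t => g6667 g6670 t u43
    have u47 := bf fun t => g2262 u33 u25 u26 t u44
    have u48 := bf fun t => g82 t u45
    have u49 := bt fun t => g1447 u21 u24 u41 u30 t u48
    have u50 := bt fun t => g2689 u39 u49 t g6638
    have u51 := bf fun t => g6701 u50 t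
    have u52 := bf fun t => s6803 t u47 u46 u38 u31 u29 u5 n0
    have u53 := bf fun t => g6684 t u52
    have u54 := bf fun t => s6805 t n0 n1
    have u55 := bf fun t => g6694 t u54 u53
    have u56 := bf fun t => g6700 u51 u55 t
    have u57 := bf fun t => g6690 u56 t u15
    have u58 := bt fun t => g1085 u5 n0 t u52 u57 g6639
    have u59 := bf fun t => g12 t u58
    have u60 := bt fun t => g921 u20 g6632 u58 t
    have u61 := bt fun t => g909 u20 u59 u29 u47 t
    exact g74 u60 u61
  have s6807 : T.alt p a b c d = true → T.alt p a b r c = true → T.bfo p a b d r = true → T.bfo p a b s d = true → False := fun n0 n1 n2 n3 => by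
    have u0 := bf fun t => s6798 t n2 n3
    have u1 := bt fun t => s6806 t n1 n2 n3
    have u2 := bt fun t => g6710 u1 t u0
    have u3 := bt fun t => g6703 u2 n1 t
    have u4 := bt fun t => g378 n1 g6631 u1 t
    have u5 := bf fun t => g64 u4 t
    have u6 := bt fun t => g368 n1 w6723 u3 t u5
    have u7 := bf fun t => g34 t u6
    have u8 := bf fun t => g17 t u3
    have u9 := bt fun t => g6674 t u8 u4
    have u10 := bt fun t => g6677 t u9 u7
    have u11 := bf fun t => s6756 t n2
    have u12 := bf fun t => g289 n1 t
    have u13 := bf fun t => g6489 u12 u11 t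
    have u14 := bf fun t => g288 n1 t
    have u15 := bf fun t => g1013 n0 t
    have u16 := bt fun t => g6508 n0 t u13
    have u17 := bf fun t => g6471 n1 t n0
    have u18 := bf fun t => g1104 n0 u1 t g6639
    have u19 := bf fun t => g1105 n0 u1 t g6639
    have u20 := bf fun t => g1102 n0 u1 t g6639
    have u21 := bf fun t => g6485 u11 u15 t
    have u22 := bt fun t => g6477 u14 t u16
    have u23 := bt fun t => s6785 t u17 u11 n3
    have u24 := bf fun t => g6684 t u18
    have u25 := bf fun t => g6691 t u19
    have u26 := bf fun t => g516 u22 g6631 u20 t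
    have u27 := bt fun t => g6500 n1 u21 t
    have u28 := bf fun t => g107 u23 t
    have u29 := bf fun t => g6391 u23 n1 t
    have u30 := bt fun t => g6634 g6637 u23 t
    have u31 := bt fun t => g6432 u23 u17 t
    have u32 := bt fun t => g6695 t u10 u24
    have u33 := bt fun t => g6438 u28 u22 t
    have u34 := bf fun t => g6708 u0 u29 t
    have u35 := bf fun t => g15 u30 t
    have u36 := bt fun t => g6716 n3 u31 t
    have u37 := bt fun t => g6699 t u32 u25
    have u38 := bf fun t => g1437 u33 t u36
    have u39 := bf fun t => g6413 u28 u34 t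
    have u40 := bf fun t => g27 u36 t
    have u41 := bf fun t => g6701 t u37
    have u42 := bt fun t => g6614 u39 u27 t
    have u43 := bf fun t => g2689 u42 t u41 g6638
    have u44 := bt fun t => g1447 u33 u35 u26 u38 u43 t
    exact g4032 u30 u26 u40 u43 u44
  have s6808 : T.X p a c d = false → T.X p d a b = false → T.X p d b r = false → T.alt p a r b d = false → T.alt p a b c d = false → v161 = true → T.X p c b r = false → T.X p r b c = true → T.X p c a b = true → T.alt p b r c d = false → T.alt p a r b c = false → False := fun n0 n1 n2 n3 n4 n5 n6 n7 n8 n9 n10 => by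
    have u0 := bf fun t => g6684 t n0
    have u1 := bf fun t => g1038 t n8 n1 n0 g6639
    have u2 := bt fun t => g6695 t n5 u0
    have u3 := bt fun t => g1011 n4 u1 t
    have u4 := bf fun t => g6497 n3 u1 t
    have u5 := bt fun t => g6494 n10 u3 t
    have u6 := bt fun t => g1151 u3 n8 n1 t g6639
    have u7 := bf fun t => g6689 t n9 u4
    have u8 := bf fun t => g47 u6 t
    have u9 := bf fun t => g6692 t u7
    have u10 := bt fun t => g6699 t u2 u9
    have u11 := bf fun t => g6701 t u10
    have u12 := bt fun t => g2303 u5 n6 u6 u11 t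
    exact g4882 n7 n2 u8 u11 u12
  have s6809 : T.alt p a b r c = true → T.bfo p a b d r = true → T.bfo p a b s d = true → False := fun n0 n1 n2 => by
    have u0 := bf fun t => s6798 t n1 n2
    have u1 := bf fun t => s6756 t n1
    have u2 := bf fun t => g288 n0 t
    have u3 := bf fun t => g289 n0 t
    have u4 := bf fun t => g6489 u3 u1 t
    have u5 := bt fun t => s6806 t n0 n1 n2
    have u6 := bt fun t => g378 n0 g6631 u5 t
    have u7 := bt fun t => g6710 u5 t u0
    have u8 := bf fun t => g64 u6 t
    have u9 := bt fun t => g6703 u7 n0 t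
    have u10 := bt fun t => g368 n0 w6723 u9 t u8
    have u11 := bf fun t => g17 t u9
    have u12 := bf fun t => g3097 g6631 u9 t u6
    have u13 := bf fun t => g34 t u10
    have u14 := bt fun t => g6674 t u11 u6
    have u15 := bt fun t => g6677 t u14 u13
    have u16 := bf fun t => s6807 t n0 n1 n2
    have u17 := bt fun t => g6472 n0 t u16
    have u18 := bf fun t => g469 u17 t
    have u19 := bt fun t => g6712 n1 u17 t
    have u20 := bf fun t => g20 t u19
    have u21 := bf fun t => g21 t u19
    have u22 := bf fun t => g538 u17 w6723 u19 t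
    have u23 := bf fun t => s6787 t u19 u17 u1 n2
    have u24 := bf fun t => g551 u17 w6722 t u21 u22
    have u25 := bf fun t => g558 u17 w6722 u21 t u22
    have u26 := bt fun t => g6636 g6637 u23 t
    have u27 := bt fun t => g6394 u23 n0 t
    have u28 := bt fun t => g6434 u23 u17 t
    have u29 := bt fun t => g6448 u26 u1 t
    have u30 := bf fun t => g650 u27 t
    have u31 := bf fun t => g6706 u0 u27 t
    have u32 := bf fun t => g831 u28 t
    have u33 := bf fun t => g832 u28 t
    have u34 := bt fun t => g6716 n2 u28 t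
    have u35 := bt fun t => g6440 u26 u32 t
    have u36 := bf fun t => g6517 u30 u32 t
    have u37 := bf fun t => g25 t u34
    have u38 := bf fun t => g939 u28 u24 u34 t
    have u39 := bt fun t => g1420 u35 u20 u21 u34 t
    have u40 := bf fun t => g52 t u39
    have u41 := bf fun t => g54 u39 t
    have u42 := bf fun t => g4120 u19 u34 u39 t
    have u43 := bf fun t => g4052 t u19 u37 u41 u42
    have u44 := bt fun t => g1395 u35 t u19 u40 u42
    have u45 := bt fun t => g1397 u35 u43 u21 u34 t
    have u46 := bt fun t => g271 u26 w6722 w6723 u44 t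
    have u47 := bf fun t => g2927 g6631 u44 u46 t
    have u48 := bf fun t => g2196 u29 u46 u25 u38 u40 t
    have u49 := bf fun t => g5579 u47 u22 t u45 u48
    have u50 := bf fun t => g921 u28 g6632 t u49
    have u51 := bt fun t => s6808 t u50 u25 u18 u16 u15 u12 u10 u5 u4 u2
    have u52 := bf fun t => g28 u51 t
    have u53 := bf fun t => g29 u51 t
    have u54 := bf fun t => g1182 t u5 u51 g6639
    have u55 := bf fun t => g4384 u31 u34 u52 w6726 t
    have u56 := bf fun t => g1750 t u31 u37 u53 w6726 u55
    have u57 := bf fun t => g6525 u33 u54 t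
    exact g1735 u36 u56 u57
  have s6810 : T.X p a c d = true → T.alt p a s c d = false → T.X p a s d = false → T.X p s a d = true → T.alt p a d b s = false → T.X p s a c = false → T.X p c a b = true → False := fun n0 n1 n2 n3 n4 n5 n6 => by
    have u0 := bf fun t => g28 n0 t
    have u1 := bf fun t => g29 n0 t
    have u2 := bf fun t => g1182 t n6 n0 g6639
    have u3 := bf fun t => g4384 n5 n3 u0 w6726 t
    have u4 := bf fun t => g1750 t n5 n2 u1 w6726 u3
    have u5 := bf fun t => g6525 n4 u2 t
    exact g1735 n1 u4 u5
  have s6811 : T.X p a r c = false → v161 = true → T.alt p a r b c = true → T.bfo p a b c r = true → T.X p c a b = true → False := fun n0 n1 n2 n3 n4 => by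
    have u0 := bt fun t => s6743 t n0 n1 n3
    have u1 := bf fun t => g6675 n1 u0 t
    have u2 := bt fun t => g6672 u0 n0 t
    exact g346 n2 g6631 n4 n0 u1 u2
  have s6812 : v161 = true → T.X p c a b = true → T.alt p a r b c = true → T.bfo p a b c r = true → False := fun n0 n1 n2 n3 => by
    have u0 := bt fun t => s6811 t n0 n2 n3 n1
    have u1 := bt fun t => g340 n2 n1 u0 t
    have u2 := bf fun t => g3096 g6631 n1 u0 t
    have u3 := bf fun t => g6671 t u0 u1
    exact g6676 n0 u3 u2
  have s6813 : T.alt p a b s c = true → T.X p d a s = false → T.X p a s d = false → T.alt p a b s d = true → T.alt p a d b c = false → T.X p a c d = false → T.X p c a b = true → T.bfo p a b s c = false → False := fun n0 n1 n2 n3 n4 n5 n6 n7 => by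
    have u0 := bf fun t => g650 n0 t
    have u1 := bf fun t => g6706 n7 n0 t
    have u2 := bf fun t => g6533 u0 n4 t
    have u3 := bt fun t => g759 n0 g6632 n6 u1 t
    have u4 := bf fun t => g4402 u1 n2 n5 g6638 t
    have u5 := bt fun t => g6544 n3 t u2
    have u6 := bf fun t => g4432 u3 n1 t w6726 u4
    exact g1750 u5 u1 n2 u6 w6726 u4
  have s6815 : T.alt p a c b s = true → T.bfo p a b s c = false → False := fun n0 n1 => by
    have u0 := bf fun t => g651 t n0
    exact g6708 n1 u0 n0
  have s6816 : T.X p a s c = false → v152 = true → T.X p b s c = false → T.alt p a s b c = true → T.X p c a b = true → False := fun n0 n1 n2 n3 n4 => by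
    have u0 := bf fun t => g708 n3 g6632 n4 n0 n2 t
    exact g6641 n1 n0 u0
  have s6817 : v152 = true → T.X p b s c = false → T.X p c a b = true → T.alt p a s b c = true → False := fun n0 n1 n2 n3 => by
    have u0 := bt fun t => s6816 t n0 n1 n3 n2
    have u1 := bt fun t => g702 n3 n2 u0 t
    exact g6640 n0 u0 u1
  have s6820 : T.X p a c d = true → T.X p s a d = true → T.alt p a b s d = true → T.alt p b s c d = false → T.alt p a d b s = false → T.X p c a b = true → T.bfo p a b s c = false → False := fun n0 n1 n2 n3 n4 n5 n6 => by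
    have u0 := bf fun t => g25 t n1
    have u1 := bf fun t => g1104 t n5 n0 g6639
    have u2 := bt fun t => g6514 t n2 u1
    have u3 := bf fun t => g6550 u1 t n3
    have u4 := bf fun t => g6706 n6 u2 t
    exact s6810 n0 u3 u0 n1 n4 u4 n5
  have s6821 : T.alt p a b s c = true → T.X p s a d = true → T.alt p a b s d = true → T.X p c a b = true → T.alt p a b r c = false → T.bfo p a b s c = false → T.bfo p a b d r = true → False := fun n0 n1 n2 n3 n4 n5 n6 => by
    have u0 := bt fun t => g6710 n3 t n5
    have u1 := bt fun t => g6705 u0 n4 t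
    have u2 := bf fun t => s6812 t n3 u1 u0
    have u3 := bf fun t => s6756 t n6
    have u4 := bf fun t => s6761 t u0
    have u5 := bf fun t => s6815 t n5
    have u6 := bf fun t => g6405 u4 u5 t
    have u7 := bf fun t => g6720 u6 t
    have u8 := bf fun t => g6446 u3 t u7
    have u9 := bf fun t => g6489 u4 u3 t
    have u10 := bf fun t => g6569 u6 u7 t
    have u11 := bf fun t => g6630 u9 t u10
    have u12 := bf fun t => s6820 t n1 n2 u11 u8 n3 n5
    have u13 := bf fun t => g6684 t u12
    have u14 := bf fun t => g6694 t u2 u13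
    have u15 := bf fun t => g27 n1 t
    have u16 := bf fun t => g25 t n1
    have u17 := bf fun t => g650 n0 t
    have u18 := bf fun t => g6706 n5 n0 t
    have u19 := bt fun t => g6393 t n4 n0
    have u20 := bf fun t => g6511 n0 n2 t
    have u21 := bt fun t => g740 n0 g6632 n3 t
    have u22 := bt fun t => s6813 n0 u15 u16 n2 t u12 n3 n5
    have u23 := bf fun t => g4402 u18 u16 u12 g6638 t
    have u24 := bf fun t => g107 u19 t
    have u25 := bf fun t => g108 u19 t
    have u26 := bt fun t => g197 u19 g6631 g6632 t
    have u27 := bt fun t => g6634 g6637 u19 t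
    have u28 := bt fun t => g6460 u19 u7 t
    have u29 := bf fun t => g6510 u20 t u9
    have u30 := bf fun t => g71 u21 t
    have u31 := bt fun t => s6752 u1 u22 t n6
    have u32 := bt fun t => g6486 u3 u22 t
    have u33 := bt fun t => g6534 u17 u22 t
    have u34 := bt fun t => g6398 u24 u1 t
    have u35 := bf fun t => g6401 u25 u17 t
    have u36 := bf fun t => g13 t u27
    have u37 := bf fun t => g15 u27 t
    have u38 := bf fun t => g215 u19 w6725 u27 t
    have u39 := bf fun t => g2930 g6632 u27 t u26
    have u40 := bt fun t => g6574 u35 u32 t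
    have u41 := bt fun t => g6552 u34 t u29
    have u42 := bt fun t => s6767 t u41 n1 u27
    have u43 := bf fun t => g1480 u41 u27 t u15
    have u44 := bf fun t => g19 t u42
    have u45 := bf fun t => g1446 u41 u36 u37 u43 t
    have u46 := bt fun t => g1459 u41 u27 u44 u15 t
    have u47 := bf fun t => g2262 u28 u38 u39 t u45
    have u48 := bf fun t => g82 t u46
    have u49 := bt fun t => g1447 u41 u37 u43 u16 t u48
    have u50 := bt fun t => g2689 u40 u49 t g6638
    have u51 := bf fun t => g6701 u50 t
    have u52 := bf fun t => g6700 u51 u14 t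
    have u53 := bf fun t => g6690 u52 t u31
    have u54 := bt fun t => g1151 u22 n3 t u53 g6639
    have u55 := bt fun t => g2482 u33 u47 u53 g6638 t
    have u56 := bt fun t => g921 n2 g6632 u54 t
    exact g5926 u30 u56 g6639 u23 u55
  have s6822 : T.X p b s c = false → v153 = true → T.alt p a s b c = true → T.X p c a b = true → False := fun n0 n1 n2 n3 => by
    have u0 := bt fun t => g6645 n1 t n0
    exact s6817 u0 n0 n3 n2
  have s6823 : T.X p c a b = true → T.bfo p a b d r = true → T.bfo p a b s d = true → False := fun n0 n1 n2 => by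
    have u0 := bf fun t => s6798 t n1 n2
    have u1 := bf fun t => s6815 t u0
    have u2 := bf fun t => s6809 t n1 n2
    have u3 := bf fun t => s6756 t n1
    have u4 := bt fun t => g6710 n0 t u0
    have u5 := bf fun t => s6761 t u4
    have u6 := bf fun t => g6489 u5 u3 t
    have u7 := bf fun t => g6405 u5 u1 t
    have u8 := bf fun t => g6720 u7 t
    have u9 := bf fun t => g6569 u7 u8 t
    have u10 := bf fun t => g6446 u3 t u8
    have u11 := bf fun t => g6630 u6 t u9
    have u12 := bt fun t => g6718 n2 t u10
    have u13 := bt fun t => g6716 n2 u12 t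
    have u14 := bf fun t => s6820 t u13 u12 u11 u10 n0 u0
    have u15 := bf fun t => g6653 t u14
    have u16 := bf fun t => s6821 t u13 u12 n0 u2 u0 n1
    have u17 := bt fun t => g6514 u16 u12 t
    have u18 := bt fun t => g649 u16 t u1
    have u19 := bf fun t => g1013 u17 t
    have u20 := bf fun t => g1105 u17 n0 t g6639
    have u21 := bt fun t => g6532 u18 u19 t
    have u22 := bf fun t => g6660 t u20
    have u23 := bf fun t => g2508 u21 t u20 g6638
    have u24 := bt fun t => g6667 g6670 t u22
    have u25 := bt fun t => g6663 u24 t u15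
    have u26 := bt fun t => s6822 t u25 u18 n0
    have u27 := bf fun t => g40 u26 t
    have u28 := bf fun t => g2511 u21 u26 t w6727
    have u29 := bf fun t => g5101 u26 u23 u28 w6727 t
    exact g2474 u21 u27 u23 u28 w6726 u29
  have s6824 : T.X p b c d = false → T.X p d a b = false → v158 = true → T.alt p a s c d = true → T.X p b a d = false → T.X p s a d = true → T.alt p a b c d = true → T.alt p a s b c = true → T.X p c a b = false → False := fun n0 n1 n2 n3 n4 n5 n6 n7 n8 => by
    have u0 := bf fun t => g1013 n6 t
    have u1 := bt fun t => g6532 n7 u0 t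
    have u2 := bf fun t => g697 n7 g6632 n8 t
    have u3 := bf fun t => g663 n7 w6724 w6725 u2 t
    have u4 := bt fun t => g1085 n6 n8 n1 t n0 g6639
    have u5 := bt fun t => g1827 n3 u4 g6638 t
    have u6 := bt fun t => s6803 u4 t n2 n3 n7 n5 n6 n8
    have u7 := bf fun t => g4451 t n5 u4 u5
    have u8 := bt fun t => g4414 t u7 u2 u4 g6638 u5
    have u9 := bf fun t => g45 t u6
    have u10 := bf fun t => g2470 u1 u3 u6 t
    have u11 := bt fun t => g6648 t n3 u8
    have u12 := bf fun t => g3558 w6725 n4 n5 u9 t
    have u13 := bf fun t => g5066 t u9 n0 g6638 u10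
    have u14 := bt fun t => g6652 t u4 u11
    have u15 := bf fun t => g5916 t u12 g6639 u5 u10
    have u16 := bf fun t => g6662 n2 t u14
    have u17 := bt fun t => g6642 t u8 u15
    exact g6646 u16 u17 u13
  have s6830 : T.X p r c d = false → T.X p a c d = false → T.X p b c d = true → T.X p b r d = false → T.X a r b d = true → T.alt p a r b c = true → T.alt p a r c d = true → T.alt p b c r d = true → T.X p d a r = true → T.X p c a b = false → False := fun n0 n1 n2 n3 n4 n5 n6 n7 n8 n9 => by
    have u0 := bf fun t => g335 n5 g6631 n9 t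
    have u1 := bf fun t => g301 n5 w6722 w6723 u0 t
    have u2 := bf fun t => g1658 n6 u0 n8 n1 n0 t
    have u3 := bt fun t => g2322 n7 n3 n2 n0 t
    have u4 := bt fun t => g2303 n7 u1 n2 n0 t
    have u5 := bf fun t => g57 u3 t
    have u6 := bf fun t => g98 u4 t
    have u7 := bf fun t => g1665 n6 t n8 u5
    have u8 := bf fun t => g5754 t n4 g6639 u2 u6
    exact g314 n5 g6631 n9 u7 u8
  have s6831 : T.alt p a b s c = false → T.bfo p a b d r = true → T.bfo p a b s d = true → False := fun n0 n1 n2 => by
    have u0 := bf fun t => s6823 t n1 n2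
    have u1 := bf fun t => s6798 t n1 n2
    have u2 := bf fun t => s6815 t u1
    have u3 := bf fun t => s6809 t n1 n2
    have u4 := bf fun t => s6756 t n1
    have u5 := bf fun t => g6392 t u3 n0
    have u6 := bt fun t => g649 n0 t u2
    have u7 := bt fun t => g6636 g6637 u5 t
    have u8 := bt fun t => s6785 u5 t u4 n2
    have u9 := bf fun t => g6399 u7 u6 t
    have u10 := bt fun t => g6448 u7 u4 t
    have u11 := bt fun t => g6712 n1 u8 t
    have u12 := bt fun t => g6474 u3 u8 t
    have u13 := bt fun t => g6434 u5 u8 t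
    have u14 := bf fun t => g6425 u3 u9 t
    have u15 := bf fun t => g2098 u10 t
    have u16 := bf fun t => g2099 u10 t
    have u17 := bf fun t => g20 t u11
    have u18 := bf fun t => g21 t u11
    have u19 := bf fun t => g538 u8 w6723 u11 t
    have u20 := bf fun t => g1012 u12 t
    have u21 := bf fun t => g1013 u12 t
    have u22 := bf fun t => g831 u13 t
    have u23 := bt fun t => g6716 n2 u13 t
    have u24 := bf fun t => g6597 u14 u15 t
    have u25 := bt fun t => g6464 u8 t u15
    have u26 := bf fun t => g6462 u5 t u16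
    have u27 := bf fun t => g551 u8 w6722 t u18 u19
    have u28 := bf fun t => g558 u8 w6722 u18 t u19
    have u29 := bf fun t => g6521 u2 u20 t
    have u30 := bf fun t => g6537 u22 u20 t
    have u31 := bf fun t => g6485 u4 u21 t
    have u32 := bt fun t => g6516 u6 u22 t
    have u33 := bf fun t => g25 t u23
    have u34 := bt fun t => g1420 u25 u17 u18 u23 t
    have u35 := bf fun t => g6721 t u26
    have u36 := bf fun t => g939 u13 u27 u23 t
    have u37 := bf fun t => g6562 u35 t u29
    have u38 := bf fun t => g6658 t u24 u30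
    have u39 := bf fun t => g52 t u34
    have u40 := bf fun t => g54 u34 t
    have u41 := bf fun t => g4120 u11 u23 u34 t
    have u42 := bf fun t => g6404 t u2 u35
    have u43 := bt fun t => g6504 u8 u37 t
    have u44 := bt fun t => g1554 t u37 u31
    have u45 := bf fun t => g6661 t u38
    have u46 := bf fun t => g4052 t u11 u33 u40 u41
    have u47 := bt fun t => g1395 u25 t u11 u39 u41
    have u48 := bt fun t => g287 u3 t u42
    have u49 := bf fun t => s6750 u43 t
    have u50 := bt fun t => g6667 g6670 t u45
    have u51 := bt fun t => g1397 u25 u46 u18 u23 t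
    have u52 := bt fun t => g271 u7 w6722 w6723 u47 t
    have u53 := bf fun t => g335 u48 g6631 u0 t
    have u54 := bf fun t => g6692 t u49
    have u55 := bf fun t => g2927 g6631 u47 u52 t
    have u56 := bf fun t => g2196 u10 u52 u28 u36 u39 t
    have u57 := bf fun t => g5579 u55 u19 t u51 u56
    have u58 := bf fun t => g921 u13 g6632 t u57
    have u59 := bf fun t => s6789 t u58 u11 u8
    have u60 := bt fun t => s6790 t u58 u52 u34 u23 u10 u11 u8
    have u61 := bf fun t => g562 u8 g6631 t u59
    have u62 := bt fun t => s6824 t u58 u50 u32 u27 u23 u12 u6 u0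
    have u63 := bf fun t => g1103 u12 t u62 g6639
    have u64 := bf fun t => g6684 t u63
    have u65 := bt fun t => s6830 t u63 u62 u61 u60 u48 u44 u43 u11 u0
    have u66 := bf fun t => g56 u65 t
    have u67 := bf fun t => g6701 u65 t
    have u68 := bf fun t => g1665 u44 t u11 u66
    have u69 := bf fun t => g6699 u67 t u54
    have u70 := bt fun t => s6739 u68 u0 u48 t
    have u71 := bt fun t => g314 u48 g6631 u0 u68 t
    have u72 := bf fun t => g6695 u69 t u64
    have u73 := bt fun t => g6677 u72 u70 t
    have u74 := bf fun t => g64 u71 t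
    have u75 := bf fun t => g34 u73 t
    have u76 := bf fun t => g336 u48 t u68 u73
    exact g302 u48 w6723 u76 u53 u75 u74
  have s6832 : T.alt p a b r d = true → T.bfo p a b d r = true → T.bfo p a b s d = true → False := fun n0 n1 n2 => by
    have u0 := bf fun t => s6809 t n1 n2
    have u1 := bt fun t => s6831 t n1 n2
    have u2 := bt fun t => g6393 t u0 u1
    have u3 := bf fun t => s6756 t n1
    have u4 := bt fun t => g6712 n1 n0 t
    exact s6787 u2 u4 n0 u3 n2
  have s6833 : T.alt p a d r c = false → T.X b s c d = false → T.X p d a b = false → T.X p a c d = false → T.X p c b s = false → T.alt p b d r s = true → T.alt p a b c d = false → T.alt p a b r c = false → T.alt p a d b r = false → False := fun n0 n1 n2 n3 n4 n5 n6 n7 n8 => by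
    have u0 := bf fun t => g6486 n8 t n0
    have u1 := bf fun t => g6501 n7 n0 t
    have u2 := bt fun t => g1011 n6 t u0
    have u3 := bt fun t => g6604 n5 u1 t
    have u4 := bf fun t => g1034 u2 n2 n3 t g6639
    exact g2600 u3 n4 u4 g6638 n1
  have s6834 : T.X p s a d = true → T.X p a c d = false → T.X p c b s = false → T.alt p b d r s = true → T.alt p a b s d = true → T.alt p a b c d = false → T.X p s a c = false → T.alt p a b s c = true → T.X p c a b = false → T.alt p a b r c = false → T.alt p a d b r = false → False := fun n0 n1 n2 n3 n4 n5 n6 n7 n8 n9 n10 => by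
    have u0 := bf fun t => g3409 g6632 n8 n6 n2 t
    have u1 := bf fun t => g832 n4 t
    have u2 := bf fun t => g650 n7 t
    have u3 := bf fun t => g25 t n0
    have u4 := bf fun t => g4402 n6 u3 n1 g6638 t
    have u5 := bt fun t => s6801 n1 t n0 u1 n6 n7 n5 n8
    have u6 := bt fun t => g924 n4 g6632 u5 t
    have u7 := bt fun t => g939 n4 t n0 u5
    have u8 := bf fun t => g12 u7 t
    have u9 := bf fun t => g5926 u0 u6 g6639 u4 t
    have u10 := bt fun t => s6833 t u9 u8 n1 n2 n3 n5 n9 n10
    have u11 := bt fun t => g6485 n10 t u10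
    have u12 := bt fun t => g6534 u2 u11 t
    have u13 := bf fun t => g1152 u11 n8 n1 t g6639
    exact g2508 u12 u5 u13 g6638
  have s6835 : T.bfo p a b d r = true → T.bfo p a b s d = true → False := fun n0 n1 => by
    have u0 := bf fun t => s6756 t n0
    have u1 := bf fun t => s6798 t n0 n1
    have u2 := bf fun t => s6809 t n0 n1
    have u3 := bf fun t => s6823 t n0 n1
    have u4 := bt fun t => s6831 t n0 n1
    have u5 := bf fun t => g650 u4 t
    have u6 := bf fun t => g6706 u1 u4 t
    have u7 := bt fun t => g6393 t u2 u4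
    have u8 := bf fun t => g107 u7 t
    have u9 := bt fun t => g197 u7 g6631 g6632 t
    have u10 := bt fun t => g6634 g6637 u7 t
    have u11 := bf fun t => g13 t u10
    have u12 := bf fun t => g15 u10 t
    have u13 := bf fun t => g215 u7 w6725 u10 t
    have u14 := bf fun t => g2930 g6632 u10 t u9
    have u15 := bf fun t => s6832 t n0 n1
    have u16 := bt fun t => g6714 n0 u15 t
    have u17 := bf fun t => g6473 u2 u15 t
    have u18 := bt fun t => g6432 u7 u15 t
    have u19 := bt fun t => g6438 u8 u16 t
    have u20 := bt fun t => s6774 u17 t u2 u0 n1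
    have u21 := bf fun t => g831 u18 t
    have u22 := bf fun t => g832 u18 t
    have u23 := bf fun t => g1375 u19 t
    have u24 := bt fun t => g6704 t u2 u20
    have u25 := bf fun t => g335 u20 g6631 u3 t
    have u26 := bt fun t => g6398 u8 u20 t
    have u27 := bt fun t => g6416 u20 u5 t
    have u28 := bf fun t => g6475 u20 u16 t
    have u29 := bf fun t => g6517 u5 u21 t
    have u30 := bt fun t => g6456 u16 u21 t
    have u31 := bf fun t => g1265 u26 u11 u12 u25 t
    have u32 := bf fun t => g2081 u27 u13 u14 t u31
    have u33 := bf fun t => g3409 g6632 u3 u6 u32 t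
    have u34 := bt fun t => g6716 n1 u18 t
    have u35 := bf fun t => g1437 u19 t u34
    have u36 := bt fun t => s6767 t u19 u34 u10
    have u37 := bf fun t => g27 u34 t
    have u38 := bt fun t => s6834 u34 t u32 u30 u18 u17 u6 u4 u3 u2 u0
    have u39 := bf fun t => g19 t u36
    have u40 := bf fun t => g21 u36 t
    have u41 := bf fun t => g28 u38 t
    have u42 := bf fun t => g29 u38 t
    have u43 := bt fun t => g1459 u19 u10 u39 u37 t
    have u44 := bf fun t => g1446 u19 u11 u12 u40 t
    have u45 := bf fun t => g4384 u6 u34 u41 w6726 t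
    have u46 := bf fun t => g1750 t u6 u35 u42 w6726 u45
    have u47 := bf fun t => g82 t u43
    have u48 := bf fun t => g2262 u30 u13 u14 t u44
    have u49 := bt fun t => g1735 u29 u46 t
    have u50 := bt fun t => g6544 u18 u46 t
    have u51 := bt fun t => g6584 u19 u46 t
    have u52 := bt fun t => g1447 u19 u12 u40 u35 t u47
    have u53 := bt fun t => g6525 u22 t u49
    have u54 := bt fun t => g6565 u23 t u49
    have u55 := bt fun t => g2689 u51 u52 t g6638
    have u56 := bt fun t => s6752 u20 u53 t n0
    have u57 := bt fun t => g6681 t u28 u54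
    have u58 := bf fun t => g6701 u55 t
    have u59 := bt fun t => g6683 t u38 u57
    have u60 := bf fun t => s6742 u59 u56 t u24
    have u61 := bf fun t => g6700 u58 u60 t
    have u62 := bf fun t => g6690 u61 t u56
    have u63 := bt fun t => g1154 u53 t u38 u62 g6639
    have u64 := bt fun t => g2482 u50 u48 u62 g6638 t
    have u65 := bt fun t => g921 u18 g6632 u63 t
    exact g5926 u33 u65 g6639 u45 u64
  have s6836 : T.X p d a b = true → T.alt p a d b c = false → T.X p a c d = true → False := fun n0 n1 n2 => by
    have u0 := bf fun t => g1064 t n0 n2 g6639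
    have u1 := bf fun t => g1106 t n0 n2 g6639
    exact g1011 u1 u0 n1
  have s6837 : T.X p a r c = false → v160 = true → T.X p b r c = false → T.X p c a b = true → T.alt p a c b r = true → False := fun n0 n1 n2 n3 n4 => by
    have u0 := bf fun t => g464 n4 g6631 n3 n0 n2 t
    exact g6672 n1 n0 u0
  have s6838 : v160 = true → T.X p b r c = false → T.alt p a c b r = true → T.X p c a b = true → False := fun n0 n1 n2 n3 => by
    have u0 := bt fun t => s6837 t n0 n1 n3 n2
    have u1 := bt fun t => g458 n2 g6631 u0 t
    exact g6671 n0 u0 u1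
  have s6839 : T.X p r c d = true → T.X p c a b = true → T.X p b c d = false → T.alt p a c b r = true → T.alt p b d r c = true → v163 = true → False := fun n0 n1 n2 n3 n4 n5 => by
    have u0 := bf fun t => g6691 t n2
    have u1 := bf fun t => g6701 n0 t
    have u2 := bf fun t => g2445 n4 t n2 n0
    have u3 := bf fun t => g6699 u1 t u0
    have u4 := bt fun t => g6696 u3 t n5
    have u5 := bt fun t => g6676 u4 t u2
    exact s6838 u5 u2 n3 n1
  have s6840 : T.X p b c d = false → T.alt p a c b r = true → T.alt p b d r c = true → T.alt p a c b d = true → T.alt p a d r c = true → T.X p a c d = true → T.alt p a d b r = true → False := fun n0 n1 n2 n3 n4 n5 n6 => by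
    have u0 := bf fun t => g6483 n6 t n4
    have u1 := bf fun t => s6836 t u0 n5
    have u2 := bf fun t => g1556 t n4
    have u3 := bt fun t => g6681 t u2 n4
    have u4 := bt fun t => g6683 t n5 u3
    have u5 := bf fun t => g28 n5 t
    have u6 := bt fun t => g1036 n3 t n5 n0 g6639
    have u7 := bf fun t => g3697 u6 t u5 n0 g6639
    have u8 := bt fun t => g627 n6 g6631 u7 u1 t
    have u9 := bf fun t => g21 u8 t
    have u10 := bf fun t => s6839 t u6 n0 n1 n2 u4
    have u11 := bt fun t => g1697 n4 u9 n5 u10 t
    have u12 := bf fun t => g86 u11 t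
    have u13 := bf fun t => g1706 n4 t u8 u12
    exact g4208 u13 u8 n5 u10 u12
  have s6841 : T.X a r c d = true → T.X p d r c = true → T.X p r c d = false → T.X p c a b = false → T.X p d b c = false → T.alt p a c b r = true → T.alt p b d r c = true → T.alt p a c b d = true → T.X p d a b = false → T.X p c a d = false → T.alt p a d b r = true → False := fun n0 n1 n2 n3 n4 n5 n6 n7 n8 n9 n10 => by
    have u0 := bf fun t => g416 n5 g6631 n3 t
    have u1 := bf fun t => g2446 n6 t n4 n1
    have u2 := bf fun t => g3072 g6631 n3 t u1 u0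
    have u3 := bf fun t => g597 n10 g6631 n8 t
    have u4 := bf fun t => g86 n0 t
    have u5 := bf fun t => g4256 u2 t n9 n2 n0
    have u6 := bt fun t => g627 n10 g6631 t n8 u5
    have u7 := bt fun t => g1031 n7 u6 n9 n4 t
    have u8 := bf fun t => g5758 u0 u3 u7 u4 t
    have u9 := bf fun t => g2429 n6 t n1 u8
    have u10 := bf fun t => g5746 t u3 g6639 n0 u8
    exact g427 n5 g6631 n3 u9 u10
  have s6842 : T.X p d a r = true → T.X p d a b = false → T.alt p a d b r = true → False := fun n0 n1 n2 => by
    have u0 := bf fun t => g597 n2 g6631 n1 t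
    have u1 := bf fun t => g640 n2 n0 t u0
    exact g3242 g6631 n1 n0 u1 u0
  have s6843 : T.X p r c d = false → T.alt p a c b r = true → T.alt p b d r c = true → T.alt p a c b d = true → T.alt p a d r c = true → T.X p a c d = true → T.alt p a d b r = true → False := fun n0 n1 n2 n3 n4 n5 n6 => by
    have u0 := bt fun t => s6840 t n1 n2 n3 n4 n5 n6
    have u1 := bf fun t => g1050 n3 t u0 g6639
    have u2 := bf fun t => g47 u0 t
    have u3 := bf fun t => g46 u0 t
    have u4 := bf fun t => g6483 n6 t n4
    have u5 := bf fun t => s6836 t u4 n5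
    have u6 := bf fun t => s6842 t u5 n6
    have u7 := bf fun t => g597 n6 g6631 u5 t
    have u8 := bf fun t => g28 n5 t
    have u9 := bt fun t => g1697 n4 u6 n5 n0 t
    have u10 := bf fun t => s6841 u9 t n0 u1 u2 n1 n2 n3 u5 u8 n6
    have u11 := bt fun t => g1716 n4 t n5 n0 u10
    have u12 := bt fun t => g2440 n2 t u0 n0 u10
    have u13 := bt fun t => g458 n1 g6631 u11 t
    have u14 := bt fun t => g5746 u13 u7 g6639 u9 t
    have u15 := bt fun t => g2438 n2 u12 t u3 u10 u14
    exact g4990 u12 u15 u0 n0 u10 u14
  have s6844 : v161 = false → T.X p c a b = false → T.alt p a c b r = true → False := fun n0 n1 n2 => by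
    have u0 := bt fun t => s6779 n0 n1 n2 t
    have u1 := bf fun t => g16 u0 t
    have u2 := bt fun t => g458 n2 g6631 u0 t
    have u3 := bt fun t => g446 n2 g6631 t n1 u1
    have u4 := bf fun t => g65 u2 t
    have u5 := bf fun t => g6671 t u0 u2
    have u6 := bt fun t => g3018 w6722 u3 u0 t u4
    exact g6678 n0 u5 u6
  have s6845 : T.alt p a b c d = false → T.alt p a r b c = false → T.alt p a d r c = true → T.X p a c d = true → T.alt p a d b r = true → T.alt p a b r d = false → False := fun n0 n1 n2 n3 n4 n5 => by
    have u0 := bf fun t => g1556 t n2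
    have u1 := bt fun t => g6681 t u0 n2
    have u2 := bt fun t => g6683 t n3 u1
    have u3 := bf fun t => g1557 t n2
    have u4 := bf fun t => g6505 n5 u3 t
    have u5 := bf fun t => g6483 n4 t n2
    have u6 := bf fun t => g6472 t n5 n0
    have u7 := bf fun t => g6509 n0 u0 t
    have u8 := bt fun t => g1011 n0 t u5
    have u9 := bt fun t => g6502 u6 n2 t
    have u10 := bt fun t => g287 u6 n1 t
    have u11 := bt fun t => s6755 u7 u4 t
    have u12 := bt fun t => s6840 t u10 u9 u8 n2 n3 n4
    have u13 := bt fun t => g6690 t u12 u11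
    have u14 := bf fun t => g1050 u8 t u12 g6639
    have u15 := bt fun t => s6843 t u10 u9 u8 n2 n3 n4
    have u16 := bf fun t => g6701 u15 t
    have u17 := bt fun t => g6700 u16 t u13
    have u18 := bf fun t => g6693 u17 t u2
    exact s6844 u18 u14 u10
  have s6846 : T.bfo p c d b r = true → T.X a r c d = true → T.alt p b r c d = true → T.X p b c d = false → T.X p c a b = false → T.alt p a b r c = true → T.X p d a b = false → v163 = true → T.X p a c d = true → T.alt p a d b r = true → False := fun n0 n1 n2 n3 n4 n5 n6 n7 n8 n9 => by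
    have u0 := bf fun t => g86 n1 t
    have u1 := bf fun t => g6691 t n3
    have u2 := bf fun t => s6805 t n4 n5
    have u3 := bt fun t => g6696 t u2 n7
    have u4 := bt fun t => g6699 t u3 u1
    have u5 := bf fun t => g6701 t u4
    have u6 := bf fun t => g597 n9 g6631 n6 t
    have u7 := bt fun t => g6687 n0 n2 t
    have u8 := bf fun t => s6742 n7 n0 u3 t
    have u9 := bf fun t => g34 u7 t
    have u10 := bf fun t => g392 n5 w6722 w6723 t u7
    have u11 := bt fun t => g381 n5 g6631 u7 t
    have u12 := bf fun t => g6702 u8 n5 t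
    have u13 := bf fun t => g3031 g6631 n4 u12 u9 t
    have u14 := bf fun t => g371 n5 w6723 t u9 u13
    have u15 := bf fun t => g4208 u10 t n8 u5 u0
    have u16 := bt fun t => g5746 u11 u6 g6639 n1 t
    have u17 := bt fun t => g627 n9 g6631 t n6 u15
    have u18 := bf fun t => g5758 u13 u6 t u0 u16
    exact g3698 u14 u17 n8 n3 u18
  have s6847 : T.X p a r c = false → T.X p b r c = false → T.X p r c d = false → T.alt p b r c d = true → T.X p c a b = false → T.alt p a b r c = true → T.alt p a d r c = true → T.X p a c d = true → T.alt p a d b r = true → False := fun n0 n1 n2 n3 n4 n5 n6 n7 n8 => by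
    have u0 := bf fun t => g6483 n8 t n6
    have u1 := bf fun t => s6836 t u0 n7
    have u2 := bf fun t => s6842 t u1 n8
    have u3 := bt fun t => g1697 n6 u2 n7 n2 t
    have u4 := bf fun t => g597 n8 g6631 u1 t
    have u5 := bf fun t => g386 n5 g6631 n4 n0 n1 t
    have u6 := bt fun t => g1716 n6 n0 n7 n2 t
    have u7 := bf fun t => g5742 u5 u4 g6639 u3 t
    have u8 := bf fun t => g2391 n3 t u6 u7
    have u9 := bt fun t => g2368 n3 n1 t u6 u7
    have u10 := bf fun t => g614 n8 t u2 u8 u4
    exact g3730 n4 u10 n7 u9 g6639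
  have s6848 : T.alt p a d r c = true → T.X p a c d = true → T.alt p a r b d = false → T.alt p a b r d = false → False := fun n0 n1 n2 n3 => by
    have u0 := bt fun t => g468 n3 n2 t
    have u1 := bf fun t => g1556 t n0
    have u2 := bf fun t => g6483 u0 t n0
    have u3 := bt fun t => g6681 t u1 n0
    have u4 := bf fun t => g6476 t n2 u1
    have u5 := bt fun t => g6683 t n1 u3
    have u6 := bf fun t => s6836 t u2 n1
    have u7 := bf fun t => g597 u0 g6631 u6 t
    have u8 := bf fun t => s6842 t u6 u0
    have u9 := bt fun t => s6845 t u4 n0 n1 u0 n3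
    have u10 := bt fun t => g6473 t n3 u9
    have u11 := bf fun t => g1104 u9 t n1 g6639
    have u12 := bf fun t => g1103 u9 n1 t g6639
    have u13 := bt fun t => g6508 u9 u1 t
    have u14 := bf fun t => s6805 t u11 u10
    have u15 := bf fun t => g6691 t u12
    have u16 := bt fun t => g6696 t u14 u5
    have u17 := bt fun t => g6699 t u16 u15
    have u18 := bf fun t => g6701 t u17
    have u19 := bt fun t => g1697 n0 u8 n1 u18 t
    have u20 := bf fun t => g86 u19 t
    have u21 := bf fun t => s6846 t u19 u13 u12 u11 u10 u6 u5 n1 u0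
    have u22 := bf fun t => g6686 u21 u13 t
    have u23 := bt fun t => s6847 t u22 u18 u13 u11 u10 n0 n1 u0
    have u24 := bt fun t => g380 u10 g6631 u23 t
    have u25 := bf fun t => g1705 n0 u23 t u20
    have u26 := bf fun t => g1706 n0 u23 t u20
    have u27 := bt fun t => g5746 u24 u7 g6639 u19 t
    have u28 := bt fun t => g627 u0 g6631 t u6 u26
    have u29 := bf fun t => g10 t u28
    have u30 := bf fun t => g3213 w6723 u28 u26 t u7
    have u31 := bf fun t => g1119 u9 u29 n1 t
    exact g2367 u13 u22 u30 u31 u25 u27
  have s6849 : T.X p a r c = true → T.alt p a c b r = true → T.alt p b c r d = true → T.alt p a c r d = true → T.X p r c d = false → T.alt p a d b c = true → T.X p a c d = true → T.alt p a d b r = true → False := fun n0 n1 n2 n3 n4 n5 n6 n7 => by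
    have u0 := bf fun t => g1182 n5 t n6 g6639
    have u1 := bf fun t => g416 n1 g6631 u0 t
    have u2 := bf fun t => g29 n6 t
    have u3 := bf fun t => g28 n6 t
    have u4 := bf fun t => g16 n0 t
    have u5 := bf fun t => g17 n0 t
    have u6 := bt fun t => g458 n1 g6631 n0 t
    have u7 := bt fun t => g446 n1 g6631 t u0 u4
    have u8 := bt fun t => g1579 n3 u5 n6 n4 t
    have u9 := bf fun t => g65 u6 t
    have u10 := bf fun t => g7 t u7
    have u11 := bf fun t => g1179 n5 u7 u2 t
    have u12 := bf fun t => g3043 w6723 u7 u4 t u1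
    have u13 := bf fun t => g86 u8 t
    have u14 := bf fun t => g4256 u5 t u3 n4 u8
    have u15 := bf fun t => g3025 g6631 u0 u4 t u9
    have u16 := bt fun t => g1173 n5 u10 n6 t u11
    have u17 := bf fun t => g3708 u10 t n6 u11 g6639
    have u18 := bf fun t => g2319 n2 u12 u15 t u11
    have u19 := bt fun t => g627 n7 g6631 t u17 u14
    have u20 := bt fun t => g2303 n2 u15 u16 n4 t
    have u21 := bf fun t => g626 n7 w6722 u19 u14 u18 t
    exact g5765 u6 u21 g6639 u13 u20
  have s6850 : T.X p b c d = true → T.X a r c d = true → T.X p c b r = false → T.X a b r c = true → T.alt p b c r d = true → T.X p r c d = false → T.alt p a d b c = true → T.alt p a d b r = true → False := fun n0 n1 n2 n3 n4 n5 n6 n7 => by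
    have u0 := bf fun t => g1168 n6 t n0 g6639
    have u1 := bt fun t => g2303 n4 n2 n0 n5 t
    have u2 := bf fun t => g597 n7 g6631 u0 t
    have u3 := bf fun t => g98 u1 t
    exact g5746 n3 u2 g6639 n1 u3
  have s6851 : T.X a b r c = true → T.alt p a c b r = true → T.alt p b c r d = true → T.alt p a c r d = true → T.X p r c d = false → T.alt p a d b c = true → T.X p a c d = true → T.alt p a d b r = true → False := fun n0 n1 n2 n3 n4 n5 n6 n7 => by
    have u0 := bf fun t => s6849 t n1 n2 n3 n4 n5 n6 n7
    have u1 := bf fun t => g1182 n5 t n6 g6639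
    have u2 := bf fun t => g29 n6 t
    have u3 := bf fun t => g466 n1 g6631 u1 u0 t n0
    have u4 := bf fun t => g3030 w6722 u1 u0 t n0
    have u5 := bf fun t => g3015 w6723 u1 t u3 n0
    have u6 := bt fun t => g1579 n3 u5 n6 n4 t
    have u7 := bf fun t => s6850 t u6 u4 n0 n2 n4 n5 n7
    have u8 := bt fun t => g1154 n5 t n6 u7 g6639
    have u9 := bf fun t => g3696 t u8 u2 u7 g6639
    have u10 := bt fun t => g446 n1 g6631 u9 u1 t
    have u11 := bt fun t => g4202 u10 t u2 n4 u6
    exact s6788 n4 n6 u10 u11
  have s6852 : T.alt p a r c d = false → T.X p r c d = false → T.alt p a b r c = false → T.alt p a d r c = false → T.X p a c d = true → T.alt p a d b r = true → T.alt p a r b d = false → False := fun n0 n1 n2 n3 n4 n5 n6 => by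
    have u0 := bt fun t => g6484 n5 t n3
    have u1 := bf fun t => g1182 u0 t n4 g6639
    have u2 := bf fun t => g28 n4 t
    have u3 := bf fun t => g6476 t n6 n0
    have u4 := bt fun t => g1554 n0 t n3
    have u5 := bt fun t => g6494 u3 u0 t
    have u6 := bt fun t => g287 n2 u3 t
    have u7 := bf fun t => g416 u6 g6631 u1 t
    have u8 := bf fun t => s6849 t u6 u5 u4 n1 u0 n4 n5
    have u9 := bf fun t => s6851 t u6 u5 u4 n1 u0 n4 n5
    have u10 := bt fun t => g427 u6 g6631 u1 t u9
    have u11 := bf fun t => g35 u10 t
    have u12 := bf fun t => g3014 w6723 u1 t u10 u9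
    have u13 := bf fun t => g3041 w6723 t u8 u10 u7
    have u14 := bt fun t => g1579 u4 u12 n4 n1 t
    have u15 := bf fun t => g86 u14 t
    have u16 := bf fun t => g4256 u12 t u2 n1 u14
    have u17 := bf fun t => g1585 u4 u8 u16 t u15
    have u18 := bf fun t => g2330 u5 u10 t u17
    have u19 := bt fun t => g1173 u0 u13 n4 t u18
    have u20 := bf fun t => g46 u19 t
    have u21 := bt fun t => g2303 u5 u11 u19 n1 t
    have u22 := bt fun t => g2306 u5 u10 u20 u17 t
    exact g98 u21 u22
  have s6853 : T.X a c b s = true → T.X b c s d = false → T.alt p b d s c = false → T.X a b s d = true → T.X p d b c = true → T.alt p a r c d = true → T.alt p a d b c = true → T.X p a c d = true → False := fun n0 n1 n2 n3 n4 n5 n6 n7 => by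
    have u0 := bf fun t => g1182 n6 t n7 g6639
    have u1 := bf fun t => g1013 t n6
    have u2 := bf fun t => g71 t n0
    have u3 := bf fun t => g72 t n0
    have u4 := bf fun t => g5931 u3 n3 g6639 t n1
    have u5 := bf fun t => g1827 t n7 g6638 u4
    have u6 := bt fun t => g6588 n5 u5 t
    have u7 := bf fun t => g6549 u1 u5 t
    have u8 := bf fun t => s6731 u5 u6 t
    have u9 := bt fun t => g2459 u7 t n2
    have u10 := bf fun t => g6650 u8 u5 t
    have u11 := bf fun t => g2511 u9 t n4 w6727
    have u12 := bt fun t => g6526 t n6 u10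
    have u13 := bf fun t => g789 t g6632 u0 u11 u2
    exact g6530 u13 u12 u7
  have s6854 : T.X b s c d = true → T.alt p b d s c = false → T.X a b s d = true → T.X p d b c = true → T.alt p a r c d = true → T.alt p a d b c = true → T.X p a c d = true → False := fun n0 n1 n2 n3 n4 n5 n6 => by
    have u0 := bf fun t => g74 n2 t
    have u1 := bf fun t => g1182 n5 t n6 g6639
    have u2 := bf fun t => g1013 t n5
    have u3 := bf fun t => g100 n0 t
    have u4 := bf fun t => s6853 t u3 n1 n2 n3 n4 n5 n6
    have u5 := bt fun t => g5926 u4 n2 g6639 t n0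
    have u6 := bf fun t => g88 t u5
    have u7 := bf fun t => g90 u5 t
    have u8 := bf fun t => g1827 t n6 g6638 u6
    have u9 := bf fun t => g5935 t u0 g6639 u7 n0
    have u10 := bt fun t => g6588 n4 u8 t
    have u11 := bf fun t => g6549 u2 u8 t
    have u12 := bf fun t => s6731 u8 u10 t
    have u13 := bt fun t => g2459 u11 t n1
    have u14 := bf fun t => g6650 u12 u8 t
    have u15 := bf fun t => g2511 u13 t n3 w6727
    have u16 := bt fun t => g6526 t n5 u14
    have u17 := bf fun t => g789 t g6632 u1 u15 u9
    exact g6530 u17 u16 u11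
  have s6855 : T.alt p a s c d = false → T.alt p b d r s = false → T.alt p a s b d = false → T.alt p a r c d = true → T.alt p a d r c = false → False := fun n0 n1 n2 n3 n4 => by
    have u0 := bt fun t => g6588 n3 n0 t
    have u1 := bf fun t => g6516 t n2 n0
    have u2 := bf fun t => g2641 u0 t
    have u3 := bf fun t => s6731 n0 u0 t
    have u4 := bf fun t => g6572 t n4 u2
    have u5 := bf fun t => g6650 u3 n0 t
    have u6 := bf fun t => g6400 t u1 u4
    have u7 := bf fun t => g6564 t n4 u5
    have u8 := bt fun t => g6636 g6637 t u6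
    exact g6460 u8 u7 n1
  have s6856 : T.alt p a s b d = false → T.X a b s d = true → T.X p d b c = true → T.X p d a b = true → T.alt p a r c d = true → T.alt p a d b c = true → T.alt p a d r c = false → T.X p a c d = true → T.alt p a r b d = false → False := fun n0 n1 n2 n3 n4 n5 n6 n7 n8 => by
    have u0 := bf fun t => g74 n1 t
    have u1 := bf fun t => g1168 n5 n3 t g6639
    have u2 := bf fun t => g6660 t u1
    have u3 := bt fun t => g6667 g6670 t u2
    have u4 := bf fun t => g12 t n3
    have u5 := bf fun t => g1182 n5 t n7 g6639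
    have u6 := bf fun t => g1014 t n5
    have u7 := bf fun t => g1013 t n5
    have u8 := bf fun t => g28 n7 t
    have u9 := bf fun t => g6457 n8 n0 t
    have u10 := bf fun t => g6537 n0 u6 t
    have u11 := bf fun t => s6854 t u10 n1 n2 n4 n5 n7
    have u12 := bt fun t => s6855 t u9 n0 n4 n6
    have u13 := bf fun t => g1737 u12 t
    have u14 := bt fun t => g6550 u7 u12 t
    have u15 := bt fun t => g6517 t n0 u12
    have u16 := bt fun t => g1827 u12 n7 g6638 t
    have u17 := bt fun t => g6526 t n5 u13
    have u18 := bf fun t => g2555 u14 t g6638 u11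
    have u19 := bf fun t => g2553 u14 t g6638 u11
    have u20 := bf fun t => g89 u16 t
    have u21 := bt fun t => g2559 u14 t u19 u18 n2
    have u22 := bt fun t => g963 u17 w6724 u4 t u18 u0
    have u23 := bf fun t => g40 t u21
    have u24 := bt fun t => g1818 u12 t u22 u8 u20
    have u25 := bt fun t => g6648 t u12 u24
    have u26 := bf fun t => g709 u15 g6632 u5 u24 u23 t
    have u27 := bt fun t => g6642 t u24 u26
    have u28 := bt fun t => g6652 t n7 u25
    have u29 := bt fun t => g6646 t u27 u23
    exact g6662 u3 u29 u28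
  have s6857 : T.alt p a s b d = true → T.bfo p a b s d = true → False := fun n0 n1 => by
    have u0 := bf fun t => g831 t n0
    have u1 := bf fun t => g833 n0 t
    exact g6718 n1 u0 u1
  have s6859 : T.X p s b c = false → T.X p b s d = false → T.X p d b c = true → T.alt p b s c d = true → False := fun n0 n1 n2 n3 => by
    have u0 := bf fun t => g47 t n2
    have u1 := bf fun t => g5082 n0 n1 u0 g6638 t
    exact g2540 n3 n0 n2 w6726 u1
  have s6860 : T.X p d b c = true → T.alt p a r c d = true → T.alt p a d b c = true → T.alt p a d r c = false → T.X p a c d = true → T.alt p a r b d = false → T.alt p a s b d = false → False := fun n0 n1 n2 n3 n4 n5 n6 => by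
    have u0 := bf fun t => g6457 n5 n6 t
    have u1 := bt fun t => s6855 t u0 n6 n1 n3
    have u2 := bt fun t => g1827 u1 n4 g6638 t
    have u3 := bf fun t => g88 u2 t
    have u4 := bf fun t => g1737 u1 t
    have u5 := bt fun t => g6526 t n2 u4
    have u6 := bt fun t => g6517 t n6 u1
    have u7 := bf fun t => g1013 t n2
    have u8 := bt fun t => g6550 u7 u1 t
    have u9 := bf fun t => g1182 n2 t n4 g6639
    have u10 := bf fun t => g29 n4 t
    have u11 := bf fun t => g47 t n0
    have u12 := bf fun t => g6660 t u11
    have u13 := bt fun t => g1154 n2 t n4 u11 g6639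
    have u14 := bt fun t => g6667 g6670 t u12
    have u15 := bf fun t => s6856 n6 t n0 u13 n1 n2 n3 n4 n5
    have u16 := bf fun t => g1001 u5 g6632 t u15
    have u17 := bf fun t => g987 u5 u13 t u15
    have u18 := bf fun t => g1821 u1 t u16 u10 u3
    have u19 := bt fun t => g1840 u1 t u18 n4 g6638
    have u20 := bt fun t => g6648 t u1 u19
    have u21 := bt fun t => g6652 t n4 u20
    have u22 := bf fun t => g6662 u14 t u21
    have u23 := bt fun t => s6859 t u17 n0 u8
    have u24 := bf fun t => g40 t u23
    have u25 := bf fun t => g709 u6 g6632 u9 u19 u24 t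
    have u26 := bf fun t => g6646 u22 t u24
    exact g6642 u26 u19 u25
  have s6861 : T.X p a s c = true → v158 = true → T.X p b s c = false → T.alt p a s b c = true → T.alt p a s c d = true → T.X p c a b = false → T.X p a c d = true → False := fun n0 n1 n2 n3 n4 n5 n6 => by
    have u0 := bt fun t => g6648 t n4 n0
    have u1 := bf fun t => g709 n3 g6632 n5 n0 n2 t
    have u2 := bt fun t => g6652 t n6 u0
    have u3 := bt fun t => g6642 t n0 u1
    have u4 := bf fun t => g6662 n1 t u2
    exact g6646 u4 u3 n2
  have s6862 : T.X p s b c = true → T.X p d b c = false → T.alt p a d b s = true → T.alt p a s b c = true → T.alt p b s c d = true → T.alt p a s c d = true → T.X p c a b = false → T.X p a c d = true → False := fun n0 n1 n2 n3 n4 n5 n6 n7 => by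
    have u0 := bt fun t => g1827 n5 n7 g6638 t
    have u1 := bf fun t => g88 u0 t
    have u2 := bf fun t => g29 n7 t
    have u3 := bf fun t => g40 t n0
    have u4 := bf fun t => g2566 n4 n0 t n1
    have u5 := bf fun t => g6656 t n4 u3
    have u6 := bf fun t => g6661 t u5
    have u7 := bt fun t => g6667 g6670 t u6
    have u8 := bf fun t => s6861 t u7 u3 n3 n5 n6 n7
    have u9 := bt fun t => g1840 n5 u8 t n7 g6638
    have u10 := bt fun t => g676 n3 g6632 n6 u8 t
    have u11 := bt fun t => g1821 n5 u9 t u2 u1
    have u12 := bf fun t => g70 u10 t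
    have u13 := bt fun t => g1001 n2 g6632 u11 t
    have u14 := bt fun t => g992 n2 w6724 u11 t u4
    have u15 := bt fun t => g5931 u12 u13 g6639 u0 t
    exact g2578 n4 n0 u14 n1 w6726 u15
  have s6863 : T.X p a s c = false → T.X p s b c = false → T.alt p a s b c = true → T.alt p a s c d = true → T.X p c a b = false → T.X p a c d = true → False := fun n0 n1 n2 n3 n4 n5 => by
    have u0 := bf fun t => g697 n2 g6632 n4 t
    have u1 := bf fun t => g3371 g6632 n4 u0 n1 t
    have u2 := bt fun t => g664 n2 w6725 t u0 n1 u1
    have u3 := bt fun t => g1840 n3 n0 t n5 g6638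
    have u4 := bt fun t => g676 n2 g6632 n4 n0 t
    have u5 := bt fun t => g3348 w6724 u2 u3 n1 t
    exact g71 u4 u5
  have s6864 : T.X a b s c = true → v155 = true → T.X p a s c = true → T.alt p a d b s = true → T.X a s c d = true → T.alt p a s b c = true → T.alt p b s c d = true → T.X p c a b = false → T.alt p a d b c = true → False := fun n0 n1 n2 n3 n4 n5 n6 n7 n8 => by
    have u0 := bt fun t => g709 n5 g6632 n7 n2 t n0
    have u1 := bf fun t => g6640 t n2 n0
    have u2 := bt fun t => g6647 t u1 u0
    have u3 := bf fun t => g6662 t u2 n1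
    have u4 := bt fun t => g6667 g6670 u3 t
    have u5 := bt fun t => g6660 u4 t
    have u6 := bf fun t => g1168 n8 t u5 g6639
    have u7 := bt fun t => g2551 n6 u5 g6638 t
    have u8 := bf fun t => g959 n3 g6632 u6 t
    have u9 := bf fun t => g101 u7 t
    exact g5916 n0 u8 g6639 n4 u9
  have s6865 : T.alt p a r c d = true → T.alt p a d b c = true → T.alt p a d r c = false → T.X p a c d = true → T.alt p a r b d = false → T.alt p a s b d = false → False := fun n0 n1 n2 n3 n4 n5 => by
    have u0 := bf fun t => g1182 n1 t n3 g6639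
    have u1 := bf fun t => g1013 t n1
    have u2 := bf fun t => g6457 n4 n5 t
    have u3 := bt fun t => s6855 t u2 n5 n0 n2
    have u4 := bf fun t => g1737 u3 t
    have u5 := bt fun t => g6550 u1 u3 t
    have u6 := bt fun t => g6517 t n5 u3
    have u7 := bt fun t => g1827 u3 n3 g6638 t
    have u8 := bt fun t => g6526 t n1 u4
    have u9 := bf fun t => s6860 t n0 n1 n2 n3 n4 n5
    have u10 := bf fun t => s6862 t u9 u8 u6 u5 u3 u0 n3
    have u11 := bt fun t => s6863 t u10 u6 u3 u0 n3
    have u12 := bt fun t => g6648 t u3 u11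
    have u13 := bt fun t => g6652 t n3 u12
    have u14 := bf fun t => s6864 t u13 u11 u8 u7 u6 u5 u0 n1
    have u15 := bf fun t => g688 u6 g6632 t u14
    have u16 := bf fun t => g6656 t u5 u15
    have u17 := bf fun t => s6861 u11 t u15 u6 u3 u0 n3
    have u18 := bf fun t => g6661 t u16
    exact g6667 g6670 u17 u18
  have s6866 : T.X p a c d = true → T.alt p a r b d = false → T.alt p a b r d = false → T.alt p a s b d = false → False := fun n0 n1 n2 n3 => by
    have u0 := bt fun t => g468 n2 n1 t
    have u1 := bf fun t => s6848 t n0 n1 n2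
    have u2 := bt fun t => g6484 u0 t u1
    have u3 := bf fun t => g1013 t u2
    have u4 := bf fun t => g1182 u2 t n0 g6639
    have u5 := bf fun t => g6472 t n2 u3
    have u6 := bf fun t => s6865 t u2 u1 n0 n1 n3
    have u7 := bf fun t => g6476 t n1 u6
    have u8 := bf fun t => g6509 u3 u6 t
    have u9 := bt fun t => s6852 u6 t u5 u1 n0 u0 n1
    have u10 := bt fun t => g287 u5 u7 t
    have u11 := bf fun t => g6701 u9 t
    have u12 := bt fun t => s6844 t u4 u10
    exact s6769 u1 u12 u6 u5 u11 u8
  have s6867 : T.alt p a s c d = true → T.alt p a c r d = true → T.alt p a d r c = false → False := fun n0 n1 n2 => by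
    have u0 := bf fun t => g1736 n0 t
    have u1 := bf fun t => g1737 n0 t
    have u2 := bt fun t => g6562 t n1 u0
    have u3 := bf fun t => g6564 t n2 u1
    exact g6721 u2 u3
  have s6868 : T.alt p a d s c = false → T.alt p b c s d = true → T.alt p a s c d = false → T.alt p a d b c = true → T.X p c a b = false → T.X p a c d = false → False := fun n0 n1 n2 n3 n4 n5 => by
    have u0 := bf fun t => g1152 n3 n4 n5 t g6639
    have u1 := bf fun t => g2508 n1 t u0 g6638
    have u2 := bf fun t => g1013 t n3
    have u3 := bf fun t => g6549 u2 n2 t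
    have u4 := bf fun t => g1156 n3 n4 t n5 g6639
    have u5 := bt fun t => g6526 t n3 n0
    have u6 := bt fun t => g1735 n2 t n0
    have u7 := bt fun t => g6530 t u5 u3
    have u8 := bt fun t => g970 u5 g6632 u4 u1 t
    have u9 := bf fun t => g1784 u6 t n5 g6638
    have u10 := bf fun t => g778 u7 g6632 n4 t
    have u11 := bf fun t => g3525 w6725 u4 t u1 u8
    have u12 := bf fun t => g3540 w6724 u4 u9 t u8
    have u13 := bt fun t => g1758 u6 u11 n5 g6638 t
    have u14 := bt fun t => g2482 n1 u12 u0 g6638 t
    have u15 := bt fun t => g5931 u10 u8 g6639 u13 t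
    exact g100 u14 u15
  have s6869 : T.alt p a s c d = false → T.alt p b d s c = false → T.alt p a d b c = true → T.X p c a b = false → T.X p a c d = false → False := fun n0 n1 n2 n3 n4 => by
    have u0 := bf fun t => g1152 n2 n3 n4 t g6639
    have u1 := bf fun t => g1013 t n2
    have u2 := bf fun t => g6549 u1 n0 t
    have u3 := bt fun t => g2459 u2 t n1
    have u4 := bf fun t => g2508 u3 t u0 g6638
    have u5 := bt fun t => s6868 t u3 n0 n2 n3 n4
    have u6 := bf fun t => g6523 t n2 u5
    have u7 := bt fun t => g6542 t u5 n1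
    exact s6800 n2 n4 u4 u6 u7 n3
  have s6871 : T.X p r c d = false → T.X p r a d = true → T.alt p b r c d = true → T.alt p a r b c = true → T.alt p a r c d = true → T.X p d a b = false → T.X p b c d = false → T.X p c a b = false → T.X p a c d = false → T.alt p a d b r = true → False := fun n0 n1 n2 n3 n4 n5 n6 n7 n8 n9 => by
    have u0 := bf fun t => g19 t n1
    have u1 := bf fun t => g335 n3 g6631 n7 t
    have u2 := bf fun t => s6842 t n5 n9
    have u3 := bf fun t => g597 n9 g6631 n5 t
    have u4 := bt fun t => g1628 n4 u1 u2 n8 n0 t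
    have u5 := bf fun t => g86 u4 t
    have u6 := bf fun t => g4213 u1 u0 n8 t u4
    have u7 := bf fun t => g4224 t n1 n8 n0 u5
    have u8 := bf fun t => g2381 n2 t n6 n0 u6
    have u9 := bt fun t => g314 n3 g6631 n7 u7 t
    have u10 := bt fun t => g608 n9 g6631 n5 u8 t
    have u11 := bf fun t => g64 u9 t
    have u12 := bt fun t => g5746 u9 u3 g6639 u4 t
    have u13 := bt fun t => g5761 u11 u10 g6639 u4 t
    exact g99 u13 u12
  have s6872 : T.X p a r c = false → v161 = false → T.alt p a r b c = true → T.X p c a b = false → False := fun n0 n1 n2 n3 => by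
    have u0 := bf fun t => g335 n2 g6631 n3 t
    have u1 := bt fun t => s6739 n0 n3 n2 t
    have u2 := bt fun t => g314 n2 g6631 n3 n0 t
    have u3 := bt fun t => g6677 n1 u1 t
    have u4 := bf fun t => g64 u2 t
    have u5 := bf fun t => g34 u3 t
    have u6 := bf fun t => g336 n2 t n0 u3
    exact g302 n2 w6723 u6 u0 u5 u4
  have s6873 : T.X a b r c = true → v161 = false → T.alt p a r b c = true → T.X p c a b = false → False := fun n0 n1 n2 n3 => by
    have u0 := bt fun t => s6872 t n1 n2 n3
    have u1 := bt fun t => g347 n2 g6631 n3 u0 t n0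
    have u2 := bf fun t => g6671 t u0 n0
    exact g6678 n1 u2 u1
  have s6874 : v161 = false → T.alt p a r b c = true → T.X p c a b = false → False := fun n0 n1 n2 => by
    have u0 := bt fun t => s6872 t n0 n1 n2
    have u1 := bf fun t => s6873 t n0 n1 n2
    have u2 := bt fun t => g6673 t u0 u1
    have u3 := bf fun t => g326 n1 g6631 t u1
    exact g6677 n0 u2 u3
  have s6875 : T.X p a r c = true → T.X a r c d = true → T.X p r c d = false → T.X p c b r = false → T.alt p b r c d = true → T.alt p a r c d = true → T.X p d a b = false → T.X p b c d = false → T.X p c a b = false → T.X p a c d = false → T.alt p a d b r = true → False := fun n0 n1 n2 n3 n4 n5 n6 n7 n8 n9 n10 => by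
    have u0 := bf fun t => g85 n1 t
    have u1 := bf fun t => s6842 t n6 n10
    have u2 := bf fun t => g16 n0 t
    have u3 := bt fun t => g4235 n0 u1 n9 t n1
    have u4 := bf fun t => g3069 g6631 n8 u2 n3 t
    have u5 := bf fun t => g57 t u3
    have u6 := bf fun t => g1657 n5 t n9 n2 u5
    have u7 := bf fun t => g2381 n4 t n7 n2 u5
    have u8 := bt fun t => g608 n10 g6631 n6 u7 t
    have u9 := bf fun t => g3200 w6722 n6 u6 t u8
    have u10 := bf fun t => g5756 u4 u8 g6639 u0 t
    exact g2352 n4 n3 u9 n7 n2 u10
  have s6876 : T.alt p a d b c = true → T.X p c a b = false → T.alt p a r b d = false → T.alt p a b r d = false → T.alt p a s b d = false → False := fun n0 n1 n2 n3 n4 => by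
    have u0 := bf fun t => s6866 t n2 n3 n4
    have u1 := bf fun t => g6684 t u0
    have u2 := bt fun t => g468 n3 n2 t
    have u3 := bf fun t => g1013 t n0
    have u4 := bf fun t => g1014 t n0
    have u5 := bf fun t => g1152 n0 n1 u0 t g6639
    have u6 := bf fun t => g1156 n0 n1 t u0 g6639
    have u7 := bf fun t => g6483 u2 n0 t
    have u8 := bf fun t => g6497 n2 u4 t
    have u9 := bf fun t => g6537 n4 u4 t
    have u10 := bf fun t => g6691 t u5
    have u11 := bf fun t => g597 u2 g6631 u6 t
    have u12 := bf fun t => s6842 t u6 u2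
    have u13 := bt fun t => s6869 t u9 n0 n1 u0
    have u14 := bf fun t => g1737 u13 t
    have u15 := bt fun t => g6550 u3 u13 t
    have u16 := bf fun t => s6867 u13 t u7
    have u17 := bt fun t => g6526 t n0 u14
    have u18 := bf fun t => g6505 n3 u16 t
    have u19 := bt fun t => g1554 t u16 u7
    have u20 := bf fun t => g959 u17 g6632 u6 t
    have u21 := bt fun t => g6494 t n0 u18
    have u22 := bt fun t => g2278 t u18 u8
    have u23 := bf fun t => g335 u21 g6631 n1 t
    have u24 := bf fun t => g301 u21 w6722 w6723 u23 t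
    have u25 := bt fun t => s6874 t u21 n1
    have u26 := bt fun t => g6695 t u25 u1
    have u27 := bt fun t => g6699 t u26 u10
    have u28 := bf fun t => g6701 t u27
    have u29 := bt fun t => g1628 u19 u23 u12 u0 u28 t
    have u30 := bf fun t => s6871 u28 t u22 u21 u19 u6 u5 n1 u0 u2
    have u31 := bt fun t => g627 u2 g6631 t u6 u30
    have u32 := bf fun t => g10 t u31
    have u33 := bf fun t => g3213 w6723 u31 u30 t u11
    have u34 := bf fun t => s6875 t u29 u28 u24 u22 u19 u6 u5 n1 u0 u2
    have u35 := bt fun t => s6739 u34 n1 u21 t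
    have u36 := bt fun t => g314 u21 g6631 n1 u34 t
    have u37 := bf fun t => g1627 u19 u34 u23 u12 t
    have u38 := bf fun t => g6675 u25 u35 t
    have u39 := bt fun t => g5746 u36 u11 g6639 u29 t
    have u40 := bt fun t => g2367 u22 u38 u33 t u37 u39
    have u41 := bf fun t => g979 u17 w6725 u32 t u20
    exact g2568 u15 u41 u40 g6638
  have s6877 : T.alt p a b s c = true → T.X p b s c = false → v153 = true → T.X p c a b = false → False := fun n0 n1 n2 n3 => by
    have u0 := bt fun t => g6645 n2 t n1
    have u1 := bt fun t => s6796 n1 n2 n3 t n0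
    have u2 := bt fun t => g742 n0 g6632 u1 t
    exact g6640 u0 u1 u2
  have s6878 : T.X p d a b = false → T.X p b c d = false → T.alt p a d b c = false → T.X p c a b = false → T.X p a c d = false → T.alt p a s b d = false → False := fun n0 n1 n2 n3 n4 n5 => by
    have u0 := bf fun t => g6653 t n4
    have u1 := bf fun t => g6660 t n1
    have u2 := bt fun t => g6667 g6670 t u1
    have u3 := bt fun t => g6663 u2 t u0
    have u4 := bf fun t => g1085 t n3 n0 n4 n1 g6639
    have u5 := bt fun t => g1011 u4 t n2
    have u6 := bt fun t => g6538 n5 u5 t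
    have u7 := bf fun t => g2461 t u6
    have u8 := bf fun t => g2462 t u6
    have u9 := bf fun t => g2626 u6 t n1 g6638
    have u10 := bf fun t => g6532 t n2 u8
    have u11 := bf fun t => s6877 t u9 u3 n3
    have u12 := bt fun t => g649 u11 u10 t
    have u13 := bt fun t => g6541 u11 t u6
    have u14 := bt fun t => g6528 u12 t u7
    have u15 := bt fun t => g789 u12 g6632 n3 u9 t
    have u16 := bf fun t => g1902 u13 t n4 g6638
    have u17 := bf fun t => g959 u14 g6632 n0 t
    have u18 := bf fun t => g3370 w6724 n3 u16 t u15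
    have u19 := bf fun t => g3355 w6725 n3 t u9 u15
    have u20 := bt fun t => g2600 u6 u18 n1 g6638 t
    have u21 := bt fun t => g1876 u13 u19 n4 g6638 t
    have u22 := bt fun t => g5916 u15 u17 g6639 u21 t
    exact g101 u20 u22
  have s6879 : T.alt p a b s c = true → T.X p a s c = false → T.X p c a b = false → v153 = true → False := fun n0 n1 n2 n3 => by
    have u0 := bt fun t => s6796 t n3 n2 n1 n0
    have u1 := bf fun t => g6644 n3 t u0
    have u2 := bt fun t => g743 n0 g6632 u0 t
    exact g6643 u1 n1 u2
  have s6880 : T.alt p a d s c = true → T.alt p b d s c = false → v153 = true → T.X p c a b = false → T.X p a c d = false → False := fun n0 n1 n2 n3 n4 => by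
    have u0 := bf fun t => g1902 n0 t n4 g6638
    have u1 := bt fun t => g6542 t n0 n1
    exact s6879 u1 u0 n3 n2
  have s6881 : T.X p b c d = false → T.alt p a d r c = true → T.alt p a d b c = false → T.X p c a b = false → T.X p a c d = false → T.bfo p a b s d = true → False := fun n0 n1 n2 n3 n4 n5 => by
    have u0 := bf fun t => g1557 t n1
    have u1 := bf fun t => g6653 t n4
    have u2 := bf fun t => s6857 t n5
    have u3 := bf fun t => g6660 t n0
    have u4 := bt fun t => g6667 g6670 t u3
    have u5 := bt fun t => g6663 u4 t u1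
    have u6 := bt fun t => s6878 t n0 n2 n3 n4 u2
    have u7 := bf fun t => g12 t u6
    have u8 := bf fun t => g1033 t n3 u6 n0 g6639
    have u9 := bf fun t => g6537 u2 u8 t
    have u10 := bf fun t => g6480 t u8 u0
    have u11 := bf fun t => s6880 t u9 u5 n3 n4
    have u12 := bt fun t => g6566 t n1 u11
    have u13 := bf fun t => g6524 t n2 u11
    have u14 := bt fun t => g6720 t u12
    have u15 := bt fun t => g6718 n5 t u13
    have u16 := bt fun t => g6405 u10 t u14
    have u17 := bt fun t => g6560 u14 u0 t
    have u18 := bt fun t => g6716 n5 u15 t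
    have u19 := bt fun t => g921 u15 g6632 u6 t
    have u20 := bf fun t => g778 u16 g6632 n3 t
    have u21 := bt fun t => g6528 u16 u13 t
    have u22 := bf fun t => g27 u18 t
    have u23 := bf fun t => g939 u15 u7 u18 t
    have u24 := bf fun t => g3610 u6 u18 t u19
    have u25 := bt fun t => g1758 u17 u22 n4 g6638 t
    have u26 := bt fun t => g3590 g6632 u6 u23 u24 t u19
    have u27 := bt fun t => g5931 u20 u19 g6639 u25 t
    have u28 := bt fun t => g2555 u21 u26 g6638 t
    exact g100 u28 u27
  have s6882 : T.alt p a d s c = false → v153 = true → T.alt p a d r c = true → T.alt p a d b c = false → T.X p c a b = false → T.X p a c d = false → T.bfo p a b s d = true → False := fun n0 n1 n2 n3 n4 n5 n6 => by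
    have u0 := bt fun t => s6881 t n2 n3 n4 n5 n6
    have u1 := bf fun t => g6653 t n5
    have u2 := bt fun t => g6664 t n1 u1
    have u3 := bf fun t => g6666 g6670 u2 t
    have u4 := bf fun t => g6659 u3 u0 t
    have u5 := bf fun t => g47 u0 t
    have u6 := bf fun t => g1557 t n2
    have u7 := bf fun t => s6857 t n6
    have u8 := bt fun t => g6566 t n2 n0
    have u9 := bf fun t => g6524 t n3 n0
    have u10 := bf fun t => g1376 t u8
    have u11 := bt fun t => g6720 t u8
    have u12 := bt fun t => g6718 n6 t u9
    have u13 := bf fun t => g6440 t u7 u10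
    have u14 := bf fun t => g1195 t u11
    have u15 := bt fun t => g6560 u11 u6 t
    have u16 := bt fun t => g6716 n6 u12 t
    have u17 := bf fun t => g6402 u13 t u14
    have u18 := bf fun t => g6557 u14 u10 t
    have u19 := bf fun t => g27 u16 t
    have u20 := bt fun t => g1758 u15 u19 n5 g6638 t
    have u21 := bf fun t => g4405 t u19 n5 w6727 u20
    have u22 := bf fun t => s6879 t u21 n4 n1
    have u23 := bt fun t => g6514 u22 u12 t
    have u24 := bt fun t => g649 u22 u17 t
    have u25 := bt fun t => g6548 u23 u18 t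
    have u26 := bf fun t => g778 u24 g6632 n4 t
    have u27 := bt fun t => g2551 u25 u0 g6638 t
    have u28 := bf fun t => g6655 u4 u25 t
    have u29 := bf fun t => g100 u27 t
    have u30 := bt fun t => g2564 u25 u28 t u0 g6638
    have u31 := bf fun t => g5931 u26 t g6639 u20 u29
    have u32 := bt fun t => g2545 u25 u30 t u5 u29
    exact g924 u12 g6632 u32 u31
  have s6883 : v153 = true → T.alt p a d r c = true → T.alt p a d b c = false → T.X p c a b = false → T.X p a c d = false → T.bfo p a b s d = true → False := fun n0 n1 n2 n3 n4 n5 => by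
    have u0 := bt fun t => s6881 t n1 n2 n3 n4 n5
    have u1 := bf fun t => g6653 t n4
    have u2 := bt fun t => g6664 t n0 u1
    have u3 := bf fun t => g6666 g6670 u2 t
    have u4 := bf fun t => g6659 u3 u0 t
    have u5 := bt fun t => s6882 t n0 n1 n2 n3 n4 n5
    have u6 := bt fun t => s6880 u5 t n0 n3 n4
    have u7 := bf fun t => g2461 t u6
    exact g6657 u4 u7 u6
  have s6885 : T.X p b s c = true → T.alt p a c b s = true → T.X p a s c = false → v153 = false → T.X p c a b = false → False := fun n0 n1 n2 n3 n4 => by
    have u0 := bf fun t => g828 n1 g6632 n4 n2 n0 t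
    have u1 := bt fun t => g6647 n3 t n0
    exact g6641 u1 n2 u0
  have s6886 : T.alt p a c b s = true → T.X p a s c = false → T.X p c a b = false → v153 = false → False := fun n0 n1 n2 n3 => by
    have u0 := bf fun t => s6885 t n0 n1 n3 n2
    have u1 := bt fun t => g789 n0 g6632 n2 u0 t
    have u2 := bf fun t => g6646 n3 t u0
    exact g6643 u2 n1 u1
  have s6887 : T.alt p a d s c = true → v153 = false → T.X p b c d = true → T.alt p a d b c = false → T.X p c a b = false → T.X p a c d = false → T.alt p a s b d = false → False := fun n0 n1 n2 n3 n4 n5 n6 => by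
    have u0 := bf fun t => g6653 t n5
    have u1 := bf fun t => g6663 t n1 u0
    have u2 := bt fun t => g6667 g6670 u1 t
    have u3 := bt fun t => g6661 u2 t
    have u4 := bf fun t => g1737 t n0
    have u5 := bf fun t => g1738 t n0
    have u6 := bt fun t => g6525 t n3 n0
    have u7 := bf fun t => g1902 n0 t n5 g6638
    have u8 := bf fun t => g6516 t n6 u4
    have u9 := bf fun t => s6886 t u7 n4 n1
    have u10 := bf fun t => g6522 u9 t u5
    have u11 := bt fun t => g6530 u9 u6 t
    have u12 := bt fun t => g649 t u8 u9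
    have u13 := bt fun t => g1011 t u10 n3
    have u14 := bt fun t => g2551 u11 n2 g6638 t
    have u15 := bt fun t => g6656 u3 u11 t
    have u16 := bf fun t => g1107 u13 t n2 g6639
    have u17 := bf fun t => g101 u14 t
    have u18 := bf fun t => g40 u15 t
    have u19 := bt fun t => g743 u12 g6632 u15 t
    have u20 := bf fun t => g959 u6 g6632 u16 t
    have u21 := bf fun t => g70 u19 t
    have u22 := bf fun t => g5916 u19 u20 g6639 t u17
    have u23 := bf fun t => g730 u12 w6725 t u18 u21
    exact g1876 n0 u23 n5 g6638 u22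
  have s6888 : T.X p c a b = false → T.alt p a b r d = false → T.bfo p a b s d = true → False := fun n0 n1 n2 => by
    have u0 := bf fun t => s6857 t n2
    have u1 := bf fun t => s6835 t n2
    have u2 := bf fun t => g6713 u1 n1 t
    have u3 := bf fun t => s6866 t u2 n1 u0
    have u4 := bt fun t => g468 n1 u2 t
    have u5 := bf fun t => s6876 t n0 u2 n1 u0
    have u6 := bt fun t => g6484 u4 u5 t
    have u7 := bf fun t => g1557 t u6
    have u8 := bt fun t => s6881 t u6 u5 n0 u3 n2
    have u9 := bf fun t => s6883 t u6 u5 n0 u3 n2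
    have u10 := bf fun t => s6887 t u9 u8 u5 n0 u3 u0
    have u11 := bt fun t => g6566 t u6 u10
    have u12 := bf fun t => g6524 t u5 u10
    have u13 := bt fun t => g6720 t u11
    have u14 := bt fun t => g6718 n2 t u12
    have u15 := bt fun t => g6560 u13 u7 t
    have u16 := bt fun t => g6716 n2 u14 t
    have u17 := bf fun t => g27 u16 t
    have u18 := bt fun t => g1758 u15 u17 u3 g6638 t
    have u19 := bf fun t => g89 u18 t
    have u20 := bf fun t => g4405 t u17 u3 w6727 u18
    have u21 := bt fun t => g1755 u15 u16 t w6727 u19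
    have u22 := bf fun t => s6886 t u20 n0 u9
    have u23 := bt fun t => g3747 n0 t u21 u8 g6639
    have u24 := bt fun t => g6521 u22 t u15
    have u25 := bf fun t => g12 u23 t
    exact g1034 u24 u25 u3 u8 g6639
  have s6889 : T.alt p a c b s = false → T.X p c a d = true → T.X a s c d = true → T.alt p a s b c = false → T.alt p a c s d = true → T.alt p a b s d = true → T.X p c a b = true → T.X p a c d = false → False := fun n0 n1 n2 n3 n4 n5 n6 n7 => by
    have u0 := bf fun t => g89 n2 t
    have u1 := bf fun t => g88 n2 t
    have u2 := bf fun t => g8 t n6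
    have u3 := bt fun t => g649 t n3 n0
    have u4 := bt fun t => g6521 n0 t n4
    have u5 := bt fun t => g740 u3 g6632 n6 t
    have u6 := bt fun t => g1038 u4 n6 t n7 g6639
    have u7 := bf fun t => g70 u5 t
    have u8 := bf fun t => g12 t u6
    have u9 := bt fun t => g921 n5 g6632 u6 t
    have u10 := bt fun t => g1035 u4 u2 u8 n1 t
    have u11 := bt fun t => g5931 u7 u9 g6639 n2 t
    exact g6007 u5 u9 u10 u1 u0 u11
  have s6890 : T.X a b s c = true → v153 = true → T.alt p a c b s = true → T.X p a s c = false → T.X p c a b = true → False := fun n0 n1 n2 n3 n4 => by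
    have u0 := bt fun t => g826 n2 g6632 n4 n3 t n0
    have u1 := bt fun t => g6643 t n3 n0
    exact g6644 n1 u1 u0
  have s6891 : T.alt p a d b c = false → T.alt p a d s c = false → T.alt p a b r d = false → T.bfo p a b s d = true → False := fun n0 n1 n2 n3 => by
    have u0 := bt fun t => s6888 t n2 n3
    have u1 := bf fun t => s6857 t n3
    have u2 := bf fun t => s6835 t n3
    have u3 := bf fun t => g6713 u2 n2 t
    have u4 := bf fun t => s6866 t u3 n2 u1
    have u5 := bf fun t => g6653 t u4
    have u6 := bt fun t => g468 n2 u3 t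
    have u7 := bt fun t => g6484 u6 n0 t
    have u8 := bf fun t => g6524 t n0 n1
    have u9 := bf fun t => g1557 t u7
    have u10 := bt fun t => g6566 t u7 n1
    have u11 := bt fun t => g6718 n3 t u8
    have u12 := bf fun t => g1376 t u10
    have u13 := bt fun t => g6720 t u10
    have u14 := bt fun t => g6716 n3 u11 t
    have u15 := bf fun t => g6440 t u1 u12
    have u16 := bf fun t => g1195 t u13
    have u17 := bt fun t => g6560 u13 u9 t
    have u18 := bf fun t => g25 t u14
    have u19 := bf fun t => g27 u14 t
    have u20 := bf fun t => g6402 u15 t u16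
    have u21 := bt fun t => g1758 u17 u19 u4 g6638 t
    have u22 := bf fun t => g88 u21 t
    have u23 := bf fun t => g89 u21 t
    have u24 := bf fun t => g4405 t u19 u4 w6727 u21
    have u25 := bt fun t => g1755 u17 u14 t w6727 u23
    have u26 := bf fun t => g30 u25 t
    have u27 := bt fun t => g1750 u17 t u18 u26 w6726 u22
    have u28 := bf fun t => g24 u27 t
    have u29 := bt fun t => s6889 t u25 u21 u20 u17 u11 u0 u4
    have u30 := bf fun t => g651 t u29
    have u31 := bt fun t => g6514 u30 u11 t
    have u32 := bf fun t => g1105 u31 u0 t g6639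
    have u33 := bf fun t => g6660 t u32
    have u34 := bt fun t => g6667 g6670 t u33
    have u35 := bt fun t => g6663 u34 t u5
    have u36 := bf fun t => s6890 t u35 u29 u24 u0
    have u37 := bf fun t => g3353 w6725 u0 u28 t u36
    have u38 := bf fun t => g6641 t u24 u36
    exact g6645 u35 u38 u37
  have s6892 : T.X p a s c = false → T.alt p a c b s = true → T.X p c a b = true → v153 = true → False := fun n0 n1 n2 n3 => by
    have u0 := bf fun t => s6890 t n3 n1 n0 n2
    have u1 := bf fun t => g806 n1 n2 t u0
    have u2 := bf fun t => g6641 t n0 u0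
    exact g6645 n3 u2 u1
  have s6894 : T.alt p a c b s = true → T.alt p b d s c = false → T.alt p a d b s = true → T.alt p a c b d = false → T.X p c a b = true → T.X p a c d = false → False := fun n0 n1 n2 n3 n4 n5 => by
    have u0 := bf fun t => g6653 t n5
    have u1 := bt fun t => g6520 n0 n3 t
    have u2 := bf fun t => g6527 n0 n2 t
    have u3 := bf fun t => g1784 u1 t n5 g6638
    have u4 := bf fun t => g6658 t u2 n1
    have u5 := bf fun t => g6661 t u4
    have u6 := bt fun t => g6667 g6670 t u5
    have u7 := bt fun t => g6663 u6 t u0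
    have u8 := bt fun t => s6892 t n0 n4 u7
    have u9 := bf fun t => g22 u8 t
    have u10 := bf fun t => g1787 u1 u8 t w6727
    have u11 := bf fun t => g4421 u8 u3 u10 w6727 t
    exact g1750 u1 u9 u3 u10 w6726 u11
  have s6895 : T.X p b s c = false → T.alt p a s b c = true → T.alt p b s c d = true → T.X p c a b = true → v155 = false → False := fun n0 n1 n2 n3 n4 => by
    have u0 := bf fun t => g6656 t n2 n0
    have u1 := bf fun t => s6822 n0 t n1 n3
    have u2 := bf fun t => g6661 t u0
    have u3 := bf fun t => g6663 t u1 n4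
    exact g6667 g6670 u3 u2
  have s6896 : T.alt p a d s c = false → T.alt p a b r d = false → T.bfo p a b s d = true → False := fun n0 n1 n2 => by
    have u0 := bt fun t => s6888 t n1 n2
    have u1 := bf fun t => s6857 t n2
    have u2 := bf fun t => s6835 t n2
    have u3 := bf fun t => g6713 u2 n1 t
    have u4 := bf fun t => s6866 t u3 n1 u1
    have u5 := bf fun t => g6653 t u4
    have u6 := bt fun t => s6891 t n0 n1 n2
    have u7 := bf fun t => g1014 t u6
    have u8 := bt fun t => g6526 t u6 n0
    have u9 := bf fun t => g6537 u1 u7 t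
    have u10 := bf fun t => g6540 t n0 u9
    have u11 := bf fun t => s6894 t u9 u8 u7 u0 u4
    have u12 := bt fun t => g6530 u11 u8 t
    have u13 := bt fun t => g649 u10 t u11
    have u14 := bt fun t => s6895 t u13 u12 u0 u5
    have u15 := bf fun t => g3436 g6632 u0 t u14
    have u16 := bf fun t => g2570 u12 u14 t w6727
    have u17 := bt fun t => g688 u13 g6632 u14 t
    have u18 := bt fun t => g6643 t u15 u17
    have u19 := bf fun t => g6644 t u18 u14
    have u20 := bf fun t => g6663 t u19 u5
    have u21 := bt fun t => g6667 g6670 u20 t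
    have u22 := bt fun t => g6660 u21 t
    have u23 := bf fun t => g46 u22 t
    have u24 := bf fun t => g1168 u6 t u22 g6639
    have u25 := bt fun t => g2551 u12 u22 g6638 t
    have u26 := bf fun t => g3744 u0 t u4 u23 g6639
    have u27 := bf fun t => g959 u8 g6632 u24 t
    have u28 := bf fun t => g5126 u14 t g6638 u25
    have u29 := bt fun t => g5122 u28 t u16 u22 g6638 u25
    exact g979 u8 w6725 u26 u29 u27
  have s6897 : T.X p b s c = true → T.alt p a b s c = true → T.X p c a b = true → False := fun n0 n1 n2 => by
    have u0 := bt fun t => g740 n1 g6632 n2 t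
    have u1 := bf fun t => g70 u0 t
    have u2 := bf fun t => g9 t n2
    have u3 := bf fun t => g40 n0 t
    have u4 := bf fun t => g758 n1 u2 t n0
    have u5 := bf fun t => g730 n1 w6725 t u3 u1
    exact g759 n1 g6632 n2 u4 u5
  have s6898 : T.X p s a c = false → T.alt p b d r c = false → T.alt p a b s c = true → T.alt p a r b c = false → T.alt p a d s c = true → T.X p c a b = true → T.X p a c d = false → T.alt p a d b r = true → T.alt p a b r d = false → False := fun n0 n1 n2 n3 n4 n5 n6 n7 n8 => by
    have u0 := bf fun t => g1902 n4 t n6 g6638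
    have u1 := bf fun t => g6684 t n6
    have u2 := bf fun t => g6707 t n2 n0
    have u3 := bf fun t => g1900 n4 u0 n0 t w6727
    have u4 := bt fun t => g6710 n5 t u2
    have u5 := bf fun t => s6761 t u4
    have u6 := bt fun t => g6705 u4 t n3
    have u7 := bt fun t => g6490 u5 n7 t
    have u8 := bt fun t => g6472 u6 n8 t
    have u9 := bt fun t => g6500 u6 t n1
    have u10 := bt fun t => g6703 u4 u6 t
    have u11 := bt fun t => g378 u6 g6631 n5 t
    have u12 := bf fun t => g1105 u8 n5 t g6639
    have u13 := bf fun t => g1102 u8 n5 t g6639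
    have u14 := bf fun t => g17 t u10
    have u15 := bf fun t => g357 u6 w6723 u10 t
    have u16 := bf fun t => g3097 g6631 u10 t u11
    have u17 := bf fun t => g64 u11 t
    have u18 := bf fun t => g6691 t u12
    have u19 := bf fun t => g597 n7 g6631 u13 t
    have u20 := bf fun t => s6842 t u13 n7
    have u21 := bt fun t => g6674 t u14 u11
    have u22 := bt fun t => g368 u6 w6723 u10 t u17
    have u23 := bf fun t => g34 t u22
    have u24 := bt fun t => g6677 t u21 u23
    have u25 := bt fun t => g6695 t u24 u1
    have u26 := bt fun t => g6699 t u25 u18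
    have u27 := bf fun t => g6701 t u26
    have u28 := bt fun t => g1694 u9 u10 u20 u27 t
    have u29 := bf fun t => g4220 u14 u20 n6 t u28
    have u30 := bt fun t => g5746 u11 u19 g6639 u28 t
    have u31 := bf fun t => g98 t u30
    have u32 := bt fun t => g2352 u7 u16 t u12 u27 u31
    have u33 := bf fun t => g5787 u15 u19 t u28 u31
    have u34 := bf fun t => g3209 w6722 t u20 u32 u19
    have u35 := bt fun t => g4940 u16 u32 t u29 u30
    exact g1093 u8 u34 u3 u35 u33
  have s6899 : T.X p d a b = false → T.X p b c d = false → T.X a s c d = true → T.X p c b s = true → T.X a b s c = true → T.alt p a c b s = false → T.alt p a d s c = true → T.X p c a b = true → False := fun n0 n1 n2 n3 n4 n5 n6 n7 => by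
    have u0 := bf fun t => g1151 t n7 n0 n1 g6639
    have u1 := bt fun t => g6525 t u0 n6
    have u2 := bt fun t => g6530 n5 u1 t
    have u3 := bf fun t => g959 u1 g6632 n0 t
    have u4 := bt fun t => g2553 u2 n3 g6638 t
    have u5 := bt fun t => g5916 n4 u3 g6639 n2 t
    exact g101 u4 u5
  have s6900 : T.X p d a b = true → T.X p d a c = true → T.X a s c d = true → T.X p c b s = true → T.alt p a b s c = true → T.alt p a c b d = false → T.alt p a s b c = false → T.X p c a b = true → False := fun n0 n1 n2 n3 n4 n5 n6 n7 => by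
    have u0 := bf fun t => g88 n2 t
    have u1 := bt fun t => g740 n4 g6632 n7 t
    have u2 := bf fun t => g71 u1 t
    have u3 := bf fun t => g70 u1 t
    have u4 := bf fun t => g9 t n7
    have u5 := bf fun t => g11 t n0
    have u6 := bf fun t => g1102 t n7 n0 g6639
    have u7 := bt fun t => g1011 u6 n5 t
    have u8 := bt fun t => g6512 n4 t u6
    have u9 := bt fun t => g6534 n6 u7 t
    have u10 := bt fun t => g1153 u7 u4 u5 n1 t
    have u11 := bt fun t => g921 u8 g6632 n0 t
    have u12 := bt fun t => g2498 u9 n3 g6638 t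
    have u13 := bf fun t => g6015 u3 u2 t u10 n2 u12
    have u14 := bf fun t => g5938 u3 u13 u10 u0 t
    exact g5931 u3 u11 g6639 n2 u14
  have s6901 : T.alt p a c b s = false → T.alt p a r b c = false → T.alt p a s b c = false → T.alt p a d s c = true → T.X p c a b = true → T.X p a c d = false → T.alt p a r b d = false → T.alt p a b r d = false → False := fun n0 n1 n2 n3 n4 n5 n6 n7 => by
    have u0 := bf fun t => g1738 t n3
    have u1 := bf fun t => g9 t n4
    have u2 := bt fun t => g468 n7 n6 t
    have u3 := bf fun t => g6522 n0 t u0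
    have u4 := bt fun t => g649 t n2 n0
    have u5 := bf fun t => g6497 n6 u3 t
    have u6 := bt fun t => g740 u4 g6632 n4 t
    have u7 := bf fun t => g71 u6 t
    have u8 := bt fun t => s6898 t u5 u4 n1 n3 n4 n5 u2 n7
    have u9 := bf fun t => g24 u8 t
    have u10 := bt fun t => g728 u4 u1 u8 t u7
    have u11 := bt fun t => g1876 n3 u9 n5 g6638 t
    have u12 := bf fun t => g88 u11 t
    have u13 := bt fun t => g1873 n3 u8 t w6726 u12
    have u14 := bf fun t => s6900 t u13 u11 u10 u4 u3 n2 n4
    have u15 := bf fun t => g3694 u1 u14 u13 t g6639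
    exact s6899 u14 u15 u11 u10 u6 n0 n3 n4
  have s6902 : T.alt p a b r d = false → T.bfo p a b s d = true → False := fun n0 n1 => by
    have u0 := bf fun t => s6857 t n1
    have u1 := bf fun t => s6835 t n1
    have u2 := bf fun t => g6713 u1 n0 t
    have u3 := bf fun t => g6457 u2 u0 t
    have u4 := bf fun t => s6866 t u2 n0 u0
    have u5 := bf fun t => g6653 t u4
    have u6 := bt fun t => s6888 t n0 n1
    have u7 := bt fun t => s6896 t n0 n1
    have u8 := bf fun t => g1737 t u7
    have u9 := bf fun t => g1738 t u7
    have u10 := bt fun t => g6650 t u8 u7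
    have u11 := bf fun t => g1902 u7 t u4 g6638
    have u12 := bf fun t => g6516 t u0 u8
    have u13 := bf fun t => s6731 u8 t u10
    have u14 := bf fun t => g6608 t u3 u13
    have u15 := bf fun t => g6416 t u12 u14
    have u16 := bt fun t => s6901 t u15 u12 u7 u6 u4 u2 n0
    have u17 := bt fun t => g6520 u16 t u9
    have u18 := bf fun t => s6892 u11 u16 u6 t
    have u19 := bf fun t => g1050 u17 u6 t g6639
    have u20 := bf fun t => g6663 t u18 u5
    have u21 := bf fun t => g6660 t u19
    exact g6667 g6670 u20 u21
  have s6903 : T.alt p a d s c = true → T.X p a c d = false → T.alt p a c b s = true → T.X p c a b = true → False := fun n0 n1 n2 n3 => by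
    have u0 := bf fun t => g6653 t n1
    have u1 := bf fun t => g1738 t n0
    have u2 := bf fun t => g1902 n0 t n1 g6638
    have u3 := bt fun t => g6520 n2 t u1
    have u4 := bf fun t => s6892 u2 n2 n3 t
    have u5 := bf fun t => g1050 u3 n3 t g6639
    have u6 := bf fun t => g6663 t u4 u0
    have u7 := bf fun t => g6660 t u5
    exact g6667 g6670 u6 u7
  have s6904 : T.X p a c d = false → T.alt p a c b s = true → T.X p c a b = true → T.bfo p a b s d = true → False := fun n0 n1 n2 n3 => by
    have u0 := bf fun t => s6857 t n3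
    have u1 := bf fun t => g652 t n1
    have u2 := bf fun t => g6517 u1 u0 t
    have u3 := bf fun t => g651 t n1
    have u4 := bf fun t => g6653 t n0
    have u5 := bf fun t => s6903 t n0 n1 n2
    have u6 := bf fun t => g6541 u3 u5 t
    have u7 := bt fun t => g1735 u2 t u5
    have u8 := bf fun t => g6538 u0 t u6
    have u9 := bf fun t => s6894 n1 u6 t u8 n2 n0
    have u10 := bt fun t => g6718 n3 t u9
    have u11 := bt fun t => g6716 n3 u10 t
    have u12 := bt fun t => g6514 u3 u10 t
    have u13 := bf fun t => g27 u11 t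
    have u14 := bf fun t => g1105 u12 n2 t g6639
    have u15 := bt fun t => g1758 u7 u13 n0 g6638 t
    have u16 := bf fun t => g6660 t u14
    have u17 := bf fun t => g4405 t u13 n0 w6727 u15
    have u18 := bt fun t => g6667 g6670 t u16
    have u19 := bf fun t => s6892 u17 n1 n2 t
    exact g6663 u18 u19 u4
  have s6905 : T.alt p a c b s = true → T.X p c a b = true → T.bfo p a b s d = true → False := fun n0 n1 n2 => by
    have u0 := bf fun t => g9 t n1
    have u1 := bf fun t => s6857 t n2
    have u2 := bt fun t => s6902 t n2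
    have u3 := bf fun t => g469 u2 t
    have u4 := bf fun t => g6457 u3 u1 t
    have u5 := bf fun t => s6835 t n2
    have u6 := bf fun t => g6711 u5 u2 t
    have u7 := bf fun t => g470 u2 t
    have u8 := bf fun t => g651 t n0
    have u9 := bf fun t => g652 t n0
    have u10 := bt fun t => g6708 t u8 n0
    have u11 := bf fun t => g6517 u9 u1 t
    have u12 := bt fun t => s6904 t n0 n1 n2
    have u13 := bf fun t => g29 u12 t
    have u14 := bf fun t => g1104 t n1 u12 g6639
    have u15 := bf fun t => g1182 t n1 u12 g6639
    have u16 := bt fun t => g6474 t u2 u14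
    have u17 := bf fun t => g6485 u7 u15 t
    have u18 := bt fun t => g1011 u14 t u15
    have u19 := bf fun t => g289 u16 t
    have u20 := bt fun t => g6394 t u16 u8
    have u21 := bt fun t => g378 u16 g6631 n1 t
    have u22 := bf fun t => s6855 u11 u4 u1 t u17
    have u23 := bf fun t => g6682 t u22 u17
    have u24 := bt fun t => g1554 u22 t u17
    have u25 := bf fun t => g1050 u18 n1 t g6639
    have u26 := bf fun t => s6763 u20 t u16 u19 u10
    have u27 := bf fun t => g6685 t u23
    have u28 := bf fun t => g6691 t u25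
    have u29 := bt fun t => g397 u16 g6631 n1 t u26
    have u30 := bf fun t => g16 t u29
    have u31 := bf fun t => g396 u16 u0 u29 t
    have u32 := bt fun t => g6674 t u30 u21
    have u33 := bt fun t => g6677 t u32 u31
    have u34 := bt fun t => g6695 t u33 u27
    have u35 := bt fun t => g6699 t u34 u28
    have u36 := bf fun t => g6701 t u35
    have u37 := bf fun t => g4202 u29 u6 u13 u36 t
    exact g1579 u24 u26 u12 u36 u37
  have s6906 : T.X p c a r = false → v160 = true → v163 = false → T.alt p a b r c = true → T.X p a c d = true → T.X p c a b = true → T.X p d a r = false → False := fun n0 n1 n2 n3 n4 n5 n6 => by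
    have u0 := bf fun t => g1104 t n5 n4 g6639
    have u1 := bf fun t => g1182 t n5 n4 g6639
    have u2 := bt fun t => g1011 u0 t u1
    have u3 := bf fun t => g1050 u2 n5 t g6639
    have u4 := bf fun t => g6691 t u3
    have u5 := bf fun t => g289 n3 t
    have u6 := bt fun t => g6482 u5 u2 t
    have u7 := bf fun t => g29 n4 t
    have u8 := bf fun t => g9 t n5
    have u9 := bt fun t => g397 n3 g6631 n5 t n0
    have u10 := bf fun t => g396 n3 u8 u9 t
    have u11 := bt fun t => g6677 t n1 u10
    have u12 := bt fun t => g6695 t u11 n2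
    have u13 := bt fun t => g6699 t u12 u4
    have u14 := bf fun t => g6701 t u13
    have u15 := bf fun t => g4202 u9 n6 u7 u14 t
    exact g1579 u6 n0 n4 u14 u15
  have s6907 : T.X p a r c = false → T.X p s b c = false → T.X p s a c = true → T.alt p b r s c = true → T.alt p a s r c = true → v163 = false → T.X p b s c = false → T.alt p a b r c = true → T.X p a c d = true → T.X p c a b = true → T.X p d a r = false → False := fun n0 n1 n2 n3 n4 n5 n6 n7 n8 n9 n10 => by
    have u0 := bt fun t => g378 n7 g6631 n9 t
    have u1 := bf fun t => g64 u0 t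
    have u2 := bt fun t => g6674 t n0 u0
    have u3 := bt fun t => s6906 t u2 n5 n7 n8 n9 n10
    have u4 := bf fun t => g18 t u3
    have u5 := bt fun t => g368 n7 w6723 u3 t u1
    have u6 := bt fun t => g1239 n4 n0 u4 n2 t
    have u7 := bt fun t => g2022 n3 u5 n6 n1 t
    exact g49 u7 u6
  have s6908 : T.X p s b c = false → T.X p s a c = true → T.X p d a r = false → T.alt p b r s c = true → T.alt p a s r c = true → v163 = false → T.X p b s c = false → T.alt p a b r c = true → T.X p a c d = true → T.X p c a b = true → False := fun n0 n1 n2 n3 n4 n5 n6 n7 n8 n9 => by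
    have u0 := bt fun t => s6907 t n0 n1 n3 n4 n5 n6 n7 n8 n9 n2
    have u1 := bf fun t => g16 u0 t
    have u2 := bf fun t => g17 u0 t
    exact g397 n7 g6631 n9 u1 u2
  have s6909 : T.X p a c d = true → T.X p c a b = true → T.bfo p a b s d = true → False := fun n0 n1 n2 => by
    have u0 := bf fun t => s6905 t n1 n2
    have u1 := bf fun t => s6835 t n2
    have u2 := bt fun t => s6902 t n2
    have u3 := bf fun t => g6711 u1 u2 t
    have u4 := bf fun t => g470 u2 t
    have u5 := bf fun t => g469 u2 t
    have u6 := bf fun t => s6857 t n2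
    have u7 := bf fun t => g1104 t n1 n0 g6639
    have u8 := bf fun t => g1182 t n1 n0 g6639
    have u9 := bt fun t => g6474 t u2 u7
    have u10 := bf fun t => g6485 u4 u8 t
    have u11 := bt fun t => g1011 u7 t u8
    have u12 := bf fun t => g288 u9 t
    have u13 := bf fun t => g289 u9 t
    have u14 := bt fun t => g6538 u6 u11 t
    have u15 := bt fun t => g6522 u0 u11 t
    have u16 := bf fun t => g1050 u11 n1 t g6639
    have u17 := bf fun t => g6477 u12 u5 t
    have u18 := bf fun t => g6493 u12 u8 t
    have u19 := bf fun t => g6405 u13 u0 t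
    have u20 := bf fun t => g2461 t u14
    have u21 := bf fun t => g2462 t u14
    have u22 := bf fun t => g1736 t u15
    have u23 := bf fun t => g1738 u15 t
    have u24 := bf fun t => g2626 u14 t u16 g6638
    have u25 := bf fun t => g6682 t u17 u10
    have u26 := bf fun t => g6600 t u18 u21
    have u27 := bf fun t => g6420 t u19 u26
    have u28 := bf fun t => g6530 u0 t u20
    have u29 := bf fun t => g6532 t u8 u21
    have u30 := bt fun t => g6546 t u15 u21
    have u31 := bt fun t => g6541 t u23 u14
    have u32 := bf fun t => g6685 t u25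
    have u33 := bt fun t => g6636 g6637 u27 t
    have u34 := bt fun t => g6716 n2 u30 t
    have u35 := bt fun t => g740 u31 g6632 n1 t
    have u36 := bt fun t => g6400 u33 u29 t
    have u37 := bt fun t => g6408 u33 u13 t
    have u38 := bf fun t => g25 t u34
    have u39 := bt fun t => s6810 n0 u22 u38 u34 u28 t n1
    have u40 := bf fun t => g3440 n1 u39 t u35
    exact s6908 u40 u39 u3 u37 u36 u32 u24 u9 n0 n1
  have s6910 : T.alt p a c s d = true → T.alt p a s b c = false → T.X p s a d = true → T.alt p a b s d = true → T.X p a c d = false → T.alt p a c b s = false → T.X p c a b = true → False := fun n0 n1 n2 n3 n4 n5 n6 => by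
    have u0 := bf fun t => g27 n2 t
    have u1 := bt fun t => g1758 n0 u0 n4 g6638 t
    have u2 := bf fun t => g89 u1 t
    have u3 := bf fun t => s6889 n5 t u1 n1 n0 n3 n6 n4
    exact g1755 n0 n2 u3 w6727 u2
  have s6911 : T.X p s a c = true → T.alt p b c s d = true → T.alt p a d s c = true → T.X a b s c = true → T.alt p a b s c = true → T.X p a c d = false → T.X p b a c = false → False := fun n0 n1 n2 n3 n4 n5 n6 => by
    have u0 := bf fun t => g71 n3 t
    have u1 := bf fun t => g24 n0 t
    have u2 := bt fun t => g728 n4 n6 n0 t u0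
    have u3 := bt fun t => g1876 n2 u1 n5 g6638 t
    have u4 := bt fun t => g2498 n1 u2 g6638 t
    have u5 := bf fun t => g89 u3 t
    have u6 := bf fun t => g101 u4 t
    have u7 := bt fun t => g5935 n3 t g6639 u5 u4
    have u8 := bt fun t => g5916 n3 t g6639 u3 u6
    exact g5551 u8 u7
  have s6912 : T.X p d a b = false → T.X p c r d = false → T.X p r c d = false → v161 = true → T.X p r b c = true → T.X p c b r = false → T.alt p b c r d = true → T.alt p a d b c = true → T.alt p b r c d = false → T.alt p a b c d = false → T.alt p a r b c = false → T.X p a c d = false → T.X p c a b = true → T.alt p a r b d = false → False := fun n0 n1 n2 n3 n4 n5 n6 n7 n8 n9 n10 n11 n12 n13 => by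
    have u0 := bt fun t => g1151 n7 n12 n0 t g6639
    have u1 := bt fun t => s6808 n11 n0 t n13 n9 n3 n5 n4 n12 n8 n10
    have u2 := bt fun t => g2322 n6 t u0 n2 n1
    exact g38 u2 u1
  have s6913 : T.X p c a d = false → T.alt p a b r c = true → T.X p c a b = true → T.bfo p a b s d = true → False := fun n0 n1 n2 n3 => by
    have u0 := bf fun t => s6909 t n2 n3
    have u1 := bf fun t => s6835 t n3
    have u2 := bt fun t => s6902 t n3
    have u3 := bf fun t => g6711 u1 u2 t
    have u4 := bf fun t => s6857 t n3
    have u5 := bf fun t => g469 u2 t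
    have u6 := bf fun t => g6457 u5 u4 t
    have u7 := bf fun t => s6905 t n2 n3
    have u8 := bf fun t => g289 n1 t
    have u9 := bf fun t => g6405 u8 u7 t
    have u10 := bf fun t => g6720 u9 t
    have u11 := bf fun t => g6460 t u10 u6
    have u12 := bt fun t => g6394 u11 n1 t
    have u13 := bf fun t => g9 t n2
    have u14 := bt fun t => g740 u12 g6632 n2 t
    have u15 := bf fun t => g288 n1 t
    have u16 := bf fun t => g6477 u15 u5 t
    have u17 := bf fun t => g6569 u9 u10 t
    have u18 := bf fun t => g6590 u16 t u17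
    have u19 := bf fun t => g470 u2 t
    have u20 := bf fun t => g6446 u19 t u10
    have u21 := bt fun t => g6718 n3 t u20
    have u22 := bt fun t => g6716 n3 u21 t
    have u23 := bf fun t => g6421 u11 u9 t
    have u24 := bf fun t => g6418 u15 t u23
    have u25 := bf fun t => s6910 t u24 u22 u21 u0 u7 n2
    have u26 := bt fun t => g1735 u18 u25 t
    have u27 := bt fun t => g6544 u21 u25 t
    have u28 := bf fun t => s6911 t u27 u26 u14 u12 u0 u13
    have u29 := bf fun t => g6707 t u12 u28
    have u30 := bt fun t => g6710 n2 t u29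
    have u31 := bt fun t => g6703 u30 n1 t
    have u32 := bf fun t => g17 t u31
    have u33 := bt fun t => g6565 u10 t u26
    have u34 := bf fun t => g6489 u8 u19 t
    have u35 := bf fun t => g6522 u7 t u25
    have u36 := bf fun t => g6497 u5 u35 t
    have u37 := bf fun t => g6689 t u34 u36
    have u38 := bf fun t => g6692 t u37
    have u39 := bf fun t => g6684 t u0
    have u40 := bt fun t => g378 n1 g6631 n2 t
    have u41 := bt fun t => g6674 t u32 u40
    have u42 := bf fun t => g64 u40 t
    have u43 := bt fun t => g368 n1 w6723 u31 t u42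
    have u44 := bf fun t => g34 t u43
    have u45 := bt fun t => g6677 t u41 u44
    have u46 := bt fun t => g6695 t u45 u39
    have u47 := bt fun t => g6699 t u46 u38
    have u48 := bf fun t => g6701 t u47
    have u49 := bt fun t => g1694 u33 u31 u3 u48 t
    have u50 := bf fun t => g4220 u32 u3 u0 t u49
    have u51 := bf fun t => g1683 u33 u31 u3 t
    have u52 := bf fun t => g3097 g6631 u31 t u40
    have u53 := bf fun t => g18 t u31
    have u54 := bf fun t => g6562 u9 t u25
    have u55 := bt fun t => g6504 u2 u54 t
    have u56 := bt fun t => g6525 u20 t u26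
    have u57 := bf fun t => g6471 n1 u2 t
    have u58 := bt fun t => g1713 u33 u31 t u3 n0
    have u59 := bf fun t => g4233 u53 u58 n0 t u51
    have u60 := bt fun t => s6912 t u59 u48 u45 u43 u52 u55 u56 u34 u57 u15 u0 n2 u5
    have u61 := bf fun t => g11 t u60
    have u62 := bf fun t => g12 t u60
    have u63 := bt fun t => g559 u2 g6631 u60 t
    have u64 := bf fun t => g1143 u56 u61 u62 n0 t
    have u65 := bf fun t => g67 u63 t
    have u66 := bf fun t => g3270 u60 u58 t u63
    have u67 := bt fun t => g5746 u40 u65 g6639 u49 t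
    exact g2308 u55 u44 u66 u64 u50 u67
  have s6914 : T.alt p a b r c = true → T.X p c a b = true → T.bfo p a b s d = true → False := fun n0 n1 n2 => by
    have u0 := bf fun t => s6909 t n1 n2
    have u1 := bf fun t => g6684 t u0
    have u2 := bf fun t => s6905 t n1 n2
    have u3 := bf fun t => g9 t n1
    have u4 := bf fun t => s6857 t n2
    have u5 := bt fun t => s6902 t n2
    have u6 := bf fun t => g469 u5 t
    have u7 := bf fun t => g6457 u6 u4 t
    have u8 := bf fun t => s6835 t n2
    have u9 := bf fun t => g6711 u8 u5 t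
    have u10 := bf fun t => g470 u5 t
    have u11 := bf fun t => g288 n0 t
    have u12 := bf fun t => g289 n0 t
    have u13 := bt fun t => g378 n0 g6631 n1 t
    have u14 := bf fun t => g6471 n0 u5 t
    have u15 := bf fun t => g6477 u11 u6 t
    have u16 := bf fun t => g6489 u12 u10 t
    have u17 := bf fun t => g6405 u12 u2 t
    have u18 := bf fun t => g64 u13 t
    have u19 := bf fun t => g6720 u17 t
    have u20 := bf fun t => g6446 u10 t u19
    have u21 := bf fun t => g6460 t u19 u7
    have u22 := bf fun t => g6569 u17 u19 t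
    have u23 := bt fun t => g6718 n2 t u20
    have u24 := bf fun t => g6421 u21 u17 t
    have u25 := bt fun t => g6394 u21 n0 t
    have u26 := bf fun t => g6590 u15 t u22
    have u27 := bt fun t => g6716 n2 u23 t
    have u28 := bf fun t => g6418 u11 t u24
    have u29 := bt fun t => g740 u25 g6632 n1 t
    have u30 := bf fun t => s6910 t u28 u27 u23 u0 u2 n1
    have u31 := bt fun t => g1735 u26 u30 t
    have u32 := bf fun t => g6522 u2 t u30
    have u33 := bf fun t => g6562 u17 t u30
    have u34 := bt fun t => g6544 u23 u30 t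
    have u35 := bt fun t => g6525 u20 t u31
    have u36 := bt fun t => g6565 u19 t u31
    have u37 := bf fun t => g6497 u6 u32 t
    have u38 := bt fun t => g6504 u5 u33 t
    have u39 := bf fun t => g6689 t u16 u37
    have u40 := bf fun t => g6692 t u39
    have u41 := bf fun t => s6911 t u34 u31 u29 u25 u0 u3
    have u42 := bf fun t => g6707 t u25 u41
    have u43 := bt fun t => g6710 n1 t u42
    have u44 := bt fun t => g6703 u43 n0 t
    have u45 := bf fun t => g17 t u44
    have u46 := bf fun t => g3097 g6631 u44 t u13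
    have u47 := bt fun t => g368 n0 w6723 u44 t u18
    have u48 := bt fun t => g6674 t u45 u13
    have u49 := bf fun t => g34 t u47
    have u50 := bt fun t => g6677 t u48 u49
    have u51 := bt fun t => g6695 t u50 u1
    have u52 := bt fun t => g6699 t u51 u40
    have u53 := bf fun t => g6701 t u52
    have u54 := bt fun t => g1694 u36 u44 u9 u53 t
    have u55 := bf fun t => g86 u54 t
    have u56 := bt fun t => s6913 t n0 n1 n2
    have u57 := bf fun t => g1704 u36 t u56 u55
    have u58 := bf fun t => g578 u5 g6631 t u57 u9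
    have u59 := bt fun t => g1151 u35 n1 u58 t g6639
    have u60 := bt fun t => s6912 u58 t u53 u50 u47 u46 u38 u35 u16 u14 u11 u0 n1 u6
    have u61 := bt fun t => g2303 u38 u46 u59 u53 t
    have u62 := bt fun t => g2313 u38 u47 u60 t
    exact g97 u61 u62
  have s6915 : T.alt p a d s c = true → T.X p c a b = true → T.bfo p a b s d = true → False := fun n0 n1 n2 => by
    have u0 := bt fun t => s6902 t n2
    have u1 := bf fun t => g470 u0 t
    have u2 := bf fun t => s6914 t n1 n2
    have u3 := bt fun t => g6474 u2 u0 t
    have u4 := bf fun t => g1013 u3 t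
    have u5 := bf fun t => g6485 u1 u4 t
    have u6 := bf fun t => s6857 t n2
    have u7 := bf fun t => g1012 u3 t
    have u8 := bf fun t => g6537 u6 u7 t
    have u9 := bf fun t => g1102 u3 n1 t g6639
    have u10 := bf fun t => g1105 u3 n1 t g6639
    have u11 := bf fun t => s6909 t n1 n2
    have u12 := bf fun t => s6905 t n1 n2
    have u13 := bf fun t => g9 t n1
    have u14 := bf fun t => g469 u0 t
    have u15 := bf fun t => g6457 u14 u6 t
    have u16 := bf fun t => g1737 t n0
    have u17 := bt fun t => g6542 t n0 u8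
    have u18 := bf fun t => s6855 u16 u15 u6 t u5
    have u19 := bt fun t => g740 u17 g6632 n1 t
    have u20 := bf fun t => g6476 t u14 u18
    have u21 := bf fun t => g71 u19 t
    have u22 := bf fun t => g6705 t u2 u20
    have u23 := bt fun t => g6710 n1 u22 t
    have u24 := bt fun t => g6707 u23 u17 t
    have u25 := bf fun t => g24 u24 t
    have u26 := bt fun t => g728 u17 u13 u24 t u21
    have u27 := bt fun t => g1876 n0 u25 u11 g6638 t
    exact s6899 u9 u10 u27 u26 u19 u12 n0 n1
  have s6916 : T.X p c a b = true → T.bfo p a b s d = true → False := fun n0 n1 => by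
    have u0 := bt fun t => s6902 t n1
    have u1 := bf fun t => s6857 t n1
    have u2 := bf fun t => s6905 t n0 n1
    have u3 := bf fun t => s6909 t n0 n1
    have u4 := bf fun t => g6653 t u3
    have u5 := bf fun t => s6914 t n0 n1
    have u6 := bt fun t => g6474 u5 u0 t
    have u7 := bf fun t => g1012 u6 t
    have u8 := bf fun t => g1013 u6 t
    have u9 := bf fun t => g1105 u6 n0 t g6639
    have u10 := bf fun t => g6521 u2 u7 t
    have u11 := bf fun t => g6660 t u9
    have u12 := bt fun t => g6667 g6670 t u11
    have u13 := bt fun t => g6663 u12 t u4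
    have u14 := bf fun t => s6915 t n0 n1
    have u15 := bt fun t => g1735 t u10 u14
    have u16 := bt fun t => g6517 t u1 u15
    have u17 := bt fun t => g6532 u16 u8 t
    have u18 := bt fun t => s6822 t u13 u16 n0
    have u19 := bf fun t => g2511 u17 u18 t w6727
    have u20 := bf fun t => g2508 u17 t u9 g6638
    have u21 := bf fun t => g40 u18 t
    have u22 := bf fun t => g5101 u18 u20 u19 w6727 t
    exact g2474 u17 u21 u20 u19 w6726 u22
  have s6917 : T.alt p a s c d = true → T.X p d b r = true → T.X a r b d = false → T.X p r a d = true → v165 = false → T.alt p a d r s = false → T.alt p a d r c = false → T.X p a c d = false → T.bfo p a b s d = true → False := fun n0 n1 n2 n3 n4 n5 n6 n7 n8 => by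
    have u0 := bf fun t => g6721 t n5
    have u1 := bf fun t => s6857 t n8
    have u2 := bt fun t => s6902 t n8
    have u3 := bf fun t => g469 u2 t
    have u4 := bf fun t => g6457 u3 u1 t
    have u5 := bf fun t => g6460 t n5 u4
    have u6 := bf fun t => g6421 u5 u0 t
    have u7 := bf fun t => g6569 u0 n5 t
    have u8 := bf fun t => g6684 t n7
    have u9 := bf fun t => s6916 t n8
    have u10 := bf fun t => s6835 t n8
    have u11 := bf fun t => g6711 u10 u2 t
    have u12 := bt fun t => g6517 t u1 n0
    have u13 := bf fun t => s6867 n0 t n6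
    have u14 := bt fun t => g6590 t n0 u7
    have u15 := bt fun t => g6418 t u12 u6
    have u16 := bt fun t => g6504 u2 u13 t
    have u17 := bf fun t => g335 u15 g6631 u9 t
    have u18 := bt fun t => s6874 t u15 u9
    have u19 := bf fun t => g301 u15 w6722 w6723 u17 t
    have u20 := bt fun t => g6695 t u18 u8
    have u21 := bf fun t => g2289 u16 u19 n1 t
    have u22 := bt fun t => g6699 t u20 n4
    have u23 := bf fun t => g6701 t u22
    have u24 := bt fun t => g1628 u14 u17 u11 n7 u23 t
    have u25 := bf fun t => g86 u24 t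
    have u26 := bf fun t => g5746 t n2 g6639 u24 u21
    have u27 := bf fun t => g4224 t n3 n7 u23 u25
    exact g314 u15 g6631 u9 u27 u26
  have s6918 : T.X p b c d = false → T.alt p a d s c = false → T.alt p a b c d = true → T.X p a c d = false → T.bfo p a b s d = true → False := fun n0 n1 n2 n3 n4 => by
    have u0 := bf fun t => g1013 n2 t
    have u1 := bf fun t => g6524 t u0 n1
    have u2 := bt fun t => g6718 n4 t u1
    have u3 := bt fun t => g6716 n4 u2 t
    have u4 := bf fun t => g27 u3 t
    have u5 := bf fun t => s6857 t n4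
    have u6 := bf fun t => g1012 n2 t
    have u7 := bf fun t => g6537 u5 u6 t
    have u8 := bf fun t => g6540 t n1 u7
    have u9 := bt fun t => s6902 t n4
    have u10 := bf fun t => g470 u9 t
    have u11 := bf fun t => g6485 u10 u0 t
    have u12 := bf fun t => g6564 t u11 n1
    have u13 := bf fun t => s6916 t n4
    have u14 := bf fun t => s6835 t n4
    have u15 := bf fun t => g6711 u14 u9 t
    have u16 := bf fun t => g6691 t n0
    have u17 := bt fun t => s6878 t n0 u0 u13 n3 u5
    have u18 := bf fun t => g12 t u17
    have u19 := bt fun t => g559 u9 g6631 u17 t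
    have u20 := bt fun t => g578 u9 g6631 u17 t u15
    have u21 := bt fun t => g921 u2 g6632 u17 t
    have u22 := bf fun t => g577 u9 u18 u20 t
    have u23 := bf fun t => g67 u19 t
    have u24 := bf fun t => g3270 u17 u20 t u19
    have u25 := bf fun t => g73 u21 t
    have u26 := bf fun t => g74 u21 t
    have u27 := bt fun t => g3250 g6631 u17 u22 u24 t u19
    have u28 := bt fun t => g909 u2 u18 u3 t u26
    have u29 := bf fun t => s6917 t u27 u23 u20 u16 u12 u11 n3 n4
    have u30 := bf fun t => g6516 t u5 u29
    have u31 := bt fun t => g6548 n2 u29 t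
    have u32 := bt fun t => g1735 u29 t n1
    have u33 := bt fun t => g649 u8 u30 t
    have u34 := bt fun t => g2555 u31 u28 g6638 t
    have u35 := bf fun t => g2570 u31 t u28 w6727
    have u36 := bt fun t => g1758 u32 u4 n3 g6638 t
    have u37 := bf fun t => g101 u34 t
    have u38 := bt fun t => g789 u33 g6632 u13 u35 t
    exact g5916 u38 u25 g6639 u36 u37
  have s6919 : T.alt p a s c d = false → T.alt p a d s c = false → T.alt p a b c d = true → T.X p a c d = false → T.bfo p a b s d = true → False := fun n0 n1 n2 n3 n4 => by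
    have u0 := bt fun t => s6918 t n1 n2 n3 n4
    have u1 := bf fun t => g47 u0 t
    have u2 := bf fun t => g1013 n2 t
    have u3 := bf fun t => g6524 t u2 n1
    have u4 := bt fun t => g6718 n4 t u3
    have u5 := bt fun t => g6716 n4 u4 t
    have u6 := bf fun t => g27 u5 t
    have u7 := bf fun t => s6857 t n4
    have u8 := bf fun t => g1012 n2 t
    have u9 := bf fun t => g6537 u7 u8 t
    have u10 := bf fun t => g6540 t n1 u9
    have u11 := bf fun t => g6653 t n3
    have u12 := bf fun t => s6916 t n4
    have u13 := bf fun t => g6516 t u7 n0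
    have u14 := bt fun t => g6548 n2 n0 t
    have u15 := bt fun t => g1735 n0 t n1
    have u16 := bt fun t => g649 u10 u13 t
    have u17 := bt fun t => g2551 u14 u0 g6638 t
    have u18 := bt fun t => g1758 u15 u6 n3 g6638 t
    have u19 := bf fun t => g778 u16 g6632 u12 t
    have u20 := bf fun t => g100 u17 t
    have u21 := bf fun t => g4405 t u6 n3 w6727 u18
    have u22 := bf fun t => g5931 u19 t g6639 u18 u20
    have u23 := bt fun t => s6886 u16 u21 u12 t
    have u24 := bf fun t => g924 u4 g6632 t u22
    have u25 := bt fun t => g6664 t u23 u11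
    have u26 := bf fun t => g2545 u14 t u24 u1 u20
    have u27 := bf fun t => g6666 g6670 u25 t
    have u28 := bt fun t => g2564 u14 t u26 u0 g6638
    have u29 := bf fun t => g6659 u27 u0 t
    exact g6655 u29 u14 u28
  have s6920 : T.alt p a d s c = false → T.alt p a b c d = true → T.X p a c d = false → T.bfo p a b s d = true → False := fun n0 n1 n2 n3 => by
    have u0 := bt fun t => s6902 t n3
    have u1 := bf fun t => g470 u0 t
    have u2 := bf fun t => g1013 n1 t
    have u3 := bf fun t => g6485 u1 u2 t
    have u4 := bf fun t => g469 u0 t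
    have u5 := bf fun t => g1012 n1 t
    have u6 := bf fun t => g6497 u4 u5 t
    have u7 := bf fun t => g6684 t n2
    have u8 := bf fun t => s6916 t n3
    have u9 := bf fun t => s6857 t n3
    have u10 := bf fun t => g6457 u4 u9 t
    have u11 := bf fun t => s6835 t n3
    have u12 := bf fun t => g6711 u11 u0 t
    have u13 := bf fun t => g6564 t u3 n0
    have u14 := bf fun t => g6721 t u13
    have u15 := bf fun t => g6460 t u13 u10
    have u16 := bf fun t => g6569 u14 u13 t
    have u17 := bf fun t => g6421 u15 u14 t
    have u18 := bt fun t => s6918 t n0 n1 n2 n3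
    have u19 := bf fun t => g46 u18 t
    have u20 := bf fun t => g1107 n1 t u18 g6639
    have u21 := bt fun t => s6919 t n0 n1 n2 n3
    have u22 := bt fun t => g6517 t u9 u21
    have u23 := bf fun t => g6547 n1 u21 t
    have u24 := bf fun t => s6867 u21 t u3
    have u25 := bt fun t => g6590 t u21 u16
    have u26 := bt fun t => g6418 t u22 u17
    have u27 := bf fun t => g6628 t u23 u16
    have u28 := bt fun t => g6504 u0 u24 t
    have u29 := bf fun t => g335 u26 g6631 u8 t
    have u30 := bt fun t => s6874 t u26 u8
    have u31 := bf fun t => g6689 t u27 u6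
    have u32 := bf fun t => g301 u26 w6722 w6723 u29 t
    have u33 := bt fun t => g6695 t u30 u7
    have u34 := bf fun t => g6692 t u31
    have u35 := bt fun t => g6699 t u33 u34
    have u36 := bf fun t => g6701 t u35
    have u37 := bt fun t => g1628 u25 u29 u12 n2 u36 t
    have u38 := bt fun t => g2303 u28 u32 u18 u36 t
    have u39 := bf fun t => g98 u38 t
    have u40 := bf fun t => g4936 u32 t u19 u36 u38
    have u41 := bf fun t => g3201 g6631 u20 u12 u40 t
    have u42 := bf fun t => g5746 t u41 g6639 u37 u39
    have u43 := bf fun t => g326 u26 g6631 t u42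
    have u44 := bt fun t => g314 u26 g6631 u8 t u42
    have u45 := bf fun t => g2309 u28 u43 u40 t u39
    exact g4235 u44 u12 n2 u45 u37
  have s6921 : T.alt p a b c d = true → T.X p a c d = false → T.bfo p a b s d = true → False := fun n0 n1 n2 => by
    have u0 := bf fun t => g6653 t n1
    have u1 := bf fun t => s6916 t n2
    have u2 := bf fun t => s6857 t n2
    have u3 := bf fun t => g1012 n0 t
    have u4 := bf fun t => g1013 n0 t
    have u5 := bf fun t => g6537 u2 u3 t
    have u6 := bt fun t => s6920 t n0 n1 n2
    have u7 := bf fun t => s6880 u6 u5 t u1 n1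
    have u8 := bf fun t => g6663 t u7 u0
    have u9 := bf fun t => s6887 u6 u7 t u4 u1 n1 u2
    have u10 := bt fun t => g6667 g6670 u8 t
    exact g6660 u10 u9
  have s6922 : T.X p b c d = false → T.alt p a d s c = true → T.X p a c d = false → T.bfo p a b s d = true → False := fun n0 n1 n2 n3 => by
    have u0 := bf fun t => s6857 t n3
    have u1 := bf fun t => g1737 t n1
    have u2 := bf fun t => g6516 t u0 u1
    have u3 := bf fun t => g6653 t n2
    have u4 := bf fun t => s6916 t n3
    have u5 := bf fun t => g6660 t n0
    have u6 := bt fun t => g6667 g6670 t u5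
    have u7 := bt fun t => g6663 u6 t u3
    have u8 := bt fun t => s6880 n1 t u7 u4 n2
    have u9 := bf fun t => g2462 t u8
    have u10 := bt fun t => g6537 u0 t u8
    have u11 := bf fun t => g6534 u2 t u9
    have u12 := bf fun t => g1033 u10 u4 t n0 g6639
    exact s6878 u12 n0 u11 u4 n2 u0
  have s6923 : T.alt p a d s c = true → T.X p a c d = false → T.bfo p a b s d = true → False := fun n0 n1 n2 => by
    have u0 := bf fun t => s6921 t n1 n2
    have u1 := bf fun t => g6653 t n1
    have u2 := bf fun t => s6916 t n2
    have u3 := bf fun t => s6857 t n2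
    have u4 := bf fun t => g1737 t n0
    have u5 := bf fun t => g6549 u0 u4 t
    have u6 := bt fun t => s6922 t n0 n1 n2
    have u7 := bf fun t => g1152 t u2 n1 u6 g6639
    have u8 := bt fun t => s6887 n0 t u6 u7 u2 n1 u3
    have u9 := bt fun t => g6664 t u8 u1
    have u10 := bt fun t => s6880 n0 t u8 u2 n1
    have u11 := bf fun t => g6666 g6670 u9 t
    have u12 := bt fun t => g6657 t u5 u10
    exact g6659 u11 u6 u12
  have s6924 : T.X p b c d = true → T.X p a c d = false → T.bfo p a b s d = true → False := fun n0 n1 n2 => by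
    have u0 := bf fun t => s6923 t n1 n2
    have u1 := bt fun t => s6902 t n2
    have u2 := bf fun t => g469 u1 t
    have u3 := bf fun t => s6921 t n1 n2
    have u4 := bt fun t => g6474 t u1 u3
    have u5 := bf fun t => g288 u4 t
    have u6 := bf fun t => g6477 u5 u2 t
    have u7 := bf fun t => s6916 t n2
    have u8 := bf fun t => g470 u1 t
    have u9 := bf fun t => g1152 t u7 n1 n0 g6639
    have u10 := bf fun t => g6485 u8 u9 t
    have u11 := bt fun t => g1011 u3 t u9
    have u12 := bf fun t => g6524 t u9 u0
    have u13 := bt fun t => g1554 u6 t u10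
    have u14 := bt fun t => g1034 u11 t n1 n0 g6639
    have u15 := bt fun t => g6718 n2 t u12
    have u16 := bf fun t => s6867 t u13 u10
    have u17 := bf fun t => g12 t u14
    have u18 := bt fun t => g6716 n2 u15 t
    have u19 := bt fun t => g1735 u16 t u0
    have u20 := bf fun t => g3747 u7 u17 t n0 g6639
    have u21 := bf fun t => g27 u18 t
    have u22 := bt fun t => g1758 u19 u21 n1 g6638 t
    have u23 := bt fun t => g1755 u19 u18 u20 w6727 t
    exact g89 u22 u23
  have s6925 : T.alt p a d b c = false → T.X p a c d = false → T.bfo p a b s d = true → False := fun n0 n1 n2 => by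
    have u0 := bf fun t => s6924 t n1 n2
    have u1 := bf fun t => s6921 t n1 n2
    have u2 := bf fun t => s6916 t n2
    have u3 := bf fun t => s6857 t n2
    have u4 := bt fun t => g1011 u1 t n0
    have u5 := bt fun t => s6878 t u0 n0 u2 n1 u3
    exact g1033 u4 u2 u5 u0 g6639
  have s6926 : T.X p a c d = false → T.bfo p a b s d = true → False := fun n0 n1 => by
    have u0 := bf fun t => s6916 t n1
    have u1 := bt fun t => s6902 t n1
    have u2 := bf fun t => g470 u1 t
    have u3 := bf fun t => s6857 t n1
    have u4 := bf fun t => s6923 t n0 n1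
    have u5 := bt fun t => s6925 t n0 n1
    have u6 := bf fun t => g1014 t u5
    have u7 := bt fun t => g6486 u2 u5 t
    have u8 := bf fun t => g6537 u3 u6 t
    have u9 := bt fun t => g6566 t u7 u4
    have u10 := bt fun t => s6869 t u8 u5 u0 n0
    have u11 := bf fun t => g1376 t u9
    have u12 := bt fun t => g6720 t u9
    have u13 := bt fun t => g6557 t u11 u10
    exact g1195 u13 u12
  have s6927 : T.X p b a d = true → T.X p r a d = false → T.alt p a b r d = true → False := fun n0 n1 n2 => by
    have u0 := bt fun t => g551 n2 w6722 n0 n1 t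
    have u1 := bf fun t => g68 t u0
    have u2 := bf fun t => g562 n2 g6631 t u1
    exact g3187 g6631 n0 n1 u2 u1
  have s6929 : T.X p d r c = true → T.X p b c d = true → T.X p d a b = false → T.X a r c d = true → T.X p r c d = false → T.alt p b c r d = true → T.alt p a b r c = true → T.X p d a r = false → False := fun n0 n1 n2 n3 n4 n5 n6 n7 => by
    have u0 := bf fun t => g57 t n0
    have u1 := bt fun t => g2322 n5 t n1 n4 u0
    have u2 := bf fun t => g37 u1 t
    have u3 := bf fun t => g4968 u1 n1 n0 t
    have u4 := bf fun t => g3201 g6631 n2 n7 u2 t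
    have u5 := bf fun t => g5746 t u4 g6639 n3 u3
    have u6 := bt fun t => g2309 n5 t u2 n0 u3
    exact g381 n6 g6631 u6 u5
  have s6930 : T.X p c b r = false → T.X a b r c = true → T.X p b c d = true → T.X p d a b = false → T.X a r c d = true → T.X p r c d = false → T.alt p b c r d = true → T.X p d a r = false → False := fun n0 n1 n2 n3 n4 n5 n6 n7 => by
    have u0 := bf fun t => g46 n2 t
    have u1 := bt fun t => g2303 n6 n0 n2 n5 t
    have u2 := bf fun t => g98 u1 t
    have u3 := bf fun t => g4936 n0 t u0 n5 u1
    have u4 := bt fun t => g5746 n1 t g6639 n4 u2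
    exact g3201 g6631 n3 n7 u3 u4
  have s6931 : T.X p d a b = false → T.alt p a d b c = true → T.bfo p a b s d = true → False := fun n0 n1 n2 => by
    have u0 := bf fun t => s6835 t n2
    have u1 := bt fun t => s6902 t n2
    have u2 := bf fun t => g6711 u0 u1 t
    have u3 := bt fun t => s6926 t n2
    have u4 := bf fun t => g470 u1 t
    have u5 := bt fun t => g6486 u4 n1 t
    have u6 := bf fun t => g1556 t u5
    have u7 := bt fun t => g6681 t u6 u5
    have u8 := bt fun t => g6683 t u3 u7
    have u9 := bf fun t => s6916 t n2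
    have u10 := bf fun t => g1013 t n1
    have u11 := bt fun t => g6474 t u1 u10
    have u12 := bf fun t => s6805 t u9 u11
    have u13 := bt fun t => g6696 t u12 u8
    have u14 := bf fun t => g469 u1 t
    have u15 := bf fun t => g1014 t n1
    have u16 := bf fun t => g6497 u14 u15 t
    have u17 := bf fun t => g6509 u10 u6 t
    have u18 := bf fun t => g6689 t u17 u16
    have u19 := bf fun t => g6692 t u18
    have u20 := bt fun t => g6699 t u13 u19
    have u21 := bf fun t => g6701 t u20
    have u22 := bf fun t => g29 u3 t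
    have u23 := bt fun t => g1697 u5 u2 u3 u21 t
    have u24 := bf fun t => g4202 t u2 u22 u21 u23
    have u25 := bf fun t => g1557 t u5
    have u26 := bt fun t => g6504 u1 u25 t
    have u27 := bt fun t => g1154 n1 n0 u3 t g6639
    have u28 := bf fun t => s6929 t u27 n0 u23 u21 u26 u11 u2
    have u29 := bt fun t => g1716 u5 t u3 u21 u28
    have u30 := bt fun t => g380 u11 g6631 u29 t
    have u31 := bt fun t => s6930 t u30 u27 n0 u23 u21 u26 u2
    have u32 := bf fun t => g65 u30 t
    exact g377 u11 w6722 u24 u31 u32
  have s6932 : T.alt p a d b c = true → T.bfo p a b s d = true → False := fun n0 n1 => by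
    have u0 := bt fun t => s6926 t n1
    have u1 := bf fun t => s6916 t n1
    have u2 := bf fun t => s6835 t n1
    have u3 := bt fun t => s6902 t n1
    have u4 := bf fun t => g6711 u2 u3 t
    have u5 := bf fun t => g470 u3 t
    have u6 := bf fun t => g469 u3 t
    have u7 := bf fun t => g1013 t n0
    have u8 := bf fun t => g1014 t n0
    have u9 := bt fun t => g6486 u5 n0 t
    have u10 := bt fun t => g6474 t u3 u7
    have u11 := bf fun t => g6497 u6 u8 t
    have u12 := bf fun t => g1556 t u9
    have u13 := bt fun t => g6681 t u12 u9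
    have u14 := bf fun t => s6805 t u1 u10
    have u15 := bf fun t => g6509 u7 u12 t
    have u16 := bt fun t => g6683 t u0 u13
    have u17 := bt fun t => g6696 t u14 u16
    have u18 := bf fun t => g6689 t u15 u11
    have u19 := bf fun t => g6692 t u18
    have u20 := bt fun t => g6699 t u17 u19
    have u21 := bf fun t => g6701 t u20
    have u22 := bt fun t => g1697 u9 u4 u0 u21 t
    have u23 := bf fun t => g86 u22 t
    have u24 := bt fun t => s6931 t n0 n1
    have u25 := bt fun t => g578 u3 g6631 u24 t u4
    have u26 := bt fun t => g4208 t u25 u0 u21 u23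
    exact g1706 u9 u26 u25 u23
  have s6933 : T.X p r a d = true → T.X a r c d = true → T.X p r c d = false → T.X p a c d = true → False := fun n0 n1 n2 n3 => by
    have u0 := bf fun t => g86 n1 t
    have u1 := bf fun t => g28 n3 t
    have u2 := bt fun t => g4208 t n0 n3 n2 u0
    have u3 := bt fun t => g4256 t n0 u1 n2 n1
    exact g17 u2 u3
  have s6934 : T.alt p a b r c = true → T.X p a r c = true → T.X a r c d = true → T.X p r c d = false → T.bfo p a b s d = true → False := fun n0 n1 n2 n3 n4 => by
    have u0 := bt fun t => s6926 t n4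
    have u1 := bf fun t => s6933 t n2 n3 u0
    have u2 := bf fun t => s6932 t n4
    have u3 := bf fun t => s6836 t u2 u0
    have u4 := bt fun t => s6902 t n4
    have u5 := bf fun t => s6835 t n4
    have u6 := bf fun t => g6711 u5 u4 t
    have u7 := bf fun t => g28 u0 t
    have u8 := bf fun t => g86 n2 t
    have u9 := bf fun t => g470 u4 t
    have u10 := bf fun t => g6485 u9 u2 t
    have u11 := bf fun t => g17 n1 t
    have u12 := bf fun t => g1655 t u11 u6 u0 n3 n2
    have u13 := bt fun t => g1554 u12 t u10
    have u14 := bt fun t => g1582 u13 n1 u7 t u8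
    have u15 := bt fun t => g4301 n1 t u6 u0 u14 n2
    have u16 := bt fun t => g561 u4 g6631 u15 t
    have u17 := bf fun t => g68 u16 t
    have u18 := bf fun t => g3195 g6631 u3 u1 t u17
    have u19 := bf fun t => s6916 t n4
    have u20 := bf fun t => g289 n0 t
    have u21 := bt fun t => g6500 n0 u10 t
    have u22 := bt fun t => g380 n0 g6631 n1 t
    have u23 := bt fun t => g6481 u20 t u13
    have u24 := bf fun t => g5806 u22 u16 n2 t
    have u25 := bt fun t => g1036 u23 u19 u0 t g6639
    exact g2421 u21 u18 u25 n3 u24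
  have s6935 : T.X p a r c = true → T.X a r c d = true → T.X p r c d = false → T.bfo p a b s d = true → False := fun n0 n1 n2 n3 => by
    have u0 := bf fun t => g86 n1 t
    have u1 := bt fun t => s6902 t n3
    have u2 := bf fun t => g470 u1 t
    have u3 := bf fun t => s6932 t n3
    have u4 := bf fun t => g6485 u2 u3 t
    have u5 := bt fun t => s6926 t n3
    have u6 := bf fun t => g28 u5 t
    have u7 := bf fun t => s6916 t n3
    have u8 := bf fun t => s6835 t n3
    have u9 := bf fun t => g6711 u8 u1 t
    have u10 := bf fun t => g469 u1 t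
    have u11 := bf fun t => g17 n0 t
    have u12 := bf fun t => g1655 t u11 u9 u5 n2 n1
    have u13 := bf fun t => g6476 t u10 u12
    have u14 := bt fun t => g1554 u12 t u4
    have u15 := bt fun t => g1582 u14 n0 u6 t u0
    have u16 := bt fun t => g4301 n0 t u9 u5 u15 n1
    have u17 := bt fun t => g561 u1 g6631 u16 t
    have u18 := bf fun t => g67 u17 t
    have u19 := bf fun t => s6934 t n0 n1 n2 n3
    have u20 := bt fun t => g287 u19 u13 t
    have u21 := bf fun t => g416 u20 g6631 u7 t
    have u22 := bt fun t => g458 u20 g6631 n0 t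
    have u23 := bt fun t => g5761 u21 u17 g6639 n1 t
    have u24 := bt fun t => g5746 u22 u18 g6639 n1 t
    exact g99 u23 u24
  have s6936 : T.X a b r d = true → T.alt p b r c d = true → T.X p c b r = false → T.X a b r c = true → T.X p b c d = false → T.X p r a d = false → T.X a r c d = true → T.X p r c d = false → T.X p d a b = false → False := fun n0 n1 n2 n3 n4 n5 n6 n7 n8 => by
    have u0 := bf fun t => g68 n0 t
    have u1 := bf fun t => g5806 n3 n0 n6 t
    have u2 := bf fun t => g3195 g6631 n8 n5 t u0
    exact g2352 n1 n2 u2 n4 n7 u1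
  have s6937 : T.alt p a c r d = true → T.X a b r c = true → T.alt p a b c d = true → T.X a r c d = true → T.X p r c d = false → T.bfo p a b s d = true → False := fun n0 n1 n2 n3 n4 n5 => by
    have u0 := bf fun t => s6935 t n3 n4 n5
    have u1 := bf fun t => s6916 t n5
    have u2 := bf fun t => g3030 w6722 u1 u0 t n1
    have u3 := bt fun t => s6926 t n5
    have u4 := bf fun t => g1103 n2 u3 t g6639
    have u5 := bf fun t => g1012 n2 t
    have u6 := bt fun t => s6902 t n5
    have u7 := bf fun t => s6933 t n3 n4 u3
    have u8 := bf fun t => s6927 t u7 u6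
    have u9 := bf fun t => s6835 t n5
    have u10 := bf fun t => g6711 u9 u6 t
    have u11 := bf fun t => g29 u3 t
    have u12 := bf fun t => g4202 t u10 u11 n4 n3
    have u13 := bf fun t => g86 n3 t
    have u14 := bf fun t => s6932 t n5
    have u15 := bf fun t => s6836 t u14 u3
    have u16 := bf fun t => g28 u3 t
    have u17 := bf fun t => g1555 t n0
    have u18 := bt fun t => g6481 t u5 n0
    have u19 := bt fun t => g6508 n2 u17 t
    have u20 := bt fun t => g446 u18 g6631 t u1 u12
    have u21 := bf fun t => g7 t u20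
    have u22 := bf fun t => g1084 n2 u21 u1 u15 t
    have u23 := bf fun t => g1100 n2 u21 u8 u16 u22 t
    have u24 := bf fun t => s6936 t u19 u2 n1 u4 u7 n3 n4 u15
    have u25 := bf fun t => g561 u6 g6631 t u24
    have u26 := bf fun t => g562 u6 g6631 t u24
    have u27 := bf fun t => g5781 n1 u24 u23 u13 t
    have u28 := bt fun t => g1598 n0 u25 u3 n4 t
    exact g2360 u19 u26 u22 u28 u27
  have s6938 : T.alt p a c r d = false → T.X a r c d = true → T.X p r c d = false → T.bfo p a b s d = true → False := fun n0 n1 n2 n3 => by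
    have u0 := bt fun t => s6902 t n3
    have u1 := bf fun t => g470 u0 t
    have u2 := bf fun t => s6932 t n3
    have u3 := bf fun t => g6485 u1 u2 t
    have u4 := bt fun t => s6926 t n3
    have u5 := bf fun t => s6916 t n3
    have u6 := bf fun t => s6835 t n3
    have u7 := bf fun t => g6711 u6 u0 t
    have u8 := bt fun t => g6504 u0 n0 t
    have u9 := bt fun t => g1554 t n0 u3
    have u10 := bt fun t => g6493 t u2 u8
    have u11 := bt fun t => g1655 u9 t u7 u4 n2 n1
    exact g335 u10 g6631 u5 u11
  have s6939 : T.alt p a b c d = true → T.X a r c d = true → T.X p r c d = false → T.bfo p a b s d = true → False := fun n0 n1 n2 n3 => by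
    have u0 := bf fun t => s6835 t n3
    have u1 := bt fun t => s6902 t n3
    have u2 := bf fun t => g6711 u0 u1 t
    have u3 := bt fun t => s6926 t n3
    have u4 := bf fun t => g29 u3 t
    have u5 := bf fun t => g4202 t u2 u4 n2 n1
    have u6 := bf fun t => s6935 t n1 n2 n3
    have u7 := bt fun t => s6938 t n1 n2 n3
    have u8 := bf fun t => g1568 u7 u6 u5 u4 t
    have u9 := bf fun t => g1555 t u7
    have u10 := bf fun t => s6916 t n3
    have u11 := bf fun t => g1012 n0 t
    have u12 := bf fun t => g1103 n0 u3 t g6639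
    have u13 := bt fun t => g6481 t u11 u7
    have u14 := bf fun t => s6937 u7 t n0 n1 n2 n3
    have u15 := bt fun t => g6508 n0 u9 t
    have u16 := bt fun t => g427 u13 g6631 u10 t u14
    have u17 := bf fun t => g35 u16 t
    have u18 := bf fun t => g2389 u15 u16 t u8
    have u19 := bf fun t => g4915 u16 u18 u12 u8 t
    exact g2352 u15 u17 u18 u12 n2 u19
  have s6940 : T.X b r c d = false → T.X a d b c = false → T.X a r b c = false → T.X p b c d = true → T.alt p b d r c = true → T.X p r a d = false → T.X a r c d = true → T.X p r c d = false → T.alt p a b r d = true → False := fun n0 n1 n2 n3 n4 n5 n6 n7 n8 => by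
    have u0 := bt fun t => g2421 n4 t n3 n7 n0
    have u1 := bf fun t => g5733 n2 t n1 n6 n0
    exact g558 n8 w6722 n5 u0 u1
  have s6941 : T.X a r c d = true → T.X p r c d = false → T.bfo p a b s d = true → False := fun n0 n1 n2 => by
    have u0 := bt fun t => s6926 t n2
    have u1 := bf fun t => s6932 t n2
    have u2 := bf fun t => s6836 t u1 u0
    have u3 := bt fun t => s6902 t n2
    have u4 := bf fun t => g470 u3 t
    have u5 := bf fun t => g6485 u4 u1 t
    have u6 := bf fun t => g29 u0 t
    have u7 := bf fun t => g28 u0 t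
    have u8 := bf fun t => s6916 t n2
    have u9 := bf fun t => s6835 t n2
    have u10 := bf fun t => g6711 u9 u3 t
    have u11 := bf fun t => g4202 t u10 u6 n1 n0
    have u12 := bf fun t => s6933 t n0 n1 u0
    have u13 := bf fun t => s6927 t u12 u3
    have u14 := bf fun t => s6935 t n0 n1 n2
    have u15 := bt fun t => s6938 t n0 n1 n2
    have u16 := bf fun t => g1614 u15 t u10 u0 n1 n0
    have u17 := bf fun t => g1568 u15 u14 u11 u6 t
    have u18 := bf fun t => s6939 t n0 n1 n2
    have u19 := bt fun t => g6474 t u3 u18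
    have u20 := bt fun t => g1011 u18 t u1
    have u21 := bt fun t => g6500 u19 u5 t
    have u22 := bt fun t => g1036 u20 u8 u0 t g6639
    have u23 := bt fun t => g2440 u21 t u22 n1 u17
    have u24 := bf fun t => g46 u22 t
    have u25 := bf fun t => g47 u22 t
    have u26 := bf fun t => g34 u23 t
    have u27 := bf fun t => g35 u23 t
    have u28 := bt fun t => g381 u19 g6631 u23 t
    have u29 := bf fun t => g3031 g6631 u8 u16 u26 t
    have u30 := bf fun t => g371 u19 w6723 t u26 u29
    have u31 := bf fun t => g1041 u20 u30 u13 u7 u25 t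
    have u32 := bt fun t => s6940 t u31 u29 u22 u21 u12 n0 n1 u3
    have u33 := bf fun t => g98 u32 t
    have u34 := bf fun t => g4936 u27 t u24 n1 u32
    have u35 := bt fun t => g5746 u28 t g6639 n0 u33
    exact g3201 g6631 u2 u10 u34 u35
  have s6942 : T.X p b c d = true → T.X p r c d = false → T.bfo p a b s d = true → False := fun n0 n1 n2 => by
    have u0 := bf fun t => s6941 t n1 n2
    have u1 := bt fun t => s6902 t n2
    have u2 := bf fun t => g470 u1 t
    have u3 := bf fun t => s6932 t n2
    have u4 := bf fun t => g6485 u2 u3 t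
    have u5 := bt fun t => s6926 t n2
    have u6 := bf fun t => s6835 t n2
    have u7 := bf fun t => g6711 u6 u1 t
    have u8 := bf fun t => g1103 t u5 n0 g6639
    have u9 := bt fun t => g6474 t u1 u8
    have u10 := bt fun t => g1011 u8 t u3
    have u11 := bf fun t => g289 u9 t
    have u12 := bt fun t => g6500 u9 u4 t
    have u13 := bt fun t => g6482 u11 u10 t
    have u14 := bt fun t => g1579 u13 t u5 n1 u0
    have u15 := bf fun t => g17 t u14
    have u16 := bf fun t => g4219 u15 u7 u5 t u0
    have u17 := bt fun t => g2440 u12 t n0 n1 u16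
    have u18 := bf fun t => g34 u17 t
    have u19 := bt fun t => g381 u9 g6631 u17 t
    have u20 := bt fun t => g368 u9 w6723 u14 u18 t
    exact g64 u19 u20
  have s6943 : T.X p c a r = true → T.alt p a b r c = false → T.X p c a b = false → False := fun n0 n1 n2 => by
    have u0 := bf fun t => g335 t g6631 n2 n0
    have u1 := bt fun t => g287 n1 u0 t
    have u2 := bf fun t => g416 u1 g6631 n2 t
    have u3 := bf fun t => g459 u1 n0 t u2
    exact g3072 g6631 n2 n0 u3 u2
  have s6944 : T.X p r c d = false → T.bfo p a b s d = true → False := fun n0 n1 => by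
    have u0 := bt fun t => s6902 t n1
    have u1 := bf fun t => g470 u0 t
    have u2 := bf fun t => s6932 t n1
    have u3 := bf fun t => g6485 u1 u2 t
    have u4 := bt fun t => s6926 t n1
    have u5 := bf fun t => g28 u4 t
    have u6 := bf fun t => s6916 t n1
    have u7 := bf fun t => s6857 t n1
    have u8 := bf fun t => g469 u0 t
    have u9 := bf fun t => g6457 u8 u7 t
    have u10 := bf fun t => s6941 t n0 n1
    have u11 := bf fun t => s6942 t n0 n1
    have u12 := bf fun t => g6660 t u11
    have u13 := bf fun t => g1036 t u6 u4 u11 g6639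
    have u14 := bt fun t => g6667 g6670 t u12
    have u15 := bf fun t => g6497 u8 u13 t
    have u16 := bf fun t => g6537 u7 u13 t
    have u17 := bt fun t => g1011 t u13 u2
    have u18 := bf fun t => g6500 t u3 u15
    have u19 := bf fun t => s6943 t u18 u6
    have u20 := bf fun t => g1579 t u19 u4 n0 u10
    have u21 := bt fun t => g6504 u0 u20 t
    have u22 := bt fun t => g1554 t u20 u3
    have u23 := bf fun t => g2279 t u21
    have u24 := bt fun t => s6855 t u9 u7 u22 u3
    have u25 := bf fun t => g6587 u22 u24 t
    have u26 := bf fun t => g6630 u23 t u25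
    have u27 := bf fun t => g1736 u24 t
    have u28 := bt fun t => g6517 t u7 u24
    have u29 := bt fun t => g1827 u24 u4 g6638 t
    have u30 := bt fun t => g2459 u26 t u16
    have u31 := bf fun t => g697 u28 g6632 u6 t
    have u32 := bf fun t => g89 u29 t
    have u33 := bt fun t => g6545 t u27 u30
    have u34 := bf fun t => g663 u28 w6724 w6725 u31 t
    have u35 := bt fun t => g6716 n1 u33 t
    have u36 := bt fun t => g1818 u24 t u35 u5 u32
    have u37 := bt fun t => s6803 u4 t u14 u24 u28 u35 u17 u6
    have u38 := bt fun t => s6861 u36 u14 t u28 u24 u6 u4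
    have u39 := bf fun t => g45 t u37
    have u40 := bf fun t => g2470 u30 u34 u37 t
    exact g5066 u38 u39 u11 g6638 u40
  have s6945 : T.alt p a r c d = false → T.alt p a b r c = false → T.bfo p a b s d = true → False := fun n0 n1 n2 => by
    have u0 := bt fun t => s6944 t n2
    have u1 := bf fun t => g6701 u0 t
    have u2 := bt fun t => s6926 t n2
    have u3 := bt fun t => s6902 t n2
    have u4 := bt fun t => g6474 n1 u3 t
    have u5 := bf fun t => g1103 u4 u2 t g6639
    have u6 := bf fun t => g6691 t u5
    have u7 := bf fun t => g6699 u1 t u6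
    have u8 := bf fun t => g470 u3 t
    have u9 := bf fun t => s6932 t n2
    have u10 := bf fun t => g6485 u8 u9 t
    have u11 := bf fun t => s6916 t n2
    have u12 := bf fun t => g469 u3 t
    have u13 := bf fun t => g6476 t u12 n0
    have u14 := bf fun t => g6682 t n0 u10
    have u15 := bt fun t => g287 n1 u13 t
    have u16 := bf fun t => g6685 t u14
    have u17 := bt fun t => s6844 t u11 u15
    exact g6695 u7 u17 u16
  have s6946 : T.alt p a b r c = false → T.bfo p a b s d = true → False := fun n0 n1 => by
    have u0 := bt fun t => s6902 t n1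
    have u1 := bf fun t => g470 u0 t
    have u2 := bf fun t => s6932 t n1
    have u3 := bf fun t => g6485 u1 u2 t
    have u4 := bt fun t => s6926 t n1
    have u5 := bf fun t => g28 u4 t
    have u6 := bf fun t => s6916 t n1
    have u7 := bf fun t => s6857 t n1
    have u8 := bf fun t => g469 u0 t
    have u9 := bf fun t => g6457 u8 u7 t
    have u10 := bt fun t => g6474 n0 u0 t
    have u11 := bf fun t => g6501 n0 u3 t
    have u12 := bf fun t => g1103 u10 u4 t g6639
    have u13 := bf fun t => g6605 u9 u11 t
    have u14 := bf fun t => g6660 t u12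
    have u15 := bt fun t => g6667 g6670 t u14
    have u16 := bt fun t => s6945 t n0 n1
    have u17 := bf fun t => g6507 u10 u16 t
    have u18 := bt fun t => s6855 t u9 u7 u16 u3
    have u19 := bf fun t => g6587 u16 u18 t
    have u20 := bf fun t => g6630 u17 t u19
    have u21 := bf fun t => g1736 u18 t
    have u22 := bt fun t => g6517 t u7 u18
    have u23 := bt fun t => g1827 u18 u4 g6638 t
    have u24 := bt fun t => g2459 u20 t u13
    have u25 := bf fun t => g697 u22 g6632 u6 t
    have u26 := bf fun t => g89 u23 t
    have u27 := bt fun t => g6545 t u21 u24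
    have u28 := bf fun t => g663 u22 w6724 w6725 u25 t
    have u29 := bt fun t => g6716 n1 u27 t
    have u30 := bt fun t => g1818 u18 t u29 u5 u26
    have u31 := bt fun t => s6803 u4 t u15 u18 u22 u29 u10 u6
    have u32 := bt fun t => s6861 u30 u15 t u22 u18 u6 u4
    have u33 := bf fun t => g45 t u31
    have u34 := bf fun t => g2470 u24 u28 u31 t
    exact g5066 u32 u33 u12 g6638 u34
  have s6947 : T.bfo p a b s d = true → False := fun n0 => by
    have u0 := bt fun t => s6902 t n0
    have u1 := bf fun t => g469 u0 t
    have u2 := bf fun t => g470 u0 t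
    have u3 := bf fun t => s6916 t n0
    have u4 := bt fun t => s6926 t n0
    have u5 := bf fun t => s6932 t n0
    have u6 := bf fun t => g6485 u2 u5 t
    have u7 := bt fun t => s6944 t n0
    have u8 := bf fun t => g6701 u7 t
    have u9 := bt fun t => s6946 t n0
    have u10 := bf fun t => g288 u9 t
    have u11 := bf fun t => g289 u9 t
    have u12 := bf fun t => s6805 t u3 u9
    have u13 := bf fun t => g6471 u9 u0 t
    have u14 := bt fun t => g6500 u9 u6 t
    have u15 := bf fun t => g6477 u10 u1 t
    have u16 := bf fun t => g6489 u11 u2 t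
    have u17 := bt fun t => g1011 u13 t u5
    have u18 := bt fun t => g6688 t u16 u14
    have u19 := bf fun t => g6682 t u15 u6
    have u20 := bt fun t => g1036 u17 u3 u4 t g6639
    have u21 := bt fun t => g6690 t u20 u18
    have u22 := bf fun t => g6685 t u19
    have u23 := bt fun t => g6700 u8 t u21
    exact g6694 u23 u12 u22
  have w6947 := bf s6947
  have s6948 : T.alt p a c s d = false → T.alt p b c s d = false → T.alt p a s c d = false → T.alt p a d b c = false → False := fun n0 n1 n2 n3 => by
    have u0 := bt fun t => g1735 n2 n0 t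
    have u1 := bf fun t => g6544 t n0 n1
    have u2 := bt fun t => g6525 t n3 u0
    exact g6717 w6947 u1 u2
  have s6949 : T.X a r b c = false → T.X p c a r = false → T.X a r c d = true → T.X a d b c = false → T.X p a b c = false → T.X p r c d = false → T.X p b c d = true → T.alt p a b r d = true → T.alt p a c r d = true → T.X p a c d = true → T.alt p b d r c = true → T.alt p a b r c = true → False := fun n0 n1 n2 n3 n4 n5 n6 n7 n8 n9 n10 n11 => by
    have u0 := bf fun t => s6933 t n2 n5 n9
    have u1 := bf fun t => g369 n11 n4 n1 t n0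
    have u2 := bt fun t => s6940 t n3 n0 n6 n10 u0 n2 n5 n7
    have u3 := bf fun t => g97 u2 t
    have u4 := bf fun t => g5761 n0 t g6639 n2 u3
    have u5 := bf fun t => g561 n7 g6631 t u4
    have u6 := bf fun t => g562 n7 g6631 t u4
    have u7 := bt fun t => g1598 n8 u5 n9 n5 t
    exact g2427 n10 u1 u6 u7 u3
  have s6950 : T.X p c a r = false → T.X a r c d = true → T.X a d b c = false → T.X p a b c = false → T.X p r c d = false → T.X p b c d = true → T.alt p a b r d = true → T.alt p a c r d = true → T.X p a c d = true → T.X p c a b = false → T.alt p b d r c = true → T.alt p a b r c = true → False := fun n0 n1 n2 n3 n4 n5 n6 n7 n8 n9 n10 n11 => by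
    have u0 := bf fun t => g47 n5 t
    have u1 := bt fun t => s6949 t n0 n1 n2 n3 n4 n5 n6 n7 n8 n10 n11
    have u2 := bf fun t => g64 t u1
    have u3 := bt fun t => g3031 g6631 n9 n0 t u1
    have u4 := bf fun t => g381 n11 g6631 t u2
    have u5 := bf fun t => g2446 n10 u3 u0 t
    exact g2440 n10 u4 n5 n4 u5
  have s6953 : T.X p a b c = false → T.X p c a r = false → T.X a r c d = true → T.X p r c d = false → T.alt p a c b d = true → T.alt p a b r d = true → T.alt p a c r d = true → T.X p a c d = true → T.X p c a b = false → T.alt p b d r c = true → T.alt p a b r c = true → False := fun n0 n1 n2 n3 n4 n5 n6 n7 n8 n9 n10 => by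
    have u0 := bf fun t => s6933 t n2 n3 n7
    have u1 := bf fun t => s6927 t u0 n5
    have u2 := bt fun t => g1036 n4 n8 n7 t g6639
    have u3 := bf fun t => g47 u2 t
    have u4 := bf fun t => g28 n7 t
    have u5 := bf fun t => g1041 n4 n0 u1 u4 u3 t
    exact s6950 n1 n2 u5 n0 n3 u2 n5 n6 n7 n8 n9 n10
  have s6955 : T.X p r b c = true → T.X p r c d = false → T.X p b c d = true → T.alt p b d r c = true → False := fun n0 n1 n2 n3 => by
    have u0 := bf fun t => g47 n2 t
    have u1 := bf fun t => g34 t n0
    have u2 := bf fun t => g2446 n3 n0 u0 t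
    exact g2440 n3 u1 n2 n1 u2
  have s6956 : T.X p a b c = true → T.X p r b c = false → T.alt p a b r c = true → False := fun n0 n1 n2 => by
    have u0 := bt fun t => g371 n2 w6723 n0 n1 t
    have u1 := bf fun t => g64 t u0
    have u2 := bf fun t => g380 n2 g6631 t u1
    exact g3064 g6631 n0 u2 n1 u1
  have s6957 : T.X p c a r = true → T.X p r c d = false → T.X p b c d = true → T.alt p a c r d = true → T.X p d a c = false → T.alt p b d r c = true → T.alt p a b r c = true → False := fun n0 n1 n2 n3 n4 n5 n6 => by
    have u0 := bf fun t => s6955 t n1 n2 n5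
    have u1 := bf fun t => s6956 t u0 n6
    have u2 := bf fun t => g17 t n0
    have u3 := bf fun t => g18 t n0
    have u4 := bt fun t => g368 n6 w6723 n0 u0 t
    have u5 := bf fun t => g1568 n3 u2 u3 n4 t
    have u6 := bf fun t => g3042 w6723 u1 u2 t u4
    exact g2440 n5 u6 n2 n1 u5
  have s6958 : T.alt p a r c d = false → T.X p a c d = true → T.X p c a b = false → T.alt p a d r c = false → T.alt p a b r c = true → False := fun n0 n1 n2 n3 n4 => by
    have u0 := bf fun t => g29 n1 t
    have u1 := bf fun t => s6805 t n2 n4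
    have u2 := bf fun t => g289 n4 t
    have u3 := bt fun t => g6500 n4 n3 t
    have u4 := bf fun t => g2280 t u3
    have u5 := bf fun t => g6490 u2 t u4
    have u6 := bt fun t => g6688 t u4 u3
    have u7 := bf fun t => g288 n4 t
    have u8 := bf fun t => g6478 u7 t n0
    have u9 := bf fun t => g6682 t n0 n3
    have u10 := bt fun t => g1554 n0 t n3
    have u11 := bt fun t => g468 t u8 u5
    have u12 := bt fun t => g6497 u8 t u3
    have u13 := bf fun t => g6685 t u9
    have u14 := bt fun t => g1036 u12 n2 n1 t g6639
    have u15 := bf fun t => g6694 t u1 u13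
    have u16 := bt fun t => g6690 t u14 u6
    have u17 := bt fun t => g6700 t u15 u16
    have u18 := bf fun t => g6701 t u17
    have u19 := bf fun t => s6955 t u18 u14 u3
    have u20 := bf fun t => s6956 t u19 n4
    have u21 := bf fun t => s6957 t u18 u14 u10 u0 u3 n4
    have u22 := bt fun t => g1579 u10 u21 n1 u18 t
    exact s6953 u20 u21 u22 u18 u12 u11 u10 n1 n2 u3 n4
  have s6959 : T.alt p a b s c = true → T.X p b s c = false → T.X p b a d = false → T.alt p a c b d = false → T.alt p a b c d = true → T.X p a c d = true → T.X p c a b = false → T.alt p a d b c = false → False := fun n0 n1 n2 n3 n4 n5 n6 n7 => by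
    have u0 := bf fun t => g1103 n4 n5 t g6639
    have u1 := bf fun t => g6660 t u0
    have u2 := bt fun t => g6667 g6670 t u1
    have u3 := bf fun t => s6836 t n7 n5
    have u4 := bf fun t => g650 n0 t
    have u5 := bf fun t => g651 n0 t
    have u6 := bf fun t => g6511 n0 t n4
    have u7 := bf fun t => s6877 n0 n1 t n6
    have u8 := bf fun t => g6533 u4 n7 t
    have u9 := bf fun t => g6521 u5 n3 t
    have u10 := bf fun t => g6717 w6947 u6 t
    have u11 := bt fun t => g6663 u2 u7 t
    have u12 := bt fun t => s6948 u9 u8 t n7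
    have u13 := bt fun t => g830 u6 t u10
    have u14 := bt fun t => g6654 u11 t
    have u15 := bt fun t => g1827 u12 n5 g6638 t
    have u16 := bt fun t => g6649 u14 u12 t
    have u17 := bf fun t => g89 u15 t
    have u18 := bf fun t => g4446 u16 t g6638 u15
    have u19 := bt fun t => g1822 u12 u16 t w6727 u17
    have u20 := bt fun t => g857 u13 g6632 u3 u18 t
    have u21 := bt fun t => g854 u13 w6724 n2 u19 t
    exact g74 u20 u21
  have s6960 : T.alt p a b s c = false → T.X p c b r = false → T.X p r c d = false → T.X p d a r = false → T.X p b c d = false → T.alt p a r b d = true → T.alt p a b c d = true → T.alt p b d r c = true → T.alt p a b r c = true → False := fun n0 n1 n2 n3 n4 n5 n6 n7 n8 => by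
    have u0 := bf fun t => g482 n5 w6722 w6723 n3 t
    have u1 := bf fun t => g2422 n7 n1 u0 n4 n2 t
    have u2 := bf fun t => g289 n8 t
    have u3 := bf fun t => g2280 t n7
    have u4 := bf fun t => g6490 u2 t u3
    have u5 := bf fun t => g2281 t n7
    have u6 := bt fun t => g6394 t n8 n0
    have u7 := bt fun t => g6513 n0 t n6
    have u8 := bf fun t => g107 u6 t
    have u9 := bf fun t => g108 u6 t
    have u10 := bt fun t => g197 u6 g6631 g6632 t
    have u11 := bt fun t => g6634 g6637 u6 t
    have u12 := bf fun t => g831 u7 t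
    have u13 := bf fun t => g832 u7 t
    have u14 := bf fun t => g6453 u8 u13 t
    have u15 := bt fun t => g6438 u8 n5 t
    have u16 := bf fun t => g6449 u9 u4 t
    have u17 := bf fun t => g62 u10 t
    have u18 := bf fun t => g13 t u11
    have u19 := bf fun t => g15 u11 t
    have u20 := bt fun t => g185 u6 w6725 u11 t u17
    have u21 := bf fun t => g215 u6 w6725 u11 t
    have u22 := bf fun t => g2930 g6632 u11 t u10
    have u23 := bt fun t => g6456 n5 u12 t
    have u24 := bf fun t => g6445 u4 u13 t
    have u25 := bf fun t => g6617 u14 u5 t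
    have u26 := bf fun t => g1446 u15 u18 u19 n3 t
    have u27 := bf fun t => g6721 t u24
    have u28 := bf fun t => g6569 u27 u24 t
    have u29 := bt fun t => g2640 u28 t u25
    have u30 := bf fun t => g2262 u23 u21 u22 t u26
    have u31 := bt fun t => g2663 u29 u26 n2 g6638 t
    have u32 := bt fun t => g6420 u6 u27 t
    have u33 := bt fun t => g6625 u16 t u29
    have u34 := bf fun t => g2689 u29 t n2 g6638
    have u35 := bt fun t => g2482 u33 u30 n4 g6638 t
    have u36 := bf fun t => g103 u31 t
    have u37 := bf fun t => g2045 u32 u20 n1 t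
    have u38 := bt fun t => g2237 u23 u20 u0 u34 t
    exact g6271 u37 u38 u1 u35 u36
  have s6961 : T.alt p a b s c = true → T.X p a b c = false → T.alt p a c b d = false → T.alt p a b c d = true → T.X p a c d = true → T.X p c a b = false → T.alt p a d b c = false → False := fun n0 n1 n2 n3 n4 n5 n6 => by
    have u0 := bf fun t => g1103 n3 n4 t g6639
    have u1 := bf fun t => g6660 t u0
    have u2 := bt fun t => g6667 g6670 t u1
    have u3 := bf fun t => s6836 t n6 n4
    have u4 := bf fun t => g28 n4 t
    have u5 := bf fun t => g650 n0 t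
    have u6 := bf fun t => g651 n0 t
    have u7 := bf fun t => g6511 n0 t n3
    have u8 := bf fun t => g6533 u5 n6 t
    have u9 := bf fun t => g6521 u6 n2 t
    have u10 := bf fun t => g6717 w6947 u7 t
    have u11 := bt fun t => s6948 u9 u8 t n6
    have u12 := bt fun t => g830 u7 t u10
    have u13 := bt fun t => g1827 u11 n4 g6638 t
    have u14 := bt fun t => g6536 u12 n2 t
    have u15 := bf fun t => g88 u13 t
    have u16 := bf fun t => g89 u13 t
    have u17 := bf fun t => g2626 u14 t u0 g6638
    have u18 := bt fun t => s6959 n0 u17 t n2 n3 n4 n5 n6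
    have u19 := bf fun t => s6877 n0 u17 t n5
    have u20 := bt fun t => g1094 n3 n1 u18 u4 t
    have u21 := bt fun t => g6663 u2 u19 t
    have u22 := bt fun t => g6654 u21 t
    have u23 := bt fun t => g6649 u22 u11 t
    have u24 := bt fun t => g742 n0 g6632 u23 t
    have u25 := bf fun t => g4446 u23 t g6638 u13
    have u26 := bf fun t => g3375 w6725 n1 u23 u17 t
    have u27 := bt fun t => g857 u12 g6632 u3 u25 t
    have u28 := bt fun t => g5931 u26 u27 g6639 u13 t
    exact g6007 u24 u27 u20 u15 u16 u28
  have s6962 : T.alt p a b s c = false → T.alt p a r c d = true → T.X p a c d = true → T.X p c a b = false → T.alt p b d r c = true → T.alt p a b r c = true → False := fun n0 n1 n2 n3 n4 n5 => by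
    have u0 := bf fun t => g2280 t n4
    have u1 := bt fun t => g6510 t n1 u0
    have u2 := bf fun t => g1103 u1 n2 t g6639
    have u3 := bf fun t => g6660 t u2
    have u4 := bt fun t => g6667 g6670 t u3
    have u5 := bf fun t => g288 n5 t
    have u6 := bf fun t => g2281 t n4
    have u7 := bf fun t => g6494 u5 t u6
    have u8 := bf fun t => s6836 t u7 n2
    have u9 := bt fun t => g6477 u5 t n1
    have u10 := bf fun t => g516 u9 g6631 u8 t
    have u11 := bf fun t => g289 n5 t
    have u12 := bf fun t => g6490 u11 t u0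
    have u13 := bt fun t => g6394 t n5 n0
    have u14 := bt fun t => g6513 n0 t u1
    have u15 := bf fun t => g107 u13 t
    have u16 := bf fun t => g108 u13 t
    have u17 := bt fun t => g197 u13 g6631 g6632 t
    have u18 := bt fun t => g6634 g6637 u13 t
    have u19 := bf fun t => g831 u14 t
    have u20 := bf fun t => g832 u14 t
    have u21 := bf fun t => g6715 w6947 u14 t
    have u22 := bf fun t => g6453 u15 u20 t
    have u23 := bt fun t => g6438 u15 u9 t
    have u24 := bf fun t => g6449 u16 u12 t
    have u25 := bf fun t => g13 t u18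
    have u26 := bf fun t => g15 u18 t
    have u27 := bf fun t => g215 u13 w6725 u18 t
    have u28 := bf fun t => g2930 g6632 u18 t u17
    have u29 := bt fun t => g6456 u9 u19 t
    have u30 := bf fun t => g6445 u12 u20 t
    have u31 := bf fun t => g6617 u22 u6 t
    have u32 := bf fun t => g1446 u23 u25 u26 u10 t
    have u33 := bf fun t => g6721 t u30
    have u34 := bf fun t => g6569 u33 u30 t
    have u35 := bt fun t => g2640 u34 t u31
    have u36 := bf fun t => g2262 u29 u27 u28 t u32
    have u37 := bf fun t => g6406 u11 t u33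
    have u38 := bt fun t => g6588 n1 t u34
    have u39 := bt fun t => g6625 u24 t u35
    have u40 := bt fun t => g2482 u39 u36 u2 g6638 t
    have u41 := bf fun t => g3579 g6632 u8 u21 u36 t
    have u42 := bt fun t => g649 n0 t u37
    have u43 := bt fun t => g1827 u38 n2 g6638 t
    have u44 := bf fun t => g5085 t u36 u2 w6727 u40
    have u45 := bf fun t => s6861 t u4 u44 u42 u38 n3 n2
    have u46 := bf fun t => g89 u43 t
    have u47 := bt fun t => g676 u42 g6632 n3 u45 t
    exact g5935 u47 u41 g6639 u46 u40
  have s6963 : T.X p a c d = true → T.X p c a b = false → T.alt p a d r c = false → T.alt p a b r c = true → False := fun n0 n1 n2 n3 => by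
    have u0 := bf fun t => g288 n3 t
    have u1 := bt fun t => g6500 n3 n2 t
    have u2 := bf fun t => g2281 t u1
    have u3 := bf fun t => g6494 u0 t u2
    have u4 := bf fun t => g2280 t u1
    have u5 := bf fun t => g289 n3 t
    have u6 := bf fun t => s6836 t u3 n0
    have u7 := bt fun t => s6958 t n0 n1 n2 n3
    have u8 := bf fun t => g1555 u7 t
    have u9 := bt fun t => g6510 t u7 u4
    have u10 := bf fun t => g6482 u5 t u8
    have u11 := bf fun t => g1103 u9 n0 t g6639
    have u12 := bf fun t => g6660 t u11
    have u13 := bt fun t => g6667 g6670 t u12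
    have u14 := bt fun t => s6962 t u7 n0 n1 u1 n3
    have u15 := bf fun t => g650 u14 t
    have u16 := bf fun t => g651 u14 t
    have u17 := bf fun t => g6511 u14 t u9
    have u18 := bt fun t => s6961 u14 t u10 u9 n0 n1 u3
    have u19 := bf fun t => g6533 u15 u3 t
    have u20 := bf fun t => g6521 u16 u10 t
    have u21 := bf fun t => g6717 w6947 u17 t
    have u22 := bf fun t => g7 u18 t
    have u23 := bt fun t => s6948 u20 u19 t u3
    have u24 := bt fun t => g830 u17 t u21
    have u25 := bt fun t => g1827 u23 n0 g6638 t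
    have u26 := bt fun t => g6536 u24 u10 t
    have u27 := bf fun t => g2626 u26 t u11 g6638
    have u28 := bf fun t => s6877 u14 u27 t n1
    have u29 := bt fun t => g6663 u13 u28 t
    have u30 := bt fun t => g6654 u29 t
    have u31 := bt fun t => g6649 u30 u23 t
    have u32 := bf fun t => g22 u31 t
    have u33 := bt fun t => g742 u14 g6632 u31 t
    have u34 := bf fun t => g4446 u31 t g6638 u25
    have u35 := bf fun t => g3380 w6724 u22 u31 u27 t
    have u36 := bt fun t => g857 u24 g6632 u6 u34 t
    have u37 := bf fun t => g3365 g6632 n1 u32 t u35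
    have u38 := bf fun t => g5976 u33 u36 u25 t
    exact g2600 u26 u37 u11 g6638 u38
  have s6964 : T.alt p a b s c = false → T.X p d a b = true → T.alt p a r c d = true → T.alt p a b c d = true → T.X p b c d = false → T.X p c a b = false → T.alt p b d r c = true → T.alt p a b r c = true → False := fun n0 n1 n2 n3 n4 n5 n6 n7 => by
    have u0 := bf fun t => g289 n7 t
    have u1 := bf fun t => g2280 t n6
    have u2 := bf fun t => g6490 u0 t u1
    have u3 := bf fun t => g2281 t n6
    have u4 := bt fun t => g6394 t n7 n0
    have u5 := bt fun t => g6513 n0 t n3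
    have u6 := bf fun t => g107 u4 t
    have u7 := bf fun t => g108 u4 t
    have u8 := bf fun t => g832 u5 t
    have u9 := bf fun t => g6715 w6947 u5 t
    have u10 := bt fun t => g921 u5 g6632 n1 t
    have u11 := bf fun t => g6453 u6 u8 t
    have u12 := bf fun t => g6449 u7 u2 t
    have u13 := bf fun t => g6445 u2 u8 t
    have u14 := bt fun t => g940 u5 g6632 n1 u9 t
    have u15 := bf fun t => g74 u10 t
    have u16 := bf fun t => g3607 g6632 u14 t u10
    have u17 := bf fun t => g6617 u11 u3 t
    have u18 := bf fun t => g6721 t u13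
    have u19 := bf fun t => g6569 u18 u13 t
    have u20 := bt fun t => g2640 u19 t u17
    have u21 := bf fun t => g6406 u0 t u18
    have u22 := bt fun t => g6588 n2 t u19
    have u23 := bt fun t => g6625 u12 t u20
    have u24 := bt fun t => g649 n0 t u21
    have u25 := bt fun t => g1831 u22 u14 g6638 t
    have u26 := bf fun t => g1846 u22 t u14 w6727
    have u27 := bt fun t => g2482 u23 u16 n4 g6638 t
    have u28 := bf fun t => g89 u25 t
    have u29 := bt fun t => g676 u24 g6632 n5 u26 t
    exact g5935 u29 u15 g6639 u28 u27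
  have s6965 : T.alt p a b s c = true → v153 = true → T.X p c a b = false → False := fun n0 n1 n2 => by
    have u0 := bt fun t => s6879 n0 t n2 n1
    have u1 := bt fun t => s6877 n0 t n1 n2
    exact g754 n0 w6724 w6725 u0 u1
  have s6966 : T.alt p a b s d = false → T.alt p a s b d = false → False := fun n0 n1 => by
    have u0 := bf fun t => g6717 w6947 n0 t
    exact g830 n0 n1 u0
  have s6967 : T.alt p a b s d = true → T.X p a c d = false → T.X p b c d = false → T.X p a s c = true → T.alt p a b s c = false → T.X p c a b = false → False := fun n0 n1 n2 n3 n4 n5 => by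
    have u0 := bf fun t => g6715 w6947 n0 t
    have u1 := bt fun t => g6514 n4 n0 t
    have u2 := bt fun t => g1085 u1 n5 t n1 n2 g6639
    have u3 := bt fun t => g4386 n3 u0 n1 g6638 t
    have u4 := bt fun t => g940 n0 g6632 u2 u0 t
    have u5 := bf fun t => g89 t u3
    exact g4392 n3 u4 n1 w6727 u5
  have s6969 : T.X b r c d = true → T.X p d r c = false → T.X a d b r = false → T.X a d r c = false → T.X p d b r = false → T.alt p a c b r = true → T.X p b c d = false → T.X p c a b = false → False := fun n0 n1 n2 n3 n4 n5 n6 n7 => by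
    have u0 := bf fun t => g4915 t n4 n6 n1 n0
    have u1 := bf fun t => g5765 t n2 g6639 n3 n0
    exact g427 n5 g6631 n7 u0 u1
  have s6970 : T.X p d r c = false → T.X a d b r = false → T.X a r c d = true → T.X p d b r = false → T.X p d a r = false → T.alt p a c b r = true → T.alt p b r c d = true → T.X p a c d = false → T.X p b c d = false → T.X p c a b = false → False := fun n0 n1 n2 n3 n4 n5 n6 n7 n8 n9 => by
    have u0 := bf fun t => g86 n2 t
    have u1 := bf fun t => g6691 t n8
    have u2 := bf fun t => g6684 t n7
    have u3 := bt fun t => s6844 t n9 n5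
    have u4 := bt fun t => g6695 t u3 u2
    have u5 := bt fun t => g6699 t u4 u1
    have u6 := bf fun t => g6701 t u5
    have u7 := bf fun t => g4235 t n4 n7 n0 n2
    have u8 := bf fun t => s6969 t n0 n1 u0 n3 n5 n8 n9
    have u9 := bt fun t => g2352 n6 t n3 n8 u6 u8
    have u10 := bf fun t => g35 t u9
    have u11 := bf fun t => g3030 w6722 n9 u7 u9 t
    exact g427 n5 g6631 n9 u10 u11
  have s6972 : T.X p d r c = true → T.alt p a c b r = true → T.alt p a c b d = true → T.X p b c d = false → T.X p c a b = false → T.X p r c d = false → T.alt p a r b d = true → T.X p d a b = false → False := fun n0 n1 n2 n3 n4 n5 n6 n7 => by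
    have u0 := bf fun t => g1036 n2 n4 t n3 g6639
    have u1 := bf fun t => g516 n6 g6631 n7 t
    have u2 := bf fun t => g469 t n6
    have u3 := bf fun t => g1012 t n2
    have u4 := bf fun t => g6472 t u2 u3
    have u5 := bf fun t => s6943 t u4 n4
    have u6 := bf fun t => g290 t n1
    have u7 := bt fun t => g6478 u6 n6 t
    have u8 := bt fun t => g1628 u7 u5 u1 u0 n5 t
    have u9 := bf fun t => g86 u8 t
    have u10 := bf fun t => g471 n6 t
    have u11 := bt fun t => g6488 n1 u10 t
    have u12 := bf fun t => g57 t n0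
    have u13 := bt fun t => g1627 u7 t u5 u1 n0
    have u14 := bf fun t => g1667 u7 t n0 u9
    have u15 := bf fun t => g4226 u5 t u0 u12 u8
    have u16 := bf fun t => g16 u13 t
    have u17 := bt fun t => g458 n1 g6631 u13 t
    have u18 := bt fun t => g495 n6 g6631 n7 u15 t
    have u19 := bf fun t => g65 u17 t
    have u20 := bt fun t => s6936 u18 u11 t u17 n3 u14 u8 n5 n7
    exact g3025 g6631 n4 u16 u20 u19
  have s6973 : T.X a d b r = true → T.alt p a r b d = true → T.X p d a b = false → False := fun n0 n1 n2 => by
    have u0 := bf fun t => g516 n1 g6631 n2 t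
    have u1 := bf fun t => g482 n1 w6722 w6723 u0 t
    have u2 := bf fun t => g68 t n0
    have u3 := bt fun t => g3239 g6631 n2 t u1 n0
    have u4 := bt fun t => g495 n1 g6631 n2 t u2
    exact g4182 u4 u3
  have s6974 : T.alt p a c b r = true → T.X p b c d = false → T.X p c a b = false → T.X p r c d = false → T.alt p a r b d = true → T.X p d a b = false → False := fun n0 n1 n2 n3 n4 n5 => by
    have u0 := bf fun t => s6973 t n4 n5
    have u1 := bf fun t => g516 n4 g6631 n5 t
    have u2 := bf fun t => g482 n4 w6722 w6723 u1 t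
    have u3 := bf fun t => g471 n4 t
    have u4 := bf fun t => g289 t n0
    have u5 := bf fun t => g290 t n0
    have u6 := bt fun t => g6488 n0 u3 t
    have u7 := bf fun t => s6943 t u4 n2
    have u8 := bt fun t => g6478 u5 n4 t
    have u9 := bf fun t => g2280 u6 t
    have u10 := bt fun t => g6496 n4 t u9
    have u11 := bf fun t => g1036 u10 n2 t n1 g6639
    have u12 := bf fun t => s6972 t n0 u10 n1 n2 n3 n4 n5
    have u13 := bt fun t => g1628 u8 u7 u1 u11 n3 t
    exact s6970 u12 u0 u13 u2 u1 n0 u6 u11 n1 n2
  have s6976 : T.X p a c d = true → T.X p b c d = false → T.X p c a b = false → T.alt p a r b d = true → T.X p d a b = false → False := fun n0 n1 n2 n3 n4 => by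
    have u0 := bf fun t => g471 n3 t
    have u1 := bf fun t => g469 t n3
    have u2 := bf fun t => g1036 t n2 n0 n1 g6639
    have u3 := bf fun t => g1154 t n4 n0 n1 g6639
    have u4 := bt fun t => g1011 t u2 u3
    have u5 := bf fun t => g6485 u0 u3 t
    have u6 := bt fun t => g6473 t u1 u4
    exact s6963 n0 n2 u5 u6
  have s6977 : T.alt p a d r c = false → T.alt p a s b c = true → T.alt p a r c d = false → T.X p a c d = false → T.X p b c d = false → T.X p c a b = false → T.alt p a d b r = false → T.X p d a b = false → False := fun n0 n1 n2 n3 n4 n5 n6 n7 => by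
    have u0 := bf fun t => g1085 t n5 n7 n3 n4 g6639
    have u1 := bf fun t => g6660 t n4
    have u2 := bt fun t => g6667 g6670 t u1
    have u3 := bf fun t => g6653 t n3
    have u4 := bt fun t => g6663 u2 t u3
    have u5 := bf fun t => s6965 t u4 n5
    have u6 := bf fun t => g6514 u5 t u0
    have u7 := bt fun t => s6966 u6 t
    have u8 := bf fun t => g878 u7 g6632 n7 t
    have u9 := bf fun t => g844 u7 w6724 w6725 u8 t
    have u10 := bf fun t => g6717 w6947 u6 t
    have u11 := bf fun t => g6445 n6 u10 t
    have u12 := bf fun t => g6721 t u11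
    have u13 := bf fun t => g6486 n6 t n0
    have u14 := bt fun t => g1554 n2 t n0
    have u15 := bt fun t => g6532 n1 u13 t
    have u16 := bt fun t => g6562 u12 u14 t
    have u17 := bt fun t => g2482 u15 u9 n4 g6638 t
    have u18 := bf fun t => g1784 u16 t n3 g6638
    have u19 := bt fun t => g1758 u16 u8 n3 g6638 t
    have u20 := bt fun t => g857 u7 g6632 n7 u18 t
    have u21 := bf fun t => g4405 t u8 n3 w6727 u19
    have u22 := bf fun t => g5976 t u20 u19 u17
    exact g676 n1 g6632 n5 u21 u22
  have s6978 : T.alt p a c b r = false → T.alt p a b r c = false → T.X p a c d = false → T.X p b c d = false → T.X p c a b = false → T.alt p a d b r = false → T.X p d a b = false → False := fun n0 n1 n2 n3 n4 n5 n6 => by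
    have u0 := bf fun t => g1085 t n4 n6 n2 n3 g6639
    have u1 := bf fun t => g6660 t n3
    have u2 := bt fun t => g6667 g6670 t u1
    have u3 := bf fun t => g6653 t n2
    have u4 := bt fun t => g6663 u2 t u3
    have u5 := bf fun t => s6965 t u4 n4
    have u6 := bf fun t => g6514 u5 t u0
    have u7 := bf fun t => g6717 w6947 u6 t
    have u8 := bf fun t => g6445 n5 u7 t
    have u9 := bt fun t => s6966 u6 t
    have u10 := bf fun t => g6392 t n1 u5
    have u11 := bf fun t => g6489 n0 n5 t
    have u12 := bf fun t => g6510 u0 t u11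
    have u13 := bf fun t => s6759 u10 n1 n0 t
    have u14 := bf fun t => s6815 t u13
    have u15 := bt fun t => g649 u5 t u14
    have u16 := bf fun t => g697 u15 g6632 n4 t
    have u17 := bf fun t => g6515 u15 u9 t
    have u18 := bf fun t => g663 u15 w6724 w6725 u16 t
    have u19 := bt fun t => s6977 t u15 u12 n2 n3 n4 n5 n6
    have u20 := bt fun t => g6485 n5 t u19
    have u21 := bt fun t => g6566 u8 u19 t
    have u22 := bt fun t => s6869 u17 t u20 n4 n2
    have u23 := bf fun t => g1902 u21 t n2 g6638
    have u24 := bt fun t => g1876 u21 u16 n2 g6638 t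
    have u25 := bt fun t => g2600 u22 u18 n3 g6638 t
    have u26 := bt fun t => g676 u15 g6632 n4 u23 t
    have u27 := bf fun t => g4396 u16 t n2 w6726 u24
    have u28 := bf fun t => g5976 u26 t u24 u25
    exact g857 u9 g6632 n6 u27 u28
  have s6979 : T.X p b c d = false → T.X p c a b = false → T.alt p a r b d = true → T.X p d a b = false → False := fun n0 n1 n2 n3 => by
    have u0 := bf fun t => g471 n2 t
    have u1 := bf fun t => g469 t n2
    have u2 := bf fun t => g6691 t n0
    have u3 := bf fun t => s6976 t n0 n1 n2 n3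
    have u4 := bf fun t => g6684 t u3
    have u5 := bf fun t => g1085 t n1 n3 u3 n0 g6639
    have u6 := bf fun t => g6472 t u1 u5
    have u7 := bt fun t => s6978 t u6 u3 n0 n1 u0 n3
    have u8 := bt fun t => s6844 t n1 u7
    have u9 := bt fun t => s6974 u7 n0 n1 t n2 n3
    have u10 := bt fun t => g6695 t u8 u4
    have u11 := bf fun t => g6701 u9 t
    exact g6699 u11 u10 u2
  have s6981 : T.X a r c d = false → T.X a d b c = false → T.X p r b c = false → T.X b r c d = true → T.X p r c d = false → T.alt p a r c d = true → T.alt p a b r c = true → T.X p a c d = false → T.X a d b r = false → T.X p d a r = false → False := fun n0 n1 n2 n3 n4 n5 n6 n7 n8 n9 => by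
    have u0 := bt fun t => g1628 n5 t n9 n7 n4 n0
    have u1 := bf fun t => g5732 t n8 n1 n0 n3
    exact g368 n6 w6723 u0 n2 u1
  have s6982 : T.X a r c d = true → T.X b r c d = true → T.X p r c d = false → T.alt p a b r c = true → T.alt p b d r c = true → T.X p a c d = false → T.X p b c d = true → T.X a d b r = false → T.X p d a r = false → False := fun n0 n1 n2 n3 n4 n5 n6 n7 n8 => by
    have u0 := bf fun t => g86 n0 t
    have u1 := bf fun t => g5765 t n7 g6639 u0 n1
    have u2 := bf fun t => g380 n3 g6631 t u1
    have u3 := bf fun t => g381 n3 g6631 t u1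
    have u4 := bf fun t => g4220 u2 n8 n5 t n0
    exact g2440 n4 u3 n6 n2 u4
  have s6984 : T.X p a c d = false → T.X p c a b = false → T.alt p a r b d = true → T.X p d a b = false → False := fun n0 n1 n2 n3 => by
    have u0 := bt fun t => s6979 t n1 n2 n3
    have u1 := bf fun t => g47 u0 t
    have u2 := bf fun t => g46 u0 t
    have u3 := bf fun t => s6973 t n2 n3
    have u4 := bf fun t => g516 n2 g6631 n3 t
    have u5 := bf fun t => g482 n2 w6722 w6723 u4 t
    have u6 := bf fun t => g471 n2 t
    have u7 := bf fun t => g6684 t n0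
    have u8 := bf fun t => g1152 t n1 n0 u0 g6639
    have u9 := bf fun t => g1034 t n3 n0 u0 g6639
    have u10 := bf fun t => g6485 u6 u8 t
    have u11 := bt fun t => g6496 n2 u9 t
    have u12 := bt fun t => g1011 t u9 u8
    have u13 := bf fun t => g2280 t u11
    have u14 := bt fun t => g6688 t u13 u11
    have u15 := bt fun t => g6501 t u10 u11
    have u16 := bt fun t => g6508 u12 t u13
    have u17 := bt fun t => g6690 t u0 u14
    have u18 := bf fun t => s6805 t n1 u15
    have u19 := bf fun t => g6694 t u18 u7
    have u20 := bt fun t => g6700 t u19 u17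
    have u21 := bf fun t => g6701 t u20
    have u22 := bt fun t => g2421 u11 u5 u0 u21 t
    have u23 := bf fun t => s6955 t u21 u0 u11
    have u24 := bf fun t => g97 u22 t
    have u25 := bf fun t => s6956 t u23 u15
    have u26 := bf fun t => s6982 t u22 u21 u15 u11 n0 u0 u3 u4
    have u27 := bt fun t => g1628 u16 t u4 n0 u21 u26
    have u28 := bt fun t => s6981 u26 t u23 u22 u21 u16 u15 n0 u3 u4
    have u29 := bf fun t => g18 t u27
    have u30 := bf fun t => g357 u15 w6723 u27 t
    have u31 := bt fun t => g3702 u25 t n0 u0 u28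
    have u32 := bf fun t => g5795 u30 u3 u28 t u24
    have u33 := bf fun t => g3025 g6631 n1 u29 t u30
    have u34 := bf fun t => g5756 u30 t g6639 u32 u22
    have u35 := bf fun t => g1127 u12 u25 u31 t u1 u28
    have u36 := bf fun t => g3689 u25 t u35 u2 u28
    have u37 := bf fun t => g4936 u33 t u2 u21 u22
    have u38 := bt fun t => g495 n2 g6631 n3 t u34
    exact g3189 g6631 u36 u38 u37 u34
  have s6985 : T.alt p a r c d = true → T.X p b c d = true → T.X p a c d = true → T.alt p a r b d = true → T.X p d a b = false → False := fun n0 n1 n2 n3 n4 => by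
    have u0 := bf fun t => g469 t n3
    have u1 := bf fun t => g1103 t n2 n1 g6639
    have u2 := bf fun t => g6472 t u0 u1
    have u3 := bf fun t => g46 n1 t
    have u4 := bf fun t => g471 n3 t
    have u5 := bf fun t => g1556 n0 t
    have u6 := bt fun t => g6510 u1 n0 t
    have u7 := bf fun t => g6486 u4 t u5
    have u8 := bt fun t => g6489 t u4 u6
    have u9 := bt fun t => g1011 u1 t u7
    have u10 := bf fun t => s6773 t n3 u8 u2
    have u11 := bf fun t => g1050 u9 t n1 g6639
    have u12 := bf fun t => g6433 u10 u0 t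
    have u13 := bf fun t => g6717 w6947 u12 t
    have u14 := bt fun t => s6966 u12 t
    have u15 := bf fun t => g6445 u4 u13 t
    have u16 := bf fun t => g878 u14 g6632 n4 t
    have u17 := bf fun t => g6721 t u15
    have u18 := bf fun t => g844 u14 w6724 w6725 u16 t
    have u19 := bf fun t => g6569 u17 u15 t
    have u20 := bt fun t => g6404 u8 t u17
    have u21 := bt fun t => g6588 n0 t u19
    have u22 := bt fun t => g6628 u6 t u19
    have u23 := bf fun t => g778 u20 g6632 u11 t
    have u24 := bt fun t => g1827 u21 n2 g6638 t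
    have u25 := bt fun t => g2551 u22 n1 g6638 t
    have u26 := bf fun t => g100 u25 t
    have u27 := bf fun t => g101 u25 t
    have u28 := bf fun t => g5931 u23 t g6639 u24 u26
    have u29 := bf fun t => g869 u14 g6632 t u28
    have u30 := bt fun t => g857 u14 g6632 n4 t u28
    have u31 := bt fun t => g5122 u29 t u18 n1 g6638 u25
    have u32 := bf fun t => g4446 t u30 g6638 u24
    have u33 := bt fun t => g2542 u22 t u31 u3 u27
    have u34 := bf fun t => g6649 t u21 u32
    have u35 := bt fun t => s6886 u20 u32 u11 t
    have u36 := bt fun t => g6655 t u22 u33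
    have u37 := bf fun t => g6654 t u34
    have u38 := bt fun t => g6664 t u35 u37
    have u39 := bt fun t => g6659 t n1 u36
    exact g6666 g6670 u38 u39
  have s6986 : T.alt p a d r c = false → T.X p c a b = false → T.X p r c d = false → T.X p b c d = true → T.X p a c d = true → T.alt p a r b d = true → T.X p d a b = false → False := fun n0 n1 n2 n3 n4 n5 n6 => by
    have u0 := bf fun t => s6985 t n3 n4 n5 n6
    have u1 := bt fun t => g6478 t n5 u0
    have u2 := bf fun t => g469 t n5
    have u3 := bf fun t => g1103 t n4 n3 g6639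
    have u4 := bf fun t => g6472 t u2 u3
    have u5 := bf fun t => s6943 t u4 n1
    have u6 := bf fun t => g301 u1 w6722 w6723 u5 t
    have u7 := bf fun t => g47 n3 t
    have u8 := bf fun t => g28 n4 t
    have u9 := bf fun t => g516 n5 g6631 n6 t
    have u10 := bf fun t => g482 n5 w6722 w6723 u9 t
    have u11 := bf fun t => g471 n5 t
    have u12 := bf fun t => g6486 u11 t n0
    have u13 := bt fun t => g1554 u0 t n0
    have u14 := bt fun t => g6492 u1 u12 t
    have u15 := bt fun t => g1579 u13 u5 n4 n2 t
    have u16 := bt fun t => g2303 u14 u6 n3 n2 t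
    have u17 := bf fun t => s6930 u6 t n3 n6 u15 n2 u14 u9
    have u18 := bf fun t => g86 u15 t
    have u19 := bf fun t => g4882 t u10 u7 n2 u16
    have u20 := bf fun t => g326 u1 g6631 t u17
    have u21 := bt fun t => g314 u1 g6631 n1 t u17
    have u22 := bf fun t => g2292 u14 u20 u19 u7 t
    exact g1582 u13 u21 u8 u22 u18
  have s6987 : T.X p c a b = false → T.X p r c d = false → T.X p b c d = true → T.X p a c d = true → T.alt p a r b d = true → T.X p d a b = false → False := fun n0 n1 n2 n3 n4 n5 => by
    have u0 := bf fun t => s6985 t n2 n3 n4 n5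
    have u1 := bt fun t => g6478 t n4 u0
    have u2 := bf fun t => g469 t n4
    have u3 := bf fun t => g1103 t n3 n2 g6639
    have u4 := bf fun t => g6472 t u2 u3
    have u5 := bf fun t => s6973 t n4 n5
    have u6 := bf fun t => g516 n4 g6631 n5 t
    have u7 := bf fun t => g482 n4 w6722 w6723 u6 t
    have u8 := bt fun t => s6986 t n0 n1 n2 n3 n4 n5
    have u9 := bt fun t => g6502 u4 u8 t
    have u10 := bt fun t => g1697 u8 u6 n3 n1 t
    have u11 := bt fun t => g2421 u9 u7 n2 n1 t
    have u12 := bf fun t => g86 u10 t
    have u13 := bf fun t => g5765 t u5 g6639 u12 u11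
    have u14 := bf fun t => g326 u1 g6631 t u13
    have u15 := bt fun t => g314 u1 g6631 n0 t u13
    have u16 := bt fun t => g2440 u9 u14 n2 n1 t
    exact g1705 u8 u15 u16 u12
  have s6988 : T.X p c a b = true → T.X p b c d = true → T.X p a c d = true → False := fun n0 n1 n2 => by
    have u0 := bf fun t => g1103 t n2 n1 g6639
    have u1 := bf fun t => g1182 t n0 n2 g6639
    have u2 := bf fun t => g1050 t n0 n1 g6639
    exact g1011 u0 u2 u1
  have s6989 : T.X p b c d = true → T.X p a c d = true → T.alt p a r b d = true → T.X p d a b = false → False := fun n0 n1 n2 n3 => by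
    have u0 := bf fun t => g469 t n2
    have u1 := bt fun t => g6713 t u0 n2
    have u2 := bf fun t => g471 n2 t
    have u3 := bf fun t => g1103 t n1 n0 g6639
    have u4 := bf fun t => g6472 t u0 u3
    have u5 := bf fun t => s6985 t n0 n1 n2 n3
    have u6 := bf fun t => g6509 u3 u5 t
    have u7 := bt fun t => g6478 t n2 u5
    have u8 := bt fun t => g6704 t u4 u7
    have u9 := bf fun t => s6988 t n0 n1
    have u10 := bt fun t => s6874 t u7 u9
    have u11 := bt fun t => s6987 u9 t n0 n1 n2 n3
    have u12 := bf fun t => g6701 u11 t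
    have u13 := bt fun t => s6769 t u10 u5 u4 u12 u6
    have u14 := bt fun t => g6485 u2 t u13
    have u15 := bt fun t => g6681 t u5 u13
    have u16 := bt fun t => s6752 u7 u14 t u1
    have u17 := bt fun t => g6683 t n1 u15
    have u18 := bt fun t => g6690 t n0 u16
    have u19 := bf fun t => s6742 u17 u16 t u8
    exact g6700 u12 u19 u18
  have s6990 : T.alt p a s b d = true → T.X p d a s = false → T.X b c s d = false → T.X a s b c = false → T.X a s c d = true → T.alt p b s c d = false → T.alt p a s c d = false → T.X p d b c = false → T.alt p a c b d = true → T.alt p a d b c = false → T.X p a c d = true → False := fun n0 n1 n2 n3 n4 n5 n6 n7 n8 n9 n10 => by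
    have u0 := bf fun t => g5931 n3 t g6639 n4 n2
    have u1 := bf fun t => g833 n0 t
    have u2 := bf fun t => g6535 n0 n8 t
    have u3 := bt fun t => g6518 t n0 n6
    have u4 := bf fun t => g869 n0 g6632 t u0
    have u5 := bf fun t => g6525 u1 n9 t
    have u6 := bt fun t => g2459 n5 t u2
    have u7 := bt fun t => g1735 n6 t u5
    have u8 := bt fun t => g2474 u6 t u4 n7 w6726 n2
    have u9 := bt fun t => g1797 u7 t n1 n10 g6638 n4
    exact g686 u3 u9 u8 n3
  have s6991 : T.X p d a s = false → T.X b c s d = false → T.X a s b c = false → T.X a s c d = true → T.alt p b s c d = false → T.alt p a s c d = false → T.X p d b c = false → T.alt p a c b d = true → T.alt p a d b c = false → T.X p a c d = true → False := fun n0 n1 n2 n3 n4 n5 n6 n7 n8 n9 => by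
    have u0 := bf fun t => g5931 n2 t g6639 n3 n1
    have u1 := bf fun t => s6990 t n0 n1 n2 n3 n4 n5 n6 n7 n8 n9
    have u2 := bt fun t => s6966 t u1
    have u3 := bf fun t => g6715 w6947 u2 t
    have u4 := bf fun t => g923 u2 g6632 t u0
    exact g4442 u4 u3 n0 n9 g6638 n3
  have s6994 : T.alt p a r b d = true → T.X p c b s = true → T.alt p a b s d = true → T.alt p a d b s = false → T.X p c a s = false → T.alt p a b c d = false → False := fun n0 n1 n2 n3 n4 n5 => by
    have u0 := bt fun t => g6514 t n2 n5
    have u1 := bf fun t => g469 t n0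
    have u2 := bf fun t => g471 n0 t
    have u3 := bf fun t => g6472 t u1 n5
    have u4 := bt fun t => g6433 t u1 n2
    have u5 := bf fun t => g6445 u2 n3 t
    have u6 := bf fun t => g108 u4 t
    have u7 := bt fun t => g197 u4 g6631 g6632 t
    have u8 := bt fun t => g6634 g6637 u4 t
    have u9 := bf fun t => s6773 u4 n0 t u3
    have u10 := bf fun t => g6721 t u5
    have u11 := bf fun t => g6409 u6 u9 t
    have u12 := bf fun t => g2930 g6632 u8 t u7
    have u13 := bf fun t => g13 t u8
    have u14 := bf fun t => g15 u8 t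
    have u15 := bf fun t => g215 u4 w6725 u8 t
    have u16 := bt fun t => g6420 u4 u10 t
    have u17 := bt fun t => g6428 u0 t u11
    have u18 := bt fun t => g2081 u16 u15 u12 n1 t
    have u19 := bf fun t => g1299 u17 u8 t n4
    exact g1265 u17 u13 u14 u19 u18
  have s6995 : T.X p d a s = true → T.X b s c d = false → T.alt p a c b d = true → T.X p b c d = false → T.X p a c d = true → T.X p d a b = false → False := fun n0 n1 n2 n3 n4 n5 => by
    have u0 := bf fun t => g28 n4 t
    have u1 := bt fun t => g1036 n2 t n4 n3 g6639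
    have u2 := bf fun t => g3697 u1 t u0 n3 g6639
    have u3 := bf fun t => g1012 t n2
    have u4 := bf fun t => g1154 t n5 n4 n3 g6639
    have u5 := bf fun t => g27 t n0
    have u6 := bf fun t => g4456 t n0 n4 g6638
    have u7 := bf fun t => g878 t g6632 n5 n0
    have u8 := bf fun t => g989 t g6632 u2 n5 u5
    have u9 := bt fun t => g6538 u7 n2 t
    have u10 := bt fun t => s6966 t u7
    have u11 := bf fun t => g2462 t u9
    have u12 := bf fun t => g2626 u9 t n3 g6638
    have u13 := bt fun t => g2600 u9 t n3 g6638 n1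
    have u14 := bt fun t => g6514 t u10 u3
    have u15 := bf fun t => g6532 t u4 u11
    have u16 := bf fun t => g42 t u13
    have u17 := bt fun t => g759 u14 g6632 u1 t u6
    have u18 := bf fun t => s6994 t u13 u10 u8 u6 u3
    have u19 := bt fun t => s6866 n4 u18 t u7
    have u20 := bt fun t => g6498 u18 n2 t
    have u21 := bf fun t => g470 u19 t
    have u22 := bf fun t => g6431 t u19 u10
    have u23 := bt fun t => g6474 t u19 u3
    have u24 := bf fun t => g2280 t u20
    have u25 := bf fun t => g6499 u23 t u20
    have u26 := bt fun t => g6636 g6637 u22 t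
    have u27 := bf fun t => g289 u23 t
    have u28 := bt fun t => g378 u23 g6631 u1 t
    have u29 := bf fun t => g6510 u3 t u24
    have u30 := bt fun t => g6408 u26 u27 t
    have u31 := bt fun t => g6400 u26 u15 t
    have u32 := bf fun t => g64 u28 t
    have u33 := bf fun t => g6682 t u29 u25
    have u34 := bf fun t => g6685 t u33
    have u35 := bt fun t => s6908 u16 u17 t u30 u31 u34 u12 u23 n4 u1
    have u36 := bf fun t => s6794 n4 t u35 u3 u23 u21
    have u37 := bt fun t => g397 u23 g6631 u1 u36 t
    have u38 := bf fun t => g17 t u37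
    have u39 := bt fun t => g368 u23 w6723 u37 t u32
    have u40 := bt fun t => g1239 u31 u38 u36 u17 t
    have u41 := bt fun t => g2022 u30 u39 u12 u16 t
    exact g49 u41 u40
  have s6996 : T.alt p a s b d = false → T.X p d a s = false → T.X b s c d = false → T.X a s c d = true → T.X p d b c = false → T.alt p a c b d = true → T.alt p a d b c = false → T.X p b c d = false → T.X p a c d = true → False := fun n0 n1 n2 n3 n4 n5 n6 n7 n8 => by
    have u0 := bt fun t => g1036 n5 t n8 n7 g6639
    have u1 := bf fun t => g1012 t n5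
    have u2 := bt fun t => g6538 n0 n5 t
    have u3 := bt fun t => s6966 t n0
    have u4 := bf fun t => g2461 t u2
    have u5 := bt fun t => g2600 u2 t n7 g6638 n2
    have u6 := bf fun t => g2616 u2 t g6638 n2
    have u7 := bt fun t => g6514 t u3 u1
    have u8 := bf fun t => g6550 u1 t u4
    have u9 := bf fun t => g5071 u5 u6 n4 w6726 t
    have u10 := bt fun t => g740 u7 g6632 u0 t
    have u11 := bt fun t => s6991 n1 u9 t n3 u4 u8 n4 n5 n6 n8
    exact g70 u10 u11
  have s6997 : T.X p a s c = false → T.alt p a s c d = true → T.alt p a c b s = true → T.X p c a b = true → v158 = true → False := fun n0 n1 n2 n3 n4 => by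
    have u0 := bf fun t => g6649 t n1 n0
    have u1 := bf fun t => s6892 n0 n2 n3 t
    have u2 := bf fun t => g6654 t u0
    exact g6663 n4 u1 u2
  have s6998 : T.X b s c d = false → T.X a s c d = true → T.alt p a c b d = true → T.X p b c d = false → T.X p a c d = true → T.X p d a b = false → False := fun n0 n1 n2 n3 n4 n5 => by
    have u0 := bt fun t => g1036 n2 t n4 n3 g6639
    have u1 := bf fun t => g8 t u0
    have u2 := bf fun t => g3709 u1 n5 n4 t g6639
    have u3 := bf fun t => g1012 t n2
    have u4 := bf fun t => g6660 t n3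
    have u5 := bt fun t => g6667 g6670 t u4
    have u6 := bf fun t => g1154 t n5 n4 n3 g6639
    have u7 := bf fun t => s6995 t n0 n2 n3 n4 n5
    have u8 := bt fun t => s6996 t u7 n0 n1 u2 n2 u6 n3 n4
    have u9 := bf fun t => g831 t u8
    have u10 := bf fun t => g6535 u8 n2 t
    have u11 := bf fun t => g844 u8 w6724 w6725 u7 t
    have u12 := bf fun t => g6512 t u9 u3
    have u13 := bf fun t => g2482 t u11 n3 g6638 n0
    have u14 := bf fun t => g6532 t u6 u13
    have u15 := bt fun t => g2459 t u13 u10
    have u16 := bt fun t => g649 u12 u14 t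
    have u17 := bt fun t => g6518 u14 u8 t
    have u18 := bf fun t => g2553 u15 t g6638 n0
    have u19 := bt fun t => s6997 t u17 u16 u0 u5
    have u20 := bf fun t => g3436 g6632 u0 u19 t
    exact g811 u16 w6724 u19 u20 u18
  have s6999 : T.alt p a s c d = false → T.X p b s c = false → T.alt p a d s c = false → T.alt p a s b d = true → T.X p c a b = true → v158 = true → False := fun n0 n1 n2 n3 n4 n5 => by
    have u0 := bf fun t => g6651 t n0 n2
    have u1 := bt fun t => g6518 t n3 n0
    have u2 := bf fun t => g6654 t u0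
    have u3 := bf fun t => s6822 n1 t u1 n4
    exact g6663 n5 u3 u2
  have s7000 : T.alt p a s b d = true → T.X b s c d = true → T.X a s c d = true → T.X p c a b = true → T.alt p a c b d = true → T.alt p a d b c = false → T.X p b c d = false → T.X p d a b = false → False := fun n0 n1 n2 n3 n4 n5 n6 n7 => by
    have u0 := bf fun t => g6660 t n6
    have u1 := bt fun t => g6667 g6670 t u0
    have u2 := bf fun t => g833 n0 t
    have u3 := bf fun t => g878 n0 g6632 n7 t
    have u4 := bf fun t => g844 n0 w6724 w6725 u3 t
    have u5 := bf fun t => g6525 u2 n5 t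
    have u6 := bf fun t => g5085 t u4 n6 w6727 n1
    have u7 := bt fun t => s6999 t u6 u5 n0 n3 u1
    have u8 := bf fun t => g1736 u7 t
    have u9 := bt fun t => g6522 t n4 u8
    have u10 := bt fun t => s6997 t u7 u9 n3 u1
    have u11 := bt fun t => g820 u9 g6632 u10 t
    have u12 := bf fun t => g4446 u10 t g6638 n2
    have u13 := bf fun t => g5976 u11 t n2 n1
    exact g857 n0 g6632 n7 u12 u13
  have s7001 : T.X a s c d = true → T.alt p a c b d = true → T.X p b c d = false → T.X p a c d = true → T.X p d a b = false → False := fun n0 n1 n2 n3 n4 => by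
    have u0 := bt fun t => g1036 n1 t n3 n2 g6639
    have u1 := bf fun t => g1012 t n1
    have u2 := bf fun t => g1154 t n4 n3 n2 g6639
    have u3 := bf fun t => g89 n0 t
    have u4 := bt fun t => s6998 t n0 n1 n2 n3 n4
    have u5 := bf fun t => g101 u4 t
    have u6 := bf fun t => s7000 t u4 n0 u0 n1 u2 n2 n4
    have u7 := bt fun t => s6966 t u6
    have u8 := bt fun t => g6514 t u7 u1
    have u9 := bt fun t => g740 u8 g6632 u0 t
    have u10 := bt fun t => g5935 u9 t g6639 u3 u4
    have u11 := bt fun t => g5916 u9 t g6639 n0 u5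
    exact g5889 u11 u10
  have s7002 : T.alt p a s b d = false → T.alt p a c b d = true → T.X p b c d = false → T.X p a c d = true → False := fun n0 n1 n2 n3 => by
    have u0 := bf fun t => g1064 n1 t n3 g6639
    have u1 := bf fun t => s7001 t n1 n2 n3 u0
    have u2 := bf fun t => g1827 t n3 g6638 u1
    have u3 := bt fun t => g1036 n1 t n3 n2 g6639
    have u4 := bf fun t => g9 t u3
    have u5 := bf fun t => g1012 t n1
    have u6 := bf fun t => g28 n3 t
    have u7 := bt fun t => g6538 n0 n1 t
    have u8 := bt fun t => s6966 t n0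
    have u9 := bf fun t => g6516 t n0 u2
    have u10 := bf fun t => g2626 u7 t n2 g6638
    have u11 := bf fun t => g832 u8 t
    have u12 := bf fun t => g6715 w6947 u8 t
    have u13 := bt fun t => g6514 t u8 u5
    have u14 := bf fun t => g4425 t u12 u6 g6638 u1
    have u15 := bt fun t => g740 u13 g6632 u3 t
    have u16 := bt fun t => g759 u13 g6632 u3 t u14
    have u17 := bf fun t => g71 u15 t
    have u18 := bf fun t => g3440 u3 u16 t u15
    have u19 := bt fun t => g728 u13 u4 u16 t u17
    have u20 := bf fun t => s6994 t u19 u8 u11 u14 u5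
    have u21 := bt fun t => s6866 n3 u20 t n0
    have u22 := bt fun t => g6498 u20 n1 t
    have u23 := bf fun t => g470 u21 t
    have u24 := bf fun t => g6431 t u21 u8
    have u25 := bt fun t => g6474 t u21 u5
    have u26 := bf fun t => g2280 t u22
    have u27 := bf fun t => g6499 u25 t u22
    have u28 := bt fun t => g6636 g6637 u24 t
    have u29 := bf fun t => g289 u25 t
    have u30 := bt fun t => g378 u25 g6631 u3 t
    have u31 := bf fun t => g6510 u5 t u26
    have u32 := bt fun t => g6408 u28 u29 t
    have u33 := bt fun t => g6400 u28 u9 t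
    have u34 := bf fun t => g64 u30 t
    have u35 := bf fun t => g6682 t u31 u27
    have u36 := bf fun t => g6685 t u35
    have u37 := bt fun t => s6908 u18 u16 t u32 u33 u36 u10 u25 n3 u3
    have u38 := bf fun t => s6794 n3 t u37 u5 u25 u23
    have u39 := bt fun t => g397 u25 g6631 u3 u38 t
    have u40 := bf fun t => g17 t u39
    have u41 := bt fun t => g368 u25 w6723 u39 t u34
    have u42 := bt fun t => g1239 u33 u40 u38 u16 t
    have u43 := bt fun t => g2022 u32 u41 u10 u18 t
    exact g49 u43 u42
  have s7003 : T.alt p a c b d = true → T.X p b c d = false → T.X p a c d = true → False := fun n0 n1 n2 => by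
    have u0 := bf fun t => g6660 t n1
    have u1 := bt fun t => g6667 g6670 t u0
    have u2 := bf fun t => g1012 t n0
    have u3 := bf fun t => g1014 n0 t
    have u4 := bf fun t => g1064 n0 t n2 g6639
    have u5 := bt fun t => g1036 n0 t n2 n1 g6639
    have u6 := bf fun t => s7001 t n0 n1 n2 u4
    have u7 := bf fun t => g1827 t n2 g6638 u6
    have u8 := bf fun t => g6549 u2 u7 t
    have u9 := bt fun t => s7002 t n0 n1 n2
    have u10 := bf fun t => g833 u9 t
    have u11 := bf fun t => g878 u9 g6632 u4 t
    have u12 := bf fun t => g6535 u9 n0 t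
    have u13 := bf fun t => g844 u9 w6724 w6725 u11 t
    have u14 := bf fun t => g6525 u10 u3 t
    have u15 := bt fun t => g2459 u8 t u12
    have u16 := bt fun t => s6999 u7 t u14 u9 u5 u1
    have u17 := bt fun t => g2482 u15 u13 n1 g6638 t
    exact g5085 u16 u13 n1 w6727 u17
  have s7004 : T.X p c a b = true → T.alt p a c b d = false → T.X p a c d = true → False := fun n0 n1 n2 => by
    have u0 := bf fun t => g1104 t n0 n2 g6639
    have u1 := bf fun t => g1182 t n0 n2 g6639
    exact g1011 u0 n1 u1
  have s7005 : T.X a b s c = true → v152 = false → T.alt p a s b c = true → T.X p b s c = false → T.X p c a b = false → False := fun n0 n1 n2 n3 n4 => by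
    have u0 := bf fun t => g709 n2 g6632 n4 t n3 n0
    exact g6643 n1 u0 n0
  have s7006 : v152 = false → T.alt p a s b c = true → T.X p c a b = false → T.X p b s c = false → False := fun n0 n1 n2 n3 => by
    have u0 := bf fun t => s7005 t n0 n1 n3 n2
    have u1 := bt fun t => g676 n1 g6632 n2 t u0
    exact g6642 n0 u1 u0
  have s7007 : T.alt p a s b d = true → T.alt p a d b c = true → T.X p b c d = false → T.X p a c d = true → False := fun n0 n1 n2 n3 => by
    have u0 := bf fun t => s7003 t n2 n3
    have u1 := bf fun t => s7004 t u0 n3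
    have u2 := bf fun t => g6660 t n2
    have u3 := bt fun t => g6667 g6670 t u2
    have u4 := bf fun t => g833 n0 t
    have u5 := bt fun t => g6536 n0 u0 t
    have u6 := bt fun t => g6526 u4 n1 t
    have u7 := bf fun t => g2462 t u5
    have u8 := bf fun t => g2626 u5 t n2 g6638
    have u9 := bf fun t => g1737 t u6
    have u10 := bt fun t => g6650 t u9 u6
    have u11 := bt fun t => g6534 t n1 u7
    have u12 := bt fun t => g6652 t n3 u10
    have u13 := bf fun t => g6662 u3 t u12
    have u14 := bf fun t => g6646 u13 t u8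
    exact s7006 u14 u11 u1 u8
  have s7008 : T.alt p a b c d = false → T.X p b c d = false → T.X p a c d = true → False := fun n0 n1 n2 => by
    have u0 := bf fun t => s7003 t n1 n2
    have u1 := bf fun t => s7004 t u0 n2
    have u2 := bt fun t => g1011 n0 u0 t
    have u3 := bt fun t => g1154 u2 t n2 n1 g6639
    have u4 := bf fun t => g11 t u3
    have u5 := bf fun t => g3730 u1 u4 n2 t g6639
    have u6 := bf fun t => s7007 t u2 n1 n2
    have u7 := bt fun t => s6966 t u6
    have u8 := bf fun t => g6715 w6947 u7 t
    have u9 := bt fun t => g6514 t u7 n0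
    have u10 := bt fun t => g921 u7 g6632 u3 t
    have u11 := bt fun t => g940 u7 g6632 u3 u8 t
    have u12 := bf fun t => g650 u9 t
    have u13 := bf fun t => g73 u10 t
    have u14 := bf fun t => g3607 g6632 u11 t u10
    have u15 := bt fun t => g6534 u12 u2 t
    have u16 := bt fun t => g911 u7 w6725 u11 t u13
    have u17 := bt fun t => g2482 u15 u14 n1 g6638 t
    have u18 := bt fun t => g2479 u15 u16 u5 w6727 t
    exact g101 u17 u18
  have s7010 : T.X p r a c = true → T.X a r c d = true → T.X p r c d = false → T.X p a c d = true → False := fun n0 n1 n2 n3 => by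
    have u0 := bf fun t => g29 n3 t
    have u1 := bf fun t => s6788 n2 n3 n0 t
    exact g4202 n0 u1 u0 n2 n1
  have s7012 : T.X b c r d = false → T.X a r c d = true → T.X p r c d = false → T.X p d b c = false → T.alt p b r c d = true → T.alt p a b r d = true → T.X a r b c = false → T.alt p a c r d = true → T.X p a c d = true → False := fun n0 n1 n2 n3 n4 n5 n6 n7 n8 => by
    have u0 := bf fun t => g5761 n6 t g6639 n1 n0
    have u1 := bf fun t => g561 n5 g6631 t u0
    have u2 := bf fun t => g562 n5 g6631 t u0
    have u3 := bt fun t => g1598 n7 u1 n8 n2 t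
    exact g2360 n4 u2 n3 u3 n0
  have s7013 : T.X p b c d = false → T.X p b a c = true → T.alt p a c r d = true → T.alt p a c b r = true → T.X p c a b = false → T.X p a c d = true → False := fun n0 n1 n2 n3 n4 n5 => by
    have u0 := bf fun t => g7 t n1
    have u1 := bt fun t => s6844 t n4 n3
    have u2 := bf fun t => g1557 n2 t
    have u3 := bf fun t => g1555 t n2
    have u4 := bf fun t => g6682 t u3 u2
    have u5 := bf fun t => g6685 t u4
    have u6 := bt fun t => g6695 t u1 u5
    have u7 := bf fun t => g289 t n3
    have u8 := bf fun t => s6943 t u7 n4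
    have u9 := bf fun t => g416 n3 g6631 n4 t
    have u10 := bf fun t => g29 n5 t
    have u11 := bf fun t => g28 n5 t
    have u12 := bf fun t => g6691 t n0
    have u13 := bt fun t => s7008 t n0 n5
    have u14 := bf fun t => g3696 n1 t u10 n0 g6639
    have u15 := bt fun t => g6699 t u6 u12
    have u16 := bt fun t => g6473 u7 t u13
    have u17 := bt fun t => g6508 u13 u3 t
    have u18 := bf fun t => g1084 u13 u0 n4 u14 t
    have u19 := bf fun t => g6701 t u15
    have u20 := bt fun t => g1579 n2 u8 n5 u19 t
    have u21 := bf fun t => g85 u20 t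
    have u22 := bf fun t => s6933 t u20 u19 n5
    have u23 := bf fun t => s6927 t u22 u16
    have u24 := bf fun t => g1100 u13 u0 u23 u11 u18 t
    have u25 := bt fun t => s7012 t u20 u19 u18 u17 u16 u9 n2 n5
    have u26 := bf fun t => g97 t u25
    have u27 := bt fun t => g5762 u9 t g6639 u20 u25
    have u28 := bf fun t => g5733 u9 t u24 u20 u26
    have u29 := bf fun t => g5784 t u27 g6639 u21 u26
    have u30 := bf fun t => g3195 g6631 u14 u22 t u28
    have u31 := bf fun t => g440 n3 n1 t u29
    exact g2352 u17 u31 u30 n0 u19 u26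
  have s7014 : T.alt p a b c d = false → T.alt p a c b r = true → T.alt p a c b d = false → T.X p a c d = true → False := fun n0 n1 n2 n3 => by
    have u0 := bf fun t => g290 t n1
    have u1 := bt fun t => g6480 n1 n2 t
    have u2 := bf fun t => g1555 t u1
    have u3 := bf fun t => g6478 u0 t u2
    have u4 := bf fun t => g1557 u1 t
    have u5 := bf fun t => s7004 t n2 n3
    have u6 := bt fun t => s6844 t u5 n1
    have u7 := bf fun t => g289 t n1
    have u8 := bt fun t => g1011 n0 n2 t
    have u9 := bf fun t => g6509 n0 u2 t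
    have u10 := bt fun t => g6486 t u8 u4
    have u11 := bt fun t => s6769 u4 u6 u2 u7 t u9
    have u12 := bt fun t => s6852 u2 t u7 u4 n3 u10 u3
    exact g6701 u12 u11
  have s7015 : T.alt p a c b r = true → T.alt p a c b d = false → T.X p a c d = true → False := fun n0 n1 n2 => by
    have u0 := bf fun t => s7004 t n1 n2
    have u1 := bf fun t => g289 t n0
    have u2 := bt fun t => g6480 n0 n1 t
    have u3 := bt fun t => s6844 t u0 n0
    have u4 := bf fun t => s6943 t u1 u0
    have u5 := bf fun t => g1555 t u2
    have u6 := bf fun t => g1557 u2 t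
    have u7 := bf fun t => g6682 t u5 u6
    have u8 := bf fun t => g6685 t u7
    have u9 := bt fun t => g6695 t u3 u8
    have u10 := bt fun t => s7014 t n0 n1 n2
    have u11 := bf fun t => g1103 u10 n2 t g6639
    have u12 := bf fun t => g6691 t u11
    have u13 := bf fun t => s7013 u11 t u2 n0 u0 n2
    have u14 := bt fun t => g6699 t u9 u12
    have u15 := bt fun t => g446 n0 g6631 u13 u0 t
    have u16 := bf fun t => g6701 t u14
    have u17 := bf fun t => s7010 u15 t u16 n2
    exact g1579 u2 u4 n2 u16 u17
  have s7016 : T.X p a b c = false → T.alt p a b r c = false → T.alt p a b c d = true → T.alt p a c b d = false → T.X p a c d = true → False := fun n0 n1 n2 n3 n4 => by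
    have u0 := bf fun t => g1013 n2 t
    have u1 := bf fun t => s7015 t n3 n4
    have u2 := bt fun t => g287 n1 t u1
    have u3 := bt fun t => g6492 u2 u0 t
    have u4 := bf fun t => s7004 t n3 n4
    have u5 := bf fun t => g1103 n2 n4 t g6639
    have u6 := bf fun t => g1106 n2 t n4 g6639
    have u7 := bf fun t => s6979 u5 u4 t u6
    have u8 := bt fun t => g6476 u2 u7 t
    have u9 := bf fun t => g6497 u7 n3 t
    have u10 := bf fun t => g6502 n1 t u9
    have u11 := bf fun t => g29 n4 t
    have u12 := bf fun t => g1084 n2 n0 u4 u6 t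
    have u13 := bf fun t => s6961 t n0 n3 n2 n4 u4 u0
    have u14 := bt fun t => g6513 u13 t n2
    have u15 := bf fun t => g6392 t n1 u13
    have u16 := bf fun t => g831 u14 t
    have u17 := bf fun t => g6715 w6947 u14 t
    have u18 := bt fun t => g6636 g6637 u15 t
    have u19 := bf fun t => s6759 u15 n1 u1 t
    have u20 := bf fun t => g6457 u7 u16 t
    have u21 := bt fun t => g6408 u18 u1 t
    have u22 := bf fun t => s6815 t u19
    have u23 := bt fun t => s6855 t u20 u16 u8 u10
    have u24 := bf fun t => g1918 u21 t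
    have u25 := bt fun t => g649 u13 t u22
    have u26 := bt fun t => g1827 u23 n4 g6638 t
    have u27 := bt fun t => g6602 u24 u3 t
    have u28 := bf fun t => g88 u26 t
    have u29 := bf fun t => g89 u26 t
    have u30 := bf fun t => g2508 u27 t u5 g6638
    have u31 := bf fun t => g1822 u23 t u17 w6727 u29
    have u32 := bt fun t => g1840 u23 u31 t n4 g6638
    have u33 := bt fun t => g676 u25 g6632 u4 u31 t
    have u34 := bt fun t => s6863 u31 t u25 u23 u4 n4
    have u35 := bt fun t => g1821 u23 u32 t u11 u28
    have u36 := bf fun t => g70 u33 t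
    have u37 := bf fun t => g2499 u27 u34 u30 u12 w6726 t
    have u38 := bt fun t => g923 u14 g6632 u35 t
    exact g5931 u36 u38 g6639 u26 u37
  have s7017 : T.alt p b c s d = true → T.X p b a c = false → T.alt p a b c d = true → T.alt p a c b d = false → T.X p a c d = true → False := fun n0 n1 n2 n3 n4 => by
    have u0 := bf fun t => g1013 n2 t
    have u1 := bf fun t => s7004 t n3 n4
    have u2 := bf fun t => g2460 t n0
    have u3 := bf fun t => g2462 n0 t
    have u4 := bt fun t => g6533 t u0 n0
    have u5 := bt fun t => g6548 n2 t u2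
    have u6 := bf fun t => g6536 t n3 u3
    have u7 := bt fun t => g1827 u5 n4 g6638 t
    have u8 := bt fun t => s6966 t u6
    have u9 := bf fun t => g89 u7 t
    have u10 := bf fun t => g6715 w6947 u8 t
    have u11 := bf fun t => g1822 u5 t u10 w6727 u9
    have u12 := bt fun t => g1840 u5 u11 t n4 g6638
    have u13 := bt fun t => g676 u4 g6632 u1 u11 t
    have u14 := bt fun t => g673 u4 w6724 n1 u12 t
    exact g71 u13 u14
  have s7019 : T.alt p a b r c = true → T.alt p b d r c = false → T.alt p a r b d = false → T.alt p a b c d = true → T.X p a c d = true → False := fun n0 n1 n2 n3 n4 => by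
    have u0 := bt fun t => g6500 n0 t n1
    have u1 := bf fun t => g6471 n0 t n3
    exact s6848 u0 n4 n2 u1
  have s7020 : T.alt p a b c d = true → T.alt p a c b d = false → T.X p a c d = true → False := fun n0 n1 n2 => by
    have u0 := bf fun t => s7015 t n1 n2
    have u1 := bf fun t => s7004 t n1 n2
    have u2 := bf fun t => g1013 n0 t
    have u3 := bf fun t => g1103 n0 n2 t g6639
    have u4 := bf fun t => g1106 n0 t n2 g6639
    have u5 := bf fun t => g6660 t u3
    have u6 := bf fun t => s6979 u3 u1 t u4
    have u7 := bt fun t => g6667 g6670 t u5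
    have u8 := bf fun t => g6497 u6 n1 t
    have u9 := bf fun t => s7019 t u8 u6 n0 n2
    have u10 := bf fun t => s6943 t u9 u1
    have u11 := bt fun t => g287 u9 t u0
    have u12 := bt fun t => g6473 u9 t n0
    have u13 := bt fun t => s7016 t u9 n0 n1 n2
    have u14 := bt fun t => g6492 u11 u2 t
    have u15 := bf fun t => g7 u13 t
    have u16 := bf fun t => s7017 t u15 n0 n1 n2
    have u17 := bf fun t => g6532 t u2 u16
    have u18 := bt fun t => g6602 t u14 u16
    have u19 := bf fun t => g1918 t u18
    have u20 := bf fun t => g6408 t u0 u19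
    have u21 := bt fun t => g6636 g6637 t u20
    have u22 := bf fun t => g107 u21 t
    have u23 := bt fun t => g197 u21 g6631 g6632 t
    have u24 := bt fun t => g6634 g6637 u21 t
    have u25 := bt fun t => g6392 u21 u9 t
    have u26 := bf fun t => g6431 u21 u12 t
    have u27 := bt fun t => g6398 u22 u11 t
    have u28 := bf fun t => g2930 g6632 u24 t u23
    have u29 := bf fun t => g13 t u24
    have u30 := bf fun t => g15 u24 t
    have u31 := bf fun t => g215 u21 w6725 u24 t
    have u32 := bf fun t => s6965 u25 t u1
    have u33 := bt fun t => s6966 u26 t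
    have u34 := bf fun t => g1265 u27 u29 u30 u10 t
    have u35 := bt fun t => g6663 u7 u32 t
    have u36 := bt fun t => g6536 u33 n1 t
    have u37 := bt fun t => g6518 u17 u33 t
    have u38 := bf fun t => g2081 u18 u31 u28 t u34
    have u39 := bt fun t => g6654 u35 t
    have u40 := bt fun t => g1827 u37 n2 g6638 t
    have u41 := bt fun t => g2600 u36 u38 u3 g6638 t
    have u42 := bt fun t => g6649 u39 u37 t
    have u43 := bt fun t => g742 u25 g6632 u42 t
    have u44 := bf fun t => g4446 u42 t g6638 u40
    have u45 := bf fun t => g5976 u43 t u40 u41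
    exact g857 u33 g6632 u4 u44 u45
  have s7021 : T.alt p a b r c = false → T.alt p a c b d = false → T.X p a c d = true → False := fun n0 n1 n2 => by
    have u0 := bf fun t => s7020 t n1 n2
    have u1 := bt fun t => s7008 u0 t n2
    have u2 := bt fun t => g1011 u0 n1 t
    have u3 := bf fun t => g1168 u2 t u1 g6639
    have u4 := bf fun t => s6989 u1 n2 t u3
    have u5 := bf fun t => g6497 u4 n1 t
    have u6 := bf fun t => s7015 t n1 n2
    have u7 := bf fun t => g6481 u6 n1 t
    have u8 := bf fun t => g6502 n0 t u5
    have u9 := bf fun t => g6474 n0 t u0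
    have u10 := bt fun t => g6486 t u2 u8
    have u11 := bt fun t => s6866 n2 u4 u9 t
    have u12 := bf fun t => g833 u11 t
    have u13 := bt fun t => g6526 u12 u2 t
    have u14 := bt fun t => g6444 u10 u12 t
    have u15 := bf fun t => g1738 t u13
    have u16 := bt fun t => g6720 t u14
    exact g6560 u16 u7 u15
  have s7022 : T.X p r b c = true → T.X p r c d = false → T.alt p b c r d = true → T.X p b c d = true → False := fun n0 n1 n2 n3 => by
    have u0 := bf fun t => g36 n0 t
    have u1 := bt fun t => g2303 n2 u0 n3 n1 t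
    have u2 := bf fun t => g97 u1 t
    have u3 := bt fun t => g4917 n0 t n3 n1 u2
    exact g2312 n2 n0 u3 u2
  have s7024 : T.X a b r d = false → T.alt p a c b d = false → T.X p a c d = true → False := fun n0 n1 n2 => by
    have u0 := bf fun t => s7020 t n1 n2
    have u1 := bt fun t => g1011 u0 n1 t
    have u2 := bt fun t => s7021 t n1 n2
    have u3 := bf fun t => g288 u2 t
    have u4 := bt fun t => g6494 u3 u1 t
    have u5 := bf fun t => s6750 u4 t
    have u6 := bf fun t => g6692 t u5
    have u7 := bf fun t => s7004 t n1 n2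
    have u8 := bf fun t => s6805 t u7 u2
    have u9 := bt fun t => s7008 u0 t n2
    have u10 := bf fun t => g1168 u1 t u9 g6639
    have u11 := bf fun t => s6989 u9 n2 t u10
    have u12 := bf fun t => g6477 u3 u11 t
    have u13 := bf fun t => g6497 u11 n1 t
    have u14 := bt fun t => g6500 u2 t u13
    have u15 := bt fun t => g6681 t u12 u14
    have u16 := bt fun t => g6683 t n2 u15
    have u17 := bt fun t => g6696 t u8 u16
    have u18 := bt fun t => g6699 t u17 u6
    have u19 := bf fun t => g6701 t u18
    have u20 := bt fun t => g6472 u2 t u0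
    have u21 := bf fun t => g28 n2 t
    have u22 := bf fun t => g561 u20 g6631 t n0
    have u23 := bf fun t => g562 u20 g6631 t n0
    have u24 := bt fun t => g2322 u4 u23 u9 u19 t
    have u25 := bf fun t => g57 u24 t
    have u26 := bt fun t => g1686 u14 u22 t u21 u24
    have u27 := bt fun t => g1716 u14 t n2 u19 u25
    have u28 := bf fun t => g4310 u27 u26 n2 u19 u25 t
    exact g1706 u14 u27 u26 u28
  have s7025 : T.alt p a c b d = false → T.X p a c d = true → False := fun n0 n1 => by
    have u0 := bf fun t => g28 n1 t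
    have u1 := bf fun t => s7004 t n0 n1
    have u2 := bf fun t => s7020 t n0 n1
    have u3 := bt fun t => g1011 u2 n0 t
    have u4 := bt fun t => s7008 u2 t n1
    have u5 := bf fun t => g1168 u3 t u4 g6639
    have u6 := bf fun t => g47 u4 t
    have u7 := bf fun t => s6989 u4 n1 t u5
    have u8 := bf fun t => g6497 u7 n0 t
    have u9 := bt fun t => s7021 t n0 n1
    have u10 := bf fun t => g288 u9 t
    have u11 := bf fun t => s6805 t u1 u9
    have u12 := bt fun t => g6500 u9 t u8
    have u13 := bt fun t => g6472 u9 t u2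
    have u14 := bf fun t => g6477 u10 u7 t
    have u15 := bt fun t => g6494 u10 u3 t
    have u16 := bt fun t => g6681 t u14 u12
    have u17 := bf fun t => s6750 u15 t
    have u18 := bt fun t => g6683 t n1 u16
    have u19 := bf fun t => g6692 t u17
    have u20 := bt fun t => g6696 t u11 u18
    have u21 := bt fun t => g6699 t u20 u19
    have u22 := bf fun t => g6701 t u21
    have u23 := bf fun t => s7022 t u22 u15 u4
    have u24 := bf fun t => s6956 t u23 u9
    have u25 := bt fun t => s7024 t n0 n1
    have u26 := bf fun t => g68 u25 t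
    have u27 := bf fun t => s6789 u25 u5 t u13
    have u28 := bt fun t => g1697 u12 u27 n1 u22 t
    have u29 := bf fun t => g86 u28 t
    have u30 := bf fun t => s6933 t u28 u22 n1
    have u31 := bf fun t => s6929 t u4 u5 u28 u22 u15 u9 u27
    have u32 := bt fun t => g1687 u12 t u30 u0 u31 u29
    have u33 := bf fun t => s6927 t u30 u13
    have u34 := bt fun t => g380 u9 g6631 u32 t
    have u35 := bt fun t => g1144 u3 u24 u33 u0 u6 t
    have u36 := bf fun t => g392 u9 w6722 w6723 u32 t
    have u37 := bf fun t => g3035 w6723 u24 u32 u36 t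
    have u38 := bf fun t => g5765 u34 u26 g6639 u29 t
    exact g5734 u37 u26 u35 u28 u38
  have s7026 : T.alt p a b r d = true → T.X p a c d = true → False := fun n0 n1 => by
    have u0 := bt fun t => s7025 t n1
    have u1 := bt fun t => s7003 u0 t n1
    have u2 := bf fun t => s6988 t u1 n1
    have u3 := bf fun t => g1014 u0 t
    have u4 := bf fun t => g1012 t u0
    have u5 := bf fun t => g470 n0 t
    have u6 := bt fun t => g6474 t n0 u4
    have u7 := bf fun t => g6485 u5 u3 t
    exact s6963 n1 u2 u7 u6
  have s7027 : T.X p a c d = true → False := fun n0 => by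
    have u0 := bt fun t => s7025 t n0
    have u1 := bf fun t => g1014 u0 t
    have u2 := bf fun t => g1064 u0 t n0 g6639
    have u3 := bt fun t => s7003 u0 t n0
    have u4 := bf fun t => s6989 u3 n0 t u2
    have u5 := bf fun t => s7026 t n0
    have u6 := bt fun t => g468 u5 u4 t
    have u7 := bf fun t => s6848 t n0 u4 u5
    exact g6484 u6 u1 u7
  have w7027 := bf s7027
  have s7028 := fun (n0 : v155 = true) => g6653 n0 w7027
  have w7028 := bf s7028
  have s7029 := fun (n0 : v163 = true) => g6684 n0 w7027
  have w7029 := bf s7029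
  have s7043 := fun (n0 : T.X p r a s = true) (n1 : T.X p s b r = false) (n2 : T.alt p a b r s = true) (n3 : T.X a s b r = false) => g185 n2 w6725 n0 n1 n3
  have s7049 := fun (n0 : T.alt p a b r s = true) (n1 : T.X a b r s = false) => g197 n0 g6631 g6632 n1
  have s7056 := fun (n0 : T.X p r a s = true) (n1 : T.X p b r s = true) (n2 : T.alt p a b r s = true) => g215 n2 w6725 n0 n1
  have s7072 := fun (n0 : T.X p c b r = true) (n1 : T.alt p a r b c = true) (n2 : T.X p c a r = false) => g301 n1 w6722 w6723 n2 n0
  have s7073 := fun (n0 : T.X p a b c = false) (n1 : T.X a r b c = false) (n2 : T.X p c a r = false) (n3 : T.X p r b c = false) (n4 : T.alt p a r b c = true) => g302 n4 w6723 n0 n2 n3 n1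
  have s7075 := fun (n0 : T.X a b r c = false) (n1 : T.X p a r c = false) (n2 : T.alt p a r b c = true) (n3 : T.X p c a b = false) => g314 n2 g6631 n3 n1 n0
  have s7078 := fun (n0 : T.X a b r c = false) (n1 : T.X p b r c = true) (n2 : T.alt p a r b c = true) => g326 n2 g6631 n1 n0
  have s7082 := fun (n0 : T.X p c a r = true) (n1 : T.alt p a r b c = true) (n2 : T.X p c a b = false) => g335 n1 g6631 n2 n0
  have s7088 := fun (n0 : T.X p c a r = true) (n1 : T.X a r b c = false) (n2 : T.X p r b c = false) (n3 : T.alt p a b r c = true) => g368 n3 w6723 n0 n2 n1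
  have s7093 := fun (n0 : T.X a b r c = false) (n1 : T.alt p a b r c = true) (n2 : T.X p c a b = true) => g378 n1 g6631 n2 n0
  have s7098 := fun (n0 : T.X p r a c = false) (n1 : T.X p c a r = false) (n2 : T.alt p a b r c = true) (n3 : T.X p c a b = true) => g397 n2 g6631 n3 n0 n1
  have s7103 := fun (n0 : T.X a r b c = true) (n1 : T.alt p a c b r = true) (n2 : T.X p c a b = false) => g416 n1 g6631 n2 n0
  have s7120 := fun (n0 : T.X p d b r = true) (n1 : T.X p d a r = false) (n2 : T.alt p a r b d = true) => g482 n2 w6722 w6723 n1 n0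
  have s7121 := fun (n0 : T.X a r b d = false) (n1 : T.X p r b d = false) (n2 : T.X p a b d = false) (n3 : T.X p d a r = false) (n4 : T.alt p a r b d = true) => g483 n4 w6723 n2 n3 n1 n0
  have s7130 := fun (n0 : T.X p d a r = true) (n1 : T.alt p a r b d = true) (n2 : T.X p d a b = false) => g516 n1 g6631 n2 n0
  have s7136 := fun (n0 : T.X a r b d = false) (n1 : T.X p d a r = true) (n2 : T.alt p a b r d = true) (n3 : T.X p r b d = false) => g549 n2 w6723 n1 n3 n0
  have s7141 := fun (n0 : T.X a b r d = false) (n1 : T.alt p a b r d = true) (n2 : T.X p d a b = true) => g559 n1 g6631 n2 n0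
  have s7143 := fun (n0 : T.X p b r d = true) (n1 : T.X a b r d = false) (n2 : T.alt p a b r d = true) => g562 n2 g6631 n0 n1
  have s7168 := fun (n0 : T.X p c b s = true) (n1 : T.X p c a s = false) (n2 : T.alt p a s b c = true) => g663 n2 w6724 w6725 n1 n0
  have s7171 := fun (n0 : T.X a b s c = false) (n1 : T.X p a s c = false) (n2 : T.X p c a b = false) (n3 : T.alt p a s b c = true) => g676 n3 g6632 n2 n1 n0
  have s7174 := fun (n0 : T.X a b s c = false) (n1 : T.X p b s c = true) (n2 : T.alt p a s b c = true) => g688 n2 g6632 n1 n0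
  have s7178 := fun (n0 : T.alt p a s b c = true) (n1 : T.X p c a s = true) (n2 : T.X p c a b = false) => g697 n0 g6632 n2 n1
  have s7189 := fun (n0 : T.X p s a c = false) (n1 : T.X p c b s = true) (n2 : T.X a c b s = false) (n3 : T.alt p a b s c = true) => g739 n3 w6724 n0 n1 n2
  have s7190 := fun (n0 : T.X a b s c = false) (n1 : T.alt p a b s c = true) (n2 : T.X p c a b = true) => g740 n1 g6632 n2 n0
  have s7195 := fun (n0 : T.X p s a c = false) (n1 : T.X p c a s = false) (n2 : T.alt p a b s c = true) (n3 : T.X p c a b = true) => g759 n2 g6632 n3 n0 n1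
  have s7200 := fun (n0 : T.X a s b c = true) (n1 : T.alt p a c b s = true) (n2 : T.X p c a b = false) => g778 n1 g6632 n2 n0
  have s7202 := fun (n0 : T.X a b s c = false) (n1 : T.X p b s c = false) (n2 : T.X p c a b = false) (n3 : T.alt p a c b s = true) => g789 n3 g6632 n2 n1 n0
  have s7205 := fun (n0 : T.X p s b c = true) (n1 : T.X a s b c = false) (n2 : T.X p a b c = false) (n3 : T.alt p a c b s = true) => g798 n3 w6725 n2 n0 n1
  have s7209 := fun (n0 : T.X p a s c = true) (n1 : T.X p b s c = false) (n2 : T.alt p a c b s = true) (n3 : T.X p c b s = false) => g811 n2 w6724 n0 n1 n3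
  have s7212 := fun (n0 : T.X a b s c = false) (n1 : T.X p a s c = true) (n2 : T.alt p a c b s = true) => g820 n2 g6632 n1 n0
  have s7216 := fun (n0 : T.X a b s c = true) (n1 : T.X p b s c = true) (n2 : T.alt p a c b s = true) (n3 : T.X p c a b = false) (n4 : T.X p a s c = false) => g828 n2 g6632 n3 n4 n1 n0
  have s7217 := fun (n0 : T.X p d b s = true) (n1 : T.X p d a s = false) (n2 : T.alt p a s b d = true) => g844 n2 w6724 w6725 n1 n0
  have s7220 := fun (n0 : T.X p a s d = false) (n1 : T.X a b s d = false) (n2 : T.X p d a b = false) (n3 : T.alt p a s b d = true) => g857 n3 g6632 n2 n0 n1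
  have s7227 := fun (n0 : T.X p d a s = true) (n1 : T.alt p a s b d = true) (n2 : T.X p d a b = false) => g878 n1 g6632 n2 n0
  have s7239 := fun (n0 : T.X a b s d = false) (n1 : T.alt p a b s d = true) (n2 : T.X p d a b = true) => g921 n1 g6632 n2 n0
  have s7241 := fun (n0 : T.X p b s d = true) (n1 : T.X a b s d = false) (n2 : T.alt p a b s d = true) => g924 n2 g6632 n0 n1
  have s7244 := fun (n0 : T.X p d a s = false) (n1 : T.X p s a d = false) (n2 : T.X p d a b = true) (n3 : T.alt p a b s d = true) => g940 n3 g6632 n2 n1 n0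
  have s7266 := fun (n0 : T.X p d a b = true) (n1 : T.alt p a c b d = true) (n2 : T.X p c a b = false) (n3 : T.X p b c d = false) => g1033 n1 n2 n0 n3 g6639
  have s7267 := fun (n0 : T.alt p a c b d = true) (n1 : T.X p b c d = true) (n2 : T.X p d a b = false) => g1034 n0 n2 w7027 n1 g6639
  have s7268 := fun (n0 : T.alt p a c b d = true) (n1 : T.X p c a b = true) (n2 : T.X p d a b = false) => g1038 n0 n1 n2 w7027 g6639
  have s7269 := fun (n0 : T.X p c a b = true) (n1 : T.X p b c d = true) (n2 : T.alt p a c b d = true) => g1050 n2 n0 n1 g6639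
  have s7271 := fun (n0 : T.alt p a b c d = true) (n1 : T.X p b c d = false) (n2 : T.X p d a b = false) (n3 : T.X p c a b = false) => g1085 n0 n3 n2 w7027 n1 g6639
  have s7272 := fun (n0 : T.X p d a b = true) (n1 : T.alt p a b c d = true) (n2 : T.X p c a b = true) => g1102 n1 n2 n0 g6639
  have s7273 := fun (n0 : T.alt p a b c d = true) (n1 : T.X p c a b = true) (n2 : T.X p b c d = true) => g1105 n0 n1 n2 g6639
  have s7274 := fun (n0 : T.X p d a b = true) (n1 : T.alt p a b c d = true) (n2 : T.X p b c d = true) => g1107 n1 n0 n2 g6639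
  have s7277 := fun (n0 : T.alt p a d b c = true) (n1 : T.X p d a b = false) (n2 : T.X p b c d = false) (n3 : T.X p c a b = true) => g1151 n0 n3 n1 n2 g6639
  have s7278 := fun (n0 : T.alt p a d b c = true) (n1 : T.X p b c d = true) (n2 : T.X p c a b = false) => g1152 n0 n2 w7027 n1 g6639
  have s7279 := fun (n0 : T.X p d a b = true) (n1 : T.alt p a d b c = true) (n2 : T.X p c a b = false) => g1156 n1 n2 n0 w7027 g6639
  have s7280 := fun (n0 : T.X p d a b = true) (n1 : T.alt p a d b c = true) (n2 : T.X p b c d = true) => g1168 n1 n0 n2 g6639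
  have s7288 := fun (n0 : T.X a r c d = false) (n1 : T.X p c a r = false) (n2 : T.X p r c d = false) (n3 : T.alt p a r c d = true) (n4 : T.X p d a r = false) => g1628 n3 n1 n4 w7027 n2 n0
  have s7292 := fun (n0 : T.X a r c d = true) (n1 : T.X p d a r = true) (n2 : T.X p c a r = false) (n3 : T.X p r c d = false) (n4 : T.alt p a r c d = true) => g1658 n4 n2 n1 w7027 n3 n0
  have s7302 := fun (n0 : T.alt p a c s d = true) (n1 : T.X p d a s = false) (n2 : T.X a s c d = false) => g1758 n0 n1 w7027 g6638 n2
  have s7307 := fun (n0 : T.X a c s d = true) (n1 : T.X p s a c = true) (n2 : T.X p a s d = false) (n3 : T.X p d a c = false) (n4 : T.alt p a c s d = true) => g1775 n4 n1 n2 n3 w6726 n0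
  have s7311 := fun (n0 : T.X p a s d = true) (n1 : T.alt p a c s d = true) => g1784 n1 n0 w7027 g6638
  have s7322 := fun (n0 : T.X p c a s = true) (n1 : T.X a s c d = false) (n2 : T.alt p a s c d = true) => g1829 n2 n0 g6638 n1
  have s7323 := fun (n0 : T.X a s c d = false) (n1 : T.X p d a s = true) (n2 : T.alt p a s c d = true) => g1831 n2 n1 g6638 n0
  have s7331 := fun (n0 : T.X p a s c = false) (n1 : T.X a d s c = false) (n2 : T.alt p a d s c = true) (n3 : T.X p c a d = false) (n4 : T.X p s a d = false) => g1868 n2 n0 n4 n3 w6727 n1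
  have s7333 := fun (n0 : T.X a s c d = false) (n1 : T.alt p a d s c = true) (n2 : T.X p c a s = false) => g1876 n1 n2 w7027 g6638 n0
  have s7342 := fun (n0 : T.alt p a d s c = true) (n1 : T.X p a s c = true) => g1902 n0 n1 w7027 g6638
  have s7343 := fun (n0 : T.X p a s d = true) (n1 : T.X p c a d = true) (n2 : T.alt p a d s c = true) => g1905 n2 n0 n1 w6726
  have s7347 := fun (n0 : T.X p s b c = false) (n1 : T.X b c s d = false) (n2 : T.X p d b c = false) (n3 : T.alt p b c s d = true) (n4 : T.X p b s d = false) => g2474 n3 n0 n4 n2 w6726 n1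
  have s7349 := fun (n0 : T.X b s c d = false) (n1 : T.X p d b s = false) (n2 : T.alt p b c s d = true) (n3 : T.X p b c d = false) => g2482 n2 n1 n3 g6638 n0
  have s7357 := fun (n0 : T.X p b s d = true) (n1 : T.alt p b c s d = true) (n2 : T.X p b c d = false) => g2508 n1 n0 n2 g6638
  have s7358 := fun (n0 : T.X p d b c = true) (n1 : T.X p b s c = true) (n2 : T.alt p b c s d = true) => g2511 n2 n1 n0 w6727
  have s7369 := fun (n0 : T.X b s c d = false) (n1 : T.alt p b s c d = true) (n2 : T.X p b c d = true) => g2551 n1 n2 g6638 n0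
  have s7373 := fun (n0 : T.X p s b c = false) (n1 : T.X p b s c = false) (n2 : T.alt p b s c d = true) (n3 : T.X p b c d = true) => g2564 n2 n1 n0 n3 g6638
  have s7382 := fun (n0 : T.X p c b s = false) (n1 : T.X b s c d = false) (n2 : T.alt p b d s c = true) (n3 : T.X p b c d = false) => g2600 n2 n0 n3 g6638 n1
  have s7406 := fun (n0 : T.X p r s d = true) (n1 : T.alt p r c s d = true) (n2 : T.X p r c d = false) => g2689 n1 n0 n2 g6638
  have s7463 := fun (n0 : T.X p r b s = true) (n1 : T.X a b r s = true) (n2 : T.X p r a s = true) => g2930 g6632 n2 n0 n1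
  have s7487 := fun (n0 : T.X a r b c = true) (n1 : T.X p c a r = false) (n2 : T.X p c a b = false) (n3 : T.X p r b c = false) => g3031 g6631 n2 n1 n3 n0
  have s7509 := fun (n0 : T.X p c a r = true) (n1 : T.X a b r c = true) (n2 : T.X p c b r = true) => g3097 g6631 n0 n2 n1
  have s7547 := fun (n0 : T.X a r b d = true) (n1 : T.X p d a r = false) (n2 : T.X p d a b = false) (n3 : T.X p r b d = false) => g3201 g6631 n2 n1 n3 n0
  have s7563 := fun (n0 : T.X a r b d = false) (n1 : T.X p d a r = true) (n2 : T.X p r b d = false) (n3 : T.X p d a b = false) => g3242 g6631 n3 n1 n2 n0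
  have s7569 := fun (n0 : T.X p d b r = true) (n1 : T.X p d a r = true) (n2 : T.X a b r d = true) => g3267 g6631 n1 n0 n2
  have s7624 := fun (n0 : T.X p s b c = false) (n1 : T.X a b s c = true) (n2 : T.X p b s c = false) (n3 : T.X p c b s = false) (n4 : T.X p c a b = true) => g3420 g6632 n4 n2 n0 n3 n1
  have s7628 := fun (n0 : T.X p a s c = true) (n1 : T.X p b s c = true) (n2 : T.X p c a b = true) => g3436 g6632 n2 n0 n1
  have s7629 := fun (n0 : T.X p c a s = true) (n1 : T.X p c b s = true) (n2 : T.X a b s c = true) => g3437 g6632 n0 n1 n2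
  have s7636 := fun (n0 : T.X a b s c = true) (n1 : T.X p a s c = false) (n2 : T.X p a b c = true) (n3 : T.X p s b c = true) (n4 : T.X p s a c = false) => g3487 g6632 n2 n1 n4 n3 n0
  have s7656 := fun (n0 : T.X p d a s = true) (n1 : T.X a b s d = true) (n2 : T.X p d a b = false) (n3 : T.X p b s d = false) => g3525 w6725 n2 n0 n3 n1
  have s7682 := fun (n0 : T.X a d b s = true) (n1 : T.X p s a d = false) (n2 : T.X p d a b = false) (n3 : T.X p d b s = false) => g3579 g6632 n2 n1 n3 n0
  have s7689 := fun (n0 : T.X a b s d = true) (n1 : T.X p d a s = true) (n2 : T.X p d b s = true) => g3607 g6632 n1 n2 n0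
  have s7715 := fun (n0 : T.X p a b c = true) (n1 : T.X a d b c = false) (n2 : T.X p b c d = true) (n3 : T.X p b a d = false) => g3706 n0 n3 w7027 n2 n1
  have s7722 := fun (n0 : T.X p a b d = true) (n1 : T.X p c a b = true) (n2 : T.X p c b d = false) => g3744 n1 n0 w7027 n2 g6639
  have s7739 := fun (n0 : T.X p c r d = true) (n1 : T.X p a r d = false) (n2 : T.X a r c d = true) (n3 : T.X p c a r = false) => g4213 n3 n1 w7027 n0 n2
  have s7747 := fun (n0 : T.X p a r c = true) (n1 : T.X p d r c = false) (n2 : T.X a r c d = true) (n3 : T.X p d a r = false) => g4235 n0 n3 w7027 n1 n2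
  have s7769 := fun (n0 : T.X a d s c = true) (n1 : T.X p a s c = false) (n2 : T.X p s a d = false) => g4382 n1 n2 w7027 g6638 n0
  have s7775 := fun (n0 : T.X p a s d = true) (n1 : T.X p c a s = false) (n2 : T.X a s c d = true) => g4396 n1 n0 w7027 w6726 n2
  have s7778 := fun (n0 : T.X p a s d = true) (n1 : T.X a c s d = false) (n2 : T.X p s a c = false) => g4401 n2 n0 w7027 g6638 n1
  have s7779 := fun (n0 : T.X a c s d = true) (n1 : T.X p s a c = false) (n2 : T.X p a s d = false) => g4402 n1 n2 w7027 g6638 n0
  have s7780 := fun (n0 : T.X a s c d = true) (n1 : T.X p a s c = true) (n2 : T.X p d a s = false) => g4405 n1 n2 w7027 w6727 n0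
  have s7831 := fun (n0 : T.X b c s d = true) (n1 : T.X p s b c = false) (n2 : T.X p b s d = false) (n3 : T.X p b c d = false) => g5082 n1 n2 n3 g6638 n0
  have s7837 := fun (n0 : T.X b c s d = true) (n1 : T.X p b s c = true) (n2 : T.X p d b c = false) (n3 : T.X p b s d = false) => g5101 n1 n3 n2 w6727 n0
  have s7939 := fun (n0 : T.X a r b c = false) (n1 : T.X b c r d = false) (n2 : T.X a b r d = true) (n3 : T.X a r c d = true) => g5761 n0 n2 g6639 n3 n1
  have s7941 := fun (n0 : T.X a b r c = true) (n1 : T.X b r c d = true) (n2 : T.X a d r c = false) (n3 : T.X a d b r = false) => g5765 n0 n3 g6639 n2 n1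
  have s7962 := fun (n0 : T.X a b s d = true) (n1 : T.X a c b s = false) (n2 : T.X a c s d = false) (n3 : T.X b s c d = true) => g5926 n1 n0 g6639 n2 n3
  have s7965 := fun (n0 : T.X a d b s = false) (n1 : T.X a b s c = true) (n2 : T.X b s c d = true) (n3 : T.X a d s c = false) => g5935 n1 n0 g6639 n3 n2
  have s7980 := fun (n0 : T.alt p a b r s = true) (n1 : T.X p r a s = false) => g6634 g6637 n0 n1
  have s7981 := fun (n0 : T.alt p a b r s = false) (n1 : T.alt p a s b r = false) => g6636 g6637 n0 n1
  have s7982 := fun (n0 : v153 = false) (n1 : v158 = true) => g6663 n1 n0 w7028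
  have s7983 := fun (n0 : v158 = false) (n1 : v153 = true) => g6664 n0 n1 w7028
  have s7984 := fun (n0 : v158 = true) (n1 : v157 = true) => g6666 g6670 n0 n1
  have s7985 := fun (n0 : v158 = false) (n1 : v157 = false) => g6667 g6670 n0 n1
  have s7986 := fun (n0 : v166 = true) (n1 : v161 = false) => g6694 n0 n1 w7029
  have s7987 := fun (n0 : v166 = false) (n1 : v161 = true) => g6695 n0 n1 w7029
  have s7988 := fun (n0 : T.alt p a b s d = true) (n1 : T.X p s a d = true) => g6715 w6947 n0 n1
  have s7989 := fun (n0 : T.alt p a b s d = false) (n1 : T.alt p a d b s = true) => g6717 w6947 n0 n1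
  have s7990 := fun (n0 : T.X p d a b = true) (n1 : T.bfo p a b d r = false) => g6719 n0 n1 w6947
  have s8004 := fun (n0 : T.X p b r d = false) (n1 : T.X a r b d = true) (n2 : T.X p r c d = false) (n3 : T.X p b c d = true) (n4 : T.alt p a r b c = true) (n5 : T.alt p a r c d = true) (n6 : T.alt p b c r d = true) (n7 : T.X p d a r = true) (n8 : T.X p c a b = false) => s6830 n2 w7027 n3 n0 n1 n4 n5 n6 n7 n8
  have s8008 := fun (n0 : T.alt p b d s c = false) (n1 : T.alt p a s c d = false) (n2 : T.alt p a d b c = true) (n3 : T.X p c a b = false) => s6869 n1 n0 n2 n3 w7027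
  have s8011 := fun (n0 : T.alt p a s b d = false) (n1 : T.alt p a d b c = false) (n2 : T.X p d a b = false) (n3 : T.X p c a b = false) (n4 : T.X p b c d = false) => s6878 n2 n4 n1 n3 w7027 n0
  have s8019 := fun (n0 : T.alt p a s b c = false) (n1 : T.alt p a d s c = true) (n2 : T.alt p a c b s = false) (n3 : T.alt p a r b c = false) (n4 : T.X p c a b = true) (n5 : T.alt p a r b d = false) (n6 : T.alt p a b r d = false) => s6901 n2 n3 n0 n1 n4 w7027 n5 n6
  have s8020 := fun (n0 : T.alt p a d s c = true) (n1 : T.alt p a c b s = true) (n2 : T.X p c a b = true) => s6903 n0 w7027 n1 n2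
  have s8022 := fun (n0 : T.X p s a c = true) (n1 : T.X a b s c = true) (n2 : T.alt p a d s c = true) (n3 : T.alt p b c s d = true) (n4 : T.alt p a b s c = true) (n5 : T.X p b a c = false) => s6911 n0 n3 n2 n1 n4 w7027 n5
  have s8024 := fun (n0 : T.alt p a b s d = true) (n1 : T.X p a s c = true) (n2 : T.X p b c d = false) (n3 : T.alt p a b s c = false) (n4 : T.X p c a b = false) => s6967 n0 w7027 n2 n1 n3 n4
  have s8027 := fun (n0 : T.alt p a s b c = true) (n1 : T.alt p a d r c = false) (n2 : T.alt p a r c d = false) (n3 : T.X p b c d = false) (n4 : T.X p c a b = false) (n5 : T.alt p a d b r = false) (n6 : T.X p d a b = false) => s6977 n1 n0 n2 w7027 n3 n4 n5 n6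
  have s8032 := fun (n0 : T.X p c a b = false) (n1 : T.alt p a r b d = true) (n2 : T.X p d a b = false) => s6984 w7027 n0 n1 n2
  have s8033 : T.alt p b c r d = false → T.X p c a b = false → T.alt p a d b r = false → T.alt p a d b c = false → T.alt p b d r c = false → T.alt p a b r c = false → T.alt p a b r d = false → False := fun n0 n1 n2 n3 n4 n5 n6 => by
    have u0 := bf fun t => g6473 n5 n6 t
    have u1 := bt fun t => g1011 u0 t n3
    have u2 := bt fun t => g6498 t u1 n4
    have u3 := bt fun t => s8032 n1 u2 t
    have u4 := bf fun t => g12 t u3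
    have u5 := bt fun t => s7266 u3 u1 n1 t
    have u6 := bf fun t => g1022 u1 n1 u3 t
    have u7 := bf fun t => s7715 t u6 u5 u4
    have u8 := bf fun t => g6492 t n3 n0
    have u9 := bt fun t => g2278 t n0 n4
    have u10 := bt fun t => g287 n5 u8 t
    have u11 := bf fun t => s6773 t u2 u10 n5
    have u12 := bf fun t => g6433 u11 n6 t
    have u13 := bf fun t => s7989 u12 t
    have u14 := bf fun t => g6445 n2 u13 t
    have u15 := bf fun t => g6721 t u14
    have u16 := bf fun t => g6569 u15 u14 t
    have u17 := bt fun t => g6404 u10 t u15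
    have u18 := bt fun t => g6628 u9 t u16
    have u19 := bf fun t => s7200 t u17 n1
    have u20 := bf fun t => s7205 t u19 u7 u17
    have u21 := bt fun t => s7373 u20 t u18 u5
    have u22 := bt fun t => g6655 t u18 u21
    have u23 := bt fun t => g6659 t u5 u22
    have u24 := bf fun t => s7984 t u23
    have u25 := bf fun t => s7983 u24 t
    have u26 := bt fun t => s6886 u17 t n1 u25
    have u27 := bt fun t => g6647 u25 t u21
    have u28 := bt fun t => s7212 t u26 u17
    exact g6640 u27 u26 u28
  have s8034 : T.X p c a b = false → T.alt p a d b c = false → T.alt p a b r c = false → T.alt p a d r c = false → T.alt p a b r d = false → False := fun n0 n1 n2 n3 n4 => by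
    have u0 := bf fun t => g6501 n2 n3 t
    have u1 := bf fun t => g6473 n2 n4 t
    have u2 := bt fun t => g1011 u1 t n1
    have u3 := bt fun t => g6498 t u2 u0
    have u4 := bf fun t => g6484 t n1 n3
    have u5 := bt fun t => s8032 n0 u3 t
    have u6 := bf fun t => s6943 t n2 n0
    have u7 := bf fun t => g12 t u5
    have u8 := bt fun t => s7266 u5 u2 n0 t
    have u9 := bf fun t => g1022 u2 n0 u5 t
    have u10 := bf fun t => s7715 t u9 u8 u7
    have u11 := bt fun t => s8033 t n0 u4 n1 u0 n2 n4
    have u12 := bf fun t => g2279 t u11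
    have u13 := bt fun t => g6493 t n1 u11
    have u14 := bf fun t => g6510 u1 t u12
    have u15 := bt fun t => s6874 t u13 n0
    have u16 := bt fun t => s6769 n3 u15 u14 n2 t u12
    have u17 := bf fun t => g6701 t u16
    have u18 := bf fun t => s7022 t u17 u11 u8
    have u19 := bf fun t => s7487 t u6 n0 u18
    exact s7073 u10 u19 u6 u18 u13
  have s8035 : T.alt p a b s d = false → T.alt p a c s d = true → T.alt p a d s c = false → T.X p d b c = false → T.alt p a s c d = false → T.X p b c d = false → T.X p c a b = true → False := fun n0 n1 n2 n3 n4 n5 n6 => by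
    have u0 := bf fun t => g6660 t n5
    have u1 := bt fun t => s7985 t u0
    have u2 := bt fun t => s6966 n0 t
    have u3 := bt fun t => g6546 n0 n1 t
    have u4 := bt fun t => s6999 n4 t n2 u2 n6 u1
    have u5 := bf fun t => s7357 t u3 n5
    have u6 := bf fun t => g40 u4 t
    have u7 := bf fun t => s7837 t u4 n3 u5
    exact s7347 u6 u7 n3 u3 u5
  have s8037 : T.alt p a d b s = true → False := fun n0 => by
    have u0 := bf fun t => g832 t n0
    exact s7989 u0 n0
  have w8037 := bf s8037
  have s8039 : T.alt p a c r d = false → T.alt p r s c d = false → T.alt p a c r s = false → T.X p c a b = true → T.alt p a c b d = true → T.alt p a d r c = false → False := fun n0 n1 n2 n3 n4 n5 => by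
    have u0 := bf fun t => s7269 n3 t n4
    have u1 := bf fun t => g6660 t u0
    have u2 := bt fun t => s7985 t u1
    have u3 := bt fun t => s7982 t u2
    have u4 := bt fun t => g6482 t n4 n0
    have u5 := bt fun t => g1554 t n0 n5
    have u6 := bt fun t => g6404 u4 t n2
    have u7 := bt fun t => g6588 u5 t n1
    have u8 := bt fun t => s6997 t u7 u6 n3 u2
    have u9 := bf fun t => s7628 u8 t n3
    have u10 := bt fun t => s7212 t u8 u6
    have u11 := bf fun t => g6640 t u8 u10
    exact g6645 u3 u11 u9
  have s8040 : T.alt p a b s d = true → T.alt p a r b d = true → T.X p c a b = true → T.alt p a c b d = true → T.alt p a b c d = false → False := fun n0 n1 n2 n3 n4 => by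
    have u0 := bf fun t => s7269 n2 t n3
    have u1 := bf fun t => g6660 t u0
    have u2 := bt fun t => s7985 t u1
    have u3 := bt fun t => s7982 t u2
    have u4 := bt fun t => s7268 n3 n2 t
    have u5 := bf fun t => g831 n0 t
    have u6 := bf fun t => s7988 n0 t
    have u7 := bt fun t => g6514 t n0 n4
    have u8 := bt fun t => s7239 t n0 u4
    have u9 := bt fun t => g6538 u5 n3 t
    have u10 := bt fun t => s7190 t u7 n2
    have u11 := bf fun t => s6897 t u7 n2
    have u12 := bf fun t => g74 u8 t
    have u13 := bt fun t => g6645 u3 t u11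
    have u14 := bf fun t => g6640 u13 t u10
    have u15 := bf fun t => s7769 t u14 u6
    have u16 := bf fun t => s7965 u12 u10 t u15
    have u17 := bt fun t => s7382 t u16 u9 u0
    have u18 := bf fun t => s7629 t u17 u10
    exact s6994 n1 u17 n0 w8037 u18 n4
  have s8041 : T.alt p a d b c = false → T.alt p a b r c = false → T.alt p a d r c = false → T.alt p a b r d = false → False := fun n0 n1 n2 n3 => by
    have u0 := bf fun t => g6501 n1 n2 t
    have u1 := bf fun t => g6473 n1 n3 t
    have u2 := bt fun t => g1011 u1 t n0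
    have u3 := bf fun t => g6484 t n0 n2
    have u4 := bt fun t => s8034 t n0 n1 n2 n3
    have u5 := bf fun t => g6525 w8037 n0 t
    have u6 := bt fun t => g6498 t u2 u0
    have u7 := bf fun t => g6445 u3 w8037 t
    have u8 := bf fun t => s7269 u4 t u2
    have u9 := bf fun t => g6721 t u7
    have u10 := bf fun t => g6660 t u8
    have u11 := bf fun t => g6569 u9 u7 t
    have u12 := bt fun t => s7985 t u10
    have u13 := bt fun t => s8039 t u11 u9 u4 u2 n2
    have u14 := bf fun t => s6867 t u13 n2
    have u15 := bt fun t => g6562 u9 u13 t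
    have u16 := bf fun t => s8040 t u6 u4 u2 u1
    have u17 := bt fun t => s8035 u16 u15 u5 t u14 u8 u4
    have u18 := bt fun t => g6546 u16 u15 t
    have u19 := bt fun t => s6966 u16 t
    have u20 := bf fun t => s7358 u17 t u18
    exact s6999 u14 u20 u5 u19 u4 u12
  have s8042 : T.X p c a b = true → T.bfo p a b c r = false → T.alt p a r b c = false → T.alt p a c b s = false → T.alt p a r b d = false → T.alt p a d s c = true → T.alt p a b r d = false → False := fun n0 n1 n2 n3 n4 n5 n6 => by
    have u0 := bt fun t => s8019 t n5 n3 n2 n0 n4 n6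
    have u1 := bt fun t => g6710 n0 n1 t
    have u2 := bf fun t => g650 t u0
    exact g6709 u1 u2 n3
  have s8043 : T.alt p a b r c = false → T.alt p a d r c = false → T.alt p a b r d = false → False := fun n0 n1 n2 => by
    have u0 := bf fun t => g6501 n0 n1 t
    have u1 := bt fun t => s8041 t n0 n1 n2
    have u2 := bf fun t => g1014 t u1
    have u3 := bt fun t => g6486 t u1 n1
    have u4 := bt fun t => g6526 w8037 u1 t
    have u5 := bf fun t => g6496 t u2 u0
    have u6 := bf fun t => s6756 u3 t
    have u7 := bt fun t => g6444 u3 w8037 t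
    have u8 := bf fun t => g1737 t u4
    have u9 := bf fun t => g1738 t u4
    have u10 := bf fun t => s7342 u4 t
    have u11 := bf fun t => s7990 t u6
    have u12 := bf fun t => g1375 t u7
    have u13 := bt fun t => g6720 t u7
    have u14 := bf fun t => g6520 t u2 u9
    have u15 := bf fun t => g6436 t u5 u12
    have u16 := bf fun t => g1194 t u13
    have u17 := bt fun t => g6405 t u14 u13
    have u18 := bf fun t => g6398 u15 t u16
    have u19 := bf fun t => s6761 u17 t
    have u20 := bf fun t => s8042 t u19 u18 u14 u5 u4 n2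
    have u21 := bf fun t => s7278 u1 t u20
    have u22 := bt fun t => s6876 u1 u20 u5 n2 t
    have u23 := bt fun t => s8008 t u8 u1 u20
    have u24 := bt fun t => g6518 t u22 u8
    have u25 := bf fun t => s7178 u24 t u20
    have u26 := bt fun t => s7171 t u10 u20 u24
    have u27 := bf fun t => s7168 t u25 u24
    have u28 := bt fun t => s7333 t u4 u25
    have u29 := bt fun t => s7382 u27 t u23 u21
    have u30 := bf fun t => s7775 t u25 u28
    have u31 := bf fun t => g5976 u26 t u28 u29
    exact s7220 u30 u31 u11 u22
  have s8044 : T.X p d a b = true → T.X p b c d = false → T.alt p a r c d = true → T.alt p a b c d = true → T.alt p a b r c = true → T.X p c a b = false → T.alt p b d r c = true → False := fun n0 n1 n2 n3 n4 n5 n6 => by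
    have u0 := bt fun t => s6964 t n0 n2 n3 n1 n5 n6 n4
    have u1 := bf fun t => g6660 t n1
    have u2 := bf fun t => s6965 u0 t n5
    have u3 := bt fun t => s7985 t u1
    exact s7982 u2 u3
  have s8045 : T.X p c a b = false → T.alt p a b c d = true → T.alt p b d r c = true → T.alt p a b r c = true → False := fun n0 n1 n2 n3 => by
    have u0 := bf fun t => g1012 n1 t
    have u1 := bt fun t => g6497 t u0 n2
    have u2 := bf fun t => g2280 t n2
    have u3 := bt fun t => g6508 n1 t u2
    have u4 := bt fun t => s8032 n0 u1 t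
    have u5 := bf fun t => s7274 u4 n1 t
    exact s8044 u4 u5 u3 n1 n3 n0 n2
  have s8046 : T.X p c a r = false → T.X p d b r = false → T.X a d b r = false → T.X p d a r = false → v165 = false → T.X p c a b = true → T.alt p a r c d = true → T.alt p b d r c = true → T.alt p a b r c = true → False := fun n0 n1 n2 n3 n4 n5 n6 n7 n8 => by
    have u0 := bt fun t => s7093 t n8 n5
    have u1 := bf fun t => g65 u0 t
    have u2 := bf fun t => g9 t n5
    have u3 := bt fun t => s7098 t n0 n8 n5
    have u4 := bf fun t => g16 t u3
    have u5 := bf fun t => g396 n8 u2 u3 t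
    have u6 := bt fun t => g366 n8 u2 u3 t u1
    have u7 := bt fun t => g6674 t u4 u0
    have u8 := bt fun t => g6677 t u7 u5
    have u9 := bt fun t => s7987 t u8
    have u10 := bt fun t => g6699 t u9 n4
    have u11 := bf fun t => g6701 t u10
    have u12 := bt fun t => s7288 t n0 u11 n6 n3
    have u13 := bt fun t => g2418 n7 u6 n1 u11 t
    have u14 := bf fun t => g86 u12 t
    exact s7941 u0 u13 u14 n2
  have s8047 : T.X p c b s = true → T.alt p a s r c = true → T.alt p b r s c = true → T.X a c b s = false → T.X p b s c = false → T.alt p a b s c = true → T.X p r b c = true → T.X p r a c = false → T.X p a r c = false → False := fun n0 n1 n2 n3 n4 n5 n6 n7 n8 => by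
    have u0 := bf fun t => g42 t n0
    have u1 := bt fun t => s7189 t n0 n3 n5
    have u2 := bt fun t => g2022 n2 n6 n4 u0 t
    have u3 := bt fun t => g1239 n1 n8 n7 u1 t
    exact g5201 u2 u3
  have s8048 : T.alt p a b s c = true → T.X p r b c = true → T.X p r a c = false → T.X p a r c = false → T.X p d a b = false → T.X p b c d = false → T.X p c a b = true → T.alt p a s c d = true → T.alt p a d s c = false → T.alt p a b r c = true → False := fun n0 n1 n2 n3 n4 n5 n6 n7 n8 n9 => by
    have u0 := bf fun t => g9 t n6
    have u1 := bf fun t => g8 t n6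
    have u2 := bf fun t => g289 n9 t
    have u3 := bf fun t => g650 n0 t
    have u4 := bt fun t => s7190 t n0 n6
    have u5 := bf fun t => s6897 t n0 n6
    have u6 := bf fun t => g6391 t n9 n0
    have u7 := bt fun t => g6540 n0 n8 t
    have u8 := bt fun t => g6517 u3 t n7
    have u9 := bf fun t => g70 u4 t
    have u10 := bf fun t => g71 u4 t
    have u11 := bt fun t => s7981 u6 t
    have u12 := bt fun t => g6408 u11 u2 t
    have u13 := bt fun t => g6400 u11 u3 t
    have u14 := bf fun t => s8047 t u13 u12 u10 u5 n0 n1 n2 n3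
    have u15 := bt fun t => s7382 u14 t u7 n5
    have u16 := bt fun t => s7624 t u4 u5 u14 n6
    have u17 := bf fun t => g728 n0 u0 t u14 u10
    have u18 := bt fun t => g731 n0 u1 t u16 u9
    have u19 := bt fun t => s7322 u18 t n7
    have u20 := bf fun t => g88 u19 t
    have u21 := bf fun t => g5976 u4 t u19 u15
    have u22 := bf fun t => s7778 t u20 u17
    exact s7220 u22 u21 n4 u8
  have s8049 : T.alt p a d r c = false → T.alt p a b r d = false → False := fun n0 n1 => by
    have u0 := bt fun t => s8043 t n0 n1
    have u1 := bf fun t => g289 u0 t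
    have u2 := bt fun t => g6500 u0 n0 t
    have u3 := bt fun t => g6472 u0 n1 t
    have u4 := bf fun t => g2280 t u2
    have u5 := bf fun t => g1012 u3 t
    have u6 := bf fun t => g1013 u3 t
    have u7 := bt fun t => g6508 u3 t u4
    have u8 := bf fun t => g6490 u1 t u4
    have u9 := bt fun t => g6497 t u5 u2
    have u10 := bf fun t => g6525 w8037 u6 t
    have u11 := bf fun t => g6445 u8 w8037 t
    have u12 := bf fun t => g6721 t u11
    have u13 := bf fun t => g6569 u12 u11 t
    have u14 := bt fun t => g6588 u7 t u13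
    have u15 := bt fun t => s8045 t u3 u2 u0
    have u16 := bf fun t => s7273 u3 u15 t
    have u17 := bt fun t => s7093 t u0 u15
    have u18 := bf fun t => s7272 t u3 u15
    have u19 := bf fun t => g6691 t u16
    have u20 := bf fun t => g64 u17 t
    have u21 := bf fun t => s7130 t u9 u18
    have u22 := bf fun t => s6973 t u9 u18
    have u23 := bf fun t => s7120 t u21 u9
    have u24 := bt fun t => s8046 t u23 u22 u21 u19 u15 u7 u2 u0
    have u25 := bf fun t => g17 t u24
    have u26 := bf fun t => g18 t u24
    have u27 := bt fun t => s7088 u24 u20 t u0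
    have u28 := bf fun t => s7509 u24 u17 t
    have u29 := bt fun t => g6674 t u25 u17
    have u30 := bf fun t => g34 t u27
    have u31 := bt fun t => g6677 t u29 u30
    have u32 := bt fun t => s7987 t u31
    have u33 := bt fun t => g6699 t u32 u19
    have u34 := bf fun t => g6701 t u33
    have u35 := bf fun t => s8048 t u27 u26 u25 u18 u16 u15 u14 u10 u0
    exact s6960 u35 u28 u34 u21 u16 u9 u3 u2 u0
  have s8050 : T.alt p a c b s = true → v153 = true → T.X p c a b = true → False := fun n0 n1 n2 => by
    have u0 := bt fun t => s6892 t n0 n2 n1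
    have u1 := bf fun t => s7628 u0 t n2
    have u2 := bt fun t => s7212 t u0 n0
    have u3 := bf fun t => g6640 t u0 u2
    exact g6645 n1 u3 u1
  have s8051 : T.alt p a b r c = true → T.X p c a b = true → T.alt p a b r d = false → False := fun n0 n1 n2 => by
    have u0 := bt fun t => s8049 t n2
    have u1 := bf fun t => g1556 t u0
    have u2 := bf fun t => g288 n0 t
    have u3 := bf fun t => g289 n0 t
    have u4 := bt fun t => g6472 n0 n2 t
    have u5 := bf fun t => g6478 u2 t u1
    have u6 := bf fun t => s7273 u4 n1 t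
    have u7 := bt fun t => g468 n2 u5 t
    have u8 := bf fun t => g6660 t u6
    have u9 := bt fun t => g6444 u7 w8037 t
    have u10 := bt fun t => s7985 t u8
    have u11 := bt fun t => g6720 t u9
    have u12 := bt fun t => s7982 t u10
    have u13 := bt fun t => g6405 u3 t u11
    exact s8050 u13 u12 n1
  have s8052 : T.X a b s c = true → T.alt p a c s d = false → T.alt p a d b c = true → T.X p b c d = false → v153 = true → T.X p c a b = true → False := fun n0 n1 n2 n3 n4 n5 => by
    have u0 := bt fun t => g6526 w8037 n2 t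
    have u1 := bf fun t => s7342 u0 t
    have u2 := bt fun t => s7277 n2 t n3 n5
    have u3 := bt fun t => g6643 t u1 n0
    have u4 := bf fun t => g6644 n4 u3 t
    have u5 := bf fun t => s6822 u4 n4 t n5
    have u6 := bt fun t => g6534 u5 n2 t
    have u7 := bt fun t => g6545 t n1 u6
    have u8 := bf fun t => s7988 u7 t
    have u9 := bt fun t => s7239 t u7 u2
    have u10 := bt fun t => s7244 t u8 u2 u7
    have u11 := bf fun t => s7769 t u1 u8
    have u12 := bf fun t => g74 u9 t
    have u13 := bf fun t => s7689 u9 u10 t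
    have u14 := bf fun t => s7965 u12 n0 t u11
    exact s7349 u14 u13 u6 n3
  have s8053 : T.alt p a c b r = false → T.X p b c d = false → v153 = true → T.X p c a b = true → T.alt p a b r d = false → False := fun n0 n1 n2 n3 n4 => by
    have u0 := bf fun t => s8050 t n2 n3
    have u1 := bf fun t => s8051 t n3 n4
    have u2 := bt fun t => s8049 t n4
    have u3 := bf fun t => g1557 t u2
    have u4 := bf fun t => g6505 n4 u3 t
    have u5 := bt fun t => g287 u1 t n0
    have u6 := bf fun t => g6482 n0 t u3
    have u7 := bt fun t => g6492 u5 t u4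
    have u8 := bf fun t => g6521 u0 u6 t
    have u9 := bt fun t => g6526 w8037 u7 t
    have u10 := bf fun t => s7342 u9 t
    have u11 := bf fun t => s8052 t u8 u7 n1 n2 n3
    have u12 := bf fun t => s7190 u11 t n3
    have u13 := bf fun t => g6641 t u10 u11
    have u14 := bt fun t => g649 u12 t u0
    have u15 := bt fun t => g6645 n2 u13 t
    exact s7174 u11 u15 u14
  have s8054 : T.alt p a c b r = true → T.alt p b r c d = false → T.X p c a b = true → T.alt p a c r d = false → False := fun n0 n1 n2 n3 => by
    have u0 := bt fun t => g6480 n0 t n3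
    have u1 := bt fun t => g6488 n0 t n1
    have u2 := bt fun t => s7268 u0 n2 t
    have u3 := bf fun t => s6756 u1 t
    exact s7990 u2 u3
  have s8055 : v153 = true → T.X p c a b = true → T.alt p a b r d = false → False := fun n0 n1 n2 => by
    have u0 := bt fun t => s8049 t n2
    have u1 := bf fun t => g1557 t u0
    have u2 := bf fun t => g6505 n2 u1 t
    have u3 := bf fun t => s8051 t n1 n2
    have u4 := bf fun t => g1556 t u0
    have u5 := bf fun t => g6473 u3 n2 t
    have u6 := bf fun t => g6509 u5 u4 t
    have u7 := bf fun t => s8054 t u6 n1 u1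
    have u8 := bt fun t => g287 u3 t u7
    have u9 := bt fun t => g6492 u8 t u2
    have u10 := bt fun t => g6526 w8037 u9 t
    have u11 := bf fun t => s7342 u10 t
    have u12 := bt fun t => g6704 t u3 u8
    have u13 := bf fun t => s6812 t n1 u8 u12
    have u14 := bf fun t => s7986 t u13
    have u15 := bf fun t => g6490 u7 t u6
    have u16 := bf fun t => g6445 u15 w8037 t
    have u17 := bt fun t => g6476 u8 t u4
    have u18 := bf fun t => g6482 u7 t u1
    have u19 := bt fun t => g6502 u3 u0 t
    have u20 := bt fun t => g6688 t u6 u19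
    have u21 := bt fun t => s7983 t n0
    have u22 := bf fun t => s8050 t n0 n1
    have u23 := bf fun t => s7984 u21 t
    have u24 := bf fun t => g6529 u22 w8037 t
    have u25 := bt fun t => s8053 u7 t n0 n1 n2
    have u26 := bf fun t => s7280 t u9 u25
    have u27 := bt fun t => g6690 t u25 u20
    have u28 := bf fun t => g6659 u23 u25 t
    have u29 := bf fun t => s7130 t u17 u26
    have u30 := bf fun t => s6973 t u17 u26
    have u31 := bf fun t => g6657 u28 u24 t
    have u32 := bt fun t => g6700 t u14 u27
    have u33 := bf fun t => s7120 t u29 u17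
    have u34 := bf fun t => g6536 t u18 u31
    have u35 := bt fun t => g6606 t u19 u31
    have u36 := bt fun t => g2459 u24 t u31
    have u37 := bf fun t => g6701 t u32
    have u38 := bt fun t => s6966 t u34
    have u39 := bf fun t => g2099 t u35
    have u40 := bt fun t => g6461 t u16 u35
    have u41 := bf fun t => s7988 u38 t
    have u42 := bt fun t => g6626 u39 u36 t
    have u43 := bt fun t => g6468 u38 t u39
    have u44 := bt fun t => s7049 u40 t
    have u45 := bt fun t => s7980 u40 t
    have u46 := bf fun t => s7769 t u11 u41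
    have u47 := bt fun t => s7331 u11 u46 u10 t u41
    have u48 := bf fun t => s7406 t u42 u37
    have u49 := bf fun t => g62 u44 t
    have u50 := bf fun t => g13 t u45
    have u51 := bf fun t => g15 u45 t
    have u52 := bt fun t => s7043 u45 t u40 u49
    have u53 := bf fun t => s7056 u45 t u40
    have u54 := bf fun t => s7343 t u47 u10
    have u55 := bt fun t => g2237 u35 u52 u33 u48 t
    have u56 := bt fun t => g1447 u43 u51 u29 u54 u48 t
    have u57 := bf fun t => g1446 u43 u50 u51 u29 t
    have u58 := bf fun t => g83 u56 t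
    have u59 := bt fun t => g4032 u45 u29 t u48 u56
    have u60 := bf fun t => g2259 u35 u53 t u48 u57
    have u61 := bt fun t => g5595 u44 u30 t u58 u55
    exact s7656 u59 u61 u26 u60
  have s8058 : T.X p r b d = false → T.X p a b d = false → T.X p d a b = false → T.alt p a r b d = true → False := fun n0 n1 n2 n3 => by
    have u0 := bf fun t => s7130 t n3 n2
    have u1 := bt fun t => s7121 t n0 n1 u0 n3
    exact s7547 u1 u0 n2 n0
  have s8059 : T.X p c a b = true → T.alt p a b r d = false → False := fun n0 n1 => by
    have u0 := bt fun t => s8049 t n1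
    have u1 := bf fun t => g1557 t u0
    have u2 := bf fun t => g6505 n1 u1 t
    have u3 := bf fun t => g1556 t u0
    have u4 := bf fun t => s8051 t n0 n1
    have u5 := bf fun t => g6473 u4 n1 t
    have u6 := bt fun t => g6502 u4 u0 t
    have u7 := bf fun t => g6509 u5 u3 t
    have u8 := bt fun t => g6688 t u7 u6
    have u9 := bf fun t => s8054 t u7 n0 u1
    have u10 := bt fun t => g287 u4 t u9
    have u11 := bt fun t => g6704 t u4 u10
    have u12 := bt fun t => g6476 u10 t u3
    have u13 := bf fun t => s6812 t n0 u10 u11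
    have u14 := bt fun t => g6492 u10 t u2
    have u15 := bf fun t => s7986 t u13
    have u16 := bf fun t => s8055 t n0 n1
    have u17 := bf fun t => s7982 u16 t
    have u18 := bt fun t => s7985 u17 t
    have u19 := bt fun t => g6660 u18 t
    have u20 := bf fun t => g46 u19 t
    have u21 := bf fun t => s7280 t u14 u19
    have u22 := bt fun t => g6690 t u19 u8
    have u23 := bf fun t => s7722 t n0 u20
    have u24 := bf fun t => s7130 t u12 u21
    have u25 := bt fun t => g6700 t u15 u22
    have u26 := bf fun t => s7120 t u24 u12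
    have u27 := bf fun t => g6701 t u25
    have u28 := bt fun t => g2421 u6 u26 u19 u27 t
    have u29 := bf fun t => g98 u28 t
    have u30 := bt fun t => s8058 t u23 u21 u12
    have u31 := bt fun t => g4888 t u30 u19 u27 u29
    exact g2430 u6 u31 u30 u29
  have s8063 : T.X p b s c = true → T.alt p b s c d = true → T.alt p a c b s = true → T.X p b c d = true → T.X p c a b = false → False := fun n0 n1 n2 n3 n4 => by
    have u0 := bt fun t => g6655 t n1 n0
    have u1 := bt fun t => g6659 t n3 u0
    have u2 := bf fun t => s7984 t u1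
    have u3 := bf fun t => s7983 u2 t
    have u4 := bt fun t => s6886 n2 t n4 u3
    have u5 := bt fun t => g6647 u3 t n0
    have u6 := bt fun t => s7212 t u4 n2
    exact g6640 u5 u4 u6
  have s8065 : T.X p b c d = false → T.alt p a s c d = false → T.alt p a c s d = true → T.alt p a d b c = false → T.X p d a b = false → T.X p c a b = false → False := fun n0 n1 n2 n3 n4 n5 => by
    have u0 := bf fun t => s7311 t n2
    have u1 := bt fun t => s8011 t n3 n4 n5 n0
    have u2 := bf fun t => g831 t u1
    have u3 := bf fun t => s7227 t u1 n4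
    have u4 := bt fun t => g6518 t u1 n1
    have u5 := bt fun t => s7220 u0 t n4 u1
    have u6 := bt fun t => g6546 u2 n2 t
    have u7 := bt fun t => s7302 n2 u3 t
    have u8 := bf fun t => s7217 t u3 u1
    have u9 := bf fun t => g74 u5 t
    have u10 := bf fun t => g89 u7 t
    have u11 := bf fun t => s7780 u7 t u3
    have u12 := bt fun t => s7349 t u8 u6 n0
    have u13 := bf fun t => s7965 u9 t u12 u10
    exact s7171 u13 u11 n5 u4
  have s8066 : T.X p d a b = false → T.alt p a b r d = false → False := fun n0 n1 => by
    have u0 := bf fun t => s8059 t n1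
    have u1 := bt fun t => s8049 t n1
    have u2 := bf fun t => g1557 t u1
    have u3 := bf fun t => s8032 u0 t n0
    have u4 := bt fun t => g468 n1 u3 t
    have u5 := bf fun t => g6483 u4 t u1
    have u6 := bt fun t => g6444 u4 w8037 t
    have u7 := bf fun t => g1376 t u6
    have u8 := bt fun t => g6720 t u6
    have u9 := bf fun t => g1195 t u8
    have u10 := bt fun t => g6560 u8 u2 t
    have u11 := bf fun t => g6557 u9 u7 t
    have u12 := bf fun t => s7311 t u10
    have u13 := bt fun t => s8065 t u11 u10 u5 n0 u0
    have u14 := bf fun t => g47 u13 t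
    have u15 := bf fun t => s7267 t u13 n0
    have u16 := bt fun t => g1011 t u15 u5
    have u17 := bt fun t => g6521 t u15 u10
    have u18 := bt fun t => g6548 u16 u11 t
    have u19 := bf fun t => g651 t u17
    have u20 := bf fun t => s7200 t u17 u0
    have u21 := bt fun t => s7369 t u18 u13
    have u22 := bf fun t => s8063 t u18 u17 u13 u0
    have u23 := bt fun t => g6513 u19 t u16
    have u24 := bf fun t => g100 u21 t
    have u25 := bt fun t => s7373 t u22 u18 u13
    have u26 := bt fun t => s7202 t u22 u0 u17
    have u27 := bf fun t => g42 u25 t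
    have u28 := bt fun t => s7205 u25 u20 t u17
    have u29 := bt fun t => g2545 u18 u25 t u14 u24
    have u30 := bf fun t => g71 u26 t
    have u31 := bf fun t => s7209 t u22 u17 u27
    have u32 := bf fun t => g7 u28 t
    have u33 := bt fun t => s7636 u26 u31 u28 u25 t
    have u34 := bt fun t => s7241 u29 t u23
    have u35 := bt fun t => s7962 u34 u30 t u21
    have u36 := bf fun t => g1111 u16 u32 u0 n0 t
    exact s7307 u35 u33 u12 u36 u10
  have s8067 : T.alt p a b r d = false → False := fun n0 => by
    have u0 := bt fun t => s8049 t n0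
    have u1 := bf fun t => s8059 t n0
    have u2 := bt fun t => s8066 t n0
    have u3 := bt fun t => s7990 u2 t
    have u4 := bf fun t => s7279 u2 t u1
    have u5 := bf fun t => s6756 t u3
    exact g6485 u5 u4 u0
  have w8067 := bt s8067
  have s8068 := fun (n0 : T.alt p a r b d = true) => g469 w8067 n0
  have w8068 := bf s8068
  have s8069 := fun (n0 : T.alt p a d b r = true) => g470 w8067 n0
  have w8069 := bf s8069
  have s8070 := fun (n0 : T.alt p a d r s = true) => g6445 w8069 w8037 n0
  have w8070 := bf s8070
  have s8071 := fun (n0 : T.alt p a c r s = true) => g6721 n0 w8070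
  have w8071 := bf s8071
  have s8072 := fun (n0 : T.alt p r s c d = true) => g6569 w8071 w8070 n0
  have w8072 := bf s8072
  have s8073 : T.X p d a b = true → T.alt p a c s d = true → T.X p b c d = true → T.X p c a b = false → False := fun n0 n1 n2 n3 => by
    have u0 := bt fun t => g6561 w8071 t n1
    have u1 := bf fun t => g6503 w8067 u0 t
    have u2 := bf fun t => g1736 t n1
    have u3 := bf fun t => g6588 t u2 w8072
    have u4 := bt fun t => s7990 n0 t
    have u5 := bt fun t => s7141 t w8067 n0
    have u6 := bf fun t => s7274 n0 t n2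
    have u7 := bt fun t => g6712 u4 w8067 t
    have u8 := bf fun t => g67 u5 t
    have u9 := bf fun t => g6509 u6 u3 t
    have u10 := bt fun t => g6474 t w8067 u6
    have u11 := bf fun t => s7569 t u7 u5
    have u12 := bt fun t => s7136 u8 u7 w8067 t
    have u13 := bt fun t => g2278 u9 u1 t
    have u14 := bt fun t => s6755 u9 u1 t
    have u15 := bf fun t => s6805 t n3 u10
    have u16 := bt fun t => g6690 t n2 u14
    have u17 := bf fun t => s7986 t u15
    have u18 := bt fun t => g6700 t u17 u16
    have u19 := bf fun t => g6701 t u18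
    have u20 := bt fun t => g2421 u13 u11 n2 u19 t
    have u21 := bf fun t => g98 u20 t
    have u22 := bt fun t => g4888 t u12 n2 u19 u21
    exact g2430 u13 u22 u12 u21
  have s8074 : T.X a b s c = true → T.X p a s c = false → T.alt p a c s d = true → T.X p b c d = true → T.X p c a b = false → False := fun n0 n1 n2 n3 n4 => by
    have u0 := bf fun t => s7278 t n3 n4
    have u1 := bf fun t => s8073 t n2 n3 n4
    have u2 := bf fun t => s7267 t n3 u1
    have u3 := bt fun t => g1011 t u2 u0
    have u4 := bt fun t => g6521 t u2 n2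
    have u5 := bf fun t => g651 t u4
    have u6 := bt fun t => g6513 u5 t u3
    have u7 := bf fun t => s7988 u6 t
    have u8 := bf fun t => s7769 t n1 u7
    have u9 := bf fun t => g1736 t n2
    have u10 := bt fun t => g6548 u3 u9 t
    have u11 := bt fun t => s7369 t u10 n3
    have u12 := bf fun t => g47 n3 t
    have u13 := bf fun t => s7216 n0 t u4 n4 n1
    have u14 := bt fun t => s7373 t u13 u10 n3
    have u15 := bf fun t => g2566 u10 u14 t u12
    have u16 := bf fun t => s7682 t u7 u1 u15
    exact s7965 u16 n0 u11 u8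
  have s8075 : T.alt p a c s d = true → T.X p b c d = true → T.X p c a b = false → False := fun n0 n1 n2 => by
    have u0 := bf fun t => s7278 t n1 n2
    have u1 := bf fun t => g1736 t n0
    have u2 := bf fun t => s8073 t n0 n1 n2
    have u3 := bf fun t => s7267 t n1 u2
    have u4 := bt fun t => g1011 t u3 u0
    have u5 := bt fun t => g6521 t u3 n0
    have u6 := bt fun t => g6548 u4 u1 t
    have u7 := bf fun t => s8063 t u6 u5 n1 n2
    have u8 := bt fun t => s7202 t u7 n2 u5
    have u9 := bt fun t => s7373 t u7 u6 n1
    have u10 := bt fun t => s8074 u8 t n0 n1 n2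
    have u11 := bf fun t => g42 u9 t
    exact s7209 u10 u7 u5 u11
  have s8076 : T.X a r c d = true → T.X p b c d = true → T.X p c a b = false → False := fun n0 n1 n2 => by
    have u0 := bf fun t => g46 n1 t
    have u1 := bf fun t => s7278 t n1 n2
    have u2 := bf fun t => s8075 t n1 n2
    have u3 := bf fun t => g6562 w8071 t u2
    have u4 := bt fun t => g6504 w8067 u3 t
    have u5 := bt fun t => g6493 t u1 u4
    have u6 := bf fun t => s7082 t u5 n2
    have u7 := bf fun t => s7072 t u5 u6
    have u8 := bf fun t => s6750 u4 t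
    have u9 := bf fun t => g6692 t u8
    have u10 := bt fun t => s6874 t u5 n2
    have u11 := bt fun t => s7987 t u10
    have u12 := bt fun t => g6699 t u11 u9
    have u13 := bf fun t => g6701 t u12
    have u14 := bt fun t => g2303 u4 u7 n1 u13 t
    have u15 := bf fun t => g4936 u7 t u0 u13 u14
    have u16 := bf fun t => g98 u14 t
    have u17 := bf fun t => g6485 w8069 u1 t
    have u18 := bt fun t => g1554 t u3 u17
    have u19 := bf fun t => g2279 t u4
    have u20 := bt fun t => g6510 t u18 u19
    have u21 := bf fun t => s7274 t u20 n1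
    have u22 := bf fun t => s7292 n0 t u6 u13 u18
    have u23 := bf fun t => s6930 u7 t n1 u21 n0 u13 u4 u22
    have u24 := bf fun t => s7078 u23 t u5
    have u25 := bt fun t => s7075 u23 t u5 n2
    have u26 := bf fun t => g2309 u4 u24 u15 t u16
    exact s7747 u25 u26 n0 u22
  have s8077 : T.X p b c d = true → T.X p c a b = false → False := fun n0 n1 => by
    have u0 := bf fun t => g46 n0 t
    have u1 := bf fun t => s7278 t n0 n1
    have u2 := bf fun t => g6485 w8069 u1 t
    have u3 := bf fun t => s8075 t n0 n1
    have u4 := bf fun t => g6562 w8071 t u3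
    have u5 := bt fun t => g6504 w8067 u4 t
    have u6 := bt fun t => g1554 t u4 u2
    have u7 := bf fun t => g2279 t u5
    have u8 := bf fun t => s6750 u5 t
    have u9 := bt fun t => g6493 t u1 u5
    have u10 := bt fun t => g6510 t u6 u7
    have u11 := bf fun t => g6692 t u8
    have u12 := bf fun t => s7082 t u9 n1
    have u13 := bt fun t => s6874 t u9 n1
    have u14 := bf fun t => s7274 t u10 n0
    have u15 := bf fun t => s7072 t u9 u12
    have u16 := bt fun t => s7987 t u13
    have u17 := bt fun t => g6699 t u16 u11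
    have u18 := bf fun t => g6701 t u17
    have u19 := bt fun t => g2303 u5 u15 n0 u18 t
    have u20 := bf fun t => g4936 u15 t u0 u18 u19
    have u21 := bf fun t => s8076 t n0 n1
    have u22 := bt fun t => s7288 u21 u12 u18 u6 t
    have u23 := bf fun t => s6789 t u14 u22 w8067
    have u24 := bt fun t => s7563 t u22 u20 u14
    have u25 := bf fun t => s7143 t u23 w8067
    exact s8004 u25 u24 u18 n0 u9 u6 u5 u22 n1
  have s8078 : T.X p d a b = false → T.X p c a b = false → False := fun n0 n1 => by
    have u0 := bf fun t => s8077 t n1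
    have u1 := bf fun t => g6660 t u0
    have u2 := bt fun t => s7985 t u1
    have u3 := bt fun t => s7982 t u2
    have u4 := bf fun t => s6965 t u3 n1
    have u5 := bf fun t => s7271 t u0 n0 n1
    have u6 := bt fun t => g6474 t w8067 u5
    have u7 := bf fun t => g6514 u4 t u5
    have u8 := bf fun t => g288 u6 t
    have u9 := bf fun t => g289 u6 t
    have u10 := bt fun t => s6966 u7 t
    have u11 := bf fun t => g6477 u8 w8068 t
    have u12 := bf fun t => g6406 u9 t w8071
    have u13 := bf fun t => g6590 u11 t w8072
    have u14 := bt fun t => g649 u4 t u12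
    have u15 := bf fun t => s7178 u14 t n1
    have u16 := bt fun t => s8027 u14 t u11 u0 n1 w8069 n0
    have u17 := bf fun t => s7168 t u15 u14
    have u18 := bt fun t => g6485 w8069 t u16
    have u19 := bt fun t => g6566 w8070 u16 t
    have u20 := bt fun t => s8008 t u13 u18 n1
    have u21 := bf fun t => s7342 u19 t
    have u22 := bt fun t => s7333 t u19 u15
    have u23 := bt fun t => s7382 u17 t u20 u0
    have u24 := bt fun t => s7171 t u21 n1 u14
    have u25 := bf fun t => s7775 t u15 u22
    have u26 := bf fun t => g5976 u24 t u22 u23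
    exact s7220 u25 u26 n0 u10
  have s8079 : T.alt p a r c d = false → T.X p c a b = false → False := fun n0 n1 => by
    have u0 := bt fun t => s8078 t n1
    have u1 := bf fun t => s7279 u0 t n1
    have u2 := bf fun t => s8077 t n1
    have u3 := bf fun t => s7266 u0 t n1 u2
    have u4 := bt fun t => g1011 t u3 u1
    have u5 := bf fun t => g6471 t w8067 u4
    have u6 := bf fun t => s6943 t u5 n1
    have u7 := bt fun t => s7990 u0 t
    have u8 := bt fun t => g6712 u7 w8067 t
    have u9 := bt fun t => s7141 t w8067 u0
    have u10 := bf fun t => g67 u9 t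
    have u11 := bt fun t => s7136 u10 u8 w8067 t
    have u12 := bf fun t => g37 t u11
    have u13 := bf fun t => g20 t u8
    have u14 := bf fun t => g6485 w8069 u1 t
    have u15 := bf fun t => g6691 t u2
    have u16 := bf fun t => g6476 t w8068 n0
    have u17 := bt fun t => g1554 n0 t u14
    have u18 := bt fun t => g6508 u4 n0 t
    have u19 := bt fun t => g287 u5 u16 t
    have u20 := bf fun t => s7103 t u19 n1
    have u21 := bt fun t => s6844 t n1 u19
    have u22 := bt fun t => s7987 t u21
    have u23 := bt fun t => g6699 t u22 u15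
    have u24 := bf fun t => g6701 t u23
    have u25 := bt fun t => g2384 u18 u11 u2 t u24
    have u26 := bt fun t => g1576 u17 u6 u8 u24 t
    have u27 := bf fun t => g48 u25 t
    have u28 := bt fun t => s7939 u20 t u9 u26
    have u29 := bf fun t => s7739 t u13 u26 u6
    have u30 := bt fun t => g2363 u18 t u12 u27 u29 u28
    exact g5008 u30 u11 u25 u24 u29 u28
  have s8080 : T.X p c a b = false → False := fun n0 => by
    have u0 := bf fun t => s8077 t n0
    have u1 := bf fun t => g6660 t u0
    have u2 := bt fun t => s7985 t u1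
    have u3 := bt fun t => s7982 t u2
    have u4 := bf fun t => s6965 t u3 n0
    have u5 := bt fun t => s8078 t n0
    have u6 := bf fun t => s7279 u5 t n0
    have u7 := bf fun t => s7266 u5 t n0 u0
    have u8 := bf fun t => g6525 w8037 u6 t
    have u9 := bt fun t => g1011 t u7 u6
    have u10 := bf fun t => g6497 w8068 u7 t
    have u11 := bf fun t => g6541 u4 u8 t
    have u12 := bt fun t => g6513 u4 t u9
    have u13 := bf fun t => g6604 t u10 u11
    have u14 := bf fun t => s7988 u12 t
    have u15 := bf fun t => s8024 u12 t u0 u4 n0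
    have u16 := bt fun t => s7239 t u12 u5
    have u17 := bf fun t => g6608 t u13 w8072
    have u18 := bt fun t => s7244 t u14 u5 u12
    have u19 := bf fun t => s7689 u16 u18 t
    have u20 := bt fun t => s8079 t n0
    have u21 := bf fun t => g1555 u20 t
    have u22 := bt fun t => g6477 t w8068 u20
    have u23 := bt fun t => g6588 u20 t w8072
    have u24 := bt fun t => g6504 w8067 u21 t
    have u25 := bt fun t => g6416 u22 t u17
    have u26 := bt fun t => s7323 t u18 u23
    have u27 := bt fun t => g6602 u17 u24 t
    have u28 := bt fun t => s7171 t u15 n0 u25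
    have u29 := bt fun t => s7349 t u19 u27 u0
    exact g5976 u28 u16 u26 u29
  have w8080 := bt s8080
  have s8082 := fun (n0 : T.X p b a c = true) => g9 n0 w8080
  have w8082 := bf s8082
  have s8084 : T.alt p a s b c = true → T.X p d b c = false → T.alt p a d b c = false → T.X p b c d = false → False := fun n0 n1 n2 n3 => by
    have u0 := bf fun t => g6660 t n3
    have u1 := bt fun t => s7985 t u0
    have u2 := bt fun t => s7982 t u1
    have u3 := bt fun t => s6822 t u2 n0 w8080
    have u4 := bt fun t => g6532 n0 n2 t
    have u5 := bf fun t => g40 u3 t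
    have u6 := bf fun t => s7357 t u4 n3
    have u7 := bt fun t => s7347 u5 t n1 u4 u6
    exact s7831 u7 u5 u6 n3
  have s8086 : T.alt p a s b c = true → T.alt p a d b c = false → T.X p b c d = false → False := fun n0 n1 n2 => by
    have u0 := bf fun t => g6660 t n2
    have u1 := bt fun t => s7985 t u0
    have u2 := bt fun t => s7982 t u1
    have u3 := bt fun t => s6822 t u2 n0 w8080
    have u4 := bt fun t => g6532 n0 n1 t
    have u5 := bt fun t => s8084 n0 t n1 n2
    exact s7358 u5 u3 u4
  have s8088 : T.X p c a s = true → T.alt p a r c d = true → T.X p b c d = false → False := fun n0 n1 n2 => by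
    have u0 := bf fun t => g6660 t n2
    have u1 := bt fun t => s7985 t u0
    have u2 := bt fun t => s7982 t u1
    have u3 := bf fun t => s8050 t u2 w8080
    have u4 := bf fun t => g1556 n1 t
    have u5 := bf fun t => g6486 w8069 t u4
    have u6 := bf fun t => s8086 t u5 n2
    have u7 := bt fun t => g649 t u6 u3
    have u8 := bt fun t => s7190 t u7 w8080
    have u9 := bf fun t => g71 u8 t
    have u10 := bf fun t => g6529 u3 w8037 t
    have u11 := bf fun t => g6533 u6 u5 t
    have u12 := bt fun t => g2459 u10 u11 t
    have u13 := bt fun t => g6588 n1 t w8072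
    have u14 := bt fun t => g6517 u6 t u13
    have u15 := bf fun t => g6628 t u10 w8072
    have u16 := bt fun t => g6510 t n1 u15
    have u17 := bf fun t => s7272 t u16 w8080
    have u18 := bf fun t => g24 t n0
    have u19 := bt fun t => s7322 n0 t u13
    have u20 := bf fun t => s7629 n0 t u8
    have u21 := bf fun t => g88 u19 t
    have u22 := bt fun t => s7382 u20 t u12 n2
    have u23 := bf fun t => s7778 t u21 u18
    have u24 := bf fun t => s7962 t u9 u21 u22
    exact s7220 u23 u24 u17 u14
  have s8090 : T.alt p a r c d = true → T.X p b c d = false → False := fun n0 n1 => by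
    have u0 := bf fun t => g6660 t n1
    have u1 := bt fun t => s7985 t u0
    have u2 := bt fun t => s7982 t u1
    have u3 := bf fun t => s8050 t u2 w8080
    have u4 := bf fun t => g1556 n0 t
    have u5 := bt fun t => g6477 t w8068 n0
    have u6 := bf fun t => g6486 w8069 t u4
    have u7 := bf fun t => s8086 t u6 n1
    have u8 := bt fun t => g6416 u5 u7 t
    have u9 := bt fun t => g649 t u7 u3
    have u10 := bf fun t => g1918 t u8
    have u11 := bt fun t => g6421 t w8071 u8
    have u12 := bt fun t => s7190 t u9 w8080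
    have u13 := bt fun t => g6428 u9 t u10
    have u14 := bt fun t => s7049 u11 t
    have u15 := bt fun t => s7980 u11 t
    have u16 := bf fun t => g71 u12 t
    have u17 := bf fun t => s7463 t u14 u15
    have u18 := bf fun t => g13 t u15
    have u19 := bf fun t => g15 u15 t
    have u20 := bf fun t => s7056 u15 t u11
    have u21 := bf fun t => s8088 t n0 n1
    have u22 := bt fun t => s7195 t u21 u9 w8080
    have u23 := bf fun t => g1299 u13 u15 t u21
    have u24 := bt fun t => g728 u9 w8082 u22 t u16
    have u25 := bf fun t => g1265 u13 u18 u19 u23 t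
    exact g2081 u8 u20 u17 u24 u25
  have s8092 : T.alt p a d b c = true → T.X a b s c = true → T.X p b c d = false → False := fun n0 n1 n2 => by
    have u0 := bf fun t => g6660 t n2
    have u1 := bt fun t => s7985 t u0
    have u2 := bt fun t => s7982 t u1
    have u3 := bf fun t => s8050 t u2 w8080
    have u4 := bf fun t => g1014 t n0
    have u5 := bt fun t => s8052 n1 t n0 n2 u2 w8080
    exact g6521 u3 u4 u5
  have s8093 : T.X p c a r = false → T.X p b c d = false → False := fun n0 n1 => by
    have u0 := bf fun t => g6660 t n1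
    have u1 := bt fun t => s7985 t u0
    have u2 := bt fun t => s7982 t u1
    have u3 := bf fun t => s8050 t u2 w8080
    have u4 := bf fun t => g6404 t u3 w8071
    have u5 := bf fun t => s8090 t n1
    have u6 := bf fun t => g6476 t w8068 u5
    have u7 := bt fun t => g287 t u6 u4
    have u8 := bt fun t => s7093 t u7 w8080
    have u9 := bf fun t => g65 u8 t
    have u10 := bf fun t => g6529 u3 w8037 t
    have u11 := bf fun t => g6628 t u10 w8072
    have u12 := bf fun t => g6508 t u5 u11
    have u13 := bf fun t => g6691 t n1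
    have u14 := bt fun t => s7098 t n0 u7 w8080
    have u15 := bf fun t => g6703 t u7 n0
    have u16 := bf fun t => g16 t u14
    have u17 := bf fun t => g396 u7 w8082 u14 t
    have u18 := bt fun t => g366 u7 w8082 u14 t u9
    have u19 := bt fun t => g6710 w8080 u15 t
    have u20 := bt fun t => g6674 t u16 u8
    have u21 := bt fun t => g6709 u19 t u3
    have u22 := bt fun t => g6677 t u20 u17
    have u23 := bt fun t => s7190 t u21 w8080
    have u24 := bt fun t => s7987 t u22
    have u25 := bt fun t => g6699 t u24 u13
    have u26 := bf fun t => g6701 t u25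
    have u27 := bf fun t => s8092 t u23 n1
    have u28 := bf fun t => g6485 w8069 u27 t
    have u29 := bt fun t => g1011 u12 t u27
    have u30 := bt fun t => g1554 u5 t u28
    have u31 := bt fun t => g6500 u7 u28 t
    have u32 := bt fun t => s7268 u29 w8080 t
    have u33 := bt fun t => s7990 u32 t
    have u34 := bt fun t => s7141 t w8067 u32
    have u35 := bt fun t => g6712 u33 w8067 t
    have u36 := bf fun t => g68 u34 t
    have u37 := bf fun t => s7569 t u35 u34
    have u38 := bf fun t => g1565 u30 n0 u35 t
    have u39 := bt fun t => g2418 u31 u18 u37 u26 t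
    exact s7941 u8 u39 u38 u36
  have s8094 : T.alt p a b s c = true → T.X p b c d = false → False := fun n0 n1 => by
    have u0 := bf fun t => g6660 t n1
    have u1 := bt fun t => s7985 t u0
    have u2 := bt fun t => s7982 t u1
    have u3 := bf fun t => s8050 t u2 w8080
    have u4 := bf fun t => g6404 t u3 w8071
    have u5 := bf fun t => s8090 t n1
    have u6 := bf fun t => g6476 t w8068 u5
    have u7 := bt fun t => g287 t u6 u4
    have u8 := bt fun t => s7093 t u7 w8080
    have u9 := bf fun t => g64 u8 t
    have u10 := bt fun t => s8093 t n1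
    have u11 := bt fun t => s7088 u10 u9 t u7
    have u12 := bf fun t => g18 t u10
    have u13 := bf fun t => g17 t u10
    have u14 := bf fun t => g6529 u3 w8037 t
    have u15 := bf fun t => g6628 t u14 w8072
    have u16 := bf fun t => g6508 t u5 u15
    have u17 := bf fun t => g6590 u5 t w8072
    have u18 := bf fun t => g650 n0 t
    have u19 := bt fun t => s7190 t n0 w8080
    have u20 := bf fun t => s6897 t n0 w8080
    have u21 := bt fun t => g6512 n0 t u16
    have u22 := bf fun t => g6391 t u7 n0
    have u23 := bf fun t => g71 u19 t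
    have u24 := bf fun t => s8092 t u19 n1
    have u25 := bt fun t => s7981 u22 t
    have u26 := bf fun t => g6525 w8037 u24 t
    have u27 := bt fun t => g1011 u16 t u24
    have u28 := bt fun t => g6408 u25 u4 t
    have u29 := bt fun t => g6400 u25 u18 t
    have u30 := bt fun t => g1735 u17 t u26
    have u31 := bt fun t => g6540 n0 u26 t
    have u32 := bt fun t => s7268 u27 w8080 t
    have u33 := bf fun t => s8047 t u29 u28 u23 u20 n0 u11 u12 u13
    have u34 := bf fun t => s7311 t u30
    have u35 := bt fun t => s7239 t u21 u32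
    have u36 := bf fun t => g728 n0 w8082 t u33 u23
    have u37 := bt fun t => s7382 u33 t u31 n1
    have u38 := bf fun t => s7779 t u36 u34
    exact s7962 u35 u23 u38 u37
  have s8095 : T.X p b c d = false → False := fun n0 => by
    have u0 := bf fun t => g6660 t n0
    have u1 := bt fun t => s7985 t u0
    have u2 := bt fun t => s7982 t u1
    have u3 := bf fun t => s8050 t u2 w8080
    have u4 := bf fun t => s8094 t n0
    have u5 := bt fun t => g649 u4 t u3
    have u6 := bt fun t => s6822 t u2 u5 w8080
    have u7 := bt fun t => s8086 u5 t n0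
    have u8 := bt fun t => s7174 t u6 u5
    exact s8092 u7 u8 n0
  have w8095 := bt s8095
  have s8098 := fun (n0 : T.alt p a c b d = true) => s7269 w8080 w8095 n0
  have w8098 := bf s8098
  have s8099 := fun (n0 : T.alt p a b c d = true) => s7273 n0 w8080 w8095
  have w8099 := bf s8099
  have s8101 := fun (n0 : T.alt p a d b c = false) => g1011 w8099 w8098 n0
  have w8101 := bt s8101
  have s8103 := fun (n0 : T.alt p a b r c = false) => g6474 n0 w8067 w8099
  have w8103 := bt s8103
  have s8106 := fun (n0 : T.alt p a d s c = false) => g6526 w8037 w8101 n0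
  have w8106 := bt s8106
  have s8109 := fun (n0 : T.alt p a r b c = true) => g288 w8103 n0
  have w8109 := bf s8109
  have s8111 := fun (n0 : T.X a b r c = false) => s7093 n0 w8103 w8080
  have w8111 := bt s8111
  have s8119 := fun (n0 : T.alt p a c b s = true) => s8020 w8106 n0 w8080
  have w8119 := bf s8119
  have s8120 := fun (n0 : T.alt p b c r d = false) => g6494 w8109 w8101 n0
  have w8120 := bt s8120
  have s8122 := fun (n0 : T.X a r b c = true) => g64 w8111 n0
  have w8122 := bf s8122
  have s8125 := fun (n0 : T.bfo p c d b r = true) => s6750 w8120 n0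
  have w8125 := bf s8125
  have s8126 := fun (n0 : v165 = true) => g6692 n0 w8125
  have w8126 := bf s8126
  have s8127 : T.X p c a r = true → False := fun n0 => by
    have u0 := bf fun t => g17 t n0
    have u1 := bt fun t => s7088 n0 w8122 t w8103
    have u2 := bt fun t => g6674 t u0 w8111
    have u3 := bf fun t => g34 t u1
    have u4 := bt fun t => s7022 u1 t w8120 w8095
    have u5 := bt fun t => g6677 t u2 u3
    have u6 := bf fun t => g6701 u4 t
    have u7 := bt fun t => s7987 t u5
    exact g6699 u6 u7 w8126
  have w8127 := bf s8127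
  have s8129 := fun (n0 : T.bfo p a b c r = true) => g6703 n0 w8103 w8127
  have w8129 := bf s8129
  have s8135 := fun (n0 : T.bfo p a b s c = false) => g6710 w8080 w8129 n0
  have w8135 := bt s8135
  have s8137 := fun (n0 : T.alt p a b s c = false) => g6709 w8135 n0 w8119
  have w8137 := bt s8137
  have s8138 := fun (n0 : T.X p s a c = false) => g6707 w8135 w8137 n0
  have w8138 := bt s8138
  have s8140 := fun (n0 : T.alt p a s b c = true) => g650 w8137 n0
  have w8140 := bf s8140
  have s8141 := fun (n0 : T.X a b s c = false) => s7190 n0 w8137 w8080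
  have w8141 := bt s8141
  have s8148 := fun (n0 : T.alt p b c s d = true) => s8022 w8138 w8141 w8106 n0 w8137 w8082
  have w8148 := bf s8148
  exact g6534 w8140 w8101 w8148

end H53P
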