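import Pool.Agent.Lib.H63L.F0
import Pool.Agent.Lib.H63L.G1

/-!
# H63L, chunk F1: FACT 1 for tables (field `fact1`)

The glue of the generated lemmas of G1.lean. Name of the lemmas: `f1_` + (`b` if `s = b`, else `s`) + `c` + `d`,
where a letter `a`, `b`, `r` means that the point coincides with this one.
-/

set_option autoImplicit false

namespace H53P

open H63L

variable {V : Type} {T : Table V} {p : V}

private theorem F1_same {a b c d : Al p} (h : SameE a b d c) : SameE a b c d := by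
  rcases h with h | h
  · exact Or.inr ⟨h.1, h.2⟩
  · exact Or.inl ⟨h.1, h.2⟩

private theorem F1_nx {a b c d : Al p} (h : fnx T p a b c d) : fnx T p a b d c := by
  unfold fnx at *
  rw [T.xs2]
  exact h

/-- the statement is symmetric in `c`, `d`. PROOF. `cr_symm`, `fnx` by `T.xs2`, `slt` by `flt_e` (used with the
edge `ab` and `cd`), `rlt` by `flt_e`. -/
theorem cfg_sw {a b r s c d : Al p} (h : Cfg (cr T p) (fnx T p) (fbe T p) (flt T p) a b r s c d) :
    Cfg (cr T p) (fnx T p) (fbe T p) (flt T p) a b r s d c := by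
  refine ⟨h.ab, h.cd.symm, h.rab, h.rs, h.sab, cr_symm _ _ _ h.scd, F1_nx h.nx,
    fun e => h.diff (F1_same e), ?_, ?_, h.nbd, h.nbc⟩
  · intro hs
    rcases h.sab with e | e
    · exact absurd e hs
    · exact flt_e e.1 h.scd h.nx h.diff (h.slt hs)
  · intro h1 h2
    exact h.rlt (cr_symm _ _ _ h1)
      (flt_e h.rab h1 (F1_nx h.nx) (fun e => h.diff (F1_same e)) h2)

private theorem F1_rlt {a b r s c d : Al p}
    (h : Cfg (cr T p) (fnx T p) (fbe T p) (flt T p) a b r s c d) (ca : c ≠ a) (cb : c ≠ b)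
    (h1 : T.X p r.1 c.1 d.1 = true) (h2 : T.lto p r.1 c.1 d.1 a.1 b.1 = true) : False :=
  h.rlt h1 (Or.inl ⟨sne ca, sne cb, h2⟩)

private theorem F1_rlt' {a b r s c d : Al p}
    (h : Cfg (cr T p) (fnx T p) (fbe T p) (flt T p) a b r s c d) (cab : c = a ∨ c = b)
    (h1 : T.X p r.1 c.1 d.1 = true) (h2 : T.lto p r.1 d.1 c.1 a.1 b.1 = true) : False := by
  refine h.rlt h1 (Or.inr ⟨?_, h2⟩)
  rcases cab with e | e
  · exact Or.inl (congrArg Subtype.val e)
  · exact Or.inr (congrArg Subtype.val e)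

private theorem F1_slt {a b r s c d : Al p}
    (h : Cfg (cr T p) (fnx T p) (fbe T p) (flt T p) a b r s c d) (hsb : s ≠ b) (ca : c ≠ a)
    (cb : c ≠ b) : T.lto p s.1 c.1 d.1 a.1 b.1 = true := by
  rcases h.slt hsb with e | e
  · exact e.2.2
  · rcases e.1 with e1 | e1
    · exact absurd e1 (sne ca)
    · exact absurd e1 (sne cb)

private theorem F1_slt' {a b r s c d : Al p}
    (h : Cfg (cr T p) (fnx T p) (fbe T p) (flt T p) a b r s c d) (hsb : s ≠ b)
    (cab : c = a ∨ c = b) : T.lto p s.1 d.1 c.1 a.1 b.1 = true := by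
  rcases h.slt hsb with e | e
  · rcases cab with e1 | e1
    · exact absurd (congrArg Subtype.val e1) e.1
    · exact absurd (congrArg Subtype.val e1) e.2.1
  · exact e.2

private theorem F1_fin {a r s x : Al p} (xa : x ≠ a) (xr : x ≠ r) (xs : x ≠ s)
    (h : T.alt p r.1 s.1 x.1 a.1 = false → False) : fin' T p a r s x := by
  refine ⟨xa, xr, xs, ?_⟩
  cases e : T.alt p r.1 s.1 x.1 a.1 with
  | true => rfl
  | false => exact (h e).elim

private theorem F1_dich {a r s c d : Al p} (ca : c ≠ a) (cr' : c ≠ r) (cs : c ≠ s) (da : d ≠ a)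
    (dr : d ≠ r) (ds : d ≠ s)
    (h : (T.alt p r.1 s.1 c.1 a.1 = false → T.alt p r.1 s.1 d.1 a.1 = true → False) →
      (T.alt p r.1 s.1 c.1 a.1 = true → T.alt p r.1 s.1 d.1 a.1 = false → False) → False) :
    (fin' T p a r s c ∧ ¬ fin' T p a r s d) ∨ (fin' T p a r s d ∧ ¬ fin' T p a r s c) := by
  cases ec : T.alt p r.1 s.1 c.1 a.1 with
  | true =>
    cases ed : T.alt p r.1 s.1 d.1 a.1 with
    | true =>
      exact (h (fun h1 _ => by rw [ec] at h1; cases h1) (fun _ h1 => by rw [ed] at h1; cases h1)).elim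
    | false =>
      left
      refine ⟨⟨ca, cr', cs, ec⟩, fun hd => ?_⟩
      have := hd.2.2.2
      rw [ed] at this
      cases this
  | false =>
    cases ed : T.alt p r.1 s.1 d.1 a.1 with
    | true =>
      right
      refine ⟨⟨da, dr, ds, ed⟩, fun hc => ?_⟩
      have := hc.2.2.2
      rw [ec] at this
      cases this
    | false =>
      exact (h (fun _ h1 => by rw [ed] at h1; cases h1) (fun h1 _ => by rw [ec] at h1; cases h1)).elim

private theorem F1_na {a r s : Al p} : ¬ fin' T p a r s a := fun h => h.1 rfl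

private theorem F1_nr {a r s : Al p} : ¬ fin' T p a r s r := fun h => h.2.1 rfl

/-- `s = b`, `c = a` -/
private theorem F1_b1 {a b r d : Al p}
    (h : Cfg (cr T p) (fnx T p) (fbe T p) (flt T p) a b r b a d) : fin' T p a r b d := by
  obtain ⟨ra, rb, ba, -, bd⟩ := cfg_ne h
  by_cases dr : d = r
  · subst dr
    exact (f1_bar (T := T) (by simp [a.2.symm, b.2.symm, d.2.symm, sne ba.symm, sne ra.symm, sne rb.symm])
      h.rab h.scd).elim
  · refine F1_fin h.cd.symm dr bd.symm fun h4 => ?_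
    exact f1_bad (T := T) (nd5 ba.symm ra.symm h.cd rb.symm bd (Ne.symm dr)) h.rab h.scd
      (fun h1 h2 => F1_rlt' h (Or.inl rfl) h1 h2)
      (fun h1 h2 => nob_b h.nbd h.rab dr bd.symm h1 h2) h4

/-- `s = b`, `c = r` -/
private theorem F1_b2 {a b r d : Al p}
    (h : Cfg (cr T p) (fnx T p) (fbe T p) (flt T p) a b r b r d) (da : d ≠ a) :
    fin' T p a r b d := by
  obtain ⟨ra, rb, ba, -, bd⟩ := cfg_ne h
  refine F1_fin da h.cd.symm bd.symm fun h4 => ?_
  exact f1_brd (T := T) (nd5 ba.symm ra.symm da.symm rb.symm bd h.cd) h.rab h.scd h.nx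
    (fun h1 h2 => nob_b h.nbd h.rab h.cd.symm bd.symm h1 h2) h4

/-- Case `s = b`. PROOF. `c, d ≠ b` (`cfg_ne`). By `cfg_sw` the coincidences `{c, d} ∩ {a, r}` are: `c = a`,
`d = r` (`f1_bar`: impossible), `c = a` (`f1_bad`), `c = r` (`f1_brd`), none (`f1_bcd`). The point `a` or `r` is not in
the arc, so in these cases the other one is in the arc. -/
theorem fact1_b {a b r c d : Al p} (h : Cfg (cr T p) (fnx T p) (fbe T p) (flt T p) a b r b c d) :
    (fin' T p a r b c ∧ ¬ fin' T p a r b d) ∨ (fin' T p a r b d ∧ ¬ fin' T p a r b c) := by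
  by_cases ca : c = a
  · subst ca
    exact Or.inr ⟨F1_b1 h, F1_na⟩
  by_cases da : d = a
  · subst da
    exact Or.inl ⟨F1_b1 (cfg_sw h), F1_na⟩
  by_cases er : c = r
  · subst er
    exact Or.inr ⟨F1_b2 h da, F1_nr⟩
  by_cases dr : d = r
  · subst dr
    exact Or.inl ⟨F1_b2 (cfg_sw h) ca, F1_nr⟩
  obtain ⟨ra, rb, ba, bc, bd⟩ := cfg_ne h
  refine F1_dich ca er bc.symm da dr bd.symm fun h6 h7 => ?_
  exact f1_bcd (T := T) (nd6 ba.symm ra.symm (Ne.symm ca) (Ne.symm da) rb.symm bc bd (Ne.symm er)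
    (Ne.symm dr) h.cd) h.rab h.scd h.nx (fun h1 h2 => F1_rlt h ca bc.symm h1 h2)
    (fun h1 h2 => nob_b h.nbc h.rab er bc.symm h1 h2)
    (fun h1 h2 => nob_b h.nbd h.rab dr bd.symm h1 h2) h6 h7

/-- `s ≠ b`, `c = a` -/
private theorem F1_s1 {a b r s d : Al p} (hsb : s ≠ b)
    (h : Cfg (cr T p) (fnx T p) (fbe T p) (flt T p) a b r s a d) : fin' T p a r s d := by
  obtain ⟨ra, rb, sa, -, sd⟩ := cfg_ne h
  have hs : cr T p a b s ∧ fbe T p a b r s := by
    rcases h.sab with e | e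
    · exact absurd e hsb
    · exact e
  have db : d ≠ b := fun e => h.diff (Or.inl ⟨rfl, e.symm⟩)
  by_cases dr : d = r
  · subst dr
    exact (f1_sar (T := T) (nd5 h.ab ra.symm sa.symm rb.symm (Ne.symm hsb) h.rs) h.rab hs.1 hs.2
      h.scd (F1_slt' h hsb (Or.inl rfl))).elim
  · refine F1_fin h.cd.symm dr sd.symm fun h7 => ?_
    exact f1_sad (T := T) (nd6 h.ab ra.symm sa.symm h.cd rb.symm (Ne.symm hsb) db.symm h.rs
      (Ne.symm dr) sd) h.rab hs.1 hs.2 h.scd (F1_slt' h hsb (Or.inl rfl))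
      (fun h1 h2 => F1_rlt' h (Or.inl rfl) h1 h2)
      (fun h1 h2 h3 => nob_s h.nbd h.rab hs.1 dr sd.symm h1 h2 h3) h7

/-- `s ≠ b`, `c = b` -/
private theorem F1_s2 {a b r s d : Al p} (hsb : s ≠ b)
    (h : Cfg (cr T p) (fnx T p) (fbe T p) (flt T p) a b r s b d) :
    (fin' T p a r s b ∧ ¬ fin' T p a r s d) ∨ (fin' T p a r s d ∧ ¬ fin' T p a r s b) := by
  obtain ⟨ra, rb, sa, -, sd⟩ := cfg_ne h
  have hs : cr T p a b s ∧ fbe T p a b r s := by
    rcases h.sab with e | e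
    · exact absurd e hsb
    · exact e
  have da : d ≠ a := fun e => h.diff (Or.inr ⟨e.symm, rfl⟩)
  by_cases dr : d = r
  · subst dr
    left
    refine ⟨F1_fin h.ab.symm rb.symm (Ne.symm hsb) fun h5 => ?_, F1_nr⟩
    exact f1_sbr (T := T) (nd5 h.ab ra.symm sa.symm rb.symm (Ne.symm hsb) h.rs) h.rab hs.1 hs.2
      h.scd (F1_slt' h hsb (Or.inr rfl)) h5
  · refine F1_dich h.ab.symm rb.symm (Ne.symm hsb) da dr sd.symm fun h7 h8 => ?_
    exact f1_sbd (T := T) (nd6 h.ab ra.symm sa.symm da.symm rb.symm (Ne.symm hsb) h.cd h.rs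
      (Ne.symm dr) sd) h.rab hs.1 hs.2 h.scd (F1_slt' h hsb (Or.inr rfl))
      (fun h1 h2 => F1_rlt' h (Or.inr rfl) h1 h2)
      (fun h1 h2 h3 => nob_s h.nbd h.rab hs.1 dr sd.symm h1 h2 h3) h7 h8

/-- `s ≠ b`, `c = r` -/
private theorem F1_s3 {a b r s d : Al p} (hsb : s ≠ b)
    (h : Cfg (cr T p) (fnx T p) (fbe T p) (flt T p) a b r s r d) (da : d ≠ a) (db : d ≠ b) :
    fin' T p a r s d := by
  obtain ⟨ra, rb, sa, -, sd⟩ := cfg_ne h
  have hs : cr T p a b s ∧ fbe T p a b r s := by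
    rcases h.sab with e | e
    · exact absurd e hsb
    · exact e
  refine F1_fin da h.cd.symm sd.symm fun h7 => ?_
  exact f1_srd (T := T) (nd6 h.ab ra.symm sa.symm da.symm rb.symm (Ne.symm hsb) db.symm h.rs
    h.cd sd) h.rab hs.1 hs.2 h.scd h.nx (F1_slt h hsb ra rb)
    (fun h1 h2 h3 => nob_s h.nbd h.rab hs.1 h.cd.symm sd.symm h1 h2 h3) h7

/-- Case `s ≠ b`. PROOF. As `fact1_b`: coincidences (up to `cfg_sw`) `c = a, d = r` (`f1_sar`); `c = b, d = r`
(`f1_sbr`: `b` is in the arc); `c = a, d = b` is excluded by `diff`; `c = a` (`f1_sad`), `c = b` (`f1_sbd`),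
`c = r` (`f1_srd`), none (`f1_scd`). In `slt`, `rlt` the form of `T.lte` is: if `c ∈ {a, b}` then
`T.lto p s d c a b`. -/
theorem fact1_s {a b r s c d : Al p} (hsb : s ≠ b)
    (h : Cfg (cr T p) (fnx T p) (fbe T p) (flt T p) a b r s c d) :
    (fin' T p a r s c ∧ ¬ fin' T p a r s d) ∨ (fin' T p a r s d ∧ ¬ fin' T p a r s c) := by
  by_cases ca : c = a
  · subst ca
    exact Or.inr ⟨F1_s1 hsb h, F1_na⟩
  by_cases da : d = a
  · subst da
    exact Or.inl ⟨F1_s1 hsb (cfg_sw h), F1_na⟩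
  by_cases cb : c = b
  · subst cb
    exact F1_s2 hsb h
  by_cases db : d = b
  · subst db
    exact Or.symm (F1_s2 hsb (cfg_sw h))
  by_cases er : c = r
  · subst er
    exact Or.inr ⟨F1_s3 hsb h da db, F1_nr⟩
  by_cases dr : d = r
  · subst dr
    exact Or.inl ⟨F1_s3 hsb (cfg_sw h) ca cb, F1_nr⟩
  obtain ⟨ra, rb, sa, sc, sd⟩ := cfg_ne h
  have hs : cr T p a b s ∧ fbe T p a b r s := by
    rcases h.sab with e | e
    · exact absurd e hsb
    · exact e
  refine F1_dich ca er sc.symm da dr sd.symm fun h9 h10 => ?_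
  have n6 := nd6 (a := p) h.ab ra.symm sa.symm (Ne.symm ca) rb.symm (Ne.symm hsb) (Ne.symm cb) h.rs
    (Ne.symm er) sc
  exact f1_scd (T := T) (nd7 n6 (Ne.symm da) (Ne.symm db) (Ne.symm dr) sd h.cd) h.rab hs.1 hs.2
    h.scd h.nx (F1_slt h hsb ca cb) (fun h1 h2 => F1_rlt h ca cb h1 h2)
    (fun h1 h2 h3 => nob_s h.nbc h.rab hs.1 er sc.symm h1 h2 h3)
    (fun h1 h2 h3 => nob_s h.nbd h.rab hs.1 dr sd.symm h1 h2 h3) h9 h10

theorem fact1_t {a b r s c d : Al p} (h : Cfg (cr T p) (fnx T p) (fbe T p) (flt T p) a b r s c d) :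
    (fin' T p a r s c ∧ ¬ fin' T p a r s d) ∨ (fin' T p a r s d ∧ ¬ fin' T p a r s c) := by
  by_cases hsb : s = b
  · subst hsb
    exact fact1_b h
  · exact fact1_s hsb h

end H53P
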