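import Pool.Agent.Lib.H63L.F0
import Pool.Agent.Lib.H63L.G2

/-!
# H63L, chunk F2: FACT 2 for tables (field `fact2`)

The glue of the generated lemmas of G2.lean. Name of the lemmas: `f2_` + (`b` if `s = b`, else `s`) + `c` + `d` + `x`,
where a letter `a`, `b`, `r` means that the point coincides with this one. `c ∉ {a, r, s}`, `x ∉ {c, d, s}`.
-/

set_option autoImplicit false

namespace H53P

open H63L

variable {V : Type} {T : Table V} {p : V}

private theorem F2_alt {a r s x : Al p} (h : ¬ fin' T p a r s x) (xa : x ≠ a) (xr : x ≠ r)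
    (xs : x ≠ s) : T.alt p r.1 s.1 x.1 a.1 = false := by
  cases e : T.alt p r.1 s.1 x.1 a.1 with
  | true => exact (h ⟨xa, xr, xs, e⟩).elim
  | false => rfl

private theorem F2_sw {c d x : Al p} (h : cr T p d c x) : T.X p x.1 c.1 d.1 = true := by
  have h1 : T.X p x.1 d.1 c.1 = true := h
  rw [T.xs2] at h1
  exact h1

private theorem F2_rlt {a b r s c d : Al p}
    (h : Cfg (cr T p) (fnx T p) (fbe T p) (flt T p) a b r s c d) (ca : c ≠ a) (cb : c ≠ b)
    (h1 : T.X p r.1 c.1 d.1 = true) (h2 : T.lto p r.1 c.1 d.1 a.1 b.1 = true) : False :=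
  h.rlt h1 (Or.inl ⟨sne ca, sne cb, h2⟩)

private theorem F2_rlt' {a b r s d : Al p}
    (h : Cfg (cr T p) (fnx T p) (fbe T p) (flt T p) a b r s b d)
    (h1 : T.X p r.1 b.1 d.1 = true) (h2 : T.lto p r.1 d.1 b.1 a.1 b.1 = true) : False :=
  h.rlt h1 (Or.inr ⟨Or.inr rfl, h2⟩)

private theorem F2_slt {a b r s c d : Al p}
    (h : Cfg (cr T p) (fnx T p) (fbe T p) (flt T p) a b r s c d) (hsb : s ≠ b) (ca : c ≠ a)
    (cb : c ≠ b) : T.lto p s.1 c.1 d.1 a.1 b.1 = true := by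
  rcases h.slt hsb with e | e
  · exact e.2.2
  · rcases e.1 with e1 | e1
    · exact absurd e1 (sne ca)
    · exact absurd e1 (sne cb)

private theorem F2_slt' {a b r s d : Al p}
    (h : Cfg (cr T p) (fnx T p) (fbe T p) (flt T p) a b r s b d) (hsb : s ≠ b) :
    T.lto p s.1 d.1 b.1 a.1 b.1 = true := by
  rcases h.slt hsb with e | e
  · exact absurd rfl e.2.1
  · exact e.2

private theorem F2_nd8 {x y z w s t u : Al p} (h : [p, x.1, y.1, z.1, w.1, s.1, t.1].Nodup)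
    (h1 : x ≠ u) (h2 : y ≠ u) (h3 : z ≠ u) (h4 : w ≠ u) (h5 : s ≠ u) (h6 : t ≠ u) :
    [p, x.1, y.1, z.1, w.1, s.1, t.1, u.1].Nodup := by
  have e : [p, x.1, y.1, z.1, w.1, s.1, t.1, u.1] = [p, x.1, y.1, z.1, w.1, s.1, t.1] ++ [u.1] := rfl
  rw [e, List.nodup_append]
  refine ⟨h, by simp, ?_⟩
  intro q hq q' hq'
  simp only [List.mem_singleton] at hq'
  subst hq'
  simp only [List.mem_cons, List.not_mem_nil, or_false] at hq
  rcases hq with rfl | rfl | rfl | rfl | rfl | rfl | rfl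
  · exact u.2.symm
  · exact sne h1
  · exact sne h2
  · exact sne h3
  · exact sne h4
  · exact sne h5
  · exact sne h6

/-- Case `s = b`: `c ∉ {a, b, r}`, `d ∈ {a, r}` or new, `x ∈ {a, r}` or new. PROOF. Suppose `x` is not in the
arc: `x = a`, `x = r` or `T.alt p r b x a = false`. Lemmas `f2_bcar`, `f2_bcax`, `f2_bcra`, `f2_bcrx`, `f2_bcda`,
`f2_bcdr`, `f2_bcdx`. -/
theorem fact2_b {a b r c d x : Al p} (h : Cfg (cr T p) (fnx T p) (fbe T p) (flt T p) a b r b c d)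
    (hc : fin' T p a r b c) (hd : ¬ fin' T p a r b d) (hx : x ≠ b) (h1 : cr T p d c x)
    (h2 : fbe T p d c b x) (hn : NoB (cr T p) (fbe T p) a b r b x) : fin' T p a r b x := by
  by_contra hf
  obtain ⟨ra, rb, ba, bc, bd⟩ := cfg_ne h
  obtain ⟨ca, er, cb, h4⟩ := hc
  have dx := cr_ne h1
  have xd : x ≠ d := dx.2.1
  have xc : x ≠ c := dx.2.2
  have hX := F2_sw h1
  have hR : T.X p r.1 c.1 d.1 = true → T.lto p r.1 c.1 d.1 a.1 b.1 = true → False :=
    fun e1 e2 => F2_rlt h ca cb e1 e2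
  have hC : T.X p c.1 a.1 b.1 = true → T.bfo p a.1 b.1 c.1 r.1 = false → False :=
    fun e1 e2 => nob_b h.nbc h.rab er cb e1 e2
  by_cases da : d = a
  · subst da
    by_cases xr : x = r
    · subst xr
      exact f2_bcar T (nd5 ba.symm ra.symm h.cd.symm rb.symm bc (Ne.symm er)) h.rab h.scd hR hC h4 hX h2
    · exact f2_bcax T (nd6 ba.symm ra.symm h.cd.symm xd.symm rb.symm bc hx.symm (Ne.symm er)
        (Ne.symm xr) xc.symm) h.rab h.scd hR hC (fun e1 e2 => nob_b hn h.rab xr hx e1 e2) h4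
        (F2_alt hf xd xr hx) hX h2
  by_cases dr : d = r
  · subst dr
    by_cases xa : x = a
    · subst xa
      exact f2_bcra T (nd5 ba.symm ra.symm (Ne.symm ca) rb.symm bc (Ne.symm er)) h.rab h.scd h.nx hC h4 hX h2
    · exact f2_bcrx T (nd6 ba.symm ra.symm (Ne.symm ca) (Ne.symm xa) rb.symm bc hx.symm (Ne.symm er)
        xd.symm xc.symm) h.rab h.scd h.nx hC (fun e1 e2 => nob_b hn h.rab xd hx e1 e2) h4
        (F2_alt hf xa xd hx) hX h2
  have hD : T.X p d.1 a.1 b.1 = true → T.bfo p a.1 b.1 d.1 r.1 = false → False :=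
    fun e1 e2 => nob_b h.nbd h.rab dr bd.symm e1 e2
  have h5 := F2_alt hd da dr bd.symm
  have n6 := nd6 (a := p) ba.symm ra.symm (Ne.symm ca) (Ne.symm da) rb.symm bc bd (Ne.symm er)
    (Ne.symm dr) h.cd
  by_cases xa : x = a
  · subst xa
    exact f2_bcda T n6 h.rab h.scd h.nx hR hC hD h4 h5 hX h2
  by_cases xr : x = r
  · subst xr
    exact f2_bcdr T n6 h.rab h.scd h.nx hR hC hD h4 h5 hX h2
  exact f2_bcdx T (nd7 n6 (Ne.symm xa) hx.symm (Ne.symm xr) xc.symm xd.symm) h.rab h.scd h.nx hR hC hD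
    (fun e1 e2 => nob_b hn h.rab xr hx e1 e2) h4 h5 (F2_alt hf xa xr hx) hX h2

/-- Case `s ≠ b`, `c = b`: `d ∉ {a, b, s}`. PROOF. Lemmas `f2_sbra`, `f2_sbrx`, `f2_sbda`, `f2_sbdr`, `f2_sbdx`. -/
theorem fact2_sb {a b r s d x : Al p} (hsb : s ≠ b)
    (h : Cfg (cr T p) (fnx T p) (fbe T p) (flt T p) a b r s b d)
    (hc : fin' T p a r s b) (hd : ¬ fin' T p a r s d) (hx : x ≠ s) (h1 : cr T p d b x)
    (h2 : fbe T p d b s x) (hn : NoB (cr T p) (fbe T p) a b r s x) : fin' T p a r s x := by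
  by_contra hf
  obtain ⟨ra, rb, sa, -, sd⟩ := cfg_ne h
  obtain ⟨ba, br, bs, h4⟩ := hc
  have hs : cr T p a b s ∧ fbe T p a b r s := by
    rcases h.sab with e | e
    · exact absurd e hsb
    · exact e
  have dx := cr_ne h1
  have xd : x ≠ d := dx.2.1
  have xb : x ≠ b := dx.2.2
  have hX := F2_sw h1
  have hS := F2_slt' h hsb
  have da : d ≠ a := fun e => h.diff (Or.inr ⟨e.symm, rfl⟩)
  by_cases dr : d = r
  · subst dr
    by_cases xa : x = a
    · subst xa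
      exact f2_sbra T (nd5 h.ab ra.symm sa.symm rb.symm bs h.rs) h.rab hs.1 hs.2 h.scd hS h4 hX h2
    · exact f2_sbrx T (nd6 h.ab ra.symm sa.symm (Ne.symm xa) rb.symm bs xb.symm h.rs xd.symm
        hx.symm) h.rab hs.1 hs.2 h.scd hS (fun e1 e2 e3 => nob_s hn h.rab hs.1 xd hx e1 e2 e3) h4
        (F2_alt hf xa xd hx) hX h2
  have hR : T.X p r.1 b.1 d.1 = true → T.lto p r.1 d.1 b.1 a.1 b.1 = true → False :=
    fun e1 e2 => F2_rlt' h e1 e2
  have hD : T.X p d.1 a.1 b.1 = true → T.bfo p a.1 b.1 d.1 r.1 = false →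
      T.bfo p a.1 b.1 s.1 d.1 = false → False :=
    fun e1 e2 e3 => nob_s h.nbd h.rab hs.1 dr sd.symm e1 e2 e3
  have h5 := F2_alt hd da dr sd.symm
  have n6 := nd6 (a := p) h.ab ra.symm sa.symm da.symm rb.symm bs h.cd h.rs (Ne.symm dr) sd
  by_cases xa : x = a
  · subst xa
    exact f2_sbda T n6 h.rab hs.1 hs.2 h.scd hS hR hD h4 h5 hX h2
  by_cases xr : x = r
  · subst xr
    exact f2_sbdr T n6 h.rab hs.1 hs.2 h.scd hS hR hD h4 h5 hX h2
  exact f2_sbdx T (nd7 n6 (Ne.symm xa) xb.symm (Ne.symm xr) hx.symm xd.symm) h.rab hs.1 hs.2 h.scd hS hR hD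
    (fun e1 e2 e3 => nob_s hn h.rab hs.1 xr hx e1 e2 e3) h4 h5 (F2_alt hf xa xr hx) hX h2

/-- Case `s ≠ b`, `c ≠ b`: PROOF. Lemmas `f2_scab`, `f2_scar`, `f2_scax`, `f2_scba`, `f2_scbr`, `f2_scbx`,
`f2_scra`, `f2_scrb`, `f2_scrx`, `f2_scda`, `f2_scdb`, `f2_scdr`, `f2_scdx`. -/
theorem fact2_sc {a b r s c d x : Al p} (hsb : s ≠ b) (hcb : c ≠ b)
    (h : Cfg (cr T p) (fnx T p) (fbe T p) (flt T p) a b r s c d)
    (hc : fin' T p a r s c) (hd : ¬ fin' T p a r s d) (hx : x ≠ s) (h1 : cr T p d c x)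
    (h2 : fbe T p d c s x) (hn : NoB (cr T p) (fbe T p) a b r s x) : fin' T p a r s x := by
  by_contra hf
  obtain ⟨ra, rb, sa, sc, sd⟩ := cfg_ne h
  obtain ⟨ca, er, cs, h4⟩ := hc
  have hs : cr T p a b s ∧ fbe T p a b r s := by
    rcases h.sab with e | e
    · exact absurd e hsb
    · exact e
  have dx := cr_ne h1
  have xd : x ≠ d := dx.2.1
  have xc : x ≠ c := dx.2.2
  have hX := F2_sw h1
  have hS := F2_slt h hsb ca hcb
  have hR : T.X p r.1 c.1 d.1 = true → T.lto p r.1 c.1 d.1 a.1 b.1 = true → False :=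
    fun e1 e2 => F2_rlt h ca hcb e1 e2
  have hC : T.X p c.1 a.1 b.1 = true → T.bfo p a.1 b.1 c.1 r.1 = false →
      T.bfo p a.1 b.1 s.1 c.1 = false → False :=
    fun e1 e2 e3 => nob_s h.nbc h.rab hs.1 er cs e1 e2 e3
  have n6 := nd6 (a := p) h.ab ra.symm sa.symm (Ne.symm ca) rb.symm (Ne.symm hsb) (Ne.symm hcb) h.rs
    (Ne.symm er) sc
  have hXn : x ≠ r → T.X p x.1 a.1 b.1 = true → T.bfo p a.1 b.1 x.1 r.1 = false →
      T.bfo p a.1 b.1 s.1 x.1 = false → False :=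
    fun xr e1 e2 e3 => nob_s hn h.rab hs.1 xr hx e1 e2 e3
  by_cases da : d = a
  · subst da
    by_cases xb : x = b
    · subst xb
      exact f2_scab T n6 h.rab hs.1 hs.2 h.scd hS hR hC h4 (F2_alt hf xd rb.symm hx) hX h2
    by_cases xr : x = r
    · subst xr
      exact f2_scar T n6 h.rab hs.1 hs.2 h.scd hS hR hC h4 hX h2
    exact f2_scax T (nd7 n6 xd.symm (Ne.symm xb) (Ne.symm xr) hx.symm xc.symm) h.rab hs.1 hs.2 h.scd hS hR hC
      (hXn xr) h4 (F2_alt hf xd xr hx) hX h2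
  by_cases db : d = b
  · subst db
    have h5 := F2_alt hd da rb.symm (Ne.symm hsb)
    by_cases xa : x = a
    · subst xa
      exact f2_scba T n6 h.rab hs.1 hs.2 h.scd hS hR hC h4 h5 hX h2
    by_cases xr : x = r
    · subst xr
      exact f2_scbr T n6 h.rab hs.1 hs.2 h.scd hS hR hC h4 h5 hX h2
    exact f2_scbx T (nd7 n6 (Ne.symm xa) xd.symm (Ne.symm xr) hx.symm xc.symm) h.rab hs.1 hs.2 h.scd hS hR hC
      (hXn xr) h4 h5 (F2_alt hf xa xr hx) hX h2
  by_cases dr : d = r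
  · subst dr
    by_cases xa : x = a
    · subst xa
      exact f2_scra T n6 h.rab hs.1 hs.2 h.scd h.nx hS hC h4 hX h2
    by_cases xb : x = b
    · subst xb
      exact f2_scrb T n6 h.rab hs.1 hs.2 h.scd h.nx hS hC h4 (F2_alt hf xa xd hx) hX h2
    exact f2_scrx T (nd7 n6 (Ne.symm xa) (Ne.symm xb) xd.symm hx.symm xc.symm) h.rab hs.1 hs.2 h.scd h.nx hS hC
      (hXn xd) h4 (F2_alt hf xa xd hx) hX h2
  have hD : T.X p d.1 a.1 b.1 = true → T.bfo p a.1 b.1 d.1 r.1 = false →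
      T.bfo p a.1 b.1 s.1 d.1 = false → False :=
    fun e1 e2 e3 => nob_s h.nbd h.rab hs.1 dr sd.symm e1 e2 e3
  have h5 := F2_alt hd da dr sd.symm
  have n7 := nd7 n6 (Ne.symm da) (Ne.symm db) (Ne.symm dr) sd h.cd
  by_cases xa : x = a
  · subst xa
    exact f2_scda T n7 h.rab hs.1 hs.2 h.scd h.nx hS hR hC hD h4 h5 hX h2
  by_cases xb : x = b
  · subst xb
    exact f2_scdb T n7 h.rab hs.1 hs.2 h.scd h.nx hS hR hC hD h4 h5 (F2_alt hf xa rb.symm hx) hX h2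
  by_cases xr : x = r
  · subst xr
    exact f2_scdr T n7 h.rab hs.1 hs.2 h.scd h.nx hS hR hC hD h4 h5 hX h2
  exact f2_scdx T (F2_nd8 n7 (Ne.symm xa) (Ne.symm xb) (Ne.symm xr) hx.symm xc.symm xd.symm) h.rab hs.1 hs.2
    h.scd h.nx hS hR hC hD (hXn xr) h4 h5 (F2_alt hf xa xr hx) hX h2

theorem fact2_t {a b r s c d x : Al p} (h : Cfg (cr T p) (fnx T p) (fbe T p) (flt T p) a b r s c d)
    (hc : fin' T p a r s c) (hd : ¬ fin' T p a r s d) (hx : x ≠ s) (h1 : cr T p d c x)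
    (h2 : fbe T p d c s x) (hn : NoB (cr T p) (fbe T p) a b r s x) : fin' T p a r s x := by
  by_cases hsb : s = b
  · subst hsb
    exact fact2_b h hc hd hx h1 h2 hn
  · by_cases hcb : c = b
    · subst hcb
      exact fact2_sb hsb h hc hd hx h1 h2 hn
    · exact fact2_sc hsb hcb h hc hd hx h1 h2 hn

end H53P
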