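import Pool.Agent.Lib.H63L.FD

/-!
# H63L, chunk FB: the order of the rays along an edge

PROOF. `bfo = bef` if both rays cross the edge: a statement on five points (`decide +kernel` on the 15 crossings, as
`b_tot` in H98S/RAY.lean, with `T.ax0`, `T.ax1`, `T.ax2` for the alternations; unfold `Table.Ok5`). Then `fbe_t`,
`fbe_a`, `fbe_r` are the fields `tot`, `asymm`, `trans` of `al_ray` (or their proofs there).
-/

set_option autoImplicit false

namespace H53P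

variable {V : Type} {T : Table V} {p : V}

private theorem FB_dec : ∀ b0 b1 b3 b4 b6 b7 b8 b9 b10 b11 b12 b13 b14 : Bool,
    ok5 b0 b1 true b3 b4 true b6 b7 b8 b9 b10 b11 b12 b13 b14 = true →
    (((((b6 ^^ b9) ^^ true) ^^ true) ^^ b12) && b7 ||
      !((((b6 ^^ b9) ^^ true) ^^ true) ^^ b12) && ((((b0 ^^ b11) ^^ b4) ^^ b7) ^^ b14)) =
    ((((b0 ^^ b14) ^^ b11) && ((true ^^ b10) ^^ b7)) ^^ b7) := by
  decide +kernel

theorem Table.bfo_bef {x y w z : V} (h : T.Ok5 p x y w z) (h1 : T.X p w x y = true) (h2 : T.X p z x y = true) :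
    T.bfo p x y w z = T.bef p x y w z := by
  unfold Table.bfo
  rw [T.as2 p x z w y, T.ax0 p x y w z, T.ax2 p x y w z, T.bb p x y w z, h1, h2]
  unfold Table.Ok5 at h
  rw [h1, h2] at h
  exact FB_dec _ _ _ _ _ _ _ _ _ _ _ _ _ h

private theorem FB_eq {x y w z : Al p} (h1 : cr T p x y w) (h2 : cr T p x y z) (hwz : w ≠ z) :
    T.bfo p x.1 y.1 w.1 z.1 = T.bef p x.1 y.1 w.1 z.1 := by
  have d1 := cr_ne h1
  have d2 := cr_ne h2
  exact T.bfo_bef (ok5_i d1.1 d1.2.1.symm d2.2.1.symm d1.2.2.symm d2.2.2.symm hwz) h1 h2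

theorem fbe_t {x y w z : Al p} (h1 : cr T p x y w) (h2 : cr T p x y z) (hwz : w ≠ z) :
    fbe T p x y w z ∨ fbe T p x y z w := by
  unfold fbe
  rw [FB_eq h1 h2 hwz, FB_eq h2 h1 hwz.symm]
  have h := tot_al h1 h2 hwz
  cases e : T.bef p x.1 y.1 w.1 z.1 with
  | true => exact Or.inl rfl
  | false =>
    rw [e] at h
    right
    simpa using h

theorem fbe_a {x y w z : Al p} (h1 : cr T p x y w) (h2 : cr T p x y z) (hwz : w ≠ z) (h : fbe T p x y w z) :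
    ¬ fbe T p x y z w := by
  unfold fbe at h ⊢
  rw [FB_eq h1 h2 hwz] at h
  rw [FB_eq h2 h1 hwz.symm]
  intro h4
  have h3 := tot_al h1 h2 hwz
  rw [h, h4] at h3
  exact absurd h3 (by decide)

theorem fbe_r {x y u w z : Al p} (h1 : cr T p x y u) (h2 : cr T p x y w) (h3 : cr T p x y z) (uw : u ≠ w)
    (wz : w ≠ z) (uz : u ≠ z) (b1 : fbe T p x y u w) (b2 : fbe T p x y w z) : fbe T p x y u z := by
  have d1 := cr_ne h1
  have d2 := cr_ne h2
  have d3 := cr_ne h3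
  unfold fbe at b1 b2 ⊢
  rw [FB_eq h1 h2 uw] at b1
  rw [FB_eq h2 h3 wz] at b2
  rw [FB_eq h1 h3 uz]
  apply bt
  intro b3
  have o1 : T.Ok5 p x.1 y.1 u.1 w.1 := ok5_i d1.1 d1.2.1.symm d2.2.1.symm d1.2.2.symm d2.2.2.symm uw
  have o2 : T.Ok5 p x.1 y.1 w.1 z.1 := ok5_i d1.1 d2.2.1.symm d3.2.1.symm d2.2.2.symm d3.2.2.symm wz
  have o3 : T.Ok5 p x.1 y.1 u.1 z.1 := ok5_i d1.1 d1.2.1.symm d3.2.1.symm d1.2.2.symm d3.2.2.symm uz
  exact trans_f (nd6 d1.1 d1.2.1.symm d2.2.1.symm d3.2.1.symm d1.2.2.symm d2.2.2.symm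
    d3.2.2.symm uw uz wz) (T.okb_i o1 h1 h2 b1) (T.okb_i o2 h2 h3 b2) (T.okn_i o3 h1 h3 b3)

end H53P
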