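import Pool.Agent.Lib.H63L.Defs
import Pool.Agent.Lib.H98S.RAY
import Pool.Agent.Lib.H98S.SP

/-!
# H63L, file FD: the order of the rays along an edge and of the edges along a ray, for tables

All formulas are order free (the rotation at the pole `p` enters only through `T.alt p`).
-/

set_option autoImplicit false

namespace H53P

variable {V : Type} (T : Table V)

/-- both rays `w`, `z` cross `xy`; from `x` the ray `w` comes before the ray `z` -/
def Table.bfo (p x y w z : V) : Bool :=
  (T.alt p x y w z && T.X p w x z) || (!(T.alt p x y w z) && T.alt p x z w y)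

/-- `c` and `r` are on different sides of the triangle `p a b` (parity of the crossings) -/
def Table.ctr (p a b c r : V) : Bool := (T.X c r p a ^^ T.X c r a b) ^^ T.X c r b p

/-- the edges `cd` and `ab` cross the ray `r` and do not cross, `c` is not an end of `ab`; `cd` is nearer to the
pole on the ray `r` than `ab` -/
def Table.lto (p r c d a b : V) : Bool :=
  (T.ctr p a b c r ^^ (T.X p a c d && T.bfo p c d a r)) ^^ (T.X p b c d && T.bfo p c d b r)

/-- the same, with the choice of the end of `cd` -/
def Table.lte (p r c d a b : V) : Prop :=
  (c ≠ a ∧ c ≠ b ∧ T.lto p r c d a b = true) ∨ ((c = a ∨ c = b) ∧ T.lto p r d c a b = true)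

/-- order of the rays along an edge -/
def fbe (T : Table V) (p : V) (x y w z : Al p) : Prop := T.bfo p x.1 y.1 w.1 z.1 = true

/-- two edges do not cross -/
def fnx (T : Table V) (p : V) (a b c d : Al p) : Prop := T.X a.1 b.1 c.1 d.1 = false

/-- order of the edges along a ray -/
def flt (T : Table V) (p : V) (r c d a b : Al p) : Prop := T.lte p r.1 c.1 d.1 a.1 b.1

end H53P
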