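import Pool.Agent.Lib.H63L.GC1
import Pool.Agent.Lib.H63L.GC2
import Pool.Agent.Lib.H63L.GC3
import Pool.Agent.Lib.H63L.GC4

/-!
# H63L, generated lemmas GL: the order of two edges along a ray

Generated resolution proofs (every line is a unit propagation).
-/

set_option linter.unusedVariables false
set_option autoImplicit false

namespace H53P

variable {V : Type} (T : Table V)

include T


theorem fl_e {p r a b c d : V} (hN : [p, r, a, b, c, d].Nodup) (h0 : T.X p r a b = true) (h1 : T.X p r c d = true)
    (h2 : T.X a b c d = false) (h3 : T.lto p r c d a b = true) (h4 : T.lto p r d c a b = false) : False := by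
  obtain ⟨v61, e61⟩ : ∃ v : Bool, v = (T.X p a r c ^^ T.X r c a b) := ⟨_, rfl⟩
  obtain ⟨v62, e62⟩ : ∃ v : Bool, v = (v61 ^^ T.X p b r c) := ⟨_, rfl⟩
  have B63 : T.bfo p c d a r = (bif T.alt p r a c d then T.X p a r c else T.alt p r c a d) :=
    T.bfo_eq (T.as5 p c d a r) (T.xs2 p a c r) (T.as1 p c r a d)
  obtain ⟨v64, e64⟩ : ∃ v : Bool, v = (T.X p a c d && T.bfo p c d a r) := ⟨_, rfl⟩
  have B65 : T.bfo p c d b r = (bif T.alt p r b c d then T.X p b r c else T.alt p r c b d) :=
    T.bfo_eq (T.as5 p c d b r) (T.xs2 p b c r) (T.as1 p c r b d)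
  obtain ⟨v66, e66⟩ : ∃ v : Bool, v = (T.X p b c d && T.bfo p c d b r) := ⟨_, rfl⟩
  obtain ⟨v67, e67⟩ : ∃ v : Bool, v = (v62 ^^ v64) := ⟨_, rfl⟩
  have L68 : T.lto p r c d a b = (v67 ^^ v66) :=
    T.lto_eq (T.xs6 c r p a) (T.xs1 c r a b) (T.xs7 c r b p) rfl rfl e61 e62 e64 e67 e66
  obtain ⟨v69, e69⟩ : ∃ v : Bool, v = (T.X p a r d ^^ T.X r d a b) := ⟨_, rfl⟩
  obtain ⟨v70, e70⟩ : ∃ v : Bool, v = (v69 ^^ T.X p b r d) := ⟨_, rfl⟩
  have B71 : T.bfo p d c a r = (bif T.alt p r a c d then T.X p a r d else T.alt p r d a c) :=
    T.bfo_eq (T.as7 p d c a r) (T.xs2 p a d r) (T.as1 p d r a c)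
  obtain ⟨v72, e72⟩ : ∃ v : Bool, v = (T.X p a c d && T.bfo p d c a r) := ⟨_, rfl⟩
  have B73 : T.bfo p d c b r = (bif T.alt p r b c d then T.X p b r d else T.alt p r d b c) :=
    T.bfo_eq (T.as7 p d c b r) (T.xs2 p b d r) (T.as1 p d r b c)
  obtain ⟨v74, e74⟩ : ∃ v : Bool, v = (T.X p b c d && T.bfo p d c b r) := ⟨_, rfl⟩
  obtain ⟨v75, e75⟩ : ∃ v : Bool, v = (v70 ^^ v72) := ⟨_, rfl⟩
  have L76 : T.lto p r d c a b = (v75 ^^ v74) :=
    T.lto_eq (T.xs6 d r p a) (T.xs1 d r a b) (T.xs7 d r b p) (T.xs2 p a d c) (T.xs2 p b d c) e69 e70 e72 e75 e74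
  have k0 : T.Ok5 p r a b c := T.n5 hN (.cons_cons _ (.cons_cons _ (.cons_cons _ (.cons_cons _ (.cons_cons _ (List.nil_sublist _))))))
  have k1 : T.Ok5 p r a b d := T.n5 hN (.cons_cons _ (.cons_cons _ (.cons_cons _ (.cons_cons _ (.cons _ (.cons_cons _ (List.nil_sublist _)))))))
  have k2 : T.Ok5 p r a c d := T.n5 hN (.cons_cons _ (.cons_cons _ (.cons_cons _ (.cons _ (.cons_cons _ (.cons_cons _ (List.nil_sublist _)))))))
  have k3 : T.Ok5 p r b c d := T.n5 hN (.cons_cons _ (.cons_cons _ (.cons _ (.cons_cons _ (.cons_cons _ (.cons_cons _ (List.nil_sublist _)))))))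
  have k4 : T.Ok5 p a b c d := T.n5 hN (.cons_cons _ (.cons _ (.cons_cons _ (.cons_cons _ (.cons_cons _ (.cons_cons _ (List.nil_sublist _)))))))
  have k5 : T.Ok5 r a b c d := T.n5 hN (.cons _ (.cons_cons _ (.cons_cons _ (.cons_cons _ (.cons_cons _ (.cons_cons _ (List.nil_sublist _)))))))
  have sp0 : T.Sp5 p r a b c d := T.sp5 hN (.cons_cons _ (.cons_cons _ (.cons_cons _ (.cons_cons _ (.cons_cons _ (.cons_cons _ (List.nil_sublist _)))))))
  have g1 := T.q01 p r a b
  have g2 := T.q02 p r a b
  have g4 := T.q01 p r a c
  have g6 := T.q12 p r a c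
  have g7 := T.q01 p r a d
  have g9 := T.q12 p r a d
  have g10 := T.q01 p r b c
  have g11 := T.q02 p r b c
  have g12 := T.q12 p r b c
  have g13 := T.q01 p r b d
  have g15 := T.q12 p r b d
  have g16 := T.q01 p r c d
  have g17 := T.q02 p r c d
  have g22 := T.q01 p a b d
  have g24 := T.q12 p a b d
  have g25 := T.q01 p a c d
  have g26 := T.q02 p a c d
  have g28 := T.q01 p b c d
  have g29 := T.q02 p b c d
  have g32 := T.q02 r a b c
  have g33 := T.q12 r a b c
  have g35 := T.q02 r a b d
  have g36 := T.q12 r a b d
  have g37 := T.q01 r a c d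
  have g38 := T.q02 r a c d
  have g39 := T.q12 r a c d
  have g40 := T.q01 r b c d
  have g41 := T.q02 r b c d
  have g42 := T.q12 r b c d
  have g46 := T.ae1 k0
  have g47 := T.ae01 k0
  have g48 := T.ae02 k0
  have g49 := T.ae12 k0
  have g61 := fun ha : T.alt p r b a c = true => zA1_9482_0 (T.okA1 k0 ha)
  have g74 := fun ha : T.alt p r b a c = true => zA1_18561_1 (T.okA1 k0 ha)
  have g84 := fun ha : T.alt p r b a c = true => zA1_16401_17 (T.okA1 k0 ha)
  have g87 := fun ha : T.alt p r b a c = true => zA1_294_32 (T.okA1 k0 ha)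
  have g96 := fun ha : T.alt p r b a c = true => zA1_1168_1040 (T.okA1 k0 ha)
  have g98 := fun ha : T.alt p r b a c = true => zA1_2305_257 (T.okA1 k0 ha)
  have g100 := fun ha : T.alt p r b a c = true => zA1_18560_2176 (T.okA1 k0 ha)
  have g101 := fun ha : T.alt p r b a c = true => zA1_18577_16513 (T.okA1 k0 ha)
  have g102 := fun ha : T.alt p r b a c = true => zA1_18577_18433 (T.okA1 k0 ha)
  have g130 := fun ha : T.alt p r a b c = true => zA0_9226_8 (T.okA0 k0 ha)
  have g133 := fun ha : T.alt p r a b c = true => zA0_18449_1 (T.okA0 k0 ha)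
  have g143 := fun ha : T.alt p r a b c = true => zA0_16513_129 (T.okA0 k0 ha)
  have g146 := fun ha : T.alt p r a b c = true => zA0_294_256 (T.okA0 k0 ha)
  have g157 := fun ha : T.alt p r a b c = true => zA0_2081_33 (T.okA0 k0 ha)
  have g159 := fun ha : T.alt p r a b c = true => zA0_18448_2064 (T.okA0 k0 ha)
  have g160 := fun ha : T.alt p r a b c = true => zA0_18577_16401 (T.okA0 k0 ha)
  have g161 := fun ha : T.alt p r a b c = true => zA0_18577_18433 (T.okA0 k0 ha)
  have g198 := fun ha : T.alt p r c a b = true => zA2_16401_17 (T.okA2 k0 ha)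
  have g200 := fun ha : T.alt p r c a b = true => zA2_16513_129 (T.okA2 k0 ha)
  have g206 := fun ha : T.alt p r c a b = true => zA2_18577_16385 (T.okA2 k0 ha)
  have g215 := fun ha : T.alt p r c a b = true => zA2_150_144 (T.okA2 k0 ha)
  have g227 := T.ae1 k1
  have g228 := T.ae01 k1
  have g229 := T.ae02 k1
  have g230 := T.ae12 k1
  have g242 := fun ha : T.alt p r b a d = true => zA1_9482_0 (T.okA1 k1 ha)
  have g255 := fun ha : T.alt p r b a d = true => zA1_18561_1 (T.okA1 k1 ha)
  have g265 := fun ha : T.alt p r b a d = true => zA1_16401_17 (T.okA1 k1 ha)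
  have g268 := fun ha : T.alt p r b a d = true => zA1_294_32 (T.okA1 k1 ha)
  have g274 := fun ha : T.alt p r b a d = true => zA1_1176_128 (T.okA1 k1 ha)
  have g277 := fun ha : T.alt p r b a d = true => zA1_1168_1040 (T.okA1 k1 ha)
  have g279 := fun ha : T.alt p r b a d = true => zA1_2305_257 (T.okA1 k1 ha)
  have g282 := fun ha : T.alt p r b a d = true => zA1_18577_16513 (T.okA1 k1 ha)
  have g283 := fun ha : T.alt p r b a d = true => zA1_18577_18433 (T.okA1 k1 ha)
  have g301 := fun ha : T.alt p r a b d = true => zA0_4708_0 (T.okA0 k1 ha)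
  have g314 := fun ha : T.alt p r a b d = true => zA0_18449_1 (T.okA0 k1 ha)
  have g324 := fun ha : T.alt p r a b d = true => zA0_16513_129 (T.okA0 k1 ha)
  have g327 := fun ha : T.alt p r a b d = true => zA0_294_256 (T.okA0 k1 ha)
  have g338 := fun ha : T.alt p r a b d = true => zA0_2081_33 (T.okA0 k1 ha)
  have g341 := fun ha : T.alt p r a b d = true => zA0_18577_16401 (T.okA0 k1 ha)
  have g342 := fun ha : T.alt p r a b d = true => zA0_18577_18433 (T.okA0 k1 ha)
  have g378 := fun ha : T.alt p r d a b = true => zA2_18433_2049 (T.okA2 k1 ha)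
  have g379 := fun ha : T.alt p r d a b = true => zA2_16401_17 (T.okA2 k1 ha)
  have g381 := fun ha : T.alt p r d a b = true => zA2_16513_129 (T.okA2 k1 ha)
  have g387 := fun ha : T.alt p r d a b = true => zA2_18577_16385 (T.okA2 k1 ha)
  have g391 := fun ha : T.alt p r d a b = true => zA2_2089_2049 (T.okA2 k1 ha)
  have g393 := fun ha : T.alt p r d a b = true => zA2_164_160 (T.okA2 k1 ha)
  have g396 := fun ha : T.alt p r d a b = true => zA2_150_144 (T.okA2 k1 ha)
  have g397 := fun ha : T.alt p r d a b = true => zA2_1160_136 (T.okA2 k1 ha)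
  have g408 := T.ae1 k2
  have g409 := T.ae01 k2
  have g410 := T.ae02 k2
  have g411 := T.ae12 k2
  have g433 := fun ha : T.alt p r c a d = true => zA1_4676_64 (T.okA1 k2 ha)
  have g452 := fun ha : T.alt p r c a d = true => zA1_1608_64 (T.okA1 k2 ha)
  have g458 := fun ha : T.alt p r c a d = true => zA1_1168_1040 (T.okA1 k2 ha)
  have g492 := fun ha : T.alt p r a c d = true => zA0_9226_8 (T.okA0 k2 ha)
  have g495 := fun ha : T.alt p r a c d = true => zA0_18449_1 (T.okA0 k2 ha)
  have g500 := fun ha : T.alt p r a c d = true => zA0_4672_576 (T.okA0 k2 ha)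
  have g513 := fun ha : T.alt p r a c d = true => zA0_579_576 (T.okA0 k2 ha)
  have g515 := fun ha : T.alt p r a c d = true => zA0_290_34 (T.okA0 k2 ha)
  have g541 := fun ha : T.alt p r d a c = true => zA2_18577_0 (T.okA2 k2 ha)
  have g551 := fun ha : T.alt p r d a c = true => zA2_4704_64 (T.okA2 k2 ha)
  have g560 := fun ha : T.alt p r d a c = true => zA2_16401_17 (T.okA2 k2 ha)
  have g576 := fun ha : T.alt p r d a c = true => zA2_2306_2050 (T.okA2 k2 ha)
  have g589 := T.ae1 k3
  have g590 := T.ae01 k3
  have g591 := T.ae02 k3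
  have g592 := T.ae12 k3
  have g604 := fun ha : T.alt p r c b d = true => zA1_9482_0 (T.okA1 k3 ha)
  have g609 := fun ha : T.alt p r c b d = true => zA1_18576_16 (T.okA1 k3 ha)
  have g614 := fun ha : T.alt p r c b d = true => zA1_4676_64 (T.okA1 k3 ha)
  have g623 := fun ha : T.alt p r c b d = true => zA1_8202_10 (T.okA1 k3 ha)
  have g633 := fun ha : T.alt p r c b d = true => zA1_1608_64 (T.okA1 k3 ha)
  have g639 := fun ha : T.alt p r c b d = true => zA1_1168_1040 (T.okA1 k3 ha)
  have g672 := fun ha : T.alt p r b c d = true => zA0_16529_16 (T.okA0 k3 ha)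
  have g673 := fun ha : T.alt p r b c d = true => zA0_9226_8 (T.okA0 k3 ha)
  have g676 := fun ha : T.alt p r b c d = true => zA0_18449_1 (T.okA0 k3 ha)
  have g679 := fun ha : T.alt p r b c d = true => zA0_18561_2048 (T.okA0 k3 ha)
  have g681 := fun ha : T.alt p r b c d = true => zA0_4672_576 (T.okA0 k3 ha)
  have g694 := fun ha : T.alt p r b c d = true => zA0_579_576 (T.okA0 k3 ha)
  have g722 := fun ha : T.alt p r d b c = true => zA2_18577_0 (T.okA2 k3 ha)
  have g732 := fun ha : T.alt p r d b c = true => zA2_4704_64 (T.okA2 k3 ha)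
  have g741 := fun ha : T.alt p r d b c = true => zA2_16401_17 (T.okA2 k3 ha)
  have g751 := fun ha : T.alt p r d b c = true => zA2_2625_64 (T.okA2 k3 ha)
  have g757 := fun ha : T.alt p r d b c = true => zA2_2306_2050 (T.okA2 k3 ha)
  have g770 := T.ae1 k4
  have g771 := T.ae01 k4
  have g772 := T.ae02 k4
  have g773 := T.ae12 k4
  have g792 := fun ha : T.alt p a c b d = true => zA1_4644_32 (T.okA1 k4 ha)
  have g793 := fun ha : T.alt p a c b d = true => zA1_4704_512 (T.okA1 k4 ha)
  have g795 := fun ha : T.alt p a c b d = true => zA1_4676_64 (T.okA1 k4 ha)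
  have g797 := fun ha : T.alt p a c b d = true => zA1_4196_4 (T.okA1 k4 ha)
  have g809 := fun ha : T.alt p a c b d = true => zA1_4612_516 (T.okA1 k4 ha)
  have g823 := fun ha : T.alt p a c b d = true => zA1_4192_96 (T.okA1 k4 ha)
  have g844 := fun ha : T.alt p a b c d = true => zA0_4708_0 (T.okA0 k4 ha)
  have g861 := fun ha : T.alt p a b c d = true => zA0_4132_36 (T.okA0 k4 ha)
  have g862 := fun ha : T.alt p a b c d = true => zA0_4672_576 (T.okA0 k4 ha)
  have g863 := fun ha : T.alt p a b c d = true => zA0_4164_68 (T.okA0 k4 ha)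
  have g864 := fun ha : T.alt p a b c d = true => zA0_4612_516 (T.okA0 k4 ha)
  have g865 := fun ha : T.alt p a b c d = true => zA0_4192_96 (T.okA0 k4 ha)
  have g866 := fun ha : T.alt p a b c d = true => zA0_4640_544 (T.okA0 k4 ha)
  have g910 := fun ha : T.alt p a d b c = true => zA2_4644_4 (T.okA2 k4 ha)
  have g911 := fun ha : T.alt p a d b c = true => zA2_4676_512 (T.okA2 k4 ha)
  have g913 := fun ha : T.alt p a d b c = true => zA2_4704_64 (T.okA2 k4 ha)
  have g915 := fun ha : T.alt p a d b c = true => zA2_4196_32 (T.okA2 k4 ha)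
  have g927 := fun ha : T.alt p a d b c = true => zA2_4640_544 (T.okA2 k4 ha)
  have g941 := fun ha : T.alt p a d b c = true => zA2_4164_68 (T.okA2 k4 ha)
  have g1004 := z5_18706_2064 k0
  have g1005 := z5_6241_4097 k0
  have g1027 := z5_4756_640 k0
  have g1030 := z5_18596_16416 k0
  have g1047 := z5_2193_2193 k0
  have g1136 := z5_17545_129 k1
  have g1156 := z5_16977_513 k1
  have g1162 := z5_6241_33 k1
  have g1164 := z5_16977_17 k1
  have g1173 := z5_9362_1040 k1
  have g1175 := z5_6241_4097 k1
  have g1185 := z5_18489_18433 k1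
  have g1191 := z5_10505_8193 k1
  have g1197 := z5_4756_640 k1
  have g1198 := z5_4756_4224 k1
  have g1200 := z5_18596_16416 k1
  have g1217 := z5_2193_2193 k1
  have g1312 := z5_4898_4098 k2
  have g1318 := z5_16977_80 k2
  have g1363 := z5_18706_16386 k2
  have g1382 := z5_4728_4672 k2
  have g1391 := z5_4178_4178 k2
  have g1488 := z5_16977_80 k3
  have g1505 := z5_8778_8256 k3
  have g1510 := z5_16977_16448 k3
  have g1513 := z5_9362_1040 k3
  have g1517 := z5_8778_66 k3
  have g1524 := z5_4679_4672 k3
  have g1532 := z5_18706_2050 k3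
  have g1533 := z5_18706_16386 k3
  have g1536 := z5_4756_4112 k3
  have g1552 := z5_4728_4672 k3
  have g1561 := z5_4178_4178 k3
  have g1656 := z5_4898_34 k4
  have g1668 := z5_6241_96 k4
  have g1823 := z5_4898_544 k5
  have g1829 := z5_5196_68 k5
  have g1839 := z5_6241_2112 k5
  have g1875 := z5_4756_516 k5
  have g1906 := z5_612_612 k5
  have g1972 := zsp_73_1 sp0
  have g1973 := zsp_73_64 sp0
  have g1974 := zsp_73_8 sp0
  have g1976 := zsp_530_2 sp0
  have g1977 := zsp_530_512 sp0
  have g1978 := zsp_530_16 sp0
  have g1981 := zsp_1156_1024 sp0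
  have g1982 := zsp_1156_128 sp0
  have g1983 := zsp_2336_2336 sp0
  have g1984 := zsp_2336_32 sp0
  have g1985 := zsp_2336_2048 sp0
  have g1986 := zsp_2336_256 sp0
  have g1988 := zsp_4132_4 sp0
  have g1989 := zsp_4132_4096 sp0
  have g1990 := zsp_4132_32 sp0
  have g1992 := zsp_8450_2 sp0
  have g1993 := zsp_8450_8192 sp0
  have g1994 := zsp_8450_256 sp0
  have g1995 := zsp_16528_16528 sp0
  have g1996 := zsp_16528_16 sp0
  have g1997 := zsp_16528_16384 sp0
  have g1998 := zsp_16528_128 sp0
  have g2000 := zsp_18433_1 sp0
  have g2001 := zsp_18433_16384 sp0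
  have g2002 := zsp_18433_2048 sp0
  have g2004 := zsp_9224_8 sp0
  have g2005 := zsp_9224_8192 sp0
  have g2006 := zsp_9224_1024 sp0
  have g2008 := zsp_4672_64 sp0
  have g2009 := zsp_4672_4096 sp0
  have g2010 := zsp_4672_512 sp0
  have g2011 : T.X p r a b = true := h0
  have g2012 : T.X p r c d = true := h1
  have g2013 : T.X a b c d = false := h2
  have g2014 := xr1 e61
  have g2015 := xr2 e61
  have g2016 := xr3 e61
  have g2017 := xr4 e61
  have g2018 := xr1 e62
  have g2019 := xr2 e62
  have g2020 := xr3 e62
  have g2021 := xr4 e62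
  have g2022 := it1 B63
  have g2023 := it2 B63
  have g2024 := it3 B63
  have g2025 := it4 B63
  have g2026 := an0 e64
  have g2027 := an1 e64
  have g2028 := an2 e64
  have g2029 := it1 B65
  have g2030 := it2 B65
  have g2031 := it3 B65
  have g2032 := it4 B65
  have g2033 := an0 e66
  have g2034 := an1 e66
  have g2035 := an2 e66
  have g2036 := xr1 e67
  have g2037 := xr2 e67
  have g2038 := xr3 e67
  have g2040 := xr1 L68
  have g2041 := xr2 L68
  have g2044 : T.lto p r c d a b = true := h3
  have g2045 := xr1 e69
  have g2046 := xr2 e69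
  have g2047 := xr3 e69
  have g2048 := xr4 e69
  have g2049 := xr1 e70
  have g2050 := xr2 e70
  have g2051 := xr3 e70
  have g2052 := xr4 e70
  have g2053 := it1 B71
  have g2054 := it2 B71
  have g2055 := it3 B71
  have g2056 := it4 B71
  have g2057 := an0 e72
  have g2058 := an1 e72
  have g2059 := an2 e72
  have g2060 := it1 B73
  have g2061 := it2 B73
  have g2062 := it3 B73
  have g2063 := it4 B73
  have g2064 := an0 e74
  have g2065 := an1 e74
  have g2066 := an2 e74
  have g2067 := xr1 e75
  have g2068 := xr2 e75
  have g2069 := xr3 e75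
  have g2070 := xr4 e75
  have g2073 := xr3 L76
  have g2074 := xr4 L76
  have g2075 : T.lto p r d c a b = false := h4
  have s2076 := fun (n0 : T.X p a r b = true) => g1 g2011 n0
  have w2076 := bf s2076
  have s2077 := fun (n0 : T.X p b r a = true) => g2 g2011 n0
  have w2077 := bf s2077
  have s2078 := fun (n0 : T.X p c r d = true) => g16 g2012 n0
  have w2078 := bf s2078
  have s2079 := fun (n0 : T.X p d r c = true) => g17 g2012 n0
  have w2079 := bf s2079
  have s2080 : T.alt p r a c d = false → T.bfo p c d a r = true → T.bfo p d c a r = true → False := fun n0 n1 n2 => by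
    have u0 := bt fun t => g2056 n2 n0 t
    have u1 := bt fun t => g2025 n1 n0 t
    exact g411 u1 u0
  have s2081 : T.bfo p c d a r = true → v72 = true → False := fun n0 n1 => by
    have u0 := bt fun t => g2059 n1 t
    have u1 := bt fun t => g2058 n1 t
    have u2 := bt fun t => s2080 t n0 u0
    have u3 := bt fun t => g500 u2 g2012 u1 t
    have u4 := bt fun t => g2023 n0 u2 t
    have u5 := bt fun t => g2054 u0 u2 t
    exact g1391 u4 u5 g2012 u3
  have s2082 : T.X p a r d = true → T.X p b r d = true → v69 = true → False := fun n0 n1 n2 => by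
    have u0 := bf fun t => g13 t n1
    have u1 := bf fun t => g7 t n0
    have u2 := bf fun t => g2045 n2 n0 t
    have u3 := bt fun t => g1136 g2011 u1 n1 t u2
    have u4 := bt fun t => g1164 g2011 n0 u0 t u2
    exact g22 u4 u3
  have s2084 : T.alt p r a b d = true → T.alt p r c b d = false → T.X p a b d = false → T.X r a b d = false → T.X p r b d = false → T.X p a c d = true → False := fun n0 n1 n2 n3 n4 n5 => by
    have u0 := bt fun t => g2004 n0 n1 t
    have u1 := bt fun t => g301 n0 w2077 t n4 n2 n3
    have u2 := bf fun t => g823 u0 t n5 g2013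
    exact g1162 g2011 u1 n4 u2 n3
  have s2085 : T.alt p r a b d = false → T.alt p r d a b = false → T.alt p r d b c = true → T.X r d a b = true → T.alt p r a c d = false → T.X p a r d = false → T.X p b r d = true → T.X p b c d = true → False := fun n0 n1 n2 n3 n4 n5 n6 n7 => by
    have u0 := bf fun t => g1972 t n0 n4
    have u1 := bt fun t => g227 n0 t n1
    have u2 := bt fun t => g2002 u0 n2 t
    have u3 := bt fun t => g282 u1 g2011 n5 n6 t n3
    exact g927 u2 u3 n7 g2013
  have s2086 : v69 = true → v70 = false → T.bfo p d c a r = true → T.X p a c d = true → v74 = true → False := fun n0 n1 n2 n3 n4 => by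
    have u0 := bt fun t => g2065 n4 t
    have u1 := bf fun t => g862 t n3 u0 g2013
    have u2 := bt fun t => g2066 n4 t
    have u3 := bt fun t => g2051 n1 n0 t
    have u4 := bf fun t => g13 t u3
    have u5 := bf fun t => s2082 t u3 n0
    have u6 := bf fun t => g2054 n2 t u5
    have u7 := bt fun t => g2046 n0 u5 t
    have u8 := bt fun t => g2056 n2 u6 t
    have u9 := bf fun t => g2010 u6 t u1
    have u10 := bf fun t => g35 t u7
    have u11 := bt fun t => g2063 u2 u9 t
    have u12 := bf fun t => g1197 w2077 u5 u3 t u10
    have u13 := bf fun t => g1983 t u8 u11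
    have u14 := bt fun t => s2085 t u13 u11 u7 u6 u5 u3 u0
    have u15 := bf fun t => g592 t u11
    exact s2084 u14 u15 u12 u10 u4 n3
  have s2087 : T.alt p r a b d = true → T.X r d a b = false → T.X p a r d = false → T.alt p r c b d = false → T.X p a c d = true → False := fun n0 n1 n2 n3 n4 => by
    have u0 := bt fun t => g2004 n0 n3 t
    have u1 := bt fun t => g314 n0 g2011 n2 t n1
    exact g823 u0 u1 n4 g2013
  have s2088 : T.X p a r d = false → T.alt p r d a b = false → T.alt p r a c d = false → T.alt p r d b c = true → T.X p b r d = false → v69 = false → T.X p a c d = true → T.X p b c d = true → False := fun n0 n1 n2 n3 n4 n5 n6 n7 => by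
    have u0 := bf fun t => g592 t n3
    have u1 := bf fun t => g2048 n5 n0 t
    have u2 := bf fun t => s2087 t u1 n0 u0 n6
    have u3 := bf fun t => g1972 t u2 n2
    have u4 := bt fun t => g227 u2 t n1
    have u5 := bt fun t => g2002 u3 n3 t
    have u6 := bt fun t => g255 u4 g2011 n4 t u1
    exact g927 u5 u6 n7 g2013
  have s2089 : T.alt p r a b d = false → T.X p b a d = false → T.X r b a d = false → T.X p r a d = false → T.alt p r d a b = false → T.alt p r a c d = false → T.alt p r d b c = true → T.X p b c d = true → False := fun n0 n1 n2 n3 n4 n5 n6 n7 => by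
    have u0 := bf fun t => g1972 t n0 n5
    have u1 := bt fun t => g227 n0 t n4
    have u2 := bt fun t => g2002 u0 n6 t
    have u3 := bt fun t => g242 u1 w2076 n3 t n1 n2
    have u4 := bf fun t => g927 u2 t n7 g2013
    exact g279 u1 g2011 u3 u4
  have s2090 : v72 = true → v75 = true → False := fun n0 n1 => by
    have u0 := bt fun t => g2073 g2075 n1 t
    have u1 := bt fun t => g2066 u0 t
    have u2 := bt fun t => g2065 u0 t
    have u3 := bt fun t => g2058 n0 t
    have u4 := bt fun t => g2059 n0 t
    have u5 := bf fun t => g2067 n1 t n0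
    have u6 := bf fun t => g862 t u3 u2 g2013
    have u7 := bf fun t => s2086 t u5 u4 u3 u0
    have u8 := bf fun t => g2052 u5 u7 t
    have u9 := bf fun t => g2061 u1 t u8
    have u10 := bt fun t => g2063 u1 u9 t
    have u11 := bf fun t => g2008 t u9 u6
    have u12 := bf fun t => g592 t u10
    have u13 := bt fun t => g2056 u4 u11 t
    have u14 := bf fun t => g1983 t u13 u10
    have u15 := bt fun t => s2088 t u14 u11 u10 u8 u7 u3 u2
    have u16 := bf fun t => g7 t u15
    have u17 := bt fun t => g2047 u7 u15 t
    have u18 := bf fun t => g36 t u17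
    have u19 := bf fun t => g1173 w2076 u15 u8 t u18
    have u20 := bt fun t => s2089 t u19 u18 u16 u14 u11 u10 u2
    have u21 := bt fun t => g2004 u20 u12 t
    have u22 := bt fun t => g341 u20 g2011 u15 u8 t u17
    exact g823 u21 u22 u3 g2013
  have s2091 : T.alt p r d b c = true → T.alt p r a b d = true → T.X p d a b = false → T.alt p r d a b = false → v75 = true → False := fun n0 n1 n2 n3 n4 => by
    have u0 := bf fun t => s2090 t n4
    have u1 := bt fun t => g2073 g2075 n4 t
    have u2 := bt fun t => g2065 u1 t
    have u3 := bf fun t => g592 t n0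
    have u4 := bt fun t => g1985 n3 t n0
    have u5 := bt fun t => g2004 n1 u3 t
    have u6 := bf fun t => g410 t u4
    have u7 := bt fun t => g793 u5 n2 t u2 g2013
    have u8 := bt fun t => g2055 t u6 u4
    exact g2057 u0 u7 u8
  have s2092 : T.alt p r a b d = true → T.X p d a b = false → T.alt p r d a b = false → T.X p b r d = true → T.X r d a b = true → v75 = true → False := fun n0 n1 n2 n3 n4 n5 => by
    have u0 := bt fun t => g2073 g2075 n5 t
    have u1 := bt fun t => g2066 u0 t
    have u2 := bt fun t => g2065 u0 t
    have u3 := bf fun t => g228 n0 t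
    have u4 := bf fun t => s2091 t n0 n1 n2 n5
    have u5 := bt fun t => g2063 u1 t u4
    have u6 := bf fun t => g590 u5 t
    have u7 := bt fun t => g681 u5 g2012 u2 t
    have u8 := bt fun t => g1977 t u3 u5
    have u9 := bt fun t => g2004 n0 u6 t
    have u10 := bf fun t => g1561 t n3 g2012 u7
    have u11 := bf fun t => g47 t u8
    have u12 := bt fun t => g793 u9 n1 t u2 g2013
    have u13 := bf fun t => g809 u9 t u2 g2013
    have u14 := bt fun t => g74 u8 g2011 u10 u13 t
    have u15 := bt fun t => g1974 u11 n0 t
    have u16 := bf fun t => g1906 u14 n4 t u7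
    exact g500 u15 g2012 u12 u16
  have s2093 : T.X r c a b = true → v61 = true → T.X p c a b = true → T.alt p r a b c = true → T.X p b r c = false → False := fun n0 n1 n2 n3 n4 => by
    have u0 := bt fun t => g161 n3 g2011 t n4 n2 n0
    exact g2014 n1 u0 n0
  have s2094 : T.alt p r a c d = true → T.alt p r b c d = true → T.X r d a b = true → T.X p a r d = true → v75 = true → False := fun n0 n1 n2 n3 n4 => by
    have u0 := bf fun t => s2090 t n4
    have u1 := bt fun t => g2068 n4 t u0
    have u2 := bf fun t => g2045 t n3 n2
    have u3 := bt fun t => g2050 u1 u2 t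
    have u4 := bt fun t => g2073 g2075 n4 t
    have u5 := bt fun t => g2065 u4 t
    have u6 := bt fun t => g681 n1 g2012 u5 t
    have u7 := bf fun t => g1561 t u3 g2012 u6
    have u8 := bf fun t => g2030 t n1 u7
    have u9 := bf fun t => g2035 t u8
    have u10 := bt fun t => g2041 g2044 t u9
    have u11 := bf fun t => g41 u6 t
    have u12 := bt fun t => g672 n1 t u3 w2078 u11
    have u13 := bf fun t => g11 u12 t
    have u14 := bf fun t => g396 t w2076 w2077 n3 u3
    have u15 := bf fun t => g1217 g2011 n3 u3 t
    have u16 := bf fun t => s2092 t u15 u14 u3 n2 n4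
    have u17 := bt fun t => g227 u16 t u14
    have u18 := bf fun t => g409 n0 t
    have u19 := bt fun t => g2053 t n0 n3
    have u20 := bt fun t => g1973 t u16 n0
    have u21 := bt fun t => g1996 u17 u18 t
    have u22 := bf fun t => g2057 u0 t u19
    have u23 := bf fun t => g2027 t u22
    have u24 := bt fun t => g911 u21 t u22 u5 g2013
    have u25 := bt fun t => g2037 u10 t u23
    have u26 := bt fun t => g2019 u25 t u7
    have u27 := bf fun t => s2093 t u26 u24 u20 u7
    have u28 := bt fun t => g2015 u26 t u27
    exact g1004 w2076 u28 u13 u24 u27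
  have s2095 : T.alt p r d b c = false → T.X r d a b = true → T.X p a r d = true → v75 = true → False := fun n0 n1 n2 n3 => by
    have u0 := bf fun t => s2090 t n3
    have u1 := bt fun t => g2068 n3 t u0
    have u2 := bf fun t => g2045 t n2 n1
    have u3 := bt fun t => g2050 u1 u2 t
    have u4 := bf fun t => g396 t w2076 w2077 n2 u3
    have u5 := bf fun t => g7 t n2
    have u6 := bt fun t => g2073 g2075 n3 t
    have u7 := bt fun t => g2066 u6 t
    have u8 := bt fun t => g2065 u6 t
    have u9 := bt fun t => g2063 u7 t n0
    have u10 := bf fun t => g1986 u4 t n0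
    have u11 := bf fun t => s2094 t u9 n1 n2 n3
    have u12 := bt fun t => g2010 u11 u9 t
    have u13 := bt fun t => g408 u11 t u10
    have u14 := bf fun t => g862 u12 t u8 g2013
    have u15 := bt fun t => g452 u13 u5 g2012 u14 t
    exact g458 u13 n2 w2078 u15
  have s2096 : T.alt p r d a c = true → T.X p a r d = true → v72 = false → False := fun n0 n1 n2 => by
    have u0 := bf fun t => g9 n1 t
    have u1 := bf fun t => g410 t n0
    have u2 := bt fun t => g2055 t u1 n0
    have u3 := bf fun t => g2057 n2 t u2
    have u4 := bt fun t => g551 n0 u0 g2012 u3 t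
    have u5 := bf fun t => g38 u4 t
    have u6 := bf fun t => g560 n0 t n1 u5
    exact g1318 u6 n1 g2012 u3 u5
  have s2097 : T.alt p r d a b = true → T.X p a r d = true → v70 = true → False := fun n0 n1 n2 => by
    have u0 := bt fun t => g379 n0 g2011 n1 t
    have u1 := bf fun t => g396 n0 w2076 w2077 n1 t
    have u2 := bf fun t => g2045 t n1 u0
    exact g2050 n2 u2 u1
  have s2098 : T.X p a r d = true → v75 = true → False := fun n0 n1 => by
    have u0 := bf fun t => s2090 t n1
    have u1 := bt fun t => g2068 n1 t u0
    have u2 := bt fun t => g2073 g2075 n1 t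
    have u3 := bt fun t => g2066 u2 t
    have u4 := bf fun t => s2096 t n0 u0
    have u5 := bf fun t => s2097 t n0 u1
    have u6 := bf fun t => g1985 u5 u4 t
    have u7 := bt fun t => g2063 u3 t u6
    have u8 := bf fun t => s2095 u6 t n0 n1
    have u9 := bt fun t => g2061 u3 u7 t
    have u10 := bt fun t => g2047 t n0 u8
    exact s2082 n0 u9 u10
  have s2099 : T.X p c r a = true → v61 = true → T.X p c a b = false → T.X p b r c = false → False := fun n0 n1 n2 n3 => by
    have u0 := bf fun t => g6 t n0
    have u1 := bf fun t => g1030 w2077 n0 n3 n2 t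
    exact g2015 n1 u0 u1
  have s2100 : T.alt p r a c d = false → T.X p d r a = false → T.X r a b d = false → T.alt p r d a c = false → T.X p b r c = false → T.alt p r b c d = true → T.X p b c d = true → False := fun n0 n1 n2 n3 n4 n5 n6 => by
    have u0 := bf fun t => g2030 t n5 n4
    have u1 := bf fun t => g2035 t u0
    have u2 := bt fun t => g2041 g2044 t u1
    have u3 := bt fun t => g681 n5 g2012 n6 t
    have u4 := bf fun t => g40 u3 t
    have u5 := bt fun t => g408 n0 t n3
    have u6 := bt fun t => g2010 n0 n5 t
    have u7 := bf fun t => g862 u6 t n6 g2013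
    have u8 := bf fun t => g864 u6 t n6 g2013
    have u9 := bf fun t => g2027 t u7
    have u10 := bt fun t => g2037 u2 t u9
    have u11 := bt fun t => g2019 u10 t n4
    have u12 := bf fun t => s2099 t u11 u8 n4
    have u13 := bt fun t => g433 u5 u12 g2012 u7 t
    have u14 := bf fun t => g1312 t n1 w2079 u7 u13
    have u15 := bf fun t => g1829 t n2 u13 u4 g2013
    exact g2015 u11 u14 u15
  have s2101 : T.X p a c d = false → T.alt p a d b c = true → T.alt p r a b c = true → v67 = true → T.X p c r b = false → T.X p b r c = false → T.X p b c d = true → False := fun n0 n1 n2 n3 n4 n5 n6 => by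
    have u0 := bf fun t => g2027 t n0
    have u1 := bt fun t => g911 n1 t n0 n6 g2013
    have u2 := bt fun t => g2037 n3 t u0
    have u3 := bt fun t => g2019 u2 t n5
    have u4 := bf fun t => s2093 t u3 u1 n2 n5
    have u5 := bt fun t => g2015 u3 t u4
    exact g1004 w2076 u5 n4 u1 u4
  have s2102 : T.alt p r d b c = false → v75 = true → False := fun n0 n1 => by
    have u0 := bf fun t => s2098 t n1
    have u1 := bf fun t => s2090 t n1
    have u2 := bt fun t => g2068 n1 t u1
    have u3 := bt fun t => g2073 g2075 n1 t
    have u4 := bt fun t => g2066 u3 t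
    have u5 := bt fun t => g2065 u3 t
    have u6 := bt fun t => g2063 u4 t n0
    have u7 := bt fun t => g681 u6 g2012 u5 t
    have u8 := bt fun t => g2061 u4 u6 t
    have u9 := bf fun t => g40 u7 t
    have u10 := bf fun t => g41 u7 t
    have u11 := bf fun t => g1561 t u8 g2012 u7
    have u12 := bf fun t => g13 t u8
    have u13 := bf fun t => g15 u8 t
    have u14 := bf fun t => g2049 u2 t u8
    have u15 := bt fun t => g672 u6 t u8 w2078 u10
    have u16 := bf fun t => g2030 t u6 u11
    have u17 := bf fun t => g2048 u14 u0 t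
    have u18 := bf fun t => g11 u15 t
    have u19 := bf fun t => g2035 t u16
    have u20 := bf fun t => g324 t g2011 u8 u17
    have u21 := bf fun t => g381 t g2011 u8 u17
    have u22 := bf fun t => g1156 g2011 u0 u12 t u17
    have u23 := bt fun t => g2041 g2044 t u19
    have u24 := bt fun t => g227 u20 t u21
    have u25 := bf fun t => g1986 u21 t n0
    have u26 := bf fun t => g1198 w2077 u0 u8 u22 t
    have u27 := bf fun t => g268 u24 w2076 w2077 t u13
    have u28 := bt fun t => s2100 t u27 u26 u25 u11 u6 u5
    have u29 := bf fun t => g409 u28 t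
    have u30 := bt fun t => g1973 t u20 u28
    have u31 := bt fun t => g1996 u24 u29 t
    have u32 := bt fun t => s2101 t u31 u30 u23 u18 u11 u5
    have u33 := bf fun t => g25 u32 t
    have u34 := bt fun t => g500 u28 g2012 u32 t
    have u35 := bt fun t => g1382 t u0 u27 g2012 u32 u34
    have u36 := bf fun t => g37 u34 t
    have u37 := bf fun t => g1829 t u26 u34 u9 g2013
    have u38 := bt fun t => g492 u28 t u35 u33 u36
    have u39 := bt fun t => g2016 t u38 u37
    have u40 := bt fun t => g2022 t u28 u38
    have u41 := bt fun t => g2020 t u39 u11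
    have u42 := bt fun t => g2026 t u32 u40
    exact g2036 u23 u41 u42
  have s2103 : T.X r c a b = false → T.X p a r c = false → v62 = true → T.X p c a b = true → T.alt p r b a c = true → False := fun n0 n1 n2 n3 n4 => by
    have u0 := bf fun t => g2015 t n1 n0
    have u1 := bf fun t => g100 n4 t n3 n0
    exact g2019 n2 u0 u1
  have s2104 : T.X p a r c = false → T.alt p r b a c = true → v62 = true → T.X p c a b = true → False := fun n0 n1 n2 n3 => by
    have u0 := bt fun t => s2103 t n0 n2 n3 n1
    have u1 := bt fun t => g102 n1 g2011 n0 t n3 u0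
    have u2 := bt fun t => g2017 t n0 u0
    exact g2018 n2 u2 u1
  have s2105 : T.X p b r d = true → v75 = true → False := fun n0 n1 => by
    have u0 := bt fun t => s2102 t n1
    have u1 := bf fun t => g591 t u0
    have u2 := bf fun t => g592 t u0
    have u3 := bf fun t => g2032 t u1 u2
    have u4 := bf fun t => g2035 t u3
    have u5 := bt fun t => g2041 g2044 t u4
    have u6 := bf fun t => s2098 t n1
    have u7 := bf fun t => s2090 t n1
    have u8 := bt fun t => g2068 n1 t u7
    have u9 := bt fun t => g2073 g2075 n1 t
    have u10 := bt fun t => g2065 u9 t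
    have u11 := bf fun t => g15 n0 t
    have u12 := bf fun t => g2049 u8 t n0
    have u13 := bf fun t => g2048 u12 u6 t
    have u14 := bf fun t => g324 t g2011 n0 u13
    have u15 := bf fun t => g381 t g2011 n0 u13
    have u16 := bt fun t => g227 u14 t u15
    have u17 := bt fun t => g1985 u15 t u0
    have u18 := bt fun t => g1978 t u16 u1
    have u19 := bf fun t => g268 u16 w2076 w2077 t u11
    have u20 := bf fun t => g410 t u17
    have u21 := bf fun t => g411 t u17
    have u22 := bt fun t => g2055 t u20 u17
    have u23 := bf fun t => s2080 u20 t u22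
    have u24 := bt fun t => g1996 u16 u21 t
    have u25 := bf fun t => g2057 u7 t u22
    have u26 := bf fun t => g2028 t u23
    have u27 := bt fun t => g911 u24 t u25 u10 g2013
    have u28 := bt fun t => g551 u17 u19 g2012 u25 t
    have u29 := bt fun t => g2037 u5 t u26
    have u30 := bf fun t => g1312 t u19 w2079 u25 u28
    exact s2104 u30 u18 u29 u27
  have s2106 : T.X p c a b = true → v62 = true → T.X p a r c = false → v75 = true → False := fun n0 n1 n2 n3 => by
    have u0 := bf fun t => s2098 t n3
    have u1 := bf fun t => s2090 t n3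
    have u2 := bt fun t => g2068 n3 t u1
    have u3 := bf fun t => s2105 t n3
    have u4 := bt fun t => g2050 u2 t u3
    have u5 := bt fun t => g2046 u4 u0 t
    have u6 := bt fun t => s2102 t n3
    have u7 := bf fun t => g592 t u6
    have u8 := bf fun t => g591 t u6
    have u9 := bt fun t => g2073 g2075 n3 t
    have u10 := bt fun t => g2065 u9 t
    have u11 := bf fun t => g809 t n0 u10 g2013
    have u12 := bf fun t => g864 t n0 u10 g2013
    have u13 := bf fun t => s2104 n2 t n1 n0
    have u14 := bf fun t => g2004 t u7 u11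
    have u15 := bt fun t => g770 u12 u11 t
    have u16 := bf fun t => g1978 u13 t u8
    have u17 := bf fun t => g927 u15 t u10 g2013
    have u18 := bt fun t => g227 u14 u16 t
    exact g387 u18 g2011 u0 u3 u17 u5
  have s2107 : T.alt p a d b c = true → T.alt p r b a d = false → T.X p c a b = false → v64 = false → v75 = true → False := fun n0 n1 n2 n3 n4 => by
    have u0 := bt fun t => s2102 t n4
    have u1 := bf fun t => g591 t u0
    have u2 := bt fun t => g2073 g2075 n4 t
    have u3 := bt fun t => g2065 u2 t
    have u4 := bf fun t => g772 t n0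
    have u5 := bt fun t => g1997 n1 t n0
    have u6 := bt fun t => g911 n0 n2 t u3 g2013
    have u7 := bf fun t => g2008 t u1 u4
    have u8 := bt fun t => g2024 t u7 u5
    exact g2026 n3 u6 u8
  have s2108 : T.alt p a b c d = false → T.alt p r a b c = true → v75 = true → False := fun n0 n1 n2 => by
    have u0 := bf fun t => g48 n1 t
    have u1 := bf fun t => s2098 t n2
    have u2 := bf fun t => s2090 t n2
    have u3 := bt fun t => g2068 n2 t u2
    have u4 := bf fun t => s2105 t n2
    have u5 := bt fun t => g2050 u3 t u4
    have u6 := bt fun t => g2046 u5 u1 t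
    have u7 := bt fun t => s2102 t n2
    have u8 := bf fun t => g591 t u7
    have u9 := bf fun t => g2008 t u8 n0
    have u10 := bf fun t => g1990 u0 t n0
    have u11 := bt fun t => g1972 n1 t u9
    have u12 := bf fun t => g342 u11 g2011 u1 u4 t u6
    exact s2091 u7 u11 u12 u10 n2
  have s2109 : T.alt p r a b c = true → v75 = true → False := fun n0 n1 => by
    have u0 := bf fun t => s2098 t n1
    have u1 := bf fun t => s2090 t n1
    have u2 := bt fun t => g2068 n1 t u1
    have u3 := bf fun t => s2105 t n1
    have u4 := bt fun t => g2050 u2 t u3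
    have u5 := bt fun t => g2046 u4 u0 t
    have u6 := bt fun t => g2073 g2075 n1 t
    have u7 := bt fun t => g2065 u6 t
    have u8 := bf fun t => g48 n0 t
    have u9 := bt fun t => s2108 t n0 n1
    have u10 := bf fun t => g866 u9 t u7 g2013
    have u11 := bt fun t => g1989 u8 t u9
    exact g387 u11 g2011 u0 u3 u10 u5
  have s2110 : v62 = true → T.X p a r c = false → v75 = true → False := fun n0 n1 n2 => by
    have u0 := bt fun t => s2102 t n2
    have u1 := bf fun t => g591 t u0
    have u2 := bf fun t => s2109 t n2
    have u3 := bt fun t => g2002 u2 u0 t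
    have u4 := bf fun t => g772 t u3
    have u5 := bf fun t => g2008 t u1 u4
    have u6 := bf fun t => g592 t u0
    have u7 := bf fun t => g2032 t u1 u6
    have u8 := bf fun t => g2035 t u7
    have u9 := bt fun t => g2041 g2044 t u8
    have u10 := bf fun t => s2090 t n2
    have u11 := bt fun t => g2073 g2075 n2 t
    have u12 := bt fun t => g2065 u11 t
    have u13 := bf fun t => g2036 u9 n0 t
    have u14 := bf fun t => s2106 t n0 n1 n2
    have u15 := bt fun t => g911 u3 u14 t u12 g2013
    have u16 := bt fun t => s2107 u3 t u14 u13 n2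
    have u17 := bf fun t => g2057 u10 u15 t
    have u18 := bf fun t => g1995 u16 t u3
    have u19 := bt fun t => g408 u5 u18 t
    exact g2055 u17 u5 u19
  have s2111 : v75 = true → False := fun n0 => by
    have u0 := bt fun t => g2073 g2075 n0 t
    have u1 := bt fun t => g2065 u0 t
    have u2 := bf fun t => s2090 t n0
    have u3 := bt fun t => g2068 n0 t u2
    have u4 := bf fun t => s2098 t n0
    have u5 := bt fun t => s2102 t n0
    have u6 := bf fun t => g591 t u5
    have u7 := bf fun t => g592 t u5
    have u8 := bf fun t => g2032 t u6 u7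
    have u9 := bf fun t => g2035 t u8
    have u10 := bt fun t => g2041 g2044 t u9
    have u11 := bf fun t => s2105 t n0
    have u12 := bt fun t => g2050 u3 t u11
    have u13 := bt fun t => g2046 u12 u4 t
    have u14 := bf fun t => s2109 t n0
    have u15 := bt fun t => g2002 u14 u5 t
    have u16 := bf fun t => g772 t u15
    have u17 := bf fun t => g927 u15 t u1 g2013
    have u18 := bf fun t => g2008 t u6 u16
    have u19 := bf fun t => g1200 w2077 t u11 u17 u13
    have u20 := bf fun t => g387 t g2011 u4 u11 u17 u13
    have u21 := bf fun t => g1988 t u20 u16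
    have u22 := bt fun t => g1985 u20 t u5
    have u23 := bf fun t => g1982 u21 t u7
    have u24 := bt fun t => g2055 t u18 u22
    have u25 := bf fun t => g2025 t u18 u23
    have u26 := bf fun t => g2028 t u25
    have u27 := bf fun t => g2057 u2 t u24
    have u28 := bt fun t => g2037 u10 t u26
    have u29 := bt fun t => g551 u22 u19 g2012 u27 t
    have u30 := bt fun t => s2110 u28 t n0
    exact g1312 u30 u19 w2079 u27 u29
  have w2111 := bf s2111
  have s2112 := fun (n0 : v74 = true) => g2074 g2075 w2111 n0
  have w2112 := bf s2112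
  have s2113 : T.X p a r d = false → v69 = false → T.alt p r a b d = true → T.X p d a b = false → False := fun n0 n1 n2 n3 => by
    have u0 := bt fun t => g314 n2 g2011 n0 n3 t
    exact g2048 n1 n0 u0
  have s2114 : T.X p b r d = false → v70 = false → T.alt p r a b d = true → T.X p d a b = false → False := fun n0 n1 n2 n3 => by
    have u0 := bf fun t => g2051 n1 t n0
    have u1 := bt fun t => s2113 t u0 n2 n3
    have u2 := bf fun t => g341 n2 g2011 u1 n0 n3 t
    exact g2047 u0 u1 u2
  have s2115 : T.alt p r a c d = false → T.X p b c d = true → T.alt p a d b c = true → False := fun n0 n1 n2 => by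
    have u0 := bf fun t => g927 n2 t n1 g2013
    have u1 := bf fun t => g2064 w2112 n1 t
    have u2 := bf fun t => g773 t n2
    have u3 := bf fun t => g772 t n2
    have u4 := bf fun t => g2010 n0 t u3
    have u5 := bf fun t => g2062 u1 u4 t
    have u6 := bt fun t => g589 u4 t u5
    have u7 := bt fun t => g2001 t u5 n2
    have u8 := bt fun t => g2006 t u6 u2
    have u9 := bf fun t => g47 u7 t
    have u10 := bf fun t => g338 u8 g2011 t u0
    have u11 := bf fun t => g1994 u9 t u2
    have u12 := bf fun t => g2056 t n0 u11
    have u13 := bf fun t => g2059 t u12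
    have u14 := bf fun t => g2069 w2111 t u13
    have u15 := bt fun t => s2114 t u14 u8 u0
    have u16 := bf fun t => g13 t u15
    have u17 := bt fun t => g2052 u14 t u15
    have u18 := bf fun t => g1175 g2011 u10 u16 u0 t
    have u19 := bf fun t => s2082 t u15 u17
    have u20 := bf fun t => g1197 w2077 u19 u15 t u18
    exact g301 u8 w2077 u10 u16 u20 u18
  have s2116 : T.X p b c d = true → T.alt p a d b c = true → False := fun n0 n1 => by
    have u0 := bf fun t => g772 t n1
    have u1 := bf fun t => g28 n0 t
    have u2 := bf fun t => g2064 w2112 n0 t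
    have u3 := bf fun t => g927 n1 t n0 g2013
    have u4 := bt fun t => s2115 t n0 n1
    have u5 := bf fun t => g409 u4 t
    have u6 := bt fun t => g2008 u4 t u0
    have u7 := bt fun t => g1997 t u5 n1
    have u8 := bf fun t => g591 u6 t
    have u9 := bt fun t => g681 u6 g2012 n0 t
    have u10 := bf fun t => g2060 u2 u6 t
    have u11 := bt fun t => g255 u7 g2011 u10 u3 t
    have u12 := bf fun t => g279 u7 g2011 t u3
    have u13 := bt fun t => g2001 t u8 n1
    have u14 := bf fun t => g40 u9 t
    have u15 := bt fun t => g1552 t u10 u12 g2012 n0 u9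
    have u16 := bf fun t => g36 t u11
    have u17 := bt fun t => g673 u6 t u15 u1 u14
    have u18 := bt fun t => g143 u13 g2011 u17 t
    have u19 := bf fun t => g33 t u18
    have u20 := bt fun t => g1875 u18 u16 t u9 g2013
    have u21 := bt fun t => g1823 u19 u11 t u9 g2013
    exact g39 u20 u21
  have s2117 : T.alt p r b a d = true → v69 = false → T.X p d a b = false → T.X p b r d = false → False := fun n0 n1 n2 n3 => by
    have u0 := bt fun t => g255 n0 g2011 n3 n2 t
    have u1 := bf fun t => g279 n0 g2011 t n2
    have u2 := bf fun t => g36 t u0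
    have u3 := bt fun t => g2048 n1 t u0
    have u4 := bf fun t => g7 t u3
    have u5 := bf fun t => g277 n0 u3 n3 t
    exact g242 n0 w2076 u4 u1 u5 u2
  have s2120 : T.X r c a b = false → T.alt p r c a b = true → v62 = true → False := fun n0 n1 n2 => by
    have u0 := bf fun t => g200 n1 g2011 t n0
    have u1 := bf fun t => g198 n1 g2011 t n0
    have u2 := bt fun t => g2019 n2 t u0
    exact g2015 u2 u1 n0
  have s2121 : T.X p b r c = false → T.alt p r c a b = true → v62 = true → T.X p c a b = false → False := fun n0 n1 n2 n3 => by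
    have u0 := bt fun t => s2120 t n1 n2
    have u1 := bt fun t => g2019 n2 t n0
    have u2 := bt fun t => g206 n1 g2011 t n0 n3 u0
    exact g2014 u1 u2 u0
  have s2122 : T.X p d a b = false → T.X p b r d = false → T.alt p a d b c = true → False := fun n0 n1 n2 => by
    have u0 := bf fun t => s2116 t n2
    have u1 := bf fun t => g2034 t u0
    have u2 := bt fun t => g2041 g2044 t u1
    have u3 := bf fun t => g773 t n2
    have u4 := bf fun t => g913 n2 n0 t u0 g2013
    have u5 := bf fun t => g910 n2 t n0 u0 g2013
    have u6 := bf fun t => g2027 t u4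
    have u7 := bf fun t => g2058 t u4
    have u8 := bt fun t => g2037 u2 t u6
    have u9 := bf fun t => g2069 w2111 t u7
    have u10 := bf fun t => s2114 n1 u9 t n0
    have u11 := bf fun t => g2051 u9 t n1
    have u12 := bf fun t => g2006 u10 t u3
    have u13 := bf fun t => s2117 t u11 n0 n1
    have u14 := bt fun t => g1997 u13 t n2
    have u15 := bt fun t => g227 u10 u13 t
    have u16 := bf fun t => g411 u14 t
    have u17 := bt fun t => g1982 t u14 u12
    have u18 := bt fun t => g1984 u15 u16 t
    have u19 := bt fun t => s2121 t u17 u8 u5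
    have u20 := bf fun t => g10 t u19
    have u21 := bf fun t => g757 u18 u19 w2079 t
    have u22 := bf fun t => g1533 u19 n1 w2079 u21 t
    exact g722 u18 u20 n1 w2078 u21 u22
  have s2123 : T.X p b r c = true → T.alt p r b c d = false → T.X p b r d = false → T.X p b c d = false → False := fun n0 n1 n2 n3 => by
    have u0 := bf fun t => g10 t n0
    have u1 := bf fun t => g12 n0 t
    have u2 := bf fun t => g1510 u0 n2 g2012 n3 t
    have u3 := bf fun t => g1532 n0 n2 w2079 t u2
    have u4 := bf fun t => g751 t u0 g2012 n3 u3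
    have u5 := bt fun t => g589 n1 t u4
    have u6 := bt fun t => g614 u5 u1 g2012 n3 t
    have u7 := bf fun t => g40 u6 t
    have u8 := bt fun t => g1517 n0 t g2012 n3 u7
    exact g623 u5 n0 u8 u7
  have s2125 : T.X r c a b = false → T.X p c a b = false → v61 = false → T.alt p r a b c = true → False := fun n0 n1 n2 n3 => by
    have u0 := bt fun t => g133 n3 g2011 t n1 n0
    exact g2016 n2 u0 n0
  have s2126 : v62 = false → T.alt p r a b c = true → T.X p b r c = false → T.alt p a d b c = true → False := fun n0 n1 n2 n3 => by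
    have u0 := bf fun t => s2116 t n3
    have u1 := bf fun t => g2034 t u0
    have u2 := bt fun t => g2041 g2044 t u1
    have u3 := bt fun t => g2037 u2 n0 t
    have u4 := bf fun t => g2020 n0 t n2
    have u5 := bt fun t => g2027 u3 t
    have u6 := bf fun t => g941 n3 t u5 g2013
    have u7 := bt fun t => s2125 t u6 u4 n1
    have u8 := bf fun t => g160 n1 g2011 t n2 u6 u7
    exact g2017 u4 u8 u7
  have s2127 : T.X p c a b = true → v61 = true → T.X p b r c = false → T.alt p r a b c = true → False := fun n0 n1 n2 n3 => by
    have u0 := bf fun t => s2093 t n1 n0 n3 n2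
    have u1 := bf fun t => g159 n3 t n0 u0
    exact g2015 n1 u1 u0
  have s2128 : T.alt p r a b c = true → T.X p b r c = false → T.bfo p c d a r = true → T.X p d a b = true → T.alt p a d b c = true → False := fun n0 n1 n2 n3 n4 => by
    have u0 := bf fun t => s2116 t n4
    have u1 := bf fun t => g2034 t u0
    have u2 := bt fun t => g2041 g2044 t u1
    have u3 := bt fun t => s2126 t n0 n1 n4
    have u4 := bf fun t => g2036 u2 u3 t
    have u5 := bt fun t => g2019 u3 t n1
    have u6 := bf fun t => g2026 u4 t n2
    have u7 := bt fun t => g915 n4 t n3 u6 g2013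
    exact s2127 u7 u5 n1 n0
  have s2129 : T.alt p r c a d = true → T.X p b r d = false → T.alt p a d b c = true → False := fun n0 n1 n2 => by
    have u0 := bt fun t => s2122 t n1 n2
    have u1 := bf fun t => s2116 t n2
    have u2 := bf fun t => g772 t n2
    have u3 := bf fun t => g409 t n0
    have u4 := bf fun t => g411 n0 t
    have u5 := bt fun t => g2024 t u3 n0
    have u6 := bf fun t => g2010 u3 t u2
    have u7 := bf fun t => s2081 u5 t
    have u8 := bf fun t => g2069 w2111 t u7
    have u9 := bf fun t => g2051 u8 t n1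
    have u10 := bf fun t => s2123 t u6 n1 u1
    have u11 := bf fun t => s2128 t u10 u5 u0 n2
    have u12 := bt fun t => g2001 u11 t n2
    have u13 := bt fun t => g1985 t u4 u12
    have u14 := bt fun t => g378 u13 g2011 u0 t
    have u15 := bt fun t => g2048 u9 t u14
    have u16 := bf fun t => g7 t u15
    have u17 := bf fun t => g9 u15 t
    exact g391 u13 g2011 u16 u17 u0
  have s2130 : T.X p a r c = true → v61 = true → T.alt p r b a c = true → False := fun n0 n1 n2 => by
    have u0 := bt fun t => g84 n2 g2011 n0 t
    exact g2014 n1 n0 u0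
  have s2131 : T.X r d a b = false → v69 = true → T.alt p r b a d = true → False := fun n0 n1 n2 => by
    have u0 := bt fun t => g2046 n1 t n0
    exact g265 n2 g2011 u0 n0
  have s2132 : v69 = true → T.alt p r b a d = true → T.X p d a b = true → T.X p b r d = false → False := fun n0 n1 n2 n3 => by
    have u0 := bt fun t => s2131 t n0 n1
    have u1 := bt fun t => g283 n1 g2011 t n3 n2 u0
    exact g2045 n0 u1 u0
  have s2134 : T.alt p r a b c = true → T.X p b r c = false → T.X p b r d = false → T.alt p a d b c = true → False := fun n0 n1 n2 n3 => by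
    have u0 := bf fun t => s2129 t n2 n3
    have u1 := bt fun t => g1997 t u0 n3
    have u2 := bf fun t => g228 t u1
    have u3 := bt fun t => s2122 t n2 n3
    have u4 := bf fun t => s2116 t n3
    have u5 := bt fun t => g1972 n0 u2 t
    have u6 := bt fun t => s2126 t n0 n1 n3
    have u7 := bf fun t => s2128 n0 n1 t u3 n3
    have u8 := bt fun t => g2019 u6 t n1
    have u9 := bf fun t => g2022 u7 u5 t
    have u10 := bf fun t => s2127 t u8 n1 n0
    have u11 := bt fun t => g2015 u8 u9 t
    have u12 := bt fun t => g915 n3 u10 u3 t g2013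
    have u13 := bf fun t => g33 t u11
    have u14 := bf fun t => g26 u12 t
    have u15 := bt fun t => g513 u5 t u9 g2012 u12
    have u16 := bf fun t => g1656 t u3 u14 u4 g2013
    exact g130 n0 w2076 u15 u16 u13
  have s2135 : T.X p b r c = false → T.X p b r d = false → T.alt p a d b c = true → False := fun n0 n1 n2 => by
    have u0 := bt fun t => s2122 t n1 n2
    have u1 := bf fun t => s2129 t n1 n2
    have u2 := bt fun t => g1997 t u1 n2
    have u3 := bf fun t => s2132 t u2 u0 n1
    have u4 := bf fun t => g2050 t u3 n1
    have u5 := bf fun t => g2070 w2111 u4 t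
    have u6 := bf fun t => g772 t n2
    have u7 := bf fun t => g230 u2 t
    have u8 := bf fun t => g1988 t u7 u6
    have u9 := bf fun t => g228 t u2
    have u10 := bf fun t => s2116 t n2
    have u11 := bf fun t => g2034 t u10
    have u12 := bt fun t => g2041 g2044 t u11
    have u13 := bf fun t => s2134 t n0 n1 n2
    have u14 := bt fun t => g2001 u13 t n2
    have u15 := bf fun t => g1973 u13 u9 t
    have u16 := bt fun t => g46 u13 t u8
    have u17 := bt fun t => g1985 u7 t u14
    have u18 := bf fun t => g2025 t u15 u1
    have u19 := bt fun t => g2055 t u15 u17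
    have u20 := bf fun t => g2028 t u18
    have u21 := bf fun t => g2057 u5 t u19
    have u22 := bt fun t => g2037 u12 t u20
    have u23 := bt fun t => g915 n2 t u0 u21 g2013
    have u24 := bt fun t => g2019 u22 t n0
    have u25 := bt fun t => s2104 t u16 u22 u23
    exact s2130 u25 u24 u16
  have s2136 : T.X p c a b = true → T.X p b r d = false → T.alt p a d b c = true → False := fun n0 n1 n2 => by
    have u0 := bt fun t => s2135 t n1 n2
    have u1 := bf fun t => s2116 t n2
    have u2 := bt fun t => s2123 u0 t n1 u1
    have u3 := bf fun t => g591 u2 t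
    have u4 := bt fun t => g2001 t u3 n2
    have u5 := bt fun t => g143 u4 g2011 u0 t
    have u6 := bf fun t => g2034 t u1
    have u7 := bt fun t => g2041 g2044 t u6
    have u8 := bf fun t => g941 n2 n0 t g2013
    have u9 := bf fun t => g1047 g2011 t u0 n0
    have u10 := bf fun t => g2027 t u8
    have u11 := bt fun t => g2017 t u9 u5
    have u12 := bt fun t => g2037 u7 t u10
    exact g2018 u12 u11 u0
  have s2137 : T.X p b r d = false → T.alt p a d b c = true → False := fun n0 n1 => by
    have u0 := bf fun t => s2116 t n1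
    have u1 := bf fun t => g2034 t u0
    have u2 := bt fun t => g2041 g2044 t u1
    have u3 := bf fun t => g772 t n1
    have u4 := bt fun t => s2122 t n0 n1
    have u5 := bt fun t => s2135 t n0 n1
    have u6 := bf fun t => g10 t u5
    have u7 := bt fun t => s2123 u5 t n0 u0
    have u8 := bf fun t => g1510 u6 n0 g2012 u0 t
    have u9 := bf fun t => g679 u7 u6 w2078 t u8
    have u10 := bf fun t => g591 u7 t
    have u11 := bt fun t => g2010 t u7 u3
    have u12 := bt fun t => g2001 t u10 n1
    have u13 := bt fun t => g143 u12 g2011 u5 t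
    have u14 := bf fun t => g32 t u13
    have u15 := bf fun t => s2136 t n0 n1
    have u16 := bt fun t => g915 n1 u15 u4 t g2013
    have u17 := bt fun t => g1668 t u4 u16 u9 g2013
    have u18 := bt fun t => g1027 w2077 t u5 u17 u14
    have u19 := bt fun t => g2022 t u11 u18
    have u20 := bf fun t => g2014 t u18 u13
    have u21 := bt fun t => g2026 t u16 u19
    have u22 := bt fun t => g2021 t u20 u5
    exact g2036 u2 u22 u21
  have s2138 : T.X p b r c = true → T.alt p a d b c = true → False := fun n0 n1 => by
    have u0 := bt fun t => s2137 t n1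
    have u1 := bf fun t => g13 t u0
    have u2 := bf fun t => s2116 t n1
    have u3 := bf fun t => g10 t n0
    have u4 := bt fun t => g1517 n0 u1 g2012 u2 t
    have u5 := bt fun t => g1488 u3 u0 g2012 u2 t
    exact g42 u4 u5
  have s2139 : T.X p a c d = true → T.X p r b c = false → T.alt p a d b c = true → False := fun n0 n1 n2 => by
    have u0 := bt fun t => s2137 t n2
    have u1 := bf fun t => g15 u0 t
    have u2 := bf fun t => s2116 t n2
    have u3 := bt fun t => g1488 n1 u0 g2012 u2 t
    have u4 := bf fun t => g41 t u3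
    have u5 := bf fun t => g732 t u1 g2012 u2 u4
    have u6 := bt fun t => g2001 t u5 n2
    have u7 := bf fun t => s2138 t n2
    have u8 := bt fun t => s2126 t u6 u7 n2
    have u9 := bt fun t => g2019 u8 t u7
    have u10 := bf fun t => s2127 t u9 u7 u6
    have u11 := bf fun t => g157 u6 g2011 t u10
    have u12 := bf fun t => g1005 g2011 u11 n1 u10 t
    have u13 := bf fun t => g13 t u0
    have u14 := bf fun t => g1505 u7 u13 g2012 u2 t
    have u15 := bf fun t => g1513 u7 u0 w2078 t u14
    have u16 := bf fun t => g633 t u13 g2012 u2 u15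
    have u17 := bt fun t => g589 t u16 u5
    have u18 := bf fun t => g47 u6 t
    have u19 := bt fun t => g1977 u18 t u17
    have u20 := bf fun t => g268 u19 w2076 w2077 t u1
    have u21 := bf fun t => g2034 t u2
    have u22 := bt fun t => g2041 g2044 t u21
    have u23 := bf fun t => g2036 u22 u8 t
    have u24 := bf fun t => g773 t n2
    have u25 := bf fun t => g2004 t u16 u24
    have u26 := bt fun t => g1972 u6 u25 t
    have u27 := bf fun t => g25 n0 t
    have u28 := bt fun t => g500 u26 g2012 n0 t
    have u29 := bt fun t => g913 n2 t n0 u2 g2013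
    have u30 := bf fun t => g2026 u23 n0 t
    have u31 := bf fun t => g37 u28 t
    have u32 := bt fun t => g1839 u12 t u28 u3 g2013
    have u33 := bf fun t => g1217 g2011 t u0 u29
    have u34 := bf fun t => g2022 u30 u26 t
    have u35 := bf fun t => g492 u26 u34 t u27 u31
    exact g1185 g2011 u35 u33 u20 u29 u32
  have s2140 : T.X p r b c = false → T.alt p a d b c = true → False := fun n0 n1 => by
    have u0 := bf fun t => s2116 t n1
    have u1 := bt fun t => s2137 t n1
    have u2 := bf fun t => g13 t u1
    have u3 := bf fun t => s2138 t n1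
    have u4 := bf fun t => g1505 u3 u2 g2012 u0 t
    have u5 := bf fun t => g1513 u3 u1 w2078 t u4
    have u6 := bf fun t => g633 t u2 g2012 u0 u5
    have u7 := bf fun t => g15 u1 t
    have u8 := bt fun t => g1488 n0 u1 g2012 u0 t
    have u9 := bf fun t => g41 t u8
    have u10 := bf fun t => g732 t u7 g2012 u0 u9
    have u11 := bt fun t => g2001 t u10 n1
    have u12 := bt fun t => g589 t u6 u10
    have u13 := bf fun t => g47 u11 t
    have u14 := bt fun t => s2126 t u11 u3 n1
    have u15 := bt fun t => g1977 u13 t u12
    have u16 := bt fun t => g2019 u14 t u3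
    have u17 := bf fun t => s2127 t u16 u3 u11
    have u18 := bf fun t => s2139 t n0 n1
    have u19 := bf fun t => g2058 t u18
    have u20 := bf fun t => g915 n1 u17 t u18 g2013
    have u21 := bf fun t => g2069 w2111 t u19
    have u22 := bt fun t => g2052 u21 t u1
    have u23 := bf fun t => s2082 t u1 u22
    have u24 := bt fun t => s2131 t u22 u15
    exact g282 u15 g2011 u23 u1 u20 u24
  have s2141 : T.X p a c d = false → T.alt p a d b c = true → False := fun n0 n1 => by
    have u0 := bt fun t => s2137 t n1
    have u1 := bf fun t => g15 u0 t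
    have u2 := bf fun t => s2116 t n1
    have u3 := bt fun t => s2140 t n1
    have u4 := bf fun t => g11 u3 t
    have u5 := bf fun t => g1536 u4 u0 w2078 u2 t
    have u6 := bf fun t => g732 t u1 g2012 u2 u5
    have u7 := bt fun t => g2001 t u6 n1
    have u8 := bf fun t => s2138 t n1
    have u9 := bt fun t => s2126 t u7 u8 n1
    have u10 := bt fun t => g2019 u9 t u8
    have u11 := bf fun t => s2127 t u10 u8 u7
    have u12 := bf fun t => g13 t u0
    have u13 := bf fun t => g1505 u8 u12 g2012 u2 t
    have u14 := bf fun t => g1513 u8 u0 w2078 t u13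
    have u15 := bf fun t => g633 t u12 g2012 u2 u14
    have u16 := bt fun t => g589 t u15 u6
    have u17 := bf fun t => g47 u7 t
    have u18 := bt fun t => g1977 u17 t u16
    have u19 := bf fun t => g2058 t n0
    have u20 := bf fun t => g915 n1 u11 t n0 g2013
    have u21 := bf fun t => g2069 w2111 t u19
    have u22 := bt fun t => g2052 u21 t u0
    have u23 := bf fun t => s2082 t u0 u22
    have u24 := bt fun t => s2131 t u22 u18
    exact g282 u18 g2011 u23 u0 u20 u24
  have s2142 : T.alt p a d b c = true → False := fun n0 => by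
    have u0 := bf fun t => g773 t n0
    have u1 := bf fun t => s2116 t n0
    have u2 := bf fun t => g2034 t u1
    have u3 := bt fun t => g2041 g2044 t u2
    have u4 := bt fun t => s2137 t n0
    have u5 := bf fun t => g13 t u4
    have u6 := bf fun t => g15 u4 t
    have u7 := bf fun t => s2138 t n0
    have u8 := bf fun t => g1505 u7 u5 g2012 u1 t
    have u9 := bf fun t => g1513 u7 u4 w2078 t u8
    have u10 := bf fun t => g633 t u5 g2012 u1 u9
    have u11 := bf fun t => g2004 t u10 u0
    have u12 := bt fun t => s2140 t n0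
    have u13 := bf fun t => g11 u12 t
    have u14 := bf fun t => g1536 u13 u4 w2078 u1 t
    have u15 := bf fun t => g732 t u6 g2012 u1 u14
    have u16 := bt fun t => g2001 t u15 n0
    have u17 := bt fun t => g589 t u10 u15
    have u18 := bf fun t => g47 u16 t
    have u19 := bt fun t => g1972 u16 u11 t
    have u20 := bt fun t => s2126 t u16 u7 n0
    have u21 := bt fun t => g1977 u18 t u17
    have u22 := bf fun t => g2036 u3 u20 t
    have u23 := bt fun t => s2141 t n0
    have u24 := bf fun t => g25 u23 t
    have u25 := bt fun t => g500 u19 g2012 u23 t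
    have u26 := bt fun t => g913 n0 t u23 u1 g2013
    have u27 := bf fun t => g2026 u22 u23 t
    have u28 := bf fun t => g37 u25 t
    have u29 := bf fun t => g24 t u26
    have u30 := bf fun t => g1217 g2011 t u4 u26
    have u31 := bf fun t => g2022 u27 u19 t
    have u32 := bf fun t => g492 u19 u31 t u24 u28
    exact g274 u21 u32 u30 u4 u29
  have w2142 := bf s2142
  have s2143 : T.X p d a b = true → T.X p a c d = true → False := fun n0 n1 => by
    have u0 := bf fun t => g823 t n0 n1 g2013
    have u1 := bf fun t => g865 t n0 n1 g2013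
    exact g770 u1 u0 w2142
  have s2144 : T.X p a r d = false → T.X r d a b = true → T.alt p a b c d = false → T.X p a c d = true → T.X p b r d = true → False := fun n0 n1 n2 n3 n4 => by
    have u0 := bf fun t => g13 t n4
    have u1 := bf fun t => s2143 t n3
    have u2 := bf fun t => g35 t n1
    have u3 := bf fun t => g1162 g2011 t u0 u1 u2
    have u4 := bt fun t => g770 n2 t w2142
    have u5 := bt fun t => g2048 t n0 n1
    have u6 := bf fun t => g282 t g2011 n0 n4 u1 n1
    have u7 := bf fun t => g1197 w2077 n0 n4 t u2
    have u8 := bf fun t => g2049 t u5 n4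
    have u9 := bf fun t => g301 t w2077 u3 u0 u7 u2
    have u10 := bf fun t => g2070 w2111 u8 t
    have u11 := bt fun t => g2005 u9 t u4
    have u12 := bt fun t => g227 u9 u6 t
    have u13 := bf fun t => g2057 u10 n3 t
    have u14 := bf fun t => g590 t u11
    have u15 := bf fun t => g592 u11 t
    have u16 := bt fun t => g1984 u12 t u15
    have u17 := bf fun t => g2008 t u14 n2
    exact g2055 u13 u17 u16
  have s2145 : T.alt p r b c d = true → T.alt p r b a d = false → T.bfo p c d a r = false → T.alt p a b c d = false → T.X p a c d = true → T.X p b r d = true → False := fun n0 n1 n2 n3 n4 n5 => by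
    have u0 := bf fun t => g2028 t n2
    have u1 := bt fun t => g770 n3 t w2142
    have u2 := bt fun t => g2060 t n0 n5
    have u3 := bt fun t => g2010 t n0 n3
    have u4 := bt fun t => g1977 t n1 n0
    have u5 := bf fun t => g2064 w2112 t u2
    have u6 := bf fun t => g2022 n2 u3 t
    have u7 := bf fun t => g2034 t u5
    have u8 := bt fun t => g795 u1 t n4 u5 g2013
    have u9 := bt fun t => g2041 g2044 t u7
    have u10 := bf fun t => s2104 u6 u4 t u8
    exact g2037 u9 u10 u0
  have s2146 : T.alt p r b a d = false → T.X p a r d = true → T.alt p a b c d = false → T.X p a c d = true → T.X p b r d = true → False := fun n0 n1 n2 n3 n4 => by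
    have u0 := bf fun t => s2082 n1 n4 t
    have u1 := bt fun t => g2052 t u0 n4
    have u2 := bt fun t => g2069 w2111 u1 t
    have u3 := bf fun t => s2081 t u2
    have u4 := bf fun t => g396 t w2076 w2077 n1 n4
    have u5 := bf fun t => g1988 t u4 n2
    have u6 := bf fun t => g15 n4 t
    have u7 := bf fun t => g1998 n0 t w2142
    have u8 := bf fun t => g1981 u5 u7 t
    have u9 := bf fun t => s2145 t n0 u3 n2 n3 n4
    have u10 := bt fun t => g589 u9 u8 t
    have u11 := bt fun t => g2062 t u9 u10
    have u12 := bf fun t => g2064 w2112 t u11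
    have u13 := bt fun t => g732 u10 u6 g2012 u12 t
    have u14 := bf fun t => g41 u13 t
    have u15 := bf fun t => g741 u10 t n4 u14
    exact g1488 u15 n4 g2012 u12 u14
  have s2147 : T.X p a r d = true → T.alt p a b c d = false → T.X p a c d = true → T.X p b r d = true → False := fun n0 n1 n2 n3 => by
    have u0 := bf fun t => s2082 n0 n3 t
    have u1 := bt fun t => g2052 t u0 n3
    have u2 := bt fun t => g2069 w2111 u1 t
    have u3 := bf fun t => s2081 t u2
    have u4 := bt fun t => s2146 t n0 n1 n2 n3
    have u5 := bt fun t => g1996 u4 t w2142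
    have u6 := bf fun t => g409 t u5
    exact g2024 u3 u6 u5
  have s2148 : T.alt p a b c d = false → T.X p a c d = true → T.X p b r d = true → False := fun n0 n1 n2 => by
    have u0 := bt fun t => g770 n0 t w2142
    have u1 := bf fun t => s2147 t n0 n1 n2
    have u2 := bf fun t => s2144 u1 t n0 n1 n2
    have u3 := bf fun t => g2046 t u1 u2
    have u4 := bf fun t => g324 t g2011 n2 u2
    have u5 := bf fun t => g381 t g2011 n2 u2
    have u6 := bt fun t => g2052 t u3 n2
    have u7 := bt fun t => g2005 u4 t u0
    have u8 := bf fun t => g1988 t u5 n0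
    have u9 := bt fun t => g2069 w2111 u6 t
    have u10 := bf fun t => g590 t u7
    have u11 := bt fun t => g1981 u8 t u7
    have u12 := bf fun t => s2081 t u9
    have u13 := bf fun t => g2008 t u10 n0
    exact g2024 u12 u13 u11
  have s2149 : T.alt p r c a d = true → T.bfo p c d a r = false → False := fun n0 n1 => by
    have u0 := bf fun t => g409 t n0
    exact g2024 n1 u0 n0
  have s2150 : T.alt p r a c d = false → T.alt p r c a d = false → T.X p a c d = true → T.X p b r d = true → False := fun n0 n1 n2 n3 => by
    have u0 := bt fun t => s2148 t n2 n3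
    have u1 := bt fun t => g2009 n0 t u0
    have u2 := bt fun t => g408 n0 n1 t
    have u3 := bf fun t => g591 u1 t
    have u4 := bt fun t => g2055 t n0 u2
    have u5 := bt fun t => g1986 t u2 u3
    have u6 := bt fun t => g2057 t n2 u4
    have u7 := bt fun t => g381 u5 g2011 n3 t
    have u8 := bf fun t => g396 u5 w2076 w2077 t n3
    have u9 := bt fun t => g2070 w2111 t u6
    have u10 := bt fun t => g2048 t u8 u7
    exact g2049 u9 u10 n3
  have s2151 : T.alt p r c b d = true → T.X p b c d = false → T.X p b r d = true → False := fun n0 n1 n2 => by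
    have u0 := bf fun t => g13 t n2
    have u1 := bf fun t => g639 n0 n2 w2078 t
    exact g633 n0 u0 g2012 n1 u1
  have s2152 : T.alt p r c a d = false → T.X p a c d = true → T.X p b r d = true → False := fun n0 n1 n2 => by
    have u0 := bt fun t => s2148 t n1 n2
    have u1 := bf fun t => g771 u0 t
    have u2 := bf fun t => g862 u0 n1 t g2013
    have u3 := bf fun t => s2151 t u2 n2
    have u4 := bf fun t => g2004 t u3 u1
    have u5 := bf fun t => g863 u0 t n1 g2013
    have u6 := bf fun t => g15 n2 t
    have u7 := bf fun t => g1996 t n0 w2142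
    have u8 := bt fun t => s2150 t n0 n1 n2
    have u9 := bt fun t => g227 u4 u7 t
    have u10 := bf fun t => g410 u8 t
    have u11 := bt fun t => g1973 t u4 u8
    have u12 := bt fun t => g1984 u9 u10 t
    have u13 := bf fun t => g157 u11 g2011 t u5
    have u14 := bf fun t => g146 u11 w2076 w2077 u13 t
    have u15 := bt fun t => g732 u12 u6 g2012 u2 t
    exact g1536 u14 n2 w2078 u2 u15
  have s2153 : T.X p a c d = true → T.X p b r d = true → False := fun n0 n1 => by
    have u0 := bf fun t => s2143 t n0
    have u1 := bt fun t => s2152 t n0 n1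
    have u2 := bt fun t => g1998 t u1 w2142
    have u3 := bt fun t => s2149 u1 t
    have u4 := bf fun t => s2081 u3 t
    have u5 := bf fun t => g2069 w2111 t u4
    have u6 := bt fun t => g2052 u5 t n1
    have u7 := bf fun t => s2082 t n1 u6
    have u8 := bt fun t => s2131 t u6 u2
    exact g282 u2 g2011 u7 n1 u0 u8
  have s2154 : T.X p b c d = false → T.alt p r c a d = true → T.X p b r d = true → False := fun n0 n1 n2 => by
    have u0 := bf fun t => s2153 t n2
    have u1 := bf fun t => g2058 t u0
    have u2 := bf fun t => g2069 w2111 t u1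
    have u3 := bt fun t => g2052 u2 t n2
    have u4 := bf fun t => s2082 t n2 u3
    have u5 := bt fun t => g2046 u3 u4 t
    have u6 := bt fun t => g1998 t n1 w2142
    have u7 := bt fun t => g282 u6 g2011 u4 n2 t u5
    have u8 := bf fun t => g228 t u6
    have u9 := bf fun t => g2027 t u0
    have u10 := bf fun t => g13 t n2
    have u11 := bf fun t => g2034 t n0
    have u12 := bf fun t => s2151 t n0 n2
    have u13 := bt fun t => g2041 g2044 t u11
    have u14 := bf fun t => g2005 u8 u12 t
    have u15 := bt fun t => g1982 t n1 u12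
    have u16 := bt fun t => g2037 u13 t u9
    have u17 := bt fun t => g770 t u14 w2142
    have u18 := bf fun t => g861 u17 t u7 g2013
    have u19 := bt fun t => s2121 t u15 u16 u18
    have u20 := bf fun t => g10 t u19
    have u21 := bt fun t => g1517 u19 u10 g2012 n0 t
    have u22 := bt fun t => g1488 u20 n2 g2012 n0 t
    exact g42 u21 u22
  have s2155 : T.alt p r c a d = true → T.X p b r d = true → False := fun n0 n1 => by
    have u0 := bf fun t => s2153 t n1
    have u1 := bf fun t => g2058 t u0
    have u2 := bf fun t => g2069 w2111 t u1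
    have u3 := bt fun t => g2052 u2 t n1
    have u4 := bf fun t => s2082 t n1 u3
    have u5 := bt fun t => g2046 u3 u4 t
    have u6 := bf fun t => g35 t u5
    have u7 := bf fun t => g2027 t u0
    have u8 := bf fun t => g15 n1 t
    have u9 := bf fun t => g13 t n1
    have u10 := bf fun t => g411 n0 t
    have u11 := bt fun t => g1998 t n0 w2142
    have u12 := bf fun t => g230 u11 t
    have u13 := bf fun t => g268 u11 w2076 w2077 t u8
    have u14 := bt fun t => g282 u11 g2011 u4 n1 t u5
    have u15 := bf fun t => g1985 u12 u10 t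
    have u16 := bt fun t => s2154 t n0 n1
    have u17 := bf fun t => g28 u16 t
    have u18 := bf fun t => g29 u16 t
    have u19 := bf fun t => g2064 w2112 u16 t
    have u20 := bf fun t => g866 t u14 u16 g2013
    have u21 := bf fun t => g2060 u19 t n1
    have u22 := bt fun t => g770 u20 t w2142
    have u23 := bt fun t => g1978 t u11 u21
    have u24 := bt fun t => g589 u21 t u15
    have u25 := bf fun t => g809 u22 t u16 g2013
    have u26 := bf fun t => g98 u23 g2011 t u25
    have u27 := bt fun t => g2031 t u21 u24
    have u28 := bt fun t => g609 u24 n1 w2078 u18 t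
    have u29 := bf fun t => g87 u23 w2076 w2077 t u26
    have u30 := bt fun t => g2033 t u16 u27
    have u31 := bf fun t => g42 t u28
    have u32 := bt fun t => g433 n0 u29 g2012 u0 t
    have u33 := bf fun t => g2040 g2044 t u30
    have u34 := bt fun t => g604 u24 t u9 w2079 u17 u31
    have u35 := bf fun t => g1312 t u13 w2079 u0 u32
    have u36 := bf fun t => g1829 t u6 u32 u31 g2013
    have u37 := bf fun t => g2038 u33 t u7
    have u38 := bt fun t => g2021 u37 t u34
    exact g2015 u38 u35 u36
  have s2156 : T.alt p r d a b = true → T.X p d a b = true → T.X p b r d = true → False := fun n0 n1 n2 => by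
    have u0 := bf fun t => g24 t n1
    have u1 := bf fun t => g393 n0 w2077 t n2
    have u2 := bt fun t => g391 n0 g2011 t u1 n1
    exact g397 n0 u2 n2 u0
  have s2157 : T.X p b c d = true → T.alt p r a c d = true → T.X p d a b = true → T.X p b r d = true → False := fun n0 n1 n2 n3 => by
    have u0 := bf fun t => g2064 w2112 n0 t
    have u1 := bf fun t => g866 t n2 n0 g2013
    have u2 := bf fun t => g2060 u0 t n3
    exact g2008 n1 u2 u1
  have s2158 : T.alt p r d b c = false → T.X p d a b = true → T.X p b r d = true → False := fun n0 n1 n2 => by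
    have u0 := bf fun t => s2153 t n2
    have u1 := bf fun t => g2058 t u0
    have u2 := bf fun t => g2069 w2111 t u1
    have u3 := bt fun t => g2052 u2 t n2
    have u4 := bf fun t => s2082 t n2 u3
    have u5 := bt fun t => g2046 u3 u4 t
    have u6 := bf fun t => g35 t u5
    have u7 := bf fun t => g1197 w2077 u4 n2 t u6
    have u8 := bf fun t => g13 t n2
    have u9 := bf fun t => s2155 t n2
    have u10 := bf fun t => g1996 t u9 w2142
    have u11 := bf fun t => s2156 t n1 n2
    have u12 := bt fun t => g227 t u10 u11
    have u13 := bt fun t => g301 u12 w2077 t u8 u7 u6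
    have u14 := bf fun t => g2027 t u0
    have u15 := bf fun t => g2000 t n0 w2142
    have u16 := bf fun t => g1986 u11 t n0
    have u17 := bt fun t => g1974 u15 u12 t
    have u18 := bf fun t => g515 u17 t u13 w2079
    have u19 := bf fun t => s2157 t u17 n1 n2
    have u20 := bf fun t => g2034 t u19
    have u21 := bf fun t => s2151 t u19 n2
    have u22 := bt fun t => g2041 g2044 t u20
    have u23 := bt fun t => g2004 u12 u21 t
    have u24 := bt fun t => g2037 u22 t u14
    have u25 := bt fun t => g792 u23 t n1 u19 g2013
    have u26 := bt fun t => g1993 t u16 u23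
    exact s2104 u18 u26 u24 u25
  have s2159 : T.alt p r d b c = true → T.X p b r d = true → False := fun n0 n1 => by
    have u0 := bf fun t => g15 n1 t
    have u1 := bf fun t => g591 t n0
    have u2 := bt fun t => g2062 t u1 n0
    have u3 := bf fun t => g2064 w2112 t u2
    have u4 := bt fun t => g732 n0 u0 g2012 u3 t
    have u5 := bf fun t => g41 u4 t
    have u6 := bf fun t => g741 n0 t n1 u5
    exact g1488 u6 n1 g2012 u3 u5
  have s2160 : T.X p b c d = false → T.X p b r d = true → False := fun n0 n1 => by
    have u0 := bf fun t => s2153 t n1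
    have u1 := bf fun t => g13 t n1
    have u2 := bf fun t => g2058 t u0
    have u3 := bf fun t => g2069 w2111 t u2
    have u4 := bt fun t => g2052 u3 t n1
    have u5 := bf fun t => s2082 t n1 u4
    have u6 := bt fun t => g2046 u4 u5 t
    have u7 := bf fun t => g35 t u6
    have u8 := bf fun t => s2159 t n1
    have u9 := bf fun t => s2158 u8 t n1
    have u10 := bf fun t => g1162 g2011 t u1 u9 u7
    have u11 := bf fun t => s2155 t n1
    have u12 := bf fun t => g1996 t u11 w2142
    have u13 := bf fun t => g1197 w2077 u5 n1 t u7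
    have u14 := bf fun t => g301 t w2077 u10 u1 u13 u7
    have u15 := bt fun t => g227 u14 u12 t
    have u16 := bt fun t => g1984 u15 t u8
    have u17 := bt fun t => g551 u16 u10 g2012 u0 t
    have u18 := bf fun t => g1312 t u10 w2079 u0 u17
    have u19 := bf fun t => g2027 t u0
    have u20 := bf fun t => g2034 t n0
    have u21 := bf fun t => s2151 t n0 n1
    have u22 := bt fun t => g2041 g2044 t u20
    have u23 := bf fun t => g2005 u14 u21 t
    have u24 := bt fun t => g2037 u22 t u19
    have u25 := bt fun t => g770 t u23 w2142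
    have u26 := bt fun t => g1994 t u16 u23
    have u27 := bf fun t => s2104 u18 u26 u24 t
    exact g844 u25 u27 u9 u0 n0 g2013
  have s2161 : T.X p b r d = true → False := fun n0 => by
    have u0 := bf fun t => g13 t n0
    have u1 := bf fun t => s2153 t n0
    have u2 := bf fun t => g2058 t u1
    have u3 := bf fun t => g2069 w2111 t u2
    have u4 := bt fun t => g2052 u3 t n0
    have u5 := bf fun t => s2082 t n0 u4
    have u6 := bt fun t => g2046 u4 u5 t
    have u7 := bf fun t => g35 t u6
    have u8 := bf fun t => g1197 w2077 u5 n0 t u7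
    have u9 := bf fun t => s2155 t n0
    have u10 := bf fun t => g1996 t u9 w2142
    have u11 := bf fun t => s2159 t n0
    have u12 := bf fun t => s2158 u11 t n0
    have u13 := bf fun t => g1162 g2011 t u0 u12 u7
    have u14 := bf fun t => g301 t w2077 u13 u0 u8 u7
    have u15 := bt fun t => g227 u14 u10 t
    have u16 := bt fun t => g1984 u15 t u11
    have u17 := bt fun t => s2160 t n0
    have u18 := bf fun t => g2064 w2112 u17 t
    have u19 := bf fun t => g793 t u12 u1 u17 g2013
    have u20 := bf fun t => g2060 u18 t n0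
    have u21 := bt fun t => g1994 t u16 u19
    exact g1976 u21 u10 u20
  have w2161 := bf s2161
  have s2162 : T.alt p r c b d = false → T.X p c a b = false → T.alt p r d a c = true → T.alt p r a b d = false → T.X p b c d = true → False := fun n0 n1 n2 n3 n4 => by
    have u0 := bf fun t => g410 t n2
    have u1 := bf fun t => g1972 t n3 u0
    have u2 := bf fun t => g2002 u1 t w2142
    have u3 := bf fun t => g411 t n2
    have u4 := bf fun t => g2025 t u0 u3
    have u5 := bf fun t => g2028 t u4
    have u6 := bf fun t => g29 n4 t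
    have u7 := bf fun t => g2005 n3 n0 t
    have u8 := bt fun t => g589 t n0 u2
    have u9 := bt fun t => g1994 t n2 u7
    have u10 := bt fun t => g681 u8 g2012 n4 t
    have u11 := bf fun t => g41 u10 t
    have u12 := bf fun t => g676 u8 t w2161 u6 u11
    have u13 := bt fun t => g694 u8 u12 t g2012 n4
    have u14 := bt fun t => g2029 t u8 u13
    have u15 := bt fun t => g2033 t n4 u14
    have u16 := bf fun t => g2040 g2044 t u15
    have u17 := bf fun t => g2038 u16 t u5
    have u18 := bt fun t => g2021 u17 t u13
    have u19 := bf fun t => s2130 t u18 u9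
    have u20 := bt fun t => g2015 u18 u19 t
    exact g101 u9 g2011 u19 u13 n1 u20
  have s2163 : v70 = true → T.alt p r d a b = true → T.X p d a b = false → False := fun n0 n1 n2 => by
    have u0 := bt fun t => g2050 n0 t w2161
    have u1 := bf fun t => s2097 n1 t n0
    have u2 := bf fun t => g387 n1 g2011 u1 w2161 n2 t
    exact g2046 u0 u1 u2
  have s2164 : T.alt p r d a c = true → T.alt p r a b d = false → T.X p b c d = true → T.X p d a b = false → False := fun n0 n1 n2 n3 => by
    have u0 := bf fun t => g410 t n0
    have u1 := bf fun t => g411 t n0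
    have u2 := bt fun t => g2055 t u0 n0
    have u3 := bf fun t => g1996 t u1 w2142
    have u4 := bt fun t => g227 n1 u3 t
    have u5 := bf fun t => s2163 t u4 n3
    have u6 := bf fun t => g2070 w2111 u5 t
    have u7 := bf fun t => g2057 u6 t u2
    have u8 := bf fun t => g793 t n3 u7 n2 g2013
    have u9 := bt fun t => g770 t u8 w2142
    have u10 := bf fun t => g2006 n1 t u8
    have u11 := bf fun t => g864 u9 t n2 g2013
    exact s2162 u10 u11 n0 n1 n2
  have s2165 : T.alt p r d b c = true → T.bfo p d c b r = false → False := fun n0 n1 => by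
    have u0 := bf fun t => g591 t n0
    exact g2062 n1 u0 n0
  have s2166 : T.alt p r a b d = false → T.X p b c d = true → T.X p d a b = false → False := fun n0 n1 n2 => by
    have u0 := bf fun t => g2064 w2112 n1 t
    have u1 := bf fun t => s2165 t u0
    have u2 := bf fun t => g2000 t u1 w2142
    have u3 := bf fun t => s2164 t n0 n1 n2
    have u4 := bf fun t => g1984 t u3 u1
    have u5 := bf fun t => g1973 u2 n0 t
    have u6 := bt fun t => g227 n0 t u4
    have u7 := bt fun t => g408 u5 t u3
    have u8 := bt fun t => g2024 t u5 u7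
    have u9 := bt fun t => s2117 u6 t n2 w2161
    have u10 := bf fun t => s2081 u8 t
    have u11 := bt fun t => g2051 t u9 w2161
    exact g2069 w2111 u11 u10
  have s2167 : T.X p b c d = true → T.X p d a b = false → False := fun n0 n1 => by
    have u0 := bf fun t => g28 n0 t
    have u1 := bf fun t => g2064 w2112 n0 t
    have u2 := bf fun t => s2165 t u1
    have u3 := bf fun t => g2000 t u2 w2142
    have u4 := bt fun t => s2166 t n0 n1
    have u5 := bf fun t => g338 u4 g2011 t n1
    have u6 := bt fun t => s2114 w2161 t u4 n1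
    have u7 := bt fun t => g1974 u3 u4 t
    have u8 := bf fun t => g327 u4 w2076 w2077 u5 t
    have u9 := bt fun t => g2069 w2111 u6 t
    have u10 := bt fun t => g2058 u9 t
    have u11 := bt fun t => g2059 u9 t
    have u12 := bf fun t => s2081 t u9
    have u13 := bf fun t => g862 t u10 n0 g2013
    have u14 := bt fun t => g500 u7 g2012 u10 t
    have u15 := bt fun t => g2054 u11 u7 t
    have u16 := bf fun t => g2028 t u12
    have u17 := bf fun t => g2022 u12 u7 t
    have u18 := bt fun t => g2008 u7 t u13
    have u19 := bf fun t => g37 u14 t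
    have u20 := bf fun t => g7 t u15
    have u21 := bt fun t => g681 u18 g2012 n0 t
    have u22 := bf fun t => g1191 g2011 u20 u8 n1 t
    have u23 := bf fun t => g40 u21 t
    have u24 := bt fun t => g1552 t w2161 u8 g2012 n0 u21
    have u25 := bf fun t => g1875 t u22 u19 u21 g2013
    have u26 := bt fun t => g673 u18 t u24 u0 u23
    have u27 := bf fun t => g2015 t u17 u25
    have u28 := bt fun t => g2029 t u18 u26
    have u29 := bt fun t => g2021 t u27 u26
    have u30 := bt fun t => g2033 t n0 u28
    have u31 := bt fun t => g2038 t u29 u16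
    exact g2040 g2044 u31 u30
  have s2168 : T.alt p r b c d = true → v62 = true → T.X p a r c = false → T.X p a c d = true → T.alt p r a b d = true → T.X p b c d = false → False := fun n0 n1 n2 n3 n4 n5 => by
    have u0 := bf fun t => g228 n4 t
    have u1 := bf fun t => g590 n0 t
    have u2 := bt fun t => g1977 t u0 n0
    have u3 := bt fun t => g2004 n4 u1 t
    have u4 := bf fun t => s2104 n2 u2 n1 t
    exact g795 u3 u4 n3 n5 g2013
  have s2169 : T.alt p r a b d = true → T.alt p r a b c = false → T.X p d a b = false → False := fun n0 n1 n2 => by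
    have u0 := bf fun t => s2167 t n2
    have u1 := bf fun t => g2034 t u0
    have u2 := bt fun t => g2041 g2044 t u1
    have u3 := bf fun t => g228 n0 t
    have u4 := bt fun t => s2114 w2161 t n0 n2
    have u5 := bt fun t => g1974 n1 n0 t
    have u6 := bt fun t => g2069 w2111 u4 t
    have u7 := bt fun t => g2058 u6 t
    have u8 := bf fun t => s2081 t u6
    have u9 := bf fun t => g2028 t u8
    have u10 := bf fun t => g2022 u8 u5 t
    have u11 := bt fun t => g2037 u2 t u9
    have u12 := bf fun t => s2168 t u11 u10 u7 n0 u0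
    have u13 := bf fun t => g1976 t u3 u12
    have u14 := bf fun t => s2123 t u12 w2161 u0
    have u15 := bt fun t => g2008 u5 u12 t
    have u16 := bt fun t => g46 n1 u13 t
    have u17 := bt fun t => s2121 u14 u16 u11 t
    exact g863 u15 u17 u7 g2013
  have s2170 : v72 = true → T.alt p r d b c = false → T.X p d a b = false → False := fun n0 n1 n2 => by
    have u0 := bf fun t => g2000 t n1 w2142
    have u1 := bf fun t => s2169 t u0 n2
    have u2 := bf fun t => g1973 u0 u1 t
    have u3 := bt fun t => g2059 n0 t
    have u4 := bt fun t => g2070 w2111 t n0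
    have u5 := bt fun t => g2056 u3 u2 t
    have u6 := bf fun t => s2163 u4 t n2
    exact g1986 u6 u5 n1
  have s2171 : T.alt p r b c d = false → T.alt p r d b c = false → T.X p d a b = false → False := fun n0 n1 n2 => by
    have u0 := bf fun t => s2167 t n2
    have u1 := bf fun t => g2034 t u0
    have u2 := bt fun t => g2041 g2044 t u1
    have u3 := bf fun t => g2000 t n1 w2142
    have u4 := bf fun t => s2169 t u3 n2
    have u5 := bf fun t => g1973 u3 u4 t
    have u6 := bf fun t => s2170 t n1 n2
    have u7 := bf fun t => g2069 w2111 t u6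
    have u8 := bf fun t => g2051 u7 t w2161
    have u9 := bf fun t => s2117 t u8 n2 w2161
    have u10 := bf fun t => g1998 u9 t w2142
    have u11 := bf fun t => g2025 t u5 u10
    have u12 := bf fun t => g2028 t u11
    have u13 := bt fun t => g2037 u2 t u12
    have u14 := bt fun t => g408 u5 u10 t
    have u15 := bt fun t => g2055 t u5 u14
    have u16 := bf fun t => g2057 u6 t u15
    have u17 := bf fun t => g1976 t u9 n0
    have u18 := bf fun t => s2123 t n0 w2161 u0
    have u19 := bt fun t => g1994 u17 u14 t
    have u20 := bt fun t => g46 u3 u17 t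
    have u21 := bt fun t => s2121 u18 u20 u13 t
    exact g797 u19 u21 n2 u16 g2013
  have s2172 : T.alt p r d b c = false → T.X p d a b = false → False := fun n0 n1 => by
    have u0 := bf fun t => s2167 t n1
    have u1 := bf fun t => g2034 t u0
    have u2 := bt fun t => g2041 g2044 t u1
    have u3 := bf fun t => g2000 t n0 w2142
    have u4 := bf fun t => s2169 t u3 n1
    have u5 := bf fun t => g1973 u3 u4 t
    have u6 := bf fun t => s2170 t n0 n1
    have u7 := bf fun t => g2069 w2111 t u6
    have u8 := bf fun t => g2051 u7 t w2161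
    have u9 := bf fun t => s2117 t u8 n1 w2161
    have u10 := bf fun t => g1998 u9 t w2142
    have u11 := bt fun t => g408 u5 u10 t
    have u12 := bf fun t => g2025 t u5 u10
    have u13 := bt fun t => g2055 t u5 u11
    have u14 := bf fun t => s2096 u11 t u6
    have u15 := bf fun t => g2028 t u12
    have u16 := bf fun t => g2057 u6 t u13
    have u17 := bt fun t => g2037 u2 t u15
    have u18 := bt fun t => s2171 t n0 n1
    have u19 := bt fun t => g2010 u5 u18 t
    have u20 := bt fun t => g1977 t u9 u18
    have u21 := bt fun t => g844 u19 t n1 u16 u0 g2013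
    have u22 := bt fun t => s2104 t u20 u17 u21
    have u23 := bf fun t => g4 t u22
    have u24 := bf fun t => g576 u11 u22 w2079 t
    have u25 := bf fun t => g1363 u22 u14 w2079 u24 t
    exact g541 u11 u23 u14 w2078 u24 u25
  have s2173 : T.alt p r d a c = true → T.X p d a b = false → False := fun n0 n1 => by
    have u0 := bt fun t => s2172 t n1
    have u1 := bf fun t => g592 t u0
    have u2 := bt fun t => g2002 t u0 w2142
    have u3 := bf fun t => g48 u2 t
    have u4 := bf fun t => g1982 u3 t u1
    have u5 := bf fun t => g47 u2 t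
    have u6 := bf fun t => s2167 t n1
    have u7 := bf fun t => g591 t u0
    have u8 := bf fun t => s2123 t u7 w2161 u6
    have u9 := bf fun t => g2034 t u6
    have u10 := bt fun t => g2041 g2044 t u9
    have u11 := bf fun t => g410 t n0
    have u12 := bt fun t => g1994 u5 n0 t
    have u13 := bt fun t => g1972 u2 t u11
    have u14 := bf fun t => g2025 t u11 u4
    have u15 := bt fun t => s2114 w2161 t u13 n1
    have u16 := bf fun t => g2028 t u14
    have u17 := bt fun t => g2069 w2111 u15 t
    have u18 := bt fun t => g2037 u10 t u16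
    have u19 := bt fun t => g2058 u17 t
    have u20 := bt fun t => g2019 u18 t u8
    have u21 := bt fun t => g795 u12 t u19 u6 g2013
    exact s2127 u21 u20 u8 u2
  have s2174 : T.X p a c d = true → T.X p d a b = false → False := fun n0 n1 => by
    have u0 := bt fun t => s2172 t n1
    have u1 := bf fun t => s2173 t n1
    have u2 := bt fun t => g1985 t u1 u0
    have u3 := bf fun t => s2163 t u2 n1
    have u4 := bf fun t => g2070 w2111 u3 t
    have u5 := bf fun t => g591 t u0
    have u6 := bf fun t => g592 t u0
    have u7 := bt fun t => g2002 t u0 w2142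
    have u8 := bf fun t => g48 u7 t
    have u9 := bf fun t => g1982 u8 t u6
    have u10 := bt fun t => g408 t u9 u1
    have u11 := bt fun t => g2008 u10 u5 t
    have u12 := bf fun t => s2167 t n1
    have u13 := bf fun t => s2123 t u5 w2161 u12
    have u14 := bf fun t => g2034 t u12
    have u15 := bt fun t => g2041 g2044 t u14
    have u16 := bf fun t => g26 n0 t
    have u17 := bf fun t => g2057 u4 n0 t
    have u18 := bt fun t => g500 u10 g2012 n0 t
    have u19 := bf fun t => g863 u11 t n0 g2013
    have u20 := bf fun t => g2053 u17 u10 t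
    have u21 := bf fun t => g38 u18 t
    have u22 := bf fun t => g495 u10 t u20 u16 u21
    have u23 := bt fun t => g513 u10 u22 t g2012 n0
    have u24 := bt fun t => g2022 t u10 u23
    have u25 := bf fun t => g160 u7 g2011 u23 u13 u19 t
    have u26 := bt fun t => g2026 t n0 u24
    have u27 := bt fun t => g2016 t u23 u25
    have u28 := bf fun t => g2036 u15 t u26
    exact g2020 u28 u27 u13
  have s2175 : T.X p d a b = false → False := fun n0 => by
    have u0 := bf fun t => s2167 t n0
    have u1 := bf fun t => g2034 t u0
    have u2 := bt fun t => g2041 g2044 t u1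
    have u3 := bt fun t => s2172 t n0
    have u4 := bf fun t => g591 t u3
    have u5 := bf fun t => g592 t u3
    have u6 := bt fun t => g2002 t u3 w2142
    have u7 := bf fun t => s2123 t u4 w2161 u0
    have u8 := bf fun t => g48 u6 t
    have u9 := bf fun t => g1982 u8 t u5
    have u10 := bf fun t => s2173 t n0
    have u11 := bt fun t => g408 t u9 u10
    have u12 := bt fun t => g2008 u11 u4 t
    have u13 := bf fun t => s2174 t n0
    have u14 := bf fun t => g2027 t u13
    have u15 := bt fun t => g844 u12 t n0 u13 u0 g2013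
    have u16 := bt fun t => g2037 u2 t u14
    have u17 := bf fun t => s2127 u15 t u7 u6
    exact g2019 u16 u17 u7
  have w2175 := bt s2175
  have s2178 := fun (n0 : T.X p a c d = true) => s2143 w2175 n0
  have w2178 := bf s2178
  have s2179 := fun (n0 : v64 = true) => g2027 n0 w2178
  have w2179 := bf s2179
  have s2180 := fun (n0 : v72 = true) => g2058 n0 w2178
  have w2180 := bf s2180
  have s2181 := fun (n0 : v70 = true) => g2069 w2111 n0 w2180
  have w2181 := bf s2181
  have s2182 := fun (n0 : v69 = true) => g2051 w2181 n0 w2161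
  have w2182 := bf s2182
  have s2183 : T.alt p r a b c = true → T.X p c a b = true → v62 = true → False := fun n0 n1 n2 => by
    have u0 := bf fun t => g861 t n1 w2175 g2013
    have u1 := bt fun t => g770 u0 t w2142
    have u2 := bf fun t => g809 u1 n1 t g2013
    have u3 := bt fun t => g2000 n0 t w2142
    have u4 := bf fun t => g591 t u3
    have u5 := bf fun t => s2123 t u4 w2161 u2
    have u6 := bt fun t => g2019 n2 t u5
    exact s2127 n1 u6 u5 n0
  have s2184 : T.alt p r c a d = false → T.alt p r a b d = false → T.alt p r a c d = false → False := fun n0 n1 n2 => by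
    have u0 := bf fun t => g1996 t n0 w2142
    have u1 := bt fun t => g408 n2 n0 t
    have u2 := bt fun t => g227 n1 u0 t
    have u3 := bf fun t => s2096 u1 t w2180
    have u4 := bt fun t => g378 u2 g2011 w2175 t
    exact g2048 w2182 u3 u4
  have s2185 : T.alt p r b a c = true → v61 = true → T.X p c a b = true → v62 = true → False := fun n0 n1 n2 n3 => by
    have u0 := bt fun t => s2104 t n0 n3 n2
    exact s2130 u0 n1 n0
  have s2186 : T.alt p r b a c = false → T.alt p r a b c = false → T.alt p a b c d = false → False := fun n0 n1 n2 => by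
    have u0 := bt fun t => g770 n2 t w2142
    have u1 := bt fun t => g46 n1 n0 t
    have u2 := bt fun t => g1993 n0 t u0
    have u3 := bt fun t => g1988 u1 t n2
    have u4 := bf fun t => g410 t u2
    have u5 := bf fun t => g411 t u2
    have u6 := bf fun t => g229 t u3
    exact s2184 u5 u6 u4
  have s2187 : T.alt p r b a c = true → T.X p c a b = true → v62 = true → False := fun n0 n1 n2 => by
    have u0 := bt fun t => s2104 t n0 n2 n1
    have u1 := bf fun t => s2185 n0 t n1 n2
    have u2 := bf fun t => g1047 g2011 u0 t n1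
    exact g2019 n2 u1 u2
  have s2188 : T.X p c a b = true → v62 = true → False := fun n0 n1 => by
    have u0 := bf fun t => g861 t n0 w2175 g2013
    have u1 := bf fun t => s2183 t n0 n1
    have u2 := bt fun t => s2186 t u1 u0
    exact s2187 u2 n0 n1
  have s2189 : T.alt p r b c d = false → T.bfo p c d b r = false → T.alt p r d b c = false → False := fun n0 n1 n2 => by
    have u0 := bt fun t => g589 n0 t n2
    exact g2031 n1 n0 u0
  have s2190 : T.X p b c d = true → T.alt p r d b c = false → T.X p c r b = false → v66 = false → False := fun n0 n1 n2 n3 => by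
    have u0 := bf fun t => g29 n0 t
    have u1 := bf fun t => g2033 n3 n0 t
    have u2 := bt fun t => s2189 t u1 n1
    have u3 := bt fun t => g681 u2 g2012 n0 t
    have u4 := bf fun t => g2029 u1 u2 t
    have u5 := bf fun t => g41 u3 t
    have u6 := bt fun t => g1524 t u4 n2 g2012 n0 u3
    exact g676 u2 u6 w2161 u0 u5
  have s2191 : T.alt p r b a c = true → v62 = true → False := fun n0 n1 => by
    have u0 := bf fun t => s2188 t n1
    have u1 := bt fun t => g2038 t n1 w2179
    have u2 := bf fun t => g2040 g2044 u1 t
    have u3 := bf fun t => g47 t n0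
    have u4 := bf fun t => g49 n0 t
    have u5 := bf fun t => g98 n0 g2011 t u0
    have u6 := bf fun t => g2002 u3 t w2142
    have u7 := bf fun t => s2190 t u6 u5 u2
    have u8 := bf fun t => g792 t u0 w2175 u7 g2013
    have u9 := bt fun t => g770 t u8 w2142
    have u10 := bt fun t => g1992 n0 t u8
    have u11 := bt fun t => g1989 u4 t u9
    have u12 := bf fun t => g410 t u10
    have u13 := bf fun t => g411 t u10
    have u14 := bf fun t => g229 t u11
    exact s2184 u13 u14 u12
  have s2192 : T.alt p r c a b = true → v62 = true → False := fun n0 n1 => by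
    have u0 := bf fun t => s2188 t n1
    have u1 := bt fun t => s2120 t n0 n1
    have u2 := bt fun t => s2121 t n0 n1 u0
    have u3 := bf fun t => g215 n0 w2076 w2077 t u2
    have u4 := bf fun t => g2018 n1 t u2
    exact g2017 u4 u3 u1
  have s2193 : T.alt p r d a b = true → False := fun n0 => by
    have u0 := bt fun t => g378 n0 g2011 w2175 t
    have u1 := bt fun t => g2048 w2182 t u0
    have u2 := bf fun t => g7 t u1
    have u3 := bf fun t => g9 u1 t
    exact g391 n0 g2011 u2 u3 w2175
  have w2193 := bf s2193
  have s2194 : T.alt p r a b c = true → False := fun n0 => by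
    have u0 := bf fun t => g48 n0 t
    have u1 := bt fun t => g2000 n0 t w2142
    have u2 := bf fun t => g1989 u0 w2193 t
    have u3 := bf fun t => g591 t u1
    have u4 := bf fun t => g592 t u1
    have u5 := bt fun t => s2165 u1 t
    have u6 := bt fun t => g770 u2 t w2142
    have u7 := bf fun t => g2032 t u3 u4
    have u8 := bf fun t => g2064 w2112 t u5
    have u9 := bf fun t => g2035 t u7
    have u10 := bt fun t => g792 u6 t w2175 u8 g2013
    have u11 := bt fun t => g2041 g2044 t u9
    have u12 := bf fun t => s2188 u10 t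
    exact g2037 u11 u12 w2179
  have w2194 := bf s2194
  have s2197 : T.X p c a b = true → False := fun n0 => by
    have u0 := bf fun t => g861 t n0 w2175 g2013
    have u1 := bf fun t => s2188 n0 t
    have u2 := bt fun t => g770 u0 t w2142
    have u3 := bf fun t => g2037 t u1 w2179
    have u4 := bf fun t => g809 u2 n0 t g2013
    have u5 := bt fun t => g2041 g2044 u3 t
    exact g2034 u5 u4
  have w2197 := bf s2197
  have s2198 : T.X p b r c = false → T.alt p r b a c = true → False := fun n0 n1 => by
    have u0 := bf fun t => s2191 n1 t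
    have u1 := bf fun t => g98 n1 g2011 t w2197
    have u2 := bt fun t => g74 n1 g2011 n0 w2197 t
    have u3 := bf fun t => g2020 u0 t n0
    have u4 := bf fun t => g33 t u2
    have u5 := bt fun t => g2017 u3 t u2
    have u6 := bf fun t => g4 t u5
    have u7 := bf fun t => g96 n1 u5 n0 t
    exact g61 n1 w2076 u6 u1 u7 u4
  have s2199 : T.alt p r b a c = true → False := fun n0 => by
    have u0 := bf fun t => s2191 n0 t
    have u1 := bt fun t => s2198 t n0
    have u2 := bt fun t => g2021 u0 t u1
    have u3 := bf fun t => s2130 t u2 n0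
    have u4 := bt fun t => g2015 u2 u3 t
    exact g101 n0 g2011 u3 u1 w2197 u4
  have w2199 := bf s2199
  have s2200 := fun (n0 : T.alt p a b c d = false) => s2186 w2199 w2194 n0
  have w2200 := bt s2200
  have s2201 := fun (n0 : T.alt p r c a b = false) => g46 w2194 w2199 n0
  have w2201 := bt s2201
  have s2203 := fun (n0 : T.X p b c d = true) => g866 w2200 w2175 n0 g2013
  have w2203 := bf s2203
  have s2204 := fun (n0 : v62 = true) => s2192 w2201 n0
  have w2204 := bf s2204
  have s2205 := fun (n0 : v66 = true) => g2034 n0 w2203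
  have w2205 := bf s2205
  have s2206 := fun (n0 : v67 = true) => g2037 n0 w2204 w2179
  have w2206 := bf s2206
  exact g2041 g2044 w2206 w2205

theorem fl_t {p r a b c d : V} (hN : [p, r, a, b, c, d].Nodup) (h0 : T.X p r a b = true) (h1 : T.X p r c d = true)
    (h2 : T.X a b c d = false) (h3 : T.lto p r c d a b = false) (h4 : T.lto p r a b c d = false) : False := by
  obtain ⟨v61, e61⟩ : ∃ v : Bool, v = (T.X p a r c ^^ T.X r c a b) := ⟨_, rfl⟩
  obtain ⟨v62, e62⟩ : ∃ v : Bool, v = (v61 ^^ T.X p b r c) := ⟨_, rfl⟩
  have B63 : T.bfo p c d a r = (bif T.alt p r a c d then T.X p a r c else T.alt p r c a d) :=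
    T.bfo_eq (T.as5 p c d a r) (T.xs2 p a c r) (T.as1 p c r a d)
  obtain ⟨v64, e64⟩ : ∃ v : Bool, v = (T.X p a c d && T.bfo p c d a r) := ⟨_, rfl⟩
  have B65 : T.bfo p c d b r = (bif T.alt p r b c d then T.X p b r c else T.alt p r c b d) :=
    T.bfo_eq (T.as5 p c d b r) (T.xs2 p b c r) (T.as1 p c r b d)
  obtain ⟨v66, e66⟩ : ∃ v : Bool, v = (T.X p b c d && T.bfo p c d b r) := ⟨_, rfl⟩
  obtain ⟨v67, e67⟩ : ∃ v : Bool, v = (v62 ^^ v64) := ⟨_, rfl⟩
  have L68 : T.lto p r c d a b = (v67 ^^ v66) :=
    T.lto_eq (T.xs6 c r p a) (T.xs1 c r a b) (T.xs7 c r b p) rfl rfl e61 e62 e64 e67 e66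
  obtain ⟨v69, e69⟩ : ∃ v : Bool, v = (T.X p c r a ^^ T.X r a c d) := ⟨_, rfl⟩
  obtain ⟨v70, e70⟩ : ∃ v : Bool, v = (v69 ^^ T.X p d r a) := ⟨_, rfl⟩
  have B71 : T.bfo p a b c r = (bif T.alt p r c a b then T.X p c r a else T.alt p r a b c) :=
    T.bfo_eq (T.as5 p a b c r) (T.xs2 p c a r) (T.as3 p a r c b)
  obtain ⟨v72, e72⟩ : ∃ v : Bool, v = (T.X p c a b && T.bfo p a b c r) := ⟨_, rfl⟩
  have B73 : T.bfo p a b d r = (bif T.alt p r d a b then T.X p d r a else T.alt p r a b d) :=
    T.bfo_eq (T.as5 p a b d r) (T.xs2 p d a r) (T.as3 p a r d b)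
  obtain ⟨v74, e74⟩ : ∃ v : Bool, v = (T.X p d a b && T.bfo p a b d r) := ⟨_, rfl⟩
  obtain ⟨v75, e75⟩ : ∃ v : Bool, v = (v70 ^^ v72) := ⟨_, rfl⟩
  have L76 : T.lto p r a b c d = (v75 ^^ v74) :=
    T.lto_eq (T.xs6 a r p c) (T.xs1 a r c d) (T.xs7 a r d p) rfl rfl e69 e70 e72 e75 e74
  have k0 : T.Ok5 p r a b c := T.n5 hN (.cons_cons _ (.cons_cons _ (.cons_cons _ (.cons_cons _ (.cons_cons _ (List.nil_sublist _))))))
  have k1 : T.Ok5 p r a b d := T.n5 hN (.cons_cons _ (.cons_cons _ (.cons_cons _ (.cons_cons _ (.cons _ (.cons_cons _ (List.nil_sublist _)))))))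
  have k2 : T.Ok5 p r a c d := T.n5 hN (.cons_cons _ (.cons_cons _ (.cons_cons _ (.cons _ (.cons_cons _ (.cons_cons _ (List.nil_sublist _)))))))
  have k3 : T.Ok5 p r b c d := T.n5 hN (.cons_cons _ (.cons_cons _ (.cons _ (.cons_cons _ (.cons_cons _ (.cons_cons _ (List.nil_sublist _)))))))
  have k4 : T.Ok5 p a b c d := T.n5 hN (.cons_cons _ (.cons _ (.cons_cons _ (.cons_cons _ (.cons_cons _ (.cons_cons _ (List.nil_sublist _)))))))
  have sp0 : T.Sp5 p r a b c d := T.sp5 hN (.cons_cons _ (.cons_cons _ (.cons_cons _ (.cons_cons _ (.cons_cons _ (.cons_cons _ (List.nil_sublist _)))))))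
  have g1 := T.q01 p r a b
  have g2 := T.q02 p r a b
  have g4 := T.q01 p r a c
  have g5 := T.q02 p r a c
  have g6 := T.q12 p r a c
  have g8 := T.q02 p r a d
  have g10 := T.q01 p r b c
  have g12 := T.q12 p r b c
  have g16 := T.q01 p r c d
  have g17 := T.q02 p r c d
  have g21 := T.q12 p a b c
  have g24 := T.q12 p a b d
  have g26 := T.q02 p a c d
  have g32 := T.q02 r a b c
  have g37 := T.q01 r a c d
  have g38 := T.q02 r a c d
  have g46 := T.ae1 k0
  have g47 := T.ae01 k0
  have g48 := T.ae02 k0
  have g49 := T.ae12 k0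
  have g61 := fun ha : T.alt p r b a c = true => zA1_9482_0 (T.okA1 k0 ha)
  have g74 := fun ha : T.alt p r b a c = true => zA1_18561_1 (T.okA1 k0 ha)
  have g84 := fun ha : T.alt p r b a c = true => zA1_16401_17 (T.okA1 k0 ha)
  have g87 := fun ha : T.alt p r b a c = true => zA1_294_32 (T.okA1 k0 ha)
  have g98 := fun ha : T.alt p r b a c = true => zA1_2305_257 (T.okA1 k0 ha)
  have g101 := fun ha : T.alt p r b a c = true => zA1_18577_16513 (T.okA1 k0 ha)
  have g102 := fun ha : T.alt p r b a c = true => zA1_18577_18433 (T.okA1 k0 ha)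
  have g120 := fun ha : T.alt p r a b c = true => zA0_4708_0 (T.okA0 k0 ha)
  have g133 := fun ha : T.alt p r a b c = true => zA0_18449_1 (T.okA0 k0 ha)
  have g143 := fun ha : T.alt p r a b c = true => zA0_16513_129 (T.okA0 k0 ha)
  have g157 := fun ha : T.alt p r a b c = true => zA0_2081_33 (T.okA0 k0 ha)
  have g160 := fun ha : T.alt p r a b c = true => zA0_18577_16401 (T.okA0 k0 ha)
  have g161 := fun ha : T.alt p r a b c = true => zA0_18577_18433 (T.okA0 k0 ha)
  have g197 := fun ha : T.alt p r c a b = true => zA2_18433_2049 (T.okA2 k0 ha)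
  have g198 := fun ha : T.alt p r c a b = true => zA2_16401_17 (T.okA2 k0 ha)
  have g200 := fun ha : T.alt p r c a b = true => zA2_16513_129 (T.okA2 k0 ha)
  have g206 := fun ha : T.alt p r c a b = true => zA2_18577_16385 (T.okA2 k0 ha)
  have g210 := fun ha : T.alt p r c a b = true => zA2_2089_2049 (T.okA2 k0 ha)
  have g212 := fun ha : T.alt p r c a b = true => zA2_164_160 (T.okA2 k0 ha)
  have g215 := fun ha : T.alt p r c a b = true => zA2_150_144 (T.okA2 k0 ha)
  have g216 := fun ha : T.alt p r c a b = true => zA2_1160_136 (T.okA2 k0 ha)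
  have g227 := T.ae1 k1
  have g228 := T.ae01 k1
  have g229 := T.ae02 k1
  have g230 := T.ae12 k1
  have g268 := fun ha : T.alt p r b a d = true => zA1_294_32 (T.okA1 k1 ha)
  have g279 := fun ha : T.alt p r b a d = true => zA1_2305_257 (T.okA1 k1 ha)
  have g338 := fun ha : T.alt p r a b d = true => zA0_2081_33 (T.okA0 k1 ha)
  have g408 := T.ae1 k2
  have g409 := T.ae01 k2
  have g410 := T.ae02 k2
  have g411 := T.ae12 k2
  have g433 := fun ha : T.alt p r c a d = true => zA1_4676_64 (T.okA1 k2 ha)
  have g452 := fun ha : T.alt p r c a d = true => zA1_1608_64 (T.okA1 k2 ha)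
  have g461 := fun ha : T.alt p r c a d = true => zA1_4192_96 (T.okA1 k2 ha)
  have g468 := fun ha : T.alt p r c a d = true => zA1_4708_4164 (T.okA1 k2 ha)
  have g470 := fun ha : T.alt p r c a d = true => zA1_4708_4672 (T.okA1 k2 ha)
  have g500 := fun ha : T.alt p r a c d = true => zA0_4672_576 (T.okA0 k2 ha)
  have g501 := fun ha : T.alt p r a c d = true => zA0_4164_68 (T.okA0 k2 ha)
  have g503 := fun ha : T.alt p r a c d = true => zA0_4192_96 (T.okA0 k2 ha)
  have g509 := fun ha : T.alt p r a c d = true => zA0_4708_4160 (T.okA0 k2 ha)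
  have g513 := fun ha : T.alt p r a c d = true => zA0_579_576 (T.okA0 k2 ha)
  have g515 := fun ha : T.alt p r a c d = true => zA0_290_34 (T.okA0 k2 ha)
  have g518 := fun ha : T.alt p r a c d = true => zA0_420_36 (T.okA0 k2 ha)
  have g519 := fun ha : T.alt p r a c d = true => zA0_2081_33 (T.okA0 k2 ha)
  have g551 := fun ha : T.alt p r d a c = true => zA2_4704_64 (T.okA2 k2 ha)
  have g570 := fun ha : T.alt p r d a c = true => zA2_2625_64 (T.okA2 k2 ha)
  have g579 := fun ha : T.alt p r d a c = true => zA2_4164_68 (T.okA2 k2 ha)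
  have g586 := fun ha : T.alt p r d a c = true => zA2_4708_4192 (T.okA2 k2 ha)
  have g588 := fun ha : T.alt p r d a c = true => zA2_4708_4672 (T.okA2 k2 ha)
  have g590 := T.ae01 k3
  have g591 := T.ae02 k3
  have g592 := T.ae12 k3
  have g614 := fun ha : T.alt p r c b d = true => zA1_4676_64 (T.okA1 k3 ha)
  have g770 := T.ae1 k4
  have g771 := T.ae01 k4
  have g772 := T.ae02 k4
  have g773 := T.ae12 k4
  have g781 := fun ha : T.alt p a c b d = true => zA1_16420_16416 (T.okA1 k4 ha)
  have g792 := fun ha : T.alt p a c b d = true => zA1_4644_32 (T.okA1 k4 ha)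
  have g793 := fun ha : T.alt p a c b d = true => zA1_4704_512 (T.okA1 k4 ha)
  have g795 := fun ha : T.alt p a c b d = true => zA1_4676_64 (T.okA1 k4 ha)
  have g797 := fun ha : T.alt p a c b d = true => zA1_4196_4 (T.okA1 k4 ha)
  have g809 := fun ha : T.alt p a c b d = true => zA1_4612_516 (T.okA1 k4 ha)
  have g823 := fun ha : T.alt p a c b d = true => zA1_4192_96 (T.okA1 k4 ha)
  have g844 := fun ha : T.alt p a b c d = true => zA0_4708_0 (T.okA0 k4 ha)
  have g861 := fun ha : T.alt p a b c d = true => zA0_4132_36 (T.okA0 k4 ha)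
  have g862 := fun ha : T.alt p a b c d = true => zA0_4672_576 (T.okA0 k4 ha)
  have g863 := fun ha : T.alt p a b c d = true => zA0_4164_68 (T.okA0 k4 ha)
  have g864 := fun ha : T.alt p a b c d = true => zA0_4612_516 (T.okA0 k4 ha)
  have g865 := fun ha : T.alt p a b c d = true => zA0_4192_96 (T.okA0 k4 ha)
  have g866 := fun ha : T.alt p a b c d = true => zA0_4640_544 (T.okA0 k4 ha)
  have g910 := fun ha : T.alt p a d b c = true => zA2_4644_4 (T.okA2 k4 ha)
  have g911 := fun ha : T.alt p a d b c = true => zA2_4676_512 (T.okA2 k4 ha)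
  have g913 := fun ha : T.alt p a d b c = true => zA2_4704_64 (T.okA2 k4 ha)
  have g915 := fun ha : T.alt p a d b c = true => zA2_4196_32 (T.okA2 k4 ha)
  have g927 := fun ha : T.alt p a d b c = true => zA2_4640_544 (T.okA2 k4 ha)
  have g941 := fun ha : T.alt p a d b c = true => zA2_4164_68 (T.okA2 k4 ha)
  have g1003 := z5_9362_1040 k0
  have g1021 := z5_10505_8193 k0
  have g1027 := z5_4756_640 k0
  have g1047 := z5_2193_2193 k0
  have g1312 := z5_4898_4098 k2
  have g1316 := z5_4898_34 k2
  have g1325 := z5_18596_2052 k2
  have g1373 := z5_9508_1056 k2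
  have g1396 := z5_612_612 k2
  have g1482 := z5_4898_4098 k3
  have g1666 := z5_16977_513 k4
  have g1973 := zsp_73_64 sp0
  have g1974 := zsp_73_8 sp0
  have g1976 := zsp_530_2 sp0
  have g1977 := zsp_530_512 sp0
  have g1978 := zsp_530_16 sp0
  have g1979 := zsp_1156_1156 sp0
  have g1980 := zsp_1156_4 sp0
  have g1981 := zsp_1156_1024 sp0
  have g1982 := zsp_1156_128 sp0
  have g1984 := zsp_2336_32 sp0
  have g1986 := zsp_2336_256 sp0
  have g1988 := zsp_4132_4 sp0
  have g1989 := zsp_4132_4096 sp0
  have g1990 := zsp_4132_32 sp0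
  have g1991 := zsp_8450_8450 sp0
  have g1992 := zsp_8450_2 sp0
  have g1993 := zsp_8450_8192 sp0
  have g1994 := zsp_8450_256 sp0
  have g1995 := zsp_16528_16528 sp0
  have g1996 := zsp_16528_16 sp0
  have g1997 := zsp_16528_16384 sp0
  have g1998 := zsp_16528_128 sp0
  have g2000 := zsp_18433_1 sp0
  have g2001 := zsp_18433_16384 sp0
  have g2003 := zsp_9224_9224 sp0
  have g2004 := zsp_9224_8 sp0
  have g2005 := zsp_9224_8192 sp0
  have g2006 := zsp_9224_1024 sp0
  have g2008 := zsp_4672_64 sp0
  have g2009 := zsp_4672_4096 sp0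
  have g2010 := zsp_4672_512 sp0
  have g2011 : T.X p r a b = true := h0
  have g2012 : T.X p r c d = true := h1
  have g2013 : T.X a b c d = false := h2
  have g2014 := xr1 e61
  have g2015 := xr2 e61
  have g2016 := xr3 e61
  have g2017 := xr4 e61
  have g2018 := xr1 e62
  have g2019 := xr2 e62
  have g2020 := xr3 e62
  have g2021 := xr4 e62
  have g2024 := it3 B63
  have g2025 := it4 B63
  have g2026 := an0 e64
  have g2027 := an1 e64
  have g2028 := an2 e64
  have g2030 := it2 B65
  have g2031 := it3 B65
  have g2032 := it4 B65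
  have g2033 := an0 e66
  have g2034 := an1 e66
  have g2035 := an2 e66
  have g2036 := xr1 e67
  have g2037 := xr2 e67
  have g2038 := xr3 e67
  have g2039 := xr4 e67
  have g2042 := xr3 L68
  have g2043 := xr4 L68
  have g2044 : T.lto p r c d a b = false := h3
  have g2045 := xr1 e69
  have g2046 := xr2 e69
  have g2047 := xr3 e69
  have g2048 := xr4 e69
  have g2049 := xr1 e70
  have g2050 := xr2 e70
  have g2051 := xr3 e70
  have g2052 := xr4 e70
  have g2053 := it1 B71
  have g2054 := it2 B71
  have g2055 := it3 B71
  have g2056 := it4 B71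
  have g2057 := an0 e72
  have g2058 := an1 e72
  have g2059 := an2 e72
  have g2060 := it1 B73
  have g2061 := it2 B73
  have g2062 := it3 B73
  have g2063 := it4 B73
  have g2064 := an0 e74
  have g2065 := an1 e74
  have g2066 := an2 e74
  have g2067 := xr1 e75
  have g2068 := xr2 e75
  have g2069 := xr3 e75
  have g2070 := xr4 e75
  have g2073 := xr3 L76
  have g2074 := xr4 L76
  have g2075 : T.lto p r a b c d = false := h4
  have s2076 := fun (n0 : T.X p a r b = true) => g1 g2011 n0
  have w2076 := bf s2076
  have s2077 := fun (n0 : T.X p b r a = true) => g2 g2011 n0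
  have w2077 := bf s2077
  have s2078 := fun (n0 : T.X p c r d = true) => g16 g2012 n0
  have w2078 := bf s2078
  have s2079 := fun (n0 : T.X p d r c = true) => g17 g2012 n0
  have w2079 := bf s2079
  have s2080 : T.X p b c d = true → T.X p c a b = true → T.X p d a b = true → False := fun n0 n1 n2 => by
    have u0 := bf fun t => g861 t n1 n2 g2013
    have u1 := bf fun t => g927 t n2 n0 g2013
    have u2 := bf fun t => g809 t n1 n0 g2013
    exact g770 u0 u2 u1
  have s2084 : T.alt p r a c d = false → T.alt p r c a d = false → T.bfo p c d b r = true → v69 = true → T.alt p a b c d = false → T.bfo p a b c r = true → False := fun n0 n1 n2 n3 n4 n5 => by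
    have u0 := bf fun t => g2010 n0 t n4
    have u1 := bt fun t => g408 n0 n1 t
    have u2 := bt fun t => g2032 n2 u0 t
    have u3 := bt fun t => g1981 t n1 u2
    have u4 := bt fun t => g2054 n5 u3 t
    have u5 := bt fun t => g579 u1 u4 g2012 t
    exact g2045 n3 u4 u5
  have s2086 : T.X p c r a = false → T.alt p r d a c = true → T.X p a c d = false → T.X p d r a = true → v69 = true → False := fun n0 n1 n2 n3 n4 => by
    have u0 := bt fun t => g2046 n4 n0 t
    exact g586 n1 n0 n3 g2012 n2 u0
  have s2087 : T.alt p r d a c = true → T.X p a c d = false → v69 = true → T.X p d r a = true → False := fun n0 n1 n2 n3 => by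
    have u0 := bt fun t => s2086 t n0 n1 n3 n2
    have u1 := bt fun t => g579 n0 u0 g2012 t
    exact g2045 n2 u0 u1
  have s2088 : T.alt p r b a c = true → T.bfo p a b c r = true → False := fun n0 n1 => by
    have u0 := bf fun t => g47 t n0
    have u1 := bf fun t => g49 n0 t
    exact g2056 n1 u1 u0
  have s2089 : T.alt p r c a d = true → T.X p a c d = false → T.X p d r a = true → v69 = true → False := fun n0 n1 n2 n3 => by
    have u0 := bf fun t => g8 t n2
    have u1 := bt fun t => g452 n0 u0 g2012 n1 t
    have u2 := bt fun t => g461 n0 n2 g2012 t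
    have u3 := bf fun t => g37 u2 t
    have u4 := bf fun t => g2045 n3 t u2
    exact g1373 u4 n2 w2079 u1 u3
  have s2090 : T.alt p r b a d = true → T.bfo p a b d r = true → False := fun n0 n1 => by
    have u0 := bf fun t => g228 t n0
    have u1 := bf fun t => g230 n0 t
    exact g2063 n1 u1 u0
  have s2091 : T.alt p r d a c = true → T.X p d r a = true → v69 = true → T.alt p r b a c = false → T.X p d a b = true → False := fun n0 n1 n2 n3 n4 => by
    have u0 := bt fun t => g1994 n3 n0 t
    have u1 := bt fun t => s2087 n0 t n2 n1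
    exact g823 u0 n4 u1 g2013
  have s2092 : v69 = true → T.alt p r a c d = false → T.alt p r b a c = false → v70 = false → T.X p c a b = true → T.X p d a b = true → False := fun n0 n1 n2 n3 n4 n5 => by
    have u0 := bf fun t => g861 t n4 n5 g2013
    have u1 := bt fun t => g2051 n3 n0 t
    have u2 := bf fun t => s2091 t u1 n0 n2 n5
    have u3 := bf fun t => g1993 n2 u2 t
    have u4 := bt fun t => g408 n1 t u2
    have u5 := bt fun t => g770 u0 u3 t
    have u6 := bt fun t => s2089 u4 t u1 n0
    exact g941 u5 n4 u6 g2013
  have s2093 : T.X p c r a = false → T.X p a c d = false → T.alt p r c a d = true → v69 = false → False := fun n0 n1 n2 n3 => by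
    have u0 := bf fun t => g2048 n3 n0 t
    exact g433 n2 n0 g2012 n1 u0
  have s2094 : T.alt p r c a d = true → T.X p d r a = false → v69 = false → T.X p c a b = true → T.alt p r b a d = false → False := fun n0 n1 n2 n3 n4 => by
    have u0 := bt fun t => g1998 n4 n0 t
    have u1 := bf fun t => g941 u0 n3 t g2013
    have u2 := bt fun t => s2093 t u1 n0 n2
    have u3 := bf fun t => g468 n0 u2 n1 g2012 u1 t
    exact g2047 n2 u2 u3
  have s2095 : v72 = true → v75 = true → False := fun n0 n1 => by
    have u0 := bt fun t => g2073 g2075 n1 t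
    have u1 := bt fun t => g2066 u0 t
    have u2 := bf fun t => s2090 t u1
    have u3 := bt fun t => g2065 u0 t
    have u4 := bt fun t => g2058 n0 t
    have u5 := bt fun t => g2059 n0 t
    have u6 := bf fun t => g2067 n1 t n0
    have u7 := bf fun t => g861 t u4 u3 g2013
    have u8 := bf fun t => s2088 t u5
    have u9 := bf fun t => g1977 u8 u2 t
    have u10 := bf fun t => g2008 t u9 u7
    have u11 := bf fun t => s2092 t u10 u8 u6 u4 u3
    have u12 := bf fun t => g2052 u6 u11 t
    have u13 := bf fun t => s2094 t u12 u11 u4 u2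
    have u14 := bt fun t => g408 u10 u13 t
    have u15 := bt fun t => g1994 u8 u14 t
    have u16 := bf fun t => g823 u15 u3 t g2013
    have u17 := bt fun t => g551 u14 u12 g2012 u16 t
    have u18 := bf fun t => g38 u17 t
    have u19 := bt fun t => g2048 u11 t u17
    have u20 := bf fun t => g1325 u19 u12 w2078 t u18
    have u21 := bf fun t => g5 t u19
    exact g570 u14 u21 g2012 u16 u20
  have s2096 : T.alt p r c a b = false → T.bfo p a b c r = false → T.alt p r b a c = false → False := fun n0 n1 n2 => by
    have u0 := bt fun t => g46 t n2 n0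
    exact g2055 n1 n0 u0
  have s2097 : T.X p c a b = true → T.alt p r b a c = false → v64 = false → v75 = true → False := fun n0 n1 n2 n3 => by
    have u0 := bf fun t => s2095 t n3
    have u1 := bt fun t => g2073 g2075 n3 t
    have u2 := bt fun t => g2065 u1 t
    have u3 := bf fun t => g21 t n0
    have u4 := bf fun t => g2057 u0 n0 t
    have u5 := bf fun t => s2080 t n0 u2
    have u6 := bf fun t => g2034 t u5
    have u7 := bf fun t => g2042 g2044 t u6
    have u8 := bf fun t => g2038 u7 t n2
    have u9 := bt fun t => s2096 t u4 n1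
    have u10 := bt fun t => g197 u9 g2011 n0 t
    have u11 := bf fun t => g2053 u4 u9 t
    have u12 := bt fun t => g210 u9 g2011 t u11 n0
    have u13 := bf fun t => g4 u12 t
    have u14 := bf fun t => g216 u9 u12 t u3
    have u15 := bt fun t => g2017 t u13 u10
    exact g2020 u8 u15 u14
  have s2098 : T.X p b r c = false → v62 = true → T.alt p r c a b = true → T.X p a r c = false → T.X p c a b = false → False := fun n0 n1 n2 n3 n4 => by
    have u0 := bf fun t => g206 n2 g2011 n3 n0 n4 t
    have u1 := bt fun t => g2019 n1 t n0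
    exact g2015 u1 n3 u0
  have s2099 : v62 = true → T.alt p r c a b = true → T.X p c a b = false → T.X p a r c = false → False := fun n0 n1 n2 n3 => by
    have u0 := bt fun t => s2098 t n0 n1 n3 n2
    have u1 := bt fun t => g200 n1 g2011 u0 t
    have u2 := bf fun t => g2018 n0 t u0
    exact g2017 u2 n3 u1
  have s2100 : T.alt p r c a b = true → T.X p a r c = false → T.X p b c d = true → T.X p c a b = false → T.alt p r b c d = false → v64 = false → T.alt p r c a d = false → False := fun n0 n1 n2 n3 n4 n5 n6 => by
    have u0 := bt fun t => g1980 n0 n6 t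
    have u1 := bt fun t => g2031 t n4 u0
    have u2 := bt fun t => g2033 t n2 u1
    have u3 := bt fun t => g2043 g2044 t u2
    have u4 := bt fun t => g2037 u3 t n5
    exact s2099 u4 n0 n3 n1
  have s2101 : T.X p c r a = false → T.X p a b c = false → T.X p b c d = true → T.X p c a b = false → T.alt p r b c d = false → T.alt p r b a c = false → T.X p a c d = false → T.X p d r a = true → v69 = false → T.alt p r c a d = false → False := fun n0 n1 n2 n3 n4 n5 n6 n7 n8 n9 => by
    have u0 := bf fun t => g2027 t n6
    have u1 := bf fun t => g2048 n8 n0 t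
    have u2 := bf fun t => g1316 t n7 w2079 n6 u1
    have u3 := bf fun t => s2100 t u2 n2 n3 n4 u0 n9
    have u4 := bt fun t => g46 t n5 u3
    have u5 := bf fun t => g1981 u3 n9 t
    have u6 := bt fun t => g133 u4 g2011 u2 n3 t
    have u7 := bf fun t => g2032 t n4 u5
    have u8 := bf fun t => g32 t u6
    have u9 := bt fun t => g2017 t u2 u6
    have u10 := bf fun t => g2035 t u7
    have u11 := bt fun t => g120 u4 w2077 n0 t n1 u8
    have u12 := bf fun t => g2042 g2044 t u10
    have u13 := bf fun t => g10 u11 t
    have u14 := bf fun t => g2038 u12 t u0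
    exact g2020 u14 u9 u13
  have s2102 : T.alt p a c b d = true → T.X p c a b = false → T.alt p r b c d = false → T.alt p r b a c = false → T.X p a c d = false → T.X p d r a = true → v69 = false → T.alt p r c a d = false → T.X p d a b = true → False := fun n0 n1 n2 n3 n4 n5 n6 n7 n8 => by
    have u0 := bf fun t => g2027 t n4
    have u1 := bf fun t => g24 t n8
    have u2 := bf fun t => g781 n0 n1 n8 t
    have u3 := bt fun t => g792 n0 n1 n8 t g2013
    have u4 := bf fun t => g1666 t u1 n4 u3 u2
    have u5 := bt fun t => s2101 t u4 u3 n1 n2 n3 n4 n5 n6 n7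
    have u6 := bf fun t => g6 t u5
    have u7 := bf fun t => g157 t g2011 u5 n1
    have u8 := bf fun t => s2100 t u6 u3 n1 n2 u0 n7
    exact g46 u7 n3 u8
  have s2103 : T.alt p r a c d = true → T.X p d r a = true → v69 = false → False := fun n0 n1 n2 => by
    have u0 := bt fun t => g503 n0 n1 g2012 t
    have u1 := bf fun t => g518 n0 t n1 w2078 w2079
    exact g2048 n2 u1 u0
  have s2104 : T.alt p r b c d = false → T.X p a c d = false → v69 = false → T.alt p r c a d = false → v75 = true → False := fun n0 n1 n2 n3 n4 => by
    have u0 := bf fun t => g2027 t n1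
    have u1 := bf fun t => s2095 t n4
    have u2 := bt fun t => g2068 n4 t u1
    have u3 := bt fun t => g2050 u2 n2 t
    have u4 := bf fun t => s2103 t u3 n2
    have u5 := bt fun t => g408 u4 n3 t
    have u6 := bt fun t => g2073 g2075 n4 t
    have u7 := bt fun t => g2066 u6 t
    have u8 := bf fun t => s2090 t u7
    have u9 := bt fun t => g2065 u6 t
    have u10 := bf fun t => g1976 t u8 n0
    have u11 := bf fun t => s2097 t u10 u0 n4
    have u12 := bt fun t => g1994 u10 u5 t
    exact s2102 u12 u11 n0 u10 n1 u3 n2 n3 u9
  have s2105 : T.X p b r c = false → T.X p a r c = false → v62 = false → T.X p c a b = false → T.alt p r b a c = true → False := fun n0 n1 n2 n3 n4 => by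
    have u0 := bf fun t => g2020 n2 t n0
    have u1 := bt fun t => g74 n4 g2011 n0 n3 t
    exact g2017 u0 n1 u1
  have s2106 : T.X p a r c = false → T.alt p r b a c = true → v62 = false → T.X p c a b = false → False := fun n0 n1 n2 n3 => by
    have u0 := bt fun t => s2105 t n0 n2 n3 n1
    have u1 := bf fun t => g101 n1 g2011 n0 u0 n3 t
    have u2 := bt fun t => g2021 n2 t u0
    exact g2015 u2 n0 u1
  have s2107 : T.X p a c d = false → v69 = false → T.alt p r c a d = false → v75 = true → False := fun n0 n1 n2 n3 => by
    have u0 := bf fun t => s2095 t n3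
    have u1 := bt fun t => g2068 n3 t u0
    have u2 := bt fun t => g2050 u1 n1 t
    have u3 := bf fun t => s2103 t u2 n1
    have u4 := bt fun t => g2073 g2075 n3 t
    have u5 := bt fun t => g2066 u4 t
    have u6 := bf fun t => s2090 t u5
    have u7 := bt fun t => g2065 u4 t
    have u8 := bf fun t => g2027 t n0
    have u9 := bt fun t => s2104 t n0 n1 n2 n3
    have u10 := bt fun t => g2010 u3 u9 t
    have u11 := bt fun t => g1977 t u6 u9
    have u12 := bf fun t => g866 u10 u7 t g2013
    have u13 := bf fun t => g861 u10 t u7 g2013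
    have u14 := bf fun t => g2034 t u12
    have u15 := bf fun t => g98 u11 g2011 t u13
    have u16 := bf fun t => g2042 g2044 t u14
    have u17 := bf fun t => g87 u11 w2076 w2077 t u15
    have u18 := bf fun t => g2038 u16 t u8
    have u19 := bf fun t => g2048 n1 u17 t
    have u20 := bf fun t => g1316 t u2 w2079 n0 u19
    exact s2106 u20 u11 u18 u13
  have s2108 : T.X p a c d = true → T.alt p a d b c = false → T.X p d a b = true → False := fun n0 n1 n2 => by
    have u0 := bf fun t => g865 t n2 n0 g2013
    have u1 := bf fun t => g823 t n2 n0 g2013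
    exact g770 u0 u1 n1
  have s2109 : T.X p c r a = false → T.alt p r a c d = true → T.X p d r a = false → v69 = true → T.X p a c d = false → False := fun n0 n1 n2 n3 n4 => by
    have u0 := bt fun t => g2046 n3 n0 t
    exact g509 n1 n0 n2 g2012 n4 u0
  have s2110 : T.alt p r a c d = true → T.X p a c d = false → T.X p d r a = false → v69 = true → False := fun n0 n1 n2 n3 => by
    have u0 := bt fun t => s2109 t n0 n2 n3 n1
    have u1 := bt fun t => g501 n0 u0 g2012 t
    exact g2045 n3 u0 u1
  have s2111 : T.alt p a b c d = false → T.alt p r c a d = false → v75 = true → False := fun n0 n1 n2 => by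
    have u0 := bt fun t => g2073 g2075 n2 t
    have u1 := bt fun t => g2065 u0 t
    have u2 := bt fun t => g2066 u0 t
    have u3 := bf fun t => s2090 t u2
    have u4 := bf fun t => g1997 u3 n1 t
    have u5 := bf fun t => s2108 t u4 u1
    have u6 := bf fun t => s2095 t n2
    have u7 := bt fun t => g2068 n2 t u6
    have u8 := bt fun t => s2107 u5 t n1 n2
    have u9 := bf fun t => g2049 u7 u8 t
    have u10 := bf fun t => s2110 t u5 u9 u8
    have u11 := bt fun t => g408 u10 n1 t
    have u12 := bt fun t => g551 u11 u9 g2012 u5 t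
    have u13 := bf fun t => g1312 t u9 w2079 u5 u12
    have u14 := bf fun t => g2045 u8 t u12
    have u15 := bf fun t => g2061 u2 t u9
    have u16 := bt fun t => g2063 u2 u15 t
    have u17 := bt fun t => g1974 t u16 u10
    have u18 := bf fun t => g2027 t u5
    have u19 := bf fun t => g24 t u1
    have u20 := bt fun t => g770 n0 t u4
    have u21 := bf fun t => g2003 u16 t u20
    have u22 := bf fun t => g2010 u10 t n0
    have u23 := bf fun t => g1991 t u11 u20
    have u24 := bf fun t => g2032 t u22 u21
    have u25 := bf fun t => s2097 t u23 u18 n2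
    have u26 := bf fun t => g2035 t u24
    have u27 := bf fun t => g781 u20 u25 u1 t
    have u28 := bt fun t => g792 u20 u25 u1 t g2013
    have u29 := bt fun t => g133 u17 g2011 u13 u25 t
    have u30 := bf fun t => g2042 g2044 t u26
    have u31 := bf fun t => g1666 t u19 u5 u28 u27
    have u32 := bf fun t => g32 t u29
    have u33 := bt fun t => g2017 t u13 u29
    have u34 := bf fun t => g2038 u30 t u18
    have u35 := bt fun t => g120 u17 w2077 u14 t u31 u32
    have u36 := bt fun t => g2020 u34 u33 t
    exact g10 u35 u36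
  have s2112 : T.alt p r c a d = false → v75 = true → False := fun n0 n1 => by
    have u0 := bf fun t => s2095 t n1
    have u1 := bt fun t => g2068 n1 t u0
    have u2 := bt fun t => g2073 g2075 n1 t
    have u3 := bt fun t => g2066 u2 t
    have u4 := bf fun t => s2090 t u3
    have u5 := bt fun t => g2065 u2 t
    have u6 := bf fun t => g1997 u4 n0 t
    have u7 := bf fun t => s2108 t u6 u5
    have u8 := bt fun t => s2107 u7 t n0 n1
    have u9 := bf fun t => g2049 u1 u8 t
    have u10 := bf fun t => g2061 u3 t u9
    have u11 := bf fun t => s2110 t u7 u9 u8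
    have u12 := bt fun t => g408 u11 n0 t
    have u13 := bt fun t => g1986 u10 u12 t
    have u14 := bt fun t => s2111 t n0 n1
    have u15 := bf fun t => g591 t u13
    exact g2009 u11 u15 u14
  have s2113 : T.X p a c d = false → v75 = true → False := fun n0 n1 => by
    have u0 := bt fun t => s2112 t n1
    have u1 := bf fun t => g411 u0 t
    have u2 := bt fun t => g2073 g2075 n1 t
    have u3 := bt fun t => g2066 u2 t
    have u4 := bf fun t => s2090 t u3
    have u5 := bt fun t => g1998 u4 u0 t
    have u6 := bf fun t => g773 t u5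
    have u7 := bf fun t => g1992 t u1 u6
    have u8 := bt fun t => g2065 u2 t
    have u9 := bf fun t => g2027 t n0
    have u10 := bt fun t => g915 u5 t u8 n0 g2013
    exact s2097 u10 u7 u9 n1
  have s2114 : v69 = true → v75 = true → False := fun n0 n1 => by
    have u0 := bt fun t => g2073 g2075 n1 t
    have u1 := bt fun t => g2066 u0 t
    have u2 := bf fun t => s2090 t u1
    have u3 := bt fun t => s2112 t n1
    have u4 := bt fun t => g1998 u2 u3 t
    have u5 := bt fun t => s2113 t n1
    have u6 := bf fun t => g941 u4 t u5 g2013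
    have u7 := bf fun t => g409 t u3
    have u8 := bf fun t => s2095 t n1
    have u9 := bt fun t => g2068 n1 t u8
    have u10 := bf fun t => g2049 u9 n0 t
    have u11 := bf fun t => g2061 u1 t u10
    have u12 := bt fun t => g2063 u1 u11 t
    have u13 := bt fun t => g1974 t u12 u7
    have u14 := bf fun t => g157 u13 g2011 t u6
    have u15 := bt fun t => g2046 n0 u14 t
    exact g470 u3 u14 u10 g2012 u5 u15
  have s2115 : v72 = false → v75 = true → False := fun n0 n1 => by
    have u0 := bt fun t => g2068 n1 t n0
    have u1 := bt fun t => s2112 t n1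
    have u2 := bt fun t => s2113 t n1
    have u3 := bf fun t => s2114 t n1
    have u4 := bt fun t => g2050 u0 u3 t
    have u5 := bt fun t => g461 u1 u4 g2012 t
    have u6 := bf fun t => g1396 t u4 g2012 u2
    exact g2048 u3 u6 u5
  have s2116 : v75 = true → False := fun n0 => by
    have u0 := bf fun t => s2095 t n0
    exact s2115 u0 n0
  have w2116 := bf s2116
  have s2117 := fun (n0 : v74 = true) => g2074 g2075 w2116 n0
  have w2117 := bf s2117
  have s2118 : T.X p d r a = true → v69 = false → T.alt p r c a d = true → T.X p a c d = true → False := fun n0 n1 n2 n3 => by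
    have u0 := bt fun t => g461 n2 n0 g2012 t
    have u1 := bf fun t => g1396 t n0 g2012 n3
    exact g2048 n1 u1 u0
  have s2119 : T.X p a r c = false → v62 = false → T.alt p r a b c = true → T.X p c a b = false → T.X p c r a = false → False := fun n0 n1 n2 n3 n4 => by
    have u0 := bt fun t => g133 n2 g2011 n0 n3 t
    have u1 := bf fun t => g32 t u0
    have u2 := bt fun t => g2017 t n0 u0
    have u3 := bt fun t => g2020 n1 u2 t
    have u4 := bf fun t => g10 t u3
    have u5 := bf fun t => g1027 w2077 n0 u3 t u1
    exact g120 n2 w2077 n4 u4 u5 u1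
  have s2120 : T.X p b r c = true → T.X p a r c = true → v62 = false → T.alt p r a b c = true → False := fun n0 n1 n2 n3 => by
    have u0 := bt fun t => g2021 n2 t n0
    have u1 := bt fun t => g143 n3 g2011 n0 t
    exact g2014 u0 n1 u1
  have s2121 : v62 = false → T.alt p r a b c = true → T.X p c r a = false → T.X p c a b = false → False := fun n0 n1 n2 n3 => by
    have u0 := bt fun t => s2119 t n0 n1 n3 n2
    have u1 := bf fun t => s2120 t u0 n0 n1
    have u2 := bf fun t => g2020 n0 t u1
    have u3 := bf fun t => g160 n1 g2011 u0 u1 n3 t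
    exact g2016 u2 u0 u3
  have s2122 : T.bfo p a b d r = true → T.X p c a b = false → T.X p c r a = false → T.X p d r a = false → T.alt p r c a d = true → T.X p a c d = true → False := fun n0 n1 n2 n3 n4 n5 => by
    have u0 := bf fun t => g409 t n4
    have u1 := bt fun t => g2024 t u0 n4
    have u2 := bt fun t => g2026 t n5 u1
    have u3 := bf fun t => g2064 w2117 t n0
    have u4 := bf fun t => s2090 t n0
    have u5 := bf fun t => g2061 n0 t n3
    have u6 := bt fun t => g1998 u4 n4 t
    have u7 := bt fun t => g2063 n0 u5 t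
    have u8 := bf fun t => g772 t u6
    have u9 := bf fun t => g773 t u6
    have u10 := bt fun t => g913 u6 u3 n5 t g2013
    have u11 := bt fun t => g1974 t u7 u0
    have u12 := bt fun t => g2004 u7 t u9
    have u13 := bf fun t => g2010 u0 t u8
    have u14 := bt fun t => g2031 t u13 u12
    have u15 := bt fun t => g2033 t u10 u14
    have u16 := bt fun t => g2043 g2044 t u15
    have u17 := bf fun t => g2036 u16 t u2
    exact s2121 u17 u11 n2 n1
  have s2123 : T.alt p r a b d = true → T.bfo p a b d r = false → False := fun n0 n1 => by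
    have u0 := bf fun t => g229 n0 t
    exact g2062 n1 u0 n0
  have s2124 : T.alt p a b c d = false → v66 = false → T.alt p a d b c = false → T.alt p r a b d = false → T.X p c a b = false → T.alt p r a c d = false → T.X p a c d = true → False := fun n0 n1 n2 n3 n4 n5 n6 => by
    have u0 := bt fun t => g770 n0 t n2
    have u1 := bf fun t => g2010 n5 t n0
    have u2 := bt fun t => g795 u0 n4 n6 t g2013
    have u3 := bt fun t => g2005 n3 t u0
    have u4 := bf fun t => g2033 n1 u2 t
    exact g2031 u4 u1 u3
  have s2125 : T.alt p r c a b = true → v62 = true → T.X p c a b = false → False := fun n0 n1 n2 => by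
    have u0 := bt fun t => s2099 n1 n0 n2 t
    have u1 := bt fun t => g198 n0 g2011 u0 t
    have u2 := bf fun t => g215 n0 w2076 w2077 u0 t
    have u3 := bf fun t => g2014 t u0 u1
    exact g2019 n1 u3 u2
  have s2126 : v62 = true → T.alt p r d a b = false → T.alt p r a b d = false → T.X p c a b = false → T.alt p r c a d = true → T.X p a c d = true → False := fun n0 n1 n2 n3 n4 n5 => by
    have u0 := bt fun t => g227 n2 t n1
    have u1 := bf fun t => g1995 u0 n4 t
    have u2 := bf fun t => g409 t n4
    have u3 := bt fun t => g2024 t u2 n4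
    have u4 := bt fun t => g2026 t n5 u3
    have u5 := bf fun t => g2036 t n0 u4
    have u6 := bf fun t => g2043 g2044 u5 t
    have u7 := bt fun t => s2124 t u6 u1 n2 n3 u2 n5
    have u8 := bt fun t => g1989 t n1 u7
    exact s2125 u8 n0 n3
  have s2127 : T.alt p r d a b = false → T.alt p r a b d = false → T.X p c a b = false → T.alt p r c a d = true → T.X p a c d = true → False := fun n0 n1 n2 n3 n4 => by
    have u0 := bf fun t => g409 t n3
    have u1 := bt fun t => g2024 t u0 n3
    have u2 := bt fun t => g2026 t n4 u1
    have u3 := bf fun t => g411 n3 t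
    have u4 := bt fun t => g227 n1 t n0
    have u5 := bf fun t => g1995 u4 n3 t
    have u6 := bf fun t => s2126 t n0 n1 n2 n3 n4
    have u7 := bt fun t => g2039 t u6 u2
    have u8 := bt fun t => g2042 g2044 u7 t
    have u9 := bt fun t => g2034 u8 t
    have u10 := bf fun t => g862 t n4 u9 g2013
    have u11 := bt fun t => g770 u10 t u5
    have u12 := bt fun t => g1993 t u3 u11
    have u13 := bf fun t => g98 u12 g2011 t n2
    have u14 := bt fun t => s2106 t u12 u6 n2
    have u15 := bf fun t => g4 t u14
    have u16 := bt fun t => g84 u12 g2011 u14 t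
    have u17 := bf fun t => g1021 g2011 u15 u13 n2 t
    have u18 := bf fun t => g2014 t u14 u16
    have u19 := bt fun t => g61 u12 w2076 u15 u13 t u17
    have u20 := bf fun t => g2021 u6 u18 t
    exact g1003 w2076 u14 u20 u19 u17
  have s2128 : T.X p c a b = false → T.X p c r a = false → T.X p d r a = false → T.alt p r c a d = true → T.X p a c d = true → False := fun n0 n1 n2 n3 n4 => by
    have u0 := bf fun t => g409 t n3
    have u1 := bt fun t => g2024 t u0 n3
    have u2 := bt fun t => g2026 t n4 u1
    have u3 := bf fun t => g411 n3 t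
    have u4 := bf fun t => s2122 t n0 n1 n2 n3 n4
    have u5 := bf fun t => s2123 t u4
    have u6 := bt fun t => s2127 t u5 n0 n3 n4
    have u7 := bt fun t => g1984 u6 u3 t
    have u8 := bf fun t => g591 t u7
    have u9 := bf fun t => g592 t u7
    have u10 := bt fun t => g1982 t n3 u9
    have u11 := bf fun t => g2032 t u8 u9
    have u12 := bf fun t => s2125 u10 t n0
    have u13 := bf fun t => g2035 t u11
    have u14 := bt fun t => g2039 t u12 u2
    exact g2042 g2044 u14 u13
  have s2129 : T.X p a r c = true → v62 = true → T.alt p r b a c = true → T.X p c a b = true → False := fun n0 n1 n2 n3 => by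
    have u0 := bf fun t => g1047 g2011 n0 t n3
    have u1 := bt fun t => g84 n2 g2011 n0 t
    have u2 := bt fun t => g2019 n1 t u0
    exact g2014 u2 n0 u1
  have s2130 : T.X p b r c = false → v62 = true → T.alt p r b a c = true → T.X p c a b = true → False := fun n0 n1 n2 n3 => by
    have u0 := bf fun t => s2129 t n1 n2 n3
    have u1 := bf fun t => g102 n2 g2011 u0 n0 n3 t
    have u2 := bt fun t => g2019 n1 t n0
    exact g2015 u2 u0 u1
  have s2131 : T.X p c a b = true → v69 = false → T.alt p r c a d = true → T.X p a c d = true → False := fun n0 n1 n2 n3 => by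
    have u0 := bf fun t => s2118 t n1 n2 n3
    have u1 := bf fun t => g409 t n2
    have u2 := bt fun t => g2024 t u1 n2
    have u3 := bt fun t => g2026 t n3 u2
    have u4 := bf fun t => g411 n2 t
    have u5 := bf fun t => g941 t n0 n3 g2013
    have u6 := bf fun t => g863 t n0 n3 g2013
    have u7 := bt fun t => s2094 n2 u0 n1 n0 t
    have u8 := bf fun t => s2108 n3 u5 t
    have u9 := bt fun t => g770 u6 t u5
    have u10 := bf fun t => g228 t u7
    have u11 := bf fun t => g279 u7 g2011 t u8
    have u12 := bt fun t => g2005 u10 t u9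
    have u13 := bt fun t => g1993 t u4 u9
    have u14 := bf fun t => g809 u9 n0 t g2013
    have u15 := bf fun t => g2034 t u14
    have u16 := bf fun t => g2042 g2044 t u15
    have u17 := bt fun t => g2039 u16 t u3
    have u18 := bt fun t => s2130 t u17 u13 n0
    have u19 := bf fun t => g12 u18 t
    have u20 := bf fun t => g1482 u18 u11 w2079 u14 t
    exact g614 u12 u19 g2012 u14 u20
  have s2132 : v69 = false → T.alt p r c a d = true → T.X p a c d = true → False := fun n0 n1 n2 => by
    have u0 := bf fun t => g409 t n1
    have u1 := bt fun t => g2024 t u0 n1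
    have u2 := bt fun t => g2026 t n2 u1
    have u3 := bf fun t => g411 n1 t
    have u4 := bf fun t => s2118 t n0 n1 n2
    have u5 := bf fun t => s2131 t n0 n1 n2
    have u6 := bt fun t => s2128 u5 t u4 n1 n2
    have u7 := bf fun t => g157 t g2011 u6 u5
    have u8 := bf fun t => g1974 u7 t u0
    have u9 := bt fun t => s2127 t u8 u5 n1 n2
    have u10 := bt fun t => g1984 u9 u3 t
    have u11 := bf fun t => g591 t u10
    have u12 := bf fun t => g592 t u10
    have u13 := bt fun t => g1982 t n1 u12
    have u14 := bf fun t => g2032 t u11 u12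
    have u15 := bf fun t => s2125 u13 t u5
    have u16 := bf fun t => g2035 t u14
    have u17 := bt fun t => g2039 t u15 u2
    exact g2042 g2044 u17 u16
  have s2133 : v62 = false → T.X p c a b = false → T.alt p r c a d = true → T.X p a c d = true → False := fun n0 n1 n2 n3 => by
    have u0 := bt fun t => s2132 t n2 n3
    have u1 := bf fun t => g2058 t n1
    have u2 := bf fun t => g2069 w2116 t u1
    have u3 := bt fun t => g2051 u2 u0 t
    have u4 := bf fun t => g1396 t u3 g2012 n3
    have u5 := bf fun t => g409 t n2
    have u6 := bt fun t => g2024 t u5 n2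
    have u7 := bt fun t => g2026 t n3 u6
    have u8 := bf fun t => g411 n2 t
    have u9 := bt fun t => g2039 t n0 u7
    have u10 := bf fun t => s2121 n0 t u4 n1
    have u11 := bt fun t => g2042 g2044 u9 t
    have u12 := bf fun t => g1974 u10 t u5
    have u13 := bt fun t => g2034 u11 t
    have u14 := bt fun t => g2035 u11 t
    have u15 := bt fun t => s2127 t u12 n1 n2 n3
    have u16 := bf fun t => g862 t n3 u13 g2013
    have u17 := bt fun t => g1984 u15 u8 t
    have u18 := bf fun t => g2010 u5 t u16
    have u19 := bf fun t => g592 t u17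
    exact g2032 u14 u18 u19
  have s2134 : T.X p c a b = false → T.alt p r c a d = true → T.X p a c d = true → False := fun n0 n1 n2 => by
    have u0 := bt fun t => s2132 t n1 n2
    have u1 := bf fun t => g411 n1 t
    have u2 := bf fun t => g2058 t n0
    have u3 := bf fun t => g2069 w2116 t u2
    have u4 := bt fun t => g2051 u3 u0 t
    have u5 := bt fun t => s2133 t n0 n1 n2
    have u6 := bf fun t => s2125 t u5 n0
    have u7 := bt fun t => g1982 u6 n1 t
    have u8 := bf fun t => g592 u7 t
    have u9 := bf fun t => g1984 t u1 u8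
    have u10 := bt fun t => s2127 u9 t n0 n1 n2
    have u11 := bt fun t => g338 u10 g2011 u4 t
    have u12 := bt fun t => g2062 t u9 u10
    exact g2064 w2117 u11 u12
  have s2135 : T.alt p r c a d = true → T.X p a c d = true → False := fun n0 n1 => by
    have u0 := bf fun t => g409 t n0
    have u1 := bt fun t => s2132 t n0 n1
    have u2 := bt fun t => s2134 t n0 n1
    have u3 := bf fun t => g941 t u2 n1 g2013
    have u4 := bf fun t => g863 t u2 n1 g2013
    have u5 := bt fun t => g1998 t n0 u3
    have u6 := bf fun t => s2108 n1 u3 t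
    have u7 := bf fun t => g2010 u0 t u4
    have u8 := bt fun t => g1978 t u5 u7
    have u9 := bf fun t => g279 u5 g2011 t u6
    have u10 := bf fun t => s2088 u8 t
    have u11 := bf fun t => g268 u5 w2076 w2077 t u9
    have u12 := bf fun t => g2059 t u10
    have u13 := bt fun t => g2051 t u1 u11
    exact g2069 w2116 u13 u12
  have s2136 : T.X p c r a = false → T.alt p r d a c = true → v69 = true → T.X p d r a = false → T.X p a c d = true → False := fun n0 n1 n2 n3 n4 => by
    have u0 := bt fun t => g2046 n2 n0 t
    exact g588 n1 n0 n3 g2012 n4 u0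
  have s2137 : T.alt p r d a c = true → v69 = true → T.X p a c d = true → T.X p d r a = false → False := fun n0 n1 n2 n3 => by
    have u0 := bt fun t => s2136 t n0 n1 n3 n2
    have u1 := bt fun t => g579 n0 u0 g2012 t
    exact g2045 n1 u0 u1
  have s2138 : v69 = true → T.X p d r a = false → T.alt p a c b d = true → T.X p a c d = true → False := fun n0 n1 n2 n3 => by
    have u0 := bt fun t => g2051 t n0 n1
    have u1 := bt fun t => g2069 w2116 u0 t
    have u2 := bt fun t => g2059 u1 t
    have u3 := bf fun t => s2088 t u2
    have u4 := bt fun t => g1993 u3 t n2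
    exact s2137 u4 n0 n3 n1
  have s2139 : T.alt p r d a c = true → T.bfo p a b c r = false → T.alt p a c b d = true → T.X p c a b = true → T.alt p r c a d = false → False := fun n0 n1 n2 n3 n4 => by
    have u0 := bf fun t => g809 n2 n3 t g2013
    have u1 := bf fun t => g2034 t u0
    have u2 := bf fun t => g2042 g2044 t u1
    have u3 := bf fun t => g21 t n3
    have u4 := bf fun t => g410 t n0
    have u5 := bf fun t => g1991 t n0 n2
    have u6 := bf fun t => g2025 t u4 n4
    have u7 := bt fun t => s2096 t n1 u5
    have u8 := bf fun t => g2028 t u6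
    have u9 := bt fun t => g197 u7 g2011 n3 t
    have u10 := bf fun t => g2053 n1 u7 t
    have u11 := bt fun t => g210 u7 g2011 t u10 n3
    have u12 := bf fun t => g2038 u2 t u8
    have u13 := bf fun t => g4 u11 t
    have u14 := bf fun t => g216 u7 u11 t u3
    have u15 := bt fun t => g2017 t u13 u9
    exact g2020 u12 u15 u14
  have s2140 : T.X p d r a = false → T.X p c a b = true → T.X p a c d = true → False := fun n0 n1 n2 => by
    have u0 := bf fun t => g863 t n1 n2 g2013
    have u1 := bf fun t => g941 t n1 n2 g2013
    have u2 := bt fun t => g770 u0 t u1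
    have u3 := bf fun t => s2135 t n2
    have u4 := bf fun t => s2138 t n0 u2 n2
    have u5 := bf fun t => g2050 t u4 n0
    have u6 := bf fun t => g2070 w2116 u5 t
    have u7 := bf fun t => g2057 u6 n1 t
    have u8 := bf fun t => s2139 t u7 u2 n1 u3
    have u9 := bt fun t => g408 t u3 u8
    have u10 := bt fun t => g500 u9 g2012 n2 t
    have u11 := bt fun t => g2048 u4 t u10
    have u12 := bf fun t => g5 t u11
    have u13 := bf fun t => g6 t u11
    exact g513 u9 u12 u13 g2012 n2
  have s2141 : T.X p c a b = true → T.X p a c d = true → False := fun n0 n1 => by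
    have u0 := bf fun t => s2135 t n1
    have u1 := bf fun t => g941 t n0 n1 g2013
    have u2 := bf fun t => g863 t n0 n1 g2013
    have u3 := bf fun t => s2108 n1 u1 t
    have u4 := bt fun t => g770 u2 t u1
    have u5 := bf fun t => g1996 t u0 u1
    have u6 := bt fun t => s2140 t n0 n1
    have u7 := bf fun t => g1396 t u6 g2012 n1
    have u8 := bf fun t => g338 t g2011 u6 u3
    have u9 := bt fun t => g227 u8 u5 t
    have u10 := bt fun t => g2005 u8 t u4
    have u11 := bt fun t => g1990 t u9 u2
    have u12 := bf fun t => g592 u10 t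
    have u13 := bf fun t => g2054 t u11 u7
    have u14 := bt fun t => g1984 u9 t u12
    exact s2139 u14 u13 u4 n0 u0
  have s2142 : T.alt p r c a b = true → T.alt p a c b d = true → T.alt p r a c d = false → T.X p a c d = true → False := fun n0 n1 n2 n3 => by
    have u0 := bf fun t => g773 n1 t
    have u1 := bf fun t => g771 t n1
    have u2 := bf fun t => s2135 t n3
    have u3 := bf fun t => g2025 t n2 u2
    have u4 := bf fun t => g2028 t u3
    have u5 := bf fun t => s2141 t n3
    have u6 := bf fun t => g48 t n0
    have u7 := bf fun t => s2125 n0 t u5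
    have u8 := bf fun t => g1974 u6 t n2
    have u9 := bf fun t => g2037 t u7 u4
    have u10 := bt fun t => s2124 u1 t u0 u8 u5 n2 n3
    exact g2043 g2044 u9 u10
  have s2143 : T.alt p a c b d = true → T.alt p r d a c = true → T.X p a c d = true → False := fun n0 n1 n2 => by
    have u0 := bf fun t => s2135 t n2
    have u1 := bf fun t => g410 t n1
    have u2 := bf fun t => g2025 t u1 u0
    have u3 := bf fun t => g2028 t u2
    have u4 := bf fun t => s2141 t n2
    have u5 := bf fun t => g771 t n0
    have u6 := bf fun t => g1991 t n1 n0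
    have u7 := bf fun t => g2010 u1 t u5
    have u8 := bf fun t => s2142 t n0 u1 n2
    have u9 := bf fun t => g1981 u8 u0 t
    have u10 := bt fun t => g46 t u6 u8
    have u11 := bf fun t => g2032 t u7 u9
    have u12 := bf fun t => g157 u10 g2011 t u4
    have u13 := bf fun t => g2035 t u11
    have u14 := bt fun t => s2121 t u10 u12 u4
    have u15 := bf fun t => g2042 g2044 t u13
    exact g2038 u15 u14 u3
  have s2144 : v62 = false → T.alt p r b a c = true → T.X p c a b = false → False := fun n0 n1 n2 => by
    have u0 := bf fun t => g98 n1 g2011 t n2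
    have u1 := bt fun t => s2106 t n1 n0 n2
    have u2 := bf fun t => g4 t u1
    have u3 := bt fun t => g84 n1 g2011 u1 t
    have u4 := bf fun t => g2014 t u1 u3
    have u5 := bf fun t => g1021 g2011 u2 u0 n2 t
    have u6 := bf fun t => g2021 n0 u4 t
    have u7 := bt fun t => g61 n1 w2076 u2 u0 t u5
    exact g1003 w2076 u1 u6 u7 u5
  have s2145 : T.alt p r d a c = true → T.X p a c d = true → False := fun n0 n1 => by
    have u0 := bf fun t => s2141 t n1
    have u1 := bf fun t => s2135 t n1
    have u2 := bf fun t => g410 t n0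
    have u3 := bf fun t => g2025 t u2 u1
    have u4 := bf fun t => g2028 t u3
    have u5 := bf fun t => s2143 t n0 n1
    have u6 := bt fun t => g1994 t n0 u5
    have u7 := bf fun t => g49 u6 t
    have u8 := bf fun t => g1981 u7 u1 t
    have u9 := bt fun t => s2144 t u6 u0
    have u10 := bt fun t => g2038 t u9 u4
    have u11 := bt fun t => g2042 g2044 u10 t
    have u12 := bt fun t => g2034 u11 t
    have u13 := bt fun t => g2035 u11 t
    have u14 := bf fun t => g862 t n1 u12 g2013
    have u15 := bt fun t => g2032 u13 t u8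
    exact g2010 u2 u15 u14
  have s2146 : T.X p d r a = true → T.X p a c d = true → False := fun n0 n1 => by
    have u0 := bf fun t => s2135 t n1
    have u1 := bf fun t => s2145 t n1
    have u2 := bt fun t => g408 t u0 u1
    have u3 := bf fun t => g26 n1 t
    have u4 := bf fun t => g515 u2 t n0 w2079
    have u5 := bf fun t => g519 u2 t n0 u3
    exact g513 u2 u5 u4 g2012 n1
  have s2147 : T.X p a c d = true → False := fun n0 => by
    have u0 := bf fun t => s2135 t n0
    have u1 := bf fun t => s2141 t n0
    have u2 := bf fun t => g2058 t u1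
    have u3 := bf fun t => g2069 w2116 t u2
    have u4 := bf fun t => s2145 t n0
    have u5 := bt fun t => g408 t u0 u4
    have u6 := bt fun t => g500 u5 g2012 n0 t
    have u7 := bf fun t => s2146 t n0
    have u8 := bf fun t => g2051 u3 t u7
    have u9 := bt fun t => g2048 u8 t u6
    have u10 := bf fun t => g5 t u9
    have u11 := bf fun t => g6 t u9
    exact g513 u5 u10 u11 g2012 n0
  have w2147 := bf s2147
  have s2148 := fun (n0 : v64 = true) => g2027 n0 w2147
  have w2148 := bf s2148
  have s2149 : v62 = true → T.X p c a b = false → T.alt p r b a c = false → T.X p a r c = false → T.alt p r c a d = false → False := fun n0 n1 n2 n3 n4 => by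
    have u0 := bf fun t => s2125 t n0 n1
    have u1 := bt fun t => g2038 t n0 w2148
    have u2 := bf fun t => g1981 u0 n4 t
    have u3 := bt fun t => g46 t n2 u0
    have u4 := bt fun t => g2042 g2044 u1 t
    have u5 := bt fun t => g133 u3 g2011 n3 n1 t
    have u6 := bt fun t => g2035 u4 t
    have u7 := bt fun t => g2017 t n3 u5
    have u8 := bt fun t => g2032 u6 t u2
    have u9 := bt fun t => g2030 u6 u8 t
    exact g2018 n0 u7 u9
  have s2150 : T.alt p r a b c = true → v62 = false → T.X p c a b = false → False := fun n0 n1 n2 => by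
    have u0 := bf fun t => g157 n0 g2011 t n2
    exact s2121 n1 n0 u0 n2
  have s2151 : T.X p c a b = false → T.alt p r b a c = false → T.X p a r c = false → T.alt p r a c d = true → False := fun n0 n1 n2 n3 => by
    have u0 := bf fun t => g409 n3 t
    have u1 := bf fun t => s2149 t n0 n1 n2 u0
    have u2 := bf fun t => s2150 t u1 n0
    have u3 := bt fun t => g1973 u2 t n3
    have u4 := bt fun t => g46 u2 n1 t
    have u5 := bf fun t => g228 u3 t
    have u6 := bf fun t => g229 u3 t
    have u7 := bt fun t => g2062 t u6 u3
    have u8 := bf fun t => g1977 n1 u5 t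
    have u9 := bt fun t => g1988 u4 u6 t
    have u10 := bf fun t => g2064 w2117 t u7
    have u11 := bf fun t => s2100 u4 n2 t n0 u8 w2148 u0
    exact g844 u9 n0 u10 w2147 u11 g2013
  have s2152 : T.alt p r b a c = false → v72 = false → T.X p r a c = false → T.X p a r c = false → T.alt p r a c d = true → False := fun n0 n1 n2 n3 n4 => by
    have u0 := bt fun t => s2151 t n0 n3 n4
    have u1 := bf fun t => g2057 n1 u0 t
    have u2 := bt fun t => s2096 t u1 n0
    have u3 := bf fun t => g2053 u1 u2 t
    exact g210 u2 g2011 n2 u3 u0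
  have s2153 : T.alt p r b a c = true → T.alt p r a c d = true → False := fun n0 n1 => by
    have u0 := bf fun t => g410 n1 t
    have u1 := bf fun t => g47 t n0
    have u2 := bt fun t => g1992 n0 u0 t
    have u3 := bt fun t => g1973 u1 t n1
    have u4 := bf fun t => g229 u3 t
    have u5 := bt fun t => g2062 t u4 u3
    have u6 := bf fun t => g2064 w2117 t u5
    have u7 := bf fun t => g797 u2 t u6 w2147 g2013
    have u8 := bf fun t => g793 u2 u6 w2147 t g2013
    have u9 := bt fun t => s2144 t n0 u7
    have u10 := bf fun t => g2034 t u8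
    have u11 := bt fun t => g2038 t u9 w2148
    exact g2042 g2044 u11 u10
  have s2154 : v62 = true → T.X p a r c = false → T.alt p r a c d = true → False := fun n0 n1 n2 => by
    have u0 := bf fun t => s2153 t n2
    have u1 := bt fun t => s2151 t u0 n1 n2
    have u2 := bf fun t => g410 n2 t
    have u3 := bf fun t => g1993 u0 u2 t
    have u4 := bt fun t => g2038 t n0 w2148
    have u5 := bt fun t => g2042 g2044 u4 t
    have u6 := bt fun t => g2034 u5 t
    have u7 := bt fun t => g2035 u5 t
    have u8 := bf fun t => g864 t u1 u6 g2013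
    have u9 := bt fun t => g770 u8 u3 t
    have u10 := bt fun t => g2008 n2 t u8
    have u11 := bf fun t => g591 u10 t
    have u12 := bt fun t => g2030 u7 u10 t
    have u13 := bt fun t => g2001 t u11 u9
    have u14 := bt fun t => g143 u13 g2011 u12 t
    have u15 := bf fun t => g2018 n0 t u12
    exact g2017 u15 n1 u14
  have s2155 : T.X p d r a = false → v70 = true → T.alt p r a c d = true → False := fun n0 n1 n2 => by
    have u0 := bf fun t => s2110 n2 w2147 n0 t
    exact g2050 n1 u0 n0
  have s2156 : v70 = true → T.alt p r a c d = true → False := fun n0 n1 => by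
    have u0 := bt fun t => s2155 t n0 n1
    have u1 := bt fun t => s2103 n1 u0 t
    exact g2049 n0 u1 u0
  have s2157 : T.X p a r c = false → T.alt p r a c d = true → False := fun n0 n1 => by
    have u0 := bf fun t => s2156 t n1
    have u1 := bf fun t => g2070 w2116 u0 t
    have u2 := bf fun t => s2153 t n1
    have u3 := bt fun t => s2151 t u2 n0 n1
    have u4 := bf fun t => g21 t u3
    have u5 := bf fun t => s2154 t n0 n1
    have u6 := bt fun t => s2152 u2 u1 t n0 n1
    have u7 := bf fun t => g2057 u1 u3 t
    have u8 := bt fun t => s2096 t u7 u2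
    have u9 := bt fun t => g197 u8 g2011 u3 t
    have u10 := bf fun t => g216 u8 u6 t u4
    have u11 := bt fun t => g2017 t n0 u9
    exact g2020 u5 u11 u10
  have s2158 : T.X p c a b = true → T.alt p r a c d = true → False := fun n0 n1 => by
    have u0 := bt fun t => s2157 t n1
    have u1 := bf fun t => g6 u0 t
    have u2 := bf fun t => g4 t u0
    have u3 := bf fun t => s2156 t n1
    have u4 := bf fun t => g2070 w2116 u3 t
    have u5 := bf fun t => s2153 t n1
    have u6 := bf fun t => g2057 u4 n0 t
    have u7 := bf fun t => g210 t g2011 u2 u1 n0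
    exact s2096 u7 u6 u5
  have s2159 : T.alt p r c a b = false → T.alt p r a c d = true → False := fun n0 n1 => by
    have u0 := bf fun t => s2158 t n1
    have u1 := bt fun t => s2157 t n1
    have u2 := bf fun t => g6 u1 t
    have u3 := bf fun t => s2153 t n1
    have u4 := bf fun t => g409 n1 t
    have u5 := bf fun t => g1981 n0 u4 t
    have u6 := bt fun t => g46 t u3 n0
    have u7 := bt fun t => s2121 t u6 u2 u0
    have u8 := bt fun t => g2038 t u7 w2148
    have u9 := bt fun t => g2042 g2044 u8 t
    have u10 := bt fun t => g2034 u9 t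
    have u11 := bt fun t => g2035 u9 t
    have u12 := bf fun t => g911 t u0 w2147 u10 g2013
    have u13 := bt fun t => g2032 u11 t u5
    have u14 := bt fun t => g2000 u6 t u12
    exact g591 u13 u14
  have s2160 : T.alt p r a c d = true → False := fun n0 => by
    have u0 := bf fun t => g409 n0 t
    have u1 := bf fun t => s2158 t n0
    have u2 := bt fun t => s2159 t n0
    have u3 := bf fun t => g48 t u2
    have u4 := bt fun t => g1980 u2 u0 t
    have u5 := bf fun t => s2125 u2 t u1
    have u6 := bt fun t => g1973 u3 t n0
    have u7 := bf fun t => g590 t u4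
    have u8 := bt fun t => g2031 t u7 u4
    have u9 := bf fun t => g2037 t u5 w2148
    have u10 := bf fun t => g229 u6 t
    have u11 := bt fun t => g2062 t u10 u6
    have u12 := bt fun t => g2008 n0 u7 t
    have u13 := bf fun t => g2043 g2044 u9 t
    have u14 := bf fun t => g2064 w2117 t u11
    have u15 := bt fun t => g844 u12 u1 u14 w2147 t g2013
    exact g2033 u13 u15 u8
  have w2160 := bf s2160
  have s2163 : T.alt p r c a d = true → T.X p c r a = false → v70 = false → False := fun n0 n1 n2 => by
    have u0 := bt fun t => s2093 n1 w2147 n0 t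
    have u1 := bf fun t => s2089 n0 w2147 t u0
    exact g2051 n2 u0 u1
  have s2164 : T.X p d r a = false → T.X p c r a = false → v70 = false → False := fun n0 n1 n2 => by
    have u0 := bf fun t => s2163 t n1 n2
    have u1 := bt fun t => g408 w2160 u0 t
    have u2 := bf fun t => g2051 n2 t n0
    have u3 := bt fun t => g551 u1 n0 g2012 w2147 t
    exact g2048 u2 n1 u3
  have s2165 : T.X p c r a = false → v70 = false → False := fun n0 n1 => by
    have u0 := bf fun t => s2163 t n0 n1
    have u1 := bt fun t => g408 w2160 u0 t
    have u2 := bt fun t => s2164 t n0 n1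
    have u3 := bt fun t => g2052 n1 t u2
    exact s2087 u1 w2147 u3 u2
  have s2166 : v69 = true → T.X p d r a = true → False := fun n0 n1 => by
    have u0 := bf fun t => s2087 t w2147 n0 n1
    have u1 := bf fun t => s2089 t w2147 n1 n0
    exact g408 w2160 u1 u0
  have s2167 : T.X p d r a = true → v70 = false → False := fun n0 n1 => by
    have u0 := bt fun t => g2052 n1 t n0
    exact s2166 u0 n0
  have s2168 : v70 = false → False := fun n0 => by
    have u0 := bt fun t => s2165 t n0
    have u1 := bf fun t => g5 t u0
    have u2 := bf fun t => s2167 t n0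
    have u3 := bf fun t => g2051 n0 t u2
    have u4 := bt fun t => g2047 u3 u0 t
    have u5 := bf fun t => g38 u4 t
    have u6 := bf fun t => g468 t u0 u2 g2012 w2147 u4
    have u7 := bf fun t => g1325 u0 u2 w2078 t u5
    have u8 := bt fun t => g408 w2160 u6 t
    exact g570 u8 u1 g2012 w2147 u7
  have w2168 := bt s2168
  have s2169 := fun (n0 : v72 = false) => g2069 w2116 w2168 n0
  have w2169 := bt s2169
  have s2170 := fun (n0 : T.X p c a b = false) => g2058 w2169 n0
  have w2170 := bt s2170
  have s2171 := fun (n0 : T.bfo p a b c r = false) => g2059 w2169 n0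
  have w2171 := bt s2171
  have s2174 := fun (n0 : T.alt p r b a c = true) => s2088 n0 w2171
  have w2174 := bf s2174
  have s2175 : T.alt p r d a c = true → v69 = true → False := fun n0 n1 => by
    have u0 := bf fun t => g411 t n0
    have u1 := bt fun t => g1994 w2174 n0 t
    have u2 := bf fun t => g771 t u1
    have u3 := bt fun t => g797 u1 w2170 t w2147 g2013
    have u4 := bf fun t => g2010 w2160 t u2
    have u5 := bf fun t => s2084 w2160 u0 t n1 u2 w2171
    have u6 := bf fun t => g2064 w2117 u3 t
    have u7 := bf fun t => g2031 u5 u4 t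
    have u8 := bf fun t => s2123 t u6
    exact g2005 u8 u7 u1
  have s2176 : T.alt p r c b d = false → T.alt p r c a d = true → False := fun n0 n1 => by
    have u0 := bt fun t => g1982 t n1 n0
    have u1 := bt fun t => g197 u0 g2011 w2170 t
    have u2 := bt fun t => g2054 w2171 u0 t
    have u3 := bf fun t => g6 t u2
    have u4 := bf fun t => g212 u0 w2077 u2 t
    have u5 := bt fun t => g2017 t u3 u1
    have u6 := bt fun t => g2020 t u5 u4
    have u7 := bt fun t => g2038 t u6 w2148
    have u8 := bt fun t => g2042 g2044 u7 t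
    have u9 := bt fun t => g2035 u8 t
    have u10 := bt fun t => g2032 u9 t n0
    exact g2030 u9 u10 u4
  have s2177 : T.X p b r c = false → T.X p a r c = false → T.alt p r d a c = false → False := fun n0 n1 n2 => by
    have u0 := bt fun t => g408 w2160 t n2
    have u1 := bt fun t => s2176 t u0
    have u2 := bf fun t => g590 t u1
    have u3 := bt fun t => g2031 t u2 u1
    have u4 := bf fun t => g1993 w2174 n2 t
    have u5 := bf fun t => g2009 w2160 u2 t
    have u6 := bt fun t => g770 u5 u4 t
    have u7 := bf fun t => g592 u1 t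
    have u8 := bf fun t => g1984 t n2 u7
    have u9 := bt fun t => g2006 t u1 u4
    have u10 := bt fun t => g2062 t u8 u9
    have u11 := bf fun t => g2064 w2117 t u10
    have u12 := bt fun t => g910 u6 w2170 u11 t g2013
    have u13 := bt fun t => g2033 t u12 u3
    have u14 := bt fun t => g2043 g2044 t u13
    have u15 := bt fun t => g2037 u14 t w2148
    have u16 := bf fun t => g1979 t u0 u1
    have u17 := bt fun t => g46 t w2174 u16
    have u18 := bt fun t => g2019 u15 t n0
    have u19 := bf fun t => g161 u17 g2011 n1 n0 w2170 t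
    exact g2015 u18 n1 u19
  have s2178 : T.X p a r c = false → T.alt p r d a c = false → False := fun n0 n1 => by
    have u0 := bt fun t => g408 w2160 t n1
    have u1 := bt fun t => s2176 t u0
    have u2 := bf fun t => g590 t u1
    have u3 := bt fun t => g2031 t u2 u1
    have u4 := bf fun t => g1993 w2174 n1 t
    have u5 := bf fun t => g2009 w2160 u2 t
    have u6 := bt fun t => g770 u5 u4 t
    have u7 := bf fun t => g592 u1 t
    have u8 := bf fun t => g1984 t n1 u7
    have u9 := bt fun t => g2006 t u1 u4
    have u10 := bt fun t => g2062 t u8 u9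
    have u11 := bf fun t => g2064 w2117 t u10
    have u12 := bt fun t => g910 u6 w2170 u11 t g2013
    have u13 := bt fun t => g2033 t u12 u3
    have u14 := bt fun t => g2043 g2044 t u13
    have u15 := bt fun t => g2037 u14 t w2148
    have u16 := bf fun t => g1979 t u0 u1
    have u17 := bt fun t => g46 t w2174 u16
    have u18 := bt fun t => s2177 t n0 n1
    have u19 := bt fun t => g143 u17 g2011 u18 t
    have u20 := bf fun t => g2018 u15 t u18
    exact g2017 u20 n0 u19
  have s2179 : T.X p d r a = false → False := fun n0 => by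
    have u0 := bt fun t => g2050 w2168 t n0
    have u1 := bf fun t => s2175 t u0
    have u2 := bt fun t => s2178 t u1
    have u3 := bf fun t => g6 u2 t
    have u4 := bf fun t => g1312 u2 n0 w2079 w2147 t
    exact g2046 u0 u3 u4
  have w2179 := bt s2179
  have s2182 := fun (n0 : v69 = true) => g2049 w2168 n0 w2179
  have w2182 := bf s2182
  have s2183 : T.alt p r d a c = false → False := fun n0 => by
    have u0 := bt fun t => g408 w2160 t n0
    have u1 := bt fun t => s2178 t n0
    have u2 := bt fun t => s2093 t w2147 u0 w2182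
    exact g6 u1 u2
  have w2183 := bt s2183
  have s2184 := fun (n0 : T.alt p r c a d = true) => g411 n0 w2183
  have w2184 := bf s2184
  have s2185 := fun (n0 : T.alt p a c b d = false) => g1994 w2174 w2183 n0
  have w2185 := bt s2185
  have s2189 := fun (n0 : T.alt p a d b c = true) => g773 w2185 n0
  have w2189 := bf s2189
  have s2190 := fun (n0 : T.X p d a b = false) => g797 w2185 w2170 n0 w2147 g2013
  have w2190 := bt s2190
  have s2193 := fun (n0 : T.alt p r b a d = true) => g1996 n0 w2184 w2189
  have w2193 := bf s2193
  have s2196 := fun (n0 : T.bfo p a b d r = true) => g2064 w2117 w2190 n0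
  have w2196 := bf s2196
  have s2198 := fun (n0 : T.alt p r d a b = true) => g2060 w2196 n0 w2179
  have w2198 := bf s2198
  have s2199 := fun (n0 : T.alt p r a b d = true) => s2123 n0 w2196
  have w2199 := bf s2199
  exact g227 w2199 w2193 w2198

theorem fl_a {p r a b c d : V} (hN : [p, r, a, b, c, d].Nodup) (h0 : T.X p r a b = true) (h1 : T.X p r c d = true)
    (h2 : T.X a b c d = false) (h3 : T.lto p r c d a b = true) (h4 : T.lto p r a b c d = true) : False := by
  obtain ⟨v61, e61⟩ : ∃ v : Bool, v = (T.X p a r c ^^ T.X r c a b) := ⟨_, rfl⟩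
  obtain ⟨v62, e62⟩ : ∃ v : Bool, v = (v61 ^^ T.X p b r c) := ⟨_, rfl⟩
  have B63 : T.bfo p c d a r = (bif T.alt p r a c d then T.X p a r c else T.alt p r c a d) :=
    T.bfo_eq (T.as5 p c d a r) (T.xs2 p a c r) (T.as1 p c r a d)
  obtain ⟨v64, e64⟩ : ∃ v : Bool, v = (T.X p a c d && T.bfo p c d a r) := ⟨_, rfl⟩
  have B65 : T.bfo p c d b r = (bif T.alt p r b c d then T.X p b r c else T.alt p r c b d) :=
    T.bfo_eq (T.as5 p c d b r) (T.xs2 p b c r) (T.as1 p c r b d)
  obtain ⟨v66, e66⟩ : ∃ v : Bool, v = (T.X p b c d && T.bfo p c d b r) := ⟨_, rfl⟩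
  obtain ⟨v67, e67⟩ : ∃ v : Bool, v = (v62 ^^ v64) := ⟨_, rfl⟩
  have L68 : T.lto p r c d a b = (v67 ^^ v66) :=
    T.lto_eq (T.xs6 c r p a) (T.xs1 c r a b) (T.xs7 c r b p) rfl rfl e61 e62 e64 e67 e66
  obtain ⟨v69, e69⟩ : ∃ v : Bool, v = (T.X p c r a ^^ T.X r a c d) := ⟨_, rfl⟩
  obtain ⟨v70, e70⟩ : ∃ v : Bool, v = (v69 ^^ T.X p d r a) := ⟨_, rfl⟩
  have B71 : T.bfo p a b c r = (bif T.alt p r c a b then T.X p c r a else T.alt p r a b c) :=
    T.bfo_eq (T.as5 p a b c r) (T.xs2 p c a r) (T.as3 p a r c b)
  obtain ⟨v72, e72⟩ : ∃ v : Bool, v = (T.X p c a b && T.bfo p a b c r) := ⟨_, rfl⟩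
  have B73 : T.bfo p a b d r = (bif T.alt p r d a b then T.X p d r a else T.alt p r a b d) :=
    T.bfo_eq (T.as5 p a b d r) (T.xs2 p d a r) (T.as3 p a r d b)
  obtain ⟨v74, e74⟩ : ∃ v : Bool, v = (T.X p d a b && T.bfo p a b d r) := ⟨_, rfl⟩
  obtain ⟨v75, e75⟩ : ∃ v : Bool, v = (v70 ^^ v72) := ⟨_, rfl⟩
  have L76 : T.lto p r a b c d = (v75 ^^ v74) :=
    T.lto_eq (T.xs6 a r p c) (T.xs1 a r c d) (T.xs7 a r d p) rfl rfl e69 e70 e72 e75 e74
  have k0 : T.Ok5 p r a b c := T.n5 hN (.cons_cons _ (.cons_cons _ (.cons_cons _ (.cons_cons _ (.cons_cons _ (List.nil_sublist _))))))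
  have k1 : T.Ok5 p r a b d := T.n5 hN (.cons_cons _ (.cons_cons _ (.cons_cons _ (.cons_cons _ (.cons _ (.cons_cons _ (List.nil_sublist _)))))))
  have k2 : T.Ok5 p r a c d := T.n5 hN (.cons_cons _ (.cons_cons _ (.cons_cons _ (.cons _ (.cons_cons _ (.cons_cons _ (List.nil_sublist _)))))))
  have k3 : T.Ok5 p r b c d := T.n5 hN (.cons_cons _ (.cons_cons _ (.cons _ (.cons_cons _ (.cons_cons _ (.cons_cons _ (List.nil_sublist _)))))))
  have k4 : T.Ok5 p a b c d := T.n5 hN (.cons_cons _ (.cons _ (.cons_cons _ (.cons_cons _ (.cons_cons _ (.cons_cons _ (List.nil_sublist _)))))))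
  have k5 : T.Ok5 r a b c d := T.n5 hN (.cons _ (.cons_cons _ (.cons_cons _ (.cons_cons _ (.cons_cons _ (.cons_cons _ (List.nil_sublist _)))))))
  have sp0 : T.Sp5 p r a b c d := T.sp5 hN (.cons_cons _ (.cons_cons _ (.cons_cons _ (.cons_cons _ (.cons_cons _ (.cons_cons _ (List.nil_sublist _)))))))
  have g1 := T.q01 p r a b
  have g2 := T.q02 p r a b
  have g4 := T.q01 p r a c
  have g5 := T.q02 p r a c
  have g6 := T.q12 p r a c
  have g8 := T.q02 p r a d
  have g9 := T.q12 p r a d
  have g10 := T.q01 p r b c
  have g12 := T.q12 p r b c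
  have g16 := T.q01 p r c d
  have g17 := T.q02 p r c d
  have g19 := T.q01 p a b c
  have g20 := T.q02 p a b c
  have g21 := T.q12 p a b c
  have g23 := T.q02 p a b d
  have g24 := T.q12 p a b d
  have g25 := T.q01 p a c d
  have g26 := T.q02 p a c d
  have g28 := T.q01 p b c d
  have g29 := T.q02 p b c d
  have g32 := T.q02 r a b c
  have g33 := T.q12 r a b c
  have g34 := T.q01 r a b d
  have g35 := T.q02 r a b d
  have g36 := T.q12 r a b d
  have g37 := T.q01 r a c d
  have g38 := T.q02 r a c d
  have g40 := T.q01 r b c d
  have g41 := T.q02 r b c d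
  have g42 := T.q12 r b c d
  have g46 := T.ae1 k0
  have g47 := T.ae01 k0
  have g48 := T.ae02 k0
  have g49 := T.ae12 k0
  have g57 := fun ha : T.alt p r b a c = true => zA1_16420_16416 (T.okA1 k0 ha)
  have g61 := fun ha : T.alt p r b a c = true => zA1_9482_0 (T.okA1 k0 ha)
  have g69 := fun ha : T.alt p r b a c = true => zA1_4704_512 (T.okA1 k0 ha)
  have g71 := fun ha : T.alt p r b a c = true => zA1_4676_64 (T.okA1 k0 ha)
  have g74 := fun ha : T.alt p r b a c = true => zA1_18561_1 (T.okA1 k0 ha)
  have g84 := fun ha : T.alt p r b a c = true => zA1_16401_17 (T.okA1 k0 ha)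
  have g87 := fun ha : T.alt p r b a c = true => zA1_294_32 (T.okA1 k0 ha)
  have g93 := fun ha : T.alt p r b a c = true => zA1_1176_128 (T.okA1 k0 ha)
  have g98 := fun ha : T.alt p r b a c = true => zA1_2305_257 (T.okA1 k0 ha)
  have g101 := fun ha : T.alt p r b a c = true => zA1_18577_16513 (T.okA1 k0 ha)
  have g102 := fun ha : T.alt p r b a c = true => zA1_18577_18433 (T.okA1 k0 ha)
  have g120 := fun ha : T.alt p r a b c = true => zA0_4708_0 (T.okA0 k0 ha)
  have g130 := fun ha : T.alt p r a b c = true => zA0_9226_8 (T.okA0 k0 ha)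
  have g133 := fun ha : T.alt p r a b c = true => zA0_18449_1 (T.okA0 k0 ha)
  have g141 := fun ha : T.alt p r a b c = true => zA0_4192_96 (T.okA0 k0 ha)
  have g143 := fun ha : T.alt p r a b c = true => zA0_16513_129 (T.okA0 k0 ha)
  have g147 := fun ha : T.alt p r a b c = true => zA0_4708_4160 (T.okA0 k0 ha)
  have g154 := fun ha : T.alt p r a b c = true => zA0_1096_1088 (T.okA0 k0 ha)
  have g157 := fun ha : T.alt p r a b c = true => zA0_2081_33 (T.okA0 k0 ha)
  have g159 := fun ha : T.alt p r a b c = true => zA0_18448_2064 (T.okA0 k0 ha)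
  have g160 := fun ha : T.alt p r a b c = true => zA0_18577_16401 (T.okA0 k0 ha)
  have g161 := fun ha : T.alt p r a b c = true => zA0_18577_18433 (T.okA0 k0 ha)
  have g188 := fun ha : T.alt p r c a b = true => zA2_8458_256 (T.okA2 k0 ha)
  have g197 := fun ha : T.alt p r c a b = true => zA2_18433_2049 (T.okA2 k0 ha)
  have g198 := fun ha : T.alt p r c a b = true => zA2_16401_17 (T.okA2 k0 ha)
  have g200 := fun ha : T.alt p r c a b = true => zA2_16513_129 (T.okA2 k0 ha)
  have g206 := fun ha : T.alt p r c a b = true => zA2_18577_16385 (T.okA2 k0 ha)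
  have g210 := fun ha : T.alt p r c a b = true => zA2_2089_2049 (T.okA2 k0 ha)
  have g212 := fun ha : T.alt p r c a b = true => zA2_164_160 (T.okA2 k0 ha)
  have g215 := fun ha : T.alt p r c a b = true => zA2_150_144 (T.okA2 k0 ha)
  have g216 := fun ha : T.alt p r c a b = true => zA2_1160_136 (T.okA2 k0 ha)
  have g227 := T.ae1 k1
  have g228 := T.ae01 k1
  have g229 := T.ae02 k1
  have g230 := T.ae12 k1
  have g255 := fun ha : T.alt p r b a d = true => zA1_18561_1 (T.okA1 k1 ha)
  have g268 := fun ha : T.alt p r b a d = true => zA1_294_32 (T.okA1 k1 ha)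
  have g279 := fun ha : T.alt p r b a d = true => zA1_2305_257 (T.okA1 k1 ha)
  have g311 := fun ha : T.alt p r a b d = true => zA0_9226_8 (T.okA0 k1 ha)
  have g314 := fun ha : T.alt p r a b d = true => zA0_18449_1 (T.okA0 k1 ha)
  have g327 := fun ha : T.alt p r a b d = true => zA0_294_256 (T.okA0 k1 ha)
  have g338 := fun ha : T.alt p r a b d = true => zA0_2081_33 (T.okA0 k1 ha)
  have g370 := fun ha : T.alt p r d a b = true => zA2_4704_64 (T.okA2 k1 ha)
  have g378 := fun ha : T.alt p r d a b = true => zA2_18433_2049 (T.okA2 k1 ha)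
  have g379 := fun ha : T.alt p r d a b = true => zA2_16401_17 (T.okA2 k1 ha)
  have g381 := fun ha : T.alt p r d a b = true => zA2_16513_129 (T.okA2 k1 ha)
  have g391 := fun ha : T.alt p r d a b = true => zA2_2089_2049 (T.okA2 k1 ha)
  have g393 := fun ha : T.alt p r d a b = true => zA2_164_160 (T.okA2 k1 ha)
  have g408 := T.ae1 k2
  have g410 := T.ae02 k2
  have g411 := T.ae12 k2
  have g422 := fun ha : T.alt p r c a d = true => zA1_2307_2048 (T.okA1 k2 ha)
  have g433 := fun ha : T.alt p r c a d = true => zA1_4676_64 (T.okA1 k2 ha)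
  have g436 := fun ha : T.alt p r c a d = true => zA1_18561_1 (T.okA1 k2 ha)
  have g447 := fun ha : T.alt p r c a d = true => zA1_4612_516 (T.okA1 k2 ha)
  have g449 := fun ha : T.alt p r c a d = true => zA1_294_32 (T.okA1 k2 ha)
  have g461 := fun ha : T.alt p r c a d = true => zA1_4192_96 (T.okA1 k2 ha)
  have g468 := fun ha : T.alt p r c a d = true => zA1_4708_4164 (T.okA1 k2 ha)
  have g470 := fun ha : T.alt p r c a d = true => zA1_4708_4672 (T.okA1 k2 ha)
  have g491 := fun ha : T.alt p r a c d = true => zA0_16529_16 (T.okA0 k2 ha)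
  have g492 := fun ha : T.alt p r a c d = true => zA0_9226_8 (T.okA0 k2 ha)
  have g494 := fun ha : T.alt p r a c d = true => zA0_8458_2 (T.okA0 k2 ha)
  have g500 := fun ha : T.alt p r a c d = true => zA0_4672_576 (T.okA0 k2 ha)
  have g501 := fun ha : T.alt p r a c d = true => zA0_4164_68 (T.okA0 k2 ha)
  have g503 := fun ha : T.alt p r a c d = true => zA0_4192_96 (T.okA0 k2 ha)
  have g509 := fun ha : T.alt p r a c d = true => zA0_4708_4160 (T.okA0 k2 ha)
  have g513 := fun ha : T.alt p r a c d = true => zA0_579_576 (T.okA0 k2 ha)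
  have g515 := fun ha : T.alt p r a c d = true => zA0_290_34 (T.okA0 k2 ha)
  have g518 := fun ha : T.alt p r a c d = true => zA0_420_36 (T.okA0 k2 ha)
  have g540 := fun ha : T.alt p r d a c = true => zA2_1176_1024 (T.okA2 k2 ha)
  have g546 := fun ha : T.alt p r d a c = true => zA2_9474_2 (T.okA2 k2 ha)
  have g551 := fun ha : T.alt p r d a c = true => zA2_4704_64 (T.okA2 k2 ha)
  have g554 := fun ha : T.alt p r d a c = true => zA2_9480_8 (T.okA2 k2 ha)
  have g565 := fun ha : T.alt p r d a c = true => zA2_4640_544 (T.okA2 k2 ha)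
  have g567 := fun ha : T.alt p r d a c = true => zA2_180_4 (T.okA2 k2 ha)
  have g579 := fun ha : T.alt p r d a c = true => zA2_4164_68 (T.okA2 k2 ha)
  have g586 := fun ha : T.alt p r d a c = true => zA2_4708_4192 (T.okA2 k2 ha)
  have g588 := fun ha : T.alt p r d a c = true => zA2_4708_4672 (T.okA2 k2 ha)
  have g589 := T.ae1 k3
  have g590 := T.ae01 k3
  have g591 := T.ae02 k3
  have g592 := T.ae12 k3
  have g614 := fun ha : T.alt p r c b d = true => zA1_4676_64 (T.okA1 k3 ha)
  have g672 := fun ha : T.alt p r b c d = true => zA0_16529_16 (T.okA0 k3 ha)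
  have g676 := fun ha : T.alt p r b c d = true => zA0_18449_1 (T.okA0 k3 ha)
  have g681 := fun ha : T.alt p r b c d = true => zA0_4672_576 (T.okA0 k3 ha)
  have g694 := fun ha : T.alt p r b c d = true => zA0_579_576 (T.okA0 k3 ha)
  have g732 := fun ha : T.alt p r d b c = true => zA2_4704_64 (T.okA2 k3 ha)
  have g751 := fun ha : T.alt p r d b c = true => zA2_2625_64 (T.okA2 k3 ha)
  have g757 := fun ha : T.alt p r d b c = true => zA2_2306_2050 (T.okA2 k3 ha)
  have g770 := T.ae1 k4
  have g771 := T.ae01 k4
  have g773 := T.ae12 k4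
  have g781 := fun ha : T.alt p a c b d = true => zA1_16420_16416 (T.okA1 k4 ha)
  have g792 := fun ha : T.alt p a c b d = true => zA1_4644_32 (T.okA1 k4 ha)
  have g793 := fun ha : T.alt p a c b d = true => zA1_4704_512 (T.okA1 k4 ha)
  have g795 := fun ha : T.alt p a c b d = true => zA1_4676_64 (T.okA1 k4 ha)
  have g797 := fun ha : T.alt p a c b d = true => zA1_4196_4 (T.okA1 k4 ha)
  have g809 := fun ha : T.alt p a c b d = true => zA1_4612_516 (T.okA1 k4 ha)
  have g811 := fun ha : T.alt p a c b d = true => zA1_294_32 (T.okA1 k4 ha)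
  have g822 := fun ha : T.alt p a c b d = true => zA1_2305_257 (T.okA1 k4 ha)
  have g823 := fun ha : T.alt p a c b d = true => zA1_4192_96 (T.okA1 k4 ha)
  have g840 := fun ha : T.alt p a b c d = true => zA0_16642_16640 (T.okA0 k4 ha)
  have g844 := fun ha : T.alt p a b c d = true => zA0_4708_0 (T.okA0 k4 ha)
  have g861 := fun ha : T.alt p a b c d = true => zA0_4132_36 (T.okA0 k4 ha)
  have g862 := fun ha : T.alt p a b c d = true => zA0_4672_576 (T.okA0 k4 ha)
  have g863 := fun ha : T.alt p a b c d = true => zA0_4164_68 (T.okA0 k4 ha)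
  have g864 := fun ha : T.alt p a b c d = true => zA0_4612_516 (T.okA0 k4 ha)
  have g865 := fun ha : T.alt p a b c d = true => zA0_4192_96 (T.okA0 k4 ha)
  have g866 := fun ha : T.alt p a b c d = true => zA0_4640_544 (T.okA0 k4 ha)
  have g908 := fun ha : T.alt p a d b c = true => zA2_9474_2 (T.okA2 k4 ha)
  have g910 := fun ha : T.alt p a d b c = true => zA2_4644_4 (T.okA2 k4 ha)
  have g911 := fun ha : T.alt p a d b c = true => zA2_4676_512 (T.okA2 k4 ha)
  have g913 := fun ha : T.alt p a d b c = true => zA2_4704_64 (T.okA2 k4 ha)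
  have g915 := fun ha : T.alt p a d b c = true => zA2_4196_32 (T.okA2 k4 ha)
  have g927 := fun ha : T.alt p a d b c = true => zA2_4640_544 (T.okA2 k4 ha)
  have g941 := fun ha : T.alt p a d b c = true => zA2_4164_68 (T.okA2 k4 ha)
  have g966 := z5_17545_129 k0
  have g967 := z5_17545_1025 k0
  have g992 := z5_6241_33 k0
  have g997 := z5_18596_160 k0
  have g998 := z5_18706_16640 k0
  have g1003 := z5_9362_1040 k0
  have g1005 := z5_6241_4097 k0
  have g1015 := z5_18489_18433 k0
  have g1027 := z5_4756_640 k0
  have g1030 := z5_18596_16416 k0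
  have g1031 := z5_18596_2176 k0
  have g1033 := z5_9508_1056 k0
  have g1036 := z5_28745_73 k0
  have g1047 := z5_2193_2193 k0
  have g1048 := z5_16673_16673 k0
  have g1049 := z5_9281_9281 k0
  have g1058 := z5_18504_18504 k0
  have g1175 := z5_6241_4097 k1
  have g1191 := z5_10505_8193 k1
  have g1312 := z5_4898_4098 k2
  have g1313 := z5_4898_544 k2
  have g1316 := z5_4898_34 k2
  have g1319 := z5_5196_68 k2
  have g1325 := z5_18596_2052 k2
  have g1329 := z5_6241_2112 k2
  have g1347 := z5_8778_66 k2
  have g1350 := z5_5196_1088 k2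
  have g1366 := z5_4756_4112 k2
  have g1374 := z5_9508_8224 k2
  have g1382 := z5_4728_4672 k2
  have g1391 := z5_4178_4178 k2
  have g1396 := z5_612_612 k2
  have g1482 := z5_4898_4098 k3
  have g1517 := z5_8778_66 k3
  have g1532 := z5_18706_2050 k3
  have g1536 := z5_4756_4112 k3
  have g1556 := z5_4617_4617 k3
  have g1561 := z5_4178_4178 k3
  have g1653 := z5_4898_544 k4
  have g1654 := z5_4898_768 k4
  have g1657 := z5_4756_20 k4
  have g1666 := z5_16977_513 k4
  have g1668 := z5_6241_96 k4
  have g1690 := z5_5196_1088 k4
  have g1707 := z5_4756_640 k4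
  have g1714 := z5_9508_8224 k4
  have g1802 := z5_24_24 k5
  have g1823 := z5_4898_544 k5
  have g1829 := z5_5196_68 k5
  have g1835 := z5_18596_2052 k5
  have g1838 := z5_6241_96 k5
  have g1839 := z5_6241_2112 k5
  have g1860 := z5_5196_1088 k5
  have g1875 := z5_4756_516 k5
  have g1906 := z5_612_612 k5
  have g1911 := z5_8779_8776 k5
  have g1971 := zsp_73_73 sp0
  have g1972 := zsp_73_1 sp0
  have g1973 := zsp_73_64 sp0
  have g1974 := zsp_73_8 sp0
  have g1975 := zsp_530_530 sp0
  have g1976 := zsp_530_2 sp0
  have g1977 := zsp_530_512 sp0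
  have g1978 := zsp_530_16 sp0
  have g1980 := zsp_1156_4 sp0
  have g1981 := zsp_1156_1024 sp0
  have g1982 := zsp_1156_128 sp0
  have g1984 := zsp_2336_32 sp0
  have g1985 := zsp_2336_2048 sp0
  have g1986 := zsp_2336_256 sp0
  have g1987 := zsp_4132_4132 sp0
  have g1988 := zsp_4132_4 sp0
  have g1989 := zsp_4132_4096 sp0
  have g1990 := zsp_4132_32 sp0
  have g1992 := zsp_8450_2 sp0
  have g1993 := zsp_8450_8192 sp0
  have g1994 := zsp_8450_256 sp0
  have g1996 := zsp_16528_16 sp0
  have g1997 := zsp_16528_16384 sp0
  have g1998 := zsp_16528_128 sp0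
  have g2000 := zsp_18433_1 sp0
  have g2001 := zsp_18433_16384 sp0
  have g2002 := zsp_18433_2048 sp0
  have g2004 := zsp_9224_8 sp0
  have g2005 := zsp_9224_8192 sp0
  have g2006 := zsp_9224_1024 sp0
  have g2008 := zsp_4672_64 sp0
  have g2009 := zsp_4672_4096 sp0
  have g2010 := zsp_4672_512 sp0
  have g2011 : T.X p r a b = true := h0
  have g2012 : T.X p r c d = true := h1
  have g2013 : T.X a b c d = false := h2
  have g2014 := xr1 e61
  have g2015 := xr2 e61
  have g2016 := xr3 e61
  have g2017 := xr4 e61
  have g2018 := xr1 e62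
  have g2019 := xr2 e62
  have g2020 := xr3 e62
  have g2021 := xr4 e62
  have g2022 := it1 B63
  have g2023 := it2 B63
  have g2024 := it3 B63
  have g2025 := it4 B63
  have g2026 := an0 e64
  have g2027 := an1 e64
  have g2028 := an2 e64
  have g2029 := it1 B65
  have g2030 := it2 B65
  have g2031 := it3 B65
  have g2032 := it4 B65
  have g2033 := an0 e66
  have g2034 := an1 e66
  have g2035 := an2 e66
  have g2036 := xr1 e67
  have g2037 := xr2 e67
  have g2038 := xr3 e67
  have g2040 := xr1 L68
  have g2041 := xr2 L68
  have g2044 : T.lto p r c d a b = true := h3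
  have g2045 := xr1 e69
  have g2046 := xr2 e69
  have g2047 := xr3 e69
  have g2048 := xr4 e69
  have g2049 := xr1 e70
  have g2050 := xr2 e70
  have g2051 := xr3 e70
  have g2052 := xr4 e70
  have g2053 := it1 B71
  have g2054 := it2 B71
  have g2055 := it3 B71
  have g2056 := it4 B71
  have g2057 := an0 e72
  have g2058 := an1 e72
  have g2059 := an2 e72
  have g2060 := it1 B73
  have g2061 := it2 B73
  have g2062 := it3 B73
  have g2063 := it4 B73
  have g2064 := an0 e74
  have g2065 := an1 e74
  have g2066 := an2 e74
  have g2067 := xr1 e75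
  have g2068 := xr2 e75
  have g2069 := xr3 e75
  have g2070 := xr4 e75
  have g2071 := xr1 L76
  have g2072 := xr2 L76
  have g2075 : T.lto p r a b c d = true := h4
  have s2076 := fun (n0 : T.X p a r b = true) => g1 g2011 n0
  have w2076 := bf s2076
  have s2077 := fun (n0 : T.X p b r a = true) => g2 g2011 n0
  have w2077 := bf s2077
  have s2078 := fun (n0 : T.X p c r d = true) => g16 g2012 n0
  have w2078 := bf s2078
  have s2079 := fun (n0 : T.X p d r c = true) => g17 g2012 n0
  have w2079 := bf s2079
  have s2080 : T.X p a c d = true → T.alt p r d a b = true → T.X p d r a = true → v72 = true → False := fun n0 n1 n2 n3 => by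
    have u0 := bt fun t => g2059 n3 t
    have u1 := bt fun t => g2058 n3 t
    have u2 := bf fun t => g863 t u1 n0 g2013
    have u3 := bf fun t => g1396 t n2 g2012 n0
    have u4 := bt fun t => g1990 t n1 u2
    exact g2054 u0 u4 u3
  have s2082 : v61 = true → T.X p a r c = false → T.alt p r a b c = true → v62 = true → T.X p c a b = true → False := fun n0 n1 n2 n3 n4 => by
    have u0 := bf fun t => g2018 n3 n0 t
    have u1 := bt fun t => g2015 n0 n1 t
    exact g161 n2 g2011 n1 u0 n4 u1
  have s2083 : T.alt p r a b c = true → v62 = true → T.alt p r a b d = false → T.X p d r a = true → T.X p c a b = true → False := fun n0 n1 n2 n3 n4 => by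
    have u0 := bt fun t => g1972 n0 n2 t
    have u1 := bf fun t => g515 u0 t n3 w2079
    have u2 := bf fun t => g518 u0 t n3 w2078 w2079
    have u3 := bf fun t => s2082 t u1 n0 n1 n4
    have u4 := bf fun t => g2017 u3 u1 t
    have u5 := bt fun t => g2019 n1 u3 t
    exact g1031 w2077 u2 u5 n4 u4
  have s2084 : T.alt p r c a b = true → T.alt p r c b d = false → T.X p d r a = true → v69 = true → T.bfo p a b c r = true → False := fun n0 n1 n2 n3 n4 => by
    have u0 := bt fun t => g2054 n4 n0 t
    have u1 := bt fun t => g1980 n0 t n1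
    have u2 := bf fun t => g2045 n3 u0 t
    exact g461 u1 n2 g2012 u2
  have s2085 : v69 = true → v70 = false → v72 = true → T.X p d a b = false → T.bfo p a b d r = true → False := fun n0 n1 n2 n3 n4 => by
    have u0 := bt fun t => g2059 n2 t
    have u1 := bt fun t => g2058 n2 t
    have u2 := bt fun t => g2051 n1 n0 t
    have u3 := bf fun t => g338 t g2011 u2 n3
    have u4 := bt fun t => g2063 n4 t u3
    have u5 := bf fun t => s2080 t u4 u2 n2
    have u6 := bf fun t => g2027 t u5
    have u7 := bf fun t => g797 t u1 n3 u5 g2013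
    have u8 := bf fun t => g2006 u3 t u7
    have u9 := bf fun t => s2084 t u8 u2 n0 u0
    have u10 := bt fun t => g2056 u0 u9 t
    have u11 := bt fun t => g1990 u9 u4 t
    have u12 := bf fun t => s2083 u10 t u3 u2 u1
    have u13 := bf fun t => g864 u11 u1 t g2013
    have u14 := bf fun t => g2037 t u12 u6
    have u15 := bf fun t => g2034 t u13
    exact g2041 g2044 u14 u15
  have s2086 : T.X p c r a = false → T.X p a c d = false → T.alt p r c a d = true → v69 = false → False := fun n0 n1 n2 n3 => by
    have u0 := bf fun t => g2048 n3 n0 t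
    exact g433 n2 n0 g2012 n1 u0
  have s2087 : T.alt p a c b d = false → T.alt p a b c d = false → T.alt p r c a b = false → T.alt p r a b d = true → T.X p d r a = false → v69 = false → T.X p c a b = true → False := fun n0 n1 n2 n3 n4 n5 n6 => by
    have u0 := bt fun t => g2004 n3 t n0
    have u1 := bt fun t => g770 n1 n0 t
    have u2 := bt fun t => g1981 n2 t u0
    have u3 := bf fun t => g941 u1 n6 t g2013
    have u4 := bt fun t => s2086 t u3 u2 n5
    have u5 := bf fun t => g468 u2 u4 n4 g2012 u3 t
    exact g2047 n5 u4 u5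
  have s2088 : v61 = true → T.alt p r a b c = true → T.X p c a b = true → v62 = true → False := fun n0 n1 n2 n3 => by
    have u0 := bt fun t => s2082 n0 t n1 n3 n2
    have u1 := bt fun t => g159 n1 u0 n2 t
    exact g2014 n0 u0 u1
  have s2089 : T.alt p r c a b = false → T.alt p r a b d = true → T.alt p r d a b = false → T.X p d r a = false → v69 = false → T.bfo p a b c r = true → T.X p c a b = true → False := fun n0 n1 n2 n3 n4 n5 n6 => by
    have u0 := bf fun t => g327 n1 w2076 w2077 n3 t
    have u1 := bf fun t => g228 n1 t
    have u2 := bt fun t => g2056 n5 n0 t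
    have u3 := bf fun t => g1989 n0 n2 t
    have u4 := bf fun t => g1971 u2 n1 t
    have u5 := bt fun t => s2087 t u3 n0 n1 n3 n4 n6
    have u6 := bf fun t => g773 u5 t
    have u7 := bf fun t => g809 u5 n6 t g2013
    have u8 := bf fun t => g1998 u1 t u6
    have u9 := bt fun t => g2000 u2 t u6
    have u10 := bf fun t => g2034 t u7
    have u11 := bf fun t => g2025 t u4 u8
    have u12 := bt fun t => g732 u9 u0 g2012 u7 t
    have u13 := bt fun t => g2041 g2044 t u10
    have u14 := bf fun t => g2028 t u11
    have u15 := bf fun t => g1482 t u0 w2079 u7 u12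
    have u16 := bt fun t => g2037 u13 t u14
    have u17 := bt fun t => g2019 u16 t u15
    exact s2088 u17 u2 n6 u16
  have s2090 : v72 = true → T.bfo p a b d r = true → v75 = true → False := fun n0 n1 n2 => by
    have u0 := bf fun t => g2071 g2075 n2 t
    have u1 := bf fun t => g2064 u0 t n1
    have u2 := bt fun t => g2058 n0 t
    have u3 := bt fun t => g2059 n0 t
    have u4 := bf fun t => g2067 n2 t n0
    have u5 := bf fun t => s2085 t u4 n0 u1 n1
    have u6 := bf fun t => g2052 u4 u5 t
    have u7 := bf fun t => g2061 n1 t u6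
    have u8 := bt fun t => g2063 n1 u7 t
    have u9 := bt fun t => s2089 t u8 u7 u6 u5 u3 u2
    have u10 := bf fun t => g48 t u9
    have u11 := bt fun t => g197 u9 g2011 u2 t
    have u12 := bt fun t => g2054 u3 u9 t
    have u13 := bt fun t => g1988 u9 u7 t
    have u14 := bt fun t => g1974 u10 u8 t
    have u15 := bf fun t => g1048 g2011 u12 t u11
    have u16 := bf fun t => g5 t u12
    have u17 := bt fun t => g2047 u5 u12 t
    have u18 := bf fun t => g771 u13 t
    have u19 := bf fun t => g864 u13 u2 t g2013
    have u20 := bf fun t => g38 u17 t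
    have u21 := bt fun t => g2004 u8 t u18
    have u22 := bt fun t => g614 u21 u15 g2012 u19 t
    have u23 := bf fun t => g491 u14 u16 t w2078 u20
    have u24 := bf fun t => g1906 u11 t u17 u22
    exact g314 u8 g2011 u23 u1 u24
  have s2091 : v69 = false → T.X p c r a = false → T.alt p r c a b = true → T.X p c a b = true → v70 = true → T.X p d a b = false → False := fun n0 n1 n2 n3 n4 n5 => by
    have u0 := bt fun t => g210 n2 g2011 t n1 n3
    have u1 := bf fun t => g4 u0 t
    have u2 := bt fun t => g2050 n4 n0 t
    have u3 := bf fun t => g2048 n0 n1 t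
    have u4 := bf fun t => g338 t g2011 u2 n5
    have u5 := bf fun t => g449 t u1 n1 u2 w2079
    have u6 := bf fun t => g1313 u1 u2 w2079 t u3
    have u7 := bt fun t => g1980 n2 u5 t
    have u8 := bf fun t => g797 t n3 n5 u6 g2013
    exact g2006 u4 u7 u8
  have s2092 : T.alt p r c a b = true → T.alt p r a b c = false → T.bfo p a b c r = false → T.X p c a b = true → v70 = true → T.X p d a b = false → T.bfo p a b d r = true → False := fun n0 n1 n2 n3 n4 n5 n6 => by
    have u0 := bf fun t => g2053 n2 n0 t
    have u1 := bt fun t => s2091 t u0 n0 n3 n4 n5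
    have u2 := bf fun t => g2049 n4 u1 t
    have u3 := bt fun t => g2046 u1 u0 t
    have u4 := bf fun t => g2061 n6 t u2
    have u5 := bt fun t => g2063 n6 u4 t
    have u6 := bt fun t => g1988 n0 u4 t
    have u7 := bt fun t => g1974 n1 u5 t
    have u8 := bf fun t => g863 u6 n3 t g2013
    exact g509 u7 u0 u2 g2012 u8 u3
  have s2093 : T.X r b c d = true → v62 = true → T.X r b a d = false → T.X p a r c = false → T.X r c a d = false → T.X p b c d = false → T.X p d r b = false → False := fun n0 n1 n2 n3 n4 n5 n6 => by
    have u0 := bf fun t => g1482 t n6 w2079 n5 n0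
    have u1 := bf fun t => g1875 t n2 n4 n0 g2013
    have u2 := bt fun t => g2019 n1 t u0
    exact g2015 u2 n3 u1
  have s2094 : T.X r c a b = false → v62 = true → T.X p a r c = false → T.X p c r a = false → T.X p c a b = true → False := fun n0 n1 n2 n3 n4 => by
    have u0 := bf fun t => g2015 t n2 n0
    have u1 := bf fun t => g1031 w2077 n3 t n4 n0
    exact g2019 n1 u0 u1
  have s2095 : T.X p a r c = false → T.X p c r a = false → T.alt p r a c d = true → T.alt p r b a c = true → T.X p c a b = true → False := fun n0 n1 n2 n3 n4 => by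
    have u0 := bf fun t => g410 n2 t
    have u1 := bt fun t => g1992 n3 u0 t
    have u2 := bf fun t => g809 u1 n4 t g2013
    have u3 := bf fun t => g2034 t u2
    have u4 := bt fun t => g2041 g2044 t u3
    have u5 := bf fun t => g2023 t n2 n0
    have u6 := bf fun t => g2028 t u5
    have u7 := bt fun t => g2037 u4 t u6
    have u8 := bt fun t => s2094 t u7 n0 n1 n4
    have u9 := bt fun t => g102 n3 g2011 n0 t n4 u8
    have u10 := bt fun t => g2017 t n0 u8
    exact g2018 u7 u10 u9
  have s2096 : v69 = true → T.alt p r b a c = true → T.alt p r a b c = false → T.X p c a b = true → v70 = true → T.X p d a b = false → T.bfo p a b d r = true → False := fun n0 n1 n2 n3 n4 n5 n6 => by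
    have u0 := bf fun t => g2049 n4 n0 t
    have u1 := bf fun t => g2061 n6 t u0
    have u2 := bt fun t => g2063 n6 u1 t
    have u3 := bt fun t => g1974 n2 u2 t
    have u4 := bf fun t => g410 u3 t
    have u5 := bt fun t => g1992 n1 u4 t
    have u6 := bt fun t => g797 u5 n3 n5 t g2013
    have u7 := bf fun t => g809 u5 n3 t g2013
    have u8 := bf fun t => g25 u6 t
    have u9 := bt fun t => g500 u3 g2012 u6 t
    have u10 := bf fun t => g1657 n3 t u8 u7 g2013
    have u11 := bf fun t => g37 u9 t
    have u12 := bf fun t => g2045 n0 t u9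
    have u13 := bt fun t => s2095 t u12 u3 n1 n3
    have u14 := bt fun t => g494 u3 u13 t w2079 u11
    have u15 := bf fun t => g1391 u13 t g2012 u9
    have u16 := bt fun t => g311 u2 w2076 u14 u10 t
    have u17 := bt fun t => g314 u2 g2011 u15 n5 t
    exact g36 u16 u17
  have s2097 : T.X r a c d = true → v62 = true → T.X p a c d = false → T.X p r a d = false → v69 = false → T.alt p r b a c = true → T.X p b a c = false → False := fun n0 n1 n2 n3 n4 n5 n6 => by
    have u0 := bf fun t => g37 n0 t
    have u1 := bt fun t => g2048 n4 t n0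
    have u2 := bf fun t => g1347 t n3 g2012 n2 u0
    have u3 := bf fun t => g5 t u1
    have u4 := bf fun t => g57 n5 w2077 u1 t
    have u5 := bf fun t => g966 g2011 u3 t n6 u4
    have u6 := bf fun t => g2015 t u2 u4
    exact g2019 n1 u6 u5
  have s2098 : T.alt p r a b c = false → T.bfo p a b c r = false → T.X p c a b = true → v70 = true → T.X p d a b = false → T.bfo p a b d r = true → False := fun n0 n1 n2 n3 n4 n5 => by
    have u0 := bf fun t => g21 t n2
    have u1 := bf fun t => s2092 t n0 n1 n2 n3 n4 n5
    have u2 := bt fun t => g46 n0 t u1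
    have u3 := bf fun t => s2096 t u2 n0 n2 n3 n4 n5
    have u4 := bt fun t => g2050 n3 u3 t
    have u5 := bf fun t => g8 t u4
    have u6 := bf fun t => g9 t u4
    have u7 := bf fun t => g338 t g2011 u4 n4
    have u8 := bt fun t => g2063 n5 t u7
    have u9 := bt fun t => g1990 u1 u8 t
    have u10 := bf fun t => g771 u9 t
    have u11 := bf fun t => g863 u9 n2 t g2013
    have u12 := bf fun t => g864 u9 n2 t g2013
    have u13 := bt fun t => g1992 u2 t u10
    have u14 := bf fun t => g2027 t u11
    have u15 := bf fun t => g2034 t u12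
    have u16 := bf fun t => g540 u13 u5 u6 w2078 t
    have u17 := bt fun t => g2041 g2044 t u15
    have u18 := bt fun t => g2037 u17 t u14
    have u19 := bf fun t => s2097 t u18 u11 u5 u3 u2 u0
    have u20 := bf fun t => g1319 t u5 g2012 u16 u19
    have u21 := bf fun t => g1316 t u4 w2079 u11 u19
    have u22 := bt fun t => s2094 t u18 u21 u20 n2
    have u23 := bt fun t => g102 u2 g2011 u21 t n2 u22
    have u24 := bt fun t => g2017 t u21 u22
    exact g2018 u18 u24 u23
  have s2099 : T.bfo p a b c r = false → T.X p c a b = true → T.bfo p a b d r = true → v70 = true → T.X p d a b = false → False := fun n0 n1 n2 n3 n4 => by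
    have u0 := bt fun t => s2098 t n0 n1 n3 n4 n2
    have u1 := bf fun t => g48 u0 t
    exact g2055 n0 u1 u0
  have s2100 : T.X p c a b = true → v70 = true → v72 = false → T.X p d a b = false → T.bfo p a b d r = true → False := fun n0 n1 n2 n3 n4 => by
    have u0 := bf fun t => g2057 n2 n0 t
    exact s2099 u0 n0 n4 n1 n3
  have s2101 : T.X r a c d = false → T.alt p r b a c = true → T.alt p r c a b = false → T.X p c a b = false → v70 = true → T.X p d a b = false → T.bfo p a b d r = true → False := fun n0 n1 n2 n3 n4 n5 n6 => by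
    have u0 := bf fun t => g98 n1 g2011 t n3
    have u1 := bf fun t => g87 n1 w2076 w2077 t u0
    have u2 := bf fun t => g2046 t u1 n0
    have u3 := bt fun t => g2050 n4 u2 t
    have u4 := bf fun t => g8 t u3
    have u5 := bf fun t => g338 t g2011 u3 n5
    have u6 := bf fun t => g461 t u3 g2012 n0
    have u7 := bf fun t => g503 t u3 g2012 n0
    have u8 := bf fun t => g1350 u1 u4 g2012 t n0
    have u9 := bt fun t => g2063 n6 t u5
    have u10 := bt fun t => g408 u7 u6 t
    have u11 := bf fun t => g2025 t u7 u6
    have u12 := bf fun t => g1374 u1 u3 w2079 u8 t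
    have u13 := bf fun t => g230 t u9
    have u14 := bf fun t => g393 u9 w2077 u3 t
    have u15 := bt fun t => g1990 n2 u9 t
    have u16 := bf fun t => g565 u10 u3 t n0
    have u17 := bf fun t => g2028 t u11
    have u18 := bf fun t => g1347 t u4 g2012 u16 u12
    have u19 := bt fun t => g1976 n1 u13 t
    have u20 := bt fun t => g844 u15 n3 n5 u16 t g2013
    have u21 := bf fun t => g29 u20 t
    have u22 := bt fun t => g681 u19 g2012 u20 t
    have u23 := bf fun t => g41 u22 t
    have u24 := bf fun t => g676 u19 t u14 u21 u23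
    have u25 := bt fun t => g694 u19 u24 t g2012 u20
    have u26 := bf fun t => g101 n1 g2011 u18 u25 n3 t
    have u27 := bt fun t => g2029 t u19 u25
    have u28 := bf fun t => g2015 t u18 u26
    have u29 := bt fun t => g2033 t u20 u27
    have u30 := bt fun t => g2021 t u28 u25
    have u31 := bf fun t => g2040 g2044 t u29
    exact g2038 u31 u30 u17
  have s2102 : T.X p a r c = false → T.X p b c d = true → T.X p c a d = false → T.alt p r b c d = true → T.alt p r a c d = true → T.X p d r b = false → T.X r c a d = false → T.alt p r b a c = true → T.X p c a b = false → T.X p d a b = false → False := fun n0 n1 n2 n3 n4 n5 n6 n7 n8 n9 => by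
    have u0 := bt fun t => g681 n3 g2012 n1 t
    have u1 := bf fun t => g2023 t n4 n0
    have u2 := bf fun t => g492 n4 n0 t n2 n6
    have u3 := bf fun t => g2028 t u1
    have u4 := bf fun t => g1191 g2011 u2 n5 n9 t
    have u5 := bf fun t => g1875 t u4 n6 u0 g2013
    have u6 := bf fun t => g2015 t n0 u5
    have u7 := bt fun t => g74 n7 g2011 t n8 u5
    have u8 := bt fun t => g2021 t u6 u7
    have u9 := bt fun t => g2029 t n3 u7
    have u10 := bt fun t => g2038 t u8 u3
    have u11 := bt fun t => g2033 t n1 u9
    exact g2040 g2044 u10 u11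
  have s2103 : T.alt p r c a b = false → T.bfo p a b c r = false → T.X p c a b = false → v70 = true → T.X p d a b = false → T.bfo p a b d r = true → False := fun n0 n1 n2 n3 n4 n5 => by
    have u0 := bf fun t => g2055 n1 n0 t
    have u1 := bt fun t => g46 u0 t n0
    have u2 := bf fun t => g98 u1 g2011 t n2
    have u3 := bf fun t => g87 u1 w2076 w2077 t u2
    have u4 := bt fun t => s2101 t u1 n0 n2 n3 n4 n5
    have u5 := bf fun t => g37 u4 t
    have u6 := bt fun t => g2048 t u3 u4
    have u7 := bf fun t => g2049 n3 u6 t
    have u8 := bf fun t => g2061 n5 t u7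
    have u9 := bt fun t => g2063 n5 u8 t
    have u10 := bf fun t => g228 u9 t
    have u11 := bf fun t => g327 u9 w2076 w2077 u7 t
    have u12 := bt fun t => g1974 u0 u9 t
    have u13 := bt fun t => g1976 u1 u10 t
    have u14 := bf fun t => g410 u12 t
    have u15 := bt fun t => g509 u12 u3 u7 g2012 t u4
    have u16 := bt fun t => g1992 u1 u14 t
    have u17 := bf fun t => g25 u15 t
    have u18 := bt fun t => g795 u16 n2 u15 t g2013
    have u19 := bt fun t => g681 u13 g2012 u18 t
    have u20 := bt fun t => s2102 t u18 u17 u13 u12 u11 u5 u1 n2 n4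
    have u21 := bt fun t => g84 u1 g2011 u20 t
    have u22 := bf fun t => g1391 u20 t g2012 u4
    have u23 := bf fun t => g1906 u21 t u4 u19
    exact g314 u9 g2011 u22 n4 u23
  have s2104 : T.X p a r c = true → T.X p b c d = false → T.alt p r c b d = true → T.alt p r a b d = true → T.X r a c d = true → T.alt p r c a b = true → T.X p d a b = false → False := fun n0 n1 n2 n3 n4 n5 n6 => by
    have u0 := bf fun t => g38 n4 t
    have u1 := bf fun t => g4 t n0
    have u2 := bt fun t => g198 n5 g2011 n0 t
    have u3 := bf fun t => g1391 n0 t g2012 n4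
    have u4 := bf fun t => g33 t u2
    have u5 := bt fun t => g314 n3 g2011 u3 n6 t
    have u6 := bf fun t => g188 n5 w2076 u1 t u4
    have u7 := bf fun t => g1823 u4 u5 u0 t g2013
    exact g614 n2 u6 g2012 n1 u7
  have s2105 : T.X r a c d = true → T.bfo p a b c r = false → T.X p c a b = false → v70 = true → T.X p d a b = false → T.bfo p a b d r = true → False := fun n0 n1 n2 n3 n4 n5 => by
    have u0 := bt fun t => s2103 t n1 n2 n3 n4 n5
    have u1 := bf fun t => g2053 n1 u0 t
    have u2 := bf fun t => g48 t u0
    have u3 := bf fun t => g37 n0 t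
    have u4 := bt fun t => g2048 t u1 n0
    have u5 := bf fun t => g2049 n3 u4 t
    have u6 := bf fun t => g2061 n5 t u5
    have u7 := bt fun t => g2063 n5 u6 t
    have u8 := bt fun t => g1988 u0 u6 t
    have u9 := bf fun t => g327 u7 w2076 w2077 u5 t
    have u10 := bt fun t => g1974 u2 u7 t
    have u11 := bf fun t => g771 u8 t
    have u12 := bt fun t => g509 u10 u1 u5 g2012 t n0
    have u13 := bt fun t => g2004 u7 t u11
    have u14 := bf fun t => g25 u12 t
    have u15 := bf fun t => g862 u8 u12 t g2013
    have u16 := bf fun t => g2034 t u15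
    have u17 := bt fun t => g2041 g2044 t u16
    have u18 := bf fun t => s2104 t u15 u13 u7 n0 u0 n4
    have u19 := bf fun t => g2023 t u10 u18
    have u20 := bf fun t => g492 u10 u18 t u14 u3
    have u21 := bf fun t => g2028 t u19
    have u22 := bf fun t => g1191 g2011 u20 u9 n4 t
    have u23 := bt fun t => g2037 u17 t u21
    have u24 := bf fun t => s2093 t u23 u22 u18 u3 u15 u9
    have u25 := bt fun t => g614 u13 t g2012 u15 u24
    have u26 := bf fun t => g12 t u25
    have u27 := bf fun t => g998 w2076 u18 u25 n2 t
    have u28 := bt fun t => g2019 u23 t u26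
    exact g2015 u28 u18 u27
  have s2106 : T.X r c a b = false → v62 = true → T.X p a r c = false → T.alt p r c a b = true → False := fun n0 n1 n2 n3 => by
    have u0 := bf fun t => g2015 t n2 n0
    have u1 := bf fun t => g200 n3 g2011 t n0
    exact g2019 n1 u0 u1
  have s2107 : T.bfo p a b c r = false → T.bfo p a b d r = true → T.X p c a b = false → v70 = true → T.X p d a b = false → False := fun n0 n1 n2 n3 n4 => by
    have u0 := bt fun t => s2103 t n0 n2 n3 n4 n1
    have u1 := bf fun t => g2053 n0 u0 t
    have u2 := bf fun t => s2105 t n0 n2 n3 n4 n1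
    have u3 := bf fun t => g2046 t u1 u2
    have u4 := bt fun t => g2050 n3 u3 t
    have u5 := bf fun t => g8 t u4
    have u6 := bf fun t => g338 t g2011 u4 n4
    have u7 := bf fun t => g461 t u4 g2012 u2
    have u8 := bf fun t => g503 t u4 g2012 u2
    have u9 := bf fun t => g1350 u1 u5 g2012 t u2
    have u10 := bt fun t => g1980 u0 u7 t
    have u11 := bt fun t => g408 u8 u7 t
    have u12 := bf fun t => g2025 t u8 u7
    have u13 := bf fun t => g1374 u1 u4 w2079 u9 t
    have u14 := bt fun t => g2006 u6 u10 t
    have u15 := bf fun t => g565 u11 u4 t u2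
    have u16 := bf fun t => g546 u11 t w2079 u9 u13
    have u17 := bf fun t => g2028 t u12
    have u18 := bf fun t => g793 u14 n4 u15 t g2013
    have u19 := bf fun t => g2034 t u18
    have u20 := bt fun t => g2041 g2044 t u19
    have u21 := bt fun t => g2037 u20 t u17
    have u22 := bt fun t => s2106 t u21 u16 u0
    have u23 := bt fun t => g2017 t u16 u22
    have u24 := bt fun t => g206 u0 g2011 u16 t n2 u22
    exact g2018 u21 u23 u24
  have s2108 : T.X p a c d = true → T.X p c r a = true → T.alt p r a b c = false → T.bfo p a b d r = true → False := fun n0 n1 n2 n3 => by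
    have u0 := bf fun t => g6 t n1
    have u1 := bf fun t => g5 t n1
    have u2 := bf fun t => g1396 n1 t g2012 n0
    have u3 := bf fun t => g513 t u1 u0 g2012 n0
    have u4 := bf fun t => g2061 n3 t u2
    have u5 := bf fun t => g1974 n2 t u3
    exact g2063 n3 u4 u5
  have s2109 : T.alt p r c a b = true → T.X p c a b = false → v70 = true → T.X p d a b = false → T.bfo p a b d r = true → False := fun n0 n1 n2 n3 n4 => by
    have u0 := bt fun t => s2107 t n4 n1 n2 n3
    have u1 := bf fun t => g48 t n0
    have u2 := bt fun t => g2054 u0 n0 t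
    have u3 := bf fun t => g6 t u2
    have u4 := bf fun t => g212 n0 w2077 u2 t
    have u5 := bf fun t => g1030 w2077 u2 u4 n1 t
    have u6 := bf fun t => s2106 u5 t u3 n0
    have u7 := bf fun t => s2108 t u2 u1 n4
    have u8 := bf fun t => g2027 t u7
    have u9 := bf fun t => g2037 t u6 u8
    have u10 := bt fun t => g2041 g2044 u9 t
    have u11 := bt fun t => g2034 u10 t
    have u12 := bt fun t => g2035 u10 t
    have u13 := bf fun t => g911 t n1 u7 u11 g2013
    have u14 := bf fun t => g793 t n3 u7 u11 g2013
    have u15 := bf fun t => g2030 u12 t u4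
    have u16 := bt fun t => g770 t u14 u13
    have u17 := bt fun t => g2009 t u15 u16
    have u18 := bf fun t => g518 u17 u2 t w2078 w2079
    have u19 := bt fun t => g501 u17 u2 g2012 t
    have u20 := bt fun t => g2050 n2 t u18
    exact g2045 u20 u2 u19
  have s2110 : T.X p d r a = false → T.X p a c d = false → T.X r c a b = true → T.X p c r a = false → v70 = true → T.X p d a b = false → T.bfo p a b d r = true → False := fun n0 n1 n2 n3 n4 n5 n6 => by
    have u0 := bf fun t => g32 t n2
    have u1 := bf fun t => g2061 n6 t n0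
    have u2 := bt fun t => g2050 n4 t n0
    have u3 := bt fun t => g2063 n6 u1 t
    have u4 := bt fun t => g2046 u2 n3 t
    have u5 := bf fun t => g1366 n3 t w2078 n1 u4
    have u6 := bt fun t => g314 u3 g2011 u5 n5 t
    have u7 := bf fun t => g35 t u6
    have u8 := bt fun t => g1838 u0 u6 u4 t g2013
    have u9 := bt fun t => g1829 n2 u7 u4 t g2013
    exact g42 u9 u8
  have s2111 : T.X p d r a = true → T.X p c r a = false → T.alt p r a b c = true → v70 = true → T.X p d a b = false → False := fun n0 n1 n2 n3 n4 => by
    have u0 := bf fun t => g338 t g2011 n0 n4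
    have u1 := bf fun t => g2049 n3 t n0
    have u2 := bt fun t => g1972 n2 u0 t
    have u3 := bf fun t => g2048 u1 n1 t
    exact g503 u2 n0 g2012 u3
  have s2112 : T.X p a c d = true → T.alt p r a c d = false → T.X r a c d = true → T.X p d r a = false → T.X p c r a = false → False := fun n0 n1 n2 n3 n4 => by
    have u0 := bf fun t => g588 t n4 n3 g2012 n0 n2
    have u1 := bf fun t => g470 t n4 n3 g2012 n0 n2
    exact g408 n1 u1 u0
  have s2113 : T.bfo p a b d r = true → T.X p d a b = false → T.X p c a b = false → v70 = true → False := fun n0 n1 n2 n3 => by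
    have u0 := bt fun t => s2107 t n0 n2 n3 n1
    have u1 := bf fun t => s2109 t n2 n3 n1 n0
    have u2 := bt fun t => g2056 u0 u1 t
    have u3 := bf fun t => g157 u2 g2011 t n2
    have u4 := bf fun t => s2111 t u3 u2 n3 n1
    have u5 := bf fun t => g2061 n0 t u4
    have u6 := bt fun t => g2050 n3 t u4
    have u7 := bt fun t => g2063 n0 u5 t
    have u8 := bt fun t => g2046 u6 u3 t
    have u9 := bf fun t => g1971 u2 u7 t
    have u10 := bf fun t => s2112 t u9 u8 u4 u3
    have u11 := bf fun t => g1312 t u4 w2079 u10 u8
    have u12 := bf fun t => s2110 u4 u10 t u3 n3 n1 n0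
    exact g133 u2 g2011 u11 n2 u12
  have s2114 : v70 = true → T.bfo p a b d r = true → v72 = false → T.X p d a b = false → False := fun n0 n1 n2 n3 => by
    have u0 := bf fun t => s2100 t n0 n2 n3 n1
    exact s2113 n1 n3 u0 n0
  have s2115 : T.bfo p a b d r = true → v75 = true → False := fun n0 n1 => by
    have u0 := bf fun t => g2071 g2075 n1 t
    have u1 := bf fun t => g2064 u0 t n0
    have u2 := bf fun t => s2090 t n0 n1
    have u3 := bt fun t => g2068 n1 t u2
    exact s2114 u3 n0 u2 u1
  have s2116 : T.alt p r a b d = true → T.bfo p a b d r = false → False := fun n0 n1 => by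
    have u0 := bf fun t => g229 n0 t
    exact g2062 n1 u0 n0
  have s2117 : T.alt p r d a c = false → T.alt p r b a c = true → T.alt p r c a b = false → T.X p c r b = false → T.X r c a b = true → T.alt p r b a d = true → T.alt p r a c d = false → T.X r a c d = true → T.X p a c d = false → T.X p d a b = false → False := fun n0 n1 n2 n3 n4 n5 n6 n7 n8 n9 => by
    have u0 := bt fun t => g408 n6 t n0
    have u1 := bt fun t => g1992 n1 n0 t
    have u2 := bt fun t => g1982 n2 u0 t
    have u3 := bf fun t => g793 u1 n9 n8 t g2013
    have u4 := bt fun t => g614 u2 n3 g2012 u3 t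
    have u5 := bf fun t => g1536 n3 t w2078 u3 u4
    have u6 := bf fun t => g1906 n4 t n7 u4
    exact g255 n5 g2011 u5 n9 u6
  have s2118 : T.alt p r d a c = true → T.X p c r b = false → T.X r c a b = true → T.alt p r b a d = true → T.alt p r d a b = false → T.X r a c d = true → T.X p a c d = false → T.X p c a b = false → T.X p d a b = false → False := fun n0 n1 n2 n3 n4 n5 n6 n7 n8 => by
    have u0 := bf fun t => g279 n3 g2011 t n8
    have u1 := bf fun t => g411 t n0
    have u2 := bt fun t => g1986 n4 n0 t
    have u3 := bt fun t => g1996 n3 u1 t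
    have u4 := bf fun t => g911 u3 n7 n6 t g2013
    have u5 := bt fun t => g732 u2 u0 g2012 u4 t
    have u6 := bf fun t => g1536 n1 t w2078 u4 u5
    have u7 := bf fun t => g1906 n2 t n5 u5
    exact g255 n3 g2011 u6 n8 u7
  have s2119 : T.alt p r c a b = false → T.alt p r d a c = false → T.X p c r b = false → T.X r c a b = true → T.alt p r b a d = true → T.alt p r a b c = false → T.alt p r a c d = false → T.X r a c d = true → T.X p a c d = false → T.X p d a b = false → False := fun n0 n1 n2 n3 n4 n5 n6 n7 n8 n9 => by
    have u0 := bt fun t => g46 n5 t n0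
    exact s2117 n1 u0 n0 n2 n3 n4 n6 n7 n8 n9
  have s2120 : T.X r c a b = true → T.alt p r b a d = true → T.alt p r d a b = false → T.alt p r a b c = false → T.X p a r c = false → T.alt p r a c d = false → T.X r a c d = true → T.X p a c d = false → T.X p c a b = false → T.X p d a b = false → False := fun n0 n1 n2 n3 n4 n5 n6 n7 n8 n9 => by
    have u0 := bf fun t => g37 n6 t
    have u1 := bf fun t => g998 w2076 n4 t n8 n0
    have u2 := bf fun t => s2118 t u1 n0 n1 n2 n6 n7 n8 n9
    have u3 := bt fun t => s2119 t u2 u1 n0 n1 n3 n5 n6 n7 n9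
    have u4 := bf fun t => g49 t u3
    have u5 := bt fun t => g1988 u3 n2 t
    have u6 := bt fun t => g1978 u4 n1 t
    have u7 := bt fun t => g844 u5 n8 n9 n7 t g2013
    have u8 := bt fun t => g681 u6 g2012 u7 t
    have u9 := bf fun t => g40 u8 t
    have u10 := bt fun t => g1875 n0 t u0 u8 g2013
    have u11 := bt fun t => g1829 n0 t n6 u9 g2013
    exact g34 u11 u10
  have s2121 : T.alt p r c a b = true → T.X r c a b = false → T.alt p r b a d = true → T.X p a r c = false → v64 = false → False := fun n0 n1 n2 n3 n4 => by
    have u0 := bf fun t => g49 t n0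
    have u1 := bf fun t => g200 n0 g2011 t n1
    have u2 := bf fun t => s2106 n1 t n3 n0
    have u3 := bt fun t => g1978 u0 n2 t
    have u4 := bf fun t => g2037 t u2 n4
    have u5 := bf fun t => g2030 t u3 u1
    have u6 := bt fun t => g2041 g2044 u4 t
    exact g2035 u6 u5
  have s2122 : T.alt p r c b d = false → T.X p b r c = true → T.alt p r b c d = false → T.alt p a b c d = false → T.X p a c d = false → T.X p c a b = false → T.alt p r a b d = false → False := fun n0 n1 n2 n3 n4 n5 n6 => by
    have u0 := bf fun t => g10 t n1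
    have u1 := bf fun t => g2005 n6 n0 t
    have u2 := bt fun t => g589 n2 n0 t
    have u3 := bt fun t => g770 n3 u1 t
    have u4 := bf fun t => g757 u2 n1 w2079 t
    have u5 := bf fun t => g911 u3 n5 n4 t g2013
    exact g751 u2 u0 g2012 u5 u4
  have s2123 : T.alt p r d a b = false → T.X p a r c = false → T.alt p r a c d = false → T.X r a c d = true → T.X p a c d = false → T.X p c a b = false → T.X p d a b = false → T.alt p r a b d = false → False := fun n0 n1 n2 n3 n4 n5 n6 n7 => by
    have u0 := bf fun t => g1972 t n7 n2
    have u1 := bf fun t => g2027 t n4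
    have u2 := bt fun t => g227 n7 t n0
    have u3 := bf fun t => g279 u2 g2011 t n6
    have u4 := bf fun t => s2120 t u2 n0 u0 n1 n2 n3 n4 n5 n6
    have u5 := bf fun t => s2121 t u4 u2 n1 u1
    have u6 := bt fun t => g46 u0 t u5
    have u7 := bf fun t => g1989 u5 n0 t
    have u8 := bf fun t => g98 u6 g2011 t n5
    have u9 := bf fun t => g1975 u6 u2 t
    have u10 := bt fun t => g74 u6 g2011 t n5 u4
    have u11 := bt fun t => s2122 t u10 u9 u7 n4 n5 n7
    have u12 := bt fun t => g2006 n7 u11 t
    have u13 := bf fun t => g793 u12 n6 n4 t g2013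
    have u14 := bt fun t => g614 u11 u8 g2012 u13 t
    exact g1482 u10 u3 w2079 u13 u14
  have s2124 : T.alt p r c a b = false → v61 = false → T.X r c a b = false → T.alt p r d a b = true → T.alt p r a b c = false → T.X p a c d = false → T.X p c a b = false → T.X p d a b = false → False := fun n0 n1 n2 n3 n4 n5 n6 n7 => by
    have u0 := bf fun t => g230 t n3
    have u1 := bf fun t => g2027 t n5
    have u2 := bt fun t => g46 n4 t n0
    have u3 := bt fun t => g1990 n0 n3 t
    have u4 := bt fun t => g74 u2 g2011 t n6 n2
    have u5 := bt fun t => g1976 u2 u0 t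
    have u6 := bt fun t => g844 u3 n6 n7 n5 t g2013
    have u7 := bt fun t => g2029 t u5 u4
    have u8 := bt fun t => g2021 t n1 u4
    have u9 := bt fun t => g2033 t u6 u7
    have u10 := bt fun t => g2038 t u8 u1
    exact g2040 g2044 u10 u9
  have s2125 : T.X r c a b = false → T.alt p r d a b = true → T.alt p r a b c = false → T.X p a r c = false → T.X p a c d = false → T.X p c a b = false → T.X p d a b = false → False := fun n0 n1 n2 n3 n4 n5 n6 => by
    have u0 := bf fun t => g2027 t n4
    have u1 := bf fun t => g2015 t n3 n0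
    have u2 := bt fun t => s2124 t u1 n0 n1 n2 n4 n5 n6
    have u3 := bf fun t => s2106 n0 t n3 u2
    have u4 := bf fun t => g1987 u2 n1 t
    have u5 := bf fun t => g2037 t u3 u0
    have u6 := bt fun t => g2041 g2044 u5 t
    have u7 := bt fun t => g2034 u6 t
    have u8 := bf fun t => g911 t n5 n4 u7 g2013
    have u9 := bf fun t => g793 t n6 n4 u7 g2013
    exact g770 u4 u9 u8
  have s2126 : T.alt p r c a b = true → T.X r c a b = true → T.alt p r d a b = true → T.X p a r c = false → T.X p a c d = false → T.X p c a b = false → T.X p d a b = false → T.alt p r a b d = false → False := fun n0 n1 n2 n3 n4 n5 n6 n7 => by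
    have u0 := bt fun t => g2017 t n3 n1
    have u1 := bf fun t => g230 t n2
    have u2 := bf fun t => g2027 t n4
    have u3 := bf fun t => g49 t n0
    have u4 := bt fun t => g206 n0 g2011 n3 t n5 n1
    have u5 := bf fun t => g1987 n0 n2 t
    have u6 := bf fun t => g1977 u3 u1 t
    have u7 := bf fun t => g2018 t u0 u4
    have u8 := bt fun t => s2122 t u4 u6 u5 n4 n5 n7
    have u9 := bf fun t => g2037 t u7 u2
    have u10 := bt fun t => g2006 n7 u8 t
    have u11 := bt fun t => g2041 g2044 u9 t
    have u12 := bf fun t => g793 u10 n6 n4 t g2013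
    exact g2034 u11 u12
  have s2127 : T.X p c r a = false → v69 = true → T.X p d r a = false → T.X p a c d = false → T.X p c a b = false → T.X p d a b = false → T.alt p r a b d = false → False := fun n0 n1 n2 n3 n4 n5 n6 => by
    have u0 := bt fun t => g2046 n1 n0 t
    have u1 := bf fun t => g37 u0 t
    have u2 := bf fun t => g509 t n0 n2 g2012 n3 u0
    have u3 := bf fun t => g1312 t n2 w2079 n3 u0
    have u4 := bf fun t => g1972 t n6 u2
    have u5 := bt fun t => s2123 t u3 u2 u0 n3 n4 n5 n6
    have u6 := bf fun t => g230 t u5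
    have u7 := bt fun t => s2125 t u5 u4 u3 n3 n4 n5
    have u8 := bf fun t => s2126 t u7 u5 u3 n3 n4 n5 n6
    have u9 := bt fun t => g46 u4 t u8
    have u10 := bt fun t => g1990 u8 u5 t
    have u11 := bt fun t => g1976 u9 u6 t
    have u12 := bt fun t => g844 u10 n4 n5 n3 t g2013
    have u13 := bt fun t => g681 u11 g2012 u12 t
    have u14 := bf fun t => g40 u13 t
    have u15 := bt fun t => g1875 u7 t u1 u13 g2013
    have u16 := bt fun t => g1829 u7 t u0 u14 g2013
    exact g1802 u16 u15
  have s2128 : T.X p c r a = true → T.alt p r c a b = false → T.X r c a b = true → T.X p c a b = false → False := fun n0 n1 n2 n3 => by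
    have u0 := bf fun t => g157 t g2011 n0 n3
    have u1 := bf fun t => g57 t w2077 n0 n2
    exact g46 u0 u1 n1
  have s2129 : T.X p d a b = false → T.X p c r a = false → T.X p a c d = false → T.X p c a b = false → T.alt p r d a b = true → T.alt p r a b d = false → False := fun n0 n1 n2 n3 n4 n5 => by
    have u0 := bf fun t => g2058 t n3
    have u1 := bf fun t => g2065 t n0
    have u2 := bt fun t => g2072 g2075 t u1
    have u3 := bf fun t => s2115 t u2
    have u4 := bt fun t => g2068 u2 t u0
    have u5 := bf fun t => g2060 u3 n4 t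
    have u6 := bt fun t => g2050 u4 t u5
    exact s2127 n1 u6 u5 n2 n3 n0 n5
  have s2130 : T.X r a c d = true → T.X r d a b = true → T.X r c a b = true → False := fun n0 n1 n2 => by
    have u0 := bf fun t => g35 t n1
    have u1 := bf fun t => g32 t n2
    have u2 := bt fun t => g1838 u1 n1 n0 t g2013
    have u3 := bt fun t => g1829 n2 u0 n0 t g2013
    exact g42 u3 u2
  have s2131 : T.X p d r a = false → v69 = false → v72 = false → T.alt p r d a b = true → False := fun n0 n1 n2 n3 => by
    have u0 := bf fun t => g2061 t n3 n0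
    have u1 := bf fun t => g2050 t n1 n0
    have u2 := bf fun t => g2066 t u0
    have u3 := bf fun t => g2068 t u1 n2
    exact g2072 g2075 u3 u2
  have s2132 : v69 = false → v72 = false → T.alt p r d a b = true → False := fun n0 n1 n2 => by
    have u0 := bt fun t => s2131 t n0 n1 n2
    have u1 := bt fun t => g2052 t n0 u0
    have u2 := bt fun t => g2060 t n2 u0
    have u3 := bt fun t => g2069 t u1 n1
    exact s2115 u2 u3
  have s2133 : T.X p d a b = true → T.X r c a b = true → T.X p a c d = false → T.X p c a b = false → T.alt p r d a b = true → False := fun n0 n1 n2 n3 n4 => by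
    have u0 := bf fun t => g2058 t n3
    have u1 := bt fun t => s2132 t u0 n4
    have u2 := bf fun t => g230 t n4
    have u3 := bf fun t => g915 t n3 n0 n2 g2013
    have u4 := bt fun t => g378 n4 g2011 n0 t
    have u5 := bf fun t => g1998 u2 t u3
    have u6 := bf fun t => s2130 t u4 n1
    have u7 := bt fun t => g2046 u1 t u6
    have u8 := bf fun t => g579 t u7 g2012 u6
    have u9 := bf fun t => g501 t u7 g2012 u6
    exact g408 u9 u5 u8
  have s2134 : T.X r c a b = true → T.X p a c d = false → T.X p c a b = false → T.alt p r d a b = true → T.alt p r a b d = false → False := fun n0 n1 n2 n3 n4 => by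
    have u0 := bf fun t => s2133 t n0 n1 n2 n3
    have u1 := bt fun t => s2129 u0 t n1 n2 n3 n4
    have u2 := bf fun t => g6 t u1
    have u3 := bt fun t => s2128 u1 t n0 n2
    exact s2126 u3 n0 n3 u2 n1 n2 u0 n4
  have s2135 : T.X p c r a = true → T.X p c a b = false → T.alt p r d a b = true → False := fun n0 n1 n2 => by
    have u0 := bf fun t => g2058 t n1
    have u1 := bt fun t => s2132 t u0 n2
    have u2 := bf fun t => g230 t n2
    have u3 := bf fun t => g229 t n2
    have u4 := bf fun t => g6 t n0
    have u5 := bf fun t => g157 t g2011 n0 n1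
    have u6 := bf fun t => g2045 u1 n0 t
    have u7 := bf fun t => g1973 u5 u3 t
    have u8 := bf fun t => g579 t n0 g2012 u6
    have u9 := bt fun t => g408 u7 t u8
    have u10 := bf fun t => g447 u9 n0 t u6
    have u11 := bt fun t => g1998 u2 u9 t
    have u12 := bf fun t => s2134 t u10 n1 n2 u3
    have u13 := bf fun t => g915 u11 n1 t u10 g2013
    exact s2125 u12 n2 u5 u4 u10 n1 u13
  have s2136 : T.X p d a b = false → T.X r c a b = false → T.X p c a b = false → T.alt p r d a b = true → False := fun n0 n1 n2 n3 => by
    have u0 := bf fun t => g2058 t n2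
    have u1 := bt fun t => s2132 t u0 n3
    have u2 := bf fun t => s2135 t n2 n3
    have u3 := bt fun t => g2046 u1 u2 t
    have u4 := bf fun t => g229 t n3
    have u5 := bf fun t => g2065 t n0
    have u6 := bt fun t => s2129 n0 u2 t n2 n3 u4
    have u7 := bt fun t => g2072 g2075 t u5
    have u8 := bf fun t => s2115 t u7
    have u9 := bf fun t => g2060 u8 n3 t
    have u10 := bt fun t => s2112 u6 t u3 u9 u2
    have u11 := bf fun t => g588 t u2 u9 g2012 u6 u3
    have u12 := bt fun t => g1973 t u4 u10
    have u13 := bt fun t => g1984 n3 u11 t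
    have u14 := bt fun t => g133 u12 g2011 t n2 n1
    have u15 := bf fun t => g143 u12 g2011 t n1
    have u16 := bf fun t => g591 t u13
    have u17 := bf fun t => g592 t u13
    have u18 := bt fun t => g2016 t u14 n1
    have u19 := bt fun t => g2022 t u10 u14
    have u20 := bt fun t => g2020 t u18 u15
    have u21 := bf fun t => g2032 t u16 u17
    have u22 := bt fun t => g2026 t u6 u19
    have u23 := bf fun t => g2035 t u21
    have u24 := bf fun t => g2036 t u20 u22
    exact g2041 g2044 u24 u23
  have s2137 : T.X p a c d = true → T.X r c a b = false → T.X p c a b = false → T.alt p r d a b = true → False := fun n0 n1 n2 n3 => by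
    have u0 := bt fun t => s2136 t n1 n2 n3
    have u1 := bf fun t => g2058 t n2
    have u2 := bt fun t => s2132 t u1 n3
    have u3 := bf fun t => s2135 t n2 n3
    have u4 := bt fun t => g2046 u2 u3 t
    have u5 := bf fun t => g230 t n3
    have u6 := bf fun t => g865 t u0 n0 g2013
    have u7 := bf fun t => g823 t u0 n0 g2013
    have u8 := bt fun t => g1990 t n3 u6
    have u9 := bt fun t => g770 u6 u7 t
    have u10 := bf fun t => g198 u8 g2011 t n1
    have u11 := bt fun t => g1997 u5 t u9
    have u12 := bt fun t => g470 u11 u3 t g2012 n0 u4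
    exact g449 u11 u10 u3 u12 w2079
  have s2138 : T.alt p r d a c = true → T.X r c a b = false → T.X p c a b = false → T.alt p r d a b = true → False := fun n0 n1 n2 n3 => by
    have u0 := bf fun t => s2137 t n1 n2 n3
    have u1 := bf fun t => g2058 t n2
    have u2 := bt fun t => s2132 t u1 n3
    have u3 := bf fun t => s2135 t n2 n3
    have u4 := bt fun t => g2046 u2 u3 t
    have u5 := bt fun t => s2136 t n1 n2 n3
    have u6 := bt fun t => g378 n3 g2011 u5 t
    have u7 := bf fun t => g35 t u6
    have u8 := bf fun t => g1860 n1 u7 u4 t g2013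
    have u9 := bf fun t => g24 t u5
    have u10 := bf fun t => g23 t u5
    have u11 := bf fun t => g37 u4 t
    have u12 := bf fun t => g586 n0 u3 t g2012 u0 u4
    have u13 := bt fun t => g391 n3 g2011 t u12 u5
    have u14 := bf fun t => g370 n3 u12 t u10 u7
    have u15 := bt fun t => g554 n0 u13 w2079 t u11
    have u16 := bf fun t => g1707 n2 u9 u15 t g2013
    have u17 := bf fun t => g792 t n2 u5 u16 g2013
    have u18 := bf fun t => g1517 t u14 g2012 u16 u8
    have u19 := bt fun t => g1994 t n0 u17
    exact g74 u19 g2011 u18 n2 n1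
  have s2139 : T.X r c a b = false → T.X p c a b = false → T.alt p r d a b = true → False := fun n0 n1 n2 => by
    have u0 := bf fun t => g2058 t n1
    have u1 := bt fun t => s2132 t u0 n2
    have u2 := bf fun t => s2135 t n1 n2
    have u3 := bt fun t => g2046 u1 u2 t
    have u4 := bf fun t => g230 t n2
    have u5 := bf fun t => g229 t n2
    have u6 := bt fun t => s2136 t n0 n1 n2
    have u7 := bf fun t => s2137 t n0 n1 n2
    have u8 := bf fun t => g915 t n1 u6 u7 g2013
    have u9 := bf fun t => g1998 u4 t u8
    have u10 := bf fun t => s2138 t n0 n1 n2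
    have u11 := bt fun t => g408 t u9 u10
    have u12 := bt fun t => g1973 t u5 u11
    have u13 := bt fun t => g509 u11 u2 t g2012 u7 u3
    have u14 := bt fun t => g133 u12 g2011 t n1 n0
    exact g515 u11 u14 u13 w2079
  have s2140 : T.X p c a b = false → T.alt p r d a b = true → False := fun n0 n1 => by
    have u0 := bf fun t => g229 t n1
    have u1 := bf fun t => g2058 t n0
    have u2 := bt fun t => s2132 t u1 n1
    have u3 := bf fun t => s2135 t n0 n1
    have u4 := bt fun t => g2046 u2 u3 t
    have u5 := bf fun t => g37 u4 t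
    have u6 := bt fun t => s2139 t n0 n1
    have u7 := bf fun t => g32 t u6
    have u8 := bt fun t => s2134 u6 t n0 n1 u0
    have u9 := bf fun t => s2130 u4 t u6
    have u10 := bf fun t => g25 u8 t
    have u11 := bf fun t => g378 n1 g2011 t u9
    have u12 := bf fun t => g381 n1 g2011 t u9
    have u13 := bf fun t => g1839 u7 u9 u4 t g2013
    have u14 := bf fun t => g379 n1 g2011 t u9
    have u15 := bf fun t => g2065 t u11
    have u16 := bt fun t => g2072 g2075 t u15
    have u17 := bf fun t => s2115 t u16
    have u18 := bf fun t => g2060 u17 n1 t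
    have u19 := bt fun t => s2112 u8 t u4 u18 u3
    have u20 := bf fun t => g588 t u3 u18 g2012 u8 u4
    have u21 := bt fun t => g1382 t u14 u18 g2012 u8 u4
    have u22 := bt fun t => g1973 t u0 u19
    have u23 := bt fun t => g1984 n1 u20 t
    have u24 := bt fun t => g492 u19 t u21 u10 u5
    have u25 := bf fun t => g48 u22 t
    have u26 := bt fun t => g160 u22 g2011 u24 t n0 u6
    have u27 := bt fun t => g1990 u25 n1 t
    have u28 := bf fun t => g10 t u26
    have u29 := bf fun t => g1532 u26 u12 w2079 t u13
    have u30 := bf fun t => g862 u27 u8 t g2013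
    exact g751 u23 u28 g2012 u30 u29
  have s2141 : T.X p a c d = true → T.X p d r a = false → T.X p c r a = false → T.alt p r d a b = true → False := fun n0 n1 n2 n3 => by
    have u0 := bt fun t => s2140 t n3
    have u1 := bf fun t => g229 t n3
    have u2 := bf fun t => g863 t u0 n0 g2013
    have u3 := bt fun t => g1990 t n3 u2
    have u4 := bf fun t => g48 t u3
    have u5 := bf fun t => g2054 t u3 n2
    have u6 := bf fun t => g1973 u4 u1 t
    have u7 := bf fun t => g2059 t u5
    have u8 := bf fun t => s2112 n0 u6 t n1 n2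
    have u9 := bt fun t => s2132 t u7 n3
    exact g2046 u9 n2 u8
  have s2142 : T.X r a c d = false → T.X p d a b = false → T.X r c a b = true → T.X p c r a = false → T.alt p r d a b = true → False := fun n0 n1 n2 n3 n4 => by
    have u0 := bt fun t => s2140 t n4
    have u1 := bf fun t => g2065 t n1
    have u2 := bt fun t => g2072 g2075 t u1
    have u3 := bf fun t => s2115 t u2
    have u4 := bf fun t => g2060 u3 n4 t
    have u5 := bf fun t => s2141 t u4 n3 n4
    have u6 := bf fun t => g797 t u0 n1 u5 g2013
    have u7 := bf fun t => g2027 t u5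
    have u8 := bf fun t => g33 t n2
    have u9 := bf fun t => g32 t n2
    have u10 := bf fun t => g21 t u0
    have u11 := bf fun t => g20 t u0
    have u12 := bf fun t => g230 t n4
    have u13 := bf fun t => g229 t n4
    have u14 := bf fun t => g433 t n3 g2012 u5 n0
    have u15 := bf fun t => g551 t u4 g2012 u5 n0
    have u16 := bf fun t => g1997 u12 u14 t
    have u17 := bt fun t => g408 t u14 u15
    have u18 := bt fun t => g770 t u6 u16
    have u19 := bt fun t => g1973 t u13 u17
    have u20 := bf fun t => g864 u18 u0 t g2013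
    have u21 := bt fun t => g120 u19 w2077 n3 t u11 u9
    have u22 := bf fun t => g130 u19 w2076 t u10 u8
    have u23 := bf fun t => g2034 t u20
    have u24 := bf fun t => g10 u21 t
    have u25 := bt fun t => g1015 g2011 u22 t n3 u0 n2
    have u26 := bt fun t => g2041 g2044 t u23
    have u27 := bf fun t => g2014 t u25 n2
    have u28 := bt fun t => g2037 u26 t u7
    exact g2019 u28 u27 u24
  have s2143 : T.alt p a b c d = true → T.alt p r a b c = false → T.X p a r c = false → v64 = false → T.X r c a b = true → T.alt p r d a b = true → False := fun n0 n1 n2 n3 n4 n5 => by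
    have u0 := bt fun t => g2017 t n2 n4
    have u1 := bt fun t => s2140 t n5
    have u2 := bf fun t => g864 n0 u1 t g2013
    have u3 := bf fun t => g1987 t n5 n0
    have u4 := bf fun t => g2034 t u2
    have u5 := bt fun t => g46 n1 t u3
    have u6 := bt fun t => g2041 g2044 t u4
    have u7 := bt fun t => g102 u5 g2011 n2 t u1 n4
    have u8 := bt fun t => g2037 u6 t n3
    exact g2018 u8 u0 u7
  have s2144 : T.X p d a b = false → T.X r c a b = true → T.X p c r a = false → T.alt p r d a b = true → False := fun n0 n1 n2 n3 => by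
    have u0 := bt fun t => s2140 t n3
    have u1 := bf fun t => g21 t u0
    have u2 := bf fun t => g229 t n3
    have u3 := bf fun t => g2065 t n0
    have u4 := bt fun t => g2072 g2075 t u3
    have u5 := bf fun t => s2115 t u4
    have u6 := bf fun t => g2060 u5 n3 t
    have u7 := bf fun t => s2141 t u6 n2 n3
    have u8 := bf fun t => g2027 t u7
    have u9 := bf fun t => g797 t u0 n0 u7 g2013
    have u10 := bf fun t => g2006 u2 t u9
    have u11 := bt fun t => s2142 t n0 n1 n2 n3
    have u12 := bf fun t => g38 u11 t
    have u13 := bf fun t => g509 t n2 u6 g2012 u7 u11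
    have u14 := bf fun t => g1312 t u6 w2079 u7 u11
    have u15 := bf fun t => g1972 t u2 u13
    have u16 := bt fun t => g1015 g2011 t u14 n2 u0 n1
    have u17 := bf fun t => s2143 t u15 u14 u8 n1 n3
    have u18 := bt fun t => g1990 t n3 u17
    have u19 := bt fun t => g770 u17 u9 t
    have u20 := bt fun t => g1980 u18 t u10
    have u21 := bt fun t => g910 u19 u0 n0 t g2013
    have u22 := bt fun t => g436 u20 u16 w2078 t u12
    exact g1654 u1 n0 u22 u21 g2013
  have s2145 : T.X r c a b = true → T.X p c r a = false → T.alt p r d a b = true → False := fun n0 n1 n2 => by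
    have u0 := bt fun t => s2140 t n2
    have u1 := bt fun t => s2144 t n0 n1 n2
    have u2 := bt fun t => g378 n2 g2011 u1 t
    have u3 := bf fun t => g861 t u0 u1 g2013
    have u4 := bf fun t => s2130 t u2 n0
    have u5 := bt fun t => g1990 t n2 u3
    have u6 := bf fun t => g2046 t n1 u4
    have u7 := bf fun t => g2054 t u5 n1
    have u8 := bt fun t => s2132 u6 t n2
    exact g2059 u8 u7
  have s2146 : T.X p c r a = false → T.alt p r d a b = true → False := fun n0 n1 => by
    have u0 := bt fun t => s2140 t n1
    have u1 := bf fun t => s2145 t n0 n1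
    have u2 := bf fun t => g197 t g2011 u0 u1
    have u3 := bf fun t => g1031 w2077 n0 t u0 u1
    have u4 := bt fun t => g1990 u2 n1 t
    have u5 := bf fun t => g863 u4 u0 t g2013
    have u6 := bf fun t => g864 u4 u0 t g2013
    have u7 := bf fun t => g2027 t u5
    have u8 := bf fun t => g2034 t u6
    have u9 := bt fun t => g2041 g2044 t u8
    have u10 := bt fun t => g2037 u9 t u7
    have u11 := bt fun t => g2019 u10 t u3
    have u12 := bt fun t => s2094 u1 u10 t n0 u0
    have u13 := bf fun t => s2088 u11 t u0 u10
    have u14 := bf fun t => g84 t g2011 u12 u1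
    exact g46 u13 u14 u2
  have s2147 : T.X r c a b = false → v62 = true → T.alt p r d a b = true → False := fun n0 n1 n2 => by
    have u0 := bt fun t => s2146 t n2
    have u1 := bf fun t => g6 t u0
    have u2 := bf fun t => g5 t u0
    have u3 := bt fun t => s2140 t n2
    have u4 := bf fun t => g21 t u3
    have u5 := bf fun t => g966 g2011 u2 t u4 n0
    have u6 := bf fun t => g2015 t u1 n0
    exact g2019 n1 u6 u5
  have s2148 : T.alt p a b c d = true → T.alt p r d a b = true → False := fun n0 n1 => by
    have u0 := bt fun t => s2146 t n1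
    have u1 := bf fun t => g6 t u0
    have u2 := bt fun t => s2140 t n1
    have u3 := bf fun t => g863 n0 u2 t g2013
    have u4 := bf fun t => g864 n0 u2 t g2013
    have u5 := bf fun t => g2027 t u3
    have u6 := bf fun t => g2034 t u4
    have u7 := bt fun t => g2041 g2044 t u6
    have u8 := bt fun t => g2037 u7 t u5
    have u9 := bt fun t => s2147 t u8 n1
    have u10 := bt fun t => g2017 t u1 u9
    have u11 := bt fun t => s2143 n0 t u1 u5 u9 n1
    exact s2088 u10 u11 u2 u8
  have s2149 : T.X r a c d = false → T.alt p r d a b = true → False := fun n0 n1 => by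
    have u0 := bt fun t => s2140 t n1
    have u1 := bt fun t => s2146 t n1
    have u2 := bf fun t => s2148 t n1
    have u3 := bt fun t => g1990 t n1 u2
    have u4 := bt fun t => g2053 t u3 u1
    have u5 := bt fun t => g2057 t u0 u4
    have u6 := bf fun t => g229 t n1
    have u7 := bf fun t => g48 t u3
    have u8 := bf fun t => g1973 u7 u6 t
    have u9 := bt fun t => g2047 t u1 n0
    have u10 := bf fun t => g579 t u1 g2012 n0
    have u11 := bt fun t => g408 u8 t u10
    have u12 := bf fun t => g461 u11 t g2012 n0
    have u13 := bf fun t => g2061 t n1 u12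
    have u14 := bt fun t => g2051 t u9 u12
    have u15 := bf fun t => g2066 t u13
    have u16 := bf fun t => g2067 t u14 u5
    exact g2072 g2075 u16 u15
  have s2150 : T.X p a c d = false → T.alt p r d a b = true → False := fun n0 n1 => by
    have u0 := bt fun t => s2140 t n1
    have u1 := bf fun t => s2148 t n1
    have u2 := bt fun t => g1990 t n1 u1
    have u3 := bt fun t => g197 u2 g2011 u0 t
    have u4 := bt fun t => s2149 t n1
    have u5 := bf fun t => s2130 u4 t u3
    have u6 := bf fun t => g378 n1 g2011 t u5
    have u7 := bf fun t => g2065 t u6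
    have u8 := bt fun t => g2072 g2075 t u7
    have u9 := bf fun t => s2115 t u8
    have u10 := bf fun t => g2060 u9 n1 t
    have u11 := bt fun t => s2146 t n1
    have u12 := bf fun t => g229 t n1
    have u13 := bf fun t => g797 t u0 u6 n0 g2013
    have u14 := bf fun t => g2006 u12 t u13
    have u15 := bt fun t => g1980 u2 t u14
    exact g468 u15 u11 u10 g2012 n0 u4
  have s2151 : T.alt p r d a b = true → False := fun n0 => by
    have u0 := bf fun t => g229 t n0
    have u1 := bf fun t => g230 t n0
    have u2 := bt fun t => s2140 t n0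
    have u3 := bt fun t => s2146 t n0
    have u4 := bf fun t => s2148 t n0
    have u5 := bt fun t => g1990 t n0 u4
    have u6 := bf fun t => g48 t u5
    have u7 := bt fun t => g197 u5 g2011 u2 t
    have u8 := bf fun t => g1973 u6 u0 t
    have u9 := bt fun t => s2149 t n0
    have u10 := bf fun t => s2130 u9 t u7
    have u11 := bf fun t => g378 n0 g2011 t u10
    have u12 := bf fun t => g2065 t u11
    have u13 := bt fun t => g2072 g2075 t u12
    have u14 := bf fun t => s2115 t u13
    have u15 := bf fun t => g2060 u14 n0 t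
    have u16 := bt fun t => s2150 t n0
    have u17 := bf fun t => g379 n0 g2011 t u10
    have u18 := bf fun t => g567 t u3 u17 u15 w2078
    have u19 := bf fun t => g941 t u2 u16 g2013
    have u20 := bt fun t => g408 u8 t u18
    exact g1998 u1 u20 u19
  have w2151 := bf s2151
  have s2152 : T.X p c a b = true → T.alt p r d b c = false → T.X p a c d = true → v70 = false → False := fun n0 n1 n2 n3 => by
    have u0 := bf fun t => g863 t n0 n2 g2013
    have u1 := bf fun t => g941 t n0 n2 g2013
    have u2 := bf fun t => g1988 t w2151 u0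
    have u3 := bt fun t => g770 u0 t u1
    have u4 := bf fun t => g2000 t n1 u1
    have u5 := bf fun t => g823 u3 t n2 g2013
    have u6 := bf fun t => g2056 t u2 u4
    have u7 := bf fun t => g2065 t u5
    have u8 := bf fun t => g2059 t u6
    have u9 := bt fun t => g2072 g2075 t u7
    exact g2068 u9 n3 u8
  have s2153 : T.alt p r c a d = true → T.X p d r a = false → T.X r a c d = true → T.X p c r a = true → False := fun n0 n1 n2 n3 => by
    have u0 := bf fun t => g2045 t n3 n2
    have u1 := bf fun t => g2050 t u0 n1
    have u2 := bf fun t => g411 n0 t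
    have u3 := bt fun t => g468 n0 n3 n1 g2012 t n2
    have u4 := bf fun t => g1985 w2151 u2 t
    have u5 := bf fun t => s2152 t u4 u3 u1
    have u6 := bf fun t => g2058 t u5
    have u7 := bf fun t => g157 t g2011 n3 u5
    have u8 := bf fun t => g2068 t u1 u6
    have u9 := bf fun t => s2108 u3 n3 u7 t
    have u10 := bt fun t => g2072 g2075 u8 t
    exact g2066 u10 u9
  have s2154 : T.alt p r c a b = false → T.X p c a b = false → T.X p c r a = true → False := fun n0 n1 n2 => by
    have u0 := bf fun t => g157 t g2011 n2 n1
    have u1 := bf fun t => s2128 n2 n0 t n1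
    have u2 := bt fun t => g46 u0 t n0
    have u3 := bf fun t => g997 w2077 n2 t n1 u1
    exact g74 u2 g2011 u3 n1 u1
  have s2155 : T.X p c a b = false → v70 = false → T.X p c r a = true → False := fun n0 n1 n2 => by
    have u0 := bf fun t => g6 t n2
    have u1 := bf fun t => g2058 t n0
    have u2 := bf fun t => g157 t g2011 n2 n0
    have u3 := bf fun t => g2068 t n1 u1
    have u4 := bt fun t => g2072 g2075 u3 t
    have u5 := bt fun t => g2065 u4 t
    have u6 := bt fun t => g2066 u4 t
    have u7 := bf fun t => s2108 t n2 u2 u6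
    have u8 := bf fun t => g2027 t u7
    have u9 := bt fun t => s2154 t n0 n2
    have u10 := bt fun t => g1988 u9 w2151 t
    have u11 := bf fun t => g212 u9 w2077 n2 t
    have u12 := bf fun t => g866 u10 u5 t g2013
    have u13 := bf fun t => g1030 w2077 n2 u11 n0 t
    have u14 := bf fun t => g2034 t u12
    have u15 := bf fun t => s2106 u13 t u0 u9
    have u16 := bt fun t => g2041 g2044 t u14
    exact g2037 u16 u15 u8
  have s2156 : T.alt p r c a b = true → T.alt p r c a d = false → v70 = false → T.X p c r a = true → False := fun n0 n1 n2 n3 => by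
    have u0 := bt fun t => s2155 t n2 n3
    have u1 := bt fun t => g2053 t n0 n3
    have u2 := bt fun t => g1988 n0 w2151 t
    have u3 := bt fun t => g1980 n0 n1 t
    have u4 := bt fun t => g2057 t u0 u1
    have u5 := bf fun t => g771 u2 t
    have u6 := bt fun t => g2070 t n2 u4
    have u7 := bt fun t => g2006 t u3 u5
    have u8 := bf fun t => s2115 t u6
    exact g2062 u8 w2151 u7
  have s2157 : T.alt p r a b c = false → T.alt p r c a b = false → v70 = false → T.X p d a c = false → T.X p c r a = true → False := fun n0 n1 n2 n3 n4 => by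
    have u0 := bt fun t => s2155 t n2 n4
    have u1 := bf fun t => g21 t u0
    have u2 := bf fun t => g6 t n4
    have u3 := bf fun t => g5 t n4
    have u4 := bf fun t => g2056 t n1 n0
    have u5 := bt fun t => g46 n0 t n1
    have u6 := bf fun t => g2059 t u4
    have u7 := bf fun t => g57 u5 w2077 n4 t
    have u8 := bf fun t => g93 u5 u3 u2 t u1
    have u9 := bf fun t => g2068 t n2 u6
    have u10 := bf fun t => g2015 t u2 u7
    have u11 := bt fun t => g2072 g2075 u9 t
    have u12 := bf fun t => g2019 t u10 u8
    have u13 := bt fun t => g2065 u11 t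
    have u14 := bt fun t => g2066 u11 t
    have u15 := bf fun t => g1653 u1 u13 n3 t g2013
    have u16 := bf fun t => s2108 t n4 n0 u14
    have u17 := bf fun t => g2034 t u15
    have u18 := bf fun t => g2027 t u16
    have u19 := bt fun t => g2041 g2044 t u17
    exact g2037 u19 u12 u18
  have s2158 : T.X r c a b = false → v64 = false → T.alt p r b c d = true → T.X p b a c = false → T.X p c r a = true → False := fun n0 n1 n2 n3 n4 => by
    have u0 := bf fun t => g6 t n4
    have u1 := bf fun t => g5 t n4
    have u2 := bf fun t => g966 g2011 u1 t n3 n0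
    have u3 := bf fun t => g2015 t u0 n0
    have u4 := bf fun t => g2030 t n2 u2
    have u5 := bf fun t => g2019 t u3 u2
    have u6 := bf fun t => g2035 t u4
    have u7 := bf fun t => g2037 t u5 n1
    exact g2041 g2044 u7 u6
  have s2159 : T.X p d r a = false → T.X r a c d = true → T.X p c r a = true → False := fun n0 n1 n2 => by
    have u0 := bf fun t => g2045 t n2 n1
    have u1 := bf fun t => g38 n1 t
    have u2 := bf fun t => g6 t n2
    have u3 := bf fun t => g5 t n2
    have u4 := bf fun t => g1325 n2 n0 w2078 t u1
    have u5 := bf fun t => g2050 t u0 n0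
    have u6 := bf fun t => s2153 t n0 n1 n2
    have u7 := bt fun t => s2155 t u5 n2
    have u8 := bf fun t => g21 t u7
    have u9 := bf fun t => s2156 t u6 u5 n2
    have u10 := bt fun t => s2157 t u9 u5 u4 n2
    have u11 := bf fun t => g47 u10 t
    have u12 := bt fun t => g2055 t u9 u10
    have u13 := bf fun t => s2089 u9 t w2151 n0 u0 u12 u7
    have u14 := bt fun t => g227 u13 t w2151
    have u15 := bt fun t => g1972 u10 u13 t
    have u16 := bt fun t => g1978 u11 u14 t
    have u17 := bf fun t => g513 u15 u3 u2 g2012 t
    have u18 := bf fun t => g2027 t u17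
    have u19 := bt fun t => s2158 t u18 u16 u8 n2
    have u20 := bf fun t => g32 t u19
    have u21 := bt fun t => g2017 t u2 u19
    have u22 := bf fun t => s2130 n1 t u19
    have u23 := bf fun t => g141 u10 n2 t u20
    have u24 := bf fun t => s2088 u21 u10 u7 t
    have u25 := bf fun t => g1839 u20 u22 n1 t g2013
    have u26 := bf fun t => g2037 t u24 u18
    have u27 := bf fun t => g672 u16 u23 t w2078 u25
    have u28 := bt fun t => g2041 g2044 u26 t
    have u29 := bt fun t => g255 u14 g2011 u27 t u22
    have u30 := bt fun t => g2034 u28 t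
    exact g1653 u8 u29 u4 u30 g2013
  have s2160 : v62 = false → T.X r c a b = true → T.X p d r a = true → T.X p c r a = true → False := fun n0 n1 n2 n3 => by
    have u0 := bf fun t => g6 t n3
    have u1 := bt fun t => g2017 t u0 n1
    have u2 := bf fun t => g57 t w2077 n3 n1
    have u3 := bf fun t => g32 t n1
    have u4 := bf fun t => g1396 n3 n2 g2012 t
    have u5 := bf fun t => g2027 t u4
    have u6 := bf fun t => g518 t n3 n2 w2078 w2079
    have u7 := bt fun t => g2020 n0 u1 t
    have u8 := bf fun t => g2037 t n0 u5
    have u9 := bf fun t => g10 t u7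
    have u10 := bf fun t => g212 t w2077 n3 u7
    have u11 := bt fun t => g2041 g2044 u8 t
    have u12 := bt fun t => g992 g2011 n3 u9 t u3
    have u13 := bf fun t => g1989 u10 w2151 t
    have u14 := bt fun t => g46 t u2 u10
    have u15 := bt fun t => g2034 u11 t
    have u16 := bt fun t => g1972 u14 t u6
    have u17 := bf fun t => g809 t u12 u15 g2013
    have u18 := bt fun t => g338 u16 g2011 n2 t
    have u19 := bt fun t => g770 u13 u17 t
    exact g927 u19 u18 u15 g2013
  have s2161 : T.X r c a b = true → T.X p d r a = true → T.X p c r a = true → False := fun n0 n1 n2 => by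
    have u0 := bf fun t => g518 t n2 n1 w2078 w2079
    have u1 := bf fun t => g6 t n2
    have u2 := bf fun t => g57 t w2077 n2 n0
    have u3 := bt fun t => g2017 t u1 n0
    have u4 := bt fun t => s2160 t n0 n1 n2
    have u5 := bf fun t => g2018 u4 u3 t
    have u6 := bt fun t => g1030 w2077 n2 u5 t n0
    have u7 := bf fun t => g161 t g2011 u1 u5 u6 n0
    have u8 := bf fun t => g1974 u7 t u0
    have u9 := bt fun t => g46 u7 u2 t
    have u10 := bt fun t => g227 u8 t w2151
    have u11 := bt fun t => g1988 u9 w2151 t
    have u12 := bt fun t => g268 u10 w2076 w2077 n1 t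
    have u13 := bf fun t => g861 u11 u6 t g2013
    exact g279 u10 g2011 u12 u13
  have s2162 : v62 = true → T.X r c a b = false → T.X p c r a = true → False := fun n0 n1 n2 => by
    have u0 := bf fun t => g6 t n2
    have u1 := bf fun t => g2015 t u0 n1
    have u2 := bf fun t => g5 t n2
    have u3 := bf fun t => s2106 n1 n0 u0 t
    have u4 := bt fun t => g2019 n0 u1 t
    have u5 := bt fun t => s2154 u3 t n2
    have u6 := bt fun t => g966 g2011 u2 u4 t n1
    exact g21 u6 u5
  have s2163 : T.X p d r a = true → T.X p c r a = true → False := fun n0 n1 => by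
    have u0 := bf fun t => g6 t n1
    have u1 := bf fun t => g5 t n1
    have u2 := bf fun t => g1396 n1 n0 g2012 t
    have u3 := bf fun t => g518 t n1 n0 w2078 w2079
    have u4 := bf fun t => g2027 t u2
    have u5 := bf fun t => s2161 t n0 n1
    have u6 := bf fun t => g2015 t u0 u5
    have u7 := bf fun t => s2162 t u5 n1
    have u8 := bf fun t => g2021 u7 u6 t
    have u9 := bf fun t => g2037 t u7 u4
    have u10 := bf fun t => g967 g2011 u1 u8 t u5
    have u11 := bt fun t => g2041 g2044 u9 t
    have u12 := bf fun t => s2158 u5 u4 t u10 n1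
    have u13 := bt fun t => g2034 u11 t
    have u14 := bt fun t => g2035 u11 t
    have u15 := bf fun t => g2009 u3 u12 t
    have u16 := bt fun t => g2032 u14 u12 t
    have u17 := bf fun t => g1988 t w2151 u15
    have u18 := bt fun t => g1981 u17 t u16
    have u19 := bt fun t => s2154 u17 t n1
    have u20 := bf fun t => g422 u18 u1 u0 w2079 t
    have u21 := bf fun t => g809 t u19 u13 g2013
    have u22 := bf fun t => g1653 u10 t u20 u13 g2013
    have u23 := bt fun t => g2006 t u16 u21
    exact g338 u23 g2011 n0 u22
  have s2164 : T.X r c a b = false → T.X p c r a = true → False := fun n0 n1 => by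
    have u0 := bf fun t => s2163 t n1
    have u1 := bf fun t => s2159 u0 t n1
    have u2 := bf fun t => g501 t n1 g2012 u1
    have u3 := bf fun t => g579 t n1 g2012 u1
    have u4 := bt fun t => g408 u2 t u3
    have u5 := bf fun t => g447 u4 n1 t u1
    have u6 := bf fun t => g2027 t u5
    have u7 := bf fun t => g5 t n1
    have u8 := bf fun t => g1329 u7 u0 g2012 t u1
    have u9 := bf fun t => g6 t n1
    have u10 := bf fun t => g2015 t u9 n0
    have u11 := bf fun t => s2162 t n0 n1
    have u12 := bf fun t => g2021 u11 u10 t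
    have u13 := bf fun t => g2037 t u11 u6
    have u14 := bf fun t => g967 g2011 u7 u12 t n0
    have u15 := bt fun t => g2041 g2044 u13 t
    have u16 := bf fun t => s2158 n0 u6 t u14 n1
    have u17 := bt fun t => g2034 u15 t
    have u18 := bt fun t => g2035 u15 t
    have u19 := bt fun t => g2032 u18 u16 t
    have u20 := bf fun t => g1653 u14 t u8 u17 g2013
    have u21 := bf fun t => g2065 t u20
    have u22 := bf fun t => g793 t u20 u5 u17 g2013
    have u23 := bt fun t => g2072 g2075 t u21
    have u24 := bt fun t => g2006 t u19 u22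
    have u25 := bf fun t => s2115 t u23
    exact g2062 u25 w2151 u24
  have s2165 : v62 = false → T.X p c r a = true → False := fun n0 n1 => by
    have u0 := bf fun t => s2163 t n1
    have u1 := bf fun t => s2159 u0 t n1
    have u2 := bf fun t => g579 t n1 g2012 u1
    have u3 := bt fun t => s2164 t n1
    have u4 := bf fun t => g57 t w2077 n1 u3
    have u5 := bf fun t => g1993 u4 u2 t
    have u6 := bf fun t => g33 t u3
    have u7 := bf fun t => g1048 g2011 n1 t u3
    have u8 := bf fun t => g1033 w2077 n1 u7 t u6
    have u9 := bf fun t => g6 t n1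
    have u10 := bt fun t => g2017 t u9 u3
    have u11 := bf fun t => g32 t u3
    have u12 := bf fun t => g501 t n1 g2012 u1
    have u13 := bt fun t => g408 u12 t u2
    have u14 := bf fun t => g447 u13 n1 t u1
    have u15 := bf fun t => g2027 t u14
    have u16 := bf fun t => g5 t n1
    have u17 := bf fun t => g1329 u16 u0 g2012 t u1
    have u18 := bt fun t => g2020 n0 u10 t
    have u19 := bf fun t => g2037 t n0 u15
    have u20 := bf fun t => g10 t u18
    have u21 := bf fun t => g212 t w2077 n1 u18
    have u22 := bt fun t => g2041 g2044 u19 t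
    have u23 := bt fun t => g992 g2011 n1 u20 t u11
    have u24 := bt fun t => g1982 u21 u13 t
    have u25 := bt fun t => g46 t u4 u21
    have u26 := bt fun t => g2034 u22 t
    have u27 := bt fun t => g2006 t u24 u5
    have u28 := bt fun t => g2055 t u21 u25
    have u29 := bf fun t => g1653 u8 t u17 u26 g2013
    have u30 := bt fun t => g2062 t w2151 u27
    have u31 := bt fun t => g2057 t u23 u28
    have u32 := bf fun t => g2065 t u29
    have u33 := bf fun t => s2090 u31 u30 t
    exact g2072 g2075 u33 u32
  have s2166 : T.X p c r a = true → False := fun n0 => by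
    have u0 := bf fun t => g6 t n0
    have u1 := bf fun t => s2163 t n0
    have u2 := bf fun t => s2159 u1 t n0
    have u3 := bt fun t => g2047 t n0 u2
    have u4 := bf fun t => g501 t n0 g2012 u2
    have u5 := bt fun t => g2051 t u3 u1
    have u6 := bt fun t => s2164 t n0
    have u7 := bf fun t => g57 t w2077 n0 u6
    have u8 := bt fun t => g2017 t u0 u6
    have u9 := bt fun t => s2165 t n0
    have u10 := bf fun t => g2018 u9 u8 t
    have u11 := bt fun t => g1030 w2077 n0 u10 t u6
    have u12 := bf fun t => g161 t g2011 u0 u10 u11 u6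
    have u13 := bf fun t => g1974 u12 t u4
    have u14 := bt fun t => g46 u12 u7 t
    have u15 := bf fun t => g2063 t w2151 u13
    have u16 := bt fun t => g2053 t u14 n0
    have u17 := bf fun t => g2066 t u15
    have u18 := bt fun t => g2057 t u11 u16
    have u19 := bt fun t => g2072 g2075 t u17
    exact g2067 u19 u5 u18
  have w2166 := bf s2166
  have s2167 : T.X p c a b = true → T.X p d a c = false → T.alt p a c b d = false → T.X p b c d = false → T.X p d a b = false → False := fun n0 n1 n2 n3 n4 => by
    have u0 := bf fun t => g2065 t n4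
    have u1 := bt fun t => g2072 g2075 t u0
    have u2 := bf fun t => s2115 t u1
    have u3 := bf fun t => s2116 t u2
    have u4 := bf fun t => g2006 u3 t n2
    have u5 := bt fun t => g227 u3 t w2151
    have u6 := bf fun t => g910 t n0 n4 n3 g2013
    have u7 := bt fun t => g1996 u5 t u6
    have u8 := bt fun t => g770 t n2 u6
    have u9 := bt fun t => g1982 t u7 u4
    have u10 := bf fun t => g863 u8 n0 t g2013
    have u11 := bt fun t => g210 u9 g2011 t w2166 n0
    have u12 := bt fun t => g433 u7 w2166 g2012 u10 t
    have u13 := bt fun t => g436 u7 u11 w2078 n1 t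
    exact g38 u12 u13
  have s2168 : T.X p c a b = false → T.X p b c d = false → T.X p d a b = false → False := fun n0 n1 n2 => by
    have u0 := bf fun t => g2065 t n2
    have u1 := bt fun t => g2072 g2075 t u0
    have u2 := bf fun t => s2115 t u1
    have u3 := bf fun t => s2116 t u2
    have u4 := bt fun t => g227 u3 t w2151
    have u5 := bf fun t => g279 u4 g2011 t n2
    have u6 := bf fun t => g268 u4 w2076 w2077 t u5
    have u7 := bf fun t => g2058 t n0
    have u8 := bt fun t => g2068 u1 t u7
    have u9 := bt fun t => g2050 u8 t u6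
    have u10 := bt fun t => g2046 u9 w2166 t
    have u11 := bt fun t => s2127 w2166 u9 u6 t n0 n2 u3
    have u12 := bf fun t => g913 t n2 u11 n1 g2013
    have u13 := bf fun t => g470 t w2166 u6 g2012 u11 u10
    exact g1996 u4 u13 u12
  have s2169 : T.alt p a c b d = false → T.alt p r d b c = false → T.X p b c d = false → T.X p d a b = false → T.X p b a c = false → False := fun n0 n1 n2 n3 n4 => by
    have u0 := bf fun t => g2065 t n3
    have u1 := bt fun t => g2072 g2075 t u0
    have u2 := bf fun t => s2115 t u1
    have u3 := bf fun t => s2116 t u2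
    have u4 := bt fun t => g227 u3 t w2151
    have u5 := bt fun t => s2168 t n2 n3
    have u6 := bf fun t => g910 t u5 n3 n2 g2013
    have u7 := bt fun t => g1996 u4 t u6
    have u8 := bf fun t => g2006 u3 t n0
    have u9 := bt fun t => s2167 u5 t n0 n2 n3
    have u10 := bt fun t => g770 t n0 u6
    have u11 := bf fun t => g26 t u9
    have u12 := bf fun t => g840 u10 n4 u9 t
    have u13 := bt fun t => g1982 t u7 u8
    have u14 := bt fun t => g589 t u8 n1
    have u15 := bt fun t => g433 u7 w2166 g2012 u11 t
    have u16 := bt fun t => g197 u13 g2011 u5 t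
    have u17 := bt fun t => g210 u13 g2011 t w2166 u5
    have u18 := bf fun t => g37 u15 t
    have u19 := bf fun t => s2130 u15 t u16
    have u20 := bf fun t => g1058 u17 t u5 u16
    have u21 := bf fun t => g1835 u16 u19 u18 t u12
    have u22 := bt fun t => g255 u4 g2011 t n3 u19
    exact g672 u14 u20 u22 w2078 u21
  have s2170 : T.X p b c d = false → v64 = false → T.X p d a b = false → T.X p b a c = false → v61 = true → v62 = true → False := fun n0 n1 n2 n3 n4 n5 => by
    have u0 := bf fun t => g2065 t n2
    have u1 := bt fun t => g2072 g2075 t u0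
    have u2 := bf fun t => s2115 t u1
    have u3 := bf fun t => s2116 t u2
    have u4 := bt fun t => g227 u3 t w2151
    have u5 := bt fun t => s2168 t n0 n2
    have u6 := bf fun t => s2088 n4 t u5 n5
    have u7 := bf fun t => g910 t u5 n2 n0 g2013
    have u8 := bf fun t => g1973 u6 u3 t
    have u9 := bt fun t => g1996 u4 t u7
    have u10 := bf fun t => g2002 u6 t u7
    have u11 := bt fun t => g2024 t u8 u9
    have u12 := bt fun t => s2169 t u10 n0 n2 n3
    have u13 := bf fun t => g2026 n1 t u11
    exact g797 u12 u5 n2 u13 g2013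
  have s2171 : T.alt p r c b d = true → T.bfo p c d b r = false → False := fun n0 n1 => by
    have u0 := bf fun t => g590 t n0
    exact g2031 n1 u0 n0
  have s2172 : T.alt p r b c d = false → T.alt p r c b d = false → T.X p d a b = false → T.X p b r c = false → v61 = true → False := fun n0 n1 n2 n3 n4 => by
    have u0 := bf fun t => g2065 t n2
    have u1 := bt fun t => g2072 g2075 t u0
    have u2 := bf fun t => s2115 t u1
    have u3 := bf fun t => s2116 t u2
    have u4 := bt fun t => g227 u3 t w2151
    have u5 := bf fun t => g279 u4 g2011 t n2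
    have u6 := bf fun t => g268 u4 w2076 w2077 t u5
    have u7 := bt fun t => g589 n0 n1 t
    have u8 := bt fun t => g1978 t u4 n0
    have u9 := bt fun t => g1985 w2151 t u7
    have u10 := bf fun t => g47 t u8
    have u11 := bf fun t => g49 u8 t
    have u12 := bf fun t => g2056 t u11 u10
    have u13 := bf fun t => g2059 t u12
    have u14 := bt fun t => g2068 u1 t u13
    have u15 := bt fun t => g2050 u14 t u6
    have u16 := bt fun t => g2046 u15 w2166 t
    have u17 := bf fun t => g588 u9 w2166 u6 g2012 t u16
    have u18 := bf fun t => g1312 t u6 w2079 u17 u16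
    have u19 := bt fun t => s2127 w2166 u15 u6 u17 t n2 u3
    have u20 := bt fun t => g2015 n4 u18 t
    exact g102 u8 g2011 u18 n3 u19 u20
  have s2173 : T.X p c a b = true → T.alt p r b a c = false → T.X p b c d = true → v61 = true → v62 = true → False := fun n0 n1 n2 n3 n4 => by
    have u0 := bf fun t => s2088 n3 t n0 n4
    have u1 := bf fun t => g864 t n0 n2 g2013
    have u2 := bt fun t => g46 u0 n1 t
    exact g1988 u2 w2151 u1
  have s2174 : v64 = false → T.X p d a b = false → T.X p b a c = false → v61 = true → v62 = true → False := fun n0 n1 n2 n3 n4 => by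
    have u0 := bf fun t => g2065 t n1
    have u1 := bt fun t => g2072 g2075 t u0
    have u2 := bf fun t => s2115 t u1
    have u3 := bf fun t => s2116 t u2
    have u4 := bt fun t => g227 u3 t w2151
    have u5 := bf fun t => g279 u4 g2011 t n1
    have u6 := bf fun t => g268 u4 w2076 w2077 t u5
    have u7 := bf fun t => g2018 n4 n3 t
    have u8 := bt fun t => g2038 t n4 n0
    have u9 := bf fun t => g2040 g2044 u8 t
    have u10 := bt fun t => s2170 t n0 n1 n2 n3 n4
    have u11 := bf fun t => g2033 u9 u10 t
    have u12 := bf fun t => s2171 t u11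
    have u13 := bt fun t => s2172 t u12 n1 u7 n3
    have u14 := bf fun t => g1975 t u4 u13
    have u15 := bt fun t => g694 u13 t u7 g2012 u10
    have u16 := bt fun t => g681 u13 g2012 u10 t
    have u17 := bf fun t => g1556 u15 t u10 u16
    have u18 := bf fun t => g40 u16 t
    have u19 := bf fun t => g1175 g2011 u6 u17 n1 t
    have u20 := bf fun t => s2173 t u14 u10 n3 n4
    have u21 := bf fun t => g2058 t u20
    have u22 := bt fun t => g2068 u1 t u21
    have u23 := bt fun t => g2050 u22 t u6
    have u24 := bt fun t => g2046 u23 w2166 t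
    have u25 := bt fun t => s2127 w2166 u23 u6 t u20 n1 u3
    have u26 := bf fun t => g1829 t u19 u24 u18 g2013
    have u27 := bt fun t => s2112 u25 t u24 u6 w2166
    have u28 := bf fun t => g2026 n0 u25 t
    have u29 := bt fun t => g2015 n3 t u26
    exact g2022 u28 u27 u29
  have s2175 : T.X p d a b = false → T.X p b a c = false → v61 = true → v62 = true → False := fun n0 n1 n2 n3 => by
    have u0 := bf fun t => g2018 n3 n2 t
    have u1 := bf fun t => g2065 t n0
    have u2 := bt fun t => g2072 g2075 t u1
    have u3 := bf fun t => s2115 t u2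
    have u4 := bf fun t => s2116 t u3
    have u5 := bt fun t => g227 u4 t w2151
    have u6 := bf fun t => g279 u5 g2011 t n0
    have u7 := bf fun t => g268 u5 w2076 w2077 t u6
    have u8 := bt fun t => s2174 t n0 n1 n2 n3
    have u9 := bt fun t => g2027 u8 t
    have u10 := bf fun t => g2036 t n3 u8
    have u11 := bt fun t => g2041 g2044 u10 t
    have u12 := bt fun t => g2034 u11 t
    have u13 := bt fun t => g2035 u11 t
    have u14 := bf fun t => g862 t u9 u12 g2013
    have u15 := bf fun t => g2030 u13 t u0
    have u16 := bf fun t => g1988 t w2151 u14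
    have u17 := bf fun t => g2008 t u15 u14
    have u18 := bf fun t => g1972 t u4 u17
    have u19 := bf fun t => s2112 u9 u17 t u7 w2166
    have u20 := bf fun t => g2056 t u16 u18
    have u21 := bf fun t => g2046 t w2166 u19
    have u22 := bf fun t => g2059 t u20
    have u23 := bf fun t => g2050 t u21 u7
    exact g2068 u2 u23 u22
  have s2176 : T.X p b c d = true → T.alt p r b a d = true → T.alt p r b c d = false → T.X p d a b = true → T.X p b a c = false → v62 = true → False := fun n0 n1 n2 n3 n4 n5 => by
    have u0 := bt fun t => g1978 t n1 n2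
    have u1 := bf fun t => g49 u0 t
    have u2 := bt fun t => g1653 n4 n3 t n0 g2013
    have u3 := bf fun t => g927 t n3 n0 g2013
    have u4 := bf fun t => g26 t u2
    have u5 := bt fun t => g1996 n1 t u3
    have u6 := bf fun t => g2027 t u4
    have u7 := bt fun t => g1982 u1 u5 t
    have u8 := bt fun t => g2038 t n5 u6
    have u9 := bt fun t => g2031 t n2 u7
    have u10 := bf fun t => g2040 g2044 u8 t
    exact g2033 u10 n0 u9
  have s2177 : T.alt p r c b d = true → T.X p b c d = false → T.alt p r b a c = true → T.alt p r a b d = false → T.X p d a b = true → T.X p b r c = false → v61 = true → False := fun n0 n1 n2 n3 n4 n5 n6 => by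
    have u0 := bf fun t => g2063 t w2151 n3
    have u1 := bf fun t => g2066 t u0
    have u2 := bt fun t => g2072 g2075 t u1
    have u3 := bf fun t => g49 n2 t
    have u4 := bf fun t => g47 t n2
    have u5 := bf fun t => g2056 t u3 u4
    have u6 := bf fun t => g2059 t u5
    have u7 := bt fun t => g2068 u2 t u6
    have u8 := bt fun t => g1981 u3 t n0
    have u9 := bt fun t => g2006 n3 n0 t
    have u10 := bf fun t => g823 u9 n4 t g2013
    have u11 := bt fun t => g792 u9 t n4 n1 g2013
    have u12 := bt fun t => g433 u8 w2166 g2012 u10 t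
    have u13 := bt fun t => s2086 w2166 u10 u8 t
    have u14 := bf fun t => g2049 u7 u13 t
    have u15 := bf fun t => g1312 t u14 w2079 u10 u12
    have u16 := bt fun t => g2015 n6 u15 t
    exact g102 n2 g2011 u15 n5 u11 u16
  have s2178 : T.X p a r c = false → T.X p c a b = true → T.alt p r b a c = true → T.X p b r c = false → v61 = true → False := fun n0 n1 n2 n3 n4 => by
    have u0 := bt fun t => g2015 n4 n0 t
    exact g102 n2 g2011 n0 n3 n1 u0
  have s2179 : T.X p a r c = true → T.alt p r b a c = true → v61 = true → False := fun n0 n1 n2 => by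
    have u0 := bt fun t => g84 n1 g2011 n0 t
    exact g2014 n2 n0 u0
  have s2180 : T.X r a c d = true → T.X p a c d = true → T.alt p r d a c = true → v70 = true → False := fun n0 n1 n2 n3 => by
    have u0 := bt fun t => g2048 t w2166 n0
    have u1 := bt fun t => g588 n2 w2166 t g2012 n1 n0
    exact g2049 n3 u0 u1
  have s2181 : T.X p a c d = true → v70 = true → T.alt p r d a c = true → False := fun n0 n1 n2 => by
    have u0 := bf fun t => s2180 t n0 n2 n1
    have u1 := bf fun t => g2046 t w2166 u0
    have u2 := bf fun t => g565 n2 t n0 u0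
    exact g2050 n1 u1 u2
  have s2182 : T.alt p r b a d = true → T.alt p r b c d = false → T.X p b a c = false → v61 = true → v62 = true → False := fun n0 n1 n2 n3 n4 => by
    have u0 := bt fun t => s2175 t n2 n3 n4
    have u1 := bf fun t => g2018 n4 n3 t
    have u2 := bf fun t => g228 t n0
    have u3 := bt fun t => g1978 t n0 n1
    have u4 := bf fun t => g2063 t w2151 u2
    have u5 := bf fun t => g47 t u3
    have u6 := bf fun t => g49 u3 t
    have u7 := bf fun t => g2066 t u4
    have u8 := bf fun t => g2056 t u6 u5
    have u9 := bf fun t => g1989 u6 w2151 t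
    have u10 := bt fun t => g2072 g2075 t u7
    have u11 := bf fun t => g2059 t u8
    have u12 := bt fun t => g2068 u10 t u11
    have u13 := bf fun t => s2176 t n0 n1 u0 n2 n4
    have u14 := bf fun t => s2177 t u13 u3 u2 u0 u1 n3
    have u15 := bf fun t => g2005 u2 u14 t
    have u16 := bt fun t => g770 u9 u15 t
    have u17 := bt fun t => g1992 u3 t u15
    have u18 := bf fun t => s2179 t u3 n3
    have u19 := bf fun t => s2178 u18 t u3 u1 n3
    have u20 := bt fun t => g915 u16 u19 u0 t g2013
    exact s2181 u20 u12 u17
  have s2183 : T.X p a c d = true → T.alt p r b a d = false → T.alt p r b c d = false → T.X p d a b = true → T.X p b a c = false → v62 = true → False := fun n0 n1 n2 n3 n4 n5 => by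
    have u0 := bf fun t => g26 n0 t
    have u1 := bf fun t => g865 t n3 n0 g2013
    have u2 := bf fun t => g823 t n3 n0 g2013
    have u3 := bf fun t => g1653 n4 n3 u0 t g2013
    have u4 := bf fun t => g2008 t n2 u1
    have u5 := bt fun t => g770 u1 u2 t
    have u6 := bf fun t => g2034 t u3
    have u7 := bt fun t => g1997 n1 t u5
    have u8 := bt fun t => g2041 g2044 t u6
    have u9 := bt fun t => g2024 t u4 u7
    have u10 := bf fun t => g2036 u8 n5 t
    exact g2026 u10 n0 u9
  have s2185 : T.X r a c d = true → v70 = false → T.alt p r d a c = true → T.X p a c d = false → False := fun n0 n1 n2 n3 => by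
    have u0 := bt fun t => g2048 t w2166 n0
    have u1 := bf fun t => g586 n2 w2166 t g2012 n3 n0
    exact g2051 n1 u0 u1
  have s2186 : v70 = false → T.alt p r d a c = true → T.X p a c d = false → False := fun n0 n1 n2 => by
    have u0 := bf fun t => s2185 t n0 n1 n2
    have u1 := bf fun t => g2046 t w2166 u0
    have u2 := bt fun t => g551 n1 t g2012 n2 u0
    exact g2052 n0 u1 u2
  have s2188 : T.X p a r c = false → T.alt p r c a b = true → T.X p c a b = false → T.X p b r c = false → v61 = true → False := fun n0 n1 n2 n3 n4 => by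
    have u0 := bt fun t => g2015 n4 n0 t
    exact g206 n1 g2011 n0 n3 n2 u0
  have s2189 : T.alt p r c a b = true → T.X p c a b = false → v61 = true → T.X p b r c = false → False := fun n0 n1 n2 n3 => by
    have u0 := bt fun t => s2188 t n0 n1 n3 n2
    have u1 := bt fun t => g198 n0 g2011 u0 t
    exact g2014 n2 u0 u1
  have s2190 : T.alt p a b c d = true → T.X p d a b = true → T.X p b r c = false → v61 = true → False := fun n0 n1 n2 n3 => by
    have u0 := bf fun t => g861 n0 t n1 g2013
    have u1 := bt fun t => g1989 t w2151 n0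
    exact s2189 u1 u0 n3 n2
  have s2191 : T.X p a c d = false → T.X p c a b = false → T.alt p a b c d = false → T.X p d a b = true → T.X p b a c = false → T.X p b r c = false → v62 = true → False := fun n0 n1 n2 n3 n4 n5 n6 => by
    have u0 := bf fun t => g2058 t n1
    have u1 := bf fun t => g2027 t n0
    have u2 := bf fun t => g915 t n1 n3 n0 g2013
    have u3 := bt fun t => g2038 t n6 u1
    have u4 := bt fun t => g770 n2 t u2
    have u5 := bf fun t => g2040 g2044 u3 t
    have u6 := bt fun t => g792 u4 n1 n3 t g2013
    have u7 := bt fun t => g811 u4 n4 n1 n3 t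
    have u8 := bf fun t => g29 u6 t
    have u9 := bf fun t => g2033 u5 u6 t
    have u10 := bf fun t => g822 u4 t u7 u8
    have u11 := bf fun t => s2171 t u9
    have u12 := bt fun t => g2005 t u11 u4
    have u13 := bt fun t => g2062 t w2151 u12
    have u14 := bf fun t => s2115 u13 t
    have u15 := bf fun t => g2069 u14 t u0
    have u16 := bf fun t => s2186 u15 t n0
    have u17 := bf fun t => g1985 w2151 u16 t
    have u18 := bt fun t => g1993 t u16 u4
    have u19 := bt fun t => g589 t u11 u17
    have u20 := bt fun t => g74 u18 g2011 n5 n1 t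
    have u21 := bt fun t => g694 u19 t n5 g2012 u6
    have u22 := bf fun t => g32 t u20
    exact g71 u18 w2077 u21 u10 u22
  have s2192 : T.alt p r b c d = true → T.bfo p c d a r = false → T.alt p a d b c = true → T.X p a c d = true → T.alt p a b c d = false → T.X p b a c = false → v61 = true → False := fun n0 n1 n2 n3 n4 n5 n6 => by
    have u0 := bf fun t => g591 n0 t
    have u1 := bt fun t => g2010 t n0 n4
    have u2 := bt fun t => g2001 t u0 n2
    have u3 := bf fun t => g2022 n1 u1 t
    have u4 := bt fun t => g2015 n6 u3 t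
    have u5 := bt fun t => g513 u1 t u3 g2012 n3
    have u6 := bf fun t => g33 t u4
    exact g130 u2 w2076 u5 n5 u6
  have s2193 : T.X p a c d = true → T.X p b a c = false → v61 = true → v62 = true → False := fun n0 n1 n2 n3 => by
    have u0 := bf fun t => g2018 n3 n2 t
    have u1 := bt fun t => s2175 t n1 n2 n3
    have u2 := bf fun t => s2190 t u1 u0 n2
    have u3 := bf fun t => g26 n0 t
    have u4 := bf fun t => g823 t u1 n0 g2013
    have u5 := bf fun t => g1653 n1 u1 u3 t g2013
    have u6 := bt fun t => g770 u2 u4 t
    have u7 := bf fun t => g2034 t u5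
    have u8 := bt fun t => g2041 g2044 t u7
    have u9 := bf fun t => g2036 u8 n3 t
    have u10 := bf fun t => g2026 u9 n0 t
    have u11 := bf fun t => s2192 t u10 u6 n0 u2 n1 n2
    have u12 := bf fun t => s2182 t u11 n1 n2 n3
    exact s2183 n0 u12 u11 u1 n1 n3
  have s2194 : T.X p b a c = false → v61 = true → v62 = true → False := fun n0 n1 n2 => by
    have u0 := bf fun t => g2018 n2 n1 t
    have u1 := bt fun t => s2175 t n0 n1 n2
    have u2 := bf fun t => s2190 t u1 u0 n1
    have u3 := bf fun t => g1988 t w2151 u2
    have u4 := bf fun t => s2193 t n0 n1 n2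
    have u5 := bt fun t => s2191 u4 t u2 u1 n0 u0 n2
    have u6 := bf fun t => s2088 n1 t u5 n2
    have u7 := bt fun t => g46 u6 t u3
    have u8 := bf fun t => s2179 t u7 n1
    exact s2178 u8 u5 u7 u0 n1
  have s2195 : T.X p a c d = false → T.X p d a b = true → v61 = true → v62 = true → False := fun n0 n1 n2 n3 => by
    have u0 := bf fun t => g2018 n3 n2 t
    have u1 := bt fun t => s2194 t n2 n3
    have u2 := bf fun t => g21 u1 t
    have u3 := bf fun t => s2189 t u2 n2 u0
    have u4 := bf fun t => g1989 u3 w2151 t
    have u5 := bf fun t => g2058 t u2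
    have u6 := bf fun t => g19 t u1
    have u7 := bf fun t => g2027 t n0
    have u8 := bf fun t => g915 t u2 n1 n0 g2013
    have u9 := bt fun t => g2038 t n3 u7
    have u10 := bt fun t => g770 u4 t u8
    have u11 := bf fun t => g2040 g2044 u9 t
    have u12 := bt fun t => g792 u10 u2 n1 t g2013
    have u13 := bf fun t => g2033 u11 u12 t
    have u14 := bf fun t => s2171 t u13
    have u15 := bt fun t => g2005 t u14 u10
    have u16 := bt fun t => g2062 t w2151 u15
    have u17 := bf fun t => s2115 u16 t
    have u18 := bf fun t => g2069 u17 t u5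
    have u19 := bf fun t => s2186 u18 t n0
    have u20 := bf fun t => g1985 w2151 u19 t
    have u21 := bt fun t => g1993 t u19 u10
    have u22 := bt fun t => g589 t u14 u20
    have u23 := bt fun t => g74 u21 g2011 u0 u2 t
    have u24 := bt fun t => g694 u22 t u0 g2012 u12
    have u25 := bf fun t => g32 t u23
    exact g71 u21 w2077 u24 u6 u25
  have s2196 : T.X p d a b = true → v61 = true → v62 = true → False := fun n0 n1 n2 => by
    have u0 := bf fun t => g2018 n2 n1 t
    have u1 := bt fun t => s2194 t n1 n2
    have u2 := bf fun t => g21 u1 t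
    have u3 := bf fun t => s2189 t u2 n1 u0
    have u4 := bf fun t => g1989 u3 w2151 t
    have u5 := bf fun t => g23 t n0
    have u6 := bt fun t => s2195 t n0 n1 n2
    have u7 := bf fun t => g26 u6 t
    have u8 := bf fun t => g823 t n0 u6 g2013
    have u9 := bf fun t => g1690 u2 u5 u6 t g2013
    have u10 := bf fun t => g1714 u2 n0 u7 u9 t
    have u11 := bt fun t => g770 u4 u8 t
    exact g908 u11 u1 u7 u9 u10
  have s2197 : v61 = true → v62 = true → False := fun n0 n1 => by
    have u0 := bf fun t => g2018 n1 n0 t
    have u1 := bt fun t => s2194 t n0 n1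
    have u2 := bf fun t => g19 t u1
    have u3 := bf fun t => g21 u1 t
    have u4 := bf fun t => g2058 t u3
    have u5 := bf fun t => s2189 t u3 n0 u0
    have u6 := bf fun t => g1989 u5 w2151 t
    have u7 := bf fun t => s2196 t n0 n1
    have u8 := bf fun t => g2065 t u7
    have u9 := bt fun t => s2168 u3 t u7
    have u10 := bt fun t => g2072 g2075 t u8
    have u11 := bf fun t => g28 u9 t
    have u12 := bf fun t => s2115 t u10
    have u13 := bt fun t => g2068 u10 t u4
    have u14 := bf fun t => s2116 t u12
    have u15 := bt fun t => g227 u14 t w2151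
    have u16 := bf fun t => g279 u15 g2011 t u7
    have u17 := bf fun t => g268 u15 w2076 w2077 t u16
    have u18 := bt fun t => g2050 u13 t u17
    have u19 := bt fun t => g2046 u18 w2166 t
    have u20 := bt fun t => s2127 w2166 u18 u17 t u3 u7 u14
    have u21 := bt fun t => s2112 u20 t u19 u17 w2166
    have u22 := bf fun t => g470 t w2166 u17 g2012 u20 u19
    have u23 := bf fun t => g26 u20 t
    have u24 := bt fun t => g1973 t u14 u21
    have u25 := bt fun t => g2008 u21 t u6
    have u26 := bt fun t => g1996 u15 u22 t
    have u27 := bt fun t => g694 u25 t u0 g2012 u9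
    have u28 := bt fun t => g681 u25 g2012 u9 t
    have u29 := bt fun t => g908 u26 u1 u23 u11 t
    have u30 := bt fun t => g154 u24 t u27 u1
    have u31 := bf fun t => g147 u24 w2077 w2166 u27 u2 t
    have u32 := bf fun t => g1049 g2011 u27 u1 t
    have u33 := bf fun t => g40 u28 t
    have u34 := bf fun t => g1911 u31 u32 t u19 u28 u29
    have u35 := bt fun t => g1036 g2011 u30 u27 u31 u32 t
    exact g1829 u35 u34 u19 u33 g2013
  have s2198 : T.X p d a b = false → T.X p c a b = false → T.X p b r c = true → False := fun n0 n1 n2 => by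
    have u0 := bf fun t => g2058 t n1
    have u1 := bf fun t => g2065 t n0
    have u2 := bt fun t => s2168 n1 t n0
    have u3 := bt fun t => g2072 g2075 t u1
    have u4 := bf fun t => s2115 t u3
    have u5 := bt fun t => g2068 u3 t u0
    have u6 := bf fun t => s2116 t u4
    have u7 := bt fun t => g227 u6 t w2151
    have u8 := bf fun t => g279 u7 g2011 t n0
    have u9 := bf fun t => g268 u7 w2076 w2077 t u8
    have u10 := bt fun t => g2050 u5 t u9
    have u11 := bt fun t => g2046 u10 w2166 t
    have u12 := bt fun t => s2127 w2166 u10 u9 t n1 n0 u6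
    have u13 := bt fun t => s2112 u12 t u11 u9 w2166
    have u14 := bf fun t => g862 t u12 u2 g2013
    have u15 := bt fun t => g1973 t u6 u13
    have u16 := bt fun t => g2008 u13 t u14
    have u17 := bt fun t => g143 u15 g2011 n2 t
    have u18 := bt fun t => g681 u16 g2012 u2 t
    have u19 := bf fun t => s2130 u11 t u17
    have u20 := bf fun t => g1561 n2 t g2012 u18
    exact g255 u7 g2011 u20 n0 u19
  have s2199 : T.alt p r b c d = true → T.bfo p c d a r = false → T.alt p a d b c = true → T.alt p a b c d = false → v62 = true → False := fun n0 n1 n2 n3 n4 => by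
    have u0 := bf fun t => s2197 t n4
    have u1 := bt fun t => g2019 n4 u0 t
    have u2 := bf fun t => g591 n0 t
    have u3 := bt fun t => g2010 t n0 n3
    have u4 := bt fun t => g2001 t u2 n2
    have u5 := bf fun t => g2022 n1 u3 t
    have u6 := bt fun t => g143 u4 g2011 u1 t
    exact g2017 u0 u5 u6
  have s2200 : T.X p a c d = true → T.alt p a b c d = false → T.X p c a b = false → v62 = true → False := fun n0 n1 n2 n3 => by
    have u0 := bf fun t => s2197 t n3
    have u1 := bt fun t => g2019 n3 u0 t
    have u2 := bt fun t => s2198 t n2 u1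
    have u3 := bf fun t => g23 t u2
    have u4 := bf fun t => g10 t u1
    have u5 := bf fun t => g1005 g2011 w2166 u4 n2 t
    have u6 := bf fun t => g26 n0 t
    have u7 := bf fun t => g823 t u2 n0 g2013
    have u8 := bf fun t => g1690 n2 u3 n0 t g2013
    have u9 := bf fun t => g1714 n2 u2 u6 u8 t
    have u10 := bt fun t => g770 n1 u7 t
    have u11 := bf fun t => g908 u10 t u6 u8 u9
    have u12 := bf fun t => g927 u10 u2 t g2013
    have u13 := bf fun t => g2034 t u12
    have u14 := bt fun t => g2041 g2044 t u13
    have u15 := bf fun t => g2036 u14 n3 t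
    have u16 := bf fun t => g2026 u15 n0 t
    have u17 := bf fun t => s2199 t u16 u10 n1 n3
    have u18 := bt fun t => s2183 n0 t u17 u2 u11 n3
    have u19 := bt fun t => g1978 t u18 u17
    have u20 := bf fun t => g47 t u19
    have u21 := bf fun t => g69 u19 w2166 u4 t u5
    have u22 := bt fun t => g2001 u20 t u10
    have u23 := bt fun t => g1668 u21 u2 n0 t g2013
    exact g757 u22 u1 w2079 u23
  have s2201 : T.alt p a b c d = false → T.X p c a b = false → v62 = true → False := fun n0 n1 n2 => by
    have u0 := bf fun t => s2197 t n2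
    have u1 := bt fun t => g2019 n2 u0 t
    have u2 := bt fun t => s2198 t n1 u1
    have u3 := bf fun t => g24 t u2
    have u4 := bf fun t => g10 t u1
    have u5 := bf fun t => g1005 g2011 w2166 u4 n1 t
    have u6 := bf fun t => s2200 t n0 n1 n2
    have u7 := bf fun t => g2027 t u6
    have u8 := bf fun t => g915 t n1 u2 u6 g2013
    have u9 := bt fun t => g2038 t n2 u7
    have u10 := bt fun t => g770 n0 t u8
    have u11 := bf fun t => g2040 g2044 u9 t
    have u12 := bt fun t => g792 u10 n1 u2 t g2013
    have u13 := bf fun t => g781 u10 n1 u2 t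
    have u14 := bf fun t => g2033 u11 u12 t
    have u15 := bf fun t => g1666 t u3 u6 u12 u13
    have u16 := bf fun t => g2029 u14 t u1
    have u17 := bf fun t => s2171 t u14
    have u18 := bf fun t => g120 t w2077 w2166 u4 u15 u5
    have u19 := bt fun t => g589 u16 u17 t
    exact g2002 u18 u19 u8
  have s2202 : T.alt p r c a b = true → v62 = true → False := fun n0 n1 => by
    have u0 := bf fun t => s2197 t n1
    have u1 := bt fun t => g2019 n1 u0 t
    have u2 := bt fun t => g200 n0 g2011 u1 t
    have u3 := bf fun t => g215 n0 w2076 w2077 t u1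
    exact g2017 u0 u3 u2
  have s2203 : v61 = false → v62 = true → False := fun n0 n1 => by
    have u0 := bt fun t => g2019 n1 n0 t
    have u1 := bf fun t => s2202 t n1
    have u2 := bf fun t => g1989 u1 w2151 t
    have u3 := bt fun t => s2201 u2 t n1
    have u4 := bf fun t => g1047 g2011 t u0 u3
    have u5 := bt fun t => g1031 w2077 w2166 u0 u3 t
    exact g2017 n0 u4 u5
  have s2204 : v62 = true → False := fun n0 => by
    have u0 := bf fun t => s2197 t n0
    exact s2203 u0 n0
  have w2204 := bf s2204
  have s2205 : v66 = true → T.alt p r a b d = false → T.alt p r b c d = false → T.X p c a b = true → False := fun n0 n1 n2 n3 => by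
    have u0 := bt fun t => g2034 n0 t
    have u1 := bt fun t => g2035 n0 t
    have u2 := bf fun t => g809 t n3 u0 g2013
    have u3 := bt fun t => g2032 u1 n2 t
    exact g2006 n1 u3 u2
  have s2206 : T.X r c a b = true → T.X p b r c = true → T.alt p a b c d = false → False := fun n0 n1 n2 => by
    have u0 := bt fun t => g2021 w2204 t n1
    have u1 := bf fun t => g12 n1 t
    have u2 := bf fun t => g10 t n1
    have u3 := bf fun t => g1988 t w2151 n2
    have u4 := bf fun t => g32 t n0
    have u5 := bf fun t => g2014 u0 t n0
    have u6 := bf fun t => g1027 w2077 u5 n1 t u4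
    have u7 := bf fun t => g120 t w2077 w2166 u2 u6 u4
    have u8 := bt fun t => g46 u7 t u3
    have u9 := bt fun t => g101 u8 g2011 u5 n1 t n0
    have u10 := bf fun t => s2095 u5 w2166 t u8 u9
    have u11 := bf fun t => g2010 u10 t n2
    have u12 := bf fun t => g1974 u7 t u10
    have u13 := bt fun t => g1976 u8 t u11
    have u14 := bf fun t => s2205 t u12 u11 u9
    have u15 := bt fun t => g2041 g2044 t u14
    have u16 := bt fun t => g2037 u15 w2204 t
    have u17 := bt fun t => g2027 u16 t
    have u18 := bt fun t => g2028 u16 t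
    have u19 := bf fun t => g941 t u9 u17 g2013
    have u20 := bt fun t => g2025 u18 u10 t
    have u21 := bt fun t => g770 n2 t u19
    have u22 := bt fun t => g1982 u3 u20 t
    have u23 := bf fun t => g823 u21 t u17 g2013
    have u24 := bf fun t => g809 u21 u9 t g2013
    have u25 := bt fun t => g614 u22 u1 g2012 u24 t
    have u26 := bf fun t => g279 u13 g2011 t u23
    exact g1482 n1 u26 w2079 u24 u25
  have s2207 : T.X p b r c = true → T.alt p a b c d = false → False := fun n0 n1 => by
    have u0 := bf fun t => g1988 t w2151 n1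
    have u1 := bt fun t => g2021 w2204 t n0
    have u2 := bf fun t => s2206 t n0 n1
    have u3 := bt fun t => g2015 u1 t u2
    have u4 := bf fun t => g143 t g2011 n0 u2
    have u5 := bf fun t => g84 t g2011 u3 u2
    exact g46 u4 u5 u0
  have s2208 : T.alt p r a b c = false → T.X r c a b = false → T.alt p a b c d = false → False := fun n0 n1 n2 => by
    have u0 := bf fun t => s2207 t n2
    have u1 := bf fun t => g2020 w2204 t u0
    have u2 := bf fun t => g2016 u1 t n1
    have u3 := bf fun t => g1988 t w2151 n2
    have u4 := bt fun t => g46 n0 t u3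
    have u5 := bf fun t => g2056 t u3 n0
    have u6 := bt fun t => g74 u4 g2011 u0 t n1
    have u7 := bf fun t => g2059 t u5
    have u8 := bf fun t => s2095 u2 w2166 t u4 u6
    have u9 := bf fun t => g2010 u8 t n2
    have u10 := bf fun t => g1974 n0 t u8
    have u11 := bf fun t => g2063 t w2151 u10
    have u12 := bf fun t => s2205 t u10 u9 u6
    have u13 := bf fun t => g2066 t u11
    have u14 := bt fun t => g2041 g2044 t u12
    have u15 := bt fun t => g2072 g2075 t u13
    have u16 := bt fun t => g2037 u14 w2204 t
    have u17 := bt fun t => g2068 u15 t u7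
    have u18 := bt fun t => g2027 u16 t
    have u19 := bt fun t => g2028 u16 t
    have u20 := bt fun t => g2025 u19 u8 t
    have u21 := bf fun t => g449 u20 u2 w2166 t w2079
    have u22 := bt fun t => g2050 u17 t u21
    have u23 := bf fun t => s2112 u18 u8 t u21 w2166
    exact g2046 u22 w2166 u23
  have s2209 : T.X p a c d = true → T.X p d a b = true → T.X p c a b = true → T.alt p a b c d = false → False := fun n0 n1 n2 n3 => by
    have u0 := bf fun t => g941 t n2 n0 g2013
    have u1 := bf fun t => g823 t n1 n0 g2013
    exact g770 n3 u1 u0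
  have s2210 : T.X p d a b = true → T.X p c a b = true → T.alt p a b c d = false → False := fun n0 n1 n2 => by
    have u0 := bf fun t => s2209 t n0 n1 n2
    have u1 := bf fun t => g2027 t u0
    have u2 := bf fun t => g2037 t w2204 u1
    have u3 := bt fun t => g2041 g2044 u2 t
    have u4 := bt fun t => g2034 u3 t
    have u5 := bf fun t => g809 t n1 u4 g2013
    have u6 := bf fun t => g927 t n0 u4 g2013
    exact g770 n2 u5 u6
  have s2211 : T.X r c a b = false → T.alt p a b c d = false → False := fun n0 n1 => by
    have u0 := bf fun t => s2207 t n1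
    have u1 := bf fun t => g2020 w2204 t u0
    have u2 := bf fun t => g2016 u1 t n0
    have u3 := bt fun t => s2208 t n0 n1
    have u4 := bf fun t => g47 u3 t
    have u5 := bt fun t => g133 u3 g2011 u2 t n0
    have u6 := bf fun t => s2210 t u5 n1
    have u7 := bf fun t => g2065 t u6
    have u8 := bt fun t => g2072 g2075 t u7
    have u9 := bf fun t => s2115 t u8
    have u10 := bf fun t => s2116 t u9
    have u11 := bt fun t => g227 u10 t w2151
    have u12 := bt fun t => g1972 u3 u10 t
    have u13 := bt fun t => g1978 u4 u11 t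
    have u14 := bf fun t => g2023 t u12 u2
    have u15 := bf fun t => g2030 t u13 u0
    have u16 := bf fun t => g2028 t u14
    have u17 := bf fun t => g2035 t u15
    have u18 := bf fun t => g2037 t w2204 u16
    exact g2041 g2044 u18 u17
  have s2212 : T.alt p r a b c = true → T.alt p a b c d = false → False := fun n0 n1 => by
    have u0 := bf fun t => s2207 t n1
    have u1 := bf fun t => g2020 w2204 t u0
    have u2 := bt fun t => s2211 t n1
    have u3 := bt fun t => g2017 u1 t u2
    have u4 := bf fun t => g1988 t w2151 n1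
    have u5 := bf fun t => g47 n0 t
    have u6 := bt fun t => g2055 t u4 n0
    have u7 := bt fun t => g160 n0 g2011 u3 u0 t u2
    have u8 := bt fun t => g2057 t u7 u6
    have u9 := bf fun t => s2210 t u7 n1
    have u10 := bf fun t => g2065 t u9
    have u11 := bt fun t => g2072 g2075 t u10
    have u12 := bf fun t => s2115 t u11
    have u13 := bf fun t => g2067 u11 t u8
    have u14 := bf fun t => s2116 t u12
    have u15 := bt fun t => g227 u14 t w2151
    have u16 := bt fun t => g1978 u5 u15 t
    have u17 := bf fun t => g591 u16 t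
    have u18 := bf fun t => g2030 t u16 u0
    have u19 := bf fun t => s2152 u7 u17 t u13
    have u20 := bf fun t => g2035 t u18
    have u21 := bf fun t => g2027 t u19
    have u22 := bt fun t => g2041 g2044 t u20
    exact g2037 u22 w2204 u21
  have s2213 : T.alt p a b c d = false → False := fun n0 => by
    have u0 := bf fun t => g1988 t w2151 n0
    have u1 := bf fun t => s2207 t n0
    have u2 := bf fun t => g2020 w2204 t u1
    have u3 := bt fun t => s2211 t n0
    have u4 := bf fun t => g33 t u3
    have u5 := bt fun t => g2017 u2 t u3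
    have u6 := bf fun t => g1003 w2076 u5 u1 t u4
    have u7 := bf fun t => g4 t u5
    have u8 := bf fun t => s2212 t n0
    have u9 := bt fun t => g46 u8 t u0
    have u10 := bf fun t => g2056 t u0 u8
    have u11 := bt fun t => g61 u9 w2076 u7 t u6 u4
    have u12 := bf fun t => g2059 t u10
    have u13 := bt fun t => g98 u9 g2011 u11 t
    have u14 := bf fun t => s2210 t u13 n0
    have u15 := bf fun t => g2065 t u14
    have u16 := bt fun t => g2072 g2075 t u15
    have u17 := bf fun t => s2115 t u16
    have u18 := bt fun t => g2068 u16 t u12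
    have u19 := bf fun t => s2116 t u17
    have u20 := bt fun t => g227 u19 t w2151
    have u21 := bf fun t => g1973 u8 u19 t
    have u22 := bf fun t => g1975 u9 u20 t
    have u23 := bf fun t => g279 u20 g2011 t u14
    have u24 := bf fun t => s2205 t u19 u22 u13
    have u25 := bf fun t => g268 u20 w2076 w2077 t u23
    have u26 := bt fun t => g2041 g2044 t u24
    have u27 := bt fun t => g2050 u18 t u25
    have u28 := bt fun t => g2037 u26 w2204 t
    have u29 := bt fun t => g2046 u27 w2166 t
    have u30 := bt fun t => g2027 u28 t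
    exact s2112 u30 u21 u29 u25 w2166
  have w2213 := bt s2213
  have s2214 := fun (n0 : T.alt p a c b d = true) => g771 w2213 n0
  have w2214 := bf s2214
  have s2216 := fun (n0 : T.alt p r c a b = false) => g1989 n0 w2151 w2213
  have w2216 := bt s2216
  have s2223 : T.X p a c d = true → T.X p c a b = false → False := fun n0 n1 => by
    have u0 := bf fun t => g865 w2213 t n0 g2013
    have u1 := bf fun t => g862 w2213 n0 t g2013
    exact s2168 n1 u1 u0
  have s2224 : T.X p a r c = true → False := fun n0 => by
    have u0 := bf fun t => g4 t n0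
    have u1 := bf fun t => g215 w2216 w2076 w2077 n0 t
    have u2 := bf fun t => g210 w2216 g2011 u0 w2166 t
    have u3 := bf fun t => s2223 t u2
    have u4 := bf fun t => g2027 t u3
    have u5 := bf fun t => g2037 t w2204 u4
    have u6 := bt fun t => g2041 g2044 u5 t
    have u7 := bt fun t => g2034 u6 t
    have u8 := bt fun t => g2035 u6 t
    have u9 := bf fun t => g866 w2213 t u7 g2013
    have u10 := bf fun t => g2030 u8 t u1
    have u11 := bt fun t => g2032 u8 u10 t
    have u12 := bf fun t => g2065 t u9
    have u13 := bt fun t => g2006 t u11 w2214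
    have u14 := bt fun t => g2072 g2075 t u12
    have u15 := bt fun t => g2062 t w2151 u13
    exact s2115 u15 u14
  have w2224 := bf s2224
  have s2225 : T.X p c a b = false → T.X p b r c = true → False := fun n0 n1 => by
    have u0 := bt fun t => s2198 t n0 n1
    have u1 := bf fun t => s2223 t n0
    have u2 := bf fun t => g866 w2213 u0 t g2013
    have u3 := bf fun t => g2027 t u1
    have u4 := bf fun t => g2034 t u2
    have u5 := bf fun t => g2037 t w2204 u3
    exact g2041 g2044 u5 u4
  have s2226 : T.X r c a b = true → False := fun n0 => by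
    have u0 := bt fun t => g2017 t w2224 n0
    have u1 := bt fun t => g2020 w2204 u0 t
    have u2 := bt fun t => s2225 t u1
    have u3 := bf fun t => g21 t u2
    have u4 := bt fun t => g1015 g2011 t w2224 w2166 u2 n0
    exact g216 w2216 u4 u1 u3
  have w2226 := bf s2226
  have s2228 := fun (n0 : T.X p c a b = true) => g197 w2216 g2011 n0 w2226
  have w2228 := bf s2228
  have s2230 := fun (n0 : T.X p a c d = true) => s2223 n0 w2228
  have w2230 := bf s2230
  have s2231 := fun (n0 : v64 = true) => g2027 n0 w2230
  have w2231 := bf s2231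
  have s2232 := fun (n0 : v67 = true) => g2037 n0 w2204 w2231
  have w2232 := bf s2232
  have s2233 := fun (n0 : T.alt p r b a d = true) => s2121 w2216 w2226 n0 w2224 w2231
  have w2233 := bf s2233
  have s2234 := fun (n0 : v66 = false) => g2041 g2044 w2232 n0
  have w2234 := bt s2234
  have s2235 := fun (n0 : T.alt p r a b d = false) => g227 n0 w2233 w2151
  have w2235 := bt s2235
  have s2238 := fun (n0 : T.X p b c d = false) => g2034 w2234 n0
  have w2238 := bt s2238
  have s2240 := fun (n0 : T.bfo p a b d r = false) => g2062 n0 w2151 w2235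
  have w2240 := bt s2240
  have s2245 := fun (n0 : T.X p d a b = true) => g866 w2213 n0 w2238 g2013
  have w2245 := bf s2245
  have s2246 := fun (n0 : v75 = true) => s2115 w2240 n0
  have w2246 := bf s2246
  have s2249 := fun (n0 : v74 = true) => g2065 n0 w2245
  have w2249 := bf s2249
  exact g2072 g2075 w2246 w2249

theorem fl_t5 {p r a b d : V} (hN : [p, r, a, b, d].Nodup) (h0 : T.X p r a b = true) (h1 : T.X p r a d = true)
    (h2 : T.lto p r d a a b = false) (h3 : T.lto p r b a a d = false) : False := by
  obtain ⟨v19, e19⟩ : ∃ v : Bool, v = (T.X p a r d ^^ T.X r d a b) := ⟨_, rfl⟩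
  obtain ⟨v20, e20⟩ : ∃ v : Bool, v = (v19 ^^ T.X p b r d) := ⟨_, rfl⟩
  have B21 : T.bfo p d a b r = (bif T.alt p r b a d then T.X p b r d else T.alt p r d a b) :=
    T.bfo_eq (T.as7 p d a b r) (T.xs2 p b d r) (T.as3 p d r b a)
  obtain ⟨v22, e22⟩ : ∃ v : Bool, v = (T.X p b a d && T.bfo p d a b r) := ⟨_, rfl⟩
  have L23 : T.lto p r d a a b = (v20 ^^ v22) :=
    T.lto_eqa (T.xs6 d r p a) (T.xs1 d r a b) (T.xs7 d r b p) (T.xs2 p b d a) e19 e20 e22
  obtain ⟨v24, e24⟩ : ∃ v : Bool, v = (T.X p a r b ^^ T.X r b a d) := ⟨_, rfl⟩
  obtain ⟨v25, e25⟩ : ∃ v : Bool, v = (v24 ^^ T.X p d r b) := ⟨_, rfl⟩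
  have B26 : T.bfo p b a d r = (bif T.alt p r d a b then T.X p d r b else T.alt p r b a d) :=
    T.bfo_eq (T.as7 p b a d r) (T.xs2 p d b r) (T.as3 p b r d a)
  obtain ⟨v27, e27⟩ : ∃ v : Bool, v = (T.X p d a b && T.bfo p b a d r) := ⟨_, rfl⟩
  have L28 : T.lto p r b a a d = (v25 ^^ v27) :=
    T.lto_eqa (T.xs6 b r p a) (T.xs1 b r a d) (T.xs7 b r d p) (T.xs2 p d b a) e24 e25 e27
  have k0 : T.Ok5 p r a b d := T.n5 hN (.cons_cons _ (.cons_cons _ (.cons_cons _ (.cons_cons _ (.cons_cons _ (List.nil_sublist _))))))
  have g1 := T.q01 p r a b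
  have g2 := T.q02 p r a b
  have g4 := T.q01 p r a d
  have g5 := T.q02 p r a d
  have g7 := T.q01 p r b d
  have g9 := T.q12 p r b d
  have g10 := T.q01 p a b d
  have g12 := T.q12 p a b d
  have g14 := T.q02 r a b d
  have g15 := T.q12 r a b d
  have g16 := T.ae1 k0
  have g19 := T.ae12 k0
  have g44 := fun ha : T.alt p r b a d = true => zA1_18561_1 (T.okA1 k0 ha)
  have g49 := fun ha : T.alt p r b a d = true => zA1_9224_1032 (T.okA1 k0 ha)
  have g58 := fun ha : T.alt p r b a d = true => zA1_9482_8200 (T.okA1 k0 ha)
  have g68 := fun ha : T.alt p r b a d = true => zA1_2305_257 (T.okA1 k0 ha)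
  have g90 := fun ha : T.alt p r a b d = true => zA0_4708_0 (T.okA0 k0 ha)
  have g100 := fun ha : T.alt p r a b d = true => zA0_9226_8 (T.okA0 k0 ha)
  have g103 := fun ha : T.alt p r a b d = true => zA0_18449_1 (T.okA0 k0 ha)
  have g116 := fun ha : T.alt p r a b d = true => zA0_294_256 (T.okA0 k0 ha)
  have g162 := fun ha : T.alt p r d a b = true => zA2_9480_8 (T.okA2 k0 ha)
  have g170 := fun ha : T.alt p r d a b = true => zA2_16513_129 (T.okA2 k0 ha)
  have g176 := fun ha : T.alt p r d a b = true => zA2_18577_16385 (T.okA2 k0 ha)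
  have g321 := z5_19593_16521 k0
  have g323 := z5_11529_8457 k0
  have g324 := z5_26889_2313 k0
  have g367 : T.X p r a b = true := h0
  have g368 : T.X p r a d = true := h1
  have g370 := xr2 e19
  have g372 := xr4 e19
  have g373 := xr1 e20
  have g374 := xr2 e20
  have g375 := xr3 e20
  have g376 := xr4 e20
  have g379 := it3 B21
  have g380 := it4 B21
  have g381 := an0 e22
  have g382 := an1 e22
  have g383 := an2 e22
  have g386 := xr3 L23
  have g387 := xr4 L23
  have g388 : T.lto p r d a a b = false := h2
  have g390 := xr2 e24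
  have g392 := xr4 e24
  have g393 := xr1 e25
  have g394 := xr2 e25
  have g395 := xr3 e25
  have g396 := xr4 e25
  have g397 := it1 B26
  have g398 := it2 B26
  have g399 := it3 B26
  have g400 := it4 B26
  have g401 := an0 e27
  have g402 := an1 e27
  have g403 := an2 e27
  have g406 := xr3 L28
  have g407 := xr4 L28
  have g408 : T.lto p r b a a d = false := h3
  have s409 := fun (n0 : T.X p a r b = true) => g1 g367 n0
  have w409 := bf s409
  have s410 := fun (n0 : T.X p b r a = true) => g2 g367 n0
  have w410 := bf s410
  have s411 := fun (n0 : T.X p a r d = true) => g4 g368 n0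
  have w411 := bf s411
  have s412 := fun (n0 : T.X p d r a = true) => g5 g368 n0
  have w412 := bf s412
  have s413 := fun (n0 : v19 = true) (n1 : T.X r d a b = false) => g370 n0 w411 n1
  have s414 := fun (n0 : v19 = false) (n1 : T.X r d a b = true) => g372 n0 w411 n1
  have s415 := fun (n0 : v24 = true) (n1 : T.X r b a d = false) => g390 n0 w409 n1
  have s416 := fun (n0 : v24 = false) (n1 : T.X r b a d = true) => g392 n0 w409 n1
  have s417 : v24 = true → v27 = true → False := fun n0 n1 => by
    have u0 := bt fun t => g402 n1 t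
    have u1 := bf fun t => g12 t u0
    have u2 := bt fun t => g407 g408 t n1
    have u3 := bt fun t => g403 n1 t
    have u4 := bt fun t => s415 n0 t
    have u5 := bf fun t => g393 u2 n0 t
    have u6 := bf fun t => g58 t w409 g368 u5 u1 u4
    have u7 := bf fun t => g398 u3 t u5
    exact g400 u3 u7 u6
  have s418 : v27 = true → False := fun n0 => by
    have u0 := bt fun t => g402 n0 t
    have u1 := bt fun t => g407 g408 t n0
    have u2 := bf fun t => g12 t u0
    have u3 := bf fun t => g382 t u2
    have u4 := bf fun t => g386 g388 t u3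
    have u5 := bf fun t => s417 t n0
    have u6 := bf fun t => s416 u5 t
    have u7 := bt fun t => g394 u1 u5 t
    have u8 := bf fun t => g9 t u7
    have u9 := bt fun t => g324 g367 g368 u7 u0 u6 t
    have u10 := bf fun t => g375 u4 t u8
    exact s414 u10 u9
  have w418 := bf s418
  have s419 := fun (n0 : v25 = true) => g406 g408 n0 w418
  have w419 := bf s419
  have s420 : T.X p b r d = false → v20 = false → T.alt p r b a d = true → T.X p d a b = false → False := fun n0 n1 n2 n3 => by
    have u0 := bf fun t => g375 n1 t n0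
    have u1 := bt fun t => g44 n2 g367 n0 n3 t
    exact s414 u0 u1
  have s421 : v24 = false → T.bfo p b a d r = true → False := fun n0 n1 => by
    have u0 := bf fun t => g401 w418 t n1
    have u1 := bf fun t => s416 n0 t
    have u2 := bf fun t => g396 w419 n0 t
    have u3 := bf fun t => g398 n1 t u2
    have u4 := bt fun t => g400 n1 u3 t
    have u5 := bf fun t => g49 u4 g368 t u1
    have u6 := bf fun t => g382 t u5
    have u7 := bf fun t => g386 g388 t u6
    have u8 := bt fun t => s420 t u7 u4 u0
    have u9 := bf fun t => g321 g367 g368 u8 u5 u0 t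
    have u10 := bt fun t => g376 u7 t u8
    exact s413 u10 u9
  have s422 : T.bfo p b a d r = true → False := fun n0 => by
    have u0 := bf fun t => g401 w418 t n0
    have u1 := bt fun t => s421 t n0
    have u2 := bt fun t => s415 u1 t
    have u3 := bt fun t => g395 w419 u1 t
    have u4 := bf fun t => g15 u2 t
    have u5 := bf fun t => g9 t u3
    have u6 := bf fun t => g68 t g367 u3 u0
    have u7 := bt fun t => g323 g367 g368 u3 t u0 u2
    have u8 := bf fun t => s413 t u4
    have u9 := bt fun t => g400 n0 t u6
    have u10 := bf fun t => g374 t u8 u5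
    have u11 := bt fun t => g379 t u6 u9
    have u12 := bf fun t => g387 g388 u10 t
    exact g381 u12 u7 u11
  have w422 := bf s422
  have s423 : v19 = false → T.alt p r d a b = true → False := fun n0 n1 => by
    have u0 := bf fun t => g19 t n1
    have u1 := bt fun t => g379 t u0 n1
    have u2 := bf fun t => g397 w422 n1 t
    have u3 := bf fun t => g395 w419 t u2
    have u4 := bf fun t => s416 u3 t
    have u5 := bt fun t => g162 n1 g368 u2 t u4
    have u6 := bt fun t => g381 t u5 u1
    have u7 := bt fun t => g387 g388 t u6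
    have u8 := bf fun t => s414 n0 t
    have u9 := bt fun t => g374 u7 n0 t
    exact g170 n1 g367 u9 u8
  have s424 : T.alt p r d a b = true → False := fun n0 => by
    have u0 := bf fun t => g19 t n0
    have u1 := bf fun t => g397 w422 n0 t
    have u2 := bt fun t => g379 t u0 n0
    have u3 := bf fun t => g395 w419 t u1
    have u4 := bf fun t => s416 u3 t
    have u5 := bt fun t => g162 n0 g368 u1 t u4
    have u6 := bf fun t => g12 u5 t
    have u7 := bt fun t => g381 t u5 u2
    have u8 := bt fun t => g387 g388 t u7
    have u9 := bt fun t => s423 t n0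
    have u10 := bt fun t => s413 u9 t
    have u11 := bf fun t => g373 u8 u9 t
    exact g176 n0 g367 w411 u11 u6 u10
  have w424 := bf s424
  have s425 := fun (n0 : T.alt p r b a d = true) => g399 w422 w424 n0
  have w425 := bf s425
  have s426 := fun (n0 : T.alt p r a b d = false) => g16 n0 w425 w424
  have w426 := bt s426
  have s427 := fun (n0 : T.bfo p d a b r = true) => g380 n0 w425 w424
  have w427 := bf s427
  have s428 := fun (n0 : T.X p d r b = true) => g116 w426 w409 w410 w412 n0
  have w428 := bf s428
  have s429 := fun (n0 : v22 = true) => g383 n0 w427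
  have w429 := bf s429
  have s430 := fun (n0 : v24 = true) => g395 w419 n0 w428
  have w430 := bf s430
  have s431 := fun (n0 : v20 = true) => g386 g388 n0 w429
  have w431 := bf s431
  have s432 := fun (n0 : T.X r b a d = true) => s416 w430 n0
  have w432 := bf s432
  have s433 := fun (n0 : T.X p b a d = false) => g100 w426 w409 g368 n0 w432
  have w433 := bt s433
  have s434 := fun (n0 : T.X p a b d = true) => g10 n0 w433
  have w434 := bf s434
  have s435 := fun (n0 : T.X p d a b = true) => g12 w433 n0
  have w435 := bf s435
  have s436 := fun (n0 : T.X r d a b = false) => g103 w426 g367 w411 w435 n0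
  have w436 := bt s436
  have s437 := fun (n0 : T.X r a b d = true) => g14 n0 w436
  have w437 := bf s437
  have s438 := fun (n0 : v19 = false) => s414 n0 w436
  have w438 := bt s438
  have s439 := fun (n0 : T.X p r b d = false) => g90 w426 w410 w412 n0 w434 w437
  have w439 := bt s439
  have s440 := fun (n0 : T.X p b r d = false) => g375 w431 w438 n0
  have w440 := bt s440
  exact g7 w439 w440

theorem fl_a5 {p r a b d : V} (hN : [p, r, a, b, d].Nodup) (h0 : T.X p r a b = true) (h1 : T.X p r a d = true)
    (h2 : T.lto p r d a a b = true) (h3 : T.lto p r b a a d = true) : False := by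
  obtain ⟨v19, e19⟩ : ∃ v : Bool, v = (T.X p a r d ^^ T.X r d a b) := ⟨_, rfl⟩
  obtain ⟨v20, e20⟩ : ∃ v : Bool, v = (v19 ^^ T.X p b r d) := ⟨_, rfl⟩
  have B21 : T.bfo p d a b r = (bif T.alt p r b a d then T.X p b r d else T.alt p r d a b) :=
    T.bfo_eq (T.as7 p d a b r) (T.xs2 p b d r) (T.as3 p d r b a)
  obtain ⟨v22, e22⟩ : ∃ v : Bool, v = (T.X p b a d && T.bfo p d a b r) := ⟨_, rfl⟩
  have L23 : T.lto p r d a a b = (v20 ^^ v22) :=
    T.lto_eqa (T.xs6 d r p a) (T.xs1 d r a b) (T.xs7 d r b p) (T.xs2 p b d a) e19 e20 e22
  obtain ⟨v24, e24⟩ : ∃ v : Bool, v = (T.X p a r b ^^ T.X r b a d) := ⟨_, rfl⟩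
  obtain ⟨v25, e25⟩ : ∃ v : Bool, v = (v24 ^^ T.X p d r b) := ⟨_, rfl⟩
  have B26 : T.bfo p b a d r = (bif T.alt p r d a b then T.X p d r b else T.alt p r b a d) :=
    T.bfo_eq (T.as7 p b a d r) (T.xs2 p d b r) (T.as3 p b r d a)
  obtain ⟨v27, e27⟩ : ∃ v : Bool, v = (T.X p d a b && T.bfo p b a d r) := ⟨_, rfl⟩
  have L28 : T.lto p r b a a d = (v25 ^^ v27) :=
    T.lto_eqa (T.xs6 b r p a) (T.xs1 b r a d) (T.xs7 b r d p) (T.xs2 p d b a) e24 e25 e27
  have k0 : T.Ok5 p r a b d := T.n5 hN (.cons_cons _ (.cons_cons _ (.cons_cons _ (.cons_cons _ (.cons_cons _ (List.nil_sublist _))))))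
  have g1 := T.q01 p r a b
  have g2 := T.q02 p r a b
  have g4 := T.q01 p r a d
  have g5 := T.q02 p r a d
  have g9 := T.q12 p r b d
  have g12 := T.q12 p a b d
  have g15 := T.q12 r a b d
  have g16 := T.ae1 k0
  have g52 := fun ha : T.alt p r b a d = true => zA1_8456_264 (T.okA1 k0 ha)
  have g58 := fun ha : T.alt p r b a d = true => zA1_9482_8200 (T.okA1 k0 ha)
  have g95 := fun ha : T.alt p r a b d = true => zA0_18576_128 (T.okA0 k0 ha)
  have g128 := fun ha : T.alt p r a b d = true => zA0_8456_264 (T.okA0 k0 ha)
  have g170 := fun ha : T.alt p r d a b = true => zA2_16513_129 (T.okA2 k0 ha)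
  have g244 := z5_18706_16640 k0
  have g254 := z5_9362_8320 k0
  have g277 := z5_18596_2176 k0
  have g281 := z5_9508_1280 k0
  have g283 := z5_18881_18433 k0
  have g289 := z5_9672_9224 k0
  have g295 := z5_9281_9281 k0
  have g304 := z5_18504_18504 k0
  have g367 : T.X p r a b = true := h0
  have g368 : T.X p r a d = true := h1
  have g370 := xr2 e19
  have g372 := xr4 e19
  have g373 := xr1 e20
  have g374 := xr2 e20
  have g376 := xr4 e20
  have g377 := it1 B21
  have g381 := an0 e22
  have g382 := an1 e22
  have g384 := xr1 L23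
  have g385 := xr2 L23
  have g388 : T.lto p r d a a b = true := h2
  have g390 := xr2 e24
  have g392 := xr4 e24
  have g393 := xr1 e25
  have g394 := xr2 e25
  have g396 := xr4 e25
  have g397 := it1 B26
  have g401 := an0 e27
  have g402 := an1 e27
  have g404 := xr1 L28
  have g405 := xr2 L28
  have g408 : T.lto p r b a a d = true := h3
  have s409 := fun (n0 : T.X p a r b = true) => g1 g367 n0
  have w409 := bf s409
  have s410 := fun (n0 : T.X p b r a = true) => g2 g367 n0
  have w410 := bf s410
  have s411 := fun (n0 : T.X p a r d = true) => g4 g368 n0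
  have w411 := bf s411
  have s412 := fun (n0 : T.X p d r a = true) => g5 g368 n0
  have w412 := bf s412
  have s413 := fun (n0 : v19 = true) (n1 : T.X r d a b = false) => g370 n0 w411 n1
  have s414 := fun (n0 : v19 = false) (n1 : T.X r d a b = true) => g372 n0 w411 n1
  have s415 := fun (n0 : v24 = true) (n1 : T.X r b a d = false) => g390 n0 w409 n1
  have s416 := fun (n0 : v24 = false) (n1 : T.X r b a d = true) => g392 n0 w409 n1
  have s417 : T.X r b a d = true → T.X p b a d = false → False := fun n0 n1 => by
    have u0 := bf fun t => g382 t n1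
    have u1 := bt fun t => g385 g388 t u0
    have u2 := bf fun t => g15 n0 t
    have u3 := bf fun t => g254 w409 w411 t n1 n0
    have u4 := bf fun t => s413 t u2
    exact g374 u1 u4 u3
  have s418 : v19 = false → T.X p d a b = true → False := fun n0 n1 => by
    have u0 := bf fun t => g12 t n1
    have u1 := bf fun t => g382 t u0
    have u2 := bt fun t => g385 g388 t u1
    have u3 := bf fun t => s414 n0 t
    have u4 := bt fun t => g374 u2 n0 t
    exact g277 w410 w412 u4 n1 u3
  have s419 : v27 = true → False := fun n0 => by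
    have u0 := bt fun t => g402 n0 t
    have u1 := bf fun t => g404 g408 t n0
    have u2 := bf fun t => g12 t u0
    have u3 := bf fun t => g382 t u2
    have u4 := bt fun t => g385 g388 t u3
    have u5 := bf fun t => s417 t u2
    have u6 := bf fun t => s415 t u5
    have u7 := bf fun t => g396 u1 u6 t
    have u8 := bt fun t => s418 t u0
    have u9 := bt fun t => s413 u8 t
    have u10 := bf fun t => g373 u4 u8 t
    have u11 := bf fun t => g304 g368 t u0 u9
    exact g283 g367 u11 u10 u7 u0 u9
  have w419 := bf s419
  have s420 := fun (n0 : v25 = false) => g405 g408 n0 w419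
  have w420 := bt s420
  have s421 : T.X r d a b = true → False := fun n0 => by
    have u0 := bf fun t => g15 t n0
    have u1 := bf fun t => s415 t u0
    have u2 := bt fun t => g394 w420 u1 t
    have u3 := bf fun t => g128 t g368 u2 u0
    have u4 := bf fun t => g52 t g368 u2 u0
    have u5 := bt fun t => g244 w409 w411 u2 t n0
    have u6 := bt fun t => g16 u3 u4 t
    have u7 := bf fun t => g401 w419 u5 t
    exact g397 u7 u6 u2
  have w421 := bf s421
  have s422 := fun (n0 : v19 = true) => s413 n0 w421
  have w422 := bf s422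
  have s423 := fun (n0 : T.X p d a b = true) => s418 w422 n0
  have w423 := bf s423
  have s424 : v20 = true → False := fun n0 => by
    have u0 := bf fun t => g384 g388 n0 t
    have u1 := bt fun t => g374 n0 w422 t
    have u2 := bf fun t => g9 u1 t
    have u3 := bf fun t => g95 t w411 u1 w423 w421
    have u4 := bf fun t => g170 t g367 u1 w421
    have u5 := bt fun t => g394 w420 t u2
    have u6 := bt fun t => g16 u3 t u4
    have u7 := bt fun t => s415 u5 t
    have u8 := bt fun t => g377 t u6 u1
    have u9 := bt fun t => g58 u6 w409 g368 u2 t u7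
    exact g381 u0 u9 u8
  have w424 := bf s424
  have s426 := fun (n0 : T.X p b r d = true) => g376 w424 w422 n0
  have w426 := bf s426
  have s427 := fun (n0 : v22 = false) => g385 g388 w424 n0
  have w427 := bt s427
  have s429 := fun (n0 : T.X p b a d = false) => g382 w427 n0
  have w429 := bt s429
  have s433 : v24 = true → False := fun n0 => by
    have u0 := bt fun t => s415 n0 t
    have u1 := bf fun t => g393 w420 n0 t
    have u2 := bf fun t => g295 g367 t w429 u0
    exact g289 g368 u2 w426 u1 w429 u0
  have w433 := bf s433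
  have s434 := fun (n0 : T.X r b a d = true) => s416 w433 n0
  have w434 := bf s434
  have s435 := fun (n0 : T.X p d r b = false) => g394 w420 w433 n0
  have w435 := bt s435
  exact g281 w410 w412 w435 w429 w434

end H53P
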