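import Pool.Agent.Lib.H63L.FB
import Pool.Agent.Lib.H63L.GL

/-!
# H63L, chunk FL: the order of two edges along a ray, fields `lts1`, `lts2`, `ltt`, `lta`

All statements are about `Al p` (the vertices different from the pole); `cr_ne` gives `r ≠ a, b, c, d`, `a ≠ b`,
`c ≠ d`. Use `nd5`, `nd6` (H98S/RAY) for the `Nodup` hypotheses, `sne` for the values.
-/

set_option autoImplicit false

namespace H53P

open H63L

variable {V : Type} {T : Table V} {p : V}

private theorem FL_nd {r a b c d : Al p} (h1 : cr T p a b r) (h2 : cr T p c d r) (hac : a ≠ c) (had : a ≠ d)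
    (hbc : b ≠ c) (hbd : b ≠ d) : [p, r.1, a.1, b.1, c.1, d.1].Nodup := by
  have d1 := cr_ne h1
  have d2 := cr_ne h2
  exact nd6 d1.2.1 d1.2.2 d2.2.1 d2.2.2 d1.1 hac had hbc hbd d2.1

private theorem FL_lto (T : Table V) (p r c d a b : V) : T.lto p r c d a b = T.lto p r c d b a := by
  unfold Table.lto Table.ctr
  rw [T.xs2 c r b p, T.xs2 c r a p, T.xs2 c r b a]
  generalize T.X c r p a = x1
  generalize T.X c r a b = x2
  generalize T.X c r p b = x3
  generalize (T.X p a c d && T.bfo p c d a r) = x4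
  generalize (T.X p b c d && T.bfo p c d b r) = x5
  cases x1 <;> cases x2 <;> cases x3 <;> cases x4 <;> cases x5 <;> rfl

/-- PROOF. Unfold `flt`, `Table.lte`. If `c` and `d` are not ends of `ab`, then all six points are different
and `fl_e` gives the claim (`T.lto p r d c a b` is true or false). If `c ∈ {a, b}` then `d ∉ {a, b}` (`hs`, `c ≠ d`)
and both sides are `T.lto p r d c a b = true`. If `d ∈ {a, b}` then `c ∉ {a, b}` and both sides are
`T.lto p r c d a b = true`. -/
theorem flt_e {r a b c d : Al p} (h1 : cr T p a b r) (h2 : cr T p c d r) (hn : fnx T p a b c d)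
    (hs : ¬ SameE a b c d) (h : flt T p r c d a b) : flt T p r d c a b := by
  have hcd : c ≠ d := (cr_ne h2).1
  unfold flt Table.lte at h ⊢
  rcases h with ⟨hca, hcb, h⟩ | ⟨hc, h⟩
  · by_cases hda : d = a
    · right
      exact ⟨Or.inl (congrArg Subtype.val hda), h⟩
    · by_cases hdb : d = b
      · right
        exact ⟨Or.inr (congrArg Subtype.val hdb), h⟩
      · left
        have hca' : c ≠ a := fun e => hca (congrArg Subtype.val e)
        have hcb' : c ≠ b := fun e => hcb (congrArg Subtype.val e)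
        refine ⟨sne hda, sne hdb, ?_⟩
        cases hh : T.lto p r.1 d.1 c.1 a.1 b.1 with
        | true => rfl
        | false =>
          exact (fl_e T (FL_nd h1 h2 (Ne.symm hca') (Ne.symm hda) (Ne.symm hcb') (Ne.symm hdb)) h1 h2 hn h hh).elim
  · left
    rcases hc with hc | hc
    · have hc' : c = a := Subtype.ext hc
      refine ⟨fun e => hcd (hc'.trans (Subtype.ext e).symm), fun e => ?_, h⟩
      exact hs (Or.inl ⟨hc'.symm, (Subtype.ext e).symm⟩)
    · have hc' : c = b := Subtype.ext hc
      refine ⟨fun e => ?_, fun e => hcd (hc'.trans (Subtype.ext e).symm), h⟩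
      exact hs (Or.inr ⟨(Subtype.ext e).symm, hc'.symm⟩)

/-- PROOF. `T.lto p r c d a b = T.lto p r c d b a`: unfold `Table.lto`, `Table.ctr`, use `T.xs1`, `T.xs2`, ... to
bring the atoms into the same form and generalize (or `Bool.xor_comm`, `Bool.xor_assoc`). The side conditions
are symmetric in `a`, `b`. -/
theorem flt_s {r a b c d : Al p} (h1 : cr T p a b r) (h2 : cr T p c d r) (hn : fnx T p a b c d)
    (hs : ¬ SameE a b c d) (h : flt T p r c d a b) : flt T p r c d b a := by
  unfold flt Table.lte at h ⊢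
  rcases h with ⟨hca, hcb, h⟩ | ⟨hc, h⟩
  · left
    refine ⟨hcb, hca, ?_⟩
    rw [← FL_lto]
    exact h
  · right
    refine ⟨hc.symm, ?_⟩
    rw [← FL_lto]
    exact h

private theorem FL_same {α : Type} {a b c d : α} (h : ¬ SameE a b c d) : ¬ SameE b a c d :=
  fun k => h (k.elim (fun k => Or.inr ⟨k.2, k.1⟩) (fun k => Or.inl ⟨k.2, k.1⟩))

private theorem FL_same' {α : Type} {a b c d : α} (h : ¬ SameE a b c d) : ¬ SameE a b d c :=
  fun k => h (k.elim (fun k => Or.inr ⟨k.1, k.2⟩) (fun k => Or.inl ⟨k.1, k.2⟩))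

private theorem FL_same'' {α : Type} {a b c d : α} (h : ¬ SameE a b c d) : ¬ SameE c d a b :=
  fun k => h (k.elim (fun k => Or.inl ⟨k.1.symm, k.2.symm⟩) (fun k => Or.inr ⟨k.2.symm, k.1.symm⟩))

private theorem FL_nx1 {a b c d : Al p} (h : fnx T p a b c d) : fnx T p b a c d := by
  unfold fnx at h ⊢
  rw [T.xs1]
  exact h

private theorem FL_nx2 {a b c d : Al p} (h : fnx T p a b c d) : fnx T p a b d c := by
  unfold fnx at h ⊢
  rw [T.xs2]
  exact h

private theorem FL_nx4 {a b c d : Al p} (h : fnx T p a b c d) : fnx T p c d a b := by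
  unfold fnx at h ⊢
  rw [T.xs4]
  exact h

/-- exchange the ends of the second edge, both directions -/
private theorem FL_is {r a b c d : Al p} (h1 : cr T p a b r) (h2 : cr T p c d r) (hn : fnx T p a b c d)
    (hs : ¬ SameE a b c d) : flt T p r c d a b ↔ flt T p r c d b a :=
  ⟨fun h => flt_s h1 h2 hn hs h, fun h => flt_s (cr_symm _ _ _ h1) h2 (FL_nx1 hn) (FL_same hs) h⟩

/-- exchange the ends of the first edge, both directions -/
private theorem FL_ie {r a b c d : Al p} (h1 : cr T p a b r) (h2 : cr T p c d r) (hn : fnx T p a b c d)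
    (hs : ¬ SameE a b c d) : flt T p r c d a b ↔ flt T p r d c a b :=
  ⟨fun h => flt_e h1 h2 hn hs h, fun h => flt_e h1 (cr_symm _ _ _ h2) (FL_nx2 hn) (FL_same' hs) h⟩

/-- Both relations do not change if the ends of the first edge are exchanged. -/
private theorem FL_r1 {r a b c d : Al p} (h1 : cr T p a b r) (h2 : cr T p c d r) (hn : fnx T p a b c d)
    (hs : ¬ SameE a b c d) : (flt T p r a b c d ↔ flt T p r b a c d) ∧ (flt T p r c d a b ↔ flt T p r c d b a) :=
  ⟨FL_ie h2 h1 (FL_nx4 hn) (FL_same'' hs), FL_is h1 h2 hn hs⟩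

/-- Both relations do not change if the ends of the second edge are exchanged. -/
private theorem FL_r2 {r a b c d : Al p} (h1 : cr T p a b r) (h2 : cr T p c d r) (hn : fnx T p a b c d)
    (hs : ¬ SameE a b c d) : (flt T p r a b c d ↔ flt T p r a b d c) ∧ (flt T p r c d a b ↔ flt T p r d c a b) :=
  ⟨FL_is h2 h1 (FL_nx4 hn) (FL_same'' hs), FL_ie h1 h2 hn hs⟩

private theorem FL_core {r a b d : Al p} (h1 : cr T p a b r) (h2 : cr T p a d r) (hs : ¬ SameE a b a d) :
    (flt T p r a b a d ∨ flt T p r a d a b) ∧ (flt T p r a b a d → ¬ flt T p r a d a b) := by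
  have hbd : b ≠ d := fun e => hs (Or.inl ⟨rfl, e⟩)
  have d1 := cr_ne h1
  have d2 := cr_ne h2
  have hN : [p, r.1, a.1, b.1, d.1].Nodup := nd5 d1.2.1 d1.2.2 d2.2.2 d1.1 d2.1 hbd
  have e1 : flt T p r a b a d ↔ T.lto p r.1 b.1 a.1 a.1 d.1 = true := by
    unfold flt Table.lte
    constructor
    · rintro (⟨h, _⟩ | ⟨_, h⟩)
      · exact absurd rfl h
      · exact h
    · intro h
      exact Or.inr ⟨Or.inl rfl, h⟩
  have e2 : flt T p r a d a b ↔ T.lto p r.1 d.1 a.1 a.1 b.1 = true := by
    unfold flt Table.lte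
    constructor
    · rintro (⟨h, _⟩ | ⟨_, h⟩)
      · exact absurd rfl h
      · exact h
    · intro h
      exact Or.inr ⟨Or.inl rfl, h⟩
  rw [e1, e2]
  constructor
  · cases k1 : T.lto p r.1 b.1 a.1 a.1 d.1 with
    | true => exact Or.inl rfl
    | false =>
      cases k2 : T.lto p r.1 d.1 a.1 a.1 b.1 with
      | true => exact Or.inr rfl
      | false => exact (fl_t5 T hN h1 h2 k2 k1).elim
  · intro k1 k2
    exact fl_a5 T hN h1 h2 k2 k1

private theorem FL_all {r a b c d : Al p} (h1 : cr T p a b r) (h2 : cr T p c d r) (hn : fnx T p a b c d)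
    (hs : ¬ SameE a b c d) :
    (flt T p r a b c d ∨ flt T p r c d a b) ∧ (flt T p r a b c d → ¬ flt T p r c d a b) := by
  by_cases hac : a = c
  · subst hac
    exact FL_core h1 h2 hs
  by_cases had : a = d
  · subst had
    have k := FL_r2 h1 h2 hn hs
    rw [k.1, k.2]
    exact FL_core h1 (cr_symm _ _ _ h2) (FL_same' hs)
  by_cases hbc : b = c
  · subst hbc
    have k := FL_r1 h1 h2 hn hs
    rw [k.1, k.2]
    exact FL_core (cr_symm _ _ _ h1) h2 (FL_same hs)
  by_cases hbd : b = d
  · subst hbd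
    have k := FL_r1 h1 h2 hn hs
    have k' := FL_r2 (cr_symm _ _ _ h1) h2 (FL_nx1 hn) (FL_same hs)
    rw [k.1, k.2, k'.1, k'.2]
    exact FL_core (cr_symm _ _ _ h1) (cr_symm _ _ _ h2) (FL_same' (FL_same hs))
  have hN := FL_nd h1 h2 hac had hbc hbd
  have e1 : flt T p r a b c d ↔ T.lto p r.1 a.1 b.1 c.1 d.1 = true := by
    unfold flt Table.lte
    constructor
    · rintro (⟨_, _, h⟩ | ⟨h | h, _⟩)
      · exact h
      · exact absurd (Subtype.ext h) hac
      · exact absurd (Subtype.ext h) had
    · intro h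
      exact Or.inl ⟨sne hac, sne had, h⟩
  have e2 : flt T p r c d a b ↔ T.lto p r.1 c.1 d.1 a.1 b.1 = true := by
    unfold flt Table.lte
    constructor
    · rintro (⟨_, _, h⟩ | ⟨h | h, _⟩)
      · exact h
      · exact absurd (Subtype.ext h).symm hac
      · exact absurd (Subtype.ext h).symm hbc
    · intro h
      exact Or.inl ⟨sne (Ne.symm hac), sne (Ne.symm hbc), h⟩
  rw [e1, e2]
  constructor
  · cases k1 : T.lto p r.1 a.1 b.1 c.1 d.1 with
    | true => exact Or.inl rfl
    | false =>
      cases k2 : T.lto p r.1 c.1 d.1 a.1 b.1 with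
      | true => exact Or.inr rfl
      | false => exact (fl_t T hN h1 h2 hn k2 k1).elim
  · intro k1 k2
    exact fl_a T hN h1 h2 hn k2 k1

/-- PROOF. If the four ends are different: `fl_t`. Otherwise (four cases; exactly one common end by `hs`) use
`cr_symm`, `flt_e`, `flt_s` (they are also valid for the exchanged edges: `fnx` by `T.xs4`, `SameE` symmetric) to
reduce to the common end `a = c`: then `flt r a b a d` is `T.lto p r b a a d = true` and `flt r a d a b` is
`T.lto p r d a a b = true`, and `fl_t5` applies. -/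
theorem flt_t {r a b c d : Al p} (h1 : cr T p a b r) (h2 : cr T p c d r) (hn : fnx T p a b c d)
    (hs : ¬ SameE a b c d) : flt T p r a b c d ∨ flt T p r c d a b := by
  exact (FL_all h1 h2 hn hs).1

/-- PROOF. As `flt_t`, with `fl_a` and `fl_a5`. -/
theorem flt_a {r a b c d : Al p} (h1 : cr T p a b r) (h2 : cr T p c d r) (hn : fnx T p a b c d)
    (hs : ¬ SameE a b c d) (h : flt T p r a b c d) : ¬ flt T p r c d a b := by
  exact (FL_all h1 h2 hn hs).2 h

end H53P
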