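import Pool.Agent.Lib.H63L.FT
import Pool.Agent.Lib.H63L.F1
import Pool.Agent.Lib.H63L.F2
import Pool.Agent.Lib.H63L.A6

/-!
# H63L, file FN: tables satisfy the finite facts; every vertex is a pole
-/

set_option autoImplicit false

namespace H53P

open H63L

variable {V : Type} {T : Table V} {p : V}

theorem al_fan {ρ : V → ℝ} (hρ : T.Ord p ρ) :
    letI := alOrd hρ
    H63L.Fan (cr T p) (fnx T p) (fbe T p) (flt T p) := by
  letI := alOrd hρ
  refine ⟨fun {x y z} h => cr_symm x y z h, fun h => cr_ne h, ?_, ?_, fbe_t, fbe_a, fbe_r, flt_e, flt_s,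
    flt_t, flt_a, ?_, ?_, ?_⟩
  · intro a b c d h
    unfold fnx at h ⊢
    rw [T.xs4]
    exact h
  · intro a b c d h
    unfold fnx at h ⊢
    rw [T.xs1]
    exact h
  · intro r a b c d e f r1 r2 r3 n1 n2 n3 s1 s2 s3 l1 l2 l3
    exact cyc3_false ⟨r1, r2, r3, n1, n2, n3, s1, s2, s3, l1, l2, l3⟩
  · intro a b r s c d h
    have h0 := cfg_ne h
    rw [in_fin hρ h.rs h0.1.symm h0.2.2.1.symm, in_fin hρ h.rs h0.1.symm h0.2.2.1.symm]
    exact fact1_t h
  · intro a b r s c d x h hc hd xs h1 h2 hn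
    have h0 := cfg_ne h
    rw [in_fin hρ h.rs h0.1.symm h0.2.2.1.symm] at hc hd ⊢
    exact fact2_t h hc hd xs h1 h2 hn

end H53P
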