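import Pool.Agent.Lib.H63L.GC1
import Pool.Agent.Lib.H63L.GC2
import Pool.Agent.Lib.H63L.GC3
import Pool.Agent.Lib.H63L.GC4

/-!
# H63L, generated lemmas GT: the order along a ray is transitive

Generated resolution proofs (every line is a unit propagation).
-/

set_option linter.unusedVariables false
set_option autoImplicit false

namespace H53P

variable {V : Type} (T : Table V)

include T


theorem ft_st {p r a b c d : V} (hN : [p, r, a, b, c, d].Nodup) (h0 : T.X p r a b = true) (h1 : T.X p r a c = true)
    (h2 : T.X p r a d = true) (h3 : T.lto p r b a a c = true) (h4 : T.lto p r c a a d = true)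
    (h5 : T.lto p r d a a b = true) : False := by
  obtain ⟨v61, e61⟩ : ∃ v : Bool, v = (T.X p a r b ^^ T.X r b a c) := ⟨_, rfl⟩
  obtain ⟨v62, e62⟩ : ∃ v : Bool, v = (v61 ^^ T.X p c r b) := ⟨_, rfl⟩
  have B63 : T.bfo p b a c r = (bif T.alt p r c a b then T.X p c r b else T.alt p r b a c) :=
    T.bfo_eq (T.as7 p b a c r) (T.xs2 p c b r) (T.as3 p b r c a)
  obtain ⟨v64, e64⟩ : ∃ v : Bool, v = (T.X p c a b && T.bfo p b a c r) := ⟨_, rfl⟩
  have L65 : T.lto p r b a a c = (v62 ^^ v64) :=
    T.lto_eqa (T.xs6 b r p a) (T.xs1 b r a c) (T.xs7 b r c p) (T.xs2 p c b a) e61 e62 e64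
  obtain ⟨v66, e66⟩ : ∃ v : Bool, v = (T.X p a r c ^^ T.X r c a d) := ⟨_, rfl⟩
  obtain ⟨v67, e67⟩ : ∃ v : Bool, v = (v66 ^^ T.X p d r c) := ⟨_, rfl⟩
  have B68 : T.bfo p c a d r = (bif T.alt p r d a c then T.X p d r c else T.alt p r c a d) :=
    T.bfo_eq (T.as7 p c a d r) (T.xs2 p d c r) (T.as3 p c r d a)
  obtain ⟨v69, e69⟩ : ∃ v : Bool, v = (T.X p d a c && T.bfo p c a d r) := ⟨_, rfl⟩
  have L70 : T.lto p r c a a d = (v67 ^^ v69) :=
    T.lto_eqa (T.xs6 c r p a) (T.xs1 c r a d) (T.xs7 c r d p) (T.xs2 p d c a) e66 e67 e69
  obtain ⟨v71, e71⟩ : ∃ v : Bool, v = (T.X p a r d ^^ T.X r d a b) := ⟨_, rfl⟩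
  obtain ⟨v72, e72⟩ : ∃ v : Bool, v = (v71 ^^ T.X p b r d) := ⟨_, rfl⟩
  have B73 : T.bfo p d a b r = (bif T.alt p r b a d then T.X p b r d else T.alt p r d a b) :=
    T.bfo_eq (T.as7 p d a b r) (T.xs2 p b d r) (T.as3 p d r b a)
  obtain ⟨v74, e74⟩ : ∃ v : Bool, v = (T.X p b a d && T.bfo p d a b r) := ⟨_, rfl⟩
  have L75 : T.lto p r d a a b = (v72 ^^ v74) :=
    T.lto_eqa (T.xs6 d r p a) (T.xs1 d r a b) (T.xs7 d r b p) (T.xs2 p b d a) e71 e72 e74
  have k0 : T.Ok5 p r a b c := T.n5 hN (.cons_cons _ (.cons_cons _ (.cons_cons _ (.cons_cons _ (.cons_cons _ (List.nil_sublist _))))))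
  have k1 : T.Ok5 p r a b d := T.n5 hN (.cons_cons _ (.cons_cons _ (.cons_cons _ (.cons_cons _ (.cons _ (.cons_cons _ (List.nil_sublist _)))))))
  have k2 : T.Ok5 p r a c d := T.n5 hN (.cons_cons _ (.cons_cons _ (.cons_cons _ (.cons _ (.cons_cons _ (.cons_cons _ (List.nil_sublist _)))))))
  have k3 : T.Ok5 p r b c d := T.n5 hN (.cons_cons _ (.cons_cons _ (.cons _ (.cons_cons _ (.cons_cons _ (.cons_cons _ (List.nil_sublist _)))))))
  have k4 : T.Ok5 p a b c d := T.n5 hN (.cons_cons _ (.cons _ (.cons_cons _ (.cons_cons _ (.cons_cons _ (.cons_cons _ (List.nil_sublist _)))))))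
  have k5 : T.Ok5 r a b c d := T.n5 hN (.cons _ (.cons_cons _ (.cons_cons _ (.cons_cons _ (.cons_cons _ (.cons_cons _ (List.nil_sublist _)))))))
  have sp0 : T.Sp5 p r a b c d := T.sp5 hN (.cons_cons _ (.cons_cons _ (.cons_cons _ (.cons_cons _ (.cons_cons _ (.cons_cons _ (List.nil_sublist _)))))))
  have g1 := T.q01 p r a b
  have g2 := T.q02 p r a b
  have g4 := T.q01 p r a c
  have g5 := T.q02 p r a c
  have g7 := T.q01 p r a d
  have g8 := T.q02 p r a d
  have g12 := T.q12 p r b c
  have g13 := T.q01 p r b d
  have g14 := T.q02 p r b d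
  have g17 := T.q02 p r c d
  have g18 := T.q12 p r c d
  have g19 := T.q01 p a b c
  have g20 := T.q02 p a b c
  have g21 := T.q12 p a b c
  have g22 := T.q01 p a b d
  have g23 := T.q02 p a b d
  have g24 := T.q12 p a b d
  have g25 := T.q01 p a c d
  have g26 := T.q02 p a c d
  have g27 := T.q12 p a c d
  have g28 := T.q01 p b c d
  have g29 := T.q02 p b c d
  have g31 := T.q01 r a b c
  have g33 := T.q12 r a b c
  have g35 := T.q02 r a b d
  have g36 := T.q12 r a b d
  have g37 := T.q01 r a c d
  have g39 := T.q12 r a c d
  have g43 := T.q01 a b c d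
  have g44 := T.q02 a b c d
  have g45 := T.q12 a b c d
  have g46 := T.ae1 k0
  have g47 := T.ae01 k0
  have g48 := T.ae02 k0
  have g49 := T.ae12 k0
  have g69 := fun ha : T.alt p r b a c = true => zA1_4704_512 (T.okA1 k0 ha)
  have g79 := fun ha : T.alt p r b a c = true => zA1_9224_1032 (T.okA1 k0 ha)
  have g88 := fun ha : T.alt p r b a c = true => zA1_9482_8200 (T.okA1 k0 ha)
  have g98 := fun ha : T.alt p r b a c = true => zA1_2305_257 (T.okA1 k0 ha)
  have g133 := fun ha : T.alt p r a b c = true => zA0_18449_1 (T.okA0 k0 ha)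
  have g146 := fun ha : T.alt p r a b c = true => zA0_294_256 (T.okA0 k0 ha)
  have g167 := fun ha : T.alt p r a b c = true => zA0_9482_9224 (T.okA0 k0 ha)
  have g197 := fun ha : T.alt p r c a b = true => zA2_18433_2049 (T.okA2 k0 ha)
  have g206 := fun ha : T.alt p r c a b = true => zA2_18577_16385 (T.okA2 k0 ha)
  have g216 := fun ha : T.alt p r c a b = true => zA2_1160_136 (T.okA2 k0 ha)
  have g218 := fun ha : T.alt p r c a b = true => zA2_9472_1280 (T.okA2 k0 ha)
  have g220 := fun ha : T.alt p r c a b = true => zA2_9482_9224 (T.okA2 k0 ha)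
  have g227 := T.ae1 k1
  have g228 := T.ae01 k1
  have g230 := T.ae12 k1
  have g255 := fun ha : T.alt p r b a d = true => zA1_18561_1 (T.okA1 k1 ha)
  have g260 := fun ha : T.alt p r b a d = true => zA1_9224_1032 (T.okA1 k1 ha)
  have g263 := fun ha : T.alt p r b a d = true => zA1_8456_264 (T.okA1 k1 ha)
  have g279 := fun ha : T.alt p r b a d = true => zA1_2305_257 (T.okA1 k1 ha)
  have g281 := fun ha : T.alt p r b a d = true => zA1_18560_2176 (T.okA1 k1 ha)
  have g282 := fun ha : T.alt p r b a d = true => zA1_18577_16513 (T.okA1 k1 ha)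
  have g283 := fun ha : T.alt p r b a d = true => zA1_18577_18433 (T.okA1 k1 ha)
  have g301 := fun ha : T.alt p r a b d = true => zA0_4708_0 (T.okA0 k1 ha)
  have g311 := fun ha : T.alt p r a b d = true => zA0_9226_8 (T.okA0 k1 ha)
  have g314 := fun ha : T.alt p r a b d = true => zA0_18449_1 (T.okA0 k1 ha)
  have g327 := fun ha : T.alt p r a b d = true => zA0_294_256 (T.okA0 k1 ha)
  have g373 := fun ha : T.alt p r d a b = true => zA2_9480_8 (T.okA2 k1 ha)
  have g378 := fun ha : T.alt p r d a b = true => zA2_18433_2049 (T.okA2 k1 ha)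
  have g387 := fun ha : T.alt p r d a b = true => zA2_18577_16385 (T.okA2 k1 ha)
  have g397 := fun ha : T.alt p r d a b = true => zA2_1160_136 (T.okA2 k1 ha)
  have g408 := T.ae1 k2
  have g409 := T.ae01 k2
  have g410 := T.ae02 k2
  have g411 := T.ae12 k2
  have g436 := fun ha : T.alt p r c a d = true => zA1_18561_1 (T.okA1 k2 ha)
  have g441 := fun ha : T.alt p r c a d = true => zA1_9224_1032 (T.okA1 k2 ha)
  have g450 := fun ha : T.alt p r c a d = true => zA1_9482_8200 (T.okA1 k2 ha)
  have g460 := fun ha : T.alt p r c a d = true => zA1_2305_257 (T.okA1 k2 ha)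
  have g492 := fun ha : T.alt p r a c d = true => zA0_9226_8 (T.okA0 k2 ha)
  have g495 := fun ha : T.alt p r a c d = true => zA0_18449_1 (T.okA0 k2 ha)
  have g508 := fun ha : T.alt p r a c d = true => zA0_294_256 (T.okA0 k2 ha)
  have g529 := fun ha : T.alt p r a c d = true => zA0_9482_9224 (T.okA0 k2 ha)
  have g549 := fun ha : T.alt p r d a c = true => zA2_4676_512 (T.okA2 k2 ha)
  have g554 := fun ha : T.alt p r d a c = true => zA2_9480_8 (T.okA2 k2 ha)
  have g559 := fun ha : T.alt p r d a c = true => zA2_18433_2049 (T.okA2 k2 ha)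
  have g562 := fun ha : T.alt p r d a c = true => zA2_16513_129 (T.okA2 k2 ha)
  have g575 := fun ha : T.alt p r d a c = true => zA2_577_513 (T.okA2 k2 ha)
  have g578 := fun ha : T.alt p r d a c = true => zA2_1160_136 (T.okA2 k2 ha)
  have g580 := fun ha : T.alt p r d a c = true => zA2_9472_1280 (T.okA2 k2 ha)
  have g581 := fun ha : T.alt p r d a c = true => zA2_9482_8456 (T.okA2 k2 ha)
  have g582 := fun ha : T.alt p r d a c = true => zA2_9482_9224 (T.okA2 k2 ha)
  have g590 := T.ae01 k3
  have g592 := T.ae12 k3
  have g604 := fun ha : T.alt p r c b d = true => zA1_9482_0 (T.okA1 k3 ha)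
  have g613 := fun ha : T.alt p r c b d = true => zA1_16529_128 (T.okA1 k3 ha)
  have g615 := fun ha : T.alt p r c b d = true => zA1_4708_4096 (T.okA1 k3 ha)
  have g634 := fun ha : T.alt p r c b d = true => zA1_9482_8448 (T.okA1 k3 ha)
  have g637 := fun ha : T.alt p r c b d = true => zA1_292_260 (T.okA1 k3 ha)
  have g638 := fun ha : T.alt p r c b d = true => zA1_584_520 (T.okA1 k3 ha)
  have g639 := fun ha : T.alt p r c b d = true => zA1_1168_1040 (T.okA1 k3 ha)
  have g695 := fun ha : T.alt p r b c d = true => zA0_720_16 (T.okA0 k3 ha)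
  have g718 := fun ha : T.alt p r d b c = true => zA2_8228_8196 (T.okA2 k3 ha)
  have g721 := fun ha : T.alt p r d b c = true => zA2_1176_1024 (T.okA2 k3 ha)
  have g731 := fun ha : T.alt p r d b c = true => zA2_8458_256 (T.okA2 k3 ha)
  have g738 := fun ha : T.alt p r d b c = true => zA2_9226_1024 (T.okA2 k3 ha)
  have g748 := fun ha : T.alt p r d b c = true => zA2_180_4 (T.okA2 k3 ha)
  have g761 := fun ha : T.alt p r d b c = true => zA2_9472_1280 (T.okA2 k3 ha)
  have g770 := T.ae1 k4
  have g772 := T.ae02 k4
  have g773 := T.ae12 k4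
  have g785 := fun ha : T.alt p a c b d = true => zA1_9482_0 (T.okA1 k4 ha)
  have g794 := fun ha : T.alt p a c b d = true => zA1_16529_128 (T.okA1 k4 ha)
  have g797 := fun ha : T.alt p a c b d = true => zA1_4196_4 (T.okA1 k4 ha)
  have g802 := fun ha : T.alt p a c b d = true => zA1_8450_258 (T.okA1 k4 ha)
  have g805 := fun ha : T.alt p a c b d = true => zA1_9218_1026 (T.okA1 k4 ha)
  have g811 := fun ha : T.alt p a c b d = true => zA1_294_32 (T.okA1 k4 ha)
  have g817 := fun ha : T.alt p a c b d = true => zA1_1176_128 (T.okA1 k4 ha)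
  have g818 := fun ha : T.alt p a c b d = true => zA1_292_260 (T.okA1 k4 ha)
  have g820 := fun ha : T.alt p a c b d = true => zA1_1168_1040 (T.okA1 k4 ha)
  have g821 := fun ha : T.alt p a c b d = true => zA1_306_258 (T.okA1 k4 ha)
  have g844 := fun ha : T.alt p a b c d = true => zA0_4708_0 (T.okA0 k4 ha)
  have g853 := fun ha : T.alt p a b c d = true => zA0_16529_16 (T.okA0 k4 ha)
  have g856 := fun ha : T.alt p a b c d = true => zA0_8458_2 (T.okA0 k4 ha)
  have g864 := fun ha : T.alt p a b c d = true => zA0_4612_516 (T.okA0 k4 ha)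
  have g870 := fun ha : T.alt p a b c d = true => zA0_294_256 (T.okA0 k4 ha)
  have g876 := fun ha : T.alt p a b c d = true => zA0_720_16 (T.okA0 k4 ha)
  have g877 := fun ha : T.alt p a b c d = true => zA0_290_34 (T.okA0 k4 ha)
  have g879 := fun ha : T.alt p a b c d = true => zA0_656_640 (T.okA0 k4 ha)
  have g880 := fun ha : T.alt p a b c d = true => zA0_420_36 (T.okA0 k4 ha)
  have g899 := fun ha : T.alt p a d b c = true => zA2_8228_8196 (T.okA2 k4 ha)
  have g903 := fun ha : T.alt p a d b c = true => zA2_18577_0 (T.okA2 k4 ha)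
  have g912 := fun ha : T.alt p a d b c = true => zA2_8458_256 (T.okA2 k4 ha)
  have g915 := fun ha : T.alt p a d b c = true => zA2_4196_32 (T.okA2 k4 ha)
  have g920 := fun ha : T.alt p a d b c = true => zA2_16528_144 (T.okA2 k4 ha)
  have g923 := fun ha : T.alt p a d b c = true => zA2_18448_2064 (T.okA2 k4 ha)
  have g929 := fun ha : T.alt p a d b c = true => zA2_180_4 (T.okA2 k4 ha)
  have g936 := fun ha : T.alt p a d b c = true => zA2_164_160 (T.okA2 k4 ha)
  have g938 := fun ha : T.alt p a d b c = true => zA2_2306_2050 (T.okA2 k4 ha)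
  have g939 := fun ha : T.alt p a d b c = true => zA2_150_144 (T.okA2 k4 ha)
  have g945 := fun ha : T.alt p a d b c = true => zA2_9482_8450 (T.okA2 k4 ha)
  have g996 := z5_5196_4104 k0
  have g1037 := z5_18881_18433 k0
  have g1049 := z5_9281_9281 k0
  have g1058 := z5_18504_18504 k0
  have g1168 := z5_18706_16640 k1
  have g1171 := z5_8778_520 k1
  have g1178 := z5_9362_8320 k1
  have g1213 := z5_9672_9224 k1
  have g1219 := z5_9281_9281 k1
  have g1228 := z5_18504_18504 k1
  have g1338 := z5_18706_16640 k2
  have g1345 := z5_6241_4097 k2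
  have g1348 := z5_9362_8320 k2
  have g1377 := z5_18881_18433 k2
  have g1389 := z5_9281_9281 k2
  have g1398 := z5_18504_18504 k2
  have g1490 := z5_10505_257 k3
  have g1494 := z5_9362_8208 k3
  have g1542 := z5_9508_260 k3
  have g1544 := z5_9508_8224 k3
  have g1569 := z5_8976_8976 k3
  have g1616 := z5_9516_9476 k3
  have g1657 := z5_4756_20 k4
  have g1664 := z5_9362_8208 k4
  have g1689 := z5_18706_272 k4
  have g1698 := z5_978_530 k4
  have g1699 := z5_1212_1156 k4
  have g1703 := z5_18706_16386 k4
  have g1708 := z5_4756_4224 k4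
  have g1709 := z5_18596_16388 k4
  have g1715 := z5_9508_1280 k4
  have g1770 := z5_9370_9346 k4
  have g1805 := z5_12288_12288 k5
  have g1826 := z5_4898_34 k5
  have g1833 := z5_5196_5120 k5
  have g1837 := z5_9362_130 k5
  have g1877 := z5_4756_640 k5
  have g1884 := z5_9508_8224 k5
  have g1918 := z5_18597_18592 k5
  have g1940 := z5_9370_9346 k5
  have g1972 := zsp_73_1 sp0
  have g1973 := zsp_73_64 sp0
  have g1974 := zsp_73_8 sp0
  have g1976 := zsp_530_2 sp0
  have g1980 := zsp_1156_4 sp0
  have g1981 := zsp_1156_1024 sp0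
  have g1982 := zsp_1156_128 sp0
  have g1984 := zsp_2336_32 sp0
  have g1985 := zsp_2336_2048 sp0
  have g1986 := zsp_2336_256 sp0
  have g1988 := zsp_4132_4 sp0
  have g1990 := zsp_4132_32 sp0
  have g1991 := zsp_8450_8450 sp0
  have g1992 := zsp_8450_2 sp0
  have g1994 := zsp_8450_256 sp0
  have g1996 := zsp_16528_16 sp0
  have g1997 := zsp_16528_16384 sp0
  have g1998 := zsp_16528_128 sp0
  have g2000 := zsp_18433_1 sp0
  have g2001 := zsp_18433_16384 sp0
  have g2004 := zsp_9224_8 sp0
  have g2005 := zsp_9224_8192 sp0
  have g2006 := zsp_9224_1024 sp0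
  have g2009 := zsp_4672_4096 sp0
  have g2011 : T.X p r a b = true := h0
  have g2012 : T.X p r a c = true := h1
  have g2013 : T.X p r a d = true := h2
  have g2015 := xr2 e61
  have g2017 := xr4 e61
  have g2018 := xr1 e62
  have g2019 := xr2 e62
  have g2021 := xr4 e62
  have g2022 := it1 B63
  have g2023 := it2 B63
  have g2025 := it4 B63
  have g2026 := an0 e64
  have g2027 := an1 e64
  have g2028 := an2 e64
  have g2029 := xr1 L65
  have g2030 := xr2 L65
  have g2033 : T.lto p r b a a c = true := h3
  have g2035 := xr2 e66
  have g2037 := xr4 e66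
  have g2038 := xr1 e67
  have g2039 := xr2 e67
  have g2040 := xr3 e67
  have g2041 := xr4 e67
  have g2042 := it1 B68
  have g2043 := it2 B68
  have g2044 := it3 B68
  have g2045 := it4 B68
  have g2046 := an0 e69
  have g2047 := an1 e69
  have g2048 := an2 e69
  have g2049 := xr1 L70
  have g2050 := xr2 L70
  have g2053 : T.lto p r c a a d = true := h4
  have g2055 := xr2 e71
  have g2057 := xr4 e71
  have g2058 := xr1 e72
  have g2059 := xr2 e72
  have g2060 := xr3 e72
  have g2061 := xr4 e72
  have g2062 := it1 B73
  have g2064 := it3 B73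
  have g2066 := an0 e74
  have g2067 := an1 e74
  have g2069 := xr1 L75
  have g2070 := xr2 L75
  have g2073 : T.lto p r d a a b = true := h5
  have s2074 := fun (n0 : T.X p a r b = true) => g1 g2011 n0
  have w2074 := bf s2074
  have s2075 := fun (n0 : T.X p b r a = true) => g2 g2011 n0
  have w2075 := bf s2075
  have s2076 := fun (n0 : T.X p a r c = true) => g4 g2012 n0
  have w2076 := bf s2076
  have s2077 := fun (n0 : T.X p c r a = true) => g5 g2012 n0
  have w2077 := bf s2077
  have s2078 := fun (n0 : T.X p a r d = true) => g7 g2013 n0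
  have w2078 := bf s2078
  have s2079 := fun (n0 : T.X p d r a = true) => g8 g2013 n0
  have w2079 := bf s2079
  have s2080 := fun (n0 : v61 = true) (n1 : T.X r b a c = false) => g2015 n0 w2074 n1
  have s2081 := fun (n0 : v61 = false) (n1 : T.X r b a c = true) => g2017 n0 w2074 n1
  have s2082 := fun (n0 : v66 = true) (n1 : T.X r c a d = false) => g2035 n0 w2076 n1
  have s2083 := fun (n0 : v66 = false) (n1 : T.X r c a d = true) => g2037 n0 w2076 n1
  have s2084 := fun (n0 : v71 = true) (n1 : T.X r d a b = false) => g2055 n0 w2078 n1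
  have s2085 := fun (n0 : v71 = false) (n1 : T.X r d a b = true) => g2057 n0 w2078 n1
  have s2086 : T.X p c a b = true → T.alt p a d b c = true → T.X p d a c = true → T.X p b a d = true → False := fun n0 n1 n2 n3 => by
    have u0 := bf fun t => g24 n3 t
    have u1 := bf fun t => g22 t n3
    have u2 := bf fun t => g21 t n0
    have u3 := bf fun t => g899 n1 n0 u0 t
    exact g912 n1 u2 u1 n2 u3
  have s2087 : T.X p c r b = true → T.X p c b d = false → T.alt p r d b c = true → T.X p d r c = true → T.X p d r b = false → False := fun n0 n1 n2 n3 n4 => by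
    have u0 := bt fun t => g1542 n0 n4 n3 n1 t
    exact g718 n2 n0 n4 u0
  have s2088 : T.X a c b d = false → T.alt p r c a b = true → T.alt p a d b c = true → T.alt p r d b c = true → T.X p d r c = true → T.X p d a c = true → T.X p d r b = false → T.X p b a d = true → False := fun n0 n1 n2 n3 n4 n5 n6 n7 => by
    have u0 := bf fun t => s2086 t n2 n5 n7
    have u1 := bf fun t => g2027 t u0
    have u2 := bt fun t => g2030 g2033 t u1
    have u3 := bf fun t => g24 n7 t
    have u4 := bf fun t => g22 t n7
    have u5 := bf fun t => g1715 u0 u3 n5 t n0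
    have u6 := bt fun t => g912 n2 t u4 n5 n0
    have u7 := bf fun t => s2087 t u5 n3 n4 n6
    have u8 := bf fun t => g220 n1 w2074 g2012 u7 u6 t
    have u9 := bt fun t => g2019 u2 t u7
    exact s2080 u9 u8
  have s2089 : v66 = true → v69 = true → T.alt p r b a d = false → T.X p r b d = false → T.X p d r b = false → T.X r b a d = false → T.X r a b d = false → T.X p b a d = true → False := fun n0 n1 n2 n3 n4 n5 n6 n7 => by
    have u0 := bt fun t => g2047 n1 t
    have u1 := bf fun t => g27 t u0
    have u2 := bf fun t => g2049 g2053 t n1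
    have u3 := bt fun t => g2048 n1 t
    have u4 := bf fun t => g22 t n7
    have u5 := bf fun t => g301 t w2075 w2079 n3 u4 n6
    have u6 := bt fun t => g227 u5 n2 t
    have u7 := bt fun t => s2082 n0 t
    have u8 := bt fun t => g2040 u2 n0 t
    have u9 := bf fun t => g581 t w2076 g2013 u8 u1 u7
    have u10 := bt fun t => g2045 u3 u9 t
    have u11 := bt fun t => g1984 u6 u9 t
    have u12 := bt fun t => g1998 n2 u10 t
    have u13 := bf fun t => g592 t u11
    have u14 := bt fun t => g1982 t u10 u13
    have u15 := bf fun t => s2086 t u12 u0 n7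
    have u16 := bf fun t => g2027 t u15
    have u17 := bt fun t => g2030 g2033 t u16
    have u18 := bt fun t => s2088 t u14 u12 u11 u8 u0 n4 n7
    have u19 := bf fun t => g45 u18 t
    have u20 := bf fun t => g923 u12 n7 t u19
    have u21 := bt fun t => g1689 t n7 u0 u20 u19
    have u22 := bt fun t => g945 u12 u21 u4 u0 t u18
    have u23 := bt fun t => g761 u11 u8 u22 t
    have u24 := bf fun t => g1616 t n3 n4 u8 u22 u23
    have u25 := bf fun t => g1940 t n6 n5 u7 u23 u18
    have u26 := bt fun t => g2019 u17 t u24
    exact s2080 u26 u25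
  have s2090 : T.X p c r b = false → T.X p b a c = true → v62 = true → T.alt p r c a b = true → False := fun n0 n1 n2 n3 => by
    have u0 := bf fun t => g220 n3 w2074 g2012 n0 n1 t
    have u1 := bt fun t => g2019 n2 t n0
    exact s2080 u1 u0
  have s2091 : T.X a c b d = true → T.alt p r c a b = true → T.alt p a d b c = true → T.alt p r d b c = true → T.X p d a c = true → T.X p r b d = false → T.X p d r b = false → T.X p b a d = true → False := fun n0 n1 n2 n3 n4 n5 n6 n7 => by
    have u0 := bf fun t => s2086 t n2 n4 n7
    have u1 := bf fun t => g2027 t u0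
    have u2 := bt fun t => g2030 g2033 t u1
    have u3 := bf fun t => g22 t n7
    have u4 := bf fun t => g45 n0 t
    have u5 := bf fun t => g923 n2 n7 t u4
    have u6 := bt fun t => g1689 t n7 n4 u5 u4
    have u7 := bt fun t => g945 n2 u6 u3 n4 t n0
    have u8 := bt fun t => s2090 t u6 u2 n1
    have u9 := bf fun t => g12 t u8
    have u10 := bf fun t => g718 n3 u8 n6 t
    exact g738 n3 u9 n5 u7 u10
  have s2092 : T.X p b a c = true → T.alt p r c a b = true → v62 = true → False := fun n0 n1 n2 => by
    have u0 := bt fun t => s2090 t n0 n2 n1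
    have u1 := bt fun t => g218 n1 u0 n0 t
    have u2 := bf fun t => g2018 n2 t u0
    exact s2081 u2 u1
  have s2093 : v69 = true → T.alt p r b a d = false → T.X p r b d = false → T.X p d r b = false → T.X r b a d = false → T.X r a b d = false → T.X p b a d = true → False := fun n0 n1 n2 n3 n4 n5 n6 => by
    have u0 := bf fun t => g22 t n6
    have u1 := bf fun t => g301 t w2075 w2079 n2 u0 n5
    have u2 := bt fun t => g227 u1 n1 t
    have u3 := bt fun t => g2047 n0 t
    have u4 := bt fun t => g2048 n0 t
    have u5 := bf fun t => g2049 g2053 t n0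
    have u6 := bf fun t => s2089 t n0 n1 n2 n3 n4 n5 n6
    have u7 := bf fun t => g2041 u5 u6 t
    have u8 := bf fun t => g2043 u4 t u7
    have u9 := bt fun t => g2045 u4 u8 t
    have u10 := bt fun t => g1984 u2 u8 t
    have u11 := bt fun t => g1998 n1 u9 t
    have u12 := bf fun t => g592 t u10
    have u13 := bf fun t => s2086 t u11 u3 n6
    have u14 := bt fun t => g1982 t u9 u12
    have u15 := bf fun t => g2027 t u13
    have u16 := bt fun t => g2030 g2033 t u15
    have u17 := bf fun t => s2091 t u14 u11 u10 u3 n2 n3 n6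
    have u18 := bt fun t => g912 u11 t u0 u3 u17
    exact s2092 u18 u14 u16
  have s2094 : T.X p b a c = true → T.alt p r c a b = true → False := fun n0 n1 => by
    have u0 := bf fun t => g21 n0 t
    have u1 := bf fun t => s2092 n0 n1 t
    have u2 := bf fun t => g2027 t u0
    exact g2030 g2033 u1 u2
  have s2095 : v62 = false → T.alt p r c a b = true → False := fun n0 n1 => by
    have u0 := bt fun t => g2030 g2033 n0 t
    have u1 := bt fun t => g2027 u0 t
    have u2 := bt fun t => g2028 u0 t
    have u3 := bt fun t => g197 n1 g2011 u1 t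
    have u4 := bt fun t => g2023 u2 n1 t
    have u5 := bf fun t => g33 t u3
    have u6 := bt fun t => g2021 n0 t u4
    exact s2080 u6 u5
  have s2096 : T.X p c a b = true → T.alt p r c a b = true → False := fun n0 n1 => by
    have u0 := bt fun t => s2095 t n1
    have u1 := bf fun t => g2029 g2033 u0 t
    have u2 := bf fun t => s2094 t n1
    have u3 := bf fun t => g216 n1 g2012 t u2
    have u4 := bt fun t => g197 n1 g2011 n0 t
    have u5 := bf fun t => g2026 u1 n0 t
    have u6 := bf fun t => g1058 g2012 t n0 u4
    have u7 := bt fun t => g1037 g2011 u6 u3 t n0 u4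
    exact g2022 u5 n1 u7
  have s2097 : T.alt p r c a d = true → T.bfo p c a d r = false → False := fun n0 n1 => by
    have u0 := bf fun t => g411 n0 t
    exact g2044 n1 u0 n0
  have s2098 : T.X p d a c = true → T.alt p r a c d = false → v69 = false → False := fun n0 n1 n2 => by
    have u0 := bf fun t => g27 t n0
    have u1 := bf fun t => g2046 n2 n0 t
    have u2 := bf fun t => s2097 t u1
    have u3 := bt fun t => g408 n1 u2 t
    have u4 := bt fun t => g559 u3 g2012 n0 t
    have u5 := bf fun t => g578 u3 g2013 t u0
    have u6 := bf fun t => g2042 u1 u3 t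
    have u7 := bf fun t => g1398 g2013 t n0 u4
    exact g1377 g2012 u7 u5 u6 n0 u4
  have s2100 : T.alt p r c a d = true → T.X p d a c = false → T.X p c a b = false → T.X p b a c = false → v67 = true → T.alt p r b a d = false → T.X p b a d = true → False := fun n0 n1 n2 n3 n4 n5 n6 => by
    have u0 := bf fun t => g460 n0 g2012 t n1
    have u1 := bt fun t => g1998 n5 n0 t
    have u2 := bt fun t => g2039 n4 t u0
    have u3 := bf fun t => g939 u1 n3 n2 n6 t
    have u4 := bt fun t => s2082 u2 t
    exact g450 n0 w2076 g2013 u0 u3 u4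
  have s2101 : T.X p d r c = false → T.alt p a c b d = true → T.alt p r c b d = true → T.alt p r d a c = true → T.X p b r c = false → v67 = true → T.X p b r d = true → T.X p b a d = true → False := fun n0 n1 n2 n3 n4 n5 n6 n7 => by
    have u0 := bf fun t => g13 t n6
    have u1 := bt fun t => g2039 n5 t n0
    have u2 := bt fun t => s2082 u1 t
    have u3 := bf fun t => g39 u2 t
    have u4 := bf fun t => g582 n3 w2076 g2013 n0 t u2
    have u5 := bf fun t => g562 n3 g2012 t u3
    have u6 := bf fun t => g820 n1 n7 u4 t
    have u7 := bt fun t => g604 n2 n4 u0 n0 u6 t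
    exact g1494 n4 n6 u5 u6 u7
  have s2102 : T.alt p r c a b = true → T.X p b r d = true → T.X r d a b = true → T.X p b a d = true → False := fun n0 n1 n2 n3 => by
    have u0 := bf fun t => g35 t n2
    have u1 := bf fun t => g36 t n2
    have u2 := bf fun t => g24 n3 t
    have u3 := bf fun t => g1168 w2074 w2078 t u2 n2
    have u4 := bf fun t => g13 t n1
    have u5 := bf fun t => g282 t g2011 w2078 n1 u2 n2
    have u6 := bf fun t => s2093 t u5 u4 u3 u1 u0 n3
    have u7 := bt fun t => g2050 g2053 t u6
    have u8 := bf fun t => g22 t n3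
    have u9 := bf fun t => g301 t w2075 w2079 u4 u8 u0
    have u10 := bf fun t => g48 t n0
    have u11 := bf fun t => g49 t n0
    have u12 := bf fun t => g1973 u10 u9 t
    have u13 := bf fun t => s2094 t n0
    have u14 := bf fun t => g216 n0 g2012 t u13
    have u15 := bf fun t => s2096 t n0
    have u16 := bf fun t => g206 n0 g2011 w2076 u14 u15 t
    have u17 := bf fun t => s2098 t u12 u6
    have u18 := bf fun t => s2100 t u17 u15 u13 u7 u5 n3
    have u19 := bt fun t => g408 u12 u18 t
    have u20 := bt fun t => g1980 n0 u18 t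
    have u21 := bt fun t => g1994 u11 u19 t
    have u22 := bt fun t => s2101 t u21 u20 u19 u14 u7 n1 n3
    have u23 := bf fun t => g18 t u22
    have u24 := bf fun t => g1338 w2076 w2078 u22 u17 t
    have u25 := bf fun t => g639 u20 n1 u23 t
    have u26 := bf fun t => g634 u20 u14 u4 u22 u25 t
    have u27 := bt fun t => g785 u21 u13 u8 u17 u25 t
    exact g1884 u16 n2 u24 u26 u27
  have s2103 : T.X p d r c = true → T.alt p r c a d = false → T.alt p a b c d = true → T.alt p r c a b = false → v69 = false → T.alt p r a b d = false → T.X p d r b = false → T.X p b r d = true → T.X p b a d = true → False := fun n0 n1 n2 n3 n4 n5 n6 n7 n8 => by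
    have u0 := bt fun t => g2050 g2053 t n4
    have u1 := bf fun t => g13 t n7
    have u2 := bf fun t => g24 n8 t
    have u3 := bf fun t => g17 t n0
    have u4 := bf fun t => g18 t n0
    have u5 := bf fun t => g508 t w2076 w2077 w2079 n0
    have u6 := bf fun t => g2038 u0 t n0
    have u7 := bf fun t => g1972 t n5 u5
    have u8 := bf fun t => s2098 t u5 n4
    have u9 := bt fun t => g2009 u5 t n2
    have u10 := bt fun t => g408 u5 n1 t
    have u11 := bf fun t => s2083 u6 t
    have u12 := bt fun t => g46 u7 t n3
    have u13 := bf fun t => g1345 g2012 w2079 u3 u8 t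
    have u14 := bt fun t => g695 u9 n7 u3 u4 t
    have u15 := bf fun t => g549 u10 w2077 u3 t u13
    have u16 := bf fun t => g580 u10 n0 t u11
    have u17 := bf fun t => g28 u14 t
    have u18 := bf fun t => g29 u14 t
    have u19 := bf fun t => g1569 n7 n0 u14 t
    have u20 := bf fun t => g1698 t n8 u15 u16 u8 u14
    have u21 := bf fun t => g1542 t n6 n0 u17 u19
    have u22 := bf fun t => g1490 t u1 n0 u18 u19
    have u23 := bf fun t => g88 u12 w2074 g2012 u21 u20 t
    have u24 := bf fun t => g996 w2075 g2012 u22 u20 t
    have u25 := bf fun t => g69 u12 w2077 u22 t u24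
    have u26 := bf fun t => s2080 t u23
    have u27 := bt fun t => g853 n2 u25 n8 u16 t
    have u28 := bf fun t => g2019 t u26 u21
    have u29 := bf fun t => g1709 t u2 u16 u18 u27
    have u30 := bt fun t => g2030 g2033 u28 t
    exact g2027 u30 u29
  have s2104 : T.X p c a b = true → T.X p c a d = false → T.alt p a b c d = true → T.X p b a d = true → False := fun n0 n1 n2 n3 => by
    have u0 := bf fun t => g20 t n0
    have u1 := bt fun t => g853 n2 u0 n3 n1 t
    have u2 := bf fun t => g44 t u1
    have u3 := bt fun t => g1657 n0 n3 n1 t u2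
    exact g864 n2 n0 u3 u2
  have s2105 : T.alt p r a c d = false → T.X p d r c = false → T.alt p r c a d = false → T.alt p a b c d = true → T.alt p r c a b = false → v69 = false → T.alt p r a b d = false → T.X p b a d = true → False := fun n0 n1 n2 n3 n4 n5 n6 n7 => by
    have u0 := bt fun t => g2050 g2053 t n5
    have u1 := bt fun t => g2039 u0 t n1
    have u2 := bt fun t => s2082 u1 t
    have u3 := bf fun t => g22 t n7
    have u4 := bf fun t => g1972 t n6 n0
    have u5 := bf fun t => s2098 t n0 n5
    have u6 := bt fun t => g408 n0 n2 t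
    have u7 := bt fun t => g46 u4 t n4
    have u8 := bf fun t => g582 u6 w2076 g2013 n1 t u2
    have u9 := bf fun t => s2104 t u8 n3 n7
    have u10 := bf fun t => g2027 t u9
    have u11 := bf fun t => g98 u7 g2011 t u9
    have u12 := bt fun t => g2030 g2033 t u10
    have u13 := bt fun t => g2019 u12 t u11
    have u14 := bt fun t => s2080 u13 t
    have u15 := bt fun t => g88 u7 w2074 g2012 u11 t u14
    have u16 := bf fun t => g19 t u15
    have u17 := bt fun t => g856 n3 u15 u3 u5 t
    have u18 := bt fun t => g853 n3 u16 n7 u8 t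
    exact g45 u17 u18
  have s2106 : v71 = true → v74 = true → False := fun n0 n1 => by
    have u0 := bt fun t => g2067 n1 t
    have u1 := bf fun t => g24 u0 t
    have u2 := bf fun t => g22 t u0
    have u3 := bf fun t => g2069 g2073 t n1
    have u4 := bt fun t => s2084 n0 t
    have u5 := bt fun t => g2060 u3 n0 t
    have u6 := bf fun t => g35 t u4
    have u7 := bf fun t => g36 t u4
    have u8 := bf fun t => g1168 w2074 w2078 t u1 u4
    have u9 := bf fun t => g13 t u5
    have u10 := bf fun t => g282 t g2011 w2078 u5 u1 u4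
    have u11 := bf fun t => g301 t w2075 w2079 u9 u2 u6
    have u12 := bt fun t => g227 u11 u10 t
    have u13 := bf fun t => s2093 t u10 u9 u8 u7 u6 u0
    have u14 := bt fun t => g2050 g2053 t u13
    have u15 := bf fun t => s2102 t u5 u4 u0
    have u16 := bt fun t => g1990 u15 u12 t
    have u17 := bf fun t => g772 u16 t
    have u18 := bf fun t => g1998 u10 t u17
    have u19 := bf fun t => s2103 t u18 u16 u15 u13 u11 u8 u5 u0
    have u20 := bt fun t => g2039 u14 t u19
    have u21 := bt fun t => s2082 u20 t
    have u22 := bt fun t => s2105 t u19 u18 u16 u15 u13 u11 u0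
    have u23 := bf fun t => g529 u22 w2076 g2013 u19 t u21
    have u24 := bt fun t => g1973 t u11 u22
    have u25 := bf fun t => s2104 t u23 u16 u0
    have u26 := bf fun t => g146 u24 w2074 w2075 w2077 t
    have u27 := bt fun t => g133 u24 g2011 w2076 u25 t
    have u28 := bf fun t => g2027 t u25
    have u29 := bf fun t => g33 t u27
    have u30 := bt fun t => g2030 g2033 t u28
    have u31 := bf fun t => s2080 t u29
    exact g2019 u30 u31 u26
  have s2107 : T.X r c a d = true → T.X p c a b = false → T.alt p r c a b = false → T.X p d r c = false → v74 = true → False := fun n0 n1 n2 n3 n4 => by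
    have u0 := bf fun t => g2027 t n1
    have u1 := bt fun t => g2030 g2033 t u0
    have u2 := bt fun t => g2067 n4 t
    have u3 := bf fun t => g24 u2 t
    have u4 := bf fun t => g2069 g2073 t n4
    have u5 := bf fun t => s2106 t n4
    have u6 := bf fun t => g2061 u4 u5 t
    have u7 := bf fun t => s2085 u5 t
    have u8 := bf fun t => g255 t g2011 u6 u3 u7
    have u9 := bf fun t => g314 t g2011 w2078 u3 u7
    have u10 := bt fun t => g227 u9 u8 t
    have u11 := bt fun t => g1990 n2 u10 t
    have u12 := bf fun t => g772 u11 t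
    have u13 := bf fun t => g1998 u8 t u12
    have u14 := bf fun t => g39 n0 t
    have u15 := bt fun t => s2083 t n0
    have u16 := bt fun t => g2040 t u15 n3
    have u17 := bf fun t => g2049 g2053 u16 t
    have u18 := bt fun t => s2105 t n3 u13 u11 n2 u17 u9 u2
    have u19 := bt fun t => g495 u18 g2012 w2078 t u14
    have u20 := bt fun t => g1973 t u9 u18
    have u21 := bt fun t => g870 u11 t n1 u3 u19
    have u22 := bf fun t => g146 u20 w2074 w2075 w2077 t
    have u23 := bf fun t => g167 u20 w2074 g2012 u22 u21 t
    have u24 := bt fun t => g2019 u1 t u22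
    exact s2080 u24 u23
  have s2108 : T.bfo p c a d r = true → T.alt p r c a d = false → T.X p d r c = false → False := fun n0 n1 n2 => by
    have u0 := bf fun t => g2043 n0 t n2
    exact g2045 n0 u0 n1
  have s2109 : T.alt p r c a b = false → T.X p d r c = false → v74 = true → False := fun n0 n1 n2 => by
    have u0 := bt fun t => g2067 n2 t
    have u1 := bf fun t => g24 u0 t
    have u2 := bf fun t => s2106 t n2
    have u3 := bf fun t => s2085 u2 t
    have u4 := bf fun t => g314 t g2011 w2078 u1 u3
    have u5 := bf fun t => g2069 g2073 t n2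
    have u6 := bf fun t => g2061 u5 u2 t
    have u7 := bf fun t => g255 t g2011 u6 u1 u3
    have u8 := bt fun t => g227 u4 u7 t
    have u9 := bt fun t => g1990 n0 u8 t
    have u10 := bf fun t => g772 u9 t
    have u11 := bf fun t => g1998 u7 t u10
    have u12 := bf fun t => s2108 t u11 n1
    have u13 := bf fun t => g2048 t u12
    have u14 := bt fun t => g2050 g2053 t u13
    have u15 := bt fun t => s2105 t n1 u11 u9 n0 u13 u4 u0
    have u16 := bt fun t => g2039 u14 t n1
    have u17 := bt fun t => s2082 u16 t
    have u18 := bt fun t => s2107 u17 t n0 n1 n2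
    have u19 := bf fun t => g529 u15 w2076 g2013 n1 t u17
    exact s2104 u18 u19 u9 u0
  have s2110 : T.alt p r c a d = false → T.X p d r c = false → v74 = true → False := fun n0 n1 n2 => by
    have u0 := bt fun t => g2067 n2 t
    have u1 := bf fun t => g24 u0 t
    have u2 := bf fun t => s2106 t n2
    have u3 := bf fun t => s2085 u2 t
    have u4 := bf fun t => g314 t g2011 w2078 u1 u3
    have u5 := bt fun t => s2109 t n1 n2
    have u6 := bf fun t => g48 t u5
    have u7 := bf fun t => g1973 u6 u4 t
    have u8 := bf fun t => s2094 t u5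
    have u9 := bf fun t => g22 t u0
    have u10 := bt fun t => g1980 u5 n0 t
    have u11 := bf fun t => s2108 t n0 n1
    have u12 := bt fun t => g408 u7 n0 t
    have u13 := bt fun t => g2006 u4 u10 t
    have u14 := bf fun t => g2048 t u11
    have u15 := bt fun t => g2050 g2053 t u14
    have u16 := bf fun t => s2098 t u7 u14
    have u17 := bt fun t => g2039 u15 t n1
    have u18 := bt fun t => s2082 u17 t
    have u19 := bf fun t => g582 u12 w2076 g2013 n1 t u18
    have u20 := bf fun t => g820 u13 u0 u19 t
    have u21 := bt fun t => g785 u13 u8 u9 u16 u20 t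
    exact g1664 u8 u0 u19 u20 u21
  have s2111 : T.X p d r c = false → v74 = true → False := fun n0 n1 => by
    have u0 := bt fun t => g2067 n1 t
    have u1 := bf fun t => g24 u0 t
    have u2 := bf fun t => g2069 g2073 t n1
    have u3 := bf fun t => s2106 t n1
    have u4 := bf fun t => g2061 u2 u3 t
    have u5 := bf fun t => s2085 u3 t
    have u6 := bf fun t => g255 t g2011 u4 u1 u5
    have u7 := bf fun t => g22 t u0
    have u8 := bt fun t => s2109 t n0 n1
    have u9 := bf fun t => s2094 t u8
    have u10 := bf fun t => s2096 t u8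
    have u11 := bt fun t => s2110 t n0 n1
    have u12 := bt fun t => g1998 u6 u11 t
    have u13 := bf fun t => g939 u12 u9 u10 u0 t
    have u14 := bf fun t => g450 u11 w2076 g2013 n0 u13 t
    have u15 := bf fun t => s2082 t u14
    have u16 := bf fun t => g2039 t u15 n0
    have u17 := bt fun t => g2050 g2053 u16 t
    have u18 := bt fun t => g2047 u17 t
    have u19 := bt fun t => g912 u12 u9 u7 u18 t
    have u20 := bf fun t => g45 u19 t
    have u21 := bf fun t => g923 u12 u0 t u20
    exact g1689 u9 u0 u18 u21 u20
  have s2112 : T.alt p r c a d = true → v74 = true → False := fun n0 n1 => by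
    have u0 := bt fun t => s2111 t n1
    have u1 := bt fun t => g2067 n1 t
    have u2 := bf fun t => g24 u1 t
    have u3 := bf fun t => s2106 t n1
    have u4 := bf fun t => s2085 u3 t
    have u5 := bf fun t => g314 t g2011 w2078 u2 u4
    have u6 := bf fun t => g2069 g2073 t n1
    have u7 := bf fun t => g2061 u6 u3 t
    have u8 := bf fun t => g255 t g2011 u7 u2 u4
    have u9 := bt fun t => g227 u5 u8 t
    have u10 := bf fun t => g22 t u1
    have u11 := bt fun t => g460 n0 g2012 u0 t
    have u12 := bt fun t => g1998 u8 n0 t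
    have u13 := bf fun t => g772 t u12
    have u14 := bt fun t => g1990 t u9 u13
    have u15 := bf fun t => s2094 t u14
    have u16 := bt fun t => g912 u12 u15 u10 u11 t
    have u17 := bf fun t => g45 u16 t
    have u18 := bf fun t => g923 u12 u1 t u17
    exact g1689 u15 u1 u11 u18 u17
  have s2113 : T.X p d a c = true → v74 = true → False := fun n0 n1 => by
    have u0 := bt fun t => s2111 t n1
    have u1 := bf fun t => g508 t w2076 w2077 w2079 u0
    have u2 := bf fun t => s2112 t n1
    have u3 := bt fun t => g408 u1 u2 t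
    have u4 := bt fun t => g2042 t u3 u0
    have u5 := bf fun t => g27 t n0
    have u6 := bt fun t => g2046 t n0 u4
    have u7 := bf fun t => g581 u3 w2076 g2013 u0 u5 t
    have u8 := bf fun t => g2049 g2053 t u6
    have u9 := bf fun t => s2082 t u7
    exact g2041 u8 u9 u0
  have s2114 : T.alt p r c a b = true → v74 = true → False := fun n0 n1 => by
    have u0 := bt fun t => s2111 t n1
    have u1 := bf fun t => g508 t w2076 w2077 w2079 u0
    have u2 := bf fun t => s2112 t n1
    have u3 := bt fun t => g408 u1 u2 t
    have u4 := bf fun t => s2113 t n1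
    have u5 := bf fun t => g2047 t u4
    have u6 := bt fun t => g2050 g2053 t u5
    have u7 := bf fun t => g2038 u6 t u0
    have u8 := bf fun t => s2083 u7 t
    have u9 := bf fun t => g580 u3 u0 t u8
    have u10 := bt fun t => g2067 n1 t
    have u11 := bf fun t => g22 t u10
    have u12 := bf fun t => g49 t n0
    have u13 := bf fun t => s2094 t n0
    have u14 := bt fun t => g1994 u12 u3 t
    have u15 := bf fun t => g820 u14 u10 u9 t
    have u16 := bt fun t => g785 u14 u13 u11 u4 u15 t
    exact g1664 u13 u10 u9 u15 u16
  have s2115 : v74 = true → False := fun n0 => by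
    have u0 := bt fun t => g2067 n0 t
    have u1 := bf fun t => g2069 g2073 t n0
    have u2 := bf fun t => g24 u0 t
    have u3 := bf fun t => s2106 t n0
    have u4 := bf fun t => s2085 u3 t
    have u5 := bf fun t => g2061 u1 u3 t
    have u6 := bf fun t => g314 t g2011 w2078 u2 u4
    have u7 := bf fun t => g255 t g2011 u5 u2 u4
    have u8 := bt fun t => g227 u6 u7 t
    have u9 := bt fun t => s2111 t n0
    have u10 := bf fun t => g17 t u9
    have u11 := bf fun t => g508 t w2076 w2077 w2079 u9
    have u12 := bf fun t => g1972 t u6 u11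
    have u13 := bf fun t => s2112 t n0
    have u14 := bt fun t => g408 u11 u13 t
    have u15 := bf fun t => g575 u14 g2012 u10 t
    have u16 := bf fun t => s2113 t n0
    have u17 := bf fun t => g2047 t u16
    have u18 := bt fun t => g2050 g2053 t u17
    have u19 := bf fun t => g2038 u18 t u9
    have u20 := bf fun t => s2083 u19 t
    have u21 := bf fun t => g580 u14 u9 t u20
    have u22 := bf fun t => s2114 t n0
    have u23 := bt fun t => g1990 u22 u8 t
    have u24 := bt fun t => g46 u12 t u22
    have u25 := bt fun t => g876 u23 u0 u15 u21 t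
    have u26 := bf fun t => s2104 t u21 u23 u0
    have u27 := bf fun t => g98 u24 g2011 t u26
    have u28 := bf fun t => g1698 t u0 u15 u21 u16 u25
    have u29 := bf fun t => g2027 t u26
    have u30 := bf fun t => g88 u24 w2074 g2012 u27 u28 t
    have u31 := bt fun t => g2030 g2033 t u29
    have u32 := bf fun t => s2080 t u30
    exact g2019 u31 u32 u27
  have w2115 := bf s2115
  have s2116 := fun (n0 : v72 = false) => g2070 g2073 n0 w2115
  have w2116 := bt s2116
  have s2117 : T.alt p r b a d = false → T.alt p r a b d = false → T.bfo p d a b r = false → False := fun n0 n1 n2 => by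
    have u0 := bt fun t => g227 n1 n0 t
    exact g2064 n2 n0 u0
  have s2118 : T.alt p r b a d = true → T.X p b a d = true → False := fun n0 n1 => by
    have u0 := bf fun t => g2066 w2115 n1 t
    have u1 := bf fun t => g24 n1 t
    have u2 := bt fun t => g260 n0 g2013 n1 t
    have u3 := bf fun t => g279 n0 g2011 t u1
    have u4 := bf fun t => g2062 u0 n0 t
    have u5 := bf fun t => g1219 g2011 t n1 u2
    exact g1213 g2013 u5 u4 u3 n1 u2
  have s2119 : T.X p b a c = false → T.alt p a c b d = true → T.X p b a d = true → T.X p c a d = false → T.X p d a c = false → False := fun n0 n1 n2 n3 n4 => by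
    have u0 := bf fun t => g820 n1 n2 n3 t
    have u1 := bf fun t => g22 t n2
    have u2 := bt fun t => g785 n1 n0 u1 n4 u0 t
    exact g1664 n0 n2 n3 u0 u2
  have s2120 : T.X p b a d = true → T.alt p r c a b = false → T.alt p r d a c = true → T.X p c a d = false → T.X p d a c = false → False := fun n0 n1 n2 n3 n4 => by
    have u0 := bf fun t => g411 t n2
    have u1 := bf fun t => g1981 n1 u0 t
    have u2 := bf fun t => g410 t n2
    have u3 := bf fun t => g2066 w2115 n0 t
    have u4 := bf fun t => s2118 t n0
    have u5 := bt fun t => s2117 u4 t u3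
    have u6 := bt fun t => g2004 u5 u1 t
    have u7 := bt fun t => g1974 t u5 u2
    have u8 := bf fun t => g1991 t n2 u6
    have u9 := bf fun t => g146 u7 w2074 w2075 w2077 t
    have u10 := bf fun t => g2025 t n1 u8
    have u11 := bt fun t => s2119 t u6 n0 n3 n4
    have u12 := bf fun t => g2028 t u10
    have u13 := bf fun t => g167 u7 w2074 g2012 u9 u11 t
    have u14 := bt fun t => g2030 g2033 t u12
    have u15 := bf fun t => s2080 t u13
    exact g2019 u14 u15 u9
  have s2121 : T.X r b a d = true → T.X p b a d = false → False := fun n0 n1 => by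
    have u0 := bf fun t => g36 n0 t
    have u1 := bf fun t => g1178 w2074 w2078 t n1 n0
    have u2 := bf fun t => s2084 t u0
    exact g2059 w2116 u2 u1
  have s2122 : T.alt p r b a d = false → T.X p b a c = true → T.X p b r d = false → T.alt p a c b d = false → T.alt p r a b d = false → T.alt p r c a d = false → T.X p d a c = false → False := fun n0 n1 n2 n3 n4 n5 n6 => by
    have u0 := bt fun t => g2059 w2116 t n2
    have u1 := bt fun t => s2084 u0 t
    have u2 := bf fun t => g1997 n0 n5 t
    have u3 := bt fun t => g227 n4 n0 t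
    have u4 := bt fun t => g770 t n3 u2
    have u5 := bt fun t => g387 u3 g2011 w2078 n2 t u1
    exact g877 u4 n1 u5 n6
  have s2123 : T.X p b a c = true → T.X p b r d = false → T.alt p a c b d = false → T.X p b a d = false → T.alt p r c a d = false → T.X p c a d = false → T.X p d a c = false → False := fun n0 n1 n2 n3 n4 n5 n6 => by
    have u0 := bf fun t => s2121 t n3
    have u1 := bf fun t => g311 t w2074 g2013 n3 u0
    have u2 := bf fun t => g19 t n0
    have u3 := bt fun t => s2122 t n0 n1 n2 u1 n4 n6
    have u4 := bt fun t => g1996 u3 n4 t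
    have u5 := bf fun t => g938 u4 n0 n6 t
    have u6 := bt fun t => g903 u4 u2 n3 n5 u5 t
    exact g1703 n0 n3 n6 u5 u6
  have s2124 : T.alt p r b a d = true → T.X p b a c = false → T.X p b r d = false → T.alt p r b a c = true → T.X p b a d = false → T.alt p r d a c = true → T.X p c a d = false → False := fun n0 n1 n2 n3 n4 n5 n6 => by
    have u0 := bt fun t => g2059 w2116 t n2
    have u1 := bt fun t => s2084 u0 t
    have u2 := bf fun t => s2121 t n4
    have u3 := bf fun t => g578 n5 g2013 t n6
    have u4 := bf fun t => g411 t n5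
    have u5 := bf fun t => g230 n0 t
    have u6 := bf fun t => g263 n0 g2013 t u2
    have u7 := bf fun t => g283 n0 g2011 w2078 n2 t u1
    have u8 := bt fun t => g1996 n0 u4 t
    have u9 := bt fun t => g1986 u5 n5 t
    have u10 := bf fun t => g748 u9 t n2 u6 u3
    have u11 := bf fun t => g929 u8 t n4 u7 n6
    have u12 := bf fun t => g88 n3 w2074 g2012 u10 n1 t
    have u13 := bf fun t => g2027 t u11
    have u14 := bf fun t => s2080 t u12
    have u15 := bt fun t => g2030 g2033 t u13
    exact g2019 u15 u14 u10
  have s2125 : T.X p b r d = false → T.alt p r c a b = false → T.alt p r d a c = true → T.X p c a d = false → T.X p d a c = false → False := fun n0 n1 n2 n3 n4 => by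
    have u0 := bf fun t => g410 t n2
    have u1 := bf fun t => s2120 t n1 n2 n3 n4
    have u2 := bf fun t => s2121 t u1
    have u3 := bf fun t => g311 t w2074 g2013 u1 u2
    have u4 := bf fun t => g1972 t u3 u0
    have u5 := bt fun t => g46 u4 t n1
    have u6 := bf fun t => g411 t n2
    have u7 := bf fun t => g1981 n1 u6 t
    have u8 := bf fun t => g2005 u3 u7 t
    have u9 := bt fun t => g2059 w2116 t n0
    have u10 := bt fun t => s2084 u9 t
    have u11 := bf fun t => s2123 t n0 u8 u1 u6 n3 n4
    have u12 := bf fun t => s2124 t u11 n0 u5 u1 n2 n3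
    have u13 := bf fun t => g1997 u12 u6 t
    have u14 := bt fun t => g227 u3 u12 t
    have u15 := bt fun t => g770 t u8 u13
    have u16 := bt fun t => g387 u14 g2011 w2078 n0 t u10
    have u17 := bf fun t => g880 u15 t u16 n3 n4
    have u18 := bf fun t => g2027 t u17
    have u19 := bf fun t => g98 u5 g2011 t u17
    have u20 := bt fun t => g2030 g2033 t u18
    have u21 := bf fun t => g88 u5 w2074 g2012 u19 u11 t
    have u22 := bt fun t => g2019 u20 t u19
    exact s2080 u22 u21
  have s2126 : T.alt p r c a b = false → T.alt p r d a c = true → T.X p c a d = false → T.X p d a c = false → False := fun n0 n1 n2 n3 => by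
    have u0 := bf fun t => g411 t n1
    have u1 := bf fun t => g410 t n1
    have u2 := bf fun t => s2120 t n0 n1 n2 n3
    have u3 := bf fun t => s2121 t u2
    have u4 := bf fun t => g311 t w2074 g2013 u2 u3
    have u5 := bf fun t => g1972 t u4 u1
    have u6 := bt fun t => g46 u5 t n0
    have u7 := bt fun t => s2125 t n0 n1 n2 n3
    have u8 := bf fun t => g397 t g2013 u7 u2
    have u9 := bf fun t => g2058 w2116 t u7
    have u10 := bt fun t => g227 u4 t u8
    have u11 := bf fun t => s2085 u9 t
    have u12 := bf fun t => g281 u10 u7 t u11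
    have u13 := bt fun t => g1996 u10 u0 t
    have u14 := bf fun t => g929 u13 t u2 u12 n2
    have u15 := bf fun t => g2027 t u14
    have u16 := bf fun t => g98 u6 g2011 t u14
    have u17 := bt fun t => g2030 g2033 t u15
    have u18 := bt fun t => g2019 u17 t u16
    have u19 := bt fun t => s2080 u18 t
    have u20 := bt fun t => g88 u6 w2074 g2012 u16 t u19
    have u21 := bf fun t => g19 t u20
    have u22 := bf fun t => g938 u13 u20 n3 t
    have u23 := bt fun t => g903 u13 u21 u2 n2 u22 t
    exact g1703 u20 u2 n3 u22 u23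
  have s2127 : T.alt p r d a c = true → T.X p c a d = false → T.X p d a c = false → False := fun n0 n1 n2 => by
    have u0 := bf fun t => g411 t n0
    have u1 := bt fun t => s2126 t n0 n1 n2
    have u2 := bf fun t => g49 t u1
    have u3 := bf fun t => s2094 t u1
    have u4 := bf fun t => s2096 t u1
    have u5 := bt fun t => g1980 u1 u0 t
    have u6 := bt fun t => g1994 u2 n0 t
    have u7 := bf fun t => g811 u6 u3 u4 t n2
    have u8 := bf fun t => g592 u5 t
    have u9 := bf fun t => s2119 u3 u6 t n1 n2
    have u10 := bt fun t => g1986 t n0 u8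
    have u11 := bf fun t => s2121 t u9
    have u12 := bt fun t => g373 u10 g2013 t u9 u11
    have u13 := bf fun t => g397 u10 g2013 t u9
    have u14 := bf fun t => g1168 w2074 w2078 u12 u7 t
    have u15 := bt fun t => g2059 w2116 t u13
    exact s2084 u15 u14
  have s2128 : T.alt p r a c d = true → T.X p c a d = false → T.X p d a c = false → False := fun n0 n1 n2 => by
    have u0 := bt fun t => g495 n0 g2012 w2078 n2 t
    have u1 := bt fun t => g492 n0 w2076 g2013 n1 t
    exact g39 u1 u0
  have s2129 : T.X p c a d = false → T.X p d a c = false → False := fun n0 n1 => by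
    have u0 := bf fun t => g2047 t n1
    have u1 := bt fun t => g2050 g2053 t u0
    have u2 := bf fun t => s2127 t n0 n1
    have u3 := bf fun t => s2128 t n0 n1
    have u4 := bt fun t => g408 u3 t u2
    have u5 := bf fun t => g460 u4 g2012 t n1
    have u6 := bt fun t => g2039 u1 t u5
    have u7 := bf fun t => g450 u4 w2076 g2013 u5 n0 t
    exact s2082 u6 u7
  have s2130 : T.X p c a b = false → T.alt p r b a c = true → T.X p b a c = false → False := fun n0 n1 n2 => by
    have u0 := bf fun t => g2027 t n0
    have u1 := bf fun t => g98 n1 g2011 t n0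
    have u2 := bt fun t => g2030 g2033 t u0
    have u3 := bf fun t => g88 n1 w2074 g2012 u1 n2 t
    have u4 := bt fun t => g2019 u2 t u1
    exact s2080 u4 u3
  have s2131 : T.alt p r c a b = false → T.X p b a c = false → T.X p b r d = false → T.X p b a d = false → T.alt p r c a d = true → T.X p c a d = true → False := fun n0 n1 n2 n3 n4 n5 => by
    have u0 := bt fun t => g2059 w2116 t n2
    have u1 := bt fun t => s2084 u0 t
    have u2 := bf fun t => g409 t n4
    have u3 := bf fun t => s2121 t n3
    have u4 := bf fun t => g311 t w2074 g2013 n3 u3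
    have u5 := bf fun t => g1972 t u4 u2
    have u6 := bf fun t => g25 t n5
    have u7 := bt fun t => g1982 n0 n4 t
    have u8 := bt fun t => g46 u5 t n0
    have u9 := bf fun t => g590 t u7
    have u10 := bt fun t => g2006 u4 u7 t
    have u11 := bt fun t => g1976 u8 t u9
    have u12 := bf fun t => g283 u11 g2011 w2078 n2 t u1
    have u13 := bt fun t => s2130 t u8 n1
    have u14 := bf fun t => g20 t u13
    have u15 := bt fun t => g797 u10 u13 u12 u6 t
    have u16 := bt fun t => g794 u10 u14 n3 n5 t
    exact g44 u15 u16
  have s2132 : T.X p d a b = false → T.alt p r c a b = true → T.X p b r d = false → T.X p b a d = false → T.X p c a d = true → False := fun n0 n1 n2 n3 n4 => by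
    have u0 := bf fun t => s2096 t n1
    have u1 := bt fun t => g2059 w2116 t n2
    have u2 := bt fun t => s2084 u1 t
    have u3 := bf fun t => g25 t n4
    have u4 := bf fun t => g387 t g2011 w2078 n2 n0 u2
    have u5 := bt fun t => g1988 n1 u4 t
    have u6 := bf fun t => g879 u5 n3 n4 t
    have u7 := bf fun t => g1708 u0 n3 n4 u6 t
    exact g844 u5 u0 n0 u3 u6 u7
  have s2133 : T.alt p r c a b = true → T.X p b r d = false → T.X p b a d = false → T.alt p r c a d = true → T.X p c a d = true → False := fun n0 n1 n2 n3 n4 => by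
    have u0 := bt fun t => g2059 w2116 t n1
    have u1 := bt fun t => s2084 u0 t
    have u2 := bf fun t => s2096 t n0
    have u3 := bt fun t => s2132 t n0 n1 n2 n4
    have u4 := bf fun t => g936 t u2 u3 n4
    have u5 := bf fun t => g283 t g2011 w2078 n1 u3 u1
    exact g1998 u5 n3 u4
  have s2134 : T.X p b r d = false → T.X p b a d = false → T.X p c r d = true → T.alt p r c a d = true → T.X p c a d = true → False := fun n0 n1 n2 n3 n4 => by
    have u0 := bf fun t => g409 t n3
    have u1 := bf fun t => s2121 t n1
    have u2 := bf fun t => g311 t w2074 g2013 n1 u1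
    have u3 := bf fun t => g1972 t u2 u0
    have u4 := bt fun t => g441 n3 g2013 n4 t
    have u5 := bt fun t => g2059 w2116 t n0
    have u6 := bt fun t => s2084 u5 t
    have u7 := bf fun t => s2133 t n0 n1 n3 n4
    have u8 := bt fun t => g1982 u7 n3 t
    have u9 := bt fun t => g46 u3 t u7
    have u10 := bt fun t => s2131 u7 t n0 n1 n3 n4
    have u11 := bt fun t => g2006 u2 u8 t
    have u12 := bf fun t => g19 t u10
    have u13 := bt fun t => g79 u9 g2012 u10 t
    have u14 := bf fun t => g1049 g2011 t u10 u13
    have u15 := bt fun t => g794 u11 u12 n1 n4 t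
    have u16 := bf fun t => g31 t u13
    have u17 := bf fun t => g33 u13 t
    have u18 := bt fun t => g613 u8 u14 n0 n2 t
    exact g1918 u16 u17 u6 u4 u18 u15
  have s2135 : T.X p b a c = true → T.X p a b d = false → T.X p b a d = false → T.alt p r c a d = true → T.X p c a d = true → False := fun n0 n1 n2 n3 n4 => by
    have u0 := bf fun t => s2121 t n2
    have u1 := bf fun t => g311 t w2074 g2013 n2 u0
    have u2 := bf fun t => s2094 n0 t
    have u3 := bt fun t => g1982 u2 n3 t
    have u4 := bt fun t => g2006 u1 u3 t
    have u5 := bt fun t => g817 u4 n1 n2 n4 t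
    have u6 := bt fun t => g805 u4 n0 u5 t
    exact g1770 n0 n1 n2 n4 u5 u6
  have s2136 : T.alt p r c a b = false → T.X p d a b = false → T.X p a b d = false → T.X p b a d = false → T.alt p r c a d = true → T.X p c a d = true → False := fun n0 n1 n2 n3 n4 n5 => by
    have u0 := bf fun t => s2135 t n2 n3 n4 n5
    have u1 := bf fun t => g409 t n4
    have u2 := bf fun t => s2121 t n3
    have u3 := bf fun t => g311 t w2074 g2013 n3 u2
    have u4 := bf fun t => g1972 t u3 u1
    have u5 := bt fun t => g1982 n0 n4 t
    have u6 := bt fun t => g46 u4 t n0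
    have u7 := bt fun t => g2006 u3 u5 t
    have u8 := bt fun t => s2130 t u6 u0
    have u9 := bt fun t => g817 u7 n2 n3 n5 t
    exact g1699 u8 n2 n3 n1 n5 u9
  have s2137 : T.X p b a d = false → T.X p c r d = true → T.alt p r c a d = true → T.X p c a d = true → False := fun n0 n1 n2 n3 => by
    have u0 := bf fun t => g25 t n3
    have u1 := bf fun t => s2121 t n0
    have u2 := bf fun t => g311 t w2074 g2013 n0 u1
    have u3 := bt fun t => s2134 t n0 n1 n2 n3
    have u4 := bf fun t => g13 t u3
    have u5 := bf fun t => g397 t g2013 u3 n0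
    have u6 := bf fun t => g2058 w2116 t u3
    have u7 := bf fun t => g1171 w2074 g2013 u4 t u1
    have u8 := bt fun t => g227 u2 t u5
    have u9 := bf fun t => s2085 u6 t
    have u10 := bf fun t => g281 u8 u3 t u9
    have u11 := bt fun t => s2136 t u10 u7 n0 n2 n3
    have u12 := bf fun t => s2096 t u11
    have u13 := bt fun t => g1988 u11 u5 t
    have u14 := bf fun t => g879 u13 n0 n3 t
    have u15 := bf fun t => g1708 u12 n0 n3 u14 t
    exact g844 u13 u12 u10 u0 u14 u15
  have s2138 : T.alt p r c a d = true → T.X p d a c = false → False := fun n0 n1 => by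
    have u0 := bt fun t => s2129 t n1
    have u1 := bf fun t => g409 t n0
    have u2 := bt fun t => g441 n0 g2013 u0 t
    have u3 := bf fun t => g39 u2 t
    have u4 := bf fun t => g1389 g2012 t u0 u2
    have u5 := bt fun t => g436 n0 g2012 t n1 u3
    have u6 := bt fun t => s2137 t u5 n0 u0
    have u7 := bf fun t => g22 t u6
    have u8 := bf fun t => g24 u6 t
    have u9 := bf fun t => g2066 w2115 u6 t
    have u10 := bf fun t => s2118 t u6
    have u11 := bt fun t => s2117 u10 t u9
    have u12 := bt fun t => g1998 u10 n0 t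
    have u13 := bf fun t => g327 u11 w2074 w2075 w2079 t
    have u14 := bt fun t => g1974 t u11 u1
    have u15 := bt fun t => g314 u11 g2011 w2078 u8 t
    have u16 := bf fun t => g773 t u12
    have u17 := bt fun t => g920 u12 u6 u0 t
    have u18 := bf fun t => g47 u14 t
    have u19 := bf fun t => g48 u14 t
    have u20 := bf fun t => g146 u14 w2074 w2075 w2077 t
    have u21 := bf fun t => g35 t u15
    have u22 := bt fun t => g2004 u11 t u16
    have u23 := bf fun t => g44 t u17
    have u24 := bf fun t => g2025 t u19 u18
    have u25 := bt fun t => g301 u11 w2075 w2079 t u7 u21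
    have u26 := bf fun t => g2028 t u24
    have u27 := bf fun t => g638 u22 u25 u4 t
    have u28 := bt fun t => g2030 g2033 t u26
    have u29 := bf fun t => g615 u22 u20 u13 u4 u27 t
    have u30 := bt fun t => g2019 u28 t u20
    have u31 := bf fun t => g1826 t u15 u3 u29 u23
    exact s2080 u30 u31
  have s2139 : T.alt p r a c d = true → T.X p d a c = false → False := fun n0 n1 => by
    have u0 := bt fun t => s2129 t n1
    have u1 := bf fun t => g2047 t n1
    have u2 := bt fun t => g2050 g2053 t u1
    have u3 := bf fun t => g508 n0 w2076 w2077 w2079 t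
    have u4 := bf fun t => g529 n0 w2076 g2013 u3 u0 t
    have u5 := bt fun t => g2039 u2 t u3
    exact s2082 u5 u4
  have s2140 : T.X r c a d = false → T.X p d a c = false → False := fun n0 n1 => by
    have u0 := bf fun t => s2138 t n1
    have u1 := bf fun t => s2139 t n1
    have u2 := bt fun t => g408 u1 u0 t
    have u3 := bt fun t => s2129 t n1
    have u4 := bf fun t => g2047 t n1
    have u5 := bt fun t => g2050 g2053 t u4
    have u6 := bf fun t => s2082 t n0
    have u7 := bf fun t => g580 u2 t u3 n0
    exact g2039 u5 u6 u7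
  have s2141 : T.X p d a c = false → False := fun n0 => by
    have u0 := bf fun t => g2047 t n0
    have u1 := bt fun t => g2050 g2053 t u0
    have u2 := bt fun t => s2129 t n0
    have u3 := bf fun t => s2138 t n0
    have u4 := bf fun t => s2139 t n0
    have u5 := bt fun t => g408 u4 u3 t
    have u6 := bt fun t => s2140 t n0
    have u7 := bt fun t => s2083 t u6
    have u8 := bt fun t => g582 u5 w2076 g2013 t u2 u6
    exact g2038 u1 u7 u8
  have w2141 := bt s2141
  have s2142 := fun (n0 : T.X p a c d = true) => g26 n0 w2141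
  have w2142 := bf s2142
  have s2143 := fun (n0 : T.X p c a d = true) => g27 n0 w2141
  have w2143 := bf s2143
  have s2144 : T.X p b a d = true → T.alt p r c b d = true → T.alt p r c a d = true → T.X p d r c = true → False := fun n0 n1 n2 n3 => by
    have u0 := bf fun t => g508 t w2076 w2077 w2079 n3
    have u1 := bf fun t => g2066 w2115 n0 t
    have u2 := bf fun t => s2118 t n0
    have u3 := bt fun t => s2117 u2 t u1
    have u4 := bt fun t => g1998 u2 n2 t
    have u5 := bf fun t => g327 u3 w2074 w2075 w2079 t
    have u6 := bt fun t => g1974 t u3 u0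
    have u7 := bf fun t => s2086 t u4 w2141 n0
    have u8 := bf fun t => g637 n1 t u5 n3
    have u9 := bf fun t => g2027 t u7
    have u10 := bt fun t => g133 u6 g2011 w2076 u7 t
    have u11 := bt fun t => g2030 g2033 t u9
    have u12 := bf fun t => g33 t u10
    have u13 := bt fun t => g2019 u11 t u8
    exact s2080 u13 u12
  have s2145 : T.X p b r d = false → T.X p d a b = true → T.alt p r b a d = true → False := fun n0 n1 n2 => by
    have u0 := bt fun t => g2059 w2116 t n0
    have u1 := bf fun t => g283 n2 g2011 w2078 n0 n1 t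
    exact s2084 u0 u1
  have s2146 : T.X p d a b = true → T.alt p r b a d = true → False := fun n0 n1 => by
    have u0 := bt fun t => s2145 t n0 n1
    have u1 := bf fun t => g2058 w2116 t u0
    have u2 := bt fun t => g281 n1 u0 n0 t
    exact s2085 u1 u2
  have s2147 : T.alt p r c a b = false → T.X p d r c = true → T.alt p r d a c = false → False := fun n0 n1 n2 => by
    have u0 := bf fun t => g508 t w2076 w2077 w2079 n1
    have u1 := bt fun t => g408 u0 t n2
    have u2 := bt fun t => g1982 n0 u1 t
    have u3 := bf fun t => g592 u2 t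
    have u4 := bf fun t => g1984 t n2 u3
    have u5 := bf fun t => s2144 t u2 u1 n1
    have u6 := bf fun t => s2121 t u5
    have u7 := bf fun t => g311 t w2074 g2013 u5 u6
    have u8 := bf fun t => g1972 t u7 u0
    have u9 := bt fun t => g2006 u7 u2 t
    have u10 := bt fun t => g227 u7 t u4
    have u11 := bt fun t => g46 u8 t n0
    have u12 := bf fun t => s2146 t u10
    have u13 := bf fun t => g821 u9 t u5 u12 w2141
    have u14 := bf fun t => g818 u9 t u12 w2141
    exact s2130 u14 u11 u13
  have s2148 : T.alt p r b a d = true → T.alt p r c a b = true → False := fun n0 n1 => by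
    have u0 := bf fun t => s2096 t n1
    have u1 := bf fun t => s2094 t n1
    have u2 := bf fun t => g230 n0 t
    have u3 := bf fun t => s2146 t n0
    have u4 := bt fun t => g1988 n1 u2 t
    exact g870 u4 u1 u0 u3 w2141
  have s2149 : T.X p d r c = true → T.X r c a d = true → False := fun n0 n1 => by
    have u0 := bf fun t => g39 n1 t
    have u1 := bf fun t => g559 t g2012 w2141 u0
    have u2 := bf fun t => g37 t n1
    have u3 := bf fun t => g508 t w2076 w2077 w2079 n0
    have u4 := bt fun t => g408 u3 t u1
    have u5 := bt fun t => s2147 t n0 u1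
    have u6 := bf fun t => g48 t u5
    have u7 := bf fun t => s2094 t u5
    have u8 := bf fun t => s2096 t u5
    have u9 := bf fun t => g216 u5 g2012 t u7
    have u10 := bf fun t => g1974 u6 t u3
    have u11 := bf fun t => g206 u5 g2011 w2076 u9 u8 t
    have u12 := bf fun t => s2148 t u5
    have u13 := bt fun t => s2117 u12 u10 t
    have u14 := bt fun t => g227 u10 u12 t
    have u15 := bt fun t => g1998 u12 u4 t
    have u16 := bf fun t => g2066 w2115 t u13
    have u17 := bf fun t => g397 u14 g2013 t u16
    have u18 := bt fun t => g1984 u14 u1 t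
    have u19 := bf fun t => s2121 t u16
    have u20 := bt fun t => g2059 w2116 t u17
    have u21 := bt fun t => g373 u14 g2013 t u16 u19
    have u22 := bt fun t => s2084 u20 t
    have u23 := bf fun t => g14 t u21
    have u24 := bf fun t => g35 t u22
    have u25 := bt fun t => g1168 w2074 w2078 u21 t u22
    have u26 := bt fun t => g731 u18 u9 u23 n0 t
    have u27 := bt fun t => g915 u15 u8 u25 w2142 t
    exact g1833 u11 u24 u2 u26 u27
  have s2150 : T.X p d a b = true → T.alt p r b a d = false → T.X r c a d = true → False := fun n0 n1 n2 => by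
    have u0 := bf fun t => s2149 t n2
    have u1 := bf fun t => g450 t w2076 g2013 u0 w2143 n2
    have u2 := bf fun t => g1997 n1 u1 t
    have u3 := bf fun t => g39 n2 t
    have u4 := bf fun t => g559 t g2012 w2141 u3
    have u5 := bt fun t => g408 t u1 u4
    have u6 := bf fun t => g1348 w2076 w2078 t w2143 n2
    have u7 := bf fun t => g24 t n0
    have u8 := bf fun t => s2121 t u7
    have u9 := bf fun t => g311 t w2074 g2013 u7 u8
    have u10 := bt fun t => g1973 t u9 u5
    have u11 := bt fun t => g227 u9 n1 t
    have u12 := bf fun t => g47 u10 t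
    have u13 := bf fun t => g48 u10 t
    have u14 := bf fun t => g146 u10 w2074 w2075 w2077 t
    have u15 := bt fun t => g2000 u10 t u2
    have u16 := bf fun t => g397 u11 g2013 t u7
    have u17 := bt fun t => g378 u11 g2011 n0 t
    have u18 := bt fun t => g373 u11 g2013 t u7 u8
    have u19 := bf fun t => g2025 t u13 u12
    have u20 := bf fun t => g1228 g2013 t n0 u17
    have u21 := bf fun t => g2028 t u19
    have u22 := bf fun t => g721 u15 u20 u16 u6 t
    have u23 := bt fun t => g2030 g2033 t u21
    have u24 := bf fun t => g1544 u14 u18 u0 u22 t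
    have u25 := bt fun t => g2019 u23 t u14
    have u26 := bt fun t => s2080 u25 t
    have u27 := bf fun t => g33 u26 t
    have u28 := bt fun t => g1837 u26 u8 n2 u24 t
    exact g1884 u27 u17 u3 u24 u28
  have s2151 : T.alt p r d a b = true → T.X p d a b = false → T.alt p r b a d = false → False := fun n0 n1 n2 => by
    have u0 := bt fun t => g2064 t n2 n0
    have u1 := bf fun t => g2066 w2115 t u0
    have u2 := bf fun t => g397 n0 g2013 t u1
    have u3 := bt fun t => g2059 w2116 t u2
    have u4 := bf fun t => g387 n0 g2011 w2078 u2 n1 t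
    exact s2084 u3 u4
  have s2152 : T.alt p r c a b = false → T.alt p r b a d = false → T.X r c a d = true → False := fun n0 n1 n2 => by
    have u0 := bf fun t => s2150 t n1 n2
    have u1 := bf fun t => s2151 t u0 n1
    have u2 := bt fun t => g227 t n1 u1
    have u3 := bt fun t => g314 u2 g2011 w2078 u0 t
    have u4 := bf fun t => g36 t u3
    have u5 := bf fun t => s2149 t n2
    have u6 := bf fun t => g450 t w2076 g2013 u5 w2143 n2
    have u7 := bf fun t => g1997 n1 u6 t
    have u8 := bf fun t => g39 n2 t
    have u9 := bf fun t => g559 t g2012 w2141 u8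
    have u10 := bf fun t => g1985 u1 u9 t
    have u11 := bf fun t => g2000 t u10 u7
    have u12 := bf fun t => g1981 n0 u6 t
    have u13 := bt fun t => g46 u11 t n0
    have u14 := bt fun t => g2004 u2 u12 t
    have u15 := bf fun t => g818 u14 t u0 w2141
    have u16 := bt fun t => s2130 u15 u13 t
    have u17 := bt fun t => g802 u14 u16 w2141 t
    have u18 := bt fun t => g79 u13 g2012 u16 t
    have u19 := bf fun t => g43 t u17
    have u20 := bf fun t => g33 u18 t
    have u21 := bf fun t => g1877 u20 u4 n2 t u19
    exact g1826 u18 u3 u8 u21 u19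
  have s2153 : T.alt p r b a d = false → T.X r c a d = true → False := fun n0 n1 => by
    have u0 := bf fun t => s2150 t n0 n1
    have u1 := bf fun t => s2151 t u0 n0
    have u2 := bt fun t => s2152 t n0 n1
    have u3 := bf fun t => s2094 t u2
    have u4 := bf fun t => s2096 t u2
    have u5 := bt fun t => g1988 u2 u1 t
    exact g870 u5 u3 u4 u0 w2141
  have s2154 : T.X r c a d = true → False := fun n0 => by
    have u0 := bf fun t => g39 n0 t
    have u1 := bf fun t => g559 t g2012 w2141 u0
    have u2 := bf fun t => s2149 t n0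
    have u3 := bf fun t => g450 t w2076 g2013 u2 w2143 n0
    have u4 := bt fun t => g408 t u3 u1
    have u5 := bt fun t => s2153 t n0
    have u6 := bf fun t => g228 t u5
    have u7 := bt fun t => g1996 u5 u3 t
    have u8 := bf fun t => s2118 u5 t
    have u9 := bf fun t => s2146 t u5
    have u10 := bt fun t => g1973 t u6 u4
    have u11 := bf fun t => g929 u7 t u8 u9 w2143
    have u12 := bf fun t => g146 u10 w2074 w2075 w2077 t
    have u13 := bf fun t => g2027 t u11
    have u14 := bt fun t => g133 u10 g2011 w2076 u11 t
    have u15 := bt fun t => g2030 g2033 t u13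
    have u16 := bf fun t => g33 t u14
    have u17 := bt fun t => g2019 u15 t u12
    exact s2080 u17 u16
  have w2154 := bf s2154
  have s2155 := fun (n0 : v66 = true) => s2082 n0 w2154
  have w2155 := bf s2155
  have s2156 := fun (n0 : T.alt p r a c d = true) => g492 n0 w2076 g2013 w2143 w2154
  have w2156 := bf s2156
  have s2157 := fun (n0 : v69 = false) => s2098 w2141 w2156 n0
  have w2157 := bt s2157
  have s2158 := fun (n0 : T.bfo p c a d r = false) => g2048 w2157 n0
  have w2158 := bt s2158
  have s2159 := fun (n0 : v67 = true) => g2049 g2053 n0 w2157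
  have w2159 := bf s2159
  have s2160 := fun (n0 : T.X p d r c = true) => g2041 w2159 w2155 n0
  have w2160 := bf s2160
  have s2161 := fun (n0 : T.alt p r d a c = true) => g554 n0 g2013 w2160 w2143 w2154
  have w2161 := bf s2161
  have s2162 := fun (n0 : T.alt p r c a d = false) => s2108 w2158 n0 w2160
  have w2162 := bt s2162
  have s2163 : T.alt p r b a d = true → False := fun n0 => by
    have u0 := bf fun t => g228 t n0
    have u1 := bf fun t => s2118 n0 t
    have u2 := bf fun t => s2146 t n0
    have u3 := bf fun t => s2148 n0 t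
    have u4 := bf fun t => g1972 t u0 w2156
    have u5 := bt fun t => g1982 u3 w2162 t
    have u6 := bt fun t => g46 u4 t u3
    have u7 := bt fun t => g2006 u0 u5 t
    have u8 := bf fun t => g818 u7 t u2 w2141
    have u9 := bf fun t => g821 u7 t u1 u2 w2141
    exact s2130 u8 u6 u9
  have w2163 := bf s2163
  have s2164 := fun (n0 : T.alt p a d b c = false) => g1998 w2163 w2162 n0
  have w2164 := bt s2164
  have s2165 := fun (n0 : T.alt p a b c d = true) => g772 n0 w2164
  have w2165 := bf s2165
  have s2166 := fun (n0 : T.alt p a c b d = true) => g773 n0 w2164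
  have w2166 := bf s2166
  have s2168 := fun (n0 : T.alt p r b a c = true) => g1992 n0 w2161 w2166
  have w2168 := bf s2168
  have s2169 : T.X p d a b = false → False := fun n0 => by
    have u0 := bf fun t => s2151 t n0 w2163
    have u1 := bf fun t => g1985 u0 w2161 t
    have u2 := bt fun t => g227 t w2163 u0
    have u3 := bf fun t => g1988 t u0 w2165
    have u4 := bt fun t => g2001 t u1 w2164
    have u5 := bt fun t => g314 u2 g2011 w2078 n0 t
    have u6 := bf fun t => g2025 t u3 w2168
    have u7 := bf fun t => g146 u4 w2074 w2075 w2077 t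
    have u8 := bf fun t => g36 t u5
    have u9 := bf fun t => g2028 t u6
    have u10 := bt fun t => g311 u2 w2074 g2013 t u8
    have u11 := bt fun t => g2030 g2033 t u9
    have u12 := bf fun t => s2086 t w2164 w2141 u10
    have u13 := bt fun t => g2019 u11 t u7
    have u14 := bt fun t => g133 u4 g2011 w2076 u12 t
    have u15 := bt fun t => s2080 u13 t
    exact g33 u15 u14
  have w2169 := bt s2169
  have s2170 := fun (n0 : T.X p a b d = true) => g23 n0 w2169
  have w2170 := bf s2170
  have s2171 := fun (n0 : T.X p b a d = true) => g24 n0 w2169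
  have w2171 := bf s2171
  have s2173 := fun (n0 : T.X r b a d = true) => s2121 n0 w2171
  have w2173 := bf s2173
  have s2174 := fun (n0 : T.alt p r a b d = true) => g311 n0 w2074 g2013 w2171 w2173
  have w2174 := bf s2174
  have s2175 := fun (n0 : T.alt p r a b c = true) => g1972 n0 w2174 w2156
  have w2175 := bf s2175
  have s2180 := fun (n0 : T.alt p r c a b = false) => g46 w2175 w2168 n0
  have w2180 := bt s2180
  have s2184 := fun (n0 : T.X p b a c = true) => s2094 n0 w2180
  have w2184 := bf s2184
  have s2186 := fun (n0 : T.X p c a b = true) => s2096 n0 w2180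
  have w2186 := bf s2186
  have s2191 := fun (n0 : T.X a c b d = false) => g912 w2164 w2184 w2170 w2141 n0
  have w2191 := bt s2191
  have s2193 := fun (n0 : T.X a b c d = false) => g915 w2164 w2186 w2169 w2142 n0
  have w2193 := bt s2193
  exact g1805 w2193 w2191

theorem ft_tr {p r a b c : V} (hN : [p, r, a, b, c].Nodup) (h0 : T.X p r a b = true) (h1 : T.X p r b c = true)
    (h2 : T.X p r c a = true) (h3 : T.lto p r a b b c = true) (h4 : T.lto p r b c c a = true)
    (h5 : T.lto p r c a a b = true) : False := by
  obtain ⟨v19, e19⟩ : ∃ v : Bool, v = (T.X p b r a ^^ T.X r a b c) := ⟨_, rfl⟩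
  obtain ⟨v20, e20⟩ : ∃ v : Bool, v = (v19 ^^ T.X p c r a) := ⟨_, rfl⟩
  have B21 : T.bfo p a b c r = (bif T.alt p r c a b then T.X p c r a else T.alt p r a b c) :=
    T.bfo_eq (T.as5 p a b c r) (T.xs2 p c a r) (T.as3 p a r c b)
  obtain ⟨v22, e22⟩ : ∃ v : Bool, v = (T.X p c a b && T.bfo p a b c r) := ⟨_, rfl⟩
  have L23 : T.lto p r a b b c = (v20 ^^ v22) :=
    T.lto_eqa (T.xs6 a r p b) (T.xs1 a r b c) (T.xs7 a r c p) rfl e19 e20 e22
  obtain ⟨v24, e24⟩ : ∃ v : Bool, v = (T.X p c r b ^^ T.X r b a c) := ⟨_, rfl⟩
  obtain ⟨v25, e25⟩ : ∃ v : Bool, v = (v24 ^^ T.X p a r b) := ⟨_, rfl⟩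
  have B26 : T.bfo p b c a r = (bif T.alt p r a b c then T.X p a r b else T.alt p r b a c) :=
    T.bfo_eq (T.as5 p b c a r) (T.xs2 p a b r) (T.as1 p b r a c)
  obtain ⟨v27, e27⟩ : ∃ v : Bool, v = (T.X p a b c && T.bfo p b c a r) := ⟨_, rfl⟩
  have L28 : T.lto p r b c c a = (v25 ^^ v27) :=
    T.lto_eqa (T.xs6 b r p c) (T.xs3 b r c a) (T.xs7 b r a p) rfl e24 e25 e27
  obtain ⟨v29, e29⟩ : ∃ v : Bool, v = (T.X p a r c ^^ T.X r c a b) := ⟨_, rfl⟩
  obtain ⟨v30, e30⟩ : ∃ v : Bool, v = (v29 ^^ T.X p b r c) := ⟨_, rfl⟩
  have B31 : T.bfo p c a b r = (bif T.alt p r b a c then T.X p b r c else T.alt p r c a b) :=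
    T.bfo_eq (T.as7 p c a b r) (T.xs2 p b c r) (T.as3 p c r b a)
  obtain ⟨v32, e32⟩ : ∃ v : Bool, v = (T.X p b a c && T.bfo p c a b r) := ⟨_, rfl⟩
  have L33 : T.lto p r c a a b = (v30 ^^ v32) :=
    T.lto_eqa (T.xs6 c r p a) (T.xs1 c r a b) (T.xs7 c r b p) (T.xs2 p b c a) e29 e30 e32
  have k0 : T.Ok5 p r a b c := T.n5 hN (.cons_cons _ (.cons_cons _ (.cons_cons _ (.cons_cons _ (.cons_cons _ (List.nil_sublist _))))))
  have g1 := T.q01 p r a b
  have g2 := T.q02 p r a b
  have g4 := T.q01 p r a c
  have g5 := T.q02 p r a c
  have g7 := T.q01 p r b c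
  have g8 := T.q02 p r b c
  have g10 := T.q01 p a b c
  have g14 := T.q02 r a b c
  have g295 := z5_9281_9281 k0
  have g304 := z5_18504_18504 k0
  have g367 : T.X p r a b = true := h0
  have g368 : T.X p r b c = true := h1
  have g369 : T.X p r a c = true := ((T.xs2 p r c a).symm.trans h2)
  have g371 := xr2 e19
  have g375 := xr2 e20
  have g383 := an1 e22
  have g386 := xr2 L23
  have g389 : T.lto p r a b b c = true := h3
  have g391 := xr2 e24
  have g395 := xr2 e25
  have g403 := an1 e27
  have g406 := xr2 L28
  have g409 : T.lto p r b c c a = true := h4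
  have g411 := xr2 e29
  have g415 := xr2 e30
  have g423 := an1 e32
  have g426 := xr2 L33
  have g429 : T.lto p r c a a b = true := h5
  have s430 := fun (n0 : T.X p a r b = true) => g1 g367 n0
  have w430 := bf s430
  have s431 := fun (n0 : T.X p b r a = true) => g2 g367 n0
  have w431 := bf s431
  have s432 := fun (n0 : T.X p b r c = true) => g7 g368 n0
  have w432 := bf s432
  have s433 := fun (n0 : T.X p c r b = true) => g8 g368 n0
  have w433 := bf s433
  have s434 := fun (n0 : T.X p a r c = true) => g4 g369 n0
  have w434 := bf s434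
  have s435 := fun (n0 : T.X p c r a = true) => g5 g369 n0
  have w435 := bf s435
  have s436 := fun (n0 : v19 = true) (n1 : T.X r a b c = false) => g371 n0 w431 n1
  have s438 := fun (n0 : v20 = true) (n1 : v19 = false) => g375 n0 n1 w435
  have s441 := fun (n0 : v24 = true) (n1 : T.X r b a c = false) => g391 n0 w433 n1
  have s443 := fun (n0 : v25 = true) (n1 : v24 = false) => g395 n0 n1 w430
  have s446 := fun (n0 : v29 = true) (n1 : T.X r c a b = false) => g411 n0 w434 n1
  have s448 := fun (n0 : v30 = true) (n1 : v29 = false) => g415 n0 n1 w432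
  have s451 : T.X p b a c = true → False := fun n0 => by
    have u0 := bf fun t => g10 t n0
    have u1 := bf fun t => g295 g367 g368 n0 t
    have u2 := bf fun t => g403 t u0
    have u3 := bf fun t => s441 t u1
    have u4 := bt fun t => g406 g409 t u2
    exact s443 u4 u3
  have w451 := bf s451
  have s452 := fun (n0 : v32 = true) => g423 n0 w451
  have w452 := bf s452
  have s453 := fun (n0 : v30 = false) => g426 g429 n0 w452
  have w453 := bt s453
  have s454 := fun (n0 : v29 = false) => s448 w453 n0
  have w454 := bt s454
  have s455 := fun (n0 : T.X r c a b = false) => s446 w454 n0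
  have w455 := bt s455
  have s456 := fun (n0 : T.X r a b c = true) => g14 n0 w455
  have w456 := bf s456
  have s458 := fun (n0 : T.X p c a b = true) => g304 g369 g368 n0 w455
  have w458 := bf s458
  have s460 := fun (n0 : v19 = true) => s436 n0 w456
  have w460 := bf s460
  have s463 := fun (n0 : v22 = true) => g383 n0 w458
  have w463 := bf s463
  have s465 := fun (n0 : v20 = true) => s438 n0 w460
  have w465 := bf s465
  exact g386 g389 w465 w463

theorem ft_pa {p r a b c d : V} (hN : [p, r, a, b, c, d].Nodup) (h0 : T.X p r a b = true) (h1 : T.X p r b c = true)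
    (h2 : T.X p r c d = true) (h3 : T.X c d a b = false) (h4 : T.lto p r a b b c = true)
    (h5 : T.lto p r b c c d = true) (h6 : T.lto p r c d a b = true) : False := by
  obtain ⟨v61, e61⟩ : ∃ v : Bool, v = (T.X p b r a ^^ T.X r a b c) := ⟨_, rfl⟩
  obtain ⟨v62, e62⟩ : ∃ v : Bool, v = (v61 ^^ T.X p c r a) := ⟨_, rfl⟩
  have B63 : T.bfo p a b c r = (bif T.alt p r c a b then T.X p c r a else T.alt p r a b c) :=
    T.bfo_eq (T.as5 p a b c r) (T.xs2 p c a r) (T.as3 p a r c b)
  obtain ⟨v64, e64⟩ : ∃ v : Bool, v = (T.X p c a b && T.bfo p a b c r) := ⟨_, rfl⟩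
  have L65 : T.lto p r a b b c = (v62 ^^ v64) :=
    T.lto_eqa (T.xs6 a r p b) (T.xs1 a r b c) (T.xs7 a r c p) rfl e61 e62 e64
  obtain ⟨v66, e66⟩ : ∃ v : Bool, v = (T.X p c r b ^^ T.X r b c d) := ⟨_, rfl⟩
  obtain ⟨v67, e67⟩ : ∃ v : Bool, v = (v66 ^^ T.X p d r b) := ⟨_, rfl⟩
  have B68 : T.bfo p b c d r = (bif T.alt p r d b c then T.X p d r b else T.alt p r b c d) :=
    T.bfo_eq (T.as5 p b c d r) (T.xs2 p d b r) (T.as3 p b r d c)
  obtain ⟨v69, e69⟩ : ∃ v : Bool, v = (T.X p d b c && T.bfo p b c d r) := ⟨_, rfl⟩
  have L70 : T.lto p r b c c d = (v67 ^^ v69) :=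
    T.lto_eqa (T.xs6 b r p c) (T.xs1 b r c d) (T.xs7 b r d p) rfl e66 e67 e69
  obtain ⟨v71, e71⟩ : ∃ v : Bool, v = (T.X p a r c ^^ T.X r c a b) := ⟨_, rfl⟩
  obtain ⟨v72, e72⟩ : ∃ v : Bool, v = (v71 ^^ T.X p b r c) := ⟨_, rfl⟩
  have B73 : T.bfo p c d a r = (bif T.alt p r a c d then T.X p a r c else T.alt p r c a d) :=
    T.bfo_eq (T.as5 p c d a r) (T.xs2 p a c r) (T.as1 p c r a d)
  obtain ⟨v74, e74⟩ : ∃ v : Bool, v = (T.X p a c d && T.bfo p c d a r) := ⟨_, rfl⟩
  have B75 : T.bfo p c d b r = (bif T.alt p r b c d then T.X p b r c else T.alt p r c b d) :=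
    T.bfo_eq (T.as5 p c d b r) (T.xs2 p b c r) (T.as1 p c r b d)
  obtain ⟨v76, e76⟩ : ∃ v : Bool, v = (T.X p b c d && T.bfo p c d b r) := ⟨_, rfl⟩
  obtain ⟨v77, e77⟩ : ∃ v : Bool, v = (v72 ^^ v74) := ⟨_, rfl⟩
  have L78 : T.lto p r c d a b = (v77 ^^ v76) :=
    T.lto_eq (T.xs6 c r p a) (T.xs1 c r a b) (T.xs7 c r b p) rfl rfl e71 e72 e74 e77 e76
  have k0 : T.Ok5 p r a b c := T.n5 hN (.cons_cons _ (.cons_cons _ (.cons_cons _ (.cons_cons _ (.cons_cons _ (List.nil_sublist _))))))
  have k1 : T.Ok5 p r a b d := T.n5 hN (.cons_cons _ (.cons_cons _ (.cons_cons _ (.cons_cons _ (.cons _ (.cons_cons _ (List.nil_sublist _)))))))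
  have k2 : T.Ok5 p r a c d := T.n5 hN (.cons_cons _ (.cons_cons _ (.cons_cons _ (.cons _ (.cons_cons _ (.cons_cons _ (List.nil_sublist _)))))))
  have k3 : T.Ok5 p r b c d := T.n5 hN (.cons_cons _ (.cons_cons _ (.cons _ (.cons_cons _ (.cons_cons _ (.cons_cons _ (List.nil_sublist _)))))))
  have k4 : T.Ok5 p a b c d := T.n5 hN (.cons_cons _ (.cons _ (.cons_cons _ (.cons_cons _ (.cons_cons _ (.cons_cons _ (List.nil_sublist _)))))))
  have k5 : T.Ok5 r a b c d := T.n5 hN (.cons _ (.cons_cons _ (.cons_cons _ (.cons_cons _ (.cons_cons _ (.cons_cons _ (List.nil_sublist _)))))))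
  have sp0 : T.Sp5 p r a b c d := T.sp5 hN (.cons_cons _ (.cons_cons _ (.cons_cons _ (.cons_cons _ (.cons_cons _ (.cons_cons _ (List.nil_sublist _)))))))
  have g1 := T.q01 p r a b
  have g2 := T.q02 p r a b
  have g4 := T.q01 p r a c
  have g10 := T.q01 p r b c
  have g11 := T.q02 p r b c
  have g16 := T.q01 p r c d
  have g17 := T.q02 p r c d
  have g20 := T.q02 p a b c
  have g21 := T.q12 p a b c
  have g26 := T.q02 p a c d
  have g29 := T.q02 p b c d
  have g30 := T.q12 p b c d
  have g31 := T.q01 r a b c
  have g32 := T.q02 r a b c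
  have g38 := T.q02 r a c d
  have g41 := T.q02 r b c d
  have g45 := T.q12 a b c d
  have g46 := T.ae1 k0
  have g47 := T.ae01 k0
  have g48 := T.ae02 k0
  have g71 := fun ha : T.alt p r b a c = true => zA1_4676_64 (T.okA1 k0 ha)
  have g74 := fun ha : T.alt p r b a c = true => zA1_18561_1 (T.okA1 k0 ha)
  have g133 := fun ha : T.alt p r a b c = true => zA0_18449_1 (T.okA0 k0 ha)
  have g147 := fun ha : T.alt p r a b c = true => zA0_4708_4160 (T.okA0 k0 ha)
  have g157 := fun ha : T.alt p r a b c = true => zA0_2081_33 (T.okA0 k0 ha)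
  have g161 := fun ha : T.alt p r a b c = true => zA0_18577_18433 (T.okA0 k0 ha)
  have g198 := fun ha : T.alt p r c a b = true => zA2_16401_17 (T.okA2 k0 ha)
  have g226 := fun ha : T.alt p r c a b = true => zA2_4708_4672 (T.okA2 k0 ha)
  have g228 := T.ae01 k1
  have g268 := fun ha : T.alt p r b a d = true => zA1_294_32 (T.okA1 k1 ha)
  have g279 := fun ha : T.alt p r b a d = true => zA1_2305_257 (T.okA1 k1 ha)
  have g314 := fun ha : T.alt p r a b d = true => zA0_18449_1 (T.okA0 k1 ha)
  have g408 := T.ae1 k2
  have g433 := fun ha : T.alt p r c a d = true => zA1_4676_64 (T.okA1 k2 ha)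
  have g481 := fun ha : T.alt p r a c d = true => zA0_2085_2048 (T.okA0 k2 ha)
  have g500 := fun ha : T.alt p r a c d = true => zA0_4672_576 (T.okA0 k2 ha)
  have g570 := fun ha : T.alt p r d a c = true => zA2_2625_64 (T.okA2 k2 ha)
  have g589 := T.ae1 k3
  have g591 := T.ae02 k3
  have g592 := T.ae12 k3
  have g614 := fun ha : T.alt p r c b d = true => zA1_4676_64 (T.okA1 k3 ha)
  have g617 := fun ha : T.alt p r c b d = true => zA1_18561_1 (T.okA1 k3 ha)
  have g630 := fun ha : T.alt p r c b d = true => zA1_294_32 (T.okA1 k3 ha)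
  have g651 := fun ha : T.alt p r c b d = true => zA1_4708_4672 (T.okA1 k3 ha)
  have g684 := fun ha : T.alt p r b c d = true => zA0_4192_96 (T.okA0 k3 ha)
  have g690 := fun ha : T.alt p r b c d = true => zA0_4708_4160 (T.okA0 k3 ha)
  have g700 := fun ha : T.alt p r b c d = true => zA0_2081_33 (T.okA0 k3 ha)
  have g732 := fun ha : T.alt p r d b c = true => zA2_4704_64 (T.okA2 k3 ha)
  have g740 := fun ha : T.alt p r d b c = true => zA2_18433_2049 (T.okA2 k3 ha)
  have g746 := fun ha : T.alt p r d b c = true => zA2_4640_544 (T.okA2 k3 ha)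
  have g769 := fun ha : T.alt p r d b c = true => zA2_4708_4672 (T.okA2 k3 ha)
  have g770 := T.ae1 k4
  have g772 := T.ae02 k4
  have g773 := T.ae12 k4
  have g784 := fun ha : T.alt p a c b d = true => zA1_2307_2048 (T.okA1 k4 ha)
  have g795 := fun ha : T.alt p a c b d = true => zA1_4676_64 (T.okA1 k4 ha)
  have g809 := fun ha : T.alt p a c b d = true => zA1_4612_516 (T.okA1 k4 ha)
  have g822 := fun ha : T.alt p a c b d = true => zA1_2305_257 (T.okA1 k4 ha)
  have g844 := fun ha : T.alt p a b c d = true => zA0_4708_0 (T.okA0 k4 ha)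
  have g862 := fun ha : T.alt p a b c d = true => zA0_4672_576 (T.okA0 k4 ha)
  have g863 := fun ha : T.alt p a b c d = true => zA0_4164_68 (T.okA0 k4 ha)
  have g865 := fun ha : T.alt p a b c d = true => zA0_4192_96 (T.okA0 k4 ha)
  have g915 := fun ha : T.alt p a d b c = true => zA2_4196_32 (T.okA2 k4 ha)
  have g916 := fun ha : T.alt p a d b c = true => zA2_9480_8 (T.okA2 k4 ha)
  have g921 := fun ha : T.alt p a d b c = true => zA2_18433_2049 (T.okA2 k4 ha)
  have g932 := fun ha : T.alt p a d b c = true => zA2_2625_64 (T.okA2 k4 ha)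
  have g934 := fun ha : T.alt p a d b c = true => zA2_2089_2049 (T.okA2 k4 ha)
  have g937 := fun ha : T.alt p a d b c = true => zA2_577_513 (T.okA2 k4 ha)
  have g941 := fun ha : T.alt p a d b c = true => zA2_4164_68 (T.okA2 k4 ha)
  have g973 := z5_4898_544 k0
  have g1004 := z5_18706_2064 k0
  have g1015 := z5_18489_18433 k0
  have g1026 := z5_4756_4112 k0
  have g1030 := z5_18596_16416 k0
  have g1058 := z5_18504_18504 k0
  have g1366 := z5_4756_4112 k2
  have g1391 := z5_4178_4178 k2
  have g1669 := z5_6241_2112 k4
  have g1672 := z5_6241_33 k4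
  have g1823 := z5_4898_544 k5
  have g1906 := z5_612_612 k5
  have g1972 := zsp_73_1 sp0
  have g1974 := zsp_73_8 sp0
  have g1976 := zsp_530_2 sp0
  have g1977 := zsp_530_512 sp0
  have g1981 := zsp_1156_1024 sp0
  have g1982 := zsp_1156_128 sp0
  have g1999 := zsp_18433_18433 sp0
  have g2000 := zsp_18433_1 sp0
  have g2001 := zsp_18433_16384 sp0
  have g2002 := zsp_18433_2048 sp0
  have g2004 := zsp_9224_8 sp0
  have g2006 := zsp_9224_1024 sp0
  have g2008 := zsp_4672_64 sp0
  have g2010 := zsp_4672_512 sp0
  have g2011 : T.X p r a b = true := h0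
  have g2012 : T.X p r b c = true := h1
  have g2013 : T.X p r c d = true := h2
  have g2014 : T.X a b c d = false := ((T.xs4 c d a b).symm.trans h3)
  have g2016 := xr2 e61
  have g2018 := xr4 e61
  have g2019 := xr1 e62
  have g2020 := xr2 e62
  have g2022 := xr4 e62
  have g2023 := it1 B63
  have g2027 := an0 e64
  have g2028 := an1 e64
  have g2030 := xr1 L65
  have g2031 := xr2 L65
  have g2034 : T.lto p r a b b c = true := h4
  have g2036 := xr2 e66
  have g2038 := xr4 e66
  have g2039 := xr1 e67
  have g2040 := xr2 e67
  have g2042 := xr4 e67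
  have g2043 := it1 B68
  have g2047 := an0 e69
  have g2048 := an1 e69
  have g2050 := xr1 L70
  have g2051 := xr2 L70
  have g2054 : T.lto p r b c c d = true := h5
  have g2055 := xr1 e71
  have g2056 := xr2 e71
  have g2057 := xr3 e71
  have g2060 := xr2 e72
  have g2061 := xr3 e72
  have g2063 := it1 B73
  have g2064 := it2 B73
  have g2065 := it3 B73
  have g2066 := it4 B73
  have g2067 := an0 e74
  have g2068 := an1 e74
  have g2069 := an2 e74
  have g2071 := it2 B75
  have g2072 := it3 B75
  have g2073 := it4 B75
  have g2074 := an0 e76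
  have g2075 := an1 e76
  have g2076 := an2 e76
  have g2077 := xr1 e77
  have g2078 := xr2 e77
  have g2081 := xr1 L78
  have g2082 := xr2 L78
  have g2085 : T.lto p r c d a b = true := h6
  have s2086 := fun (n0 : T.X p a r b = true) => g1 g2011 n0
  have w2086 := bf s2086
  have s2087 := fun (n0 : T.X p b r a = true) => g2 g2011 n0
  have w2087 := bf s2087
  have s2088 := fun (n0 : T.X p b r c = true) => g10 g2012 n0
  have w2088 := bf s2088
  have s2089 := fun (n0 : T.X p c r b = true) => g11 g2012 n0
  have w2089 := bf s2089
  have s2090 := fun (n0 : T.X p c r d = true) => g16 g2013 n0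
  have w2090 := bf s2090
  have s2091 := fun (n0 : T.X p d r c = true) => g17 g2013 n0
  have w2091 := bf s2091
  have s2092 := fun (n0 : v61 = true) (n1 : T.X r a b c = false) => g2016 n0 w2087 n1
  have s2093 := fun (n0 : v61 = false) (n1 : T.X r a b c = true) => g2018 n0 w2087 n1
  have s2094 := fun (n0 : v66 = true) (n1 : T.X r b c d = false) => g2036 n0 w2089 n1
  have s2095 := fun (n0 : v66 = false) (n1 : T.X r b c d = true) => g2038 n0 w2089 n1
  have s2096 := fun (n0 : v72 = true) (n1 : v71 = false) => g2060 n0 n1 w2088
  have s2097 := fun (n0 : v72 = false) (n1 : v71 = true) => g2061 n0 n1 w2088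
  have s2098 := fun (n0 : T.bfo p c d b r = true) (n1 : T.alt p r b c d = true) => g2071 n0 n1 w2088
  have s2099 : T.X p c a b = true → T.X p a c d = true → T.X p d b c = true → False := fun n0 n1 n2 => by
    have u0 := bf fun t => g26 n1 t
    have u1 := bf fun t => g20 t n0
    have u2 := bf fun t => g21 t n0
    have u3 := bf fun t => g863 t n0 n1 g2014
    have u4 := bf fun t => g941 t n0 n1 g2014
    have u5 := bf fun t => g784 t u1 u2 u0 n2
    exact g770 u3 u5 u4
  have s2100 : T.alt p a d b c = false → T.alt p r b a c = false → T.alt p r a b d = true → T.alt p a c b d = false → T.bfo p c d a r = true → T.X p a c d = true → T.X r b c d = true → T.alt p r d b c = false → False := fun n0 n1 n2 n3 n4 n5 n6 n7 => by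
    have u0 := bf fun t => g2000 t n7 n0
    have u1 := bt fun t => g770 t n3 n0
    have u2 := bt fun t => g46 u0 n1 t
    have u3 := bt fun t => g1974 u0 n2 t
    have u4 := bf fun t => g865 u1 t n5 g2014
    have u5 := bt fun t => g500 u3 g2013 n5 t
    have u6 := bt fun t => g2064 n4 u3 t
    have u7 := bt fun t => g198 u2 g2011 u6 t
    have u8 := bf fun t => g1391 u6 t g2013 u5
    have u9 := bf fun t => g1906 u7 t u5 n6
    exact g314 n2 g2011 u8 u4 u9
  have s2101 : v74 = true → T.bfo p c d b r = true → v77 = true → False := fun n0 n1 n2 => by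
    have u0 := bf fun t => s2098 n1 t
    have u1 := bt fun t => g2073 n1 u0 t
    have u2 := bf fun t => g2081 g2085 n2 t
    have u3 := bf fun t => g2074 u2 t n1
    have u4 := bt fun t => g614 u1 w2089 g2013 u3 t
    have u5 := bf fun t => g41 u4 t
    have u6 := bt fun t => g617 u1 g2012 w2090 t u5
    have u7 := bf fun t => g592 u1 t
    have u8 := bt fun t => g2068 n0 t
    have u9 := bt fun t => g2069 n0 t
    have u10 := bf fun t => g2077 n2 t n0
    have u11 := bf fun t => s2097 u10 t
    have u12 := bf fun t => s2099 t u8 u6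
    have u13 := bf fun t => g2028 t u12
    have u14 := bf fun t => g795 t u12 u8 u3 g2014
    have u15 := bt fun t => g2031 g2034 t u13
    have u16 := bt fun t => g2006 t u1 u14
    have u17 := bf fun t => g228 u16 t
    have u18 := bf fun t => g1976 t u17 u0
    have u19 := bt fun t => s2100 t u18 u16 u14 u9 u8 u4 u7
    have u20 := bt fun t => g2001 t u7 u19
    have u21 := bf fun t => g157 u20 g2011 t u12
    have u22 := bt fun t => g2020 u15 t u21
    have u23 := bt fun t => s2092 u22 t
    have u24 := bf fun t => g32 u23 t
    have u25 := bt fun t => g133 u20 g2011 t u12 u24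
    exact g2057 u11 u25 u24
  have s2102 : T.X p c a b = false → T.X p a c d = false → T.alt p r c a d = true → T.alt p r a b d = true → T.alt p r a b c = true → T.alt p a d b c = true → T.X r b c d = true → False := fun n0 n1 n2 n3 n4 n5 n6 => by
    have u0 := bf fun t => g2028 t n0
    have u1 := bf fun t => g157 n4 g2011 t n0
    have u2 := bf fun t => g915 n5 n0 t n1 g2014
    have u3 := bt fun t => g2031 g2034 t u0
    have u4 := bt fun t => g2020 u3 t u1
    have u5 := bt fun t => g433 n2 u1 g2013 n1 t
    have u6 := bt fun t => s2092 u4 t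
    have u7 := bf fun t => g38 u5 t
    have u8 := bf fun t => g1366 u1 t w2090 n1 u5
    have u9 := bf fun t => g31 u6 t
    have u10 := bf fun t => g1823 u9 t u7 n6 g2014
    exact g314 n3 g2011 u8 u2 u10
  have s2103 : T.X r a b c = true → T.X p a b c = false → v71 = true → False := fun n0 n1 n2 => by
    have u0 := bf fun t => g32 n0 t
    have u1 := bf fun t => g1026 w2087 t w2088 n1 n0
    exact g2056 n2 u1 u0
  have s2104 : T.X r c a b = false → T.X p c a b = true → v71 = true → False := fun n0 n1 n2 => by
    have u0 := bt fun t => g2056 n2 t n0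
    exact g1004 w2086 u0 w2089 n1 n0
  have s2105 : T.alt p a d b c = true → v71 = true → v74 = false → T.X r b c d = true → T.alt p r c b d = true → T.alt p r b c d = false → False := fun n0 n1 n2 n3 n4 n5 => by
    have u0 := bf fun t => g592 n4 t
    have u1 := bf fun t => g772 t n0
    have u2 := bf fun t => g773 t n0
    have u3 := bt fun t => g2001 t u0 n0
    have u4 := bf fun t => g2008 t n5 u1
    have u5 := bt fun t => g2006 t n4 u2
    have u6 := bf fun t => g48 u3 t
    have u7 := bt fun t => g1981 u6 t n4
    have u8 := bt fun t => g2065 t u4 u7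
    have u9 := bf fun t => g2067 n2 t u8
    have u10 := bt fun t => s2102 t u9 u7 u5 u3 n0 n3
    have u11 := bt fun t => s2104 t u10 n1
    have u12 := bf fun t => g2055 n1 t u11
    exact g161 u3 g2011 u12 w2088 u10 u11
  have s2106 : T.X p c a b = true → T.alt p r a b c = false → v71 = true → False := fun n0 n1 n2 => by
    have u0 := bf fun t => g20 t n0
    have u1 := bt fun t => s2104 t n0 n2
    have u2 := bf fun t => s2103 t u0 n2
    have u3 := bf fun t => g1058 t g2012 n0 u1
    have u4 := bf fun t => g2055 n2 t u1
    have u5 := bf fun t => s2092 t u2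
    have u6 := bf fun t => g71 t w2087 g2012 u0 u2
    have u7 := bt fun t => g1015 g2011 u3 u4 t n0 u1
    have u8 := bt fun t => g46 n1 u6 t
    have u9 := bt fun t => g2022 t u5 u7
    have u10 := bt fun t => g2023 t u8 u7
    have u11 := bf fun t => g2030 g2034 u9 t
    exact g2027 u11 n0 u10
  have s2107 : T.X r c a b = true → T.X p c a b = false → False := fun n0 n1 => by
    have u0 := bf fun t => g2028 t n1
    have u1 := bt fun t => g2031 g2034 t u0
    have u2 := bf fun t => g32 t n0
    have u3 := bf fun t => g1030 w2087 t w2088 n1 n0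
    have u4 := bf fun t => s2092 t u2
    exact g2020 u1 u4 u3
  have s2108 : T.alt p r a b c = false → v71 = true → False := fun n0 n1 => by
    have u0 := bf fun t => s2106 t n0 n1
    have u1 := bf fun t => s2107 t u0
    have u2 := bt fun t => g2056 n1 t u1
    have u3 := bf fun t => g74 t g2011 w2088 u0 u1
    have u4 := bf fun t => g198 t g2011 u2 u1
    exact g46 n0 u3 u4
  have s2109 : T.bfo p c d b r = true → v77 = true → False := fun n0 n1 => by
    have u0 := bf fun t => g2081 g2085 n1 t
    have u1 := bf fun t => s2098 n0 t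
    have u2 := bf fun t => g2074 u0 t n0
    have u3 := bt fun t => g2073 n0 u1 t
    have u4 := bf fun t => g592 u3 t
    have u5 := bt fun t => g614 u3 w2089 g2013 u2 t
    have u6 := bf fun t => s2101 t n0 n1
    have u7 := bt fun t => g2078 n1 t u6
    have u8 := bt fun t => s2096 u7 t
    have u9 := bf fun t => s2105 t u8 u6 u5 u3 u1
    have u10 := bf fun t => g2000 t u4 u9
    exact s2108 u10 u8
  have s2110 : T.X p a c d = false → T.X p a b c = true → T.X p r a c = false → T.X p c a b = false → T.X p b c d = false → T.X p d b c = false → T.alt p r c a d = false → T.alt p r b c d = false → T.alt p a d b c = false → False := fun n0 n1 n2 n3 n4 n5 n6 n7 n8 => by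
    have u0 := bf fun t => g1672 n1 t n0 n5 g2014
    have u1 := bf fun t => g844 t n3 u0 n0 n4 g2014
    have u2 := bf fun t => g2008 t n7 u1
    have u3 := bt fun t => g770 u1 t n8
    have u4 := bt fun t => g408 u2 n6 t
    have u5 := bf fun t => g822 u3 n1 t n5
    exact g570 u4 n2 g2013 n0 u5
  have s2111 : T.X p c a b = false → T.X r b c d = true → T.alt p a d b c = false → v74 = false → v71 = true → False := fun n0 n1 n2 n3 n4 => by
    have u0 := bt fun t => s2108 t n4
    have u1 := bt fun t => g2000 u0 t n2
    have u2 := bt fun t => s2095 t n1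
    have u3 := bf fun t => g41 n1 t
    have u4 := bf fun t => g740 u1 g2012 t u3
    have u5 := bf fun t => g2048 t u4
    have u6 := bt fun t => g2051 g2054 t u5
    have u7 := bf fun t => g2039 u6 u2 t
    have u8 := bf fun t => g769 u1 w2089 u7 g2013 t n1
    have u9 := bf fun t => g48 u0 t
    have u10 := bf fun t => g592 t u1
    have u11 := bf fun t => g1982 u9 t u10
    have u12 := bf fun t => g591 t u1
    have u13 := bf fun t => g2028 t n0
    have u14 := bf fun t => g157 u0 g2011 t n0
    have u15 := bf fun t => s2107 t n0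
    have u16 := bt fun t => g2031 g2034 t u13
    have u17 := bt fun t => g2020 u16 t u14
    have u18 := bt fun t => g2056 n4 t u15
    have u19 := bt fun t => s2092 u17 t
    have u20 := bf fun t => g4 t u18
    have u21 := bt fun t => g147 u0 w2087 u14 g2012 t u19
    have u22 := bt fun t => s2110 t u21 u20 n0 u8 u4 u11 u12 n2
    have u23 := bf fun t => g2067 n3 u22 t
    have u24 := bf fun t => g795 t n0 u22 u8 g2014
    have u25 := bf fun t => g2063 u23 t u18
    have u26 := bf fun t => g2004 t u10 u24
    exact g1972 u0 u26 u25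
  have s2112 : T.X p c a b = true → v71 = true → False := fun n0 n1 => by
    have u0 := bt fun t => s2108 t n1
    have u1 := bt fun t => s2104 t n0 n1
    have u2 := bf fun t => g2055 n1 t u1
    exact g161 u0 g2011 u2 w2088 n0 u1
  have s2113 : T.X p b c d = false → T.X r b c d = false → T.alt p a d b c = false → T.X p a r c = true → T.X p c a b = false → v74 = false → T.alt p r a b c = true → False := fun n0 n1 n2 n3 n4 n5 n6 => by
    have u0 := bf fun t => s2094 t n1
    have u1 := bf fun t => g48 n6 t
    have u2 := bt fun t => g2000 n6 t n2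
    have u3 := bf fun t => g592 t u2
    have u4 := bf fun t => g1982 u1 t u3
    have u5 := bf fun t => g591 t u2
    have u6 := bf fun t => g157 n6 g2011 t n4
    have u7 := bf fun t => g2028 t n4
    have u8 := bt fun t => g2031 g2034 t u7
    have u9 := bt fun t => g2020 u8 t u6
    have u10 := bt fun t => s2092 u9 t
    have u11 := bt fun t => g147 n6 w2087 u6 g2012 t u10
    have u12 := bf fun t => g4 t n3
    have u13 := bt fun t => g732 u2 t g2013 n0 n1
    have u14 := bt fun t => g2043 t u2 u13
    have u15 := bt fun t => g2042 t u0 u13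
    have u16 := bf fun t => g2050 g2054 u15 t
    have u17 := bf fun t => g2047 u16 t u14
    have u18 := bt fun t => s2110 t u11 u12 n4 n0 u17 u4 u5 n2
    have u19 := bf fun t => g2067 n5 u18 t
    have u20 := bf fun t => g795 t n4 u18 n0 g2014
    have u21 := bf fun t => g2063 u19 t n3
    have u22 := bf fun t => g2004 t u3 u20
    exact g1972 n6 u22 u21
  have s2114 : T.alt p a d b c = false → v74 = false → v71 = true → False := fun n0 n1 n2 => by
    have u0 := bf fun t => s2112 t n2
    have u1 := bf fun t => s2107 t u0
    have u2 := bt fun t => g2056 n2 t u1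
    have u3 := bt fun t => s2108 t n2
    have u4 := bt fun t => g2000 u3 t n0
    have u5 := bf fun t => s2111 u0 t n0 n1 n2
    have u6 := bf fun t => s2094 t u5
    have u7 := bt fun t => s2113 t u5 n0 u2 u0 n1 u3
    have u8 := bf fun t => g29 u7 t
    have u9 := bf fun t => g746 u4 t u7 u5
    have u10 := bf fun t => g2048 t u8
    have u11 := bf fun t => g2040 t u6 u9
    exact g2051 g2054 u11 u10
  have s2115 : T.alt p r b c d = false → T.alt p r d b c = false → T.bfo p c d b r = false → False := fun n0 n1 n2 => by
    have u0 := bf fun t => g2072 n2 n0 t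
    exact g589 n0 u0 n1
  have s2116 : T.X r b c d = false → T.X p d a b = false → T.alt p r b a d = true → T.alt p r b c d = true → T.alt p a d b c = true → T.X p a b c = true → T.X p r a c = false → T.X p c r a = false → False := fun n0 n1 n2 n3 n4 n5 n6 n7 => by
    have u0 := bf fun t => g772 t n4
    have u1 := bt fun t => g2010 t n3 u0
    have u2 := bf fun t => s2094 t n0
    have u3 := bf fun t => g684 n3 t g2013 n0
    have u4 := bf fun t => g2040 t u2 u3
    have u5 := bf fun t => g268 n2 w2086 w2087 t u3
    have u6 := bf fun t => g481 u1 n6 n7 u5 t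
    have u7 := bt fun t => g2051 g2054 u4 t
    have u8 := bt fun t => g2048 u7 t
    have u9 := bf fun t => g30 t u8
    have u10 := bt fun t => g921 n4 n5 u8 t
    have u11 := bt fun t => g934 n4 n5 t n1 u8
    have u12 := bf fun t => g45 t u10
    exact g916 n4 u11 u6 u9 u12
  have s2117 : v71 = true → v77 = true → False := fun n0 n1 => by
    have u0 := bf fun t => s2109 t n1
    have u1 := bt fun t => s2097 t n0
    have u2 := bt fun t => s2108 t n0
    have u3 := bf fun t => g2077 n1 u1 t
    have u4 := bf fun t => g47 u2 t
    have u5 := bf fun t => s2112 t n0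
    have u6 := bf fun t => g2028 t u5
    have u7 := bf fun t => g157 u2 g2011 t u5
    have u8 := bf fun t => s2107 t u5
    have u9 := bt fun t => g2031 g2034 t u6
    have u10 := bt fun t => g2020 u9 t u7
    have u11 := bt fun t => g2056 n0 t u8
    have u12 := bt fun t => s2092 u10 t
    have u13 := bf fun t => g4 t u11
    have u14 := bt fun t => g147 u2 w2087 u7 g2012 t u12
    have u15 := bt fun t => s2114 t u3 n0
    have u16 := bf fun t => g772 t u15
    have u17 := bf fun t => g1999 u2 t u15
    have u18 := bt fun t => s2115 t u17 u0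
    have u19 := bt fun t => g1977 u4 t u18
    have u20 := bt fun t => g2010 t u18 u16
    have u21 := bt fun t => g2063 t u20 u11
    have u22 := bf fun t => g2067 u3 t u21
    have u23 := bf fun t => g915 u15 u5 t u22 g2014
    have u24 := bt fun t => s2116 t u23 u19 u18 u15 u14 u13 u7
    have u25 := bf fun t => g279 u19 g2011 t u23
    have u26 := bf fun t => g937 u15 u14 u22 t
    exact g690 u18 w2089 u25 g2013 u26 u24
  have s2118 : T.X p c a b = false → T.alt p r a b c = true → v71 = false → False := fun n0 n1 n2 => by
    have u0 := bf fun t => s2107 t n0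
    have u1 := bt fun t => g133 n1 g2011 t n0 u0
    exact g2057 n2 u1 u0
  have s2119 : T.alt p r a b c = true → v77 = true → False := fun n0 n1 => by
    have u0 := bf fun t => s2117 t n1
    have u1 := bf fun t => s2096 t u0
    have u2 := bt fun t => g2078 n1 u1 t
    have u3 := bt fun t => g2069 u2 t
    have u4 := bt fun t => g2068 u2 t
    have u5 := bf fun t => g48 n0 t
    have u6 := bt fun t => s2118 t n0 u0
    have u7 := bf fun t => g941 t u6 u4 g2014
    have u8 := bf fun t => g863 t u6 u4 g2014
    have u9 := bt fun t => g2000 n0 t u7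
    have u10 := bf fun t => g591 t u9
    have u11 := bf fun t => g592 t u9
    have u12 := bf fun t => g2008 t u10 u8
    have u13 := bf fun t => g1982 u5 t u11
    exact g2066 u3 u12 u13
  have s2120 : T.X p c a b = true → T.alt p r b c d = true → T.alt p a d b c = false → T.X p a c d = true → False := fun n0 n1 n2 n3 => by
    have u0 := bf fun t => s2099 n0 n3 t
    have u1 := bf fun t => g863 t n0 n3 g2014
    have u2 := bf fun t => g2048 t u0
    have u3 := bf fun t => g700 n1 g2012 t u0
    have u4 := bt fun t => g770 u1 t n2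
    have u5 := bt fun t => g2051 g2054 t u2
    have u6 := bt fun t => g2040 u5 t u3
    have u7 := bf fun t => g809 u4 n0 t g2014
    have u8 := bt fun t => s2094 u6 t
    exact g690 n1 w2089 u3 g2013 u7 u8
  have s2121 : T.X r a b c = true → T.X p a b c = true → T.alt p r c a b = true → v62 = true → False := fun n0 n1 n2 n3 => by
    have u0 := bt fun t => s2093 t n0
    have u1 := bt fun t => g226 n2 w2087 t g2012 n1 n0
    exact g2019 n3 u0 u1
  have s2122 : T.X p a b c = true → v62 = true → T.alt p r c a b = true → False := fun n0 n1 n2 => by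
    have u0 := bf fun t => s2121 t n0 n2 n1
    have u1 := bf fun t => s2092 t u0
    have u2 := bf fun t => g973 w2086 t w2089 n0 u0
    exact g2020 n1 u1 u2
  have s2123 : T.alt p a d b c = false → v77 = true → False := fun n0 n1 => by
    have u0 := bf fun t => s2119 t n1
    have u1 := bf fun t => s2117 t n1
    have u2 := bf fun t => s2096 t u1
    have u3 := bt fun t => g2078 n1 u2 t
    have u4 := bt fun t => g2069 u3 t
    have u5 := bt fun t => g2068 u3 t
    have u6 := bf fun t => s2109 t n1
    have u7 := bf fun t => g2002 u0 t n0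
    have u8 := bt fun t => s2115 t u7 u6
    have u9 := bf fun t => s2120 t u8 n0 u5
    have u10 := bf fun t => g2028 t u9
    have u11 := bf fun t => s2107 t u9
    have u12 := bt fun t => g2031 g2034 t u10
    have u13 := bf fun t => g74 t g2011 w2088 u9 u11
    have u14 := bf fun t => g2057 u1 t u11
    have u15 := bt fun t => g46 u0 u13 t
    have u16 := bt fun t => g1977 u13 t u8
    have u17 := bf fun t => g2064 u4 t u14
    have u18 := bt fun t => g2010 u17 u8 t
    have u19 := bf fun t => g862 u18 u5 t g2014
    have u20 := bf fun t => g865 u18 t u5 g2014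
    have u21 := bf fun t => g279 u16 g2011 t u20
    have u22 := bf fun t => g690 u8 w2089 u21 g2013 u19 t
    have u23 := bf fun t => s2094 t u22
    have u24 := bf fun t => g2040 t u23 u21
    have u25 := bt fun t => g2051 g2054 u24 t
    have u26 := bt fun t => g2048 u25 t
    have u27 := bt fun t => g1669 t u20 u5 u26 g2014
    exact s2122 u27 u12 u15
  have s2124 : T.X p d b c = true → T.alt p r d b c = true → False := fun n0 n1 => by
    have u0 := bf fun t => g29 t n0
    have u1 := bt fun t => g740 n1 g2012 n0 t
    have u2 := bf fun t => g41 t u1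
    have u3 := bf fun t => s2094 t u2
    have u4 := bt fun t => g732 n1 t g2013 u0 u2
    have u5 := bt fun t => g2043 t n1 u4
    have u6 := bt fun t => g2042 t u3 u4
    have u7 := bt fun t => g2047 t n0 u5
    exact g2050 g2054 u6 u7
  have s2125 : T.X r b c d = false → v77 = true → False := fun n0 n1 => by
    have u0 := bf fun t => s2119 t n1
    have u1 := bt fun t => s2123 t n1
    have u2 := bt fun t => g2001 u0 t u1
    have u3 := bf fun t => s2124 t u2
    have u4 := bf fun t => g2048 t u3
    have u5 := bt fun t => g2051 g2054 t u4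
    have u6 := bf fun t => s2117 t n1
    have u7 := bf fun t => s2096 t u6
    have u8 := bt fun t => g2078 n1 u7 t
    have u9 := bt fun t => g2068 u8 t
    have u10 := bf fun t => g941 u1 t u9 g2014
    have u11 := bf fun t => g2028 t u10
    have u12 := bt fun t => g2031 g2034 t u11
    have u13 := bf fun t => s2107 t u10
    have u14 := bf fun t => g74 t g2011 w2088 u10 u13
    have u15 := bt fun t => g46 u0 u14 t
    have u16 := bf fun t => s2122 t u12 u15
    have u17 := bt fun t => g932 u1 u16 u9 t u3
    have u18 := bf fun t => s2094 t n0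
    have u19 := bf fun t => g746 u2 t u17 n0
    exact g2040 u5 u18 u19
  have s2126 : v72 = false → v77 = true → False := fun n0 n1 => by
    have u0 := bt fun t => g2078 n1 n0 t
    have u1 := bt fun t => g2068 u0 t
    have u2 := bf fun t => s2119 t n1
    have u3 := bt fun t => s2123 t n1
    have u4 := bt fun t => g2001 u2 t u3
    have u5 := bf fun t => g941 u3 t u1 g2014
    have u6 := bf fun t => g2028 t u5
    have u7 := bf fun t => s2107 t u5
    have u8 := bt fun t => g2031 g2034 t u6
    have u9 := bf fun t => g74 t g2011 w2088 u5 u7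
    have u10 := bt fun t => g46 u2 u9 t
    have u11 := bf fun t => s2122 t u8 u10
    have u12 := bf fun t => s2124 t u4
    have u13 := bf fun t => g2048 t u12
    have u14 := bt fun t => g932 u3 u11 u1 t u12
    have u15 := bt fun t => g2051 g2054 t u13
    have u16 := bt fun t => s2125 t n1
    have u17 := bt fun t => s2095 t u16
    have u18 := bt fun t => g769 u4 w2089 t g2013 u14 u16
    exact g2039 u15 u17 u18
  have s2127 : v77 = true → False := fun n0 => by
    have u0 := bf fun t => s2117 t n0
    have u1 := bf fun t => s2096 t u0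
    exact s2126 u1 n0
  have w2127 := bf s2127
  have s2128 := fun (n0 : v76 = false) => g2082 g2085 w2127 n0
  have w2128 := bt s2128
  have s2129 := fun (n0 : T.X p b c d = false) => g2075 w2128 n0
  have w2129 := bt s2129
  have s2130 := fun (n0 : T.bfo p c d b r = false) => g2076 w2128 n0
  have w2130 := bt s2130
  have s2132 := fun (n0 : T.X p d b c = true) => g29 w2129 n0
  have w2132 := bf s2132
  have s2133 := fun (n0 : T.alt p r b c d = true) => s2098 w2130 n0
  have w2133 := bf s2133
  have s2134 := fun (n0 : v69 = true) => g2048 n0 w2132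
  have w2134 := bf s2134
  have s2135 := fun (n0 : T.alt p r c b d = false) => g2073 w2130 w2133 n0
  have w2135 := bt s2135
  have s2136 := fun (n0 : v67 = false) => g2051 g2054 n0 w2134
  have w2136 := bt s2136
  have s2138 := fun (n0 : T.X p d r b = true) => g630 w2135 w2088 w2089 n0 w2091
  have w2138 := bf s2138
  have s2139 := fun (n0 : T.X r b c d = true) => g651 w2135 w2089 w2138 g2013 w2129 n0
  have w2139 := bf s2139
  have s2142 := fun (n0 : v66 = false) => g2040 w2136 n0 w2138
  have w2142 := bt s2142
  exact s2094 w2142 w2139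

theorem ft_sh {p r a b c d e : V} (hN : [p, r, a, b, c, d, e].Nodup) (h0 : T.X p r a b = true)
    (h1 : T.X p r b c = true) (h2 : T.X p r d e = true) (h3 : T.X b c d e = false) (h4 : T.X d e a b = false)
    (h5 : T.lto p r a b b c = true) (h6 : T.lto p r c b a b = false) (h7 : T.lto p r b c d e = true)
    (h8 : T.lto p r c b d e = true) (h9 : T.lto p r d e b c = false) (h10 : T.lto p r e d b c = false)
    (h11 : T.lto p r d e a b = true) (h12 : T.lto p r e d a b = true) (h13 : T.lto p r a b d e = false)
    (h14 : T.lto p r b a d e = false) : False := by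
  obtain ⟨v151, e151⟩ : ∃ v : Bool, v = (T.X p b r a ^^ T.X r a b c) := ⟨_, rfl⟩
  obtain ⟨v152, e152⟩ : ∃ v : Bool, v = (v151 ^^ T.X p c r a) := ⟨_, rfl⟩
  have B153 : T.bfo p a b c r = (bif T.alt p r c a b then T.X p c r a else T.alt p r a b c) :=
    T.bfo_eq (T.as5 p a b c r) (T.xs2 p c a r) (T.as3 p a r c b)
  obtain ⟨v154, e154⟩ : ∃ v : Bool, v = (T.X p c a b && T.bfo p a b c r) := ⟨_, rfl⟩
  have L155 : T.lto p r a b b c = (v152 ^^ v154) :=
    T.lto_eqa (T.xs6 a r p b) (T.xs1 a r b c) (T.xs7 a r c p) rfl e151 e152 e154
  obtain ⟨v156, e156⟩ : ∃ v : Bool, v = (T.X p a r c ^^ T.X r c a b) := ⟨_, rfl⟩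
  obtain ⟨v157, e157⟩ : ∃ v : Bool, v = (v156 ^^ T.X p b r c) := ⟨_, rfl⟩
  have B158 : T.bfo p c b a r = (bif T.alt p r a b c then T.X p a r c else T.alt p r c a b) :=
    T.bfo_eq (T.as7 p c b a r) (T.xs2 p a c r) (T.as1 p c r a b)
  obtain ⟨v159, e159⟩ : ∃ v : Bool, v = (T.X p a b c && T.bfo p c b a r) := ⟨_, rfl⟩
  have L160 : T.lto p r c b a b = (v157 ^^ v159) :=
    T.lto_eqb (T.xs6 c r p a) (T.xs1 c r a b) (T.xs7 c r b p) (T.xs2 p a c b) e156 e157 e159
  obtain ⟨v161, e161⟩ : ∃ v : Bool, v = (T.X p d r b ^^ T.X r b d e) := ⟨_, rfl⟩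
  obtain ⟨v162, e162⟩ : ∃ v : Bool, v = (v161 ^^ T.X p e r b) := ⟨_, rfl⟩
  have B163 : T.bfo p b c d r = (bif T.alt p r d b c then T.X p d r b else T.alt p r b c d) :=
    T.bfo_eq (T.as5 p b c d r) (T.xs2 p d b r) (T.as3 p b r d c)
  obtain ⟨v164, e164⟩ : ∃ v : Bool, v = (T.X p d b c && T.bfo p b c d r) := ⟨_, rfl⟩
  have B165 : T.bfo p b c e r = (bif T.alt p r e b c then T.X p e r b else T.alt p r b c e) :=
    T.bfo_eq (T.as5 p b c e r) (T.xs2 p e b r) (T.as3 p b r e c)
  obtain ⟨v166, e166⟩ : ∃ v : Bool, v = (T.X p e b c && T.bfo p b c e r) := ⟨_, rfl⟩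
  obtain ⟨v167, e167⟩ : ∃ v : Bool, v = (v162 ^^ v164) := ⟨_, rfl⟩
  have L168 : T.lto p r b c d e = (v167 ^^ v166) :=
    T.lto_eq (T.xs6 b r p d) (T.xs1 b r d e) (T.xs7 b r e p) rfl rfl e161 e162 e164 e167 e166
  obtain ⟨v169, e169⟩ : ∃ v : Bool, v = (T.X p d r c ^^ T.X r c d e) := ⟨_, rfl⟩
  obtain ⟨v170, e170⟩ : ∃ v : Bool, v = (v169 ^^ T.X p e r c) := ⟨_, rfl⟩
  have B171 : T.bfo p c b d r = (bif T.alt p r d b c then T.X p d r c else T.alt p r c b d) :=
    T.bfo_eq (T.as7 p c b d r) (T.xs2 p d c r) (T.as3 p c r d b)
  obtain ⟨v172, e172⟩ : ∃ v : Bool, v = (T.X p d b c && T.bfo p c b d r) := ⟨_, rfl⟩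
  have B173 : T.bfo p c b e r = (bif T.alt p r e b c then T.X p e r c else T.alt p r c b e) :=
    T.bfo_eq (T.as7 p c b e r) (T.xs2 p e c r) (T.as3 p c r e b)
  obtain ⟨v174, e174⟩ : ∃ v : Bool, v = (T.X p e b c && T.bfo p c b e r) := ⟨_, rfl⟩
  obtain ⟨v175, e175⟩ : ∃ v : Bool, v = (v170 ^^ v172) := ⟨_, rfl⟩
  have L176 : T.lto p r c b d e = (v175 ^^ v174) :=
    T.lto_eq (T.xs6 c r p d) (T.xs1 c r d e) (T.xs7 c r e p) (T.xs2 p d c b) (T.xs2 p e c b) e169 e170 e172 e175 e174
  obtain ⟨v177, e177⟩ : ∃ v : Bool, v = (T.X p b r d ^^ T.X r d b c) := ⟨_, rfl⟩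
  obtain ⟨v178, e178⟩ : ∃ v : Bool, v = (v177 ^^ T.X p c r d) := ⟨_, rfl⟩
  have B179 : T.bfo p d e b r = (bif T.alt p r b d e then T.X p b r d else T.alt p r d b e) :=
    T.bfo_eq (T.as5 p d e b r) (T.xs2 p b d r) (T.as1 p d r b e)
  obtain ⟨v180, e180⟩ : ∃ v : Bool, v = (T.X p b d e && T.bfo p d e b r) := ⟨_, rfl⟩
  have B181 : T.bfo p d e c r = (bif T.alt p r c d e then T.X p c r d else T.alt p r d c e) :=
    T.bfo_eq (T.as5 p d e c r) (T.xs2 p c d r) (T.as1 p d r c e)
  obtain ⟨v182, e182⟩ : ∃ v : Bool, v = (T.X p c d e && T.bfo p d e c r) := ⟨_, rfl⟩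
  obtain ⟨v183, e183⟩ : ∃ v : Bool, v = (v178 ^^ v180) := ⟨_, rfl⟩
  have L184 : T.lto p r d e b c = (v183 ^^ v182) :=
    T.lto_eq (T.xs6 d r p b) (T.xs1 d r b c) (T.xs7 d r c p) rfl rfl e177 e178 e180 e183 e182
  obtain ⟨v185, e185⟩ : ∃ v : Bool, v = (T.X p b r e ^^ T.X r e b c) := ⟨_, rfl⟩
  obtain ⟨v186, e186⟩ : ∃ v : Bool, v = (v185 ^^ T.X p c r e) := ⟨_, rfl⟩
  have B187 : T.bfo p e d b r = (bif T.alt p r b d e then T.X p b r e else T.alt p r e b d) :=
    T.bfo_eq (T.as7 p e d b r) (T.xs2 p b e r) (T.as1 p e r b d)
  obtain ⟨v188, e188⟩ : ∃ v : Bool, v = (T.X p b d e && T.bfo p e d b r) := ⟨_, rfl⟩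
  have B189 : T.bfo p e d c r = (bif T.alt p r c d e then T.X p c r e else T.alt p r e c d) :=
    T.bfo_eq (T.as7 p e d c r) (T.xs2 p c e r) (T.as1 p e r c d)
  obtain ⟨v190, e190⟩ : ∃ v : Bool, v = (T.X p c d e && T.bfo p e d c r) := ⟨_, rfl⟩
  obtain ⟨v191, e191⟩ : ∃ v : Bool, v = (v186 ^^ v188) := ⟨_, rfl⟩
  have L192 : T.lto p r e d b c = (v191 ^^ v190) :=
    T.lto_eq (T.xs6 e r p b) (T.xs1 e r b c) (T.xs7 e r c p) (T.xs2 p b e d) (T.xs2 p c e d) e185 e186 e188 e191 e190
  obtain ⟨v193, e193⟩ : ∃ v : Bool, v = (T.X p a r d ^^ T.X r d a b) := ⟨_, rfl⟩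
  obtain ⟨v194, e194⟩ : ∃ v : Bool, v = (v193 ^^ T.X p b r d) := ⟨_, rfl⟩
  have B195 : T.bfo p d e a r = (bif T.alt p r a d e then T.X p a r d else T.alt p r d a e) :=
    T.bfo_eq (T.as5 p d e a r) (T.xs2 p a d r) (T.as1 p d r a e)
  obtain ⟨v196, e196⟩ : ∃ v : Bool, v = (T.X p a d e && T.bfo p d e a r) := ⟨_, rfl⟩
  obtain ⟨v197, e197⟩ : ∃ v : Bool, v = (T.X p b d e && T.bfo p d e b r) := ⟨_, rfl⟩
  obtain ⟨v198, e198⟩ : ∃ v : Bool, v = (v194 ^^ v196) := ⟨_, rfl⟩
  have L199 : T.lto p r d e a b = (v198 ^^ v197) :=
    T.lto_eq (T.xs6 d r p a) (T.xs1 d r a b) (T.xs7 d r b p) rfl rfl e193 e194 e196 e198 e197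
  obtain ⟨v200, e200⟩ : ∃ v : Bool, v = (T.X p a r e ^^ T.X r e a b) := ⟨_, rfl⟩
  obtain ⟨v201, e201⟩ : ∃ v : Bool, v = (v200 ^^ T.X p b r e) := ⟨_, rfl⟩
  have B202 : T.bfo p e d a r = (bif T.alt p r a d e then T.X p a r e else T.alt p r e a d) :=
    T.bfo_eq (T.as7 p e d a r) (T.xs2 p a e r) (T.as1 p e r a d)
  obtain ⟨v203, e203⟩ : ∃ v : Bool, v = (T.X p a d e && T.bfo p e d a r) := ⟨_, rfl⟩
  obtain ⟨v204, e204⟩ : ∃ v : Bool, v = (T.X p b d e && T.bfo p e d b r) := ⟨_, rfl⟩
  obtain ⟨v205, e205⟩ : ∃ v : Bool, v = (v201 ^^ v203) := ⟨_, rfl⟩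
  have L206 : T.lto p r e d a b = (v205 ^^ v204) :=
    T.lto_eq (T.xs6 e r p a) (T.xs1 e r a b) (T.xs7 e r b p) (T.xs2 p a e d) (T.xs2 p b e d) e200 e201 e203 e205 e204
  obtain ⟨v207, e207⟩ : ∃ v : Bool, v = (T.X p d r a ^^ T.X r a d e) := ⟨_, rfl⟩
  obtain ⟨v208, e208⟩ : ∃ v : Bool, v = (v207 ^^ T.X p e r a) := ⟨_, rfl⟩
  have B209 : T.bfo p a b d r = (bif T.alt p r d a b then T.X p d r a else T.alt p r a b d) :=
    T.bfo_eq (T.as5 p a b d r) (T.xs2 p d a r) (T.as3 p a r d b)
  obtain ⟨v210, e210⟩ : ∃ v : Bool, v = (T.X p d a b && T.bfo p a b d r) := ⟨_, rfl⟩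
  have B211 : T.bfo p a b e r = (bif T.alt p r e a b then T.X p e r a else T.alt p r a b e) :=
    T.bfo_eq (T.as5 p a b e r) (T.xs2 p e a r) (T.as3 p a r e b)
  obtain ⟨v212, e212⟩ : ∃ v : Bool, v = (T.X p e a b && T.bfo p a b e r) := ⟨_, rfl⟩
  obtain ⟨v213, e213⟩ : ∃ v : Bool, v = (v208 ^^ v210) := ⟨_, rfl⟩
  have L214 : T.lto p r a b d e = (v213 ^^ v212) :=
    T.lto_eq (T.xs6 a r p d) (T.xs1 a r d e) (T.xs7 a r e p) rfl rfl e207 e208 e210 e213 e212
  obtain ⟨v215, e215⟩ : ∃ v : Bool, v = (T.X p d r b ^^ T.X r b d e) := ⟨_, rfl⟩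
  obtain ⟨v216, e216⟩ : ∃ v : Bool, v = (v215 ^^ T.X p e r b) := ⟨_, rfl⟩
  have B217 : T.bfo p b a d r = (bif T.alt p r d a b then T.X p d r b else T.alt p r b a d) :=
    T.bfo_eq (T.as7 p b a d r) (T.xs2 p d b r) (T.as3 p b r d a)
  obtain ⟨v218, e218⟩ : ∃ v : Bool, v = (T.X p d a b && T.bfo p b a d r) := ⟨_, rfl⟩
  have B219 : T.bfo p b a e r = (bif T.alt p r e a b then T.X p e r b else T.alt p r b a e) :=
    T.bfo_eq (T.as7 p b a e r) (T.xs2 p e b r) (T.as3 p b r e a)
  obtain ⟨v220, e220⟩ : ∃ v : Bool, v = (T.X p e a b && T.bfo p b a e r) := ⟨_, rfl⟩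
  obtain ⟨v221, e221⟩ : ∃ v : Bool, v = (v216 ^^ v218) := ⟨_, rfl⟩
  have L222 : T.lto p r b a d e = (v221 ^^ v220) :=
    T.lto_eq (T.xs6 b r p d) (T.xs1 b r d e) (T.xs7 b r e p) (T.xs2 p d b a) (T.xs2 p e b a) e215 e216 e218 e221 e220
  have k0 : T.Ok5 p r a b c := T.n5 hN (.cons_cons _ (.cons_cons _ (.cons_cons _ (.cons_cons _ (.cons_cons _ (List.nil_sublist _))))))
  have k1 : T.Ok5 p r a b d := T.n5 hN (.cons_cons _ (.cons_cons _ (.cons_cons _ (.cons_cons _ (.cons _ (.cons_cons _ (List.nil_sublist _)))))))
  have k2 : T.Ok5 p r a b e := T.n5 hN (.cons_cons _ (.cons_cons _ (.cons_cons _ (.cons_cons _ (.cons _ (.cons _ (.cons_cons _ (List.nil_sublist _))))))))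
  have k3 : T.Ok5 p r a c d := T.n5 hN (.cons_cons _ (.cons_cons _ (.cons_cons _ (.cons _ (.cons_cons _ (.cons_cons _ (List.nil_sublist _)))))))
  have k4 : T.Ok5 p r a c e := T.n5 hN (.cons_cons _ (.cons_cons _ (.cons_cons _ (.cons _ (.cons_cons _ (.cons _ (.cons_cons _ (List.nil_sublist _))))))))
  have k5 : T.Ok5 p r a d e := T.n5 hN (.cons_cons _ (.cons_cons _ (.cons_cons _ (.cons _ (.cons _ (.cons_cons _ (.cons_cons _ (List.nil_sublist _))))))))
  have k6 : T.Ok5 p r b c d := T.n5 hN (.cons_cons _ (.cons_cons _ (.cons _ (.cons_cons _ (.cons_cons _ (.cons_cons _ (List.nil_sublist _)))))))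
  have k7 : T.Ok5 p r b c e := T.n5 hN (.cons_cons _ (.cons_cons _ (.cons _ (.cons_cons _ (.cons_cons _ (.cons _ (.cons_cons _ (List.nil_sublist _))))))))
  have k8 : T.Ok5 p r b d e := T.n5 hN (.cons_cons _ (.cons_cons _ (.cons _ (.cons_cons _ (.cons _ (.cons_cons _ (.cons_cons _ (List.nil_sublist _))))))))
  have k9 : T.Ok5 p r c d e := T.n5 hN (.cons_cons _ (.cons_cons _ (.cons _ (.cons _ (.cons_cons _ (.cons_cons _ (.cons_cons _ (List.nil_sublist _))))))))
  have k10 : T.Ok5 p a b c d := T.n5 hN (.cons_cons _ (.cons _ (.cons_cons _ (.cons_cons _ (.cons_cons _ (.cons_cons _ (List.nil_sublist _)))))))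
  have k11 : T.Ok5 p a b c e := T.n5 hN (.cons_cons _ (.cons _ (.cons_cons _ (.cons_cons _ (.cons_cons _ (.cons _ (.cons_cons _ (List.nil_sublist _))))))))
  have k12 : T.Ok5 p a b d e := T.n5 hN (.cons_cons _ (.cons _ (.cons_cons _ (.cons_cons _ (.cons _ (.cons_cons _ (.cons_cons _ (List.nil_sublist _))))))))
  have k13 : T.Ok5 p a c d e := T.n5 hN (.cons_cons _ (.cons _ (.cons_cons _ (.cons _ (.cons_cons _ (.cons_cons _ (.cons_cons _ (List.nil_sublist _))))))))
  have k14 : T.Ok5 p b c d e := T.n5 hN (.cons_cons _ (.cons _ (.cons _ (.cons_cons _ (.cons_cons _ (.cons_cons _ (.cons_cons _ (List.nil_sublist _))))))))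
  have k15 : T.Ok5 r a b c d := T.n5 hN (.cons _ (.cons_cons _ (.cons_cons _ (.cons_cons _ (.cons_cons _ (.cons_cons _ (List.nil_sublist _)))))))
  have k16 : T.Ok5 r a b c e := T.n5 hN (.cons _ (.cons_cons _ (.cons_cons _ (.cons_cons _ (.cons_cons _ (.cons _ (.cons_cons _ (List.nil_sublist _))))))))
  have k17 : T.Ok5 r a b d e := T.n5 hN (.cons _ (.cons_cons _ (.cons_cons _ (.cons_cons _ (.cons _ (.cons_cons _ (.cons_cons _ (List.nil_sublist _))))))))
  have k18 : T.Ok5 r a c d e := T.n5 hN (.cons _ (.cons_cons _ (.cons_cons _ (.cons _ (.cons_cons _ (.cons_cons _ (.cons_cons _ (List.nil_sublist _))))))))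
  have k19 : T.Ok5 r b c d e := T.n5 hN (.cons _ (.cons_cons _ (.cons _ (.cons_cons _ (.cons_cons _ (.cons_cons _ (.cons_cons _ (List.nil_sublist _))))))))
  have k20 : T.Ok5 a b c d e := T.n5 hN (.cons _ (.cons _ (.cons_cons _ (.cons_cons _ (.cons_cons _ (.cons_cons _ (.cons_cons _ (List.nil_sublist _))))))))
  have sp0 : T.Sp5 p r a b c d := T.sp5 hN (.cons_cons _ (.cons_cons _ (.cons_cons _ (.cons_cons _ (.cons_cons _ (.cons_cons _ (List.nil_sublist _)))))))
  have sp1 : T.Sp5 p r a b c e := T.sp5 hN (.cons_cons _ (.cons_cons _ (.cons_cons _ (.cons_cons _ (.cons_cons _ (.cons _ (.cons_cons _ (List.nil_sublist _))))))))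
  have sp2 : T.Sp5 p r a b d e := T.sp5 hN (.cons_cons _ (.cons_cons _ (.cons_cons _ (.cons_cons _ (.cons _ (.cons_cons _ (.cons_cons _ (List.nil_sublist _))))))))
  have sp3 : T.Sp5 p r a c d e := T.sp5 hN (.cons_cons _ (.cons_cons _ (.cons_cons _ (.cons _ (.cons_cons _ (.cons_cons _ (.cons_cons _ (List.nil_sublist _))))))))
  have sp4 : T.Sp5 p r b c d e := T.sp5 hN (.cons_cons _ (.cons_cons _ (.cons _ (.cons_cons _ (.cons_cons _ (.cons_cons _ (.cons_cons _ (List.nil_sublist _))))))))
  have sp5 : T.Sp5 p a b c d e := T.sp5 hN (.cons_cons _ (.cons _ (.cons_cons _ (.cons_cons _ (.cons_cons _ (.cons_cons _ (.cons_cons _ (List.nil_sublist _))))))))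
  have g1 := T.q01 p r a b
  have g2 := T.q02 p r a b
  have g4 := T.q01 p r a c
  have g5 := T.q02 p r a c
  have g6 := T.q12 p r a c
  have g8 := T.q02 p r a d
  have g10 := T.q01 p r a e
  have g11 := T.q02 p r a e
  have g12 := T.q12 p r a e
  have g13 := T.q01 p r b c
  have g14 := T.q02 p r b c
  have g17 := T.q02 p r b d
  have g18 := T.q12 p r b d
  have g19 := T.q01 p r b e
  have g20 := T.q02 p r b e
  have g21 := T.q12 p r b e
  have g22 := T.q01 p r c d
  have g23 := T.q02 p r c d
  have g25 := T.q01 p r c e
  have g26 := T.q02 p r c e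
  have g27 := T.q12 p r c e
  have g28 := T.q01 p r d e
  have g29 := T.q02 p r d e
  have g32 := T.q02 p a b c
  have g33 := T.q12 p a b c
  have g35 := T.q02 p a b d
  have g36 := T.q12 p a b d
  have g38 := T.q02 p a b e
  have g39 := T.q12 p a b e
  have g40 := T.q01 p a c d
  have g41 := T.q02 p a c d
  have g42 := T.q12 p a c d
  have g43 := T.q01 p a c e
  have g46 := T.q01 p a d e
  have g47 := T.q02 p a d e
  have g50 := T.q02 p b c d
  have g51 := T.q12 p b c d
  have g53 := T.q02 p b c e
  have g54 := T.q12 p b c e
  have g56 := T.q02 p b d e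
  have g57 := T.q12 p b d e
  have g58 := T.q01 p c d e
  have g59 := T.q02 p c d e
  have g60 := T.q12 p c d e
  have g61 := T.q01 r a b c
  have g62 := T.q02 r a b c
  have g65 := T.q02 r a b d
  have g66 := T.q12 r a b d
  have g69 := T.q12 r a b e
  have g77 := T.q02 r a d e
  have g80 := T.q02 r b c d
  have g83 := T.q02 r b c e
  have g85 := T.q01 r b d e
  have g86 := T.q02 r b d e
  have g88 := T.q01 r c d e
  have g89 := T.q02 r c d e
  have g91 := T.q01 a b c d
  have g92 := T.q02 a b c d
  have g93 := T.q12 a b c d
  have g94 := T.q01 a b c e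
  have g95 := T.q02 a b c e
  have g96 := T.q12 a b c e
  have g100 := T.q01 a c d e
  have g101 := T.q02 a c d e
  have g106 := T.ae1 k0
  have g107 := T.ae01 k0
  have g108 := T.ae02 k0
  have g109 := T.ae12 k0
  have g131 := fun ha : T.alt p r b a c = true => zA1_4676_64 (T.okA1 k0 ha)
  have g134 := fun ha : T.alt p r b a c = true => zA1_18561_1 (T.okA1 k0 ha)
  have g147 := fun ha : T.alt p r b a c = true => zA1_294_32 (T.okA1 k0 ha)
  have g159 := fun ha : T.alt p r b a c = true => zA1_4192_96 (T.okA1 k0 ha)
  have g168 := fun ha : T.alt p r b a c = true => zA1_4708_4672 (T.okA1 k0 ha)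
  have g193 := fun ha : T.alt p r a b c = true => zA0_18449_1 (T.okA0 k0 ha)
  have g201 := fun ha : T.alt p r a b c = true => zA0_4192_96 (T.okA0 k0 ha)
  have g207 := fun ha : T.alt p r a b c = true => zA0_4708_4160 (T.okA0 k0 ha)
  have g214 := fun ha : T.alt p r a b c = true => zA0_1096_1088 (T.okA0 k0 ha)
  have g217 := fun ha : T.alt p r a b c = true => zA0_2081_33 (T.okA0 k0 ha)
  have g249 := fun ha : T.alt p r c a b = true => zA2_4704_64 (T.okA2 k0 ha)
  have g257 := fun ha : T.alt p r c a b = true => zA2_18433_2049 (T.okA2 k0 ha)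
  have g266 := fun ha : T.alt p r c a b = true => zA2_18577_16385 (T.okA2 k0 ha)
  have g284 := fun ha : T.alt p r c a b = true => zA2_4708_4192 (T.okA2 k0 ha)
  have g286 := fun ha : T.alt p r c a b = true => zA2_4708_4672 (T.okA2 k0 ha)
  have g287 := T.ae1 k1
  have g288 := T.ae01 k1
  have g289 := T.ae02 k1
  have g290 := T.ae12 k1
  have g302 := fun ha : T.alt p r b a d = true => zA1_9482_0 (T.okA1 k1 ha)
  have g312 := fun ha : T.alt p r b a d = true => zA1_4676_64 (T.okA1 k1 ha)
  have g315 := fun ha : T.alt p r b a d = true => zA1_18561_1 (T.okA1 k1 ha)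
  have g328 := fun ha : T.alt p r b a d = true => zA1_294_32 (T.okA1 k1 ha)
  have g336 := fun ha : T.alt p r b a d = true => zA1_584_520 (T.okA1 k1 ha)
  have g339 := fun ha : T.alt p r b a d = true => zA1_2305_257 (T.okA1 k1 ha)
  have g387 := fun ha : T.alt p r a b d = true => zA0_294_256 (T.okA0 k1 ha)
  have g398 := fun ha : T.alt p r a b d = true => zA0_2081_33 (T.okA0 k1 ha)
  have g432 := fun ha : T.alt p r d a b = true => zA2_4196_32 (T.okA2 k1 ha)
  have g433 := fun ha : T.alt p r d a b = true => zA2_9480_8 (T.okA2 k1 ha)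
  have g438 := fun ha : T.alt p r d a b = true => zA2_18433_2049 (T.okA2 k1 ha)
  have g451 := fun ha : T.alt p r d a b = true => zA2_2089_2049 (T.okA2 k1 ha)
  have g453 := fun ha : T.alt p r d a b = true => zA2_164_160 (T.okA2 k1 ha)
  have g454 := fun ha : T.alt p r d a b = true => zA2_577_513 (T.okA2 k1 ha)
  have g468 := T.ae1 k2
  have g469 := T.ae01 k2
  have g470 := T.ae02 k2
  have g471 := T.ae12 k2
  have g483 := fun ha : T.alt p r b a e = true => zA1_9482_0 (T.okA1 k2 ha)
  have g496 := fun ha : T.alt p r b a e = true => zA1_18561_1 (T.okA1 k2 ha)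
  have g509 := fun ha : T.alt p r b a e = true => zA1_294_32 (T.okA1 k2 ha)
  have g520 := fun ha : T.alt p r b a e = true => zA1_2305_257 (T.okA1 k2 ha)
  have g538 := fun ha : T.alt p r a b e = true => zA0_16642_16640 (T.okA0 k2 ha)
  have g568 := fun ha : T.alt p r a b e = true => zA0_294_256 (T.okA0 k2 ha)
  have g579 := fun ha : T.alt p r a b e = true => zA0_2081_33 (T.okA0 k2 ha)
  have g610 := fun ha : T.alt p r e a b = true => zA2_8458_256 (T.okA2 k2 ha)
  have g614 := fun ha : T.alt p r e a b = true => zA2_9480_8 (T.okA2 k2 ha)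
  have g619 := fun ha : T.alt p r e a b = true => zA2_18433_2049 (T.okA2 k2 ha)
  have g620 := fun ha : T.alt p r e a b = true => zA2_16401_17 (T.okA2 k2 ha)
  have g632 := fun ha : T.alt p r e a b = true => zA2_2089_2049 (T.okA2 k2 ha)
  have g635 := fun ha : T.alt p r e a b = true => zA2_577_513 (T.okA2 k2 ha)
  have g650 := T.ae01 k3
  have g651 := T.ae02 k3
  have g652 := T.ae12 k3
  have g663 := fun ha : T.alt p r c a d = true => zA1_2307_2048 (T.okA1 k3 ha)
  have g672 := fun ha : T.alt p r c a d = true => zA1_4704_512 (T.okA1 k3 ha)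
  have g675 := fun ha : T.alt p r c a d = true => zA1_4708_4096 (T.okA1 k3 ha)
  have g688 := fun ha : T.alt p r c a d = true => zA1_4612_516 (T.okA1 k3 ha)
  have g698 := fun ha : T.alt p r c a d = true => zA1_584_520 (T.okA1 k3 ha)
  have g717 := fun ha : T.alt p r a c d = true => zA0_3_3 (T.okA0 k3 ha)
  have g722 := fun ha : T.alt p r a c d = true => zA0_2085_2048 (T.okA0 k3 ha)
  have g781 := fun ha : T.alt p r d a c = true => zA2_1176_1024 (T.okA2 k3 ha)
  have g798 := fun ha : T.alt p r d a c = true => zA2_9226_1024 (T.okA2 k3 ha)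
  have g815 := fun ha : T.alt p r d a c = true => zA2_164_160 (T.okA2 k3 ha)
  have g830 := T.ae1 k4
  have g831 := T.ae01 k4
  have g832 := T.ae02 k4
  have g833 := T.ae12 k4
  have g853 := fun ha : T.alt p r c a e = true => zA1_4704_512 (T.okA1 k4 ha)
  have g869 := fun ha : T.alt p r c a e = true => zA1_4612_516 (T.okA1 k4 ha)
  have g879 := fun ha : T.alt p r c a e = true => zA1_584_520 (T.okA1 k4 ha)
  have g892 := fun ha : T.alt p r c a e = true => zA1_4708_4672 (T.okA1 k4 ha)
  have g903 := fun ha : T.alt p r a c e = true => zA0_2085_2048 (T.okA0 k4 ha)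
  have g923 := fun ha : T.alt p r a c e = true => zA0_4164_68 (T.okA0 k4 ha)
  have g935 := fun ha : T.alt p r a c e = true => zA0_579_576 (T.okA0 k4 ha)
  have g979 := fun ha : T.alt p r e a c = true => zA2_9226_1024 (T.okA2 k4 ha)
  have g989 := fun ha : T.alt p r e a c = true => zA2_180_4 (T.okA2 k4 ha)
  have g1012 := T.ae01 k5
  have g1013 := T.ae02 k5
  have g1014 := T.ae12 k5
  have g1036 := fun ha : T.alt p r d a e = true => zA1_4676_64 (T.okA1 k5 ha)
  have g1039 := fun ha : T.alt p r d a e = true => zA1_18561_1 (T.okA1 k5 ha)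
  have g1055 := fun ha : T.alt p r d a e = true => zA1_1608_64 (T.okA1 k5 ha)
  have g1103 := fun ha : T.alt p r a d e = true => zA0_4672_576 (T.okA0 k5 ha)
  have g1154 := fun ha : T.alt p r e a d = true => zA2_4704_64 (T.okA2 k5 ha)
  have g1173 := fun ha : T.alt p r e a d = true => zA2_2625_64 (T.okA2 k5 ha)
  have g1192 := T.ae1 k6
  have g1193 := T.ae01 k6
  have g1194 := T.ae02 k6
  have g1195 := T.ae12 k6
  have g1217 := fun ha : T.alt p r c b d = true => zA1_4676_64 (T.okA1 k6 ha)
  have g1220 := fun ha : T.alt p r c b d = true => zA1_18561_1 (T.okA1 k6 ha)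
  have g1233 := fun ha : T.alt p r c b d = true => zA1_294_32 (T.okA1 k6 ha)
  have g1236 := fun ha : T.alt p r c b d = true => zA1_1608_64 (T.okA1 k6 ha)
  have g1244 := fun ha : T.alt p r c b d = true => zA1_2305_257 (T.okA1 k6 ha)
  have g1276 := fun ha : T.alt p r b c d = true => zA0_9226_8 (T.okA0 k6 ha)
  have g1279 := fun ha : T.alt p r b c d = true => zA0_18449_1 (T.okA0 k6 ha)
  have g1292 := fun ha : T.alt p r b c d = true => zA0_294_256 (T.okA0 k6 ha)
  have g1295 := fun ha : T.alt p r b c d = true => zA0_1608_8 (T.okA0 k6 ha)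
  have g1303 := fun ha : T.alt p r b c d = true => zA0_2081_33 (T.okA0 k6 ha)
  have g1324 := fun ha : T.alt p r d b c = true => zA2_1176_1024 (T.okA2 k6 ha)
  have g1337 := fun ha : T.alt p r d b c = true => zA2_4196_32 (T.okA2 k6 ha)
  have g1340 := fun ha : T.alt p r d b c = true => zA2_9482_8192 (T.okA2 k6 ha)
  have g1341 := fun ha : T.alt p r d b c = true => zA2_9226_1024 (T.okA2 k6 ha)
  have g1343 := fun ha : T.alt p r d b c = true => zA2_18433_2049 (T.okA2 k6 ha)
  have g1344 := fun ha : T.alt p r d b c = true => zA2_16401_17 (T.okA2 k6 ha)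
  have g1356 := fun ha : T.alt p r d b c = true => zA2_2089_2049 (T.okA2 k6 ha)
  have g1358 := fun ha : T.alt p r d b c = true => zA2_164_160 (T.okA2 k6 ha)
  have g1359 := fun ha : T.alt p r d b c = true => zA2_577_513 (T.okA2 k6 ha)
  have g1361 := fun ha : T.alt p r d b c = true => zA2_150_144 (T.okA2 k6 ha)
  have g1362 := fun ha : T.alt p r d b c = true => zA2_1160_136 (T.okA2 k6 ha)
  have g1373 := T.ae1 k7
  have g1374 := T.ae01 k7
  have g1375 := T.ae02 k7
  have g1376 := T.ae12 k7
  have g1384 := fun ha : T.alt p r c b e = true => zA1_16420_16416 (T.okA1 k7 ha)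
  have g1398 := fun ha : T.alt p r c b e = true => zA1_4676_64 (T.okA1 k7 ha)
  have g1401 := fun ha : T.alt p r c b e = true => zA1_18561_1 (T.okA1 k7 ha)
  have g1414 := fun ha : T.alt p r c b e = true => zA1_294_32 (T.okA1 k7 ha)
  have g1425 := fun ha : T.alt p r c b e = true => zA1_2305_257 (T.okA1 k7 ha)
  have g1428 := fun ha : T.alt p r c b e = true => zA1_18577_16513 (T.okA1 k7 ha)
  have g1447 := fun ha : T.alt p r b c e = true => zA0_4708_0 (T.okA0 k7 ha)
  have g1460 := fun ha : T.alt p r b c e = true => zA0_18449_1 (T.okA0 k7 ha)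
  have g1470 := fun ha : T.alt p r b c e = true => zA0_16513_129 (T.okA0 k7 ha)
  have g1473 := fun ha : T.alt p r b c e = true => zA0_294_256 (T.okA0 k7 ha)
  have g1474 := fun ha : T.alt p r b c e = true => zA0_4708_4160 (T.okA0 k7 ha)
  have g1484 := fun ha : T.alt p r b c e = true => zA0_2081_33 (T.okA0 k7 ha)
  have g1488 := fun ha : T.alt p r b c e = true => zA0_18577_18433 (T.okA0 k7 ha)
  have g1505 := fun ha : T.alt p r e b c = true => zA2_1176_1024 (T.okA2 k7 ha)
  have g1522 := fun ha : T.alt p r e b c = true => zA2_9226_1024 (T.okA2 k7 ha)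
  have g1524 := fun ha : T.alt p r e b c = true => zA2_18433_2049 (T.okA2 k7 ha)
  have g1525 := fun ha : T.alt p r e b c = true => zA2_16401_17 (T.okA2 k7 ha)
  have g1527 := fun ha : T.alt p r e b c = true => zA2_16513_129 (T.okA2 k7 ha)
  have g1530 := fun ha : T.alt p r e b c = true => zA2_4640_544 (T.okA2 k7 ha)
  have g1533 := fun ha : T.alt p r e b c = true => zA2_18577_16385 (T.okA2 k7 ha)
  have g1537 := fun ha : T.alt p r e b c = true => zA2_2089_2049 (T.okA2 k7 ha)
  have g1539 := fun ha : T.alt p r e b c = true => zA2_164_160 (T.okA2 k7 ha)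
  have g1543 := fun ha : T.alt p r e b c = true => zA2_1160_136 (T.okA2 k7 ha)
  have g1554 := T.ae1 k8
  have g1555 := T.ae01 k8
  have g1556 := T.ae02 k8
  have g1557 := T.ae12 k8
  have g1568 := fun ha : T.alt p r d b e = true => zA1_2307_2048 (T.okA1 k8 ha)
  have g1569 := fun ha : T.alt p r d b e = true => zA1_9482_0 (T.okA1 k8 ha)
  have g1574 := fun ha : T.alt p r d b e = true => zA1_18576_16 (T.okA1 k8 ha)
  have g1579 := fun ha : T.alt p r d b e = true => zA1_4676_64 (T.okA1 k8 ha)
  have g1582 := fun ha : T.alt p r d b e = true => zA1_18561_1 (T.okA1 k8 ha)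
  have g1593 := fun ha : T.alt p r d b e = true => zA1_4612_516 (T.okA1 k8 ha)
  have g1598 := fun ha : T.alt p r d b e = true => zA1_1608_64 (T.okA1 k8 ha)
  have g1607 := fun ha : T.alt p r d b e = true => zA1_4192_96 (T.okA1 k8 ha)
  have g1614 := fun ha : T.alt p r d b e = true => zA1_4708_4164 (T.okA1 k8 ha)
  have g1616 := fun ha : T.alt p r d b e = true => zA1_4708_4672 (T.okA1 k8 ha)
  have g1646 := fun ha : T.alt p r b d e = true => zA0_4672_576 (T.okA0 k8 ha)
  have g1647 := fun ha : T.alt p r b d e = true => zA0_4164_68 (T.okA0 k8 ha)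
  have g1649 := fun ha : T.alt p r b d e = true => zA0_4192_96 (T.okA0 k8 ha)
  have g1655 := fun ha : T.alt p r b d e = true => zA0_4708_4160 (T.okA0 k8 ha)
  have g1661 := fun ha : T.alt p r b d e = true => zA0_290_34 (T.okA0 k8 ha)
  have g1664 := fun ha : T.alt p r b d e = true => zA0_420_36 (T.okA0 k8 ha)
  have g1681 := fun ha : T.alt p r e b d = true => zA2_40_40 (T.okA2 k8 ha)
  have g1682 := fun ha : T.alt p r e b d = true => zA2_48_48 (T.okA2 k8 ha)
  have g1694 := fun ha : T.alt p r e b d = true => zA2_4644_4 (T.okA2 k8 ha)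
  have g1697 := fun ha : T.alt p r e b d = true => zA2_4704_64 (T.okA2 k8 ha)
  have g1700 := fun ha : T.alt p r e b d = true => zA2_9480_8 (T.okA2 k8 ha)
  have g1705 := fun ha : T.alt p r e b d = true => zA2_18433_2049 (T.okA2 k8 ha)
  have g1711 := fun ha : T.alt p r e b d = true => zA2_4640_544 (T.okA2 k8 ha)
  have g1713 := fun ha : T.alt p r e b d = true => zA2_180_4 (T.okA2 k8 ha)
  have g1716 := fun ha : T.alt p r e b d = true => zA2_2625_64 (T.okA2 k8 ha)
  have g1725 := fun ha : T.alt p r e b d = true => zA2_4164_68 (T.okA2 k8 ha)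
  have g1732 := fun ha : T.alt p r e b d = true => zA2_4708_4192 (T.okA2 k8 ha)
  have g1734 := fun ha : T.alt p r e b d = true => zA2_4708_4672 (T.okA2 k8 ha)
  have g1735 := T.ae1 k9
  have g1736 := T.ae01 k9
  have g1737 := T.ae02 k9
  have g1738 := T.ae12 k9
  have g1749 := fun ha : T.alt p r d c e = true => zA1_2307_2048 (T.okA1 k9 ha)
  have g1760 := fun ha : T.alt p r d c e = true => zA1_4676_64 (T.okA1 k9 ha)
  have g1768 := fun ha : T.alt p r d c e = true => zA1_9224_1032 (T.okA1 k9 ha)
  have g1779 := fun ha : T.alt p r d c e = true => zA1_1608_64 (T.okA1 k9 ha)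
  have g1785 := fun ha : T.alt p r d c e = true => zA1_1168_1040 (T.okA1 k9 ha)
  have g1821 := fun ha : T.alt p r c d e = true => zA0_8458_2 (T.okA0 k9 ha)
  have g1822 := fun ha : T.alt p r c d e = true => zA0_18449_1 (T.okA0 k9 ha)
  have g1827 := fun ha : T.alt p r c d e = true => zA0_4672_576 (T.okA0 k9 ha)
  have g1840 := fun ha : T.alt p r c d e = true => zA0_579_576 (T.okA0 k9 ha)
  have g1868 := fun ha : T.alt p r e c d = true => zA2_18577_0 (T.okA2 k9 ha)
  have g1881 := fun ha : T.alt p r e c d = true => zA2_9480_8 (T.okA2 k9 ha)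
  have g1897 := fun ha : T.alt p r e c d = true => zA2_2625_64 (T.okA2 k9 ha)
  have g1903 := fun ha : T.alt p r e c d = true => zA2_2306_2050 (T.okA2 k9 ha)
  have g1916 := T.ae1 k10
  have g1917 := T.ae01 k10
  have g1918 := T.ae02 k10
  have g1919 := T.ae12 k10
  have g1927 := fun ha : T.alt p a c b d = true => zA1_16420_16416 (T.okA1 k10 ha)
  have g1930 := fun ha : T.alt p a c b d = true => zA1_2307_2048 (T.okA1 k10 ha)
  have g1940 := fun ha : T.alt p a c b d = true => zA1_16529_128 (T.okA1 k10 ha)
  have g1943 := fun ha : T.alt p a c b d = true => zA1_4196_4 (T.okA1 k10 ha)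
  have g1947 := fun ha : T.alt p a c b d = true => zA1_18449_2048 (T.okA1 k10 ha)
  have g1960 := fun ha : T.alt p a c b d = true => zA1_1608_64 (T.okA1 k10 ha)
  have g1964 := fun ha : T.alt p a c b d = true => zA1_292_260 (T.okA1 k10 ha)
  have g1976 := fun ha : T.alt p a c b d = true => zA1_4708_4164 (T.okA1 k10 ha)
  have g1989 := fun ha : T.alt p a b c d = true => zA0_2085_2048 (T.okA0 k10 ha)
  have g1995 := fun ha : T.alt p a b c d = true => zA0_18576_128 (T.okA0 k10 ha)
  have g1997 := fun ha : T.alt p a b c d = true => zA0_9474_256 (T.okA0 k10 ha)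
  have g2006 := fun ha : T.alt p a b c d = true => zA0_18561_2048 (T.okA0 k10 ha)
  have g2007 := fun ha : T.alt p a b c d = true => zA0_4132_36 (T.okA0 k10 ha)
  have g2009 := fun ha : T.alt p a b c d = true => zA0_4164_68 (T.okA0 k10 ha)
  have g2019 := fun ha : T.alt p a b c d = true => zA0_1608_8 (T.okA0 k10 ha)
  have g2026 := fun ha : T.alt p a b c d = true => zA0_420_36 (T.okA0 k10 ha)
  have g2027 := fun ha : T.alt p a b c d = true => zA0_2081_33 (T.okA0 k10 ha)
  have g2049 := fun ha : T.alt p a d b c = true => zA2_18577_0 (T.okA2 k10 ha)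
  have g2056 := fun ha : T.alt p a d b c = true => zA2_4644_4 (T.okA2 k10 ha)
  have g2062 := fun ha : T.alt p a d b c = true => zA2_9480_8 (T.okA2 k10 ha)
  have g2064 := fun ha : T.alt p a d b c = true => zA2_9482_8192 (T.okA2 k10 ha)
  have g2067 := fun ha : T.alt p a d b c = true => zA2_18433_2049 (T.okA2 k10 ha)
  have g2069 := fun ha : T.alt p a d b c = true => zA2_18448_2064 (T.okA2 k10 ha)
  have g2071 := fun ha : T.alt p a d b c = true => zA2_18560_2176 (T.okA2 k10 ha)
  have g2075 := fun ha : T.alt p a d b c = true => zA2_180_4 (T.okA2 k10 ha)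
  have g2080 := fun ha : T.alt p a d b c = true => zA2_2089_2049 (T.okA2 k10 ha)
  have g2081 := fun ha : T.alt p a d b c = true => zA2_2307_256 (T.okA2 k10 ha)
  have g2082 := fun ha : T.alt p a d b c = true => zA2_164_160 (T.okA2 k10 ha)
  have g2086 := fun ha : T.alt p a d b c = true => zA2_1160_136 (T.okA2 k10 ha)
  have g2097 := T.ae1 k11
  have g2098 := T.ae01 k11
  have g2099 := T.ae02 k11
  have g2100 := T.ae12 k11
  have g2108 := fun ha : T.alt p a c b e = true => zA1_16420_16416 (T.okA1 k11 ha)
  have g2111 := fun ha : T.alt p a c b e = true => zA1_2307_2048 (T.okA1 k11 ha)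
  have g2121 := fun ha : T.alt p a c b e = true => zA1_16529_128 (T.okA1 k11 ha)
  have g2128 := fun ha : T.alt p a c b e = true => zA1_18449_2048 (T.okA1 k11 ha)
  have g2145 := fun ha : T.alt p a c b e = true => zA1_292_260 (T.okA1 k11 ha)
  have g2170 := fun ha : T.alt p a b c e = true => zA0_2085_2048 (T.okA0 k11 ha)
  have g2176 := fun ha : T.alt p a b c e = true => zA0_18576_128 (T.okA0 k11 ha)
  have g2178 := fun ha : T.alt p a b c e = true => zA0_9474_256 (T.okA0 k11 ha)
  have g2187 := fun ha : T.alt p a b c e = true => zA0_18561_2048 (T.okA0 k11 ha)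
  have g2188 := fun ha : T.alt p a b c e = true => zA0_4132_36 (T.okA0 k11 ha)
  have g2193 := fun ha : T.alt p a b c e = true => zA0_4640_544 (T.okA0 k11 ha)
  have g2206 := fun ha : T.alt p a b c e = true => zA0_656_640 (T.okA0 k11 ha)
  have g2207 := fun ha : T.alt p a b c e = true => zA0_420_36 (T.okA0 k11 ha)
  have g2208 := fun ha : T.alt p a b c e = true => zA0_2081_33 (T.okA0 k11 ha)
  have g2230 := fun ha : T.alt p a e b c = true => zA2_18577_0 (T.okA2 k11 ha)
  have g2237 := fun ha : T.alt p a e b c = true => zA2_4644_4 (T.okA2 k11 ha)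
  have g2243 := fun ha : T.alt p a e b c = true => zA2_9480_8 (T.okA2 k11 ha)
  have g2244 := fun ha : T.alt p a e b c = true => zA2_6_6 (T.okA2 k11 ha)
  have g2245 := fun ha : T.alt p a e b c = true => zA2_9482_8192 (T.okA2 k11 ha)
  have g2248 := fun ha : T.alt p a e b c = true => zA2_18433_2049 (T.okA2 k11 ha)
  have g2252 := fun ha : T.alt p a e b c = true => zA2_18560_2176 (T.okA2 k11 ha)
  have g2254 := fun ha : T.alt p a e b c = true => zA2_4640_544 (T.okA2 k11 ha)
  have g2256 := fun ha : T.alt p a e b c = true => zA2_180_4 (T.okA2 k11 ha)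
  have g2259 := fun ha : T.alt p a e b c = true => zA2_2625_64 (T.okA2 k11 ha)
  have g2261 := fun ha : T.alt p a e b c = true => zA2_2089_2049 (T.okA2 k11 ha)
  have g2262 := fun ha : T.alt p a e b c = true => zA2_2307_256 (T.okA2 k11 ha)
  have g2263 := fun ha : T.alt p a e b c = true => zA2_164_160 (T.okA2 k11 ha)
  have g2278 := T.ae1 k12
  have g2279 := T.ae01 k12
  have g2280 := T.ae02 k12
  have g2281 := T.ae12 k12
  have g2298 := fun ha : T.alt p a d b e = true => zA1_18576_16 (T.okA1 k12 ha)
  have g2300 := fun ha : T.alt p a d b e = true => zA1_4644_32 (T.okA1 k12 ha)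
  have g2301 := fun ha : T.alt p a d b e = true => zA1_4704_512 (T.okA1 k12 ha)
  have g2303 := fun ha : T.alt p a d b e = true => zA1_4676_64 (T.okA1 k12 ha)
  have g2305 := fun ha : T.alt p a d b e = true => zA1_4196_4 (T.okA1 k12 ha)
  have g2317 := fun ha : T.alt p a d b e = true => zA1_4612_516 (T.okA1 k12 ha)
  have g2331 := fun ha : T.alt p a d b e = true => zA1_4192_96 (T.okA1 k12 ha)
  have g2352 := fun ha : T.alt p a b d e = true => zA0_4708_0 (T.okA0 k12 ha)
  have g2369 := fun ha : T.alt p a b d e = true => zA0_4132_36 (T.okA0 k12 ha)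
  have g2370 := fun ha : T.alt p a b d e = true => zA0_4672_576 (T.okA0 k12 ha)
  have g2371 := fun ha : T.alt p a b d e = true => zA0_4164_68 (T.okA0 k12 ha)
  have g2372 := fun ha : T.alt p a b d e = true => zA0_4612_516 (T.okA0 k12 ha)
  have g2374 := fun ha : T.alt p a b d e = true => zA0_4640_544 (T.okA0 k12 ha)
  have g2418 := fun ha : T.alt p a e b d = true => zA2_4644_4 (T.okA2 k12 ha)
  have g2419 := fun ha : T.alt p a e b d = true => zA2_4676_512 (T.okA2 k12 ha)
  have g2421 := fun ha : T.alt p a e b d = true => zA2_4704_64 (T.okA2 k12 ha)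
  have g2423 := fun ha : T.alt p a e b d = true => zA2_4196_32 (T.okA2 k12 ha)
  have g2426 := fun ha : T.alt p a e b d = true => zA2_9482_8192 (T.okA2 k12 ha)
  have g2435 := fun ha : T.alt p a e b d = true => zA2_4640_544 (T.okA2 k12 ha)
  have g2444 := fun ha : T.alt p a e b d = true => zA2_164_160 (T.okA2 k12 ha)
  have g2449 := fun ha : T.alt p a e b d = true => zA2_4164_68 (T.okA2 k12 ha)
  have g2459 := T.ae1 k13
  have g2460 := T.ae01 k13
  have g2461 := T.ae02 k13
  have g2462 := T.ae12 k13
  have g2484 := fun ha : T.alt p a d c e = true => zA1_4676_64 (T.okA1 k13 ha)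
  have g2490 := fun ha : T.alt p a d c e = true => zA1_18449_2048 (T.okA1 k13 ha)
  have g2493 := fun ha : T.alt p a d c e = true => zA1_8202_10 (T.okA1 k13 ha)
  have g2503 := fun ha : T.alt p a d c e = true => zA1_1608_64 (T.okA1 k13 ha)
  have g2508 := fun ha : T.alt p a d c e = true => zA1_584_520 (T.okA1 k13 ha)
  have g2509 := fun ha : T.alt p a d c e = true => zA1_1168_1040 (T.okA1 k13 ha)
  have g2542 := fun ha : T.alt p a c d e = true => zA0_16529_16 (T.okA0 k13 ha)
  have g2545 := fun ha : T.alt p a c d e = true => zA0_8458_2 (T.okA0 k13 ha)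
  have g2551 := fun ha : T.alt p a c d e = true => zA0_4672_576 (T.okA0 k13 ha)
  have g2564 := fun ha : T.alt p a c d e = true => zA0_579_576 (T.okA0 k13 ha)
  have g2566 := fun ha : T.alt p a c d e = true => zA0_290_34 (T.okA0 k13 ha)
  have g2600 := fun ha : T.alt p a e c d = true => zA2_4676_512 (T.okA2 k13 ha)
  have g2602 := fun ha : T.alt p a e c d = true => zA2_4704_64 (T.okA2 k13 ha)
  have g2621 := fun ha : T.alt p a e c d = true => zA2_2625_64 (T.okA2 k13 ha)
  have g2627 := fun ha : T.alt p a e c d = true => zA2_2306_2050 (T.okA2 k13 ha)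
  have g2640 := T.ae1 k14
  have g2641 := T.ae01 k14
  have g2642 := T.ae02 k14
  have g2643 := T.ae12 k14
  have g2651 := fun ha : T.alt p b d c e = true => zA1_16420_16416 (T.okA1 k14 ha)
  have g2654 := fun ha : T.alt p b d c e = true => zA1_2307_2048 (T.okA1 k14 ha)
  have g2662 := fun ha : T.alt p b d c e = true => zA1_4644_32 (T.okA1 k14 ha)
  have g2663 := fun ha : T.alt p b d c e = true => zA1_4704_512 (T.okA1 k14 ha)
  have g2667 := fun ha : T.alt p b d c e = true => zA1_4196_4 (T.okA1 k14 ha)
  have g2670 := fun ha : T.alt p b d c e = true => zA1_18577_16384 (T.okA1 k14 ha)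
  have g2676 := fun ha : T.alt p b d c e = true => zA1_8456_264 (T.okA1 k14 ha)
  have g2677 := fun ha : T.alt p b d c e = true => zA1_9472_1280 (T.okA1 k14 ha)
  have g2679 := fun ha : T.alt p b d c e = true => zA1_4612_516 (T.okA1 k14 ha)
  have g2685 := fun ha : T.alt p b d c e = true => zA1_9482_8448 (T.okA1 k14 ha)
  have g2691 := fun ha : T.alt p b d c e = true => zA1_306_258 (T.okA1 k14 ha)
  have g2693 := fun ha : T.alt p b d c e = true => zA1_4192_96 (T.okA1 k14 ha)
  have g2714 := fun ha : T.alt p b c d e = true => zA0_4708_0 (T.okA0 k14 ha)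
  have g2731 := fun ha : T.alt p b c d e = true => zA0_4132_36 (T.okA0 k14 ha)
  have g2733 := fun ha : T.alt p b c d e = true => zA0_4164_68 (T.okA0 k14 ha)
  have g2734 := fun ha : T.alt p b c d e = true => zA0_4612_516 (T.okA0 k14 ha)
  have g2735 := fun ha : T.alt p b c d e = true => zA0_4192_96 (T.okA0 k14 ha)
  have g2736 := fun ha : T.alt p b c d e = true => zA0_4640_544 (T.okA0 k14 ha)
  have g2743 := fun ha : T.alt p b c d e = true => zA0_1608_8 (T.okA0 k14 ha)
  have g2772 := fun ha : T.alt p b e c d = true => zA2_1176_1024 (T.okA2 k14 ha)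
  have g2780 := fun ha : T.alt p b e c d = true => zA2_4644_4 (T.okA2 k14 ha)
  have g2781 := fun ha : T.alt p b e c d = true => zA2_4676_512 (T.okA2 k14 ha)
  have g2785 := fun ha : T.alt p b e c d = true => zA2_4196_32 (T.okA2 k14 ha)
  have g2787 := fun ha : T.alt p b e c d = true => zA2_6_6 (T.okA2 k14 ha)
  have g2797 := fun ha : T.alt p b e c d = true => zA2_4640_544 (T.okA2 k14 ha)
  have g2811 := fun ha : T.alt p b e c d = true => zA2_4164_68 (T.okA2 k14 ha)
  have g2843 := z5_4898_544 k0
  have g2891 := z5_10505_8193 k0
  have g2896 := z5_4756_4112 k0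
  have g2900 := z5_18596_16416 k0
  have g2903 := z5_9508_1056 k0
  have g2916 := z5_4617_4617 k0
  have g2941 := z5_6249_6209 k0
  have g3077 := z5_18881_18433 k1
  have g3088 := z5_16673_16673 k1
  have g3208 := z5_18706_16640 k2
  have g3247 := z5_18881_18433 k2
  have g3258 := z5_16673_16673 k2
  have g3385 := z5_6241_4097 k3
  have g3401 := z5_10505_8193 k3
  have g3413 := z5_9508_1056 k3
  have g3414 := z5_9508_8224 k3
  have g3426 := z5_4617_4617 k3
  have g3429 := z5_9281_9281 k3
  have g3541 := z5_9508_8196 k4
  have g3546 := z5_5196_4104 k4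
  have g3555 := z5_6241_4097 k4
  have g3571 := z5_10505_8193 k4
  have g3574 := z5_5196_12 k4
  have g3658 := z5_5708_4172 k4
  have g3905 := z5_18489_18433 k6
  have g3911 := z5_10505_8193 k6
  have g3921 := z5_18596_2176 k6
  have g3948 := z5_18504_18504 k6
  have g4026 := z5_17545_129 k7
  have g4027 := z5_17545_1025 k7
  have g4040 := z5_10505_257 k7
  have g4046 := z5_16977_513 k7
  have g4052 := z5_6241_33 k7
  have g4065 := z5_6241_4097 k7
  have g4075 := z5_18489_18433 k7
  have g4081 := z5_10505_8193 k7
  have g4087 := z5_4756_640 k7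
  have g4090 := z5_18596_16416 k7
  have g4091 := z5_18596_2176 k7
  have g4094 := z5_9508_8224 k7
  have g4143 := z5_6753_4193 k7
  have g4197 := z5_17545_1025 k8
  have g4202 := z5_4898_4098 k8
  have g4206 := z5_4898_34 k8
  have g4207 := z5_4756_20 k8
  have g4209 := z5_5196_68 k8
  have g4215 := z5_18596_2052 k8
  have g4218 := z5_6241_96 k8
  have g4219 := z5_6241_2112 k8
  have g4230 := z5_16977_16448 k8
  have g4237 := z5_8778_66 k8
  have g4256 := z5_4756_4112 k8
  have g4259 := z5_18596_16388 k8
  have g4263 := z5_9508_1056 k8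
  have g4286 := z5_612_612 k8
  have g4369 := z5_17545_16392 k9
  have g4414 := z5_4679_4672 k9
  have g4416 := z5_3657_73 k9
  have g4423 := z5_18706_16386 k9
  have g4425 := z5_4756_516 k9
  have g4442 := z5_4728_4672 k9
  have g4446 := z5_4617_4617 k9
  have g4449 := z5_9281_9281 k9
  have g4451 := z5_4178_4178 k9
  have g4458 := z5_18504_18504 k9
  have g4539 := z5_17545_16392 k10
  have g4555 := z5_18596_2052 k10
  have g4559 := z5_6241_2112 k10
  have g4560 := z5_6241_6144 k10
  have g4600 := z5_18596_16416 k10
  have g4607 := z5_18881_18433 k10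
  have g4627 := z5_6404_6404 k10
  have g4628 := z5_18504_18504 k10
  have g4681 := z5_18612_18564 k10
  have g4709 := z5_17545_16392 k11
  have g4719 := z5_5196_68 k11
  have g4725 := z5_18596_2052 k11
  have g4729 := z5_6241_2112 k11
  have g4730 := z5_6241_6144 k11
  have g4770 := z5_18596_16416 k11
  have g4774 := z5_9508_8224 k11
  have g4780 := z5_7716_4132 k11
  have g4796 := z5_612_612 k11
  have g4797 := z5_6404_6404 k11
  have g4880 := z5_17545_17408 k12
  have g4884 := z5_4898_768 k12
  have g4886 := z5_4898_34 k12
  have g4887 := z5_4756_20 k12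
  have g4889 := z5_5196_68 k12
  have g4898 := z5_6241_96 k12
  have g4899 := z5_6241_2112 k12
  have g4917 := z5_8778_66 k12
  have g4920 := z5_5196_1088 k12
  have g4937 := z5_4756_640 k12
  have g4939 := z5_18596_16388 k12
  have g5052 := z5_4898_4098 k13
  have g5083 := z5_9362_1040 k13
  have g5087 := z5_8778_66 k13
  have g5106 := z5_4756_4112 k13
  have g5113 := z5_9508_1056 k13
  have g5122 := z5_4728_4672 k13
  have g5129 := z5_9281_9281 k13
  have g5131 := z5_4178_4178 k13
  have g5138 := z5_18504_18504 k13
  have g5217 := z5_17545_1025 k14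
  have g5223 := z5_4898_544 k14
  have g5224 := z5_4898_768 k14
  have g5226 := z5_4898_34 k14
  have g5236 := z5_16977_513 k14
  have g5260 := z5_5196_1088 k14
  have g5268 := z5_978_530 k14
  have g5274 := z5_5196_12 k14
  have g5275 := z5_4756_516 k14
  have g5277 := z5_4756_640 k14
  have g5282 := z5_9508_260 k14
  have g5309 := z5_8976_8976 k14
  have g5387 := z5_17545_1025 k15
  have g5412 := z5_6241_33 k15
  have g5450 := z5_18596_16416 k15
  have g5576 := z5_16977_513 k16
  have g5582 := z5_6241_33 k16
  have g5587 := z5_18596_160 k16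
  have g5604 := z5_4679_4672 k16
  have g5618 := z5_4756_4224 k16
  have g5620 := z5_18596_16416 k16
  have g5646 := z5_612_612 k16
  have g5673 := z5_6753_4193 k16
  have g5734 := z5_4898_768 k17
  have g5742 := z5_16977_16896 k17
  have g5751 := z5_9508_8196 k17
  have g5752 := z5_6241_33 k17
  have g5976 := z5_4617_4617 k18
  have g6052 := z5_24_24 k19
  have g6073 := z5_4898_544 k19
  have g6102 := z5_8778_8704 k19
  have g6121 := z5_10505_8193 k19
  have g6125 := z5_4756_516 k19
  have g6136 := z5_28745_73 k19
  have g6149 := z5_9281_9281 k19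
  have g6156 := z5_612_612 k19
  have g6161 := z5_8779_8776 k19
  have g6243 := z5_4898_544 k20
  have g6252 := z5_16977_16896 k20
  have g6262 := z5_6241_33 k20
  have g6271 := z5_8778_520 k20
  have g6294 := z5_5196_12 k20
  have g6295 := z5_4756_516 k20
  have g6392 := zsp_73_1 sp0
  have g6393 := zsp_73_64 sp0
  have g6394 := zsp_73_8 sp0
  have g6395 := zsp_530_530 sp0
  have g6396 := zsp_530_2 sp0
  have g6397 := zsp_530_512 sp0
  have g6398 := zsp_530_16 sp0
  have g6399 := zsp_1156_1156 sp0
  have g6400 := zsp_1156_4 sp0
  have g6401 := zsp_1156_1024 sp0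
  have g6402 := zsp_1156_128 sp0
  have g6404 := zsp_2336_32 sp0
  have g6405 := zsp_2336_2048 sp0
  have g6406 := zsp_2336_256 sp0
  have g6408 := zsp_4132_4 sp0
  have g6409 := zsp_4132_4096 sp0
  have g6410 := zsp_4132_32 sp0
  have g6412 := zsp_8450_2 sp0
  have g6413 := zsp_8450_8192 sp0
  have g6416 := zsp_16528_16 sp0
  have g6417 := zsp_16528_16384 sp0
  have g6419 := zsp_18433_18433 sp0
  have g6420 := zsp_18433_1 sp0
  have g6421 := zsp_18433_16384 sp0
  have g6422 := zsp_18433_2048 sp0
  have g6425 := zsp_9224_8192 sp0
  have g6426 := zsp_9224_1024 sp0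
  have g6428 := zsp_4672_64 sp0
  have g6429 := zsp_4672_4096 sp0
  have g6430 := zsp_4672_512 sp0
  have g6432 := zsp_73_1 sp1
  have g6433 := zsp_73_64 sp1
  have g6434 := zsp_73_8 sp1
  have g6435 := zsp_530_530 sp1
  have g6436 := zsp_530_2 sp1
  have g6437 := zsp_530_512 sp1
  have g6438 := zsp_530_16 sp1
  have g6440 := zsp_1156_4 sp1
  have g6441 := zsp_1156_1024 sp1
  have g6442 := zsp_1156_128 sp1
  have g6444 := zsp_2336_32 sp1
  have g6446 := zsp_2336_256 sp1
  have g6447 := zsp_4132_4132 sp1
  have g6448 := zsp_4132_4 sp1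
  have g6449 := zsp_4132_4096 sp1
  have g6450 := zsp_4132_32 sp1
  have g6452 := zsp_8450_2 sp1
  have g6454 := zsp_8450_256 sp1
  have g6456 := zsp_16528_16 sp1
  have g6458 := zsp_16528_128 sp1
  have g6459 := zsp_18433_18433 sp1
  have g6460 := zsp_18433_1 sp1
  have g6461 := zsp_18433_16384 sp1
  have g6462 := zsp_18433_2048 sp1
  have g6465 := zsp_9224_8192 sp1
  have g6468 := zsp_4672_64 sp1
  have g6470 := zsp_4672_512 sp1
  have g6472 := zsp_73_1 sp2
  have g6473 := zsp_73_64 sp2
  have g6474 := zsp_73_8 sp2
  have g6475 := zsp_530_530 sp2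
  have g6476 := zsp_530_2 sp2
  have g6477 := zsp_530_512 sp2
  have g6478 := zsp_530_16 sp2
  have g6479 := zsp_1156_1156 sp2
  have g6480 := zsp_1156_4 sp2
  have g6481 := zsp_1156_1024 sp2
  have g6482 := zsp_1156_128 sp2
  have g6483 := zsp_2336_2336 sp2
  have g6484 := zsp_2336_32 sp2
  have g6485 := zsp_2336_2048 sp2
  have g6486 := zsp_2336_256 sp2
  have g6487 := zsp_4132_4132 sp2
  have g6488 := zsp_4132_4 sp2
  have g6489 := zsp_4132_4096 sp2
  have g6490 := zsp_4132_32 sp2
  have g6492 := zsp_8450_2 sp2
  have g6493 := zsp_8450_8192 sp2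
  have g6494 := zsp_8450_256 sp2
  have g6495 := zsp_16528_16528 sp2
  have g6496 := zsp_16528_16 sp2
  have g6497 := zsp_16528_16384 sp2
  have g6498 := zsp_16528_128 sp2
  have g6499 := zsp_18433_18433 sp2
  have g6500 := zsp_18433_1 sp2
  have g6501 := zsp_18433_16384 sp2
  have g6502 := zsp_18433_2048 sp2
  have g6503 := zsp_9224_9224 sp2
  have g6504 := zsp_9224_8 sp2
  have g6505 := zsp_9224_8192 sp2
  have g6506 := zsp_9224_1024 sp2
  have g6508 := zsp_4672_64 sp2
  have g6509 := zsp_4672_4096 sp2
  have g6510 := zsp_4672_512 sp2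
  have g6516 := zsp_530_2 sp3
  have g6517 := zsp_530_512 sp3
  have g6518 := zsp_530_16 sp3
  have g6519 := zsp_1156_1156 sp3
  have g6520 := zsp_1156_4 sp3
  have g6521 := zsp_1156_1024 sp3
  have g6522 := zsp_1156_128 sp3
  have g6524 := zsp_2336_32 sp3
  have g6526 := zsp_2336_256 sp3
  have g6528 := zsp_4132_4 sp3
  have g6529 := zsp_4132_4096 sp3
  have g6530 := zsp_4132_32 sp3
  have g6533 := zsp_8450_8192 sp3
  have g6534 := zsp_8450_256 sp3
  have g6537 := zsp_16528_16384 sp3
  have g6538 := zsp_16528_128 sp3
  have g6542 := zsp_18433_2048 sp3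
  have g6544 := zsp_9224_8 sp3
  have g6546 := zsp_9224_1024 sp3
  have g6549 := zsp_4672_4096 sp3
  have g6551 := zsp_73_73 sp4
  have g6552 := zsp_73_1 sp4
  have g6553 := zsp_73_64 sp4
  have g6554 := zsp_73_8 sp4
  have g6556 := zsp_530_2 sp4
  have g6557 := zsp_530_512 sp4
  have g6560 := zsp_1156_4 sp4
  have g6561 := zsp_1156_1024 sp4
  have g6562 := zsp_1156_128 sp4
  have g6564 := zsp_2336_32 sp4
  have g6565 := zsp_2336_2048 sp4
  have g6566 := zsp_2336_256 sp4
  have g6568 := zsp_4132_4 sp4
  have g6569 := zsp_4132_4096 sp4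
  have g6570 := zsp_4132_32 sp4
  have g6571 := zsp_8450_8450 sp4
  have g6572 := zsp_8450_2 sp4
  have g6573 := zsp_8450_8192 sp4
  have g6574 := zsp_8450_256 sp4
  have g6576 := zsp_16528_16 sp4
  have g6577 := zsp_16528_16384 sp4
  have g6578 := zsp_16528_128 sp4
  have g6579 := zsp_18433_18433 sp4
  have g6580 := zsp_18433_1 sp4
  have g6581 := zsp_18433_16384 sp4
  have g6582 := zsp_18433_2048 sp4
  have g6584 := zsp_9224_8 sp4
  have g6585 := zsp_9224_8192 sp4
  have g6586 := zsp_9224_1024 sp4
  have g6587 := zsp_4672_4672 sp4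
  have g6588 := zsp_4672_64 sp4
  have g6589 := zsp_4672_4096 sp4
  have g6590 := zsp_4672_512 sp4
  have g6592 := zsp_73_1 sp5
  have g6593 := zsp_73_64 sp5
  have g6594 := zsp_73_8 sp5
  have g6596 := zsp_530_2 sp5
  have g6598 := zsp_530_16 sp5
  have g6600 := zsp_1156_4 sp5
  have g6601 := zsp_1156_1024 sp5
  have g6602 := zsp_1156_128 sp5
  have g6604 := zsp_2336_32 sp5
  have g6605 := zsp_2336_2048 sp5
  have g6606 := zsp_2336_256 sp5
  have g6608 := zsp_4132_4 sp5
  have g6609 := zsp_4132_4096 sp5
  have g6610 := zsp_4132_32 sp5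
  have g6611 := zsp_8450_8450 sp5
  have g6612 := zsp_8450_2 sp5
  have g6613 := zsp_8450_8192 sp5
  have g6614 := zsp_8450_256 sp5
  have g6616 := zsp_16528_16 sp5
  have g6617 := zsp_16528_16384 sp5
  have g6618 := zsp_16528_128 sp5
  have g6620 := zsp_18433_1 sp5
  have g6621 := zsp_18433_16384 sp5
  have g6622 := zsp_18433_2048 sp5
  have g6624 := zsp_9224_8 sp5
  have g6625 := zsp_9224_8192 sp5
  have g6626 := zsp_9224_1024 sp5
  have g6628 := zsp_4672_64 sp5
  have g6629 := zsp_4672_4096 sp5
  have g6630 := zsp_4672_512 sp5
  have g6631 : T.X p r a b = true := h0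
  have g6632 : T.X p r b c = true := h1
  have g6633 : T.X p r d e = true := h2
  have g6634 : T.X b c d e = false := h3
  have g6635 : T.X a b d e = false := ((T.xs4 d e a b).symm.trans h4)
  have g6637 := xr2 e151
  have g6639 := xr4 e151
  have g6640 := xr1 e152
  have g6641 := xr2 e152
  have g6642 := xr3 e152
  have g6643 := xr4 e152
  have g6644 := it1 B153
  have g6645 := it2 B153
  have g6646 := it3 B153
  have g6647 := it4 B153
  have g6648 := an0 e154
  have g6649 := an1 e154
  have g6650 := an2 e154
  have g6651 := xr1 L155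
  have g6652 := xr2 L155
  have g6655 : T.lto p r a b b c = true := h5
  have g6657 := xr2 e156
  have g6659 := xr4 e156
  have g6661 := xr2 e157
  have g6662 := xr3 e157
  have g6666 := it3 B158
  have g6667 := it4 B158
  have g6668 := an0 e159
  have g6669 := an1 e159
  have g6670 := an2 e159
  have g6673 := xr3 L160
  have g6674 := xr4 L160
  have g6675 : T.lto p r c b a b = false := h6
  have g6676 := xr1 e161
  have g6677 := xr2 e161
  have g6678 := xr3 e161
  have g6679 := xr4 e161
  have g6680 := xr1 e162
  have g6681 := xr2 e162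
  have g6682 := xr3 e162
  have g6683 := xr4 e162
  have g6684 := it1 B163
  have g6685 := it2 B163
  have g6686 := it3 B163
  have g6687 := it4 B163
  have g6688 := an0 e164
  have g6689 := an1 e164
  have g6690 := an2 e164
  have g6691 := it1 B165
  have g6692 := it2 B165
  have g6693 := it3 B165
  have g6694 := it4 B165
  have g6695 := an0 e166
  have g6696 := an1 e166
  have g6697 := an2 e166
  have g6698 := xr1 e167
  have g6699 := xr2 e167
  have g6700 := xr3 e167
  have g6702 := xr1 L168
  have g6703 := xr2 L168
  have g6706 : T.lto p r b c d e = true := h7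
  have g6707 := xr1 e169
  have g6708 := xr2 e169
  have g6710 := xr4 e169
  have g6711 := xr1 e170
  have g6712 := xr2 e170
  have g6720 := an1 e172
  have g6725 := it4 B173
  have g6727 := an1 e174
  have g6728 := an2 e174
  have g6730 := xr2 e175
  have g6734 := xr2 L176
  have g6737 : T.lto p r c b d e = true := h8
  have g6738 := xr1 e177
  have g6739 := xr2 e177
  have g6741 := xr4 e177
  have g6743 := xr2 e178
  have g6744 := xr3 e178
  have g6747 := it2 B179
  have g6748 := it3 B179
  have g6749 := it4 B179
  have g6750 := an0 e180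
  have g6751 := an1 e180
  have g6752 := an2 e180
  have g6755 := it3 B181
  have g6756 := it4 B181
  have g6757 := an0 e182
  have g6758 := an1 e182
  have g6759 := an2 e182
  have g6761 := xr2 e183
  have g6762 := xr3 e183
  have g6763 := xr4 e183
  have g6766 := xr3 L184
  have g6767 := xr4 L184
  have g6768 : T.lto p r d e b c = false := h9
  have g6769 := xr1 e185
  have g6770 := xr2 e185
  have g6772 := xr4 e185
  have g6773 := xr1 e186
  have g6774 := xr2 e186
  have g6775 := xr3 e186
  have g6776 := xr4 e186
  have g6778 := it2 B187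
  have g6779 := it3 B187
  have g6780 := it4 B187
  have g6781 := an0 e188
  have g6782 := an1 e188
  have g6783 := an2 e188
  have g6784 := it1 B189
  have g6785 := it2 B189
  have g6786 := it3 B189
  have g6787 := it4 B189
  have g6788 := an0 e190
  have g6789 := an1 e190
  have g6790 := an2 e190
  have g6792 := xr2 e191
  have g6793 := xr3 e191
  have g6794 := xr4 e191
  have g6797 := xr3 L192
  have g6798 := xr4 L192
  have g6799 : T.lto p r e d b c = false := h10
  have g6800 := xr1 e193
  have g6805 := xr2 e194
  have g6813 := an1 e196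
  have g6816 := an1 e197
  have g6819 := xr2 e198
  have g6823 := xr2 L199
  have g6826 : T.lto p r d e a b = true := h11
  have g6828 := xr2 e200
  have g6829 := xr3 e200
  have g6832 := xr2 e201
  have g6833 := xr3 e201
  have g6836 := it2 B202
  have g6837 := it3 B202
  have g6838 := it4 B202
  have g6839 := an0 e203
  have g6840 := an1 e203
  have g6841 := an2 e203
  have g6842 := an0 e204
  have g6843 := an1 e204
  have g6844 := an2 e204
  have g6845 := xr1 e205
  have g6846 := xr2 e205
  have g6850 := xr2 L206
  have g6853 : T.lto p r e d a b = true := h12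
  have g6857 := xr4 e207
  have g6860 := xr3 e208
  have g6865 := it4 B209
  have g6867 := an1 e210
  have g6868 := an2 e210
  have g6869 := it1 B211
  have g6870 := it2 B211
  have g6871 := it3 B211
  have g6872 := it4 B211
  have g6874 := an1 e212
  have g6875 := an2 e212
  have g6878 := xr3 e213
  have g6882 := xr3 L214
  have g6884 : T.lto p r a b d e = false := h13
  have g6885 := xr1 e215
  have g6886 := xr2 e215
  have g6887 := xr3 e215
  have g6888 := xr4 e215
  have g6889 := xr1 e216
  have g6890 := xr2 e216
  have g6891 := xr3 e216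
  have g6892 := xr4 e216
  have g6893 := it1 B217
  have g6894 := it2 B217
  have g6895 := it3 B217
  have g6896 := it4 B217
  have g6897 := an0 e218
  have g6898 := an1 e218
  have g6899 := an2 e218
  have g6900 := it1 B219
  have g6901 := it2 B219
  have g6902 := it3 B219
  have g6903 := it4 B219
  have g6904 := an0 e220
  have g6905 := an1 e220
  have g6906 := an2 e220
  have g6907 := xr1 e221
  have g6908 := xr2 e221
  have g6909 := xr3 e221
  have g6910 := xr4 e221
  have g6913 := xr3 L222
  have g6914 := xr4 L222
  have g6915 : T.lto p r b a d e = false := h14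
  have s6916 := fun (n0 : T.X p a r b = true) => g1 g6631 n0
  have w6916 := bf s6916
  have s6917 := fun (n0 : T.X p b r a = true) => g2 g6631 n0
  have w6917 := bf s6917
  have s6918 := fun (n0 : T.X p b r c = true) => g13 g6632 n0
  have w6918 := bf s6918
  have s6919 := fun (n0 : T.X p c r b = true) => g14 g6632 n0
  have w6919 := bf s6919
  have s6920 := fun (n0 : T.X p d r e = true) => g28 g6633 n0
  have w6920 := bf s6920
  have s6921 := fun (n0 : T.X p e r d = true) => g29 g6633 n0
  have w6921 := bf s6921
  have s6922 := fun (n0 : v151 = true) (n1 : T.X r a b c = false) => g6637 n0 w6917 n1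
  have s6923 := fun (n0 : v151 = false) (n1 : T.X r a b c = true) => g6639 n0 w6917 n1
  have s6924 := fun (n0 : v157 = true) (n1 : v156 = false) => g6661 n0 n1 w6918
  have s6925 := fun (n0 : v157 = false) (n1 : v156 = true) => g6662 n0 n1 w6918
  have s6926 : T.alt p r e a b = false → T.bfo p a b e r = true → T.bfo p b a e r = true → False := fun n0 n1 n2 => by
    have u0 := bt fun t => g6872 n1 n0 t
    have u1 := bt fun t => g6903 n2 n0 t
    exact g469 u0 u1
  have s6927 : T.bfo p a b e r = true → T.X p e r b = true → v220 = true → False := fun n0 n1 n2 => by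
    have u0 := bt fun t => g6906 n2 t
    have u1 := bt fun t => g6905 n2 t
    have u2 := bt fun t => s6926 t n0 u0
    have u3 := bt fun t => g619 u2 g6631 u1 t
    have u4 := bt fun t => g6870 n0 u2 t
    exact g3258 g6631 u4 n1 u3
  have s6928 : T.X p d r b = true → T.X p e r b = true → v215 = true → False := fun n0 n1 n2 => by
    have u0 := bf fun t => g20 t n1
    have u1 := bf fun t => g17 t n0
    have u2 := bf fun t => g6885 n2 n0 t
    have u3 := bt fun t => g4218 u1 n1 g6633 t u2
    have u4 := bt fun t => g4209 n0 u0 g6633 t u2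
    exact g57 u4 u3
  have s6929 : T.X p b d e = false → T.alt p r b d e = false → T.X r b d e = true → T.X p d r b = false → T.X p e r b = true → False := fun n0 n1 n2 n3 n4 => by
    have u0 := bf fun t => g85 n2 t
    have u1 := bf fun t => g4263 n3 n4 w6921 t u0
    have u2 := bf fun t => g20 t n4
    have u3 := bf fun t => g1732 t n3 n4 g6633 n0 n2
    have u4 := bf fun t => g1598 t u2 g6633 n0 u1
    exact g1554 n1 u4 u3
  have s6930 : T.X p b d e = true → T.X p d a b = true → T.X p e a b = true → False := fun n0 n1 n2 => by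
    have u0 := bf fun t => g2369 t n1 n2 g6635
    have u1 := bf fun t => g2435 t n2 n0 g6635
    have u2 := bf fun t => g2317 t n1 n0 g6635
    exact g2278 u0 u2 u1
  have s6931 : T.X p e r b = true → T.X p b d e = false → T.alt p a b d e = false → v216 = false → T.bfo p b a d r = true → T.bfo p b a e r = true → False := fun n0 n1 n2 n3 n4 n5 => by
    have u0 := bt fun t => g6892 n3 t n0
    have u1 := bf fun t => s6928 t n0 u0
    have u2 := bf fun t => g6894 n4 t u1
    have u3 := bt fun t => g6886 u0 u1 t
    have u4 := bt fun t => g6896 n4 u2 t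
    have u5 := bf fun t => g6490 u2 t n2
    have u6 := bt fun t => s6929 n1 t u3 u1 n0
    have u7 := bt fun t => g6903 n5 u5 t
    exact g6475 u4 u7 u6
  have s6932 : T.X r b d e = true → T.alt p r b d e = false → v215 = false → T.X p e r b = false → T.X p b d e = false → False := fun n0 n1 n2 n3 n4 => by
    have u0 := bf fun t => g86 n0 t
    have u1 := bt fun t => g6888 n2 t n0
    have u2 := bf fun t => g17 t u1
    have u3 := bf fun t => g1614 t u1 n3 g6633 n4 n0
    have u4 := bf fun t => g4215 u1 n3 w6920 t u0
    have u5 := bt fun t => g1554 n1 u3 t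
    exact g1716 u5 u2 g6633 n4 u4
  have s6933 : T.alt p r b d e = false → T.X p b d e = false → v215 = false → T.X p e r b = false → False := fun n0 n1 n2 n3 => by
    have u0 := bf fun t => s6932 t n0 n2 n3 n1
    have u1 := bf fun t => g1697 t n3 g6633 n1 u0
    have u2 := bf fun t => g6887 n2 t u0
    have u3 := bt fun t => g1554 n0 t u1
    exact g1579 u3 u2 g6633 n1 u0
  have s6934 : T.X p b d e = false → T.alt p a b d e = false → T.bfo p b a e r = true → v216 = false → T.bfo p b a d r = true → False := fun n0 n1 n2 n3 n4 => by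
    have u0 := bf fun t => s6931 t n0 n1 n3 n4 n2
    have u1 := bf fun t => g6891 n3 t u0
    have u2 := bf fun t => g6901 n2 t u0
    have u3 := bt fun t => g6903 n2 u2 t
    have u4 := bf fun t => g6488 t u2 n1
    have u5 := bt fun t => g6896 n4 u4 t
    have u6 := bf fun t => g6475 u5 u3 t
    exact s6933 u6 n0 u1 u0
  have s6935 : v218 = true → v221 = true → False := fun n0 n1 => by
    have u0 := bt fun t => g6913 g6915 n1 t
    have u1 := bt fun t => g6906 u0 t
    have u2 := bt fun t => g6905 u0 t
    have u3 := bt fun t => g6898 n0 t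
    have u4 := bt fun t => g6899 n0 t
    have u5 := bf fun t => g6907 n1 t n0
    have u6 := bf fun t => g2369 t u3 u2 g6635
    have u7 := bf fun t => s6930 t u3 u2
    exact s6934 u7 u6 u1 u5 u4
  have s6936 : v185 = true → v191 = true → T.X p a b d = true → T.X p r b e = false → T.X p b r e = false → T.alt p r a d e = false → T.alt p r b d e = false → T.alt p r d a b = false → T.alt p r e a b = false → T.X p e r b = false → T.X p b a d = false → T.alt p a e b d = true → T.X p d a b = false → T.X p b d e = false → False := fun n0 n1 n2 n3 n4 n5 n6 n7 n8 n9 n10 n11 n12 n13 => by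
    have u0 := bt fun t => g6797 g6799 n1 t
    have u1 := bt fun t => g6790 u0 t
    have u2 := bt fun t => g6789 u0 t
    have u3 := bf fun t => g6782 t n13
    have u4 := bt fun t => g6792 n1 t u3
    have u5 := bt fun t => g6770 n0 n4 t
    have u6 := bf fun t => g6773 u4 n0 t
    have u7 := bf fun t => g4075 g6632 n3 n4 n9 t u5
    have u8 := bf fun t => g6785 u1 t u6
    have u9 := bf fun t => g2663 t u7 n13 u2 g6634
    have u10 := bf fun t => g1533 t g6632 n4 u6 u7 u5
    have u11 := bf fun t => g6549 n5 u8 t
    have u12 := bf fun t => g6589 n6 u8 t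
    have u13 := bt fun t => g6614 t n11 u9
    have u14 := bf fun t => g6446 n8 t u10
    have u15 := bf fun t => g6528 t u14 u11
    have u16 := bt fun t => g2640 u12 u9 t
    have u17 := bf fun t => g6568 t u10 u12
    have u18 := bf fun t => g1917 t u13
    have u19 := bf fun t => g1919 u13 t
    have u20 := bt fun t => g6413 t u15 u13
    have u21 := bt fun t => g2781 u16 t n13 u2 g6634
    have u22 := bf fun t => g2787 u16 t u21
    have u23 := bf fun t => g6408 t n7 u18
    have u24 := bf fun t => g6420 t u17 u19
    have u25 := bf fun t => g147 u20 w6916 w6917 t w6919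
    have u26 := bf fun t => g6647 t u23 u24
    have u27 := bf fun t => g6650 t u26
    have u28 := bt fun t => g6652 g6655 t u27
    have u29 := bt fun t => g6641 u28 t u25
    have u30 := bt fun t => s6922 u29 t
    have u31 := bf fun t => g62 u30 t
    have u32 := bf fun t => g168 u20 w6917 u25 g6632 t u30
    have u33 := bt fun t => g134 u20 g6631 w6918 t u31
    have u34 := bt fun t => g1947 u13 u32 n10 u21 t
    have u35 := bf fun t => g4681 u33 n10 n12 t u21 u34
    exact g4539 u32 n2 u35 u22 u34
  have s6937 : v191 = true → T.X p a b d = true → T.X p e b d = false → T.X p r b e = false → T.X p b r e = false → T.alt p r a d e = false → T.alt p r e b d = true → T.alt p r b d e = false → T.alt p r d a b = false → T.alt p r b a e = true → T.alt p r e a b = false → T.X p e r b = false → T.X p b a d = false → T.X p d b e = false → T.alt p a e b d = true → T.X p d a b = false → T.X p b d e = false → False := fun n0 n1 n2 n3 n4 n5 n6 n7 n8 n9 n10 n11 n12 n13 n14 n15 n16 => by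
    have u0 := bf fun t => g6782 t n16
    have u1 := bt fun t => g6792 n0 t u0
    have u2 := bt fun t => g6797 g6799 n0 t
    have u3 := bt fun t => g6789 u2 t
    have u4 := bf fun t => s6936 t n0 n1 n3 n4 n5 n7 n8 n10 n11 n12 n14 n15 n16
    have u5 := bf fun t => g6772 u4 n4 t
    have u6 := bt fun t => g6774 u1 u4 t
    have u7 := bf fun t => g1470 t g6632 u6 u5
    have u8 := bf fun t => g1527 t g6632 u6 u5
    have u9 := bt fun t => g4026 g6632 n3 u6 t u5
    have u10 := bf fun t => g4091 w6919 n11 u6 t u5
    have u11 := bt fun t => g6438 t n9 u7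
    have u12 := bf fun t => g6552 t u7 n7
    have u13 := bt fun t => g6566 u8 n6 t
    have u14 := bf fun t => g5268 t u9 n16 n13 n2 u3
    have u15 := bf fun t => g2663 t u10 n16 u3 g6634
    have u16 := bf fun t => g107 t u11
    have u17 := bf fun t => g109 u11 t
    have u18 := bf fun t => g147 u11 w6916 w6917 t w6919
    have u19 := bt fun t => g6582 u12 u13 t
    have u20 := bt fun t => g6614 t n14 u15
    have u21 := bf fun t => g6647 t u17 u16
    have u22 := bt fun t => g2781 u19 t n16 u3 g6634
    have u23 := bf fun t => g6650 t u21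
    have u24 := bt fun t => g6652 g6655 t u23
    have u25 := bt fun t => g6641 u24 t u18
    have u26 := bt fun t => s6922 u25 t
    have u27 := bf fun t => g62 u26 t
    have u28 := bf fun t => g168 u11 w6917 u18 g6632 t u26
    have u29 := bt fun t => g134 u11 g6631 w6918 t u27
    have u30 := bt fun t => g1947 u20 u28 n12 u22 t
    have u31 := bf fun t => g4681 u29 n12 n15 t u22 u30
    exact g4539 u28 n1 u31 u14 u30
  have s6938 : T.alt p b e c d = true → T.X p c r a = false → T.X r a b c = true → T.X p c r e = false → T.X r e b c = false → T.X p a b d = true → T.X p e b d = false → T.alt p r d b e = false → T.alt p r b a e = true → T.X p b a d = false → T.alt p a e b d = true → T.X p d a b = false → T.X p b d e = false → False := fun n0 n1 n2 n3 n4 n5 n6 n7 n8 n9 n10 n11 n12 => by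
    have u0 := bf fun t => g62 n2 t
    have u1 := bf fun t => g2643 t n0
    have u2 := bt fun t => g6577 t n7 n0
    have u3 := bt fun t => g6614 t n10 u1
    have u4 := bf fun t => g1374 t u2
    have u5 := bt fun t => g1401 u2 g6632 n3 t n4
    have u6 := bt fun t => g6438 t n8 u4
    have u7 := bt fun t => g2785 n0 t u5 n12 g6634
    have u8 := bf fun t => g2797 n0 u5 t g6634
    have u9 := bf fun t => g5226 t u5 n6 u8 g6634
    have u10 := bf fun t => g168 u6 w6917 n1 g6632 t n2
    have u11 := bt fun t => g134 u6 g6631 w6918 t u0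
    have u12 := bt fun t => g1947 u3 u10 n9 u7 t
    have u13 := bf fun t => g4681 u11 n9 n11 t u7 u12
    exact g4539 u10 n5 u13 u9 u12
  have s6939 : T.alt p b d c e = false → T.alt p a c b e = false → T.alt p r c b e = false → T.alt p b e c d = false → T.X p c r a = false → T.X r a b c = true → T.X p c b e = false → T.X p c r e = false → T.X r e b c = false → T.X p r a d = true → T.alt p r e b d = true → T.alt p r b a d = true → T.X p b a d = false → T.X p a d e = true → T.alt p a e b d = true → T.X p d a b = false → T.X p b d e = false → T.X p a b e = false → False := fun n0 n1 n2 n3 n4 n5 n6 n7 n8 n9 n10 n11 n12 n13 n14 n15 n16 n17 => by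
    have u0 := bf fun t => g62 n5 t
    have u1 := bf fun t => g4920 n15 n17 n13 t g6635
    have u2 := bf fun t => g47 n13 t
    have u3 := bf fun t => g2426 n14 n12 n17 u2 u1 t
    have u4 := bt fun t => g6574 t n10 n0
    have u5 := bt fun t => g6614 t n14 n0
    have u6 := bt fun t => g2640 t n0 n3
    have u7 := bf fun t => g1193 t u4
    have u8 := bf fun t => g1195 u4 t
    have u9 := bt fun t => g6556 u4 n2 t
    have u10 := bf fun t => g1919 u5 t
    have u11 := bt fun t => g6596 u5 n1 t
    have u12 := bt fun t => g6398 t n11 u7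
    have u13 := bt fun t => g6569 u8 t u6
    have u14 := bt fun t => g6416 n11 t u10
    have u15 := bt fun t => g6609 u10 t u6
    have u16 := bf fun t => g168 u12 w6917 n4 g6632 t n5
    have u17 := bt fun t => g134 u12 g6631 w6918 t u0
    have u18 := bf fun t => g1524 u13 g6632 t n8
    have u19 := bf fun t => g2244 u15 t u17
    have u20 := bf fun t => g2262 u15 u16 u19 t u18
    have u21 := bf fun t => g1964 u5 u17 n15 t
    have u22 := bf fun t => g2245 u15 u19 n17 u20 n6 t
    have u23 := bf fun t => g1930 u5 u16 u19 u21 t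
    have u24 := bt fun t => g2714 u6 u23 u18 n16 t g6634
    have u25 := bf fun t => g59 u24 t
    have u26 := bt fun t => g1827 u9 g6633 u24 t
    have u27 := bt fun t => g2551 u11 n13 u24 t
    have u28 := bf fun t => g89 u26 t
    have u29 := bf fun t => g6295 t u22 u3 u27 g6634
    have u30 := bf fun t => g1822 u9 t n7 u25 u28
    have u31 := bf fun t => g1940 u5 u16 n12 t u29
    have u32 := bf fun t => g698 u14 n9 u30 t
    exact g2564 u11 u32 u31 n13 u24
  have s6940 : T.alt p r b a c = true → T.alt p r c b d = false → T.alt p b d c e = true → T.alt p r c b e = false → T.X p c r a = false → T.X r a b c = true → T.X r e b c = false → T.alt p r e a d = true → T.alt p r b a d = true → T.alt p r b a e = true → T.X p b a d = false → T.X p a d e = true → T.X p d a b = false → T.X p b d e = false → False := fun n0 n1 n2 n3 n4 n5 n6 n7 n8 n9 n10 n11 n12 n13 => by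
    have u0 := bf fun t => g62 n5 t
    have u1 := bf fun t => g47 n11 t
    have u2 := bf fun t => g109 n0 t
    have u3 := bf fun t => g6435 n0 n9 t
    have u4 := bf fun t => g168 n0 w6917 n4 g6632 t n5
    have u5 := bt fun t => g134 n0 g6631 w6918 t u0
    have u6 := bf fun t => g6402 u2 t n1
    have u7 := bf fun t => g6442 u2 t n3
    have u8 := bt fun t => g1373 u3 n3 t
    have u9 := bf fun t => g33 t u5
    have u10 := bt fun t => g6534 u6 n7 t
    have u11 := bt fun t => g6416 n8 u6 t
    have u12 := bt fun t => g6456 n9 u7 t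
    have u13 := bf fun t => g1524 u8 g6632 t n6
    have u14 := bt fun t => g2075 u11 u5 n10 n12 t
    have u15 := bf fun t => g2262 u12 u4 u9 t u13
    have u16 := bf fun t => g2663 n2 u13 n13 t g6634
    have u17 := bf fun t => g42 u14 t
    have u18 := bf fun t => g5052 u14 u15 u1 u16 t
    exact g2484 u10 u17 n11 u16 u18
  have s6941 : T.X p c a d = true → T.X p b c d = false → T.X p c b d = false → T.alt p a c b d = false → T.X p a b d = true → False := fun n0 n1 n2 n3 n4 => by
    have u0 := bf fun t => g40 t n0
    have u1 := bf fun t => g2086 t n4 n0 n2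
    have u2 := bf fun t => g2019 t n4 u0 n1 n2
    exact g1916 u2 n3 u1
  have s6942 : T.alt p a d b c = false → T.X p d b c = true → T.alt p a c b d = false → T.alt p r c b d = false → T.X p c r a = false → T.X r a b c = true → T.alt p r b a d = true → T.X p d a b = false → False := fun n0 n1 n2 n3 n4 n5 n6 n7 => by
    have u0 := bf fun t => g62 n5 t
    have u1 := bt fun t => g6416 n6 t n0
    have u2 := bt fun t => g1916 t n2 n0
    have u3 := bt fun t => g6402 t u1 n3
    have u4 := bf fun t => g257 u3 g6631 t u0
    have u5 := bf fun t => g286 u3 w6917 n4 g6632 t n5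
    exact g1989 u2 u5 u4 n7 n1
  have s6943 : v151 = true → T.bfo p a b c r = false → v152 = true → T.X p c b e = false → T.X p c r e = false → T.X r e b c = false → v190 = false → T.X p a b d = true → T.X p e b d = false → T.X p r a d = true → T.X p b r e = false → T.alt p r b a d = true → T.alt p r d a b = false → T.alt p r b a e = true → T.X p b a d = false → T.X p a d e = true → T.alt p a e b d = true → T.alt p a d b e = false → T.X p d a b = false → T.X p b d e = false → T.X p a b e = false → False := fun n0 n1 n2 n3 n4 n5 n6 n7 n8 n9 n10 n11 n12 n13 n14 n15 n16 n17 n18 n19 n20 => by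
    have u0 := bf fun t => g6475 n11 n13 t
    have u1 := bf fun t => g469 t n13
    have u2 := bf fun t => g6506 u1 t n17
    have u3 := bt fun t => g1554 u0 u2 t
    have u4 := bt fun t => g6492 n11 t n17
    have u5 := bt fun t => s6922 n0 t
    have u6 := bf fun t => g6640 n2 n0 t
    have u7 := bf fun t => s6938 t u6 u5 n4 n5 n7 n8 u2 n13 n14 n16 n18 n19
    have u8 := bf fun t => g6576 t u2 u7
    have u9 := bf fun t => g6616 t n17 u7
    have u10 := bt fun t => s6939 t u9 u8 u7 u6 u5 n3 n4 n5 n9 u3 n11 n14 n15 n16 n18 n19 n20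
    have u11 := bf fun t => g2641 t u10
    have u12 := bf fun t => g6571 t u3 u10
    have u13 := bf fun t => g6611 t n16 u10
    have u14 := bf fun t => g6590 u0 t u11
    have u15 := bf fun t => s6940 t u12 u10 u8 u6 u5 n5 u4 n11 n13 n14 n15 n18 n19
    have u16 := bt fun t => g6398 u15 n11 t
    have u17 := bt fun t => g6438 u15 n13 t
    have u18 := bf fun t => g1194 u16 t
    have u19 := bt fun t => g6580 u16 t u7
    have u20 := bt fun t => g1460 u17 g6632 n10 t n5
    have u21 := bt fun t => g6786 t u14 u19
    have u22 := bf fun t => g6788 n6 t u21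
    have u23 := bt fun t => g2662 u10 t u20 u22 g6634
    have u24 := bt fun t => s6942 t u23 u13 u12 u6 u5 n11 n18
    have u25 := bf fun t => g1918 t u24
    have u26 := bt fun t => g6421 t u18 u24
    have u27 := bf fun t => g6408 t n12 u25
    exact g6646 n1 u27 u26
  have s6944 : T.bfo p a b c r = false → v152 = true → T.X p a b e = false → T.X p c b e = false → T.X p c r e = false → T.X r e b c = false → v190 = false → T.X p a b d = true → T.X p e b d = false → T.X p r a d = true → T.X p b r e = false → T.alt p r b a d = true → T.alt p r d a b = false → T.alt p r b a e = true → T.X p b a d = false → T.X p a d e = true → T.alt p a e b d = true → T.alt p a d b e = false → T.X p d a b = false → T.X p b d e = false → False := fun n0 n1 n2 n3 n4 n5 n6 n7 n8 n9 n10 n11 n12 n13 n14 n15 n16 n17 n18 n19 => by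
    have u0 := bf fun t => s6943 t n0 n1 n3 n4 n5 n6 n7 n8 n9 n10 n11 n12 n13 n14 n15 n16 n17 n18 n19 n2
    have u1 := bf fun t => s6923 u0 t
    have u2 := bt fun t => g6641 n1 u0 t
    have u3 := bf fun t => g159 t u2 g6632 u1
    have u4 := bf fun t => g201 t u2 g6632 u1
    have u5 := bf fun t => g6644 n0 t u2
    exact g106 u4 u3 u5
  have s6945 : v151 = false → T.X p c a b = false → v152 = true → T.X p c r e = false → T.X r e b c = false → v190 = false → T.X p a r e = false → T.X p b r e = false → T.alt p r e b d = true → T.alt p r e a d = true → T.alt p r b a d = true → T.X p e r a = false → T.alt p r d a b = false → T.alt p r b a e = true → T.X p d a b = false → False := fun n0 n1 n2 n3 n4 n5 n6 n7 n8 n9 n10 n11 n12 n13 n14 => by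
    have u0 := bf fun t => s6923 n0 t
    have u1 := bt fun t => g6641 n2 n0 t
    have u2 := bf fun t => g159 t u1 g6632 u0
    have u3 := bf fun t => g2843 w6916 u1 w6919 t u0
    have u4 := bf fun t => g201 t u1 g6632 u0
    have u5 := bf fun t => g989 t u1 n6 n11 n3
    have u6 := bt fun t => g6398 u2 n10 t
    have u7 := bt fun t => g6438 u2 n13 t
    have u8 := bt fun t => g106 u4 u2 t
    have u9 := bt fun t => g6526 u5 n9 t
    have u10 := bf fun t => g1193 u6 t
    have u11 := bt fun t => g1460 u7 g6632 n7 t n4
    have u12 := bt fun t => g6408 u8 n12 t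
    have u13 := bf fun t => g1737 t u9
    have u14 := bt fun t => g6786 t u13 u9
    have u15 := bt fun t => g6574 u10 n8 t
    have u16 := bf fun t => g1989 u12 u3 n1 n14 t
    have u17 := bf fun t => g6788 n5 t u14
    exact g2662 u15 u16 u11 u17 g6634
  have s6946 : v154 = false → T.X p c b e = false → T.X p c r e = false → T.X r e b c = false → v190 = false → T.X p e b d = false → T.X p r a d = true → T.X p a r e = false → T.X p b r e = false → T.alt p r b a d = true → T.X p e r a = false → T.alt p r d a b = false → T.alt p r b a e = true → T.alt p r e a b = false → T.alt p a e b d = true → T.X p d a b = false → T.X p b d e = false → T.X p e a b = true → False := fun n0 n1 n2 n3 n4 n5 n6 n7 n8 n9 n10 n11 n12 n13 n14 n15 n16 n17 => by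
    have u0 := bt fun t => g2423 n14 n15 n17 t g6635
    have u1 := bt fun t => g4898 t n17 u0 n5 g6635
    have u2 := bf fun t => g339 n9 g6631 t n15
    have u3 := bf fun t => g328 n9 w6916 w6917 t u2
    have u4 := bf fun t => g6475 n9 n12 t
    have u5 := bf fun t => g2300 t n15 n17 n16 g6635
    have u6 := bf fun t => g469 t n12
    have u7 := bf fun t => g6506 u6 t u5
    have u8 := bt fun t => g1554 u4 u7 t
    have u9 := bt fun t => g6492 n9 t u5
    have u10 := bf fun t => g38 t n17
    have u11 := bf fun t => g4920 n15 u10 u0 t g6635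
    have u12 := bf fun t => g47 u0 t
    have u13 := bf fun t => g4886 t n17 u12 n16 g6635
    have u14 := bf fun t => g2426 n14 u13 u10 u12 u11 t
    have u15 := bt fun t => g6652 g6655 t n0
    have u16 := bt fun t => s6944 t u15 u10 n1 n2 n3 n4 u1 n5 n6 n8 n9 n11 n12 u13 u0 n14 u5 n15 n16
    have u17 := bf fun t => g6648 n0 t u16
    have u18 := bt fun t => s6945 t u17 u15 n2 n3 n4 n7 n8 u8 u9 n9 n10 n11 n12 n15
    have u19 := bt fun t => s6922 u18 t
    have u20 := bf fun t => g6640 u15 u18 t
    have u21 := bf fun t => g62 u19 t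
    have u22 := bf fun t => s6938 t u20 u19 n2 n3 u1 n5 u7 n12 u13 n14 n15 n16
    have u23 := bf fun t => g6645 u16 t u20
    have u24 := bf fun t => g134 t g6631 w6918 u17 u21
    have u25 := bf fun t => g6576 t u7 u22
    have u26 := bf fun t => g6616 t u5 u22
    have u27 := bf fun t => g6409 u23 n11 t
    have u28 := bf fun t => g6442 u23 t u25
    have u29 := bf fun t => g6449 u23 n13 t
    have u30 := bt fun t => g6647 u16 u23 t
    have u31 := bt fun t => g6398 u24 n9 t
    have u32 := bt fun t => g6438 u24 n12 t
    have u33 := bf fun t => g6454 u24 t u26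
    have u34 := bt fun t => s6939 t u26 u25 u22 u20 u19 n1 n2 n3 n6 u8 n9 u13 u0 n14 n15 n16 u10
    have u35 := bt fun t => g6430 t u31 u27
    have u36 := bt fun t => g830 t u28 u33
    have u37 := bt fun t => g6456 n12 u28 t
    have u38 := bt fun t => g6625 u29 t u34
    have u39 := bt fun t => g193 u30 g6631 t u17 u21
    have u40 := bt fun t => g207 u30 w6917 u20 g6632 t u19
    have u41 := bf fun t => g1193 u31 t
    have u42 := bt fun t => g6580 u31 t u22
    have u43 := bt fun t => g1460 u32 g6632 n8 t n3
    have u44 := bf fun t => g2641 t u34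
    have u45 := bf fun t => g717 u35 t u39
    have u46 := bf fun t => g722 u35 u45 u20 u3 t
    have u47 := bf fun t => g903 u36 u45 u20 n10 t
    have u48 := bt fun t => g6610 t u37 u44
    have u49 := bf fun t => g6557 u41 u25 t
    have u50 := bt fun t => g6786 t u49 u42
    have u51 := bf fun t => g4774 u17 n17 u47 n1 t
    have u52 := bf fun t => g6788 n4 t u50
    have u53 := bt fun t => g2662 u34 t u43 u52 g6634
    have u54 := bt fun t => g2484 u38 u46 u0 u52 t
    have u55 := bt fun t => g2067 u48 u40 u53 t
    exact g6295 u55 u51 u14 u54 g6634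
  have s6947 : v151 = true → v152 = false → T.bfo p a b c r = true → T.X p c a b = true → T.X p c r e = false → T.X r e b c = false → v190 = false → T.X p a b d = true → T.X p e b d = false → T.X p a r e = false → T.X p b r e = false → T.alt p r e a d = true → T.alt p r b a d = true → T.X p e r a = false → T.alt p r b a e = true → T.X p b a d = false → T.X p d a b = false → False := fun n0 n1 n2 n3 n4 n5 n6 n7 n8 n9 n10 n11 n12 n13 n14 n15 n16 => by
    have u0 := bf fun t => g32 t n3
    have u1 := bt fun t => s6922 n0 t
    have u2 := bt fun t => g6642 n1 n0 t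
    have u3 := bf fun t => g284 t w6917 u2 g6632 u0 u1
    have u4 := bf fun t => g147 t w6916 w6917 u2 w6919
    have u5 := bf fun t => g989 t u2 n9 n13 n4
    have u6 := bt fun t => g6647 n2 u3 t
    have u7 := bt fun t => g6398 u4 n12 t
    have u8 := bt fun t => g6438 u4 n14 t
    have u9 := bt fun t => g6526 u5 n11 t
    have u10 := bf fun t => g1194 u7 t
    have u11 := bt fun t => g1460 u8 g6632 n10 t n5
    have u12 := bf fun t => g1737 t u9
    have u13 := bt fun t => g6786 t u12 u9
    have u14 := bt fun t => g6420 u6 u10 t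
    have u15 := bf fun t => g6788 n6 t u13
    have u16 := bt fun t => g2075 u14 n3 n15 n16 t
    have u17 := bf fun t => g5226 t u11 n8 u15 g6634
    exact g2086 u14 n7 u16 u17
  have s6948 : v185 = false → v190 = false → v186 = false → T.X p e b d = false → T.X p r a d = true → T.X p a r e = false → T.X p r b e = false → T.X p b r e = false → T.alt p r b a d = true → T.X p e r a = false → T.alt p r d a b = false → T.alt p r b a e = true → T.alt p r e a b = false → T.alt p a e b d = true → T.X p d a b = false → T.X p b d e = false → T.X p e a b = true → False := fun n0 n1 n2 n3 n4 n5 n6 n7 n8 n9 n10 n11 n12 n13 n14 n15 n16 => by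
    have u0 := bt fun t => g2423 n13 n14 n16 t g6635
    have u1 := bt fun t => g4898 t n16 u0 n3 g6635
    have u2 := bf fun t => g6475 n8 n11 t
    have u3 := bf fun t => g2300 t n14 n16 n15 g6635
    have u4 := bf fun t => g469 t n11
    have u5 := bf fun t => g6506 u4 t u3
    have u6 := bt fun t => g1554 u2 u5 t
    have u7 := bt fun t => g6492 n8 t u3
    have u8 := bf fun t => g47 u0 t
    have u9 := bf fun t => g4886 t n16 u8 n15 g6635
    have u10 := bf fun t => g6772 n0 n7 t
    have u11 := bf fun t => g6776 n2 n0 t
    have u12 := bf fun t => g4027 g6632 n6 u11 t u10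
    have u13 := bt fun t => s6946 t u12 u11 u10 n1 n3 n4 n5 n7 n8 n9 n10 n11 n12 n13 n14 n15 n16
    have u14 := bt fun t => g6649 u13 t
    have u15 := bt fun t => g6650 u13 t
    have u16 := bf fun t => g6651 g6655 t u13
    have u17 := bf fun t => g32 t u14
    have u18 := bf fun t => s6947 t u16 u15 u14 u11 u10 n1 u1 n3 n5 n7 u7 n8 n9 n11 u9 n14
    have u19 := bf fun t => s6923 u18 t
    have u20 := bf fun t => g6643 u16 u18 t
    have u21 := bf fun t => g131 t w6917 g6632 u17 u19
    have u22 := bf fun t => g6645 u15 t u20
    have u23 := bt fun t => g6398 u21 n8 t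
    have u24 := bt fun t => g6438 u21 n11 t
    have u25 := bt fun t => g6647 u15 u22 t
    have u26 := bf fun t => g1193 u23 t
    have u27 := bf fun t => g1194 u23 t
    have u28 := bf fun t => g1374 u24 t
    have u29 := bf fun t => g1375 u24 t
    have u30 := bt fun t => g1460 u24 g6632 n7 t u10
    have u31 := bf fun t => g6557 u26 u28 t
    have u32 := bt fun t => g6420 u25 u27 t
    have u33 := bt fun t => g6566 u29 u6 t
    have u34 := bt fun t => g2075 u32 u14 u9 n14 t
    have u35 := bt fun t => g6786 t u31 u33
    have u36 := bt fun t => g2086 u32 u1 u34 t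
    have u37 := bf fun t => g6788 n1 t u35
    exact g5226 u36 u30 n3 u37 g6634
  have s6949 : T.alt p r d c e = true → T.X p c d e = false → T.X p c r e = true → False := fun n0 n1 n2 => by
    have u0 := bf fun t => g25 t n2
    have u1 := bf fun t => g1785 n0 n2 w6920 t
    exact g1779 n0 u0 g6633 n1 u1
  have s6950 : T.X p c d e = false → T.alt p r e c d = false → T.alt p r b a c = true → T.X p e b c = false → T.X p c r e = true → T.alt p r b d e = false → T.alt p r d a e = false → T.X p d a b = false → T.X p b d e = false → False := fun n0 n1 n2 n3 n4 n5 n6 n7 n8 => by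
    have u0 := bf fun t => g147 n2 w6916 w6917 t w6919
    have u1 := bf fun t => g107 t n2
    have u2 := bf fun t => g109 n2 t
    have u3 := bf fun t => g6647 t u2 u1
    have u4 := bf fun t => g6650 t u3
    have u5 := bt fun t => g6652 g6655 t u4
    have u6 := bt fun t => g6641 u5 t u0
    have u7 := bt fun t => s6922 u6 t
    have u8 := bf fun t => g62 u7 t
    have u9 := bt fun t => g134 n2 g6631 w6918 t u8
    have u10 := bf fun t => g33 t u9
    have u11 := bf fun t => g168 n2 w6917 u0 g6632 t u7
    have u12 := bf fun t => s6949 t n0 n4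
    have u13 := bt fun t => g1735 t u12 n1
    have u14 := bf fun t => g6520 t n6 u12
    have u15 := bt fun t => g6590 n5 u13 t
    have u16 := bt fun t => g6412 n2 u14 t
    have u17 := bt fun t => g2714 u15 t n3 n8 n0 g6634
    have u18 := bf fun t => g1964 u16 u9 n7 t
    exact g1930 u16 u11 u10 u18 u17
  have s6951 : T.X p e b d = false → T.X p r a d = true → T.X p r b e = false → T.X p b r e = false → T.alt p r b a d = true → T.alt p r d a b = false → T.alt p r b a e = true → T.alt p r e a b = false → T.X p e r b = false → T.alt p a e b d = true → T.X p d a b = false → T.X p b d e = false → T.X p e a b = true → False := fun n0 n1 n2 n3 n4 n5 n6 n7 n8 n9 n10 n11 n12 => by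
    have u0 := bf fun t => g6843 t n11
    have u1 := bt fun t => g6850 g6853 t u0
    have u2 := bt fun t => g2423 n9 n10 n12 t g6635
    have u3 := bf fun t => g469 t n6
    have u4 := bf fun t => g288 t n4
    have u5 := bf fun t => g6473 u4 u3 t
    have u6 := bf fun t => g2300 t n10 n12 n11 g6635
    have u7 := bt fun t => g6492 n4 t u6
    have u8 := bt fun t => g6837 t u5 u7
    have u9 := bt fun t => g6839 t u2 u8
    have u10 := bf fun t => g6845 u1 t u9
    have u11 := bf fun t => g6833 u10 t n3
    have u12 := bf fun t => g3247 g6631 n2 n3 n8 n12 t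
    have u13 := bf fun t => g6829 u11 t u12
    have u14 := bf fun t => g6475 n4 n6 t
    have u15 := bf fun t => g6506 u3 t u6
    have u16 := bt fun t => g1554 u14 u15 t
    have u17 := bf fun t => g6495 n6 t n9
    have u18 := bf fun t => g509 n6 w6916 w6917 t n8
    have u19 := bf fun t => g47 u2 t
    have u20 := bf fun t => g4886 t n12 u19 n11 g6635
    have u21 := bf fun t => g38 t n12
    have u22 := bf fun t => g4920 n10 u21 u2 t g6635
    have u23 := bf fun t => g6782 t n11
    have u24 := bt fun t => g4898 t n12 u2 n0 g6635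
    have u25 := bf fun t => s6937 t u24 n0 n2 n3 u5 u16 u14 n5 n6 n7 n8 u20 u22 n9 n10 n11
    have u26 := bf fun t => g6793 u25 t u23
    have u27 := bf fun t => g6798 g6799 u25 t
    have u28 := bt fun t => s6948 t u27 u26 n0 n1 u13 n2 n3 n4 u18 n5 n6 n7 n9 n10 n11 n12
    have u29 := bt fun t => g6770 u28 n3 t
    have u30 := bt fun t => g6775 u26 u28 t
    have u31 := bf fun t => g83 t u29
    have u32 := bf fun t => g4075 g6632 n2 n3 n8 t u29
    have u33 := bf fun t => g25 t u30
    have u34 := bf fun t => g1428 t g6632 n3 u30 u32 u29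
    have u35 := bf fun t => g4087 w6919 n3 u30 t u31
    have u36 := bf fun t => g1447 t w6919 n8 u33 u35 u31
    have u37 := bf fun t => g6577 u34 u15 t
    have u38 := bt fun t => g6438 t n6 u36
    have u39 := bf fun t => g6552 t u36 u14
    have u40 := bf fun t => g6582 u39 t u37
    have u41 := bt fun t => s6950 t u40 u38 u32 u30 u14 u17 n10 n11
    have u42 := bf fun t => g6788 u27 u41 t
    have u43 := bf fun t => g2663 t u32 n11 u41 g6634
    have u44 := bf fun t => g6784 u42 t u30
    have u45 := bt fun t => g2640 t u43 u37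
    exact g6589 u14 u44 u45
  have s6952 : T.X p c r e = true → T.X p e b c = false → v185 = true → T.X p b r e = false → T.alt p r b d e = false → T.alt p r d b e = false → T.alt p r d a e = false → T.alt p r b a e = true → T.X p e r b = false → T.X p d a b = false → T.X p b d e = false → False := fun n0 n1 n2 n3 n4 n5 n6 n7 n8 n9 n10 => by
    have u0 := bt fun t => g6770 n2 n3 t
    have u1 := bf fun t => g83 t u0
    have u2 := bf fun t => g6782 t n10
    have u3 := bf fun t => g25 t n0
    have u4 := bf fun t => g1428 t g6632 n3 n0 n1 u0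
    have u5 := bf fun t => g6773 t n2 n0
    have u6 := bf fun t => g4087 w6919 n3 n0 t u1
    have u7 := bf fun t => g1447 t w6919 n8 u3 u6 u1
    have u8 := bf fun t => g6577 u4 n5 t
    have u9 := bf fun t => g6792 t u5 u2
    have u10 := bt fun t => g6438 t n7 u7
    have u11 := bf fun t => g6552 t u7 n4
    have u12 := bf fun t => g6798 g6799 u9 t
    have u13 := bf fun t => g6582 u11 t u8
    have u14 := bt fun t => s6950 t u13 u10 n1 n0 n4 n6 n9 n10
    have u15 := bf fun t => g6788 u12 u14 t
    have u16 := bf fun t => g2663 t n1 n10 u14 g6634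
    have u17 := bf fun t => g6784 u15 t n0
    have u18 := bt fun t => g2640 t u16 u8
    exact g6589 n4 u17 u18
  have s6953 : v185 = true → T.X p e b d = true → T.X p r b e = false → T.X p b r e = false → T.alt p r b d e = false → T.alt p r d b e = false → T.alt p r d a e = false → T.alt p r b a e = true → T.X p e r b = false → T.X p d a b = false → T.X p b d e = false → False := fun n0 n1 n2 n3 n4 n5 n6 n7 n8 n9 n10 => by
    have u0 := bt fun t => g1554 n4 n5 t
    have u1 := bf fun t => g6782 t n10
    have u2 := bt fun t => g6770 n0 n3 t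
    have u3 := bf fun t => g4075 g6632 n2 n3 n8 t u2
    have u4 := bf fun t => s6952 t u3 n0 n3 n4 n5 n6 n7 n8 n9 n10
    have u5 := bt fun t => g6775 t n0 u4
    have u6 := bf fun t => g1533 t g6632 n3 u4 u3 u2
    have u7 := bt fun t => g6793 t u5 u1
    have u8 := bt fun t => g6566 u6 u0 t
    have u9 := bt fun t => g6797 g6799 u7 t
    have u10 := bf fun t => g1737 t u8
    have u11 := bt fun t => g6789 u9 t
    have u12 := bf fun t => g6589 n4 u10 t
    have u13 := bf fun t => g2663 t u3 n10 u11 g6634
    have u14 := bt fun t => g5224 t u3 n1 u11 g6634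
    have u15 := bt fun t => g2640 u12 u13 t
    have u16 := bf fun t => g51 u14 t
    exact g2781 u15 u16 n10 u11 g6634
  have s6954 : T.alt p r c d e = false → T.alt p b e c d = false → T.bfo p e d c r = false → T.X p c d e = true → T.X r e b c = false → T.alt p r e b d = true → T.alt p r b d e = false → T.X p b d e = false → False := fun n0 n1 n2 n3 n4 n5 n6 n7 => by
    have u0 := bf fun t => g6589 n6 n0 t
    have u1 := bf fun t => g6786 n2 n0 t
    have u2 := bt fun t => g2640 u0 t n1
    have u3 := bt fun t => g6566 t n5 u1
    have u4 := bt fun t => g2663 u2 t n7 n3 g6634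
    exact g1524 u3 g6632 u4 n4
  have s6955 : T.X p c d e = true → v190 = false → T.X p c b e = false → T.X p c r e = false → T.X r e b c = false → T.X p r a d = true → T.X p a r e = false → T.alt p r b d e = false → T.alt p r b a d = true → T.X p e r a = false → T.alt p r a b e = false → T.X p b a d = false → T.X p a d e = true → T.alt p a e b d = true → T.alt p a d b e = false → T.X p d a b = false → T.X p b d e = false → T.X p a b e = false → False := fun n0 n1 n2 n3 n4 n5 n6 n7 n8 n9 n10 n11 n12 n13 n14 n15 n16 n17 => by
    have u0 := bf fun t => g6506 n10 t n14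
    have u1 := bt fun t => g1554 n7 u0 t
    have u2 := bt fun t => g6492 n8 t n14
    have u3 := bf fun t => g4920 n15 n17 n12 t g6635
    have u4 := bf fun t => g6788 n1 n0 t
    have u5 := bf fun t => g5275 t n2 u3 n0 g6634
    have u6 := bf fun t => g2781 t u5 n16 n0 g6634
    have u7 := bf fun t => g6576 t u0 u6
    have u8 := bf fun t => g6616 t n14 u6
    have u9 := bt fun t => s6954 t u6 u4 n0 n4 u1 n7 n16
    have u10 := bf fun t => g1737 u9 t
    have u11 := bt fun t => g6557 t u7 u9
    have u12 := bt fun t => g6526 t u2 u10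
    have u13 := bf fun t => g6571 u11 u1 t
    have u14 := bf fun t => g832 t u12
    have u15 := bf fun t => g833 t u12
    have u16 := bf fun t => g989 u12 t n6 n9 n3
    have u17 := bf fun t => s6939 u13 u8 u7 u6 u16 t n2 n3 n4 n5 u1 n8 n11 n12 n13 n15 n16 n17
    have u18 := bf fun t => g6432 t n10 u14
    have u19 := bf fun t => g6440 t u15 u7
    have u20 := bf fun t => s6922 t u17
    have u21 := bf fun t => g6647 t u19 u18
    have u22 := bf fun t => g6641 t u20 u16
    have u23 := bf fun t => g6650 t u21
    exact g6652 g6655 u22 u23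
  have s6956 : T.alt p r c d e = true → T.X p c b e = false → T.X p c r e = false → T.X r e b c = false → T.X p r a d = true → T.X p a r e = false → T.alt p r b d e = false → T.alt p r b a d = true → T.X p e r a = false → T.alt p r a b e = false → T.X p b a d = false → T.X p a d e = true → T.alt p a e b d = true → T.alt p a d b e = false → T.X p d a b = false → T.X p b d e = false → T.X p a b e = false → False := fun n0 n1 n2 n3 n4 n5 n6 n7 n8 n9 n10 n11 n12 n13 n14 n15 n16 => by
    have u0 := bf fun t => g6506 n9 t n13
    have u1 := bt fun t => g1554 n6 u0 t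
    have u2 := bt fun t => g6492 n7 t n13
    have u3 := bf fun t => g1737 n0 t
    have u4 := bt fun t => g6590 n6 n0 t
    have u5 := bt fun t => g6526 t u2 u3
    have u6 := bt fun t => g6566 t u1 u3
    have u7 := bf fun t => g2641 u4 t
    have u8 := bf fun t => g2642 u4 t
    have u9 := bf fun t => g832 t u5
    have u10 := bf fun t => g833 t u5
    have u11 := bf fun t => g989 u5 t n5 n8 n2
    have u12 := bf fun t => g1376 t u6
    have u13 := bf fun t => g6616 t n13 u8
    have u14 := bf fun t => g6432 t n9 u9
    have u15 := bf fun t => g6440 t u10 u12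
    have u16 := bf fun t => s6939 u7 u13 u12 u8 u11 t n1 n2 n3 n4 u1 n7 n10 n11 n12 n14 n15 n16
    have u17 := bf fun t => g6647 t u15 u14
    have u18 := bf fun t => s6922 t u16
    have u19 := bf fun t => g6650 t u17
    have u20 := bf fun t => g6641 t u18 u11
    exact g6652 g6655 u20 u19
  have s6957 : T.alt p r e c d = false → T.alt p r c d e = false → T.X p c r e = false → T.X r e b c = false → T.X p a r e = false → T.alt p r e b d = true → T.alt p r e a d = true → T.alt p r b a d = true → T.X p e r a = false → T.alt p r b a e = true → T.X p b a d = false → T.X p a d e = true → T.X p d a b = false → T.X p b d e = false → False := fun n0 n1 n2 n3 n4 n5 n6 n7 n8 n9 n10 n11 n12 n13 => by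
    have u0 := bf fun t => g469 t n9
    have u1 := bt fun t => g6526 t n6 n0
    have u2 := bt fun t => g6566 t n5 n0
    have u3 := bt fun t => g1735 n1 t n0
    have u4 := bf fun t => g832 t u1
    have u5 := bf fun t => g833 t u1
    have u6 := bf fun t => g989 u1 t n4 n8 n2
    have u7 := bf fun t => g1375 t u2
    have u8 := bf fun t => g1376 t u2
    have u9 := bt fun t => g6586 u7 u3 t
    have u10 := bf fun t => g6432 t u0 u4
    have u11 := bf fun t => g6440 t u5 u8
    have u12 := bt fun t => g6438 t n9 u7
    have u13 := bf fun t => g6556 t u8 n1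
    have u14 := bf fun t => g6647 t u11 u10
    have u15 := bf fun t => s6940 u12 u13 u9 u8 u6 t n3 n6 n7 n9 n10 n11 n12 n13
    have u16 := bf fun t => g6650 t u14
    have u17 := bf fun t => s6922 t u15
    have u18 := bt fun t => g6652 g6655 t u16
    exact g6641 u18 u17 u6
  have s6958 : v151 = false → v152 = true → T.alt p r b a c = false → v190 = false → T.X p c r e = false → T.X r e b c = false → T.X p a r e = false → T.X p b r e = false → T.alt p r e b d = true → T.alt p r e a d = true → T.alt p r b a d = true → T.X p e r a = false → T.alt p r d a b = false → T.alt p r b a e = true → T.X p d a b = false → False := fun n0 n1 n2 n3 n4 n5 n6 n7 n8 n9 n10 n11 n12 n13 n14 => by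
    have u0 := bf fun t => g6651 g6655 n1 t
    have u1 := bf fun t => s6923 n0 t
    have u2 := bt fun t => g6641 n1 n0 t
    have u3 := bt fun t => s6945 n0 t n1 n4 n5 n3 n6 n7 n8 n9 n10 n11 n12 n13 n14
    have u4 := bf fun t => g201 t u2 g6632 u1
    have u5 := bf fun t => g6648 u0 u3 t
    have u6 := bt fun t => g106 u4 n2 t
    exact g6644 u5 u6 u2
  have s6959 : v152 = true → T.X p d b c = true → T.alt p r b a c = false → T.alt p a c b d = false → T.alt p r c b d = false → T.alt p r d b c = false → v190 = false → T.X p c r e = false → T.X r e b c = false → T.X p a b d = false → T.X p a r e = false → T.X p b r e = false → T.alt p r e b d = true → T.alt p r e a d = true → T.alt p r b a d = true → T.X p e r a = false → T.alt p r d a b = false → T.alt p r b a e = true → T.X p d a b = false → False := fun n0 n1 n2 n3 n4 n5 n6 n7 n8 n9 n10 n11 n12 n13 n14 n15 n16 n17 n18 => by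
    have u0 := bt fun t => s6958 t n0 n2 n6 n7 n8 n10 n11 n12 n13 n14 n15 n16 n17 n18
    have u1 := bt fun t => s6922 u0 t
    have u2 := bf fun t => g6640 n0 u0 t
    have u3 := bt fun t => s6942 t n1 n3 n4 u2 u1 n14 n18
    have u4 := bf fun t => g2080 u3 t n9 n18 n1
    have u5 := bt fun t => g6421 t n5 u3
    exact g207 u5 w6917 u2 g6632 u4 u1
  have s6960 : T.alt p a d b c = true → T.X p c a b = true → T.X p d b c = true → T.X p b a d = false → T.X p d a b = false → False := fun n0 n1 n2 n3 n4 => by
    have u0 := bf fun t => g32 t n1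
    have u1 := bf fun t => g50 t n2
    have u2 := bt fun t => g2056 n0 n1 n4 u1 t
    have u3 := bt fun t => g2075 n0 n1 n3 n4 t
    have u4 := bt fun t => g4560 u0 n4 t n2 u2
    exact g40 u4 u3
  have s6961 : T.alt p b d c e = true → T.alt p r d b c = false → T.alt p r d c e = false → T.X p c d e = false → v190 = false → T.X p c r e = false → T.X r e b c = false → T.X p a b d = false → T.X p a r e = false → T.X p b r e = false → T.alt p r e b d = true → T.alt p r e a d = true → T.alt p r b a d = true → T.X p e r a = false → T.alt p r d a b = false → T.alt p r b a e = true → T.X p b a d = false → T.alt p a e b d = true → T.X p d a b = false → False := fun n0 n1 n2 n3 n4 n5 n6 n7 n8 n9 n10 n11 n12 n13 n14 n15 n16 n17 n18 => by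
    have u0 := bf fun t => g6495 n15 t n17
    have u1 := bf fun t => g6520 t u0 n2
    have u2 := bf fun t => g6571 t n10 n0
    have u3 := bf fun t => g6611 t n17 n0
    have u4 := bt fun t => g6585 t n2 n0
    have u5 := bf fun t => g6412 t u1 u3
    have u6 := bt fun t => g1460 u4 g6632 n9 t n6
    have u7 := bt fun t => g2662 n0 t u6 n3 g6634
    have u8 := bf fun t => s6959 t u7 u5 u3 u2 n1 n4 n5 n6 n7 n8 n9 n10 n11 n12 n13 n14 n15 n18
    have u9 := bt fun t => g6652 g6655 u8 t
    have u10 := bt fun t => g6649 u9 t
    have u11 := bt fun t => g6650 u9 t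
    have u12 := bf fun t => g32 t u10
    have u13 := bf fun t => g6669 t u12
    have u14 := bf fun t => g6673 g6675 t u13
    have u15 := bf fun t => s6925 u14 t
    have u16 := bf fun t => s6960 t u10 u7 n16 n18
    have u17 := bt fun t => g6416 n12 t u16
    have u18 := bt fun t => g6402 t u17 u2
    have u19 := bt fun t => g257 u18 g6631 u10 t
    have u20 := bt fun t => g6645 u11 u18 t
    have u21 := bt fun t => g6659 u15 t u19
    exact g6 u21 u20
  have s6962 : T.X p c r e = false → v185 = false → T.X p r b d = false → T.X p a r e = false → T.X p r b e = false → T.X p b r d = false → T.X p b r e = false → T.alt p r b a d = true → T.X p e r a = false → T.alt p r d a b = false → T.alt p r b a e = true → T.X p b a d = false → T.X p a d e = true → T.alt p a e b d = true → T.alt p a d b e = false → T.X p d a b = false → T.X p b d e = false → T.X p a b e = false → False := fun n0 n1 n2 n3 n4 n5 n6 n7 n8 n9 n10 n11 n12 n13 n14 n15 n16 n17 => by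
    have u0 := bf fun t => g6772 n1 n6 t
    have u1 := bf fun t => g339 n7 g6631 t n15
    have u2 := bt fun t => g315 n7 g6631 n5 n15 t
    have u3 := bf fun t => g66 t u2
    have u4 := bt fun t => g302 n7 w6916 t u1 n11 u3
    have u5 := bf fun t => g336 n7 u4 n2 t
    have u6 := bf fun t => g328 n7 w6916 w6917 t u1
    have u7 := bf fun t => g6475 n7 n10 t
    have u8 := bf fun t => g469 t n10
    have u9 := bf fun t => g6506 u8 t n14
    have u10 := bt fun t => g1554 u7 u9 t
    have u11 := bt fun t => g6492 n7 t n14
    have u12 := bf fun t => g6495 n10 t n13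
    have u13 := bf fun t => g6782 t n16
    have u14 := bf fun t => g6774 t n1 n0
    have u15 := bf fun t => g4027 g6632 n4 n0 t u0
    have u16 := bf fun t => g6792 t u14 u13
    have u17 := bf fun t => g6798 g6799 u16 t
    have u18 := bf fun t => s6955 t u17 u15 n0 u0 u4 n3 u7 n7 n8 u8 n11 n12 n13 n14 n15 n16 n17
    have u19 := bf fun t => s6956 t u15 n0 u0 u4 n3 u7 n7 n8 u8 n11 n12 n13 n14 n15 n16 n17
    have u20 := bf fun t => g6589 u7 u19 t
    have u21 := bt fun t => s6957 t u19 n0 u0 n3 u10 u11 n7 n8 n10 n11 n12 n15 n16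
    have u22 := bf fun t => g1738 t u21
    have u23 := bf fun t => g6520 t u12 u22
    have u24 := bf fun t => g6560 t u9 u22
    have u25 := bf fun t => s6961 t u24 u22 u18 u17 n0 u0 u5 n3 n6 u10 u11 n7 n8 n9 n10 n11 n13 n15
    have u26 := bt fun t => g6574 t u10 u25
    have u27 := bt fun t => g6614 t n13 u25
    have u28 := bt fun t => g2640 u20 u25 t
    have u29 := bt fun t => g6556 u26 t u19
    have u30 := bf fun t => g1917 t u27
    have u31 := bf fun t => g1919 u27 t
    have u32 := bt fun t => g6413 t u23 u27
    have u33 := bt fun t => g1401 u29 g6632 n0 t u0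
    have u34 := bf fun t => g6408 t n9 u30
    have u35 := bt fun t => g6416 n7 t u31
    have u36 := bf fun t => g6420 t u24 u31
    have u37 := bf fun t => g147 u32 w6916 w6917 t w6919
    have u38 := bt fun t => g2785 u28 t u33 n16 g6634
    have u39 := bf fun t => g6647 t u34 u36
    have u40 := bf fun t => g50 t u38
    have u41 := bf fun t => g51 t u38
    have u42 := bf fun t => g3905 g6632 n2 n5 u1 u38 t
    have u43 := bf fun t => g6650 t u39
    have u44 := bf fun t => g1236 u26 n2 t u40 u41
    have u45 := bf fun t => g1960 u27 u5 t u40 u41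
    have u46 := bt fun t => g6652 g6655 t u43
    have u47 := bf fun t => g675 u35 u37 u6 u44 u45 t
    have u48 := bt fun t => g6641 u46 t u37
    have u49 := bt fun t => s6922 u48 t
    have u50 := bf fun t => g168 u32 w6917 u37 g6632 t u49
    have u51 := bt fun t => g5412 u49 u2 u47 u42 t
    exact g4560 u50 n15 u45 u38 u51
  have s6963 : T.X p e r b = false → T.bfo p b a d r = true → T.alt p a b d e = false → T.X p b d e = false → v221 = true → False := fun n0 n1 n2 n3 n4 => by
    have u0 := bt fun t => g6913 g6915 n4 t
    have u1 := bt fun t => g6905 u0 t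
    have u2 := bf fun t => s6935 t n4
    have u3 := bf fun t => g6897 u2 t n1
    have u4 := bf fun t => g2300 t u3 u1 n3 g6635
    have u5 := bt fun t => g2278 n2 u4 t
    have u6 := bt fun t => g2423 u5 u3 u1 t g6635
    have u7 := bf fun t => g47 u6 t
    have u8 := bf fun t => g4886 t u1 u7 n3 g6635
    have u9 := bf fun t => g38 t u1
    have u10 := bf fun t => g4920 u3 u9 u6 t g6635
    have u11 := bf fun t => g6843 t n3
    have u12 := bt fun t => g6850 g6853 t u11
    have u13 := bf fun t => g6782 t n3
    have u14 := bt fun t => g6908 n4 t u2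
    have u15 := bt fun t => g6906 u0 t
    have u16 := bf fun t => g6901 u15 t n0
    have u17 := bt fun t => g6890 u14 t n0
    have u18 := bt fun t => g6903 u15 u16 t
    have u19 := bf fun t => g6488 t u16 n2
    have u20 := bf fun t => g469 t u18
    have u21 := bf fun t => g509 u18 w6916 w6917 t n0
    have u22 := bf fun t => g6495 u18 t u5
    have u23 := bt fun t => g6896 n1 u19 t
    have u24 := bf fun t => g6506 u20 t u4
    have u25 := bf fun t => g288 t u23
    have u26 := bf fun t => g339 u23 g6631 t u3
    have u27 := bf fun t => g6475 u23 u18 t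
    have u28 := bt fun t => g6492 u23 t u4
    have u29 := bt fun t => g1554 u27 u24 t
    have u30 := bf fun t => g6473 u25 u20 t
    have u31 := bt fun t => g6886 u17 u26 t
    have u32 := bf fun t => g4256 u26 t w6920 n3 u31
    have u33 := bt fun t => g6837 t u30 u28
    have u34 := bf fun t => g85 u31 t
    have u35 := bf fun t => g86 u31 t
    have u36 := bf fun t => g4202 t n0 w6921 n3 u31
    have u37 := bt fun t => g6839 t u6 u33
    have u38 := bf fun t => g1700 u29 t w6921 u10 u34
    have u39 := bt fun t => g315 u23 g6631 u36 u3 t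
    have u40 := bf fun t => g6845 u12 t u37
    have u41 := bf fun t => g3247 g6631 u38 u32 n0 u1 t
    have u42 := bf fun t => g66 t u39
    have u43 := bf fun t => g6833 u40 t u32
    have u44 := bf fun t => g6829 u43 t u41
    have u45 := bt fun t => g302 u23 w6916 t u26 u8 u42
    have u46 := bt fun t => s6951 t u45 u38 u32 u23 u19 u18 u16 n0 u5 u3 n3 u1
    have u47 := bf fun t => g1705 u29 t u46 u35
    have u48 := bf fun t => s6953 t u46 u38 u32 u27 u24 u22 u18 n0 u3 n3
    have u49 := bf fun t => g6772 u48 u32 t
    have u50 := bt fun t => s6962 t u48 u47 u44 u38 u36 u32 u23 u21 u19 u18 u8 u6 u5 u4 u3 n3 u9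
    have u51 := bf fun t => g1470 t g6632 u50 u49
    have u52 := bf fun t => g1527 t g6632 u50 u49
    have u53 := bt fun t => g4026 g6632 u38 u50 t u49
    have u54 := bf fun t => g4091 w6919 n0 u50 t u49
    have u55 := bt fun t => g6776 t u48 u50
    have u56 := bf fun t => g6552 t u51 u27
    have u57 := bt fun t => g6566 u52 u29 t
    have u58 := bt fun t => g6793 t u55 u13
    have u59 := bt fun t => g6582 u56 u57 t
    have u60 := bt fun t => g6797 g6799 u58 t
    have u61 := bt fun t => g6789 u60 t
    have u62 := bf fun t => g58 u61 t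
    have u63 := bf fun t => g5309 u53 u46 u61 t
    have u64 := bt fun t => g2781 u59 t n3 u61 g6634
    exact g5282 u64 u54 u46 u62 u63
  have s6964 : T.X p d b c = true → T.X p c d e = true → T.alt p r d b e = false → T.X p e r b = true → T.X p d b e = false → False := fun n0 n1 n2 n3 n4 => by
    have u0 := bf fun t => g2679 t n0 n1 g6634
    have u1 := bf fun t => g2734 t n0 n1 g6634
    have u2 := bt fun t => g5275 n0 t n4 n1 g6634
    have u3 := bt fun t => g2640 u1 u0 t
    have u4 := bf fun t => g54 u2 t
    have u5 := bt fun t => g6577 t n2 u3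
    have u6 := bt fun t => g1414 u5 w6918 w6919 n3 t
    exact g1425 u5 g6632 u6 u4
  have s6965 : T.X p e r c = true → T.X p e b c = false → T.X p e r b = true → False := fun n0 n1 n2 => by
    have u0 := bf fun t => g20 t n2
    have u1 := bf fun t => g26 t n0
    have u2 := bt fun t => g4040 g6632 u0 n0 n1 t
    have u3 := bt fun t => g4052 g6632 n2 u1 n1 t
    exact g6052 u3 u2
  have s6966 : T.X r c d e = false → v169 = true → T.X p c r e = false → T.X p c d e = true → False := fun n0 n1 n2 n3 => by
    have u0 := bt fun t => g6708 n1 t n0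
    exact g4425 u0 n2 w6920 n3 n0
  have s6967 : T.X p e b c = false → T.alt p a c b e = false → T.X p c d e = true → v215 = false → T.X p e r b = true → T.X p b a d = false → T.X p a d e = true → T.alt p a e b d = true → T.X p d a b = false → T.bfo p b a d r = true → T.X p b d e = false → T.X p a b e = false → False := fun n0 n1 n2 n3 n4 n5 n6 n7 n8 n9 n10 n11 => by
    have u0 := bf fun t => g4920 n8 n11 n6 t g6635
    have u1 := bf fun t => g20 t n4
    have u2 := bf fun t => g1598 t u1 g6633 n10 u0
    have u3 := bf fun t => s6964 t n2 u2 n4 u0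
    have u4 := bf fun t => g2781 t u3 n10 n2 g6634
    have u5 := bf fun t => g6576 t u2 u4
    have u6 := bf fun t => g6720 t u3
    have u7 := bf fun t => g58 n2 t
    have u8 := bf fun t => g21 t n4
    have u9 := bf fun t => g6727 t n0
    have u10 := bf fun t => g1484 t g6632 n4 n0
    have u11 := bf fun t => g2663 t n0 n10 n2 g6634
    have u12 := bt fun t => g6734 g6737 t u9
    have u13 := bt fun t => g1373 u10 u5 t
    have u14 := bf fun t => g6586 u10 t u11
    have u15 := bt fun t => g6614 t n7 u11
    have u16 := bt fun t => g6730 u12 t u6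
    have u17 := bf fun t => g1539 u13 w6919 n4 t
    have u18 := bf fun t => g6560 t u2 u14
    have u19 := bf fun t => g1917 t u15
    have u20 := bf fun t => g1919 u15 t
    have u21 := bf fun t => g4090 w6919 n4 u17 n0 t
    have u22 := bf fun t => g1505 u13 u1 u8 u17 t
    have u23 := bf fun t => g6420 t u18 u20
    have u24 := bf fun t => s6965 t n0 n4
    have u25 := bt fun t => g6712 u16 t u24
    have u26 := bt fun t => s6966 t u25 u17 n2
    have u27 := bf fun t => g88 u26 t
    have u28 := bt fun t => g4442 t u17 u24 g6633 n2 u26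
    have u29 := bf fun t => g6707 u25 t u26
    have u30 := bf fun t => g1881 t u28 w6921 u7 u27
    have u31 := bt fun t => g6564 u13 t u30
    have u32 := bf fun t => g6580 t u30 u4
    have u33 := bt fun t => g6574 t u31 u11
    have u34 := bf fun t => g1233 u33 w6918 w6919 t u29
    have u35 := bf fun t => g6888 n3 u34 t
    have u36 := bf fun t => g6894 n9 t u34
    have u37 := bf fun t => g4206 t n4 w6921 n10 u35
    have u38 := bt fun t => g6896 n9 u36 t
    have u39 := bf fun t => g6408 t u36 u19
    have u40 := bt fun t => g315 u38 g6631 u37 n8 t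
    have u41 := bt fun t => g6398 t u38 u32
    have u42 := bf fun t => g6647 t u39 u23
    have u43 := bf fun t => g66 t u40
    have u44 := bf fun t => g147 u41 w6916 w6917 t w6919
    have u45 := bf fun t => g6650 t u42
    have u46 := bt fun t => g302 u38 w6916 t u34 n5 u43
    have u47 := bf fun t => s6939 u11 n1 u5 u4 u44 t u22 u17 u21 u46 u31 u38 n5 n6 n7 n8 n10 n11
    have u48 := bt fun t => g6652 g6655 t u45
    have u49 := bf fun t => s6922 t u47
    exact g6641 u48 u49 u44
  have s6968 : T.alt p r e b c = true → T.X p c r e = false → T.alt p b d c e = true → T.X p e b c = true → T.X p b r e = false → v188 = false → False := fun n0 n1 n2 n3 n4 n5 => by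
    have u0 := bf fun t => g1375 t n0
    have u1 := bt fun t => g1524 n0 g6632 n3 t
    have u2 := bt fun t => g6585 u0 t n2
    have u3 := bt fun t => g6772 t n4 u1
    have u4 := bf fun t => g1736 t u2
    have u5 := bf fun t => g1738 u2 t
    have u6 := bt fun t => g6775 t u3 n1
    have u7 := bf fun t => g6787 t u4 u5
    have u8 := bt fun t => g6793 t u6 n5
    have u9 := bf fun t => g6790 t u7
    exact g6797 g6799 u8 u9
  have s6969 : T.alt p r b d e = true → v215 = false → T.X p e r b = true → False := fun n0 n1 n2 => by
    have u0 := bt fun t => g1649 n0 n2 g6633 t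
    have u1 := bf fun t => g1664 n0 t n2 w6920 w6921
    exact g6888 n1 u1 u0
  have s6970 : T.bfo p b c e r = false → T.alt p r c b e = false → T.X p e r b = true → False := fun n0 n1 n2 => by
    have u0 := bf fun t => g6691 n0 t n2
    have u1 := bf fun t => g6693 n0 u0 t
    exact g1373 u1 n1 u0
  have s6971 : T.X p d r b = false → v161 = true → v215 = false → False := fun n0 n1 n2 => by
    have u0 := bf fun t => g6888 n2 n0 t
    exact g6677 n1 n0 u0
  have s6972 : v161 = true → v215 = false → False := fun n0 n1 => by
    have u0 := bt fun t => s6971 t n0 n1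
    have u1 := bt fun t => g6887 n1 u0 t
    exact g6676 n0 u0 u1
  have s6973 : T.alt p r c b e = true → T.X p d b c = false → T.alt p r d b e = false → T.X p e r b = true → T.X p b d e = false → False := fun n0 n1 n2 n3 n4 => by
    have u0 := bt fun t => g1414 n0 w6918 w6919 n3 t
    have u1 := bt fun t => g6576 n0 n2 t
    have u2 := bt fun t => g1425 n0 g6632 u0 t
    exact g2785 u1 n1 u2 n4 g6634
  have s6974 : T.alt p a d b c = false → T.X p d c e = true → T.alt p r d b c = true → T.alt p b d c e = true → T.alt p a c d e = false → T.X p c d e = false → T.X p e b c = false → T.X p d a e = false → T.X p a d e = true → T.alt p a d b e = false → T.X p e a b = true → False := fun n0 n1 n2 n3 n4 n5 n6 n7 n8 n9 n10 => by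
    have u0 := bf fun t => g60 n1 t
    have u1 := bf fun t => g47 n8 t
    have u2 := bf fun t => g6601 n0 n9 t
    have u3 := bt fun t => g6422 t n2 n0
    have u4 := bt fun t => g2459 n4 u2 t
    have u5 := bt fun t => g6625 t u2 n3
    have u6 := bt fun t => g2621 u4 t n8 n5 u0
    have u7 := bf fun t => g2208 u5 t n10 n6
    have u8 := bf fun t => g40 u6 t
    have u9 := bf fun t => g41 u6 t
    have u10 := bf fun t => g5129 u6 n8 n1 t
    have u11 := bf fun t => g5083 u8 t n7 n1 u10
    have u12 := bf fun t => g5113 u9 t u1 n1 u10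
    have u13 := bf fun t => g2207 u5 t n10 u11 u12
    have u14 := bf fun t => g6649 t u13
    have u15 := bf fun t => g217 u3 g6631 t u13
    have u16 := bt fun t => g6652 g6655 t u14
    have u17 := bf fun t => g207 u3 w6917 u15 g6632 u7 t
    have u18 := bt fun t => g6641 u16 t u15
    exact s6922 u18 u17
  have s6975 : T.X p c r a = false → v152 = true → T.X p c a e = false → T.X r b c e = true → T.X p r c e = false → T.X r e b c = false → T.X p r a e = true → T.X r e a b = true → False := fun n0 n1 n2 n3 n4 n5 n6 n7 => by
    have u0 := bf fun t => g69 t n7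
    have u1 := bf fun t => g3546 n0 n6 n4 n2 t
    have u2 := bt fun t => g6641 n1 t n0
    have u3 := bt fun t => s6922 u2 t
    have u4 := bt fun t => g5582 u3 n7 u1 n5 t
    have u5 := bt fun t => g5576 u3 u0 u1 n3 t
    exact g95 u4 u5
  have s6977 : T.X p c r a = false → T.X p c a e = false → T.alt p r c a b = true → T.X r b c e = true → T.X p r c e = false → T.X r e b c = false → T.X p r a e = true → T.X r e a b = true → False := fun n0 n1 n2 n3 n4 n5 n6 n7 => by
    have u0 := bf fun t => g6645 t n2 n0
    have u1 := bf fun t => s6975 n0 t n1 n3 n4 n5 n6 n7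
    have u2 := bf fun t => g6650 t u0
    exact g6652 g6655 u1 u2
  have s6978 : T.X p r c e = false → T.alt p r d c e = true → T.alt p r d b c = true → T.alt p b d c e = true → T.alt p a c d e = false → T.alt p b c d e = false → T.X p c d e = false → T.X r e b c = false → T.X p e b c = false → T.X p r a e = true → T.X p e r a = false → T.X r e a b = true → T.alt p r d a b = true → T.X p e r b = true → T.X p d a e = false → T.X p a d e = true → T.alt p a d b e = false → T.X p e a b = true → False := fun n0 n1 n2 n3 n4 n5 n6 n7 n8 n9 n10 n11 n12 n13 n14 n15 n16 n17 => by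
    have u0 := bf fun t => s6965 t n8 n13
    have u1 := bf fun t => g39 t n17
    have u2 := bt fun t => g4052 g6632 n13 n0 n8 t
    have u3 := bt fun t => g1779 n1 n0 g6633 n6 t
    have u4 := bt fun t => s6974 t u3 n2 n3 n4 n6 n8 n14 n15 n16 n17
    have u5 := bf fun t => g1918 t u4
    have u6 := bf fun t => g6419 t n2 u4
    have u7 := bt fun t => g6600 u4 n16 t
    have u8 := bt fun t => g6608 u4 t n5
    have u9 := bt fun t => g6410 t n12 u5
    have u10 := bf fun t => g2509 u7 t n14 u3
    have u11 := bt fun t => g6666 t u6 u9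
    have u12 := bt fun t => s6977 t u10 u9 u2 n0 n7 n9 n11
    have u13 := bf fun t => g6 t u12
    have u14 := bt fun t => g3574 u12 n9 n0 u10 t
    have u15 := bf fun t => g3541 u12 n10 u0 u10 t
    have u16 := bf fun t => g5646 t n11 u14 u2
    have u17 := bf fun t => g5620 u16 n11 u15 n7 t
    have u18 := bf fun t => g6657 t u13 u16
    have u19 := bt fun t => g2230 u8 t u1 u10 n8 u17
    have u20 := bf fun t => s6924 t u18
    have u21 := bt fun t => g6668 t u19 u11
    exact g6674 g6675 u20 u21
  have s6979 : T.X p d c e = true → T.X p r c e = true → T.alt p r d c e = true → T.alt p r d b c = true → T.alt p b d c e = true → T.X p e b d = true → T.X r b d e = true → T.X p d r b = true → False := fun n0 n1 n2 n3 n4 n5 n6 n7 => by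
    have u0 := bt fun t => g1768 n2 n1 n0 t
    have u1 := bt fun t => g2677 n4 n5 n0 t
    have u2 := bf fun t => g4449 t g6633 n0 u0
    have u3 := bf fun t => g6149 t n6 u0 u1
    exact g1337 n3 w6919 n7 u2 u3
  have s6980 : T.alt p a d c e = true → T.X p c r a = true → T.X r b c e = true → T.X p b c e = true → T.X p d c e = false → T.alt p r c b d = false → T.X p c d e = false → T.alt p r d a e = true → T.alt p r e a d = false → T.X p a d e = true → T.alt p a e b d = true → T.X p e a b = true → False := fun n0 n1 n2 n3 n4 n5 n6 n7 n8 n9 n10 n11 => by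
    have u0 := bf fun t => g6 t n1
    have u1 := bf fun t => g5 t n1
    have u2 := bf fun t => g2462 n0 t
    have u3 := bt fun t => g6533 t n8 n0
    have u4 := bt fun t => g2503 n0 t n9 n6 n4
    have u5 := bt fun t => g6606 t n10 u2
    have u6 := bt fun t => g6538 t n7 u2
    have u7 := bt fun t => g6402 t u3 n5
    have u8 := bf fun t => g4796 t n11 u4 n3
    have u9 := bt fun t => g869 u6 n1 u4 t
    have u10 := bt fun t => g2254 u5 n11 n3 t
    have u11 := bf fun t => g6649 t u8
    have u12 := bf fun t => g266 u7 g6631 u0 w6918 u8 t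
    have u13 := bf fun t => g2891 g6631 u1 w6919 u8 t
    have u14 := bt fun t => g5604 t u13 u12 u9 n2 u10
    have u15 := bt fun t => g6652 g6655 t u11
    have u16 := bt fun t => s6923 t u14
    exact g6640 u15 u16 n1
  have s6981 : T.X p c r a = true → T.X r b c e = true → T.X p b c e = true → T.X p d c e = false → T.X p r c e = true → T.alt p r d c e = true → T.alt p r c b d = false → T.alt p b d c e = true → T.X p c d e = false → T.X p r a e = true → T.alt p r d a e = true → T.alt p r e a d = false → T.X p a d e = true → T.alt p a e b d = true → T.X p e a b = true → False := fun n0 n1 n2 n3 n4 n5 n6 n7 n8 n9 n10 n11 n12 n13 n14 => by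
    have u0 := bf fun t => g39 t n14
    have u1 := bf fun t => g5 t n0
    have u2 := bf fun t => g6 t n0
    have u3 := bf fun t => s6980 t n0 n1 n2 n3 n6 n8 n10 n11 n12 n13 n14
    have u4 := bt fun t => g6546 t n5 u3
    have u5 := bt fun t => g6625 t u3 n7
    have u6 := bf fun t => g935 u4 u1 u2 n4 t
    have u7 := bt fun t => g923 u4 n0 n4 t
    have u8 := bf fun t => g2206 u5 u0 t n2
    exact g3658 n0 n9 n4 u6 u8 u7
  have s6982 : T.alt p a d c e = false → T.X p c r a = false → T.X p b c e = true → T.alt p r d c e = true → T.alt p b d c e = true → T.X p c b e = false → T.X p e b c = false → T.alt p r a b e = false → T.X p e a b = true → False := fun n0 n1 n2 n3 n4 n5 n6 n7 n8 => by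
    have u0 := bf fun t => g39 t n8
    have u1 := bt fun t => g6546 t n3 n0
    have u2 := bt fun t => g6625 t n0 n4
    have u3 := bt fun t => g6433 t n7 u1
    have u4 := bt fun t => g2193 u2 n8 n2 t
    have u5 := bf fun t => g2206 u2 u0 t n2
    have u6 := bf fun t => g2208 u2 t n8 n6
    have u7 := bf fun t => g207 u3 w6917 n1 g6632 u6 t
    have u8 := bf fun t => g94 u4 t
    have u9 := bf fun t => s6922 t u7
    have u10 := bf fun t => g6641 t u9 n1
    have u11 := bt fun t => g6652 g6655 u10 t
    have u12 := bt fun t => g6649 u11 t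
    have u13 := bf fun t => g33 t u12
    have u14 := bt fun t => g2207 u2 u12 n8 u5 t
    exact g2178 u2 u13 u14 n5 u8
  have s6983 : T.X b d c e = true → T.X r e c d = false → T.X r b c d = true → T.X p d c e = false → T.X p r c e = true → T.alt p r d c e = true → T.alt p r c b d = false → T.alt p b d c e = true → T.X p c b e = false → T.X p c d e = false → T.X p e b c = false → T.X p r a e = true → T.X r b a e = false → T.X p e r a = false → T.alt p r d a e = true → T.alt p r e a d = false → T.X p e b d = true → T.X r e b d = false → T.alt p r a b e = false → T.X p a d e = true → T.alt p a e b d = true → T.X p e a b = true → False := fun n0 n1 n2 n3 n4 n5 n6 n7 n8 n9 n10 n11 n12 n13 n14 n15 n16 n17 n18 n19 n20 n21 => by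
    have u0 := bf fun t => g2691 n7 t n8 n10 n16
    have u1 := bt fun t => g2685 n7 u0 t n16 n3 n0
    have u2 := bt fun t => g6121 n2 t n17 n1 n0
    have u3 := bf fun t => s6981 t u2 u1 n3 n4 n5 n6 n7 n9 n11 n14 n15 n19 n20 n21
    have u4 := bt fun t => s6982 t u3 u1 n5 n7 n8 n10 n18 n21
    have u5 := bf fun t => g2462 u4 t
    have u6 := bt fun t => g2503 u4 t n19 n9 n3
    have u7 := bt fun t => g6538 t n14 u5
    have u8 := bf fun t => g43 u6 t
    have u9 := bf fun t => g4796 t n21 u6 u1
    have u10 := bf fun t => g892 u7 u3 n13 n4 u6 t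
    have u11 := bf fun t => g6649 t u9
    have u12 := bf fun t => g4770 u9 n21 u8 n10 t
    have u13 := bt fun t => g6652 g6655 t u11
    have u14 := bf fun t => g5576 t n12 u10 u2 u12
    have u15 := bt fun t => g6641 u13 t u3
    exact s6922 u15 u14
  have s6984 : T.alt p a d c e = true → T.X p c r a = false → T.X p b c e = false → T.X p d c e = false → T.alt p r c b d = false → T.X p c d e = false → T.X p e b c = false → T.alt p r e a d = false → T.X p a d e = true → T.alt p a e b d = true → False := fun n0 n1 n2 n3 n4 n5 n6 n7 n8 n9 => by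
    have u0 := bf fun t => g2462 n0 t
    have u1 := bt fun t => g6533 t n7 n0
    have u2 := bt fun t => g2503 n0 t n8 n5 n3
    have u3 := bt fun t => g6606 t n9 u0
    have u4 := bt fun t => g6402 t u1 n4
    have u5 := bt fun t => g2259 u3 t u2 n2 n6
    have u6 := bf fun t => g6645 t u4 n1
    have u7 := bf fun t => g286 u4 w6917 n1 g6632 u5 t
    have u8 := bf fun t => g6650 t u6
    have u9 := bf fun t => s6922 t u7
    have u10 := bt fun t => g6652 g6655 t u8
    exact g6641 u10 u9 n1
  have s6985 : T.X p c r a = false → T.X p b c e = false → T.X p d c e = false → T.alt p r d c e = true → T.alt p r c b d = false → T.alt p b d c e = true → T.X p c b e = false → T.X p c d e = false → T.X p e b c = false → T.alt p r e a d = false → T.alt p r a b e = false → T.X p a d e = true → T.alt p a e b d = true → T.X p e a b = true → False := fun n0 n1 n2 n3 n4 n5 n6 n7 n8 n9 n10 n11 n12 n13 => by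
    have u0 := bf fun t => s6984 t n0 n1 n2 n4 n7 n8 n9 n11 n12
    have u1 := bt fun t => g6546 t n3 u0
    have u2 := bt fun t => g6625 t u0 n5
    have u3 := bt fun t => g6433 t n10 u1
    have u4 := bf fun t => g2208 u2 t n13 n8
    have u5 := bf fun t => g207 u3 w6917 n0 g6632 u4 t
    have u6 := bf fun t => s6922 t u5
    have u7 := bf fun t => g6641 t u6 n0
    have u8 := bt fun t => g6652 g6655 u7 t
    have u9 := bt fun t => g6649 u8 t
    have u10 := bf fun t => g4780 u9 n13 n1 n6 n8 t
    exact g2188 u2 u9 n13 u10
  have s6986 : T.alt p a d c e = false → T.X p c r a = true → T.X r b c e = false → T.X p r c e = true → T.alt p r d c e = true → T.alt p b d c e = true → T.X r e b c = false → T.X r e a b = true → T.alt p r a b e = false → T.X p e a b = true → False := fun n0 n1 n2 n3 n4 n5 n6 n7 n8 n9 => by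
    have u0 := bt fun t => g6546 t n4 n0
    have u1 := bt fun t => g6625 t n0 n5
    have u2 := bt fun t => g6433 t n8 u0
    have u3 := bt fun t => g923 u0 n1 n3 t
    have u4 := bt fun t => g201 u2 n1 g6632 t
    have u5 := bt fun t => g217 u2 g6631 n1 t
    have u6 := bf fun t => g5673 u4 n7 u3 n2 n6 t
    exact g2188 u1 u5 n9 u6
  have s6987 : T.X p r c d = false → T.X p r c e = true → T.alt p r d c e = true → T.alt p r c b d = false → T.alt p r d b c = true → T.alt p b d c e = true → T.X p c b e = false → T.X p c d e = false → T.X r e b c = false → T.X p e b c = false → T.X p r a e = true → T.X p e r a = false → T.X r e a b = true → T.alt p r d a e = true → T.alt p r e a d = false → T.X p e b d = true → T.X r e b d = false → T.X r b d e = true → T.X p d r b = true → T.alt p r a b e = false → T.X p d b e = false → T.X p a d e = true → T.alt p a e b d = true → T.X p e a b = true → False := fun n0 n1 n2 n3 n4 n5 n6 n7 n8 n9 n10 n11 n12 n13 n14 n15 n16 n17 n18 n19 n20 n21 n22 n23 => by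
    have u0 := bf fun t => s6979 t n1 n2 n4 n5 n15 n17 n18
    have u1 := bf fun t => g1358 n4 w6919 n18 t
    have u2 := bf fun t => g69 t n12
    have u3 := bt fun t => g1337 n4 w6919 n18 n0 t
    have u4 := bf fun t => g4369 n0 n1 w6920 u0 t
    have u5 := bf fun t => g1359 n4 g6632 n0 t
    have u6 := bf fun t => g1749 n2 n0 u1 w6921 t
    have u7 := bf fun t => g2670 n5 u5 n6 n20 u6 t
    have u8 := bf fun t => s6983 t u4 u3 u0 n1 n2 n3 n5 n6 n7 n9 n10 u2 n11 n13 n14 n15 n16 n19 n21 n22 n23
    have u9 := bf fun t => g2676 n5 t n15 u8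
    have u10 := bf fun t => g6136 u3 t n17 g6634 u8 u7
    have u11 := bt fun t => s6985 t u9 u0 n2 n3 n5 n6 n7 n9 n14 n19 n21 n22 n23
    have u12 := bt fun t => s6986 t u11 u10 n1 n2 n5 n8 n12 n19 n23
    have u13 := bf fun t => g2462 u12 t
    have u14 := bt fun t => g2503 u12 t n21 n7 u0
    have u15 := bt fun t => g6606 t n22 u13
    have u16 := bt fun t => g2259 u15 t u14 u9 n9
    have u17 := bf fun t => g32 u16 t
    have u18 := bt fun t => g2843 w6916 u11 w6919 u16 t
    have u19 := bf fun t => g6649 t u17
    have u20 := bt fun t => s6923 t u18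
    have u21 := bt fun t => g6652 g6655 t u19
    exact g6640 u21 u20 u11
  have s6988 : T.X p b c e = false → T.X p e c d = true → T.X p d r c = false → T.X p d c e = false → T.X p r c e = true → T.alt p r d c e = true → T.alt p r c b d = false → T.alt p b d c e = true → T.X p c b e = false → T.X p c d e = false → T.X r e b c = false → T.X p e b c = false → T.X r e a b = true → T.alt p r d a e = true → T.alt p r e a d = false → T.alt p r a b e = false → T.X p e r b = true → T.X p a d e = true → T.alt p a e b d = true → T.X p e a b = true → False := fun n0 n1 n2 n3 n4 n5 n6 n7 n8 n9 n10 n11 n12 n13 n14 n15 n16 n17 n18 n19 => by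
    have u0 := bt fun t => g1760 n5 n2 g6633 n9 t
    have u1 := bf fun t => g4143 g6632 n16 n4 n0 n11 t
    have u2 := bt fun t => s6985 t n0 n3 n5 n6 n7 n8 n9 n11 n14 n15 n17 n18 n19
    have u3 := bf fun t => g5 t u2
    have u4 := bf fun t => g6 t u2
    have u5 := bt fun t => s6986 t u2 u1 n4 n5 n7 n10 n12 n15 n19
    have u6 := bf fun t => g2462 u5 t
    have u7 := bt fun t => g6533 t n14 u5
    have u8 := bt fun t => g2503 u5 t n17 n9 n3
    have u9 := bt fun t => g6538 t n13 u6
    have u10 := bf fun t => g663 u7 u3 u4 n2 t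
    have u11 := bf fun t => g43 u8 t
    have u12 := bt fun t => g869 u9 u2 u8 t
    have u13 := bf fun t => g5138 u8 n17 n1 t
    have u14 := bt fun t => g2484 u5 u10 n17 n9 t
    have u15 := bt fun t => g2490 u5 t u11 n1 u13
    have u16 := bf fun t => g5976 t u12 u0 u14
    exact g688 u7 u2 u15 u16
  have s6989 : T.X p d b c = false → T.alt p r b c e = false → T.X p e r a = false → T.X p d r b = true → v215 = false → T.X p e r b = true → T.X p d a b = false → T.bfo p b a d r = true → T.alt p a b d e = false → T.X p b d e = false → T.X p e a b = true → False := fun n0 n1 n2 n3 n4 n5 n6 n7 n8 n9 n10 => by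
    have u0 := bf fun t => g2300 t n6 n10 n9 g6635
    have u1 := bf fun t => g38 t n10
    have u2 := bt fun t => g2278 n8 u0 t
    have u3 := bt fun t => g2423 u2 n6 n10 t g6635
    have u4 := bf fun t => g4920 n6 u1 u3 t g6635
    have u5 := bf fun t => g20 t n5
    have u6 := bf fun t => g1598 t u5 g6633 n9 u4
    have u7 := bf fun t => g6504 t u6 u0
    have u8 := bf fun t => s6969 t n4 n5
    have u9 := bf fun t => g6508 t u8 n8
    have u10 := bf fun t => g6472 t u7 u9
    have u11 := bf fun t => g339 t g6631 n3 n6
    have u12 := bt fun t => g287 u10 u11 t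
    have u13 := bt fun t => g6488 u12 t n8
    have u14 := bt fun t => g632 u13 g6631 t n2 n10
    have u15 := bt fun t => g619 u13 g6631 n10 t
    have u16 := bf fun t => g69 t u15
    have u17 := bt fun t => g6480 u12 t u6
    have u18 := bf fun t => g6494 u11 t u0
    have u19 := bt fun t => g1554 u8 u6 t
    have u20 := bf fun t => g17 t n3
    have u21 := bt fun t => g1716 u19 u20 g6633 n9 t
    have u22 := bf fun t => g21 t n5
    have u23 := bf fun t => g4230 u20 u22 g6633 n9 t
    have u24 := bt fun t => g6887 n4 n3 t
    have u25 := bf fun t => s6972 t n4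
    have u26 := bt fun t => g6683 t u25 n5
    have u27 := bf fun t => g47 u3 t
    have u28 := bf fun t => g4886 t n10 u27 n9 g6635
    have u29 := bf fun t => g2444 u2 n6 n10 t
    have u30 := bf fun t => g6689 t n0
    have u31 := bt fun t => g6700 t u26 u30
    have u32 := bf fun t => g6702 g6706 u31 t
    have u33 := bf fun t => s6973 t n0 u6 n5 n9
    have u34 := bf fun t => g6577 u33 u6 t
    have u35 := bf fun t => g6465 u7 u33 t
    have u36 := bt fun t => s6970 t u33 n5
    have u37 := bt fun t => g1373 n1 u33 t
    have u38 := bf fun t => g6695 u32 t u36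
    have u39 := bf fun t => g1539 u37 w6919 n5 t
    have u40 := bf fun t => g1533 u37 g6632 u22 u39 u38 t
    have u41 := bf fun t => s6967 u38 u35 t n4 n5 u28 u3 u2 n6 n7 n9 u1
    have u42 := bf fun t => g1505 u37 u5 u22 u39 t
    have u43 := bf fun t => g2714 t n0 u38 n9 u41 g6634
    have u44 := bf fun t => g6630 n8 t u43
    have u45 := bt fun t => g2640 u43 t u34
    have u46 := bt fun t => g6570 t u37 u43
    have u47 := bf fun t => g2691 u45 t u42 u38 u21
    have u48 := bf fun t => g6571 t u19 u45
    have u49 := bt fun t => g6585 n1 t u45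
    have u50 := bt fun t => s6978 t u49 u46 u45 u44 u43 u41 u40 u38 u14 n2 u15 u12 n5 u29 u3 u0 n10
    have u51 := bf fun t => s6979 t u50 u49 u46 u45 u21 u24 n3
    have u52 := bt fun t => s6987 t u50 u49 u48 u46 u45 u42 u41 u40 u38 u14 n2 u15 u17 u18 u21 u23 u24 n3 u7 u4 u3 u2 n10
    have u53 := bf fun t => g23 u52 t
    have u54 := bt fun t => g4416 u52 u50 g6633 u41 u51 t
    have u55 := bf fun t => g1340 u46 w6918 u20 u53 u47 t
    have u56 := bt fun t => g1760 u49 u53 g6633 u41 t
    have u57 := bf fun t => g4458 u50 g6633 u54 t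
    have u58 := bt fun t => s6988 t u54 u53 u51 u50 u49 u48 u45 u42 u41 u40 u38 u15 u17 u18 u7 n5 u3 u2 n10
    have u59 := bt fun t => g2676 u45 u58 u21 t
    have u60 := bt fun t => g1530 u37 n5 u58 t
    have u61 := bf fun t => s6983 u59 u57 t u51 u50 u49 u48 u45 u42 u41 u38 u14 u16 n2 u17 u18 u21 u23 u7 u3 u2 n10
    exact g6161 u61 u55 u60 u24 u56 u59
  have s6990 : T.X p c r a = true → v156 = true → T.X p c a b = false → False := fun n0 n1 n2 => by
    have u0 := bf fun t => g6 t n0
    have u1 := bf fun t => g2900 w6917 n0 w6918 n2 t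
    exact g6657 n1 u0 u1
  have s6992 : T.X p a b c = true → T.bfo p c b a r = true → T.alt p r c a b = true → False := fun n0 n1 n2 => by
    have u0 := bf fun t => g32 n0 t
    have u1 := bt fun t => g6668 t n0 n1
    have u2 := bf fun t => g6649 t u0
    have u3 := bt fun t => g6674 g6675 t u1
    have u4 := bt fun t => g6652 g6655 t u2
    have u5 := bt fun t => s6924 u3 t
    have u6 := bf fun t => s6990 t u5 u0
    have u7 := bf fun t => g286 n2 w6917 u6 g6632 n0 t
    have u8 := bt fun t => g6641 u4 t u6
    exact s6922 u8 u7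
  have s6993 : T.X p e b c = false → T.X p c d e = false → T.X p d b c = true → T.X p a b d = false → T.alt p r d a b = true → T.alt p r e b d = true → T.alt p a e b d = true → T.X p d a b = false → T.X p b d e = false → T.X p e a b = true → False := fun n0 n1 n2 n3 n4 n5 n6 n7 n8 n9 => by
    have u0 := bf fun t => g51 t n2
    have u1 := bf fun t => g50 t n2
    have u2 := bf fun t => g39 t n9
    have u3 := bf fun t => g2667 t n2 n0 n8 g6634
    have u4 := bf fun t => g2780 t n2 n0 n1 g6634
    have u5 := bt fun t => g6614 t n6 u3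
    have u6 := bt fun t => g2640 t u3 u4
    have u7 := bt fun t => g6574 t n5 u3
    have u8 := bf fun t => g1917 t u5
    have u9 := bf fun t => g1919 u5 t
    have u10 := bf fun t => g1960 u5 n3 t u1 u0
    have u11 := bf fun t => g1195 u7 t
    have u12 := bt fun t => g6410 t n4 u8
    have u13 := bt fun t => g6609 u9 t u6
    have u14 := bf fun t => g6420 t u11 u9
    have u15 := bt fun t => g6666 t u14 u12
    have u16 := bf fun t => s6992 t u15 u12
    have u17 := bf fun t => g4560 u16 n7 u10 n2 t
    have u18 := bf fun t => g1943 u5 t n7 u10 u17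
    have u19 := bf fun t => g2263 u13 u18 n9 t
    have u20 := bt fun t => g2230 u13 u16 u2 u19 n0 t
    exact g4770 u18 n9 u19 n0 u20
  have s6994 : T.alt p a e b c = true → T.alt p r a b c = false → T.alt p b c d e = false → T.X p e b c = true → T.X p e r b = true → T.alt p a d b e = false → v188 = false → False := fun n0 n1 n2 n3 n4 n5 n6 => by
    have u0 := bf fun t => g21 t n4
    have u1 := bf fun t => g2100 t n0
    have u2 := bt fun t => g6461 n1 t n0
    have u3 := bf fun t => g6617 u1 n5 t
    have u4 := bf fun t => g1539 u2 w6919 n4 t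
    have u5 := bt fun t => g2640 n2 t u3
    exact s6968 u2 u4 u5 n3 u0 n6
  have s6995 : T.X p a b c = false → T.X p c a b = false → T.X p e b c = true → T.X p d b c = true → T.alt p r b c d = false → T.alt p r a b d = false → T.X p e r b = true → T.alt p a d b e = false → T.X p d a b = false → T.alt p a b d e = false → v188 = false → T.X p e a b = true → False := fun n0 n1 n2 n3 n4 n5 n6 n7 n8 n9 n10 n11 => by
    have u0 := bf fun t => g2731 t n3 n2 g6634
    have u1 := bf fun t => g39 t n11
    have u2 := bf fun t => g1989 t n0 n1 n8 n3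
    have u3 := bf fun t => g6594 u2 t n9
    have u4 := bf fun t => g6428 t n4 u2
    have u5 := bf fun t => g6392 t n5 u4
    have u6 := bf fun t => s6994 t u5 u0 n2 n6 n7 n10
    have u7 := bt fun t => g2097 u3 t u6
    have u8 := bf fun t => g2108 u7 n1 n11 t
    exact g2128 u7 n0 u1 n2 u8
  have s6996 : T.alt p r a b c = false → T.X p a b c = true → T.alt p r b a c = false → False := fun n0 n1 n2 => by
    have u0 := bt fun t => g106 n0 n2 t
    have u1 := bt fun t => g6666 t n0 u0
    exact s6992 n1 u1 u0
  have s6997 : T.X p a b c = true → T.X p e b c = true → T.X p d b c = true → T.alt p r b a c = false → T.alt p r e a b = true → T.X p a b d = false → T.X p e r b = true → T.alt p a d b e = false → T.X p d a b = false → v188 = false → False := fun n0 n1 n2 n3 n4 n5 n6 n7 n8 n9 => by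
    have u0 := bf fun t => g2731 t n2 n1 g6634
    have u1 := bf fun t => g21 t n6
    have u2 := bf fun t => g2080 t n0 n5 n8 n2
    have u3 := bf fun t => g6601 u2 n7 t
    have u4 := bf fun t => g6610 u2 t u0
    have u5 := bt fun t => s6996 t n0 n3
    have u6 := bf fun t => g108 u5 t
    have u7 := bt fun t => g6460 u5 t u4
    have u8 := bt fun t => g6450 u6 n4 t
    have u9 := bf fun t => g1539 u7 w6919 n6 t
    have u10 := bt fun t => g6624 u8 u3 t
    exact s6968 u7 u9 u10 n1 u1 n9
  have s6998 : T.alt p r a b c = true → T.alt p a e b c = false → T.alt p a d c e = false → T.X p e b c = true → T.alt p r e a b = true → T.X p e r b = true → v188 = false → False := fun n0 n1 n2 n3 n4 n5 n6 => by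
    have u0 := bf fun t => g21 t n5
    have u1 := bf fun t => g108 n0 t
    have u2 := bt fun t => g6460 n0 t n1
    have u3 := bt fun t => g6450 u1 n4 t
    have u4 := bf fun t => g1539 u2 w6919 n5 t
    have u5 := bt fun t => g6624 u3 n2 t
    exact s6968 u2 u4 u5 n3 u0 n6
  have s6999 : T.alt p r b c d = false → T.X p e r a = false → T.X p d r b = true → v215 = false → T.X p e r b = true → T.X p d a b = false → T.bfo p b a d r = true → T.alt p a b d e = false → T.X p b d e = false → T.X p e a b = true → False := fun n0 n1 n2 n3 n4 n5 n6 n7 n8 n9 => by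
    have u0 := bf fun t => g2300 t n5 n9 n8 g6635
    have u1 := bf fun t => g38 t n9
    have u2 := bt fun t => g2278 n7 u0 t
    have u3 := bt fun t => g2423 u2 n5 n9 t g6635
    have u4 := bf fun t => g4920 n5 u1 u3 t g6635
    have u5 := bf fun t => g20 t n4
    have u6 := bf fun t => g1598 t u5 g6633 n8 u4
    have u7 := bf fun t => g6504 t u6 u0
    have u8 := bf fun t => s6969 t n3 n4
    have u9 := bf fun t => g6508 t u8 n7
    have u10 := bf fun t => g6472 t u7 u9
    have u11 := bf fun t => g339 t g6631 n2 n5
    have u12 := bt fun t => g287 u10 u11 t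
    have u13 := bt fun t => g6488 u12 t n7
    have u14 := bf fun t => g17 t n2
    have u15 := bf fun t => g454 u12 g6631 u14 t
    have u16 := bt fun t => g1554 u8 u6 t
    have u17 := bf fun t => g47 u3 t
    have u18 := bf fun t => g4886 t n9 u17 n8 g6635
    have u19 := bf fun t => g6782 t n8
    have u20 := bf fun t => g6554 n0 t u8
    have u21 := bf fun t => g6396 t u11 n0
    have u22 := bt fun t => s6989 t u20 n1 n2 n3 n4 n5 n6 n7 n8 n9
    have u23 := bf fun t => s6964 u22 t u6 n4 u4
    have u24 := bt fun t => s6993 t u23 u22 u15 u12 u16 u2 n5 n8 n9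
    have u25 := bf fun t => g2731 t u22 u24 g6634
    have u26 := bf fun t => s6997 t u24 u22 u21 u13 u15 n4 u0 n5 u19
    have u27 := bt fun t => s6995 u26 t u24 u22 n0 u10 n4 u0 n5 n7 u19 n9
    have u28 := bf fun t => g33 t u27
    have u29 := bf fun t => s6960 t u27 u22 u18 n5
    have u30 := bf fun t => g6601 u29 u0 t
    have u31 := bf fun t => g6610 u29 t u25
    have u32 := bf fun t => s6998 t u31 u30 u24 u13 n4 u19
    have u33 := bf fun t => g6393 u32 u10 t
    have u34 := bf fun t => g6429 u33 n0 t
    have u35 := bt fun t => g1916 u34 t u29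
    have u36 := bf fun t => g1964 u35 u27 n5 t
    exact g1930 u35 u26 u28 u36 u22
  have s7000 : T.X p d r b = true → v215 = false → T.bfo p a b e r = false → T.X p e r b = true → T.X p d a b = false → T.bfo p b a d r = true → T.alt p a b d e = false → T.X p b d e = false → T.X p e a b = true → False := fun n0 n1 n2 n3 n4 n5 n6 n7 n8 => by
    have u0 := bf fun t => g2300 t n4 n8 n7 g6635
    have u1 := bf fun t => g38 t n8
    have u2 := bt fun t => g2278 n6 u0 t
    have u3 := bt fun t => g2423 u2 n4 n8 t g6635
    have u4 := bf fun t => g4920 n4 u1 u3 t g6635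
    have u5 := bf fun t => g20 t n3
    have u6 := bf fun t => g1598 t u5 g6633 n7 u4
    have u7 := bf fun t => g6504 t u6 u0
    have u8 := bf fun t => s6969 t n1 n3
    have u9 := bf fun t => g6508 t u8 n6
    have u10 := bf fun t => g6472 t u7 u9
    have u11 := bt fun t => g1554 u8 u6 t
    have u12 := bf fun t => g47 u3 t
    have u13 := bf fun t => g4886 t n8 u12 n7 g6635
    have u14 := bf fun t => g2426 u2 u13 u1 u12 u4 t
    have u15 := bf fun t => g339 t g6631 n0 n4
    have u16 := bt fun t => g287 u10 u15 t
    have u17 := bt fun t => g6488 u16 t n6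
    have u18 := bf fun t => g6869 n2 u17 t
    have u19 := bt fun t => s6999 t u18 n0 n1 n3 n4 n5 n6 n7 n8
    have u20 := bf fun t => g1194 u19 t
    have u21 := bt fun t => g1303 u19 g6632 n0 t
    have u22 := bt fun t => g6552 u19 t u8
    have u23 := bt fun t => g6397 t u15 u19
    have u24 := bt fun t => g6404 u16 t u20
    have u25 := bf fun t => s6964 u21 t u6 n3 u4
    have u26 := bf fun t => g1375 u22 t
    have u27 := bt fun t => g1484 u22 g6632 n3 t
    have u28 := bf fun t => g107 t u23
    have u29 := bf fun t => g109 u23 t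
    have u30 := bf fun t => g147 u23 w6916 w6917 t w6919
    have u31 := bf fun t => g651 t u24
    have u32 := bt fun t => g6566 u26 u11 t
    have u33 := bt fun t => g6410 u29 u16 t
    have u34 := bt fun t => g6450 u29 u17 t
    have u35 := bf fun t => g6647 t u29 u28
    have u36 := bt fun t => g6542 u31 u32 t
    have u37 := bf fun t => g6650 t u35
    have u38 := bt fun t => g6652 g6655 t u37
    have u39 := bt fun t => g6641 u38 t u30
    have u40 := bt fun t => s6922 u39 t
    have u41 := bf fun t => g62 u40 t
    have u42 := bf fun t => g168 u23 w6917 u30 g6632 t u40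
    have u43 := bt fun t => g134 u23 g6631 w6918 t u41
    have u44 := bt fun t => g2188 u34 u43 n8 t
    have u45 := bf fun t => g94 u44 t
    have u46 := bf fun t => g95 u44 t
    have u47 := bf fun t => g4797 u43 t u27 u44
    have u48 := bt fun t => g2187 u34 u42 t u27 u46
    have u49 := bt fun t => g2602 u36 u47 u3 u25 t
    have u50 := bf fun t => g5131 t u48 u3 u49
    have u51 := bf fun t => g6295 t u45 u14 u49 g6634
    exact g2006 u33 u42 u50 u21 u51
  have s7001 : T.alt p r c a b = true → T.X p c a b = true → False := fun n0 n1 => by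
    have u0 := bf fun t => g32 t n1
    have u1 := bf fun t => g6669 t u0
    have u2 := bf fun t => g6673 g6675 t u1
    have u3 := bf fun t => s6925 u2 t
    have u4 := bt fun t => g257 n0 g6631 n1 t
    have u5 := bf fun t => g62 t u4
    have u6 := bt fun t => g6659 u3 t u4
    have u7 := bt fun t => g249 n0 t g6632 u0 u5
    exact g6 u6 u7
  have s7002 : T.X p c a b = true → T.alt p a d b c = false → T.X p d b c = true → T.alt p r d a b = false → T.X p d a b = false → False := fun n0 n1 n2 n3 n4 => by
    have u0 := bf fun t => g32 t n0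
    have u1 := bf fun t => g33 t n0
    have u2 := bf fun t => s7001 t n0
    have u3 := bf fun t => g6409 u2 n3 t
    have u4 := bt fun t => g1916 u3 t n1
    have u5 := bf fun t => g1964 u4 n0 n4 t
    exact g1930 u4 u0 u1 u5 n2
  have s7003 : T.X p a b c = false → T.X p c a b = false → T.X p d b c = true → T.alt p r a c d = false → T.X p e b c = true → T.alt p r a b d = false → T.X p e r b = true → T.alt p a d b e = false → T.X p d a b = false → T.alt p a b d e = false → v188 = false → T.X p e a b = true → False := fun n0 n1 n2 n3 n4 n5 n6 n7 n8 n9 n10 n11 => by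
    have u0 := bt fun t => s6995 n0 n1 n4 n2 t n5 n6 n7 n8 n9 n10 n11
    have u1 := bf fun t => g1989 t n0 n1 n8 n2
    exact g6430 n3 u0 u1
  have s7004 : T.X p d b c = true → T.alt p r a b c = false → T.X p e b c = true → T.alt p r d a b = false → T.alt p r a b d = false → T.X p e r b = true → T.alt p a d b e = false → T.X p d a b = false → T.alt p a b d e = false → v188 = false → T.X p e a b = true → False := fun n0 n1 n2 n3 n4 n5 n6 n7 n8 n9 n10 => by
    have u0 := bf fun t => g6393 n1 n4 t
    have u1 := bf fun t => g2731 t n0 n2 g6634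
    have u2 := bf fun t => s6994 t n1 u1 n2 n5 n6 n9
    have u3 := bf fun t => g6608 t u2 u1
    have u4 := bf fun t => s7002 t u3 n0 n3 n7
    have u5 := bf fun t => g6649 t u4
    have u6 := bt fun t => g6652 g6655 t u5
    have u7 := bt fun t => s7003 t u4 n0 u0 n2 n4 n5 n6 n7 n8 n9 n10
    have u8 := bt fun t => s6996 n1 u7 t
    have u9 := bf fun t => g147 u8 w6916 w6917 t w6919
    have u10 := bf fun t => g168 u8 w6917 u9 g6632 u7 t
    have u11 := bt fun t => g6641 u6 t u9
    exact s6922 u11 u10
  have s7005 : T.X p d b c = false → T.X p e b c = true → v162 = true → T.alt p r d b e = false → T.X p e r b = true → T.X p b d e = false → False := fun n0 n1 n2 n3 n4 n5 => by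
    have u0 := bf fun t => g6689 t n0
    have u1 := bf fun t => s6973 t n0 n3 n4 n5
    have u2 := bt fun t => g6700 t n2 u0
    have u3 := bt fun t => s6970 t u1 n4
    have u4 := bf fun t => g6702 g6706 u2 t
    exact g6695 u4 n1 u3
  have s7006 : T.X p e b c = true → T.X p d r a = false → T.alt p r b a d = true → T.alt p r d a b = false → v162 = true → T.alt p r a b d = false → T.X p e r b = true → T.X p d a b = false → T.alt p a b d e = false → T.X p b d e = false → T.X p e a b = true → False := fun n0 n1 n2 n3 n4 n5 n6 n7 n8 n9 n10 => by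
    have u0 := bf fun t => g38 t n10
    have u1 := bf fun t => g2300 t n7 n10 n9 g6635
    have u2 := bt fun t => g2278 n8 u1 t
    have u3 := bt fun t => g2423 u2 n7 n10 t g6635
    have u4 := bf fun t => g4920 n7 u0 u3 t g6635
    have u5 := bf fun t => g20 t n6
    have u6 := bf fun t => g1598 t u5 g6633 n9 u4
    have u7 := bf fun t => g47 u3 t
    have u8 := bf fun t => g4886 t n10 u7 n9 g6635
    have u9 := bf fun t => g6782 t n9
    have u10 := bt fun t => s7005 t n0 n4 u6 n6 n9
    have u11 := bf fun t => g50 t u10
    have u12 := bf fun t => g51 t u10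
    have u13 := bt fun t => s7004 u10 t n0 n3 n5 n6 u1 n7 n8 u9 n10
    have u14 := bf fun t => g107 u13 t
    have u15 := bt fun t => g6392 u13 n5 t
    have u16 := bf fun t => g650 u15 t
    have u17 := bf fun t => g651 u15 t
    have u18 := bt fun t => g6416 n2 u16 t
    have u19 := bf fun t => g6413 u14 u17 t
    have u20 := bf fun t => s6960 u18 t u10 u8 n7
    have u21 := bf fun t => g6649 t u20
    have u22 := bf fun t => g217 u13 g6631 t u20
    have u23 := bt fun t => g6652 g6655 t u21
    have u24 := bt fun t => g6641 u23 t u22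
    have u25 := bt fun t => s6922 u24 t
    have u26 := bt fun t => g207 u13 w6917 u22 g6632 t u25
    have u27 := bf fun t => g2916 g6631 t u26 u25
    have u28 := bt fun t => g2080 u18 u26 t n7 u10
    have u29 := bt fun t => g2067 u18 u26 u10 t
    have u30 := bf fun t => g722 u15 u27 u22 n1 t
    have u31 := bf fun t => s6941 t u11 u12 u19 u28
    have u32 := bf fun t => g4628 u28 t u10 u29
    exact g4607 u26 u32 u31 u30 u10 u29
  have s7007 : T.bfo p b a d r = true → T.alt p a b d e = false → T.X p b d e = false → v221 = true → False := fun n0 n1 n2 n3 => by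
    have u0 := bf fun t => s6935 t n3
    have u1 := bt fun t => g6908 n3 t u0
    have u2 := bt fun t => g6913 g6915 n3 t
    have u3 := bt fun t => g6905 u2 t
    have u4 := bf fun t => g38 t u3
    have u5 := bf fun t => g6897 u0 t n0
    have u6 := bf fun t => g2300 t u5 u3 n2 g6635
    have u7 := bt fun t => g2278 n1 u6 t
    have u8 := bt fun t => g2423 u7 u5 u3 t g6635
    have u9 := bf fun t => g47 u8 t
    have u10 := bf fun t => g4920 u5 u4 u8 t g6635
    have u11 := bf fun t => g4886 t u3 u9 n2 g6635
    have u12 := bt fun t => s6963 t n0 n1 n2 n3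
    have u13 := bf fun t => g20 t u12
    have u14 := bf fun t => g21 t u12
    have u15 := bf fun t => s6927 t u12 u2
    have u16 := bf fun t => g6889 u1 t u12
    have u17 := bf fun t => g1598 t u13 g6633 n2 u10
    have u18 := bf fun t => g6504 t u17 u6
    have u19 := bf fun t => s6969 t u16 u12
    have u20 := bf fun t => g6508 t u19 n1
    have u21 := bt fun t => g1554 u19 u17 t
    have u22 := bf fun t => g6472 t u18 u20
    have u23 := bf fun t => s6972 t u16
    have u24 := bt fun t => g6683 t u23 u12
    have u25 := bf fun t => s7000 t u16 u15 u12 u5 n0 n1 n2 u3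
    have u26 := bf fun t => g6888 u16 u25 t
    have u27 := bf fun t => g6894 n0 t u25
    have u28 := bf fun t => g4206 t u12 w6921 n2 u26
    have u29 := bt fun t => g6896 n0 u27 t
    have u30 := bt fun t => g315 u29 g6631 u28 u5 t
    have u31 := bt fun t => g6492 u29 t u6
    have u32 := bt fun t => g6476 u29 t u19
    have u33 := bf fun t => g328 u29 w6916 w6917 t u25
    have u34 := bf fun t => g66 t u30
    have u35 := bt fun t => g302 u29 w6916 t u25 u11 u34
    have u36 := bf fun t => s7006 t u33 u29 u27 u24 u22 u12 u5 n1 n2 u3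
    have u37 := bf fun t => g1484 t g6632 u12 u36
    have u38 := bf fun t => s6965 t u36 u12
    have u39 := bt fun t => g6438 t u32 u37
    have u40 := bf fun t => g1414 t w6918 w6919 u12 u38
    have u41 := bf fun t => g4081 g6632 u13 u38 u36 t
    have u42 := bf fun t => g107 t u39
    have u43 := bf fun t => g109 u39 t
    have u44 := bf fun t => g147 u39 w6916 w6917 t w6919
    have u45 := bf fun t => g6577 u40 u17 t
    have u46 := bf fun t => g6465 u18 u40 t
    have u47 := bt fun t => g1373 u37 u40 t
    have u48 := bf fun t => g1522 u47 w6918 u13 t u41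
    have u49 := bf fun t => g6647 t u43 u42
    have u50 := bf fun t => g1539 u47 w6919 u12 t
    have u51 := bf fun t => g1533 u47 g6632 u14 u50 u36 t
    have u52 := bf fun t => g6650 t u49
    have u53 := bt fun t => g6652 g6655 t u52
    have u54 := bt fun t => g6641 u53 t u44
    have u55 := bt fun t => s6922 u54 t
    have u56 := bt fun t => s6939 t u46 u40 u45 u44 u55 u48 u50 u51 u35 u21 u29 u11 u8 u7 u5 n2 u4
    have u57 := bt fun t => s6940 u39 t u56 u40 u44 u55 u51 u31 u29 u32 u11 u8 u5 n2
    exact g6571 u57 u21 u56
  have s7008 : T.alt p r d a b = false → T.X p a d e = true → T.X p d a b = false → T.bfo p b a d r = false → T.alt p a b d e = false → v221 = true → False := fun n0 n1 n2 n3 n4 n5 => by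
    have u0 := bf fun t => g6867 t n2
    have u1 := bf fun t => s6935 t n5
    have u2 := bt fun t => g6908 n5 t u1
    have u3 := bt fun t => g6913 g6915 n5 t
    have u4 := bt fun t => g6906 u3 t
    have u5 := bf fun t => g6895 n3 n0 t
    have u6 := bf fun t => g6490 n0 t n4
    have u7 := bt fun t => g287 t u5 n0
    have u8 := bt fun t => g6903 u4 u6 t
    have u9 := bf fun t => s6926 u6 t u4
    have u10 := bf fun t => g6871 u9 u6 t
    have u11 := bf fun t => g398 u7 g6631 t n2
    have u12 := bt fun t => g6472 u7 u10 t
    have u13 := bt fun t => g6478 u5 u8 t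
    have u14 := bf fun t => g6875 t u9
    have u15 := bt fun t => g1103 u12 g6633 n1 t
    have u16 := bf fun t => g6882 g6884 t u14
    have u17 := bt fun t => g6857 t u11 u15
    have u18 := bf fun t => g6878 u16 t u0
    have u19 := bt fun t => g6860 u18 u17 t
    have u20 := bt fun t => g509 u8 w6916 w6917 u19 t
    have u21 := bf fun t => g6889 u2 t u20
    exact s6969 u13 u21 u20
  have s7009 : T.alt p r a b c = false → T.alt p r e b c = true → T.alt p r b a c = false → T.X p e b c = false → T.X p e a b = true → False := fun n0 n1 n2 n3 n4 => by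
    have u0 := bf fun t => g39 t n4
    have u1 := bt fun t => g106 n0 n2 t
    have u2 := bf fun t => s6996 n0 t n2
    have u3 := bt fun t => g6462 n0 n1 t
    have u4 := bf fun t => s7001 u1 t
    have u5 := bf fun t => g2263 u3 u4 n4 t
    have u6 := bt fun t => g2230 u3 u2 u0 u5 n3 t
    exact g4770 u4 n4 u5 n3 u6
  have s7010 : T.X p c r a = false → T.X p d c e = false → T.X p c d e = false → T.alt p b d c e = true → T.alt p r d c e = true → T.alt p r c b d = false → T.alt p a d c e = false → T.X p c b e = false → T.X p e b c = false → T.alt p r a b e = false → T.alt p r e a d = false → T.X p a d e = true → T.alt p a e b d = true → T.X p e a b = true → False := fun n0 n1 n2 n3 n4 n5 n6 n7 n8 n9 n10 n11 n12 n13 => by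
    have u0 := bf fun t => s6982 n6 n0 t n4 n3 n7 n8 n9 n13
    exact s6985 n0 u0 n1 n4 n5 n3 n7 n2 n8 n10 n9 n11 n12 n13
  have s7011 : T.X p e b c = false → T.X p r a e = true → T.X p e r b = true → T.X r e a b = true → T.alt p r b a e = false → T.alt p r a b e = false → T.alt p r d a b = true → T.X p d a e = false → T.X p a d e = true → T.alt p a e b d = true → T.alt p a d b e = false → T.X p b d e = false → T.X p e a b = true → False := fun n0 n1 n2 n3 n4 n5 n6 n7 n8 n9 n10 n11 n12 => by
    have u0 := bf fun t => g3258 g6631 t n2 n3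
    have u1 := bt fun t => g6497 n4 t n9
    have u2 := bf fun t => g289 t n6
    have u3 := bt fun t => g6501 u2 t n9
    have u4 := bf fun t => g1682 u3 t n2
    have u5 := bf fun t => g1681 u3 t n2
    have u6 := bf fun t => g290 t n6
    have u7 := bf fun t => g6494 u6 t n10
    have u8 := bf fun t => g1484 t g6632 n2 n0
    have u9 := bf fun t => s6965 t n0 n2
    have u10 := bf fun t => g6436 t n4 u8
    have u11 := bf fun t => g1414 t w6918 w6919 n2 u9
    have u12 := bf fun t => g4081 g6632 u5 u9 n0 t
    have u13 := bf fun t => g6465 n5 u11 t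
    have u14 := bt fun t => g1373 u8 u11 t
    have u15 := bf fun t => g1522 u14 w6918 u5 t u12
    have u16 := bf fun t => g6454 u10 t u13
    have u17 := bf fun t => g1539 u14 w6919 n2 t
    have u18 := bf fun t => g1533 u14 g6632 u4 u17 n0 t
    have u19 := bt fun t => s7009 t u14 u10 n0 n12
    have u20 := bf fun t => g108 u19 t
    have u21 := bt fun t => g6392 u19 u2 t
    have u22 := bf fun t => g6459 u19 u14 t
    have u23 := bt fun t => g6410 u20 n6 t
    have u24 := bf fun t => g650 u21 t
    have u25 := bf fun t => g651 u21 t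
    have u26 := bf fun t => g1917 u23 t
    have u27 := bf fun t => g1918 u23 t
    have u28 := bf fun t => g6533 u24 u7 t
    have u29 := bf fun t => g6401 u20 u24 t
    have u30 := bt fun t => g6522 u25 u1 t
    have u31 := bf fun t => g6529 u25 u16 t
    have u32 := bt fun t => g6404 n6 u25 t
    have u33 := bt fun t => g6614 u26 n9 t
    have u34 := bf fun t => g6609 u27 u22 t
    have u35 := bf fun t => g2663 u33 n0 n11 t g6634
    have u36 := bf fun t => s6974 u27 t u32 u33 u31 u35 n0 n7 n8 n10 n12
    have u37 := bt fun t => s6978 t u30 u32 u33 u31 u34 u35 u18 n0 n1 u0 n3 n6 n2 n7 n8 n10 n12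
    have u38 := bt fun t => s7010 t u36 u35 u33 u30 u29 u28 u15 n0 n5 u7 n8 n9 n12
    have u39 := bt fun t => s6986 u28 u38 t u37 u30 u33 u18 n3 n5 n12
    have u40 := bt fun t => g4143 g6632 n2 u37 t n0 u39
    exact s6981 u38 u39 u40 u36 u37 u30 u29 u33 u35 n1 u1 u7 n8 n9 n12
  have s7012 : T.alt p r a b c = true → T.X p e b c = true → T.X p e r b = true → T.alt p r e a d = false → T.alt p r e a b = true → T.alt p r a b d = false → v188 = false → False := fun n0 n1 n2 n3 n4 n5 n6 => by
    have u0 := bf fun t => g108 n0 t
    have u1 := bt fun t => g6392 n0 n5 t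
    have u2 := bt fun t => g6450 u0 n4 t
    have u3 := bf fun t => g650 u1 t
    have u4 := bf fun t => g2099 u2 t
    have u5 := bf fun t => g6533 u3 n3 t
    exact s6998 n0 u4 u5 n1 n4 n2 n6
  have s7013 : T.alt p r c a b = false → T.alt p a e c d = true → T.alt p r a b c = false → T.X p c d e = false → T.X p d b c = true → T.X p e b c = true → T.alt p r e a b = true → T.alt p r d a b = true → T.X a d b e = false → T.X p a d e = true → T.X p e a b = true → False := fun n0 n1 n2 n3 n4 n5 n6 n7 n8 n9 n10 => by
    have u0 := bt fun t => g6410 n0 n7 t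
    have u1 := bt fun t => g6450 n0 n6 t
    have u2 := bt fun t => g106 n2 t n0
    have u3 := bf fun t => g6647 t n0 n2
    have u4 := bf fun t => g147 u2 w6916 w6917 t w6919
    have u5 := bf fun t => g6650 t u3
    have u6 := bt fun t => g6652 g6655 t u5
    have u7 := bt fun t => g6641 u6 t u4
    have u8 := bt fun t => s6922 u7 t
    have u9 := bf fun t => g62 u8 t
    have u10 := bf fun t => g168 u2 w6917 u4 g6632 t u8
    have u11 := bt fun t => g134 u2 g6631 w6918 t u9
    have u12 := bt fun t => g2188 u1 u11 n10 t
    have u13 := bf fun t => g94 u12 t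
    have u14 := bf fun t => g95 u12 t
    have u15 := bf fun t => g4797 u11 t n5 u12
    have u16 := bt fun t => g2187 u1 u10 t n5 u14
    have u17 := bt fun t => g2602 n1 u15 n9 n3 t
    have u18 := bf fun t => g5131 t u16 n9 u17
    have u19 := bf fun t => g6295 t u13 n8 u17 g6634
    exact g2006 u0 u10 u18 n4 u19
  have s7014 : T.X p d a b = false → T.alt p a b d e = false → T.X p b d e = false → v221 = true → False := fun n0 n1 n2 n3 => by
    have u0 := bf fun t => s7007 t n1 n2 n3
    have u1 := bf fun t => g6782 t n2
    have u2 := bf fun t => s6935 t n3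
    have u3 := bt fun t => g6908 n3 t u2
    have u4 := bt fun t => g6913 g6915 n3 t
    have u5 := bt fun t => g6905 u4 t
    have u6 := bf fun t => g38 t u5
    have u7 := bt fun t => g6906 u4 t
    have u8 := bf fun t => g2300 t n0 u5 n2 g6635
    have u9 := bt fun t => g2278 n1 u8 t
    have u10 := bt fun t => g2423 u9 n0 u5 t g6635
    have u11 := bf fun t => g2444 u9 n0 u5 t
    have u12 := bf fun t => g47 u10 t
    have u13 := bf fun t => g4920 n0 u6 u10 t g6635
    have u14 := bf fun t => g4886 t u5 u12 n2 g6635
    have u15 := bf fun t => g2426 u9 u14 u6 u12 u13 t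
    have u16 := bt fun t => s7008 t u10 n0 u0 n1 n3
    have u17 := bf fun t => g289 t u16
    have u18 := bf fun t => g290 t u16
    have u19 := bt fun t => g6488 u16 t n1
    have u20 := bt fun t => g6501 u17 t u9
    have u21 := bf fun t => g6494 u18 t u8
    have u22 := bf fun t => g470 t u19
    have u23 := bf fun t => g471 t u19
    have u24 := bt fun t => g619 u19 g6631 u5 t
    have u25 := bt fun t => g6901 u7 u19 t
    have u26 := bf fun t => g1557 t u20
    have u27 := bf fun t => g69 t u24
    have u28 := bf fun t => g6889 u3 t u25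
    have u29 := bt fun t => g610 u19 w6916 t u25 u27
    have u30 := bf fun t => s6972 t u28
    have u31 := bt fun t => g6683 t u30 u25
    have u32 := bt fun t => s7011 t u29 u25 u24 u23 u22 u16 u11 u10 u9 u8 n2 u5
    have u33 := bt fun t => s7005 t u32 u31 u26 u25 n2
    have u34 := bf fun t => s6964 u33 t u26 u25 u13
    have u35 := bf fun t => g2731 t u33 u32 g6634
    have u36 := bf fun t => s7012 t u32 u25 u21 u19 u17 u1
    have u37 := bf fun t => g6393 u36 u17 t
    have u38 := bf fun t => s6994 t u36 u35 u32 u25 u8 u1
    have u39 := bt fun t => g6606 u38 u9 t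
    have u40 := bt fun t => s7013 t u39 u36 u34 u33 u32 u19 u16 u15 u10 u5
    have u41 := bf fun t => g109 t u40
    have u42 := bf fun t => s7001 u40 t
    have u43 := bf fun t => s6996 u36 t u41
    exact s7003 u43 u42 u33 u37 u32 u17 u25 u8 n0 n1 u1 u5
  have s7015 : T.X p a d e = true → T.X p d a b = true → T.alt p a b d e = false → T.X p e a b = true → False := fun n0 n1 n2 n3 => by
    have u0 := bf fun t => g2331 t n3 n0 g6635
    have u1 := bf fun t => g2449 t n1 n0 g6635
    exact g2278 n2 u0 u1
  have s7016 : T.alt p r e a b = true → T.alt p r d b e = true → T.bfo p b a d r = false → T.alt p a b d e = false → v221 = true → False := fun n0 n1 n2 n3 n4 => by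
    have u0 := bf fun t => s6935 t n4
    have u1 := bt fun t => g6908 n4 t u0
    have u2 := bt fun t => g6913 g6915 n4 t
    have u3 := bt fun t => g6906 u2 t
    have u4 := bt fun t => g6901 u3 n0 t
    have u5 := bt fun t => g6490 t n0 n3
    have u6 := bf fun t => g6889 u1 t u4
    have u7 := bt fun t => g1607 n1 u4 g6633 t
    have u8 := bf fun t => g6893 n2 u5 t
    exact g6888 u6 u8 u7
  have s7017 : T.alt p r d b e = true → T.bfo p b a d r = false → T.alt p a b d e = false → v221 = true → False := fun n0 n1 n2 n3 => by
    have u0 := bt fun t => g6913 g6915 n3 t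
    have u1 := bt fun t => g6906 u0 t
    have u2 := bf fun t => g1555 t n0
    have u3 := bf fun t => s7016 t n0 n1 n2 n3
    have u4 := bt fun t => g6903 u1 u3 t
    have u5 := bf fun t => g6488 t u3 n2
    have u6 := bt fun t => g6478 t u4 u2
    exact g6895 n1 u5 u6
  have s7018 : T.X p e r b = true → T.alt p r b d e = true → v216 = true → False := fun n0 n1 n2 => by
    have u0 := bf fun t => g6889 n2 t n0
    exact s6969 n1 u0 n0
  have s7019 : T.X p d r b = false → v215 = true → T.X p e r b = false → T.alt p r b d e = true → T.X p b d e = false → False := fun n0 n1 n2 n3 n4 => by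
    have u0 := bf fun t => g1655 n3 n0 n2 g6633 n4 t
    exact g6886 n1 n0 u0
  have s7020 : v215 = true → T.X p e r b = false → T.X p b d e = false → T.alt p r b d e = true → False := fun n0 n1 n2 n3 => by
    have u0 := bt fun t => s7019 t n0 n1 n3 n2
    have u1 := bt fun t => g1647 n3 u0 g6633 t
    exact g6885 n0 u0 u1
  have s7021 : T.alt p r b d e = true → T.X p b d e = false → v216 = true → False := fun n0 n1 n2 => by
    have u0 := bf fun t => s7018 t n0 n2
    have u1 := bt fun t => g6890 n2 t u0
    exact s7020 u1 u0 n1 n0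
  have s7022 : T.alt p r e a b = false → T.bfo p b a d r = false → T.alt p a b d e = false → T.alt p r b d e = false → T.bfo p b a e r = true → False := fun n0 n1 n2 n3 n4 => by
    have u0 := bt fun t => g6903 n4 n0 t
    have u1 := bf fun t => g6488 t n0 n2
    have u2 := bt fun t => g6478 t u0 n3
    exact g6895 n1 u1 u2
  have s7023 : T.alt p a c b e = true → T.X p a b c = false → T.X p c a b = false → T.X p e b c = true → T.X p e a b = true → False := fun n0 n1 n2 n3 n4 => by
    have u0 := bf fun t => g39 t n4
    have u1 := bf fun t => g2108 n0 n2 n4 t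
    exact g2128 n0 n1 u0 n3 u1
  have s7024 : T.alt p r c a b = true → T.alt p a e b c = false → T.alt p r a b c = false → T.X p e b c = true → T.alt p r e a b = true → T.X p e a b = true → False := fun n0 n1 n2 n3 n4 n5 => by
    have u0 := bf fun t => g109 t n0
    have u1 := bf fun t => s7001 n0 t
    have u2 := bf fun t => s6996 n2 t u0
    have u3 := bf fun t => g6447 n0 n4 t
    have u4 := bf fun t => s7023 t u2 u1 n3 n5
    exact g2097 u3 u4 n1
  have s7025 : T.alt p r a b c = false → T.alt p a c d e = false → T.X p d b c = true → T.X p e b c = true → T.alt p a d b e = false → T.X p a r d = false → T.X p d r a = true → T.X p r b d = true → T.X p r a d = false → T.X p d r b = false → T.X r d a b = true → T.alt p r d a b = true → T.X p e r b = true → T.alt p r e a b = true → v188 = false → T.X p e a b = true → False := fun n0 n1 n2 n3 n4 n5 n6 n7 n8 n9 n10 n11 n12 n13 n14 n15 => by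
    have u0 := bf fun t => g2731 t n2 n3 g6634
    have u1 := bf fun t => g51 t n2
    have u2 := bf fun t => g50 t n2
    have u3 := bf fun t => g289 t n11
    have u4 := bf fun t => g470 t n13
    have u5 := bf fun t => g65 t n10
    have u6 := bf fun t => g471 t n13
    have u7 := bf fun t => s6994 t n0 u0 n3 n12 n4 n14
    have u8 := bf fun t => s7024 t u7 n0 n3 n13 n15
    have u9 := bf fun t => g6433 n0 u4 t
    have u10 := bf fun t => g6393 n0 u3 t
    have u11 := bf fun t => g6458 u6 t u7
    have u12 := bt fun t => g6410 u8 n11 t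
    have u13 := bt fun t => g106 n0 t u8
    have u14 := bf fun t => g6647 t u8 n0
    have u15 := bt fun t => g830 u9 u11 t
    have u16 := bt fun t => g6429 u10 t u12
    have u17 := bf fun t => g147 u13 w6916 w6917 t w6919
    have u18 := bf fun t => g6650 t u14
    have u19 := bt fun t => g6530 t u15 n1
    have u20 := bf fun t => g1292 u16 w6918 w6919 n9 t
    have u21 := bt fun t => g1295 u16 n7 t u2 u1
    have u22 := bt fun t => g1276 u16 w6918 n7 u1 t
    have u23 := bf fun t => g815 u19 u17 n6 t
    have u24 := bt fun t => g6652 g6655 t u18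
    have u25 := bf fun t => g3948 n7 u21 n2 t
    have u26 := bf fun t => g781 u19 n8 n5 u23 t
    have u27 := bt fun t => g6641 u24 t u17
    have u28 := bf fun t => g3414 u17 n6 u20 u26 t
    have u29 := bt fun t => s6922 u27 t
    have u30 := bt fun t => g5387 u29 u5 u28 u22 t
    have u31 := bf fun t => g62 u29 t
    exact g5450 u31 n10 u28 u25 u30
  have s7026 : T.X p e b c = true → T.alt p a d b e = false → T.X p a r d = false → T.X p d r a = true → T.X p r b d = true → T.X p r a d = false → v162 = true → T.X p d r b = false → T.X r d a b = true → T.alt p r e a d = false → T.X p e r b = true → T.alt p r e a b = true → T.alt p r d b e = false → T.alt p a b d e = false → T.X p b d e = false → T.X p e a b = true → False := fun n0 n1 n2 n3 n4 n5 n6 n7 n8 n9 n10 n11 n12 n13 n14 n15 => by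
    have u0 := bt fun t => g6490 t n11 n13
    have u1 := bf fun t => g289 t u0
    have u2 := bf fun t => g6782 t n14
    have u3 := bt fun t => s7005 t n0 n6 n12 n10 n14
    have u4 := bf fun t => g2731 t u3 n0 g6634
    have u5 := bf fun t => g6630 n13 t u4
    have u6 := bt fun t => s7025 t u5 u3 n0 n1 n2 n3 n4 n5 n7 n8 u0 n10 n11 u2 n15
    exact s7012 u6 n0 n10 n9 n11 u1 u2
  have s7027 : T.X p c r a = false → T.alt p r d c e = true → T.alt p a d c e = false → T.alt p a b c e = true → T.alt p r a b c = true → T.X p c b e = false → T.X p e b c = false → T.alt p r a b e = false → T.X p e a b = true → False := fun n0 n1 n2 n3 n4 n5 n6 n7 n8 => by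
    have u0 := bt fun t => g6624 n3 n2 t
    have u1 := bf fun t => g2208 n3 t n8 n6
    have u2 := bf fun t => s6982 n2 n0 t n1 u0 n5 n6 n7 n8
    have u3 := bf fun t => g207 n4 w6917 n0 g6632 u1 t
    have u4 := bf fun t => s6922 t u3
    have u5 := bf fun t => g6641 t u4 n0
    have u6 := bt fun t => g6652 g6655 u5 t
    have u7 := bt fun t => g6649 u6 t
    have u8 := bf fun t => g4780 u7 n8 u2 n5 n6 t
    exact g2188 n3 u7 n8 u8
  have s7028 : T.alt p a b d e = false → T.X p b d e = false → v221 = true → False := fun n0 n1 n2 => by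
    have u0 := bf fun t => s6935 t n2
    have u1 := bt fun t => g6908 n2 t u0
    have u2 := bf fun t => s7021 t n1 u1
    have u3 := bf fun t => g6816 t n1
    have u4 := bt fun t => g6823 g6826 t u3
    have u5 := bt fun t => g6913 g6915 n2 t
    have u6 := bt fun t => g6905 u5 t
    have u7 := bf fun t => g39 t u6
    have u8 := bt fun t => g6906 u5 t
    have u9 := bf fun t => s7007 t n0 n1 n2
    have u10 := bt fun t => s7014 t n0 n1 n2
    have u11 := bf fun t => g36 t u10
    have u12 := bf fun t => s7015 t u10 n0 u6
    have u13 := bf fun t => g6813 t u12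
    have u14 := bt fun t => g6819 u4 t u13
    have u15 := bf fun t => s7017 t u9 n0 n2
    have u16 := bt fun t => g1554 u2 u15 t
    have u17 := bt fun t => s7022 t u9 n0 u2 u8
    have u18 := bf fun t => g471 t u17
    have u19 := bt fun t => g6901 u8 u17 t
    have u20 := bt fun t => g6490 t u17 n0
    have u21 := bf fun t => g6483 u17 t u16
    have u22 := bf fun t => g6476 t u18 u2
    have u23 := bf fun t => g20 t u19
    have u24 := bf fun t => g6889 u1 t u19
    have u25 := bt fun t => g438 u20 g6631 u10 t
    have u26 := bf fun t => g6893 u9 u20 t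
    have u27 := bf fun t => s6972 t u24
    have u28 := bf fun t => g6888 u24 u26 t
    have u29 := bf fun t => g66 t u25
    have u30 := bt fun t => g6683 t u27 u19
    have u31 := bf fun t => g4206 t u19 w6921 n1 u28
    have u32 := bf fun t => g433 u20 t u26 u11 u29
    have u33 := bt fun t => g6805 u14 t u31
    have u34 := bt fun t => g3077 g6631 t u31 u26 u10 u25
    have u35 := bt fun t => g451 u20 g6631 u32 t u10
    have u36 := bf fun t => g6800 u33 t u25
    have u37 := bf fun t => g470 t u17
    have u38 := bf fun t => g289 t u20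
    have u39 := bt fun t => g6480 u20 t u15
    have u40 := bf fun t => g6493 u22 u21 t
    have u41 := bt fun t => g6502 u38 u16 t
    have u42 := bf fun t => s7026 t u40 u36 u35 u34 u32 u30 u26 u25 u21 u19 u17 u15 n0 n1 u6
    have u43 := bf fun t => g1484 t g6632 u19 u42
    have u44 := bf fun t => s6965 t u42 u19
    have u45 := bf fun t => g6436 t u18 u43
    have u46 := bf fun t => g1414 t w6918 w6919 u19 u44
    have u47 := bf fun t => g4081 g6632 u23 u44 u42 t
    have u48 := bf fun t => g6465 u37 u46 t
    have u49 := bt fun t => g1373 u43 u46 t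
    have u50 := bf fun t => g1522 u49 w6918 u23 t u47
    have u51 := bt fun t => s7009 t u49 u45 u42 u6
    have u52 := bf fun t => g6459 u51 u49 t
    have u53 := bt fun t => g6392 u51 u38 t
    have u54 := bt fun t => g6606 u52 u41 t
    have u55 := bt fun t => g2097 t u48 u52
    have u56 := bf fun t => g651 u53 t
    have u57 := bf fun t => g2462 t u54
    have u58 := bt fun t => g6522 u56 u39 t
    have u59 := bt fun t => s7027 t u58 u57 u55 u51 u50 u42 u37 u6
    have u60 := bf fun t => g5 t u59
    have u61 := bt fun t => g217 u51 g6631 u59 t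
    have u62 := bf fun t => g214 u51 u60 g6632 t
    have u63 := bt fun t => g2188 u55 u61 u6 t
    have u64 := bf fun t => g94 u63 t
    have u65 := bf fun t => g95 u63 t
    have u66 := bf fun t => g2178 u55 u62 t u50 u64
    have u67 := bf fun t => g2176 u55 u7 t u42 u65
    exact g2207 u55 u61 u6 u67 u66
  have s7029 : T.X p c r a = true → T.alt p a b c e = true → T.alt p r a b c = true → T.X p c b e = false → T.X p e b c = false → T.X p e a b = true → False := fun n0 n1 n2 n3 n4 n5 => by
    have u0 := bf fun t => g39 t n5
    have u1 := bf fun t => g5 t n0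
    have u2 := bt fun t => g217 n2 g6631 n0 t
    have u3 := bf fun t => g214 n2 u1 g6632 t
    have u4 := bt fun t => g2188 n1 u2 n5 t
    have u5 := bf fun t => g94 u4 t
    have u6 := bf fun t => g95 u4 t
    have u7 := bf fun t => g2178 n1 u3 t n3 u5
    have u8 := bf fun t => g2176 n1 u0 t n4 u6
    exact g2207 n1 u2 n5 u8 u7
  have s7030 : T.X p e b c = false → T.X p e r b = true → T.alt p r a b e = false → T.alt p r b a e = false → T.X p e a b = true → False := fun n0 n1 n2 n3 n4 => by
    have u0 := bf fun t => g20 t n1
    have u1 := bf fun t => g39 t n4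
    have u2 := bf fun t => g1484 t g6632 n1 n0
    have u3 := bf fun t => s6965 t n0 n1
    have u4 := bf fun t => g6436 t n3 u2
    have u5 := bf fun t => g1414 t w6918 w6919 n1 u3
    have u6 := bf fun t => g4081 g6632 u0 u3 n0 t
    have u7 := bf fun t => g6465 n2 u5 t
    have u8 := bt fun t => g1373 u2 u5 t
    have u9 := bf fun t => g1522 u8 w6918 u0 t u6
    have u10 := bt fun t => s7009 t u8 u4 n0 n4
    have u11 := bf fun t => g6459 u10 u8 t
    have u12 := bt fun t => g2097 t u7 u11
    have u13 := bf fun t => g2208 u12 t n4 n0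
    have u14 := bf fun t => s7029 t u12 u10 u9 n0 n4
    have u15 := bf fun t => g207 u10 w6917 u14 g6632 u13 t
    have u16 := bf fun t => s6922 t u15
    have u17 := bf fun t => g6641 t u16 u14
    have u18 := bt fun t => g6652 g6655 u17 t
    have u19 := bt fun t => g6649 u18 t
    have u20 := bf fun t => g33 t u19
    have u21 := bt fun t => g2188 u12 u19 n4 t
    have u22 := bf fun t => g94 u21 t
    have u23 := bf fun t => g95 u21 t
    have u24 := bf fun t => g2178 u12 u20 t u9 u22
    have u25 := bf fun t => g2176 u12 u1 t n0 u23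
    exact g2207 u12 u19 n4 u25 u24
  have s7031 : T.X p b d e = false → v221 = true → False := fun n0 n1 => by
    have u0 := bf fun t => s6935 t n1
    have u1 := bt fun t => g6908 n1 t u0
    have u2 := bt fun t => g6913 g6915 n1 t
    have u3 := bt fun t => g6906 u2 t
    have u4 := bt fun t => g6905 u2 t
    have u5 := bf fun t => g6782 t n0
    have u6 := bf fun t => s7021 t n0 u1
    have u7 := bt fun t => s7028 t n0 n1
    have u8 := bf fun t => g2279 u7 t
    have u9 := bf fun t => g2280 u7 t
    have u10 := bf fun t => g2369 u7 t u4 g6635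
    have u11 := bt fun t => g6509 t u6 u7
    have u12 := bf fun t => g1012 u11 t
    have u13 := bf fun t => g6496 t u12 u9
    have u14 := bt fun t => g6903 u3 t u13
    have u15 := bf fun t => g470 t u14
    have u16 := bt fun t => g6901 u3 u14 t
    have u17 := bf fun t => g6487 t u14 u7
    have u18 := bf fun t => g6506 u15 t u8
    have u19 := bf fun t => g6889 u1 t u16
    have u20 := bf fun t => s6972 t u19
    have u21 := bt fun t => g6683 t u20 u16
    have u22 := bt fun t => s7030 t u16 u15 u13 u4
    have u23 := bt fun t => s7005 t u22 u21 u18 u16 n0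
    have u24 := bf fun t => g2731 t u23 u22 g6634
    have u25 := bt fun t => g6628 u7 t u24
    have u26 := bf fun t => g2460 u25 t
    have u27 := bf fun t => g2461 u25 t
    have u28 := bf fun t => g6600 t u8 u26
    have u29 := bf fun t => g6604 t u9 u27
    have u30 := bf fun t => s7002 t u28 u23 u17 u10
    have u31 := bf fun t => s6998 t u29 u26 u22 u14 u16 u5
    have u32 := bf fun t => s7024 t u29 u31 u22 u14 u4
    have u33 := bf fun t => g6649 t u30
    have u34 := bt fun t => g106 u31 t u32
    have u35 := bt fun t => g6652 g6655 t u33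
    have u36 := bf fun t => g147 u34 w6916 w6917 t w6919
    have u37 := bt fun t => g134 u34 g6631 w6918 u30 t
    have u38 := bt fun t => g6641 u35 t u36
    have u39 := bf fun t => g62 t u37
    exact s6922 u38 u39
  have s7032 : T.alt p r e a b = true → v221 = true → False := fun n0 n1 => by
    have u0 := bt fun t => g6913 g6915 n1 t
    have u1 := bt fun t => g6905 u0 t
    have u2 := bt fun t => s7031 t n1
    have u3 := bf fun t => g2374 t u1 u2 g6635
    have u4 := bf fun t => g2435 t u1 u2 g6635
    have u5 := bt fun t => g2278 u3 t u4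
    have u6 := bf fun t => s6935 t n1
    have u7 := bt fun t => g6908 n1 t u6
    have u8 := bt fun t => g6906 u0 t
    have u9 := bf fun t => g470 t n0
    have u10 := bt fun t => g6901 u8 n0 t
    have u11 := bt fun t => g6505 u9 t u5
    have u12 := bf fun t => g6889 u7 t u10
    have u13 := bt fun t => g1607 u11 u10 g6633 t
    have u14 := bf fun t => g4286 t u10 g6633 u2
    exact g6888 u12 u14 u13
  have s7033 : v221 = true → False := fun n0 => by
    have u0 := bt fun t => g6913 g6915 n0 t
    have u1 := bt fun t => g6905 u0 t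
    have u2 := bt fun t => g6906 u0 t
    have u3 := bf fun t => g39 t u1
    have u4 := bt fun t => s7031 t n0
    have u5 := bf fun t => g2374 t u1 u4 g6635
    have u6 := bf fun t => g2435 t u1 u4 g6635
    have u7 := bf fun t => s6930 u4 t u1
    have u8 := bt fun t => g2278 u5 t u6
    have u9 := bf fun t => g6867 t u7
    have u10 := bf fun t => g4937 u7 u3 t u4 g6635
    have u11 := bf fun t => g2331 u8 u1 t g6635
    have u12 := bf fun t => s7032 t n0
    have u13 := bt fun t => g6903 u2 u12 t
    have u14 := bf fun t => s6926 u12 t u2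
    have u15 := bt fun t => g6496 u13 t u6
    have u16 := bf fun t => g6875 t u14
    have u17 := bf fun t => g1014 u15 t
    have u18 := bt fun t => g1055 u15 t g6633 u11 u10
    have u19 := bf fun t => g6882 g6884 t u16
    have u20 := bt fun t => g6493 t u17 u8
    have u21 := bf fun t => g11 u18 t
    have u22 := bf fun t => g6878 u19 t u9
    have u23 := bf fun t => g339 u20 g6631 t u7
    have u24 := bf fun t => g328 u20 w6916 w6917 t u23
    have u25 := bf fun t => g6860 u22 t u21
    have u26 := bt fun t => g1036 u15 u24 g6633 u11 t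
    exact g6857 u25 u24 u26
  have w7033 := bf s7033
  have s7034 := fun (n0 : v220 = true) => g6914 g6915 w7033 n0
  have w7034 := bf s7034
  have s7035 : T.alt p r b a e = true → T.alt p r e a b = false → T.X p e r b = true → False := fun n0 n1 n2 => by
    have u0 := bt fun t => g520 n0 g6631 n2 t
    have u1 := bt fun t => g6902 t n1 n0
    exact g6904 w7034 u0 u1
  have s7036 : T.alt p r c a b = true → v162 = false → T.X p d a b = false → T.alt p r d a b = false → T.alt p r b a e = false → T.alt p r e a b = false → False := fun n0 n1 n2 n3 n4 n5 => by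
    have u0 := bf fun t => g108 t n0
    have u1 := bf fun t => g109 t n0
    have u2 := bf fun t => s7001 n0 t
    have u3 := bt fun t => g6408 n0 n3 t
    have u4 := bt fun t => g6448 n0 n5 t
    have u5 := bf fun t => g6437 u1 n4 t
    have u6 := bf fun t => s6996 u0 t u1
    have u7 := bf fun t => g2099 u4 t
    have u8 := bf fun t => g1989 u3 u6 u2 n2 t
    have u9 := bf fun t => g6462 u0 t u7
    have u10 := bf fun t => g6689 t u8
    have u11 := bf fun t => g6694 t u9 u5
    have u12 := bf fun t => g6699 t n1 u10
    have u13 := bf fun t => g6697 t u11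
    exact g6703 g6706 u12 u13
  have s7037 : T.alt p r a b c = false → T.alt p a b c e = false → T.alt p r e a d = true → T.alt p r a b d = true → T.X p b d e = true → T.alt p r a b e = true → T.X p e r b = true → False := fun n0 n1 n2 n3 n4 n5 n6 => by
    have u0 := bt fun t => g6434 n0 n5 t
    have u1 := bt fun t => g6394 n0 n3 t
    have u2 := bt fun t => g6468 u0 t n1
    have u3 := bf fun t => g650 u1 t
    have u4 := bt fun t => g1484 u2 g6632 n6 t
    have u5 := bt fun t => g6534 u3 n2 t
    have u6 := bf fun t => g2693 t u4 n4 g6634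
    exact g6626 n1 u5 u6
  have s7038 : T.alt p b e c d = true → T.alt p r b c e = false → v162 = false → T.X p b d e = true → T.alt p r d b e = false → False := fun n0 n1 n2 n3 n4 => by
    have u0 := bf fun t => g2811 n0 t n3 g6634
    have u1 := bt fun t => g6577 t n4 n0
    have u2 := bf fun t => g6689 t u0
    have u3 := bf fun t => g1376 u1 t
    have u4 := bf fun t => g6699 t n2 u2
    have u5 := bf fun t => g6694 t u3 n1
    have u6 := bt fun t => g6703 g6706 u4 t
    exact g6697 u6 u5
  have s7039 : T.alt p b c d e = true → v162 = false → T.X p b d e = true → False := fun n0 n1 n2 => by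
    have u0 := bf fun t => g2733 n0 t n2 g6634
    have u1 := bf fun t => g2735 n0 t n2 g6634
    have u2 := bf fun t => g6689 t u0
    have u3 := bf fun t => g6696 t u1
    have u4 := bf fun t => g6699 t n1 u2
    exact g6703 g6706 u4 u3
  have s7040 : T.alt p a d b e = true → T.alt p r e a b = false → T.X p e r b = true → False := fun n0 n1 n2 => by
    have u0 := bf fun t => g21 t n2
    have u1 := bf fun t => s7035 t n1 n2
    have u2 := bt fun t => g468 t u1 n1
    have u3 := bf fun t => g538 u2 w6916 n2 t
    have u4 := bt fun t => g568 u2 w6916 w6917 t n2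
    have u5 := bf fun t => g12 t u4
    have u6 := bf fun t => g6828 t u5 u3
    have u7 := bf fun t => g6832 t u6 u0
    have u8 := bt fun t => g579 u2 g6631 u4 t
    have u9 := bf fun t => g2279 t n0
    have u10 := bf fun t => g2281 n0 t
    have u11 := bf fun t => g2331 n0 u8 t g6635
    have u12 := bf fun t => g6503 u2 t n0
    have u13 := bf fun t => g6488 t n1 u9
    have u14 := bf fun t => g6840 t u11
    have u15 := bf fun t => g6846 t u7 u14
    have u16 := bt fun t => g6850 g6853 u15 t
    have u17 := bt fun t => g6843 u16 t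
    have u18 := bt fun t => g6844 u16 t
    have u19 := bf fun t => s6930 u17 t u8
    have u20 := bf fun t => g4286 t n2 g6633 u17
    have u21 := bf fun t => g6778 u18 t u0
    have u22 := bt fun t => g6780 u18 u21 t
    have u23 := bt fun t => g1711 u22 n2 u17 t
    have u24 := bt fun t => g6502 t u22 u10
    have u25 := bt fun t => g6485 n1 t u22
    have u26 := bt fun t => g6679 t u20 u23
    have u27 := bf fun t => g6680 t u26 n2
    have u28 := bf fun t => s7036 t u27 u19 u13 u1 n1
    have u29 := bf fun t => g6449 u28 n1 t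
    have u30 := bt fun t => s7037 t u29 u25 u24 u17 u2 n2
    have u31 := bf fun t => g107 u30 t
    have u32 := bf fun t => g6437 u31 u1 t
    have u33 := bf fun t => s7038 t u32 u27 u17 u12
    have u34 := bf fun t => g6576 t u12 u33
    have u35 := bt fun t => g1373 u32 u34 t
    have u36 := bf fun t => s7039 t u27 u17
    have u37 := bt fun t => g2640 u36 t u33
    have u38 := bt fun t => g6570 t u35 u36
    have u39 := bf fun t => g2693 u37 t u17 g6634
    have u40 := bf fun t => g6685 t u38 u20
    have u41 := bf fun t => g6696 t u39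
    have u42 := bf fun t => g6690 t u40
    have u43 := bt fun t => g6703 g6706 t u41
    exact g6699 u43 u27 u42
  have s7041 : T.alt p r e a b = false → T.X p e r b = true → False := fun n0 n1 => by
    have u0 := bf fun t => g21 t n1
    have u1 := bf fun t => s7035 t n0 n1
    have u2 := bt fun t => g468 t u1 n0
    have u3 := bf fun t => g538 u2 w6916 n1 t
    have u4 := bt fun t => g568 u2 w6916 w6917 t n1
    have u5 := bf fun t => g12 t u4
    have u6 := bf fun t => g6828 t u5 u3
    have u7 := bf fun t => g6832 t u6 u0
    have u8 := bf fun t => s7040 t n0 n1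
    have u9 := bt fun t => g6504 u2 t u8
    have u10 := bf fun t => g1555 t u9
    have u11 := bf fun t => g1557 u9 t
    have u12 := bf fun t => g6780 t u10 u11
    have u13 := bf fun t => g6486 n0 t u11
    have u14 := bf fun t => g6844 t u12
    have u15 := bt fun t => g6850 g6853 t u14
    have u16 := bt fun t => g6846 u15 u7 t
    have u17 := bt fun t => g6841 u16 t
    have u18 := bf fun t => g6836 u17 t u5
    exact g6838 u17 u18 u13
  have s7043 : v215 = true → T.X p b d e = false → T.alt p r b d e = false → T.X p e r b = true → False := fun n0 n1 n2 n3 => by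
    have u0 := bf fun t => s6928 t n3 n0
    have u1 := bt fun t => g6886 n0 u0 t
    exact s6929 n1 n2 u1 u0 n3
  have s7044 : T.alt p r e a d = false → T.alt p a d b e = false → v204 = false → T.X p e r b = true → False := fun n0 n1 n2 n3 => by
    have u0 := bt fun t => s7041 t n3
    have u1 := bt fun t => g6900 t u0 n3
    have u2 := bf fun t => g6904 w7034 t u1
    have u3 := bf fun t => g471 t u0
    have u4 := bf fun t => g6492 t n0 n1
    have u5 := bt fun t => g6484 u0 n0 t
    have u6 := bf fun t => g6477 u4 u3 t
    have u7 := bt fun t => g6779 t u6 u5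
    have u8 := bf fun t => g6842 n2 t u7
    have u9 := bf fun t => s7043 t u8 u6 n3
    have u10 := bt fun t => g6892 t u9 n3
    have u11 := bt fun t => g6909 w7033 u10 t
    have u12 := bt fun t => g6898 u11 t
    have u13 := bt fun t => g6899 u11 t
    have u14 := bf fun t => g2418 t u12 u2 u8 g6635
    have u15 := bt fun t => g6896 u13 t u4
    have u16 := bt fun t => g6502 t u5 u14
    exact g289 u16 u15
  have s7045 : T.X p a r e = true → T.X p e r b = true → False := fun n0 n1 => by
    have u0 := bt fun t => s7041 t n1
    have u1 := bf fun t => g10 t n0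
    have u2 := bt fun t => g620 u0 g6631 n0 t
    have u3 := bt fun t => g610 u0 w6916 u1 n1 t
    exact g69 u3 u2
  have s7047 : T.alt p b c d e = false → T.alt p b d c e = false → T.X p b d e = false → T.X p d a b = false → T.alt p r d a b = false → T.alt p a e b d = false → T.alt p a d b e = false → T.X p e r b = true → False := fun n0 n1 n2 n3 n4 n5 n6 n7 => by
    have u0 := bt fun t => g2278 t n6 n5
    have u1 := bt fun t => s7041 t n7
    have u2 := bf fun t => g470 t u1
    have u3 := bf fun t => g6506 u2 t n6
    have u4 := bf fun t => g471 t u1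
    have u5 := bt fun t => g6628 u0 t n0
    have u6 := bt fun t => g2640 n0 n1 t
    have u7 := bf fun t => g2460 u5 t
    have u8 := bf fun t => g2461 u5 t
    have u9 := bt fun t => g6577 t u3 u6
    have u10 := bf fun t => g6600 t n6 u7
    have u11 := bf fun t => g6604 t n5 u8
    have u12 := bt fun t => g6621 t u8 u6
    have u13 := bf fun t => g1374 t u9
    have u14 := bf fun t => g1376 u9 t
    have u15 := bt fun t => s6973 u9 t u3 n7 n2
    have u16 := bf fun t => g6436 t u4 u13
    have u17 := bf fun t => g6460 t u14 u11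
    have u18 := bf fun t => s7002 t u10 u15 n4 n3
    have u19 := bf fun t => s6996 u17 t u16
    exact g1989 u12 u19 u18 n3 u15
  have s7048 : T.X p c r d = true → T.X p c r e = false → T.alt p r e c d = true → False := fun n0 n1 n2 => by
    have u0 := bf fun t => g22 t n0
    have u1 := bf fun t => g1903 n2 n0 w6921 t
    have u2 := bf fun t => g4423 n0 n1 w6921 u1 t
    exact g1868 n2 u0 n1 w6920 u1 u2
  have s7049 : T.alt p r a b c = false → T.X p d b c = true → T.alt p r b a c = false → T.X p d a b = false → T.alt p r d a b = false → False := fun n0 n1 n2 n3 n4 => by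
    have u0 := bt fun t => g106 n0 n2 t
    have u1 := bf fun t => s6996 n0 t n2
    have u2 := bf fun t => s7001 u0 t
    have u3 := bt fun t => g6408 u0 n4 t
    exact g1989 u3 u1 u2 n3 n1
  have s7050 : T.alt p r b c e = false → T.alt p r c b e = false → T.alt p r c d e = false → T.alt p b e c d = false → T.alt p b d c e = false → T.X p b a d = false → T.X p d a b = false → T.X p d r a = false → T.alt p r b d e = true → T.alt p r d a b = false → T.alt p r a b d = false → T.X p e r b = true → False := fun n0 n1 n2 n3 n4 n5 n6 n7 n8 n9 n10 n11 => by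
    have u0 := bf fun t => g1661 n8 t n11 w6921
    have u1 := bf fun t => g6747 t n8 u0
    have u2 := bf fun t => g6752 t u1
    have u3 := bt fun t => s7041 t n11
    have u4 := bf fun t => g471 t u3
    have u5 := bf fun t => g6436 t u4 n0
    have u6 := bt fun t => g6553 t n0 n8
    have u7 := bt fun t => g1373 n0 n1 t
    have u8 := bf fun t => g6586 n0 t n4
    have u9 := bf fun t => g1194 u6 t
    have u10 := bt fun t => g6580 u6 t n3
    have u11 := bf fun t => g1539 u7 w6919 n11 t
    have u12 := bf fun t => g6756 t n2 u8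
    have u13 := bf fun t => g6759 t u12
    have u14 := bf fun t => g6766 g6768 t u13
    have u15 := bf fun t => g6762 u14 t u2
    have u16 := bf fun t => s7048 t u11 u10
    have u17 := bf fun t => g6744 u15 t u16
    have u18 := bf fun t => g6741 u17 u0 t
    have u19 := bt fun t => g1279 u6 g6632 u0 t u18
    have u20 := bf fun t => g51 t u19
    have u21 := bt fun t => s7049 t u19 u5 n6 n9
    have u22 := bt fun t => g6392 u21 n10 t
    have u23 := bt fun t => g6420 u21 u9 t
    have u24 := bf fun t => s6960 u23 t u19 n5 n6
    have u25 := bf fun t => g6649 t u24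
    have u26 := bf fun t => g217 u21 g6631 t u24
    have u27 := bt fun t => g6652 g6655 t u25
    have u28 := bt fun t => g6641 u27 t u26
    have u29 := bt fun t => s6922 u28 t
    have u30 := bt fun t => g207 u21 w6917 u26 g6632 t u29
    have u31 := bf fun t => g2916 g6631 t u30 u29
    have u32 := bt fun t => g2080 u23 u30 t n6 u19
    have u33 := bt fun t => g2067 u23 u30 u19 t
    have u34 := bf fun t => g722 u22 u31 u26 n7 t
    have u35 := bt fun t => g2062 u23 u32 u34 u20 t
    exact g93 u35 u33
  have s7052 : T.alt p b d c e = false → T.X p d b c = false → T.alt p r b c e = true → T.X p b a d = false → T.X p b d e = false → T.X p d a b = false → T.alt p r d a b = false → T.alt p a e b d = false → T.alt p a d b e = false → T.X p e r b = true → False := fun n0 n1 n2 n3 n4 n5 n6 n7 n8 n9 => by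
    have u0 := bt fun t => s7041 t n9
    have u1 := bf fun t => g471 t u0
    have u2 := bt fun t => g6437 t u1 n2
    have u3 := bf fun t => g147 u2 w6916 w6917 t w6919
    have u4 := bf fun t => g109 u2 t
    have u5 := bf fun t => g107 t u2
    have u6 := bf fun t => g6647 t u4 u5
    have u7 := bf fun t => g6650 t u6
    have u8 := bt fun t => g6652 g6655 t u7
    have u9 := bt fun t => g6641 u8 t u3
    have u10 := bt fun t => s6922 u9 t
    have u11 := bf fun t => g62 u10 t
    have u12 := bt fun t => g134 u2 g6631 w6918 t u11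
    have u13 := bf fun t => g33 t u12
    have u14 := bf fun t => g168 u2 w6917 u3 g6632 t u10
    have u15 := bt fun t => g6450 u4 u0 t
    have u16 := bf fun t => g6409 u4 n6 t
    have u17 := bt fun t => g1484 n2 g6632 n9 t
    have u18 := bt fun t => g6900 t u0 n9
    have u19 := bf fun t => g6904 w7034 t u18
    have u20 := bt fun t => g2278 t n8 n7
    have u21 := bt fun t => g2352 u20 n5 u19 t n4 g6635
    have u22 := bf fun t => g6612 t n7 n0
    have u23 := bt fun t => s7047 t n0 n4 n5 n6 n7 n8 n9
    have u24 := bt fun t => g6624 u15 t n0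
    have u25 := bt fun t => g1916 u16 u22 t
    have u26 := bf fun t => g2736 u23 u17 t g6634
    have u27 := bt fun t => g2075 u25 u12 n3 n5 t
    have u28 := bf fun t => g2081 u25 u14 u13 t n1
    have u29 := bt fun t => g2484 u24 u28 u21 u26 t
    have u30 := bf fun t => g100 u29 t
    have u31 := bt fun t => g5087 u27 t u21 u26 u30
    exact g2493 u24 u27 u31 u30
  have s7053 : T.X p a c d = false → T.alt p a c d e = true → T.X p c d e = true → T.alt p a c b d = true → T.alt p r b a c = true → T.X p b a d = false → T.X p a d e = true → T.X p d a b = false → False := fun n0 n1 n2 n3 n4 n5 n6 n7 => by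
    have u0 := bf fun t => g147 n4 w6916 w6917 t w6919
    have u1 := bf fun t => g109 n4 t
    have u2 := bf fun t => g107 t n4
    have u3 := bf fun t => g6647 t u1 u2
    have u4 := bf fun t => g6650 t u3
    have u5 := bt fun t => g6652 g6655 t u4
    have u6 := bt fun t => g6641 u5 t u0
    have u7 := bt fun t => s6922 u6 t
    have u8 := bf fun t => g62 u7 t
    have u9 := bt fun t => g134 n4 g6631 w6918 t u8
    have u10 := bf fun t => g168 n4 w6917 u0 g6632 t u7
    have u11 := bt fun t => g2564 n1 n0 t n6 n2
    have u12 := bt fun t => g1943 n3 u9 n7 n0 t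
    have u13 := bt fun t => g1940 n3 u10 n5 u11 t
    exact g92 u12 u13
  have s7054 : T.X p d b c = false → T.alt p r b c e = true → T.X p r a d = true → T.X p b a d = false → T.X p b d e = false → T.X r d a b = true → T.X p d a b = false → T.alt p r b d e = true → T.alt p r d a b = false → T.alt p a e b d = false → T.alt p r e b d = false → T.alt p a d b e = false → T.X p e r b = true → False := fun n0 n1 n2 n3 n4 n5 n6 n7 n8 n9 n10 n11 n12 => by
    have u0 := bt fun t => s7041 t n12
    have u1 := bf fun t => g471 t u0
    have u2 := bt fun t => g6437 t u1 n1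
    have u3 := bf fun t => g147 u2 w6916 w6917 t w6919
    have u4 := bf fun t => g109 u2 t
    have u5 := bf fun t => g107 t u2
    have u6 := bf fun t => g6647 t u4 u5
    have u7 := bf fun t => g6650 t u6
    have u8 := bt fun t => g6652 g6655 t u7
    have u9 := bt fun t => g6641 u8 t u3
    have u10 := bt fun t => s6922 u9 t
    have u11 := bf fun t => g62 u10 t
    have u12 := bt fun t => g134 u2 g6631 w6918 t u11
    have u13 := bt fun t => g2941 g6631 t u3 g6632 u12 u10
    have u14 := bf fun t => g1374 n1 t
    have u15 := bf fun t => g1375 n1 t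
    have u16 := bf fun t => g6725 t u15 u14
    have u17 := bf fun t => g6728 t u16
    have u18 := bt fun t => g6734 g6737 t u17
    have u19 := bt fun t => g1484 n1 g6632 n12 t
    have u20 := bf fun t => g54 t u19
    have u21 := bt fun t => g6900 t u0 n12
    have u22 := bf fun t => g6904 w7034 t u21
    have u23 := bt fun t => g2278 t n11 n9
    have u24 := bt fun t => g2352 u23 n6 u22 t n4 g6635
    have u25 := bt fun t => g1649 n7 n12 g6633 t
    have u26 := bf fun t => g85 u25 t
    have u27 := bf fun t => g6720 t n0
    have u28 := bt fun t => g6730 u18 t u27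
    have u29 := bt fun t => s7052 t n0 n1 n3 n4 n6 n8 n9 n11 n12
    have u30 := bf fun t => g2641 t u29
    have u31 := bt fun t => g6613 t n9 u29
    have u32 := bt fun t => g6573 t n10 u29
    have u33 := bt fun t => g2662 u29 n0 u19 t g6634
    have u34 := bf fun t => g2651 u29 n0 u19 t
    have u35 := bt fun t => g6628 u23 t u30
    have u36 := bt fun t => g6588 n7 t u30
    have u37 := bf fun t => g1244 u32 g6632 t n0
    have u38 := bt fun t => g1827 u36 g6633 u33 t
    have u39 := bf fun t => g5236 t u20 n4 u33 u34
    have u40 := bt fun t => g6710 t u37 u38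
    have u41 := bf fun t => g6711 u28 u40 t
    have u42 := bf fun t => g4094 w6919 n12 u41 u20 t
    have u43 := bt fun t => s7053 t u35 u33 u31 u2 n3 u24 n6
    have u44 := bf fun t => g6125 t u42 u26 u38 g6634
    have u45 := bf fun t => g1976 u31 u12 n6 u43 u39 t
    have u46 := bf fun t => g3426 u13 n2 u43 t
    exact g5412 u10 n5 u46 u44 u45
  have s7055 : T.alt p r b c e = true → T.X p r a d = true → T.X p b a d = false → T.X p b d e = false → T.X r d a b = true → T.X p d a b = false → T.alt p r b d e = true → T.alt p r d a b = false → T.alt p a e b d = false → T.alt p r e b d = false → T.alt p a d b e = false → T.X p e r b = true → False := fun n0 n1 n2 n3 n4 n5 n6 n7 n8 n9 n10 n11 => by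
    have u0 := bt fun t => s7041 t n11
    have u1 := bf fun t => g471 t u0
    have u2 := bt fun t => g6437 t u1 n0
    have u3 := bf fun t => g107 t u2
    have u4 := bf fun t => g109 u2 t
    have u5 := bf fun t => g147 u2 w6916 w6917 t w6919
    have u6 := bf fun t => g6647 t u4 u3
    have u7 := bf fun t => g6650 t u6
    have u8 := bt fun t => g6652 g6655 t u7
    have u9 := bt fun t => g6641 u8 t u5
    have u10 := bt fun t => s6922 u9 t
    have u11 := bf fun t => g62 u10 t
    have u12 := bt fun t => g134 u2 g6631 w6918 t u11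
    have u13 := bt fun t => s7054 t n0 n1 n2 n3 n4 n5 n6 n7 n8 n9 n10 n11
    have u14 := bf fun t => s6960 t u12 u13 n2 n5
    exact s7002 u12 u14 u13 n7 n5
  have s7056 : T.X p b a d = false → T.X p b d e = false → T.alt p r d a b = false → T.alt p a e b d = false → T.alt p r a b d = false → T.alt p r e b d = false → T.alt p r b a d = true → T.alt p a d b e = false → T.X p e r b = true → False := fun n0 n1 n2 n3 n4 n5 n6 n7 n8 => by
    have u0 := bt fun t => s7041 t n8
    have u1 := bf fun t => g471 t u0
    have u2 := bt fun t => g6476 n6 u1 t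
    have u3 := bf fun t => g1661 u2 t n8 w6921
    have u4 := bt fun t => g6895 t n2 n6
    have u5 := bf fun t => s7018 n8 u2 t
    have u6 := bf fun t => g6910 w7033 u5 t
    have u7 := bf fun t => g6897 u6 t u4
    have u8 := bt fun t => g315 n6 g6631 u3 u7 t
    have u9 := bf fun t => g66 t u8
    have u10 := bf fun t => g1664 u2 t n8 w6920 w6921
    have u11 := bf fun t => g328 n6 w6916 w6917 t u10
    have u12 := bf fun t => g470 t u0
    have u13 := bf fun t => g6506 u12 t n7
    have u14 := bt fun t => g302 n6 w6916 t u10 n0 u9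
    have u15 := bf fun t => s7055 t u14 n0 n1 u8 u7 u2 n2 n3 n5 n7 n8
    have u16 := bt fun t => g6553 t u15 u2
    have u17 := bf fun t => g1193 u16 t
    have u18 := bf fun t => g6573 u17 n5 t
    have u19 := bt fun t => s7047 t u18 n1 u7 n2 n3 n7 n8
    have u20 := bf fun t => g2642 u19 t
    have u21 := bf fun t => g6587 u2 t u19
    have u22 := bf fun t => g6576 t u13 u20
    exact s7050 u15 u22 u21 u20 u18 n0 u7 u11 u2 n2 n4 n8
  have s7057 : T.alt p a d b e = false → v204 = false → T.X p e r b = true → False := fun n0 n1 n2 => by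
    have u0 := bt fun t => g6850 g6853 t n1
    have u1 := bf fun t => g21 t n2
    have u2 := bf fun t => s7045 t n2
    have u3 := bt fun t => s7041 t n2
    have u4 := bt fun t => g6900 t u3 n2
    have u5 := bf fun t => g6904 w7034 t u4
    have u6 := bf fun t => g3208 w6916 u2 n2 u5 t
    have u7 := bf fun t => g6828 t u2 u6
    have u8 := bf fun t => g6832 t u7 u1
    have u9 := bt fun t => g6846 u0 u8 t
    have u10 := bt fun t => g6840 u9 t
    have u11 := bf fun t => g20 t n2
    have u12 := bf fun t => g635 u3 g6631 u11 t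
    have u13 := bf fun t => g471 t u3
    have u14 := bf fun t => g470 t u3
    have u15 := bf fun t => g6506 u14 t n0
    have u16 := bt fun t => s7044 t n0 n1 n2
    have u17 := bf fun t => g1013 t u16
    have u18 := bf fun t => g1014 t u16
    have u19 := bt fun t => g6494 t u16 n0
    have u20 := bf fun t => g6483 u3 u16 t
    have u21 := bf fun t => g6472 t u14 u17
    have u22 := bf fun t => g6497 u13 u18 t
    have u23 := bf fun t => g6480 t u18 u15
    have u24 := bt fun t => g6895 t u23 u19
    have u25 := bt fun t => g6476 u19 u13 t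
    have u26 := bt fun t => g2278 t n0 u22
    have u27 := bf fun t => s7018 n2 u25 t
    have u28 := bt fun t => g1649 u25 n2 g6633 t
    have u29 := bf fun t => g1661 u25 t n2 w6921
    have u30 := bf fun t => g6910 w7033 u27 t
    have u31 := bf fun t => g85 u28 t
    have u32 := bf fun t => g6897 u30 t u24
    have u33 := bt fun t => g315 u19 g6631 u29 u32 t
    have u34 := bf fun t => g66 t u33
    have u35 := bf fun t => g5734 u34 u6 t u28 g6635
    have u36 := bf fun t => g5751 u33 u6 u35 u31 t
    have u37 := bf fun t => g2370 u26 u10 t g6635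
    have u38 := bf fun t => g4917 t u12 u10 u37 u36
    exact s7056 u38 u37 u23 u22 u21 u20 u19 n0 n2
  have s7058 : T.alt p b d c e = false → T.alt p r b c d = false → T.alt p r b c e = false → T.alt p r c d e = false → v180 = true → T.X p b r d = true → T.alt p r e b d = false → False := fun n0 n1 n2 n3 n4 n5 n6 => by
    have u0 := bf fun t => g6572 t n6 n0
    have u1 := bf fun t => g6586 n2 t n0
    have u2 := bt fun t => g1192 n1 u0 t
    have u3 := bf fun t => g6756 t n3 u1
    have u4 := bt fun t => g1344 u2 g6632 n5 t
    have u5 := bf fun t => g1361 u2 w6918 w6919 n5 t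
    have u6 := bf fun t => g6759 t u3
    have u7 := bf fun t => g6738 t n5 u4
    have u8 := bf fun t => g6766 g6768 t u6
    have u9 := bf fun t => g6743 t u7 u5
    exact g6763 u8 u9 n4
  have s7059 : T.alt p b d c e = true → T.X p b d e = true → T.alt p r d b e = true → T.X p e r b = true → False := fun n0 n1 n2 n3 => by
    have u0 := bf fun t => g2643 n0 t
    have u1 := bf fun t => g2693 n0 t n1 g6634
    have u2 := bt fun t => g6578 t n2 u0
    have u3 := bf fun t => s6965 t u1 n3
    exact g1414 u2 w6918 w6919 n3 u3
  have s7060 : T.alt p r b c e = false → T.alt p b d c e = false → T.alt p r c d e = false → v180 = true → T.X p b r d = true → T.alt p r e b d = false → T.alt p r b d e = false → False := fun n0 n1 n2 n3 n4 n5 n6 => by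
    have u0 := bf fun t => g6552 t n0 n6
    exact s7058 n1 u0 n0 n2 n3 n4 n5
  have s7061 : T.X p d a b = false → v204 = false → T.X p e r b = true → False := fun n0 n1 n2 => by
    have u0 := bt fun t => s7041 t n2
    have u1 := bf fun t => g470 t u0
    have u2 := bt fun t => s7057 t n1 n2
    have u3 := bt fun t => g6505 u1 t u2
    have u4 := bt fun t => g1607 u3 n2 g6633 t
    have u5 := bf fun t => g85 u4 t
    have u6 := bf fun t => s7045 t n2
    have u7 := bt fun t => g6850 g6853 t n1
    have u8 := bf fun t => g21 t n2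
    have u9 := bt fun t => g6900 t u0 n2
    have u10 := bf fun t => g6904 w7034 t u9
    have u11 := bf fun t => g3208 w6916 u6 n2 u10 t
    have u12 := bf fun t => g6828 t u6 u11
    have u13 := bf fun t => g6832 t u12 u8
    have u14 := bt fun t => g6846 u7 u13 t
    have u15 := bt fun t => g6841 u14 t
    have u16 := bf fun t => g6836 u15 t u6
    have u17 := bf fun t => g2279 t u2
    have u18 := bf fun t => g6510 u16 t u17
    have u19 := bt fun t => g6748 t u18 u3
    have u20 := bf fun t => g1557 u3 t
    have u21 := bt fun t => g6840 u14 t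
    have u22 := bf fun t => g20 t n2
    have u23 := bf fun t => g635 u0 g6631 u22 t
    have u24 := bf fun t => g471 t u0
    have u25 := bf fun t => g4920 n0 u23 u21 t g6635
    have u26 := bt fun t => g2303 u2 n0 u21 t g6635
    have u27 := bt fun t => g1569 u3 t u22 w6921 u25 u5
    have u28 := bf fun t => g4286 t n2 g6633 u26
    have u29 := bt fun t => g6750 t u26 u19
    have u30 := bt fun t => g6679 t u28 u4
    have u31 := bf fun t => g6680 t u30 n2
    have u32 := bf fun t => s7039 t u31 u26
    have u33 := bf fun t => g6590 u18 t u32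
    have u34 := bf fun t => s7059 t u26 u3 n2
    have u35 := bt fun t => g2640 u32 u34 t
    have u36 := bf fun t => g2811 u35 t u26 g6634
    have u37 := bf fun t => g6689 t u36
    have u38 := bf fun t => g6699 t u31 u37
    have u39 := bt fun t => g6703 g6706 u38 t
    have u40 := bt fun t => g6696 u39 t
    have u41 := bf fun t => g53 t u40
    have u42 := bf fun t => g54 t u40
    have u43 := bf fun t => g2797 u35 u40 t g6634
    have u44 := bf fun t => g2772 u35 u41 u42 u25 t
    have u45 := bt fun t => s7060 t u34 u33 u29 u27 u20 u18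
    have u46 := bf fun t => g1375 u45 t
    have u47 := bt fun t => g6437 t u24 u45
    have u48 := bt fun t => g6584 u45 t u34
    have u49 := bt fun t => g6444 u0 t u46
    have u50 := bf fun t => g107 t u47
    have u51 := bf fun t => g109 u47 t
    have u52 := bf fun t => g147 u47 w6916 w6917 t w6919
    have u53 := bf fun t => g832 t u49
    have u54 := bf fun t => g6647 t u51 u50
    have u55 := bt fun t => g6450 u51 u0 t
    have u56 := bt fun t => g6546 u53 u48 t
    have u57 := bf fun t => g6650 t u54
    have u58 := bt fun t => g2503 u56 t u21 u43 u44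
    have u59 := bt fun t => g6652 g6655 t u57
    have u60 := bf fun t => g43 u58 t
    have u61 := bt fun t => g6641 u59 t u52
    have u62 := bt fun t => s6922 u61 t
    have u63 := bf fun t => g168 u47 w6917 u52 g6632 t u62
    have u64 := bt fun t => g4729 u63 u10 u58 u40 t
    have u65 := bt fun t => g2187 u55 u63 u60 u40 t
    exact g95 u64 u65
  have s7062 : T.alt p r b c e = true → v204 = false → T.X p e r b = true → False := fun n0 n1 n2 => by
    have u0 := bt fun t => g6850 g6853 t n1
    have u1 := bf fun t => g21 t n2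
    have u2 := bf fun t => s7045 t n2
    have u3 := bt fun t => s7041 t n2
    have u4 := bt fun t => g6900 t u3 n2
    have u5 := bf fun t => g6904 w7034 t u4
    have u6 := bf fun t => g3208 w6916 u2 n2 u5 t
    have u7 := bf fun t => g6828 t u2 u6
    have u8 := bf fun t => g6832 t u7 u1
    have u9 := bt fun t => g6846 u0 u8 t
    have u10 := bt fun t => g6840 u9 t
    have u11 := bf fun t => g46 u10 t
    have u12 := bf fun t => g20 t n2
    have u13 := bf fun t => g635 u3 g6631 u12 t
    have u14 := bt fun t => s7061 t n1 n2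
    have u15 := bf fun t => g35 t u14
    have u16 := bt fun t => g4889 u14 u13 u10 t g6635
    have u17 := bf fun t => g4880 u15 u13 u11 u16 t
    have u18 := bt fun t => s7057 t n1 n2
    have u19 := bf fun t => g2317 u18 u14 t g6635
    have u20 := bt fun t => g6841 u9 t
    have u21 := bf fun t => g6836 u20 t u2
    have u22 := bf fun t => g2279 t u18
    have u23 := bf fun t => g6510 u21 t u22
    have u24 := bt fun t => g6490 t u3 u22
    have u25 := bf fun t => g470 t u3
    have u26 := bt fun t => g6505 u25 t u18
    have u27 := bf fun t => g471 t u3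
    have u28 := bf fun t => g1374 n0 t
    have u29 := bf fun t => g1375 n0 t
    have u30 := bt fun t => g1484 n0 g6632 n2 t
    have u31 := bt fun t => g6437 t u27 n0
    have u32 := bt fun t => g6554 t n0 u23
    have u33 := bt fun t => g6578 u28 u26 t
    have u34 := bt fun t => g6444 u3 t u29
    have u35 := bt fun t => g2785 u33 t u30 u19 g6634
    have u36 := bf fun t => g2797 u33 u30 t g6634
    have u37 := bf fun t => g107 t u31
    have u38 := bf fun t => g109 u31 t
    have u39 := bf fun t => g147 u31 w6916 w6917 t w6919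
    have u40 := bf fun t => g1194 u32 t
    have u41 := bf fun t => g832 t u34
    have u42 := bf fun t => g6647 t u38 u37
    have u43 := bt fun t => g6410 u38 u24 t
    have u44 := bt fun t => g6450 u38 u3 t
    have u45 := bt fun t => g6562 u40 u26 t
    have u46 := bt fun t => g6546 u41 u45 t
    have u47 := bf fun t => g6650 t u42
    have u48 := bt fun t => g6652 g6655 t u47
    have u49 := bt fun t => g6641 u48 t u39
    have u50 := bt fun t => s6922 u49 t
    have u51 := bf fun t => g62 u50 t
    have u52 := bf fun t => g168 u31 w6917 u39 g6632 t u50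
    have u53 := bt fun t => g134 u31 g6631 w6918 t u51
    have u54 := bt fun t => g2007 u43 u53 u14 t
    have u55 := bf fun t => g91 u54 t
    have u56 := bf fun t => g92 u54 t
    have u57 := bf fun t => g4627 u53 t u35 u54
    have u58 := bt fun t => g2006 u43 u52 t u35 u56
    have u59 := bt fun t => g2484 u46 u57 u10 u36 t
    have u60 := bf fun t => g5131 u58 t u10 u59
    have u61 := bf fun t => g6243 u55 t u17 u59 g6634
    exact g2187 u44 u52 u60 u30 u61
  have s7063 : T.alt p r a b c = false → T.X p d b c = false → T.alt p r d b c = true → T.alt p r b a c = false → T.X p d a b = true → False := fun n0 n1 n2 n3 n4 => by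
    have u0 := bf fun t => g36 t n4
    have u1 := bt fun t => g106 n0 n3 t
    have u2 := bf fun t => s6996 n0 t n3
    have u3 := bt fun t => g6422 n0 n2 t
    have u4 := bf fun t => s7001 u1 t
    have u5 := bf fun t => g2082 u3 u4 n4 t
    have u6 := bf fun t => g4600 u4 n4 u5 n1 t
    exact g2049 u3 u2 u0 u5 n1 u6
  have s7064 : T.X r a b c = true → T.alt p a b c d = true → T.alt p r a b c = true → T.X p d b c = false → T.X p c b d = false → T.X p d a b = true → False := fun n0 n1 n2 n3 n4 n5 => by
    have u0 := bf fun t => g2027 n1 t n5 n3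
    have u1 := bf fun t => g36 t n5
    have u2 := bf fun t => g61 n0 t
    have u3 := bt fun t => g207 n2 w6917 t g6632 u0 n0
    have u4 := bt fun t => g217 n2 g6631 u3 t
    have u5 := bf fun t => g2903 w6917 u3 w6919 t u2
    have u6 := bt fun t => g2007 n1 u4 n5 t
    have u7 := bf fun t => g91 u6 t
    have u8 := bf fun t => g92 u6 t
    have u9 := bf fun t => g1997 n1 u5 t n4 u7
    have u10 := bf fun t => g1995 n1 u1 t n3 u8
    exact g2026 n1 u4 n5 u10 u9
  have s7065 : T.alt p b e c d = true → T.alt p r b a c = false → T.alt p r b c e = false → T.X p r b d = false → T.X p b r d = false → T.X p d r b = true → v180 = false → T.X p d a b = true → T.alt p r e b d = false → T.alt p r b d e = false → T.alt p r d a b = true → False := fun n0 n1 n2 n3 n4 n5 n6 n7 n8 n9 n10 => by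
    have u0 := bf fun t => g6552 t n2 n9
    have u1 := bf fun t => g36 t n7
    have u2 := bf fun t => g2642 t n0
    have u3 := bf fun t => g2643 t n0
    have u4 := bf fun t => g6590 n9 t u2
    have u5 := bf fun t => g6572 t n8 u3
    have u6 := bf fun t => g6586 n2 t u3
    have u7 := bt fun t => g1192 u0 u5 t
    have u8 := bf fun t => g6756 t u4 u6
    have u9 := bf fun t => g1358 u7 w6919 n5 t
    have u10 := bf fun t => g6759 t u8
    have u11 := bf fun t => g1324 u7 n3 n4 u9 t
    have u12 := bf fun t => g6766 g6768 t u10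
    have u13 := bf fun t => g6762 u12 t n6
    have u14 := bf fun t => g6744 u13 t u9
    have u15 := bf fun t => g6741 u14 n4 t
    have u16 := bf fun t => g1343 u7 g6632 t u15
    have u17 := bt fun t => s7063 t u16 u7 n1 n7
    have u18 := bf fun t => g108 u17 t
    have u19 := bt fun t => g6410 u18 n10 t
    have u20 := bf fun t => s7064 t u19 u17 u16 u11 n7
    have u21 := bf fun t => s6922 t u20
    have u22 := bf fun t => g201 u17 t g6632 u20
    have u23 := bf fun t => g6641 t u21 u22
    have u24 := bt fun t => g6652 g6655 u23 t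
    have u25 := bt fun t => g6649 u24 t
    have u26 := bf fun t => g33 t u25
    have u27 := bt fun t => g2007 u19 u25 n7 t
    have u28 := bf fun t => g91 u27 t
    have u29 := bf fun t => g92 u27 t
    have u30 := bf fun t => g1997 u19 u26 t u11 u28
    have u31 := bf fun t => g1995 u19 u1 t u16 u29
    exact g2026 u19 u25 n7 u31 u30
  have s7066 : T.X p d b c = false → T.X p c b e = false → T.alt p r a b c = false → T.X p e b c = true → T.alt p r b a c = false → T.alt p r b c d = false → T.X p d b e = true → T.X p d a b = true → T.alt p r e b d = false → False := fun n0 n1 n2 n3 n4 n5 n6 n7 n8 => by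
    have u0 := bf fun t => g5277 n0 n1 n6 t g6634
    have u1 := bf fun t => s7063 n2 n0 t n4 n7
    have u2 := bf fun t => g2662 t n0 n3 u0 g6634
    have u3 := bt fun t => g1192 n5 t u1
    exact g6572 u3 n8 u2
  have s7067 : v204 = false → T.X p e r b = true → False := fun n0 n1 => by
    have u0 := bf fun t => g21 t n1
    have u1 := bf fun t => s7045 t n1
    have u2 := bt fun t => s7041 t n1
    have u3 := bt fun t => g6900 t u2 n1
    have u4 := bf fun t => g6904 w7034 t u3
    have u5 := bf fun t => g3208 w6916 u1 n1 u4 t
    have u6 := bf fun t => g6828 t u1 u5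
    have u7 := bf fun t => g6832 t u6 u0
    have u8 := bf fun t => g20 t n1
    have u9 := bf fun t => g635 u2 g6631 u8 t
    have u10 := bf fun t => g471 t u2
    have u11 := bf fun t => g470 t u2
    have u12 := bt fun t => g6850 g6853 t n0
    have u13 := bt fun t => g6846 u12 u7 t
    have u14 := bt fun t => g6840 u13 t
    have u15 := bt fun t => s7057 t n0 n1
    have u16 := bt fun t => g6841 u13 t
    have u17 := bf fun t => g2279 t u15
    have u18 := bt fun t => g6505 u11 t u15
    have u19 := bf fun t => g6836 u16 t u1
    have u20 := bt fun t => g6490 t u2 u17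
    have u21 := bf fun t => g6510 u19 t u17
    have u22 := bf fun t => g1557 u18 t
    have u23 := bt fun t => g1607 u18 n1 g6633 t
    have u24 := bf fun t => g85 u23 t
    have u25 := bf fun t => g86 u23 t
    have u26 := bt fun t => s7061 t n0 n1
    have u27 := bf fun t => g36 t u26
    have u28 := bf fun t => g2317 u15 u26 t g6635
    have u29 := bt fun t => g4889 u26 u9 u14 t g6635
    have u30 := bf fun t => g6751 t u28
    have u31 := bt fun t => s6929 u28 u21 u23 t n1
    have u32 := bf fun t => g4237 t u8 g6633 u28 u24
    have u33 := bf fun t => g4197 t u8 w6920 u29 u25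
    have u34 := bf fun t => s7062 t n0 n1
    have u35 := bf fun t => g6552 t u34 u21
    have u36 := bf fun t => g6436 t u10 u34
    have u37 := bf fun t => s7065 t u36 u34 u33 u32 u31 u30 u26 u22 u21 u20
    have u38 := bt fun t => g6578 t u18 u37
    have u39 := bt fun t => g6618 t u15 u37
    have u40 := bf fun t => g1376 u38 t
    have u41 := bf fun t => g1384 u38 w6919 n1 t
    have u42 := bt fun t => g1414 u38 w6918 w6919 n1 t
    have u43 := bf fun t => g2098 t u39
    have u44 := bf fun t => g2100 u39 t
    have u45 := bf fun t => g27 t u42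
    have u46 := bt fun t => g1425 u38 g6632 u42 t
    have u47 := bt fun t => g6450 t u2 u43
    have u48 := bf fun t => g6460 t u40 u44
    have u49 := bf fun t => g4027 g6632 u8 u45 t u41
    have u50 := bf fun t => s7001 u47 t
    have u51 := bf fun t => s6996 u48 t u36
    have u52 := bt fun t => s7066 t u49 u48 u46 u36 u35 u29 u26 u22
    have u53 := bf fun t => g2731 t u52 u46 g6634
    have u54 := bf fun t => g6630 u17 t u53
    have u55 := bt fun t => g6598 t u39 u54
    have u56 := bf fun t => g1927 u55 u50 u26 t
    exact g1947 u55 u51 u27 u52 u56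
  have s7068 : T.alt p b e c d = false → T.X p e r b = true → False := fun n0 n1 => by
    have u0 := bf fun t => g21 t n1
    have u1 := bt fun t => s7067 t n1
    have u2 := bt fun t => g6844 u1 t
    have u3 := bf fun t => g6778 u2 t u0
    have u4 := bt fun t => g6843 u1 t
    have u5 := bf fun t => g4286 t n1 g6633 u4
    have u6 := bt fun t => g6780 u2 u3 t
    have u7 := bt fun t => g1711 u6 n1 u4 t
    have u8 := bt fun t => g6679 t u5 u7
    have u9 := bf fun t => g6680 t u8 n1
    have u10 := bf fun t => s7039 t u9 u4
    have u11 := bf fun t => g6590 u3 t u10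
    have u12 := bf fun t => g1557 t u6
    have u13 := bf fun t => g6576 t u12 n0
    have u14 := bt fun t => g2640 u10 t n0
    have u15 := bf fun t => g6556 t u13 u11
    have u16 := bf fun t => g2693 u14 t u4 g6634
    have u17 := bf fun t => g6696 t u16
    have u18 := bf fun t => g1484 t g6632 n1 u16
    have u19 := bt fun t => g6703 g6706 t u17
    have u20 := bf fun t => g6552 t u18 u3
    have u21 := bt fun t => g6699 u19 u9 t
    have u22 := bt fun t => g1192 u20 u15 t
    have u23 := bt fun t => g6690 u21 t
    exact g6685 u23 u22 u5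
  have s7069 : T.X p e r b = true → False := fun n0 => by
    have u0 := bf fun t => g21 t n0
    have u1 := bt fun t => s7067 t n0
    have u2 := bt fun t => g6843 u1 t
    have u3 := bt fun t => g6844 u1 t
    have u4 := bf fun t => g4286 t n0 g6633 u2
    have u5 := bf fun t => g6778 u3 t u0
    have u6 := bt fun t => g6780 u3 u5 t
    have u7 := bf fun t => g1557 t u6
    have u8 := bt fun t => g1711 u6 n0 u2 t
    have u9 := bt fun t => g6679 t u4 u8
    have u10 := bf fun t => g6680 t u9 n0
    have u11 := bt fun t => s7068 t n0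
    have u12 := bt fun t => g6577 t u7 u11
    have u13 := bt fun t => s7038 u11 t u10 u2 u7
    exact g1374 u13 u12
  have w7069 := bf s7069
  have s7070 : v161 = true → T.alt p r b d e = true → False := fun n0 n1 => by
    have u0 := bf fun t => g1556 n1 t
    have u1 := bt fun t => s6972 n0 t
    have u2 := bt fun t => g6891 t u1 w7069
    have u3 := bt fun t => s7020 u1 w7069 t n1
    have u4 := bt fun t => g6909 w7033 u2 t
    have u5 := bt fun t => g1646 n1 g6633 u3 t
    have u6 := bt fun t => g6898 u4 t
    have u7 := bt fun t => g6899 u4 t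
    have u8 := bf fun t => g6676 n0 t u5
    have u9 := bf fun t => g2372 t u6 u3 g6635
    have u10 := bf fun t => g2317 t u6 u3 g6635
    have u11 := bf fun t => g6894 u7 t u8
    have u12 := bt fun t => g2278 u9 u10 t
    have u13 := bt fun t => g6896 u7 u11 t
    have u14 := bt fun t => g6501 t u0 u12
    exact g288 u14 u13
  have s7071 : T.X p b d e = true → T.X p e b c = true → v162 = false → T.alt p b e c d = false → False := fun n0 n1 n2 n3 => by
    have u0 := bf fun t => s7039 t n2 n0
    have u1 := bf fun t => g2693 t n1 n0 g6634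
    exact g2640 u0 u1 n3
  have s7072 : T.alt p r d a b = false → T.X p d a b = true → T.X p b d e = false → T.alt p r b d e = true → False := fun n0 n1 n2 n3 => by
    have u0 := bf fun t => s7021 n3 n2 t
    have u1 := bf fun t => g6910 w7033 u0 t
    have u2 := bf fun t => g6897 u1 n1 t
    have u3 := bf fun t => g1555 n3 t
    have u4 := bf fun t => g6482 n0 t u3
    have u5 := bf fun t => g6895 u2 n0 t
    have u6 := bt fun t => g6477 u5 t n3
    have u7 := bf fun t => g471 u6 t
    have u8 := bt fun t => g6902 t u7 u6
    have u9 := bt fun t => g6496 u6 u4 t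
    have u10 := bf fun t => g6904 w7034 t u8
    exact g2418 u9 n1 u10 n2 g6635
  have s7073 : T.alt p r d a b = true → T.alt p r c b d = true → T.alt p r d b c = false → T.X p e b c = true → T.alt p r b d e = true → T.alt p r b c d = false → False := fun n0 n1 n2 n3 n4 n5 => by
    have u0 := bf fun t => g1555 n4 t
    have u1 := bf fun t => g289 t n0
    have u2 := bf fun t => g290 t n0
    have u3 := bt fun t => g6480 n0 t u0
    have u4 := bt fun t => g6404 n0 t n2
    have u5 := bt fun t => g6426 u1 n1 t
    have u6 := bt fun t => g6477 u2 t n4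
    have u7 := bf fun t => g6396 t u2 n5
    have u8 := bf fun t => g1012 t u3
    have u9 := bf fun t => g651 t u4
    have u10 := bf fun t => g652 t u4
    have u11 := bf fun t => g1917 t u5
    have u12 := bf fun t => g471 u6 t
    have u13 := bt fun t => g6902 t u12 u6
    have u14 := bt fun t => g6510 u8 n4 t
    have u15 := bf fun t => g6392 t u1 u9
    have u16 := bt fun t => g6401 t u10 n1
    have u17 := bt fun t => g6593 u11 t u14
    have u18 := bf fun t => g6904 w7034 t u13
    have u19 := bf fun t => s6996 u15 t u7
    have u20 := bf fun t => s7001 u16 t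
    exact g2170 u17 u19 u20 u18 n3
  have s7074 : T.alt p r a b c = false → T.X p e a b = false → T.alt p r a b e = false → T.alt p r b a c = false → T.X p e b c = true → T.alt p r b c e = true → False := fun n0 n1 n2 n3 n4 n5 => by
    have u0 := bf fun t => g6433 n0 n2 t
    have u1 := bt fun t => g106 n0 n3 t
    have u2 := bf fun t => s6996 n0 t n3
    have u3 := bt fun t => g6470 u0 n5 t
    have u4 := bf fun t => s7001 u1 t
    exact g2170 u3 u2 u4 n1 n4
  have s7075 : T.X p c a b = false → T.alt p a e b c = true → T.alt p r a c e = true → T.alt p r a b c = true → T.X p e a b = false → T.X p e r a = false → T.X p e b c = true → False := fun n0 n1 n2 n3 n4 n5 n6 => by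
    have u0 := bf fun t => g54 t n6
    have u1 := bf fun t => g6649 t n0
    have u2 := bf fun t => g217 n3 g6631 t n0
    have u3 := bt fun t => g6652 g6655 t u1
    have u4 := bt fun t => g6641 u3 t u2
    have u5 := bt fun t => s6922 u4 t
    have u6 := bt fun t => g207 n3 w6917 u2 g6632 t u5
    have u7 := bt fun t => g2248 n1 u6 n6 t
    have u8 := bt fun t => g2261 n1 u6 t n4 n6
    have u9 := bf fun t => g2916 g6631 t u6 u5
    have u10 := bf fun t => g96 t u7
    have u11 := bt fun t => g2243 n1 u8 t u0 u10
    exact g903 n2 u9 u2 n5 u11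
  have s7076 : T.alt p r b a d = false → T.alt p r d a e = false → T.X p c d e = true → T.alt p r d c e = false → T.X p e b c = true → T.alt p r b c d = false → T.alt p r b c e = true → False := fun n0 n1 n2 n3 n4 n5 n6 => by
    have u0 := bf fun t => g1374 n6 t
    have u1 := bt fun t => g6554 n5 n6 t
    have u2 := bf fun t => g1555 u1 t
    have u3 := bf fun t => g6577 u0 u2 t
    have u4 := bf fun t => s7070 t u1
    have u5 := bf fun t => g6681 t u4 w7069
    have u6 := bf fun t => s7071 t n4 u5 u3
    have u7 := bf fun t => g53 t n4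
    have u8 := bf fun t => g1375 n6 t
    have u9 := bt fun t => g6477 n0 t u1
    have u10 := bf fun t => g6396 t n0 n5
    have u11 := bf fun t => g469 t u9
    have u12 := bf fun t => g471 u9 t
    have u13 := bt fun t => g6902 t u12 u9
    have u14 := bf fun t => g509 u9 w6916 w6917 t w7069
    have u15 := bt fun t => g6496 u9 n1 t
    have u16 := bf fun t => g6904 w7034 t u13
    have u17 := bf fun t => g2421 u15 u16 t u6 g6635
    have u18 := bt fun t => s7074 t u16 u11 u10 n4 n6
    have u19 := bt fun t => g6432 u18 u11 t
    have u20 := bt fun t => g6460 u18 u8 t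
    have u21 := bt fun t => g6544 u19 n3 t
    have u22 := bf fun t => g2508 u21 t u17 n2
    have u23 := bt fun t => s7075 t u20 u19 u18 u16 u14 n4
    have u24 := bf fun t => g32 t u23
    have u25 := bt fun t => g2237 u20 u23 u16 u7 t
    exact g4730 u24 u16 u22 n4 u25
  have s7078 : T.X p r c d = false → T.X p a c d = true → T.X p r a c = true → T.X p d a c = false → T.alt p r c a d = true → T.X p d r a = false → False := fun n0 n1 n2 n3 n4 n5 => by
    have u0 := bf fun t => g3385 n2 n5 n0 n3 t
    exact g672 n4 n5 n0 n1 u0
  have s7079 : T.X p r c d = true → T.X p b c d = false → T.alt p r c b d = true → T.X p d b c = false → False := fun n0 n1 n2 n3 => by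
    have u0 := bf fun t => g22 n0 t
    have u1 := bt fun t => g1217 n2 w6919 n0 n1 t
    have u2 := bt fun t => g1220 n2 g6632 u0 n3 t
    exact g80 u1 u2
  have s7080 : T.alt p r e a b = true → T.X p e a b = false → T.X a b c d = true → T.X p a c d = false → T.X p a b c = false → T.alt p r c a b = false → T.X p d a b = false → T.alt p r d a c = false → T.alt p r d a b = false → T.X p c d e = true → T.X p b d e = false → T.X p e b c = true → T.alt p r e b c = false → False := fun n0 n1 n2 n3 n4 n5 n6 n7 n8 n9 n10 n11 n12 => by
    have u0 := bt fun t => g6444 n0 t n12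
    have u1 := bt fun t => g6490 n8 n0 t
    have u2 := bt fun t => g6450 n5 n0 t
    have u3 := bt fun t => g6530 n7 u0 t
    have u4 := bt fun t => g2352 u1 n6 n1 t n10 g6635
    have u5 := bt fun t => g2551 u3 u4 n9 t
    have u6 := bf fun t => g46 u4 t
    have u7 := bf fun t => g101 u5 t
    have u8 := bf fun t => g2542 u3 n3 t u6 u7
    have u9 := bf fun t => g6262 n2 t g6635 u7 g6634
    exact g2187 u2 n4 u8 n11 u9
  have s7081 : T.X p e a b = false → T.X a b c d = true → T.X p a c d = false → T.alt p r b a c = true → T.X p d a b = false → T.alt p r d a c = false → T.alt p r d a b = false → T.X p c d e = true → T.X p b d e = false → T.X p e b c = true → T.alt p r e b c = false → False := fun n0 n1 n2 n3 n4 n5 n6 n7 n8 n9 n10 => by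
    have u0 := bf fun t => g147 n3 w6916 w6917 t w6919
    have u1 := bf fun t => g109 n3 t
    have u2 := bf fun t => g107 t n3
    have u3 := bf fun t => g6647 t u1 u2
    have u4 := bf fun t => g6650 t u3
    have u5 := bt fun t => g6652 g6655 t u4
    have u6 := bt fun t => g6641 u5 t u0
    have u7 := bt fun t => s6922 u6 t
    have u8 := bf fun t => g62 u7 t
    have u9 := bt fun t => g134 n3 g6631 w6918 t u8
    have u10 := bf fun t => g33 t u9
    have u11 := bf fun t => g168 n3 w6917 u0 g6632 t u7
    have u12 := bf fun t => s7080 t n0 n1 n2 u11 u1 n4 n5 n6 n7 n8 n9 n10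
    have u13 := bf fun t => g6446 u12 t n10
    have u14 := bt fun t => g6452 n3 u13 t
    have u15 := bf fun t => g2145 u14 u9 n0 t
    exact g2111 u14 u11 u10 u15 n9
  have s7082 : T.alt p b c d e = false → T.alt p r b c d = false → T.alt p r b c e = true → T.X p d b c = false → False := fun n0 n1 n2 n3 => by
    have u0 := bf fun t => g1374 n2 t
    have u1 := bt fun t => g6554 n1 n2 t
    have u2 := bf fun t => g1555 u1 t
    have u3 := bf fun t => g6577 u0 u2 t
    have u4 := bf fun t => s7070 t u1
    have u5 := bf fun t => g6681 t u4 w7069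
    have u6 := bf fun t => g6689 t n3
    have u7 := bf fun t => g6699 t u5 u6
    have u8 := bt fun t => g6703 g6706 u7 t
    have u9 := bt fun t => g6696 u8 t
    have u10 := bf fun t => s7071 t u9 u5 u3
    have u11 := bf fun t => g54 t u9
    have u12 := bf fun t => g53 t u9
    have u13 := bf fun t => g1375 n2 t
    have u14 := bt fun t => g6588 u1 t n0
    have u15 := bf fun t => g6568 t u13 n0
    have u16 := bt fun t => g2640 n0 t u3
    have u17 := bf fun t => g1736 u14 t
    have u18 := bt fun t => g6557 t u0 u14
    have u19 := bt fun t => g2662 u16 n3 u9 t g6634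
    have u20 := bf fun t => g2651 u16 n3 u9 t
    have u21 := bf fun t => g1244 u18 g6632 t n3
    have u22 := bt fun t => g1827 u14 g6633 u19 t
    have u23 := bf fun t => g5236 t u11 u10 u19 u20
    have u24 := bf fun t => g1233 u18 w6918 w6919 t u21
    have u25 := bf fun t => g88 u22 t
    have u26 := bf fun t => s7073 t u18 u15 u9 u1 n1
    have u27 := bf fun t => g6482 u26 t u2
    have u28 := bf fun t => g6406 u26 t u15
    have u29 := bf fun t => s7072 u26 t u10 u1
    have u30 := bt fun t => s7076 t u27 u19 u17 u9 n1 n2
    have u31 := bf fun t => g288 t u30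
    have u32 := bf fun t => g6475 u30 t u1
    have u33 := bf fun t => g328 u30 w6916 w6917 t u24
    have u34 := bt fun t => g6398 t u30 n1
    have u35 := bt fun t => g6426 u31 u18 t
    have u36 := bf fun t => g107 t u34
    have u37 := bf fun t => g109 u34 t
    have u38 := bf fun t => g147 u34 w6916 w6917 t w6919
    have u39 := bf fun t => g6647 t u37 u36
    have u40 := bf fun t => g6461 u36 u13 t
    have u41 := bt fun t => g6401 u37 t u18
    have u42 := bf fun t => g6650 t u39
    have u43 := bt fun t => g6652 g6655 t u42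
    have u44 := bt fun t => g6641 u43 t u38
    have u45 := bt fun t => s6922 u44 t
    have u46 := bf fun t => g62 u45 t
    have u47 := bf fun t => g168 u34 w6917 u38 g6632 t u45
    have u48 := bf fun t => g2896 w6917 t w6918 u47 u45
    have u49 := bt fun t => g134 u34 g6631 w6918 t u46
    have u50 := bf fun t => g1964 u35 u49 u29 t
    have u51 := bt fun t => g2941 g6631 t u38 g6632 u49 u45
    have u52 := bf fun t => s7079 t u23 u18 n3
    have u53 := bt fun t => g4414 u52 t u21 g6633 u19 u22
    have u54 := bf fun t => s7078 u52 t u51 u50 u41 u33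
    have u55 := bt fun t => g1821 u14 u53 t w6921 u25
    have u56 := bt fun t => g1943 u35 u49 u29 u54 t
    have u57 := bf fun t => g1474 n2 w6919 w7069 u55 u12 t
    have u58 := bt fun t => s7081 t u56 u54 u34 u29 u28 u26 u19 u10 u9 u13
    have u59 := bf fun t => g39 t u58
    have u60 := bf fun t => g2300 t u29 u58 u10 g6635
    have u61 := bf fun t => g6504 t u2 u60
    have u62 := bf fun t => g6616 t u60 u3
    have u63 := bt fun t => g468 u61 u32 t
    have u64 := bt fun t => g6452 u34 t u62
    have u65 := bt fun t => g2097 t u62 u40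
    have u66 := bt fun t => g619 u63 g6631 u58 t
    have u67 := bt fun t => g2188 u65 u49 u58 t
    have u68 := bf fun t => g69 t u66
    have u69 := bf fun t => g95 u67 t
    have u70 := bf fun t => g5618 u46 u68 t u57 u67
    have u71 := bf fun t => g614 u63 t w7069 u59 u68
    have u72 := bt fun t => g2187 u65 u47 t u9 u69
    exact g979 u64 u48 u71 u72 u70
  have s7083 : T.alt p r c a d = true → T.alt p r c b d = false → T.alt p r c d e = false → T.X p e b c = true → T.alt p r b c e = true → False := fun n0 n1 n2 n3 n4 => by
    have u0 := bf fun t => g1375 n4 t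
    have u1 := bt fun t => g6516 n0 t n2
    have u2 := bt fun t => g6402 t n0 n1
    have u3 := bf fun t => g831 t u1
    have u4 := bf fun t => g833 u1 t
    have u5 := bf fun t => g108 t u2
    have u6 := bf fun t => g109 t u2
    have u7 := bf fun t => g6434 u5 t u3
    have u8 := bf fun t => g6444 t u4 u0
    have u9 := bt fun t => g6437 u6 t n4
    have u10 := bt fun t => s7074 u5 t u7 u6 n3 n4
    have u11 := bt fun t => g6902 t u8 u9
    exact g6904 w7034 u10 u11
  have s7084 : T.X p e a b = true → T.alt p r e a b = false → T.X p b d e = false → T.alt p r b d e = true → False := fun n0 n1 n2 n3 => by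
    have u0 := bf fun t => g1556 n3 t
    have u1 := bf fun t => g6486 n1 t u0
    have u2 := bf fun t => g6904 w7034 n0 t
    have u3 := bf fun t => g6902 u2 n1 t
    have u4 := bt fun t => g6477 t u3 n3
    have u5 := bf fun t => g290 u4 t
    have u6 := bt fun t => g6492 u4 u1 t
    have u7 := bf fun t => s7072 u5 t n2 n3
    exact g2300 u6 u7 n0 n2 g6635
  have s7085 : T.alt p r b a c = true → T.X p e a b = false → T.alt p r e a c = false → T.X p r a c = true → T.alt p r c a b = false → T.X p e b c = true → False := fun n0 n1 n2 n3 n4 n5 => by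
    have u0 := bf fun t => g5 n3 t
    have u1 := bf fun t => g4 n3 t
    have u2 := bf fun t => g107 t n0
    have u3 := bt fun t => g6452 n0 n2 t
    have u4 := bf fun t => g6667 t u2 n4
    have u5 := bf fun t => g6647 t n4 u2
    have u6 := bf fun t => g6670 t u4
    have u7 := bf fun t => g6650 t u5
    have u8 := bf fun t => g6673 g6675 t u6
    have u9 := bt fun t => g6652 g6655 t u7
    have u10 := bf fun t => s6925 u8 t
    have u11 := bt fun t => g6641 u9 t u0
    have u12 := bf fun t => g6659 u10 u1 t
    have u13 := bt fun t => s6922 u11 t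
    have u14 := bt fun t => g134 n0 g6631 w6918 t u12
    have u15 := bf fun t => g168 n0 w6917 u0 g6632 t u13
    have u16 := bf fun t => g33 t u14
    have u17 := bf fun t => g2145 u3 u14 n1 t
    exact g2111 u3 u15 u16 u17 n5
  have s7086 : T.alt p r e a b = false → T.X p r a c = true → T.alt p r c a b = false → T.alt p r c a e = false → T.X p e b c = true → T.alt p r b d e = true → T.alt p r b c e = true → False := fun n0 n1 n2 n3 n4 n5 n6 => by
    have u0 := bf fun t => g1374 n6 t
    have u1 := bf fun t => g1555 n5 t
    have u2 := bf fun t => g6577 u0 u1 t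
    have u3 := bf fun t => s7070 t n5
    have u4 := bf fun t => g6681 t u3 w7069
    have u5 := bf fun t => s7071 t n4 u4 u2
    have u6 := bf fun t => g53 t n4
    have u7 := bf fun t => g1375 n6 t
    have u8 := bf fun t => g6446 n0 t u7
    have u9 := bt fun t => g830 t n3 u8
    have u10 := bf fun t => s7084 t n0 u5 n5
    have u11 := bf fun t => s7085 t u10 u8 n1 n2 n4
    have u12 := bt fun t => g6437 u11 t n6
    have u13 := bt fun t => g106 t u11 n2
    have u14 := bf fun t => g509 u12 w6916 w6917 t w7069
    have u15 := bt fun t => g6456 u12 n3 t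
    have u16 := bt fun t => s7075 t u15 u9 u13 u10 u14 n4
    have u17 := bt fun t => g2237 u15 u16 u10 u6 t
    have u18 := bf fun t => g95 u17 t
    have u19 := bf fun t => g2252 u15 t n4 u18
    exact g4725 u16 u10 u19 n4 u18
  have s7087 : T.X p a d e = true → T.X p d a c = false → T.X p a b c = false → T.X p c a b = true → T.X p d a b = false → T.alt p a d b c = true → T.alt p a d c e = true → T.alt p a b c e = true → T.X p c d e = false → T.X p e b c = true → False := fun n0 n1 n2 n3 n4 n5 n6 n7 n8 n9 => by
    have u0 := bf fun t => g54 t n9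
    have u1 := bf fun t => g53 t n9
    have u2 := bf fun t => g46 n0 t
    have u3 := bt fun t => g2484 n6 n1 n0 n8 t
    have u4 := bf fun t => g101 u3 t
    have u5 := bf fun t => g5106 n1 t u2 n8 u3
    have u6 := bt fun t => g2187 n7 n2 u5 n9 t
    have u7 := bf fun t => g95 t u6
    have u8 := bf fun t => g96 t u6
    have u9 := bf fun t => g6262 t u6 g6635 u4 g6634
    have u10 := bf fun t => g4709 n2 t u5 u0 u6
    have u11 := bf fun t => g4719 n3 u10 t u0 u7
    have u12 := bf fun t => g6252 u9 u8 g6635 u3 t
    have u13 := bt fun t => g2056 n5 n3 n4 t u9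
    have u14 := bf fun t => g4920 n4 u10 n0 t g6635
    have u15 := bt fun t => g2503 n6 u11 n0 n8 t
    exact g5217 u13 u1 u14 u15 u12
  have s7088 : T.X p r a c = true → T.alt p r b c d = false → T.alt p r b c e = true → T.X p d b c = false → False := fun n0 n1 n2 n3 => by
    have u0 := bt fun t => g6554 n1 n2 t
    have u1 := bf fun t => g1556 u0 t
    have u2 := bt fun t => s7082 t n1 n2 n3
    have u3 := bf fun t => g2641 u2 t
    have u4 := bf fun t => g6572 t u1 u3
    have u5 := bf fun t => g6689 t n3
    have u6 := bf fun t => s7070 t u0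
    have u7 := bf fun t => g6681 t u6 w7069
    have u8 := bf fun t => g6699 t u7 u5
    have u9 := bt fun t => g6703 g6706 u8 t
    have u10 := bt fun t => g6696 u9 t
    have u11 := bf fun t => g6587 u0 t u2
    have u12 := bf fun t => s7083 t u4 u11 u10 n2
    have u13 := bf fun t => g6400 t u12 u4
    have u14 := bf fun t => g6518 u12 t u11
    have u15 := bf fun t => g2736 u2 u10 t g6634
    have u16 := bf fun t => g1374 n2 t
    have u17 := bf fun t => g1555 u0 t
    have u18 := bf fun t => g6577 u16 u17 t
    have u19 := bf fun t => s7071 t u10 u7 u18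
    have u20 := bf fun t => g1473 n2 w6918 w6919 w7069 t
    have u21 := bf fun t => g1375 n2 t
    have u22 := bf fun t => g4 n0 t
    have u23 := bf fun t => g5 n0 t
    have u24 := bt fun t => s7086 t n0 u13 u14 u10 u0 n2
    have u25 := bf fun t => g471 t u24
    have u26 := bt fun t => g6444 u24 t u21
    have u27 := bt fun t => g6484 u24 t u1
    have u28 := bt fun t => g6450 u13 u24 t
    have u29 := bt fun t => g6437 t u25 n2
    have u30 := bt fun t => g6477 t u25 u0
    have u31 := bf fun t => g1013 t u27
    have u32 := bt fun t => g6534 u12 u27 t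
    have u33 := bf fun t => g107 t u29
    have u34 := bf fun t => g290 u30 t
    have u35 := bt fun t => g6416 u30 u12 t
    have u36 := bt fun t => g6510 u31 u0 t
    have u37 := bf fun t => g6667 t u33 u13
    have u38 := bf fun t => g6647 t u13 u33
    have u39 := bf fun t => s7072 u34 t u19 u0
    have u40 := bf fun t => g6670 t u37
    have u41 := bf fun t => g6650 t u38
    have u42 := bf fun t => g6673 g6675 t u40
    have u43 := bt fun t => g6652 g6655 t u41
    have u44 := bf fun t => s6925 u42 t
    have u45 := bt fun t => g6641 u43 t u23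
    have u46 := bf fun t => g6659 u44 u22 t
    have u47 := bt fun t => s6922 u45 t
    have u48 := bt fun t => g134 u29 g6631 w6918 t u46
    have u49 := bf fun t => g168 u29 w6917 u23 g6632 t u47
    have u50 := bf fun t => g33 t u48
    have u51 := bf fun t => g2081 u35 u49 u50 t n3
    have u52 := bf fun t => s7087 t u51 u49 u48 u39 u35 u32 u28 u15 u10
    have u53 := bt fun t => g2352 u36 u39 t u52 u19 g6635
    have u54 := bf fun t => g39 t u53
    have u55 := bt fun t => g619 u24 g6631 u53 t
    have u56 := bt fun t => g2188 u28 u48 u53 t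
    have u57 := bf fun t => g69 t u55
    have u58 := bf fun t => g95 u56 t
    have u59 := bf fun t => g4797 u48 t u10 u56
    have u60 := bf fun t => g614 u24 t w7069 u54 u57
    have u61 := bt fun t => g2187 u28 u49 t u10 u58
    have u62 := bf fun t => g3571 n0 u60 u20 u59 t
    exact g979 u26 u22 u60 u61 u62
  have s7089 : T.alt p r b a c = true → T.X p r a c = false → T.alt p r c a b = false → False := fun n0 n1 n2 => by
    have u0 := bf fun t => g107 t n0
    have u1 := bf fun t => g147 n0 w6916 w6917 t w6919
    have u2 := bf fun t => g6647 t n2 u0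
    have u3 := bf fun t => g6650 t u2
    have u4 := bt fun t => g6652 g6655 t u3
    have u5 := bt fun t => g6641 u4 t u1
    have u6 := bt fun t => s6922 u5 t
    have u7 := bf fun t => g62 u6 t
    have u8 := bf fun t => g2941 g6631 n1 u1 g6632 t u6
    exact g134 n0 g6631 w6918 u8 u7
  have s7090 : T.alt p r b c d = false → T.alt p r b c e = true → T.X p d b c = false → False := fun n0 n1 n2 => by
    have u0 := bf fun t => g1374 n1 t
    have u1 := bf fun t => g6689 t n2
    have u2 := bt fun t => g6554 n0 n1 t
    have u3 := bf fun t => g1555 u2 t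
    have u4 := bf fun t => g1556 u2 t
    have u5 := bf fun t => g6577 u0 u3 t
    have u6 := bf fun t => s7070 t u2
    have u7 := bf fun t => g6681 t u6 w7069
    have u8 := bf fun t => g6699 t u7 u1
    have u9 := bt fun t => g6703 g6706 u8 t
    have u10 := bt fun t => g6696 u9 t
    have u11 := bf fun t => g53 t u10
    have u12 := bf fun t => s7071 t u10 u7 u5
    have u13 := bt fun t => s7082 t n0 n1 n2
    have u14 := bf fun t => g2641 u13 t
    have u15 := bf fun t => g6587 u2 t u13
    have u16 := bf fun t => g6572 t u4 u14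
    have u17 := bf fun t => s7083 t u16 u15 u10 n1
    have u18 := bf fun t => g6518 u17 t u15
    have u19 := bf fun t => g6400 t u17 u16
    have u20 := bf fun t => s7088 t n0 n1 n2
    have u21 := bf fun t => s7089 t u20 u19
    have u22 := bt fun t => g6437 u21 t n1
    have u23 := bt fun t => g106 t u21 u19
    have u24 := bf fun t => g469 t u22
    have u25 := bf fun t => g471 u22 t
    have u26 := bf fun t => g509 u22 w6916 w6917 t w7069
    have u27 := bt fun t => g6456 u22 u18 t
    have u28 := bt fun t => g6432 u23 u24 t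
    have u29 := bf fun t => s7084 t u25 u12 u2
    have u30 := bt fun t => s7075 t u27 u28 u23 u29 u26 u10
    have u31 := bt fun t => g2237 u27 u30 u29 u11 t
    have u32 := bf fun t => g95 u31 t
    have u33 := bf fun t => g2252 u27 t u10 u32
    exact g4725 u30 u29 u33 u10 u32
  have s7091 : T.X p e b c = true → T.X p c a b = true → T.X p e a b = false → T.alt p a e b c = true → False := fun n0 n1 n2 n3 => by
    have u0 := bf fun t => g53 t n0
    have u1 := bt fun t => g2237 n3 n1 n2 u0 t
    have u2 := bf fun t => g95 u1 t
    have u3 := bf fun t => g2252 n3 t n0 u2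
    exact g4725 n1 n2 u3 n0 u2
  have s7092 : T.X p b d e = false → T.X p e b c = false → T.alt p r b c e = true → T.X p d b c = false → False := fun n0 n1 n2 n3 => by
    have u0 := bt fun t => s7090 t n2 n3
    have u1 := bf fun t => g1303 u0 g6632 t n3
    have u2 := bf fun t => g6689 t n3
    have u3 := bf fun t => g6696 t n1
    have u4 := bt fun t => g6703 g6706 t u3
    have u5 := bt fun t => g6699 u4 t u2
    have u6 := bt fun t => g6681 u5 t w7069
    have u7 := bt fun t => g6677 u6 u1 t
    have u8 := bf fun t => g1473 n2 w6918 w6919 w7069 t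
    have u9 := bf fun t => g6720 t n3
    have u10 := bf fun t => g1374 n2 t
    have u11 := bf fun t => g1375 n2 t
    have u12 := bf fun t => g6725 t u11 u10
    have u13 := bf fun t => g6728 t u12
    have u14 := bt fun t => g6734 g6737 t u13
    have u15 := bt fun t => g6730 u14 t u9
    have u16 := bt fun t => g6712 u15 t u8
    have u17 := bf fun t => g1292 u0 w6918 w6919 u1 t
    have u18 := bt fun t => g6708 u16 u17 t
    have u19 := bf fun t => g4202 t w7069 w6921 n0 u7
    have u20 := bf fun t => g4256 u1 t w6920 n0 u7
    have u21 := bt fun t => g1279 u0 g6632 u19 n3 t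
    have u22 := bt fun t => g1460 n2 g6632 u20 n1 t
    exact g6156 u21 u22 u7 u18
  have s7093 : T.X p e b c = false → T.alt p r b c e = true → T.X p d b c = false → False := fun n0 n1 n2 => by
    have u0 := bt fun t => s7090 t n1 n2
    have u1 := bf fun t => g6551 u0 n1 t
    have u2 := bf fun t => g1303 u0 g6632 t n2
    have u3 := bf fun t => g6689 t n2
    have u4 := bf fun t => g6696 t n0
    have u5 := bt fun t => g6703 g6706 t u4
    have u6 := bt fun t => g6699 u5 t u3
    have u7 := bt fun t => g6681 u6 t w7069
    have u8 := bt fun t => g6677 u7 u2 t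
    have u9 := bt fun t => s7092 t n0 n1 n2
    have u10 := bf fun t => g1734 t u2 w7069 g6633 u9 u8
    have u11 := bf fun t => g1616 t u2 w7069 g6633 u9 u8
    exact g1554 u1 u11 u10
  have s7094 : T.X p e b c = true → T.alt p a e b c = true → T.alt p r a c e = true → T.alt p r a b c = true → T.X p e a b = false → T.X p e r a = false → False := fun n0 n1 n2 n3 n4 n5 => by
    have u0 := bt fun t => s7075 t n1 n2 n3 n4 n5 n0
    exact s7091 n0 u0 n4 n1
  have s7095 : T.alt p r b a c = false → T.alt p r c a b = false → T.alt p r c a e = false → T.X p e b c = true → T.alt p r b c e = true → False := fun n0 n1 n2 n3 n4 => by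
    have u0 := bt fun t => g6437 n0 t n4
    have u1 := bt fun t => g106 t n0 n1
    have u2 := bf fun t => g469 t u0
    have u3 := bf fun t => g471 u0 t
    have u4 := bt fun t => g6902 t u3 u0
    have u5 := bf fun t => g509 u0 w6916 w6917 t w7069
    have u6 := bt fun t => g6456 u0 n2 t
    have u7 := bt fun t => g6432 u1 u2 t
    have u8 := bf fun t => g6904 w7034 t u4
    exact s7094 n3 u6 u7 u1 u8 u5
  have s7096 : T.X p e a b = false → T.alt p r b a d = false → T.alt p r b a c = true → T.alt p r c a b = false → T.X p c d e = false → T.alt p r e c d = false → T.X p d c e = false → T.X p b d e = true → T.X p e b c = true → T.alt p r b c e = true → False := fun n0 n1 n2 n3 n4 n5 n6 n7 n8 n9 => by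
    have u0 := bf fun t => g147 n2 w6916 w6917 t w6919
    have u1 := bf fun t => g107 t n2
    have u2 := bf fun t => g6647 t n3 u1
    have u3 := bf fun t => g6650 t u2
    have u4 := bt fun t => g6652 g6655 t u3
    have u5 := bt fun t => g6641 u4 t u0
    have u6 := bt fun t => s6922 u5 t
    have u7 := bf fun t => g168 n2 w6917 u0 g6632 t u6
    have u8 := bt fun t => s7089 n2 t n3
    have u9 := bf fun t => g2693 t n8 n7 g6634
    have u10 := bt fun t => g6584 n9 t u9
    have u11 := bt fun t => s7085 n2 n0 t u8 n3 n8
    have u12 := bf fun t => g832 t u11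
    have u13 := bt fun t => g6524 u11 t n5
    have u14 := bt fun t => g6470 u12 n9 t
    have u15 := bt fun t => g6546 u12 u10 t
    have u16 := bt fun t => g6494 n1 u13 t
    have u17 := bt fun t => g2301 u16 n0 t n7 g6635
    have u18 := bt fun t => g2503 u15 t u17 n4 n6
    have u19 := bf fun t => g43 u18 t
    have u20 := bt fun t => g4729 u7 n0 u18 n8 t
    have u21 := bt fun t => g2187 u14 u7 u19 n8 t
    exact g95 u20 u21
  have s7097 : T.alt p r c a d = false → T.X p c d e = false → T.alt p r e c d = false → T.X p d c e = false → T.X p b d e = true → T.X p e b c = true → T.alt p r b c d = true → T.alt p r b c e = true → False := fun n0 n1 n2 n3 n4 n5 n6 n7 => by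
    have u0 := bf fun t => g53 t n5
    have u1 := bf fun t => g2693 t n5 n4 g6634
    have u2 := bt fun t => g6584 n7 t u1
    have u3 := bt fun t => g1779 u2 t g6633 n1 n3
    have u4 := bf fun t => g1474 n7 w6919 w7069 u3 u0 t
    have u5 := bf fun t => g1193 n6 t
    have u6 := bf fun t => g6574 u5 t u1
    have u7 := bf fun t => g1375 n7 t
    have u8 := bf fun t => g1194 n6 t
    have u9 := bf fun t => g6569 u8 u7 t
    have u10 := bf fun t => g1374 n7 t
    have u11 := bf fun t => g6557 u5 u10 t
    have u12 := bf fun t => g6551 n6 n7 t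
    have u13 := bf fun t => g6518 n0 t u11
    have u14 := bf fun t => g6400 t n0 u5
    have u15 := bt fun t => s7095 t u14 u13 n5 n7
    have u16 := bf fun t => g107 t u15
    have u17 := bf fun t => g147 u15 w6916 w6917 t w6919
    have u18 := bf fun t => g6435 u15 t n7
    have u19 := bf fun t => g6395 u15 t n6
    have u20 := bt fun t => s7089 u15 t u14
    have u21 := bf fun t => g6667 t u16 u14
    have u22 := bf fun t => g6647 t u14 u16
    have u23 := bf fun t => g6461 u16 u7 t
    have u24 := bf fun t => g4 u20 t
    have u25 := bf fun t => g6670 t u21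
    have u26 := bf fun t => g6650 t u22
    have u27 := bf fun t => g6673 g6675 t u25
    have u28 := bt fun t => g6652 g6655 t u26
    have u29 := bf fun t => s6925 u27 t
    have u30 := bt fun t => g6641 u28 t u17
    have u31 := bf fun t => g6659 u29 u24 t
    have u32 := bt fun t => s6922 u30 t
    have u33 := bt fun t => g134 u15 g6631 w6918 t u31
    have u34 := bf fun t => g168 u15 w6917 u17 g6632 t u32
    have u35 := bt fun t => s7096 t u19 u15 u14 n1 n2 n3 n4 n5 n7
    have u36 := bf fun t => g39 t u35
    have u37 := bf fun t => g2374 t u35 n4 g6635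
    have u38 := bf fun t => g2435 t u35 n4 g6635
    have u39 := bf fun t => g6508 t u12 u37
    have u40 := bf fun t => g6630 u37 t u9
    have u41 := bf fun t => g6498 u18 t u38
    have u42 := bf fun t => g6500 t u6 u38
    have u43 := bf fun t => g6612 t u38 u1
    have u44 := bf fun t => g6474 u42 t u39
    have u45 := bt fun t => g6521 t u41 u2
    have u46 := bf fun t => g6598 u43 t u40
    have u47 := bt fun t => g468 u44 u18 t
    have u48 := bt fun t => g6528 u45 t u40
    have u49 := bt fun t => g2097 t u46 u23
    have u50 := bt fun t => g619 u47 g6631 u35 t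
    have u51 := bt fun t => g2188 u49 u33 u35 t
    have u52 := bf fun t => g69 t u50
    have u53 := bf fun t => g95 u51 t
    have u54 := bf fun t => g5618 u31 u52 t u4 u51
    have u55 := bf fun t => g614 u47 t w7069 u36 u52
    have u56 := bt fun t => g2187 u49 u34 t n5 u53
    exact g979 u48 u24 u55 u56 u54
  have s7098 : T.alt p r b c e = true → T.X p d b c = false → False := fun n0 n1 => by
    have u0 := bf fun t => g6689 t n1
    have u1 := bf fun t => g1374 n0 t
    have u2 := bf fun t => g1375 n0 t
    have u3 := bt fun t => g6693 t u2 n0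
    have u4 := bt fun t => s7090 t n0 n1
    have u5 := bf fun t => g1193 u4 t
    have u6 := bf fun t => g1303 u4 g6632 t n1
    have u7 := bf fun t => g6551 u4 n0 t
    have u8 := bf fun t => g6557 u5 u1 t
    have u9 := bt fun t => s7093 t n0 n1
    have u10 := bf fun t => g53 t u9
    have u11 := bt fun t => g6695 t u9 u3
    have u12 := bf fun t => g6702 g6706 t u11
    have u13 := bf fun t => g6700 u12 t u0
    have u14 := bf fun t => g6682 u13 t w7069
    have u15 := bf fun t => g6679 u14 u6 t
    have u16 := bf fun t => g6886 t u6 u15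
    have u17 := bt fun t => s6933 u7 t u16 w7069
    have u18 := bt fun t => s7071 u17 u9 u13 t
    have u19 := bf fun t => g5260 n1 u10 u17 t g6634
    have u20 := bf fun t => g6579 u4 t u18
    have u21 := bf fun t => g2797 u18 u9 t g6634
    have u22 := bt fun t => s7097 t u21 u20 u19 u17 u9 u4 n0
    exact s7083 u22 u5 u8 u9 n0
  have s7099 : T.alt p r b d e = false → T.X p b d e = true → T.alt p r c b d = false → T.X p e b c = true → T.alt p r b c e = false → False := fun n0 n1 n2 n3 n4 => by
    have u0 := bf fun t => g2735 t n3 n1 g6634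
    have u1 := bf fun t => g2693 t n3 n1 g6634
    have u2 := bt fun t => g2640 u0 u1 t
    have u3 := bf fun t => g2797 u2 n3 t g6634
    have u4 := bf fun t => g6789 t u3
    have u5 := bf fun t => g6797 g6799 t u4
    have u6 := bf fun t => g6574 n2 t u1
    have u7 := bf fun t => g54 t n3
    have u8 := bf fun t => g6552 t n4 n0
    have u9 := bf fun t => g6780 t n0 u6
    have u10 := bt fun t => g1192 u8 n2 t
    have u11 := bf fun t => g6783 t u9
    have u12 := bt fun t => g6568 u10 t u0
    have u13 := bf fun t => g6793 u5 t u11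
    have u14 := bt fun t => g1537 u12 g6632 t w7069 n3
    have u15 := bf fun t => g1543 u12 u14 t u7
    have u16 := bt fun t => g1524 u12 g6632 n3 t
    have u17 := bf fun t => g6775 u13 t u15
    have u18 := bf fun t => g19 u14 t
    exact g6772 u17 u18 u16
  have s7100 : T.X p b d e = true → T.alt p r c b d = false → T.X p e b c = true → T.alt p r b c e = false → False := fun n0 n1 n2 n3 => by
    have u0 := bf fun t => g2693 t n2 n0 g6634
    have u1 := bf fun t => g2735 t n2 n0 g6634
    have u2 := bt fun t => g2640 u1 u0 t
    have u3 := bt fun t => s7099 t n0 n1 n2 n3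
    have u4 := bf fun t => g1555 u3 t
    have u5 := bf fun t => s7070 t u3
    have u6 := bt fun t => s7038 u2 n3 t n0 u4
    exact g6681 u6 u5 w7069
  have s7101 : T.alt p r b d e = true → T.alt p b e c d = false → T.X p d b c = false → False := fun n0 n1 n2 => by
    have u0 := bf fun t => s7098 t n2
    have u1 := bf fun t => g6689 t n2
    have u2 := bf fun t => g1555 n0 t
    have u3 := bf fun t => s7070 t n0
    have u4 := bf fun t => g6576 t u2 n1
    have u5 := bf fun t => g6681 t u3 w7069
    have u6 := bt fun t => g1373 u0 u4 t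
    have u7 := bf fun t => g6699 t u5 u1
    have u8 := bf fun t => g6692 t u6 w7069
    have u9 := bt fun t => g6703 g6706 u7 t
    exact g6697 u9 u8
  have s7102 : T.alt p r c b d = false → T.alt p r c a d = true → T.X p e b c = true → T.X p d b c = false → False := fun n0 n1 n2 n3 => by
    have u0 := bf fun t => s7098 t n3
    have u1 := bt fun t => g6402 t n1 n0
    have u2 := bf fun t => g108 t u1
    have u3 := bf fun t => g109 t u1
    have u4 := bf fun t => s7100 t n0 n2 u0
    have u5 := bf fun t => g2785 t n3 n2 u4 g6634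
    have u6 := bf fun t => s7101 t u5 n3
    have u7 := bf fun t => g6552 t u0 u6
    have u8 := bt fun t => s6933 u6 u4 t w7069
    have u9 := bt fun t => g1192 u7 n0 t
    have u10 := bt fun t => g6891 t u8 w7069
    have u11 := bf fun t => s7063 u2 n3 u9 u3 t
    have u12 := bt fun t => g6909 w7033 u10 t
    exact g6898 u12 u11
  have s7103 : T.X p b d e = false → T.alt p r c a d = true → T.X p e b c = true → T.X p d b c = false → False := fun n0 n1 n2 n3 => by
    have u0 := bf fun t => g652 n1 t
    have u1 := bt fun t => s7102 t n1 n2 n3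
    have u2 := bf fun t => g1195 u1 t
    have u3 := bf fun t => g6404 t u0 u2
    have u4 := bf fun t => g650 t n1
    have u5 := bf fun t => g1193 t u1
    have u6 := bf fun t => g6429 u4 u5 t
    have u7 := bf fun t => s7098 t n3
    have u8 := bf fun t => g6553 u5 u7 t
    have u9 := bf fun t => g6399 t n1 u1
    have u10 := bf fun t => g2785 t n3 n2 n0 g6634
    have u11 := bt fun t => s6933 u8 n0 t w7069
    have u12 := bf fun t => g6622 u6 t u10
    have u13 := bt fun t => g6891 t u11 w7069
    have u14 := bt fun t => g6909 w7033 u13 t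
    have u15 := bt fun t => g6898 u14 t
    have u16 := bt fun t => g6899 u14 t
    have u17 := bt fun t => g6896 u16 u3 t
    have u18 := bt fun t => g6476 u17 t u8
    have u19 := bt fun t => g6398 t u17 u5
    have u20 := bf fun t => g471 u18 t
    have u21 := bt fun t => g6902 t u20 u18
    have u22 := bt fun t => s7089 u19 t u9
    have u23 := bf fun t => g6904 w7034 t u21
    have u24 := bt fun t => s7085 u19 u23 t u22 u9 n2
    have u25 := bf fun t => g2418 t u15 u23 n0 g6635
    have u26 := bf fun t => g833 t u24
    have u27 := bt fun t => g6496 u18 t u25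
    exact g6538 u26 u27 u12
  have s7104 : T.alt p r c a d = true → T.X p e b c = true → T.X p d b c = false → False := fun n0 n1 n2 => by
    have u0 := bf fun t => s7098 t n2
    have u1 := bt fun t => s7102 t n0 n1 n2
    have u2 := bf fun t => g1244 u1 g6632 t n2
    have u3 := bf fun t => g1233 u1 w6918 w6919 t u2
    have u4 := bt fun t => s7103 t n0 n1 n2
    have u5 := bf fun t => g2693 t n1 u4 g6634
    have u6 := bf fun t => g2735 t n1 u4 g6634
    have u7 := bt fun t => g6572 u1 t u5
    have u8 := bt fun t => g2640 u6 u5 t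
    have u9 := bf fun t => g1557 t u7
    have u10 := bf fun t => g1734 u7 u3 w7069 g6633 u4 t
    have u11 := bt fun t => s7038 u8 u0 t u4 u9
    have u12 := bf fun t => g6677 t u3 u10
    exact g6681 u11 u12 w7069
  have s7105 : T.X p b d e = true → T.X p e b c = true → T.X p d b c = false → False := fun n0 n1 n2 => by
    have u0 := bf fun t => s7098 t n2
    have u1 := bf fun t => g2693 t n1 n0 g6634
    have u2 := bf fun t => g2735 t n1 n0 g6634
    have u3 := bt fun t => s7100 n0 t n1 u0
    have u4 := bt fun t => g6572 u3 t u1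
    have u5 := bt fun t => g2640 u2 u1 t
    have u6 := bf fun t => g1244 u3 g6632 t n2
    have u7 := bf fun t => g1557 t u4
    have u8 := bf fun t => g1233 u3 w6918 w6919 t u6
    have u9 := bt fun t => s7038 u5 u0 t n0 u7
    have u10 := bf fun t => g1734 u4 u8 w7069 g6633 n0 t
    have u11 := bt fun t => g6681 u9 t w7069
    exact g6677 u11 u8 u10
  have s7106 : T.alt p r c b d = true → T.X p e b c = true → T.X p d b c = false → False := fun n0 n1 n2 => by
    have u0 := bf fun t => s7105 t n1 n2
    have u1 := bf fun t => g2785 t n2 n1 u0 g6634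
    have u2 := bf fun t => s7101 t u1 n2
    have u3 := bt fun t => s6933 u2 u0 t w7069
    have u4 := bt fun t => g6891 t u3 w7069
    have u5 := bt fun t => g6909 w7033 u4 t
    have u6 := bt fun t => g6899 u5 t
    have u7 := bf fun t => s7098 t n2
    have u8 := bf fun t => g6552 t u7 u2
    have u9 := bf fun t => s7104 t n1 n2
    have u10 := bf fun t => g1244 n0 g6632 t n2
    have u11 := bt fun t => g6401 t u9 n0
    have u12 := bf fun t => g1233 n0 w6918 w6919 t u10
    have u13 := bf fun t => g109 t u11
    have u14 := bf fun t => g6894 u6 t u12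
    have u15 := bf fun t => g6398 u13 t u8
    exact g6896 u6 u14 u15
  have s7107 : T.alt p r d a b = false → T.alt p r c a b = false → T.alt p r b c d = false → T.alt p r b d e = false → T.alt p b e c d = false → T.X p b d e = false → T.X p e b c = true → False := fun n0 n1 n2 n3 n4 n5 n6 => by
    have u0 := bt fun t => s6933 n3 n5 t w7069
    have u1 := bt fun t => g6891 t u0 w7069
    have u2 := bt fun t => g6909 w7033 u1 t
    have u3 := bt fun t => g6899 u2 t
    have u4 := bt fun t => g6898 u2 t
    have u5 := bf fun t => g6409 n1 n0 t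
    have u6 := bt fun t => g6896 u3 n0 t
    have u7 := bf fun t => g6622 u5 t n4
    have u8 := bt fun t => g6476 u6 t n3
    have u9 := bt fun t => g6398 t u6 n2
    have u10 := bf fun t => g471 u8 t
    have u11 := bt fun t => g6902 t u10 u8
    have u12 := bt fun t => s7089 u9 t n1
    have u13 := bf fun t => g6904 w7034 t u11
    have u14 := bt fun t => s7085 u9 u13 t u12 n1 n6
    have u15 := bf fun t => g2418 t u4 u13 n5 g6635
    have u16 := bf fun t => g833 t u14
    have u17 := bt fun t => g6496 u8 t u15
    exact g6538 u16 u17 u7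
  have s7108 : T.X p e b c = true → T.X p d b c = false → False := fun n0 n1 => by
    have u0 := bf fun t => s7098 t n1
    have u1 := bf fun t => s7104 t n0 n1
    have u2 := bf fun t => s7105 t n0 n1
    have u3 := bf fun t => g2785 t n1 n0 u2 g6634
    have u4 := bf fun t => s7101 t u3 n1
    have u5 := bf fun t => g6552 t u0 u4
    have u6 := bt fun t => s6933 u4 u2 t w7069
    have u7 := bt fun t => g6891 t u6 w7069
    have u8 := bt fun t => g6909 w7033 u7 t
    have u9 := bt fun t => g6898 u8 t
    have u10 := bt fun t => g6899 u8 t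
    have u11 := bf fun t => s7106 t n0 n1
    have u12 := bf fun t => g6400 t u1 u11
    have u13 := bt fun t => g1192 u5 u11 t
    have u14 := bt fun t => s7107 t u12 u5 u4 u3 u2 n0
    have u15 := bf fun t => g289 t u14
    have u16 := bf fun t => g290 t u14
    have u17 := bt fun t => g6410 u12 u14 t
    have u18 := bt fun t => g6894 u10 u14 t
    have u19 := bf fun t => g6396 t u16 u5
    have u20 := bf fun t => g6417 u16 u1 t
    have u21 := bt fun t => g6620 u17 t u3
    have u22 := bf fun t => g17 t u18
    have u23 := bf fun t => g18 t u18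
    have u24 := bf fun t => g6885 u6 u18 t
    have u25 := bf fun t => g1358 u13 w6919 u18 t
    have u26 := bt fun t => g106 t u19 u12
    have u27 := bf fun t => g2462 t u21
    have u28 := bf fun t => g1694 t u18 w7069 u2 u24
    have u29 := bf fun t => g1324 u13 u22 u23 u25 t
    have u30 := bf fun t => s7064 t u17 u26 n1 u29 u9
    have u31 := bf fun t => g6602 u20 t u27
    have u32 := bf fun t => g6501 u15 u28 t
    have u33 := bf fun t => s6922 t u30
    have u34 := bf fun t => g201 u26 t g6632 u30
    have u35 := bt fun t => g2278 t u31 u32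
    have u36 := bt fun t => g6605 t u32 u21
    have u37 := bf fun t => g6641 t u33 u34
    have u38 := bf fun t => g2369 u35 u9 t g6635
    have u39 := bf fun t => s7091 n0 t u38 u36
    have u40 := bt fun t => g6652 g6655 u37 t
    exact g6649 u40 u39
  have s7109 : T.alt p r b a c = false → T.alt p r c a b = false → T.alt p r c a d = false → T.alt p b d c e = false → T.X p d r b = true → T.alt p r d b c = true → T.X p d b c = false → False := fun n0 n1 n2 n3 n4 n5 n6 => by
    have u0 := bf fun t => g6689 t n6
    have u1 := bf fun t => s7108 t n6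
    have u2 := bf fun t => g6696 t u1
    have u3 := bt fun t => g6703 g6706 t u2
    have u4 := bt fun t => g6699 u3 t u0
    have u5 := bt fun t => g6681 u4 t w7069
    have u6 := bt fun t => s6972 u5 t
    have u7 := bf fun t => g6885 u6 n4 t
    have u8 := bf fun t => s7070 u5 t
    have u9 := bf fun t => g1725 t n4 g6633 u7
    have u10 := bt fun t => g1554 u8 t u9
    have u11 := bf fun t => g1593 u10 n4 t u7
    have u12 := bf fun t => g6751 t u11
    have u13 := bf fun t => g17 t n4
    have u14 := bf fun t => g4219 u13 w7069 g6633 t u7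
    have u15 := bf fun t => g4259 n4 w7069 w6920 u14 t
    have u16 := bf fun t => g1574 u10 t w6920 u14 u15
    have u17 := bf fun t => g18 t n4
    have u18 := bf fun t => g1358 n5 w6919 n4 t
    have u19 := bf fun t => g1324 n5 u13 u17 u18 t
    have u20 := bt fun t => g6891 t u6 w7069
    have u21 := bt fun t => g6909 w7033 u20 t
    have u22 := bt fun t => g6899 u21 t
    have u23 := bt fun t => g6898 u21 t
    have u24 := bf fun t => s7098 t n6
    have u25 := bf fun t => g6552 t u24 u8
    have u26 := bf fun t => g6720 t n6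
    have u27 := bf fun t => g6727 t u1
    have u28 := bt fun t => g6734 g6737 t u27
    have u29 := bt fun t => g6730 u28 t u26
    have u30 := bt fun t => g106 t n0 n1
    have u31 := bf fun t => g6398 n0 t u25
    have u32 := bt fun t => g6896 u22 t u31
    have u33 := bf fun t => g289 t u32
    have u34 := bt fun t => g6410 n1 u32 t
    have u35 := bf fun t => g6479 u32 t u10
    have u36 := bf fun t => s7065 t n0 u24 u13 u17 n4 u12 u23 u9 u8 u32
    have u37 := bf fun t => g6501 u33 u9 t
    have u38 := bt fun t => g6620 u34 t u36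
    have u39 := bf fun t => s7064 t u34 u30 n6 u19 u23
    have u40 := bt fun t => g6537 t u35 u38
    have u41 := bt fun t => g2640 t n3 u36
    have u42 := bt fun t => g6578 t u10 u36
    have u43 := bt fun t => g6605 t u37 u38
    have u44 := bf fun t => g2461 t u38
    have u45 := bf fun t => s6922 t u39
    have u46 := bf fun t => g201 u30 t g6632 u39
    have u47 := bt fun t => g6518 n2 u40 t
    have u48 := bt fun t => g2714 u41 n6 u1 u11 t g6634
    have u49 := bt fun t => g6629 t u44 u41
    have u50 := bf fun t => g1425 u42 g6632 t u1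
    have u51 := bf fun t => g6641 t u45 u46
    have u52 := bf fun t => g59 u48 t
    have u53 := bt fun t => g1827 u47 g6633 u48 t
    have u54 := bt fun t => g1840 u47 t u18 g6633 u48
    have u55 := bf fun t => g2369 u49 u23 t g6635
    have u56 := bf fun t => g2371 u49 u23 t g6635
    have u57 := bt fun t => g6712 u29 t u50
    have u58 := bt fun t => g6652 g6655 u51 t
    have u59 := bf fun t => g89 u53 t
    have u60 := bf fun t => g6707 u57 t u53
    have u61 := bt fun t => g1822 u47 u54 t u52 u59
    have u62 := bf fun t => g4446 u54 t u48 u53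
    have u63 := bt fun t => g6649 u58 t
    have u64 := bf fun t => g1340 n5 w6918 u13 u60 u19 t
    have u65 := bf fun t => g1428 u42 g6632 u16 u61 u1 t
    have u66 := bf fun t => g4046 g6632 u16 u62 t u65
    have u67 := bf fun t => g4065 g6632 w7069 u62 u1 t
    have u68 := bf fun t => g33 t u63
    have u69 := bt fun t => g2237 u43 u63 u55 u66 t
    have u70 := bt fun t => g2007 u34 u63 u23 t
    have u71 := bf fun t => g6102 u64 u67 u7 u53 t
    have u72 := bf fun t => g91 u70 t
    have u73 := bf fun t => g1997 u34 u68 t u19 u72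
    have u74 := bf fun t => g6271 u72 u69 g6635 t u71
    exact g2600 u38 u73 u56 u48 u74
  have s7110 : T.alt p b e c d = false → T.X a c b d = false → T.X p a b c = false → T.X p c a b = true → T.X p r a e = true → T.X a e b d = false → T.X p e a b = false → T.alt p a b d e = false → T.alt p a d b e = true → T.alt p r c a b = false → T.X p b d e = false → T.alt p r d b e = true → T.alt p b d c e = false → T.X p c r d = false → T.X p d b c = false → False := fun n0 n1 n2 n3 n4 n5 n6 n7 n8 n9 n10 n11 n12 n13 n14 => by
    have u0 := bf fun t => g6689 t n14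
    have u1 := bf fun t => s7108 t n14
    have u2 := bf fun t => g6696 t u1
    have u3 := bt fun t => g6703 g6706 t u2
    have u4 := bt fun t => g6699 u3 t u0
    have u5 := bt fun t => g6681 u4 t w7069
    have u6 := bt fun t => s6972 u5 t
    have u7 := bt fun t => g6891 t u6 w7069
    have u8 := bt fun t => g6909 w7033 u7 t
    have u9 := bt fun t => g6898 u8 t
    have u10 := bt fun t => g2305 n8 u9 n6 t g6635
    have u11 := bf fun t => g46 u10 t
    have u12 := bf fun t => g4887 u9 t u11 n10 g6635
    have u13 := bf fun t => s7098 t n14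
    have u14 := bf fun t => g6586 u13 t n12
    have u15 := bf fun t => s7070 u5 t
    have u16 := bf fun t => g6552 t u13 u15
    have u17 := bf fun t => g6582 u16 t n0
    have u18 := bt fun t => g2640 t n12 n0
    have u19 := bt fun t => g6578 t n11 n0
    have u20 := bt fun t => g6618 t n8 n0
    have u21 := bt fun t => g1735 t u14 u17
    have u22 := bt fun t => g2714 u18 n14 u1 n10 t g6634
    have u23 := bt fun t => g6629 n7 t u18
    have u24 := bt fun t => g6441 n9 t u19
    have u25 := bf fun t => g2145 u20 n3 n6 t
    have u26 := bt fun t => g1827 u21 g6633 u22 t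
    have u27 := bt fun t => g1840 u21 t n13 g6633 u22
    have u28 := bt fun t => g2551 u23 u10 u22 t
    have u29 := bf fun t => g4446 u27 t u22 u26
    have u30 := bf fun t => g6243 n1 t n5 u28 g6634
    have u31 := bf fun t => g879 u24 n4 u29 t
    have u32 := bf fun t => g2121 u20 n2 u12 t u30
    exact g5122 u31 u32 u25 u10 u22 u28
  have s7111 : T.alt p r c a d = false → T.X p d r b = true → T.alt p r c b d = false → T.X p d b c = false → False := fun n0 n1 n2 n3 => by
    have u0 := bf fun t => g6689 t n3
    have u1 := bf fun t => s7108 t n3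
    have u2 := bf fun t => g6696 t u1
    have u3 := bt fun t => g6703 g6706 t u2
    have u4 := bt fun t => g6699 u3 t u0
    have u5 := bt fun t => g6681 u4 t w7069
    have u6 := bt fun t => s6972 u5 t
    have u7 := bf fun t => g6885 u6 n1 t
    have u8 := bf fun t => s7070 u5 t
    have u9 := bf fun t => g1725 t n1 g6633 u7
    have u10 := bt fun t => g1554 u8 t u9
    have u11 := bf fun t => g1593 u10 n1 t u7
    have u12 := bf fun t => g17 t n1
    have u13 := bf fun t => g4219 u12 w7069 g6633 t u7
    have u14 := bf fun t => g4259 n1 w7069 w6920 u13 t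
    have u15 := bf fun t => g1574 u10 t w6920 u13 u14
    have u16 := bf fun t => g6573 n2 u9 t
    have u17 := bf fun t => s7098 t n3
    have u18 := bf fun t => g6552 t u17 u8
    have u19 := bt fun t => g1192 u18 n2 t
    have u20 := bf fun t => g18 t n1
    have u21 := bf fun t => g1358 u19 w6919 n1 t
    have u22 := bf fun t => g1324 u19 u12 u20 u21 t
    have u23 := bt fun t => g6891 t u6 w7069
    have u24 := bt fun t => g6909 w7033 u23 t
    have u25 := bt fun t => g6898 u24 t
    have u26 := bf fun t => g35 t u25
    have u27 := bf fun t => g6400 t n0 n2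
    have u28 := bt fun t => s7109 t u27 n0 u16 n1 u19 n3
    have u29 := bf fun t => g107 t u28
    have u30 := bf fun t => g147 u28 w6916 w6917 t w6919
    have u31 := bt fun t => g6436 u28 t u17
    have u32 := bt fun t => g6396 u28 t u18
    have u33 := bt fun t => s7089 u28 t u27
    have u34 := bf fun t => g6667 t u29 u27
    have u35 := bf fun t => g6647 t u27 u29
    have u36 := bt fun t => g6422 u29 u19 t
    have u37 := bf fun t => g469 t u31
    have u38 := bf fun t => g471 u31 t
    have u39 := bt fun t => g6902 t u38 u31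
    have u40 := bf fun t => g290 u32 t
    have u41 := bf fun t => g4 u33 t
    have u42 := bf fun t => g6670 t u34
    have u43 := bf fun t => g6650 t u35
    have u44 := bf fun t => g1918 t u36
    have u45 := bt fun t => g6506 u37 u10 t
    have u46 := bf fun t => g6489 u40 u38 t
    have u47 := bf fun t => g6904 w7034 t u39
    have u48 := bf fun t => g6673 g6675 t u42
    have u49 := bt fun t => g6652 g6655 t u43
    have u50 := bt fun t => g2305 u45 u25 u47 t g6635
    have u51 := bt fun t => g496 u31 g6631 u15 u47 t
    have u52 := bf fun t => s6925 u48 t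
    have u53 := bt fun t => g6641 u49 t u30
    have u54 := bf fun t => g46 u50 t
    have u55 := bf fun t => g69 t u51
    have u56 := bf fun t => g6659 u52 u41 t
    have u57 := bt fun t => s6922 u53 t
    have u58 := bf fun t => g4887 u25 t u54 u11 g6635
    have u59 := bf fun t => g4939 u25 u47 u54 u13 t
    have u60 := bt fun t => g483 u31 w6916 t w7069 u58 u55
    have u61 := bt fun t => g134 u28 g6631 w6918 t u56
    have u62 := bf fun t => g168 u28 w6917 u30 g6632 t u57
    have u63 := bf fun t => g33 t u61
    have u64 := bf fun t => g2081 u36 u62 u63 t n3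
    have u65 := bf fun t => g2064 u36 u63 u26 u64 u22 t
    have u66 := bt fun t => s7110 t u65 u62 u61 u60 u59 u47 u46 u45 u27 u11 u10 u16 u21 n3
    have u67 := bf fun t => g2642 t u66
    have u68 := bf fun t => g2781 u66 n3 u11 t g6634
    have u69 := bt fun t => g6621 u44 t u66
    have u70 := bt fun t => g6608 u36 t u67
    have u71 := bt fun t => g2256 u70 u61 u58 u47 t
    have u72 := bf fun t => g2262 u70 u62 u63 t u1
    have u73 := bf fun t => g5106 u64 u71 u54 u68 t
    exact g2602 u69 u72 u50 u68 u73
  have s7112 : T.alt p r c a b = true → T.alt p r d b c = true → T.X p d b c = false → False := fun n0 n1 n2 => by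
    have u0 := bf fun t => g6689 t n2
    have u1 := bf fun t => s7108 t n2
    have u2 := bf fun t => g6696 t u1
    have u3 := bt fun t => g6703 g6706 t u2
    have u4 := bt fun t => g6699 u3 t u0
    have u5 := bt fun t => g6681 u4 t w7069
    have u6 := bt fun t => s6972 u5 t
    have u7 := bt fun t => g6891 t u6 w7069
    have u8 := bt fun t => g6909 w7033 u7 t
    have u9 := bt fun t => g6898 u8 t
    have u10 := bf fun t => g108 t n0
    have u11 := bf fun t => g109 t n0
    exact s7063 u10 n2 n1 u11 u9
  have s7113 : T.alt p b e c d = false → T.X p b d e = false → T.alt p r c b d = false → T.X p d b c = false → False := fun n0 n1 n2 n3 => by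
    have u0 := bf fun t => g6689 t n3
    have u1 := bf fun t => s7108 t n3
    have u2 := bf fun t => g6696 t u1
    have u3 := bt fun t => g6703 g6706 t u2
    have u4 := bt fun t => g6699 u3 t u0
    have u5 := bt fun t => g6681 u4 t w7069
    have u6 := bf fun t => s7070 u5 t
    have u7 := bt fun t => s6972 u5 t
    have u8 := bt fun t => g6891 t u7 w7069
    have u9 := bt fun t => g6909 w7033 u8 t
    have u10 := bt fun t => g6899 u9 t
    have u11 := bf fun t => s7098 t n3
    have u12 := bf fun t => g6552 t u11 u6
    have u13 := bt fun t => g1192 u12 n2 t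
    have u14 := bf fun t => s7112 t u13 n3
    have u15 := bf fun t => g6402 u14 t n2
    have u16 := bf fun t => s7111 u15 t n2 n3
    have u17 := bf fun t => g6894 u10 t u16
    have u18 := bt fun t => g6896 u10 u17 t
    have u19 := bt fun t => g6476 u18 t u6
    have u20 := bf fun t => g471 u19 t
    have u21 := bt fun t => g6902 t u20 u19
    have u22 := bf fun t => g6904 w7034 t u21
    have u23 := bt fun t => g6886 u7 u16 t
    have u24 := bf fun t => g4256 u16 t w6920 n1 u23
    have u25 := bt fun t => g496 u19 g6631 u24 u22 t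
    have u26 := bf fun t => g69 t u25
    have u27 := bf fun t => g4202 t w7069 w6921 n1 u23
    have u28 := bt fun t => g6898 u9 t
    have u29 := bf fun t => g35 t u28
    have u30 := bf fun t => g328 u18 w6916 w6917 t u16
    have u31 := bf fun t => g509 u19 w6916 w6917 t w7069
    have u32 := bf fun t => g288 t u18
    have u33 := bf fun t => g6865 t u17 u32
    have u34 := bf fun t => g6868 t u33
    have u35 := bf fun t => g469 t u19
    have u36 := bf fun t => g6872 t u20 u35
    have u37 := bf fun t => g6875 t u36
    have u38 := bf fun t => g6882 g6884 t u37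
    have u39 := bf fun t => g6878 u38 t u34
    have u40 := bf fun t => g6860 u39 t u31
    have u41 := bf fun t => g6857 u40 u30 t
    have u42 := bf fun t => g86 u23 t
    have u43 := bf fun t => g5752 t u25 u41 u42 g6635
    have u44 := bf fun t => g312 u18 w6917 t u29 u43
    have u45 := bf fun t => g2418 t u28 u22 n1 g6635
    have u46 := bt fun t => g6496 u19 t u45
    have u47 := bt fun t => g6482 u17 u46 t
    have u48 := bf fun t => g1568 u47 u44 u27 w6921 t
    have u49 := bf fun t => g6489 u17 u20 t
    have u50 := bt fun t => g2278 u49 t u45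
    have u51 := bt fun t => g1036 u46 u30 g6633 t u41
    have u52 := bf fun t => g46 u51 t
    have u53 := bf fun t => g5742 u43 u26 u41 u23 t
    have u54 := bf fun t => g2298 u50 t u52 u48 u53
    have u55 := bt fun t => g483 u19 w6916 t w7069 u54 u26
    have u56 := bt fun t => g6405 u17 t u13
    have u57 := bf fun t => g6519 u56 u46 t
    have u58 := bf fun t => g6425 u32 n2 t
    have u59 := bf fun t => g6613 u58 u45 t
    have u60 := bt fun t => g6416 u18 u15 t
    have u61 := bt fun t => g6398 t u18 u12
    have u62 := bf fun t => g147 u61 w6916 w6917 t w6919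
    have u63 := bf fun t => g651 t u56
    have u64 := bf fun t => g6392 t u32 u63
    have u65 := bf fun t => g6647 t u14 u64
    have u66 := bf fun t => g6650 t u65
    have u67 := bt fun t => g6652 g6655 t u66
    have u68 := bt fun t => g6641 u67 t u62
    have u69 := bt fun t => s6922 u68 t
    have u70 := bf fun t => g168 u61 w6917 u62 g6632 t u69
    have u71 := bt fun t => s7089 u61 t u14
    have u72 := bf fun t => g4 u71 t
    have u73 := bf fun t => g6667 t u64 u14
    have u74 := bf fun t => g6670 t u73
    have u75 := bf fun t => g6673 g6675 t u74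
    have u76 := bf fun t => s6925 u75 t
    have u77 := bf fun t => g6659 u76 u72 t
    have u78 := bt fun t => g134 u61 g6631 w6918 t u77
    have u79 := bf fun t => g33 t u78
    have u80 := bf fun t => g2081 u60 u70 u79 t n3
    have u81 := bf fun t => g6720 t n3
    have u82 := bf fun t => g6727 t u1
    have u83 := bt fun t => g6734 g6737 t u82
    have u84 := bt fun t => g6730 u83 t u81
    have u85 := bf fun t => g6582 u12 t n0
    have u86 := bt fun t => g2640 t u59 n0
    have u87 := bt fun t => g6578 t u47 n0
    have u88 := bt fun t => g1735 t u57 u85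
    have u89 := bt fun t => g2714 u86 n3 u1 n1 t g6634
    have u90 := bf fun t => g1425 u87 g6632 t u1
    have u91 := bt fun t => g1827 u88 g6633 u89 t
    have u92 := bt fun t => g6712 u84 t u90
    have u93 := bf fun t => g6707 u92 t u91
    have u94 := bf fun t => g3911 g6632 u44 u93 n3 t
    have u95 := bf fun t => g1341 u13 w6918 u44 t u94
    have u96 := bf fun t => g6073 u94 t u42 u91 g6634
    have u97 := bf fun t => g2064 u60 u79 u29 u80 u95 t
    have u98 := bt fun t => g1401 u87 g6632 t u1 u96
    have u99 := bt fun t => s7110 n0 u97 u70 u78 u55 u53 u22 u49 u50 u14 n1 u47 u59 t n3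
    exact g4451 u99 u98 g6633 u91
  have s7114 : T.X p b d e = false → T.alt p r c b d = false → T.X p d b c = false → False := fun n0 n1 n2 => by
    have u0 := bf fun t => s7098 t n2
    have u1 := bf fun t => g6689 t n2
    have u2 := bf fun t => s7108 t n2
    have u3 := bf fun t => g6696 t u2
    have u4 := bt fun t => g6703 g6706 t u3
    have u5 := bt fun t => g6699 u4 t u1
    have u6 := bt fun t => g6681 u5 t w7069
    have u7 := bf fun t => s7070 u6 t
    have u8 := bf fun t => g6552 t u0 u7
    have u9 := bt fun t => g1192 u8 n1 t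
    have u10 := bf fun t => s7112 t u9 n2
    have u11 := bf fun t => g6402 u10 t n1
    have u12 := bt fun t => s6972 u6 t
    have u13 := bt fun t => g6891 t u12 w7069
    have u14 := bt fun t => g6909 w7033 u13 t
    have u15 := bt fun t => g6899 u14 t
    have u16 := bf fun t => s7111 u11 t n1 n2
    have u17 := bf fun t => g6894 u15 t u16
    have u18 := bt fun t => g6896 u15 u17 t
    have u19 := bt fun t => g6416 u18 u11 t
    have u20 := bt fun t => g6398 t u18 u8
    have u21 := bf fun t => g147 u20 w6916 w6917 t w6919
    have u22 := bt fun t => g6405 u17 t u9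
    have u23 := bf fun t => g651 t u22
    have u24 := bf fun t => g288 t u18
    have u25 := bf fun t => g6392 t u24 u23
    have u26 := bf fun t => g6647 t u10 u25
    have u27 := bf fun t => g6650 t u26
    have u28 := bt fun t => g6652 g6655 t u27
    have u29 := bt fun t => g6641 u28 t u21
    have u30 := bt fun t => s6922 u29 t
    have u31 := bf fun t => g168 u20 w6917 u21 g6632 t u30
    have u32 := bt fun t => s7089 u20 t u10
    have u33 := bf fun t => g4 u32 t
    have u34 := bf fun t => g6667 t u25 u10
    have u35 := bf fun t => g6670 t u34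
    have u36 := bf fun t => g6673 g6675 t u35
    have u37 := bf fun t => s6925 u36 t
    have u38 := bf fun t => g6659 u37 u33 t
    have u39 := bt fun t => g134 u20 g6631 w6918 t u38
    have u40 := bf fun t => g33 t u39
    have u41 := bf fun t => g2081 u19 u31 u40 t n2
    have u42 := bf fun t => g328 u18 w6916 w6917 t u16
    have u43 := bt fun t => g6476 u18 t u7
    have u44 := bf fun t => g509 u43 w6916 w6917 t w7069
    have u45 := bf fun t => g6865 t u17 u24
    have u46 := bf fun t => g6868 t u45
    have u47 := bf fun t => g471 u43 t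
    have u48 := bf fun t => g469 t u43
    have u49 := bf fun t => g6872 t u47 u48
    have u50 := bf fun t => g6875 t u49
    have u51 := bf fun t => g6882 g6884 t u50
    have u52 := bf fun t => g6878 u51 t u46
    have u53 := bf fun t => g6860 u52 t u44
    have u54 := bf fun t => g6857 u53 u42 t
    have u55 := bt fun t => g6902 t u47 u43
    have u56 := bf fun t => g6904 w7034 t u55
    have u57 := bf fun t => g6489 u17 u47 t
    have u58 := bf fun t => g6409 u10 u17 t
    have u59 := bt fun t => g6886 u12 u16 t
    have u60 := bf fun t => g86 u59 t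
    have u61 := bt fun t => g6898 u14 t
    have u62 := bf fun t => g35 t u61
    have u63 := bf fun t => g4202 t w7069 w6921 n0 u59
    have u64 := bf fun t => g4256 u16 t w6920 n0 u59
    have u65 := bf fun t => g2418 t u61 u56 n0 g6635
    have u66 := bt fun t => g496 u43 g6631 u64 u56 t
    have u67 := bt fun t => g6496 u43 t u65
    have u68 := bt fun t => g2278 u57 t u65
    have u69 := bf fun t => g69 t u66
    have u70 := bf fun t => g5752 t u66 u54 u60 g6635
    have u71 := bt fun t => g6482 u17 u67 t
    have u72 := bt fun t => g1036 u67 u42 g6633 t u54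
    have u73 := bf fun t => g5742 u70 u69 u54 u59 t
    have u74 := bf fun t => g312 u18 w6917 t u62 u70
    have u75 := bf fun t => g1568 u71 u74 u63 w6921 t
    have u76 := bf fun t => g46 u72 t
    have u77 := bf fun t => g2298 u68 t u76 u75 u73
    have u78 := bt fun t => s7113 t n0 n1 n2
    have u79 := bf fun t => g2642 t u78
    have u80 := bf fun t => g2781 u78 n2 n0 t g6634
    have u81 := bt fun t => g6621 u58 t u78
    have u82 := bt fun t => g6608 u19 t u79
    have u83 := bt fun t => g2256 u82 u39 u77 u56 t
    have u84 := bf fun t => g2262 u82 u31 u40 t u2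
    have u85 := bf fun t => g5106 u41 u83 u76 u80 t
    exact g2602 u81 u84 u72 u80 u85
  have s7115 : T.alt p r c b d = false → T.X p d b c = false → False := fun n0 n1 => by
    have u0 := bf fun t => s7098 t n1
    have u1 := bf fun t => g6689 t n1
    have u2 := bf fun t => s7108 t n1
    have u3 := bf fun t => g6696 t u2
    have u4 := bt fun t => g6703 g6706 t u3
    have u5 := bt fun t => g6699 u4 t u1
    have u6 := bt fun t => g6681 u5 t w7069
    have u7 := bf fun t => s7070 u6 t
    have u8 := bf fun t => g6552 t u0 u7
    have u9 := bt fun t => s6972 u6 t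
    have u10 := bt fun t => g1192 u8 n0 t
    have u11 := bf fun t => s7112 t u10 n1
    have u12 := bf fun t => g6402 u11 t n0
    have u13 := bf fun t => s7111 u12 t n0 n1
    have u14 := bt fun t => g6886 u9 u13 t
    have u15 := bt fun t => s7114 t n0 n1
    have u16 := bf fun t => g1734 t u13 w7069 g6633 u15 u14
    have u17 := bf fun t => g1616 t u13 w7069 g6633 u15 u14
    exact g1554 u7 u17 u16
  have s7116 : T.X p b d e = true → T.X p d b c = false → False := fun n0 n1 => by
    have u0 := bf fun t => g6689 t n1
    have u1 := bf fun t => s7108 t n1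
    have u2 := bf fun t => g6696 t u1
    have u3 := bt fun t => g6703 g6706 t u2
    have u4 := bt fun t => g6699 u3 t u0
    have u5 := bt fun t => g6681 u4 t w7069
    have u6 := bt fun t => s6972 u5 t
    have u7 := bt fun t => s7115 t n1
    have u8 := bf fun t => g1244 u7 g6632 t n1
    have u9 := bf fun t => g1233 u7 w6918 w6919 t u8
    have u10 := bt fun t => g6886 u6 u9 t
    have u11 := bf fun t => s7070 u5 t
    have u12 := bf fun t => g1734 t u9 w7069 g6633 n0 u10
    have u13 := bf fun t => g1616 t u9 w7069 g6633 n0 u10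
    exact g1554 u11 u13 u12
  have s7117 : T.X p d b c = false → False := fun n0 => by
    have u0 := bf fun t => g6689 t n0
    have u1 := bf fun t => s7108 t n0
    have u2 := bf fun t => g6696 t u1
    have u3 := bt fun t => g6703 g6706 t u2
    have u4 := bt fun t => g6699 u3 t u0
    have u5 := bt fun t => g6681 u4 t w7069
    have u6 := bt fun t => s6972 u5 t
    have u7 := bf fun t => s7070 u5 t
    have u8 := bt fun t => g6891 t u6 w7069
    have u9 := bt fun t => g6909 w7033 u8 t
    have u10 := bt fun t => g6898 u9 t
    have u11 := bt fun t => g6899 u9 t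
    have u12 := bf fun t => g35 t u10
    have u13 := bt fun t => s7115 t n0
    have u14 := bf fun t => g1195 u13 t
    have u15 := bf fun t => g1244 u13 g6632 t n0
    have u16 := bf fun t => g1233 u13 w6918 w6919 t u15
    have u17 := bt fun t => g6886 u6 u16 t
    have u18 := bf fun t => g6894 u11 t u16
    have u19 := bf fun t => g86 u17 t
    have u20 := bf fun t => g6406 u18 t u14
    have u21 := bt fun t => g6896 u11 u18 t
    have u22 := bf fun t => g288 t u21
    have u23 := bt fun t => g6476 u21 t u7
    have u24 := bf fun t => g328 u21 w6916 w6917 t u16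
    have u25 := bt fun t => g6426 u22 u13 t
    have u26 := bf fun t => g6865 t u18 u22
    have u27 := bf fun t => g469 t u23
    have u28 := bf fun t => g471 u23 t
    have u29 := bt fun t => g6902 t u28 u23
    have u30 := bf fun t => g509 u23 w6916 w6917 t w7069
    have u31 := bf fun t => g6868 t u26
    have u32 := bf fun t => g6872 t u28 u27
    have u33 := bf fun t => g6904 w7034 t u29
    have u34 := bf fun t => g6875 t u32
    have u35 := bf fun t => g6882 g6884 t u34
    have u36 := bf fun t => g6878 u35 t u31
    have u37 := bf fun t => g6860 u36 t u30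
    have u38 := bf fun t => g6857 u37 u24 t
    have u39 := bf fun t => s7116 t n0
    have u40 := bf fun t => g4256 u16 t w6920 u39 u17
    have u41 := bf fun t => g2418 t u10 u33 u39 g6635
    have u42 := bt fun t => g496 u23 g6631 u40 u33 t
    have u43 := bt fun t => g6496 u23 t u41
    have u44 := bt fun t => g6612 u25 u41 t
    have u45 := bf fun t => g5752 t u42 u38 u19 g6635
    have u46 := bt fun t => g6482 u18 u43 t
    have u47 := bt fun t => g6522 u20 u43 t
    have u48 := bf fun t => g2643 u44 t
    have u49 := bf fun t => g2663 u44 u1 u39 t g6634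
    have u50 := bf fun t => g312 u21 w6917 t u12 u45
    have u51 := bf fun t => s6949 u47 u49 t
    have u52 := bt fun t => g1760 u47 u15 g6633 u49 t
    have u53 := bt fun t => g6578 t u46 u48
    have u54 := bf fun t => g3911 g6632 u50 u15 n0 t
    have u55 := bt fun t => g1401 u53 g6632 u51 u1 t
    exact g6073 u54 u55 u19 u52 g6634
  have w7117 := bt s7117
  have s7118 := fun (n0 : T.X p b c d = true) => g50 n0 w7117
  have w7118 := bf s7118
  have s7119 := fun (n0 : T.X p c b d = true) => g51 n0 w7117
  have w7119 := bf s7119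
  have s7120 : T.alt p r c b d = true → T.alt p r e a c = false → T.X p e a b = false → T.alt p r b a d = true → T.alt p r e b d = false → T.X p b d e = false → False := fun n0 n1 n2 n3 n4 n5 => by
    have u0 := bf fun t => g1193 t n0
    have u1 := bt fun t => g6572 n0 n4 t
    have u2 := bt fun t => g6398 t n3 u0
    have u3 := bt fun t => g2667 u1 w7117 t n5 g6634
    have u4 := bf fun t => g109 u2 t
    have u5 := bt fun t => s7089 u2 t u4
    exact s7085 u2 n2 n1 u5 u4 u3
  have s7121 : T.X p d r b = false → T.alt p r d b e = true → T.X p b d e = false → False := fun n0 n1 n2 => by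
    have u0 := bf fun t => g1555 t n1
    have u1 := bt fun t => s6933 u0 n2 t w7069
    have u2 := bt fun t => g6891 t u1 w7069
    have u3 := bt fun t => g6909 w7033 u2 t
    have u4 := bt fun t => g6898 u3 t
    have u5 := bf fun t => g35 t u4
    have u6 := bt fun t => g6899 u3 t
    have u7 := bf fun t => g1557 n1 t
    have u8 := bf fun t => g6782 t n2
    have u9 := bf fun t => g6751 t n2
    have u10 := bt fun t => g6886 u1 n0 t
    have u11 := bf fun t => g6894 u6 t n0
    have u12 := bf fun t => g86 u10 t
    have u13 := bf fun t => g4202 t w7069 w6921 n2 u10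
    have u14 := bf fun t => g4256 n0 t w6920 n2 u10
    have u15 := bt fun t => g6896 u6 u11 t
    have u16 := bt fun t => g6481 u11 t n1
    have u17 := bt fun t => g6476 u15 t u0
    have u18 := bf fun t => g1014 u16 t
    have u19 := bf fun t => g471 u17 t
    have u20 := bt fun t => g6902 t u19 u17
    have u21 := bt fun t => g6492 u15 u18 t
    have u22 := bf fun t => g6904 w7034 t u20
    have u23 := bt fun t => g2305 u21 u4 u22 t g6635
    have u24 := bf fun t => g4899 u5 u22 u23 t g6635
    have u25 := bf fun t => g1582 n1 t w6920 u24 u12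
    have u26 := bf fun t => g3905 g6632 u25 u13 n0 w7117 t
    have u27 := bf fun t => g1356 t g6632 u25 n0 w7117
    have u28 := bf fun t => g6739 t u13 u26
    have u29 := bf fun t => g3921 w6919 n0 t w7117 u26
    have u30 := bt fun t => g6562 u27 n1 t
    have u31 := bf fun t => g6743 t u28 u29
    have u32 := bf fun t => g1736 t u30
    have u33 := bf fun t => g1738 u30 t
    have u34 := bt fun t => g6755 t u32 u30
    have u35 := bf fun t => g6761 t u31 u9
    have u36 := bf fun t => g6787 t u32 u33
    have u37 := bf fun t => g6524 t u18 u33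
    have u38 := bf fun t => g6767 g6768 u35 t
    have u39 := bf fun t => g6790 t u36
    have u40 := bf fun t => g6757 u38 t u34
    have u41 := bf fun t => g6797 g6799 t u39
    have u42 := bf fun t => s6949 u30 u40 t
    have u43 := bf fun t => g6793 u41 t u8
    have u44 := bf fun t => g6775 u43 t u42
    have u45 := bf fun t => g6772 u44 u14 t
    have u46 := bf fun t => s7120 t u37 u22 u15 u7 n2
    have u47 := bt fun t => g1192 t u46 u27
    have u48 := bt fun t => g6552 u47 t u0
    have u49 := bf fun t => g6395 t u15 u47
    have u50 := bt fun t => g1460 u48 g6632 u14 t u45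
    have u51 := bf fun t => s7083 t u46 u32 u50 u48
    have u52 := bf fun t => g6400 t u51 u46
    have u53 := bf fun t => g6518 u51 t u32
    exact s7095 u49 u52 u53 u50 u48
  have s7122 : T.X p e a b = false → T.X p c a d = true → T.X p d a c = false → T.alt p r b a d = false → T.alt p r b a c = true → T.alt p r c a b = false → T.X p c d e = false → T.X p e b c = true → T.alt p r d c e = true → T.X p d a b = true → False := fun n0 n1 n2 n3 n4 n5 n6 n7 n8 n9 => by
    have u0 := bt fun t => s7089 n4 t n5
    have u1 := bf fun t => g1738 n8 t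
    have u2 := bt fun t => s7085 n4 n0 t u0 n5 n7
    have u3 := bf fun t => g832 t u2
    have u4 := bt fun t => g6524 u2 t u1
    have u5 := bt fun t => g6546 u3 n8 t
    have u6 := bt fun t => g6494 n3 u4 t
    have u7 := bt fun t => g2305 u6 n9 n0 t g6635
    have u8 := bt fun t => g2484 u5 n2 u7 n6 t
    have u9 := bf fun t => g100 u8 t
    have u10 := bt fun t => g5087 n1 t u7 n6 u9
    exact g2493 u5 n1 u10 u9
  have s7123 : T.alt p r b c d = true → T.alt p r c b d = false → v162 = true → T.X p b r e = false → T.X p e b d = false → T.bfo p b a d r = true → T.X p d a b = true → T.alt p r d b e = true → False := fun n0 n1 n2 n3 n4 n5 n6 n7 => by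
    have u0 := bf fun t => g1555 t n7
    have u1 := bf fun t => g1194 n0 t
    have u2 := bt fun t => g6552 n0 t u0
    have u3 := bt fun t => g6686 t u1 n0
    have u4 := bt fun t => g6562 u1 n7 t
    have u5 := bf fun t => g1375 u2 t
    have u6 := bt fun t => g6688 t w7117 u3
    have u7 := bf fun t => g1736 t u4
    have u8 := bf fun t => g6698 t n2 u6
    have u9 := bt fun t => g6703 g6706 u8 t
    have u10 := bt fun t => g6696 u9 t
    have u11 := bf fun t => g5223 w7119 u10 n4 t g6634
    have u12 := bf fun t => s7083 t n1 u7 u10 u2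
    have u13 := bf fun t => s6949 u4 u11 t
    have u14 := bf fun t => g6400 t u12 n1
    have u15 := bf fun t => g6518 u12 t u7
    have u16 := bf fun t => g1488 u2 g6632 n3 u13 u10 t
    have u17 := bt fun t => s7095 t u14 u15 u10 u2
    have u18 := bf fun t => g107 t u17
    have u19 := bf fun t => g147 u17 w6916 w6917 t w6919
    have u20 := bf fun t => g6395 u17 t n0
    have u21 := bt fun t => s7089 u17 t u14
    have u22 := bf fun t => g6667 t u18 u14
    have u23 := bf fun t => g6647 t u14 u18
    have u24 := bt fun t => g6896 n5 t u20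
    have u25 := bf fun t => g4 u21 t
    have u26 := bf fun t => g6670 t u22
    have u27 := bf fun t => g6650 t u23
    have u28 := bt fun t => g6410 u14 u24 t
    have u29 := bf fun t => g6673 g6675 t u26
    have u30 := bt fun t => g6652 g6655 t u27
    have u31 := bf fun t => s6925 u29 t
    have u32 := bt fun t => g6641 u30 t u19
    have u33 := bf fun t => g6659 u31 u25 t
    have u34 := bt fun t => s6922 u32 t
    have u35 := bt fun t => g134 u17 g6631 w6918 t u33
    have u36 := bf fun t => g168 u17 w6917 u19 g6632 t u34
    have u37 := bt fun t => g2007 u28 u35 n6 t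
    have u38 := bf fun t => g92 u37 t
    have u39 := bf fun t => g4627 u35 t w7117 u37
    have u40 := bt fun t => g2006 u28 u36 t w7117 u38
    have u41 := bt fun t => s7122 t u40 u39 u20 u17 u14 u11 u10 u4 n6
    have u42 := bf fun t => g39 t u41
    have u43 := bf fun t => g2369 t n6 u41 g6635
    have u44 := bt fun t => g6488 u24 t u43
    have u45 := bt fun t => g6592 u28 t u43
    have u46 := bt fun t => g6444 u44 t u5
    have u47 := bt fun t => g619 u44 g6631 u41 t
    have u48 := bt fun t => g2188 u45 u35 u41 t
    have u49 := bf fun t => g69 t u47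
    have u50 := bf fun t => g95 u48 t
    have u51 := bf fun t => g614 u44 t w7069 u42 u49
    have u52 := bt fun t => g2187 u45 u36 t u10 u50
    have u53 := bf fun t => g5587 u33 u47 t u16 u50
    exact g979 u46 u25 u51 u52 u53
  have s7124 : T.alt p r d b c = true → v162 = true → T.X p e b d = false → T.X p d r b = true → v180 = false → False := fun n0 n1 n2 n3 n4 => by
    have u0 := bf fun t => g18 t n3
    have u1 := bt fun t => g1343 n0 g6632 w7117 t
    have u2 := bf fun t => g1358 n0 w6919 n3 t
    have u3 := bt fun t => g6684 t n0 n3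
    have u4 := bt fun t => g6741 t u0 u1
    have u5 := bt fun t => g6688 t w7117 u3
    have u6 := bt fun t => g6744 t u4 u2
    have u7 := bf fun t => g6698 t n1 u5
    have u8 := bt fun t => g6762 t u6 n4
    have u9 := bt fun t => g6703 g6706 u7 t
    have u10 := bt fun t => g6766 g6768 u8 t
    have u11 := bt fun t => g6696 u9 t
    have u12 := bt fun t => g6758 u10 t
    exact g5223 w7119 u11 n2 u12 g6634
  have s7125 : T.alt p r c b d = false → T.alt p r d b c = false → v162 = true → T.X p b r e = false → T.X p e b d = false → T.bfo p b a d r = true → T.X p d a b = true → T.alt p r d b e = true → False := fun n0 n1 n2 n3 n4 n5 n6 n7 => by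
    have u0 := bf fun t => s7123 t n0 n2 n3 n4 n5 n6 n7
    exact g1192 u0 n0 n1
  have s7126 : T.alt p r c a b = false → T.alt p r d b e = true → T.X p b d e = false → False := fun n0 n1 n2 => by
    have u0 := bf fun t => g1557 n1 t
    have u1 := bf fun t => g1555 t n1
    have u2 := bt fun t => s6933 u1 n2 t w7069
    have u3 := bt fun t => g6891 t u2 w7069
    have u4 := bt fun t => g6909 w7033 u3 t
    have u5 := bt fun t => g6898 u4 t
    have u6 := bt fun t => g6899 u4 t
    have u7 := bt fun t => s7121 t n1 n2
    have u8 := bf fun t => g6885 u2 u7 t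
    have u9 := bf fun t => g17 t u7
    have u10 := bf fun t => g4219 u9 w7069 g6633 t u8
    have u11 := bf fun t => g4207 u7 t w6920 n2 u8
    have u12 := bt fun t => g6678 t u7 u8
    have u13 := bt fun t => g6682 t u12 w7069
    have u14 := bf fun t => g6751 t n2
    have u15 := bf fun t => s7124 t u13 u10 u7 u14
    have u16 := bt fun t => s7125 t u15 u13 u11 u10 u6 u5 n1
    have u17 := bt fun t => g6572 u16 u0 t
    have u18 := bt fun t => g2667 u17 w7117 t n2 g6634
    have u19 := bt fun t => g6562 u15 n1 t
    have u20 := bf fun t => g1738 u19 t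
    have u21 := bf fun t => g1193 t u16
    have u22 := bf fun t => g6581 u21 u20 t
    have u23 := bt fun t => g6401 n0 t u16
    have u24 := bt fun t => s7107 t n0 u21 u1 u22 n2 u18
    have u25 := bf fun t => g652 u23 t
    exact g6404 u24 u25 u15
  have s7127 : T.alt p r d b e = true → T.X p b d e = false → False := fun n0 n1 => by
    have u0 := bf fun t => g6751 t n1
    have u1 := bf fun t => g1555 t n0
    have u2 := bt fun t => s6933 u1 n1 t w7069
    have u3 := bt fun t => g6891 t u2 w7069
    have u4 := bt fun t => g6909 w7033 u3 t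
    have u5 := bt fun t => g6898 u4 t
    have u6 := bt fun t => g6899 u4 t
    have u7 := bf fun t => g36 t u5
    have u8 := bt fun t => s7121 t n0 n1
    have u9 := bf fun t => g17 t u8
    have u10 := bf fun t => g6885 u2 u8 t
    have u11 := bf fun t => g4219 u9 w7069 g6633 t u10
    have u12 := bt fun t => g6678 t u8 u10
    have u13 := bf fun t => g4207 u8 t w6920 n1 u10
    have u14 := bt fun t => g6682 t u12 w7069
    have u15 := bf fun t => s7124 t u14 u11 u8 u0
    have u16 := bt fun t => s7125 t u15 u14 u13 u11 u6 u5 n0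
    have u17 := bf fun t => g1193 t u16
    have u18 := bt fun t => s7126 t n0 n1
    have u19 := bf fun t => g108 t u18
    have u20 := bf fun t => g109 t u18
    have u21 := bf fun t => s7001 u18 t
    have u22 := bf fun t => s6996 u19 t u20
    have u23 := bf fun t => g6398 u20 t u17
    have u24 := bt fun t => g6896 u6 t u23
    have u25 := bf fun t => g289 t u24
    have u26 := bt fun t => g6426 u25 u16 t
    have u27 := bf fun t => g1927 u26 u21 u5 t
    exact g1947 u26 u22 u7 w7117 u27
  have s7128 : T.alt p r b d e = false → T.alt p r d a b = true → T.X p b d e = false → False := fun n0 n1 n2 => by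
    have u0 := bf fun t => s7127 t n2
    have u1 := bt fun t => s6933 n0 n2 t w7069
    have u2 := bt fun t => g1554 n0 u0 t
    have u3 := bt fun t => g6891 t u1 w7069
    have u4 := bt fun t => g1697 u2 w7069 g6633 n2 t
    have u5 := bt fun t => g6909 w7033 u3 t
    have u6 := bf fun t => g6885 u1 t u4
    have u7 := bt fun t => g6899 u5 t
    exact g6894 u7 n1 u6
  have s7129 : T.alt p r d a b = true → T.alt p r c b d = true → T.X p b d e = false → False := fun n0 n1 n2 => by
    have u0 := bf fun t => g1195 n1 t
    have u1 := bf fun t => g1193 t n1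
    have u2 := bt fun t => s7128 t n0 n2
    have u3 := bf fun t => g1556 u2 t
    have u4 := bf fun t => s7073 n0 n1 u0 t u2 u1
    have u5 := bt fun t => g6572 n1 u3 t
    exact g2667 u5 w7117 u4 n2 g6634
  have s7130 : T.alt p r c a b = true → T.alt p r c b d = true → T.X p b d e = false → False := fun n0 n1 n2 => by
    have u0 := bf fun t => s7129 t n1 n2
    have u1 := bf fun t => g1193 t n1
    have u2 := bf fun t => g108 t n0
    have u3 := bf fun t => g109 t n0
    have u4 := bf fun t => g6398 u3 t u1
    have u5 := bf fun t => g6896 t u0 u4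
    have u6 := bt fun t => s7049 u2 w7117 u3 t u0
    have u7 := bf fun t => g6899 t u5
    have u8 := bf fun t => s7072 u0 u6 n2 t
    have u9 := bf fun t => g6909 w7033 t u7
    have u10 := bt fun t => s6933 u8 n2 t w7069
    exact g6891 u9 u10 w7069
  have s7131 : T.alt p r b d e = false → T.alt p r d a b = false → T.X p b d e = false → False := fun n0 n1 n2 => by
    have u0 := bf fun t => s7127 t n2
    have u1 := bt fun t => s6933 n0 n2 t w7069
    have u2 := bt fun t => g1554 n0 u0 t
    have u3 := bt fun t => g6891 t u1 w7069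
    have u4 := bt fun t => g6909 w7033 u3 t
    have u5 := bt fun t => g6898 u4 t
    have u6 := bt fun t => g6899 u4 t
    have u7 := bt fun t => g6896 u6 n1 t
    have u8 := bf fun t => g288 t u7
    have u9 := bt fun t => g6476 u7 t n0
    have u10 := bt fun t => g6502 u8 u2 t
    have u11 := bf fun t => g471 u9 t
    have u12 := bt fun t => g6902 t u11 u9
    have u13 := bt fun t => g2418 u10 u5 t n2 g6635
    exact g6904 w7034 u13 u12
  have s7132 : T.alt p r c b d = true → T.X p b d e = false → False := fun n0 n1 => by
    have u0 := bf fun t => g1193 t n0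
    have u1 := bf fun t => g1195 n0 t
    have u2 := bf fun t => s7129 t n0 n1
    have u3 := bf fun t => s7130 t n0 n1
    have u4 := bt fun t => s7131 t u2 n1
    have u5 := bf fun t => g1556 u4 t
    have u6 := bt fun t => g6553 u0 t u4
    have u7 := bf fun t => s7072 u2 t n1 u4
    have u8 := bt fun t => g6572 n0 u5 t
    have u9 := bf fun t => g1374 u6 t
    have u10 := bt fun t => g2667 u8 w7117 t n1 g6634
    have u11 := bf fun t => g6442 u3 t u9
    have u12 := bt fun t => s7095 t u3 u11 u10 u6
    have u13 := bf fun t => g107 t u12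
    have u14 := bt fun t => s7089 u12 t u3
    have u15 := bf fun t => g6667 t u13 u3
    have u16 := bf fun t => g6421 u13 u1 t
    have u17 := bf fun t => g4 u14 t
    have u18 := bf fun t => g6670 t u15
    have u19 := bf fun t => s7002 t u16 w7117 u2 u7
    have u20 := bf fun t => g6673 g6675 t u18
    have u21 := bt fun t => g134 u12 g6631 w6918 u19 t
    have u22 := bf fun t => s6925 u20 t
    exact g6659 u22 u17 u21
  have s7133 : T.alt p r b c d = false → T.alt p r b d e = true → T.X p b d e = false → False := fun n0 n1 n2 => by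
    have u0 := bf fun t => s7070 t n1
    have u1 := bf fun t => g6681 t u0 w7069
    have u2 := bf fun t => s7132 t n2
    have u3 := bf fun t => g6751 t n2
    have u4 := bt fun t => g1192 n0 u2 t
    have u5 := bt fun t => g6553 n0 t n1
    have u6 := bt fun t => g1343 u4 g6632 w7117 t
    have u7 := bf fun t => g1375 u5 t
    have u8 := bt fun t => g6568 u4 u7 t
    have u9 := bf fun t => g2731 u8 w7117 t g6634
    have u10 := bf fun t => g2734 u8 w7117 t g6634
    have u11 := bf fun t => g6696 t u9
    have u12 := bf fun t => g6758 t u10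
    have u13 := bt fun t => g6703 g6706 t u11
    have u14 := bf fun t => g6766 g6768 t u12
    have u15 := bt fun t => g6699 u13 u1 t
    have u16 := bf fun t => g6762 u14 t u3
    have u17 := bt fun t => g6690 u15 t
    have u18 := bt fun t => g6685 u17 u4 t
    have u19 := bf fun t => g18 t u18
    have u20 := bf fun t => g1358 u4 w6919 u18 t
    have u21 := bt fun t => g6741 t u19 u6
    exact g6744 u16 u21 u20
  have s7134 : T.X p d r b = true → T.X p d a b = false → T.alt p r d a b = false → False := fun n0 n1 n2 => by
    have u0 := bf fun t => g339 t g6631 n0 n1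
    have u1 := bt fun t => g287 t u0 n2
    have u2 := bf fun t => g398 u1 g6631 t n1
    exact g387 u1 w6916 w6917 u2 n0
  have s7135 : T.alt p r b a c = true → T.alt p r d b c = false → T.X p d a b = false → T.alt p r d a b = false → False := fun n0 n1 n2 n3 => by
    have u0 := bf fun t => g107 t n0
    have u1 := bf fun t => g109 n0 t
    have u2 := bt fun t => s7089 n0 t u1
    have u3 := bf fun t => g6667 t u0 u1
    have u4 := bf fun t => g6421 u0 n1 t
    have u5 := bf fun t => g4 u2 t
    have u6 := bf fun t => g6670 t u3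
    have u7 := bf fun t => s7002 t u4 w7117 n3 n2
    have u8 := bf fun t => g6673 g6675 t u6
    have u9 := bt fun t => g134 n0 g6631 w6918 u7 t
    have u10 := bf fun t => s6925 u8 t
    exact g6659 u10 u5 u9
  have s7136 : T.X p c a b = false → T.alt p r a c d = true → T.alt p a d b c = true → T.X p d r a = false → T.alt p r a b c = true → T.alt p a c b d = false → T.X p d a b = false → False := fun n0 n1 n2 n3 n4 n5 n6 => by
    have u0 := bf fun t => g6649 t n0
    have u1 := bf fun t => g217 n4 g6631 t n0
    have u2 := bt fun t => g6652 g6655 t u0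
    have u3 := bt fun t => g6641 u2 t u1
    have u4 := bt fun t => s6922 u3 t
    have u5 := bt fun t => g207 n4 w6917 u1 g6632 t u4
    have u6 := bt fun t => g2080 n2 u5 t n6 w7117
    have u7 := bt fun t => g2067 n2 u5 w7117 t
    have u8 := bf fun t => g2916 g6631 t u5 u4
    have u9 := bf fun t => s6941 t w7118 w7119 n5 u6
    have u10 := bf fun t => g4628 u6 t w7117 u7
    have u11 := bf fun t => g722 n1 u8 u1 n3 t
    exact g4607 u5 u10 u9 u11 w7117 u7
  have s7137 : T.X p c a b = true → T.X p d a b = false → T.alt p a d b c = true → False := fun n0 n1 n2 => by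
    have u0 := bt fun t => s6960 n2 n0 w7117 t n1
    have u1 := bt fun t => g2056 n2 n0 n1 w7118 t
    have u2 := bt fun t => g2069 n2 u0 w7117 t
    exact g92 u1 u2
  have s7138 : T.alt p r a c d = true → T.X p d a b = false → T.alt p a d b c = true → T.X p d r a = false → T.alt p r a b c = true → T.alt p a c b d = false → False := fun n0 n1 n2 n3 n4 n5 => by
    have u0 := bt fun t => s7136 t n0 n2 n3 n4 n5 n1
    exact s7137 u0 n1 n2
  have s7139 : T.alt p r b d e = true → T.alt p r d a b = false → T.X p b d e = false → False := fun n0 n1 n2 => by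
    have u0 := bf fun t => s7072 n1 t n2 n0
    have u1 := bt fun t => s7133 t n0 n2
    have u2 := bf fun t => g1194 u1 t
    have u3 := bf fun t => g6406 n1 t u2
    have u4 := bf fun t => s7134 t u0 n1
    have u5 := bf fun t => s7135 t u2 u0 n1
    have u6 := bt fun t => g6397 u5 t u1
    have u7 := bf fun t => g6413 u5 u3 t
    have u8 := bt fun t => s7049 t w7117 u5 u0 n1
    have u9 := bf fun t => g288 t u6
    have u10 := bf fun t => g328 u6 w6916 w6917 t u4
    have u11 := bt fun t => g6420 u8 u2 t
    have u12 := bt fun t => g6392 u8 u9 t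
    exact s7138 u12 u0 u11 u10 u8 u7
  have s7140 : T.alt p r d a b = false → T.X p b d e = false → False := fun n0 n1 => by
    have u0 := bt fun t => s7131 t n0 n1
    exact s7139 u0 n0 n1
  have s7141 : T.X p c d e = false → T.X p e b c = false → T.X p c a d = true → T.X p a c d = false → T.X p a d e = true → T.alt p a b c d = true → False := fun n0 n1 n2 n3 n4 n5 => by
    have u0 := bf fun t => g47 n4 t
    have u1 := bf fun t => g2780 t w7117 n1 n0 g6634
    have u2 := bt fun t => g6620 n5 t u1
    have u3 := bt fun t => g2621 u2 n3 n4 n0 t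
    exact g2627 u2 n2 u0 u3
  have s7142 : T.X p r c e = false → T.X p a c e = true → T.X p e a c = false → T.alt p r c a e = true → T.X p b d e = false → False := fun n0 n1 n2 n3 n4 => by
    have u0 := bt fun t => s7140 t n4
    have u1 := bf fun t => g290 t u0
    have u2 := bt fun t => s7128 t u0 n4
    have u3 := bt fun t => s7133 t u2 n4
    have u4 := bt fun t => g6397 t u1 u3
    have u5 := bf fun t => g109 u4 t
    have u6 := bt fun t => s7089 u4 t u5
    have u7 := bt fun t => g6477 u1 t u2
    have u8 := bf fun t => g509 u7 w6916 w6917 t w7069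
    have u9 := bf fun t => g3555 u6 u8 n0 n2 t
    exact g853 n3 u8 n0 n1 u9
  have s7143 : T.X p e b c = false → T.X p c a d = true → T.X p a c d = false → T.X p a d e = true → T.X p b d e = false → False := fun n0 n1 n2 n3 n4 => by
    have u0 := bf fun t => g47 n3 t
    have u1 := bt fun t => s7140 t n4
    have u2 := bf fun t => g290 t u1
    have u3 := bt fun t => s7128 t u1 n4
    have u4 := bt fun t => s7133 t u3 n4
    have u5 := bt fun t => g6397 t u2 u4
    have u6 := bf fun t => g109 u5 t
    have u7 := bt fun t => g6410 u6 u1 t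
    have u8 := bf fun t => g1194 u4 t
    have u9 := bt fun t => g6404 u1 t u8
    have u10 := bf fun t => g652 t u9
    have u11 := bf fun t => g6551 u4 t u3
    have u12 := bf fun t => s7127 t n4
    have u13 := bt fun t => g6480 u1 t u12
    have u14 := bf fun t => g1012 t u13
    have u15 := bt fun t => g6510 u14 u3 t
    have u16 := bt fun t => s7141 t n0 n1 n2 n3 u7
    have u17 := bf fun t => g58 u16 t
    have u18 := bf fun t => g2734 t w7117 u16 g6634
    have u19 := bf fun t => g5274 w7117 t n4 u17 g6634
    have u20 := bf fun t => g6570 u8 t u18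
    have u21 := bt fun t => g6588 u3 t u18
    have u22 := bt fun t => g6628 u15 t u18
    have u23 := bt fun t => g1373 u11 t u20
    have u24 := bt fun t => g6517 u10 t u21
    have u25 := bt fun t => g2551 u22 n3 u16 t
    have u26 := bf fun t => g2566 u22 n1 t u0
    have u27 := bf fun t => g100 u25 t
    have u28 := bt fun t => g2545 u22 n1 t u0 u27
    have u29 := bt fun t => s7142 t u28 u26 u24 n4
    have u30 := bf fun t => g25 u29 t
    have u31 := bt fun t => g1398 u23 w6919 u29 u19 t
    have u32 := bt fun t => g1401 u23 g6632 u30 n0 t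
    exact g83 u31 u32
  have s7144 : T.X p e b c = true → T.X p b d e = false → False := fun n0 n1 => by
    have u0 := bt fun t => s7140 t n1
    have u1 := bf fun t => g290 t u0
    have u2 := bt fun t => s7128 t u0 n1
    have u3 := bt fun t => s7133 t u2 n1
    have u4 := bt fun t => g6397 t u1 u3
    have u5 := bf fun t => g109 u4 t
    have u6 := bt fun t => s7089 u4 t u5
    have u7 := bt fun t => g6477 u1 t u2
    have u8 := bf fun t => g471 u7 t
    have u9 := bf fun t => s7084 t u8 n1 u2
    have u10 := bf fun t => g1194 u3 t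
    have u11 := bf fun t => g2731 t w7117 n0 g6634
    have u12 := bt fun t => s7085 u4 u9 t u6 u5 n0
    have u13 := bf fun t => g6570 u10 t u11
    exact g6446 u8 u12 u13
  have s7145 : T.alt p r e b c = false → T.X p a c d = false → T.X p a d e = true → T.X p b d e = false → False := fun n0 n1 n2 n3 => by
    have u0 := bf fun t => s7144 t n3
    have u1 := bf fun t => s7143 u0 t n1 n2 n3
    have u2 := bt fun t => s7140 t n3
    have u3 := bt fun t => s7128 t u2 n3
    have u4 := bt fun t => s7133 t u3 n3
    have u5 := bf fun t => g1194 u4 t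
    have u6 := bf fun t => s7127 t n3
    have u7 := bt fun t => g6480 u2 t u6
    have u8 := bf fun t => g1012 t u7
    have u9 := bt fun t => g6510 u8 u3 t
    have u10 := bf fun t => g1556 u3 t
    have u11 := bf fun t => g6565 n0 u10 t
    have u12 := bf fun t => g6569 u5 n0 t
    have u13 := bt fun t => g6580 u4 u11 t
    have u14 := bt fun t => g6628 u9 t u12
    have u15 := bt fun t => g2780 u13 w7117 u0 t g6634
    exact g2564 u14 n1 u1 n2 u15
  have s7146 : T.X a d b c = true → T.X p d a b = false → T.X p b d e = false → False := fun n0 n1 n2 => by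
    have u0 := bt fun t => s7140 t n2
    have u1 := bt fun t => s7128 t u0 n2
    have u2 := bf fun t => s7127 t n2
    have u3 := bt fun t => g6480 u0 t u2
    have u4 := bf fun t => g1012 t u3
    have u5 := bt fun t => g6510 u4 u1 t
    have u6 := bf fun t => g290 t u0
    have u7 := bt fun t => g6477 u6 t u1
    have u8 := bf fun t => g471 u7 t
    have u9 := bf fun t => s7084 t u8 n2 u1
    have u10 := bt fun t => g2352 u5 n1 u9 t n2 g6635
    have u11 := bf fun t => s7144 t n2
    have u12 := bt fun t => s7133 t u1 n2
    have u13 := bt fun t => g6397 t u6 u12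
    have u14 := bf fun t => g109 u13 t
    have u15 := bt fun t => s7089 u13 t u14
    have u16 := bf fun t => g4 u15 t
    have u17 := bf fun t => g107 t u13
    have u18 := bf fun t => g6667 t u17 u14
    have u19 := bf fun t => g6670 t u18
    have u20 := bf fun t => g6673 g6675 t u19
    have u21 := bf fun t => s6925 u20 t
    have u22 := bf fun t => g6659 u21 u16 t
    have u23 := bt fun t => g134 u13 g6631 w6918 t u22
    have u24 := bf fun t => g33 t u23
    have u25 := bf fun t => g147 u13 w6916 w6917 t w6919
    have u26 := bf fun t => g6647 t u14 u17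
    have u27 := bf fun t => g6650 t u26
    have u28 := bt fun t => g6652 g6655 t u27
    have u29 := bt fun t => g6641 u28 t u25
    have u30 := bt fun t => s6922 u29 t
    have u31 := bf fun t => g168 u13 w6917 u25 g6632 t u30
    have u32 := bf fun t => g1194 u12 t
    have u33 := bt fun t => g6404 u0 t u32
    have u34 := bf fun t => g651 t u33
    have u35 := bf fun t => g1556 u1 t
    have u36 := bf fun t => g92 t n0
    have u37 := bf fun t => g4559 u31 n1 t w7117 u36
    have u38 := bt fun t => s7145 t u37 u10 n2
    have u39 := bt fun t => g6564 u38 u35 t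
    have u40 := bt fun t => g6570 u32 u38 t
    have u41 := bt fun t => g6462 u17 u38 t
    have u42 := bt fun t => g6542 u34 u39 t
    have u43 := bf fun t => g2734 u40 w7117 t g6634
    have u44 := bf fun t => g2262 u41 u31 u24 t u11
    have u45 := bt fun t => g2621 u42 u37 u10 u43 t
    have u46 := bt fun t => g2602 u42 u44 u10 u43 t
    have u47 := bf fun t => g60 t u45
    have u48 := bf fun t => g100 u46 t
    have u49 := bf fun t => g2743 u40 t n2 u43 u47
    have u50 := bf fun t => g6294 n0 t g6635 u48 g6634
    exact g2237 u41 u23 u9 u49 u50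
  have s7147 : T.X p d a b = false → T.X p b d e = false → False := fun n0 n1 => by
    have u0 := bf fun t => s7144 t n1
    have u1 := bt fun t => s7140 t n1
    have u2 := bf fun t => g290 t u1
    have u3 := bt fun t => s7128 t u1 n1
    have u4 := bt fun t => s7133 t u3 n1
    have u5 := bt fun t => g6397 t u2 u4
    have u6 := bf fun t => g109 u5 t
    have u7 := bt fun t => s7089 u5 t u6
    have u8 := bf fun t => g4 u7 t
    have u9 := bf fun t => g107 t u5
    have u10 := bf fun t => g6667 t u9 u6
    have u11 := bf fun t => g6670 t u10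
    have u12 := bf fun t => g6673 g6675 t u11
    have u13 := bf fun t => s6925 u12 t
    have u14 := bf fun t => g6659 u13 u8 t
    have u15 := bt fun t => g134 u5 g6631 w6918 t u14
    have u16 := bt fun t => g6477 u2 t u3
    have u17 := bf fun t => g471 u16 t
    have u18 := bf fun t => s7084 t u17 n1 u3
    have u19 := bf fun t => s7127 t n1
    have u20 := bt fun t => g6480 u1 t u19
    have u21 := bf fun t => g1012 t u20
    have u22 := bt fun t => g6510 u21 u3 t
    have u23 := bt fun t => g2352 u22 n0 u18 t n1 g6635
    have u24 := bf fun t => s7146 t n0 n1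
    have u25 := bt fun t => g4555 u15 n0 t w7117 u24
    have u26 := bf fun t => g40 t u25
    exact s7143 u0 u25 u26 u23 n1
  have s7148 : T.X p b d e = false → False := fun n0 => by
    have u0 := bt fun t => s7140 t n0
    have u1 := bf fun t => g290 t u0
    have u2 := bt fun t => s7128 t u0 n0
    have u3 := bf fun t => s7021 u2 n0 t
    have u4 := bt fun t => s7133 t u2 n0
    have u5 := bf fun t => g6910 w7033 u3 t
    have u6 := bf fun t => g1194 u4 t
    have u7 := bt fun t => g6397 t u1 u4
    have u8 := bt fun t => g6404 u0 t u6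
    have u9 := bf fun t => g107 t u7
    have u10 := bf fun t => g109 u7 t
    have u11 := bf fun t => g147 u7 w6916 w6917 t w6919
    have u12 := bt fun t => s7089 u7 t u10
    have u13 := bf fun t => g6667 t u9 u10
    have u14 := bf fun t => g6647 t u10 u9
    have u15 := bt fun t => g6410 u10 u0 t
    have u16 := bf fun t => g4 u12 t
    have u17 := bf fun t => g6670 t u13
    have u18 := bf fun t => g6650 t u14
    have u19 := bf fun t => g6673 g6675 t u17
    have u20 := bt fun t => g6652 g6655 t u18
    have u21 := bf fun t => s6925 u19 t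
    have u22 := bt fun t => g6641 u20 t u11
    have u23 := bf fun t => g6659 u21 u16 t
    have u24 := bt fun t => s6922 u22 t
    have u25 := bt fun t => g134 u7 g6631 w6918 t u23
    have u26 := bf fun t => g168 u7 w6917 u11 g6632 t u24
    have u27 := bt fun t => s7147 t n0
    have u28 := bf fun t => g36 t u27
    have u29 := bf fun t => g6897 u5 u27 t
    have u30 := bt fun t => g438 u0 g6631 u27 t
    have u31 := bt fun t => g2007 u15 u25 u27 t
    have u32 := bf fun t => g6893 u29 u0 t
    have u33 := bf fun t => g66 t u30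
    have u34 := bf fun t => g92 u31 t
    have u35 := bf fun t => g4627 u25 t w7117 u31
    have u36 := bf fun t => g1292 u4 w6918 w6919 u32 t
    have u37 := bf fun t => g433 u0 t u32 u28 u33
    have u38 := bt fun t => g2006 u15 u26 t w7117 u34
    have u39 := bf fun t => g3401 u12 u37 u36 u35 t
    exact g798 u8 u16 u37 u38 u39
  have w7148 := bt s7148
  have s7150 := fun (n0 : T.X p e b d = true) => g56 w7148 n0
  have w7150 := bf s7150
  have s7151 := fun (n0 : T.alt p b c d e = true) => g2733 n0 w7117 w7148 g6634
  have w7151 := bf s7151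
  have s7152 := fun (n0 : T.alt p b e c d = true) => g2811 n0 w7117 w7148 g6634
  have w7152 := bf s7152
  have s7153 := fun (n0 : T.alt p b d c e = false) => g2640 w7151 n0 w7152
  have w7153 := bt s7153
  have s7154 := fun (n0 : T.X p e b c = true) => g2693 w7153 n0 w7148 g6634
  have w7154 := bf s7154
  have s7155 := fun (n0 : T.X p c d e = true) => g2679 w7153 w7117 n0 g6634
  have w7155 := bf s7155
  have s7156 := fun (n0 : T.X p e c d = true) => g2654 w7153 w7118 w7119 w7150 n0
  have w7156 := bf s7156
  have s7157 := fun (n0 : v166 = true) => g6696 n0 w7154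
  have w7157 := bf s7157
  have s7159 := fun (n0 : v182 = true) => g6758 n0 w7155
  have w7159 := bf s7159
  have s7160 := fun (n0 : v190 = true) => g6789 n0 w7155
  have w7160 := bf s7160
  have s7163 := fun (n0 : v167 = false) => g6703 g6706 n0 w7157
  have w7163 := bt s7163
  have s7165 := fun (n0 : v183 = true) => g6766 g6768 n0 w7159
  have w7165 := bf s7165
  have s7166 := fun (n0 : v191 = true) => g6797 g6799 n0 w7160
  have w7166 := bf s7166
  have s7167 : T.alt p r d b c = false → T.alt p r c d e = false → T.alt p r d a e = true → T.alt p r d b e = false → T.alt p r c b d = false → T.alt p r d a b = true → T.X p c a d = true → T.alt p r c a b = false → T.X p e a d = false → T.X p a d e = false → False := fun n0 n1 n2 n3 n4 n5 n6 n7 n8 n9 => by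
    have u0 := bf fun t => g290 t n5
    have u1 := bf fun t => g6561 n0 n3 t
    have u2 := bt fun t => g1192 t n4 n0
    have u3 := bt fun t => g6404 n5 t n0
    have u4 := bt fun t => g1735 n1 u1 t
    have u5 := bt fun t => g6397 t u0 u2
    have u6 := bt fun t => g1897 u4 t g6633 w7155 w7156
    have u7 := bf fun t => g147 u5 w6916 w6917 t w6919
    have u8 := bt fun t => s7089 u5 t n7
    have u9 := bf fun t => g23 u6 t
    have u10 := bf fun t => g3429 u8 u6 n6 t
    have u11 := bf fun t => g4 u8 t
    have u12 := bf fun t => g3413 u7 t u9 n6 u10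
    have u13 := bt fun t => g798 u3 u11 t n6 u10
    have u14 := bt fun t => g1036 n2 u12 g6633 n9 t
    have u15 := bt fun t => g1039 n2 u13 w6920 n8 t
    exact g77 u14 u15
  have s7168 : T.X p d r a = false → T.alt p r d a e = true → T.alt p r d a b = true → T.X p e a d = false → T.X p d a b = true → T.X p a d e = false → False := fun n0 n1 n2 n3 n4 n5 => by
    have u0 := bt fun t => g451 n2 g6631 t n0 n4
    have u1 := bt fun t => g1036 n1 n0 g6633 n5 t
    have u2 := bt fun t => g1039 n1 u0 w6920 n3 t
    exact g77 u1 u2
  have s7169 : T.X p c a d = true → T.X a d b c = false → T.alt p r c a b = false → T.alt p a e b d = true → T.X p e a d = false → T.X p d a b = true → T.X p a d e = false → False := fun n0 n1 n2 n3 n4 n5 n6 => by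
    have u0 := bf fun t => g6611 t n3 w7153
    have u1 := bf fun t => g2372 t n5 w7148 g6635
    have u2 := bf fun t => g2071 t n0 w7117 n1
    have u3 := bt fun t => g1916 t u0 u2
    have u4 := bt fun t => g6409 n2 t u3
    have u5 := bf fun t => g289 t u4
    have u6 := bt fun t => g438 u4 g6631 n5 t
    have u7 := bt fun t => g6488 u4 t u1
    have u8 := bf fun t => g6426 u5 t u0
    have u9 := bt fun t => g6501 u5 t n3
    have u10 := bf fun t => g65 t u6
    have u11 := bf fun t => g471 t u7
    have u12 := bf fun t => g1556 t u9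
    have u13 := bf fun t => g1557 t u9
    have u14 := bt fun t => g6497 u11 t n3
    have u15 := bf fun t => g6749 t u12 u13
    have u16 := bf fun t => g6590 u12 t w7151
    have u17 := bf fun t => g6752 t u15
    have u18 := bf fun t => g6762 w7165 t u17
    have u19 := bt fun t => s7167 t u16 u14 u13 u8 u4 n0 n2 n4 n6
    have u20 := bt fun t => g1343 u19 g6632 w7117 t
    have u21 := bt fun t => s7168 t u14 u4 n4 n5 n6
    have u22 := bt fun t => g432 u4 w6917 u21 t u10
    have u23 := bf fun t => g453 u4 w6917 u21 t
    have u24 := bf fun t => g1362 u19 u22 t w7119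
    have u25 := bt fun t => g6741 t u23 u20
    exact g6744 u18 u25 u24
  have s7170 : T.alt p r e a d = false → T.alt p r e a b = false → T.alt p r d a b = false → T.alt p a d b e = false → False := fun n0 n1 n2 n3 => by
    have u0 := bf fun t => g6492 t n0 n3
    have u1 := bf fun t => g6485 n1 n0 t
    have u2 := bf fun t => g6896 t n2 u0
    have u3 := bt fun t => g6573 t u1 w7153
    have u4 := bf fun t => g6899 t u2
    have u5 := bf fun t => g1193 t u3
    have u6 := bf fun t => g1195 u3 t
    have u7 := bf fun t => g6909 w7033 t u4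
    have u8 := bf fun t => g6687 t u6 u5
    have u9 := bf fun t => g6891 u7 t w7069
    have u10 := bf fun t => g6690 t u8
    have u11 := bf fun t => s6972 t u9
    have u12 := bt fun t => g6699 w7163 t u10
    exact g6681 u12 u11 w7069
  have s7171 : T.alt p r d a b = false → T.X p e a d = false → T.alt p a b d e = false → T.alt p a d b e = false → T.X p a d e = false → v213 = false → False := fun n0 n1 n2 n3 n4 n5 => by
    have u0 := bt fun t => g2278 n2 n3 t
    have u1 := bf fun t => g6490 n0 t n2
    have u2 := bt fun t => s7170 t u1 n0 n3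
    have u3 := bf fun t => g1014 t u2
    have u4 := bt fun t => g6494 t u2 n3
    have u5 := bt fun t => g1173 u2 t g6633 n4 n1
    have u6 := bt fun t => g6497 t u3 u0
    have u7 := bf fun t => g288 t u4
    have u8 := bf fun t => g8 u5 t
    have u9 := bf fun t => g509 u6 w6916 w6917 t w7069
    have u10 := bf fun t => g6865 t n0 u7
    have u11 := bt fun t => g1154 u2 u9 g6633 n4 t
    have u12 := bf fun t => g6868 t u10
    have u13 := bt fun t => g6857 t u8 u11
    have u14 := bf fun t => g6878 n5 t u12
    exact g6860 u14 u13 u9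
  have s7172 : T.X p c a b = true → T.alt p r d a b = true → T.alt p a e b d = true → T.X p e a d = false → T.X p d a b = true → T.X p a d e = false → False := fun n0 n1 n2 n3 n4 n5 => by
    have u0 := bf fun t => g32 t n0
    have u1 := bf fun t => s7001 t n0
    have u2 := bt fun t => g6410 u1 n1 t
    have u3 := bt fun t => g2007 u2 n0 n4 t
    have u4 := bf fun t => g92 u3 t
    have u5 := bf fun t => s7169 t u4 u1 n2 n3 n4 n5
    exact g2006 u2 u0 u5 w7117 u4
  have s7173 : T.X p d a b = true → T.X p a d e = false → T.X p e a b = false → False := fun n0 n1 n2 => by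
    have u0 := bf fun t => g2301 t n2 n1 w7148 g6635
    have u1 := bf fun t => g6874 t n2
    have u2 := bf fun t => g6882 g6884 t u1
    have u3 := bf fun t => g36 t n0
    have u4 := bf fun t => g2372 t n0 w7148 g6635
    have u5 := bf fun t => g4884 u3 n2 t w7148 g6635
    have u6 := bt fun t => g2278 u4 u0 t
    have u7 := bt fun t => s7171 t u5 u4 u0 n1 u2
    have u8 := bf fun t => g289 t u7
    have u9 := bf fun t => g290 t u7
    have u10 := bt fun t => g438 u7 g6631 n0 t
    have u11 := bt fun t => g6488 u7 t u4
    have u12 := bt fun t => g6501 u8 t u6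
    have u13 := bf fun t => g471 t u11
    have u14 := bt fun t => g6497 u13 t u6
    have u15 := bt fun t => s7168 t u14 u7 u5 n0 n1
    have u16 := bf fun t => s7172 t u7 u6 u5 n0 n1
    have u17 := bf fun t => g3088 g6631 u15 t u10
    have u18 := bf fun t => g6649 t u16
    have u19 := bf fun t => g1734 u12 u17 w7069 g6633 w7148 t
    have u20 := bt fun t => g6652 g6655 t u18
    have u21 := bf fun t => g6677 t u17 u19
    have u22 := bf fun t => g6681 t u21 w7069
    have u23 := bt fun t => g6699 w7163 u22 t
    have u24 := bt fun t => g6690 u23 t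
    have u25 := bf fun t => g6685 u24 t u17
    have u26 := bt fun t => g6687 u24 u25 t
    have u27 := bt fun t => g6397 t u9 u26
    have u28 := bf fun t => g147 u27 w6916 w6917 t w6919
    have u29 := bt fun t => g134 u27 g6631 w6918 u16 t
    have u30 := bt fun t => g6641 u20 t u28
    have u31 := bf fun t => g62 t u29
    exact s6922 u30 u31
  have s7174 : T.alt p r c b d = true → T.bfo p b c d r = true → False := fun n0 n1 => by
    have u0 := bf fun t => g1193 t n0
    have u1 := bf fun t => g1195 n0 t
    exact g6687 n1 u1 u0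
  have s7175 : T.X p a d e = false → T.X p e a b = false → False := fun n0 n1 => by
    have u0 := bf fun t => s7173 t n0 n1
    have u1 := bf fun t => g6898 t u0
    have u2 := bf fun t => g2419 t u0 n0 w7148 g6635
    have u3 := bf fun t => g6909 w7033 t u1
    have u4 := bt fun t => g6613 t u2 w7153
    have u5 := bf fun t => g6891 u3 t w7069
    have u6 := bf fun t => s6972 t u5
    have u7 := bf fun t => g6681 t u6 w7069
    have u8 := bt fun t => g6699 w7163 u7 t
    have u9 := bt fun t => g6690 u8 t
    have u10 := bf fun t => s7174 t u9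
    have u11 := bt fun t => g6425 t u10 u4
    have u12 := bf fun t => g288 u11 t
    have u13 := bf fun t => g289 u11 t
    have u14 := bf fun t => s7134 t u0 u13
    have u15 := bf fun t => g6685 u9 t u14
    have u16 := bt fun t => g1192 t u10 u15
    have u17 := bf fun t => s7135 t u15 u0 u13
    exact g6397 u17 u12 u16
  have s7176 : T.alt p r a b d = true → T.alt p a b d e = false → False := fun n0 n1 => by
    have u0 := bf fun t => g288 n0 t
    have u1 := bf fun t => g289 n0 t
    have u2 := bf fun t => g6896 t u1 u0
    have u3 := bf fun t => g6899 t u2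
    have u4 := bf fun t => g6909 w7033 t u3
    have u5 := bf fun t => g6891 u4 t w7069
    have u6 := bf fun t => s6972 t u5
    have u7 := bf fun t => g6681 t u6 w7069
    have u8 := bt fun t => g6699 w7163 u7 t
    have u9 := bt fun t => g6690 u8 t
    have u10 := bf fun t => s7174 t u9
    have u11 := bt fun t => g6573 u10 t w7153
    have u12 := bf fun t => g6499 n0 u11 t
    have u13 := bt fun t => g2278 n1 t u12
    have u14 := bf fun t => g2317 u13 t w7148 g6635
    have u15 := bf fun t => s7134 t u14 u1
    have u16 := bf fun t => g6685 u9 t u15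
    have u17 := bt fun t => g1192 t u10 u16
    have u18 := bf fun t => s7135 t u16 u14 u1
    exact g6397 u18 u0 u17
  have s7177 : T.alt p r b c d = true → T.alt p r d b c = false → T.alt p a b c d = false → T.X p a d e = true → False := fun n0 n1 n2 n3 => by
    have u0 := bf fun t => g2370 t n3 w7148 g6635
    have u1 := bf fun t => s7176 t u0
    have u2 := bf fun t => g1193 n0 t
    have u3 := bt fun t => g6430 t n0 n2
    have u4 := bt fun t => g6573 u2 t w7153
    have u5 := bf fun t => g6425 u1 u2 t
    have u6 := bf fun t => g650 u3 t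
    have u7 := bf fun t => g651 u3 t
    have u8 := bt fun t => g6393 t u1 u3
    have u9 := bt fun t => g6502 u1 u4 t
    have u10 := bt fun t => g1916 n2 u5 t
    have u11 := bf fun t => g6404 t u7 n1
    have u12 := bf fun t => g2449 u9 t n3 g6635
    have u13 := bt fun t => g6417 t u6 u10
    have u14 := bf fun t => s7134 t u12 u11
    have u15 := bt fun t => s7138 u3 u12 u10 t u8 u5
    exact g328 u13 w6916 w6917 u15 u14
  have s7178 : T.alt p r d b c = false → T.alt p a b c d = false → T.X p a d e = true → False := fun n0 n1 n2 => by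
    have u0 := bf fun t => g2370 t n2 w7148 g6635
    have u1 := bf fun t => s7176 t u0
    have u2 := bf fun t => s7177 t n0 n1 n2
    have u3 := bt fun t => g1192 u2 t n0
    have u4 := bf fun t => g6687 t n0 u2
    have u5 := bf fun t => g6571 u3 t w7153
    have u6 := bf fun t => g6690 t u4
    have u7 := bf fun t => g6501 u1 u5 t
    have u8 := bt fun t => g6699 w7163 t u6
    have u9 := bt fun t => g2278 u0 t u7
    have u10 := bt fun t => g6681 u8 t w7069
    have u11 := bf fun t => g2317 u9 t w7148 g6635
    have u12 := bt fun t => s6972 u10 t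
    have u13 := bf fun t => g6898 t u11
    have u14 := bt fun t => g6891 t u12 w7069
    exact g6909 w7033 u14 u13
  have s7179 : T.X p a d e = true → T.X p a c d = false → False := fun n0 n1 => by
    have u0 := bf fun t => g2370 t n0 w7148 g6635
    have u1 := bf fun t => g2621 t n1 n0 w7155 w7156
    have u2 := bf fun t => g6620 t u1 w7152
    have u3 := bf fun t => s7176 t u0
    have u4 := bt fun t => s7178 t u2 n0
    have u5 := bf fun t => g1195 t u4
    have u6 := bt fun t => g6568 u4 t w7151
    have u7 := bt fun t => g6573 u5 t w7153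
    have u8 := bf fun t => g1375 t u6
    have u9 := bf fun t => g1556 t u7
    have u10 := bt fun t => g6779 t u9 u7
    have u11 := bt fun t => g6502 u3 u7 t
    have u12 := bt fun t => g6585 u8 t w7153
    have u13 := bt fun t => g6781 t w7148 u10
    have u14 := bf fun t => g2449 u11 t n0 g6635
    have u15 := bf fun t => s6949 u12 w7155 t
    have u16 := bt fun t => g6794 w7166 t u13
    have u17 := bf fun t => g6898 t u14
    have u18 := bt fun t => g6774 u16 t u15
    have u19 := bf fun t => g6909 w7033 t u17
    have u20 := bf fun t => g6891 u19 t w7069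
    have u21 := bf fun t => s6972 t u20
    have u22 := bf fun t => g6681 t u21 w7069
    have u23 := bt fun t => g6699 w7163 u22 t
    have u24 := bt fun t => g6690 u23 t
    have u25 := bt fun t => g6685 u24 u4 t
    have u26 := bt fun t => g1713 u7 u25 t w7069 w6920
    have u27 := bt fun t => g1525 u6 g6632 u26 t
    exact g6769 u18 u26 u27
  have s7180 : T.X p e a b = true → False := fun n0 => by
    have u0 := bf fun t => g2374 t n0 w7148 g6635
    have u1 := bf fun t => g2435 t n0 w7148 g6635
    have u2 := bf fun t => s6930 w7148 t n0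
    have u3 := bf fun t => s7176 t u0
    have u4 := bt fun t => g6613 t u1 w7153
    have u5 := bf fun t => g6898 t u2
    have u6 := bt fun t => g6425 u3 t u4
    have u7 := bf fun t => g6909 w7033 t u5
    have u8 := bf fun t => s7174 u6 t
    have u9 := bf fun t => g6891 u7 t w7069
    have u10 := bf fun t => g6690 t u8
    have u11 := bf fun t => s6972 t u9
    have u12 := bt fun t => g6699 w7163 t u10
    exact g6681 u12 u11 w7069
  have w7180 := bf s7180
  have s7182 := fun (n0 : T.X p a d e = false) => s7175 n0 w7180
  have w7182 := bt s7182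
  have s7186 := fun (n0 : T.alt p a b d e = true) => g2370 n0 w7182 w7148 g6635
  have w7186 := bf s7186
  have s7187 := fun (n0 : T.X p a c d = false) => s7179 w7182 n0
  have w7187 := bt s7187
  have s7189 := fun (n0 : T.alt p r a b d = true) => s7176 n0 w7186
  have w7189 := bf s7189
  have s7190 := fun (n0 : T.X p c a d = true) => g40 w7187 n0
  have w7190 := bf s7190
  have s7192 : T.X p c a b = true → T.alt p a b c d = true → False := fun n0 n1 => by
    have u0 := bf fun t => g1917 n1 t
    have u1 := bt fun t => g6613 u0 t w7153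
    have u2 := bf fun t => g2449 u1 t w7182 g6635
    have u3 := bt fun t => g2009 n1 n0 w7187 t
    have u4 := bt fun t => g4555 n0 u2 w7190 w7117 t
    exact g92 u3 u4
  have s7193 : T.alt p r d b c = false → False := fun n0 => by
    have u0 := bt fun t => s7178 n0 t w7182
    have u1 := bf fun t => g1917 u0 t
    have u2 := bf fun t => g1918 u0 t
    have u3 := bt fun t => g6613 u1 t w7153
    have u4 := bf fun t => g6420 t n0 u2
    have u5 := bf fun t => g2449 u3 t w7182 g6635
    have u6 := bf fun t => s7192 t u0
    have u7 := bf fun t => g6649 t u6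
    have u8 := bt fun t => g1989 u0 t u6 u5 w7117
    have u9 := bt fun t => g6652 g6655 t u7
    have u10 := bt fun t => s6996 u4 u8 t
    have u11 := bf fun t => g147 u10 w6916 w6917 t w6919
    have u12 := bf fun t => g168 u10 w6917 u11 g6632 u8 t
    have u13 := bt fun t => g6641 u9 t u11
    exact s6922 u13 u12
  have w7193 := bt s7193
  have s7195 := fun (n0 : T.alt p r c b d = true) => g1195 n0 w7193
  have w7195 := bf s7195
  have s7197 := fun (n0 : T.alt p r e b c = false) => g6568 w7193 n0 w7151
  have w7197 := bt s7197
  have s7199 := fun (n0 : T.alt p r e b d = false) => g6573 w7195 n0 w7153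
  have w7199 := bt s7199
  have s7203 := fun (n0 : T.alt p r b c e = true) => g1375 n0 w7197
  have w7203 := bf s7203
  have s7206 := fun (n0 : T.alt p r b d e = true) => g1556 n0 w7199
  have w7206 := bf s7206
  have s7208 := fun (n0 : T.bfo p e d b r = false) => g6779 n0 w7206 w7199
  have w7208 := bt s7208
  have s7209 := fun (n0 : T.alt p a e b d = false) => g6502 w7189 w7199 n0
  have w7209 := bt s7209
  have s7211 := fun (n0 : T.alt p r d c e = false) => g6585 w7203 n0 w7153
  have w7211 := bt s7211
  have s7217 := fun (n0 : v188 = false) => g6781 n0 w7148 w7208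
  have w7217 := bt s7217
  have s7219 := fun (n0 : T.X p d a b = true) => g2449 w7209 n0 w7182 g6635
  have w7219 := bf s7219
  have s7221 := fun (n0 : T.X p c r e = true) => s6949 w7211 w7155 n0
  have w7221 := bf s7221
  have s7226 := fun (n0 : v186 = false) => g6794 w7166 n0 w7217
  have w7226 := bt s7226
  have s7228 := fun (n0 : v218 = true) => g6898 n0 w7219
  have w7228 := bf s7228
  have s7229 := fun (n0 : v185 = false) => g6774 w7226 n0 w7221
  have w7229 := bt s7229
  have s7233 := fun (n0 : v216 = true) => g6909 w7033 n0 w7228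
  have w7233 := bf s7233
  have s7234 := fun (n0 : v215 = true) => g6891 w7233 n0 w7069
  have w7234 := bf s7234
  have s7235 := fun (n0 : v161 = true) => s6972 n0 w7234
  have w7235 := bf s7235
  have s7236 := fun (n0 : v162 = true) => g6681 n0 w7235 w7069
  have w7236 := bf s7236
  have s7237 := fun (n0 : v164 = false) => g6699 w7163 w7236 n0
  have w7237 := bt s7237
  have s7238 := fun (n0 : T.bfo p b c d r = false) => g6690 w7237 n0
  have w7238 := bt s7238
  have s7239 := fun (n0 : T.X p d r b = false) => g6685 w7238 w7193 n0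
  have w7239 := bt s7239
  have s7245 := fun (n0 : T.X p b r e = false) => g1713 w7199 w7239 n0 w7069 w6920
  have w7245 := bt s7245
  have s7258 := fun (n0 : T.X r e b c = false) => g1525 w7197 g6632 w7245 n0
  have w7258 := bt s7258
  exact g6769 w7229 w7245 w7258

theorem ft_di {p r a b c d e f : V} (hN : [p, r, a, b, c, d, e, f].Nodup) (h0 : T.X p r a b = true)
    (h1 : T.X p r c d = true) (h2 : T.X p r e f = true) (h3 : T.X a b c d = false) (h4 : T.X c d e f = false)
    (h5 : T.X e f a b = false) (h6 : T.alt p r d b c = true) (h7 : T.alt p r f b e = true)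
    (h8 : T.alt p r b a c = false) (h9 : T.alt p r b a d = false) (h10 : T.alt p r b a e = false)
    (h11 : T.alt p r b a f = false) (h12 : T.alt p r b c d = false) (h13 : T.alt p r b c e = false)
    (h14 : T.alt p r b c f = false) (h15 : T.alt p r b d e = false) (h16 : T.alt p r b d f = false)
    (h17 : T.alt p r b e f = false) (h18 : T.lto p r a b c d = true) (h19 : T.lto p r b a c d = true)
    (h20 : T.lto p r c d a b = false) (h21 : T.lto p r d c a b = false) (h22 : T.lto p r c d e f = true)
    (h23 : T.lto p r d c e f = true) (h24 : T.lto p r e f c d = false) (h25 : T.lto p r f e c d = false)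
    (h26 : T.lto p r e f a b = true) (h27 : T.lto p r f e a b = true) (h28 : T.lto p r a b e f = false)
    (h29 : T.lto p r b a e f = false) : False := by
  obtain ⟨v316, e316⟩ : ∃ v : Bool, v = (T.X p c r a ^^ T.X r a c d) := ⟨_, rfl⟩
  obtain ⟨v317, e317⟩ : ∃ v : Bool, v = (v316 ^^ T.X p d r a) := ⟨_, rfl⟩
  have B318 : T.bfo p a b c r = (bif T.alt p r c a b then T.X p c r a else T.alt p r a b c) :=
    T.bfo_eq (T.as5 p a b c r) (T.xs2 p c a r) (T.as3 p a r c b)
  obtain ⟨v319, e319⟩ : ∃ v : Bool, v = (T.X p c a b && T.bfo p a b c r) := ⟨_, rfl⟩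
  have B320 : T.bfo p a b d r = (bif T.alt p r d a b then T.X p d r a else T.alt p r a b d) :=
    T.bfo_eq (T.as5 p a b d r) (T.xs2 p d a r) (T.as3 p a r d b)
  obtain ⟨v321, e321⟩ : ∃ v : Bool, v = (T.X p d a b && T.bfo p a b d r) := ⟨_, rfl⟩
  obtain ⟨v322, e322⟩ : ∃ v : Bool, v = (v317 ^^ v319) := ⟨_, rfl⟩
  have L323 : T.lto p r a b c d = (v322 ^^ v321) :=
    T.lto_eq (T.xs6 a r p c) (T.xs1 a r c d) (T.xs7 a r d p) rfl rfl e316 e317 e319 e322 e321
  obtain ⟨v324, e324⟩ : ∃ v : Bool, v = (T.X p c r b ^^ T.X r b c d) := ⟨_, rfl⟩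
  obtain ⟨v325, e325⟩ : ∃ v : Bool, v = (v324 ^^ T.X p d r b) := ⟨_, rfl⟩
  have B326 : T.bfo p b a c r = (bif T.alt p r c a b then T.X p c r b else T.alt p r b a c) :=
    T.bfo_eq (T.as7 p b a c r) (T.xs2 p c b r) (T.as3 p b r c a)
  obtain ⟨v327, e327⟩ : ∃ v : Bool, v = (T.X p c a b && T.bfo p b a c r) := ⟨_, rfl⟩
  have B328 : T.bfo p b a d r = (bif T.alt p r d a b then T.X p d r b else T.alt p r b a d) :=
    T.bfo_eq (T.as7 p b a d r) (T.xs2 p d b r) (T.as3 p b r d a)
  obtain ⟨v329, e329⟩ : ∃ v : Bool, v = (T.X p d a b && T.bfo p b a d r) := ⟨_, rfl⟩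
  obtain ⟨v330, e330⟩ : ∃ v : Bool, v = (v325 ^^ v327) := ⟨_, rfl⟩
  have L331 : T.lto p r b a c d = (v330 ^^ v329) :=
    T.lto_eq (T.xs6 b r p c) (T.xs1 b r c d) (T.xs7 b r d p) (T.xs2 p c b a) (T.xs2 p d b a) e324 e325 e327 e330 e329
  obtain ⟨v332, e332⟩ : ∃ v : Bool, v = (T.X p a r c ^^ T.X r c a b) := ⟨_, rfl⟩
  obtain ⟨v333, e333⟩ : ∃ v : Bool, v = (v332 ^^ T.X p b r c) := ⟨_, rfl⟩
  have B334 : T.bfo p c d a r = (bif T.alt p r a c d then T.X p a r c else T.alt p r c a d) :=
    T.bfo_eq (T.as5 p c d a r) (T.xs2 p a c r) (T.as1 p c r a d)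
  obtain ⟨v335, e335⟩ : ∃ v : Bool, v = (T.X p a c d && T.bfo p c d a r) := ⟨_, rfl⟩
  have B336 : T.bfo p c d b r = (bif T.alt p r b c d then T.X p b r c else T.alt p r c b d) :=
    T.bfo_eq (T.as5 p c d b r) (T.xs2 p b c r) (T.as1 p c r b d)
  obtain ⟨v337, e337⟩ : ∃ v : Bool, v = (T.X p b c d && T.bfo p c d b r) := ⟨_, rfl⟩
  obtain ⟨v338, e338⟩ : ∃ v : Bool, v = (v333 ^^ v335) := ⟨_, rfl⟩
  have L339 : T.lto p r c d a b = (v338 ^^ v337) :=
    T.lto_eq (T.xs6 c r p a) (T.xs1 c r a b) (T.xs7 c r b p) rfl rfl e332 e333 e335 e338 e337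
  obtain ⟨v340, e340⟩ : ∃ v : Bool, v = (T.X p a r d ^^ T.X r d a b) := ⟨_, rfl⟩
  obtain ⟨v341, e341⟩ : ∃ v : Bool, v = (v340 ^^ T.X p b r d) := ⟨_, rfl⟩
  have B342 : T.bfo p d c a r = (bif T.alt p r a c d then T.X p a r d else T.alt p r d a c) :=
    T.bfo_eq (T.as7 p d c a r) (T.xs2 p a d r) (T.as1 p d r a c)
  obtain ⟨v343, e343⟩ : ∃ v : Bool, v = (T.X p a c d && T.bfo p d c a r) := ⟨_, rfl⟩
  have B344 : T.bfo p d c b r = (bif T.alt p r b c d then T.X p b r d else T.alt p r d b c) :=
    T.bfo_eq (T.as7 p d c b r) (T.xs2 p b d r) (T.as1 p d r b c)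
  obtain ⟨v345, e345⟩ : ∃ v : Bool, v = (T.X p b c d && T.bfo p d c b r) := ⟨_, rfl⟩
  obtain ⟨v346, e346⟩ : ∃ v : Bool, v = (v341 ^^ v343) := ⟨_, rfl⟩
  have L347 : T.lto p r d c a b = (v346 ^^ v345) :=
    T.lto_eq (T.xs6 d r p a) (T.xs1 d r a b) (T.xs7 d r b p) (T.xs2 p a d c) (T.xs2 p b d c) e340 e341 e343 e346 e345
  obtain ⟨v348, e348⟩ : ∃ v : Bool, v = (T.X p e r c ^^ T.X r c e f) := ⟨_, rfl⟩
  obtain ⟨v349, e349⟩ : ∃ v : Bool, v = (v348 ^^ T.X p f r c) := ⟨_, rfl⟩
  have B350 : T.bfo p c d e r = (bif T.alt p r e c d then T.X p e r c else T.alt p r c d e) :=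
    T.bfo_eq (T.as5 p c d e r) (T.xs2 p e c r) (T.as3 p c r e d)
  obtain ⟨v351, e351⟩ : ∃ v : Bool, v = (T.X p e c d && T.bfo p c d e r) := ⟨_, rfl⟩
  have B352 : T.bfo p c d f r = (bif T.alt p r f c d then T.X p f r c else T.alt p r c d f) :=
    T.bfo_eq (T.as5 p c d f r) (T.xs2 p f c r) (T.as3 p c r f d)
  obtain ⟨v353, e353⟩ : ∃ v : Bool, v = (T.X p f c d && T.bfo p c d f r) := ⟨_, rfl⟩
  obtain ⟨v354, e354⟩ : ∃ v : Bool, v = (v349 ^^ v351) := ⟨_, rfl⟩
  have L355 : T.lto p r c d e f = (v354 ^^ v353) :=
    T.lto_eq (T.xs6 c r p e) (T.xs1 c r e f) (T.xs7 c r f p) rfl rfl e348 e349 e351 e354 e353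
  obtain ⟨v356, e356⟩ : ∃ v : Bool, v = (T.X p e r d ^^ T.X r d e f) := ⟨_, rfl⟩
  obtain ⟨v357, e357⟩ : ∃ v : Bool, v = (v356 ^^ T.X p f r d) := ⟨_, rfl⟩
  have B358 : T.bfo p d c e r = (bif T.alt p r e c d then T.X p e r d else T.alt p r d c e) :=
    T.bfo_eq (T.as7 p d c e r) (T.xs2 p e d r) (T.as3 p d r e c)
  obtain ⟨v359, e359⟩ : ∃ v : Bool, v = (T.X p e c d && T.bfo p d c e r) := ⟨_, rfl⟩
  have B360 : T.bfo p d c f r = (bif T.alt p r f c d then T.X p f r d else T.alt p r d c f) :=
    T.bfo_eq (T.as7 p d c f r) (T.xs2 p f d r) (T.as3 p d r f c)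
  obtain ⟨v361, e361⟩ : ∃ v : Bool, v = (T.X p f c d && T.bfo p d c f r) := ⟨_, rfl⟩
  obtain ⟨v362, e362⟩ : ∃ v : Bool, v = (v357 ^^ v359) := ⟨_, rfl⟩
  have L363 : T.lto p r d c e f = (v362 ^^ v361) :=
    T.lto_eq (T.xs6 d r p e) (T.xs1 d r e f) (T.xs7 d r f p) (T.xs2 p e d c) (T.xs2 p f d c) e356 e357 e359 e362 e361
  obtain ⟨v364, e364⟩ : ∃ v : Bool, v = (T.X p c r e ^^ T.X r e c d) := ⟨_, rfl⟩
  obtain ⟨v365, e365⟩ : ∃ v : Bool, v = (v364 ^^ T.X p d r e) := ⟨_, rfl⟩
  have B366 : T.bfo p e f c r = (bif T.alt p r c e f then T.X p c r e else T.alt p r e c f) :=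
    T.bfo_eq (T.as5 p e f c r) (T.xs2 p c e r) (T.as1 p e r c f)
  obtain ⟨v367, e367⟩ : ∃ v : Bool, v = (T.X p c e f && T.bfo p e f c r) := ⟨_, rfl⟩
  have B368 : T.bfo p e f d r = (bif T.alt p r d e f then T.X p d r e else T.alt p r e d f) :=
    T.bfo_eq (T.as5 p e f d r) (T.xs2 p d e r) (T.as1 p e r d f)
  obtain ⟨v369, e369⟩ : ∃ v : Bool, v = (T.X p d e f && T.bfo p e f d r) := ⟨_, rfl⟩
  obtain ⟨v370, e370⟩ : ∃ v : Bool, v = (v365 ^^ v367) := ⟨_, rfl⟩
  have L371 : T.lto p r e f c d = (v370 ^^ v369) :=
    T.lto_eq (T.xs6 e r p c) (T.xs1 e r c d) (T.xs7 e r d p) rfl rfl e364 e365 e367 e370 e369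
  obtain ⟨v372, e372⟩ : ∃ v : Bool, v = (T.X p c r f ^^ T.X r f c d) := ⟨_, rfl⟩
  obtain ⟨v373, e373⟩ : ∃ v : Bool, v = (v372 ^^ T.X p d r f) := ⟨_, rfl⟩
  have B374 : T.bfo p f e c r = (bif T.alt p r c e f then T.X p c r f else T.alt p r f c e) :=
    T.bfo_eq (T.as7 p f e c r) (T.xs2 p c f r) (T.as1 p f r c e)
  obtain ⟨v375, e375⟩ : ∃ v : Bool, v = (T.X p c e f && T.bfo p f e c r) := ⟨_, rfl⟩
  have B376 : T.bfo p f e d r = (bif T.alt p r d e f then T.X p d r f else T.alt p r f d e) :=
    T.bfo_eq (T.as7 p f e d r) (T.xs2 p d f r) (T.as1 p f r d e)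
  obtain ⟨v377, e377⟩ : ∃ v : Bool, v = (T.X p d e f && T.bfo p f e d r) := ⟨_, rfl⟩
  obtain ⟨v378, e378⟩ : ∃ v : Bool, v = (v373 ^^ v375) := ⟨_, rfl⟩
  have L379 : T.lto p r f e c d = (v378 ^^ v377) :=
    T.lto_eq (T.xs6 f r p c) (T.xs1 f r c d) (T.xs7 f r d p) (T.xs2 p c f e) (T.xs2 p d f e) e372 e373 e375 e378 e377
  obtain ⟨v380, e380⟩ : ∃ v : Bool, v = (T.X p a r e ^^ T.X r e a b) := ⟨_, rfl⟩
  obtain ⟨v381, e381⟩ : ∃ v : Bool, v = (v380 ^^ T.X p b r e) := ⟨_, rfl⟩
  have B382 : T.bfo p e f a r = (bif T.alt p r a e f then T.X p a r e else T.alt p r e a f) :=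
    T.bfo_eq (T.as5 p e f a r) (T.xs2 p a e r) (T.as1 p e r a f)
  obtain ⟨v383, e383⟩ : ∃ v : Bool, v = (T.X p a e f && T.bfo p e f a r) := ⟨_, rfl⟩
  have B384 : T.bfo p e f b r = (bif T.alt p r b e f then T.X p b r e else T.alt p r e b f) :=
    T.bfo_eq (T.as5 p e f b r) (T.xs2 p b e r) (T.as1 p e r b f)
  obtain ⟨v385, e385⟩ : ∃ v : Bool, v = (T.X p b e f && T.bfo p e f b r) := ⟨_, rfl⟩
  obtain ⟨v386, e386⟩ : ∃ v : Bool, v = (v381 ^^ v383) := ⟨_, rfl⟩
  have L387 : T.lto p r e f a b = (v386 ^^ v385) :=
    T.lto_eq (T.xs6 e r p a) (T.xs1 e r a b) (T.xs7 e r b p) rfl rfl e380 e381 e383 e386 e385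
  obtain ⟨v388, e388⟩ : ∃ v : Bool, v = (T.X p a r f ^^ T.X r f a b) := ⟨_, rfl⟩
  obtain ⟨v389, e389⟩ : ∃ v : Bool, v = (v388 ^^ T.X p b r f) := ⟨_, rfl⟩
  have B390 : T.bfo p f e a r = (bif T.alt p r a e f then T.X p a r f else T.alt p r f a e) :=
    T.bfo_eq (T.as7 p f e a r) (T.xs2 p a f r) (T.as1 p f r a e)
  obtain ⟨v391, e391⟩ : ∃ v : Bool, v = (T.X p a e f && T.bfo p f e a r) := ⟨_, rfl⟩
  have B392 : T.bfo p f e b r = (bif T.alt p r b e f then T.X p b r f else T.alt p r f b e) :=
    T.bfo_eq (T.as7 p f e b r) (T.xs2 p b f r) (T.as1 p f r b e)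
  obtain ⟨v393, e393⟩ : ∃ v : Bool, v = (T.X p b e f && T.bfo p f e b r) := ⟨_, rfl⟩
  obtain ⟨v394, e394⟩ : ∃ v : Bool, v = (v389 ^^ v391) := ⟨_, rfl⟩
  have L395 : T.lto p r f e a b = (v394 ^^ v393) :=
    T.lto_eq (T.xs6 f r p a) (T.xs1 f r a b) (T.xs7 f r b p) (T.xs2 p a f e) (T.xs2 p b f e) e388 e389 e391 e394 e393
  obtain ⟨v396, e396⟩ : ∃ v : Bool, v = (T.X p e r a ^^ T.X r a e f) := ⟨_, rfl⟩
  obtain ⟨v397, e397⟩ : ∃ v : Bool, v = (v396 ^^ T.X p f r a) := ⟨_, rfl⟩
  have B398 : T.bfo p a b e r = (bif T.alt p r e a b then T.X p e r a else T.alt p r a b e) :=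
    T.bfo_eq (T.as5 p a b e r) (T.xs2 p e a r) (T.as3 p a r e b)
  obtain ⟨v399, e399⟩ : ∃ v : Bool, v = (T.X p e a b && T.bfo p a b e r) := ⟨_, rfl⟩
  have B400 : T.bfo p a b f r = (bif T.alt p r f a b then T.X p f r a else T.alt p r a b f) :=
    T.bfo_eq (T.as5 p a b f r) (T.xs2 p f a r) (T.as3 p a r f b)
  obtain ⟨v401, e401⟩ : ∃ v : Bool, v = (T.X p f a b && T.bfo p a b f r) := ⟨_, rfl⟩
  obtain ⟨v402, e402⟩ : ∃ v : Bool, v = (v397 ^^ v399) := ⟨_, rfl⟩
  have L403 : T.lto p r a b e f = (v402 ^^ v401) :=
    T.lto_eq (T.xs6 a r p e) (T.xs1 a r e f) (T.xs7 a r f p) rfl rfl e396 e397 e399 e402 e401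
  obtain ⟨v404, e404⟩ : ∃ v : Bool, v = (T.X p e r b ^^ T.X r b e f) := ⟨_, rfl⟩
  obtain ⟨v405, e405⟩ : ∃ v : Bool, v = (v404 ^^ T.X p f r b) := ⟨_, rfl⟩
  have B406 : T.bfo p b a e r = (bif T.alt p r e a b then T.X p e r b else T.alt p r b a e) :=
    T.bfo_eq (T.as7 p b a e r) (T.xs2 p e b r) (T.as3 p b r e a)
  obtain ⟨v407, e407⟩ : ∃ v : Bool, v = (T.X p e a b && T.bfo p b a e r) := ⟨_, rfl⟩
  have B408 : T.bfo p b a f r = (bif T.alt p r f a b then T.X p f r b else T.alt p r b a f) :=
    T.bfo_eq (T.as7 p b a f r) (T.xs2 p f b r) (T.as3 p b r f a)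
  obtain ⟨v409, e409⟩ : ∃ v : Bool, v = (T.X p f a b && T.bfo p b a f r) := ⟨_, rfl⟩
  obtain ⟨v410, e410⟩ : ∃ v : Bool, v = (v405 ^^ v407) := ⟨_, rfl⟩
  have L411 : T.lto p r b a e f = (v410 ^^ v409) :=
    T.lto_eq (T.xs6 b r p e) (T.xs1 b r e f) (T.xs7 b r f p) (T.xs2 p e b a) (T.xs2 p f b a) e404 e405 e407 e410 e409
  have k0 : T.Ok5 p r a b c := T.n5 hN (.cons_cons _ (.cons_cons _ (.cons_cons _ (.cons_cons _ (.cons_cons _ (List.nil_sublist _))))))
  have k1 : T.Ok5 p r a b d := T.n5 hN (.cons_cons _ (.cons_cons _ (.cons_cons _ (.cons_cons _ (.cons _ (.cons_cons _ (List.nil_sublist _)))))))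
  have k2 : T.Ok5 p r a b e := T.n5 hN (.cons_cons _ (.cons_cons _ (.cons_cons _ (.cons_cons _ (.cons _ (.cons _ (.cons_cons _ (List.nil_sublist _))))))))
  have k3 : T.Ok5 p r a b f := T.n5 hN (.cons_cons _ (.cons_cons _ (.cons_cons _ (.cons_cons _ (.cons _ (.cons _ (.cons _ (.cons_cons _ (List.nil_sublist _)))))))))
  have k4 : T.Ok5 p r a c d := T.n5 hN (.cons_cons _ (.cons_cons _ (.cons_cons _ (.cons _ (.cons_cons _ (.cons_cons _ (List.nil_sublist _)))))))
  have k5 : T.Ok5 p r a c e := T.n5 hN (.cons_cons _ (.cons_cons _ (.cons_cons _ (.cons _ (.cons_cons _ (.cons _ (.cons_cons _ (List.nil_sublist _))))))))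
  have k6 : T.Ok5 p r a c f := T.n5 hN (.cons_cons _ (.cons_cons _ (.cons_cons _ (.cons _ (.cons_cons _ (.cons _ (.cons _ (.cons_cons _ (List.nil_sublist _)))))))))
  have k7 : T.Ok5 p r a d e := T.n5 hN (.cons_cons _ (.cons_cons _ (.cons_cons _ (.cons _ (.cons _ (.cons_cons _ (.cons_cons _ (List.nil_sublist _))))))))
  have k8 : T.Ok5 p r a d f := T.n5 hN (.cons_cons _ (.cons_cons _ (.cons_cons _ (.cons _ (.cons _ (.cons_cons _ (.cons _ (.cons_cons _ (List.nil_sublist _)))))))))
  have k9 : T.Ok5 p r a e f := T.n5 hN (.cons_cons _ (.cons_cons _ (.cons_cons _ (.cons _ (.cons _ (.cons _ (.cons_cons _ (.cons_cons _ (List.nil_sublist _)))))))))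
  have k10 : T.Ok5 p r b c d := T.n5 hN (.cons_cons _ (.cons_cons _ (.cons _ (.cons_cons _ (.cons_cons _ (.cons_cons _ (List.nil_sublist _)))))))
  have k11 : T.Ok5 p r b c e := T.n5 hN (.cons_cons _ (.cons_cons _ (.cons _ (.cons_cons _ (.cons_cons _ (.cons _ (.cons_cons _ (List.nil_sublist _))))))))
  have k12 : T.Ok5 p r b c f := T.n5 hN (.cons_cons _ (.cons_cons _ (.cons _ (.cons_cons _ (.cons_cons _ (.cons _ (.cons _ (.cons_cons _ (List.nil_sublist _)))))))))
  have k13 : T.Ok5 p r b d e := T.n5 hN (.cons_cons _ (.cons_cons _ (.cons _ (.cons_cons _ (.cons _ (.cons_cons _ (.cons_cons _ (List.nil_sublist _))))))))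
  have k14 : T.Ok5 p r b d f := T.n5 hN (.cons_cons _ (.cons_cons _ (.cons _ (.cons_cons _ (.cons _ (.cons_cons _ (.cons _ (.cons_cons _ (List.nil_sublist _)))))))))
  have k15 : T.Ok5 p r b e f := T.n5 hN (.cons_cons _ (.cons_cons _ (.cons _ (.cons_cons _ (.cons _ (.cons _ (.cons_cons _ (.cons_cons _ (List.nil_sublist _)))))))))
  have k16 : T.Ok5 p r c d e := T.n5 hN (.cons_cons _ (.cons_cons _ (.cons _ (.cons _ (.cons_cons _ (.cons_cons _ (.cons_cons _ (List.nil_sublist _))))))))
  have k17 : T.Ok5 p r c d f := T.n5 hN (.cons_cons _ (.cons_cons _ (.cons _ (.cons _ (.cons_cons _ (.cons_cons _ (.cons _ (.cons_cons _ (List.nil_sublist _)))))))))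
  have k18 : T.Ok5 p r c e f := T.n5 hN (.cons_cons _ (.cons_cons _ (.cons _ (.cons _ (.cons_cons _ (.cons _ (.cons_cons _ (.cons_cons _ (List.nil_sublist _)))))))))
  have k19 : T.Ok5 p r d e f := T.n5 hN (.cons_cons _ (.cons_cons _ (.cons _ (.cons _ (.cons _ (.cons_cons _ (.cons_cons _ (.cons_cons _ (List.nil_sublist _)))))))))
  have k20 : T.Ok5 p a b c d := T.n5 hN (.cons_cons _ (.cons _ (.cons_cons _ (.cons_cons _ (.cons_cons _ (.cons_cons _ (List.nil_sublist _)))))))
  have k21 : T.Ok5 p a b c e := T.n5 hN (.cons_cons _ (.cons _ (.cons_cons _ (.cons_cons _ (.cons_cons _ (.cons _ (.cons_cons _ (List.nil_sublist _))))))))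
  have k22 : T.Ok5 p a b c f := T.n5 hN (.cons_cons _ (.cons _ (.cons_cons _ (.cons_cons _ (.cons_cons _ (.cons _ (.cons _ (.cons_cons _ (List.nil_sublist _)))))))))
  have k23 : T.Ok5 p a b d e := T.n5 hN (.cons_cons _ (.cons _ (.cons_cons _ (.cons_cons _ (.cons _ (.cons_cons _ (.cons_cons _ (List.nil_sublist _))))))))
  have k24 : T.Ok5 p a b d f := T.n5 hN (.cons_cons _ (.cons _ (.cons_cons _ (.cons_cons _ (.cons _ (.cons_cons _ (.cons _ (.cons_cons _ (List.nil_sublist _)))))))))
  have k25 : T.Ok5 p a b e f := T.n5 hN (.cons_cons _ (.cons _ (.cons_cons _ (.cons_cons _ (.cons _ (.cons _ (.cons_cons _ (.cons_cons _ (List.nil_sublist _)))))))))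
  have k26 : T.Ok5 p a c d f := T.n5 hN (.cons_cons _ (.cons _ (.cons_cons _ (.cons _ (.cons_cons _ (.cons_cons _ (.cons _ (.cons_cons _ (List.nil_sublist _)))))))))
  have k27 : T.Ok5 p a d e f := T.n5 hN (.cons_cons _ (.cons _ (.cons_cons _ (.cons _ (.cons _ (.cons_cons _ (.cons_cons _ (.cons_cons _ (List.nil_sublist _)))))))))
  have k28 : T.Ok5 p b c d e := T.n5 hN (.cons_cons _ (.cons _ (.cons _ (.cons_cons _ (.cons_cons _ (.cons_cons _ (.cons_cons _ (List.nil_sublist _))))))))
  have k29 : T.Ok5 p b c d f := T.n5 hN (.cons_cons _ (.cons _ (.cons _ (.cons_cons _ (.cons_cons _ (.cons_cons _ (.cons _ (.cons_cons _ (List.nil_sublist _)))))))))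
  have k30 : T.Ok5 p b c e f := T.n5 hN (.cons_cons _ (.cons _ (.cons _ (.cons_cons _ (.cons_cons _ (.cons _ (.cons_cons _ (.cons_cons _ (List.nil_sublist _)))))))))
  have k31 : T.Ok5 p b d e f := T.n5 hN (.cons_cons _ (.cons _ (.cons _ (.cons_cons _ (.cons _ (.cons_cons _ (.cons_cons _ (.cons_cons _ (List.nil_sublist _)))))))))
  have k32 : T.Ok5 p c d e f := T.n5 hN (.cons_cons _ (.cons _ (.cons _ (.cons _ (.cons_cons _ (.cons_cons _ (.cons_cons _ (.cons_cons _ (List.nil_sublist _)))))))))
  have k33 : T.Ok5 r a b d e := T.n5 hN (.cons _ (.cons_cons _ (.cons_cons _ (.cons_cons _ (.cons _ (.cons_cons _ (.cons_cons _ (List.nil_sublist _))))))))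
  have k34 : T.Ok5 r a b d f := T.n5 hN (.cons _ (.cons_cons _ (.cons_cons _ (.cons_cons _ (.cons _ (.cons_cons _ (.cons _ (.cons_cons _ (List.nil_sublist _)))))))))
  have k35 : T.Ok5 r b c d e := T.n5 hN (.cons _ (.cons_cons _ (.cons _ (.cons_cons _ (.cons_cons _ (.cons_cons _ (.cons_cons _ (List.nil_sublist _))))))))
  have k36 : T.Ok5 r b c d f := T.n5 hN (.cons _ (.cons_cons _ (.cons _ (.cons_cons _ (.cons_cons _ (.cons_cons _ (.cons _ (.cons_cons _ (List.nil_sublist _)))))))))
  have k37 : T.Ok5 r b c e f := T.n5 hN (.cons _ (.cons_cons _ (.cons _ (.cons_cons _ (.cons_cons _ (.cons _ (.cons_cons _ (.cons_cons _ (List.nil_sublist _)))))))))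
  have k38 : T.Ok5 r b d e f := T.n5 hN (.cons _ (.cons_cons _ (.cons _ (.cons_cons _ (.cons _ (.cons_cons _ (.cons_cons _ (.cons_cons _ (List.nil_sublist _)))))))))
  have k39 : T.Ok5 r c d e f := T.n5 hN (.cons _ (.cons_cons _ (.cons _ (.cons _ (.cons_cons _ (.cons_cons _ (.cons_cons _ (.cons_cons _ (List.nil_sublist _)))))))))
  have k40 : T.Ok5 a b c d f := T.n5 hN (.cons _ (.cons _ (.cons_cons _ (.cons_cons _ (.cons_cons _ (.cons_cons _ (.cons _ (.cons_cons _ (List.nil_sublist _)))))))))
  have k41 : T.Ok5 a b d e f := T.n5 hN (.cons _ (.cons _ (.cons_cons _ (.cons_cons _ (.cons _ (.cons_cons _ (.cons_cons _ (.cons_cons _ (List.nil_sublist _)))))))))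
  have k42 : T.Ok5 a c d e f := T.n5 hN (.cons _ (.cons _ (.cons_cons _ (.cons _ (.cons_cons _ (.cons_cons _ (.cons_cons _ (.cons_cons _ (List.nil_sublist _)))))))))
  have k43 : T.Ok5 b c d e f := T.n5 hN (.cons _ (.cons _ (.cons _ (.cons_cons _ (.cons_cons _ (.cons_cons _ (.cons_cons _ (.cons_cons _ (List.nil_sublist _)))))))))
  have sp0 : T.Sp5 p r a b c d := T.sp5 hN (.cons_cons _ (.cons_cons _ (.cons_cons _ (.cons_cons _ (.cons_cons _ (.cons_cons _ (List.nil_sublist _)))))))
  have sp1 : T.Sp5 p r a b c e := T.sp5 hN (.cons_cons _ (.cons_cons _ (.cons_cons _ (.cons_cons _ (.cons_cons _ (.cons _ (.cons_cons _ (List.nil_sublist _))))))))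
  have sp2 : T.Sp5 p r a b c f := T.sp5 hN (.cons_cons _ (.cons_cons _ (.cons_cons _ (.cons_cons _ (.cons_cons _ (.cons _ (.cons _ (.cons_cons _ (List.nil_sublist _)))))))))
  have sp3 : T.Sp5 p r a b d e := T.sp5 hN (.cons_cons _ (.cons_cons _ (.cons_cons _ (.cons_cons _ (.cons _ (.cons_cons _ (.cons_cons _ (List.nil_sublist _))))))))
  have sp4 : T.Sp5 p r a b d f := T.sp5 hN (.cons_cons _ (.cons_cons _ (.cons_cons _ (.cons_cons _ (.cons _ (.cons_cons _ (.cons _ (.cons_cons _ (List.nil_sublist _)))))))))
  have sp5 : T.Sp5 p r a b e f := T.sp5 hN (.cons_cons _ (.cons_cons _ (.cons_cons _ (.cons_cons _ (.cons _ (.cons _ (.cons_cons _ (.cons_cons _ (List.nil_sublist _)))))))))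
  have sp6 : T.Sp5 p r a c d e := T.sp5 hN (.cons_cons _ (.cons_cons _ (.cons_cons _ (.cons _ (.cons_cons _ (.cons_cons _ (.cons_cons _ (List.nil_sublist _))))))))
  have sp7 : T.Sp5 p r a c d f := T.sp5 hN (.cons_cons _ (.cons_cons _ (.cons_cons _ (.cons _ (.cons_cons _ (.cons_cons _ (.cons _ (.cons_cons _ (List.nil_sublist _)))))))))
  have sp8 : T.Sp5 p r a c e f := T.sp5 hN (.cons_cons _ (.cons_cons _ (.cons_cons _ (.cons _ (.cons_cons _ (.cons _ (.cons_cons _ (.cons_cons _ (List.nil_sublist _)))))))))
  have sp9 : T.Sp5 p r a d e f := T.sp5 hN (.cons_cons _ (.cons_cons _ (.cons_cons _ (.cons _ (.cons _ (.cons_cons _ (.cons_cons _ (.cons_cons _ (List.nil_sublist _)))))))))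
  have sp10 : T.Sp5 p r b c d e := T.sp5 hN (.cons_cons _ (.cons_cons _ (.cons _ (.cons_cons _ (.cons_cons _ (.cons_cons _ (.cons_cons _ (List.nil_sublist _))))))))
  have sp11 : T.Sp5 p r b c d f := T.sp5 hN (.cons_cons _ (.cons_cons _ (.cons _ (.cons_cons _ (.cons_cons _ (.cons_cons _ (.cons _ (.cons_cons _ (List.nil_sublist _)))))))))
  have sp12 : T.Sp5 p r b c e f := T.sp5 hN (.cons_cons _ (.cons_cons _ (.cons _ (.cons_cons _ (.cons_cons _ (.cons _ (.cons_cons _ (.cons_cons _ (List.nil_sublist _)))))))))
  have sp13 : T.Sp5 p r b d e f := T.sp5 hN (.cons_cons _ (.cons_cons _ (.cons _ (.cons_cons _ (.cons _ (.cons_cons _ (.cons_cons _ (.cons_cons _ (List.nil_sublist _)))))))))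
  have sp14 : T.Sp5 p r c d e f := T.sp5 hN (.cons_cons _ (.cons_cons _ (.cons _ (.cons _ (.cons_cons _ (.cons_cons _ (.cons_cons _ (.cons_cons _ (List.nil_sublist _)))))))))
  have sp15 : T.Sp5 p a b c d e := T.sp5 hN (.cons_cons _ (.cons _ (.cons_cons _ (.cons_cons _ (.cons_cons _ (.cons_cons _ (.cons_cons _ (List.nil_sublist _))))))))
  have sp16 : T.Sp5 p a b c d f := T.sp5 hN (.cons_cons _ (.cons _ (.cons_cons _ (.cons_cons _ (.cons_cons _ (.cons_cons _ (.cons _ (.cons_cons _ (List.nil_sublist _)))))))))
  have sp17 : T.Sp5 p a b c e f := T.sp5 hN (.cons_cons _ (.cons _ (.cons_cons _ (.cons_cons _ (.cons_cons _ (.cons _ (.cons_cons _ (.cons_cons _ (List.nil_sublist _)))))))))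
  have sp18 : T.Sp5 p a b d e f := T.sp5 hN (.cons_cons _ (.cons _ (.cons_cons _ (.cons_cons _ (.cons _ (.cons_cons _ (.cons_cons _ (.cons_cons _ (List.nil_sublist _)))))))))
  have sp19 : T.Sp5 p a c d e f := T.sp5 hN (.cons_cons _ (.cons _ (.cons_cons _ (.cons _ (.cons_cons _ (.cons_cons _ (.cons_cons _ (.cons_cons _ (List.nil_sublist _)))))))))
  have sp20 : T.Sp5 p b c d e f := T.sp5 hN (.cons_cons _ (.cons _ (.cons _ (.cons_cons _ (.cons_cons _ (.cons_cons _ (.cons_cons _ (.cons_cons _ (List.nil_sublist _)))))))))
  have g1 := T.q01 p r a b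
  have g2 := T.q02 p r a b
  have g7 := T.q01 p r a d
  have g8 := T.q02 p r a d
  have g9 := T.q12 p r a d
  have g10 := T.q01 p r a e
  have g13 := T.q01 p r a f
  have g15 := T.q12 p r a f
  have g16 := T.q01 p r b c
  have g17 := T.q02 p r b c
  have g19 := T.q01 p r b d
  have g20 := T.q02 p r b d
  have g21 := T.q12 p r b d
  have g23 := T.q02 p r b e
  have g26 := T.q02 p r b f
  have g27 := T.q12 p r b f
  have g28 := T.q01 p r c d
  have g29 := T.q02 p r c d
  have g34 := T.q01 p r c f
  have g35 := T.q02 p r c f
  have g36 := T.q12 p r c f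
  have g37 := T.q01 p r d e
  have g38 := T.q02 p r d e
  have g40 := T.q01 p r d f
  have g41 := T.q02 p r d f
  have g42 := T.q12 p r d f
  have g43 := T.q01 p r e f
  have g44 := T.q02 p r e f
  have g47 := T.q02 p a b c
  have g48 := T.q12 p a b c
  have g50 := T.q02 p a b d
  have g51 := T.q12 p a b d
  have g56 := T.q02 p a b f
  have g57 := T.q12 p a b f
  have g59 := T.q02 p a c d
  have g70 := T.q01 p a d f
  have g72 := T.q12 p a d f
  have g74 := T.q02 p a e f
  have g78 := T.q12 p b c d
  have g80 := T.q02 p b c e
  have g81 := T.q12 p b c e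
  have g82 := T.q01 p b c f
  have g83 := T.q02 p b c f
  have g84 := T.q12 p b c f
  have g85 := T.q01 p b d e
  have g86 := T.q02 p b d e
  have g87 := T.q12 p b d e
  have g88 := T.q01 p b d f
  have g89 := T.q02 p b d f
  have g90 := T.q12 p b d f
  have g91 := T.q01 p b e f
  have g92 := T.q02 p b e f
  have g93 := T.q12 p b e f
  have g94 := T.q01 p c d e
  have g95 := T.q02 p c d e
  have g96 := T.q12 p c d e
  have g97 := T.q01 p c d f
  have g98 := T.q02 p c d f
  have g99 := T.q12 p c d f
  have g100 := T.q01 p c e f
  have g101 := T.q02 p c e f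
  have g102 := T.q12 p c e f
  have g103 := T.q01 p d e f
  have g104 := T.q02 p d e f
  have g105 := T.q12 p d e f
  have g109 := T.q01 r a b d
  have g110 := T.q02 r a b d
  have g111 := T.q12 r a b d
  have g117 := T.q12 r a b f
  have g119 := T.q02 r a c d
  have g131 := T.q02 r a d f
  have g132 := T.q12 r a d f
  have g135 := T.q12 r a e f
  have g136 := T.q01 r b c d
  have g137 := T.q02 r b c d
  have g143 := T.q02 r b c f
  have g148 := T.q01 r b d f
  have g149 := T.q02 r b d f
  have g150 := T.q12 r b d f
  have g152 := T.q02 r b e f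
  have g158 := T.q02 r c d f
  have g159 := T.q12 r c d f
  have g160 := T.q01 r c e f
  have g161 := T.q02 r c e f
  have g163 := T.q01 r d e f
  have g164 := T.q02 r d e f
  have g172 := T.q01 a b c f
  have g175 := T.q01 a b d e
  have g176 := T.q02 a b d e
  have g177 := T.q12 a b d e
  have g178 := T.q01 a b d f
  have g179 := T.q02 a b d f
  have g188 := T.q02 a c d f
  have g193 := T.q01 a d e f
  have g194 := T.q02 a d e f
  have g195 := T.q12 a d e f
  have g196 := T.q01 b c d e
  have g197 := T.q02 b c d e
  have g198 := T.q12 b c d e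
  have g199 := T.q01 b c d f
  have g200 := T.q02 b c d f
  have g201 := T.q12 b c d f
  have g202 := T.q01 b c e f
  have g203 := T.q02 b c e f
  have g205 := T.q01 b d e f
  have g206 := T.q02 b d e f
  have g298 := fun ha : T.alt p r a b c = true => zA0_18449_1 (T.okA0 k0 ha)
  have g311 := fun ha : T.alt p r a b c = true => zA0_294_256 (T.okA0 k0 ha)
  have g322 := fun ha : T.alt p r a b c = true => zA0_2081_33 (T.okA0 k0 ha)
  have g392 := T.ae1 k1
  have g394 := T.ae02 k1
  have g492 := fun ha : T.alt p r a b d = true => zA0_294_256 (T.okA0 k1 ha)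
  have g503 := fun ha : T.alt p r a b d = true => zA0_2081_33 (T.okA0 k1 ha)
  have g534 := fun ha : T.alt p r d a b = true => zA2_8458_256 (T.okA2 k1 ha)
  have g535 := fun ha : T.alt p r d a b = true => zA2_4704_64 (T.okA2 k1 ha)
  have g537 := fun ha : T.alt p r d a b = true => zA2_4196_32 (T.okA2 k1 ha)
  have g543 := fun ha : T.alt p r d a b = true => zA2_18433_2049 (T.okA2 k1 ha)
  have g544 := fun ha : T.alt p r d a b = true => zA2_16401_17 (T.okA2 k1 ha)
  have g546 := fun ha : T.alt p r d a b = true => zA2_16513_129 (T.okA2 k1 ha)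
  have g552 := fun ha : T.alt p r d a b = true => zA2_18577_16385 (T.okA2 k1 ha)
  have g556 := fun ha : T.alt p r d a b = true => zA2_2089_2049 (T.okA2 k1 ha)
  have g558 := fun ha : T.alt p r d a b = true => zA2_164_160 (T.okA2 k1 ha)
  have g559 := fun ha : T.alt p r d a b = true => zA2_577_513 (T.okA2 k1 ha)
  have g561 := fun ha : T.alt p r d a b = true => zA2_150_144 (T.okA2 k1 ha)
  have g562 := fun ha : T.alt p r d a b = true => zA2_1160_136 (T.okA2 k1 ha)
  have g575 := T.ae02 k2
  have g684 := fun ha : T.alt p r a b e = true => zA0_2081_33 (T.okA0 k2 ha)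
  have g725 := fun ha : T.alt p r e a b = true => zA2_16401_17 (T.okA2 k2 ha)
  have g754 := T.ae1 k3
  have g824 := fun ha : T.alt p r a b f = true => zA0_16642_16640 (T.okA0 k3 ha)
  have g854 := fun ha : T.alt p r a b f = true => zA0_294_256 (T.okA0 k3 ha)
  have g860 := fun ha : T.alt p r a b f = true => zA0_720_16 (T.okA0 k3 ha)
  have g868 := fun ha : T.alt p r a b f = true => zA0_18577_16401 (T.okA0 k3 ha)
  have g896 := fun ha : T.alt p r f a b = true => zA2_8458_256 (T.okA2 k3 ha)
  have g900 := fun ha : T.alt p r f a b = true => zA2_9480_8 (T.okA2 k3 ha)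
  have g903 := fun ha : T.alt p r f a b = true => zA2_9226_1024 (T.okA2 k3 ha)
  have g906 := fun ha : T.alt p r f a b = true => zA2_16401_17 (T.okA2 k3 ha)
  have g908 := fun ha : T.alt p r f a b = true => zA2_16513_129 (T.okA2 k3 ha)
  have g914 := fun ha : T.alt p r f a b = true => zA2_18577_16385 (T.okA2 k3 ha)
  have g918 := fun ha : T.alt p r f a b = true => zA2_2089_2049 (T.okA2 k3 ha)
  have g921 := fun ha : T.alt p r f a b = true => zA2_577_513 (T.okA2 k3 ha)
  have g923 := fun ha : T.alt p r f a b = true => zA2_150_144 (T.okA2 k3 ha)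
  have g935 := T.ae1 k4
  have g937 := T.ae02 k4
  have g938 := T.ae12 k4
  have g979 := fun ha : T.alt p r c a d = true => zA1_1608_64 (T.okA1 k4 ha)
  have g985 := fun ha : T.alt p r c a d = true => zA1_1168_1040 (T.okA1 k4 ha)
  have g1022 := fun ha : T.alt p r a c d = true => zA0_18449_1 (T.okA0 k4 ha)
  have g1027 := fun ha : T.alt p r a c d = true => zA0_4672_576 (T.okA0 k4 ha)
  have g1078 := fun ha : T.alt p r d a c = true => zA2_4704_64 (T.okA2 k4 ha)
  have g1106 := fun ha : T.alt p r d a c = true => zA2_4164_68 (T.okA2 k4 ha)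
  have g1164 := fun ha : T.alt p r c a e = true => zA1_292_260 (T.okA1 k5 ha)
  have g1299 := T.ae02 k6
  have g1370 := fun ha : T.alt p r a c f = true => zA0_2085_2048 (T.okA0 k6 ha)
  have g1400 := fun ha : T.alt p r a c f = true => zA0_1608_8 (T.okA0 k6 ha)
  have g1479 := T.ae01 k7
  have g1481 := T.ae12 k7
  have g1630 := fun ha : T.alt p r e a d = true => zA2_16401_17 (T.okA2 k7 ha)
  have g1640 := fun ha : T.alt p r e a d = true => zA2_2625_64 (T.okA2 k7 ha)
  have g1642 := fun ha : T.alt p r e a d = true => zA2_2089_2049 (T.okA2 k7 ha)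
  have g1659 := T.ae1 k8
  have g1660 := T.ae01 k8
  have g1662 := T.ae12 k8
  have g1673 := fun ha : T.alt p r d a f = true => zA1_2307_2048 (T.okA1 k8 ha)
  have g1674 := fun ha : T.alt p r d a f = true => zA1_9482_0 (T.okA1 k8 ha)
  have g1682 := fun ha : T.alt p r d a f = true => zA1_4704_512 (T.okA1 k8 ha)
  have g1695 := fun ha : T.alt p r d a f = true => zA1_8456_264 (T.okA1 k8 ha)
  have g1697 := fun ha : T.alt p r d a f = true => zA1_16401_17 (T.okA1 k8 ha)
  have g1706 := fun ha : T.alt p r d a f = true => zA1_1176_128 (T.okA1 k8 ha)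
  have g1708 := fun ha : T.alt p r d a f = true => zA1_584_520 (T.okA1 k8 ha)
  have g1758 := fun ha : T.alt p r a d f = true => zA0_4708_4100 (T.okA0 k8 ha)
  have g1768 := fun ha : T.alt p r a d f = true => zA0_656_640 (T.okA0 k8 ha)
  have g1805 := fun ha : T.alt p r f a d = true => zA2_9480_8 (T.okA2 k8 ha)
  have g1829 := fun ha : T.alt p r f a d = true => zA2_1160_136 (T.okA2 k8 ha)
  have g1840 := T.ae1 k9
  have g1843 := T.ae12 k9
  have g1855 := fun ha : T.alt p r e a f = true => zA1_9482_0 (T.okA1 k9 ha)
  have g1860 := fun ha : T.alt p r e a f = true => zA1_18576_16 (T.okA1 k9 ha)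
  have g1884 := fun ha : T.alt p r e a f = true => zA1_1608_64 (T.okA1 k9 ha)
  have g2023 := T.ae02 k10
  have g2024 := T.ae12 k10
  have g2153 := fun ha : T.alt p r d b c = true => zA2_1176_1024 (T.okA2 k10 ha)
  have g2164 := fun ha : T.alt p r d b c = true => zA2_4704_64 (T.okA2 k10 ha)
  have g2170 := fun ha : T.alt p r d b c = true => zA2_9226_1024 (T.okA2 k10 ha)
  have g2173 := fun ha : T.alt p r d b c = true => zA2_16401_17 (T.okA2 k10 ha)
  have g2178 := fun ha : T.alt p r d b c = true => zA2_4640_544 (T.okA2 k10 ha)
  have g2180 := fun ha : T.alt p r d b c = true => zA2_180_4 (T.okA2 k10 ha)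
  have g2183 := fun ha : T.alt p r d b c = true => zA2_2625_64 (T.okA2 k10 ha)
  have g2189 := fun ha : T.alt p r d b c = true => zA2_2306_2050 (T.okA2 k10 ha)
  have g2192 := fun ha : T.alt p r d b c = true => zA2_4164_68 (T.okA2 k10 ha)
  have g2201 := fun ha : T.alt p r d b c = true => zA2_4708_4672 (T.okA2 k10 ha)
  have g2217 := fun ha : T.alt p r c b e = true => zA1_9482_0 (T.okA1 k11 ha)
  have g2225 := fun ha : T.alt p r c b e = true => zA1_4704_512 (T.okA1 k11 ha)
  have g2251 := fun ha : T.alt p r c b e = true => zA1_584_520 (T.okA1 k11 ha)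
  have g2254 := fun ha : T.alt p r c b e = true => zA1_2305_257 (T.okA1 k11 ha)
  have g2383 := T.ae1 k12
  have g2386 := T.ae12 k12
  have g2394 := fun ha : T.alt p r c b f = true => zA1_16420_16416 (T.okA1 k12 ha)
  have g2424 := fun ha : T.alt p r c b f = true => zA1_294_32 (T.okA1 k12 ha)
  have g2515 := fun ha : T.alt p r f b c = true => zA2_1176_1024 (T.okA2 k12 ha)
  have g2526 := fun ha : T.alt p r f b c = true => zA2_4704_64 (T.okA2 k12 ha)
  have g2534 := fun ha : T.alt p r f b c = true => zA2_18433_2049 (T.okA2 k12 ha)
  have g2535 := fun ha : T.alt p r f b c = true => zA2_16401_17 (T.okA2 k12 ha)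
  have g2545 := fun ha : T.alt p r f b c = true => zA2_2625_64 (T.okA2 k12 ha)
  have g2549 := fun ha : T.alt p r f b c = true => zA2_164_160 (T.okA2 k12 ha)
  have g2589 := fun ha : T.alt p r d b e = true => zA1_4676_64 (T.okA1 k13 ha)
  have g2594 := fun ha : T.alt p r d b e = true => zA1_18577_16384 (T.okA1 k13 ha)
  have g2603 := fun ha : T.alt p r d b e = true => zA1_4612_516 (T.okA1 k13 ha)
  have g2605 := fun ha : T.alt p r d b e = true => zA1_294_32 (T.okA1 k13 ha)
  have g2614 := fun ha : T.alt p r d b e = true => zA1_1168_1040 (T.okA1 k13 ha)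
  have g2626 := fun ha : T.alt p r d b e = true => zA1_4708_4672 (T.okA1 k13 ha)
  have g2745 := T.ae1 k14
  have g2748 := T.ae12 k14
  have g2760 := fun ha : T.alt p r d b f = true => zA1_9482_0 (T.okA1 k14 ha)
  have g2765 := fun ha : T.alt p r d b f = true => zA1_18576_16 (T.okA1 k14 ha)
  have g2767 := fun ha : T.alt p r d b f = true => zA1_4644_32 (T.okA1 k14 ha)
  have g2773 := fun ha : T.alt p r d b f = true => zA1_18561_1 (T.okA1 k14 ha)
  have g2775 := fun ha : T.alt p r d b f = true => zA1_18577_16384 (T.okA1 k14 ha)
  have g2782 := fun ha : T.alt p r d b f = true => zA1_9472_1280 (T.okA1 k14 ha)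
  have g2784 := fun ha : T.alt p r d b f = true => zA1_4612_516 (T.okA1 k14 ha)
  have g2786 := fun ha : T.alt p r d b f = true => zA1_294_32 (T.okA1 k14 ha)
  have g2794 := fun ha : T.alt p r d b f = true => zA1_584_520 (T.okA1 k14 ha)
  have g2807 := fun ha : T.alt p r d b f = true => zA1_4708_4672 (T.okA1 k14 ha)
  have g2877 := fun ha : T.alt p r f b d = true => zA2_1176_1024 (T.okA2 k14 ha)
  have g2883 := fun ha : T.alt p r f b d = true => zA2_9474_2 (T.okA2 k14 ha)
  have g2886 := fun ha : T.alt p r f b d = true => zA2_4676_512 (T.okA2 k14 ha)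
  have g2887 := fun ha : T.alt p r f b d = true => zA2_8458_256 (T.okA2 k14 ha)
  have g2895 := fun ha : T.alt p r f b d = true => zA2_16528_144 (T.okA2 k14 ha)
  have g2899 := fun ha : T.alt p r f b d = true => zA2_16513_129 (T.okA2 k14 ha)
  have g2908 := fun ha : T.alt p r f b d = true => zA2_18577_16512 (T.okA2 k14 ha)
  have g2910 := fun ha : T.alt p r f b d = true => zA2_2307_256 (T.okA2 k14 ha)
  have g2911 := fun ha : T.alt p r f b d = true => zA2_164_160 (T.okA2 k14 ha)
  have g2912 := fun ha : T.alt p r f b d = true => zA2_577_513 (T.okA2 k14 ha)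
  have g2914 := fun ha : T.alt p r f b d = true => zA2_150_144 (T.okA2 k14 ha)
  have g2915 := fun ha : T.alt p r f b d = true => zA2_1160_136 (T.okA2 k14 ha)
  have g2928 := T.ae02 k15
  have g2929 := T.ae12 k15
  have g3058 := fun ha : T.alt p r f b e = true => zA2_1176_1024 (T.okA2 k15 ha)
  have g3069 := fun ha : T.alt p r f b e = true => zA2_4704_64 (T.okA2 k15 ha)
  have g3072 := fun ha : T.alt p r f b e = true => zA2_9480_8 (T.okA2 k15 ha)
  have g3078 := fun ha : T.alt p r f b e = true => zA2_16401_17 (T.okA2 k15 ha)
  have g3085 := fun ha : T.alt p r f b e = true => zA2_180_4 (T.okA2 k15 ha)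
  have g3088 := fun ha : T.alt p r f b e = true => zA2_2625_64 (T.okA2 k15 ha)
  have g3106 := fun ha : T.alt p r f b e = true => zA2_4708_4672 (T.okA2 k15 ha)
  have g3107 := T.ae1 k16
  have g3108 := T.ae01 k16
  have g3109 := T.ae02 k16
  have g3110 := T.ae12 k16
  have g3148 := fun ha : T.alt p r d c e = true => zA1_294_32 (T.okA1 k16 ha)
  have g3159 := fun ha : T.alt p r d c e = true => zA1_2305_257 (T.okA1 k16 ha)
  have g3215 := fun ha : T.alt p r c d e = true => zA0_1096_1088 (T.okA0 k16 ha)
  have g3218 := fun ha : T.alt p r c d e = true => zA0_2081_33 (T.okA0 k16 ha)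
  have g3288 := T.ae1 k17
  have g3289 := T.ae01 k17
  have g3290 := T.ae02 k17
  have g3291 := T.ae12 k17
  have g3303 := fun ha : T.alt p r d c f = true => zA1_9482_0 (T.okA1 k17 ha)
  have g3311 := fun ha : T.alt p r d c f = true => zA1_4704_512 (T.okA1 k17 ha)
  have g3313 := fun ha : T.alt p r d c f = true => zA1_4676_64 (T.okA1 k17 ha)
  have g3316 := fun ha : T.alt p r d c f = true => zA1_18561_1 (T.okA1 k17 ha)
  have g3326 := fun ha : T.alt p r d c f = true => zA1_16401_17 (T.okA1 k17 ha)
  have g3329 := fun ha : T.alt p r d c f = true => zA1_294_32 (T.okA1 k17 ha)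
  have g3332 := fun ha : T.alt p r d c f = true => zA1_1608_64 (T.okA1 k17 ha)
  have g3338 := fun ha : T.alt p r d c f = true => zA1_1168_1040 (T.okA1 k17 ha)
  have g3340 := fun ha : T.alt p r d c f = true => zA1_2305_257 (T.okA1 k17 ha)
  have g3342 := fun ha : T.alt p r d c f = true => zA1_18560_2176 (T.okA1 k17 ha)
  have g3343 := fun ha : T.alt p r d c f = true => zA1_18577_16513 (T.okA1 k17 ha)
  have g3358 := fun ha : T.alt p r c d f = true => zA0_16642_16640 (T.okA0 k17 ha)
  have g3362 := fun ha : T.alt p r c d f = true => zA0_4708_0 (T.okA0 k17 ha)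
  have g3375 := fun ha : T.alt p r c d f = true => zA0_18449_1 (T.okA0 k17 ha)
  have g3385 := fun ha : T.alt p r c d f = true => zA0_16513_129 (T.okA0 k17 ha)
  have g3388 := fun ha : T.alt p r c d f = true => zA0_294_256 (T.okA0 k17 ha)
  have g3397 := fun ha : T.alt p r c d f = true => zA0_656_640 (T.okA0 k17 ha)
  have g3399 := fun ha : T.alt p r c d f = true => zA0_2081_33 (T.okA0 k17 ha)
  have g3401 := fun ha : T.alt p r c d f = true => zA0_18448_2064 (T.okA0 k17 ha)
  have g3403 := fun ha : T.alt p r c d f = true => zA0_18577_18433 (T.okA0 k17 ha)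
  have g3430 := fun ha : T.alt p r f c d = true => zA2_8458_256 (T.okA2 k17 ha)
  have g3431 := fun ha : T.alt p r f c d = true => zA2_4704_64 (T.okA2 k17 ha)
  have g3434 := fun ha : T.alt p r f c d = true => zA2_9480_8 (T.okA2 k17 ha)
  have g3439 := fun ha : T.alt p r f c d = true => zA2_18433_2049 (T.okA2 k17 ha)
  have g3440 := fun ha : T.alt p r f c d = true => zA2_16401_17 (T.okA2 k17 ha)
  have g3442 := fun ha : T.alt p r f c d = true => zA2_16513_129 (T.okA2 k17 ha)
  have g3448 := fun ha : T.alt p r f c d = true => zA2_18577_16385 (T.okA2 k17 ha)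
  have g3454 := fun ha : T.alt p r f c d = true => zA2_164_160 (T.okA2 k17 ha)
  have g3455 := fun ha : T.alt p r f c d = true => zA2_577_513 (T.okA2 k17 ha)
  have g3457 := fun ha : T.alt p r f c d = true => zA2_150_144 (T.okA2 k17 ha)
  have g3458 := fun ha : T.alt p r f c d = true => zA2_1160_136 (T.okA2 k17 ha)
  have g3469 := T.ae1 k18
  have g3470 := T.ae01 k18
  have g3471 := T.ae02 k18
  have g3472 := T.ae12 k18
  have g3494 := fun ha : T.alt p r e c f = true => zA1_4676_64 (T.okA1 k18 ha)
  have g3513 := fun ha : T.alt p r e c f = true => zA1_1608_64 (T.okA1 k18 ha)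
  have g3519 := fun ha : T.alt p r e c f = true => zA1_1168_1040 (T.okA1 k18 ha)
  have g3531 := fun ha : T.alt p r e c f = true => zA1_4708_4672 (T.okA1 k18 ha)
  have g3556 := fun ha : T.alt p r c e f = true => zA0_18449_1 (T.okA0 k18 ha)
  have g3561 := fun ha : T.alt p r c e f = true => zA0_4672_576 (T.okA0 k18 ha)
  have g3612 := fun ha : T.alt p r f c e = true => zA2_4704_64 (T.okA2 k18 ha)
  have g3649 := fun ha : T.alt p r f c e = true => zA2_4708_4672 (T.okA2 k18 ha)
  have g3650 := T.ae1 k19
  have g3651 := T.ae01 k19
  have g3652 := T.ae02 k19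
  have g3653 := T.ae12 k19
  have g3670 := fun ha : T.alt p r e d f = true => zA1_18576_16 (T.okA1 k19 ha)
  have g3694 := fun ha : T.alt p r e d f = true => zA1_1608_64 (T.okA1 k19 ha)
  have g3700 := fun ha : T.alt p r e d f = true => zA1_1168_1040 (T.okA1 k19 ha)
  have g3733 := fun ha : T.alt p r d e f = true => zA0_16529_16 (T.okA0 k19 ha)
  have g3742 := fun ha : T.alt p r d e f = true => zA0_4672_576 (T.okA0 k19 ha)
  have g3782 := fun ha : T.alt p r f d e = true => zA2_1176_1024 (T.okA2 k19 ha)
  have g3793 := fun ha : T.alt p r f d e = true => zA2_4704_64 (T.okA2 k19 ha)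
  have g3802 := fun ha : T.alt p r f d e = true => zA2_16401_17 (T.okA2 k19 ha)
  have g3812 := fun ha : T.alt p r f d e = true => zA2_2625_64 (T.okA2 k19 ha)
  have g3831 := T.ae1 k20
  have g3832 := T.ae01 k20
  have g3833 := T.ae02 k20
  have g3834 := T.ae12 k20
  have g3845 := fun ha : T.alt p a c b d = true => zA1_2307_2048 (T.okA1 k20 ha)
  have g3853 := fun ha : T.alt p a c b d = true => zA1_4644_32 (T.okA1 k20 ha)
  have g3856 := fun ha : T.alt p a c b d = true => zA1_4676_64 (T.okA1 k20 ha)
  have g3858 := fun ha : T.alt p a c b d = true => zA1_4196_4 (T.okA1 k20 ha)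
  have g3870 := fun ha : T.alt p a c b d = true => zA1_4612_516 (T.okA1 k20 ha)
  have g3879 := fun ha : T.alt p a c b d = true => zA1_292_260 (T.okA1 k20 ha)
  have g3905 := fun ha : T.alt p a b c d = true => zA0_4708_0 (T.okA0 k20 ha)
  have g3924 := fun ha : T.alt p a b c d = true => zA0_4164_68 (T.okA0 k20 ha)
  have g3926 := fun ha : T.alt p a b c d = true => zA0_4192_96 (T.okA0 k20 ha)
  have g3927 := fun ha : T.alt p a b c d = true => zA0_4640_544 (T.okA0 k20 ha)
  have g3971 := fun ha : T.alt p a d b c = true => zA2_4644_4 (T.okA2 k20 ha)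
  have g3974 := fun ha : T.alt p a d b c = true => zA2_4704_64 (T.okA2 k20 ha)
  have g3988 := fun ha : T.alt p a d b c = true => zA2_4640_544 (T.okA2 k20 ha)
  have g4001 := fun ha : T.alt p a d b c = true => zA2_1160_136 (T.okA2 k20 ha)
  have g4141 := fun ha : T.alt p a e b c = true => zA2_8228_8196 (T.okA2 k21 ha)
  have g4161 := fun ha : T.alt p a e b c = true => zA2_9226_1024 (T.okA2 k21 ha)
  have g4193 := T.ae1 k22
  have g4196 := T.ae12 k22
  have g4204 := fun ha : T.alt p a c b f = true => zA1_16420_16416 (T.okA1 k22 ha)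
  have g4215 := fun ha : T.alt p a c b f = true => zA1_4644_32 (T.okA1 k22 ha)
  have g4284 := fun ha : T.alt p a b c f = true => zA0_4132_36 (T.okA0 k22 ha)
  have g4301 := fun ha : T.alt p a b c f = true => zA0_1096_1088 (T.okA0 k22 ha)
  have g4325 := fun ha : T.alt p a f b c = true => zA2_1176_1024 (T.okA2 k22 ha)
  have g4338 := fun ha : T.alt p a f b c = true => zA2_4196_32 (T.okA2 k22 ha)
  have g4350 := fun ha : T.alt p a f b c = true => zA2_4640_544 (T.okA2 k22 ha)
  have g4359 := fun ha : T.alt p a f b c = true => zA2_164_160 (T.okA2 k22 ha)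
  have g4374 := T.ae1 k23
  have g4377 := T.ae12 k23
  have g4396 := fun ha : T.alt p a d b e = true => zA1_4644_32 (T.okA1 k23 ha)
  have g4404 := fun ha : T.alt p a d b e = true => zA1_18577_16384 (T.okA1 k23 ha)
  have g4420 := fun ha : T.alt p a d b e = true => zA1_1037_1032 (T.okA1 k23 ha)
  have g4448 := fun ha : T.alt p a b d e = true => zA0_4708_0 (T.okA0 k23 ha)
  have g4463 := fun ha : T.alt p a b d e = true => zA0_18577_16384 (T.okA0 k23 ha)
  have g4503 := fun ha : T.alt p a e b d = true => zA2_8228_8196 (T.okA2 k23 ha)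
  have g4514 := fun ha : T.alt p a e b d = true => zA2_4644_4 (T.okA2 k23 ha)
  have g4520 := fun ha : T.alt p a e b d = true => zA2_9480_8 (T.okA2 k23 ha)
  have g4555 := T.ae1 k24
  have g4557 := T.ae02 k24
  have g4558 := T.ae12 k24
  have g4566 := fun ha : T.alt p a d b f = true => zA1_16420_16416 (T.okA1 k24 ha)
  have g4577 := fun ha : T.alt p a d b f = true => zA1_4644_32 (T.okA1 k24 ha)
  have g4586 := fun ha : T.alt p a d b f = true => zA1_18449_2048 (T.okA1 k24 ha)
  have g4592 := fun ha : T.alt p a d b f = true => zA1_9472_1280 (T.okA1 k24 ha)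
  have g4594 := fun ha : T.alt p a d b f = true => zA1_4612_516 (T.okA1 k24 ha)
  have g4634 := fun ha : T.alt p a b d f = true => zA0_18576_128 (T.okA0 k24 ha)
  have g4636 := fun ha : T.alt p a b d f = true => zA0_9474_256 (T.okA0 k24 ha)
  have g4646 := fun ha : T.alt p a b d f = true => zA0_4132_36 (T.okA0 k24 ha)
  have g4649 := fun ha : T.alt p a b d f = true => zA0_4612_516 (T.okA0 k24 ha)
  have g4665 := fun ha : T.alt p a b d f = true => zA0_420_36 (T.okA0 k24 ha)
  have g4687 := fun ha : T.alt p a f b d = true => zA2_1176_1024 (T.okA2 k24 ha)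
  have g4688 := fun ha : T.alt p a f b d = true => zA2_18577_0 (T.okA2 k24 ha)
  have g4693 := fun ha : T.alt p a f b d = true => zA2_9474_2 (T.okA2 k24 ha)
  have g4696 := fun ha : T.alt p a f b d = true => zA2_4676_512 (T.okA2 k24 ha)
  have g4700 := fun ha : T.alt p a f b d = true => zA2_4196_32 (T.okA2 k24 ha)
  have g4703 := fun ha : T.alt p a f b d = true => zA2_9482_8192 (T.okA2 k24 ha)
  have g4706 := fun ha : T.alt p a f b d = true => zA2_18433_2049 (T.okA2 k24 ha)
  have g4716 := fun ha : T.alt p a f b d = true => zA2_18577_18432 (T.okA2 k24 ha)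
  have g4718 := fun ha : T.alt p a f b d = true => zA2_18577_16512 (T.okA2 k24 ha)
  have g4721 := fun ha : T.alt p a f b d = true => zA2_164_160 (T.okA2 k24 ha)
  have g4735 := fun ha : T.alt p a f b d = true => zA2_4708_4672 (T.okA2 k24 ha)
  have g4736 := T.ae1 k25
  have g4775 := fun ha : T.alt p a e b f = true => zA1_4612_516 (T.okA1 k25 ha)
  have g4780 := fun ha : T.alt p a e b f = true => zA1_1608_64 (T.okA1 k25 ha)
  have g4789 := fun ha : T.alt p a e b f = true => zA1_4192_96 (T.okA1 k25 ha)
  have g4808 := fun ha : T.alt p a b e f = true => zA0_48_48 (T.okA0 k25 ha)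
  have g4827 := fun ha : T.alt p a b e f = true => zA0_4132_36 (T.okA0 k25 ha)
  have g4828 := fun ha : T.alt p a b e f = true => zA0_4672_576 (T.okA0 k25 ha)
  have g4829 := fun ha : T.alt p a b e f = true => zA0_4164_68 (T.okA0 k25 ha)
  have g4830 := fun ha : T.alt p a b e f = true => zA0_4612_516 (T.okA0 k25 ha)
  have g4831 := fun ha : T.alt p a b e f = true => zA0_4192_96 (T.okA0 k25 ha)
  have g4869 := fun ha : T.alt p a f b e = true => zA2_18577_0 (T.okA2 k25 ha)
  have g4877 := fun ha : T.alt p a f b e = true => zA2_4676_512 (T.okA2 k25 ha)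
  have g4881 := fun ha : T.alt p a f b e = true => zA2_4196_32 (T.okA2 k25 ha)
  have g5099 := T.ae01 k26
  have g5101 := T.ae12 k26
  have g5112 := fun ha : T.alt p a d c f = true => zA1_2307_2048 (T.okA1 k26 ha)
  have g5126 := fun ha : T.alt p a d c f = true => zA1_18561_1 (T.okA1 k26 ha)
  have g5129 := fun ha : T.alt p a d c f = true => zA1_18449_2048 (T.okA1 k26 ha)
  have g5150 := fun ha : T.alt p a d c f = true => zA1_2305_257 (T.okA1 k26 ha)
  have g5188 := fun ha : T.alt p a c d f = true => zA0_18561_2048 (T.okA0 k26 ha)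
  have g5241 := fun ha : T.alt p a f c d = true => zA2_4704_64 (T.okA2 k26 ha)
  have g5244 := fun ha : T.alt p a f c d = true => zA2_9480_8 (T.okA2 k26 ha)
  have g5249 := fun ha : T.alt p a f c d = true => zA2_18433_2049 (T.okA2 k26 ha)
  have g5461 := T.ae01 k27
  have g5462 := T.ae02 k27
  have g5463 := T.ae12 k27
  have g5483 := fun ha : T.alt p a e d f = true => zA1_4704_512 (T.okA1 k27 ha)
  have g5543 := fun ha : T.alt p a d e f = true => zA0_16529_16 (T.okA0 k27 ha)
  have g5552 := fun ha : T.alt p a d e f = true => zA0_4672_576 (T.okA0 k27 ha)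
  have g5554 := fun ha : T.alt p a d e f = true => zA0_4612_516 (T.okA0 k27 ha)
  have g5601 := fun ha : T.alt p a f d e = true => zA2_4676_512 (T.okA2 k27 ha)
  have g5627 := fun ha : T.alt p a f d e = true => zA2_577_513 (T.okA2 k27 ha)
  have g5641 := T.ae1 k28
  have g5644 := T.ae12 k28
  have g5652 := fun ha : T.alt p b d c e = true => zA1_16420_16416 (T.okA1 k28 ha)
  have g5672 := fun ha : T.alt p b d c e = true => zA1_18449_2048 (T.okA1 k28 ha)
  have g5673 := fun ha : T.alt p b d c e = true => zA1_8450_258 (T.okA1 k28 ha)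
  have g5685 := fun ha : T.alt p b d c e = true => zA1_1608_64 (T.okA1 k28 ha)
  have g5688 := fun ha : T.alt p b d c e = true => zA1_1176_128 (T.okA1 k28 ha)
  have g5714 := fun ha : T.alt p b c d e = true => zA0_2085_2048 (T.okA0 k28 ha)
  have g5724 := fun ha : T.alt p b c d e = true => zA0_16529_16 (T.okA0 k28 ha)
  have g5725 := fun ha : T.alt p b c d e = true => zA0_9226_8 (T.okA0 k28 ha)
  have g5727 := fun ha : T.alt p b c d e = true => zA0_8458_2 (T.okA0 k28 ha)
  have g5731 := fun ha : T.alt p b c d e = true => zA0_18561_2048 (T.okA0 k28 ha)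
  have g5736 := fun ha : T.alt p b c d e = true => zA0_4192_96 (T.okA0 k28 ha)
  have g5744 := fun ha : T.alt p b c d e = true => zA0_1608_8 (T.okA0 k28 ha)
  have g5747 := fun ha : T.alt p b c d e = true => zA0_720_16 (T.okA0 k28 ha)
  have g5748 := fun ha : T.alt p b c d e = true => zA0_290_34 (T.okA0 k28 ha)
  have g5751 := fun ha : T.alt p b c d e = true => zA0_420_36 (T.okA0 k28 ha)
  have g5774 := fun ha : T.alt p b e c d = true => zA2_18577_0 (T.okA2 k28 ha)
  have g5779 := fun ha : T.alt p b e c d = true => zA2_9474_2 (T.okA2 k28 ha)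
  have g5789 := fun ha : T.alt p b e c d = true => zA2_9482_8192 (T.okA2 k28 ha)
  have g5803 := fun ha : T.alt p b e c d = true => zA2_2625_64 (T.okA2 k28 ha)
  have g5804 := fun ha : T.alt p b e c d = true => zA2_18577_16512 (T.okA2 k28 ha)
  have g5807 := fun ha : T.alt p b e c d = true => zA2_164_160 (T.okA2 k28 ha)
  have g5812 := fun ha : T.alt p b e c d = true => zA2_4164_68 (T.okA2 k28 ha)
  have g5823 := T.ae01 k29
  have g5824 := T.ae02 k29
  have g5825 := T.ae12 k29
  have g5833 := fun ha : T.alt p b d c f = true => zA1_16420_16416 (T.okA1 k29 ha)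
  have g5836 := fun ha : T.alt p b d c f = true => zA1_2307_2048 (T.okA1 k29 ha)
  have g5844 := fun ha : T.alt p b d c f = true => zA1_4644_32 (T.okA1 k29 ha)
  have g5846 := fun ha : T.alt p b d c f = true => zA1_16529_128 (T.okA1 k29 ha)
  have g5849 := fun ha : T.alt p b d c f = true => zA1_4196_4 (T.okA1 k29 ha)
  have g5853 := fun ha : T.alt p b d c f = true => zA1_18449_2048 (T.okA1 k29 ha)
  have g5854 := fun ha : T.alt p b d c f = true => zA1_8450_258 (T.okA1 k29 ha)
  have g5856 := fun ha : T.alt p b d c f = true => zA1_8202_10 (T.okA1 k29 ha)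
  have g5858 := fun ha : T.alt p b d c f = true => zA1_8456_264 (T.okA1 k29 ha)
  have g5866 := fun ha : T.alt p b d c f = true => zA1_1608_64 (T.okA1 k29 ha)
  have g5867 := fun ha : T.alt p b d c f = true => zA1_9482_8448 (T.okA1 k29 ha)
  have g5895 := fun ha : T.alt p b c d f = true => zA0_2085_2048 (T.okA0 k29 ha)
  have g5912 := fun ha : T.alt p b c d f = true => zA0_18561_2048 (T.okA0 k29 ha)
  have g5913 := fun ha : T.alt p b c d f = true => zA0_4132_36 (T.okA0 k29 ha)
  have g5915 := fun ha : T.alt p b c d f = true => zA0_4164_68 (T.okA0 k29 ha)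
  have g5917 := fun ha : T.alt p b c d f = true => zA0_4192_96 (T.okA0 k29 ha)
  have g5925 := fun ha : T.alt p b c d f = true => zA0_1608_8 (T.okA0 k29 ha)
  have g5927 := fun ha : T.alt p b c d f = true => zA0_579_576 (T.okA0 k29 ha)
  have g5929 := fun ha : T.alt p b c d f = true => zA0_290_34 (T.okA0 k29 ha)
  have g5954 := fun ha : T.alt p b f c d = true => zA2_1176_1024 (T.okA2 k29 ha)
  have g5955 := fun ha : T.alt p b f c d = true => zA2_18577_0 (T.okA2 k29 ha)
  have g5960 := fun ha : T.alt p b f c d = true => zA2_9474_2 (T.okA2 k29 ha)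
  have g5962 := fun ha : T.alt p b f c d = true => zA2_4644_4 (T.okA2 k29 ha)
  have g5966 := fun ha : T.alt p b f c d = true => zA2_4708_4096 (T.okA2 k29 ha)
  have g5968 := fun ha : T.alt p b f c d = true => zA2_9480_8 (T.okA2 k29 ha)
  have g5970 := fun ha : T.alt p b f c d = true => zA2_9482_8192 (T.okA2 k29 ha)
  have g5980 := fun ha : T.alt p b f c d = true => zA2_18577_16400 (T.okA2 k29 ha)
  have g5981 := fun ha : T.alt p b f c d = true => zA2_180_4 (T.okA2 k29 ha)
  have g5983 := fun ha : T.alt p b f c d = true => zA2_18577_18432 (T.okA2 k29 ha)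
  have g5984 := fun ha : T.alt p b f c d = true => zA2_2625_64 (T.okA2 k29 ha)
  have g5987 := fun ha : T.alt p b f c d = true => zA2_2307_256 (T.okA2 k29 ha)
  have g5992 := fun ha : T.alt p b f c d = true => zA2_1160_136 (T.okA2 k29 ha)
  have g5993 := fun ha : T.alt p b f c d = true => zA2_4164_68 (T.okA2 k29 ha)
  have g6003 := T.ae1 k30
  have g6005 := T.ae02 k30
  have g6028 := fun ha : T.alt p b e c f = true => zA1_4676_64 (T.okA1 k30 ha)
  have g6031 := fun ha : T.alt p b e c f = true => zA1_18561_1 (T.okA1 k30 ha)
  have g6033 := fun ha : T.alt p b e c f = true => zA1_18577_16384 (T.okA1 k30 ha)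
  have g6037 := fun ha : T.alt p b e c f = true => zA1_8202_10 (T.okA1 k30 ha)
  have g6038 := fun ha : T.alt p b e c f = true => zA1_9218_1026 (T.okA1 k30 ha)
  have g6047 := fun ha : T.alt p b e c f = true => zA1_1608_64 (T.okA1 k30 ha)
  have g6053 := fun ha : T.alt p b e c f = true => zA1_1168_1040 (T.okA1 k30 ha)
  have g6056 := fun ha : T.alt p b e c f = true => zA1_4192_96 (T.okA1 k30 ha)
  have g6086 := fun ha : T.alt p b c e f = true => zA0_16529_16 (T.okA0 k30 ha)
  have g6087 := fun ha : T.alt p b c e f = true => zA0_9226_8 (T.okA0 k30 ha)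
  have g6089 := fun ha : T.alt p b c e f = true => zA0_8458_2 (T.okA0 k30 ha)
  have g6095 := fun ha : T.alt p b c e f = true => zA0_4672_576 (T.okA0 k30 ha)
  have g6096 := fun ha : T.alt p b c e f = true => zA0_4164_68 (T.okA0 k30 ha)
  have g6098 := fun ha : T.alt p b c e f = true => zA0_4192_96 (T.okA0 k30 ha)
  have g6108 := fun ha : T.alt p b c e f = true => zA0_579_576 (T.okA0 k30 ha)
  have g6111 := fun ha : T.alt p b c e f = true => zA0_1096_1088 (T.okA0 k30 ha)
  have g6114 := fun ha : T.alt p b c e f = true => zA0_2081_33 (T.okA0 k30 ha)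
  have g6165 := fun ha : T.alt p b f c e = true => zA2_2625_64 (T.okA2 k30 ha)
  have g6184 := T.ae1 k31
  have g6185 := T.ae01 k31
  have g6186 := T.ae02 k31
  have g6209 := fun ha : T.alt p b e d f = true => zA1_4676_64 (T.okA1 k31 ha)
  have g6234 := fun ha : T.alt p b e d f = true => zA1_1168_1040 (T.okA1 k31 ha)
  have g6237 := fun ha : T.alt p b e d f = true => zA1_4192_96 (T.okA1 k31 ha)
  have g6268 := fun ha : T.alt p b d e f = true => zA0_9226_8 (T.okA0 k31 ha)
  have g6270 := fun ha : T.alt p b d e f = true => zA0_8458_2 (T.okA0 k31 ha)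
  have g6271 := fun ha : T.alt p b d e f = true => zA0_18449_1 (T.okA0 k31 ha)
  have g6276 := fun ha : T.alt p b d e f = true => zA0_4672_576 (T.okA0 k31 ha)
  have g6278 := fun ha : T.alt p b d e f = true => zA0_4612_516 (T.okA0 k31 ha)
  have g6279 := fun ha : T.alt p b d e f = true => zA0_4192_96 (T.okA0 k31 ha)
  have g6280 := fun ha : T.alt p b d e f = true => zA0_4640_544 (T.okA0 k31 ha)
  have g6285 := fun ha : T.alt p b d e f = true => zA0_4708_4160 (T.okA0 k31 ha)
  have g6289 := fun ha : T.alt p b d e f = true => zA0_579_576 (T.okA0 k31 ha)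
  have g6291 := fun ha : T.alt p b d e f = true => zA0_290_34 (T.okA0 k31 ha)
  have g6292 := fun ha : T.alt p b d e f = true => zA0_1096_1088 (T.okA0 k31 ha)
  have g6293 := fun ha : T.alt p b d e f = true => zA0_656_640 (T.okA0 k31 ha)
  have g6294 := fun ha : T.alt p b d e f = true => zA0_420_36 (T.okA0 k31 ha)
  have g6295 := fun ha : T.alt p b d e f = true => zA0_2081_33 (T.okA0 k31 ha)
  have g6296 := fun ha : T.alt p b d e f = true => zA0_8456_264 (T.okA0 k31 ha)
  have g6327 := fun ha : T.alt p b f d e = true => zA2_4704_64 (T.okA2 k31 ha)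
  have g6330 := fun ha : T.alt p b f d e = true => zA2_9480_8 (T.okA2 k31 ha)
  have g6333 := fun ha : T.alt p b f d e = true => zA2_9226_1024 (T.okA2 k31 ha)
  have g6335 := fun ha : T.alt p b f d e = true => zA2_18433_2049 (T.okA2 k31 ha)
  have g6337 := fun ha : T.alt p b f d e = true => zA2_18448_2064 (T.okA2 k31 ha)
  have g6340 := fun ha : T.alt p b f d e = true => zA2_8202_10 (T.okA2 k31 ha)
  have g6343 := fun ha : T.alt p b f d e = true => zA2_180_4 (T.okA2 k31 ha)
  have g6346 := fun ha : T.alt p b f d e = true => zA2_2625_64 (T.okA2 k31 ha)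
  have g6352 := fun ha : T.alt p b f d e = true => zA2_2306_2050 (T.okA2 k31 ha)
  have g6355 := fun ha : T.alt p b f d e = true => zA2_4164_68 (T.okA2 k31 ha)
  have g6362 := fun ha : T.alt p b f d e = true => zA2_4708_4192 (T.okA2 k31 ha)
  have g6365 := T.ae1 k32
  have g6366 := T.ae01 k32
  have g6367 := T.ae02 k32
  have g6368 := T.ae12 k32
  have g6376 := fun ha : T.alt p c e d f = true => zA1_16420_16416 (T.okA1 k32 ha)
  have g6387 := fun ha : T.alt p c e d f = true => zA1_4644_32 (T.okA1 k32 ha)
  have g6388 := fun ha : T.alt p c e d f = true => zA1_4704_512 (T.okA1 k32 ha)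
  have g6389 := fun ha : T.alt p c e d f = true => zA1_16529_128 (T.okA1 k32 ha)
  have g6390 := fun ha : T.alt p c e d f = true => zA1_4676_64 (T.okA1 k32 ha)
  have g6392 := fun ha : T.alt p c e d f = true => zA1_4196_4 (T.okA1 k32 ha)
  have g6396 := fun ha : T.alt p c e d f = true => zA1_18449_2048 (T.okA1 k32 ha)
  have g6404 := fun ha : T.alt p c e d f = true => zA1_4612_516 (T.okA1 k32 ha)
  have g6412 := fun ha : T.alt p c e d f = true => zA1_1176_128 (T.okA1 k32 ha)
  have g6414 := fun ha : T.alt p c e d f = true => zA1_584_520 (T.okA1 k32 ha)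
  have g6418 := fun ha : T.alt p c e d f = true => zA1_4192_96 (T.okA1 k32 ha)
  have g6439 := fun ha : T.alt p c d e f = true => zA0_4708_0 (T.okA0 k32 ha)
  have g6444 := fun ha : T.alt p c d e f = true => zA0_18576_128 (T.okA0 k32 ha)
  have g6456 := fun ha : T.alt p c d e f = true => zA0_4132_36 (T.okA0 k32 ha)
  have g6457 := fun ha : T.alt p c d e f = true => zA0_4672_576 (T.okA0 k32 ha)
  have g6458 := fun ha : T.alt p c d e f = true => zA0_4164_68 (T.okA0 k32 ha)
  have g6459 := fun ha : T.alt p c d e f = true => zA0_4612_516 (T.okA0 k32 ha)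
  have g6460 := fun ha : T.alt p c d e f = true => zA0_4192_96 (T.okA0 k32 ha)
  have g6461 := fun ha : T.alt p c d e f = true => zA0_4640_544 (T.okA0 k32 ha)
  have g6462 := fun ha : T.alt p c d e f = true => zA0_16513_129 (T.okA0 k32 ha)
  have g6465 := fun ha : T.alt p c d e f = true => zA0_294_256 (T.okA0 k32 ha)
  have g6505 := fun ha : T.alt p c f d e = true => zA2_4644_4 (T.okA2 k32 ha)
  have g6506 := fun ha : T.alt p c f d e = true => zA2_4676_512 (T.okA2 k32 ha)
  have g6508 := fun ha : T.alt p c f d e = true => zA2_4704_64 (T.okA2 k32 ha)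
  have g6510 := fun ha : T.alt p c f d e = true => zA2_4196_32 (T.okA2 k32 ha)
  have g6519 := fun ha : T.alt p c f d e = true => zA2_16513_129 (T.okA2 k32 ha)
  have g6522 := fun ha : T.alt p c f d e = true => zA2_4640_544 (T.okA2 k32 ha)
  have g6533 := fun ha : T.alt p c f d e = true => zA2_2306_2050 (T.okA2 k32 ha)
  have g6534 := fun ha : T.alt p c f d e = true => zA2_150_144 (T.okA2 k32 ha)
  have g6535 := fun ha : T.alt p c f d e = true => zA2_1160_136 (T.okA2 k32 ha)
  have g6536 := fun ha : T.alt p c f d e = true => zA2_4164_68 (T.okA2 k32 ha)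
  have g6732 := z5_17545_1025 k1
  have g6763 := z5_18706_16640 k1
  have g7091 := z5_16977_513 k3
  have g7103 := z5_18706_16640 k3
  have g7108 := z5_9362_1040 k3
  have g7120 := z5_18489_18433 k3
  have g7140 := z5_9508_1280 k3
  have g7153 := z5_16673_16673 k3
  have g7184 := z5_17105_16913 k3
  have g7247 := z5_4898_4098 k4
  have g7806 := z5_10505_8193 k7
  have g7865 := z5_19025_16465 k7
  have g7956 := z5_8778_520 k8
  have g7967 := z5_16535_16528 k8
  have g7979 := z5_5196_12 k8
  have g8002 := z5_2193_2193 k8
  have g8154 := z5_18596_16388 k9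
  have g8267 := z5_4898_4098 k10
  have g8273 := z5_16977_80 k10
  have g8298 := z5_9362_1040 k10
  have g8321 := z5_4756_4112 k10
  have g8344 := z5_9281_9281 k10
  have g8351 := z5_612_612 k10
  have g8360 := z5_5197_5192 k10
  have g8486 := z5_10505_8193 k11
  have g8670 := z5_9508_1280 k12
  have g8671 := z5_28745_73 k12
  have g8715 := z5_19025_16465 k12
  have g8861 := z5_612_612 k13
  have g8977 := z5_8778_8704 k14
  have g9031 := z5_612_612 k14
  have g9062 := z5_4902_4896 k14
  have g9117 := z5_4898_4098 k15
  have g9123 := z5_16977_80 k15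
  have g9171 := z5_4756_4112 k15
  have g9187 := z5_4728_4672 k15
  have g9437 := z5_24_24 k17
  have g9479 := z5_16977_17 k17
  have g9488 := z5_9362_1040 k17
  have g9490 := z5_6241_4097 k17
  have g9500 := z5_18489_18433 k17
  have g9522 := z5_18881_18433 k17
  have g9531 := z5_4617_4617 k17
  have g9532 := z5_2193_2193 k17
  have g9681 := z5_4756_4112 k18
  have g9697 := z5_4728_4672 k18
  have g9701 := z5_4617_4617 k18
  have g9803 := z5_16977_80 k19
  have g9828 := z5_9362_1040 k19
  have g9851 := z5_4756_4112 k19
  have g9854 := z5_18596_16388 k19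
  have g9858 := z5_9508_1056 k19
  have g9867 := z5_4728_4672 k19
  have g9874 := z5_9281_9281 k19
  have g9876 := z5_4178_4178 k19
  have g9984 := z5_6241_2112 k20
  have g10365 := z5_18596_16416 k22
  have g10369 := z5_9508_8224 k22
  have g10375 := z5_7716_4132 k22
  have g10392 := z5_6404_6404 k22
  have g10395 := z5_5280_5280 k22
  have g10508 := z5_9362_1040 k23
  have g10537 := z5_9508_260 k23
  have g10538 := z5_9508_1056 k23
  have g10540 := z5_9508_1280 k23
  have g10658 := z5_5196_5120 k24
  have g10702 := z5_4756_640 k24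
  have g10703 := z5_4756_4224 k24
  have g10705 := z5_18596_16416 k24
  have g10708 := z5_9508_1056 k24
  have g10723 := z5_16673_16673 k24
  have g10824 := z5_5196_68 k25
  have g10872 := z5_4756_640 k25
  have g11154 := z5_17545_16392 k26
  have g11166 := z5_10505_264 k26
  have g11185 := z5_16977_16448 k26
  have g11215 := z5_18596_16416 k26
  have g11511 := z5_16977_513 k27
  have g11516 := z5_9508_8196 k27
  have g11546 := z5_10505_8193 k27
  have g11563 := z5_29202_530 k27
  have g11571 := z5_4617_4617 k27
  have g11584 := z5_8976_8976 k27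
  have g11664 := z5_17545_16392 k28
  have g11684 := z5_6241_2112 k28
  have g11709 := z5_4679_4672 k28
  have g11724 := z5_18596_16388 k28
  have g11725 := z5_18596_16416 k28
  have g11834 := z5_17545_16392 k29
  have g11836 := z5_10505_10240 k29
  have g11841 := z5_4898_34 k29
  have g11854 := z5_6241_2112 k29
  have g11855 := z5_6241_6144 k29
  have g11864 := z5_10505_2056 k29
  have g11888 := z5_18706_16386 k29
  have g11890 := z5_4756_516 k29
  have g11910 := z5_31008_2336 k29
  have g11921 := z5_612_612 k29
  have g11926 := z5_8779_8776 k29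
  have g11957 := z5_9802_8266 k29
  have g12002 := z5_17545_1025 k30
  have g12006 := z5_10505_10240 k30
  have g12007 := z5_4898_4098 k30
  have g12013 := z5_16977_80 k30
  have g12014 := z5_5196_68 k30
  have g12024 := z5_6241_2112 k30
  have g12030 := z5_8778_8256 k30
  have g12035 := z5_16977_16448 k30
  have g12045 := z5_5196_1088 k30
  have g12051 := z5_3657_73 k30
  have g12061 := z5_4756_4112 k30
  have g12077 := z5_4728_4672 k30
  have g12081 := z5_4617_4617 k30
  have g12127 := z5_9802_8266 k30
  have g12143 := z5_5708_4172 k30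
  have g12177 := z5_4898_4098 k31
  have g12184 := z5_5196_68 k31
  have g12190 := z5_18596_2052 k31
  have g12200 := z5_8778_8256 k31
  have g12205 := z5_16977_16448 k31
  have g12206 := z5_8778_520 k31
  have g12212 := z5_8778_66 k31
  have g12215 := z5_5196_1088 k31
  have g12231 := z5_4756_4112 k31
  have g12245 := z5_7716_4132 k31
  have g12251 := z5_4617_4617 k31
  have g12270 := z5_5197_5192 k31
  have g12272 := z5_6245_6240 k31
  have g12341 := z5_17545_129 k32
  have g12351 := z5_4898_34 k32
  have g12364 := z5_6241_2112 k32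
  have g12367 := z5_6241_33 k32
  have g12372 := z5_18596_160 k32
  have g12383 := z5_9362_8320 k32
  have g12385 := z5_5196_1088 k32
  have g12399 := z5_5196_12 k32
  have g12402 := z5_4756_640 k32
  have g12406 := z5_18596_2176 k32
  have g13085 := z5_18596_16416 k33
  have g13201 := z5_4898_34 k34
  have g13222 := z5_18596_160 k34
  have g13248 := z5_18706_16386 k34
  have g13255 := z5_18596_16416 k34
  have g13285 := z5_5280_5280 k34
  have g14237 := z5_6241_33 k35
  have g14407 := z5_6241_33 k36
  have g14420 := z5_6241_4097 k36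
  have g14424 := z5_18706_272 k36
  have g14493 := z5_26889_2313 k36
  have g14581 := z5_5196_4104 k37
  have g14631 := z5_4617_4617 k37
  have g14695 := z5_4788_4740 k37
  have g14707 := z5_24_24 k38
  have g14708 := z5_192_192 k38
  have g14741 := z5_16977_513 k38
  have g14751 := z5_5196_4104 k38
  have g14789 := z5_9508_8224 k38
  have g14801 := z5_4617_4617 k38
  have g14904 := z5_5196_68 k39
  have g15234 := z5_17545_16392 k40
  have g15235 := z5_17545_17408 k40
  have g15247 := z5_16977_16896 k40
  have g15254 := z5_6241_2112 k40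
  have g15264 := z5_10505_2056 k40
  have g15265 := z5_16977_16448 k40
  have g15586 := z5_10505_264 k41
  have g15591 := z5_16977_513 k41
  have g15595 := z5_6241_6144 k41
  have g15601 := z5_5196_4104 k41
  have g15606 := z5_8778_520 k41
  have g15610 := z5_6241_4097 k41
  have g15611 := z5_8778_10 k41
  have g15727 := z5_24_24 k42
  have g15738 := z5_3072_3072 k42
  have g15905 := z5_320_320 k43
  have g15914 := z5_17545_16392 k43
  have g15918 := z5_4898_544 k43
  have g15924 := z5_5196_68 k43
  have g15927 := z5_16977_16896 k43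
  have g15933 := z5_6241_96 k43
  have g15934 := z5_6241_2112 k43
  have g15937 := z5_6241_33 k43
  have g15952 := z5_8778_66 k43
  have g15955 := z5_5196_1088 k43
  have g15968 := z5_18706_16386 k43
  have g15969 := z5_5196_12 k43
  have g15970 := z5_4756_516 k43
  have g16001 := z5_612_612 k43
  have g16014 := z5_16985_16961 k43
  have g16069 := zsp_73_8 sp0
  have g16073 := zsp_530_16 sp0
  have g16075 := zsp_1156_4 sp0
  have g16078 := zsp_2336_2336 sp0
  have g16080 := zsp_2336_2048 sp0
  have g16085 := zsp_4132_32 sp0
  have g16088 := zsp_8450_8192 sp0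
  have g16089 := zsp_8450_256 sp0
  have g16092 := zsp_16528_16384 sp0
  have g16093 := zsp_16528_128 sp0
  have g16097 := zsp_18433_2048 sp0
  have g16100 := zsp_9224_8192 sp0
  have g16103 := zsp_4672_64 sp0
  have g16112 := zsp_530_512 sp1
  have g16147 := zsp_73_1 sp2
  have g16152 := zsp_530_512 sp2
  have g16159 := zsp_2336_32 sp2
  have g16165 := zsp_4132_32 sp2
  have g16187 := zsp_73_1 sp3
  have g16192 := zsp_530_512 sp3
  have g16194 := zsp_1156_1156 sp3
  have g16195 := zsp_1156_4 sp3
  have g16196 := zsp_1156_1024 sp3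
  have g16197 := zsp_1156_128 sp3
  have g16199 := zsp_2336_32 sp3
  have g16203 := zsp_4132_4 sp3
  have g16205 := zsp_4132_32 sp3
  have g16208 := zsp_8450_8192 sp3
  have g16212 := zsp_16528_16384 sp3
  have g16213 := zsp_16528_128 sp3
  have g16214 := zsp_18433_18433 sp3
  have g16215 := zsp_18433_1 sp3
  have g16217 := zsp_18433_2048 sp3
  have g16221 := zsp_9224_1024 sp3
  have g16224 := zsp_4672_4096 sp3
  have g16227 := zsp_73_1 sp4
  have g16228 := zsp_73_64 sp4
  have g16229 := zsp_73_8 sp4
  have g16232 := zsp_530_512 sp4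
  have g16234 := zsp_1156_1156 sp4
  have g16235 := zsp_1156_4 sp4
  have g16237 := zsp_1156_128 sp4
  have g16239 := zsp_2336_32 sp4
  have g16240 := zsp_2336_2048 sp4
  have g16242 := zsp_4132_4132 sp4
  have g16243 := zsp_4132_4 sp4
  have g16245 := zsp_4132_32 sp4
  have g16252 := zsp_16528_16384 sp4
  have g16253 := zsp_16528_128 sp4
  have g16256 := zsp_18433_16384 sp4
  have g16257 := zsp_18433_2048 sp4
  have g16259 := zsp_9224_8 sp4
  have g16260 := zsp_9224_8192 sp4
  have g16261 := zsp_9224_1024 sp4
  have g16263 := zsp_4672_64 sp4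
  have g16264 := zsp_4672_4096 sp4
  have g16267 := zsp_73_1 sp5
  have g16273 := zsp_530_16 sp5
  have g16275 := zsp_1156_4 sp5
  have g16277 := zsp_1156_128 sp5
  have g16278 := zsp_2336_2336 sp5
  have g16280 := zsp_2336_2048 sp5
  have g16282 := zsp_4132_4132 sp5
  have g16285 := zsp_4132_32 sp5
  have g16289 := zsp_8450_256 sp5
  have g16293 := zsp_16528_128 sp5
  have g16297 := zsp_18433_2048 sp5
  have g16299 := zsp_9224_8 sp5
  have g16300 := zsp_9224_8192 sp5
  have g16303 := zsp_4672_64 sp5
  have g16314 := zsp_1156_1156 sp6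
  have g16315 := zsp_1156_4 sp6
  have g16316 := zsp_1156_1024 sp6
  have g16355 := zsp_1156_4 sp7
  have g16356 := zsp_1156_1024 sp7
  have g16357 := zsp_1156_128 sp7
  have g16368 := zsp_8450_8192 sp7
  have g16375 := zsp_18433_1 sp7
  have g16381 := zsp_9224_1024 sp7
  have g16400 := zsp_2336_2048 sp8
  have g16409 := zsp_8450_256 sp8
  have g16430 := zsp_530_530 sp9
  have g16431 := zsp_530_2 sp9
  have g16432 := zsp_530_512 sp9
  have g16433 := zsp_530_16 sp9
  have g16437 := zsp_1156_128 sp9
  have g16440 := zsp_2336_2048 sp9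
  have g16445 := zsp_4132_32 sp9
  have g16449 := zsp_8450_256 sp9
  have g16453 := zsp_16528_128 sp9
  have g16457 := zsp_18433_2048 sp9
  have g16460 := zsp_9224_8192 sp9
  have g16465 := zsp_4672_512 sp9
  have g16472 := zsp_530_512 sp10
  have g16483 := zsp_4132_4 sp10
  have g16488 := zsp_8450_8192 sp10
  have g16493 := zsp_16528_128 sp10
  have g16501 := zsp_9224_1024 sp10
  have g16513 := zsp_530_16 sp11
  have g16514 := zsp_1156_1156 sp11
  have g16515 := zsp_1156_4 sp11
  have g16519 := zsp_2336_32 sp11
  have g16520 := zsp_2336_2048 sp11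
  have g16521 := zsp_2336_256 sp11
  have g16522 := zsp_4132_4132 sp11
  have g16523 := zsp_4132_4 sp11
  have g16528 := zsp_8450_8192 sp11
  have g16529 := zsp_8450_256 sp11
  have g16531 := zsp_16528_16 sp11
  have g16533 := zsp_16528_128 sp11
  have g16537 := zsp_18433_2048 sp11
  have g16540 := zsp_9224_8192 sp11
  have g16541 := zsp_9224_1024 sp11
  have g16544 := zsp_4672_4096 sp11
  have g16551 := zsp_530_2 sp12
  have g16552 := zsp_530_512 sp12
  have g16555 := zsp_1156_4 sp12
  have g16558 := zsp_2336_2336 sp12
  have g16561 := zsp_2336_256 sp12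
  have g16569 := zsp_8450_256 sp12
  have g16572 := zsp_16528_16384 sp12
  have g16576 := zsp_18433_16384 sp12
  have g16577 := zsp_18433_2048 sp12
  have g16584 := zsp_4672_4096 sp12
  have g16585 := zsp_4672_512 sp12
  have g16590 := zsp_530_530 sp13
  have g16592 := zsp_530_512 sp13
  have g16595 := zsp_1156_4 sp13
  have g16596 := zsp_1156_1024 sp13
  have g16598 := zsp_2336_2336 sp13
  have g16601 := zsp_2336_256 sp13
  have g16604 := zsp_4132_4096 sp13
  have g16605 := zsp_4132_32 sp13
  have g16606 := zsp_8450_8450 sp13
  have g16609 := zsp_8450_256 sp13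
  have g16611 := zsp_16528_16 sp13
  have g16612 := zsp_16528_16384 sp13
  have g16616 := zsp_18433_16384 sp13
  have g16617 := zsp_18433_2048 sp13
  have g16620 := zsp_9224_8192 sp13
  have g16624 := zsp_4672_4096 sp13
  have g16625 := zsp_4672_512 sp13
  have g16627 := zsp_73_1 sp14
  have g16628 := zsp_73_64 sp14
  have g16629 := zsp_73_8 sp14
  have g16631 := zsp_530_2 sp14
  have g16632 := zsp_530_512 sp14
  have g16633 := zsp_530_16 sp14
  have g16635 := zsp_1156_4 sp14
  have g16636 := zsp_1156_1024 sp14
  have g16638 := zsp_2336_2336 sp14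
  have g16640 := zsp_2336_2048 sp14
  have g16641 := zsp_2336_256 sp14
  have g16648 := zsp_8450_8192 sp14
  have g16649 := zsp_8450_256 sp14
  have g16651 := zsp_16528_16 sp14
  have g16653 := zsp_16528_128 sp14
  have g16656 := zsp_18433_16384 sp14
  have g16657 := zsp_18433_2048 sp14
  have g16659 := zsp_9224_8 sp14
  have g16660 := zsp_9224_8192 sp14
  have g16663 := zsp_4672_64 sp14
  have g16664 := zsp_4672_4096 sp14
  have g16665 := zsp_4672_512 sp14
  have g16684 := zsp_4132_4096 sp15
  have g16686 := zsp_8450_8450 sp15
  have g16687 := zsp_8450_2 sp15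
  have g16688 := zsp_8450_8192 sp15
  have g16707 := zsp_73_1 sp16
  have g16708 := zsp_73_64 sp16
  have g16709 := zsp_73_8 sp16
  have g16715 := zsp_1156_4 sp16
  have g16716 := zsp_1156_1024 sp16
  have g16717 := zsp_1156_128 sp16
  have g16723 := zsp_4132_4 sp16
  have g16724 := zsp_4132_4096 sp16
  have g16727 := zsp_8450_2 sp16
  have g16728 := zsp_8450_8192 sp16
  have g16729 := zsp_8450_256 sp16
  have g16733 := zsp_16528_128 sp16
  have g16735 := zsp_18433_1 sp16
  have g16736 := zsp_18433_16384 sp16
  have g16740 := zsp_9224_8192 sp16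
  have g16743 := zsp_4672_64 sp16
  have g16772 := zsp_16528_16384 sp17
  have g16787 := zsp_73_1 sp18
  have g16788 := zsp_73_64 sp18
  have g16793 := zsp_530_16 sp18
  have g16795 := zsp_1156_4 sp18
  have g16796 := zsp_1156_1024 sp18
  have g16801 := zsp_2336_256 sp18
  have g16802 := zsp_4132_4132 sp18
  have g16803 := zsp_4132_4 sp18
  have g16804 := zsp_4132_4096 sp18
  have g16805 := zsp_4132_32 sp18
  have g16812 := zsp_16528_16384 sp18
  have g16813 := zsp_16528_128 sp18
  have g16815 := zsp_18433_1 sp18
  have g16816 := zsp_18433_16384 sp18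
  have g16821 := zsp_9224_1024 sp18
  have g16824 := zsp_4672_4096 sp18
  have g16853 := zsp_16528_128 sp19
  have g16860 := zsp_9224_8192 sp19
  have g16867 := zsp_73_1 sp20
  have g16868 := zsp_73_64 sp20
  have g16869 := zsp_73_8 sp20
  have g16870 := zsp_530_530 sp20
  have g16871 := zsp_530_2 sp20
  have g16872 := zsp_530_512 sp20
  have g16873 := zsp_530_16 sp20
  have g16876 := zsp_1156_1024 sp20
  have g16877 := zsp_1156_128 sp20
  have g16880 := zsp_2336_2048 sp20
  have g16881 := zsp_2336_256 sp20
  have g16884 := zsp_4132_4096 sp20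
  have g16885 := zsp_4132_32 sp20
  have g16887 := zsp_8450_2 sp20
  have g16888 := zsp_8450_8192 sp20
  have g16889 := zsp_8450_256 sp20
  have g16891 := zsp_16528_16 sp20
  have g16892 := zsp_16528_16384 sp20
  have g16893 := zsp_16528_128 sp20
  have g16895 := zsp_18433_1 sp20
  have g16896 := zsp_18433_16384 sp20
  have g16897 := zsp_18433_2048 sp20
  have g16899 := zsp_9224_8 sp20
  have g16900 := zsp_9224_8192 sp20
  have g16901 := zsp_9224_1024 sp20
  have g16904 := zsp_4672_4096 sp20
  have g16905 := zsp_4672_512 sp20
  have g16906 : T.X p r a b = true := h0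
  have g16907 : T.X p r c d = true := h1
  have g16908 : T.X p r e f = true := h2
  have g16909 : T.X a b c d = false := h3
  have g16910 : T.X c d e f = false := h4
  have g16911 : T.X a b e f = false := ((T.xs4 e f a b).symm.trans h5)
  have g16912 : T.alt p r d b c = true := h6
  have g16913 : T.alt p r f b e = true := h7
  have g16914 : T.alt p r b a c = false := h8
  have g16916 : T.alt p r b a e = false := h10
  have g16924 := xr1 e316
  have g16929 := xr2 e317
  have g16934 := it3 B318
  have g16936 := an0 e319
  have g16941 := it3 B320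
  have g16943 := an0 e321
  have g16949 := xr4 e322
  have g16950 := xr1 L323
  have g16954 : T.lto p r a b c d = true := h18
  have g16955 := xr1 e324
  have g16956 := xr2 e324
  have g16958 := xr4 e324
  have g16959 := xr1 e325
  have g16960 := xr2 e325
  have g16964 := it2 B326
  have g16966 := it4 B326
  have g16969 := an2 e327
  have g16973 := it4 B328
  have g16975 := an1 e329
  have g16976 := an2 e329
  have g16978 := xr2 e330
  have g16982 := xr2 L331
  have g16985 : T.lto p r b a c d = true := h19
  have g16989 := xr4 e332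
  have g16992 := xr3 e333
  have g16997 := it4 B334
  have g17000 := an2 e335
  have g17004 := it4 B336
  have g17007 := an2 e337
  have g17010 := xr3 e338
  have g17014 := xr3 L339
  have g17016 : T.lto p r c d a b = false := h20
  have g17017 := xr1 e340
  have g17018 := xr2 e340
  have g17020 := xr4 e340
  have g17021 := xr1 e341
  have g17022 := xr2 e341
  have g17023 := xr3 e341
  have g17025 := it1 B342
  have g17026 := it2 B342
  have g17028 := it4 B342
  have g17029 := an0 e343
  have g17030 := an1 e343
  have g17031 := an2 e343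
  have g17034 := it3 B344
  have g17036 := an0 e345
  have g17037 := an1 e345
  have g17040 := xr2 e346
  have g17041 := xr3 e346
  have g17042 := xr4 e346
  have g17045 := xr3 L347
  have g17046 := xr4 L347
  have g17047 : T.lto p r d c a b = false := h21
  have g17049 := xr2 e348
  have g17051 := xr4 e348
  have g17052 := xr1 e349
  have g17053 := xr2 e349
  have g17059 := it4 B350
  have g17061 := an1 e351
  have g17062 := an2 e351
  have g17066 := it4 B352
  have g17068 := an1 e353
  have g17069 := an2 e353
  have g17071 := xr2 e354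
  have g17075 := xr2 L355
  have g17078 : T.lto p r c d e f = true := h22
  have g17079 := xr1 e356
  have g17080 := xr2 e356
  have g17084 := xr2 e357
  have g17090 := it4 B358
  have g17092 := an1 e359
  have g17093 := an2 e359
  have g17097 := it4 B360
  have g17099 := an1 e361
  have g17100 := an2 e361
  have g17102 := xr2 e362
  have g17106 := xr2 L363
  have g17109 : T.lto p r d c e f = true := h23
  have g17126 := it2 B368
  have g17127 := it3 B368
  have g17128 := it4 B368
  have g17141 := xr1 e372
  have g17142 := xr2 e372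
  have g17143 := xr3 e372
  have g17144 := xr4 e372
  have g17145 := xr1 e373
  have g17146 := xr2 e373
  have g17147 := xr3 e373
  have g17148 := xr4 e373
  have g17149 := it1 B374
  have g17150 := it2 B374
  have g17151 := it3 B374
  have g17152 := it4 B374
  have g17153 := an0 e375
  have g17154 := an1 e375
  have g17155 := an2 e375
  have g17156 := it1 B376
  have g17157 := it2 B376
  have g17158 := it3 B376
  have g17159 := it4 B376
  have g17160 := an0 e377
  have g17161 := an1 e377
  have g17162 := an2 e377
  have g17163 := xr1 e378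
  have g17164 := xr2 e378
  have g17165 := xr3 e378
  have g17166 := xr4 e378
  have g17169 := xr3 L379
  have g17170 := xr4 L379
  have g17171 : T.lto p r f e c d = false := h25
  have g17203 := xr1 e388
  have g17204 := xr2 e388
  have g17208 := xr2 e389
  have g17212 := it2 B390
  have g17214 := it4 B390
  have g17216 := an1 e391
  have g17217 := an2 e391
  have g17220 := it3 B392
  have g17222 := an0 e393
  have g17223 := an1 e393
  have g17226 := xr2 e394
  have g17229 := xr1 L395
  have g17230 := xr2 L395
  have g17233 : T.lto p r f e a b = true := h27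
  have g17268 := xr4 e404
  have g17271 := xr3 e405
  have g17274 := it2 B406
  have g17276 := it4 B406
  have g17278 := an1 e407
  have g17279 := an2 e407
  have g17281 := it2 B408
  have g17283 := it4 B408
  have g17285 := an1 e409
  have g17286 := an2 e409
  have g17289 := xr3 e410
  have g17293 := xr3 L411
  have g17295 : T.lto p r b a e f = false := h29
  have s17296 := fun (n0 : T.X p a r b = true) => g1 g16906 n0
  have w17296 := bf s17296
  have s17297 := fun (n0 : T.X p b r a = true) => g2 g16906 n0
  have w17297 := bf s17297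
  have s17298 := fun (n0 : T.X p c r d = true) => g28 g16907 n0
  have w17298 := bf s17298
  have s17299 := fun (n0 : T.X p d r c = true) => g29 g16907 n0
  have w17299 := bf s17299
  have s17300 := fun (n0 : T.X p e r f = true) => g43 g16908 n0
  have w17300 := bf s17300
  have s17301 := fun (n0 : T.X p f r e = true) => g44 g16908 n0
  have w17301 := bf s17301
  have s17302 := fun (n0 : T.alt p r b c d = true) => g2023 n0 g16912
  have w17302 := bf s17302
  have s17303 := fun (n0 : T.alt p r c b d = true) => g2024 n0 g16912
  have w17303 := bf s17303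
  have s17304 := fun (n0 : T.alt p r b e f = true) => g2928 n0 g16913
  have w17304 := bf s17304
  have s17305 := fun (n0 : T.alt p r e b f = true) => g2929 n0 g16913
  have w17305 := bf s17305
  have s17306 := fun (n0 : T.alt p r b a d = true) => g16073 g16914 n0 w17302
  have w17306 := bf s17306
  have s17307 := fun (n0 : T.alt p r b a f = true) => g16273 g16916 n0 w17304
  have w17307 := bf s17307
  have s17308 := fun (n0 : T.alt p r b c e = true) => g16112 g16914 g16916 n0
  have w17308 := bf s17308
  have s17309 := fun (n0 : T.alt p r b d e = true) => g16192 w17306 g16916 n0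
  have w17309 := bf s17309
  have s17310 := fun (n0 : T.alt p r b c f = true) => g16152 g16914 w17307 n0
  have w17310 := bf s17310
  have s17311 := fun (n0 : T.alt p r b d f = true) => g16232 w17306 w17307 n0
  have w17311 := bf s17311
  have s17312 := fun (n0 : T.bfo p b a c r = true) (n1 : T.alt p r c a b = false) => g16966 n0 n1 g16914
  have s17313 := fun (n0 : T.bfo p b a d r = true) (n1 : T.alt p r d a b = false) => g16973 n0 n1 w17306
  have s17314 := fun (n0 : T.bfo p c d b r = true) => g17004 n0 w17302 w17303
  have w17314 := bf s17314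
  have s17315 := fun (n0 : v337 = true) => g17007 n0 w17314
  have w17315 := bf s17315
  have s17317 := fun (n0 : T.lto p r c d a b = false) (n1 : v338 = true) => g17014 n0 n1 w17315
  have s17318 := fun (n0 : v338 = true) => s17317 g17016 n0
  have w17318 := bf s17318
  have s17319 := fun (n0 : T.bfo p d c b r = false) => g17034 n0 w17302 g16912
  have w17319 := bt s17319
  have s17320 := fun (n0 : v345 = false) (n1 : T.X p b c d = true) => g17036 n0 n1 w17319
  have s17326 := fun (n0 : T.bfo p f e b r = false) => g17220 n0 w17304 g16913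
  have w17326 := bt s17326
  have s17327 := fun (n0 : v393 = false) (n1 : T.X p b e f = true) => g17222 n0 n1 w17326
  have s17328 := fun (n0 : T.bfo p b a e r = true) (n1 : T.alt p r e a b = false) => g17276 n0 n1 g16916
  have s17329 := fun (n0 : T.bfo p b a f r = true) (n1 : T.alt p r f a b = false) => g17283 n0 n1 w17307
  have s17332 : T.alt p r d e f = false → T.bfo p e f d r = true → T.bfo p f e d r = true → False := fun n0 n1 n2 => by
    have u0 := bt fun t => g17128 n1 n0 t
    have u1 := bt fun t => g17159 n2 n0 t
    exact g3653 u0 u1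
  have s17333 : T.bfo p e f d r = true → T.X p d r f = true → v377 = true → False := fun n0 n1 n2 => by
    have u0 := bt fun t => g17162 n2 t
    have u1 := bt fun t => g17161 n2 t
    have u2 := bt fun t => s17332 t n0 u0
    have u3 := bt fun t => g3742 u2 g16908 u1 t
    have u4 := bt fun t => g17126 n0 u2 t
    exact g9876 u4 n1 g16908 u3
  have s17334 : T.alt p r d e f = true → v372 = true → T.alt p c d e f = false → T.bfo p f e c r = true → False := fun n0 n1 n2 n3 => by
    have u0 := bf fun t => g3652 n0 t
    have u1 := bt fun t => g16665 t n0 n2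
    have u2 := bt fun t => g16601 t g16913 u0
    have u3 := bt fun t => g17150 n3 u1 t
    have u4 := bf fun t => g2748 t u2
    have u5 := bf fun t => g17141 n1 u3 t
    have u6 := bt fun t => g16515 g16912 u4 t
    exact g3326 u6 g16907 u3 u5
  have s17335 : v372 = true → v373 = false → T.bfo p f e c r = true → T.X p c e f = true → v377 = true → False := fun n0 n1 n2 n3 n4 => by
    have u0 := bt fun t => g17161 n4 t
    have u1 := bf fun t => g6457 t n3 u0 g16910
    have u2 := bt fun t => g17147 n1 n0 t
    have u3 := bf fun t => g40 t u2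
    have u4 := bf fun t => s17333 t u2 n4
    have u5 := bf fun t => s17334 t n0 u1 n2
    have u6 := bf fun t => g17127 u4 u5 t
    have u7 := bf fun t => g16663 t u5 u1
    have u8 := bf fun t => g16595 t w17305 u6
    have u9 := bt fun t => g17152 n2 u7 t
    have u10 := bf fun t => g16488 w17303 u8 t
    have u11 := bt fun t => g16577 w17308 u9 t
    have u12 := bt fun t => g16889 u10 u11 t
    have u13 := bf fun t => g6418 u12 t n3 g16910
    have u14 := bt fun t => g16660 t u6 u12
    have u15 := bt fun t => g3385 u14 g16907 u2 t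
    have u16 := bf fun t => g3399 u14 g16907 t u13
    have u17 := bf fun t => g158 t u15
    have u18 := bf fun t => g17141 n0 t u15
    have u19 := bt fun t => g3362 u14 w17299 u16 u3 t u17
    exact g3397 u14 u18 u2 u19
  have s17336 : v375 = true → v378 = true → False := fun n0 n1 => by
    have u0 := bt fun t => g17169 g17171 n1 t
    have u1 := bt fun t => g17162 u0 t
    have u2 := bt fun t => g17161 u0 t
    have u3 := bt fun t => g17154 n0 t
    have u4 := bt fun t => g17155 n0 t
    have u5 := bf fun t => g17163 n1 t n0
    have u6 := bf fun t => g6457 t u3 u2 g16910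
    have u7 := bf fun t => s17335 t u5 u4 u3 u0
    have u8 := bf fun t => g17148 u5 u7 t
    have u9 := bf fun t => g17157 u1 t u8
    have u10 := bt fun t => g17159 u1 u9 t
    have u11 := bf fun t => g16663 t u9 u6
    have u12 := bf fun t => g3653 t u10
    have u13 := bf fun t => g16598 t g16913 u10
    have u14 := bt fun t => g17152 u4 u11 t
    have u15 := bf fun t => g16595 t w17305 u12
    have u16 := bf fun t => g16528 w17303 u13 t
    have u17 := bf fun t => g3472 t u14
    have u18 := bt fun t => g16577 w17308 u14 t
    have u19 := bf fun t => g16638 t u14 u10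
    have u20 := bf fun t => g16488 w17303 u15 t
    have u21 := bf fun t => g16541 w17310 t u16
    have u22 := bf fun t => g16635 t u17 u12
    have u23 := bf fun t => g16501 w17308 t u20
    have u24 := bt fun t => g16889 u20 u18 t
    have u25 := bt fun t => g3288 t u21 u19
    have u26 := bt fun t => g3107 t u23 u22
    have u27 := bf fun t => g6404 u24 t u2 g16910
    have u28 := bf fun t => g6418 u24 t u3 g16910
    have u29 := bf fun t => g3399 u25 g16907 t u28
    have u30 := bf fun t => g3218 u26 g16907 t u27
    have u31 := bf fun t => g17061 t u27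
    have u32 := bf fun t => g17068 t u28
    have u33 := bf fun t => g3649 u14 u30 u29 g16908 u3 t
    have u34 := bt fun t => g17075 g17078 t u32
    have u35 := bf fun t => g17049 t u30 u33
    have u36 := bt fun t => g17071 u34 t u31
    exact g17053 u36 u35 u29
  have s17337 : T.alt p r f c e = true → T.X p c e f = false → T.X p d r f = true → v372 = false → T.alt p r f d e = true → T.X p d e f = true → False := fun n0 n1 n2 n3 n4 n5 => by
    have u0 := bf fun t => g3653 t n4
    have u1 := bf fun t => g16595 t w17305 u0
    have u2 := bf fun t => g16488 w17303 u1 t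
    have u3 := bf fun t => g16501 w17308 t u2
    have u4 := bf fun t => g16598 t g16913 n4
    have u5 := bf fun t => g16528 w17303 u4 t
    have u6 := bf fun t => g16541 w17310 t u5
    have u7 := bf fun t => g16638 t n0 n4
    have u8 := bt fun t => g16649 u3 n0 t
    have u9 := bt fun t => g3288 t u6 u7
    have u10 := bt fun t => g6388 u8 t n1 n5 g16910
    have u11 := bt fun t => g3385 u9 g16907 n2 t
    have u12 := bf fun t => g9532 g16907 t n2 u10
    exact g17144 n3 u12 u11
  have s17338 : T.bfo p f e c r = true → v372 = false → T.alt p r f d e = true → v378 = true → False := fun n0 n1 n2 n3 => by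
    have u0 := bf fun t => s17336 t n3
    have u1 := bt fun t => g17164 n3 t u0
    have u2 := bt fun t => g17146 u1 n1 t
    have u3 := bt fun t => g17169 g17171 n3 t
    have u4 := bt fun t => g17161 u3 t
    have u5 := bf fun t => g17153 u0 t n0
    have u6 := bf fun t => s17337 t u5 u2 n1 n2 u4
    have u7 := bt fun t => g16640 t u6 n2
    have u8 := bt fun t => g17152 n0 t u6
    have u9 := bf fun t => g3457 u7 w17298 w17299 t u2
    exact g17150 n0 u8 u9
  have s17339 : T.alt p r c e f = true → T.bfo p f e c r = false → T.X p d r f = true → v372 = false → T.alt p r f d e = true → False := fun n0 n1 n2 n3 n4 => by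
    have u0 := bf fun t => g3471 n0 t
    have u1 := bf fun t => g17149 n1 n0 t
    have u2 := bt fun t => g16640 t u0 n4
    have u3 := bf fun t => g17144 n3 u1 t
    exact g3442 u2 g16907 n2 u3
  have s17340 : T.bfo p f e c r = false → T.X p d r f = true → T.alt p r f d e = true → v372 = false → False := fun n0 n1 n2 n3 => by
    have u0 := bf fun t => s17339 t n0 n1 n3 n2
    have u1 := bf fun t => g17151 n0 u0 t
    have u2 := bt fun t => g16640 t u1 n2
    have u3 := bt fun t => g3442 u2 g16907 n1 t
    have u4 := bf fun t => g3457 u2 w17298 w17299 t n1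
    exact g17144 n3 u4 u3
  have s17341 : v372 = false → T.alt p r f d e = true → v378 = true → False := fun n0 n1 n2 => by
    have u0 := bf fun t => s17336 t n2
    have u1 := bt fun t => g17164 n2 t u0
    have u2 := bt fun t => g17146 u1 n0 t
    have u3 := bf fun t => s17338 t n0 n1 n2
    exact s17340 u3 u2 n1 n0
  have s17342 : T.X p c r f = false → T.X p f c d = false → T.alt p r f c d = true → T.X p d r f = false → v372 = true → False := fun n0 n1 n2 n3 n4 => by
    have u0 := bt fun t => g17142 n4 n0 t
    exact g3448 n2 g16907 n0 n3 n1 u0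
  have s17343 : T.X p f c d = false → T.alt p r f c d = true → v372 = true → T.X p d r f = false → False := fun n0 n1 n2 n3 => by
    have u0 := bt fun t => s17342 t n0 n1 n3 n2
    have u1 := bt fun t => g3440 n1 g16907 u0 t
    exact g17141 n2 u0 u1
  have s17344 : T.alt p r c e f = false → T.bfo p f e c r = false → T.X p d r f = false → v372 = true → T.alt p r f d e = true → T.X p d e f = true → False := fun n0 n1 n2 n3 n4 n5 => by
    have u0 := bf fun t => g16598 t g16913 n4
    have u1 := bf fun t => g16528 w17303 u0 t
    have u2 := bf fun t => g16541 w17310 t u1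
    have u3 := bf fun t => g17151 n1 n0 t
    have u4 := bt fun t => g16640 t u3 n4
    have u5 := bt fun t => g3469 n0 t u3
    have u6 := bt fun t => g16653 u2 u5 t
    have u7 := bf fun t => g6522 u6 t n5 g16910
    exact s17343 u7 u4 n3 n2
  have s17345 : T.bfo p f e c r = false → T.X p d r f = false → v372 = true → T.alt p r f d e = true → T.alt p r d e f = false → T.X p d e f = true → False := fun n0 n1 n2 n3 n4 n5 => by
    have u0 := bt fun t => s17344 t n0 n1 n2 n3 n5
    have u1 := bf fun t => g3471 u0 t
    have u2 := bt fun t => g16663 u0 n4 t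
    have u3 := bf fun t => g17149 n0 u0 t
    have u4 := bt fun t => g16640 t u1 n3
    have u5 := bf fun t => g6461 u2 t n5 g16910
    have u6 := bt fun t => g17142 n2 u3 t
    exact g3448 u4 g16907 u3 n1 u5 u6
  have s17346 : T.alt p r f c d = true → T.X p d r f = false → v372 = true → T.alt p r e d f = false → T.X p d e f = true → False := fun n0 n1 n2 n3 n4 => by
    have u0 := bf fun t => g3290 t n0
    have u1 := bt fun t => s17343 t n0 n2 n1
    have u2 := bf fun t => g16660 u0 n3 t
    have u3 := bf fun t => g6461 t u1 n4 g16910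
    have u4 := bf fun t => g6522 t u1 n4 g16910
    exact g6365 u3 u2 u4
  have s17347 : T.X p c r f = false → T.X p f c d = true → T.alt p r c d f = true → T.X p d r f = false → v372 = true → False := fun n0 n1 n2 n3 n4 => by
    have u0 := bt fun t => g17142 n4 n0 t
    exact g3403 n2 g16907 n0 n3 n1 u0
  have s17348 : T.X p f c d = true → v372 = true → T.alt p r c d f = true → T.X p d r f = false → False := fun n0 n1 n2 n3 => by
    have u0 := bt fun t => s17347 t n0 n2 n3 n1
    have u1 := bf fun t => g17141 n1 u0 t
    exact g3401 n2 u0 n0 u1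
  have s17349 : T.alt p r d e f = false → v378 = true → False := fun n0 n1 => by
    have u0 := bf fun t => s17336 t n1
    have u1 := bt fun t => g17164 n1 t u0
    have u2 := bt fun t => g17169 g17171 n1 t
    have u3 := bt fun t => g17162 u2 t
    have u4 := bt fun t => g17161 u2 t
    have u5 := bt fun t => g17159 u3 n0 t
    have u6 := bf fun t => g3653 t u5
    have u7 := bf fun t => g16598 t g16913 u5
    have u8 := bf fun t => g16595 t w17305 u6
    have u9 := bf fun t => g16528 w17303 u7 t
    have u10 := bf fun t => g16488 w17303 u8 t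
    have u11 := bf fun t => g16541 w17310 t u9
    have u12 := bf fun t => g16501 w17308 t u10
    have u13 := bt fun t => s17341 t u5 n1
    have u14 := bf fun t => g17145 u1 u13 t
    have u15 := bt fun t => s17345 t u14 u13 u5 n0 u4
    have u16 := bf fun t => g17153 u0 t u15
    have u17 := bf fun t => s17346 t u14 u13 u6 u4
    have u18 := bt fun t => g16640 u17 t u5
    have u19 := bt fun t => g3288 t u11 u17
    have u20 := bt fun t => g16649 u12 u18 t
    have u21 := bt fun t => g6388 u20 t u16 u4 g16910
    exact s17348 u21 u13 u19 u14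
  have s17350 : T.X p f c d = true → v378 = true → False := fun n0 n1 => by
    have u0 := bt fun t => s17349 t n1
    have u1 := bf fun t => g3651 u0 t
    have u2 := bf fun t => g16620 w17311 u1 t
    have u3 := bf fun t => g3652 u0 t
    have u4 := bt fun t => g16601 t g16913 u3
    have u5 := bt fun t => g16529 w17303 u4 t
    have u6 := bf fun t => g5823 t u5
    have u7 := bf fun t => g16900 u6 u2 t
    have u8 := bt fun t => g17169 g17171 n1 t
    have u9 := bt fun t => g17161 u8 t
    have u10 := bf fun t => g6461 t n0 u9 g16910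
    have u11 := bf fun t => g6522 t n0 u9 g16910
    exact g6365 u10 u7 u11
  have s17352 : T.X p b c d = true → T.X p d a b = true → T.alt p a c b d = false → False := fun n0 n1 n2 => by
    have u0 := bf fun t => g3988 t n1 n0 g16909
    have u1 := bf fun t => g3927 t n1 n0 g16909
    exact g3831 u1 n2 u0
  have s17354 : v343 = true → T.X p d a b = true → T.alt p r d a c = false → False := fun n0 n1 n2 => by
    have u0 := bt fun t => g17030 n0 t
    have u1 := bt fun t => g17031 n0 t
    have u2 := bf fun t => g3926 t n1 u0 g16909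
    have u3 := bt fun t => g17028 u1 t n2
    exact g16103 u3 w17302 u2
  have s17357 : v340 = true → v341 = false → T.X p d a b = false → T.X p a r d = false → T.X p b c d = false → False := fun n0 n1 n2 n3 n4 => by
    have u0 := bt fun t => g17018 n0 n3 t
    have u1 := bt fun t => g17023 n1 n0 t
    have u2 := bf fun t => g6763 w17296 n3 t n2 u0
    have u3 := bt fun t => g2164 g16912 u2 g16907 n4 t
    have u4 := bf fun t => g137 u3 t
    have u5 := bf fun t => g2173 g16912 t u1 u4
    exact g8273 u5 u1 g16907 n4 u4
  have s17358 : T.bfo p d c a r = true → T.X p a r d = false → T.alt p r d a c = false → False := fun n0 n1 n2 => by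
    have u0 := bt fun t => g17028 n0 t n2
    exact g17026 n0 u0 n1
  have s17360 : T.X p f c d = true → T.X p a c d = false → T.X p c a b = false → T.alt p a f b c = true → T.alt p a d c f = true → T.X p a b d = false → T.X p c b d = false → T.X p c b f = false → T.X p d a f = false → T.alt p b d c f = true → T.alt p a f b d = true → T.X p b c d = false → T.X p f a b = true → False := fun n0 n1 n2 n3 n4 n5 n6 n7 n8 n9 n10 n11 n12 => by
    have u0 := bf fun t => g4359 n3 n2 n12 t
    have u1 := bf fun t => g57 t n12
    have u2 := bf fun t => g99 t n0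
    have u3 := bt fun t => g5836 n9 n11 n6 t n0
    have u4 := bt fun t => g5853 n9 n11 n7 n0 t
    have u5 := bt fun t => g5129 n4 n1 u0 n0 t
    have u6 := bf fun t => g4716 n10 n5 u1 n8 u3 t
    have u7 := bf fun t => g201 t u4
    have u8 := bf fun t => g11154 n1 t n8 u2 u5
    have u9 := bf fun t => g15264 g16909 t u6 u5 u7
    exact g4338 n3 n2 n12 u8 u9
  have s17364 : T.X p c a b = true → T.X p d a b = false → T.X p f b c = false → T.X p b c f = false → T.X p c b f = false → T.X p f a b = true → T.alt p b d c f = true → T.alt p a d b f = false → T.X p b c d = false → False := fun n0 n1 n2 n3 n4 n5 n6 n7 n8 => by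
    have u0 := bf fun t => g3971 t n0 n1 n8 g16909
    have u1 := bf fun t => g10375 n0 n5 n3 n4 n2 t
    have u2 := bf fun t => g16716 u0 n7 t
    have u3 := bf fun t => g4284 t n0 n5 u1
    exact g16740 u3 u2 n6
  have s17365 : T.X p d a b = false → T.X p f b c = false → T.X p b c f = false → T.X p c b f = false → T.X p f c d = true → T.X p a c d = false → T.X p f a b = true → T.alt p a f b d = true → T.X p b c d = false → T.alt p a c b d = false → False := fun n0 n1 n2 n3 n4 n5 n6 n7 n8 n9 => by
    have u0 := bt fun t => g16729 n9 n7 t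
    have u1 := bt fun t => g5853 u0 n8 n3 n4 t
    have u2 := bf fun t => g200 t u1
    have u3 := bf fun t => g98 t n4
    have u4 := bf fun t => g5823 t u0
    have u5 := bf fun t => g4558 t n7
    have u6 := bf fun t => s17364 t n0 n1 n2 n3 n6 u0 u5 n8
    have u7 := bf fun t => g3905 t u6 n0 n5 n8 g16909
    have u8 := bt fun t => g3831 u7 n9 t
    have u9 := bt fun t => g16715 u8 u5 t
    have u10 := bt fun t => g16723 u8 t u4
    have u11 := bf fun t => g4359 u10 u6 n6 t
    have u12 := bt fun t => g5129 u9 n5 u11 n4 t
    have u13 := bf fun t => g10365 u6 n6 u11 n1 t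
    have u14 := bf fun t => g11185 n5 u11 t u3 u12
    have u15 := bf fun t => g15254 g16909 u13 t u12 u2
    exact g4700 n7 n0 n6 u14 u15
  have s17366 : T.X p c b d = true → T.X p b c f = false → T.X p c b f = false → T.X p f c d = true → T.X p a c d = false → T.X p f a b = true → T.alt p a f b d = true → T.X p b c d = false → T.alt p r d a c = false → False := fun n0 n1 n2 n3 n4 n5 n6 n7 n8 => by
    have u0 := bf fun t => g16088 g16914 n8 t
    have u1 := bt fun t => g16729 u0 n6 t
    have u2 := bt fun t => g5853 u1 n7 n2 n3 t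
    have u3 := bf fun t => g201 t u2
    have u4 := bf fun t => g200 t u2
    have u5 := bf fun t => g98 t n3
    have u6 := bf fun t => g17037 t n7
    have u7 := bf fun t => g17045 g17047 t u6
    have u8 := bf fun t => g17030 t n4
    have u9 := bf fun t => g17041 u7 t u8
    have u10 := bt fun t => g16080 t n8 g16912
    have u11 := bf fun t => g78 n0 t
    have u12 := bf fun t => g5854 u1 n0 t u3
    have u13 := bf fun t => g11841 n0 t u12 u5 u4
    have u14 := bt fun t => g2183 g16912 t g16907 n7 u11
    have u15 := bf fun t => g16 u14 t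
    have u16 := bf fun t => g8344 u14 g16907 n0 t
    have u17 := bf fun t => g8298 u15 t w17298 n0 u16
    have u18 := bt fun t => g2170 g16912 u15 t n0 u16
    have u19 := bf fun t => g17023 u9 t u17
    have u20 := bt fun t => s17365 t u13 n1 n2 n3 n4 n5 n6 n7 u0
    have u21 := bf fun t => g50 t u20
    have u22 := bt fun t => g543 u10 g16906 u20 t
    have u23 := bf fun t => g110 t u22
    have u24 := bt fun t => g17020 u19 t u22
    have u25 := bt fun t => g535 u10 t u18 u21 u23
    exact g9 u24 u25
  have s17367 : T.X p r a d = true → v341 = false → T.X r d a b = true → T.X p b a d = false → T.alt p r d a b = true → False := fun n0 n1 n2 n3 n4 => by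
    have u0 := bf fun t => g7 n0 t
    have u1 := bf fun t => g562 n4 n0 t n3
    have u2 := bt fun t => g17020 t u0 n2
    exact g17023 n1 u2 u1
  have s17368 : T.X p d a b = true → T.alt p r d a b = true → T.alt p r d a c = false → v346 = false → False := fun n0 n1 n2 n3 => by
    have u0 := bf fun t => g51 t n0
    have u1 := bt fun t => g543 n1 g16906 n0 t
    have u2 := bf fun t => s17354 t n0 n2
    have u3 := bf fun t => g17041 n3 t u2
    have u4 := bf fun t => s17367 t u3 u1 u0 n1
    have u5 := bt fun t => g556 n1 g16906 u4 t n0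
    have u6 := bf fun t => g9 t u5
    have u7 := bf fun t => g558 n1 w17297 u5 t
    have u8 := bt fun t => g17020 t u6 u1
    exact g17023 u3 u8 u7
  have s17370 : T.bfo p f e c r = true → T.X p c r f = false → T.alt p r f c e = false → False := fun n0 n1 n2 => by
    have u0 := bt fun t => g17152 n0 t n2
    exact g17150 n0 u0 n1
  have s17371 : v378 = true → T.X p d r f = false → False := fun n0 n1 => by
    have u0 := bt fun t => g17169 g17171 n0 t
    have u1 := bt fun t => s17349 t n0
    have u2 := bt fun t => g17162 u0 t
    exact g17157 u2 u1 n1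
  have s17377 : T.X r f a b = true → T.X p f a b = false → T.X p f r b = true → T.alt p r f a b = true → False := fun n0 n1 n2 n3 => by
    have u0 := bf fun t => g27 t n2
    have u1 := bf fun t => g117 t n0
    have u2 := bt fun t => g914 n3 g16906 t u0 n1 n0
    have u3 := bt fun t => g896 n3 w17296 t n2 u1
    exact g13 u3 u2
  have s17378 : T.X p c e f = true → T.X p b e f = true → T.alt p b c e f = true → T.X p f b c = false → T.X p b c f = false → T.X p c b f = false → False := fun n0 n1 n2 n3 n4 n5 => by
    have u0 := bt fun t => g6095 n2 n1 n0 t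
    exact g12077 n4 n5 n3 n1 n0 u0
  have s17380 : T.X p e b c = true → T.alt p b e c d = true → T.X p e c d = false → T.X p d b c = false → T.X p b c d = false → False := fun n0 n1 n2 n3 n4 => by
    have u0 := bf fun t => g81 t n0
    have u1 := bf fun t => g5807 n1 n3 n0 t
    have u2 := bf fun t => g11725 n3 n0 u1 n2 t
    exact g5774 n1 n4 u0 u1 n2 u2
  have s17381 : T.X b e c d = false → T.X p c b e = false → T.X b c e f = true → T.alt p b e c d = true → T.X p d e f = false → T.X p b e f = true → T.X p e c d = false → T.X b c d f = false → T.X p b d f = false → T.X p b c d = false → False := fun n0 n1 n2 n3 n4 n5 n6 n7 n8 n9 => by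
    have u0 := bf fun t => g15955 n0 n7 n2 t g16910
    have u1 := bt fun t => g5774 n3 n9 n1 t n6 n0
    exact g12212 u1 n8 n5 n4 u0
  have s17382 : T.X p c b e = false → T.X b c e f = true → T.X p b c d = false → T.alt p b e c d = true → T.X p d e f = false → T.X p b e f = true → T.X p e c d = false → T.X b c d f = false → T.X p b d f = false → False := fun n0 n1 n2 n3 n4 n5 n6 n7 n8 => by
    have u0 := bt fun t => s17381 t n0 n1 n3 n4 n5 n6 n7 n8 n2
    have u1 := bf fun t => g5804 n3 n2 n0 t n6 u0
    have u2 := bt fun t => g15924 u0 n7 n1 t g16910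
    exact g12200 u1 n8 n5 n4 u2
  have s17383 : T.X p b e f = true → T.X p c e f = false → T.X p e c d = false → T.alt p b e c f = true → T.alt p b c d e = false → T.X p d b c = false → T.X b c d f = false → T.X p b d f = false → T.X p f c d = true → T.X p b c f = false → T.alt p b f c e = false → T.X p f b c = false → T.X p b c d = false → False := fun n0 n1 n2 n3 n4 n5 n6 n7 n8 n9 n10 n11 n12 => by
    have u0 := bf fun t => g99 t n8
    have u1 := bf fun t => g92 n0 t
    have u2 := bt fun t => g6047 n3 n9 n0 n1 t
    have u3 := bf fun t => g12402 n2 u0 u2 t g16910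
    have u4 := bf fun t => g6387 t n2 n8 u3 g16910
    have u5 := bf fun t => g16887 t n10 u4
    have u6 := bt fun t => g5641 n4 u5 t
    have u7 := bf fun t => s17380 t u6 n2 n5 n12
    have u8 := bt fun t => g6028 n3 u7 n0 n1 t
    have u9 := bf fun t => g12007 t n11 u1 n1 u8
    exact s17382 u9 u8 n12 u6 u3 n0 n2 n6 n7
  have s17385 : T.alt p r f a b = true → T.X r f a b = false → T.X p b r f = false → v394 = true → False := fun n0 n1 n2 n3 => by
    have u0 := bf fun t => g16278 n0 t g16913
    have u1 := bf fun t => g906 n0 g16906 t n1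
    have u2 := bf fun t => g17204 t u1 n1
    have u3 := bf fun t => g17208 t u2 n2
    have u4 := bt fun t => g17226 n3 u3 t
    have u5 := bt fun t => g17217 u4 t
    have u6 := bf fun t => g17212 u5 t u1
    exact g17214 u5 u6 u0
  have s17386 : T.X p a r f = false → T.X r f a b = false → T.X p r b f = false → T.X p b r f = false → T.X p e b f = false → T.X p b e f = false → False := fun n0 n1 n2 n3 n4 n5 => by
    have u0 := bf fun t => g17223 t n5
    have u1 := bt fun t => g17230 g17233 t u0
    have u2 := bf fun t => s17385 t n1 n3 u1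
    have u3 := bt fun t => g16280 u2 t g16913
    have u4 := bt fun t => g16289 g16916 u3 t
    have u5 := bf fun t => g17204 t n0 n1
    have u6 := bf fun t => g7091 g16906 n0 n2 t n1
    have u7 := bf fun t => g17208 t u5 n3
    have u8 := bf fun t => g4780 u4 u6 t n5 n4
    have u9 := bt fun t => g17226 u1 u7 t
    exact g17216 u9 u8
  have s17387 : T.X r f a b = false → T.X p r b f = false → T.X p b r f = false → T.X p e b f = false → T.X p b e f = false → False := fun n0 n1 n2 n3 n4 => by
    have u0 := bf fun t => g17223 t n4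
    have u1 := bt fun t => g17230 g17233 t u0
    have u2 := bf fun t => s17385 t n0 n2 u1
    have u3 := bt fun t => g16280 u2 t g16913
    have u4 := bt fun t => g754 t w17307 u2
    have u5 := bf fun t => s17329 t u2
    have u6 := bf fun t => g1843 t u3
    have u7 := bf fun t => g17286 t u5
    have u8 := bf fun t => g16275 t u6 w17305
    have u9 := bf fun t => g17293 g17295 t u7
    have u10 := bf fun t => s17328 t u8
    have u11 := bf fun t => g17279 t u10
    have u12 := bf fun t => g17289 u9 t u11
    have u13 := bt fun t => s17386 t n0 n1 n2 n3 n4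
    have u14 := bf fun t => g15 u13 t
    have u15 := bf fun t => g854 u4 w17296 w17297 u14 t
    have u16 := bf fun t => g17271 u12 t u15
    have u17 := bf fun t => g3085 g16913 t n2 u15 w17300
    have u18 := bt fun t => g3069 g16913 u15 g16908 n4 t
    exact g17268 u16 u17 u18
  have s17388 : T.X p r b f = false → T.X p e b f = false → v394 = true → T.X p a r f = true → T.X r f a b = true → T.X p b r f = false → False := fun n0 n1 n2 n3 n4 n5 => by
    have u0 := bf fun t => g17203 t n3 n4
    have u1 := bf fun t => g17208 t u0 n5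
    have u2 := bt fun t => g17226 n2 u1 t
    have u3 := bt fun t => g17216 u2 t
    have u4 := bf fun t => g17229 g17233 n2 t
    have u5 := bf fun t => s17327 u4 t
    have u6 := bf fun t => g15 n3 t
    have u7 := bf fun t => g13 t n3
    have u8 := bf fun t => g117 t n4
    have u9 := bf fun t => g7184 g16906 n3 n0 n5 t n4
    have u10 := bf fun t => g860 t n3 n0 n5 u9
    have u11 := bf fun t => g10824 t u9 u3 n1 g16911
    have u12 := bt fun t => g754 u10 w17307 t
    have u13 := bf fun t => g17278 t u11
    have u14 := bf fun t => g918 u12 g16906 u7 u6 t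
    have u15 := bf fun t => g896 u12 w17296 u7 t u8
    have u16 := bf fun t => g17285 t u14
    have u17 := bf fun t => g3085 g16913 t n5 u15 w17300
    have u18 := bt fun t => g3069 g16913 u15 g16908 u5 t
    have u19 := bf fun t => g17293 g17295 t u16
    have u20 := bt fun t => g17268 t u17 u18
    have u21 := bf fun t => g17289 u19 t u13
    exact g17271 u21 u20 u15
  have s17389 : T.X p e b f = false → v394 = true → T.X p a r f = true → T.X r f a b = true → T.X p b r f = false → False := fun n0 n1 n2 n3 n4 => by
    have u0 := bf fun t => g17229 g17233 n1 t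
    have u1 := bf fun t => s17327 u0 t
    have u2 := bt fun t => s17388 t n0 n1 n2 n3 n4
    have u3 := bf fun t => g26 u2 t
    have u4 := bt fun t => g3072 g16913 u2 w17301 n0 t
    have u5 := bt fun t => g3069 g16913 u3 g16908 u1 t
    exact g14708 u5 u4
  have s17390 : T.alt p r f a b = true → v405 = true → T.bfo p f e a r = true → T.X p a e f = true → T.X p a r f = true → False := fun n0 n1 n2 n3 n4 => by
    have u0 := bf fun t => g15 n4 t
    have u1 := bf fun t => g13 t n4
    have u2 := bf fun t => g16278 n0 t g16913
    have u3 := bf fun t => g918 n0 g16906 u1 u0 t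
    have u4 := bt fun t => g17214 n2 t u2
    have u5 := bf fun t => g17285 t u3
    have u6 := bt fun t => g16303 u4 w17304 t
    have u7 := bf fun t => g17293 g17295 t u5
    have u8 := bf fun t => g4829 u6 t n3 g16911
    have u9 := bt fun t => g17289 u7 n1 t
    exact g17278 u9 u8
  have s17391 : v394 = true → T.X p a r f = true → T.X r f a b = true → T.X p b r f = false → False := fun n0 n1 n2 n3 => by
    have u0 := bf fun t => g17203 t n1 n2
    have u1 := bf fun t => g17208 t u0 n3
    have u2 := bf fun t => g17229 g17233 n0 t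
    have u3 := bt fun t => g17226 n0 u1 t
    have u4 := bf fun t => s17327 u2 t
    have u5 := bt fun t => g17216 u3 t
    have u6 := bt fun t => g17217 u3 t
    have u7 := bt fun t => s17389 t n0 n1 n2 n3
    have u8 := bf fun t => g93 u7 t
    have u9 := bt fun t => g3058 g16913 t n3 w17300 u7
    have u10 := bt fun t => g3088 g16913 t g16908 u4 u8
    have u11 := bf fun t => g26 u9 t
    have u12 := bf fun t => g23 u10 t
    have u13 := bt fun t => g3069 g16913 u11 g16908 u4 t
    have u14 := bt fun t => g17268 t u12 u13
    have u15 := bt fun t => g17271 t u14 u11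
    have u16 := bf fun t => s17390 t u15 u6 u5 n1
    have u17 := bt fun t => g16280 u16 t g16913
    have u18 := bt fun t => g754 t w17307 u16
    have u19 := bt fun t => g16289 g16916 u17 t
    have u20 := bt fun t => g868 u18 g16906 n1 n3 t n2
    exact g4789 u19 u20 u5 g16911
  have s17394 : T.X p d e f = true → T.alt p c d e f = false → T.X p e c d = false → T.X p b c f = false → T.alt p b d c f = true → T.X p c e f = false → T.X p b e f = true → False := fun n0 n1 n2 n3 n4 n5 n6 => by
    have u0 := bf fun t => g104 n0 t
    have u1 := bf fun t => g6506 t n2 n5 n0 g16910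
    have u2 := bt fun t => g16891 n4 t u1
    have u3 := bt fun t => g6365 n1 t u1
    have u4 := bt fun t => g6047 u2 n3 n6 n5 t
    have u5 := bt fun t => g6388 u3 t n5 n0 g16910
    have u6 := bf fun t => g6376 u3 n2 u5 t
    exact g12372 n2 u5 u4 u0 u6
  have s17398 : v378 = false → T.X p d e f = true → T.X p f c d = false → T.X p c r f = false → T.alt p r d e f = true → T.alt p r d c f = true → v375 = false → False := fun n0 n1 n2 n3 n4 n5 n6 => by
    have u0 := bf fun t => g17170 g17171 n0 t
    have u1 := bf fun t => g17165 n0 t n6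
    have u2 := bf fun t => g17160 u0 n1 t
    have u3 := bf fun t => g17156 u2 n4 t
    have u4 := bf fun t => g17147 u1 t u3
    have u5 := bt fun t => g3316 n5 g16907 u3 n2 t
    exact g17144 u4 n3 u5
  have s17400 : T.X p d a b = true → T.alt p a c b d = false → T.alt p r d a b = true → T.alt p r d a c = false → False := fun n0 n1 n2 n3 => by
    have u0 := bf fun t => s17352 t n0 n1
    have u1 := bt fun t => s17368 n0 n2 n3 t
    have u2 := bf fun t => g17037 t u0
    exact g17045 g17047 u1 u2
  have s17401 : T.X p r a d = false → T.X p d r a = false → T.X a f b e = true → T.alt p r d a b = true → T.alt p a f b d = true → T.alt p r d a f = true → T.X a d e f = true → T.X p d r b = true → T.X r b d f = false → T.X r f a b = true → T.X p a b f = false → T.X p a r f = true → T.X b f d e = false → T.X b e d f = false → T.X p f r d = false → T.X p d r f = true → T.X p d b f = false → False := fun n0 n1 n2 n3 n4 n5 n6 n7 n8 n9 n10 n11 n12 n13 n14 n15 n16 => by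
    have u0 := bf fun t => g194 n6 t
    have u1 := bf fun t => g21 t n7
    have u2 := bt fun t => g534 n3 w17296 n0 n7 t
    have u3 := bf fun t => g111 u2 t
    have u4 := bf fun t => g544 n3 g16906 t u3
    have u5 := bf fun t => g6732 g16906 n0 u1 t u3
    have u6 := bf fun t => g1673 n5 n0 u4 n14 t
    have u7 := bf fun t => g7967 n0 u4 n1 n11 n15 t
    have u8 := bf fun t => g4703 n4 u5 n10 u6 n16 t
    have u9 := bt fun t => g13201 u2 n9 u7 n8 t
    have u10 := bf fun t => g15591 t u8 g16911 n6 n12
    exact g15586 u10 u9 n2 u0 n13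
  have s17402 : T.X p r a d = true → T.X p d a b = false → T.X r e a b = true → T.X p a r e = true → T.X p e r a = false → T.alt p r d a b = true → T.alt p a f b d = true → T.X a d e f = true → T.alt p r e a d = true → T.X p b r d = false → T.X r e b d = false → T.X p r d e = true → T.X b d e f = true → T.X p d e f = true → T.X p b d f = true → False := fun n0 n1 n2 n3 n4 n5 n6 n7 n8 n9 n10 n11 n12 n13 n14 => by
    have u0 := bf fun t => g10 t n3
    have u1 := bf fun t => g193 n7 t
    have u2 := bf fun t => g38 n11 t
    have u3 := bf fun t => g7 n0 t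
    have u4 := bt fun t => g1630 n8 n0 n3 t
    have u5 := bf fun t => g1642 n8 n0 u0 n4 t
    have u6 := bf fun t => g7806 n0 u0 u2 u5 t
    have u7 := bt fun t => g7865 n0 n3 n11 t u5 u4
    have u8 := bf fun t => g552 n5 g16906 u3 n9 n1 t
    have u9 := bf fun t => g13085 u8 n2 u6 n10 t
    have u10 := bf fun t => g11571 u7 t n13 n7
    have u11 := bf fun t => g15601 u9 t g16911 u1 n12
    exact g4696 n6 n1 u10 n14 u11
  have s17403 : T.alt p r a e f = false → T.X p e a f = false → T.X p d r b = true → T.X r b d f = false → T.X p b a f = false → T.X r f a b = true → T.X p a b f = false → T.alt p r f a e = false → T.alt p r a b f = false → T.X p a r f = true → T.X r e b d = false → T.X p r d e = true → T.X p r b d = false → T.alt p b d c e = false → T.X b d e f = true → T.X p f r d = false → T.alt p r d b e = true → T.alt p r d c e = false → T.X p d e f = true → T.X p d r f = true → T.alt p r d e f = true → T.X p b d f = true → T.X p f b e = false → False := fun n0 n1 n2 n3 n4 n5 n6 n7 n8 n9 n10 n11 n12 n13 n14 n15 n16 n17 n18 n19 n20 n21 n22 => by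
    have u0 := bf fun t => g21 t n2
    have u1 := bf fun t => g15 n9 t
    have u2 := bf fun t => g13 t n9
    have u3 := bt fun t => g16625 w17304 n20 t
    have u4 := bf fun t => g103 n18 t
    have u5 := bf fun t => g205 n14 t
    have u6 := bt fun t => g6268 u3 t n21 u4 u5
    have u7 := bf fun t => g206 n14 t
    have u8 := bf fun t => g3651 n20 t
    have u9 := bf fun t => g88 n21 t
    have u10 := bt fun t => g1840 n0 t n7
    have u11 := bf fun t => g16267 t n8 n0
    have u12 := bt fun t => g16465 n0 n20 t
    have u13 := bt fun t => g16277 t u10 w17305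
    have u14 := bt fun t => g16293 w17307 u10 t
    have u15 := bt fun t => g1884 u10 u2 g16908 t n1
    have u16 := bt fun t => g16437 t u10 u8
    have u17 := bt fun t => g16221 u11 n16 t
    have u18 := bf fun t => g5462 u12 t
    have u19 := bf fun t => g74 u15 t
    have u20 := bt fun t => g5552 u12 u15 n18 t
    have u21 := bf fun t => g1481 t u16
    have u22 := bf fun t => g4377 u17 t
    have u23 := bt fun t => g16453 t u10 u18
    have u24 := bt fun t => g16801 t u14 u18
    have u25 := bt fun t => g1860 u10 n9 w17300 u19 t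
    have u26 := bf fun t => g16315 t u21 n17
    have u27 := bt fun t => g16196 t u21 n16
    have u28 := bf fun t => g16687 t u22 n13
    have u29 := bf fun t => g135 t u25
    have u30 := bf fun t => g8154 t u1 w17300 u19 u25
    have u31 := bf fun t => g559 u27 g16906 n12 t
    have u32 := bt fun t => g1855 u10 t u2 w17301 n1 u29
    have u33 := bt fun t => g725 u13 g16906 u32 t
    have u34 := bf fun t => s17400 t u28 u27 u26
    have u35 := bf fun t => g4420 u17 u31 u34 t u6
    have u36 := bt fun t => g4869 u14 u35 n4 n1 n22 t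
    have u37 := bf fun t => s17402 t u34 u33 u32 u30 u27 u24 u20 u16 u0 n10 n11 n14 n18 n21
    have u38 := bt fun t => g534 u27 w17296 u37 n2 t
    have u39 := bt fun t => s17401 u37 t u36 u27 u24 u23 u20 n2 n3 n5 n6 n9 u7 u5 n15 n19 u9
    have u40 := bf fun t => g109 t u38
    exact g537 u27 w17297 u39 n12 u40
  have s17404 : T.X p d r a = true → T.X p d r b = true → T.X p r b d = false → T.alt p r d a b = true → False := fun n0 n1 n2 n3 => by
    have u0 := bf fun t => g8 t n0
    have u1 := bt fun t => g537 n3 w17297 n0 n2 t
    have u2 := bt fun t => g534 n3 w17296 u0 n1 t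
    exact g109 u1 u2
  have s17405 : T.X a d e f = true → T.X a b d f = true → T.X b d e f = true → T.X b e d f = false → False := fun n0 n1 n2 n3 => by
    have u0 := bf fun t => g193 n0 t
    have u1 := bt fun t => g15606 t n1 g16911 n0 n3
    have u2 := bt fun t => g15601 t n1 g16911 u0 n2
    exact g177 u1 u2
  have s17406 : T.X a e d f = false → T.X a d b e = false → T.X a d e f = false → T.X p d a f = true → T.X a f b d = false → T.X a b d f = true → T.X p b a d = false → T.X b d e f = true → T.X p a b d = false → T.X p d b e = true → T.X p d e f = true → T.alt p a e b d = false → False := fun n0 n1 n2 n3 n4 n5 n6 n7 n8 n9 n10 n11 => by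
    have u0 := bf fun t => g87 n9 t
    have u1 := bt fun t => g15601 t n5 g16911 n0 n7
    have u2 := bf fun t => g176 t u1
    have u3 := bf fun t => g15595 u2 n4 g16911 t n7
    have u4 := bf fun t => g11563 t n3 n10 n2 n0 u3
    have u5 := bf fun t => g10508 n6 t u4 n9 n1
    have u6 := bf fun t => g4404 t n8 u5 u4 u0 u1
    have u7 := bf fun t => g4463 t n8 u5 u4 u0 u1
    exact g4374 u7 u6 n11
  have s17407 : T.X p r a d = false → T.X r b d f = false → T.X p r d e = true → T.alt p r d a f = true → T.X b e d f = false → T.X p a r f = true → T.X p d e f = true → T.X p d r f = true → T.X p b d f = true → T.alt p r d a b = true → T.alt p a e b d = false → False := fun n0 n1 n2 n3 n4 n5 n6 n7 n8 n9 n10 => by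
    have u0 := bf fun t => g40 t n7
    have u1 := bf fun t => g394 t n9
    have u2 := bt fun t => g16253 w17307 n3 t
    have u3 := bt fun t => g16256 u1 t u2
    have u4 := bf fun t => g2912 u3 t u0 n8
    have u5 := bt fun t => g2886 u3 t u0 n8 n1
    have u6 := bf fun t => s17404 t u5 u4 n9
    have u7 := bf fun t => g21 t u5
    have u8 := bt fun t => g16805 n10 u2 t
    have u9 := bf fun t => g1660 t n3
    have u10 := bf fun t => g16264 u9 w17311 t
    have u11 := bt fun t => g16243 n9 t u10
    have u12 := bf fun t => g923 u11 w17296 w17297 n5 t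
    have u13 := bt fun t => g906 u11 g16906 n5 t
    have u14 := bf fun t => s17391 t n5 u13 u12
    have u15 := bt fun t => g17230 g17233 u14 t
    have u16 := bt fun t => g17223 u15 t
    have u17 := bt fun t => g6276 u8 u16 n6 t
    have u18 := bf fun t => g117 t u13
    have u19 := bf fun t => g7108 w17296 n5 u12 t u18
    have u20 := bf fun t => g89 n8 t
    have u21 := bf fun t => g2908 u3 u4 u12 n7 u20 t
    have u22 := bf fun t => g103 n6 t
    have u23 := bt fun t => g6268 u8 t n8 u22 n4
    have u24 := bf fun t => g85 t u23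
    have u25 := bf fun t => g559 n9 g16906 u4 t
    have u26 := bf fun t => g15 n5 t
    have u27 := bf fun t => g13 t n5
    have u28 := bf fun t => g918 u11 g16906 u27 u26 t
    have u29 := bf fun t => g104 n6 t
    have u30 := bf fun t => g42 n7 t
    have u31 := bf fun t => g16078 n9 t g16912
    have u32 := bf fun t => g16100 u1 w17303 t
    have u33 := bf fun t => s17400 t u32 n9 u31
    have u34 := bf fun t => g16217 u1 t n10
    have u35 := bt fun t => g534 n9 w17296 n0 u5 t
    have u36 := bf fun t => g111 u35 t
    have u37 := bf fun t => g544 n9 g16906 t u36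
    have u38 := bf fun t => g6732 g16906 n0 u7 t u36
    have u39 := bf fun t => g1673 n3 n0 u37 u30 t
    have u40 := bf fun t => g7967 n0 u37 u6 n5 n7 t
    have u41 := bt fun t => g13201 u35 u13 u40 n1 t
    have u42 := bf fun t => g13248 u35 u18 u40 u21 t
    have u43 := bf fun t => g4735 u2 u33 u28 t n8 u41
    have u44 := bt fun t => g4688 u2 u25 u19 t u20 u42
    have u45 := bf fun t => s17405 t u41 u17 n4
    have u46 := bf fun t => g15611 t u41 g16911 u45 n4
    have u47 := bt fun t => s17406 t u46 u45 u44 u42 u41 u38 u17 u25 u23 n6 n10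
    have u48 := bf fun t => g195 u47 t
    have u49 := bf fun t => g11584 u44 t n6 u47
    have u50 := bf fun t => g15610 t u42 g16911 u48 u17
    have u51 := bf fun t => g11546 t u43 u49 u29 u47
    have u52 := bf fun t => g11516 t u39 u49 u22 u47
    have u53 := bf fun t => g10538 u33 t u52 u23 u46
    have u54 := bf fun t => g1640 t n0 n2 u51 u52
    have u55 := bf fun t => g4448 t u33 u53 u51 u24 u50
    have u56 := bf fun t => g16199 t u54 u34
    exact g16203 n9 u56 u55
  have s17408 : T.alt p r d a f = true → T.X b e d f = false → T.X p a r f = true → T.X p d e f = true → T.X p d r f = true → T.X p b d f = true → T.alt p r d a b = true → T.alt p r d a e = false → False := fun n0 n1 n2 n3 n4 n5 n6 n7 => by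
    have u0 := bf fun t => g15 n2 t
    have u1 := bf fun t => g13 t n2
    have u2 := bf fun t => g104 n3 t
    have u3 := bf fun t => g103 n3 t
    have u4 := bf fun t => g42 n4 t
    have u5 := bf fun t => g40 t n4
    have u6 := bf fun t => g89 n5 t
    have u7 := bf fun t => g88 n5 t
    have u8 := bf fun t => g16212 g16916 n7 t
    have u9 := bf fun t => g394 t n6
    have u10 := bf fun t => g16217 u9 t u8
    have u11 := bf fun t => g16596 u10 w17305 t
    have u12 := bf fun t => g16100 u9 w17303 t
    have u13 := bf fun t => g16688 u12 u8 t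
    have u14 := bf fun t => g16078 n6 t g16912
    have u15 := bf fun t => s17400 t u12 n6 u14
    have u16 := bf fun t => g16316 u14 n7 t
    have u17 := bt fun t => g16195 n6 n7 t
    have u18 := bf fun t => g1660 t n0
    have u19 := bt fun t => g16253 w17307 n0 t
    have u20 := bt fun t => g16433 n7 n0 t
    have u21 := bf fun t => g16264 u18 w17311 t
    have u22 := bf fun t => g16229 u9 t u18
    have u23 := bf fun t => g16460 u18 u11 t
    have u24 := bt fun t => g16256 u9 t u19
    have u25 := bt fun t => g16805 u8 u19 t
    have u26 := bt fun t => g3742 u20 g16908 n3 t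
    have u27 := bt fun t => g16243 n6 t u21
    have u28 := bf fun t => g16449 n7 t u23
    have u29 := bf fun t => g2915 u24 t n4 u7
    have u30 := bf fun t => g2912 u24 t u5 n5
    have u31 := bt fun t => g6268 u25 t n5 u3 n1
    have u32 := bf fun t => g6296 u25 n5 t n1
    have u33 := bf fun t => g163 u26 t
    have u34 := bf fun t => g164 u26 t
    have u35 := bf fun t => g9876 t n4 g16908 u26
    have u36 := bf fun t => g921 u27 g16906 u29 t
    have u37 := bt fun t => g906 u27 g16906 n2 t
    have u38 := bf fun t => g918 u27 g16906 u1 u0 t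
    have u39 := bf fun t => g923 u27 w17296 w17297 n2 t
    have u40 := bf fun t => g559 n6 g16906 u30 t
    have u41 := bf fun t => g85 t u31
    have u42 := bf fun t => g87 u31 t
    have u43 := bf fun t => g2614 u17 t u35 u31
    have u44 := bt fun t => g3733 u20 t n4 w17300 u34
    have u45 := bf fun t => g117 t u37
    have u46 := bf fun t => s17391 t n2 u37 u39
    have u47 := bf fun t => s17377 u37 u38 t u27
    have u48 := bf fun t => g2908 u24 u30 u39 n4 u6 t
    have u49 := bf fun t => g2594 u17 u30 u43 u35 u42 t
    have u50 := bf fun t => g7108 w17296 n2 u39 t u45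
    have u51 := bt fun t => g17230 g17233 u46 t
    have u52 := bt fun t => g17223 u51 t
    have u53 := bt fun t => g6276 u25 u52 n3 t
    have u54 := bf fun t => g9187 u29 u39 u47 g16908 u52 t
    have u55 := bf fun t => g14751 u49 t u54 u33 u53
    have u56 := bt fun t => g2886 u24 t u5 n5 u55
    have u57 := bf fun t => g21 t u56
    have u58 := bt fun t => s17407 t u55 u44 n0 n1 n2 n3 n4 n5 n6 u8
    have u59 := bf fun t => g7 u58 t
    have u60 := bt fun t => g1697 n0 u58 n2 t
    have u61 := bf fun t => g8002 u58 n2 n4 t
    have u62 := bf fun t => g552 n6 g16906 u59 u57 u15 t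
    have u63 := bf fun t => g131 t u60
    have u64 := bf fun t => g132 t u60
    have u65 := bf fun t => g1682 n0 u0 u5 t u63
    have u66 := bt fun t => g1674 n0 u59 u1 u4 t u64
    have u67 := bf fun t => g13255 u62 u37 u64 u48 t
    have u68 := bt fun t => g4696 u19 u15 u65 n5 t
    have u69 := bf fun t => g178 u68 t
    have u70 := bf fun t => s17405 t u68 u53 n1
    have u71 := bf fun t => g4693 u19 t u61 u7 u69
    have u72 := bf fun t => g15611 t u68 g16911 u70 n1
    have u73 := bt fun t => s17406 t u72 u70 u66 u67 u68 u71 u53 u40 u31 n3 u8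
    have u74 := bf fun t => g195 u73 t
    have u75 := bf fun t => g11584 u66 t n3 u73
    have u76 := bf fun t => g15610 t u67 g16911 u74 u53
    have u77 := bf fun t => g11546 t u65 u75 u2 u73
    have u78 := bf fun t => g11516 t u61 u75 u3 u73
    have u79 := bf fun t => g10538 u15 t u78 u31 u72
    have u80 := bf fun t => g10872 u79 u50 t u52 g16911
    have u81 := bf fun t => g4448 t u15 u79 u77 u41 u76
    have u82 := bt fun t => s17403 t u80 u56 u55 u50 u37 u36 u28 u22 n2 u49 u44 u30 u13 u53 u4 u17 u16 n3 n4 u20 n5 u32
    have u83 := bf fun t => g16788 u81 u21 t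
    exact g16303 u82 w17304 u83
  have s17409 : T.X b e d f = false → T.X p a r f = true → T.X p d e f = true → T.X p d r f = true → T.X p b d f = true → T.alt p r d a b = true → T.alt p r d a e = false → False := fun n0 n1 n2 n3 n4 n5 n6 => by
    have u0 := bf fun t => g103 n2 t
    have u1 := bf fun t => s17408 t n0 n1 n2 n3 n4 n5 n6
    have u2 := bt fun t => g16235 n5 u1 t
    have u3 := bt fun t => g16611 u2 w17305 t
    have u4 := bt fun t => g6330 u3 n4 t u0 n0
    have u5 := bf fun t => g6340 u3 t n4 n0
    have u6 := bf fun t => g92 t u4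
    exact g12206 u5 n4 u6 n2 n0
  have s17410 : T.alt p r d e f = false → T.X p d e f = true → T.alt p r e d f = false → False := fun n0 n1 n2 => by
    have u0 := bf fun t => s17349 n0 t
    have u1 := bt fun t => g3650 n0 n2 t
    have u2 := bf fun t => g17170 g17171 u0 t
    have u3 := bt fun t => g17158 t n0 u1
    exact g17160 u2 n1 u3
  have s17411 : T.X p a r f = true → v394 = true → T.alt p r f a b = true → False := fun n0 n1 n2 => by
    have u0 := bt fun t => g906 n2 g16906 n0 t
    have u1 := bf fun t => g923 n2 w17296 w17297 n0 t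
    exact s17391 n1 n0 u0 u1
  have s17412 : T.X p f a b = true → T.X p a b d = false → T.alt p a f b d = true → T.X p f b d = false → T.X p d a b = false → False := fun n0 n1 n2 n3 n4 => by
    have u0 := bf fun t => g57 t n0
    have u1 := bf fun t => g4721 n2 n4 n0 t
    have u2 := bf fun t => g10705 n4 n0 u1 n3 t
    exact g4688 n2 n1 u0 u1 n3 u2
  have s17413 : T.X r f a b = true → T.X p f a b = false → T.X p e r b = false → T.X p b e f = false → T.alt p r f a b = true → False := fun n0 n1 n2 n3 n4 => by
    have u0 := bf fun t => g17223 t n3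
    have u1 := bt fun t => g17230 g17233 t u0
    have u2 := bf fun t => s17411 t u1 n4
    have u3 := bf fun t => s17377 n0 n1 t n4
    have u4 := bt fun t => g914 n4 g16906 u2 t n1 n0
    have u5 := bt fun t => g3069 g16913 u3 g16908 n3 t
    exact g9171 n2 u4 w17300 n3 u5
  have s17414 : T.X r f a b = false → v394 = true → T.alt p r f a b = true → False := fun n0 n1 n2 => by
    have u0 := bf fun t => g908 n2 g16906 t n0
    exact s17385 n2 n0 u0 n1
  have s17415 : T.X p f c d = true → T.alt p c e d f = false → T.X p d e f = true → False := fun n0 n1 n2 => by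
    have u0 := bf fun t => g6461 t n0 n2 g16910
    have u1 := bf fun t => g6522 t n0 n2 g16910
    exact g6365 u0 n1 u1
  have s17416 : v378 = false → T.X p f c d = false → T.alt p r d c f = true → T.alt p r d e f = true → T.X p d e f = true → False := fun n0 n1 n2 n3 n4 => by
    have u0 := bf fun t => g3340 n2 g16907 t n1
    have u1 := bf fun t => g3652 n3 t
    have u2 := bf fun t => g3291 n2 t
    have u3 := bf fun t => g16641 u2 t u1
    have u4 := bt fun t => g3742 n3 g16908 n4 t
    have u5 := bf fun t => g17170 g17171 n0 t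
    have u6 := bf fun t => g17160 u5 n4 t
    have u7 := bf fun t => g17156 u6 n3 t
    have u8 := bt fun t => g9867 t u7 u0 g16908 n4 u4
    have u9 := bt fun t => g3316 n2 g16907 u7 n1 t
    have u10 := bf fun t => g158 t u9
    have u11 := bf fun t => g159 t u9
    have u12 := bt fun t => g3313 n2 w17299 u8 t u10
    have u13 := bf fun t => g97 u12 t
    have u14 := bt fun t => g3303 n2 w17298 t u0 u13 u11
    have u15 := bf fun t => g34 u14 t
    have u16 := bf fun t => s17370 t u15 u3
    have u17 := bt fun t => s17398 n0 n4 n1 u15 n3 n2 t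
    exact g17155 u17 u16
  have s17417 : T.X b e d f = true → T.X p f a b = false → T.X p r b d = false → T.X p d r e = false → T.X p d r f = true → T.alt p r f a b = true → T.X r e d f = false → T.alt p r f b d = true → T.alt p b d e f = true → T.X p d e f = true → T.alt p r d b e = true → False := fun n0 n1 n2 n3 n4 n5 n6 n7 n8 n9 n10 => by
    have u0 := bf fun t => g205 t n0
    have u1 := bf fun t => g6276 n8 t n9 u0
    have u2 := bf fun t => g17223 t u1
    have u3 := bt fun t => g17230 g17233 t u2
    have u4 := bf fun t => s17411 t u3 n5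
    have u5 := bt fun t => s17414 t u3 n5
    have u6 := bf fun t => g6278 n8 t n9 u0
    have u7 := bf fun t => s17377 u5 n1 t n5
    have u8 := bt fun t => g914 n5 g16906 u4 t n1 u5
    have u9 := bt fun t => g3069 g16913 u7 g16908 u1 t
    have u10 := bf fun t => g9117 t u7 w17301 u1 u9
    have u11 := bt fun t => g2895 n7 u8 n4 t
    have u12 := bf fun t => g152 u9 t
    have u13 := bf fun t => g2594 n10 n2 u10 n3 u6 t
    exact g14789 u13 u11 u12 n6 n0
  have s17418 : T.X p b e f = false → T.X r f a b = true → T.X p f b e = false → T.X p f a b = false → T.alt p r f a b = true → False := fun n0 n1 n2 n3 n4 => by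
    have u0 := bt fun t => g3088 g16913 t g16908 n0 n2
    have u1 := bt fun t => s17413 n1 n3 t n0 n4
    exact g23 u0 u1
  have s17419 : T.X p b a f = false → T.X r f a b = true → T.X p a r f = false → T.X b e d f = false → T.X p a b d = false → T.X p d r f = true → T.alt p r f a b = true → T.alt p r d a f = true → T.alt p b d e f = true → T.X p d e f = true → T.X p b d f = true → T.X p d a b = false → T.alt p a e b d = false → False := fun n0 n1 n2 n3 n4 n5 n6 n7 n8 n9 n10 n11 n12 => by
    have u0 := bf fun t => g89 n10 t
    have u1 := bt fun t => g16804 n12 t n8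
    have u2 := bf fun t => s17412 t n4 u1 u0 n11
    have u3 := bf fun t => g6296 n8 n10 t n3
    have u4 := bt fun t => s17418 t n1 u3 u2 n6
    have u5 := bt fun t => g6276 n8 u4 n9 t
    have u6 := bf fun t => s17377 n1 u2 t n6
    have u7 := bf fun t => g117 t n1
    have u8 := bf fun t => g103 n9 t
    have u9 := bt fun t => g6268 n8 t n10 u8 n3
    have u10 := bf fun t => g85 t u9
    have u11 := bf fun t => g4557 t u1
    have u12 := bf fun t => g104 n9 t
    have u13 := bf fun t => g88 n10 t
    have u14 := bf fun t => g900 n6 t u6 n0 u7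
    have u15 := bt fun t => g1706 n7 u14 n2 n5 t
    have u16 := bf fun t => g70 t u15
    have u17 := bf fun t => g72 u15 t
    have u18 := bf fun t => g4718 u1 n4 n0 u15 u0 t
    have u19 := bt fun t => g10702 n11 n0 u15 n10 t
    have u20 := bf fun t => g178 u19 t
    have u21 := bf fun t => s17405 t u19 u5 n3
    have u22 := bf fun t => g4693 u1 t u17 u13 u20
    have u23 := bf fun t => g15611 t u19 g16911 u21 n3
    have u24 := bt fun t => s17406 t u23 u21 u15 u18 u19 u22 u5 n4 u9 n9 n12
    have u25 := bf fun t => g195 u24 t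
    have u26 := bf fun t => g11584 u15 t n9 u24
    have u27 := bf fun t => g15610 t u18 g16911 u25 u5
    have u28 := bf fun t => g11546 t u16 u26 u12 u24
    have u29 := bf fun t => g11516 t u17 u26 u8 u24
    have u30 := bf fun t => g10538 n11 t u29 u9 u23
    have u31 := bf fun t => g10872 u30 n0 t u4 g16911
    have u32 := bf fun t => g4448 t n11 u30 u28 u10 u27
    have u33 := bf fun t => g5543 t u28 u15 u31 u25
    have u34 := bf fun t => g16788 u32 u11 t
    exact g16824 u34 u33 n8
  have s17420 : T.alt p a b d e = false → T.X a b d e = false → T.X a d e f = false → T.X p b e f = true → T.X p b d e = false → T.alt p a e b f = false → T.alt p b d e f = true → T.X p d e f = true → T.X p d a b = false → T.alt p a e b d = false → False := fun n0 n1 n2 n3 n4 n5 n6 n7 n8 n9 => by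
    have u0 := bt fun t => g16804 n9 t n6
    have u1 := bf fun t => g4557 t u0
    have u2 := bf fun t => g16788 n0 u1 t
    have u3 := bt fun t => g4374 n0 t n9
    have u4 := bt fun t => g4736 u2 n5 t
    have u5 := bt fun t => g16824 u2 t n6
    have u6 := bf fun t => g4396 u3 n8 t n4 n1
    have u7 := bt fun t => g4877 u4 u6 t n3 g16911
    exact g5552 u5 u7 n7 n2
  have s17423 : T.X a b d e = true → T.X a b d f = true → T.X b d e f = true → False := fun n0 n1 n2 => by
    have u0 := bf fun t => g179 n1 t
    have u1 := bf fun t => g176 n0 t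
    have u2 := bt fun t => g15610 n0 u0 g16911 t n2
    have u3 := bt fun t => g15601 u1 n1 g16911 t n2
    exact g15738 u3 u2
  have s17424 : T.X r f a b = true → T.X p a r f = false → T.X b e d f = false → T.X p a b d = false → T.X p d r f = true → T.alt p r f a b = true → T.alt p b f d e = false → T.alt p r d a f = true → T.alt p b d e f = true → T.X p d e f = true → T.X p b d f = true → T.X p d a b = false → T.alt p a e b d = false → False := fun n0 n1 n2 n3 n4 n5 n6 n7 n8 n9 n10 n11 n12 => by
    have u0 := bf fun t => g103 n9 t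
    have u1 := bt fun t => g6268 n8 t n10 u0 n2
    have u2 := bf fun t => g85 t u1
    have u3 := bf fun t => g6296 n8 n10 t n2
    have u4 := bf fun t => g89 n10 t
    have u5 := bt fun t => g16804 n12 t n8
    have u6 := bf fun t => s17412 t n3 u5 u4 n11
    have u7 := bf fun t => g40 t n4
    have u8 := bf fun t => g4558 t u5
    have u9 := bf fun t => g16813 u8 t n6
    have u10 := bf fun t => g4557 t u5
    have u11 := bf fun t => g117 t n0
    have u12 := bt fun t => s17418 t n0 u3 u6 n5
    have u13 := bt fun t => g6276 n8 u12 n9 t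
    have u14 := bt fun t => s17419 t n0 n1 n2 n3 n4 n5 n7 n8 n9 n10 n11 n12
    have u15 := bt fun t => g903 n5 w17296 t u14 u11
    have u16 := bf fun t => g1708 n7 u15 u7 t
    have u17 := bt fun t => g4696 u5 n11 u16 n10 t
    have u18 := bf fun t => s17405 t u17 u13 n2
    have u19 := bf fun t => s17423 t u17 u13
    have u20 := bt fun t => s17420 t u19 u18 u12 u2 u9 n8 n9 n11 n12
    have u21 := bt fun t => g16787 u20 u10 t
    have u22 := bt fun t => g16815 u20 t n6
    have u23 := bf fun t => g4828 u21 t u12 g16911
    have u24 := bf fun t => g4830 u21 t u12 g16911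
    have u25 := bf fun t => g5627 u22 t u23 n9
    exact g4448 u20 n11 u24 u25 u2 u19
  have s17425 : T.alt p a b d e = true → T.X a d e f = false → T.X p b e f = true → T.X p d b e = true → T.alt p a b d f = false → T.alt p b f d e = false → T.X p d e f = true → T.X p d a b = false → False := fun n0 n1 n2 n3 n4 n5 n6 n7 => by
    have u0 := bf fun t => g85 t n3
    have u1 := bt fun t => g16787 n0 n4 t
    have u2 := bt fun t => g16815 n0 t n5
    have u3 := bf fun t => g4828 u1 t n2 g16911
    have u4 := bf fun t => g4830 u1 t n2 g16911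
    have u5 := bf fun t => g5627 u2 t u3 n6
    have u6 := bt fun t => g5601 u2 t u3 n6 n1
    have u7 := bt fun t => g4448 n0 n7 u4 u5 u0 t
    have u8 := bt fun t => g10540 n7 u4 u6 n3 t
    exact g175 u7 u8
  have s17426 : T.X a d e f = false → T.X p b e f = true → T.X p d b e = true → T.alt p b f d e = false → T.alt p b d e f = true → T.X p d e f = true → T.X p d a b = false → T.alt p a e b d = false → False := fun n0 n1 n2 n3 n4 n5 n6 n7 => by
    have u0 := bf fun t => g85 t n2
    have u1 := bt fun t => g16804 n7 t n4
    have u2 := bf fun t => g4558 t u1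
    have u3 := bf fun t => g16813 u2 t n3
    have u4 := bf fun t => g4557 t u1
    have u5 := bf fun t => s17425 t n0 n1 n2 u4 n3 n5 n6
    have u6 := bf fun t => g16788 u5 u4 t
    have u7 := bt fun t => s17420 u5 t n0 n1 u0 u3 n4 n5 n6 n7
    have u8 := bt fun t => g4736 u6 u3 t
    have u9 := bt fun t => g16824 u6 t n4
    have u10 := bf fun t => g175 u7 t
    have u11 := bf fun t => g5552 u9 t n5 n0
    have u12 := bf fun t => g5554 u9 t n5 n0
    have u13 := bt fun t => g4877 u8 t u11 n1 g16911
    exact g10538 n6 u13 u12 n2 u10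
  have s17427 : T.X p d e f = true → T.X p b d f = true → T.alt p r d a b = true → T.alt p r d a e = false → False := fun n0 n1 n2 n3 => by
    have u0 := bf fun t => g89 n1 t
    have u1 := bf fun t => g88 n1 t
    have u2 := bf fun t => g16212 g16916 n3 t
    have u3 := bf fun t => g394 t n2
    have u4 := bf fun t => g16217 u3 t u2
    have u5 := bf fun t => g16596 u4 w17305 t
    have u6 := bf fun t => g16078 n2 t g16912
    have u7 := bf fun t => g16100 u3 w17303 t
    have u8 := bf fun t => s17400 t u7 n2 u6
    have u9 := bf fun t => g16316 u6 n3 t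
    have u10 := bt fun t => g16195 n2 n3 t
    have u11 := bf fun t => g103 n0 t
    have u12 := bt fun t => s17410 t n0 u5
    have u13 := bf fun t => g3652 u12 t
    have u14 := bt fun t => g16625 w17304 u12 t
    have u15 := bt fun t => g16632 u9 t u12
    have u16 := bt fun t => g16432 n3 t u12
    have u17 := bt fun t => g3742 u12 g16908 n0 t
    have u18 := bt fun t => g16601 t g16913 u13
    have u19 := bf fun t => g16616 w17309 u13 t
    have u20 := bt fun t => g16804 u2 t u14
    have u21 := bf fun t => g3289 t u15
    have u22 := bf fun t => g1662 u16 t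
    have u23 := bf fun t => g163 u17 t
    have u24 := bt fun t => g16240 t u22 u18
    have u25 := bf fun t => g16660 u21 u5 t
    have u26 := bf fun t => s17415 t u25 n0
    have u27 := bf fun t => g6293 u14 u1 t n0
    have u28 := bt fun t => s17416 t u26 u15 u12 n0
    have u29 := bt fun t => s17371 u28 t
    have u30 := bf fun t => g40 t u29
    have u31 := bf fun t => g9876 t u29 g16908 u17
    have u32 := bf fun t => g2915 u18 t u29 u1
    have u33 := bf fun t => g2912 u18 t u30 n1
    have u34 := bf fun t => g559 n2 g16906 u33 t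
    have u35 := bf fun t => s17412 t u34 u20 u0 u8
    have u36 := bf fun t => s17417 t u35 u33 u31 u29 u24 u23 u18 u14 n0 u10
    have u37 := bt fun t => g6268 u14 t n1 u11 u36
    have u38 := bf fun t => s17409 u36 t n0 u29 n1 n2 n3
    have u39 := bf fun t => s17424 t u38 u36 u34 u29 u24 u19 u16 u14 n0 n1 u8 u2
    have u40 := bf fun t => g908 u24 g16906 t u39
    have u41 := bt fun t => s17387 u39 u32 u40 u27 t
    have u42 := bt fun t => g6276 u14 u41 n0 t
    have u43 := bt fun t => s17426 t u41 u37 u19 u14 n0 u8 u2
    have u44 := bf fun t => s17405 u43 t u42 u36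
    have u45 := bt fun t => g4696 u20 u8 t n1 u44
    have u46 := bf fun t => g70 u45 t
    have u47 := bf fun t => g1708 u16 t u30 u45
    exact g1706 u16 u47 u38 u29 u46
  have s17428 : T.X p d r f = true → T.X p a d f = true → T.X p a r f = false → T.alt p r d a f = true → False := fun n0 n1 n2 n3 => by
    have u0 := bf fun t => g70 n1 t
    have u1 := bf fun t => g40 t n0
    have u2 := bt fun t => g1706 n3 t n2 n0 u0
    exact g1708 n3 u2 u1 n1
  have s17430 : T.bfo p b a c r = true → T.X p c r b = false → False := fun n0 n1 => by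
    have u0 := bf fun t => g16964 n0 t n1
    exact s17312 n0 u0
  have s17431 : T.X r f c d = true → T.X p r d f = true → T.X p d r f = false → T.alt p r f c e = false → T.alt p r d c f = true → v378 = false → False := fun n0 n1 n2 n3 n4 n5 => by
    have u0 := bf fun t => g41 n1 t
    have u1 := bf fun t => g158 t n0
    have u2 := bf fun t => g159 t n0
    have u3 := bt fun t => g3313 n4 w17299 n1 t u1
    have u4 := bf fun t => g97 u3 t
    have u5 := bt fun t => g3303 n4 w17298 t u0 u4 u2
    have u6 := bf fun t => g34 u5 t
    have u7 := bf fun t => s17370 t u6 n3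
    have u8 := bt fun t => g17144 t u6 n0
    have u9 := bf fun t => g17155 t u7
    have u10 := bt fun t => g17147 t u8 n2
    exact g17165 n5 u10 u9
  have s17432 : T.X p d r b = false → T.X p b r d = false → T.X p b c d = true → v330 = true → False := fun n0 n1 n2 n3 => by
    have u0 := bf fun t => g2180 g16912 t n1 n0 w17298
    have u1 := bf fun t => g2201 g16912 u0 n0 g16907 n2 t
    have u2 := bf fun t => s17430 t u0
    have u3 := bf fun t => g16956 t u0 u1
    have u4 := bf fun t => g16969 t u2
    have u5 := bf fun t => g16960 t u3 n0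
    exact g16978 n3 u5 u4
  have s17436 : T.X p b r d = true → T.X p d r f = true → T.alt p r f b d = true → T.X p b d f = true → False := fun n0 n1 n2 n3 => by
    have u0 := bf fun t => g42 n1 t
    have u1 := bf fun t => g40 t n1
    have u2 := bf fun t => g88 n3 t
    have u3 := bf fun t => g21 n0 t
    have u4 := bt fun t => g2883 n2 n0 u0 u2 t
    have u5 := bt fun t => g2886 n2 u3 u1 n3 t
    exact g14707 u5 u4
  have s17437 : T.X p c r f = false → T.X p f c d = false → T.X p d r f = true → T.alt p r f c e = false → T.alt p r d c f = true → v378 = false → False := fun n0 n1 n2 n3 n4 n5 => by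
    have u0 := bf fun t => s17370 t n0 n3
    have u1 := bf fun t => g3343 n4 g16907 n0 n2 n1 t
    have u2 := bf fun t => g17142 t n0 u1
    have u3 := bf fun t => g17155 t u0
    have u4 := bt fun t => g17148 t u2 n2
    exact g17165 n5 u4 u3
  have s17438 : T.X p f c d = false → T.X p d r f = true → T.alt p r f c e = false → T.alt p r d c f = true → T.X p d e f = false → False := fun n0 n1 n2 n3 n4 => by
    have u0 := bf fun t => g42 n1 t
    have u1 := bf fun t => g3329 n3 w17298 w17299 t u0
    have u2 := bf fun t => g40 t n1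
    have u3 := bf fun t => g17161 t n4
    have u4 := bf fun t => g17169 g17171 t u3
    have u5 := bf fun t => g9490 g16907 u1 u2 n0 t
    have u6 := bf fun t => g3311 n3 u1 u2 t u5
    have u7 := bt fun t => s17437 t n0 n1 n2 n3 u4
    have u8 := bt fun t => g9479 g16907 u7 u2 u6 t
    have u9 := bf fun t => g17141 t u7 u8
    have u10 := bt fun t => g17148 t u9 n1
    have u11 := bt fun t => g17165 u4 u10 t
    have u12 := bt fun t => g17154 u11 t
    have u13 := bt fun t => g17155 u11 t
    have u14 := bf fun t => g6508 t n0 u12 n4 g16910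
    have u15 := bt fun t => g17152 u13 t n2
    have u16 := bt fun t => g16651 n3 t u14
    exact g3470 u15 u16
  have s17439 : T.X p b c d = true → T.X p b r d = false → v330 = true → False := fun n0 n1 n2 => by
    have u0 := bt fun t => s17432 t n1 n0 n2
    have u1 := bt fun t => g2178 g16912 u0 n0 t
    have u2 := bf fun t => g8351 t u0 g16907 n0
    have u3 := bt fun t => g16958 t u2 u1
    have u4 := bf fun t => s17430 t u2
    have u5 := bf fun t => g16959 t u3 u0
    have u6 := bf fun t => g16969 t u4
    exact g16978 n2 u5 u6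
  have s17440 : T.X p d r f = true → T.alt p r f c e = false → T.alt p r d c f = true → T.alt p b d c f = true → T.alt p r f b d = true → T.X p d e f = false → T.X p b d f = true → v330 = true → False := fun n0 n1 n2 n3 n4 n5 n6 n7 => by
    have u0 := bf fun t => g89 n6 t
    have u1 := bf fun t => g40 t n0
    have u2 := bf fun t => g2912 n4 t u1 n6
    have u3 := bf fun t => s17436 t n0 n4 n6
    have u4 := bf fun t => g2153 g16912 u2 u3 w17298 t
    have u5 := bt fun t => s17438 t n0 n1 n2 n5
    have u6 := bt fun t => g5836 n3 t u4 u0 u5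
    exact s17439 u6 u3 n7
  have s17441 : T.X p r b d = true → T.X p d r f = false → T.alt p r f c e = false → T.alt p r d c f = true → T.alt p b d c f = true → T.alt p r f b d = true → v378 = false → T.X p b d f = true → v330 = true → False := fun n0 n1 n2 n3 n4 n5 n6 n7 n8 => by
    have u0 := bf fun t => g89 n7 t
    have u1 := bf fun t => g19 n0 t
    have u2 := bt fun t => g2912 n5 n0 t n7
    have u3 := bf fun t => s17439 t u1 n8
    have u4 := bf fun t => s17431 t u2 n1 n2 n3 n6
    have u5 := bt fun t => g3316 n3 g16907 n1 t u4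
    have u6 := bf fun t => g98 t u5
    have u7 := bf fun t => g99 t u5
    have u8 := bt fun t => g5836 n4 u3 t u0 u5
    have u9 := bt fun t => g5866 n4 t n7 u6 u7
    have u10 := bf fun t => g11957 u8 u9 n7 u6 u7 t
    exact g5856 n4 u8 u9 u10
  have s17443 : T.X p c r f = false → T.X r f c d = true → T.X p d r f = false → T.alt p r f c e = false → v378 = false → False := fun n0 n1 n2 n3 n4 => by
    have u0 := bf fun t => s17370 t n0 n3
    have u1 := bt fun t => g17144 t n0 n1
    have u2 := bf fun t => g17155 t u0
    have u3 := bt fun t => g17147 t u1 n2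
    exact g17165 n4 u3 u2
  have s17444 : T.X p b r d = false → T.X p b c d = false → T.X p r b d = false → T.X p d r f = false → T.alt p r f c e = false → T.alt p r d c f = true → T.alt p b d c f = true → T.alt p r f b d = true → v378 = false → T.X p f b d = false → False := fun n0 n1 n2 n3 n4 n5 n6 n7 n8 n9 => by
    have u0 := bf fun t => g2153 g16912 n2 n0 w17298 t
    have u1 := bf fun t => g2910 n7 n2 n0 t n9
    have u2 := bf fun t => g5836 n6 n1 u0 n9 t
    have u3 := bt fun t => g3316 n5 g16907 n3 u2 t
    have u4 := bf fun t => g159 t u3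
    have u5 := bt fun t => s17443 t u3 n3 n4 n8
    have u6 := bf fun t => g34 t u5
    have u7 := bf fun t => g3338 n5 u5 n3 t
    exact g3303 n5 w17298 u6 u1 u7 u4
  have s17445 : T.X p b c d = false → T.X p r b d = false → T.X p d r f = false → T.alt p r f c e = false → T.alt p r d c f = true → T.alt p b d c f = true → T.alt p r f b d = true → v378 = false → T.X p f b d = false → T.alt p r d a b = true → False := fun n0 n1 n2 n3 n4 n5 n6 n7 n8 n9 => by
    have u0 := bf fun t => g16078 n9 t g16912
    have u1 := bf fun t => g394 t n9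
    have u2 := bf fun t => g16100 u1 w17303 t
    have u3 := bf fun t => s17400 t u2 n9 u0
    have u4 := bt fun t => s17444 t n0 n1 n2 n3 n4 n5 n6 n7 n8
    have u5 := bt fun t => g546 n9 g16906 u4 t
    have u6 := bf fun t => g561 n9 w17296 w17297 t u4
    have u7 := bt fun t => g17020 t u6 u5
    have u8 := bf fun t => g17021 t u7 u4
    exact s17357 u7 u8 u3 u6 n0
  have s17446 : T.X p b c d = true → T.alt p r d a b = true → False := fun n0 n1 => by
    have u0 := bf fun t => g16078 n1 t g16912
    have u1 := bf fun t => g394 t n1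
    have u2 := bf fun t => g16100 u1 w17303 t
    have u3 := bf fun t => s17400 t u2 n1 u0
    have u4 := bf fun t => g16975 t u3
    have u5 := bt fun t => g16982 g16985 t u4
    have u6 := bt fun t => s17320 t n0
    have u7 := bt fun t => s17439 n0 t u5
    have u8 := bt fun t => g17046 g17047 t u6
    have u9 := bt fun t => g546 n1 g16906 u7 t
    have u10 := bf fun t => g561 n1 w17296 w17297 t u7
    have u11 := bt fun t => g17020 t u10 u9
    have u12 := bf fun t => s17358 t u10 u0
    have u13 := bf fun t => g17021 t u11 u7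
    have u14 := bf fun t => g17031 t u12
    exact g17040 u8 u13 u14
  have s17447 : T.alt p r f b d = true → T.X p d r f = false → v378 = false → T.X p b d f = true → T.alt p r d a b = true → False := fun n0 n1 n2 n3 n4 => by
    have u0 := bf fun t => g89 n3 t
    have u1 := bf fun t => s17446 t n4
    have u2 := bf fun t => g16078 n4 t g16912
    have u3 := bf fun t => g394 t n4
    have u4 := bf fun t => g16100 u3 w17303 t
    have u5 := bf fun t => s17400 t u4 n4 u2
    have u6 := bf fun t => g16975 t u5
    have u7 := bt fun t => g16982 g16985 t u6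
    have u8 := bf fun t => g2748 t n0
    have u9 := bf fun t => g16598 n0 g16913 t
    have u10 := bt fun t => g16529 w17303 n0 t
    have u11 := bt fun t => g16515 g16912 u8 t
    have u12 := bf fun t => g3291 u11 t
    have u13 := bf fun t => g16641 u12 t u9
    have u14 := bf fun t => s17441 t n1 u13 u11 u10 n0 n2 n3 u7
    exact s17445 u1 u14 n1 u13 u11 u10 n0 n2 u0 n4
  have s17448 : T.X p b r d = true → T.alt p r d a b = true → False := fun n0 n1 => by
    have u0 := bf fun t => s17446 t n1
    have u1 := bf fun t => g16078 n1 t g16912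
    have u2 := bf fun t => g394 t n1
    have u3 := bf fun t => g16100 u2 w17303 t
    have u4 := bf fun t => s17400 t u3 n1 u1
    have u5 := bt fun t => g546 n1 g16906 n0 t
    have u6 := bf fun t => g561 n1 w17296 w17297 t n0
    have u7 := bt fun t => g17020 t u6 u5
    have u8 := bf fun t => g17021 t u7 n0
    exact s17357 u7 u8 u4 u6 u0
  have s17449 : T.alt p r c a d = true → T.X p a r d = true → T.alt p r d a b = true → False := fun n0 n1 n2 => by
    have u0 := bf fun t => g7 t n1
    have u1 := bf fun t => s17446 t n2
    have u2 := bf fun t => g16078 n2 t g16912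
    have u3 := bf fun t => g394 t n2
    have u4 := bf fun t => g16100 u3 w17303 t
    have u5 := bf fun t => s17400 t u4 n2 u2
    have u6 := bt fun t => g16093 w17306 n0 t
    have u7 := bf fun t => g985 n0 n1 w17298 t
    have u8 := bf fun t => g3974 u6 u5 t u1 g16909
    exact g979 n0 u0 g16907 u8 u7
  have s17450 : T.alt p r c e f = false → T.X p r c f = false → T.X p c r f = true → T.X p f c d = false → T.alt p r c d f = false → T.alt p r f c e = false → T.alt p r f d e = true → T.X p d e f = false → False := fun n0 n1 n2 n3 n4 n5 n6 n7 => by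
    have u0 := bf fun t => g16627 t n4 n0
    have u1 := bt fun t => g3469 n0 t n5
    have u2 := bt fun t => g16657 u0 n6 t
    have u3 := bf fun t => g3519 u1 n2 w17300 t
    have u4 := bf fun t => g6508 u2 n3 t n7 g16910
    exact g3513 u1 n1 g16908 u4 u3
  have s17451 : T.X r f c d = true → T.X p d c f = false → T.X p f c d = false → T.alt p r c d f = false → T.alt p r f c e = false → T.X p f r d = false → T.X p b d e = true → T.X p d b e = false → T.alt p r f d e = true → T.X p d r f = false → T.X p d e f = false → T.X p b c d = false → False := fun n0 n1 n2 n3 n4 n5 n6 n7 n8 n9 n10 n11 => by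
    have u0 := bf fun t => g17161 t n10
    have u1 := bf fun t => g17169 g17171 t u0
    have u2 := bt fun t => g16640 t n4 n8
    have u3 := bf fun t => s17343 n2 u2 t n9
    have u4 := bf fun t => g17146 t u3 n9
    have u5 := bf fun t => g17166 u1 u4 t
    have u6 := bt fun t => g16561 t g16913 n4
    have u7 := bf fun t => g16522 g16912 u6 t
    have u8 := bf fun t => g3652 t n8
    have u9 := bf fun t => g159 t n0
    have u10 := bt fun t => g3448 u2 g16907 t n9 n2 n0
    have u11 := bf fun t => g3434 u2 t n5 n1 u9
    have u12 := bt fun t => s17450 t u11 u10 n2 n3 n4 n8 n10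
    have u13 := bt fun t => g16585 w17304 u12 t
    have u14 := bt fun t => g16663 u12 u8 t
    have u15 := bt fun t => g17149 t u12 u10
    have u16 := bt fun t => g16868 t u7 u13
    have u17 := bf fun t => g17153 u5 t u15
    have u18 := bt fun t => g6439 u14 t n2 u17 n10 g16910
    have u19 := bt fun t => g5731 u16 n11 n7 u18 t
    have u20 := bf fun t => g197 t u19
    have u21 := bt fun t => g11684 n11 t n6 u18 u20
    exact g5736 u16 u21 n6 u20
  have s17452 : T.alt p r c e f = true → T.X p c e f = false → T.X p f c d = false → T.alt p b c d f = false → T.X p b d e = true → T.X p d b e = false → T.alt p r d e f = false → T.X p d e f = false → T.X p b c d = false → False := fun n0 n1 n2 n3 n4 n5 n6 n7 n8 => by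
    have u0 := bt fun t => g16585 w17304 n0 t
    have u1 := bt fun t => g16663 n0 n6 t
    have u2 := bt fun t => g16868 t n3 u0
    have u3 := bt fun t => g6439 u1 t n2 n1 n7 g16910
    have u4 := bt fun t => g5731 u2 n8 n5 u3 t
    have u5 := bf fun t => g197 t u4
    have u6 := bt fun t => g11684 n8 t n4 u3 u5
    exact g5736 u2 u6 n4 u5
  have s17453 : T.X p c e f = false → T.X p r c f = false → T.X p c d f = true → T.X p f c d = false → T.X p c b d = false → T.alt p r c d f = false → T.alt p r f c e = false → T.X p b d e = true → T.X p d b e = false → T.X b d e f = true → T.alt p r f d e = true → T.X p e b f = false → T.X p d e f = false → T.X p d b f = false → T.X p b c d = false → T.alt p r d b e = true → False := fun n0 n1 n2 n3 n4 n5 n6 n7 n8 n9 n10 n11 n12 n13 n14 n15 => by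
    have u0 := bt fun t => g16617 w17309 n10 t
    have u1 := bf fun t => g16576 w17308 n6 t
    have u2 := bt fun t => g16880 t u1 u0
    have u3 := bt fun t => g16561 t g16913 n6
    have u4 := bf fun t => g16522 g16912 u3 t
    have u5 := bf fun t => g2386 t u3
    have u6 := bf fun t => g206 n9 t
    have u7 := bf fun t => g3652 t n10
    have u8 := bf fun t => s17452 t n0 n3 u4 n7 n8 u7 n12 n14
    have u9 := bf fun t => g16584 w17304 u8 t
    have u10 := bf fun t => g16627 t n5 u8
    have u11 := bf fun t => g16551 t u5 u8
    have u12 := bt fun t => g3469 u8 t n6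
    have u13 := bt fun t => g6003 u9 t u1
    have u14 := bt fun t => g16657 u10 n10 t
    have u15 := bt fun t => g16493 u11 n15 t
    have u16 := bt fun t => g3513 u12 n1 g16908 n0 t
    have u17 := bf fun t => g6505 u14 t n3 n12 g16910
    have u18 := bf fun t => g6053 u13 t n11 u16
    have u19 := bt fun t => g5803 u15 n14 n7 t u17
    have u20 := bt fun t => g5955 u2 n14 u18 n13 n3 t
    have u21 := bt fun t => g6519 u14 u19 u16 t
    have u22 := bf fun t => g200 t u20
    have u23 := bf fun t => g201 t u20
    have u24 := bf fun t => g11890 t u18 n13 n2 u22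
    have u25 := bf fun t => g11709 n14 n4 u24 n7 u19 t
    have u26 := bt fun t => g15927 u25 u23 t n9 u21
    exact g15933 u25 u20 u26 u6 g16910
  have s17454 : T.X p r c f = false → T.X p c r f = false → T.X p c d f = true → T.X p f c d = false → T.X p c b d = false → T.alt p r c d f = false → T.alt p c e d f = false → T.alt p r f c e = false → T.X p b d e = true → T.X p d b e = false → T.X b d e f = true → T.alt p r d c f = false → T.alt p r f d e = true → T.X p e b f = false → T.X p d e f = false → T.X p d b f = false → T.X p b c d = false → T.alt p r d b e = true → False := fun n0 n1 n2 n3 n4 n5 n6 n7 n8 n9 n10 n11 n12 n13 n14 n15 n16 n17 => by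
    have u0 := bf fun t => g17068 t n3
    have u1 := bt fun t => g17075 g17078 t u0
    have u2 := bt fun t => s17453 t n0 n2 n3 n4 n5 n7 n8 n9 n10 n12 n13 n14 n15 n16 n17
    have u3 := bf fun t => g6508 t n3 u2 n14 g16910
    have u4 := bf fun t => g16653 n11 t u3
    have u5 := bt fun t => g16657 t n12 u3
    have u6 := bt fun t => g6365 t n6 u3
    have u7 := bt fun t => g3469 t u4 n7
    have u8 := bf fun t => g6458 u6 t u2 g16910
    have u9 := bt fun t => g3561 u7 g16908 u2 t
    have u10 := bf fun t => g17061 t u8
    have u11 := bf fun t => g3218 u5 g16907 t u8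
    have u12 := bt fun t => g17051 t u11 u9
    have u13 := bt fun t => g9697 n0 n1 t g16908 u2 u9
    have u14 := bt fun t => g17071 u1 t u10
    exact g17052 u14 u12 u13
  have s17455 : T.X b c d e = false → T.X r e c d = false → T.X r e c f = false → T.X b c e f = true → T.X p r c f = true → T.X p f c d = false → T.alt p b f c d = true → T.alt p r f b c = true → T.X r b d e = false → T.X r b e f = false → T.X p f r b = false → T.X b f d e = false → T.X r b c d = true → T.X p d b f = false → T.X p b c d = false → False := fun n0 n1 n2 n3 n4 n5 n6 n7 n8 n9 n10 n11 n12 n13 n14 => by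
    have u0 := bf fun t => g15933 n0 t n3 n11 g16910
    have u1 := bf fun t => g14237 n12 t n8 n1 n0
    have u2 := bt fun t => g5955 n6 n14 t n13 n5 u0
    have u3 := bf fun t => g14581 u1 t n9 n2 n3
    have u4 := bf fun t => g82 t u2
    exact g2526 n7 n10 n4 u4 u3
  have s17456 : T.X p c e f = true → T.X r c d f = false → T.X p r c f = true → T.X p f c d = false → T.X p c b d = false → T.alt p r f c e = false → T.X r b d e = false → T.X r b e f = false → T.X p f r b = false → T.X r e d f = false → T.X p r d e = true → T.X b d e f = true → T.alt p b d c f = false → T.alt p r f d e = true → T.X r b c d = true → T.X p b e f = true → T.X p d e f = false → T.X p d b f = false → T.X p b c d = false → False := fun n0 n1 n2 n3 n4 n5 n6 n7 n8 n9 n10 n11 n12 n13 n14 n15 n16 n17 n18 => by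
    have u0 := bt fun t => g16617 w17309 n13 t
    have u1 := bf fun t => g16576 w17308 n5 t
    have u2 := bt fun t => g16880 t u1 u0
    have u3 := bt fun t => g16561 t g16913 n5
    have u4 := bf fun t => g206 n11 t
    have u5 := bf fun t => g16541 w17310 t n12
    have u6 := bf fun t => g91 n15 t
    have u7 := bf fun t => g6508 t n3 n0 n16 g16910
    have u8 := bf fun t => g16653 u5 t u7
    have u9 := bt fun t => g16657 t n13 u7
    have u10 := bf fun t => g16893 n12 t u7
    have u11 := bt fun t => g16897 t u0 u7
    have u12 := bt fun t => g3469 t u8 n5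
    have u13 := bt fun t => g6003 t u10 u1
    have u14 := bt fun t => g3561 u12 g16908 n0 t
    have u15 := bt fun t => g6095 u13 n15 n0 t
    have u16 := bf fun t => g160 u14 t
    have u17 := bf fun t => g9701 t n2 n0 u14
    have u18 := bf fun t => g14904 t n1 u14 n9 g16910
    have u19 := bf fun t => g203 u15 t
    have u20 := bf fun t => g3215 u9 u17 n10 t
    have u21 := bt fun t => s17455 t u18 u16 u15 n2 n3 u2 u3 n6 n7 n8 u4 n14 n17 n18
    have u22 := bf fun t => g196 u21 t
    have u23 := bf fun t => g15918 u22 t u19 n11 g16910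
    have u24 := bf fun t => g5725 u11 n4 t u20 u22
    have u25 := bt fun t => g5955 u2 n18 t n17 n3 u23
    exact g6086 u13 u24 u25 u6 u19
  have s17457 : T.X p b c f = true → T.X p c d f = true → T.X p c b d = false → T.alt p b f c d = true → T.X p b d f = true → T.X p b c d = false → False := fun n0 n1 n2 n3 n4 n5 => by
    have u0 := bf fun t => g97 n1 t
    have u1 := bf fun t => g89 n4 t
    have u2 := bt fun t => g5968 n3 n0 u1 u0 t
    exact g11926 n5 n2 n0 n4 n1 u2
  have s17458 : T.X p f c d = false → T.X p c b d = false → T.alt p r c d f = false → T.alt p c e d f = false → T.alt p r f c e = false → T.X r b d e = false → T.X r b e f = false → T.X r b d f = false → T.X p f r b = false → T.alt p b d c f = false → T.alt p r f d e = true → T.X p d r f = false → T.X r b c d = true → T.X p b e f = true → T.X p d e f = false → T.X p b d f = true → T.X p b c d = false → T.alt p r d b e = true → False := fun n0 n1 n2 n3 n4 n5 n6 n7 n8 n9 n10 n11 n12 n13 n14 n15 n16 n17 => by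
    have u0 := bt fun t => g16617 w17309 n10 t
    have u1 := bf fun t => g16576 w17308 n4 t
    have u2 := bt fun t => g16880 t u1 u0
    have u3 := bt fun t => g16561 t g16913 n4
    have u4 := bf fun t => g16522 g16912 u3 t
    have u5 := bf fun t => g2386 t u3
    have u6 := bt fun t => g16640 t n4 n10
    have u7 := bf fun t => g92 n13 t
    have u8 := bf fun t => g89 n15 t
    have u9 := bt fun t => g6327 u0 u8 n13 n14 t
    have u10 := bf fun t => g205 u9 t
    have u11 := bt fun t => g6330 u0 n15 u7 t u10
    have u12 := bf fun t => g105 u11 t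
    have u13 := bt fun t => g3812 n10 t g16908 n14 u12
    have u14 := bf fun t => g9874 u13 g16908 u11 t
    have u15 := bt fun t => g3782 n10 t n11 w17300 u11
    have u16 := bf fun t => g41 u15 t
    have u17 := bf fun t => g91 n13 t
    have u18 := bf fun t => g88 n15 t
    have u19 := bf fun t => g6343 u0 t u18 u8 u17
    have u20 := bt fun t => g12270 t u19 n15 n13 u11 u9
    have u21 := bf fun t => g12177 t u8 u7 n14 u9
    have u22 := bf fun t => g206 u9 t
    have u23 := bf fun t => g16541 w17310 t n9
    have u24 := bf fun t => g3652 t n10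
    have u25 := bf fun t => s17343 n0 u6 t n11
    have u26 := bt fun t => g5984 u2 n16 n15 t n0
    have u27 := bf fun t => g97 u26 t
    have u28 := bf fun t => s17451 t u27 n0 n2 n4 u16 u20 u21 n10 n11 n14 n16
    have u29 := bf fun t => g17143 u25 t u28
    have u30 := bt fun t => s17454 t u29 u26 n0 n1 n2 n3 n4 u20 u21 u9 u23 n10 u17 n14 u18 n16 n17
    have u31 := bf fun t => g9531 g16907 u30 u26 t
    have u32 := bf fun t => s17456 t u31 u30 n0 n1 n4 n5 n6 n8 u14 u13 u9 n9 n10 n12 n13 n14 u18 n16
    have u33 := bf fun t => s17452 t u32 n0 u4 u20 u21 u24 n14 n16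
    have u34 := bf fun t => g16584 w17304 u33 t
    have u35 := bf fun t => g16627 t n2 u33
    have u36 := bf fun t => g16551 t u5 u33
    have u37 := bt fun t => g6003 u34 t u1
    have u38 := bt fun t => g16657 u35 n10 t
    have u39 := bt fun t => g16493 u36 n17 t
    have u40 := bf fun t => g6505 u38 t n0 n14 g16910
    have u41 := bt fun t => g5803 u39 n16 u20 t u40
    have u42 := bf fun t => s17457 t u26 n1 u2 n15 n16
    have u43 := bt fun t => g2526 u3 n8 u30 u42 t
    have u44 := bt fun t => g6047 u37 u42 n13 u32 t
    have u45 := bf fun t => g5970 u2 n1 u42 u8 u27 t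
    have u46 := bf fun t => g143 u43 t
    have u47 := bf fun t => g6053 u37 t u17 u44
    have u48 := bt fun t => g6519 u38 u41 u44 t
    have u49 := bf fun t => g14420 n12 u46 n7 u28 t
    have u50 := bt fun t => g5955 u2 n16 u47 u18 n0 t
    have u51 := bf fun t => g11890 t u47 u18 u26 u49
    have u52 := bf fun t => g11709 n16 n1 u51 u20 u41 t
    have u53 := bt fun t => g15927 u52 u45 t u9 u48
    exact g15933 u52 u50 u53 u22 g16910
  have s17459 : T.X p f c d = true → T.alt p r f c d = true → T.alt p r f c e = false → T.X p r d f = true → T.X p d r f = false → v378 = false → False := fun n0 n1 n2 n3 n4 n5 => by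
    have u0 := bf fun t => g98 t n0
    have u1 := bt fun t => g3439 n1 g16907 n0 t
    have u2 := bf fun t => g158 t u1
    have u3 := bt fun t => s17443 t u1 n4 n2 n5
    have u4 := bt fun t => g3431 n1 t n3 u0 u2
    exact g36 u3 u4
  have s17460 : T.X p c e f = false → T.X p c b f = true → T.X p f c d = false → T.alt p b c d f = false → T.alt p b f c e = false → T.X p b d e = true → T.X p d b e = false → T.alt p r d e f = false → T.X p b e f = true → T.X p d e f = false → T.X p b c d = false → False := fun n0 n1 n2 n3 n4 n5 n6 n7 n8 n9 n10 => by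
    have u0 := bf fun t => g82 t n1
    have u1 := bf fun t => g91 n8 t
    have u2 := bf fun t => s17452 t n0 n2 n3 n5 n6 n7 n9 n10
    have u3 := bf fun t => g16584 w17304 u2 t
    have u4 := bt fun t => g6003 u3 t n4
    have u5 := bf fun t => g6053 u4 n1 u1 t
    exact g6047 u4 u0 n8 n0 u5
  have s17461 : T.alt p r f c e = false → T.alt p r d b f = true → T.alt p b d c f = false → T.alt p r f d e = true → T.X p d r f = false → T.X p d r b = false → T.X p b e f = true → T.X p d e f = false → T.X p b d f = true → T.X p b r d = false → T.X p b c d = false → T.alt p r e d f = false → T.alt p r d c e = false → T.alt p r d b e = true → False := fun n0 n1 n2 n3 n4 n5 n6 n7 n8 n9 n10 n11 n12 n13 => by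
    have u0 := bt fun t => g16617 w17309 n3 t
    have u1 := bf fun t => g92 n6 t
    have u2 := bf fun t => g89 n8 t
    have u3 := bt fun t => g6327 u0 u2 n6 n7 t
    have u4 := bf fun t => g205 u3 t
    have u5 := bt fun t => g6330 u0 n8 u1 t u4
    have u6 := bf fun t => g105 u5 t
    have u7 := bt fun t => g3812 n3 t g16908 n7 u6
    have u8 := bf fun t => g91 n6 t
    have u9 := bf fun t => g88 n8 t
    have u10 := bf fun t => g6343 u0 t u9 u2 u8
    have u11 := bt fun t => g12270 t u10 n8 n6 u5 u3
    have u12 := bf fun t => g38 u7 t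
    have u13 := bf fun t => g2605 n13 n9 n5 t u12
    have u14 := bf fun t => g2626 n13 n5 u13 u7 u11 t
    have u15 := bt fun t => g3782 n3 t n4 w17300 u5
    have u16 := bf fun t => g41 u15 t
    have u17 := bf fun t => g2786 n1 n9 n5 t u16
    have u18 := bf fun t => g3106 g16913 u13 u17 g16908 n6 t
    have u19 := bf fun t => g2807 n1 n5 u17 u15 n8 t
    have u20 := bf fun t => g12177 t u2 u1 n7 u3
    have u21 := bf fun t => g16541 w17310 t n2
    have u22 := bf fun t => g3652 t n3
    have u23 := bt fun t => g2164 g16912 n5 g16907 n10 t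
    have u24 := bf fun t => g136 u23 t
    have u25 := bf fun t => g2180 g16912 t n9 n5 w17298
    have u26 := bf fun t => g17161 t n7
    have u27 := bf fun t => g17169 g17171 t u26
    have u28 := bt fun t => g16561 t g16913 n0
    have u29 := bf fun t => g16576 w17308 n0 t
    have u30 := bf fun t => g16648 n12 n0 t
    have u31 := bt fun t => g16640 t n0 n3
    have u32 := bf fun t => g16522 g16912 u28 t
    have u33 := bt fun t => g16880 t u29 u0
    have u34 := bf fun t => g16659 t n11 u30
    have u35 := bf fun t => s17459 t u31 n0 u15 n4 u27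
    have u36 := bf fun t => s17343 u35 u31 t n4
    have u37 := bt fun t => g5984 u33 n10 n8 t u35
    have u38 := bt fun t => s17458 u35 t u34 u30 n0 u14 u18 u19 u17 n2 n3 n4 u23 n6 n7 n8 n10 n13
    have u39 := bf fun t => g97 u37 t
    have u40 := bt fun t => g2153 g16912 t n9 w17298 u38
    have u41 := bt fun t => g8360 t u25 u40 g16907 u38 u23
    have u42 := bt fun t => g5960 u33 u38 u2 u39 t
    have u43 := bf fun t => s17451 t u39 u35 u34 n0 u16 u11 u20 n3 n4 n7 n10
    have u44 := bt fun t => g2773 n1 u40 n4 u2 t
    have u45 := bf fun t => g199 t u42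
    have u46 := bf fun t => g201 u42 t
    have u47 := bf fun t => g17143 u36 t u43
    have u48 := bf fun t => g150 t u44
    have u49 := bf fun t => g14407 u23 t u19 u43 u45
    have u50 := bf fun t => g14424 u24 t u44 u43 u46
    have u51 := bt fun t => g5955 u33 n10 t u9 u35 u46
    have u52 := bt fun t => g2760 n1 n9 t u16 u9 u48
    have u53 := bf fun t => g8670 u25 u17 t u51 u50
    have u54 := bt fun t => g3072 g16913 u52 w17301 u8 t
    have u55 := bt fun t => s17460 t u51 u35 u32 u29 u11 u20 u22 n6 n7 n10
    have u56 := bf fun t => g6508 t u35 u55 n7 g16910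
    have u57 := bf fun t => g16653 u21 t u56
    have u58 := bf fun t => g16893 n2 t u56
    have u59 := bt fun t => g3469 t u57 n0
    have u60 := bt fun t => g6003 t u58 u29
    have u61 := bt fun t => g3561 u59 g16908 u55 t
    have u62 := bt fun t => g6095 u60 n6 u55 t
    have u63 := bf fun t => g160 u61 t
    have u64 := bt fun t => g9697 t u47 u53 g16908 u55 u61
    have u65 := bf fun t => g14695 t u50 u49 u54 u61 u62
    have u66 := bt fun t => g8671 u41 u52 u64 t u50 u49
    exact g14581 u65 u66 u18 u63 u62
  have s17462 : T.X p e c d = true → T.alt p b c d e = true → T.X p b d e = true → T.X p d b e = false → T.X p b c d = false → False := fun n0 n1 n2 n3 n4 => by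
    have u0 := bt fun t => g5731 n1 n4 n3 n0 t
    have u1 := bf fun t => g197 t u0
    have u2 := bt fun t => g11684 n4 t n2 n0 u1
    exact g5736 n1 u2 n2 u1
  have s17463 : T.X p f c d = false → v372 = false → T.X p c e f = false → T.X p e r c = false → T.alt p r c d f = true → T.alt p r f c e = true → False := fun n0 n1 n2 n3 n4 n5 => by
    have u0 := bf fun t => g3399 n4 g16907 t n0
    have u1 := bt fun t => g3612 n5 u0 g16908 n2 t
    have u2 := bf fun t => g9681 n3 t w17300 n2 u1
    have u3 := bt fun t => g3375 n4 g16907 u2 n0 t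
    exact g17144 n1 u2 u3
  have s17464 : T.X p d r f = false → T.X p d r b = false → T.X p b e f = true → T.X p d e f = false → T.X p b d f = true → T.alt p r e d f = false → T.alt p r d c e = false → T.alt p r d b e = true → T.alt p r d a b = true → False := fun n0 n1 n2 n3 n4 n5 n6 n7 n8 => by
    have u0 := bf fun t => g92 n2 t
    have u1 := bf fun t => g91 n2 t
    have u2 := bf fun t => g17161 t n3
    have u3 := bf fun t => g17169 g17171 t u2
    have u4 := bf fun t => g89 n4 t
    have u5 := bf fun t => g88 n4 t
    have u6 := bf fun t => s17448 t n8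
    have u7 := bf fun t => s17446 t n8
    have u8 := bf fun t => s17447 t n0 u3 n4 n8
    have u9 := bt fun t => g16601 u8 g16913 t
    have u10 := bf fun t => g16528 w17303 u8 t
    have u11 := bt fun t => g2745 w17311 t u8
    have u12 := bt fun t => g16617 w17309 u9 t
    have u13 := bf fun t => g16541 w17310 t u10
    have u14 := bt fun t => g6327 u12 u4 n2 n3 t
    have u15 := bf fun t => g6343 u12 t u5 u4 u1
    have u16 := bf fun t => g205 u14 t
    have u17 := bf fun t => g12177 t u4 u0 n3 u14
    have u18 := bt fun t => g6330 u12 n4 u0 t u16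
    have u19 := bt fun t => g12270 t u15 n4 n2 u18 u14
    have u20 := bt fun t => s17461 t u11 u10 u9 n0 n1 n2 n3 n4 u6 u7 n5 n6 n7
    have u21 := bf fun t => g3472 t u20
    have u22 := bf fun t => g16638 t u20 u9
    have u23 := bt fun t => g16649 n6 u20 t
    have u24 := bf fun t => g16555 t w17305 u21
    have u25 := bf fun t => g16635 t u21 n5
    have u26 := bt fun t => g3288 t u13 u22
    have u27 := bt fun t => g16483 g16912 u24 t
    have u28 := bt fun t => g3107 t n6 u25
    have u29 := bf fun t => s17462 t u27 u19 u17 u7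
    have u30 := bf fun t => g3218 u28 g16907 t u29
    have u31 := bf fun t => g6390 u23 u29 t n3 g16910
    have u32 := bf fun t => g17154 t u31
    have u33 := bf fun t => g17165 u3 t u32
    have u34 := bf fun t => g17147 u33 t n0
    have u35 := bt fun t => s17463 t u34 u31 u30 u26 u20
    exact g6387 u23 u29 u35 n3 g16910
  have s17465 : T.alt p r d b f = true → T.X p d r f = true → T.X p b d f = true → T.X p b r d = false → False := fun n0 n1 n2 n3 => by
    have u0 := bf fun t => g42 n1 t
    have u1 := bf fun t => g40 t n1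
    have u2 := bf fun t => g88 n2 t
    have u3 := bf fun t => g2794 n0 t u1 n2
    have u4 := bt fun t => g2760 n0 n3 u3 u0 u2 t
    exact g8977 n3 u3 u1 n2 u4
  have s17466 : T.X p d r f = true → T.X p d e f = false → T.X p b d f = true → T.alt p r d a b = true → False := fun n0 n1 n2 n3 => by
    have u0 := bf fun t => s17448 t n3
    have u1 := bf fun t => g16078 n3 t g16912
    have u2 := bf fun t => g394 t n3
    have u3 := bf fun t => g16100 u2 w17303 t
    have u4 := bf fun t => s17400 t u3 n3 u1
    have u5 := bf fun t => g16975 t u4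
    have u6 := bt fun t => g16982 g16985 t u5
    have u7 := bf fun t => s17465 t n0 n2 u0
    have u8 := bt fun t => g2745 w17311 u7 t
    have u9 := bt fun t => g16515 g16912 u7 t
    have u10 := bf fun t => g16598 u8 g16913 t
    have u11 := bt fun t => g16529 w17303 u8 t
    have u12 := bf fun t => g3291 u9 t
    have u13 := bt fun t => s17440 n0 t u9 u11 u8 n1 n2 u6
    exact g16641 u12 u13 u10
  have s17467 : T.X p b e f = true → T.X p d e f = false → T.X p b d f = true → T.alt p r e d f = false → T.alt p r d c e = false → T.alt p r d b e = true → T.alt p r d a b = true → False := fun n0 n1 n2 n3 n4 n5 n6 => by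
    have u0 := bf fun t => g17161 t n1
    have u1 := bf fun t => g17169 g17171 t u0
    have u2 := bf fun t => s17466 t n1 n2 n6
    have u3 := bf fun t => s17447 t u2 u1 n2 n6
    have u4 := bt fun t => g16601 u3 g16913 t
    have u5 := bt fun t => g16617 w17309 u4 t
    have u6 := bt fun t => g2745 w17311 t u3
    have u7 := bf fun t => g89 n2 t
    have u8 := bf fun t => g88 n2 t
    have u9 := bf fun t => g91 n0 t
    have u10 := bf fun t => g92 n0 t
    have u11 := bt fun t => s17464 u2 t n0 n1 n2 n3 n4 n5 n6
    have u12 := bt fun t => g2784 u6 u11 n2 t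
    have u13 := bf fun t => g148 u12 t
    have u14 := bt fun t => g6327 u5 u7 n0 n1 t
    have u15 := bf fun t => g6343 u5 t u8 u7 u9
    have u16 := bf fun t => g205 u14 t
    have u17 := bf fun t => g206 u14 t
    have u18 := bt fun t => g6330 u5 n2 u10 t u16
    have u19 := bf fun t => g105 u18 t
    have u20 := bt fun t => g3782 u4 t u2 w17300 u18
    have u21 := bt fun t => g12270 t u15 n2 n0 u18 u14
    have u22 := bt fun t => g3812 u4 t g16908 n1 u19
    have u23 := bf fun t => g41 u20 t
    have u24 := bf fun t => g9031 u11 t u20 n2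
    have u25 := bf fun t => g8861 u11 t u22 u21
    have u26 := bt fun t => g2603 n5 u11 u21 t
    have u27 := bt fun t => g3793 u4 u23 g16908 n1 t
    have u28 := bf fun t => g3106 g16913 u25 u24 g16908 n0 t
    exact g14741 u26 u13 u28 u27 u17
  have s17468 : T.alt p r f c e = true → T.X p b d e = true → T.X p e d f = true → T.X p c b d = false → T.X p d r f = false → T.X p d e f = false → T.X p b d f = true → T.X p b c d = false → T.alt p r e d f = false → T.alt p r d c e = false → False := fun n0 n1 n2 n3 n4 n5 n6 n7 n8 n9 => by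
    have u0 := bf fun t => g85 n1 t
    have u1 := bf fun t => g17161 t n5
    have u2 := bf fun t => g17169 g17171 t u1
    have u3 := bf fun t => g3472 t n0
    have u4 := bf fun t => g16558 t g16913 n0
    have u5 := bt fun t => g16649 n9 n0 t
    have u6 := bf fun t => g16555 t w17305 u3
    have u7 := bf fun t => g16635 t u3 n8
    have u8 := bt fun t => g16523 g16912 u4 t
    have u9 := bt fun t => g16660 t n8 u5
    have u10 := bt fun t => g16483 g16912 u6 t
    have u11 := bt fun t => g3107 t n9 u7
    have u12 := bf fun t => g5927 u8 n7 n3 n6 t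
    have u13 := bf fun t => s17462 t u10 n1 u0 n7
    have u14 := bf fun t => g12385 u13 u12 t n2 g16910
    have u15 := bf fun t => g3218 u11 g16907 t u13
    have u16 := bf fun t => g6387 u5 u13 t n5 g16910
    have u17 := bf fun t => g17154 t u14
    have u18 := bt fun t => s17463 u16 t u14 u15 u9 n0
    have u19 := bf fun t => g17165 u2 t u17
    exact g17147 u19 u18 n4
  have s17469 : T.alt p r f a b = false → v405 = true → False := fun n0 n1 => by
    have u0 := bt fun t => g16280 n0 t g16913
    have u1 := bf fun t => s17329 t n0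
    have u2 := bf fun t => g1843 t u0
    have u3 := bf fun t => g17286 t u1
    have u4 := bf fun t => g16275 t u2 w17305
    have u5 := bf fun t => g17293 g17295 t u3
    have u6 := bf fun t => s17328 t u4
    have u7 := bt fun t => g17289 u5 n1 t
    exact g17279 u7 u6
  have s17470 : T.X p f r b = false → T.X p b r f = false → T.X p b e f = false → False := fun n0 n1 n2 => by
    have u0 := bf fun t => g3085 g16913 t n1 n0 w17300
    have u1 := bt fun t => g3069 g16913 n0 g16908 n2 t
    have u2 := bt fun t => g17268 t u0 u1
    have u3 := bt fun t => g17271 t u2 n0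
    have u4 := bt fun t => s17469 t u3
    have u5 := bf fun t => g17281 t u4 n0
    have u6 := bf fun t => g17286 t u5
    have u7 := bf fun t => g17293 g17295 t u6
    have u8 := bt fun t => g17289 u7 u3 t
    have u9 := bt fun t => g17279 u8 t
    have u10 := bt fun t => s17328 u9 t
    exact g17274 u9 u10 u0
  have s17471 : T.alt p r f c e = false → T.X p f r d = true → T.X p r d f = false → T.alt p r f d e = true → T.X p d r f = false → v378 = false → T.X p b d f = true → T.X p b c d = false → False := fun n0 n1 n2 n3 n4 n5 n6 n7 => by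
    have u0 := bt fun t => g16617 w17309 n3 t
    have u1 := bf fun t => g16576 w17308 n0 t
    have u2 := bt fun t => g16640 t n0 n3
    have u3 := bt fun t => g16880 t u1 u0
    have u4 := bf fun t => g3455 u2 g16907 n2 t
    have u5 := bt fun t => g5984 u3 n7 n6 u4 t
    have u6 := bt fun t => g3439 u2 g16907 u5 t
    have u7 := bf fun t => g159 t u6
    have u8 := bt fun t => s17443 t u6 n4 n0 n5
    have u9 := bt fun t => g3430 u2 w17298 t n1 u7
    exact g9437 u9 u8
  have s17473 : T.X p d r b = true → T.X p b e f = false → T.alt p r d b f = true → T.alt p r f d e = true → T.X p d r f = false → v378 = false → T.X p b d f = true → T.X p b r d = false → T.X p b c d = false → T.alt p r e d f = false → T.alt p r d c e = false → False := fun n0 n1 n2 n3 n4 n5 n6 n7 n8 n9 n10 => by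
    have u0 := bf fun t => g89 n6 t
    have u1 := bf fun t => g88 n6 t
    have u2 := bt fun t => g2784 n2 n0 n6 t
    have u3 := bf fun t => g148 u2 t
    have u4 := bf fun t => g149 u2 t
    have u5 := bf fun t => g2765 n2 t n4 u0 u4
    have u6 := bt fun t => s17470 t u5 n1
    have u7 := bf fun t => g26 t u6
    have u8 := bf fun t => g9031 n0 u6 t n6
    have u9 := bt fun t => g2760 n2 n7 u7 t u1 u3
    have u10 := bt fun t => s17471 t u9 u8 n3 n4 n5 n6 n8
    have u11 := bf fun t => g16558 t g16913 u10
    have u12 := bt fun t => g16649 n10 u10 t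
    have u13 := bt fun t => g16523 g16912 u11 t
    have u14 := bt fun t => g16660 t n9 u12
    have u15 := bt fun t => g3388 u14 w17298 w17299 t u9
    have u16 := bt fun t => g3399 u14 g16907 u15 t
    have u17 := bt fun t => g5912 u13 n8 u1 u16 t
    have u18 := bf fun t => g200 t u17
    have u19 := bt fun t => g11854 n8 t n6 u16 u18
    exact g5917 u13 u19 n6 u18
  have s17474 : T.X p f r b = true → T.X p d r b = false → T.alt p r d b f = true → T.alt p r f d e = true → T.X p d r f = false → v378 = false → T.X p b d f = true → T.X p b r d = false → T.X p b c d = false → T.alt p r e d f = false → T.alt p r d c e = false → False := fun n0 n1 n2 n3 n4 n5 n6 n7 n8 n9 n10 => by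
    have u0 := bt fun t => g2164 g16912 n1 g16907 n8 t
    have u1 := bf fun t => g8267 t n1 w17299 n8 u0
    have u2 := bf fun t => g2180 g16912 t n7 n1 w17298
    have u3 := bt fun t => g2786 n2 n7 n1 n0 t
    have u4 := bf fun t => g41 t u3
    have u5 := bf fun t => g9062 n7 n1 n0 u3 n6 t
    have u6 := bt fun t => s17471 t u3 u4 n3 n4 n5 n6 n8
    have u7 := bf fun t => g16558 t g16913 u6
    have u8 := bt fun t => g16649 n10 u6 t
    have u9 := bt fun t => g16523 g16912 u7 t
    have u10 := bt fun t => g2383 w17310 t u7
    have u11 := bt fun t => g16660 t n9 u8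
    have u12 := bf fun t => g2394 u10 u2 n0 t
    have u13 := bt fun t => g2424 u10 u1 u2 n0 t
    have u14 := bf fun t => g3358 u11 w17298 u3 t
    have u15 := bf fun t => g14420 u0 u12 u5 u14 t
    have u16 := bt fun t => g3399 u11 g16907 u13 t
    have u17 := bt fun t => g11854 n8 t n6 u16 u15
    exact g5917 u9 u17 n6 u15
  have s17475 : T.X p f r b = false → T.X p b e f = false → False := fun n0 n1 => by
    have u0 := bt fun t => g3069 g16913 n0 g16908 n1 t
    have u1 := bt fun t => s17470 n0 t n1
    have u2 := bf fun t => g152 u0 t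
    have u3 := bf fun t => g3078 g16913 t u1 u2
    exact g9123 u3 u1 g16908 n1 u2
  have s17476 : T.X p b e f = false → T.alt p r d b f = true → T.alt p r d c e = false → T.alt p r f d e = true → T.X p d r f = false → v378 = false → T.X p b d f = true → T.X p b r d = false → T.X p b c d = false → T.alt p r e d f = false → False := fun n0 n1 n2 n3 n4 n5 n6 n7 n8 n9 => by
    have u0 := bf fun t => s17473 t n0 n1 n3 n4 n5 n6 n7 n8 n9 n2
    have u1 := bf fun t => s17474 t u0 n1 n3 n4 n5 n6 n7 n8 n9 n2
    exact s17475 u1 n0
  have s17477 : T.X p b d f = true → T.alt p r d a b = true → T.alt p r d a e = false → False := fun n0 n1 n2 => by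
    have u0 := bf fun t => s17448 t n1
    have u1 := bf fun t => s17446 t n1
    have u2 := bf fun t => g16212 g16916 n2 t
    have u3 := bf fun t => g394 t n1
    have u4 := bf fun t => g16217 u3 t u2
    have u5 := bf fun t => g16596 u4 w17305 t
    have u6 := bf fun t => g16078 n1 t g16912
    have u7 := bf fun t => g16316 u6 n2 t
    have u8 := bt fun t => g16195 n1 n2 t
    have u9 := bf fun t => s17427 t n0 n1 n2
    have u10 := bf fun t => g17161 t u9
    have u11 := bf fun t => g17169 g17171 t u10
    have u12 := bf fun t => s17466 t u9 n0 n1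
    have u13 := bf fun t => s17447 t u12 u11 n0 n1
    have u14 := bt fun t => g16601 u13 g16913 t
    have u15 := bt fun t => g2745 w17311 t u13
    have u16 := bf fun t => s17467 t u9 n0 u5 u7 u8 n1
    exact s17476 u16 u15 u7 u14 u12 u11 n0 u0 u1 u5
  have s17478 : T.alt p r f c e = true → T.X p d b f = false → T.X p b r c = false → T.X p c r b = false → T.X p d a f = false → T.X a b d f = true → T.alt p a e d f = false → T.alt p a e b f = false → T.X p f a b = true → T.X p f r b = true → T.X p b c d = false → T.alt p r e d f = false → T.X p d a b = false → T.alt p r d c e = false → False := fun n0 n1 n2 n3 n4 n5 n6 n7 n8 n9 n10 n11 n12 n13 => by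
    have u0 := bf fun t => g16558 t g16913 n0
    have u1 := bt fun t => g16577 w17308 n0 t
    have u2 := bt fun t => g16649 n13 n0 t
    have u3 := bt fun t => g16523 g16912 u0 t
    have u4 := bt fun t => g2383 w17310 t u0
    have u5 := bt fun t => g16772 t n7 u1
    have u6 := bt fun t => g16660 t n11 u2
    have u7 := bt fun t => g16860 t n6 u2
    have u8 := bt fun t => g2424 u4 n2 n3 n9 t
    have u9 := bf fun t => g4196 u5 t
    have u10 := bt fun t => g3399 u6 g16907 u8 t
    have u11 := bt fun t => g16724 t u9 u3
    have u12 := bt fun t => g5912 u3 n10 n1 u10 t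
    have u13 := bf fun t => g3971 u11 t n12 n10 g16909
    have u14 := bf fun t => g3974 u11 n12 t n10 g16909
    have u15 := bf fun t => g200 t u12
    have u16 := bf fun t => g4204 u5 u13 n8 t
    have u17 := bt fun t => g5188 u7 u14 n4 u10 t
    exact g15254 g16909 u16 n5 u17 u15
  have s17483 : T.X p a c d = true → T.X b f c d = true → T.X p f c d = false → T.X p c b f = false → T.X p d a f = false → T.X a b d f = true → T.alt p a d b f = true → T.X p f a b = true → T.alt p r d a b = true → False := fun n0 n1 n2 n3 n4 n5 n6 n7 n8 => by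
    have u0 := bf fun t => s17446 t n8
    have u1 := bf fun t => g16078 n8 t g16912
    have u2 := bf fun t => g394 t n8
    have u3 := bf fun t => g16100 u2 w17303 t
    have u4 := bf fun t => s17400 t u3 n8 u1
    have u5 := bf fun t => g59 n0 t
    have u6 := bf fun t => g3974 t u4 n0 u0 g16909
    have u7 := bt fun t => g3831 t u3 u6
    have u8 := bt fun t => g16717 u6 n6 t
    have u9 := bf fun t => g3924 u7 t n0 g16909
    have u10 := bt fun t => g5126 u8 n0 n4 n2 t
    have u11 := bf fun t => g188 t u10
    have u12 := bf fun t => g11215 u5 t n4 n2 u10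
    have u13 := bt fun t => g15265 g16909 t n5 u11 n1
    exact g10369 u9 n7 u12 n3 u13
  have s17484 : T.X a b c f = true → T.X b f c d = true → T.X a b d f = true → False := fun n0 n1 n2 => by
    have u0 := bf fun t => g178 n2 t
    have u1 := bf fun t => g172 n0 t
    have u2 := bt fun t => g15234 g16909 n0 u0 t n1
    have u3 := bt fun t => g15265 g16909 u1 n2 t n1
    exact g15727 u3 u2
  have s17485 : T.X p c a b = true → T.X a b c f = false → T.X p b e f = false → T.alt p r d a b = true → False := fun n0 n1 n2 n3 => by
    have u0 := bt fun t => s17475 t n2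
    have u1 := bf fun t => g26 t u0
    have u2 := bf fun t => g27 t u0
    have u3 := bf fun t => g3058 g16913 u1 u2 w17300 t
    have u4 := bt fun t => s17387 t u1 u2 u3 n2
    have u5 := bf fun t => g824 t w17296 u0 u4
    have u6 := bt fun t => g754 u5 w17307 t
    have u7 := bf fun t => g16242 n3 u6 t
    have u8 := bf fun t => g17223 t n2
    have u9 := bt fun t => g17230 g17233 t u8
    have u10 := bf fun t => s17391 u9 t u4 u2
    have u11 := bt fun t => g7103 w17296 u10 u0 t u4
    have u12 := bf fun t => s17446 t n3
    have u13 := bf fun t => g16078 n3 t g16912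
    have u14 := bf fun t => g394 t n3
    have u15 := bf fun t => g16100 u14 w17303 t
    have u16 := bf fun t => s17400 t u15 n3 u13
    have u17 := bf fun t => g3971 t n0 u16 u12 g16909
    have u18 := bf fun t => g4284 t n0 u11 n1
    have u19 := bt fun t => g3831 t u15 u17
    exact g16707 u19 u18 u7
  have s17486 : T.X p d r b = false → T.alt p r d b f = true → T.X p d r f = false → T.alt p a e d f = false → T.X p b e f = false → T.X p b d f = false → T.alt p r e d f = false → T.alt p r d c e = false → T.alt p r d a b = true → False := fun n0 n1 n2 n3 n4 n5 n6 n7 n8 => by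
    have u0 := bt fun t => s17475 t n4
    have u1 := bf fun t => g26 t u0
    have u2 := bf fun t => g27 t u0
    have u3 := bf fun t => g3058 g16913 u1 u2 w17300 t
    have u4 := bt fun t => s17387 t u1 u2 u3 n4
    have u5 := bf fun t => g7153 g16906 t u0 u4
    have u6 := bf fun t => g117 t u4
    have u7 := bf fun t => g7140 w17297 u5 u0 t u6
    have u8 := bf fun t => g16078 n8 t g16912
    have u9 := bf fun t => g394 t n8
    have u10 := bf fun t => g16100 u9 w17303 t
    have u11 := bf fun t => s17400 t u10 n8 u8
    have u12 := bf fun t => g17223 t n4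
    have u13 := bt fun t => g17230 g17233 t u12
    have u14 := bf fun t => s17391 u13 t u4 u2
    have u15 := bt fun t => g7103 w17296 u14 u0 t u4
    have u16 := bf fun t => g824 t w17296 u0 u4
    have u17 := bt fun t => g16261 u16 n1 t
    have u18 := bt fun t => g4577 u17 u11 u15 n5 t
    have u19 := bf fun t => g10703 u11 u7 t n5 u18
    have u20 := bf fun t => g178 u18 t
    have u21 := bf fun t => g2748 n1 t
    have u22 := bt fun t => g16601 u21 g16913 t
    have u23 := bt fun t => g16611 n1 w17305 t
    have u24 := bf fun t => s17371 t n2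
    have u25 := bf fun t => g16300 u16 w17305 t
    have u26 := bf fun t => s17448 t n8
    have u27 := bf fun t => s17446 t n8
    have u28 := bt fun t => g2164 g16912 n0 g16907 u27 t
    have u29 := bf fun t => g2180 g16912 t u26 n0 w17298
    have u30 := bt fun t => g2767 n1 n0 u0 n5 t
    have u31 := bt fun t => g2786 n1 u26 n0 u0 t
    have u32 := bf fun t => g8267 t n0 w17299 u27 u28
    have u33 := bf fun t => g148 u30 t
    have u34 := bf fun t => g2782 n1 u31 t u33
    have u35 := bf fun t => s17478 t u34 u32 u29 u19 u18 n3 u25 u15 u0 u27 n6 u11 n7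
    have u36 := bt fun t => g16561 t g16913 u35
    have u37 := bf fun t => g16576 w17308 u35 t
    have u38 := bt fun t => g16640 t u35 u22
    have u39 := bf fun t => g16522 g16912 u36 t
    have u40 := bf fun t => g2549 u36 u29 u0 t
    have u41 := bt fun t => g16880 t u37 u23
    have u42 := bf fun t => s17443 u40 t n2 u35 u24
    have u43 := bf fun t => g2515 u36 u1 u2 u40 t
    have u44 := bf fun t => g3439 u38 g16907 t u42
    have u45 := bt fun t => g5955 u41 u27 u43 u34 u44 t
    have u46 := bf fun t => s17483 t u45 u44 u43 u19 u18 u17 u15 n8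
    have u47 := bf fun t => s17484 t u45 u18
    have u48 := bf fun t => g15235 g16909 u47 u20 t u45
    have u49 := bf fun t => s17485 t u47 n4 n8
    have u50 := bf fun t => g3905 t u49 u11 u46 u27 g16909
    have u51 := bt fun t => g3831 u50 u10 t
    have u52 := bt fun t => g16736 u50 t u41
    have u53 := bt fun t => g16723 u51 t u39
    have u54 := bf fun t => g4350 u53 u15 t u47
    have u55 := bt fun t => g4338 u53 u49 u15 t u47
    have u56 := bf fun t => g5954 u41 u54 u43 u34 t
    have u57 := bf fun t => g11166 u46 u55 t u44 u48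
    exact g5244 u52 u55 u57 u56 u48
  have s17487 : T.alt p b f c d = true → T.X p f c d = false → T.X p d b f = false → T.X p a c d = false → T.alt p a d b c = true → T.X p c a b = false → T.X a d c f = false → T.X a b c f = false → T.X b f c d = true → T.X p f a b = true → T.X p b c d = false → False := fun n0 n1 n2 n3 n4 n5 n6 n7 n8 n9 n10 => by
    have u0 := bf fun t => g3833 t n4
    have u1 := bf fun t => g5824 t n0
    have u2 := bt fun t => g16736 u0 t n0
    have u3 := bf fun t => g5980 n0 n10 t n2 n1 n8
    have u4 := bt fun t => g16723 n4 t u1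
    have u5 := bf fun t => g4350 u4 n9 t n7
    have u6 := bt fun t => g4338 u4 n5 n9 t n7
    have u7 := bf fun t => g5954 n0 u5 u3 n2 t
    have u8 := bf fun t => g11166 n3 u6 t n1 n6
    exact g5244 u2 u6 u8 u7 n6
  have s17488 : T.X p f c d = false → T.X p d b f = false → T.X p f r d = true → T.X p a c d = false → T.alt p a d b c = true → T.X p c a b = false → T.X a d c f = false → T.X a b c f = false → T.X b f c d = true → T.alt p r d c f = false → T.X p f a b = true → T.X p b c d = false → False := fun n0 n1 n2 n3 n4 n5 n6 n7 n8 n9 n10 n11 => by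
    have u0 := bf fun t => s17487 t n0 n1 n3 n4 n5 n6 n7 n8 n10 n11
    have u1 := bf fun t => g16537 w17302 t u0
    have u2 := bt fun t => g3288 t n9 u1
    have u3 := bt fun t => g3388 u2 w17298 w17299 t n2
    exact g3399 u2 g16907 u3 n0
  have s17489 : T.alt p a d b c = true → T.X b f c d = true → T.X r f b d = false → T.X p f b d = false → T.X p d a f = false → T.X a b d f = true → T.alt p r f a d = true → T.alt p a d b f = true → T.alt p r d c f = false → T.X p b e f = false → T.alt p r d a b = true → False := fun n0 n1 n2 n3 n4 n5 n6 n7 n8 n9 n10 => by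
    have u0 := bf fun t => s17484 t n1 n5
    have u1 := bf fun t => s17485 t u0 n9 n10
    have u2 := bf fun t => g178 n5 t
    have u3 := bf fun t => g15235 g16909 u0 u2 t n1
    have u4 := bf fun t => g201 t n1
    have u5 := bf fun t => g16078 n10 t g16912
    have u6 := bf fun t => g394 t n10
    have u7 := bf fun t => g16100 u6 w17303 t
    have u8 := bf fun t => s17400 t u7 n10 u5
    have u9 := bt fun t => s17475 t n9
    have u10 := bf fun t => g27 t u9
    have u11 := bf fun t => g17223 t n9
    have u12 := bt fun t => g17230 g17233 t u11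
    have u13 := bf fun t => g26 t u9
    have u14 := bf fun t => g3058 g16913 u13 u10 w17300 t
    have u15 := bt fun t => s17387 t u13 u10 u14 n9
    have u16 := bf fun t => s17391 u12 t u15 u10
    have u17 := bt fun t => g7103 w17296 u16 u9 t u15
    have u18 := bf fun t => g4566 n7 u8 u17 t
    have u19 := bf fun t => g824 t w17296 u9 u15
    have u20 := bt fun t => g754 u19 w17307 t
    have u21 := bf fun t => g16242 n10 u20 t
    have u22 := bf fun t => g7153 g16906 t u9 u15
    have u23 := bt fun t => g7120 g16906 t u16 u22 u17 u15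
    have u24 := bf fun t => g56 t u17
    have u25 := bf fun t => g117 t u15
    have u26 := bf fun t => g7140 w17297 u22 u9 t u25
    have u27 := bf fun t => s17448 t n10
    have u28 := bf fun t => s17446 t n10
    have u29 := bf fun t => g3833 t n0
    have u30 := bt fun t => g16092 w17306 t n0
    have u31 := bf fun t => g3974 n0 u8 t u28 g16909
    have u32 := bf fun t => g16709 u29 t u21
    have u33 := bf fun t => s17449 u30 t n10
    have u34 := bf fun t => g552 n10 g16906 u33 u27 u8 t
    have u35 := bf fun t => g13222 u34 u15 t n2 u18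
    have u36 := bt fun t => g1805 n6 u23 t n4 u35
    have u37 := bf fun t => g41 t u36
    have u38 := bf fun t => g7956 u33 u23 u37 t u35
    have u39 := bf fun t => g10658 u8 u24 u38 t n5
    have u40 := bt fun t => s17488 t u39 u36 u31 n0 u1 u3 u0 n1 n8 u17 u28
    have u41 := bf fun t => g11864 u28 t n3 u40 u4
    have u42 := bf fun t => g4215 t u1 u17 u41 u0
    have u43 := bt fun t => g16733 u42 n7 t
    have u44 := bt fun t => g4193 u32 u42 t
    have u45 := bt fun t => g5983 u43 u28 t u39 u40 n1
    have u46 := bf fun t => g4359 u44 u1 u17 t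
    exact g4325 u44 u24 u26 u46 u45
  have s17490 : T.X b f c d = true → T.X r f b d = false → T.X p f b d = false → T.X p d a f = false → T.X a b d f = true → T.alt p r f a d = true → T.alt p a d b f = true → T.alt p r d c f = false → T.X p d r f = false → T.X p b e f = false → T.alt p r d a b = true → False := fun n0 n1 n2 n3 n4 n5 n6 n7 n8 n9 n10 => by
    have u0 := bf fun t => s17371 t n8
    have u1 := bt fun t => s17475 t n9
    have u2 := bf fun t => g26 t u1
    have u3 := bf fun t => g27 t u1
    have u4 := bf fun t => g3058 g16913 u2 u3 w17300 t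
    have u5 := bt fun t => s17387 t u2 u3 u4 n9
    have u6 := bf fun t => g824 t w17296 u1 u5
    have u7 := bt fun t => g754 u6 w17307 t
    have u8 := bf fun t => g16278 u7 t g16913
    have u9 := bf fun t => g17223 t n9
    have u10 := bt fun t => g17230 g17233 t u9
    have u11 := bf fun t => s17391 u10 t u5 u3
    have u12 := bt fun t => g7103 w17296 u11 u1 t u5
    have u13 := bf fun t => s17446 t n10
    have u14 := bf fun t => g16078 n10 t g16912
    have u15 := bf fun t => g394 t n10
    have u16 := bf fun t => g16100 u15 w17303 t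
    have u17 := bf fun t => s17400 t u16 n10 u14
    have u18 := bf fun t => s17484 t n0 n4
    have u19 := bf fun t => s17485 t u18 n9 n10
    have u20 := bf fun t => s17489 t n0 n1 n2 n3 n4 n5 n6 n7 n9 n10
    have u21 := bf fun t => g16093 w17306 t u20
    have u22 := bt fun t => g16097 t g16912 u20
    have u23 := bt fun t => g3831 t u16 u20
    have u24 := bt fun t => g16717 u20 n6 t
    have u25 := bt fun t => g935 t u21 u14
    have u26 := bt fun t => g16147 u22 u6 t
    have u27 := bf fun t => g322 u22 g16906 t u19
    have u28 := bt fun t => g3905 u23 u19 u17 t u13 g16909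
    have u29 := bf fun t => g5101 u24 t
    have u30 := bf fun t => g1299 u26 t
    have u31 := bf fun t => g311 u22 w17296 w17297 u27 t
    have u32 := bt fun t => g16375 u25 t u29
    have u33 := bf fun t => g16400 u30 u8 t
    have u34 := bt fun t => g16159 u7 u30 t
    have u35 := bf fun t => g2549 u34 u31 u1 t
    have u36 := bf fun t => s17443 u35 t n8 u33 u0
    have u37 := bf fun t => g2515 u34 u2 u3 u35 t
    have u38 := bf fun t => g3439 u32 g16907 t u36
    exact s17483 u28 n0 u38 u37 n3 n4 n6 u12 n10
  have s17491 : T.alt p a d b c = false → T.X p c a b = false → T.X b f c d = false → T.X a d b f = false → T.alt p a d b f = true → T.X p d r f = false → T.X p b e f = false → T.alt p r d a b = true → False := fun n0 n1 n2 n3 n4 n5 n6 n7 => by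
    have u0 := bf fun t => s17371 t n5
    have u1 := bt fun t => s17475 t n6
    have u2 := bf fun t => g26 t u1
    have u3 := bf fun t => g27 t u1
    have u4 := bf fun t => g3058 g16913 u2 u3 w17300 t
    have u5 := bt fun t => s17387 t u2 u3 u4 n6
    have u6 := bf fun t => g824 t w17296 u1 u5
    have u7 := bt fun t => g754 u6 w17307 t
    have u8 := bf fun t => g16278 u7 t g16913
    have u9 := bf fun t => g17223 t n6
    have u10 := bt fun t => g17230 g17233 t u9
    have u11 := bf fun t => s17391 u10 t u5 u3
    have u12 := bt fun t => g7103 w17296 u11 u1 t u5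
    have u13 := bf fun t => s17446 t n7
    have u14 := bf fun t => g16078 n7 t g16912
    have u15 := bf fun t => g394 t n7
    have u16 := bf fun t => g16100 u15 w17303 t
    have u17 := bf fun t => s17400 t u16 n7 u14
    have u18 := bf fun t => g16093 w17306 t n0
    have u19 := bt fun t => g16097 t g16912 n0
    have u20 := bt fun t => g3831 t u16 n0
    have u21 := bt fun t => g16717 n0 n4 t
    have u22 := bt fun t => g935 t u18 u14
    have u23 := bt fun t => g16147 u19 u6 t
    have u24 := bf fun t => g322 u19 g16906 t n1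
    have u25 := bt fun t => g3905 u20 n1 u17 t u13 g16909
    have u26 := bf fun t => g5101 u21 t
    have u27 := bf fun t => g1299 u23 t
    have u28 := bf fun t => g311 u19 w17296 w17297 u24 t
    have u29 := bt fun t => g16375 u22 t u26
    have u30 := bt fun t => g16735 u20 u26 t
    have u31 := bf fun t => g16400 u27 u8 t
    have u32 := bt fun t => g16159 u7 u27 t
    have u33 := bf fun t => g2549 u32 u28 u1 t
    have u34 := bf fun t => s17443 u33 t n5 u31 u0
    have u35 := bf fun t => g2515 u32 u2 u3 u33 t
    have u36 := bf fun t => g3439 u29 g16907 t u34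
    have u37 := bf fun t => g5150 u21 u25 t u36
    have u38 := bt fun t => g5955 u30 u13 u35 t u36 n2
    exact g10708 u17 u12 u37 u38 n3
  have s17492 : T.alt p r c d f = true → T.X p f c d = false → T.X p f r d = true → False := fun n0 n1 n2 => by
    have u0 := bt fun t => g3388 n0 w17298 w17299 t n2
    exact g3399 n0 g16907 u0 n1
  have s17493 : T.X p f c d = false → T.X p d b f = false → T.X p f r d = true → T.alt p a d b c = true → T.X p c a b = false → T.X b f c d = false → T.alt p r d b f = true → T.X p b e f = false → T.X p b c d = false → False := fun n0 n1 n2 n3 n4 n5 n6 n7 n8 => by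
    have u0 := bt fun t => s17475 t n7
    have u1 := bf fun t => g27 t u0
    have u2 := bf fun t => g17223 t n7
    have u3 := bt fun t => g17230 g17233 t u2
    have u4 := bf fun t => g26 t u0
    have u5 := bf fun t => g3058 g16913 u4 u1 w17300 t
    have u6 := bt fun t => s17387 t u4 u1 u5 n7
    have u7 := bf fun t => s17391 u3 t u6 u1
    have u8 := bt fun t => g7103 w17296 u7 u0 t u6
    have u9 := bf fun t => g56 t u8
    have u10 := bf fun t => g7153 g16906 t u0 u6
    have u11 := bf fun t => g117 t u6
    have u12 := bf fun t => g7140 w17297 u10 u0 t u11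
    have u13 := bf fun t => s17492 t n0 n2
    have u14 := bf fun t => g16513 w17303 t u13
    have u15 := bf fun t => g16544 w17311 u13 t
    have u16 := bt fun t => g16533 u14 n6 t
    have u17 := bt fun t => g16723 n3 t u15
    have u18 := bt fun t => g5955 u16 n8 t n1 n0 n5
    have u19 := bf fun t => g4359 u17 n4 u8 t
    exact g4325 u17 u9 u12 u19 u18
  have s17494 : T.X p c a b = false → T.X b f c d = false → T.X r f b d = false → T.X p d a f = false → T.X a b d f = true → T.alt p r d b f = true → T.X p d r f = false → T.X p b e f = false → T.alt p r d a b = true → False := fun n0 n1 n2 n3 n4 n5 n6 n7 n8 => by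
    have u0 := bf fun t => g178 n4 t
    have u1 := bf fun t => g16078 n8 t g16912
    have u2 := bf fun t => g394 t n8
    have u3 := bf fun t => g16100 u2 w17303 t
    have u4 := bf fun t => s17400 t u3 n8 u1
    have u5 := bt fun t => s17475 t n7
    have u6 := bf fun t => g27 t u5
    have u7 := bf fun t => g17223 t n7
    have u8 := bt fun t => g17230 g17233 t u7
    have u9 := bf fun t => g26 t u5
    have u10 := bf fun t => g3058 g16913 u9 u6 w17300 t
    have u11 := bt fun t => s17387 t u9 u6 u10 n7
    have u12 := bf fun t => s17391 u8 t u11 u6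
    have u13 := bt fun t => g7103 w17296 u12 u5 t u11
    have u14 := bf fun t => g824 t w17296 u5 u11
    have u15 := bt fun t => g16261 u14 n5 t
    have u16 := bf fun t => g4566 u15 u4 u13 t
    have u17 := bt fun t => g754 u14 w17307 t
    have u18 := bf fun t => g2748 n5 t
    have u19 := bt fun t => g16239 u17 t u18
    have u20 := bf fun t => s17371 t n6
    have u21 := bf fun t => g7153 g16906 t u5 u11
    have u22 := bt fun t => g7120 g16906 t u12 u21 u13 u11
    have u23 := bf fun t => g56 t u13
    have u24 := bf fun t => s17448 t n8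
    have u25 := bf fun t => s17446 t n8
    have u26 := bt fun t => s17491 t n0 n1 u0 u15 n6 n7 n8
    have u27 := bt fun t => g16092 w17306 t u26
    have u28 := bf fun t => s17449 u27 t n8
    have u29 := bf fun t => g552 n8 g16906 u28 u24 u4 t
    have u30 := bf fun t => g13222 u29 u11 t n2 u16
    have u31 := bt fun t => g1805 u19 u22 t n3 u30
    have u32 := bf fun t => g41 t u31
    have u33 := bf fun t => g7956 u28 u22 u32 t u30
    have u34 := bf fun t => g10658 u4 u23 u33 t n4
    have u35 := bt fun t => s17493 t u34 u31 u26 n0 n1 n5 n7 u25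
    have u36 := bf fun t => g5912 t u25 u34 u35 n1
    have u37 := bt fun t => g16523 g16912 t u36
    have u38 := bf fun t => g16558 u37 g16913 t
    have u39 := bt fun t => g16519 u37 u18 t
    have u40 := bt fun t => g3439 u39 g16907 u35 t
    have u41 := bf fun t => g159 t u40
    have u42 := bt fun t => s17443 t u40 n6 u38 u20
    have u43 := bf fun t => g34 t u42
    exact g3430 u39 w17298 u43 u31 u41
  have s17495 : T.X p f c d = true → T.alt p r f c e = false → v378 = false → T.alt p r f c d = true → T.X p d r f = false → False := fun n0 n1 n2 n3 n4 => by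
    have u0 := bf fun t => s17459 n0 n3 n1 t n4 n2
    have u1 := bt fun t => g3439 n3 g16907 n0 t
    have u2 := bf fun t => g159 t u1
    have u3 := bt fun t => g9522 g16907 u0 n4 t n0 u1
    have u4 := bt fun t => s17443 t u1 n4 n1 n2
    have u5 := bt fun t => g3430 n3 w17298 t u3 u2
    exact g9437 u5 u4
  have s17496 : T.X p c b f = true → T.alt p a b c f = true → T.alt p r a c f = true → T.X a b c f = true → T.X p b e f = false → False := fun n0 n1 n2 n3 n4 => by
    have u0 := bt fun t => s17475 t n4
    have u1 := bf fun t => g26 t u0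
    have u2 := bf fun t => g27 t u0
    have u3 := bf fun t => g3058 g16913 u1 u2 w17300 t
    have u4 := bt fun t => s17387 t u1 u2 u3 n4
    have u5 := bf fun t => g824 t w17296 u0 u4
    have u6 := bt fun t => g754 u5 w17307 t
    have u7 := bf fun t => g1299 n2 t
    have u8 := bt fun t => g16159 u6 u7 t
    have u9 := bf fun t => g17223 t n4
    have u10 := bt fun t => g17230 g17233 t u9
    have u11 := bf fun t => s17391 u10 t u4 u2
    have u12 := bt fun t => g7103 w17296 u11 u0 t u4
    have u13 := bf fun t => g7153 g16906 t u0 u4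
    have u14 := bt fun t => g7120 g16906 t u11 u13 u12 u4
    have u15 := bf fun t => g56 t u12
    have u16 := bt fun t => g2515 u8 u1 u2 t n0
    have u17 := bf fun t => g10395 u12 t n0 n3
    have u18 := bf fun t => g4301 n1 u15 t n0
    have u19 := bf fun t => g34 t u16
    exact g1400 n2 u14 u19 u18 u17
  have s17497 : T.alt p r d b f = true → T.X p d r f = false → T.alt p a e d f = false → T.X p b e f = false → T.X p b d f = false → T.alt p r e d f = false → T.alt p r d c e = false → T.alt p r d a b = true → False := fun n0 n1 n2 n3 n4 n5 n6 n7 => by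
    have u0 := bf fun t => s17371 t n1
    have u1 := bt fun t => s17475 t n3
    have u2 := bf fun t => g26 t u1
    have u3 := bf fun t => g27 t u1
    have u4 := bf fun t => g3058 g16913 u2 u3 w17300 t
    have u5 := bt fun t => s17387 t u2 u3 u4 n3
    have u6 := bf fun t => g824 t w17296 u1 u5
    have u7 := bt fun t => g754 u6 w17307 t
    have u8 := bf fun t => g16242 n7 u7 t
    have u9 := bf fun t => g16278 u7 t g16913
    have u10 := bf fun t => g7153 g16906 t u1 u5
    have u11 := bf fun t => g117 t u5
    have u12 := bf fun t => g7140 w17297 u10 u1 t u11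
    have u13 := bf fun t => g17223 t n3
    have u14 := bt fun t => g17230 g17233 t u13
    have u15 := bf fun t => s17391 u14 t u5 u3
    have u16 := bt fun t => g7103 w17296 u15 u1 t u5
    have u17 := bf fun t => s17446 t n7
    have u18 := bf fun t => g16078 n7 t g16912
    have u19 := bf fun t => g394 t n7
    have u20 := bf fun t => g16100 u19 w17303 t
    have u21 := bf fun t => s17400 t u20 n7 u18
    have u22 := bf fun t => g2748 n0 t
    have u23 := bf fun t => g16514 g16912 n0 t
    have u24 := bt fun t => g16261 u6 n0 t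
    have u25 := bt fun t => g16239 u7 t u22
    have u26 := bf fun t => g4566 u24 u21 u16 t
    have u27 := bt fun t => g4577 u24 u21 u16 n4 t
    have u28 := bf fun t => g178 u27 t
    have u29 := bf fun t => g10703 u21 u12 t n4 u27
    have u30 := bt fun t => s17486 t n0 n1 n2 n3 n4 n5 n6 n7
    have u31 := bf fun t => g20 t u30
    have u32 := bf fun t => g559 n7 g16906 u31 t
    have u33 := bf fun t => g4586 u24 u32 u12 t u26
    have u34 := bf fun t => g2775 n0 u31 u3 n1 u33 t
    have u35 := bf fun t => s17490 t u34 u33 u29 u27 u25 u24 u23 n1 n3 n7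
    have u36 := bt fun t => s17494 t u35 u34 u29 u27 n0 n1 n3 n7
    have u37 := bf fun t => g3971 t u36 u21 u17 g16909
    have u38 := bt fun t => s17485 u36 t n3 n7
    have u39 := bf fun t => g16093 w17306 t u37
    have u40 := bt fun t => g16097 t g16912 u37
    have u41 := bt fun t => g3831 t u20 u37
    have u42 := bt fun t => g16717 u37 u24 t
    have u43 := bt fun t => g935 t u39 u18
    have u44 := bt fun t => g16147 u40 u6 t
    have u45 := bt fun t => g16707 u41 t u8
    have u46 := bf fun t => g5101 u42 t
    have u47 := bf fun t => g1299 u44 t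
    have u48 := bt fun t => g16375 u43 t u46
    have u49 := bt fun t => g16735 u41 u46 t
    have u50 := bf fun t => g16400 u47 u9 t
    have u51 := bf fun t => s17495 t u50 u0 u48 n1
    have u52 := bf fun t => s17496 t u45 u44 u38 n3
    have u53 := bt fun t => g5955 u49 u17 u52 t u51 u35
    have u54 := bt fun t => g10708 u21 u16 t u53 u28
    exact g4592 u24 u54 u53 u28
  have s17498 : T.X p f c d = false → T.alt p r f c e = false → T.alt p r d c f = true → T.X p d r f = false → False := fun n0 n1 n2 n3 => by
    have u0 := bf fun t => s17371 t n3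
    have u1 := bf fun t => g3340 n2 g16907 t n0
    have u2 := bt fun t => g3316 n2 g16907 n3 n0 t
    have u3 := bf fun t => g159 t u2
    have u4 := bt fun t => s17443 t u2 n3 n1 u0
    have u5 := bf fun t => g9488 w17298 u4 n3 t u3
    have u6 := bf fun t => g34 t u4
    exact g3303 n2 w17298 u6 u1 u5 u3
  have s17499 : T.X p c r f = true → T.alt p r d a f = true → T.alt p r d c f = true → T.alt p r f b d = true → T.X p d r f = false → T.X p b e f = false → T.alt p r d a b = true → False := fun n0 n1 n2 n3 n4 n5 n6 => by
    have u0 := bf fun t => g16598 n3 g16913 t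
    have u1 := bf fun t => g3291 n2 t
    have u2 := bf fun t => g16641 u1 t u0
    have u3 := bt fun t => s17498 t u2 n2 n4
    have u4 := bf fun t => g99 t u3
    have u5 := bf fun t => g98 t u3
    have u6 := bf fun t => g394 t n6
    have u7 := bt fun t => g16257 u6 n3 t
    have u8 := bt fun t => s17475 t n5
    have u9 := bf fun t => g27 t u8
    have u10 := bf fun t => g17223 t n5
    have u11 := bt fun t => g17230 g17233 t u10
    have u12 := bf fun t => g26 t u8
    have u13 := bf fun t => g3058 g16913 u12 u9 w17300 t
    have u14 := bt fun t => s17387 t u12 u9 u13 n5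
    have u15 := bf fun t => s17391 u11 t u14 u9
    have u16 := bt fun t => g7103 w17296 u15 u8 t u14
    have u17 := bf fun t => g7153 g16906 t u8 u14
    have u18 := bt fun t => g7120 g16906 t u15 u17 u16 u14
    have u19 := bf fun t => s17448 t n6
    have u20 := bf fun t => g16078 n6 t g16912
    have u21 := bf fun t => g16100 u6 w17303 t
    have u22 := bf fun t => s17400 t u21 n6 u20
    have u23 := bf fun t => g34 t n0
    have u24 := bt fun t => g3326 n2 g16907 n0 t
    have u25 := bf fun t => g3332 n2 u23 t u5 u4
    have u26 := bt fun t => g9522 g16907 u25 n4 t u3 u24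
    have u27 := bf fun t => g1708 n1 u18 u25 t
    have u28 := bt fun t => g1695 n1 u18 u26 t
    have u29 := bt fun t => g2887 n3 u19 u12 u26 t
    have u30 := bt fun t => g4700 u7 u22 u16 u27 t
    exact g13285 u14 u28 u29 u30
  have s17501 : T.X p a r d = true → T.X p c a b = false → T.alt p r d a b = true → False := fun n0 n1 n2 => by
    have u0 := bf fun t => s17448 t n2
    have u1 := bf fun t => s17446 t n2
    have u2 := bf fun t => g17037 t u1
    have u3 := bf fun t => g17045 g17047 t u2
    have u4 := bf fun t => g16078 n2 t g16912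
    have u5 := bf fun t => g394 t n2
    have u6 := bf fun t => g16100 u5 w17303 t
    have u7 := bf fun t => s17400 t u6 n2 u4
    have u8 := bt fun t => g544 n2 g16906 n0 t
    have u9 := bf fun t => g17017 t n0 u8
    have u10 := bf fun t => s17449 t n0 n2
    have u11 := bf fun t => g17022 t u9 u0
    have u12 := bf fun t => g16075 t u10 w17303
    have u13 := bt fun t => g935 t u10 u4
    have u14 := bf fun t => g17042 u3 u11 t
    have u15 := bt fun t => g16085 u12 n2 t
    have u16 := bt fun t => g17025 t u13 n0
    have u17 := bt fun t => g3905 u15 n1 u7 t u1 g16909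
    exact g17029 u14 u17 u16
  have s17504 : T.alt p a d b c = true → T.X p c a b = false → T.X p b c f = false → T.X p c b f = false → T.X p f c d = true → T.alt p a f b d = true → T.alt p b d c f = true → T.alt p a d b f = false → T.X p f a b = true → T.alt p r d a b = true → False := fun n0 n1 n2 n3 n4 n5 n6 n7 n8 n9 => by
    have u0 := bf fun t => g16078 n9 t g16912
    have u1 := bf fun t => g394 t n9
    have u2 := bf fun t => g16100 u1 w17303 t
    have u3 := bf fun t => s17400 t u2 n9 u0
    have u4 := bf fun t => g4721 n5 u3 n8 t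
    have u5 := bf fun t => g5823 t n6
    have u6 := bf fun t => s17446 t n9
    have u7 := bf fun t => g3974 n0 u3 t u6 g16909
    have u8 := bt fun t => g16715 n0 n7 t
    have u9 := bt fun t => g16723 n0 t u5
    have u10 := bf fun t => s17366 t n2 n3 n4 u7 n8 n5 u6 u0
    have u11 := bt fun t => s17360 n4 u7 n1 u9 u8 t u10 n3 u4 n6 n5 u6 n8
    have u12 := bt fun t => g5836 n6 u6 u10 t n4
    have u13 := bf fun t => g4001 n0 u11 t u10
    have u14 := bt fun t => g4706 n5 u11 u12 t
    have u15 := bt fun t => g5112 u8 u7 u13 t n4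
    exact g10723 u11 n8 u15 u14
  have s17505 : T.X p c a b = false → T.X p a r d = false → T.X p b c f = false → T.X p c b f = false → T.X p f c d = true → T.alt p a f b d = true → T.alt p b d c f = true → T.alt p a d b f = false → T.X p b e f = false → T.alt p r d a b = true → False := fun n0 n1 n2 n3 n4 n5 n6 n7 n8 n9 => by
    have u0 := bf fun t => s17446 t n9
    have u1 := bt fun t => g5853 n6 u0 n3 n4 t
    have u2 := bf fun t => g98 t n4
    have u3 := bf fun t => g5825 n6 t
    have u4 := bt fun t => s17475 t n8
    have u5 := bf fun t => g26 t u4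
    have u6 := bf fun t => g27 t u4
    have u7 := bf fun t => g3058 g16913 u5 u6 w17300 t
    have u8 := bt fun t => s17387 t u5 u6 u7 n8
    have u9 := bf fun t => g824 t w17296 u4 u8
    have u10 := bf fun t => g7153 g16906 t u4 u8
    have u11 := bf fun t => g17223 t n8
    have u12 := bt fun t => g17230 g17233 t u11
    have u13 := bf fun t => s17391 u12 t u8 u6
    have u14 := bt fun t => g7103 w17296 u13 u4 t u8
    have u15 := bf fun t => g16078 n9 t g16912
    have u16 := bf fun t => g394 t n9
    have u17 := bf fun t => g16100 u16 w17303 t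
    have u18 := bf fun t => s17400 t u17 n9 u15
    have u19 := bf fun t => s17504 t n0 n2 n3 n4 n5 n6 n7 u14 n9
    have u20 := bf fun t => g16093 w17306 t u19
    have u21 := bt fun t => g16097 t g16912 u19
    have u22 := bt fun t => g3831 t u17 u19
    have u23 := bt fun t => g935 t u20 u15
    have u24 := bt fun t => g16147 u21 u9 t
    have u25 := bf fun t => g322 u21 g16906 t n0
    have u26 := bt fun t => g3905 u22 n0 u18 t u0 g16909
    have u27 := bt fun t => g16735 u22 t u3
    have u28 := bf fun t => g59 u26 t
    have u29 := bt fun t => g1027 u23 g16907 u26 t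
    have u30 := bt fun t => g5249 u27 u26 n4 t
    have u31 := bf fun t => g119 u29 t
    have u32 := bf fun t => g188 t u30
    have u33 := bf fun t => g1022 u23 t n1 u28 u31
    have u34 := bf fun t => g1370 u24 u33 u25 u10 t
    have u35 := bf fun t => g10369 n0 u14 u34 n3 t
    have u36 := bf fun t => g5241 u27 u34 t u2 u32
    have u37 := bf fun t => g15265 g16909 u35 t u32 u1
    exact g4700 n5 u18 u14 u36 u37
  have s17506 : T.X p c a b = true → T.X p b c f = false → T.X b f c d = true → T.X p c b f = false → T.X p c d f = false → T.alt p a f b d = true → T.alt p b d c f = true → T.alt p a d b f = false → T.X p b e f = false → T.alt p r d a b = true → False := fun n0 n1 n2 n3 n4 n5 n6 n7 n8 n9 => by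
    have u0 := bf fun t => g5825 n6 t
    have u1 := bt fun t => s17475 t n8
    have u2 := bf fun t => g27 t u1
    have u3 := bf fun t => g17223 t n8
    have u4 := bt fun t => g17230 g17233 t u3
    have u5 := bf fun t => g26 t u1
    have u6 := bf fun t => g3058 g16913 u5 u2 w17300 t
    have u7 := bt fun t => s17387 t u5 u2 u6 n8
    have u8 := bf fun t => s17391 u4 t u7 u2
    have u9 := bt fun t => g7103 w17296 u8 u1 t u7
    have u10 := bf fun t => s17446 t n9
    have u11 := bf fun t => g16078 n9 t g16912
    have u12 := bf fun t => g394 t n9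
    have u13 := bf fun t => g16100 u12 w17303 t
    have u14 := bf fun t => s17400 t u13 n9 u11
    have u15 := bf fun t => g3971 t n0 u14 u10 g16909
    have u16 := bt fun t => s17485 n0 t n8 n9
    have u17 := bt fun t => s17364 n0 u14 t n1 n3 u9 n6 n7 u10
    have u18 := bt fun t => g3831 t u13 u15
    have u19 := bf fun t => g172 u16 t
    have u20 := bf fun t => s17484 u16 n2 t
    have u21 := bf fun t => g10392 n0 t u17 u16
    have u22 := bt fun t => g16735 u18 t u0
    have u23 := bf fun t => g15247 g16909 u19 u20 t n2
    have u24 := bt fun t => g4700 n5 u14 u9 t u20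
    exact g5241 u22 u21 u24 n4 u23
  have s17507 : T.X p d r f = false → T.alt p a e d f = false → T.X p b e f = false → T.X p b d f = false → T.alt p r e d f = false → T.alt p r d c e = false → T.alt p r d a b = true → False := fun n0 n1 n2 n3 n4 n5 n6 => by
    have u0 := bt fun t => s17475 t n2
    have u1 := bf fun t => g26 t u0
    have u2 := bf fun t => g27 t u0
    have u3 := bf fun t => g3058 g16913 u1 u2 w17300 t
    have u4 := bt fun t => s17387 t u1 u2 u3 n2
    have u5 := bf fun t => g824 t w17296 u0 u4
    have u6 := bf fun t => s17446 t n6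
    have u7 := bf fun t => g394 t n6
    have u8 := bf fun t => s17497 t n0 n1 n2 n3 n4 n5 n6
    have u9 := bt fun t => g2745 w17311 u8 t
    have u10 := bt fun t => g16515 g16912 u8 t
    have u11 := bt fun t => g16235 n6 t u8
    have u12 := bf fun t => g16260 u5 u8 t
    have u13 := bf fun t => g16598 u9 g16913 t
    have u14 := bt fun t => g16529 w17303 u9 t
    have u15 := bt fun t => g16257 u7 u9 t
    have u16 := bf fun t => g2877 u9 u1 u2 n0 t
    have u17 := bf fun t => g3291 u10 t
    have u18 := bf fun t => g16641 u17 t u13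
    have u19 := bt fun t => g16521 t u9 u17
    have u20 := bt fun t => s17498 t u18 u10 n0
    have u21 := bf fun t => g98 t u20
    have u22 := bf fun t => g99 t u20
    have u23 := bf fun t => s17499 t u11 u10 u9 n0 n2 n6
    have u24 := bf fun t => g2515 u19 u1 u2 u23 t
    have u25 := bt fun t => g5853 u14 u6 u24 u20 t
    have u26 := bf fun t => g11834 u6 t u16 u22 u25
    have u27 := bf fun t => s17506 t u26 u25 u24 u21 u15 u14 u12 n2 n6
    have u28 := bf fun t => s17501 t u27 n6
    exact s17505 u27 u28 u26 u24 u20 u15 u14 u12 n2 n6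
  have s17508 : T.X p f c d = true → T.alt p a f b d = true → T.X p c a b = false → T.X p d r f = true → T.X p b e f = false → T.alt p r d a b = true → False := fun n0 n1 n2 n3 n4 n5 => by
    have u0 := bf fun t => g394 t n5
    have u1 := bf fun t => g16100 u0 w17303 t
    have u2 := bt fun t => g16729 u1 n1 t
    have u3 := bf fun t => g5823 t u2
    have u4 := bt fun t => g16523 g16912 t u3
    have u5 := bt fun t => s17475 t n4
    have u6 := bf fun t => g27 t u5
    have u7 := bf fun t => g17223 t n4
    have u8 := bt fun t => g17230 g17233 t u7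
    have u9 := bf fun t => g26 t u5
    have u10 := bf fun t => g3058 g16913 u9 u6 w17300 t
    have u11 := bt fun t => s17387 t u9 u6 u10 n4
    have u12 := bf fun t => s17391 u8 t u11 u6
    have u13 := bt fun t => g7103 w17296 u12 u5 t u11
    have u14 := bf fun t => g56 t u13
    have u15 := bf fun t => g7153 g16906 t u5 u11
    have u16 := bf fun t => g117 t u11
    have u17 := bf fun t => g7140 w17297 u15 u5 t u16
    have u18 := bf fun t => g16078 n5 t g16912
    have u19 := bf fun t => s17400 t u1 n5 u18
    have u20 := bf fun t => g4721 n1 u19 u13 t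
    have u21 := bf fun t => g4687 n1 u14 u17 u20 t
    have u22 := bf fun t => g4558 t n1
    have u23 := bf fun t => s17501 t n2 n5
    have u24 := bf fun t => s17446 t n5
    have u25 := bf fun t => g99 t n0
    have u26 := bf fun t => g9532 g16907 t n3 n0
    have u27 := bf fun t => g2515 u4 u9 u6 u26 t
    have u28 := bt fun t => g5853 u2 u24 u27 n0 t
    have u29 := bt fun t => s17505 n2 u23 t u27 n0 n1 u2 u22 n4 n5
    exact g11834 u24 u29 u21 u25 u28
  have s17512 : T.alt p r e a b = false → T.X a f d e = false → T.X a b d e = false → T.X p b d e = false → T.X p d e f = true → T.X p d a f = false → T.X p b e f = false → T.alt p r d a b = true → False := fun n0 n1 n2 n3 n4 n5 n6 n7 => by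
    have u0 := bt fun t => s17475 t n6
    have u1 := bf fun t => g26 t u0
    have u2 := bf fun t => g27 t u0
    have u3 := bf fun t => g3058 g16913 u1 u2 w17300 t
    have u4 := bt fun t => s17387 t u1 u2 u3 n6
    have u5 := bf fun t => g824 t w17296 u0 u4
    have u6 := bt fun t => g754 u5 w17307 t
    have u7 := bf fun t => g17223 t n6
    have u8 := bt fun t => g17230 g17233 t u7
    have u9 := bf fun t => s17391 u8 t u4 u2
    have u10 := bt fun t => g7103 w17296 u9 u0 t u4
    have u11 := bf fun t => g16078 n7 t g16912
    have u12 := bf fun t => g394 t n7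
    have u13 := bf fun t => g16100 u12 w17303 t
    have u14 := bf fun t => s17400 t u13 n7 u11
    have u15 := bt fun t => g16203 n7 n0 t
    have u16 := bt fun t => g16285 n0 u6 t
    have u17 := bf fun t => g4827 u16 t u10 g16911
    have u18 := bf fun t => g4831 u16 u10 t g16911
    have u19 := bt fun t => g4448 u15 u14 u17 t n3 n2
    exact g11511 u19 n5 u18 n4 n1
  have s17513 : T.alt p a f b d = true → T.X p c a b = false → T.X p d r f = true → T.X p b e f = false → T.alt p r d b e = true → T.alt p r d a b = true → T.alt p a e b d = false → False := fun n0 n1 n2 n3 n4 n5 n6 => by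
    have u0 := bt fun t => s17475 t n3
    have u1 := bf fun t => g26 t u0
    have u2 := bf fun t => g27 t u0
    have u3 := bf fun t => g3058 g16913 u1 u2 w17300 t
    have u4 := bt fun t => s17387 t u1 u2 u3 n3
    have u5 := bf fun t => g824 t w17296 u0 u4
    have u6 := bt fun t => g754 u5 w17307 t
    have u7 := bf fun t => g17223 t n3
    have u8 := bt fun t => g17230 g17233 t u7
    have u9 := bf fun t => s17391 u8 t u4 u2
    have u10 := bt fun t => g7103 w17296 u9 u0 t u4
    have u11 := bf fun t => g16078 n5 t g16912
    have u12 := bf fun t => g394 t n5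
    have u13 := bf fun t => g16100 u12 w17303 t
    have u14 := bf fun t => s17400 t u13 n5 u11
    have u15 := bt fun t => g16252 w17307 t n0
    have u16 := bt fun t => g16256 u12 t n0
    have u17 := bt fun t => g16805 n6 n0 t
    have u18 := bf fun t => g4721 n0 u14 u10 t
    have u19 := bt fun t => g16357 u11 u15 t
    have u20 := bf fun t => s17428 n2 t u9 u15
    have u21 := bf fun t => g16598 u16 g16913 t
    have u22 := bt fun t => g2911 u16 t u0 n2
    have u23 := bf fun t => g3291 u19 t
    have u24 := bt fun t => g4700 n0 u14 u10 u20 t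
    have u25 := bf fun t => g20 t u22
    have u26 := bf fun t => g16641 u23 t u21
    have u27 := bf fun t => g179 u24 t
    have u28 := bf fun t => g559 n5 g16906 u25 t
    have u29 := bt fun t => s17412 u10 u28 n0 t u14
    have u30 := bf fun t => s17508 t n0 n1 n2 n3 n5
    have u31 := bt fun t => s17438 u30 n2 u26 u19 t
    have u32 := bf fun t => g104 u31 t
    have u33 := bt fun t => g6280 u17 u29 u31 t
    have u34 := bf fun t => g6295 u17 t u29 u32
    have u35 := bf fun t => g205 u33 t
    have u36 := bf fun t => s17405 t u24 u33 u35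
    have u37 := bf fun t => s17423 t u24 u33
    have u38 := bf fun t => g15595 u37 u27 g16911 t u33
    have u39 := bt fun t => s17512 t u38 u37 u34 u31 u18 n3 n5
    have u40 := bf fun t => g575 t u39
    have u41 := bf fun t => g16282 u39 u6 t
    have u42 := bt fun t => g16297 u40 g16913 t
    have u43 := bt fun t => g16221 u40 n4 t
    have u44 := bt fun t => g16824 u41 t u17
    have u45 := bf fun t => g4396 u43 u14 t u34 u37
    have u46 := bf fun t => g5552 u44 t u31 u36
    exact g4881 u42 u45 u10 u46 g16911
  have s17514 : T.alt p a f b d = false → T.X p d r f = true → T.alt p a b d f = false → T.alt p r a d f = false → T.X p r a f = true → T.X p b a f = false → T.X p f a b = true → T.X p b d f = false → T.X p d a b = false → False := fun n0 n1 n2 n3 n4 n5 n6 n7 n8 => by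
    have u0 := bf fun t => g16253 w17307 t n0
    have u1 := bt fun t => g4555 n2 t n0
    have u2 := bt fun t => g1659 n3 u0 t
    have u3 := bt fun t => g4577 u1 n8 n6 n7 t
    have u4 := bt fun t => g1829 u2 n4 n1 t
    exact g10703 n8 n5 u4 n7 u3
  have s17515 : T.X p b e f = false → T.X p b d f = false → T.alt p r d c e = false → T.alt p r d b e = true → T.alt p r d a b = true → T.alt p a e b d = false → False := fun n0 n1 n2 n3 n4 n5 => by
    have u0 := bf fun t => s17446 t n4
    have u1 := bf fun t => g394 t n4
    have u2 := bf fun t => g16217 u1 t n5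
    have u3 := bf fun t => g16596 u2 w17305 t
    have u4 := bf fun t => g16078 n4 t g16912
    have u5 := bf fun t => g16100 u1 w17303 t
    have u6 := bf fun t => s17400 t u5 n4 u4
    have u7 := bf fun t => g17223 t n0
    have u8 := bt fun t => s17475 t n0
    have u9 := bt fun t => g17230 g17233 t u7
    have u10 := bf fun t => g26 t u8
    have u11 := bf fun t => g27 t u8
    have u12 := bf fun t => g3058 g16913 u10 u11 w17300 t
    have u13 := bt fun t => s17387 t u10 u11 u12 n0
    have u14 := bf fun t => g117 t u13
    have u15 := bf fun t => s17391 u9 t u13 u11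
    have u16 := bt fun t => g7103 w17296 u15 u8 t u13
    have u17 := bf fun t => g7153 g16906 t u8 u13
    have u18 := bf fun t => g824 t w17296 u8 u13
    have u19 := bf fun t => g7140 w17297 u17 u8 t u14
    have u20 := bt fun t => g7120 g16906 t u15 u17 u16 u13
    have u21 := bt fun t => g754 u18 w17307 t
    have u22 := bf fun t => g16300 u18 w17305 t
    have u23 := bf fun t => g16228 u1 u18 t
    have u24 := bf fun t => g16242 n4 u21 t
    have u25 := bf fun t => g16796 n5 u22 t
    have u26 := bt fun t => s17507 t u25 n0 n1 u3 n2 n4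
    have u27 := bt fun t => s17514 t u26 u24 u23 u20 u19 u16 n1 u6
    have u28 := bt fun t => g16252 w17307 t u27
    have u29 := bt fun t => g16256 u1 t u27
    have u30 := bt fun t => g16729 u5 u27 t
    have u31 := bt fun t => g16805 n5 u27 t
    have u32 := bf fun t => g4721 u27 u6 u16 t
    have u33 := bt fun t => s17513 u27 t u26 n0 n3 n4 n5
    have u34 := bt fun t => g16357 u4 u28 t
    have u35 := bf fun t => s17428 u26 t u15 u28
    have u36 := bf fun t => g16598 u29 g16913 t
    have u37 := bt fun t => g2911 u29 t u8 u26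
    have u38 := bf fun t => g3971 t u33 u6 u0 g16909
    have u39 := bt fun t => s17485 u33 t n0 n4
    have u40 := bf fun t => g3291 u34 t
    have u41 := bt fun t => g4700 u27 u6 u16 u35 t
    have u42 := bf fun t => g20 t u37
    have u43 := bt fun t => g16097 t g16912 u38
    have u44 := bt fun t => g3831 t u5 u38
    have u45 := bf fun t => s17484 u39 t u41
    have u46 := bf fun t => g16641 u40 t u36
    have u47 := bf fun t => g179 u41 t
    have u48 := bf fun t => g559 n4 g16906 u42 t
    have u49 := bt fun t => g16147 u43 u18 t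
    have u50 := bt fun t => g16707 u44 t u24
    have u51 := bt fun t => s17412 u16 u48 u27 t u6
    have u52 := bf fun t => s17496 t u50 u49 u39 n0
    have u53 := bf fun t => g5853 u30 u0 u52 t u45
    have u54 := bt fun t => s17438 u53 u26 u46 u34 t
    have u55 := bf fun t => g104 u54 t
    have u56 := bt fun t => g6280 u31 u51 u54 t
    have u57 := bf fun t => g6295 u31 t u51 u55
    have u58 := bf fun t => g205 u56 t
    have u59 := bf fun t => s17405 t u41 u56 u58
    have u60 := bf fun t => s17423 t u41 u56
    have u61 := bf fun t => g15595 u60 u47 g16911 t u56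
    have u62 := bt fun t => s17512 t u61 u60 u57 u54 u32 n0 n4
    have u63 := bf fun t => g575 t u62
    have u64 := bf fun t => g16282 u62 u21 t
    have u65 := bt fun t => g16297 u63 g16913 t
    have u66 := bt fun t => g16221 u63 n3 t
    have u67 := bt fun t => g16824 u64 t u31
    have u68 := bf fun t => g4396 u66 u6 t u57 u60
    have u69 := bf fun t => g5552 u67 t u54 u59
    exact g4881 u65 u68 u16 u69 g16911
  have s17520 : T.X p f b d = false → T.X p c e f = false → T.X p e c d = false → T.X p f c d = true → T.alt p b e c f = true → T.alt p b e c d = true → T.alt p b c d e = false → T.alt p b f c e = false → T.alt p b d c f = true → T.X p b e f = true → T.X p b d f = false → T.X p b c d = false → False := fun n0 n1 n2 n3 n4 n5 n6 n7 n8 n9 n10 n11 => by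
    have u0 := bf fun t => g91 n9 t
    have u1 := bt fun t => g5836 n8 n11 t n0 n3
    have u2 := bf fun t => g78 u1 t
    have u3 := bf fun t => s17380 t n5 n2 u2 n11
    have u4 := bt fun t => g6028 n4 u3 n9 n1 t
    have u5 := bf fun t => g12061 u3 t u0 n1 u4
    have u6 := bt fun t => g5853 n8 n11 u5 n3 t
    have u7 := bf fun t => g200 t u6
    have u8 := bf fun t => g201 t u6
    have u9 := bf fun t => g5833 n8 u2 t u6
    have u10 := bf fun t => g11864 n11 t n0 n3 u8
    exact s17383 n9 n1 n2 n4 n6 u2 u7 n10 n3 u10 n7 u9 n11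
  have s17530 : T.X p e c f = false → T.X p f c e = false → T.X p d c e = false → T.X p d b f = true → T.X p f b d = false → T.X p e b d = false → T.X p c e f = false → T.X b d e f = true → T.X p f c d = false → T.alt p b e c f = true → T.alt p b e c d = true → T.alt p b d c f = true → T.X p b e f = true → T.X p b c d = false → False := fun n0 n1 n2 n3 n4 n5 n6 n7 n8 n9 n10 n11 n12 n13 => by
    have u0 := bf fun t => g91 n12 t
    have u1 := bt fun t => g6047 n9 t n12 n6 n0
    have u2 := bf fun t => g82 u1 t
    have u3 := bf fun t => g12051 t u1 n12 n6 n0 n1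
    have u4 := bt fun t => g5846 n11 n13 u2 n3 t
    have u5 := bf fun t => g6033 n9 u3 u2 u0 n1 t
    have u6 := bf fun t => g11888 t u2 n4 n8 u4
    have u7 := bt fun t => g15918 t u4 u5 n7 g16910
    exact g5789 n10 u6 u3 n5 n2 u7
  have s17532 : T.X p d b c = false → T.X p c b d = false → T.X b f c d = true → T.alt p b e c f = true → T.X p e c d = false → T.alt p b e c d = true → T.X p b d e = true → T.X b f d e = false → T.X p c e f = false → T.X p b e f = true → T.X p b c d = false → False := fun n0 n1 n2 n3 n4 n5 n6 n7 n8 n9 n10 => by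
    have u0 := bt fun t => g5803 n5 n10 n6 t n4
    have u1 := bf fun t => s17380 t n5 n4 n0 n10
    have u2 := bf fun t => g11709 n10 n1 n0 n6 u0 t
    have u3 := bt fun t => g6028 n3 u1 n9 n8 t
    exact g15933 u2 n2 u3 n7 g16910
  have s17533 : T.alt p c d e f = true → T.X p d b f = true → T.X p f b d = false → T.X p b d e = true → T.X b d e f = true → T.X p d e f = true → T.X p f c d = false → T.X p e c f = true → T.alt p b d c f = true → T.X p b e f = true → T.X p b d f = false → T.X p b c d = false → False := fun n0 n1 n2 n3 n4 n5 n6 n7 n8 n9 n10 n11 => by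
    have u0 := bf fun t => g206 n4 t
    have u1 := bf fun t => g100 t n7
    have u2 := bf fun t => g5825 n8 t
    have u3 := bf fun t => g91 n9 t
    have u4 := bf fun t => g6367 n0 t
    have u5 := bt fun t => g16884 t u2 n0
    have u6 := bf fun t => g6459 n0 t n5 g16910
    have u7 := bt fun t => g16891 n8 t u4
    have u8 := bt fun t => g5803 u5 n11 n3 t u6
    have u9 := bf fun t => g6053 u7 t u3 n7
    have u10 := bt fun t => g6462 n0 u8 n7 t
    have u11 := bt fun t => g5846 n8 n11 u9 n1 t
    have u12 := bf fun t => g200 t u11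
    have u13 := bf fun t => g201 t u11
    have u14 := bf fun t => g11888 t u9 n2 n6 u11
    have u15 := bt fun t => s17532 t u14 u11 u7 u6 u5 n3 u0 u1 n9 n11
    have u16 := bt fun t => g5849 n8 u15 t n10 u12
    have u17 := bt fun t => g5812 u5 u15 n3 t
    have u18 := bt fun t => g6056 u7 u16 n9 t
    exact g16014 u17 u12 u13 u18 n4 u10
  have s17534 : T.X p f c d = false → T.X p e c f = true → T.X p d r f = true → T.alt p r f c e = false → T.alt p c e d f = false → T.alt p r d c f = true → T.alt p b d e f = true → T.alt p b d c f = true → T.X p b e f = true → T.X p b d f = false → T.X p b c d = false → False := fun n0 n1 n2 n3 n4 n5 n6 n7 n8 n9 n10 => by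
    have u0 := bf fun t => g100 t n1
    have u1 := bf fun t => g6186 n6 t
    have u2 := bf fun t => g92 n8 t
    have u3 := bt fun t => s17438 n0 n2 n3 n5 t
    have u4 := bf fun t => g104 u3 t
    have u5 := bt fun t => g6276 n6 n8 u3 t
    have u6 := bf fun t => g205 u5 t
    have u7 := bf fun t => g206 u5 t
    have u8 := bf fun t => g6270 n6 t n9 u2 u6
    have u9 := bt fun t => g6289 n6 t u8 n8 u3
    have u10 := bf fun t => g6295 n6 u9 t u4
    have u11 := bt fun t => g6271 n6 u9 t u4 u7
    have u12 := bf fun t => s17533 t u11 u10 u9 u5 u3 n0 n1 n7 n8 n9 n10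
    have u13 := bt fun t => g6365 u12 n4 t
    have u14 := bt fun t => g16896 t u1 u13
    have u15 := bt fun t => g6506 u13 t u0 u3 g16910
    exact s17462 u15 u14 u9 u8 n10
  have s17535 : T.X p b c f = true → T.X p f c d = true → T.alt p b d c f = true → T.X p b c d = false → False := fun n0 n1 n2 n3 => by
    have u0 := bf fun t => g82 n0 t
    have u1 := bt fun t => g5853 n2 n3 u0 n1 t
    have u2 := bf fun t => g201 t u1
    have u3 := bt fun t => g11864 n3 n0 t n1 u2
    exact g5858 n2 n0 u3 u2
  have s17536 : T.X p b d e = true → T.X p c b d = false → T.X b d e f = true → T.X b f c d = true → T.X p e c d = false → T.alt p b e c d = true → T.alt p c d e f = true → T.alt p b e c f = true → T.X p e c f = true → T.alt p b d c f = true → T.X p b e f = true → T.X p b d f = false → T.X p b c d = false → False := fun n0 n1 n2 n3 n4 n5 n6 n7 n8 n9 n10 n11 n12 => by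
    have u0 := bf fun t => g206 n2 t
    have u1 := bf fun t => g201 t n3
    have u2 := bf fun t => g200 t n3
    have u3 := bf fun t => g100 t n8
    have u4 := bt fun t => g5803 n5 n12 n0 t n4
    have u5 := bt fun t => s17532 t n1 n3 n7 n4 n5 n0 u0 u3 n10 n12
    have u6 := bt fun t => g6462 n6 u4 n8 t
    have u7 := bt fun t => g5849 n9 u5 t n11 u2
    have u8 := bt fun t => g5812 n5 u5 n0 t
    have u9 := bt fun t => g6056 n7 u7 n10 t
    exact g16014 u8 u2 u1 u9 n2 u6
  have s17537 : T.X b c e f = true → T.X c f d e = true → T.X b d e f = true → T.X b f c d = true → False := fun n0 n1 n2 n3 => by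
    have u0 := bf fun t => g206 n2 t
    have u1 := bf fun t => g201 t n3
    have u2 := bf fun t => g200 t n3
    have u3 := bt fun t => g15933 t n3 n0 u0 g16910
    exact g16014 u3 u2 u1 n0 n2 n1
  have s17538 : T.X p e c f = true → T.X p d r f = true → T.alt p r f c e = false → T.alt p c e d f = false → T.alt p r d c f = true → T.alt p b d e f = true → T.alt p b d c f = true → T.X p b e f = true → T.X p b d f = false → T.X p b c d = false → T.alt p b d c e = false → False := fun n0 n1 n2 n3 n4 n5 n6 n7 n8 n9 n10 => by
    have u0 := bf fun t => g6186 n5 t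
    have u1 := bf fun t => g5825 n6 t
    have u2 := bf fun t => g16881 u1 t u0
    have u3 := bf fun t => g5823 t n6
    have u4 := bf fun t => g92 n7 t
    have u5 := bf fun t => g91 n7 t
    have u6 := bf fun t => g100 t n0
    have u7 := bt fun t => s17534 t n0 n1 n2 n3 n4 n5 n6 n7 n8 n9
    have u8 := bf fun t => g99 t u7
    have u9 := bf fun t => s17535 t u7 n6 n9
    have u10 := bf fun t => g6111 t u9 n7 n0
    have u11 := bf fun t => g16867 t u3 u10
    have u12 := bt fun t => g6003 u10 t u2
    have u13 := bt fun t => g16905 u10 n5 t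
    have u14 := bt fun t => g5641 u11 n10 t
    have u15 := bf fun t => g6053 u12 t u5 n0
    have u16 := bf fun t => g6456 u13 t u7 g16910
    have u17 := bt fun t => g5853 n6 n9 u15 u7 t
    have u18 := bt fun t => s17520 t u6 u16 u7 u12 u14 u11 u2 n6 n7 n8 n9
    have u19 := bf fun t => g201 t u17
    have u20 := bt fun t => g6279 n5 u18 n7 t
    have u21 := bf fun t => g6294 n5 t u18 u5 u4
    have u22 := bf fun t => g5854 n6 t u18 u19
    have u23 := bf fun t => g206 u20 t
    have u24 := bf fun t => s17536 t u22 u20 u17 u16 u14 u13 u12 n0 n6 n7 n8 n9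
    have u25 := bf fun t => g12272 u24 u21 u18 n7 t u20
    have u26 := bt fun t => g6444 u13 u8 n0 u25 t
    have u27 := bf fun t => s17537 t u26 u20 u17
    have u28 := bt fun t => g15927 t u19 u27 u20 u26
    exact g15937 u28 u17 u27 u23 g16910
  have s17539 : T.alt p c d e f = true → T.X p b c f = false → T.X p f c d = true → T.X p e c f = false → T.alt p b d c f = true → T.X p b e f = true → False := fun n0 n1 n2 n3 n4 n5 => by
    have u0 := bf fun t => g6367 n0 t
    have u1 := bf fun t => g6460 n0 n2 t g16910
    have u2 := bt fun t => g16891 n4 t u0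
    exact g6047 u2 n1 n5 u1 n3
  have s17540 : T.X p c e f = false → T.X b d c f = false → T.X p d b e = false → T.X b d e f = true → T.alt p b c d e = true → T.alt p c f d e = true → T.X p b c f = false → T.X p f c d = true → T.X p b e f = true → T.X p b c d = false → False := fun n0 n1 n2 n3 n4 n5 n6 n7 n8 n9 => by
    have u0 := bt fun t => g6510 n5 t n7 n0 g16910
    have u1 := bf fun t => g95 t u0
    have u2 := bt fun t => g5731 n4 n9 n2 u0 t
    have u3 := bf fun t => s17462 u0 n4 t n2 n9
    have u4 := bf fun t => g5747 n4 t u3 n2 u1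
    have u5 := bt fun t => g15970 u2 n1 t n3 g16910
    exact g12030 u4 n6 n8 n0 u5
  have s17541 : T.X b f c d = true → T.X p d b e = false → T.X b d e f = true → T.alt p b c d e = true → T.alt p b c e f = true → T.alt p c f d e = true → T.X p b c f = false → T.X p f c d = true → T.X p b e f = true → T.X p b c d = false → False := fun n0 n1 n2 n3 n4 n5 n6 n7 n8 n9 => by
    have u0 := bf fun t => g206 n2 t
    have u1 := bf fun t => g201 t n0
    have u2 := bt fun t => s17540 t u1 n1 n2 n3 n5 n6 n7 n8 n9
    have u3 := bt fun t => g6095 n4 n8 u2 t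
    have u4 := bf fun t => g203 u3 t
    have u5 := bt fun t => g15933 t n0 u3 u0 g16910
    have u6 := bt fun t => g15918 t n0 u4 n2 g16910
    exact g196 u5 u6
  have s17542 : T.X p f b d = true → T.alt p b c e f = true → T.alt p c f d e = true → T.X p r c f = true → T.X p f c d = true → T.X p d r f = true → T.alt p b d e f = true → T.alt p b d c f = true → T.alt p r f b d = true → T.X p b e f = true → T.X p b c d = false → False := fun n0 n1 n2 n3 n4 n5 n6 n7 n8 n9 n10 => by
    have u0 := bf fun t => g6186 n6 t
    have u1 := bt fun t => g16896 t u0 n2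
    have u2 := bf fun t => s17535 t n4 n7 n10
    have u3 := bf fun t => g9532 g16907 t n5 n4
    have u4 := bf fun t => g5823 t n7
    have u5 := bt fun t => g16523 g16912 t u4
    have u6 := bf fun t => g92 n9 t
    have u7 := bf fun t => g90 t n0
    have u8 := bt fun t => g6279 n6 n0 n9 t
    have u9 := bf fun t => g6291 n6 t n0 u6
    have u10 := bf fun t => g2915 n8 t n5 u7
    have u11 := bf fun t => s17541 t u9 u8 u1 n1 n2 u2 n4 n9 n10
    have u12 := bt fun t => g5853 n7 n10 t n4 u11
    have u13 := bf fun t => g84 u12 t
    have u14 := bt fun t => g2515 u5 u10 t u3 u12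
    have u15 := bt fun t => g2545 u5 t n3 u2 u13
    have u16 := bt fun t => g2535 u5 u15 u14 t
    exact g8715 u15 u14 n3 u2 u13 u16
  have s17543 : T.X b d e f = true → T.X b f c d = true → T.X p f b d = false → T.alt p b c d e = true → T.alt p b c e f = true → T.alt p c f d e = true → T.X p b c f = false → T.X p d e f = false → T.X p f c d = true → T.X p b e f = true → T.X p b c d = false → False := fun n0 n1 n2 n3 n4 n5 n6 n7 n8 n9 n10 => by
    have u0 := bf fun t => g92 n9 t
    have u1 := bf fun t => g12177 t n2 u0 n7 n0
    exact s17541 n1 u1 n0 n3 n4 n5 n6 n8 n9 n10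
  have s17544 : T.X p f c d = true → T.X p e c f = false → T.X p d r f = true → T.alt p r c b f = false → T.alt p c e d f = false → T.alt p r d e f = true → T.alt p r d c f = true → T.alt p b d e f = true → T.alt p b d c f = true → T.alt p r f b d = true → T.X p b e f = true → T.X p b d f = false → T.X p b r d = false → T.X p b c d = false → False := fun n0 n1 n2 n3 n4 n5 n6 n7 n8 n9 n10 n11 n12 n13 => by
    have u0 := bf fun t => g42 n2 t
    have u1 := bf fun t => g3329 n6 w17298 w17299 t u0
    have u2 := bf fun t => g5823 t n8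
    have u3 := bt fun t => g16523 g16912 t u2
    have u4 := bf fun t => g6292 n7 n11 n10 t
    have u5 := bf fun t => g6186 n7 t
    have u6 := bf fun t => g91 n10 t
    have u7 := bt fun t => g3342 n6 n2 n0 t
    have u8 := bf fun t => g9532 g16907 t n2 n0
    have u9 := bf fun t => s17415 n0 n4 t
    have u10 := bf fun t => s17535 t n0 n8 n13
    have u11 := bt fun t => g9500 g16907 t u8 u1 n0 u7
    have u12 := bf fun t => s17539 t u10 n0 n1 n8 n10
    have u13 := bt fun t => g6365 u12 n4 t
    have u14 := bt fun t => g16665 t n5 u12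
    have u15 := bt fun t => g16905 t n7 u12
    have u16 := bt fun t => g16896 t u5 u13
    have u17 := bt fun t => g16552 t n3 u14
    have u18 := bf fun t => s17542 t u15 u13 u11 n0 n2 n7 n8 n9 n10 n13
    have u19 := bt fun t => g5836 n8 n13 t u18 n0
    have u20 := bf fun t => g11836 n13 u10 u18 n0 t
    have u21 := bf fun t => g78 u19 t
    have u22 := bt fun t => g2153 g16912 t n12 w17298 u19
    have u23 := bt fun t => g2183 g16912 t g16907 n13 u21
    have u24 := bf fun t => g20 u22 t
    have u25 := bt fun t => g2899 n9 u22 n2 t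
    have u26 := bt fun t => g2164 g16912 u24 g16907 n13 t
    have u27 := bf fun t => g2911 n9 u24 t n2
    have u28 := bf fun t => g2914 n9 n12 u24 t n2
    have u29 := bt fun t => g2526 u3 u27 u11 u10 t
    have u30 := bf fun t => g3085 g16913 t u28 u27 w17300
    have u31 := bf fun t => g143 u29 t
    have u32 := bt fun t => g14493 u26 u29 u25 u7 u20 t
    have u33 := bf fun t => g2534 u3 u23 t u31
    have u34 := bf fun t => s17543 t u32 u18 u16 u15 u13 u10 u9 n0 n10 n13
    have u35 := bf fun t => g12184 t n11 n10 u4 u34
    have u36 := bf fun t => g5748 u16 u19 t u35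
    have u37 := bf fun t => g5714 u16 n13 u21 u36 t
    have u38 := bt fun t => g6510 u13 u37 n0 t g16910
    have u39 := bt fun t => g3561 u14 g16908 u38 t
    have u40 := bt fun t => g6095 u15 n10 u38 t
    have u41 := bt fun t => s17378 u38 n10 u15 u33 u10 t
    have u42 := bf fun t => g9701 t u11 u38 u39
    have u43 := bf fun t => g14631 t u29 u39 u40
    have u44 := bf fun t => g203 u40 t
    have u45 := bf fun t => g2225 u17 u30 u42 t u43
    exact g6086 u15 u45 u41 u6 u44
  have s17545 : T.X p b c f = false → T.X p r c e = false → T.X p r c f = true → T.X p e r c = false → T.X p c e f = true → T.alt p r c b e = true → T.alt p b c e f = true → T.alt p r f b c = true → T.X p b e f = true → False := fun n0 n1 n2 n3 n4 n5 n6 n7 n8 => by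
    have u0 := bt fun t => g6095 n6 n8 n4 t
    have u1 := bf fun t => g202 u0 t
    have u2 := bf fun t => g101 n4 t
    have u3 := bf fun t => g92 n8 t
    have u4 := bf fun t => g6089 n6 t n0 u3 u1
    have u5 := bt fun t => g6108 n6 t u4 n8 n4
    have u6 := bf fun t => g80 u5 t
    have u7 := bf fun t => g6114 n6 u5 t u2
    have u8 := bf fun t => g2251 n5 t n1 u5
    have u9 := bt fun t => g2545 n7 t n2 n0 u7
    have u10 := bf fun t => g8486 u9 u8 n3 u6 t
    have u11 := bf fun t => g16 u9 t
    exact g2217 n5 u11 u8 n3 u4 u10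
  have s17546 : T.alt p c d e f = false → T.X p d b e = false → v375 = false → T.X p d e f = true → T.X p e c f = false → T.X p f r c = false → T.alt p r c b f = false → T.alt p c e d f = false → T.alt p r f d e = false → T.alt p r d e f = true → T.alt p b d e f = true → T.alt p b d c f = true → T.X p b e f = true → T.X p b c d = false → False := fun n0 n1 n2 n3 n4 n5 n6 n7 n8 n9 n10 n11 n12 n13 => by
    have u0 := bf fun t => g104 n3 t
    have u1 := bt fun t => g6276 n10 n12 n3 t
    have u2 := bf fun t => g206 u1 t
    have u3 := bt fun t => g6289 n10 t n1 n12 n3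
    have u4 := bt fun t => g6271 n10 u3 t u0 u2
    have u5 := bf fun t => g5823 t n11
    have u6 := bt fun t => g16523 g16912 t u5
    have u7 := bf fun t => g6186 n10 t
    have u8 := bt fun t => g6365 n0 n7 t
    have u9 := bt fun t => g16665 t n9 n0
    have u10 := bt fun t => g16905 t n10 n0
    have u11 := bt fun t => g16656 t n8 u8
    have u12 := bt fun t => g16896 t u7 u8
    have u13 := bt fun t => g16552 t n6 u9
    have u14 := bf fun t => s17462 t u12 u3 n1 n13
    have u15 := bt fun t => g6506 u8 u14 t n3 g16910
    have u16 := bf fun t => g3218 u11 g16907 t u14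
    have u17 := bf fun t => g17153 n2 u15 t
    have u18 := bt fun t => g3561 u9 g16908 u15 t
    have u19 := bt fun t => g6095 u10 n12 u15 t
    have u20 := bf fun t => g17149 u17 u9 t
    have u21 := bt fun t => g9697 t u20 n5 g16908 u15 u18
    have u22 := bf fun t => g9701 t u21 u15 u18
    have u23 := bf fun t => g202 u19 t
    have u24 := bt fun t => s17545 t u22 u21 u16 u15 u13 u10 u6 n12
    have u25 := bf fun t => g82 u24 t
    have u26 := bt fun t => g6087 u10 t u24 n4 u23
    have u27 := bt fun t => g5846 n11 n13 u25 u4 t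
    have u28 := bt fun t => g5724 u12 n13 u26 n1 t
    exact g16001 u28 u27 u19 u1
  have s17547 : T.X p d r f = true → T.alt p r c b f = false → T.alt p c e d f = false → T.alt p r d e f = true → T.alt p r d c f = true → T.alt p b d e f = true → T.alt p b d c f = true → T.alt p r f b d = true → T.X p b e f = true → T.X p b d f = false → T.X p b r d = false → T.X p b c d = false → T.alt p b d c e = false → False := fun n0 n1 n2 n3 n4 n5 n6 n7 n8 n9 n10 n11 n12 => by
    have u0 := bf fun t => g16598 n7 g16913 t
    have u1 := bf fun t => g3291 n4 t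
    have u2 := bf fun t => g16641 u1 t u0
    have u3 := bf fun t => g5825 n6 t
    have u4 := bf fun t => g92 n8 t
    have u5 := bf fun t => g42 n0 t
    have u6 := bf fun t => g3329 n4 w17298 w17299 t u5
    have u7 := bf fun t => s17538 t n0 u2 n2 n4 n5 n6 n8 n9 n11 n12
    have u8 := bf fun t => s17544 t u7 n0 n1 n2 n3 n4 n5 n6 n7 n8 n9 n10 n11
    have u9 := bt fun t => s17438 u8 n0 u2 n4 t
    have u10 := bf fun t => g104 u9 t
    have u11 := bt fun t => s17416 t u8 n4 n3 u9
    have u12 := bt fun t => g6276 n5 n8 u9 t
    have u13 := bf fun t => s17336 t u11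
    have u14 := bf fun t => g205 u12 t
    have u15 := bf fun t => g206 u12 t
    have u16 := bf fun t => g6270 n5 t n9 u4 u14
    have u17 := bt fun t => g6289 n5 t u16 n8 u9
    have u18 := bf fun t => g86 u17 t
    have u19 := bf fun t => g6295 n5 u17 t u10
    have u20 := bt fun t => g6271 n5 u17 t u10 u15
    have u21 := bt fun t => s17546 t u16 u13 u9 u7 u6 n1 n2 u0 n3 n5 n6 n8 n11
    have u22 := bf fun t => g6367 u21 t
    have u23 := bt fun t => g16884 t u3 u21
    have u24 := bf fun t => g6459 u21 t u9 g16910
    have u25 := bf fun t => g6457 u21 t u9 g16910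
    have u26 := bt fun t => g16891 n6 t u22
    have u27 := bt fun t => g5803 u23 n11 u17 t u24
    have u28 := bf fun t => g94 u27 t
    have u29 := bf fun t => g6465 u21 u28 u24 u8 t
    exact s17530 u7 u29 u28 u20 u19 u18 u25 u12 u8 u26 u23 n6 n8 n11
  have s17548 : T.alt p c d e f = true → T.X p f c d = true → T.alt p b d e f = true → T.alt p b d c f = true → T.X p b e f = true → T.X p b d f = false → T.X p b c d = false → False := fun n0 n1 n2 n3 n4 n5 n6 => by
    have u0 := bf fun t => s17535 t n1 n3 n6
    have u1 := bf fun t => g99 t n1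
    have u2 := bf fun t => g6186 n2 t
    have u3 := bf fun t => g5825 n3 t
    have u4 := bf fun t => g16881 u3 t u2
    have u5 := bf fun t => g92 n4 t
    have u6 := bf fun t => g91 n4 t
    have u7 := bf fun t => g6367 n0 t
    have u8 := bt fun t => g16884 t u3 n0
    have u9 := bf fun t => g6456 n0 t n1 g16910
    have u10 := bf fun t => g6460 n0 n1 t g16910
    have u11 := bt fun t => s17539 n0 u0 n1 t n3 n4
    have u12 := bf fun t => g16895 t u2 u7
    have u13 := bt fun t => g16891 n3 t u7
    have u14 := bf fun t => g6053 u13 t u6 u11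
    have u15 := bt fun t => s17520 t u10 u9 n1 u13 u8 u12 u4 n3 n4 n5 n6
    have u16 := bt fun t => g5853 n3 n6 u14 n1 t
    have u17 := bt fun t => g6279 n2 u15 n4 t
    have u18 := bf fun t => g6294 n2 t u15 u6 u5
    have u19 := bf fun t => g201 t u16
    have u20 := bf fun t => g206 u17 t
    have u21 := bf fun t => g5854 n3 t u15 u19
    have u22 := bf fun t => s17536 t u21 u17 u16 u9 u8 n0 u13 u11 n3 n4 n5 n6
    have u23 := bf fun t => g12272 u22 u18 u15 n4 t u17
    have u24 := bt fun t => g6444 n0 u1 u11 u23 t
    have u25 := bf fun t => s17537 t u24 u17 u16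
    have u26 := bt fun t => g15927 t u19 u25 u17 u24
    exact g15937 u26 u16 u25 u20 g16910
  have s17549 : T.X b d e f = true → T.X p c e f = false → T.alt p c f d e = true → T.X p d e f = false → T.X p f c d = true → T.alt p b d e f = true → T.alt p b d c f = true → T.X p b e f = true → T.X p b d f = false → T.X p b c d = false → False := fun n0 n1 n2 n3 n4 n5 n6 n7 n8 n9 => by
    have u0 := bt fun t => g6510 n2 t n4 n1 g16910
    have u1 := bf fun t => g96 t u0
    have u2 := bf fun t => g6186 n5 t
    have u3 := bt fun t => g16896 t u2 n2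
    have u4 := bf fun t => s17535 t n4 n6 n9
    have u5 := bf fun t => g99 t n4
    have u6 := bf fun t => g92 n7 t
    have u7 := bf fun t => g91 n7 t
    have u8 := bf fun t => g205 n0 t
    have u9 := bf fun t => g12212 t n8 n7 n3 u8
    have u10 := bt fun t => s17540 n1 t u9 n0 u3 n2 u4 n4 n7 n9
    have u11 := bt fun t => g5731 u3 n9 u9 u0 t
    have u12 := bt fun t => g11836 n9 u4 t n4 u10
    have u13 := bt fun t => g5867 n6 t u4 u12 u5 u10
    have u14 := bf fun t => g198 t u11
    have u15 := bf fun t => g11664 n9 t u9 u1 u11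
    have u16 := bf fun t => g6294 n5 t u12 u7 u6
    exact g5727 u3 u13 u15 u16 u14
  have s17550 : T.X p c e f = false → T.alt p c f d e = true → T.X p d e f = false → T.X p f c d = true → T.alt p b d e f = true → T.alt p b d c f = true → T.X p b e f = true → T.X p b d f = false → T.X p b c d = false → False := fun n0 n1 n2 n3 n4 n5 n6 n7 n8 => by
    have u0 := bf fun t => g6186 n4 t
    have u1 := bt fun t => g16896 t u0 n1
    have u2 := bf fun t => g6292 n4 n7 n6 t
    have u3 := bt fun t => g6510 n1 t n3 n0 g16910
    have u4 := bf fun t => s17549 t n0 n1 n2 n3 n4 n5 n6 n7 n8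
    have u5 := bf fun t => g6279 n4 t n6 u4
    have u6 := bf fun t => g12184 t n7 n6 u2 u4
    have u7 := bt fun t => g5836 n5 n8 t u5 n3
    have u8 := bf fun t => g78 u7 t
    have u9 := bf fun t => g5748 u1 u7 t u6
    exact g5714 u1 n8 u8 u9 u3
  have s17551 : T.X p c r f = false → T.X p f r c = false → T.X p e r c = false → T.X p c e f = true → T.alt p r c b e = true → T.alt p b c e f = true → T.alt p r c e f = true → T.X p b c f = false → T.alt p r f b c = true → T.X p b e f = true → False := fun n0 n1 n2 n3 n4 n5 n6 n7 n8 n9 => by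
    have u0 := bt fun t => g3561 n6 g16908 n3 t
    have u1 := bf fun t => g161 u0 t
    have u2 := bf fun t => g101 n3 t
    have u3 := bf fun t => g3556 n6 t n0 u2 u1
    have u4 := bt fun t => g9697 t n0 n1 g16908 n3 u0
    exact s17545 n7 u3 u4 n2 n3 n4 n5 n8 n9
  have s17552 : T.alt p a f b d = true → T.alt p r d a b = true → T.alt p r d a e = false → False := fun n0 n1 n2 => by
    have u0 := bf fun t => g16212 g16916 n2 t
    have u1 := bt fun t => g16195 n1 n2 t
    have u2 := bf fun t => g16078 n1 t g16912
    have u3 := bf fun t => g16316 u2 n2 t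
    have u4 := bf fun t => s17477 t n1 n2
    have u5 := bt fun t => s17515 t u4 u3 u1 n1 u0
    have u6 := bf fun t => s17448 t n1
    have u7 := bf fun t => s17446 t n1
    have u8 := bf fun t => g394 t n1
    have u9 := bf fun t => g16100 u8 w17303 t
    have u10 := bf fun t => g16688 u9 u0 t
    have u11 := bf fun t => g16606 u1 g16913 t
    have u12 := bt fun t => g16252 w17307 t n0
    have u13 := bt fun t => g16256 u8 t n0
    have u14 := bt fun t => g16729 u9 n0 t
    have u15 := bt fun t => g16805 u0 n0 t
    have u16 := bf fun t => g16234 n1 u12 t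
    have u17 := bt fun t => g16357 u2 u12 t
    have u18 := bt fun t => g16433 n2 u12 t
    have u19 := bf fun t => g16598 u13 g16913 t
    have u20 := bf fun t => g5823 t u14
    have u21 := bf fun t => g5825 u14 t
    have u22 := bf fun t => g3289 t u17
    have u23 := bf fun t => g3291 u17 t
    have u24 := bt fun t => g16523 g16912 t u20
    have u25 := bf fun t => g16900 u20 u11 t
    have u26 := bf fun t => g16531 t u16 u21
    have u27 := bf fun t => g16641 u23 t u19
    have u28 := bf fun t => g17066 t u23 u22
    have u29 := bf fun t => g17069 t u28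
    have u30 := bt fun t => g17075 g17078 t u29
    have u31 := bf fun t => s17547 t u26 u25 u18 u17 u15 u14 u13 u5 u4 u6 u7 u10
    have u32 := bf fun t => s17371 t u31
    have u33 := bt fun t => s17498 t u27 u17 u31
    have u34 := bf fun t => s17415 u33 u25 t
    have u35 := bf fun t => s17535 t u33 u14 u7
    have u36 := bf fun t => s17548 t u33 u15 u14 u5 u4 u7
    have u37 := bt fun t => g6365 u36 u25 t
    have u38 := bt fun t => g16665 t u18 u36
    have u39 := bt fun t => g16905 t u15 u36
    have u40 := bt fun t => g16656 t u19 u37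
    have u41 := bt fun t => g16552 t u26 u38
    have u42 := bt fun t => s17550 t u37 u34 u33 u15 u14 u5 u4 u7
    have u43 := bf fun t => g6536 u37 t u42 g16910
    have u44 := bt fun t => g3561 u38 g16908 u42 t
    have u45 := bf fun t => g17061 t u43
    have u46 := bf fun t => g3218 u40 g16907 t u43
    have u47 := bt fun t => g17051 t u46 u44
    have u48 := bt fun t => g17071 u30 t u45
    have u49 := bf fun t => g17052 u48 u47 t
    have u50 := bt fun t => s17551 t u49 u46 u42 u41 u39 u38 u35 u24 u5
    have u51 := bt fun t => g3326 u17 g16907 u50 t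
    have u52 := bf fun t => g17141 t u50 u51
    have u53 := bt fun t => g17149 t u38 u50
    have u54 := bf fun t => g17146 t u52 u31
    have u55 := bt fun t => g17153 t u42 u53
    exact g17166 u32 u54 u55
  have s17553 : T.X p f c d = true → T.alt p r f c d = true → T.alt p r f c e = false → v378 = false → False := fun n0 n1 n2 n3 => by
    have u0 := bf fun t => g99 t n0
    have u1 := bt fun t => s17495 n0 n2 n3 n1 t
    have u2 := bt fun t => g3439 n1 g16907 n0 t
    have u3 := bf fun t => g3458 n1 t u1 u0
    have u4 := bf fun t => g3454 n1 w17299 t u1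
    have u5 := bf fun t => g3457 n1 w17298 w17299 t u1
    exact g9500 g16907 u3 u5 u4 n0 u2
  have s17554 : T.X p d r f = true → v357 = true → T.X p d e f = false → T.alt p r f d e = true → False := fun n0 n1 n2 n3 => by
    have u0 := bf fun t => g42 n0 t
    have u1 := bt fun t => g3793 n3 u0 g16908 n2 t
    have u2 := bt fun t => g17084 n1 t u0
    have u3 := bt fun t => g9851 t n0 w17300 n2 u1
    exact g17079 u2 u3 u1
  have s17555 : T.X b d e f = false → T.X p d c e = false → T.X p b c f = false → T.X p c b f = false → T.X p e c f = true → T.X p d c f = false → T.X p e c d = false → T.X p f c d = false → T.alt p b f c d = true → T.alt p b e c d = true → T.X p d e f = false → T.alt p b f d e = true → T.X p b e f = true → T.X p b d f = false → T.X p b c d = false → False := fun n0 n1 n2 n3 n4 n5 n6 n7 n8 n9 n10 n11 n12 n13 n14 => by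
    have u0 := bt fun t => g6327 n11 t n12 n10 n0
    have u1 := bf fun t => g6355 n11 t n12 n0
    have u2 := bf fun t => g90 t u0
    have u3 := bt fun t => g5987 n8 n14 t u0 n7
    have u4 := bf fun t => g12215 u1 n13 n12 t n0
    have u5 := bt fun t => g5955 n8 n14 n3 u2 n7 t
    have u6 := bf fun t => g78 u3 t
    have u7 := bt fun t => g5779 n9 u3 u1 n1 t
    have u8 := bf fun t => g12383 n1 n5 n4 u4 t
    have u9 := bf fun t => g200 t u5
    have u10 := bf fun t => s17380 t n9 n6 u6 n14
    have u11 := bf fun t => g15952 u7 u9 t n0 u8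
    exact g12045 u10 n2 n12 n4 u11
  have s17556 : T.X p f b d = true → T.X p e d f = false → T.X b d e f = true → T.X p b c f = false → T.X p c b f = false → T.X p e c f = true → T.X p e c d = false → T.X p f c d = false → T.alt p b f c d = true → T.alt p b e c d = true → T.X p d e f = false → T.alt p b f d e = true → T.X p b e f = true → T.X p b c d = false → False := fun n0 n1 n2 n3 n4 n5 n6 n7 n8 n9 n10 n11 n12 n13 => by
    have u0 := bf fun t => g90 t n0
    have u1 := bt fun t => g6362 n11 t n0 n12 n10 n2
    have u2 := bt fun t => g5987 n8 n13 t n0 n7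
    have u3 := bt fun t => g5955 n8 n13 n4 u0 n7 t
    have u4 := bt fun t => g12245 u1 n0 n10 n1 t n2
    have u5 := bf fun t => g78 u2 t
    have u6 := bt fun t => g12406 n6 n7 n5 u4 t
    have u7 := bf fun t => s17380 t n9 n6 u5 n13
    have u8 := bf fun t => s17537 t u6 n2 u3
    exact g12045 u7 n3 n12 n5 u8
  have s17557 : T.X p e b d = true → T.X p f b d = false → T.X b f d e = false → T.X p d e f = false → T.alt p b f d e = true → T.X p b e f = true → False := fun n0 n1 n2 n3 n4 n5 => by
    have u0 := bf fun t => g91 n5 t
    have u1 := bf fun t => g86 t n0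
    have u2 := bf fun t => g12190 n0 n1 u0 t n2
    exact g6346 n4 u1 n5 n3 u2
  have s17558 : T.X p b d e = true → T.X p c b d = false → T.X b f c d = true → T.X p d b f = false → T.X p c d f = false → T.X p e d f = false → T.X b d e f = true → T.X p e c f = true → T.X p c e f = false → T.X p e c d = false → T.alt p b f c d = true → T.alt p b e c d = true → T.alt p b e c f = true → T.X p b e f = true → T.X p b c d = false → False := fun n0 n1 n2 n3 n4 n5 n6 n7 n8 n9 n10 n11 n12 n13 n14 => by
    have u0 := bf fun t => g206 n6 t
    have u1 := bf fun t => g91 n13 t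
    have u2 := bf fun t => g6053 n12 t u1 n7
    have u3 := bt fun t => g5803 n11 n14 n0 t n9
    have u4 := bt fun t => s17532 t n1 n2 n12 n9 n11 n0 u0 n8 n13 n14
    have u5 := bt fun t => g12341 u3 n4 n7 n5 t
    have u6 := bt fun t => g5981 n10 u4 u2 t n3
    have u7 := bf fun t => s17537 t u5 n6 n2
    exact g6056 n12 u6 n13 u7
  have s17559 : T.X b d e f = true → T.X p b c f = false → T.X p e c f = true → T.X p f c d = false → T.alt p b f c d = true → T.alt p b e c d = true → T.alt p b e c f = true → T.alt p c f d e = true → T.X p d e f = false → T.alt p b f d e = true → T.X p b e f = true → T.X p b d f = false → T.X p b c d = false → False := fun n0 n1 n2 n3 n4 n5 n6 n7 n8 n9 n10 n11 n12 => by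
    have u0 := bf fun t => g91 n10 t
    have u1 := bf fun t => g6053 n6 t u0 n2
    have u2 := bf fun t => g6508 n7 n3 t n8 g16910
    have u3 := bf fun t => g6505 n7 t n3 n8 g16910
    have u4 := bf fun t => g205 n0 t
    have u5 := bf fun t => g206 n0 t
    have u6 := bf fun t => g12212 t n11 n10 n8 u4
    have u7 := bf fun t => g6333 n9 u6 n11 t u4
    have u8 := bf fun t => g6535 n7 t n2 u7
    have u9 := bf fun t => s17556 t u7 n0 n1 u1 n2 u3 n3 n4 n5 n8 n9 n10 n12
    have u10 := bf fun t => s17557 t u9 u5 n8 n9 n10
    have u11 := bf fun t => g12231 u10 t u0 n8 n0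
    have u12 := bt fun t => g5955 n4 n12 u1 u11 n3 t
    have u13 := bf fun t => g201 t u12
    have u14 := bf fun t => g11888 t u1 u9 n3 u12
    have u15 := bf fun t => s17558 t u14 u12 u11 u8 u7 n0 n2 u2 u3 n4 n5 n6 n10 n12
    have u16 := bt fun t => g6346 n9 u15 n10 n8 t
    have u17 := bt fun t => g12406 u3 n3 n2 u16 t
    have u18 := bf fun t => s17537 t u17 n0 u12
    have u19 := bt fun t => g15927 t u13 u18 n0 u17
    exact g15937 u19 u12 u18 u5 g16910
  have s17560 : T.X p d c e = true → T.X p f c e = false → T.X p e c d = false → T.alt p b e c d = true → T.alt p c f d e = true → T.X p d e f = false → T.alt p b f d e = true → T.X p b e f = true → T.X p b c d = false → False := fun n0 n1 n2 n3 n4 n5 n6 n7 n8 => by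
    have u0 := bf fun t => g94 t n0
    have u1 := bf fun t => g6533 n4 n0 n1 t
    have u2 := bf fun t => g5803 n3 n8 t u0 n2
    exact g6346 n6 u2 n7 n5 u1
  have s17561 : T.X p b c f = false → T.X p e c f = true → T.X p d c f = false → T.X p f c d = false → T.alt p b f c d = true → T.alt p b e c d = true → T.alt p b e c f = true → T.alt p c f d e = true → T.X p d e f = false → T.alt p b f d e = true → T.X p b e f = true → T.X p b d f = false → T.X p b c d = false → False := fun n0 n1 n2 n3 n4 n5 n6 n7 n8 n9 n10 n11 n12 => by
    have u0 := bf fun t => g6505 n7 t n3 n8 g16910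
    have u1 := bf fun t => g102 n1 t
    have u2 := bf fun t => s17560 t u1 u0 n5 n7 n8 n9 n10 n12
    have u3 := bf fun t => g91 n10 t
    have u4 := bf fun t => g6053 n6 t u3 n1
    have u5 := bf fun t => s17559 t n0 n1 n3 n4 n5 n6 n7 n8 n9 n10 n11 n12
    exact s17555 u5 u2 n0 u4 n1 n2 u0 n3 n4 n5 n8 n9 n10 n11 n12
  have s17563 : T.X p d c f = false → T.X p b c f = true → T.X p f c d = false → T.alt p b f c d = true → T.X p b c d = false → False := fun n0 n1 n2 n3 n4 => by
    have u0 := bf fun t => g82 n1 t
    have u1 := bf fun t => g5992 n3 n1 t n0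
    have u2 := bf fun t => g11834 n4 n1 u1 n0 t
    exact g5955 n3 n4 u0 u1 n2 u2
  have s17564 : T.X p e c f = true → T.X p d c f = true → T.X p e c d = false → T.alt p b e c d = true → T.alt p c f d e = true → T.X p d e f = false → T.alt p b f d e = true → T.X p b e f = true → T.X p b c d = false → False := fun n0 n1 n2 n3 n4 n5 n6 n7 n8 => by
    have u0 := bf fun t => g102 n0 t
    have u1 := bt fun t => g6534 n4 t n2 n1 n0
    exact s17560 u1 u0 n2 n3 n4 n5 n6 n7 n8
  have s17567 : T.X b c d f = false → T.X p c b e = false → T.X p c d f = false → T.X p f b c = false → T.X p c e f = false → T.X p e c d = false → T.alt p b f c d = true → T.alt p b e c d = true → T.alt p b e c f = true → T.X p d e f = false → T.X p b e f = true → T.X p b d f = false → T.X p b c d = false → False := fun n0 n1 n2 n3 n4 n5 n6 n7 n8 n9 n10 n11 n12 => by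
    have u0 := bf fun t => g5962 n6 t n3 n2 n0
    have u1 := bf fun t => s17382 n1 t n12 n7 n9 n10 n5 n0 n11
    have u2 := bf fun t => s17380 t n7 n5 u0 n12
    exact g6028 n8 u2 n10 n4 u1
  have s17568 : T.X p c b e = false → T.X p d b e = false → T.X p e c f = false → T.X p c d f = false → T.X p b c f = true → T.X p c e f = false → T.X p e c d = false → T.alt p b f c d = true → T.alt p b e c d = true → T.alt p b e c f = true → T.X p d e f = false → T.X p b e f = true → T.X p b d f = false → T.X p b c d = false → False := fun n0 n1 n2 n3 n4 n5 n6 n7 n8 n9 n10 n11 n12 n13 => by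
    have u0 := bf fun t => g12200 n1 n12 n11 n10 t
    have u1 := bf fun t => g83 n4 t
    have u2 := bt fun t => g5774 n8 n13 n0 n1 n6 t
    have u3 := bt fun t => s17567 t n0 n3 u1 n5 n6 n7 n8 n9 n10 n11 n12 n13
    have u4 := bt fun t => g15969 u2 u3 t u0 g16910
    have u5 := bt fun t => g5966 n7 t u1 n12 n3 u3
    have u6 := bf fun t => g12143 t n4 n11 n5 n2 u4
    exact g11724 u5 u6 n1 n6 u2
  have s17569 : T.X p c b e = true → T.X p e c f = false → T.X p b c f = true → T.X p c e f = false → T.alt p b e c f = true → T.X p b e f = true → False := fun n0 n1 n2 n3 n4 n5 => by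
    have u0 := bt fun t => g6037 n4 n0 n2 t
    exact g12127 n0 n2 n5 n3 n1 u0
  have s17570 : T.X p d b e = true → T.X p d e f = false → T.alt p b f d e = true → T.X p b e f = true → False := fun n0 n1 n2 n3 => by
    have u0 := bf fun t => g92 n3 t
    have u1 := bf fun t => g85 t n0
    have u2 := bf fun t => g6352 n2 n0 u0 t
    exact g6346 n2 u1 n3 n1 u2
  have s17571 : T.X p b c f = true → T.X p c d f = false → T.X p f c d = false → T.alt p b f c d = true → T.alt p b e c d = true → T.alt p b e c f = true → T.alt p c f d e = true → T.X p d e f = false → T.alt p b f d e = true → T.X p b e f = true → T.X p b d f = false → T.X p b c d = false → False := fun n0 n1 n2 n3 n4 n5 n6 n7 n8 n9 n10 n11 => by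
    have u0 := bf fun t => g6508 n6 n2 t n7 g16910
    have u1 := bf fun t => g6505 n6 t n2 n7 g16910
    have u2 := bf fun t => s17570 t n7 n8 n9
    have u3 := bt fun t => s17563 t n0 n2 n3 n11
    have u4 := bf fun t => s17564 t u3 u1 n4 n6 n7 n8 n9 n11
    have u5 := bf fun t => s17569 t u4 n0 u0 n5 n9
    exact s17568 u5 u2 u4 n1 n0 u0 u1 n3 n4 n5 n7 n9 n10 n11
  have s17572 : T.X p b c f = false → T.X p f c d = false → T.alt p b f c d = true → T.alt p b e c d = true → T.alt p b e c f = true → T.alt p c f d e = true → T.X p d e f = false → T.alt p b f d e = true → T.X p b e f = true → T.X p b d f = false → T.X p b c d = false → False := fun n0 n1 n2 n3 n4 n5 n6 n7 n8 n9 n10 => by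
    have u0 := bf fun t => g6508 n5 n1 t n6 g16910
    have u1 := bf fun t => g6505 n5 t n1 n6 g16910
    have u2 := bt fun t => g6047 n4 n0 n8 u0 t
    have u3 := bt fun t => s17561 n0 u2 t n1 n2 n3 n4 n5 n6 n7 n8 n9 n10
    exact s17564 u2 u3 u1 n3 n5 n6 n7 n8 n10
  have s17573 : T.X p f c d = false → T.alt p b f c d = true → T.X p b c d = false → T.alt p b e c d = true → T.alt p b e c f = true → T.alt p c f d e = true → T.X p d e f = false → T.alt p b f d e = true → T.X p b e f = true → T.X p b d f = false → False := fun n0 n1 n2 n3 n4 n5 n6 n7 n8 n9 => by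
    have u0 := bt fun t => s17572 t n0 n1 n3 n4 n5 n6 n7 n8 n9 n2
    have u1 := bt fun t => s17563 t u0 n0 n1 n2
    have u2 := bt fun t => s17571 u0 t n0 n1 n3 n4 n5 n6 n7 n8 n9 n2
    exact g97 u2 u1
  have s17574 : T.alt p c f d e = true → T.X p d e f = false → v378 = false → T.alt p b f d e = true → T.alt p r f d e = true → T.alt p b d c f = false → T.X p b e f = true → T.X p b d f = false → T.X p b c d = false → T.alt p b d c e = false → T.alt p b e d f = false → T.alt p r d c e = false → False := fun n0 n1 n2 n3 n4 n5 n6 n7 n8 n9 n10 n11 => by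
    have u0 := bf fun t => g6368 t n0
    have u1 := bt fun t => g16892 n5 t n0
    have u2 := bf fun t => g16649 n11 t u0
    have u3 := bf fun t => g16889 n9 t u0
    have u4 := bt fun t => g16877 t u1 n10
    have u5 := bt fun t => g16640 t u2 n4
    have u6 := bt fun t => g16880 t u3 n3
    have u7 := bf fun t => s17553 t u5 u2 n2
    exact s17573 u7 u6 n8 u4 u1 n0 n1 n3 n6 n7
  have s17575 : T.X p e c d = false → T.X p f c d = false → T.X p d r f = false → T.alt p r c d f = true → T.alt p r f c e = true → T.alt p c e d f = true → T.alt p r c d e = true → T.X p d e f = false → v378 = false → False := fun n0 n1 n2 n3 n4 n5 n6 n7 n8 => by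
    have u0 := bf fun t => g3218 n6 g16907 t n0
    have u1 := bf fun t => g6390 n5 n0 t n7 g16910
    have u2 := bt fun t => s17463 n1 t u1 u0 n3 n4
    have u3 := bf fun t => g17154 t u1
    have u4 := bt fun t => g17147 t u2 n2
    exact g17165 n8 u4 u3
  have s17576 : T.X p f c d = false → T.X p d r f = false → T.alt p r c d f = true → T.alt p r f c e = true → T.alt p c e d f = true → T.alt p b c d e = true → T.alt p r c d e = true → T.X p d e f = false → v378 = false → T.alt p b f d e = true → T.X p b e f = true → T.X p b c d = false → False := fun n0 n1 n2 n3 n4 n5 n6 n7 n8 n9 n10 n11 => by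
    have u0 := bf fun t => s17570 t n7 n9 n10
    have u1 := bt fun t => s17575 t n0 n1 n2 n3 n4 n6 n7 n8
    have u2 := bf fun t => g95 t u1
    have u3 := bt fun t => g6392 n4 u1 n0 t g16910
    have u4 := bf fun t => s17462 u1 n5 t u0 n11
    have u5 := bf fun t => g12364 u2 n0 u3 t g16910
    exact g6346 n9 u4 n10 n7 u5
  have s17577 : T.alt p c e d f = true → T.alt p b c d e = true → T.alt p r c d e = true → T.X p d e f = false → v378 = false → T.alt p b f d e = true → T.alt p r f d e = true → T.alt p r d c f = false → T.X p b e f = true → T.X p b d f = false → T.X p b c d = false → T.alt p r e d f = false → T.alt p b d c e = false → T.alt p b e d f = false → T.alt p r d c e = false → False := fun n0 n1 n2 n3 n4 n5 n6 n7 n8 n9 n10 n11 n12 n13 n14 => by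
    have u0 := bf fun t => g3109 n2 t
    have u1 := bf fun t => g17090 t u0 n14
    have u2 := bf fun t => g17093 t u1
    have u3 := bf fun t => s17570 t n3 n5 n8
    have u4 := bf fun t => g12200 u3 n9 n8 n3 t
    have u5 := bf fun t => g6333 n5 u3 n9 t u4
    have u6 := bf fun t => g92 n8 t
    have u7 := bt fun t => g16648 n14 t n0
    have u8 := bt fun t => g16660 t n11 n0
    have u9 := bt fun t => g16888 n12 t n0
    have u10 := bt fun t => g16900 t n13 n0
    have u11 := bf fun t => g16638 t u7 n6
    have u12 := bf fun t => g17097 t u11 n7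
    have u13 := bf fun t => g17100 t u12
    have u14 := bt fun t => g17106 g17109 t u13
    have u15 := bt fun t => g17102 u14 t u2
    have u16 := bf fun t => s17554 t u15 n3 n6
    have u17 := bt fun t => s17576 t u16 u8 u7 n0 n1 n2 n3 n4 n5 n8 n10
    have u18 := bf fun t => g98 t u17
    have u19 := bf fun t => g99 t u17
    have u20 := bt fun t => g6387 n0 t u17 n3 g16910
    have u21 := bf fun t => g6418 n0 u17 t g16910
    have u22 := bf fun t => g5925 u10 t n9 u18 u19
    have u23 := bf fun t => g6412 n0 u18 u19 t u5
    have u24 := bf fun t => g95 t u20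
    have u25 := bf fun t => g96 t u20
    have u26 := bt fun t => g5731 n1 n10 u3 u20 t
    have u27 := bf fun t => s17462 u20 n1 t u3 n10
    have u28 := bf fun t => g5744 n1 t u27 u24 u25
    have u29 := bf fun t => g197 t u26
    have u30 := bt fun t => g6346 n5 u27 n8 n3 t
    have u31 := bt fun t => g6165 u9 u28 n8 u21 t
    have u32 := bf fun t => g12006 u28 u22 u6 u31 t
    have u33 := bt fun t => g6396 n0 u24 u19 u30 t
    have u34 := bf fun t => g15914 u29 t u32 u4 u33
    have u35 := bf fun t => g15924 u26 u34 t u4 g16910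
    have u36 := bt fun t => g12024 u28 t n8 u31 u35
    have u37 := bf fun t => g12014 t u22 n8 u23 u35
    have u38 := bf fun t => g5913 u10 t u36 u34
    exact g5714 n1 n10 u38 u37 u20
  have s17578 : T.X b c d f = false → T.X p c d f = false → T.X b e c d = true → T.X p e c d = true → T.alt p b c e f = true → T.alt p b f c d = true → T.alt p b c d e = true → T.X b e d f = false → T.X p b e f = true → T.X p b c d = false → False := fun n0 n1 n2 n3 n4 n5 n6 n7 n8 n9 => by
    have u0 := bf fun t => g15924 n2 n0 t n7 g16910
    have u1 := bf fun t => g6096 n4 t n8 u0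
    have u2 := bf fun t => g6098 n4 t n8 u0
    have u3 := bt fun t => g5714 n6 n9 t u1 n3
    exact g5962 n5 u3 u2 n1 n0
  have s17579 : T.X p e c d = true → T.X p f c d = false → T.alt p b c e f = true → T.alt p b f c d = true → T.alt p c d e f = true → T.alt p b c d e = true → T.X p e d f = false → T.X b e d f = false → T.X p d e f = false → T.alt p b f d e = true → T.X p b e f = true → T.X p b c d = false → False := fun n0 n1 n2 n3 n4 n5 n6 n7 n8 n9 n10 n11 => by
    have u0 := bf fun t => s17570 t n8 n9 n10
    have u1 := bf fun t => g95 t n0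
    have u2 := bf fun t => g96 t n0
    have u3 := bf fun t => g6458 n4 n0 t g16910
    have u4 := bt fun t => g5731 n5 n11 u0 n0 t
    have u5 := bf fun t => s17462 n0 n5 t u0 n11
    have u6 := bf fun t => g5744 n5 t u5 u1 u2
    have u7 := bf fun t => g12399 n0 t u3 n6 g16910
    have u8 := bf fun t => g197 t u4
    have u9 := bt fun t => g6346 n9 u5 n10 n8 t
    have u10 := bt fun t => s17578 t u7 u4 n0 n2 n3 n5 n7 n10 n11
    have u11 := bf fun t => g200 u10 t
    have u12 := bt fun t => g15969 u4 u10 t n7 g16910
    have u13 := bf fun t => g15934 u8 u11 u12 t g16910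
    have u14 := bf fun t => g203 u12 t
    have u15 := bf fun t => g6337 n9 t u9 u13
    have u16 := bf fun t => g12013 u6 t n10 u3 u14
    exact g5955 n3 n11 u16 u15 n1 u11
  have s17580 : T.alt p r d a b = true → T.alt p r d a e = false → False := fun n0 n1 => by
    have u0 := bf fun t => g16212 g16916 n1 t
    have u1 := bf fun t => g394 t n0
    have u2 := bf fun t => g16078 n0 t g16912
    have u3 := bt fun t => g16195 n0 n1 t
    have u4 := bf fun t => g16100 u1 w17303 t
    have u5 := bf fun t => g16217 u1 t u0
    have u6 := bf fun t => g16316 u2 n1 t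
    have u7 := bf fun t => g16606 u3 g16913 t
    have u8 := bf fun t => g16688 u4 u0 t
    have u9 := bf fun t => g16596 u5 w17305 t
    have u10 := bf fun t => s17446 t n0
    have u11 := bf fun t => s17477 t n0 n1
    have u12 := bt fun t => s17515 t u11 u6 u3 n0 u0
    have u13 := bf fun t => s17552 t n0 n1
    have u14 := bf fun t => g16253 w17307 t u13
    have u15 := bf fun t => g16257 u1 t u13
    have u16 := bf fun t => g16728 u4 u13 t
    have u17 := bf fun t => g16804 u0 u13 t
    have u18 := bf fun t => g16356 u2 u14 t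
    have u19 := bf fun t => g16432 n1 u14 t
    have u20 := bt fun t => g16601 u15 g16913 t
    have u21 := bt fun t => g6184 u17 u7 t
    have u22 := bf fun t => s17349 u19 t
    have u23 := bf fun t => s17410 u19 t u9
    have u24 := bf fun t => s17570 t u23 u21 u12
    have u25 := bf fun t => g12200 u24 u11 u12 u23 t
    have u26 := bf fun t => g6333 u21 u24 u11 t u25
    have u27 := bf fun t => s17574 t u23 u22 u21 u20 u16 u12 u11 u10 u8 u7 u6
    have u28 := bt fun t => g16657 t u20 u27
    have u29 := bf fun t => g16893 u16 t u27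
    have u30 := bt fun t => g16897 t u21 u27
    have u31 := bf fun t => g16653 u18 t u27
    have u32 := bf fun t => g3109 u28 t
    have u33 := bt fun t => g16472 w17303 t u28
    have u34 := bf fun t => g17090 t u32 u6
    have u35 := bf fun t => g17093 t u34
    have u36 := bf fun t => s17577 t u30 u28 u23 u22 u21 u20 u18 u12 u11 u10 u9 u8 u7 u6
    have u37 := bf fun t => g16649 u6 t u36
    have u38 := bf fun t => g16889 u8 t u36
    have u39 := bt fun t => g6365 t u36 u27
    have u40 := bt fun t => g16561 t g16913 u37
    have u41 := bt fun t => g16640 t u37 u20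
    have u42 := bt fun t => g3469 t u31 u37
    have u43 := bt fun t => g16880 t u38 u21
    have u44 := bt fun t => g6003 t u29 u38
    have u45 := bf fun t => s17553 t u41 u37 u22
    have u46 := bf fun t => g17068 t u45
    have u47 := bf fun t => g17099 t u45
    have u48 := bt fun t => g17075 g17078 t u46
    have u49 := bt fun t => g17106 g17109 t u47
    have u50 := bt fun t => g17102 u49 t u35
    have u51 := bf fun t => s17554 t u50 u23 u20
    have u52 := bf fun t => s17343 u45 u41 t u51
    have u53 := bf fun t => g17146 t u52 u51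
    have u54 := bf fun t => g17166 u22 u53 t
    have u55 := bf fun t => s17579 t u45 u44 u43 u39 u30 u26 u25 u23 u21 u12 u10
    have u56 := bf fun t => g17061 t u55
    have u57 := bf fun t => g3218 u28 g16907 t u55
    have u58 := bt fun t => g6439 u39 u55 u45 t u23 g16910
    have u59 := bt fun t => g17071 u48 t u56
    have u60 := bf fun t => g100 u58 t
    have u61 := bt fun t => g3561 u42 g16908 u58 t
    have u62 := bt fun t => g6095 u44 u12 u58 t
    have u63 := bf fun t => g17153 u54 u58 t
    have u64 := bt fun t => g17051 t u57 u61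
    have u65 := bf fun t => g202 u62 t
    have u66 := bf fun t => g17149 u63 u42 t
    have u67 := bf fun t => g17052 u59 u64 t
    have u68 := bt fun t => s17551 u66 u67 u57 u58 u33 u44 u42 t u40 u12
    have u69 := bf fun t => g83 u68 t
    have u70 := bt fun t => s17563 t u68 u45 u43 u10
    have u71 := bt fun t => g6087 u44 t u68 u60 u65
    have u72 := bf fun t => g97 t u70
    have u73 := bf fun t => g81 u71 t
    have u74 := bt fun t => g5724 u30 u10 u71 u24 t
    have u75 := bf fun t => g11724 t u73 u24 u55 u74
    have u76 := bt fun t => g15924 u74 t u62 u25 g16910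
    exact g5966 u43 u75 u69 u11 u72 u76
  have s17581 : T.X p f c d = false → T.X p d e f = false → T.alt p r f c e = false → T.alt p r d c f = true → False := fun n0 n1 n2 n3 => by
    have u0 := bf fun t => s17438 n0 t n2 n3 n1
    exact s17498 n0 n2 n3 u0
  have s17582 : T.X b c e f = true → T.X b e d f = false → T.X b c d f = false → T.X p e c f = true → T.X p b c d = false → T.X p e c d = true → T.alt p r d a e = false → False := fun n0 n1 n2 n3 n4 n5 n6 => by
    have u0 := bf fun t => s17580 t n6
    have u1 := bf fun t => g16196 u0 n6 t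
    have u2 := bt fun t => g16609 u1 g16913 t
    have u3 := bf fun t => g16212 g16916 n6 t
    have u4 := bt fun t => g16080 u0 t g16912
    have u5 := bt fun t => g16089 g16914 u4 t
    have u6 := bt fun t => g16687 u5 u3 t
    have u7 := bf fun t => g5644 u6 t
    have u8 := bt fun t => g16876 u7 t u2
    have u9 := bf fun t => g202 n0 t
    have u10 := bf fun t => g15924 t n2 n0 n1 g16910
    have u11 := bf fun t => g6038 u8 t n3 u9
    exact g5672 u6 n4 u11 n5 u10
  have s17583 : T.X b c e f = false → T.X b c d f = false → T.X p e c f = true → T.X p b e f = true → T.X p b d f = false → T.X p b c f = false → T.X p b c d = false → T.X p e c d = true → T.alt p r d a e = false → False := fun n0 n1 n2 n3 n4 n5 n6 n7 n8 => by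
    have u0 := bf fun t => s17580 t n8
    have u1 := bf fun t => g16196 u0 n8 t
    have u2 := bt fun t => g16609 u1 g16913 t
    have u3 := bf fun t => g16212 g16916 n8 t
    have u4 := bt fun t => g16080 u0 t g16912
    have u5 := bt fun t => g16089 g16914 u4 t
    have u6 := bt fun t => g16687 u5 u3 t
    have u7 := bf fun t => g5644 u6 t
    have u8 := bt fun t => g16876 u7 t u2
    have u9 := bf fun t => g6185 t u2
    have u10 := bt fun t => g16871 u6 t u9
    have u11 := bt fun t => g12045 t n5 n3 n2 n0
    have u12 := bf fun t => g6056 u8 t n3 n0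
    have u13 := bf fun t => g81 t u11
    have u14 := bf fun t => g5849 u10 t u12 n4 n1
    have u15 := bt fun t => g5672 u6 n6 u13 n7 t
    exact g5652 u6 u14 u11 u15
  have s17584 : T.X p b e f = true → T.X p b c d = false → T.X p d e f = false → T.alt p r d a e = false → False := fun n0 n1 n2 n3 => by
    have u0 := bf fun t => s17580 t n3
    have u1 := bf fun t => g16196 u0 n3 t
    have u2 := bt fun t => g16609 u1 g16913 t
    have u3 := bf fun t => g6185 t u2
    have u4 := bf fun t => g16212 g16916 n3 t
    have u5 := bt fun t => g16080 u0 t g16912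
    have u6 := bt fun t => g16089 g16914 u5 t
    have u7 := bt fun t => g16687 u6 u4 t
    have u8 := bt fun t => g16871 u7 t u3
    have u9 := bt fun t => g16540 w17310 t u8
    have u10 := bt fun t => g16315 u5 n3 t
    have u11 := bf fun t => g3110 u10 t
    have u12 := bt fun t => g392 t w17306 u0
    have u13 := bt fun t => g16215 u12 t u4
    have u14 := bt fun t => g16595 u13 w17305 t
    have u15 := bt fun t => g16636 u11 t u14
    have u16 := bf fun t => g3472 u15 t
    have u17 := bt fun t => s17581 t n2 u16 u9
    have u18 := bf fun t => g99 t u17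
    have u19 := bf fun t => g98 t u17
    have u20 := bf fun t => s17535 t u17 u8 n1
    have u21 := bf fun t => g5866 u8 u20 t u19 u18
    have u22 := bf fun t => g5823 t u8
    have u23 := bt fun t => g16901 u22 u2 t
    have u24 := bt fun t => g6387 u23 t u17 n2 g16910
    have u25 := bf fun t => g96 t u24
    have u26 := bf fun t => g6418 u23 u17 t g16910
    have u27 := bf fun t => g5644 u7 t
    have u28 := bt fun t => g16876 u27 t u2
    have u29 := bf fun t => g91 n0 t
    have u30 := bt fun t => g6047 u28 u20 n0 u26 t
    have u31 := bf fun t => g6053 u28 t u29 u30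
    have u32 := bt fun t => g5853 u8 n1 u31 u17 t
    have u33 := bf fun t => g200 t u32
    have u34 := bt fun t => s17583 t u33 u30 n0 u21 u20 n1 u24 n3
    have u35 := bf fun t => g202 u34 t
    have u36 := bf fun t => g203 u34 t
    have u37 := bt fun t => s17582 u34 t u33 u30 n1 u24 n3
    have u38 := bf fun t => g6038 u28 t u30 u35
    have u39 := bf fun t => g12002 t u20 u29 u30 u36
    have u40 := bt fun t => g12200 t u21 n0 n2 u37
    exact g5688 u7 u39 u38 u40 u25
  have s17587 : T.X b c d f = true → T.X p b c d = false → T.X p f c d = true → T.alt p b d c f = true → False := fun n0 n1 n2 n3 => by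
    have u0 := bf fun t => g99 t n2
    have u1 := bf fun t => g98 t n2
    have u2 := bf fun t => s17535 t n2 n3 n1
    have u3 := bf fun t => g5866 n3 u2 t u1 u0
    have u4 := bf fun t => g200 n0 t
    have u5 := bt fun t => g11855 n1 t u3 n2 n0
    have u6 := bt fun t => g5853 n3 n1 t n2 u4
    exact g84 u6 u5
  have s17589 : T.X p c a b = true → T.X b f c d = true → T.X p d b c = true → T.alt p a b c f = true → T.alt p a b d f = true → T.X p f a b = true → T.alt p a c b d = true → False := fun n0 n1 n2 n3 n4 n5 n6 => by
    have u0 := bf fun t => g47 t n0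
    have u1 := bf fun t => g48 t n0
    have u2 := bt fun t => g4284 n3 n0 n5 t
    have u3 := bt fun t => g3845 n6 u0 u1 t n2
    have u4 := bf fun t => s17484 u2 n1 t
    have u5 := bt fun t => g3879 n6 n0 t u3
    exact g4646 n4 u5 n5 u4
  have s17590 : T.X p f b c = true → T.alt p a b c f = true → T.alt p a b d f = true → T.X p f a b = true → T.X p b c d = false → T.X p f c d = true → T.alt p r d a e = false → False := fun n0 n1 n2 n3 n4 n5 n6 => by
    have u0 := bf fun t => s17580 t n6
    have u1 := bf fun t => g16196 u0 n6 t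
    have u2 := bt fun t => g16609 u1 g16913 t
    have u3 := bf fun t => g6185 t u2
    have u4 := bf fun t => g16212 g16916 n6 t
    have u5 := bt fun t => g16080 u0 t g16912
    have u6 := bt fun t => g16089 g16914 u5 t
    have u7 := bt fun t => g16687 u6 u4 t
    have u8 := bt fun t => g16871 u7 t u3
    have u9 := bf fun t => s17587 t n4 n5 u8
    have u10 := bf fun t => g98 t n5
    have u11 := bf fun t => g938 t u5
    have u12 := bf fun t => g937 t u5
    have u13 := bf fun t => g16997 t u12 u11
    have u14 := bf fun t => g17000 t u13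
    have u15 := bf fun t => g17010 w17318 t u14
    have u16 := bt fun t => g392 t w17306 u0
    have u17 := bt fun t => g16069 t u16 u12
    have u18 := bf fun t => g84 t n0
    have u19 := bt fun t => g5844 u8 t n0 u10 u9
    have u20 := bt fun t => g5853 u8 n4 u18 n5 t
    have u21 := bf fun t => g2189 g16912 t w17299 u19
    have u22 := bf fun t => g16992 u15 t u21
    have u23 := bf fun t => s17589 t u20 u19 n1 n2 n3 u6
    have u24 := bf fun t => g3853 u6 u23 t n4 g16909
    have u25 := bf fun t => g3856 u6 u23 t n4 g16909
    have u26 := bf fun t => g503 u16 g16906 t u24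
    have u27 := bt fun t => g1078 u5 u26 g16907 u25 t
    have u28 := bf fun t => g7247 t u26 w17299 u25 u27
    have u29 := bt fun t => g298 u17 g16906 u28 u23 t
    exact g16989 u22 u28 u29
  have s17591 : T.X p c a b = false → v332 = false → T.X p b c d = false → T.alt p r d a b = false → False := fun n0 n1 n2 n3 => by
    have u0 := bt fun t => g392 t w17306 n3
    have u1 := bt fun t => g16080 n3 t g16912
    have u2 := bf fun t => g937 t u1
    have u3 := bt fun t => g16069 t u0 u2
    have u4 := bt fun t => g16089 g16914 u1 t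
    have u5 := bf fun t => g3853 u4 n0 t n2 g16909
    have u6 := bf fun t => g3856 u4 n0 t n2 g16909
    have u7 := bf fun t => g503 u0 g16906 t u5
    have u8 := bt fun t => g1078 u1 u7 g16907 u6 t
    have u9 := bf fun t => g7247 t u7 w17299 u6 u8
    have u10 := bt fun t => g298 u3 g16906 u9 n0 t
    exact g16989 n1 u9 u10
  have s17592 : T.X p b c d = false → T.X p d e f = false → T.alt p r d a e = false → False := fun n0 n1 n2 => by
    have u0 := bf fun t => s17580 t n2
    have u1 := bf fun t => g16196 u0 n2 t
    have u2 := bt fun t => g16609 u1 g16913 t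
    have u3 := bf fun t => g6185 t u2
    have u4 := bf fun t => g16212 g16916 n2 t
    have u5 := bt fun t => g16080 u0 t g16912
    have u6 := bt fun t => g16089 g16914 u5 t
    have u7 := bt fun t => g16687 u6 u4 t
    have u8 := bt fun t => g16871 u7 t u3
    have u9 := bt fun t => g16540 w17310 t u8
    have u10 := bt fun t => g16315 u5 n2 t
    have u11 := bf fun t => g3110 u10 t
    have u12 := bt fun t => g392 t w17306 u0
    have u13 := bt fun t => g16215 u12 t u4
    have u14 := bt fun t => g16595 u13 w17305 t
    have u15 := bt fun t => g16636 u11 t u14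
    have u16 := bf fun t => g3472 u15 t
    have u17 := bt fun t => s17581 t n1 u16 u9
    have u18 := bf fun t => g99 t u17
    have u19 := bf fun t => g98 t u17
    have u20 := bf fun t => g5823 t u8
    have u21 := bt fun t => g16523 g16912 t u20
    have u22 := bf fun t => g938 t u5
    have u23 := bf fun t => g937 t u5
    have u24 := bf fun t => g16997 t u23 u22
    have u25 := bf fun t => g17000 t u24
    have u26 := bf fun t => g17010 w17318 t u25
    have u27 := bf fun t => g16075 t u22 w17303
    have u28 := bf fun t => s17535 t u17 u8 n0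
    have u29 := bf fun t => g5866 u8 u28 t u19 u18
    have u30 := bf fun t => s17584 t n0 n1 n2
    have u31 := bf fun t => g17223 t u30
    have u32 := bt fun t => s17475 t u30
    have u33 := bt fun t => g17230 g17233 t u31
    have u34 := bf fun t => g26 t u32
    have u35 := bf fun t => g27 t u32
    have u36 := bf fun t => g3058 g16913 u34 u35 w17300 t
    have u37 := bt fun t => s17387 t u34 u35 u36 u30
    have u38 := bf fun t => s17391 u33 t u37 u35
    have u39 := bf fun t => g824 t w17296 u32 u37
    have u40 := bt fun t => g7103 w17296 u38 u32 t u37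
    have u41 := bt fun t => g754 u39 w17307 t
    have u42 := bt fun t => g16245 u0 u41 t
    have u43 := bt fun t => g16165 u27 u41 t
    have u44 := bf fun t => s17587 t n0 u17 u8
    have u45 := bf fun t => s17590 t u43 u42 u40 n0 u17 n2
    have u46 := bf fun t => g5849 u8 t u45 u29 u44
    have u47 := bt fun t => g2183 g16912 t g16907 n0 u46
    have u48 := bf fun t => g16 u47 t
    have u49 := bf fun t => g17 u47 t
    have u50 := bf fun t => g16992 u26 t u48
    have u51 := bf fun t => g2549 u21 u49 u32 t
    have u52 := bf fun t => g2515 u21 u34 u35 u51 t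
    have u53 := bt fun t => s17591 t u50 n0 u0
    have u54 := bt fun t => g4284 u43 u53 u40 t
    exact g10375 u53 u40 u28 u52 u45 u54
  have s17593 : T.X p b c d = true → T.alt p r d a b = false → False := fun n0 n1 => by
    have u0 := bf fun t => s17313 t n1
    have u1 := bf fun t => g16976 t u0
    have u2 := bt fun t => g16982 g16985 t u1
    have u3 := bt fun t => g16080 n1 t g16912
    have u4 := bf fun t => g938 t u3
    have u5 := bf fun t => g16075 t u4 w17303
    have u6 := bf fun t => s17312 t u5
    have u7 := bf fun t => g16969 t u6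
    have u8 := bt fun t => g16978 u2 t u7
    have u9 := bt fun t => g392 t w17306 n1
    have u10 := bf fun t => g937 t u3
    have u11 := bt fun t => g16069 t u9 u10
    have u12 := bt fun t => g16089 g16914 u3 t
    have u13 := bf fun t => g3870 u12 t n0 g16909
    have u14 := bt fun t => s17439 n0 t u2
    have u15 := bf fun t => g322 u11 g16906 t u13
    have u16 := bf fun t => g21 u14 t
    have u17 := bf fun t => g311 u11 w17296 w17297 u15 t
    have u18 := bt fun t => g16960 u8 t u16
    have u19 := bf fun t => g2201 g16912 u17 u16 g16907 n0 t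
    exact g16956 u18 u17 u19
  have s17594 : T.X p b r c = true → T.X p d r b = false → T.X p b c d = false → False := fun n0 n1 n2 => by
    have u0 := bf fun t => g8267 n0 n1 w17299 n2 t
    exact g2164 g16912 n1 g16907 n2 u0
  have s17595 : T.X p c a b = false → T.alt p r d a b = false → False := fun n0 n1 => by
    have u0 := bf fun t => s17593 t n1
    have u1 := bt fun t => g16080 n1 t g16912
    have u2 := bf fun t => g938 t u1
    have u3 := bf fun t => g937 t u1
    have u4 := bf fun t => g16997 t u3 u2
    have u5 := bf fun t => g17000 t u4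
    have u6 := bf fun t => g17010 w17318 t u5
    have u7 := bt fun t => g16089 g16914 u1 t
    have u8 := bt fun t => g392 t w17306 n1
    have u9 := bf fun t => g3853 u7 n0 t u0 g16909
    have u10 := bt fun t => s17591 n0 t u0 n1
    have u11 := bf fun t => g503 u8 g16906 t u9
    have u12 := bt fun t => g16992 u6 u10 t
    have u13 := bf fun t => g492 u8 w17296 w17297 u11 t
    exact s17594 u12 u13 u0
  have s17597 : T.X p f c d = false → T.alt p r d a e = false → False := fun n0 n1 => by
    have u0 := bf fun t => g16212 g16916 n1 t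
    have u1 := bf fun t => s17580 t n1
    have u2 := bt fun t => g392 t w17306 u1
    have u3 := bt fun t => g16215 u2 t u0
    have u4 := bt fun t => g16595 u3 w17305 t
    have u5 := bf fun t => g3651 t u4
    have u6 := bf fun t => s17349 u5 t
    have u7 := bt fun t => g16080 u1 t g16912
    have u8 := bt fun t => g16315 u7 n1 t
    have u9 := bf fun t => g3110 u8 t
    have u10 := bt fun t => g16636 u9 t u4
    have u11 := bf fun t => g3472 u10 t
    have u12 := bf fun t => g3470 t u10
    have u13 := bf fun t => g17152 t u12 u11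
    have u14 := bf fun t => g17155 t u13
    have u15 := bf fun t => g17165 u6 t u14
    have u16 := bf fun t => g16196 u1 n1 t
    have u17 := bt fun t => g16609 u16 g16913 t
    have u18 := bf fun t => g6185 t u17
    have u19 := bt fun t => g16089 g16914 u7 t
    have u20 := bt fun t => g16687 u19 u0 t
    have u21 := bt fun t => g16871 u20 t u18
    have u22 := bt fun t => g16540 w17310 t u21
    have u23 := bt fun t => s17498 n0 u11 u22 t
    have u24 := bt fun t => g17148 u15 t u23
    have u25 := bt fun t => s17437 t n0 u23 u11 u22 u6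
    have u26 := bt fun t => g3326 u22 g16907 u25 t
    exact g17141 u24 u25 u26
  have s17600 : T.alt p r d a e = false → False := fun n0 => by
    have u0 := bf fun t => g16212 g16916 n0 t
    have u1 := bf fun t => s17580 t n0
    have u2 := bt fun t => g16080 u1 t g16912
    have u3 := bt fun t => g392 t w17306 u1
    have u4 := bf fun t => g16196 u1 n0 t
    have u5 := bf fun t => g938 t u2
    have u6 := bt fun t => g16089 g16914 u2 t
    have u7 := bt fun t => g16315 u2 n0 t
    have u8 := bt fun t => g16215 u3 t u0
    have u9 := bt fun t => g16609 u4 g16913 t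
    have u10 := bf fun t => g16075 t u5 w17303
    have u11 := bt fun t => g16687 u6 u0 t
    have u12 := bf fun t => g3110 u7 t
    have u13 := bt fun t => g16595 u8 w17305 t
    have u14 := bf fun t => g6185 t u9
    have u15 := bf fun t => g5644 u11 t
    have u16 := bt fun t => g16871 u11 t u14
    have u17 := bt fun t => g16636 u12 t u13
    have u18 := bf fun t => g5823 t u16
    have u19 := bf fun t => g5825 u16 t
    have u20 := bt fun t => g16523 g16912 t u18
    have u21 := bt fun t => g16901 u18 u9 t
    have u22 := bf fun t => g16884 u15 u19 t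
    have u23 := bf fun t => s17593 t u1
    have u24 := bt fun t => s17592 u23 t n0
    have u25 := bf fun t => g6404 u21 t u24 g16910
    have u26 := bf fun t => g3159 u7 g16907 t u25
    have u27 := bf fun t => g3148 u7 w17298 w17299 t u26
    have u28 := bt fun t => s17595 t u1
    have u29 := bt fun t => s17597 t n0
    have u30 := bf fun t => g6418 u21 u29 t g16910
    have u31 := bf fun t => s17535 t u29 u16 u23
    have u32 := bt fun t => g3494 u17 u27 g16908 u30 t
    have u33 := bf fun t => s17394 u24 u22 u25 u31 u16 u30 t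
    have u34 := bf fun t => g9681 u27 t w17300 u30 u32
    have u35 := bf fun t => g17223 t u33
    have u36 := bt fun t => s17475 t u33
    have u37 := bt fun t => g17230 g17233 t u35
    have u38 := bf fun t => g26 t u36
    have u39 := bf fun t => g27 t u36
    have u40 := bf fun t => g3058 g16913 u38 u39 w17300 t
    have u41 := bt fun t => s17387 t u38 u39 u40 u33
    have u42 := bf fun t => s17391 u37 t u41 u39
    have u43 := bf fun t => g824 t w17296 u36 u41
    have u44 := bt fun t => g7103 w17296 u42 u36 t u41
    have u45 := bt fun t => g754 u43 w17307 t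
    have u46 := bt fun t => g16245 u1 u45 t
    have u47 := bt fun t => g16165 u10 u45 t
    have u48 := bf fun t => s17590 t u47 u46 u44 u23 u29 n0
    have u49 := bt fun t => g4284 u47 u28 u44 t
    have u50 := bf fun t => g2515 u20 u38 u39 u34 t
    exact g10375 u28 u44 u31 u50 u48 u49
  have w17600 := bt s17600
  have s17601 := fun (n0 : T.alt p r a d e = true) => g1479 n0 w17600
  have w17601 := bf s17601
  have s17602 := fun (n0 : T.alt p r e a d = true) => g1481 w17600 n0
  have w17602 := bf s17602
  have s17603 := fun (n0 : T.alt p a e b d = false) => g16213 g16916 w17600 n0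
  have w17603 := bt s17603
  have s17604 := fun (n0 : T.alt p a b d e = true) => g16224 w17601 w17309 n0
  have w17604 := bf s17604
  have s17605 := fun (n0 : T.alt p a d b e = true) => g16208 w17306 w17602 n0
  have w17605 := bf s17605
  have s17606 : T.alt p a b d f = true → T.X p f a b = true → T.X b f c d = true → T.X p d b c = true → T.X p b c d = false → T.alt p b d c f = true → T.X p d a b = true → False := fun n0 n1 n2 n3 n4 n5 n6 => by
    have u0 := bf fun t => g5823 t n5
    have u1 := bf fun t => g4557 n0 t
    have u2 := bt fun t => g16743 n0 t u0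
    have u3 := bt fun t => g16728 t u1 n5
    have u4 := bf fun t => g5099 u2 t
    have u5 := bt fun t => g3853 u3 t n6 n4 g16909
    have u6 := bf fun t => s17589 u5 n2 n3 t n0 n1 u3
    exact g16740 u6 u4 n5
  have s17607 : T.alt p a c b d = true → T.alt p r a d f = false → T.X p f r b = true → T.X b f c d = true → T.X p f b d = true → T.X p b c d = false → T.alt p b d c f = true → T.X p f c d = true → False := fun n0 n1 n2 n3 n4 n5 n6 n7 => by
    have u0 := bf fun t => g27 t n2
    have u1 := bf fun t => g26 t n2
    have u2 := bf fun t => g3058 g16913 u1 u0 w17300 t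
    have u3 := bf fun t => g99 t n7
    have u4 := bf fun t => g98 t n7
    have u5 := bf fun t => s17535 t n7 n6 n5
    have u6 := bf fun t => g5866 n6 u5 t u4 u3
    have u7 := bf fun t => g5823 t n6
    have u8 := bt fun t => g16523 g16912 t u7
    have u9 := bf fun t => g2386 t u8
    have u10 := bf fun t => g16572 u9 w17305 t
    have u11 := bt fun t => g16100 t w17303 n0
    have u12 := bf fun t => g16686 n0 w17603 t
    have u13 := bt fun t => g16227 u11 t n1
    have u14 := bt fun t => g16873 u12 n6 t
    have u15 := bf fun t => g16888 u12 u10 t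
    have u16 := bf fun t => g824 u13 w17296 n2 t
    have u17 := bt fun t => s17387 u16 u1 u0 u2 t
    have u18 := bf fun t => g92 u17 t
    have u19 := bf fun t => s17548 t n7 u14 n6 u17 u6 n5
    have u20 := bt fun t => g6279 u14 n4 u17 t
    have u21 := bf fun t => g6291 u14 t n4 u18
    have u22 := bt fun t => g16905 t u14 u19
    have u23 := bt fun t => g6365 u19 u15 t
    have u24 := bt fun t => g16868 t u7 u22
    exact s17541 n3 u21 u20 u24 u22 u23 u5 n7 u17 n5
  have s17608 : T.alt p a c b d = false → T.alt p r d a c = false → T.X p d a b = true → False := fun n0 n1 n2 => by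
    have u0 := bf fun t => s17400 n2 n0 t n1
    exact g16080 u0 n1 g16912
  have s17609 : T.alt p a c b d = false → T.X p d a b = true → False := fun n0 n1 => by
    have u0 := bf fun t => g16089 g16914 t n0
    exact s17608 n0 u0 n1
  have s17610 : T.X p b e f = true → T.X b f c d = true → T.X p f b d = true → T.X p b c d = false → T.alt p c e d f = false → T.alt p b d e f = true → T.alt p b d c f = true → T.X p f c d = true → False := fun n0 n1 n2 n3 n4 n5 n6 n7 => by
    have u0 := bf fun t => g99 t n7
    have u1 := bf fun t => g98 t n7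
    have u2 := bf fun t => s17535 t n7 n6 n3
    have u3 := bf fun t => g5866 n6 u2 t u1 u0
    have u4 := bf fun t => g5823 t n6
    have u5 := bf fun t => g92 n0 t
    have u6 := bf fun t => s17548 t n7 n5 n6 n0 u3 n3
    have u7 := bt fun t => g6279 n5 n2 n0 t
    have u8 := bf fun t => g6291 n5 t n2 u5
    have u9 := bt fun t => g16905 t n5 u6
    have u10 := bt fun t => g6365 u6 n4 t
    have u11 := bt fun t => g16868 t u4 u9
    exact s17541 n1 u8 u7 u11 u9 u10 u2 n7 n0 n3
  have s17611 : T.X p b c d = false → T.alt p b d c f = true → T.X p f c d = true → T.X p r b c = false → T.X p d a b = true → False := fun n0 n1 n2 n3 n4 => by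
    have u0 := bf fun t => g5823 t n1
    have u1 := bt fun t => g16523 g16912 t u0
    have u2 := bf fun t => g2386 t u1
    have u3 := bf fun t => g16572 u2 w17305 t
    have u4 := bt fun t => s17609 t n4
    have u5 := bf fun t => g16686 u4 w17603 t
    have u6 := bf fun t => g16888 u5 u3 t
    have u7 := bt fun t => g16873 u5 n1 t
    have u8 := bf fun t => g99 t n2
    have u9 := bf fun t => g98 t n2
    have u10 := bt fun t => g2183 g16912 n3 g16907 n0 t
    have u11 := bf fun t => s17535 t n2 n1 n0
    have u12 := bf fun t => s17587 t n0 n2 n1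
    have u13 := bf fun t => g78 t u10
    have u14 := bf fun t => g5866 n1 u11 t u9 u8
    have u15 := bt fun t => g5836 n1 n0 u13 t n2
    have u16 := bt fun t => g5849 n1 u10 t u14 u12
    have u17 := bf fun t => g5867 n1 u13 u11 u15 u8 t
    have u18 := bt fun t => g11910 u16 u15 n2 u12 u17 t
    have u19 := bf fun t => s17610 t u18 u15 n0 u6 u7 n1 n2
    have u20 := bf fun t => g17223 t u19
    have u21 := bt fun t => s17475 t u19
    have u22 := bt fun t => g17230 g17233 t u20
    have u23 := bf fun t => g26 t u21
    have u24 := bf fun t => g27 t u21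
    have u25 := bt fun t => s17607 u4 t u21 u18 u15 n0 n1 n2
    have u26 := bf fun t => g3058 g16913 u23 u24 w17300 t
    have u27 := bt fun t => s17387 t u23 u24 u26 u19
    have u28 := bt fun t => g16263 u25 w17311 t
    have u29 := bf fun t => s17391 u22 t u27 u24
    have u30 := bf fun t => s17606 u28 t u18 u10 n0 n1 n4
    exact g7103 w17296 u29 u21 u30 u27
  have s17613 : T.alt p r f b c = true → T.alt p r f b d = false → T.X p f c d = true → False := fun n0 n1 n2 => by
    have u0 := bf fun t => s17350 n2 t
    have u1 := bf fun t => g16558 n0 g16913 t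
    have u2 := bt fun t => g16519 n0 n1 t
    exact s17553 n2 u2 u1 u0
  have s17614 : T.X p b e f = false → T.alt p r a b f = true → False := fun n0 n1 => by
    have u0 := bt fun t => s17475 t n0
    have u1 := bf fun t => g26 t u0
    have u2 := bf fun t => g27 t u0
    have u3 := bf fun t => g824 n1 w17296 u0 t
    have u4 := bf fun t => g3058 g16913 u1 u2 w17300 t
    exact s17387 u3 u1 u2 u4 n0
  have s17615 : T.X p f c d = true → T.X p r b c = false → T.X p d a b = true → False := fun n0 n1 n2 => by
    have u0 := bt fun t => s17609 t n2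
    have u1 := bt fun t => g16088 g16914 t u0
    have u2 := bf fun t => g16078 t u1 g16912
    have u3 := bf fun t => s17593 t u2
    have u4 := bt fun t => g2183 g16912 n1 g16907 u3 t
    have u5 := bt fun t => g16197 u2 w17600 t
    have u6 := bf fun t => g16606 u5 g16913 t
    have u7 := bt fun t => g16100 t w17303 u0
    have u8 := bf fun t => g16214 u7 t w17603
    have u9 := bf fun t => g16596 u8 w17305 t
    have u10 := bf fun t => g16314 u1 w17600 t
    have u11 := bf fun t => g16686 u0 w17603 t
    have u12 := bf fun t => s17350 n0 t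
    have u13 := bf fun t => s17611 u3 t n0 n1 n2
    have u14 := bf fun t => g16529 w17303 t u13
    have u15 := bf fun t => g16541 w17310 t u13
    have u16 := bt fun t => g16727 u0 t u13
    have u17 := bf fun t => g16872 u11 u13 t
    have u18 := bt fun t => g16601 u14 g16913 t
    have u19 := bt fun t => g2745 w17311 t u14
    have u20 := bf fun t => g16632 u10 u15 t
    have u21 := bf fun t => g4558 t u16
    have u22 := bt fun t => g6184 u17 u6 t
    have u23 := bf fun t => s17410 u20 t u9
    have u24 := bt fun t => g16261 t u19 u21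
    have u25 := bf fun t => s17613 t u14 n0
    have u26 := bf fun t => g16520 u25 u14 t
    have u27 := bt fun t => g16561 u25 g16913 t
    have u28 := bt fun t => g16523 g16912 u25 t
    have u29 := bt fun t => g3288 t u15 u26
    have u30 := bf fun t => g3471 t u27
    have u31 := bt fun t => g16649 u10 u27 t
    have u32 := bf fun t => g16584 w17304 u30 t
    have u33 := bt fun t => g16629 t u29 u30
    have u34 := bt fun t => g16869 t u28 u32
    have u35 := bt fun t => s17614 t u24
    have u36 := bt fun t => s17577 u31 u34 u33 u23 u12 u22 u18 u15 u35 t u3 u9 u11 u6 u10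
    have u37 := bf fun t => g88 u36 t
    have u38 := bt fun t => g5915 u28 u4 u36 t
    have u39 := bt fun t => g5912 u28 u3 u37 n0 t
    exact g200 u38 u39
  have s17616 : T.alt p c e d f = true → T.X p b e f = true → v378 = false → T.X p f c d = false → T.X p b r d = false → T.alt p a c b d = true → False := fun n0 n1 n2 n3 n4 n5 => by
    have u0 := bt fun t => g16088 g16914 t n5
    have u1 := bf fun t => g16078 t u0 g16912
    have u2 := bt fun t => g16197 u1 w17600 t
    have u3 := bf fun t => g16606 u2 g16913 t
    have u4 := bf fun t => s17593 t u1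
    have u5 := bt fun t => g16100 t w17303 n5
    have u6 := bf fun t => g16214 u5 t w17603
    have u7 := bf fun t => g16596 u6 w17305 t
    have u8 := bf fun t => g16314 u0 w17600 t
    have u9 := bf fun t => g16686 n5 w17603 t
    have u10 := bf fun t => g6366 t n0
    have u11 := bt fun t => g16648 u8 t n0
    have u12 := bt fun t => g16660 t u7 n0
    have u13 := bt fun t => g16888 u9 t n0
    have u14 := bt fun t => g16900 t u3 n0
    have u15 := bf fun t => g3471 t u11
    have u16 := bf fun t => g3289 u12 t
    have u17 := bf fun t => g3290 u12 t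
    have u18 := bf fun t => g6005 t u13
    have u19 := bf fun t => g5824 u14 t
    have u20 := bf fun t => g16665 u15 t u10
    have u21 := bt fun t => g16629 t u12 u15
    have u22 := bt fun t => g16515 g16912 t u16
    have u23 := bt fun t => g16641 u17 u11 t
    have u24 := bt fun t => g16869 t u14 u18
    have u25 := bt fun t => g16881 u19 u13 t
    have u26 := bf fun t => s17410 u20 t u7
    have u27 := bt fun t => s17577 n0 u24 u21 u26 n2 u25 u23 u16 n1 t u4 u7 u9 u3 u8
    have u28 := bt fun t => s17576 n3 t u12 u11 n0 u24 u21 u26 n2 u25 n1 u4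
    exact s17465 u22 u28 u27 n4
  have s17617 : T.alt p r d c f = false → T.X p b d f = true → T.alt p r c d f = false → T.X p b e f = true → T.X p f c d = false → T.X p d r b = true → T.X p b r d = false → T.alt p a c b d = true → False := fun n0 n1 n2 n3 n4 n5 n6 n7 => by
    have u0 := bf fun t => g89 n1 t
    have u1 := bf fun t => g88 n1 t
    have u2 := bf fun t => g16513 w17303 t n2
    have u3 := bf fun t => g92 n3 t
    have u4 := bf fun t => g91 n3 t
    have u5 := bt fun t => g16088 g16914 t n7
    have u6 := bf fun t => g16078 t u5 g16912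
    have u7 := bf fun t => s17593 t u6
    have u8 := bt fun t => g16100 t w17303 n7
    have u9 := bf fun t => g16214 u8 t w17603
    have u10 := bf fun t => g16596 u9 w17305 t
    have u11 := bt fun t => g16197 u6 w17600 t
    have u12 := bf fun t => g16314 u5 w17600 t
    have u13 := bt fun t => g16515 g16912 t n0
    have u14 := bf fun t => g16632 u12 n0 t
    have u15 := bt fun t => g3288 n2 n0 t
    have u16 := bt fun t => g16611 u13 w17305 t
    have u17 := bt fun t => g16533 u2 u13 t
    have u18 := bt fun t => g2784 u13 n5 n1 t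
    have u19 := bf fun t => s17465 u13 t n1 n6
    have u20 := bt fun t => g3650 u14 u10 t
    have u21 := bf fun t => s17410 u14 t u10
    have u22 := bf fun t => g6343 u16 t u1 u0 u4
    have u23 := bt fun t => g6327 u16 u0 n3 u21 t
    have u24 := bt fun t => g5984 u17 u7 n1 t n4
    have u25 := bf fun t => g148 u18 t
    have u26 := bf fun t => g149 u18 t
    have u27 := bf fun t => g205 u23 t
    have u28 := bf fun t => g206 u23 t
    have u29 := bt fun t => g3455 u15 g16907 t u24
    have u30 := bf fun t => g2765 u13 t u19 u0 u26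
    have u31 := bt fun t => g6330 u16 n1 u3 t u27
    have u32 := bf fun t => g41 u29 t
    have u33 := bf fun t => g9031 n5 t u29 n1
    have u34 := bt fun t => g12270 t u22 n1 n3 u31 u23
    have u35 := bt fun t => g3793 u20 u32 g16908 u21 t
    have u36 := bf fun t => g3085 g16913 t u30 u33 w17300
    have u37 := bf fun t => g3106 g16913 u36 u33 g16908 n3 t
    have u38 := bt fun t => g2603 u11 n5 u34 t
    exact g14741 u38 u25 u37 u35 u28
  have s17618 : T.alt p r d c f = true → T.alt p r f c e = false → v378 = false → T.X p f c d = false → T.alt p r d c e = false → False := fun n0 n1 n2 n3 n4 => by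
    have u0 := bt fun t => g16633 n4 n0 t
    have u1 := bt fun t => s17581 n3 t n1 n0
    exact s17416 n2 n3 n0 u0 u1
  have s17619 : T.X p b e f = true → v378 = false → T.X p f c d = false → T.X p d r b = true → T.X p b r d = false → T.X p d b c = true → T.X p c r a = true → T.alt p a c b d = true → False := fun n0 n1 n2 n3 n4 n5 n6 n7 => by
    have u0 := bf fun t => g17099 t n2
    have u1 := bt fun t => g17106 g17109 t u0
    have u2 := bf fun t => g17068 t n2
    have u3 := bt fun t => g17075 g17078 t u2
    have u4 := bf fun t => g78 t n5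
    have u5 := bt fun t => g16088 g16914 t n7
    have u6 := bf fun t => g16078 t u5 g16912
    have u7 := bt fun t => g16197 u6 w17600 t
    have u8 := bf fun t => g16606 u7 g16913 t
    have u9 := bf fun t => s17593 t u6
    have u10 := bt fun t => g16100 t w17303 n7
    have u11 := bf fun t => g16214 u10 t w17603
    have u12 := bf fun t => g16596 u11 w17305 t
    have u13 := bt fun t => g16187 u10 t w17601
    have u14 := bf fun t => g16314 u5 w17600 t
    have u15 := bf fun t => g3834 n7 t
    have u16 := bf fun t => g16093 w17306 t u15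
    have u17 := bf fun t => g16686 n7 w17603 t
    have u18 := bf fun t => s17616 t n0 n1 n2 n4 n7
    have u19 := bf fun t => g16649 u14 t u18
    have u20 := bf fun t => g16659 t u12 u18
    have u21 := bt fun t => g16561 t g16913 u19
    have u22 := bf fun t => g16513 w17303 t u20
    have u23 := bf fun t => s17618 t u19 n1 n2 u14
    have u24 := bt fun t => g16355 u5 t u23
    have u25 := bt fun t => g16515 g16912 t u23
    have u26 := bf fun t => g16540 w17310 u23 t
    have u27 := bf fun t => g16632 u14 u23 t
    have u28 := bt fun t => g3288 u20 u23 t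
    have u29 := bf fun t => s17617 u23 t u20 n0 n2 n3 n4 n7
    have u30 := bf fun t => g1660 t u24
    have u31 := bf fun t => g1662 u24 t
    have u32 := bt fun t => g16611 u25 w17305 t
    have u33 := bt fun t => g16533 u22 u25 t
    have u34 := bf fun t => g16872 u17 u26 t
    have u35 := bt fun t => g3650 u27 u12 t
    have u36 := bf fun t => s17410 u27 t u12
    have u37 := bt fun t => g16227 u10 t u30
    have u38 := bt fun t => g16440 u31 t u35
    have u39 := bf fun t => g16368 u16 u31 t
    have u40 := bf fun t => g5987 u33 u9 u4 t n2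
    have u41 := bf fun t => s17570 t u36 u32 n0
    have u42 := bf fun t => s17574 t u36 n1 u32 u35 u26 n0 u29 u9 u17 u8 u14
    have u43 := bt fun t => g16299 u37 w17305 t
    have u44 := bf fun t => g16853 u39 t u42
    have u45 := bt fun t => g6327 u32 u40 n0 u36 t
    have u46 := bf fun t => g12200 u41 u29 n0 u36 t
    have u47 := bt fun t => g6365 t u18 u42
    have u48 := bf fun t => g16893 u26 t u42
    have u49 := bt fun t => g16897 t u32 u42
    have u50 := bf fun t => g4775 u43 t n0 g16911
    have u51 := bt fun t => g16409 t u38 u44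
    have u52 := bf fun t => g206 u45 t
    have u53 := bf fun t => g6333 u32 u41 u29 t u46
    have u54 := bt fun t => g16904 t u34 u47
    have u55 := bt fun t => g16664 t u27 u47
    have u56 := bt fun t => g16569 t g16913 u48
    have u57 := bf fun t => g684 u13 g16906 t u50
    have u58 := bf fun t => s17557 t u40 u52 u36 u32 n0
    have u59 := bf fun t => s17579 t n2 u54 u33 u47 u49 u53 u46 u36 u32 n0 u9
    have u60 := bf fun t => g1164 u51 n6 u57 t
    have u61 := bf fun t => g5751 u49 n5 t u41 u58
    have u62 := bf fun t => g17061 t u59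
    have u63 := bf fun t => g17092 t u59
    have u64 := bt fun t => g6439 u47 u59 n2 t u36 g16910
    have u65 := bf fun t => g11724 n5 u61 u41 u59 t
    have u66 := bt fun t => g17071 u3 t u62
    have u67 := bt fun t => g17102 u1 t u63
    have u68 := bf fun t => g100 u64 t
    have u69 := bt fun t => g3561 u55 g16908 u64 t
    have u70 := bt fun t => g6095 u54 n0 u64 t
    have u71 := bf fun t => g5724 u49 u9 t u41 u65
    have u72 := bf fun t => s17554 t u67 u36 u35
    have u73 := bt fun t => g17051 t u60 u69
    have u74 := bf fun t => g202 u70 t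
    have u75 := bf fun t => g6087 u54 u71 t u68 u74
    have u76 := bf fun t => s17343 n2 u28 t u72
    have u77 := bf fun t => g17052 u66 u73 t
    have u78 := bf fun t => g17146 t u76 u72
    have u79 := bt fun t => s17551 t u77 u60 u64 u56 u54 u55 u75 u21 n0
    have u80 := bf fun t => g17166 n1 u78 t
    have u81 := bt fun t => g17149 t u55 u79
    exact g17153 u80 u64 u81
  have s17620 : v378 = false → T.X p f c d = false → T.X p d r b = true → T.X p b r d = false → T.X p d b c = true → T.X p c r a = true → T.alt p a c b d = true → False := fun n0 n1 n2 n3 n4 n5 n6 => by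
    have u0 := bt fun t => g16088 g16914 t n6
    have u1 := bf fun t => g16314 u0 w17600 t
    have u2 := bf fun t => g3834 n6 t
    have u3 := bt fun t => g16097 t g16912 u2
    have u4 := bt fun t => g16100 t w17303 n6
    have u5 := bf fun t => s17619 t n0 n1 n2 n3 n4 n5 n6
    have u6 := bf fun t => s17614 u5 t
    have u7 := bt fun t => g754 u6 w17307 t
    have u8 := bt fun t => g16227 u4 u6 t
    have u9 := bt fun t => g16147 u3 u6 t
    have u10 := bf fun t => g16278 u7 t g16913
    have u11 := bf fun t => g1660 u8 t
    have u12 := bf fun t => g1299 u9 t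
    have u13 := bt fun t => g16355 u0 u11 t
    have u14 := bf fun t => g16400 u12 u10 t
    exact s17618 u13 u14 n0 n1 u1
  have s17621 : T.X p b e f = false → T.X p c r b = true → T.X p d a b = true → False := fun n0 n1 n2 => by
    have u0 := bt fun t => s17609 t n2
    have u1 := bf fun t => g16686 u0 w17603 t
    have u2 := bf fun t => g3834 u0 t
    have u3 := bt fun t => g16097 t g16912 u2
    have u4 := bt fun t => g311 u3 w17296 w17297 t n1
    have u5 := bf fun t => g17 t n1
    have u6 := bt fun t => g16088 g16914 t u0
    have u7 := bf fun t => g16078 t u6 g16912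
    have u8 := bf fun t => s17593 t u7
    have u9 := bt fun t => g2183 g16912 u5 g16907 u8 t
    have u10 := bt fun t => g2192 g16912 n1 g16907 t
    have u11 := bf fun t => g137 u10 t
    have u12 := bf fun t => g8273 u5 t g16907 u8 u11
    have u13 := bf fun t => g16955 t n1 u10
    have u14 := bf fun t => s17313 t u7
    have u15 := bf fun t => g16976 t u14
    have u16 := bt fun t => g16982 g16985 t u15
    have u17 := bf fun t => g16093 w17306 t u2
    have u18 := bf fun t => g16075 t u17 w17303
    have u19 := bf fun t => s17312 t u18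
    have u20 := bf fun t => g16969 t u19
    have u21 := bt fun t => g16978 u16 t u20
    have u22 := bt fun t => g16960 u21 u13 t
    have u23 := bf fun t => s17615 t u5 n2
    have u24 := bt fun t => s17620 t u23 u22 u12 u9 u4 u0
    have u25 := bt fun t => s17349 t u24
    have u26 := bt fun t => g16625 w17304 u25 t
    have u27 := bt fun t => g16872 u1 t u26
    have u28 := bt fun t => s17371 u24 t
    have u29 := bf fun t => g40 t u28
    have u30 := bt fun t => g17169 g17171 u24 t
    have u31 := bt fun t => g17161 u30 t
    have u32 := bt fun t => g1106 u6 u4 g16907 t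
    have u33 := bf fun t => g16924 t u4 u32
    have u34 := bt fun t => s17595 t u7
    have u35 := bt fun t => g16934 t u18 u3
    have u36 := bt fun t => g16936 t u34 u35
    have u37 := bt fun t => g16100 t w17303 u0
    have u38 := bt fun t => g16941 t u7 u37
    have u39 := bt fun t => g16943 t n2 u38
    have u40 := bf fun t => g16950 g16954 t u39
    have u41 := bt fun t => g16949 u40 t u36
    have u42 := bt fun t => g16929 u41 u33 t
    have u43 := bf fun t => g16205 u7 t w17604
    have u44 := bf fun t => g51 t n2
    have u45 := bf fun t => g17223 t n0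
    have u46 := bt fun t => s17475 t n0
    have u47 := bf fun t => s17614 n0 t
    have u48 := bt fun t => g17230 g17233 t u45
    have u49 := bf fun t => g26 t u46
    have u50 := bf fun t => g27 t u46
    have u51 := bt fun t => g754 u47 w17307 t
    have u52 := bf fun t => g16300 u47 w17305 t
    have u53 := bt fun t => g16227 u37 u47 t
    have u54 := bt fun t => g16147 u3 u47 t
    have u55 := bf fun t => g3058 g16913 u49 u50 w17300 t
    have u56 := bt fun t => s17387 t u49 u50 u55 n0
    have u57 := bt fun t => g16245 u7 u51 t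
    have u58 := bt fun t => g16165 u18 u51 t
    have u59 := bt fun t => g16285 u43 u51 t
    have u60 := bf fun t => s17411 t u48 u51
    have u61 := bt fun t => s17377 u56 t u46 u51
    have u62 := bt fun t => g16795 w17603 u52 t
    have u63 := bf fun t => g1768 u53 u60 u28 t
    have u64 := bf fun t => g117 t u56
    have u65 := bf fun t => g7153 g16906 t u46 u56
    have u66 := bt fun t => g4284 u58 u34 u61 t
    have u67 := bf fun t => s17589 u34 t u9 u58 u57 u61 u0
    have u68 := bf fun t => g4808 u59 t u61
    have u69 := bf fun t => g4827 u59 t u61 g16911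
    have u70 := bf fun t => g4831 u59 u61 t g16911
    have u71 := bt fun t => g4646 u57 n2 u61 t
    have u72 := bf fun t => g1758 u53 u42 u65 u29 u63 t
    have u73 := bt fun t => g896 u51 w17296 t u46 u64
    have u74 := bf fun t => s17496 t u58 u54 u66 n0
    have u75 := bf fun t => g5846 u27 u8 u74 t u67
    have u76 := bf fun t => g4503 w17603 n2 u69 t
    have u77 := bf fun t => g178 u71 t
    have u78 := bf fun t => g179 u71 t
    have u79 := bt fun t => g7979 u42 u73 u29 t u72
    have u80 := bf fun t => g4636 u57 u44 t u75 u77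
    have u81 := bt fun t => g4634 u57 u68 u79 t u78
    have u82 := bt fun t => g5483 u62 u80 u70 u31 t
    have u83 := bt fun t => g6280 u26 u81 u31 t
    have u84 := bt fun t => g15606 u76 u71 g16911 u82 t
    exact g205 u83 u84
  have s17622 : T.alt p r f a b = true → T.X p c r b = true → T.X p d a b = true → False := fun n0 n1 n2 => by
    have u0 := bt fun t => s17609 t n2
    have u1 := bf fun t => g16686 u0 w17603 t
    have u2 := bt fun t => g16088 g16914 t u0
    have u3 := bf fun t => g16078 t u2 g16912
    have u4 := bf fun t => s17593 t u3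
    have u5 := bf fun t => g17 t n1
    have u6 := bt fun t => g2192 g16912 n1 g16907 t
    have u7 := bf fun t => g137 u6 t
    have u8 := bf fun t => g8273 u5 t g16907 u4 u7
    have u9 := bf fun t => g3834 u0 t
    have u10 := bt fun t => g16097 t g16912 u9
    have u11 := bt fun t => g311 u10 w17296 w17297 t n1
    have u12 := bt fun t => g2183 g16912 u5 g16907 u4 t
    have u13 := bf fun t => g16955 t n1 u6
    have u14 := bf fun t => s17313 t u3
    have u15 := bf fun t => g16976 t u14
    have u16 := bt fun t => g16982 g16985 t u15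
    have u17 := bf fun t => g16093 w17306 t u9
    have u18 := bf fun t => g16075 t u17 w17303
    have u19 := bf fun t => s17312 t u18
    have u20 := bf fun t => g16969 t u19
    have u21 := bt fun t => g16978 u16 t u20
    have u22 := bt fun t => g16960 u21 u13 t
    have u23 := bf fun t => s17615 t u5 n2
    have u24 := bt fun t => s17620 t u23 u22 u8 u12 u11 u0
    have u25 := bt fun t => s17371 u24 t
    have u26 := bt fun t => s17349 t u24
    have u27 := bf fun t => g3652 u26 t
    have u28 := bt fun t => g16601 t g16913 u27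
    have u29 := bt fun t => g16625 w17304 u26 t
    have u30 := bt fun t => g16872 u1 t u29
    have u31 := bf fun t => g16314 u2 w17600 t
    have u32 := bt fun t => g16632 u31 t u26
    have u33 := bf fun t => g3289 t u32
    have u34 := bf fun t => g16513 w17303 t u33
    have u35 := bt fun t => g16100 t w17303 u0
    have u36 := bf fun t => g16214 u35 t w17603
    have u37 := bf fun t => g16596 u36 w17305 t
    have u38 := bf fun t => g16660 u33 u37 t
    have u39 := bt fun t => s17621 t n1 n2
    have u40 := bt fun t => s17547 u25 u34 u38 u26 u32 u29 u30 u28 u39 t u8 u4 u1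
    have u41 := bt fun t => g17169 g17171 u24 t
    have u42 := bt fun t => g17161 u41 t
    have u43 := bt fun t => g6276 u29 u39 u42 t
    have u44 := bf fun t => g12251 t u40 u42 u43
    have u45 := bf fun t => g16205 u3 t w17604
    have u46 := bt fun t => g16245 u3 n0 t
    have u47 := bt fun t => g16285 u45 n0 t
    have u48 := bt fun t => g4649 u46 n2 u40 t
    have u49 := bf fun t => g4830 u47 t u39 g16911
    have u50 := bf fun t => s17423 t u48 u43
    exact g4514 w17603 n2 u49 u44 u50
  have s17623 : T.X p c r b = true → T.X p d a b = true → False := fun n0 n1 => by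
    have u0 := bt fun t => s17609 t n1
    have u1 := bt fun t => g16088 g16914 t u0
    have u2 := bf fun t => g16078 t u1 g16912
    have u3 := bf fun t => s17313 t u2
    have u4 := bf fun t => g16976 t u3
    have u5 := bt fun t => g16982 g16985 t u4
    have u6 := bf fun t => g3834 u0 t
    have u7 := bf fun t => g16093 w17306 t u6
    have u8 := bf fun t => g16075 t u7 w17303
    have u9 := bf fun t => s17312 t u8
    have u10 := bf fun t => g16969 t u9
    have u11 := bt fun t => g16978 u5 t u10
    have u12 := bf fun t => s17593 t u2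
    have u13 := bt fun t => g16100 t w17303 u0
    have u14 := bf fun t => g16214 u13 t w17603
    have u15 := bf fun t => g16596 u14 w17305 t
    have u16 := bt fun t => g16197 u2 w17600 t
    have u17 := bf fun t => g16314 u1 w17600 t
    have u18 := bt fun t => g16097 t g16912 u6
    have u19 := bf fun t => g16686 u0 w17603 t
    have u20 := bf fun t => g17 t n0
    have u21 := bt fun t => g2192 g16912 n0 g16907 t
    have u22 := bf fun t => g16955 t n0 u21
    have u23 := bf fun t => g137 u21 t
    have u24 := bt fun t => g311 u18 w17296 w17297 t n0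
    have u25 := bt fun t => g2183 g16912 u20 g16907 u12 t
    have u26 := bf fun t => g8273 u20 t g16907 u12 u23
    have u27 := bt fun t => g16960 u11 u22 t
    have u28 := bf fun t => s17615 t u20 n1
    have u29 := bt fun t => s17620 t u28 u27 u26 u25 u24 u0
    have u30 := bt fun t => g17169 g17171 u29 t
    have u31 := bt fun t => s17349 t u29
    have u32 := bt fun t => s17371 u29 t
    have u33 := bt fun t => g17161 u30 t
    have u34 := bf fun t => g3652 u31 t
    have u35 := bt fun t => g16625 w17304 u31 t
    have u36 := bt fun t => g16632 u17 t u31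
    have u37 := bf fun t => g16590 u16 t u31
    have u38 := bt fun t => g16601 t g16913 u34
    have u39 := bt fun t => g16872 u19 t u35
    have u40 := bf fun t => g3289 t u36
    have u41 := bf fun t => g16513 w17303 t u40
    have u42 := bf fun t => g16660 u40 u15 t
    have u43 := bt fun t => s17621 t n0 n1
    have u44 := bt fun t => s17547 u32 u41 u42 u31 u36 u35 u39 u38 u43 t u26 u12 u19
    have u45 := bt fun t => g6276 u35 u43 u33 t
    have u46 := bf fun t => g12251 t u44 u33 u45
    have u47 := bf fun t => s17622 t n0 n1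
    have u48 := bt fun t => g16280 u47 t g16913
    have u49 := bt fun t => g754 t w17307 u47
    have u50 := bt fun t => g16289 g16916 u48 t
    have u51 := bt fun t => g16259 u49 u37 t
    have u52 := bf fun t => g4775 u50 t u43 g16911
    have u53 := bt fun t => g4594 u51 n1 u44 t
    have u54 := bt fun t => g4514 w17603 n1 u52 u46 t
    exact s17423 u54 u53 u45
  have s17624 : T.X p d b c = true → T.X p b d f = true → T.X p b d e = true → T.X b d e f = true → T.X p b e f = true → T.alt p a c b d = true → False := fun n0 n1 n2 n3 n4 n5 => by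
    have u0 := bf fun t => g205 n3 t
    have u1 := bf fun t => g92 n4 t
    have u2 := bt fun t => g16088 g16914 t n5
    have u3 := bf fun t => g16078 t u2 g16912
    have u4 := bt fun t => g16197 u3 w17600 t
    have u5 := bf fun t => g16606 u4 g16913 t
    have u6 := bf fun t => g86 n2 t
    have u7 := bf fun t => g89 n1 t
    have u8 := bf fun t => g12251 n2 n1 t n3
    have u9 := bf fun t => g6285 t u6 u7 n4 u8 n3
    have u10 := bt fun t => g6184 u9 u5 t
    have u11 := bt fun t => g6330 u10 n1 u1 t u0
    have u12 := bt fun t => g16100 t w17303 n5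
    have u13 := bf fun t => g16214 u12 t w17603
    have u14 := bf fun t => g16596 u13 w17305 t
    have u15 := bf fun t => g16625 w17304 t u9
    have u16 := bt fun t => g3650 u15 u14 t
    have u17 := bf fun t => g206 n3 t
    have u18 := bf fun t => g6335 u10 n2 t u17
    have u19 := bt fun t => g3812 u16 t g16908 u8 u18
    have u20 := bf fun t => g9874 u19 g16908 u11 t
    have u21 := bf fun t => g38 u19 t
    have u22 := bf fun t => g9858 u21 t w17301 u11 u20
    have u23 := bf fun t => g37 u19 t
    have u24 := bf fun t => g9828 u23 t w17300 u11 u20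
    have u25 := bf fun t => g16314 u2 w17600 t
    have u26 := bf fun t => g16633 u25 t u15
    have u27 := bf fun t => g16605 u13 t u9
    have u28 := bf fun t => g16686 n5 w17603 t
    have u29 := bf fun t => g16873 u28 t u9
    have u30 := bf fun t => g88 n1 t
    have u31 := bf fun t => g85 n2 t
    have u32 := bf fun t => g91 n4 t
    have u33 := bf fun t => s17593 t u3
    have u34 := bf fun t => g78 t n0
    have u35 := bf fun t => s17468 t n2 u11 u34 u24 u8 n1 u33 u14 u25
    have u36 := bt fun t => g16561 t g16913 u35
    have u37 := bf fun t => g16576 w17308 u35 t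
    have u38 := bf fun t => g16648 u25 u35 t
    have u39 := bt fun t => g16640 t u35 u16
    have u40 := bf fun t => g16522 g16912 u36 t
    have u41 := bf fun t => s17613 u36 u27 t
    have u42 := bt fun t => g16880 t u37 u10
    have u43 := bf fun t => g16659 t u14 u38
    have u44 := bf fun t => s17343 u41 u39 t u24
    have u45 := bt fun t => g5993 u42 n0 n1 t
    have u46 := bt fun t => g5984 u42 u33 n1 t u41
    have u47 := bf fun t => g200 u45 t
    have u48 := bf fun t => g97 u46 t
    have u49 := bf fun t => s17457 t u46 u34 u42 n1 u33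
    have u50 := bf fun t => g11921 n0 t n1 u46
    have u51 := bt fun t => g5955 u42 u33 t u30 u41 u47
    have u52 := bf fun t => s17451 t u48 u41 u43 u35 u22 n2 u31 u16 u24 u8 u33
    have u53 := bt fun t => s17460 t u51 u41 u40 u37 n2 u31 u15 n4 u8 u33
    have u54 := bf fun t => g17143 u44 t u52
    have u55 := bf fun t => g6508 t u41 u53 u8 g16910
    have u56 := bt fun t => s17454 t u54 u46 u41 u34 u43 u38 u35 n2 u31 n3 u26 u16 u32 u8 u30 u33 u4
    have u57 := bt fun t => g6365 t u38 u55
    have u58 := bf fun t => g16893 u29 t u55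
    have u59 := bt fun t => g16897 t u10 u55
    have u60 := bf fun t => g35 u56 t
    have u61 := bt fun t => g2545 u36 t u56 u49 u50
    have u62 := bt fun t => g16904 t u9 u57
    have u63 := bt fun t => g16664 t u15 u57
    have u64 := bt fun t => g16569 t g16913 u58
    have u65 := bf fun t => g5751 u59 n0 t u31 u6
    have u66 := bf fun t => g2254 u64 u61 t u65
    exact s17551 u54 u60 u66 u53 u64 u62 u63 u49 u36 n4
  have s17625 : T.X p c e f = true → T.X p c r f = false → T.X p b c f = false → T.alt p r f b c = true → T.alt p c e d f = false → T.X p f c d = false → T.alt p r f d e = true → T.alt p b d c f = false → T.alt p b d e f = false → T.X p d e f = false → T.X p b e f = true → False := fun n0 n1 n2 n3 n4 n5 n6 n7 n8 n9 n10 => by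
    have u0 := bf fun t => g17068 t n5
    have u1 := bt fun t => g17075 g17078 t u0
    have u2 := bf fun t => g16625 w17304 t n8
    have u3 := bf fun t => g6508 t n5 n0 n9 g16910
    have u4 := bt fun t => g6365 t n4 u3
    have u5 := bf fun t => g16893 n7 t u3
    have u6 := bt fun t => g16657 t n6 u3
    have u7 := bt fun t => g16904 t n8 u4
    have u8 := bt fun t => g16664 t u2 u4
    have u9 := bf fun t => g6458 u4 t n0 g16910
    have u10 := bt fun t => g16569 t g16913 u5
    have u11 := bt fun t => g3561 u8 g16908 n0 t
    have u12 := bf fun t => g17061 t u9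
    have u13 := bf fun t => g3218 u6 g16907 t u9
    have u14 := bt fun t => g17051 t u13 u11
    have u15 := bt fun t => g17071 u1 t u12
    have u16 := bt fun t => s17551 n1 t u13 n0 u10 u7 u8 n2 n3 n10
    exact g17052 u15 u14 u16
  have s17626 : T.alt p c e d f = false → T.X p f c d = false → T.X p d b c = false → T.X p f r d = false → T.X p d r f = false → T.alt p b d e f = false → T.X p d e f = false → T.X p b d f = true → T.X p b d e = true → T.X b f d e = false → T.X p b e f = true → T.alt p a c b d = true → False := fun n0 n1 n2 n3 n4 n5 n6 n7 n8 n9 n10 n11 => by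
    have u0 := bt fun t => g16100 t w17303 n11
    have u1 := bf fun t => g16214 u0 t w17603
    have u2 := bf fun t => g16596 u1 w17305 t
    have u3 := bf fun t => g16625 w17304 t n5
    have u4 := bt fun t => g3650 u3 u2 t
    have u5 := bt fun t => g16088 g16914 t n11
    have u6 := bf fun t => g16078 t u5 g16912
    have u7 := bt fun t => g16197 u6 w17600 t
    have u8 := bf fun t => g16606 u7 g16913 t
    have u9 := bt fun t => g6184 n5 u8 t
    have u10 := bf fun t => g16686 n11 w17603 t
    have u11 := bf fun t => g16873 u10 t n5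
    have u12 := bf fun t => g89 n7 t
    have u13 := bf fun t => g88 n7 t
    have u14 := bf fun t => g85 n8 t
    have u15 := bf fun t => s17593 t u6
    have u16 := bf fun t => g16314 u5 w17600 t
    have u17 := bf fun t => g16649 u16 t n0
    have u18 := bf fun t => g16659 t u2 n0
    have u19 := bf fun t => g16889 u10 t n0
    have u20 := bf fun t => g16899 t u8 n0
    have u21 := bt fun t => g16561 t g16913 u17
    have u22 := bt fun t => g16640 t u17 u4
    have u23 := bt fun t => g16880 t u19 u9
    have u24 := bf fun t => s17343 n1 u22 t n4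
    have u25 := bt fun t => g5984 u23 u15 n7 t n1
    have u26 := bf fun t => g97 u25 t
    have u27 := bf fun t => s17563 u26 t n1 u23 u15
    have u28 := bf fun t => s17451 t u26 n1 u18 u17 n3 n8 u14 u4 n4 n6 u15
    have u29 := bf fun t => g17143 u24 t u28
    have u30 := bf fun t => s17625 t u29 u27 u21 n0 n1 u4 u11 n5 n6 n10
    have u31 := bf fun t => s17452 t u30 n1 u20 n8 u14 u3 n6 u15
    have u32 := bf fun t => s17460 u30 t n1 u20 u19 n8 u14 u3 n10 n6 u15
    have u33 := bf fun t => g16584 w17304 u31 t
    have u34 := bf fun t => g16664 u31 u3 t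
    have u35 := bt fun t => g5955 u23 u15 u32 u13 n1 t
    have u36 := bt fun t => g6003 u33 t u19
    have u37 := bt fun t => g6365 u34 n0 t
    have u38 := bt fun t => g16885 t u23 u34
    have u39 := bf fun t => g11888 t u32 u12 n1 u35
    have u40 := bt fun t => s17532 n2 u39 u35 u36 t u38 n8 n9 u30 n10 u15
    exact g6505 u37 u40 n1 n6 g16910
  have s17627 : T.X p f c d = false → T.X p d b c = false → T.X p f r d = false → T.X p d r f = false → T.alt p b d e f = false → T.X p d e f = false → T.X p b d f = true → T.X p b d e = true → T.X b f d e = false → T.X p b e f = true → T.alt p a c b d = true → False := fun n0 n1 n2 n3 n4 n5 n6 n7 n8 n9 n10 => by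
    have u0 := bt fun t => g16100 t w17303 n10
    have u1 := bf fun t => g16214 u0 t w17603
    have u2 := bf fun t => g16596 u1 w17305 t
    have u3 := bf fun t => g16625 w17304 t n4
    have u4 := bt fun t => g3650 u3 u2 t
    have u5 := bt fun t => g16088 g16914 t n10
    have u6 := bf fun t => g16078 t u5 g16912
    have u7 := bt fun t => g16197 u6 w17600 t
    have u8 := bf fun t => g16606 u7 g16913 t
    have u9 := bt fun t => g6184 n4 u8 t
    have u10 := bf fun t => g17161 t n5
    have u11 := bf fun t => g17169 g17171 t u10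
    have u12 := bf fun t => s17593 t u6
    have u13 := bf fun t => g16314 u5 w17600 t
    have u14 := bt fun t => s17626 t n0 n1 n2 n3 n4 n5 n6 n7 n8 n9 n10
    have u15 := bf fun t => g6368 u14 t
    have u16 := bt fun t => g16648 u13 t u14
    have u17 := bt fun t => g16660 t u2 u14
    have u18 := bt fun t => g16897 t u9 u15
    have u19 := bt fun t => g16657 t u4 u15
    exact s17576 n0 n3 u17 u16 u14 u18 u19 n5 u11 u9 n9 u12
  have s17628 : T.X p b d f = true → T.X p b d e = true → T.X b d e f = true → T.X p b e f = true → T.alt p a c b d = true → False := fun n0 n1 n2 n3 n4 => by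
    have u0 := bf fun t => g86 n1 t
    have u1 := bf fun t => g206 n2 t
    have u2 := bf fun t => g205 n2 t
    have u3 := bf fun t => g92 n3 t
    have u4 := bt fun t => g16088 g16914 t n4
    have u5 := bf fun t => g16078 t u4 g16912
    have u6 := bt fun t => g16197 u5 w17600 t
    have u7 := bf fun t => g16606 u6 g16913 t
    have u8 := bf fun t => s17593 t u5
    have u9 := bt fun t => g16100 t w17303 n4
    have u10 := bf fun t => g16214 u9 t w17603
    have u11 := bf fun t => g16596 u10 w17305 t
    have u12 := bf fun t => g16314 u4 w17600 t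
    have u13 := bf fun t => g89 n0 t
    have u14 := bf fun t => g12251 n1 n0 t n2
    have u15 := bf fun t => g6285 t u0 u13 n3 u14 n2
    have u16 := bf fun t => g16625 w17304 t u15
    have u17 := bf fun t => g16605 u10 t u15
    have u18 := bt fun t => g6184 u15 u7 t
    have u19 := bt fun t => g3650 u16 u11 t
    have u20 := bt fun t => g6330 u18 n0 u3 t u2
    have u21 := bf fun t => g6335 u18 n1 t u1
    have u22 := bt fun t => g3812 u19 t g16908 u14 u21
    have u23 := bf fun t => g37 u22 t
    have u24 := bf fun t => g38 u22 t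
    have u25 := bf fun t => g9874 u22 g16908 u20 t
    have u26 := bf fun t => g9828 u23 t w17300 u20 u25
    have u27 := bf fun t => g9858 u24 t w17301 u20 u25
    have u28 := bf fun t => s17624 t n0 n1 n2 n3 n4
    have u29 := bt fun t => s17627 t u28 u27 u26 u15 u14 n0 n1 u1 n3 n4
    have u30 := bf fun t => s17613 t u17 u29
    have u31 := bt fun t => g16561 u30 g16913 t
    have u32 := bt fun t => g16523 g16912 u30 t
    have u33 := bt fun t => s17468 u31 n1 u20 t u26 u14 n0 u8 u11 u12
    have u34 := bt fun t => g5895 u32 u8 u28 t u29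
    exact g5929 u32 u33 u34 u13
  have s17631 : T.X p b r d = true → T.X p d a b = true → False := fun n0 n1 => by
    have u0 := bf fun t => s17623 t n1
    have u1 := bt fun t => s17609 t n1
    have u2 := bt fun t => g16088 g16914 t u1
    have u3 := bf fun t => g16078 t u2 g16912
    have u4 := bf fun t => s17593 t u3
    have u5 := bf fun t => g21 n0 t
    have u6 := bf fun t => g8321 u0 n0 w17298 u4 t
    exact g2164 g16912 u5 g16907 u4 u6
  have s17632 : T.X p b d f = false → T.alt p b d e f = true → T.X p b e f = true → T.X p d a b = true → False := fun n0 n1 n2 n3 => by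
    have u0 := bt fun t => s17609 t n3
    have u1 := bt fun t => g16088 g16914 t u0
    have u2 := bf fun t => g16314 u1 w17600 t
    have u3 := bt fun t => g16624 w17304 t n1
    have u4 := bt fun t => g16632 u2 t u3
    have u5 := bf fun t => g3289 t u4
    have u6 := bf fun t => g3291 u4 t
    have u7 := bf fun t => g17066 t u6 u5
    have u8 := bf fun t => g17069 t u7
    have u9 := bt fun t => g17075 g17078 t u8
    have u10 := bf fun t => g6186 n1 t
    have u11 := bf fun t => g16617 w17309 t u10
    have u12 := bf fun t => g16641 u6 t u11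
    have u13 := bf fun t => g16611 t w17305 u10
    have u14 := bf fun t => g16686 u0 w17603 t
    have u15 := bt fun t => g16872 u14 t n1
    have u16 := bf fun t => g5825 u15 t
    have u17 := bf fun t => g16531 t u13 u16
    have u18 := bf fun t => g16078 t u1 g16912
    have u19 := bt fun t => g16197 u18 w17600 t
    have u20 := bf fun t => g16606 u19 g16913 t
    have u21 := bf fun t => g5823 t u15
    have u22 := bf fun t => g16900 u21 u20 t
    have u23 := bt fun t => g16523 g16912 t u21
    have u24 := bt fun t => g16100 t w17303 u0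
    have u25 := bf fun t => g16214 u24 t w17603
    have u26 := bt fun t => g16604 u25 t n1
    have u27 := bf fun t => s17631 t n3
    have u28 := bf fun t => s17593 t u18
    have u29 := bf fun t => s17547 t u17 u22 u3 u4 n1 u15 u26 n2 n0 u27 u28 u14
    have u30 := bf fun t => s17371 t u29
    have u31 := bt fun t => s17498 t u12 u4 u29
    have u32 := bf fun t => s17548 t u31 n1 u15 n2 n0 u28
    have u33 := bf fun t => s17535 t u31 u15 u28
    have u34 := bf fun t => s17415 u31 u22 t
    have u35 := bt fun t => g6365 u32 u22 t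
    have u36 := bt fun t => g16665 t u3 u32
    have u37 := bt fun t => g16905 t n1 u32
    have u38 := bt fun t => g16656 t u11 u35
    have u39 := bt fun t => s17550 t u35 u34 u31 n1 u15 n2 n0 u28
    have u40 := bt fun t => g16552 t u17 u36
    have u41 := bt fun t => g3561 u36 g16908 u39 t
    have u42 := bf fun t => g6536 u35 t u39 g16910
    have u43 := bf fun t => g17061 t u42
    have u44 := bf fun t => g3218 u38 g16907 t u42
    have u45 := bt fun t => g17071 u9 t u43
    have u46 := bt fun t => g17051 t u44 u41
    have u47 := bf fun t => g17052 u45 u46 t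
    have u48 := bt fun t => s17551 t u47 u44 u39 u40 u37 u36 u33 u23 n2
    have u49 := bt fun t => g3326 u4 g16907 u48 t
    have u50 := bt fun t => g17149 t u36 u48
    have u51 := bf fun t => g17141 t u48 u49
    have u52 := bt fun t => g17153 t u39 u50
    have u53 := bf fun t => g17146 t u51 u29
    exact g17166 u30 u53 u52
  have s17633 : T.X p d r f = false → T.X p b d f = true → T.alt p r f c e = false → T.alt p r d c f = true → T.alt p b d c f = true → T.alt p r f b d = true → T.X p d a b = true → False := fun n0 n1 n2 n3 n4 n5 n6 => by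
    have u0 := bf fun t => g89 n1 t
    have u1 := bf fun t => s17631 t n6
    have u2 := bt fun t => s17609 t n6
    have u3 := bt fun t => g16088 g16914 t u2
    have u4 := bf fun t => g16078 t u3 g16912
    have u5 := bf fun t => s17593 t u4
    have u6 := bf fun t => s17313 t u4
    have u7 := bf fun t => g16976 t u6
    have u8 := bt fun t => g16982 g16985 t u7
    have u9 := bf fun t => s17371 t n0
    have u10 := bt fun t => s17444 u1 u5 t n0 n2 n3 n4 n5 u9 u0
    exact s17441 u10 n0 n2 n3 n4 n5 u9 n1 u8
  have s17634 : T.X p d r b = false → T.X p r d e = true → T.X p b d e = false → T.X b d e f = true → T.X r d e f = true → T.X p r d f = false → T.X p b d f = true → T.alt p r f b d = true → T.alt p r d b e = true → False := fun n0 n1 n2 n3 n4 n5 n6 n7 n8 => by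
    have u0 := bt fun t => g2886 n7 n0 n5 n6 t
    have u1 := bt fun t => g2589 n8 n0 n1 n2 t
    exact g14801 u1 u0 n4 n3
  have s17635 : T.alt p r a b f = true → T.alt p b d e f = true → T.X p b e f = true → T.X p d a b = true → False := fun n0 n1 n2 n3 => by
    have u0 := bt fun t => s17632 t n1 n2 n3
    have u1 := bt fun t => s17609 t n3
    have u2 := bt fun t => g16088 g16914 t u1
    have u3 := bf fun t => g16078 t u2 g16912
    have u4 := bf fun t => s17313 t u3
    have u5 := bf fun t => g16976 t u4
    have u6 := bt fun t => g16982 g16985 t u5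
    have u7 := bf fun t => g16686 u1 w17603 t
    have u8 := bt fun t => g16872 u7 t n1
    have u9 := bf fun t => g16314 u2 w17600 t
    have u10 := bt fun t => g16624 w17304 t n1
    have u11 := bt fun t => g16632 u9 t u10
    have u12 := bt fun t => g16100 t w17303 u1
    have u13 := bf fun t => g16214 u12 t w17603
    have u14 := bt fun t => g16604 u13 t n1
    have u15 := bf fun t => g6186 n1 t
    have u16 := bf fun t => g16617 w17309 t u15
    have u17 := bf fun t => g3291 u11 t
    have u18 := bf fun t => g16641 u17 t u16
    have u19 := bt fun t => s17633 t u0 u18 u11 u8 u14 n3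
    have u20 := bt fun t => s17440 u19 u18 u11 u8 u14 t u0 u6
    have u21 := bt fun t => g6276 n1 n2 u20 t
    have u22 := bf fun t => g12251 t u0 u20 u21
    have u23 := bf fun t => g16611 t w17305 u15
    have u24 := bt fun t => g16299 n0 w17305 t
    have u25 := bt fun t => g16259 n0 u23 t
    have u26 := bf fun t => g4775 u24 t n2 g16911
    have u27 := bt fun t => g4594 u25 n3 u0 t
    have u28 := bt fun t => g4514 w17603 n3 u26 u22 t
    exact s17423 u28 u27 u21
  have s17636 : T.alt p b d e f = true → T.X p b e f = true → T.X p d a b = true → False := fun n0 n1 n2 => by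
    have u0 := bt fun t => s17609 t n2
    have u1 := bt fun t => g16088 g16914 t u0
    have u2 := bf fun t => g16078 t u1 g16912
    have u3 := bf fun t => s17313 t u2
    have u4 := bf fun t => g16976 t u3
    have u5 := bt fun t => g16982 g16985 t u4
    have u6 := bf fun t => g16205 u2 t w17604
    have u7 := bt fun t => g16100 t w17303 u0
    have u8 := bf fun t => g16214 u7 t w17603
    have u9 := bf fun t => g16314 u1 w17600 t
    have u10 := bf fun t => g16686 u0 w17603 t
    have u11 := bf fun t => g6186 n0 t
    have u12 := bt fun t => g16604 u8 t n0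
    have u13 := bt fun t => g16624 w17304 t n0
    have u14 := bt fun t => g16872 u10 t n0
    have u15 := bf fun t => g16617 w17309 t u11
    have u16 := bt fun t => g16632 u9 t u13
    have u17 := bf fun t => g3291 u16 t
    have u18 := bf fun t => g16641 u17 t u15
    have u19 := bt fun t => s17632 t n0 n1 n2
    have u20 := bt fun t => s17633 t u19 u18 u16 u14 u12 n2
    have u21 := bt fun t => s17440 u20 u18 u16 u14 u12 t u19 u5
    have u22 := bt fun t => g6276 n0 n1 u21 t
    have u23 := bf fun t => g12251 t u19 u21 u22
    have u24 := bf fun t => s17635 t n0 n1 n2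
    have u25 := bt fun t => g754 u24 w17307 t
    have u26 := bt fun t => g16245 u2 u25 t
    have u27 := bt fun t => g16285 u6 u25 t
    have u28 := bt fun t => g4649 u26 n2 u19 t
    have u29 := bf fun t => g4830 u27 t n1 g16911
    have u30 := bf fun t => s17423 t u28 u22
    exact g4514 w17603 n2 u29 u23 u30
  have s17637 : T.X p b d f = true → T.X p d e f = false → T.alt p b f d e = true → T.X p b e f = true → T.alt p a c b d = true → False := fun n0 n1 n2 n3 n4 => by
    have u0 := bf fun t => g92 n3 t
    have u1 := bf fun t => g91 n3 t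
    have u2 := bf fun t => g88 n0 t
    have u3 := bf fun t => g89 n0 t
    have u4 := bf fun t => g6343 n2 t u2 u3 u1
    have u5 := bt fun t => g6327 n2 u3 n3 n1 t
    have u6 := bf fun t => g205 u5 t
    have u7 := bf fun t => s17628 n0 t u5 n3 n4
    have u8 := bt fun t => g6330 n2 n0 u0 t u6
    exact g12270 u7 u4 n0 n3 u8 u5
  have s17638 : T.X p b e f = true → T.X p d a b = true → False := fun n0 n1 => by
    have u0 := bt fun t => s17609 t n1
    have u1 := bt fun t => g16088 g16914 t u0
    have u2 := bf fun t => g16078 t u1 g16912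
    have u3 := bt fun t => s17595 t u2
    have u4 := bf fun t => g48 t u3
    have u5 := bt fun t => g16197 u2 w17600 t
    have u6 := bf fun t => g16606 u5 g16913 t
    have u7 := bf fun t => s17593 t u2
    have u8 := bt fun t => g16100 t w17303 u0
    have u9 := bf fun t => g16214 u8 t w17603
    have u10 := bf fun t => g16596 u9 w17305 t
    have u11 := bf fun t => g16314 u1 w17600 t
    have u12 := bf fun t => g16686 u0 w17603 t
    have u13 := bf fun t => g3834 u0 t
    have u14 := bf fun t => s17636 t n0 n1
    have u15 := bf fun t => g16625 w17304 t u14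
    have u16 := bf fun t => g16873 u12 t u14
    have u17 := bf fun t => g16605 u9 t u14
    have u18 := bt fun t => g6184 u14 u6 t
    have u19 := bt fun t => g16803 w17603 t u14
    have u20 := bf fun t => s17349 u15 t
    have u21 := bf fun t => g16633 u11 t u15
    have u22 := bt fun t => g3650 u15 u10 t
    have u23 := bf fun t => s17410 u15 t u10
    have u24 := bf fun t => g4558 t u19
    have u25 := bf fun t => s17570 t u23 u18 n0
    have u26 := bt fun t => g16812 u24 t u18
    have u27 := bf fun t => g4775 u26 t n0 g16911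
    have u28 := bf fun t => g4503 w17603 n1 u27 t
    have u29 := bf fun t => g10537 n1 u27 t u25 u28
    have u30 := bf fun t => g4520 w17603 t u29 u25 u28
    have u31 := bf fun t => s17637 t u23 u18 n0 u0
    have u32 := bf fun t => s17574 t u23 u20 u18 u22 u16 n0 u31 u7 u12 u6 u11
    have u33 := bf fun t => g12200 u25 u31 n0 u23 t
    have u34 := bf fun t => g16653 u21 t u32
    have u35 := bf fun t => g16893 u16 t u32
    have u36 := bt fun t => g16897 t u18 u32
    have u37 := bt fun t => g16657 t u22 u32
    have u38 := bf fun t => g6333 u18 u25 u31 t u33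
    have u39 := bf fun t => g16635 t u34 u10
    have u40 := bt fun t => g16684 u13 t u36
    have u41 := bf fun t => s17577 t u36 u37 u23 u20 u18 u22 u21 n0 u31 u7 u10 u12 u6 u11
    have u42 := bf fun t => g17090 t u39 u11
    have u43 := bf fun t => g4141 u40 u3 u27 t
    have u44 := bf fun t => g16649 u11 t u41
    have u45 := bf fun t => g16889 u12 t u41
    have u46 := bt fun t => g6365 t u41 u32
    have u47 := bf fun t => g17093 t u42
    have u48 := bf fun t => g4161 u40 u4 u30 t u43
    have u49 := bt fun t => g16561 t g16913 u44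
    have u50 := bt fun t => g16640 t u44 u22
    have u51 := bt fun t => g3469 t u34 u44
    have u52 := bt fun t => g16880 t u45 u18
    have u53 := bt fun t => g6003 t u35 u45
    have u54 := bf fun t => s17613 u49 u17 t
    have u55 := bf fun t => s17579 t u54 u53 u52 u46 u36 u38 u33 u23 u18 n0 u7
    have u56 := bf fun t => g17099 t u54
    have u57 := bt fun t => g6439 u46 u55 u54 t u23 g16910
    have u58 := bt fun t => g17106 g17109 t u56
    have u59 := bt fun t => g6095 u53 n0 u57 t
    have u60 := bt fun t => g6108 u53 t u48 n0 u57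
    have u61 := bt fun t => g17102 u58 t u47
    have u62 := bf fun t => g12081 u60 t u57 u59
    have u63 := bf fun t => s17554 t u61 u23 u22
    have u64 := bt fun t => s17625 u57 t u62 u49 u41 u54 u22 u16 u14 u23 n0
    have u65 := bf fun t => s17343 u54 u50 t u63
    have u66 := bt fun t => g17149 t u51 u64
    have u67 := bf fun t => g17146 t u65 u63
    have u68 := bt fun t => g17153 t u57 u66
    exact g17166 u20 u67 u68
  have s17639 : T.X p d a b = true → False := fun n0 => by
    have u0 := bf fun t => g51 t n0
    have u1 := bt fun t => s17609 t n0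
    have u2 := bf fun t => g3834 u1 t
    have u3 := bt fun t => g16088 g16914 t u1
    have u4 := bt fun t => g16100 t w17303 u1
    have u5 := bf fun t => g16093 w17306 t u2
    have u6 := bt fun t => g16097 t g16912 u2
    have u7 := bf fun t => g16078 t u3 g16912
    have u8 := bf fun t => g16075 t u5 w17303
    have u9 := bf fun t => g16205 u7 t w17604
    have u10 := bt fun t => s17595 t u7
    have u11 := bf fun t => s17593 t u7
    have u12 := bf fun t => s17638 t n0
    have u13 := bt fun t => s17475 t u12
    have u14 := bf fun t => s17614 u12 t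
    have u15 := bf fun t => g26 t u13
    have u16 := bf fun t => g27 t u13
    have u17 := bt fun t => g754 u14 w17307 t
    have u18 := bf fun t => g16300 u14 w17305 t
    have u19 := bt fun t => g16227 u4 u14 t
    have u20 := bt fun t => g16147 u6 u14 t
    have u21 := bf fun t => g3058 g16913 u15 u16 w17300 t
    have u22 := bt fun t => s17387 t u15 u16 u21 u12
    have u23 := bf fun t => g16278 u17 t g16913
    have u24 := bt fun t => g16245 u7 u17 t
    have u25 := bt fun t => g16165 u8 u17 t
    have u26 := bt fun t => g16285 u9 u17 t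
    have u27 := bt fun t => g16795 w17603 u18 t
    have u28 := bf fun t => g1660 u19 t
    have u29 := bf fun t => g1299 u20 t
    have u30 := bt fun t => s17377 u22 t u13 u17
    have u31 := bf fun t => g4557 u24 t
    have u32 := bt fun t => g4284 u25 u10 u30 t
    have u33 := bf fun t => g4808 u26 t u30
    have u34 := bf fun t => g4827 u26 t u30 g16911
    have u35 := bf fun t => g4831 u26 u30 t g16911
    have u36 := bt fun t => g16355 u3 u28 t
    have u37 := bf fun t => g16400 u29 u23 t
    have u38 := bt fun t => g4646 u24 n0 u30 t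
    have u39 := bt fun t => g16727 u1 u31 t
    have u40 := bt fun t => g16803 w17603 u31 t
    have u41 := bf fun t => s17496 t u25 u20 u32 u12
    have u42 := bf fun t => s17484 u32 t u38
    have u43 := bf fun t => g4503 w17603 n0 u34 t
    have u44 := bf fun t => g178 u38 t
    have u45 := bf fun t => g179 u38 t
    have u46 := bf fun t => g5853 u39 u11 u41 t u42
    have u47 := bf fun t => g5846 u39 u11 u41 t u42
    have u48 := bf fun t => g4636 u24 u0 t u47 u44
    have u49 := bt fun t => s17581 u46 t u37 u36
    have u50 := bt fun t => g4665 u24 n0 u30 t u48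
    have u51 := bt fun t => g5483 u27 u48 u35 u49 t
    have u52 := bt fun t => g4634 u24 u33 u50 t u45
    have u53 := bt fun t => g15606 u43 u38 g16911 u51 t
    have u54 := bt fun t => g6280 u40 u52 u49 t
    exact g205 u54 u53
  have w17639 := bf s17639
  have s17688 := fun (n0 : T.X p d r a = false) (n1 : T.X p d r b = true) (n2 : T.alt p r a b d = true) => g492 n2 w17296 w17297 n0 n1
  have s17692 := fun (n0 : T.X p d r a = true) (n1 : T.alt p r a b d = true) => g503 n1 g16906 n0 w17639
  have s17747 := fun (n0 : T.alt p r a b f = false) (n1 : T.alt p r f a b = false) => g754 n0 w17307 n1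
  have s17961 := fun (n0 : T.X r b c d = false) (n1 : T.X p d r b = false) (n2 : T.X p b c d = false) => g2164 g16912 n1 g16907 n2 n0
  have s17967 := fun (n0 : T.X r d b c = false) (n1 : T.X p r b c = true) (n2 : T.X p b r d = true) => g2173 g16912 n1 n2 n0
  have s17975 := fun (n0 : T.X p d b c = false) (n1 : T.X p r b c = false) (n2 : T.X p b c d = false) => g2183 g16912 n1 g16907 n2 n0
  have s17986 := fun (n0 : T.alt p r d b f = false) (n1 : T.alt p r f b d = false) => g2745 w17311 n0 n1
  have s17994 := fun (n0 : T.X p e b f = true) (n1 : T.X p r b f = false) (n2 : T.X p b r f = false) => g3058 g16913 n1 n2 w17300 n0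
  have s18031 := fun (n0 : T.X p e r c = true) (n1 : T.X p e r d = false) (n2 : T.alt p r d c e = true) => g3148 n2 w17298 w17299 n0 n1
  have s18035 := fun (n0 : T.X p e r d = true) (n1 : T.X p e c d = false) (n2 : T.alt p r d c e = true) => g3159 n2 g16907 n0 n1
  have s18051 := fun (n0 : T.X p e r c = true) (n1 : T.X p e c d = false) (n2 : T.alt p r c d e = true) => g3218 n2 g16907 n0 n1
  have s18080 := fun (n0 : T.X r f c d = false) (n1 : T.X p c r f = true) (n2 : T.alt p r d c f = true) => g3326 n2 g16907 n1 n0
  have s18081 := fun (n0 : T.X p f r c = true) (n1 : T.X p f r d = false) (n2 : T.alt p r d c f = true) => g3329 n2 w17298 w17299 n0 n1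
  have s18140 := fun (n0 : T.X r c e f = true) (n1 : T.alt p r e c f = true) (n2 : T.X p c e f = true) (n3 : T.X p e r c = false) (n4 : T.X p f r c = false) => g3531 n1 n3 n4 g16908 n2 n0
  have s18147 := fun (n0 : T.X r c e f = false) (n1 : T.X p c e f = true) (n2 : T.alt p r c e f = true) => g3561 n2 g16908 n1 n0
  have s18178 := fun (n0 : T.X r f d e = false) (n1 : T.X p d r f = true) (n2 : T.X p f d e = false) (n3 : T.alt p r e d f = true) => g3670 n3 n1 w17300 n2 n0
  have s18186 := fun (n0 : T.X p e d f = false) (n1 : T.X p r d f = false) (n2 : T.X p d e f = false) (n3 : T.alt p r e d f = true) => g3694 n3 n1 g16908 n2 n0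
  have s18187 := fun (n0 : T.X p d r f = true) (n1 : T.X p e d f = true) (n2 : T.alt p r e d f = true) => g3700 n2 n0 w17300 n1
  have s18194 := fun (n0 : T.X p r d e = false) (n1 : T.X r f d e = false) (n2 : T.X p d r f = true) (n3 : T.alt p r d e f = true) => g3733 n3 n0 n2 w17300 n1
  have s18199 := fun (n0 : T.X r d e f = false) (n1 : T.X p d e f = true) (n2 : T.alt p r d e f = true) => g3742 n2 g16908 n1 n0
  have s18214 := fun (n0 : T.X r d e f = false) (n1 : T.X p f r d = false) (n2 : T.X p d e f = false) (n3 : T.alt p r f d e = true) => g3793 n3 n1 g16908 n2 n0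
  have s18230 := fun (n0 : T.X p a c d = false) (n1 : T.X p c a b = true) (n2 : T.alt p a c b d = true) => g3858 n2 n1 w17639 n0 g16909
  have s18339 := fun (n0 : T.X p c e f = false) (n1 : T.alt p c e d f = true) (n2 : T.X p f c d = false) (n3 : T.X p d e f = true) => g6388 n1 n2 n0 n3 g16910
  have s18342 := fun (n0 : T.X p e c d = true) (n1 : T.alt p c e d f = true) (n2 : T.X p d e f = true) => g6404 n1 n0 n2 g16910
  have s18343 := fun (n0 : T.X p c e f = true) (n1 : T.alt p c e d f = true) (n2 : T.X p f c d = true) => g6418 n1 n2 n0 g16910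
  have s18344 := fun (n0 : T.X p e c d = false) (n1 : T.X p c e f = false) (n2 : T.X p f c d = false) (n3 : T.X p d e f = false) (n4 : T.alt p c d e f = true) => g6439 n4 n0 n2 n1 n3 g16910
  have s18356 := fun (n0 : T.X p e c d = true) (n1 : T.X p c e f = true) (n2 : T.alt p c f d e = true) => g6536 n2 n0 n1 g16910
  have s18923 := fun (n0 : T.X p c r f = true) (n1 : T.X p f c d = true) (n2 : T.X p d r f = true) => g9532 g16907 n0 n2 n1
  have s18975 := fun (n0 : T.X r c e f = true) (n1 : T.X p e r c = false) (n2 : T.X p c r f = true) (n3 : T.X p c e f = false) => g9681 n1 n2 w17300 n3 n0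
  have s19014 := fun (n0 : T.X p r d e = false) (n1 : T.X r f d e = false) (n2 : T.X p d e f = false) (n3 : T.X p d r f = true) => g9803 n0 n3 g16908 n2 n1
  have s19036 := fun (n0 : T.X r f d e = true) (n1 : T.X p e r d = true) (n2 : T.X p f d e = false) (n3 : T.X p f r d = false) => g9854 n1 n3 w17300 n2 n0
  have s19070 := fun (n0 : T.X p a c d = true) (n1 : T.X p d b c = true) (n2 : T.X p a b c = false) => g9984 n2 w17639 n0 n1 g16909
  have s19168 := fun (n0 : T.X p d c e = true) (n1 : T.X p f c e = false) (n2 : T.X p f c d = true) (n3 : T.X p d e f = false) => g12351 n0 n2 n1 n3 g16910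
  have s19173 := fun (n0 : T.X p c d e = true) (n1 : T.X p c e f = false) (n2 : T.X p f c d = true) (n3 : T.X p f d e = false) => g12367 n0 n2 n1 n3 g16910
  have s19382 := fun (n0 : T.X b d c e = false) (n1 : T.X b f c d = true) (n2 : T.X b f c e = false) (n3 : T.X b d e f = true) => g15918 n0 n1 n2 n3 g16910
  have s19386 := fun (n0 : T.X b e c d = true) (n1 : T.X b c e f = true) (n2 : T.X b c d f = false) (n3 : T.X b e d f = false) => g15924 n0 n2 n1 n3 g16910
  have s19434 := fun (n0 : T.alt p r d a b = true) (n1 : T.alt p r d b e = true) => g16194 n0 w17600 n1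
  have s19446 := fun (n0 : T.alt p a f b d = true) (n1 : T.alt p r d a f = false) => g16252 w17307 n1 n0
  have s19447 := fun (n0 : T.alt p a f b d = false) (n1 : T.alt p r d a f = true) => g16253 w17307 n1 n0
  have s19461 := fun (n0 : T.alt p r a b f = false) (n1 : T.alt p a e b f = true) => g16300 n0 w17305 n1
  have s19478 := fun (n0 : T.alt p r d a f = true) (n1 : T.alt p r d e f = true) => g16430 w17600 n0 n1
  have s19479 := fun (n0 : T.alt p r d e f = false) (n1 : T.alt p r d a f = false) => g16431 w17600 n1 n0
  have s19483 := fun (n0 : T.alt p a d e f = false) (n1 : T.alt p r f a d = true) => g16445 w17602 n1 n0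
  have s19487 := fun (n0 : T.alt p a f d e = false) (n1 : T.alt p r f d e = true) => g16457 w17601 n1 n0
  have s19505 := fun (n0 : T.alt p r d c f = false) (n1 : T.alt p r d b f = false) => g16515 g16912 n1 n0
  have s19507 := fun (n0 : T.alt p b c d f = false) (n1 : T.alt p r f b c = false) => g16523 g16912 n1 n0
  have s19508 := fun (n0 : T.alt p b d c f = true) (n1 : T.alt p r f b d = false) => g16528 w17303 n1 n0
  have s19509 := fun (n0 : T.alt p b d c f = false) (n1 : T.alt p r f b d = true) => g16529 w17303 n1 n0
  have s19513 := fun (n0 : T.alt p b d c f = false) (n1 : T.alt p r d c f = true) => g16541 w17310 n1 n0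
  have s19519 := fun (n0 : T.alt p r f b c = false) (n1 : T.alt p r f c e = false) => g16561 n0 g16913 n1
  have s19532 := fun (n0 : T.alt p r f b d = true) (n1 : T.alt p r f d e = true) => g16598 n0 g16913 n1
  have s19533 := fun (n0 : T.alt p r f b d = false) (n1 : T.alt p r f d e = false) => g16601 n0 g16913 n1
  have s19535 := fun (n0 : T.alt p r d b e = false) (n1 : T.alt p b e d f = false) => g16609 n0 g16913 n1
  have s19537 := fun (n0 : T.alt p r d b f = false) (n1 : T.alt p b f d e = true) => g16612 n0 w17305 n1
  have s19539 := fun (n0 : T.alt p b f d e = false) (n1 : T.alt p r f d e = true) => g16617 w17309 n1 n0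
  have s19540 := fun (n0 : T.alt p b e d f = true) (n1 : T.alt p r e d f = false) => g16620 w17311 n1 n0
  have s19542 := fun (n0 : T.alt p b d e f = true) (n1 : T.alt p r d e f = false) => g16624 w17304 n1 n0
  have s19543 := fun (n0 : T.alt p b d e f = false) (n1 : T.alt p r d e f = true) => g16625 w17304 n1 n0
  have s19559 := fun (n0 : T.alt p a d e f = false) (n1 : T.alt p a d b f = true) => g16793 w17605 n1 n0
  have s19561 := fun (n0 : T.alt p a e d f = false) (n1 : T.alt p a e b f = false) => g16795 w17603 n1 n0
  have s19562 := fun (n0 : T.alt p a f b d = true) (n1 : T.alt p b d e f = true) => g16802 w17603 n0 n1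
  have s19563 := fun (n0 : T.alt p b d e f = false) (n1 : T.alt p a f b d = false) => g16803 w17603 n1 n0
  have s19566 := fun (n0 : T.alt p a f d e = false) (n1 : T.alt p b f d e = true) => g16816 w17604 n0 n1
  have s19577 := fun (n0 : v354 = false) (n1 : v353 = false) => g17075 g17078 n0 n1
  have s19579 := fun (n0 : v362 = false) (n1 : v361 = false) => g17106 g17109 n0 n1
  have s19583 := fun (n0 : v378 = false) (n1 : v377 = true) => g17170 g17171 n0 n1
  have s19606 : T.alt p b d e f = true → T.X p b e f = false → False := fun n0 n1 => by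
    have u0 := bf fun t => s17614 n1 t
    have u1 := bf fun t => s19461 u0 t
    have u2 := bt fun t => s19561 t u1
    have u3 := bf fun t => g5463 u2 t
    have u4 := bf fun t => s19487 u3 t
    have u5 := bf fun t => g5461 t u2
    have u6 := bf fun t => s19559 u5 t
    have u7 := bf fun t => g16261 u0 t u6
    have u8 := bt fun t => s19505 t u7
    have u9 := bf fun t => g3291 u8 t
    have u10 := bf fun t => g16641 u9 t u4
    have u11 := bt fun t => s17747 u0 t
    have u12 := bf fun t => s19483 u5 t
    have u13 := bt fun t => g16239 u11 u12 t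
    have u14 := bt fun t => s19509 t u13
    have u15 := bf fun t => g5823 t u14
    have u16 := bt fun t => s17475 t n1
    have u17 := bf fun t => g26 t u16
    have u18 := bf fun t => g27 t u16
    have u19 := bf fun t => s17994 t u17 u18
    have u20 := bt fun t => s17387 t u17 u18 u19 n1
    have u21 := bt fun t => s17377 u20 t u16 u11
    have u22 := bf fun t => g6185 n0 t
    have u23 := bf fun t => s19562 t n0
    have u24 := bt fun t => s19535 t u22
    have u25 := bt fun t => g16821 t u2 u22
    have u26 := bt fun t => g16257 t u13 u23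
    have u27 := bt fun t => g16728 t u23 u14
    have u28 := bf fun t => s19434 t u24
    have u29 := bt fun t => g16743 u25 t u15
    have u30 := bf fun t => s17692 t u26
    have u31 := bf fun t => g3832 t u27
    have u32 := bf fun t => s17593 t u28
    have u33 := bt fun t => s17595 t u28
    have u34 := bf fun t => g5099 u29 t
    have u35 := bf fun t => s17688 u30 t u26
    have u36 := bt fun t => g16708 u31 t u25
    have u37 := bf fun t => g47 t u33
    have u38 := bt fun t => s18230 t u33 u27
    have u39 := bt fun t => g16381 t u8 u34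
    have u40 := bf fun t => g2911 u13 u35 u16 t
    have u41 := bt fun t => g4284 u36 u33 u21 t
    have u42 := bf fun t => s19070 u38 t u37
    have u43 := bt fun t => s17498 t u10 u8 u40
    have u44 := bf fun t => s17496 t u36 u39 u41 n1
    have u45 := bf fun t => g98 t u43
    have u46 := bf fun t => s17535 t u43 u14 u32
    have u47 := bf fun t => s17587 t u32 u43 u14
    have u48 := bt fun t => g10375 u33 u21 u46 u44 t u41
    exact g5844 u14 u42 u48 u45 u47
  have s19607 : T.X p d r f = false → T.X p b e f = false → False := fun n0 n1 => by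
    have u0 := bf fun t => s17614 n1 t
    have u1 := bf fun t => s19461 u0 t
    have u2 := bt fun t => s19561 t u1
    have u3 := bf fun t => g5461 t u2
    have u4 := bf fun t => s19559 u3 t
    have u5 := bf fun t => g16261 u0 t u4
    have u6 := bf fun t => s19606 t n1
    have u7 := bf fun t => s19543 u6 t
    have u8 := bt fun t => s19479 u7 t
    have u9 := bt fun t => g16237 t u8 u5
    have u10 := bf fun t => s17446 t u9
    have u11 := bt fun t => s19563 u6 t
    have u12 := bf fun t => g5463 u2 t
    have u13 := bf fun t => s19487 u12 t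
    have u14 := bt fun t => s19505 t u5
    have u15 := bf fun t => g3291 u14 t
    have u16 := bf fun t => g16641 u15 t u13
    have u17 := bt fun t => s17747 u0 t
    have u18 := bf fun t => s19483 u3 t
    have u19 := bt fun t => g16239 u17 u18 t
    have u20 := bt fun t => s19509 t u19
    have u21 := bf fun t => g5823 t u20
    have u22 := bt fun t => s19507 u21 t
    have u23 := bt fun t => s17475 t n1
    have u24 := bf fun t => g27 t u23
    have u25 := bf fun t => g26 t u23
    have u26 := bt fun t => s17498 t u16 u14 n0
    have u27 := bf fun t => s17499 t u8 u14 u19 n0 n1 u9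
    have u28 := bf fun t => g98 t u26
    have u29 := bf fun t => s17535 t u26 u20 u10
    have u30 := bf fun t => g2515 u22 u25 u24 u27 t
    have u31 := bt fun t => g5853 u20 u10 u30 u26 t
    have u32 := bf fun t => s17506 t u29 u31 u30 u28 u11 u20 u4 n1 u9
    have u33 := bf fun t => s17501 t u32 u9
    exact s17505 u32 u33 u29 u30 u26 u11 u20 u4 n1 u9
  have s19608 : T.X p b e f = false → False := fun n0 => by
    have u0 := bt fun t => s17475 t n0
    have u1 := bf fun t => s17614 n0 t
    have u2 := bf fun t => g26 t u0
    have u3 := bf fun t => g27 t u0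
    have u4 := bt fun t => s17747 u1 t
    have u5 := bf fun t => s19461 u1 t
    have u6 := bt fun t => s19561 t u5
    have u7 := bf fun t => g5461 t u6
    have u8 := bf fun t => g5463 u6 t
    have u9 := bf fun t => s19483 u7 t
    have u10 := bf fun t => s19559 u7 t
    have u11 := bf fun t => s19487 u8 t
    have u12 := bf fun t => s19566 u8 t
    have u13 := bt fun t => g16239 u4 u9 t
    have u14 := bf fun t => g16261 u1 t u10
    have u15 := bt fun t => s19509 t u13
    have u16 := bt fun t => s19505 t u14
    have u17 := bf fun t => g5823 t u15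
    have u18 := bf fun t => g5825 u15 t
    have u19 := bf fun t => g3289 t u16
    have u20 := bf fun t => g3291 u16 t
    have u21 := bt fun t => s19507 u17 t
    have u22 := bf fun t => g16881 u18 t u12
    have u23 := bf fun t => g17066 t u20 u19
    have u24 := bf fun t => g17069 t u23
    have u25 := bt fun t => s19577 t u24
    have u26 := bf fun t => s19606 t n0
    have u27 := bf fun t => s19543 u26 t
    have u28 := bt fun t => s19563 u26 t
    have u29 := bt fun t => g16873 t u15 u26
    have u30 := bt fun t => s19479 u27 t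
    have u31 := bt fun t => g16633 t u16 u27
    have u32 := bt fun t => g3650 u27 t u11
    have u33 := bt fun t => g16887 u29 u22 t
    have u34 := bt fun t => g16237 t u30 u14
    have u35 := bf fun t => g3108 t u31
    have u36 := bf fun t => g3110 u31 t
    have u37 := bt fun t => g16636 u36 t u32
    have u38 := bf fun t => s17446 t u34
    have u39 := bf fun t => g17059 t u36 u35
    have u40 := bf fun t => g17062 t u39
    have u41 := bt fun t => g17071 u25 t u40
    have u42 := bt fun t => s19607 t n0
    have u43 := bf fun t => g40 t u42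
    have u44 := bf fun t => g42 u42 t
    have u45 := bf fun t => s18187 u42 t u32
    have u46 := bf fun t => s18081 t u44 u16
    have u47 := bt fun t => s18186 u45 u43 t u32
    have u48 := bt fun t => g17053 u41 t u46
    have u49 := bf fun t => s18342 t u33 u47
    have u50 := bf fun t => s18035 t u49 u31
    have u51 := bf fun t => s18031 t u50 u31
    have u52 := bt fun t => g17049 u48 u51 t
    have u53 := bf fun t => s18140 u52 u37 t u51 u46
    have u54 := bt fun t => s18339 u53 u33 t u47
    have u55 := bf fun t => g6414 u33 t u53 u47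
    have u56 := bf fun t => s18975 u52 u51 t u53
    have u57 := bf fun t => s17535 t u54 u15 u38
    have u58 := bt fun t => s17508 u54 u28 t u42 n0 u34
    have u59 := bf fun t => g2515 u21 u2 u3 u56 t
    have u60 := bf fun t => s17506 u58 u57 t u59 u55 u28 u15 u10 n0 u34
    exact g5853 u15 u38 u59 u54 u60
  have w19608 := bt s19608
  have s19609 := fun (n0 : T.X p e b f = true) => g91 w19608 n0
  have w19609 := bf s19609
  have s19613 : T.alt p a f b d = true → T.X p b c f = false → T.X p f c d = true → T.alt p r f b d = true → T.X p d r f = true → False := fun n0 n1 n2 n3 n4 => by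
    have u0 := bf fun t => g99 t n2
    have u1 := bf fun t => g98 t n2
    have u2 := bf fun t => g2748 t n3
    have u3 := bf fun t => s19537 u2 t
    have u4 := bt fun t => s19509 t n3
    have u5 := bf fun t => g5825 u4 t
    have u6 := bf fun t => g16881 u5 t u3
    have u7 := bf fun t => s19532 n3 t
    have u8 := bt fun t => s19446 n0 t
    have u9 := bf fun t => s19562 n0 t
    have u10 := bf fun t => s19478 u8 t
    have u11 := bt fun t => g16873 t u4 u9
    have u12 := bt fun t => g6184 u9 t u3
    have u13 := bt fun t => g3650 u10 t u7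
    have u14 := bf fun t => g5644 u11 t
    have u15 := bt fun t => g16887 u11 u6 t
    have u16 := bf fun t => s18187 n4 t u13
    have u17 := bt fun t => g16876 u14 t u12
    have u18 := bf fun t => s18343 t u15 n2
    have u19 := bf fun t => g6412 u15 u1 u0 t u16
    exact g6047 u17 n1 w19608 u18 u19
  have s19614 : T.X p f c d = true → T.X p b c d = false → T.alt p r f b d = true → T.X p d r f = true → False := fun n0 n1 n2 n3 => by
    have u0 := bf fun t => g2748 t n2
    have u1 := bt fun t => s19509 t n2
    have u2 := bf fun t => g5825 u1 t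
    have u3 := bf fun t => g16531 t u0 u2
    have u4 := bf fun t => g5823 t u1
    have u5 := bt fun t => s19507 u4 t
    have u6 := bf fun t => g42 n3 t
    have u7 := bt fun t => s19505 t u0
    have u8 := bf fun t => s18081 t u6 u7
    have u9 := bf fun t => s19532 n2 t
    have u10 := bf fun t => g98 t n0
    have u11 := bf fun t => g99 t n0
    have u12 := bf fun t => s17350 n0 t
    have u13 := bf fun t => s17535 t n0 u1 n1
    have u14 := bf fun t => s18923 t n0 n3
    have u15 := bf fun t => s19583 u12 t
    have u16 := bf fun t => g5866 u1 u13 t u10 u11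
    have u17 := bf fun t => s19613 t u13 n0 n2 n3
    have u18 := bf fun t => s19447 u17 t
    have u19 := bt fun t => s19563 t u17
    have u20 := bt fun t => s19479 t u18
    have u21 := bf fun t => g6185 u19 t
    have u22 := bf fun t => s17548 t n0 u19 u1 w19608 u16 n1
    have u23 := bt fun t => g17156 t u20 n3
    have u24 := bf fun t => g16900 u4 u21 t
    have u25 := bt fun t => g6365 u22 u24 t
    have u26 := bt fun t => g16665 t u20 u22
    have u27 := bt fun t => g16905 t u19 u22
    have u28 := bf fun t => g17160 u15 t u23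
    have u29 := bt fun t => g16656 t u9 u25
    have u30 := bt fun t => s17550 t u25 u28 n0 u19 u1 w19608 u16 n1
    have u31 := bt fun t => g16552 t u3 u26
    have u32 := bt fun t => s17551 u14 u8 t u30 u31 u27 u26 u13 u5 w19608
    have u33 := bf fun t => s18356 t u30 u25
    exact s18051 u32 u33 u29
  have s19615 : T.alt p a f b d = false → T.X p b c d = false → T.alt p r f b d = true → T.X p d r f = true → False := fun n0 n1 n2 n3 => by
    have u0 := bf fun t => g2748 t n2
    have u1 := bt fun t => s19505 t u0
    have u2 := bf fun t => s19532 n2 t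
    have u3 := bf fun t => g3291 u1 t
    have u4 := bf fun t => g16641 u3 t u2
    have u5 := bf fun t => s19614 t n1 n2 n3
    have u6 := bt fun t => s17581 u5 t u4 u1
    have u7 := bt fun t => s19509 t n2
    have u8 := bf fun t => g5825 u7 t
    have u9 := bf fun t => g16531 t u0 u8
    have u10 := bf fun t => g5823 t u7
    have u11 := bf fun t => g40 t n3
    have u12 := bf fun t => s19447 n0 t
    have u13 := bt fun t => s19563 t n0
    have u14 := bt fun t => g16257 t n2 n0
    have u15 := bt fun t => g16728 t n0 u7
    have u16 := bt fun t => s19479 t u12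
    have u17 := bf fun t => g16235 t u12 u0
    have u18 := bf fun t => g6185 u13 t
    have u19 := bf fun t => g16870 t u7 u13
    have u20 := bt fun t => g6276 u13 w19608 u6 t
    have u21 := bf fun t => s17692 t u14
    have u22 := bt fun t => g16592 t u0 u16
    have u23 := bt fun t => s18199 t u6 u16
    have u24 := bt fun t => s17595 t u17
    have u25 := bf fun t => g16900 u10 u18 t
    have u26 := bf fun t => s17688 u21 t u14
    have u27 := bf fun t => g164 u23 t
    have u28 := bf fun t => g47 t u24
    have u29 := bt fun t => s18230 t u24 u15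
    have u30 := bt fun t => s17961 t u26 n1
    have u31 := bt fun t => s18194 t u27 n3 u16
    have u32 := bf fun t => s19070 u29 t u28
    have u33 := bf fun t => g137 u30 t
    have u34 := bt fun t => s17975 u32 t n1
    have u35 := bf fun t => s17967 u33 u34 t
    have u36 := bt fun t => s17547 n3 u9 u25 u16 u1 u13 u7 n2 w19608 t u35 n1 u19
    have u37 := bf fun t => g12251 t u36 u6 u20
    exact s17634 u26 u31 u37 u20 u23 u11 u36 n2 u22
  have s19616 : T.X p b c d = false → T.alt p r f b d = true → T.X p d r f = true → False := fun n0 n1 n2 => by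
    have u0 := bf fun t => s19532 n1 t
    have u1 := bf fun t => g2748 t n1
    have u2 := bt fun t => s19505 t u1
    have u3 := bf fun t => g3291 u2 t
    have u4 := bf fun t => g16641 u3 t u0
    have u5 := bf fun t => s19537 u1 t
    have u6 := bt fun t => s19509 t n1
    have u7 := bf fun t => g5825 u6 t
    have u8 := bf fun t => g16881 u7 t u5
    have u9 := bf fun t => g42 n2 t
    have u10 := bf fun t => s19614 t n0 n1 n2
    have u11 := bf fun t => g17099 t u10
    have u12 := bt fun t => s17581 u10 t u4 u2
    have u13 := bt fun t => s19579 t u11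
    have u14 := bf fun t => g104 u12 t
    have u15 := bt fun t => s19615 t n0 n1 n2
    have u16 := bt fun t => s19446 u15 t
    have u17 := bf fun t => s19562 u15 t
    have u18 := bf fun t => s19478 u16 t
    have u19 := bt fun t => g16873 t u6 u17
    have u20 := bt fun t => g3650 u18 t u0
    have u21 := bt fun t => g16887 u19 u8 t
    have u22 := bt fun t => s18178 t n2 u14 u20
    have u23 := bf fun t => s18342 t u21 u12
    have u24 := bf fun t => g164 t u22
    have u25 := bf fun t => s19036 u22 t u14 u9
    have u26 := bf fun t => g17092 t u23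
    have u27 := bf fun t => g17080 t u25 u24
    have u28 := bt fun t => g17102 u13 t u26
    exact g17084 u28 u27 u9
  have s19617 : T.X p b c d = true → False := fun n0 => by
    have u0 := bf fun t => s17446 n0 t
    exact s17593 n0 u0
  have w19617 := bf s19617
  have s19620 : T.X p d r f = true → False := fun n0 => by
    have u0 := bf fun t => g42 n0 t
    have u1 := bf fun t => s19616 w19617 t n0
    have u2 := bt fun t => s19533 u1 t
    have u3 := bf fun t => g3652 t u2
    have u4 := bf fun t => g3653 t u2
    have u5 := bf fun t => s17410 u3 t u4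
    have u6 := bt fun t => s18214 t u0 u5 u2
    have u7 := bf fun t => g164 u6 t
    have u8 := bt fun t => s19014 t u7 u5 n0
    exact g3802 u2 u8 n0 u7
  have w19620 := bf s19620
  have s19621 := fun (n0 : v378 = true) => s17371 n0 w19620
  have w19621 := bf s19621
  have s19623 : T.alt p r f b d = false → False := fun n0 => by
    have u0 := bt fun t => s19533 n0 t
    have u1 := bf fun t => s19508 t n0
    have u2 := bt fun t => s17986 t n0
    have u3 := bf fun t => g3652 t u0
    have u4 := bf fun t => g3653 t u0
    have u5 := bt fun t => s19539 t u0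
    have u6 := bf fun t => s19513 u1 t
    have u7 := bf fun t => s19542 t u3
    have u8 := bt fun t => s19479 u3 t
    have u9 := bf fun t => s19540 t u4
    have u10 := bf fun t => s17410 u3 t u4
    have u11 := bf fun t => g16631 t u6 u3
    have u12 := bt fun t => s19563 u7 t
    have u13 := bf fun t => g16871 t u1 u7
    have u14 := bf fun t => g16234 t u8 u2
    have u15 := bf fun t => s17570 t u10 u5 w19608
    have u16 := bt fun t => g16729 t u12 u1
    have u17 := bt fun t => s17595 t u14
    have u18 := bf fun t => s17637 t u10 u5 w19608 u16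
    have u19 := bf fun t => g47 t u17
    have u20 := bt fun t => s18230 t u17 u16
    have u21 := bf fun t => s17574 t u10 w19621 u5 u0 u1 w19608 u18 w19617 u13 u9 u11
    have u22 := bf fun t => g12200 u15 u18 w19608 u10 t
    have u23 := bf fun t => s19070 u20 t u19
    have u24 := bf fun t => g16653 u6 t u21
    have u25 := bf fun t => g16893 u1 t u21
    have u26 := bt fun t => g16897 t u5 u21
    have u27 := bt fun t => g16657 t u0 u21
    have u28 := bf fun t => g6333 u5 u15 u18 t u22
    have u29 := bf fun t => s17577 t u26 u27 u10 w19621 u5 u0 u6 w19608 u18 w19617 u4 u13 u9 u11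
    have u30 := bf fun t => g16649 u11 t u29
    have u31 := bf fun t => g16889 u13 t u29
    have u32 := bt fun t => g6365 t u29 u21
    have u33 := bt fun t => s19519 t u30
    have u34 := bt fun t => g16640 t u30 u0
    have u35 := bt fun t => g3469 t u24 u30
    have u36 := bt fun t => g16880 t u31 u5
    have u37 := bt fun t => g6003 t u25 u31
    have u38 := bf fun t => s17613 u33 n0 t
    have u39 := bf fun t => s17343 u38 u34 t w19620
    have u40 := bf fun t => s17579 t u38 u37 u36 u32 u26 u28 u22 u10 u5 w19608 w19617
    have u41 := bf fun t => g17146 t u39 w19620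
    have u42 := bt fun t => s18344 u40 t u38 u10 u32
    have u43 := bf fun t => g17166 w19621 u41 t
    have u44 := bf fun t => g100 u42 t
    have u45 := bt fun t => g6095 u37 w19608 u42 t
    have u46 := bf fun t => g17153 u43 u42 t
    have u47 := bf fun t => g202 u45 t
    have u48 := bf fun t => g17149 u46 u35 t
    have u49 := bt fun t => s17625 u42 u48 t u33 u29 u38 u0 u1 u7 u10 w19608
    have u50 := bf fun t => g83 u49 t
    have u51 := bt fun t => s17563 t u49 u38 u36 w19617
    have u52 := bt fun t => g6087 u37 t u49 u44 u47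
    have u53 := bf fun t => g97 t u51
    have u54 := bt fun t => g5724 u26 w19617 u52 u15 t
    have u55 := bf fun t => g5966 u36 u23 u50 u18 u53 t
    exact s19386 u54 u45 u55 u22
  have w19623 := bt s19623
  have s19624 := fun (n0 : T.alt p r d b f = true) => g2748 n0 w19623
  have w19624 := bf s19624
  have s19625 := fun (n0 : T.alt p r f d e = true) => s19532 w19623 n0
  have w19625 := bf s19625
  have s19626 := fun (n0 : T.alt p b d c f = false) => s19509 n0 w19623
  have w19626 := bt s19626
  have s19627 := fun (n0 : T.alt p b f d e = true) => s19537 w19624 n0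
  have w19627 := bf s19627
  have s19628 := fun (n0 : T.alt p r d c f = false) => s19505 n0 w19624
  have w19628 := bt s19628
  have s19630 := fun (n0 : T.alt p b c d f = true) => g5823 n0 w19626
  have w19630 := bf s19630
  have s19631 := fun (n0 : T.alt p b f c d = true) => g5825 w19626 n0
  have w19631 := bf s19631
  have s19632 := fun (n0 : T.alt p r c d f = true) => g3289 n0 w19628
  have w19632 := bf s19632
  have s19633 := fun (n0 : T.alt p r f c d = true) => g3291 w19628 n0
  have w19633 := bf s19633
  have s19635 := fun (n0 : T.alt p r f b c = false) => s19507 w19630 n0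
  have w19635 := bt s19635
  have s19636 := fun (n0 : T.alt p b f c e = true) => g16881 w19631 n0 w19627
  have w19636 := bf s19636
  have s19637 := fun (n0 : T.alt p r c b f = true) => g16531 n0 w19624 w19631
  have w19637 := bf s19637
  have s19638 := fun (n0 : T.alt p r f c e = true) => g16641 w19633 n0 w19625
  have w19638 := bf s19638
  have s19639 := fun (n0 : T.bfo p c d f r = true) => g17066 n0 w19633 w19632
  have w19639 := bf s19639
  have s19640 := fun (n0 : T.X p f c d = false) => s17498 n0 w19638 w19628 w19620
  have w19640 := bt s19640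
  have s19641 := fun (n0 : v353 = true) => g17069 n0 w19639
  have w19641 := bf s19641
  have s19642 := fun (n0 : T.X p c d f = true) => g98 n0 w19640
  have w19642 := bf s19642
  have s19643 := fun (n0 : T.X p d c f = true) => g99 n0 w19640
  have w19643 := bf s19643
  have s19644 := fun (n0 : T.X p b c f = true) => s17535 n0 w19640 w19626 w19617
  have w19644 := bf s19644
  have s19647 := fun (n0 : v354 = false) => s19577 n0 w19641
  have w19647 := bt s19647
  have s19648 := fun (n0 : T.X p b d f = true) => g5866 w19626 w19644 n0 w19642 w19643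
  have w19648 := bf s19648
  have s19650 : T.X p b c e = false → T.alt p b d e f = false → False := fun n0 n1 => by
    have u0 := bt fun t => g16873 t w19626 n1
    have u1 := bt fun t => g16887 u0 w19636 t
    have u2 := bt fun t => g6184 n1 t w19627
    have u3 := bf fun t => g5644 u0 t
    have u4 := bt fun t => g16876 u3 t u2
    have u5 := bf fun t => s18343 t u1 w19640
    have u6 := bt fun t => g6047 u4 w19644 w19608 u5 t
    have u7 := bt fun t => g6412 u1 w19642 w19643 u6 t
    have u8 := bf fun t => g105 u7 t
    have u9 := bf fun t => s19173 t u5 w19640 u8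
    have u10 := bt fun t => g6389 u1 u9 w19643 u6 t
    have u11 := bf fun t => g6053 u4 t w19609 u6
    have u12 := bt fun t => g5853 w19626 w19617 u11 w19640 t
    have u13 := bf fun t => g201 t u12
    have u14 := bf fun t => g102 u6 t
    have u15 := bf fun t => g103 t u7
    have u16 := bf fun t => s19168 t u14 w19640 u15
    have u17 := bf fun t => g6234 u2 t w19609 u7
    have u18 := bf fun t => g12035 n0 u11 w19608 u5 t
    have u19 := bf fun t => g5685 u0 n0 t u9 u16
    have u20 := bf fun t => g12205 u19 u17 w19608 u15 t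
    have u21 := bf fun t => g15968 t u13 u18 u20 u10
    have u22 := bf fun t => s19382 u21 u12 u18 t
    have u23 := bt fun t => g6209 u2 t w19608 u15 u22
    have u24 := bf fun t => g6237 u2 t w19608 u22
    have u25 := bf fun t => g5673 u0 t u23 u21
    exact g5836 w19626 w19617 u25 u24 w19640
  have s19651 : T.alt p b d e f = false → False := fun n0 => by
    have u0 := bt fun t => g16873 t w19626 n0
    have u1 := bt fun t => g6184 n0 t w19627
    have u2 := bf fun t => g5644 u0 t
    have u3 := bt fun t => g16887 u0 w19636 t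
    have u4 := bt fun t => g16876 u2 t u1
    have u5 := bf fun t => s18343 t u3 w19640
    have u6 := bt fun t => g6047 u4 w19644 w19608 u5 t
    have u7 := bf fun t => g102 u6 t
    have u8 := bt fun t => s19650 t n0
    have u9 := bf fun t => g80 u8 t
    have u10 := bt fun t => g6031 u4 u8 w19609 u7 t
    have u11 := bt fun t => g6028 u4 u9 w19608 u5 t
    exact g15905 u11 u10
  have w19651 := bt s19651
  have s19652 := fun (n0 : T.alt p b e d f = true) => g6185 w19651 n0
  have w19652 := bf s19652
  have s19653 := fun (n0 : T.alt p r d e f = false) => s19542 w19651 n0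
  have w19653 := bt s19653
  have s19658 := fun (n0 : T.alt p c d e f = true) => s17548 n0 w19640 w19651 w19626 w19608 w19648 w19617
  have w19658 := bf s19658
  have s19662 := fun (n0 : T.alt p c e d f = true) => g16900 w19630 w19652 n0
  have w19662 := bf s19662
  have s19669 := fun (n0 : T.alt p r c e f = false) => g16665 n0 w19653 w19658
  have w19669 := bt s19669
  have s19670 := fun (n0 : T.alt p b c e f = false) => g16905 n0 w19651 w19658
  have w19670 := bt s19670
  have s19676 := fun (n0 : T.X p d e f = true) => s17415 w19640 w19662 n0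
  have w19676 := bf s19676
  have s19677 := fun (n0 : T.alt p c f d e = false) => g6365 w19658 w19662 n0
  have w19677 := bt s19677
  have s19684 := fun (n0 : T.alt p r c d e = false) => g16628 n0 w19632 w19669
  have w19684 := bt s19684
  have s19685 := fun (n0 : T.alt p r c b e = false) => g16552 n0 w19637 w19669
  have w19685 := bt s19685
  have s19698 := fun (n0 : T.X p c e f = false) => s17550 n0 w19677 w19676 w19640 w19651 w19626 w19608 w19648 w19617
  have w19698 := bt s19698
  have s19722 := fun (n0 : T.X p e c d = true) => s18356 n0 w19698 w19677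
  have w19722 := bf s19722
  have s19723 := fun (n0 : T.X r c e f = false) => s18147 n0 w19698 w19669
  have w19723 := bt s19723
  have s19738 := fun (n0 : v351 = true) => g17061 n0 w19722
  have w19738 := bf s19738
  have s19739 := fun (n0 : T.X p e r c = true) => s18051 n0 w19722 w19684
  have w19739 := bf s19739
  have s19744 := fun (n0 : v348 = false) => g17051 n0 w19739 w19723
  have w19744 := bt s19744
  have s19757 := fun (n0 : v349 = false) => g17071 w19647 n0 w19738
  have w19757 := bt s19757
  have s19760 := fun (n0 : T.X p f r c = true) => g17052 w19757 w19744 n0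
  have w19760 := bf s19760
  have s19769 := fun (n0 : T.X p c r f = false) => s17551 n0 w19760 w19739 w19698 w19685 w19670 w19669 w19644 w19635 w19608
  have w19769 := bt s19769
  have s19776 := fun (n0 : T.X r f c d = false) => s18080 n0 w19769 w19628
  have w19776 := bt s19776
  have s19782 := fun (n0 : T.bfo p f e c r = false) => g17149 n0 w19669 w19769
  have w19782 := bt s19782
  have s19787 := fun (n0 : v372 = true) => g17141 n0 w19769 w19776
  have w19787 := bf s19787
  have s19794 := fun (n0 : v375 = false) => g17153 n0 w19698 w19782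
  have w19794 := bt s19794
  have s19800 := fun (n0 : v373 = true) => g17146 n0 w19787 w19620
  have w19800 := bf s19800
  exact g17166 w19621 w19800 w19794

end H53P
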