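import Pool.Agent.Lib.H63L.FL
import Pool.Agent.Lib.H63L.GT

/-!
# H63L, chunk FT: the order along a ray is transitive (field `lt3`)

`Cyc3`: a cyclic triple. The glue of the generated lemmas of GT.lean: the lemmas are for special positions of the
three edges, and `Cyc3.rot`, `Cyc3.sw` allow to rotate the edges and to exchange the ends of an edge.
-/

set_option autoImplicit false

namespace H53P

open H63L

variable {V : Type} {T : Table V} {p : V}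

/-- three edges crossing the ray `r`, pairwise different and without crossings, cyclically ordered along `r` -/
structure Cyc3 (T : Table V) (p : V) (r a b c d e f : Al p) : Prop where
  r1 : cr T p a b r
  r2 : cr T p c d r
  r3 : cr T p e f r
  n1 : fnx T p a b c d
  n2 : fnx T p c d e f
  n3 : fnx T p e f a b
  s1 : ¬ SameE a b c d
  s2 : ¬ SameE c d e f
  s3 : ¬ SameE e f a b
  l1 : flt T p r a b c d
  l2 : flt T p r c d e f
  l3 : flt T p r e f a b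

theorem Cyc3.rot {r a b c d e f : Al p} (h : Cyc3 T p r a b c d e f) : Cyc3 T p r c d e f a b :=
  ⟨h.r2, h.r3, h.r1, h.n2, h.n3, h.n1, h.s2, h.s3, h.s1, h.l2, h.l3, h.l1⟩

private theorem ft0_e {a b c d : Al p} (h : ¬ SameE a b c d) : ¬ SameE c d a b := by
  rintro (⟨h1, h2⟩ | ⟨h1, h2⟩)
  · exact h (Or.inl ⟨h1.symm, h2.symm⟩)
  · exact h (Or.inr ⟨h2.symm, h1.symm⟩)

private theorem ft0_l {a b c d : Al p} (h : ¬ SameE a b c d) : ¬ SameE b a c d := by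
  rintro (⟨h1, h2⟩ | ⟨h1, h2⟩)
  · exact h (Or.inr ⟨h2, h1⟩)
  · exact h (Or.inl ⟨h2, h1⟩)

private theorem ft0_r {a b c d : Al p} (h : ¬ SameE a b c d) : ¬ SameE a b d c :=
  ft0_e (ft0_l (ft0_e h))

private theorem ft0_ns {a b c d : Al p} (h : fnx T p a b c d) : fnx T p c d a b := by
  unfold fnx at h ⊢
  rw [T.xs4]
  exact h

private theorem ft0_nl {a b c d : Al p} (h : fnx T p a b c d) : fnx T p b a c d := by
  unfold fnx at h ⊢
  rw [T.xs1]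
  exact h

private theorem ft0_nr {a b c d : Al p} (h : fnx T p a b c d) : fnx T p a b d c := by
  unfold fnx at h ⊢
  rw [T.xs2]
  exact h

private theorem ft0_t {r a b c d : Al p} (h : flt T p r a b c d) (hac : a ≠ c) (had : a ≠ d) :
    T.lto p r.1 a.1 b.1 c.1 d.1 = true := by
  rcases h with h | h
  · exact h.2.2
  · rcases h.1 with h1 | h1
    · exact absurd h1 (sne hac)
    · exact absurd h1 (sne had)

private theorem ft0_c {r a b c d : Al p} (h : flt T p r a b c d) (hac : a = c ∨ a = d) :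
    T.lto p r.1 b.1 a.1 c.1 d.1 = true := by
  rcases h with h | h
  · rcases hac with h1 | h1
    · exact absurd (congrArg Subtype.val h1) h.1
    · exact absurd (congrArg Subtype.val h1) h.2.1
  · exact h.2

private theorem ft0_f {r a b c d : Al p} (h : ¬ flt T p r a b c d) (hac : a ≠ c) (had : a ≠ d) :
    T.lto p r.1 a.1 b.1 c.1 d.1 = false := by
  cases h1 : T.lto p r.1 a.1 b.1 c.1 d.1 with
  | false => rfl
  | true => exact absurd (Or.inl ⟨sne hac, sne had, h1⟩) h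

private theorem ft0_g {r a b c d : Al p} (h : ¬ flt T p r a b c d) (hac : a = c ∨ a = d) :
    T.lto p r.1 b.1 a.1 c.1 d.1 = false := by
  cases h1 : T.lto p r.1 b.1 a.1 c.1 d.1 with
  | false => rfl
  | true =>
    refine absurd (Or.inr ⟨?_, h1⟩) h
    rcases hac with h2 | h2
    · exact Or.inl (congrArg Subtype.val h2)
    · exact Or.inr (congrArg Subtype.val h2)

/-- the four comparisons of disjoint edges -/
private theorem ft0_dj {r a b c d : Al p} (h1 : cr T p a b r) (h2 : cr T p c d r) (hn : fnx T p a b c d)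
    (hs : ¬ SameE a b c d) (hac : a ≠ c) (had : a ≠ d) (hbc : b ≠ c) (hbd : b ≠ d)
    (l : flt T p r a b c d) : T.lto p r.1 a.1 b.1 c.1 d.1 = true ∧ T.lto p r.1 b.1 a.1 c.1 d.1 = true ∧
      T.lto p r.1 c.1 d.1 a.1 b.1 = false ∧ T.lto p r.1 d.1 c.1 a.1 b.1 = false := by
  have l2 : flt T p r b a c d := flt_e h2 h1 (ft0_ns hn) (ft0_e hs) l
  have l3 : ¬ flt T p r c d a b := flt_a h1 h2 hn hs l
  have l4 : ¬ flt T p r d c a b := fun h =>
    l3 (flt_e h1 (cr_symm _ _ _ h2) (ft0_nr hn) (ft0_r hs) h)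
  exact ⟨ft0_t l hac had, ft0_t l2 hbc hbd, ft0_f l3 hac.symm hbc.symm, ft0_f l4 had.symm hbd.symm⟩

/-- PROOF. `cr_symm`, `T.xs1`, `T.xs2`; `SameE` with exchanged ends; `l1` by `flt_e`, `l3` by `flt_s`. -/
theorem Cyc3.sw {r a b c d e f : Al p} (h : Cyc3 T p r a b c d e f) : Cyc3 T p r b a c d e f := by
  exact ⟨cr_symm _ _ _ h.r1, h.r2, h.r3, ft0_nl h.n1, h.n2, ft0_nr h.n3, ft0_l h.s1, h.s2, ft0_r h.s3,
    flt_e h.r2 h.r1 (ft0_ns h.n1) (ft0_e h.s1) h.l1, h.l2,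
    flt_s h.r1 h.r3 (ft0_ns h.n3) (ft0_e h.s3) h.l3⟩

/-- All edges contain `a`. PROOF. `flt r a b a c` is `T.lto p r b a a c = true` (second case of `lte`, as
`a = a`). `ft_st`. -/
theorem cyc_st {r a b c d : Al p} (h : Cyc3 T p r a b a c a d) : False := by
  have d1 := cr_ne h.r1
  have d2 := cr_ne h.r2
  have d3 := cr_ne h.r3
  have hbc : b ≠ c := fun e => h.s1 (Or.inl ⟨rfl, e⟩)
  have hcd : c ≠ d := fun e => h.s2 (Or.inl ⟨rfl, e⟩)
  have hbd : b ≠ d := fun e => h.s3 (Or.inl ⟨rfl, e.symm⟩)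
  exact ft_st T (nd6 d1.2.1 d1.2.2 d2.2.2 d3.2.2 d1.1 d2.1 d3.1 hbc hbd hcd) h.r1 h.r2 h.r3
    (ft0_c h.l1 (Or.inl rfl)) (ft0_c h.l2 (Or.inl rfl)) (ft0_c h.l3 (Or.inl rfl))

/-- A triangle. PROOF. `flt r a b b c` is `T.lto p r a b b c = true` (`a ≠ b`, `a ≠ c`). `ft_tr`. -/
theorem cyc_tr {r a b c : Al p} (hac : a ≠ c) (h : Cyc3 T p r a b b c c a) : False := by
  have d1 := cr_ne h.r1
  have d2 := cr_ne h.r2
  exact ft_tr T (nd5 d1.2.1 d1.2.2 d2.2.2 d1.1 hac d2.1) h.r1 h.r2 h.r3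
    (ft0_t h.l1 d1.1 hac) (ft0_t h.l2 d2.1 d1.1.symm) (ft0_t h.l3 hac.symm d2.1.symm)

/-- A path. PROOF. `ft_pa` (`flt r a b b c`: first case; `flt r b c c d`: first case; `flt r c d a b`: first case). -/
theorem cyc_pa {r a b c d : Al p} (hac : a ≠ c) (had : a ≠ d) (hbd : b ≠ d) (h : Cyc3 T p r a b b c c d) : False := by
  have d1 := cr_ne h.r1
  have d2 := cr_ne h.r2
  have d3 := cr_ne h.r3
  exact ft_pa T (nd6 d1.2.1 d1.2.2 d2.2.2 d3.2.2 d1.1 hac had d2.1 hbd d3.1) h.r1 h.r2 h.r3 h.n3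
    (ft0_t h.l1 d1.1 hac) (ft0_t h.l2 d2.1 hbd) (ft0_t h.l3 hac.symm d2.1.symm)

/-- Exactly one common end. PROOF. `ft_sh`: all literals from `h.l1`, `h.l2`, `h.l3` and `flt_e`, `flt_s`,
`flt_a` (the reversed comparisons are false: `T.lto .. = false` because `flt ..` fails). -/
theorem cyc_sh {r a b c d e : Al p} (hac : a ≠ c) (had : a ≠ d) (hae : a ≠ e) (hbd : b ≠ d) (hbe : b ≠ e)
    (hcd : c ≠ d) (hce : c ≠ e) (h : Cyc3 T p r a b b c d e) : False := by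
  have d1 := cr_ne h.r1
  have d2 := cr_ne h.r2
  have d3 := cr_ne h.r3
  have hN : [p, r.1, a.1, b.1, c.1, d.1, e.1].Nodup :=
    nd7 (nd6 d1.2.1 d1.2.2 d2.2.2 d3.2.1 d1.1 hac had d2.1 hbd hcd) d3.2.2 hae hbe hce d3.1
  obtain ⟨k1, k2, k3, k4⟩ := ft0_dj h.r2 h.r3 h.n2 h.s2 hbd hbe hcd hce h.l2
  obtain ⟨m1, m2, m3, m4⟩ := ft0_dj h.r3 h.r1 h.n3 h.s3 had.symm hbd.symm hae.symm hbe.symm h.l3
  exact ft_sh T hN h.r1 h.r2 h.r3 h.n2 h.n3 (ft0_t h.l1 d1.1 hac)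
    (ft0_g (flt_a h.r1 h.r2 h.n1 h.s1 h.l1) (Or.inr rfl)) k1 k2 k3 k4 m1 m2 m3 m4

private theorem ft0_bt {x y z : ℝ} (h1 : x < z) (h2 : z < y) : btw x y z = true := by
  unfold btw
  simp [h1, h2]

private theorem ft0_bf {x y z : ℝ} (h1 : x < y) (h2 : y < z) : btw x y z = false := by
  unfold btw
  simp [h2.not_gt, (h1.trans h2).not_gt]

private theorem ft0_a1 {ρ : V → ℝ} (hρ : T.Ord p ρ) {r b x y : Al p} (nrb : r ≠ b) (nrx : r ≠ x)
    (nry : r ≠ y) (nbx : b ≠ x) (nby : b ≠ y) (nxy : x ≠ y) (rb : ρ r.1 < ρ b.1) (bx : ρ b.1 < ρ x.1)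
    (yb : ρ b.1 < ρ y.1) : T.alt p r.1 b.1 x.1 y.1 = false := by
  rw [hρ.2 r.1 b.1 x.1 y.1 r.2 b.2 x.2 y.2 (sne nrb) (sne nrx) (sne nry) (sne nbx) (sne nby) (sne nxy),
    ft0_bf rb bx, ft0_bf rb yb]
  rfl

private theorem ft0_a2 {ρ : V → ℝ} (hρ : T.Ord p ρ) {r b x y : Al p} (nrb : r ≠ b) (nrx : r ≠ x)
    (nry : r ≠ y) (nbx : b ≠ x) (nby : b ≠ y) (nxy : x ≠ y) (rx : ρ r.1 < ρ x.1) (xb : ρ x.1 < ρ b.1)
    (yb : ρ b.1 < ρ y.1) : T.alt p r.1 b.1 x.1 y.1 = true := by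
  rw [hρ.2 r.1 b.1 x.1 y.1 r.2 b.2 x.2 y.2 (sne nrb) (sne nrx) (sne nry) (sne nbx) (sne nby) (sne nxy),
    ft0_bt rx xb, ft0_bf (rx.trans xb) yb]
  rfl

/-- No common end, normalized. `ρ` is a rotation function with `r` first, then `b`, and `d` before `c`, `f` before
`e`. PROOF. `ft_di`: the `T.alt` literals from `hρ.2` (with `btw`), the `T.lto` literals from `h` and `flt_e`,
`flt_s`, `flt_a`. -/
theorem cyc_di0 {ρ : V → ℝ} (hρ : T.Ord p ρ) {r a b c d e f : Al p} (h : Cyc3 T p r a b c d e f)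
    (hN : [a, b, c, d, e, f].Nodup) (rb : ρ r.1 < ρ b.1) (ba : ρ b.1 < ρ a.1) (bc : ρ b.1 < ρ c.1)
    (bd : ρ b.1 < ρ d.1) (be : ρ b.1 < ρ e.1) (bf : ρ b.1 < ρ f.1) (dc : ρ d.1 < ρ c.1) (fe : ρ f.1 < ρ e.1) :
    False := by
  have d1 := cr_ne h.r1
  have d2 := cr_ne h.r2
  have d3 := cr_ne h.r3
  simp only [List.nodup_cons, List.mem_cons, List.not_mem_nil, not_or, or_false, not_false_iff,
    List.nodup_nil, and_true] at hN
  obtain ⟨⟨ab, ac, ad, ae, af⟩, ⟨nbc, nbd, nbe, nbf⟩, ⟨cd, ce, cf⟩, ⟨de, df⟩, ef⟩ := hN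
  have hN8 : [p, r.1, a.1, b.1, c.1, d.1, e.1, f.1].Nodup := by
    simp [r.2.symm, a.2.symm, b.2.symm, c.2.symm, d.2.symm, e.2.symm, f.2.symm, sne d1.2.1, sne d1.2.2,
      sne d2.2.1, sne d2.2.2, sne d3.2.1, sne d3.2.2, sne ab, sne ac, sne ad, sne ae, sne af, sne nbc, sne nbd,
      sne nbe, sne nbf, sne cd, sne ce, sne cf, sne de, sne df, sne ef]
  obtain ⟨k1, k2, k3, k4⟩ := ft0_dj h.r1 h.r2 h.n1 h.s1 ac ad nbc nbd h.l1
  obtain ⟨l1, l2, l3, l4⟩ := ft0_dj h.r2 h.r3 h.n2 h.s2 ce cf de df h.l2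
  obtain ⟨m1, m2, m3, m4⟩ := ft0_dj h.r3 h.r1 h.n3 h.s3 (Ne.symm ae) (Ne.symm nbe) (Ne.symm af) (Ne.symm nbf) h.l3
  exact ft_di T hN8 h.r1 h.r2 h.r3 h.n1 h.n2 h.n3
    (ft0_a2 hρ d2.2.2 d1.2.2 d2.2.1 (Ne.symm nbd) (Ne.symm cd) nbc rb bd dc)
    (ft0_a2 hρ d3.2.2 d1.2.2 d3.2.1 (Ne.symm nbf) (Ne.symm ef) nbe rb bf fe)
    (ft0_a1 hρ d1.2.2 d1.2.1 d2.2.1 (Ne.symm ab) nbc ac rb ba bc)
    (ft0_a1 hρ d1.2.2 d1.2.1 d2.2.2 (Ne.symm ab) nbd ad rb ba bd)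
    (ft0_a1 hρ d1.2.2 d1.2.1 d3.2.1 (Ne.symm ab) nbe ae rb ba be)
    (ft0_a1 hρ d1.2.2 d1.2.1 d3.2.2 (Ne.symm ab) nbf af rb ba bf)
    (ft0_a1 hρ d1.2.2 d2.2.1 d2.2.2 nbc nbd cd rb bc bd)
    (ft0_a1 hρ d1.2.2 d2.2.1 d3.2.1 nbc nbe ce rb bc be)
    (ft0_a1 hρ d1.2.2 d2.2.1 d3.2.2 nbc nbf cf rb bc bf)
    (ft0_a1 hρ d1.2.2 d2.2.2 d3.2.1 nbd nbe de rb bd be)
    (ft0_a1 hρ d1.2.2 d2.2.2 d3.2.2 nbd nbf df rb bd bf)
    (ft0_a1 hρ d1.2.2 d3.2.1 d3.2.2 nbe nbf ef rb be bf)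
    k1 k2 k3 k4 l1 l2 l3 l4 m1 m2 m3 m4

private theorem ft0_sw2 {r a b c d e f : Al p} (h : Cyc3 T p r a b c d e f) : Cyc3 T p r a b d c e f :=
  h.rot.sw.rot.rot

private theorem ft0_sw3 {r a b c d e f : Al p} (h : Cyc3 T p r a b c d e f) : Cyc3 T p r a b c d f e :=
  h.rot.rot.sw.rot

private theorem ft0_d1 {ρ : V → ℝ} (hρ : T.Ord p ρ) {r a b c d e f : Al p} (h : Cyc3 T p r a b c d e f)
    (hN : [a, b, c, d, e, f].Nodup) (rb : ρ r.1 < ρ b.1) (ba : ρ b.1 < ρ a.1) (bd : ρ b.1 < ρ d.1)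
    (bf : ρ b.1 < ρ f.1) (dc : ρ d.1 < ρ c.1) (fe : ρ f.1 < ρ e.1) : False :=
  cyc_di0 hρ h hN rb ba (bd.trans dc) bd (bf.trans fe) bf dc fe

private theorem ft0_d2 {ρ : V → ℝ} (hρ : T.Ord p ρ) {r a b c d e f : Al p} (h : Cyc3 T p r a b c d e f)
    (hN : [a, b, c, d, e, f].Nodup) (hr : ∀ x, x ≠ p → x ≠ r.1 → ρ r.1 < ρ x) (ba : ρ b.1 < ρ a.1)
    (dc : ρ d.1 < ρ c.1) (fe : ρ f.1 < ρ e.1) : False := by
  have hi : ∀ {x y : Al p}, x ≠ y → ρ x.1 ≠ ρ y.1 := fun {x y} hxy e =>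
    hxy (Subtype.ext (hρ.1 _ _ x.2 y.2 e))
  have hN' := hN
  simp only [List.nodup_cons, List.mem_cons, List.not_mem_nil, not_or, or_false, not_false_iff,
    List.nodup_nil, and_true] at hN'
  obtain ⟨⟨ab, ac, ad, ae, af⟩, ⟨nbc, nbd, nbe, nbf⟩, ⟨cd, ce, cf⟩, ⟨de, df⟩, ef⟩ := hN'
  have hN2 : [c, d, e, f, a, b].Nodup := by
    simp [cd, ce, cf, de, df, ef, Ne.symm ac, Ne.symm nbc, Ne.symm ad, Ne.symm nbd, Ne.symm ae, Ne.symm nbe,
      Ne.symm af, Ne.symm nbf, ab]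
  have hN3 : [e, f, a, b, c, d].Nodup := by
    simp [cd, Ne.symm ce, Ne.symm cf, Ne.symm de, Ne.symm df, ef, ac, nbc, ad, nbd, Ne.symm ae, Ne.symm nbe,
      Ne.symm af, Ne.symm nbf, ab]
  have rb := hr b.1 b.2 (sne (cr_ne h.r1).2.2).symm
  have rd := hr d.1 d.2 (sne (cr_ne h.r2).2.2).symm
  have rf := hr f.1 f.2 (sne (cr_ne h.r3).2.2).symm
  rcases lt_or_gt_of_ne (hi nbd) with h1 | h1
  · rcases lt_or_gt_of_ne (hi nbf) with h2 | h2
    · exact ft0_d1 hρ h hN rb ba h1 h2 dc fe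
    · exact ft0_d1 hρ h.rot.rot hN3 rf fe h2 (h2.trans h1) ba dc
  · rcases lt_or_gt_of_ne (hi df) with h2 | h2
    · exact ft0_d1 hρ h.rot hN2 rd dc h2 h1 fe ba
    · exact ft0_d1 hρ h.rot.rot hN3 rf fe (h2.trans h1) h2 ba dc

/-- No common end. PROOF. `T.ord_exists (w := r)`: `ρ` with `ρ r < ρ x` for all `x ≠ p, r`. By `Cyc3.sw` and
`Cyc3.rot` we may assume `b < a`, `d < c`, `f < e` (in `ρ`); the least of the six values is then `b`, `d` or `f`;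
by `Cyc3.rot` it is `b`. `cyc_di0`. -/
theorem cyc_di {r a b c d e f : Al p} (h : Cyc3 T p r a b c d e f) (hN : [a, b, c, d, e, f].Nodup) : False := by
  obtain ⟨ρ, hρ, hr⟩ := T.ord_exists (w := r.1) r.2.symm
  have hi : ∀ {x y : Al p}, x ≠ y → ρ x.1 ≠ ρ y.1 := fun {x y} hxy e =>
    hxy (Subtype.ext (hρ.1 _ _ x.2 y.2 e))
  have key : ∀ {a b c d e f : Al p}, Cyc3 T p r a b c d e f → [a, b, c, d, e, f].Nodup → ρ b.1 < ρ a.1 →
      ρ d.1 < ρ c.1 → False := by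
    intro a b c d e f h hN ba dc
    rcases lt_or_gt_of_ne (hi (cr_ne h.r3).1) with h1 | h1
    · refine ft0_d2 hρ (ft0_sw3 h) ?_ hr ba dc h1
      have hp : [a, b, c, d, e, f].Perm [a, b, c, d, f, e] := by
        refine List.Perm.cons _ (List.Perm.cons _ (List.Perm.cons _ (List.Perm.cons _ ?_)))
        exact List.Perm.swap _ _ _
      exact hp.nodup_iff.1 hN
    · exact ft0_d2 hρ h hN hr ba dc h1
  have key2 : ∀ {a b c d e f : Al p}, Cyc3 T p r a b c d e f → [a, b, c, d, e, f].Nodup → ρ b.1 < ρ a.1 →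
      False := by
    intro a b c d e f h hN ba
    rcases lt_or_gt_of_ne (hi (cr_ne h.r2).1) with h1 | h1
    · refine key (ft0_sw2 h) ?_ ba h1
      have hp : [a, b, c, d, e, f].Perm [a, b, d, c, e, f] := by
        refine List.Perm.cons _ (List.Perm.cons _ ?_)
        exact List.Perm.swap _ _ _
      exact hp.nodup_iff.1 hN
    · exact key h hN ba h1
  rcases lt_or_gt_of_ne (hi (cr_ne h.r1).1) with h1 | h1
  · exact key2 h.sw ((List.Perm.swap _ _ _).nodup_iff.1 hN) h1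
  · exact key2 h hN h1

private theorem ft0_c1 {r a b d e f : Al p} (h : Cyc3 T p r a b b d e f) : False := by
  have d1 := cr_ne h.r1
  have d2 := cr_ne h.r2
  have d3 := cr_ne h.r3
  have had : a ≠ d := fun e => h.s1 (Or.inr ⟨e, rfl⟩)
  by_cases hbe : b = e
  · subst hbe
    exact cyc_st h.sw
  by_cases hbf : b = f
  · subst hbf
    exact cyc_st (ft0_sw3 h).sw
  by_cases hde : d = e
  · subst hde
    by_cases haf : a = f
    · subst haf
      exact cyc_tr had h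
    · exact cyc_pa had haf hbf h
  by_cases hdf : d = f
  · subst hdf
    by_cases hae : a = e
    · subst hae
      exact cyc_tr had (ft0_sw3 h)
    · exact cyc_pa had hae hbe (ft0_sw3 h)
  by_cases hae : a = e
  · subst hae
    exact cyc_pa (Ne.symm hbf) (Ne.symm hdf) had h.rot.rot.sw
  by_cases haf : a = f
  · subst haf
    exact cyc_pa (Ne.symm hbe) (Ne.symm hde) had (ft0_sw3 h).rot.rot.sw
  exact cyc_sh had hae haf hbe hbf hde hdf h

private theorem ft0_c2 {r a b c d e f : Al p} (h : Cyc3 T p r a b c d e f)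
    (hc : (a = c ∨ a = d) ∨ (b = c ∨ b = d)) : False := by
  rcases hc with (rfl | rfl) | (rfl | rfl)
  · exact ft0_c1 h.sw
  · exact ft0_c1 (ft0_sw2 h).sw
  · exact ft0_c1 h
  · exact ft0_c1 (ft0_sw2 h)

/-- PROOF. If the first two edges have a common end: by `sw` it is `b = c`. Then the third edge `ef` contains `b`
(by `sw`, `rot`, `cyc_st`), or (`b ∉ {e, f}`) both `a` and `d` (`cyc_tr`), or exactly one of them (`cyc_pa` after
`rot`/`sw`: the middle edge of the path must be the second one), or none (`cyc_sh`). By `rot` the same if another pair has a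
common end. Otherwise the six ends are different: `cyc_di`. -/
theorem cyc3_false {r a b c d e f : Al p} (h : Cyc3 T p r a b c d e f) : False := by
  by_cases h1 : (a = c ∨ a = d) ∨ (b = c ∨ b = d)
  · exact ft0_c2 h h1
  by_cases h2 : (c = e ∨ c = f) ∨ (d = e ∨ d = f)
  · exact ft0_c2 h.rot h2
  by_cases h3 : (e = a ∨ e = b) ∨ (f = a ∨ f = b)
  · exact ft0_c2 h.rot.rot h3
  simp only [not_or] at h1 h2 h3
  obtain ⟨⟨ac, ad⟩, bc, bd⟩ := h1
  obtain ⟨⟨ce, cf⟩, de, df⟩ := h2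
  obtain ⟨⟨ea, eb⟩, fa, fb⟩ := h3
  have d1 := cr_ne h.r1
  have d2 := cr_ne h.r2
  have d3 := cr_ne h.r3
  refine cyc_di h ?_
  simp [ac, ad, bc, bd, ce, cf, de, df, Ne.symm ea, Ne.symm eb, Ne.symm fa, Ne.symm fb, d1.1, d2.1, d3.1]

end H53P
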