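import Pool.Agent.Lib.H63L.GS

/-!
# H63L, file GC1: clauses for five points (generated)
-/

set_option linter.unusedVariables false
set_option autoImplicit false

namespace H53P

variable {V : Type} {T : Table V}


theorem bz5_10505_10240 : ∀ b1 b2 b4 b5 b6 b7 b9 b10 b12 b14 : Bool,
    ok5 false b1 b2 false b4 b5 b6 b7 false b9 b10 true b12 true b14 = true → False := by
  decide +kernel

theorem z5_10505_10240 {p0 p1 p2 p3 p4 : V} (h : T.Ok5 p0 p1 p2 p3 p4)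
    (n0 : T.X p0 p1 p2 p3 = false) (n3 : T.X p0 p1 p2 p4 = false) (n8 : T.X p0 p4 p1 p3 = false) (n11 : T.X p0 p4 p2 p3 = true) (n13 : T.X p1 p3 p2 p4 = true) : False := by
  have h2 := h
  unfold Table.Ok5 at h2
  rw [n0, n3, n8, n11, n13] at h2
  exact bz5_10505_10240 _ _ _ _ _ _ _ _ _ _ h2

theorem bz5_10505_257 : ∀ b1 b2 b4 b5 b6 b7 b9 b10 b12 b14 : Bool,
    ok5 true b1 b2 false b4 b5 b6 b7 true b9 b10 false b12 false b14 = true → False := by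
  decide +kernel

theorem z5_10505_257 {p0 p1 p2 p3 p4 : V} (h : T.Ok5 p0 p1 p2 p3 p4)
    (n0 : T.X p0 p1 p2 p3 = true) (n3 : T.X p0 p1 p2 p4 = false) (n8 : T.X p0 p4 p1 p3 = true) (n11 : T.X p0 p4 p2 p3 = false) (n13 : T.X p1 p3 p2 p4 = false) : False := by
  have h2 := h
  unfold Table.Ok5 at h2
  rw [n0, n3, n8, n11, n13] at h2
  exact bz5_10505_257 _ _ _ _ _ _ _ _ _ _ h2

theorem bz5_13388_1100 : ∀ b0 b1 b4 b5 b7 b8 b9 b11 b14 : Bool,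
    ok5 b0 b1 true true b4 b5 true b7 b8 b9 true b11 false false b14 = true → False := by
  decide +kernel

theorem z5_13388_1100 {p0 p1 p2 p3 p4 : V} (h : T.Ok5 p0 p1 p2 p3 p4)
    (n2 : T.X p0 p3 p1 p2 = true) (n3 : T.X p0 p1 p2 p4 = true) (n6 : T.X p0 p1 p3 p4 = true) (n10 : T.X p0 p3 p2 p4 = true) (n12 : T.X p1 p2 p3 p4 = false) (n13 : T.X p1 p3 p2 p4 = false) : False := by
  have h2 := h
  unfold Table.Ok5 at h2
  rw [n2, n3, n6, n10, n12, n13] at h2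
  exact bz5_13388_1100 _ _ _ _ _ _ _ _ _ h2

theorem bz5_16977_80 : ∀ b1 b2 b3 b5 b7 b8 b10 b11 b12 b13 : Bool,
    ok5 false b1 b2 b3 true b5 true b7 b8 false b10 b11 b12 b13 false = true → False := by
  decide +kernel

theorem z5_16977_80 {p0 p1 p2 p3 p4 : V} (h : T.Ok5 p0 p1 p2 p3 p4)
    (n0 : T.X p0 p1 p2 p3 = false) (n4 : T.X p0 p2 p1 p4 = true) (n6 : T.X p0 p1 p3 p4 = true) (n9 : T.X p0 p2 p3 p4 = false) (n14 : T.X p1 p4 p2 p3 = false) : False := by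
  have h2 := h
  unfold Table.Ok5 at h2
  rw [n0, n4, n6, n9, n14] at h2
  exact bz5_16977_80 _ _ _ _ _ _ _ _ _ _ h2

theorem bz5_16985_16961 : ∀ b1 b2 b5 b7 b8 b10 b11 b12 b13 : Bool,
    ok5 true b1 b2 false false b5 true b7 b8 true b10 b11 b12 b13 true = true → False := by
  decide +kernel

theorem z5_16985_16961 {p0 p1 p2 p3 p4 : V} (h : T.Ok5 p0 p1 p2 p3 p4)
    (n0 : T.X p0 p1 p2 p3 = true) (n3 : T.X p0 p1 p2 p4 = false) (n4 : T.X p0 p2 p1 p4 = false) (n6 : T.X p0 p1 p3 p4 = true) (n9 : T.X p0 p2 p3 p4 = true) (n14 : T.X p1 p4 p2 p3 = true) : False := by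
  have h2 := h
  unfold Table.Ok5 at h2
  rw [n0, n3, n4, n6, n9, n14] at h2
  exact bz5_16985_16961 _ _ _ _ _ _ _ _ _ h2

theorem bz5_17545_129 : ∀ b1 b2 b4 b5 b6 b8 b9 b11 b12 b13 : Bool,
    ok5 true b1 b2 false b4 b5 b6 true b8 b9 false b11 b12 b13 false = true → False := by
  decide +kernel

theorem z5_17545_129 {p0 p1 p2 p3 p4 : V} (h : T.Ok5 p0 p1 p2 p3 p4)
    (n0 : T.X p0 p1 p2 p3 = true) (n3 : T.X p0 p1 p2 p4 = false) (n7 : T.X p0 p3 p1 p4 = true) (n10 : T.X p0 p3 p2 p4 = false) (n14 : T.X p1 p4 p2 p3 = false) : False := by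
  have h2 := h
  unfold Table.Ok5 at h2
  rw [n0, n3, n7, n10, n14] at h2
  exact bz5_17545_129 _ _ _ _ _ _ _ _ _ _ h2

theorem bz5_17545_17408 : ∀ b1 b2 b4 b5 b6 b8 b9 b11 b12 b13 : Bool,
    ok5 false b1 b2 false b4 b5 b6 false b8 b9 true b11 b12 b13 true = true → False := by
  decide +kernel

theorem z5_17545_17408 {p0 p1 p2 p3 p4 : V} (h : T.Ok5 p0 p1 p2 p3 p4)
    (n0 : T.X p0 p1 p2 p3 = false) (n3 : T.X p0 p1 p2 p4 = false) (n7 : T.X p0 p3 p1 p4 = false) (n10 : T.X p0 p3 p2 p4 = true) (n14 : T.X p1 p4 p2 p3 = true) : False := by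
  have h2 := h
  unfold Table.Ok5 at h2
  rw [n0, n3, n7, n10, n14] at h2
  exact bz5_17545_17408 _ _ _ _ _ _ _ _ _ _ h2

theorem bz5_18596_2052 : ∀ b0 b1 b3 b4 b6 b8 b9 b10 b12 b13 : Bool,
    ok5 b0 b1 true b3 b4 false b6 false b8 b9 b10 true b12 b13 false = true → False := by
  decide +kernel

theorem z5_18596_2052 {p0 p1 p2 p3 p4 : V} (h : T.Ok5 p0 p1 p2 p3 p4)
    (n2 : T.X p0 p3 p1 p2 = true) (n5 : T.X p0 p4 p1 p2 = false) (n7 : T.X p0 p3 p1 p4 = false) (n11 : T.X p0 p4 p2 p3 = true) (n14 : T.X p1 p4 p2 p3 = false) : False := by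
  have h2 := h
  unfold Table.Ok5 at h2
  rw [n2, n5, n7, n11, n14] at h2
  exact bz5_18596_2052 _ _ _ _ _ _ _ _ _ _ h2

theorem bz5_18597_18592 : ∀ b1 b3 b4 b6 b8 b9 b10 b12 b13 : Bool,
    ok5 false b1 false b3 b4 true b6 true b8 b9 b10 true b12 b13 true = true → False := by
  decide +kernel

theorem z5_18597_18592 {p0 p1 p2 p3 p4 : V} (h : T.Ok5 p0 p1 p2 p3 p4)
    (n0 : T.X p0 p1 p2 p3 = false) (n2 : T.X p0 p3 p1 p2 = false) (n5 : T.X p0 p4 p1 p2 = true) (n7 : T.X p0 p3 p1 p4 = true) (n11 : T.X p0 p4 p2 p3 = true) (n14 : T.X p1 p4 p2 p3 = true) : False := by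
  have h2 := h
  unfold Table.Ok5 at h2
  rw [n0, n2, n5, n7, n11, n14] at h2
  exact bz5_18597_18592 _ _ _ _ _ _ _ _ _ h2

theorem bz5_18706_2064 : ∀ b0 b2 b3 b5 b6 b7 b9 b10 b12 b13 : Bool,
    ok5 b0 false b2 b3 true b5 b6 b7 false b9 b10 true b12 b13 false = true → False := by
  decide +kernel

theorem z5_18706_2064 {p0 p1 p2 p3 p4 : V} (h : T.Ok5 p0 p1 p2 p3 p4)
    (n1 : T.X p0 p2 p1 p3 = false) (n4 : T.X p0 p2 p1 p4 = true) (n8 : T.X p0 p4 p1 p3 = false) (n11 : T.X p0 p4 p2 p3 = true) (n14 : T.X p1 p4 p2 p3 = false) : False := by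
  have h2 := h
  unfold Table.Ok5 at h2
  rw [n1, n4, n8, n11, n14] at h2
  exact bz5_18706_2064 _ _ _ _ _ _ _ _ _ _ h2

theorem bz5_19025_16465 : ∀ b1 b2 b3 b5 b7 b8 b10 b12 b13 : Bool,
    ok5 true b1 b2 b3 true b5 true b7 b8 false b10 false b12 b13 true = true → False := by
  decide +kernel

theorem z5_19025_16465 {p0 p1 p2 p3 p4 : V} (h : T.Ok5 p0 p1 p2 p3 p4)
    (n0 : T.X p0 p1 p2 p3 = true) (n4 : T.X p0 p2 p1 p4 = true) (n6 : T.X p0 p1 p3 p4 = true) (n9 : T.X p0 p2 p3 p4 = false) (n11 : T.X p0 p4 p2 p3 = false) (n14 : T.X p1 p4 p2 p3 = true) : False := by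
  have h2 := h
  unfold Table.Ok5 at h2
  rw [n0, n4, n6, n9, n11, n14] at h2
  exact bz5_19025_16465 _ _ _ _ _ _ _ _ _ h2

theorem bz5_2193_2193 : ∀ b1 b2 b3 b5 b6 b8 b9 b10 b12 b13 b14 : Bool,
    ok5 true b1 b2 b3 true b5 b6 true b8 b9 b10 true b12 b13 b14 = true → False := by
  decide +kernel

theorem z5_2193_2193 {p0 p1 p2 p3 p4 : V} (h : T.Ok5 p0 p1 p2 p3 p4)
    (n0 : T.X p0 p1 p2 p3 = true) (n4 : T.X p0 p2 p1 p4 = true) (n7 : T.X p0 p3 p1 p4 = true) (n11 : T.X p0 p4 p2 p3 = true) : False := by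
  have h2 := h
  unfold Table.Ok5 at h2
  rw [n0, n4, n7, n11] at h2
  exact bz5_2193_2193 _ _ _ _ _ _ _ _ _ _ _ h2

theorem bz5_29202_530 : ∀ b0 b2 b3 b5 b6 b7 b8 b10 b11 : Bool,
    ok5 b0 true b2 b3 true b5 b6 b7 b8 true b10 b11 false false false = true → False := by
  decide +kernel

theorem z5_29202_530 {p0 p1 p2 p3 p4 : V} (h : T.Ok5 p0 p1 p2 p3 p4)
    (n1 : T.X p0 p2 p1 p3 = true) (n4 : T.X p0 p2 p1 p4 = true) (n9 : T.X p0 p2 p3 p4 = true) (n12 : T.X p1 p2 p3 p4 = false) (n13 : T.X p1 p3 p2 p4 = false) (n14 : T.X p1 p4 p2 p3 = false) : False := by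
  have h2 := h
  unfold Table.Ok5 at h2
  rw [n1, n4, n9, n12, n13, n14] at h2
  exact bz5_29202_530 _ _ _ _ _ _ _ _ _ h2

theorem bz5_3657_73 : ∀ b1 b2 b4 b5 b7 b8 b12 b13 b14 : Bool,
    ok5 true b1 b2 true b4 b5 true b7 b8 false false false b12 b13 b14 = true → False := by
  decide +kernel

theorem z5_3657_73 {p0 p1 p2 p3 p4 : V} (h : T.Ok5 p0 p1 p2 p3 p4)
    (n0 : T.X p0 p1 p2 p3 = true) (n3 : T.X p0 p1 p2 p4 = true) (n6 : T.X p0 p1 p3 p4 = true) (n9 : T.X p0 p2 p3 p4 = false) (n10 : T.X p0 p3 p2 p4 = false) (n11 : T.X p0 p4 p2 p3 = false) : False := by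
  have h2 := h
  unfold Table.Ok5 at h2
  rw [n0, n3, n6, n9, n10, n11] at h2
  exact bz5_3657_73 _ _ _ _ _ _ _ _ _ h2

theorem bz5_3_3 : ∀ b2 b3 b4 b5 b6 b7 b8 b9 b10 b11 b12 b13 b14 : Bool,
    ok5 true true b2 b3 b4 b5 b6 b7 b8 b9 b10 b11 b12 b13 b14 = true → False := by
  decide +kernel

theorem z5_3_3 {p0 p1 p2 p3 p4 : V} (h : T.Ok5 p0 p1 p2 p3 p4)
    (n0 : T.X p0 p1 p2 p3 = true) (n1 : T.X p0 p2 p1 p3 = true) : False := by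
  have h2 := h
  unfold Table.Ok5 at h2
  rw [n0, n1] at h2
  exact bz5_3_3 _ _ _ _ _ _ _ _ _ _ _ _ _ h2

theorem bz5_4679_4672 : ∀ b3 b4 b5 b7 b8 b10 b11 b13 b14 : Bool,
    ok5 false false false b3 b4 b5 true b7 b8 true b10 b11 true b13 b14 = true → False := by
  decide +kernel

theorem z5_4679_4672 {p0 p1 p2 p3 p4 : V} (h : T.Ok5 p0 p1 p2 p3 p4)
    (n0 : T.X p0 p1 p2 p3 = false) (n1 : T.X p0 p2 p1 p3 = false) (n2 : T.X p0 p3 p1 p2 = false) (n6 : T.X p0 p1 p3 p4 = true) (n9 : T.X p0 p2 p3 p4 = true) (n12 : T.X p1 p2 p3 p4 = true) : False := by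
  have h2 := h
  unfold Table.Ok5 at h2
  rw [n0, n1, n2, n6, n9, n12] at h2
  exact bz5_4679_4672 _ _ _ _ _ _ _ _ _ h2

theorem bz5_4756_640 : ∀ b0 b1 b3 b5 b6 b8 b10 b11 b13 b14 : Bool,
    ok5 b0 b1 false b3 false b5 b6 true b8 true b10 b11 false b13 b14 = true → False := by
  decide +kernel

theorem z5_4756_640 {p0 p1 p2 p3 p4 : V} (h : T.Ok5 p0 p1 p2 p3 p4)
    (n2 : T.X p0 p3 p1 p2 = false) (n4 : T.X p0 p2 p1 p4 = false) (n7 : T.X p0 p3 p1 p4 = true) (n9 : T.X p0 p2 p3 p4 = true) (n12 : T.X p1 p2 p3 p4 = false) : False := by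
  have h2 := h
  unfold Table.Ok5 at h2
  rw [n2, n4, n7, n9, n12] at h2
  exact bz5_4756_640 _ _ _ _ _ _ _ _ _ _ h2

theorem bz5_4788_4740 : ∀ b0 b1 b3 b6 b8 b10 b11 b13 b14 : Bool,
    ok5 b0 b1 true b3 false false b6 true b8 true b10 b11 true b13 b14 = true → False := by
  decide +kernel

theorem z5_4788_4740 {p0 p1 p2 p3 p4 : V} (h : T.Ok5 p0 p1 p2 p3 p4)
    (n2 : T.X p0 p3 p1 p2 = true) (n4 : T.X p0 p2 p1 p4 = false) (n5 : T.X p0 p4 p1 p2 = false) (n7 : T.X p0 p3 p1 p4 = true) (n9 : T.X p0 p2 p3 p4 = true) (n12 : T.X p1 p2 p3 p4 = true) : False := by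
  have h2 := h
  unfold Table.Ok5 at h2
  rw [n2, n4, n5, n7, n9, n12] at h2
  exact bz5_4788_4740 _ _ _ _ _ _ _ _ _ h2

theorem bz5_4898_4098 : ∀ b0 b2 b3 b4 b6 b7 b10 b11 b13 b14 : Bool,
    ok5 b0 true b2 b3 b4 false b6 b7 false false b10 b11 true b13 b14 = true → False := by
  decide +kernel

theorem z5_4898_4098 {p0 p1 p2 p3 p4 : V} (h : T.Ok5 p0 p1 p2 p3 p4)
    (n1 : T.X p0 p2 p1 p3 = true) (n5 : T.X p0 p4 p1 p2 = false) (n8 : T.X p0 p4 p1 p3 = false) (n9 : T.X p0 p2 p3 p4 = false) (n12 : T.X p1 p2 p3 p4 = true) : False := by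
  have h2 := h
  unfold Table.Ok5 at h2
  rw [n1, n5, n8, n9, n12] at h2
  exact bz5_4898_4098 _ _ _ _ _ _ _ _ _ _ h2

theorem bz5_48_48 : ∀ b0 b1 b2 b3 b6 b7 b8 b9 b10 b11 b12 b13 b14 : Bool,
    ok5 b0 b1 b2 b3 true true b6 b7 b8 b9 b10 b11 b12 b13 b14 = true → False := by
  decide +kernel

theorem z5_48_48 {p0 p1 p2 p3 p4 : V} (h : T.Ok5 p0 p1 p2 p3 p4)
    (n4 : T.X p0 p2 p1 p4 = true) (n5 : T.X p0 p4 p1 p2 = true) : False := by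
  have h2 := h
  unfold Table.Ok5 at h2
  rw [n4, n5] at h2
  exact bz5_48_48 _ _ _ _ _ _ _ _ _ _ _ _ _ h2

theorem bz5_5196_68 : ∀ b0 b1 b4 b5 b7 b8 b9 b11 b13 b14 : Bool,
    ok5 b0 b1 true false b4 b5 true b7 b8 b9 false b11 false b13 b14 = true → False := by
  decide +kernel

theorem z5_5196_68 {p0 p1 p2 p3 p4 : V} (h : T.Ok5 p0 p1 p2 p3 p4)
    (n2 : T.X p0 p3 p1 p2 = true) (n3 : T.X p0 p1 p2 p4 = false) (n6 : T.X p0 p1 p3 p4 = true) (n10 : T.X p0 p3 p2 p4 = false) (n12 : T.X p1 p2 p3 p4 = false) : False := by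
  have h2 := h
  unfold Table.Ok5 at h2
  rw [n2, n3, n6, n10, n12] at h2
  exact bz5_5196_68 _ _ _ _ _ _ _ _ _ _ h2

theorem bz5_5197_5192 : ∀ b1 b4 b5 b7 b8 b9 b11 b13 b14 : Bool,
    ok5 false b1 false true b4 b5 true b7 b8 b9 true b11 true b13 b14 = true → False := by
  decide +kernel

theorem z5_5197_5192 {p0 p1 p2 p3 p4 : V} (h : T.Ok5 p0 p1 p2 p3 p4)
    (n0 : T.X p0 p1 p2 p3 = false) (n2 : T.X p0 p3 p1 p2 = false) (n3 : T.X p0 p1 p2 p4 = true) (n6 : T.X p0 p1 p3 p4 = true) (n10 : T.X p0 p3 p2 p4 = true) (n12 : T.X p1 p2 p3 p4 = true) : False := by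
  have h2 := h
  unfold Table.Ok5 at h2
  rw [n0, n2, n3, n6, n10, n12] at h2
  exact bz5_5197_5192 _ _ _ _ _ _ _ _ _ h2

theorem bz5_5708_4172 : ∀ b0 b1 b4 b5 b7 b8 b11 b13 b14 : Bool,
    ok5 b0 b1 true true b4 b5 true b7 b8 false false b11 true b13 b14 = true → False := by
  decide +kernel

theorem z5_5708_4172 {p0 p1 p2 p3 p4 : V} (h : T.Ok5 p0 p1 p2 p3 p4)
    (n2 : T.X p0 p3 p1 p2 = true) (n3 : T.X p0 p1 p2 p4 = true) (n6 : T.X p0 p1 p3 p4 = true) (n9 : T.X p0 p2 p3 p4 = false) (n10 : T.X p0 p3 p2 p4 = false) (n12 : T.X p1 p2 p3 p4 = true) : False := by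
  have h2 := h
  unfold Table.Ok5 at h2
  rw [n2, n3, n6, n9, n10, n12] at h2
  exact bz5_5708_4172 _ _ _ _ _ _ _ _ _ h2

theorem bz5_612_612 : ∀ b0 b1 b3 b4 b7 b8 b10 b11 b12 b13 b14 : Bool,
    ok5 b0 b1 true b3 b4 true true b7 b8 true b10 b11 b12 b13 b14 = true → False := by
  decide +kernel

theorem z5_612_612 {p0 p1 p2 p3 p4 : V} (h : T.Ok5 p0 p1 p2 p3 p4)
    (n2 : T.X p0 p3 p1 p2 = true) (n5 : T.X p0 p4 p1 p2 = true) (n6 : T.X p0 p1 p3 p4 = true) (n9 : T.X p0 p2 p3 p4 = true) : False := by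
  have h2 := h
  unfold Table.Ok5 at h2
  rw [n2, n5, n6, n9] at h2
  exact bz5_612_612 _ _ _ _ _ _ _ _ _ _ _ h2

theorem bz5_6241_2112 : ∀ b1 b2 b3 b4 b7 b8 b9 b10 b13 b14 : Bool,
    ok5 false b1 b2 b3 b4 false true b7 b8 b9 b10 true false b13 b14 = true → False := by
  decide +kernel

theorem z5_6241_2112 {p0 p1 p2 p3 p4 : V} (h : T.Ok5 p0 p1 p2 p3 p4)
    (n0 : T.X p0 p1 p2 p3 = false) (n5 : T.X p0 p4 p1 p2 = false) (n6 : T.X p0 p1 p3 p4 = true) (n11 : T.X p0 p4 p2 p3 = true) (n12 : T.X p1 p2 p3 p4 = false) : False := by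
  have h2 := h
  unfold Table.Ok5 at h2
  rw [n0, n5, n6, n11, n12] at h2
  exact bz5_6241_2112 _ _ _ _ _ _ _ _ _ _ h2

theorem bz5_6249_6209 : ∀ b1 b2 b4 b7 b8 b9 b10 b13 b14 : Bool,
    ok5 true b1 b2 false b4 false true b7 b8 b9 b10 true true b13 b14 = true → False := by
  decide +kernel

theorem z5_6249_6209 {p0 p1 p2 p3 p4 : V} (h : T.Ok5 p0 p1 p2 p3 p4)
    (n0 : T.X p0 p1 p2 p3 = true) (n3 : T.X p0 p1 p2 p4 = false) (n5 : T.X p0 p4 p1 p2 = false) (n6 : T.X p0 p1 p3 p4 = true) (n11 : T.X p0 p4 p2 p3 = true) (n12 : T.X p1 p2 p3 p4 = true) : False := by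
  have h2 := h
  unfold Table.Ok5 at h2
  rw [n0, n3, n5, n6, n11, n12] at h2
  exact bz5_6249_6209 _ _ _ _ _ _ _ _ _ h2

theorem bz5_7716_4132 : ∀ b0 b1 b3 b4 b6 b7 b8 b13 b14 : Bool,
    ok5 b0 b1 true b3 b4 true b6 b7 b8 false false false true b13 b14 = true → False := by
  decide +kernel

theorem z5_7716_4132 {p0 p1 p2 p3 p4 : V} (h : T.Ok5 p0 p1 p2 p3 p4)
    (n2 : T.X p0 p3 p1 p2 = true) (n5 : T.X p0 p4 p1 p2 = true) (n9 : T.X p0 p2 p3 p4 = false) (n10 : T.X p0 p3 p2 p4 = false) (n11 : T.X p0 p4 p2 p3 = false) (n12 : T.X p1 p2 p3 p4 = true) : False := by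
  have h2 := h
  unfold Table.Ok5 at h2
  rw [n2, n5, n9, n10, n11, n12] at h2
  exact bz5_7716_4132 _ _ _ _ _ _ _ _ _ h2

theorem bz5_8778_66 : ∀ b0 b2 b4 b5 b7 b8 b10 b11 b12 b14 : Bool,
    ok5 b0 true b2 false b4 b5 true b7 b8 false b10 b11 b12 false b14 = true → False := by
  decide +kernel

theorem z5_8778_66 {p0 p1 p2 p3 p4 : V} (h : T.Ok5 p0 p1 p2 p3 p4)
    (n1 : T.X p0 p2 p1 p3 = true) (n3 : T.X p0 p1 p2 p4 = false) (n6 : T.X p0 p1 p3 p4 = true) (n9 : T.X p0 p2 p3 p4 = false) (n13 : T.X p1 p3 p2 p4 = false) : False := by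
  have h2 := h
  unfold Table.Ok5 at h2
  rw [n1, n3, n6, n9, n13] at h2
  exact bz5_8778_66 _ _ _ _ _ _ _ _ _ _ h2

theorem bz5_8779_8776 : ∀ b2 b4 b5 b7 b8 b10 b11 b12 b14 : Bool,
    ok5 false false b2 true b4 b5 true b7 b8 true b10 b11 b12 true b14 = true → False := by
  decide +kernel

theorem z5_8779_8776 {p0 p1 p2 p3 p4 : V} (h : T.Ok5 p0 p1 p2 p3 p4)
    (n0 : T.X p0 p1 p2 p3 = false) (n1 : T.X p0 p2 p1 p3 = false) (n3 : T.X p0 p1 p2 p4 = true) (n6 : T.X p0 p1 p3 p4 = true) (n9 : T.X p0 p2 p3 p4 = true) (n13 : T.X p1 p3 p2 p4 = true) : False := by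
  have h2 := h
  unfold Table.Ok5 at h2
  rw [n0, n1, n3, n6, n9, n13] at h2
  exact bz5_8779_8776 _ _ _ _ _ _ _ _ _ h2

theorem bz5_9362_130 : ∀ b0 b2 b3 b5 b6 b8 b9 b11 b12 b14 : Bool,
    ok5 b0 true b2 b3 false b5 b6 true b8 b9 false b11 b12 false b14 = true → False := by
  decide +kernel

theorem z5_9362_130 {p0 p1 p2 p3 p4 : V} (h : T.Ok5 p0 p1 p2 p3 p4)
    (n1 : T.X p0 p2 p1 p3 = true) (n4 : T.X p0 p2 p1 p4 = false) (n7 : T.X p0 p3 p1 p4 = true) (n10 : T.X p0 p3 p2 p4 = false) (n13 : T.X p1 p3 p2 p4 = false) : False := by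
  have h2 := h
  unfold Table.Ok5 at h2
  rw [n1, n4, n7, n10, n13] at h2
  exact bz5_9362_130 _ _ _ _ _ _ _ _ _ _ h2

theorem bz5_9370_9346 : ∀ b0 b2 b5 b6 b8 b9 b11 b12 b14 : Bool,
    ok5 b0 true b2 false false b5 b6 true b8 b9 true b11 b12 true b14 = true → False := by
  decide +kernel

theorem z5_9370_9346 {p0 p1 p2 p3 p4 : V} (h : T.Ok5 p0 p1 p2 p3 p4)
    (n1 : T.X p0 p2 p1 p3 = true) (n3 : T.X p0 p1 p2 p4 = false) (n4 : T.X p0 p2 p1 p4 = false) (n7 : T.X p0 p3 p1 p4 = true) (n10 : T.X p0 p3 p2 p4 = true) (n13 : T.X p1 p3 p2 p4 = true) : False := by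
  have h2 := h
  unfold Table.Ok5 at h2
  rw [n1, n3, n4, n7, n10, n13] at h2
  exact bz5_9370_9346 _ _ _ _ _ _ _ _ _ h2

theorem bz5_9508_8196 : ∀ b0 b1 b3 b4 b6 b7 b9 b11 b12 b14 : Bool,
    ok5 b0 b1 true b3 b4 false b6 b7 false b9 false b11 b12 true b14 = true → False := by
  decide +kernel

theorem z5_9508_8196 {p0 p1 p2 p3 p4 : V} (h : T.Ok5 p0 p1 p2 p3 p4)
    (n2 : T.X p0 p3 p1 p2 = true) (n5 : T.X p0 p4 p1 p2 = false) (n8 : T.X p0 p4 p1 p3 = false) (n10 : T.X p0 p3 p2 p4 = false) (n13 : T.X p1 p3 p2 p4 = true) : False := by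
  have h2 := h
  unfold Table.Ok5 at h2
  rw [n2, n5, n8, n10, n13] at h2
  exact bz5_9508_8196 _ _ _ _ _ _ _ _ _ _ h2

theorem bz5_9672_9224 : ∀ b0 b1 b2 b4 b5 b9 b11 b12 b14 : Bool,
    ok5 b0 b1 b2 true b4 b5 false false false b9 true b11 b12 true b14 = true → False := by
  decide +kernel

theorem z5_9672_9224 {p0 p1 p2 p3 p4 : V} (h : T.Ok5 p0 p1 p2 p3 p4)
    (n3 : T.X p0 p1 p2 p4 = true) (n6 : T.X p0 p1 p3 p4 = false) (n7 : T.X p0 p3 p1 p4 = false) (n8 : T.X p0 p4 p1 p3 = false) (n10 : T.X p0 p3 p2 p4 = true) (n13 : T.X p1 p3 p2 p4 = true) : False := by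
  have h2 := h
  unfold Table.Ok5 at h2
  rw [n3, n6, n7, n8, n10, n13] at h2
  exact bz5_9672_9224 _ _ _ _ _ _ _ _ _ h2

theorem bzA0_1096_1088 : ∀ b0 b1 b2 b4 b5 b7 b8 b9 b11 b12 b13 b14 : Bool,
    okA0 b0 b1 b2 false b4 b5 true b7 b8 b9 true b11 b12 b13 b14 = true → False := by
  decide +kernel

theorem zA0_1096_1088 {p0 p1 p2 p3 p4 : V} (h : T.OkA0 p0 p1 p2 p3 p4)
    (n3 : T.X p0 p1 p2 p4 = false) (n6 : T.X p0 p1 p3 p4 = true) (n10 : T.X p0 p3 p2 p4 = true) : False := by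
  have h2 := h
  unfold Table.OkA0 at h2
  rw [n3, n6, n10] at h2
  exact bzA0_1096_1088 _ _ _ _ _ _ _ _ _ _ _ _ h2

theorem bzA0_16513_129 : ∀ b1 b2 b3 b4 b5 b6 b8 b9 b10 b11 b12 b13 : Bool,
    okA0 true b1 b2 b3 b4 b5 b6 true b8 b9 b10 b11 b12 b13 false = true → False := by
  decide +kernel

theorem zA0_16513_129 {p0 p1 p2 p3 p4 : V} (h : T.OkA0 p0 p1 p2 p3 p4)
    (n0 : T.X p0 p1 p2 p3 = true) (n7 : T.X p0 p3 p1 p4 = true) (n14 : T.X p1 p4 p2 p3 = false) : False := by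
  have h2 := h
  unfold Table.OkA0 at h2
  rw [n0, n7, n14] at h2
  exact bzA0_16513_129 _ _ _ _ _ _ _ _ _ _ _ _ h2

theorem bzA0_18449_1 : ∀ b1 b2 b3 b5 b6 b7 b8 b9 b10 b12 b13 : Bool,
    okA0 true b1 b2 b3 false b5 b6 b7 b8 b9 b10 false b12 b13 false = true → False := by
  decide +kernel

theorem zA0_18449_1 {p0 p1 p2 p3 p4 : V} (h : T.OkA0 p0 p1 p2 p3 p4)
    (n0 : T.X p0 p1 p2 p3 = true) (n4 : T.X p0 p2 p1 p4 = false) (n11 : T.X p0 p4 p2 p3 = false) (n14 : T.X p1 p4 p2 p3 = false) : False := by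
  have h2 := h
  unfold Table.OkA0 at h2
  rw [n0, n4, n11, n14] at h2
  exact bzA0_18449_1 _ _ _ _ _ _ _ _ _ _ _ h2

theorem bzA0_18577_16401 : ∀ b1 b2 b3 b5 b6 b8 b9 b10 b12 b13 : Bool,
    okA0 true b1 b2 b3 true b5 b6 false b8 b9 b10 false b12 b13 true = true → False := by
  decide +kernel

theorem zA0_18577_16401 {p0 p1 p2 p3 p4 : V} (h : T.OkA0 p0 p1 p2 p3 p4)
    (n0 : T.X p0 p1 p2 p3 = true) (n4 : T.X p0 p2 p1 p4 = true) (n7 : T.X p0 p3 p1 p4 = false) (n11 : T.X p0 p4 p2 p3 = false) (n14 : T.X p1 p4 p2 p3 = true) : False := by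
  have h2 := h
  unfold Table.OkA0 at h2
  rw [n0, n4, n7, n11, n14] at h2
  exact bzA0_18577_16401 _ _ _ _ _ _ _ _ _ _ h2

theorem bzA0_4132_36 : ∀ b0 b1 b3 b4 b6 b7 b8 b9 b10 b11 b13 b14 : Bool,
    okA0 b0 b1 true b3 b4 true b6 b7 b8 b9 b10 b11 false b13 b14 = true → False := by
  decide +kernel

theorem zA0_4132_36 {p0 p1 p2 p3 p4 : V} (h : T.OkA0 p0 p1 p2 p3 p4)
    (n2 : T.X p0 p3 p1 p2 = true) (n5 : T.X p0 p4 p1 p2 = true) (n12 : T.X p1 p2 p3 p4 = false) : False := by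
  have h2 := h
  unfold Table.OkA0 at h2
  rw [n2, n5, n12] at h2
  exact bzA0_4132_36 _ _ _ _ _ _ _ _ _ _ _ _ h2

theorem bzA0_420_36 : ∀ b0 b1 b3 b4 b6 b9 b10 b11 b12 b13 b14 : Bool,
    okA0 b0 b1 true b3 b4 true b6 false false b9 b10 b11 b12 b13 b14 = true → False := by
  decide +kernel

theorem zA0_420_36 {p0 p1 p2 p3 p4 : V} (h : T.OkA0 p0 p1 p2 p3 p4)
    (n2 : T.X p0 p3 p1 p2 = true) (n5 : T.X p0 p4 p1 p2 = true) (n7 : T.X p0 p3 p1 p4 = false) (n8 : T.X p0 p4 p1 p3 = false) : False := by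
  have h2 := h
  unfold Table.OkA0 at h2
  rw [n2, n5, n7, n8] at h2
  exact bzA0_420_36 _ _ _ _ _ _ _ _ _ _ _ h2

theorem bzA0_4640_544 : ∀ b0 b1 b2 b3 b4 b6 b7 b8 b10 b11 b13 b14 : Bool,
    okA0 b0 b1 b2 b3 b4 true b6 b7 b8 true b10 b11 false b13 b14 = true → False := by
  decide +kernel

theorem zA0_4640_544 {p0 p1 p2 p3 p4 : V} (h : T.OkA0 p0 p1 p2 p3 p4)
    (n5 : T.X p0 p4 p1 p2 = true) (n9 : T.X p0 p2 p3 p4 = true) (n12 : T.X p1 p2 p3 p4 = false) : False := by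
  have h2 := h
  unfold Table.OkA0 at h2
  rw [n5, n9, n12] at h2
  exact bzA0_4640_544 _ _ _ _ _ _ _ _ _ _ _ _ h2

theorem bzA0_4708_4128 : ∀ b0 b1 b3 b4 b7 b8 b10 b11 b13 b14 : Bool,
    okA0 b0 b1 false b3 b4 true false b7 b8 false b10 b11 true b13 b14 = true → False := by
  decide +kernel

theorem zA0_4708_4128 {p0 p1 p2 p3 p4 : V} (h : T.OkA0 p0 p1 p2 p3 p4)
    (n2 : T.X p0 p3 p1 p2 = false) (n5 : T.X p0 p4 p1 p2 = true) (n6 : T.X p0 p1 p3 p4 = false) (n9 : T.X p0 p2 p3 p4 = false) (n12 : T.X p1 p2 p3 p4 = true) : False := by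
  have h2 := h
  unfold Table.OkA0 at h2
  rw [n2, n5, n6, n9, n12] at h2
  exact bzA0_4708_4128 _ _ _ _ _ _ _ _ _ _ h2

theorem bzA0_48_48 : ∀ b0 b1 b2 b3 b6 b7 b8 b9 b10 b11 b12 b13 b14 : Bool,
    okA0 b0 b1 b2 b3 true true b6 b7 b8 b9 b10 b11 b12 b13 b14 = true → False := by
  decide +kernel

theorem zA0_48_48 {p0 p1 p2 p3 p4 : V} (h : T.OkA0 p0 p1 p2 p3 p4)
    (n4 : T.X p0 p2 p1 p4 = true) (n5 : T.X p0 p4 p1 p2 = true) : False := by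
  have h2 := h
  unfold Table.OkA0 at h2
  rw [n4, n5] at h2
  exact bzA0_48_48 _ _ _ _ _ _ _ _ _ _ _ _ _ h2

theorem bzA0_8458_2 : ∀ b0 b2 b4 b5 b6 b7 b9 b10 b11 b12 b14 : Bool,
    okA0 b0 true b2 false b4 b5 b6 b7 false b9 b10 b11 b12 false b14 = true → False := by
  decide +kernel

theorem zA0_8458_2 {p0 p1 p2 p3 p4 : V} (h : T.OkA0 p0 p1 p2 p3 p4)
    (n1 : T.X p0 p2 p1 p3 = true) (n3 : T.X p0 p1 p2 p4 = false) (n8 : T.X p0 p4 p1 p3 = false) (n13 : T.X p1 p3 p2 p4 = false) : False := by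
  have h2 := h
  unfold Table.OkA0 at h2
  rw [n1, n3, n8, n13] at h2
  exact bzA0_8458_2 _ _ _ _ _ _ _ _ _ _ _ h2

theorem bzA0_9480_1024 : ∀ b0 b1 b2 b4 b5 b6 b7 b9 b11 b12 b14 : Bool,
    okA0 b0 b1 b2 false b4 b5 b6 b7 false b9 true b11 b12 false b14 = true → False := by
  decide +kernel

theorem zA0_9480_1024 {p0 p1 p2 p3 p4 : V} (h : T.OkA0 p0 p1 p2 p3 p4)
    (n3 : T.X p0 p1 p2 p4 = false) (n8 : T.X p0 p4 p1 p3 = false) (n10 : T.X p0 p3 p2 p4 = true) (n13 : T.X p1 p3 p2 p4 = false) : False := by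
  have h2 := h
  unfold Table.OkA0 at h2
  rw [n3, n8, n10, n13] at h2
  exact bzA0_9480_1024 _ _ _ _ _ _ _ _ _ _ _ h2

theorem bzA1_1168_1040 : ∀ b0 b1 b2 b3 b5 b6 b8 b9 b11 b12 b13 b14 : Bool,
    ok5a b0 b1 b2 b3 true b5 b6 false b8 b9 true b11 b12 b13 b14 = true → False := by
  decide +kernel

theorem zA1_1168_1040 {p0 p1 p2 p3 p4 : V} (h : T.Ok5a p0 p1 p2 p3 p4)
    (n4 : T.X p0 p2 p1 p4 = true) (n7 : T.X p0 p3 p1 p4 = false) (n10 : T.X p0 p3 p2 p4 = true) : False := by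
  have h2 := h
  unfold Table.Ok5a at h2
  rw [n4, n7, n10] at h2
  exact bzA1_1168_1040 _ _ _ _ _ _ _ _ _ _ _ _ h2

theorem bzA1_16420_16416 : ∀ b0 b1 b3 b4 b6 b7 b8 b9 b10 b11 b12 b13 : Bool,
    ok5a b0 b1 false b3 b4 true b6 b7 b8 b9 b10 b11 b12 b13 true = true → False := by
  decide +kernel

theorem zA1_16420_16416 {p0 p1 p2 p3 p4 : V} (h : T.Ok5a p0 p1 p2 p3 p4)
    (n2 : T.X p0 p3 p1 p2 = false) (n5 : T.X p0 p4 p1 p2 = true) (n14 : T.X p1 p4 p2 p3 = true) : False := by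
  have h2 := h
  unfold Table.Ok5a at h2
  rw [n2, n5, n14] at h2
  exact bzA1_16420_16416 _ _ _ _ _ _ _ _ _ _ _ _ h2

theorem bzA1_18561_1 : ∀ b1 b2 b3 b4 b5 b6 b8 b9 b10 b12 b13 : Bool,
    ok5a true b1 b2 b3 b4 b5 b6 false b8 b9 b10 false b12 b13 false = true → False := by
  decide +kernel

theorem zA1_18561_1 {p0 p1 p2 p3 p4 : V} (h : T.Ok5a p0 p1 p2 p3 p4)
    (n0 : T.X p0 p1 p2 p3 = true) (n7 : T.X p0 p3 p1 p4 = false) (n11 : T.X p0 p4 p2 p3 = false) (n14 : T.X p1 p4 p2 p3 = false) : False := by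
  have h2 := h
  unfold Table.Ok5a at h2
  rw [n0, n7, n11, n14] at h2
  exact bzA1_18561_1 _ _ _ _ _ _ _ _ _ _ _ h2

theorem bzA1_18577_18433 : ∀ b1 b2 b3 b5 b6 b8 b9 b10 b12 b13 : Bool,
    ok5a true b1 b2 b3 false b5 b6 false b8 b9 b10 true b12 b13 true = true → False := by
  decide +kernel

theorem zA1_18577_18433 {p0 p1 p2 p3 p4 : V} (h : T.Ok5a p0 p1 p2 p3 p4)
    (n0 : T.X p0 p1 p2 p3 = true) (n4 : T.X p0 p2 p1 p4 = false) (n7 : T.X p0 p3 p1 p4 = false) (n11 : T.X p0 p4 p2 p3 = true) (n14 : T.X p1 p4 p2 p3 = true) : False := by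
  have h2 := h
  unfold Table.Ok5a at h2
  rw [n0, n4, n7, n11, n14] at h2
  exact bzA1_18577_18433 _ _ _ _ _ _ _ _ _ _ h2

theorem bzA1_2307_2048 : ∀ b2 b3 b4 b5 b6 b7 b9 b10 b12 b13 b14 : Bool,
    ok5a false false b2 b3 b4 b5 b6 b7 false b9 b10 true b12 b13 b14 = true → False := by
  decide +kernel

theorem zA1_2307_2048 {p0 p1 p2 p3 p4 : V} (h : T.Ok5a p0 p1 p2 p3 p4)
    (n0 : T.X p0 p1 p2 p3 = false) (n1 : T.X p0 p2 p1 p3 = false) (n8 : T.X p0 p4 p1 p3 = false) (n11 : T.X p0 p4 p2 p3 = true) : False := by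
  have h2 := h
  unfold Table.Ok5a at h2
  rw [n0, n1, n8, n11] at h2
  exact bzA1_2307_2048 _ _ _ _ _ _ _ _ _ _ _ h2

theorem bzA1_294_32 : ∀ b0 b3 b4 b6 b7 b9 b10 b11 b12 b13 b14 : Bool,
    ok5a b0 false false b3 b4 true b6 b7 false b9 b10 b11 b12 b13 b14 = true → False := by
  decide +kernel

theorem zA1_294_32 {p0 p1 p2 p3 p4 : V} (h : T.Ok5a p0 p1 p2 p3 p4)
    (n1 : T.X p0 p2 p1 p3 = false) (n2 : T.X p0 p3 p1 p2 = false) (n5 : T.X p0 p4 p1 p2 = true) (n8 : T.X p0 p4 p1 p3 = false) : False := by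
  have h2 := h
  unfold Table.Ok5a at h2
  rw [n1, n2, n5, n8] at h2
  exact bzA1_294_32 _ _ _ _ _ _ _ _ _ _ _ h2

theorem bzA1_40_40 : ∀ b0 b1 b2 b4 b6 b7 b8 b9 b10 b11 b12 b13 b14 : Bool,
    ok5a b0 b1 b2 true b4 true b6 b7 b8 b9 b10 b11 b12 b13 b14 = true → False := by
  decide +kernel

theorem zA1_40_40 {p0 p1 p2 p3 p4 : V} (h : T.Ok5a p0 p1 p2 p3 p4)
    (n3 : T.X p0 p1 p2 p4 = true) (n5 : T.X p0 p4 p1 p2 = true) : False := by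
  have h2 := h
  unfold Table.Ok5a at h2
  rw [n3, n5] at h2
  exact bzA1_40_40 _ _ _ _ _ _ _ _ _ _ _ _ _ h2

theorem bzA1_4644_32 : ∀ b0 b1 b3 b4 b6 b7 b8 b10 b11 b13 b14 : Bool,
    ok5a b0 b1 false b3 b4 true b6 b7 b8 false b10 b11 false b13 b14 = true → False := by
  decide +kernel

theorem zA1_4644_32 {p0 p1 p2 p3 p4 : V} (h : T.Ok5a p0 p1 p2 p3 p4)
    (n2 : T.X p0 p3 p1 p2 = false) (n5 : T.X p0 p4 p1 p2 = true) (n9 : T.X p0 p2 p3 p4 = false) (n12 : T.X p1 p2 p3 p4 = false) : False := by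
  have h2 := h
  unfold Table.Ok5a at h2
  rw [n2, n5, n9, n12] at h2
  exact bzA1_4644_32 _ _ _ _ _ _ _ _ _ _ _ h2

theorem bzA1_4708_4132 : ∀ b0 b1 b3 b4 b7 b8 b10 b11 b13 b14 : Bool,
    ok5a b0 b1 true b3 b4 true false b7 b8 false b10 b11 true b13 b14 = true → False := by
  decide +kernel

theorem zA1_4708_4132 {p0 p1 p2 p3 p4 : V} (h : T.Ok5a p0 p1 p2 p3 p4)
    (n2 : T.X p0 p3 p1 p2 = true) (n5 : T.X p0 p4 p1 p2 = true) (n6 : T.X p0 p1 p3 p4 = false) (n9 : T.X p0 p2 p3 p4 = false) (n12 : T.X p1 p2 p3 p4 = true) : False := by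
  have h2 := h
  unfold Table.Ok5a at h2
  rw [n2, n5, n6, n9, n12] at h2
  exact bzA1_4708_4132 _ _ _ _ _ _ _ _ _ _ h2

theorem bzA1_8202_10 : ∀ b0 b2 b4 b5 b6 b7 b8 b9 b10 b11 b12 b14 : Bool,
    ok5a b0 true b2 true b4 b5 b6 b7 b8 b9 b10 b11 b12 false b14 = true → False := by
  decide +kernel

theorem zA1_8202_10 {p0 p1 p2 p3 p4 : V} (h : T.Ok5a p0 p1 p2 p3 p4)
    (n1 : T.X p0 p2 p1 p3 = true) (n3 : T.X p0 p1 p2 p4 = true) (n13 : T.X p1 p3 p2 p4 = false) : False := by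
  have h2 := h
  unfold Table.Ok5a at h2
  rw [n1, n3, n13] at h2
  exact bzA1_8202_10 _ _ _ _ _ _ _ _ _ _ _ _ h2

theorem bzA1_9224_1032 : ∀ b0 b1 b2 b4 b5 b6 b7 b8 b9 b11 b12 b14 : Bool,
    ok5a b0 b1 b2 true b4 b5 b6 b7 b8 b9 true b11 b12 false b14 = true → False := by
  decide +kernel

theorem zA1_9224_1032 {p0 p1 p2 p3 p4 : V} (h : T.Ok5a p0 p1 p2 p3 p4)
    (n3 : T.X p0 p1 p2 p4 = true) (n10 : T.X p0 p3 p2 p4 = true) (n13 : T.X p1 p3 p2 p4 = false) : False := by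
  have h2 := h
  unfold Table.Ok5a at h2
  rw [n3, n10, n13] at h2
  exact bzA1_9224_1032 _ _ _ _ _ _ _ _ _ _ _ _ h2

theorem bzA1_9482_8200 : ∀ b0 b2 b4 b5 b6 b7 b9 b11 b12 b14 : Bool,
    ok5a b0 false b2 true b4 b5 b6 b7 false b9 false b11 b12 true b14 = true → False := by
  decide +kernel

theorem zA1_9482_8200 {p0 p1 p2 p3 p4 : V} (h : T.Ok5a p0 p1 p2 p3 p4)
    (n1 : T.X p0 p2 p1 p3 = false) (n3 : T.X p0 p1 p2 p4 = true) (n8 : T.X p0 p4 p1 p3 = false) (n10 : T.X p0 p3 p2 p4 = false) (n13 : T.X p1 p3 p2 p4 = true) : False := by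
  have h2 := h
  unfold Table.Ok5a at h2
  rw [n1, n3, n8, n10, n13] at h2
  exact bzA1_9482_8200 _ _ _ _ _ _ _ _ _ _ h2

theorem bzA2_150_144 : ∀ b0 b3 b5 b6 b8 b9 b10 b11 b12 b13 b14 : Bool,
    okA2 b0 false false b3 true b5 b6 true b8 b9 b10 b11 b12 b13 b14 = true → False := by
  decide +kernel

theorem zA2_150_144 {p0 p1 p2 p3 p4 : V} (h : T.OkA2 p0 p1 p2 p3 p4)
    (n1 : T.X p0 p2 p1 p3 = false) (n2 : T.X p0 p3 p1 p2 = false) (n4 : T.X p0 p2 p1 p4 = true) (n7 : T.X p0 p3 p1 p4 = true) : False := by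
  have h2 := h
  unfold Table.OkA2 at h2
  rw [n1, n2, n4, n7] at h2
  exact bzA2_150_144 _ _ _ _ _ _ _ _ _ _ _ h2

theorem bzA2_16528_144 : ∀ b0 b1 b2 b3 b5 b6 b8 b9 b10 b11 b12 b13 : Bool,
    okA2 b0 b1 b2 b3 true b5 b6 true b8 b9 b10 b11 b12 b13 false = true → False := by
  decide +kernel

theorem zA2_16528_144 {p0 p1 p2 p3 p4 : V} (h : T.OkA2 p0 p1 p2 p3 p4)
    (n4 : T.X p0 p2 p1 p4 = true) (n7 : T.X p0 p3 p1 p4 = true) (n14 : T.X p1 p4 p2 p3 = false) : False := by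
  have h2 := h
  unfold Table.OkA2 at h2
  rw [n4, n7, n14] at h2
  exact bzA2_16528_144 _ _ _ _ _ _ _ _ _ _ _ _ h2

theorem bzA2_18577_0 : ∀ b1 b2 b3 b5 b6 b8 b9 b10 b12 b13 : Bool,
    okA2 false b1 b2 b3 false b5 b6 false b8 b9 b10 false b12 b13 false = true → False := by
  decide +kernel

theorem zA2_18577_0 {p0 p1 p2 p3 p4 : V} (h : T.OkA2 p0 p1 p2 p3 p4)
    (n0 : T.X p0 p1 p2 p3 = false) (n4 : T.X p0 p2 p1 p4 = false) (n7 : T.X p0 p3 p1 p4 = false) (n11 : T.X p0 p4 p2 p3 = false) (n14 : T.X p1 p4 p2 p3 = false) : False := by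
  have h2 := h
  unfold Table.OkA2 at h2
  rw [n0, n4, n7, n11, n14] at h2
  exact bzA2_18577_0 _ _ _ _ _ _ _ _ _ _ h2

theorem bzA2_18577_18432 : ∀ b1 b2 b3 b5 b6 b8 b9 b10 b12 b13 : Bool,
    okA2 false b1 b2 b3 false b5 b6 false b8 b9 b10 true b12 b13 true = true → False := by
  decide +kernel

theorem zA2_18577_18432 {p0 p1 p2 p3 p4 : V} (h : T.OkA2 p0 p1 p2 p3 p4)
    (n0 : T.X p0 p1 p2 p3 = false) (n4 : T.X p0 p2 p1 p4 = false) (n7 : T.X p0 p3 p1 p4 = false) (n11 : T.X p0 p4 p2 p3 = true) (n14 : T.X p1 p4 p2 p3 = true) : False := by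
  have h2 := h
  unfold Table.OkA2 at h2
  rw [n0, n4, n7, n11, n14] at h2
  exact bzA2_18577_18432 _ _ _ _ _ _ _ _ _ _ h2

theorem bzA2_2089_2049 : ∀ b1 b2 b4 b6 b7 b8 b9 b10 b12 b13 b14 : Bool,
    okA2 true b1 b2 false b4 false b6 b7 b8 b9 b10 true b12 b13 b14 = true → False := by
  decide +kernel

theorem zA2_2089_2049 {p0 p1 p2 p3 p4 : V} (h : T.OkA2 p0 p1 p2 p3 p4)
    (n0 : T.X p0 p1 p2 p3 = true) (n3 : T.X p0 p1 p2 p4 = false) (n5 : T.X p0 p4 p1 p2 = false) (n11 : T.X p0 p4 p2 p3 = true) : False := by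
  have h2 := h
  unfold Table.OkA2 at h2
  rw [n0, n3, n5, n11] at h2
  exact bzA2_2089_2049 _ _ _ _ _ _ _ _ _ _ _ h2

theorem bzA2_4164_68 : ∀ b0 b1 b3 b4 b5 b7 b8 b9 b10 b11 b13 b14 : Bool,
    okA2 b0 b1 true b3 b4 b5 true b7 b8 b9 b10 b11 false b13 b14 = true → False := by
  decide +kernel

theorem zA2_4164_68 {p0 p1 p2 p3 p4 : V} (h : T.OkA2 p0 p1 p2 p3 p4)
    (n2 : T.X p0 p3 p1 p2 = true) (n6 : T.X p0 p1 p3 p4 = true) (n12 : T.X p1 p2 p3 p4 = false) : False := by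
  have h2 := h
  unfold Table.OkA2 at h2
  rw [n2, n6, n12] at h2
  exact bzA2_4164_68 _ _ _ _ _ _ _ _ _ _ _ _ h2

theorem bzA2_4676_512 : ∀ b0 b1 b3 b4 b5 b7 b8 b10 b11 b13 b14 : Bool,
    okA2 b0 b1 false b3 b4 b5 false b7 b8 true b10 b11 false b13 b14 = true → False := by
  decide +kernel

theorem zA2_4676_512 {p0 p1 p2 p3 p4 : V} (h : T.OkA2 p0 p1 p2 p3 p4)
    (n2 : T.X p0 p3 p1 p2 = false) (n6 : T.X p0 p1 p3 p4 = false) (n9 : T.X p0 p2 p3 p4 = true) (n12 : T.X p1 p2 p3 p4 = false) : False := by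
  have h2 := h
  unfold Table.OkA2 at h2
  rw [n2, n6, n9, n12] at h2
  exact bzA2_4676_512 _ _ _ _ _ _ _ _ _ _ _ h2

theorem bzA2_4708_4192 : ∀ b0 b1 b3 b4 b7 b8 b10 b11 b13 b14 : Bool,
    okA2 b0 b1 false b3 b4 true true b7 b8 false b10 b11 true b13 b14 = true → False := by
  decide +kernel

theorem zA2_4708_4192 {p0 p1 p2 p3 p4 : V} (h : T.OkA2 p0 p1 p2 p3 p4)
    (n2 : T.X p0 p3 p1 p2 = false) (n5 : T.X p0 p4 p1 p2 = true) (n6 : T.X p0 p1 p3 p4 = true) (n9 : T.X p0 p2 p3 p4 = false) (n12 : T.X p1 p2 p3 p4 = true) : False := by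
  have h2 := h
  unfold Table.OkA2 at h2
  rw [n2, n5, n6, n9, n12] at h2
  exact bzA2_4708_4192 _ _ _ _ _ _ _ _ _ _ h2

theorem bzA2_577_513 : ∀ b1 b2 b3 b4 b5 b7 b8 b10 b11 b12 b13 b14 : Bool,
    okA2 true b1 b2 b3 b4 b5 false b7 b8 true b10 b11 b12 b13 b14 = true → False := by
  decide +kernel

theorem zA2_577_513 {p0 p1 p2 p3 p4 : V} (h : T.OkA2 p0 p1 p2 p3 p4)
    (n0 : T.X p0 p1 p2 p3 = true) (n6 : T.X p0 p1 p3 p4 = false) (n9 : T.X p0 p2 p3 p4 = true) : False := by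
  have h2 := h
  unfold Table.OkA2 at h2
  rw [n0, n6, n9] at h2
  exact bzA2_577_513 _ _ _ _ _ _ _ _ _ _ _ _ h2

theorem bzA2_8228_8196 : ∀ b0 b1 b3 b4 b6 b7 b8 b9 b10 b11 b12 b14 : Bool,
    okA2 b0 b1 true b3 b4 false b6 b7 b8 b9 b10 b11 b12 true b14 = true → False := by
  decide +kernel

theorem zA2_8228_8196 {p0 p1 p2 p3 p4 : V} (h : T.OkA2 p0 p1 p2 p3 p4)
    (n2 : T.X p0 p3 p1 p2 = true) (n5 : T.X p0 p4 p1 p2 = false) (n13 : T.X p1 p3 p2 p4 = true) : False := by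
  have h2 := h
  unfold Table.OkA2 at h2
  rw [n2, n5, n13] at h2
  exact bzA2_8228_8196 _ _ _ _ _ _ _ _ _ _ _ _ h2

theorem bzA2_9474_2 : ∀ b0 b2 b3 b4 b5 b6 b7 b9 b11 b12 b14 : Bool,
    okA2 b0 true b2 b3 b4 b5 b6 b7 false b9 false b11 b12 false b14 = true → False := by
  decide +kernel

theorem zA2_9474_2 {p0 p1 p2 p3 p4 : V} (h : T.OkA2 p0 p1 p2 p3 p4)
    (n1 : T.X p0 p2 p1 p3 = true) (n8 : T.X p0 p4 p1 p3 = false) (n10 : T.X p0 p3 p2 p4 = false) (n13 : T.X p1 p3 p2 p4 = false) : False := by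
  have h2 := h
  unfold Table.OkA2 at h2
  rw [n1, n8, n10, n13] at h2
  exact bzA2_9474_2 _ _ _ _ _ _ _ _ _ _ _ h2

theorem bzA2_9482_8456 : ∀ b0 b2 b4 b5 b6 b7 b9 b11 b12 b14 : Bool,
    okA2 b0 false b2 true b4 b5 b6 b7 true b9 false b11 b12 true b14 = true → False := by
  decide +kernel

theorem zA2_9482_8456 {p0 p1 p2 p3 p4 : V} (h : T.OkA2 p0 p1 p2 p3 p4)
    (n1 : T.X p0 p2 p1 p3 = false) (n3 : T.X p0 p1 p2 p4 = true) (n8 : T.X p0 p4 p1 p3 = true) (n10 : T.X p0 p3 p2 p4 = false) (n13 : T.X p1 p3 p2 p4 = true) : False := by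
  have h2 := h
  unfold Table.OkA2 at h2
  rw [n1, n3, n8, n10, n13] at h2
  exact bzA2_9482_8456 _ _ _ _ _ _ _ _ _ _ h2

theorem bzsp_1156_1156 : ∀ b0 b1 b3 b4 b5 b6 b8 b9 b11 b12 b13 b14 : Bool,
    sp5 b0 b1 true b3 b4 b5 b6 true b8 b9 true b11 b12 b13 b14 = true → False := by
  decide +kernel

theorem zsp_1156_1156 {a p0 p1 p2 p3 p4 : V} (h : T.Sp5 a p0 p1 p2 p3 p4)
    (n2 : T.alt a p0 p3 p1 p2 = true) (n7 : T.alt a p0 p3 p1 p4 = true) (n10 : T.alt a p0 p3 p2 p4 = true) : False := by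
  have h2 := h
  unfold Table.Sp5 at h2
  rw [n2, n7, n10] at h2
  exact bzsp_1156_1156 _ _ _ _ _ _ _ _ _ _ _ _ h2

theorem bzsp_16528_16528 : ∀ b0 b1 b2 b3 b5 b6 b8 b9 b10 b11 b12 b13 : Bool,
    sp5 b0 b1 b2 b3 true b5 b6 true b8 b9 b10 b11 b12 b13 true = true → False := by
  decide +kernel

theorem zsp_16528_16528 {a p0 p1 p2 p3 p4 : V} (h : T.Sp5 a p0 p1 p2 p3 p4)
    (n4 : T.alt a p0 p2 p1 p4 = true) (n7 : T.alt a p0 p3 p1 p4 = true) (n14 : T.alt a p1 p4 p2 p3 = true) : False := by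
  have h2 := h
  unfold Table.Sp5 at h2
  rw [n4, n7, n14] at h2
  exact bzsp_16528_16528 _ _ _ _ _ _ _ _ _ _ _ _ h2

theorem bzsp_18433_18433 : ∀ b1 b2 b3 b4 b5 b6 b7 b8 b9 b10 b12 b13 : Bool,
    sp5 true b1 b2 b3 b4 b5 b6 b7 b8 b9 b10 true b12 b13 true = true → False := by
  decide +kernel

theorem zsp_18433_18433 {a p0 p1 p2 p3 p4 : V} (h : T.Sp5 a p0 p1 p2 p3 p4)
    (n0 : T.alt a p0 p1 p2 p3 = true) (n11 : T.alt a p0 p4 p2 p3 = true) (n14 : T.alt a p1 p4 p2 p3 = true) : False := by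
  have h2 := h
  unfold Table.Sp5 at h2
  rw [n0, n11, n14] at h2
  exact bzsp_18433_18433 _ _ _ _ _ _ _ _ _ _ _ _ h2

theorem bzsp_2336_2336 : ∀ b0 b1 b2 b3 b4 b6 b7 b9 b10 b12 b13 b14 : Bool,
    sp5 b0 b1 b2 b3 b4 true b6 b7 true b9 b10 true b12 b13 b14 = true → False := by
  decide +kernel

theorem zsp_2336_2336 {a p0 p1 p2 p3 p4 : V} (h : T.Sp5 a p0 p1 p2 p3 p4)
    (n5 : T.alt a p0 p4 p1 p2 = true) (n8 : T.alt a p0 p4 p1 p3 = true) (n11 : T.alt a p0 p4 p2 p3 = true) : False := by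
  have h2 := h
  unfold Table.Sp5 at h2
  rw [n5, n8, n11] at h2
  exact bzsp_2336_2336 _ _ _ _ _ _ _ _ _ _ _ _ h2

theorem bzsp_4132_4132 : ∀ b0 b1 b3 b4 b6 b7 b8 b9 b10 b11 b13 b14 : Bool,
    sp5 b0 b1 true b3 b4 true b6 b7 b8 b9 b10 b11 true b13 b14 = true → False := by
  decide +kernel

theorem zsp_4132_4132 {a p0 p1 p2 p3 p4 : V} (h : T.Sp5 a p0 p1 p2 p3 p4)
    (n2 : T.alt a p0 p3 p1 p2 = true) (n5 : T.alt a p0 p4 p1 p2 = true) (n12 : T.alt a p1 p2 p3 p4 = true) : False := by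
  have h2 := h
  unfold Table.Sp5 at h2
  rw [n2, n5, n12] at h2
  exact bzsp_4132_4132 _ _ _ _ _ _ _ _ _ _ _ _ h2

theorem bzsp_4672_4672 : ∀ b0 b1 b2 b3 b4 b5 b7 b8 b10 b11 b13 b14 : Bool,
    sp5 b0 b1 b2 b3 b4 b5 true b7 b8 true b10 b11 true b13 b14 = true → False := by
  decide +kernel

theorem zsp_4672_4672 {a p0 p1 p2 p3 p4 : V} (h : T.Sp5 a p0 p1 p2 p3 p4)
    (n6 : T.alt a p0 p1 p3 p4 = true) (n9 : T.alt a p0 p2 p3 p4 = true) (n12 : T.alt a p1 p2 p3 p4 = true) : False := by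
  have h2 := h
  unfold Table.Sp5 at h2
  rw [n6, n9, n12] at h2
  exact bzsp_4672_4672 _ _ _ _ _ _ _ _ _ _ _ _ h2

theorem bzsp_530_530 : ∀ b0 b2 b3 b5 b6 b7 b8 b10 b11 b12 b13 b14 : Bool,
    sp5 b0 true b2 b3 true b5 b6 b7 b8 true b10 b11 b12 b13 b14 = true → False := by
  decide +kernel

theorem zsp_530_530 {a p0 p1 p2 p3 p4 : V} (h : T.Sp5 a p0 p1 p2 p3 p4)
    (n1 : T.alt a p0 p2 p1 p3 = true) (n4 : T.alt a p0 p2 p1 p4 = true) (n9 : T.alt a p0 p2 p3 p4 = true) : False := by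
  have h2 := h
  unfold Table.Sp5 at h2
  rw [n1, n4, n9] at h2
  exact bzsp_530_530 _ _ _ _ _ _ _ _ _ _ _ _ h2

theorem bzsp_73_73 : ∀ b1 b2 b4 b5 b7 b8 b9 b10 b11 b12 b13 b14 : Bool,
    sp5 true b1 b2 true b4 b5 true b7 b8 b9 b10 b11 b12 b13 b14 = true → False := by
  decide +kernel

theorem zsp_73_73 {a p0 p1 p2 p3 p4 : V} (h : T.Sp5 a p0 p1 p2 p3 p4)
    (n0 : T.alt a p0 p1 p2 p3 = true) (n3 : T.alt a p0 p1 p2 p4 = true) (n6 : T.alt a p0 p1 p3 p4 = true) : False := by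
  have h2 := h
  unfold Table.Sp5 at h2
  rw [n0, n3, n6] at h2
  exact bzsp_73_73 _ _ _ _ _ _ _ _ _ _ _ _ h2

theorem bzsp_8450_8450 : ∀ b0 b2 b3 b4 b5 b6 b7 b9 b10 b11 b12 b14 : Bool,
    sp5 b0 true b2 b3 b4 b5 b6 b7 true b9 b10 b11 b12 true b14 = true → False := by
  decide +kernel

theorem zsp_8450_8450 {a p0 p1 p2 p3 p4 : V} (h : T.Sp5 a p0 p1 p2 p3 p4)
    (n1 : T.alt a p0 p2 p1 p3 = true) (n8 : T.alt a p0 p4 p1 p3 = true) (n13 : T.alt a p1 p3 p2 p4 = true) : False := by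
  have h2 := h
  unfold Table.Sp5 at h2
  rw [n1, n8, n13] at h2
  exact bzsp_8450_8450 _ _ _ _ _ _ _ _ _ _ _ _ h2

theorem bzsp_9224_9224 : ∀ b0 b1 b2 b4 b5 b6 b7 b8 b9 b11 b12 b14 : Bool,
    sp5 b0 b1 b2 true b4 b5 b6 b7 b8 b9 true b11 b12 true b14 = true → False := by
  decide +kernel

theorem zsp_9224_9224 {a p0 p1 p2 p3 p4 : V} (h : T.Sp5 a p0 p1 p2 p3 p4)
    (n3 : T.alt a p0 p1 p2 p4 = true) (n10 : T.alt a p0 p3 p2 p4 = true) (n13 : T.alt a p1 p3 p2 p4 = true) : False := by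
  have h2 := h
  unfold Table.Sp5 at h2
  rw [n3, n10, n13] at h2
  exact bzsp_9224_9224 _ _ _ _ _ _ _ _ _ _ _ _ h2

end H53P
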