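import Pool.Agent.Lib.H63L.FD

/-!
# H63L, file GS: support for the generated facts
-/

set_option autoImplicit false

namespace H53P

variable {V : Type} (T : Table V)

theorem Table.as3 (u a b c d : V) : T.alt u a b c d = T.alt u b a d c := by
  rw [T.as1 u a b c d, T.as2 u b a c d]

theorem Table.as5 (u a b c d : V) : T.alt u a b c d = T.alt u d c a b := by
  rw [T.as4 u a b c d, T.as1 u c d a b]

theorem Table.as6 (u a b c d : V) : T.alt u a b c d = T.alt u c d b a := by
  rw [T.as4 u a b c d, T.as2 u c d a b]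

theorem Table.as7 (u a b c d : V) : T.alt u a b c d = T.alt u d c b a := by
  rw [T.as4 u a b c d, T.as3 u c d a b]

theorem Table.q01 (a b c d : V) (h1 : T.X a b c d = true) (h2 : T.X a c b d = true) : False := by
  have h := T.one a b c d h1
  rw [h2] at h
  exact absurd h (by decide)

theorem Table.q02 (a b c d : V) (h1 : T.X a b c d = true) (h2 : T.X a d b c = true) : False := by
  rw [T.xs2] at h1
  exact T.q01 a b d c h1 h2

theorem Table.q12 (a b c d : V) (h1 : T.X a c b d = true) (h2 : T.X a d b c = true) : False := by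
  rw [T.xs2] at h1 h2
  exact T.q01 a c d b h1 h2

theorem Table.bfo_eq {p x y w z : V} {α β γ : Bool} (e1 : T.alt p x y w z = α) (e2 : T.X p w x z = β)
    (e3 : T.alt p x z w y = γ) : T.bfo p x y w z = (bif α then β else γ) := by
  unfold Table.bfo
  rw [e1, e2, e3]
  cases α <;> simp

theorem Table.lto_eq {p r c d a b : V} {x1 x2 x3 ya yb v1 v2 va v3 vb : Bool} (e1 : T.X c r p a = x1)
    (e2 : T.X c r a b = x2) (e3 : T.X c r b p = x3) (e4 : T.X p a c d = ya) (e5 : T.X p b c d = yb)
    (g1 : v1 = (x1 ^^ x2)) (g2 : v2 = (v1 ^^ x3)) (ga : va = (ya && T.bfo p c d a r))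
    (g3 : v3 = (v2 ^^ va)) (gb : vb = (yb && T.bfo p c d b r)) : T.lto p r c d a b = (v3 ^^ vb) := by
  unfold Table.lto Table.ctr
  rw [e1, e2, e3, e4, e5, gb, g3, ga, g2, g1]

theorem Table.lto_eqa {p r c a b : V} {x1 x2 x3 yb v1 v2 vb : Bool} (e1 : T.X c r p a = x1)
    (e2 : T.X c r a b = x2) (e3 : T.X c r b p = x3) (e5 : T.X p b c a = yb)
    (g1 : v1 = (x1 ^^ x2)) (g2 : v2 = (v1 ^^ x3)) (gb : vb = (yb && T.bfo p c a b r)) :
    T.lto p r c a a b = (v2 ^^ vb) := by
  have e4 : T.X p a c a = false := by
    cases h : T.X p a c a with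
    | false => rfl
    | true => exact absurd rfl (T.ne _ _ _ _ h).2.2.2.2.2
  unfold Table.lto Table.ctr
  rw [e1, e2, e3, e4, e5, gb, g2, g1, Bool.false_and, Bool.xor_false]

theorem Table.lto_eqb {p r c a b : V} {x1 x2 x3 ya v1 v2 va : Bool} (e1 : T.X c r p a = x1)
    (e2 : T.X c r a b = x2) (e3 : T.X c r b p = x3) (e4 : T.X p a c b = ya)
    (g1 : v1 = (x1 ^^ x2)) (g2 : v2 = (v1 ^^ x3)) (ga : va = (ya && T.bfo p c b a r)) :
    T.lto p r c b a b = (v2 ^^ va) := by
  have e5 : T.X p b c b = false := by
    cases h : T.X p b c b with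
    | false => rfl
    | true => exact absurd rfl (T.ne _ _ _ _ h).2.2.2.2.2
  unfold Table.lto Table.ctr
  rw [e1, e2, e3, e4, e5, ga, g2, g1, Bool.false_and, Bool.xor_false]

variable {T}

theorem it1 {v a b c : Bool} (h : v = (bif a then b else c)) (n0 : v = false) (n1 : a = true)
    (n2 : b = true) : False := by
  subst n1 n2
  rw [n0] at h
  exact Bool.false_ne_true h

theorem it2 {v a b c : Bool} (h : v = (bif a then b else c)) (n0 : v = true) (n1 : a = true)
    (n2 : b = false) : False := by
  subst n1 n2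
  rw [n0] at h
  exact Bool.false_ne_true h.symm

theorem it3 {v a b c : Bool} (h : v = (bif a then b else c)) (n0 : v = false) (n1 : a = false)
    (n2 : c = true) : False := by
  subst n1 n2
  rw [n0] at h
  exact Bool.false_ne_true h

theorem it4 {v a b c : Bool} (h : v = (bif a then b else c)) (n0 : v = true) (n1 : a = false)
    (n2 : c = false) : False := by
  subst n1 n2
  rw [n0] at h
  exact Bool.false_ne_true h.symm

theorem xr1 {v a b : Bool} (h : v = (a ^^ b)) (n0 : v = true) (n1 : a = true) (n2 : b = true) :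
    False := by
  subst n1 n2
  rw [n0] at h
  exact Bool.false_ne_true h.symm

theorem xr2 {v a b : Bool} (h : v = (a ^^ b)) (n0 : v = true) (n1 : a = false) (n2 : b = false) :
    False := by
  subst n1 n2
  rw [n0] at h
  exact Bool.false_ne_true h.symm

theorem xr3 {v a b : Bool} (h : v = (a ^^ b)) (n0 : v = false) (n1 : a = true) (n2 : b = false) :
    False := by
  subst n1 n2
  rw [n0] at h
  exact Bool.false_ne_true h

theorem xr4 {v a b : Bool} (h : v = (a ^^ b)) (n0 : v = false) (n1 : a = false) (n2 : b = true) :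
    False := by
  subst n1 n2
  rw [n0] at h
  exact Bool.false_ne_true h

theorem an0 {v a b : Bool} (h : v = (a && b)) (n0 : v = false) (n1 : a = true) (n2 : b = true) :
    False := by
  subst n1 n2
  rw [n0] at h
  exact Bool.false_ne_true h

theorem an1 {v a b : Bool} (h : v = (a && b)) (n0 : v = true) (n1 : a = false) : False := by
  subst n1
  rw [n0] at h
  exact Bool.false_ne_true h.symm

theorem an2 {v a b : Bool} (h : v = (a && b)) (n0 : v = true) (n1 : b = false) : False := by
  subst n1
  rw [n0, Bool.and_false] at h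
  exact Bool.false_ne_true h.symm

end H53P
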